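import Pool.Agent.SPF.StmtsE
import Pool.Agent.DRB.Basic

set_option linter.unusedSectionVars false

/-!
# Shimura period relations, outer block: level `k` theta functions, `S ⟹ AbVar`, homomorphisms of
abelian varieties are algebraic, base points (Weierstrass functions), inflation

Text: /team-store/SPR_OUT.md (helper7)
-/

open scoped BigOperators
open Complex

namespace Pool.Agent.SPF

noncomputable section

/-! ## Theta functions of level `k` -/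

section Level

variable {V : Type} [AddCommGroup V] [Module ℚ V] {ι : Type} [Fintype ι] [DecidableEq ι]

/-- theta functions of level `k` with character `exp (2 π i e(·, w))` for the lattice of `B` -/
structure IsTk (e : V →ₗ[ℚ] V →ₗ[ℚ] ℚ) (ζ L : V →ₗ[ℚ] (ι → ℂ)) (B : Module.Basis (ι ⊕ ι) ℚ V)
    (k : ℕ) (w : V) (F : (ι → ℂ) → ℂ) : Prop where
  entire : Differentiable ℂ F
  per : ∀ j z, TT ζ (⇑(k • L)) (B j) F z = cexp (2 * Real.pi * I * (e (B j) w : ℚ)) * F z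

/-- the conclusion of `SDat` for fixed `κ` -/
def AlgT (ζ L : V →ₗ[ℚ] (ι → ℂ)) (T : (ι → ℂ) → ℂ) (κ : ℂ) (c : ι → ℂ) : Prop :=
  κ ≠ 0 ∧ (∀ i, c i ≠ 0) ∧
    ∀ x : V, Alg (TT ζ L x T 0 / κ) ∧ ∀ i, Alg (pd i (TT ζ L x T) 0 / (κ * c i))

/-- the Wronskian -/
def wron (i : ι) (F G : (ι → ℂ) → ℂ) : (ι → ℂ) → ℂ := fun z => F z * pd i G z - G z * pd i F z

end Level

/-- Irreducibility: every nonzero theta function of level `k` generates all of them. -/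
def Stmt_IRR : Prop :=
  ∀ (V : Type) [AddCommGroup V] [Module ℚ V] (ι : Type) [Fintype ι] [DecidableEq ι]
    (e : V →ₗ[ℚ] V →ₗ[ℚ] ℚ) (B : Module.Basis (ι ⊕ ι) ℚ V) (ζ L : V →ₗ[ℚ] (ι → ℂ)),
    SympBasis e B → IsPStr e B ζ L → ∀ (k : ℕ) (w : V) (F G : (ι → ℂ) → ℂ), 0 < k →
    IsTk e ζ L B k w F → F ≠ 0 → IsTk e ζ L B k w G →
    G ∈ Submodule.span ℂ {H | ∃ y : V, (k : ℚ) • y ∈ lat B ∧ H = TT ζ (⇑(k • L)) y F}

/-- The dimension of the space of theta functions of level `k` is at most `k ^ n`. -/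
def Stmt_DIM : Prop :=
  ∀ (V : Type) [AddCommGroup V] [Module ℚ V] (ι : Type) [Fintype ι] [DecidableEq ι]
    (e : V →ₗ[ℚ] V →ₗ[ℚ] ℚ) (B : Module.Basis (ι ⊕ ι) ℚ V) (ζ L : V →ₗ[ℚ] (ι → ℂ)),
    SympBasis e B → IsPStr e B ζ L → ∀ (k : ℕ) (w : V), 0 < k →
    ∀ F : Fin (k ^ Fintype.card ι + 1) → ((ι → ℂ) → ℂ), (∀ a, IsTk e ζ L B k w (F a)) →
    ¬ LinearIndependent ℂ F

/-- Theta functions of level `k` are combinations of `k`-th powers of translates of `Th`. -/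
def Stmt_SPN : Prop :=
  ∀ (V : Type) [AddCommGroup V] [Module ℚ V] (ι : Type) [Fintype ι] [DecidableEq ι]
    (e : V →ₗ[ℚ] V →ₗ[ℚ] ℚ) (B : Module.Basis (ι ⊕ ι) ℚ V) (ζ L : V →ₗ[ℚ] (ι → ℂ)),
    SympBasis e B → IsPStr e B ζ L → ∀ T : (ι → ℂ) → ℂ, IsTh ζ L B T → T ≠ 0 →
    ∀ (k : ℕ) (w : V) (G : (ι → ℂ) → ℂ), 0 < k → IsTk e ζ L B k w G →
    G ∈ Submodule.span ℂ {H | ∃ x l : V, l ∈ lat B ∧ (k : ℚ) • x = w + l ∧
      H = fun z => TT ζ L x T z ^ k}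

/-- Linear algebra: a complex combination with algebraic values is an algebraic combination. -/
def Stmt_LALG : Prop :=
  ∀ (X Y : Type) (s : Y → X → ℂ) (g : X → ℂ), (∀ y x, Alg (s y x)) → (∀ x, Alg (g x)) →
    g ∈ Submodule.span ℂ (Set.range s) →
    ∃ a : Y →₀ ℂ, (∀ y, Alg (a y)) ∧ ∀ x, g x = a.sum fun y c => c * s y x

/-- Products of theta functions of even large level. -/
def Stmt_NRM : Prop :=
  ∀ (V : Type) [AddCommGroup V] [Module ℚ V] (ι : Type) [Fintype ι] [DecidableEq ι]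
    (e : V →ₗ[ℚ] V →ₗ[ℚ] ℚ) (B : Module.Basis (ι ⊕ ι) ℚ V) (ζ L : V →ₗ[ℚ] (ι → ℂ)),
    SympBasis e B → IsPStr e B ζ L → ∃ k₀ : ℕ, ∀ k : ℕ, k₀ ≤ k → Even k → 0 < k →
    ∀ (w : V) (F : (ι → ℂ) → ℂ), IsTk e ζ L B (2 * k) (w + w) F →
    F ∈ Submodule.span ℂ {H | ∃ G G' : (ι → ℂ) → ℂ, IsTk e ζ L B k w G ∧ IsTk e ζ L B k w G' ∧
      H = fun z => G z * G' z}

/-- Poincaré series: functions of level `k` which are small at the nonzero points of order two. -/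
def Stmt_POI : Prop :=
  ∀ (V : Type) [AddCommGroup V] [Module ℚ V] (ι : Type) [Fintype ι] [DecidableEq ι]
    (e : V →ₗ[ℚ] V →ₗ[ℚ] ℚ) (B : Module.Basis (ι ⊕ ι) ℚ V) (ζ L : V →ₗ[ℚ] (ι → ℂ)),
    SympBasis e B → IsPStr e B ζ L → ∀ ε : ℝ, 0 < ε → ∃ k₀ : ℕ, ∀ k : ℕ, k₀ ≤ k → 0 < k →
    ∀ w : V, ∃ G : (ι → ℂ) → ℂ, IsTk e ζ L B k w G ∧ G 0 ≠ 0 ∧
      ∀ S : Finset (ι ⊕ ι), S.Nonempty →
        ‖TT ζ (⇑(k • L)) ((1 / 2 : ℚ) • ∑ j ∈ S, B j) G 0‖ ≤ ε * ‖G 0‖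

/-- Algebraic values at torsion points imply algebraic gradients at torsion points. -/
def Stmt_ALGD : Prop :=
  ∀ (V : Type) [AddCommGroup V] [Module ℚ V] (ι : Type) [Fintype ι] [DecidableEq ι]
    (e : V →ₗ[ℚ] V →ₗ[ℚ] ℚ) (B : Module.Basis (ι ⊕ ι) ℚ V) (ζ L : V →ₗ[ℚ] (ι → ℂ)),
    SympBasis e B → IsPStr e B ζ L → ∀ T : (ι → ℂ) → ℂ, IsTh ζ L B T → T ≠ 0 →
    ∀ (κ : ℂ) (c : ι → ℂ), AlgT ζ L T κ c → ∀ (k : ℕ) (w : V) (F : (ι → ℂ) → ℂ), 0 < k →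
    IsTk e ζ L B k w F → (∀ y, Alg (TT ζ (⇑(k • L)) y F 0 / κ ^ k)) →
    ∀ y i, Alg (pd i (TT ζ (⇑(k • L)) y F) 0 / (κ ^ k * c i))

/-- The immersion property for sufficiently divisible levels. -/
def Stmt_IMK : Prop :=
  ∀ (V : Type) [AddCommGroup V] [Module ℚ V] (ι : Type) [Fintype ι] [DecidableEq ι]
    (e : V →ₗ[ℚ] V →ₗ[ℚ] ℚ) (B : Module.Basis (ι ⊕ ι) ℚ V) (ζ L : V →ₗ[ℚ] (ι → ℂ)),
    SympBasis e B → IsPStr e B ζ L → ∀ T : (ι → ℂ) → ℂ, IsTh ζ L B T → T ≠ 0 →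
    ∀ x₀ : V, TT ζ L x₀ T 0 ≠ 0 → ∃ m : ℕ, 0 < m ∧ ∀ k : ℕ, 0 < k → m ∣ k →
      ∀ v : ι → ℂ, v ≠ 0 → ∀ t : ℂ, ∃ F, IsTk e ζ L B k ((k : ℚ) • x₀) F ∧
        ∑ i, v i * pd i F 0 ≠ t * F 0

/-- The second logarithmic derivatives have algebraic values at torsion points, up to a constant. -/
def Stmt_LGD : Prop :=
  ∀ (V : Type) [AddCommGroup V] [Module ℚ V] (ι : Type) [Fintype ι] [DecidableEq ι]
    (e : V →ₗ[ℚ] V →ₗ[ℚ] ℚ) (B : Module.Basis (ι ⊕ ι) ℚ V) (ζ L : V →ₗ[ℚ] (ι → ℂ)),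
    SympBasis e B → IsPStr e B ζ L → ∀ T : (ι → ℂ) → ℂ, IsTh ζ L B T → T ≠ 0 →
    ∀ (κ : ℂ) (c : ι → ℂ), AlgT ζ L T κ c → ∃ Q : ι → ι → ℂ, (∀ i j, Q i j = Q j i) ∧
      ∀ x : V, TT ζ L x T 0 ≠ 0 → ∀ i j,
        Alg (pd i (fun z => pd j (TT ζ L x T) z / TT ζ L x T z) 0 / (c i * c j) + Q i j)

/-- `S` implies the existence of a structure of abelian variety over the algebraic numbers. -/
def Stmt_ABV : Prop :=
  ∀ (n : ℕ) (V : Type) [AddCommGroup V] [Module ℚ V] (e : V →ₗ[ℚ] V →ₗ[ℚ] ℚ)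
    (ζ : V →ₗ[ℚ] (Fin n → ℂ)) (c : Fin n → ℂ), SS e ζ c →
    ∀ (B : Module.Basis (Fin n ⊕ Fin n) ℚ V) (L : V →ₗ[ℚ] (Fin n → ℂ)), SympBasis e B →
    IsPStr e B ζ L → ∃ A : DRB.AbVar n, ∀ j i, A.lat j i = c i * ζ (B j) i

/-! ## Homomorphisms of abelian varieties are algebraic -/

/-- Algebraic dependence of `n + 2` theta functions of the same type. -/
def Stmt_ADT : Prop :=
  ∀ (n : ℕ) (om : Fin n ⊕ Fin n → Fin n → ℂ) (a : Fin n ⊕ Fin n → Fin n → ℂ)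
    (b : Fin n ⊕ Fin n → ℂ) (h : Fin (n + 2) → (Fin n → ℂ) → ℂ), LinearIndependent ℝ om →
    (∀ k, Differentiable ℂ (h k)) →
    (∀ k i z, h k (z + om i) = cexp ((∑ l, a i l * z l) + b i) * h k z) →
    ∃ (d : ℕ) (P : MvPolynomial (Fin (n + 2)) ℂ), P ≠ 0 ∧ P.IsHomogeneous d ∧
      ∀ z, MvPolynomial.eval (fun k => h k z) P = 0

/-- Functions with independent differentials are algebraically independent. -/
def Stmt_IDP : Prop :=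
  ∀ (n : ℕ) (f : Fin n → (Fin n → ℂ) → ℂ) (z₀ : Fin n → ℂ), (∀ i, AnalyticAt ℂ (f i) z₀) →
    (Matrix.of fun i j => pd j (f i) z₀).det ≠ 0 → ∀ P : MvPolynomial (Fin n) ℂ,
    (∀ᶠ z in nhds z₀, MvPolynomial.eval (fun i => f i z) P = 0) → P = 0

/-- Quotients of theta functions which are periodic for `N Λ` are algebraic over the field
generated by `g` of the functions `f k`. -/
def Stmt_PRL : Prop :=
  ∀ (g : ℕ) (A : DRB.AbVar g) (N : ℕ) (φ ψ : (Fin g → ℂ) → ℂ) (a : DRB.Idx g → Fin g → ℂ)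
    (b : DRB.Idx g → ℂ), 0 < N → Differentiable ℂ φ → Differentiable ℂ ψ →
    (∀ i z, φ (z + (N : ℂ) • A.lat i) = cexp ((∑ l, a i l * z l) + b i) * φ z) →
    (∀ i z, ψ (z + (N : ℂ) • A.lat i) = cexp ((∑ l, a i l * z l) + b i) * ψ z) →
    ∀ K : Fin g → Fin A.nfun, ∃ P : MvPolynomial (Option (Fin g)) ℂ, P ≠ 0 ∧
      ∀ z, A.θ z ≠ 0 → ψ z ≠ 0 → MvPolynomial.eval (fun o : Option (Fin g) =>
        o.elim (φ z / ψ z) (fun i => A.f (K i) z)) P = 0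

/-- Taylor coefficients along lines and automorphisms of `ℂ`. -/
def Stmt_FRM : Prop :=
  ∀ (g : ℕ) (A : DRB.AbVar g), ∀ τ ∈ DRB.GalA, ∀ (m : Fin g → ℂ) (r : ℕ),
    (∀ j, iteratedDeriv r (fun s : ℂ => A.f j (s • fun l => τ (m l))) 0 =
      τ (iteratedDeriv r (fun s : ℂ => A.f j (s • m)) 0)) ∧
    (0 < r → ∀ j, iteratedDeriv r (fun s : ℂ => A.Z j (s • fun l => τ (m l))) 0 =
      τ (iteratedDeriv r (fun s : ℂ => A.Z j (s • m)) 0))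

/-- Automorphisms applied to relations between power series. -/
def Stmt_TRF : Prop :=
  ∀ (κ : Type) [Fintype κ] (u v : κ → ℂ → ℂ) (τ : ℂ ≃ₐ[ℚ] ℂ), (∀ i, AnalyticAt ℂ (u i) 0) →
    (∀ i, AnalyticAt ℂ (v i) 0) →
    (∀ i r, iteratedDeriv r (v i) 0 = τ (iteratedDeriv r (u i) 0)) →
    ∀ P : MvPolynomial κ ℂ, (∀ᶠ s in nhds (0 : ℂ), MvPolynomial.eval (fun i => u i s) P = 0) →
      ∀ᶠ s in nhds (0 : ℂ), MvPolynomial.eval (fun i => v i s)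
        (MvPolynomial.map (τ : ℂ →+* ℂ) P) = 0

/-- Points with the same values of all functions `f j` differ by a torsion point. -/
def Stmt_PER : Prop :=
  ∀ (g : ℕ) (A : DRB.AbVar g) (u p : Fin g → ℂ), A.θ u ≠ 0 → A.θ (u + p) ≠ 0 →
    (∀ j, A.f j (u + p) = A.f j u) →
    ∃ (N : ℕ) (r : DRB.Idx g → ℤ), 0 < N ∧ (N : ℂ) • p = ∑ k, (r k : ℂ) • A.lat k

/-- Homomorphisms of complex tori between abelian varieties over the algebraic numbers: the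
linear map is algebraic. -/
def Stmt_HM1 : Prop :=
  ∀ (g g' : ℕ) (A : DRB.AbVar g) (A' : DRB.AbVar g') (M : Matrix (Fin g') (Fin g) ℂ)
    (R : Matrix (DRB.Idx g') (DRB.Idx g) ℚ),
    (∀ j, M.mulVec (A.lat j) = ∑ k, ((R k j : ℚ) : ℂ) • A'.lat k) →
    ∀ i j, IsAlgebraic ℚ (M i j)

/-- Homomorphisms of complex tori between abelian varieties over the algebraic numbers are
algebraic on the de Rham homology. -/
def Stmt_HM2 : Prop :=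
  ∀ (g g' : ℕ) (A : DRB.AbVar g) (A' : DRB.AbVar g') (M : Matrix (Fin g') (Fin g) ℂ)
    (R : Matrix (DRB.Idx g') (DRB.Idx g) ℚ),
    (∀ j, M.mulVec (A.lat j) = ∑ k, ((R k j : ℚ) : ℂ) • A'.lat k) →
    ∃ ρ : Matrix (DRB.Idx g') (DRB.Idx g) ℂ, (∀ r s, IsAlgebraic ℚ (ρ r s)) ∧
      (∀ i j, ρ (Sum.inl i) (Sum.inr j) = 0) ∧
      A'.per * R.map (algebraMap ℚ ℂ) = ρ * A.per

/-! ## Base points and inflation -/

/-- Transport by an isometry and an algebraic change of coordinates. -/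
def Stmt_LIN : Prop :=
  ∀ (V V' : Type) [AddCommGroup V] [Module ℚ V] [AddCommGroup V'] [Module ℚ V'] (ι : Type)
    [Fintype ι] [DecidableEq ι] (e : V →ₗ[ℚ] V →ₗ[ℚ] ℚ) (e' : V' →ₗ[ℚ] V' →ₗ[ℚ] ℚ)
    (φ : V' ≃ₗ[ℚ] V) (ζ : V →ₗ[ℚ] (ι → ℂ)) (ζ' : V' →ₗ[ℚ] (ι → ℂ)) (M N : Matrix ι ι ℂ)
    (c c' : ι → ℂ), (∀ x y, e (φ x) (φ y) = e' x y) → M * N = 1 →
    (∀ x, ζ' x = M.mulVec (ζ (φ x))) → (∀ j, c' j ≠ 0) → (∀ i j, Alg (N i j * c i / c' j)) →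
    SS e ζ c → SS e' ζ' c'

/-- Positive rational multiples of the form. -/
def Stmt_SCA : Prop :=
  ∀ (V : Type) [AddCommGroup V] [Module ℚ V] (ι : Type) [Fintype ι] [DecidableEq ι]
    (e : V →ₗ[ℚ] V →ₗ[ℚ] ℚ) (ζ : V →ₗ[ℚ] (ι → ℂ)) (c : ι → ℂ) (q : ℚ), 0 < q →
    SS e ζ c → SS (q • e) ζ c

/-- The theta function of degree one of an elliptic curve is the sigma function. -/
def Stmt_SIG : Prop :=
  ∀ L : PeriodPair, 0 < (L.ω₂ / L.ω₁).im → ∃ S : ℂ → ℂ, Differentiable ℂ S ∧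
    (∀ z, S (-z) = -S z) ∧ deriv S 0 = 1 ∧ (∀ z, S z = 0 ↔ z ∈ L.lattice) ∧
    (∀ ω, (ω = L.ω₁ ∨ ω = L.ω₂) → ∀ z, S (z + ω) = -cexp (Real.pi /
      ((starRingEnd ℂ) L.ω₁ * L.ω₂).im * (starRingEnd ℂ) ω * (z + ω / 2)) * S z) ∧
    ∀ z w, z ∉ L.lattice → w ∉ L.lattice →
      S (z + w) * S (z - w) = S z ^ 2 * S w ^ 2 * (L.weierstrassP w - L.weierstrassP z)

/-- Torsion points of an elliptic curve over the algebraic numbers are algebraic. -/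
def Stmt_TRP : Prop :=
  ∀ L : PeriodPair, 0 < (L.ω₂ / L.ω₁).im → Alg L.g₂ → Alg L.g₃ → ∀ z : ℂ, z ∉ L.lattice →
    (∃ N : ℕ, 0 < N ∧ (N : ℂ) * z ∈ L.lattice) →
    Alg (L.weierstrassP z) ∧ Alg (L.derivWeierstrassP z)

/-- The standard form on `ℚ²`. -/
def e0 : (ℚ × ℚ) →ₗ[ℚ] (ℚ × ℚ) →ₗ[ℚ] ℚ :=
  LinearMap.mk₂ ℚ (fun x y => x.1 * y.2 - x.2 * y.1)
    (fun x x' y => by simp only [Prod.fst_add, Prod.snd_add]; ring)
    (fun r x y => by simp only [Prod.smul_fst, Prod.smul_snd, smul_eq_mul]; ring)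
    (fun x y y' => by simp only [Prod.fst_add, Prod.snd_add]; ring)
    (fun r x y => by simp only [Prod.smul_fst, Prod.smul_snd, smul_eq_mul]; ring)

/-- The coordinate of a lattice in the complex plane. -/
def z0 (ω₁ ω₂ : ℂ) : (ℚ × ℚ) →ₗ[ℚ] (Fin 1 → ℂ) where
  toFun := fun x _ => (x.1 : ℂ) * ω₁ + (x.2 : ℂ) * ω₂
  map_add' := by
    intro x y
    funext i
    simp only [Prod.fst_add, Prod.snd_add, Pi.add_apply]
    push_cast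
    ring
  map_smul' := by
    intro r x
    funext i
    simp only [Prod.smul_fst, Prod.smul_snd, Pi.smul_apply, smul_eq_mul, RingHom.id_apply,
      Rat.smul_def]
    push_cast
    ring

/-- Elliptic curves over the algebraic numbers satisfy `S`. -/
def Stmt_WEI : Prop :=
  ∀ L : PeriodPair, 0 < (L.ω₂ / L.ω₁).im → Alg L.g₂ → Alg L.g₃ →
    SS e0 (z0 L.ω₁ L.ω₂) (fun _ => 1)

/-- Base points. -/
def Stmt_BAS : Prop :=
  (∃ c : ℂ, SS e0 (z0 1 I) (fun _ => c)) ∧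
    ∃ c : ℂ, SS e0 (z0 1 ((-1 + (Real.sqrt 3 : ℂ) * I) / 2)) (fun _ => c)

/-- Spaces with an action of `ℚ(i)` or `ℚ(√-3)` by complex scalars. -/
def Stmt_HRM : Prop :=
  ∀ d : ℕ, (d = 1 ∨ d = 3) → ∃ c₀ : ℂ, c₀ ≠ 0 ∧
    ∀ (V : Type) [AddCommGroup V] [Module ℚ V] [FiniteDimensional ℚ V] (ι : Type) [Fintype ι]
    [DecidableEq ι] (e : V →ₗ[ℚ] V →ₗ[ℚ] ℚ) (ζ : V →ₗ[ℚ] (ι → ℂ)) (J : V →ₗ[ℚ] V),
    (∀ x, e x x = 0) → (∀ x, J (J x) = -((d : ℚ) • x)) → (∀ x y, e (J x) y = -e x (J y)) →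
    (∀ x, x ≠ 0 → 0 < e x (J x)) → (∀ x, ζ (J x) = ((Real.sqrt d : ℂ) * I) • ζ x) →
    (∀ x i, Alg (ζ x i)) → Module.finrank ℚ V = 2 * Fintype.card ι →
    Submodule.span ℂ (Set.range ζ) = ⊤ → SS e ζ (fun _ => c₀)

end

end Pool.Agent.SPF
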