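import Pool.Agent.SPF.Kit

set_option linter.unusedSectionVars false

/-!
# Shimura period relations: statements at the level of a CM field `E` and its CM types
-/

open scoped BigOperators
open Complex

namespace Pool.Agent.SPF

noncomputable section

/-! ## Orthogonal sums -/

/-- orthogonal sum of two forms -/
def eSum {V V' : Type} [AddCommGroup V] [Module ℚ V] [AddCommGroup V'] [Module ℚ V']
    (e : V →ₗ[ℚ] V →ₗ[ℚ] ℚ) (e' : V' →ₗ[ℚ] V' →ₗ[ℚ] ℚ) :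
    (V × V') →ₗ[ℚ] (V × V') →ₗ[ℚ] ℚ :=
  (e.compl₁₂ (LinearMap.fst ℚ V V') (LinearMap.fst ℚ V V')) +
    (e'.compl₁₂ (LinearMap.snd ℚ V V') (LinearMap.snd ℚ V V'))

/-- orthogonal sum of two coordinate maps -/
def zSum {V V' ι ι' : Type} [AddCommGroup V] [Module ℚ V] [AddCommGroup V'] [Module ℚ V']
    (ζ : V →ₗ[ℚ] (ι → ℂ)) (ζ' : V' →ₗ[ℚ] (ι' → ℂ)) : (V × V') →ₗ[ℚ] (ι ⊕ ι' → ℂ) where
  toFun := fun x => Sum.elim (ζ x.1) (ζ' x.2)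
  map_add' := by
    intro x y
    funext i
    rcases i with i | i <;> simp
  map_smul' := by
    intro r x
    funext i
    rcases i with i | i <;> simp

/-- Orthogonal sums. -/
def Stmt_SUM : Prop :=
  ∀ (V V' : Type) [AddCommGroup V] [Module ℚ V] [AddCommGroup V'] [Module ℚ V'] (ι ι' : Type)
    [Fintype ι] [DecidableEq ι] [Fintype ι'] [DecidableEq ι'] (e : V →ₗ[ℚ] V →ₗ[ℚ] ℚ)
    (e' : V' →ₗ[ℚ] V' →ₗ[ℚ] ℚ) (B : Module.Basis (ι ⊕ ι) ℚ V) (B' : Module.Basis (ι' ⊕ ι') ℚ V')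
    (ζ L : V →ₗ[ℚ] (ι → ℂ)) (ζ' L' : V' →ₗ[ℚ] (ι' → ℂ)) (c : ι → ℂ) (c' : ι' → ℂ),
    SympBasis e B → IsPStr e B ζ L → SympBasis e' B' → IsPStr e' B' ζ' L' →
    (SS (eSum e e') (zSum ζ ζ') (Sum.elim c c') ↔ SS e ζ c ∧ SS e' ζ' c')

/-! ## CM fields and CM types -/

/-- complex conjugate embedding -/
def cj {E : Type} [Field E] (φ : E →+* ℂ) : E →+* ℂ := (starRingEnd ℂ).comp φ

/-- a CM field: complex conjugation `bar` -/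
structure CMF (E : Type) [Field E] [NumberField E] where
  bar : E ≃+* E
  bar_spec : ∀ (φ : E →+* ℂ) (x : E), φ (bar x) = (starRingEnd ℂ) (φ x)

section

variable {E : Type} [Field E] [NumberField E]

theorem CMF.bar_smul (K : CMF E) (r : ℚ) (y : E) : K.bar (r • y) = r • K.bar y := by
  rw [Algebra.smul_def, map_mul, Algebra.smul_def]
  congr 1
  exact map_ratCast K.bar r

/-- the form `Tr (ξ x ȳ)` -/
def CMF.e (K : CMF E) (ξ : E) : E →ₗ[ℚ] E →ₗ[ℚ] ℚ :=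
  LinearMap.mk₂ ℚ (fun x y => Algebra.trace ℚ E (ξ * x * K.bar y))
    (fun x x' y => by rw [← map_add]; congr 1; ring)
    (fun r x y => by
      rw [show ξ * (r • x) * K.bar y = r • (ξ * x * K.bar y) by
        rw [Algebra.smul_def, Algebra.smul_def]; ring, map_smul])
    (fun x y y' => by rw [← map_add, map_add K.bar]; congr 1; ring)
    (fun r x y => by
      rw [show ξ * x * K.bar (r • y) = r • (ξ * x * K.bar y) by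
        rw [CMF.bar_smul, Algebra.smul_def, Algebra.smul_def]; ring, map_smul])

/-- the coordinate map of a family of embeddings -/
def zT {P : Type} (τ : P → (E →+* ℂ)) : E →ₗ[ℚ] (P → ℂ) where
  toFun := fun x v => τ v x
  map_add' := by
    intro x y
    funext v
    simp
  map_smul' := by
    intro r x
    funext v
    rw [Algebra.smul_def, map_mul, RingHom.id_apply, Pi.smul_apply, Rat.smul_def]
    congr 1
    exact map_ratCast (τ v) r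

open Classical in
/-- CM types -/
def IsType (Φ : Finset (E →+* ℂ)) : Prop := ∀ φ, φ ∈ Φ ↔ cj φ ∉ Φ

open Classical in
/-- The property `S(E, ξ, Φ; c)` -/
def CMF.S (K : CMF E) (ξ : E) (Φ : Finset (E →+* ℂ)) (c : (E →+* ℂ) → ℂ) : Prop :=
  K.bar ξ = -ξ ∧ (∀ φ ∈ Φ, 0 < (φ ξ).im) ∧
    SS (K.e ξ) (zT (fun φ : {φ // φ ∈ Φ} => (φ : E →+* ℂ))) (fun φ : {φ // φ ∈ Φ} => c φ)

open Classical in
/-- the complementary type: common part of `Φ₃, Φ₄` and conjugate of the rest of `Φ` -/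
def compl (Φ₃ Φ₄ Φ : Finset (E →+* ℂ)) : Finset (E →+* ℂ) :=
  (Φ₃ ∩ Φ₄) ∪ ((Φ \ (Φ₃ ∩ Φ₄)).image cj)

end

open Classical in
/-- The step theorem for CM types. -/
def Stmt_STEPE : Prop :=
  ∀ (E : Type) [Field E] [NumberField E] (K : CMF E) (Φ₃ Φ₄ Φ : Finset (E →+* ℂ)) (ξ₃ ξ₄ : E)
    (c₃ c₄ : (E →+* ℂ) → ℂ), IsType Φ₃ → IsType Φ₄ → IsType Φ → (Φ₃ ∩ Φ₄).Nonempty →
    Φ₃ ∩ Φ₄ ⊆ Φ → K.S ξ₃ Φ₃ c₃ → K.S ξ₄ Φ₄ c₄ →
    ∃ (ξ ξ' : E) (c c' : (E →+* ℂ) → ℂ), K.S ξ Φ c ∧ K.S ξ' (compl Φ₃ Φ₄ Φ) c' ∧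
      ∀ φ ∈ Φ₃ ∩ Φ₄, Alg (c φ * c' φ / (c₃ φ * c₄ φ))

/-- Sign approximation in the real subfield. -/
def Stmt_SIGN : Prop :=
  ∀ (E : Type) [Field E] [NumberField E] (K : CMF E) (P : Type) [Fintype P] (τ : P → (E →+* ℂ)),
    Function.Injective τ → (∀ v w, τ v ≠ cj (τ w)) → ∀ (b : P → ℝ) (p : P → Prop),
    (∀ v, 0 < b v) → ∃ y : E, K.bar y = y ∧ y ≠ 0 ∧
      ∀ v, (p v → b v * ‖τ v y‖ ^ 2 < 1) ∧ (¬ p v → 1 < b v * ‖τ v y‖ ^ 2)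

open Classical in
/-- From `S(E, ξ₃, Φ₃), S(E, ξ₄, Φ₄)`, `ξ₄ = ρ ξ₃`, to the data at the CM point `q`. -/
def Stmt_QPT : Prop :=
  ∀ (E : Type) [Field E] [NumberField E] (I J : Type) [Fintype I] [Fintype J] [DecidableEq I]
    [DecidableEq J] (D : FamData E I J) (K : CMF E) (y ρ ξ₃ : E) (p : I → Prop)
    (c₃ c₄ : I ⊕ J → ℂ), K.bar = D.bar → D.bar y = y → y ≠ 0 → D.bar ρ = ρ → D.bar ξ₃ = -ξ₃ →
    D.ξ₁ = ξ₃ * (1 + ρ * y ^ 2) → D.ξ₂ = ρ * D.ξ₁ →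
    (∀ v : I, p v → 0 < (D.t (Sum.inl v) ξ₃).im ∧ (D.t (Sum.inl v) (ρ * ξ₃)).im < 0) →
    (∀ v : I, ¬ p v → (D.t (Sum.inl v) ξ₃).im < 0 ∧ 0 < (D.t (Sum.inl v) (ρ * ξ₃)).im) →
    (∀ v : J, 0 < (D.t (Sum.inr v) ξ₃).im ∧ 0 < (D.t (Sum.inr v) (ρ * ξ₃)).im) →
    SS (K.e ξ₃) (zT (Sum.elim (fun v : I => if p v then D.t (Sum.inl v) else cj (D.t (Sum.inl v)))
      (fun v : J => D.t (Sum.inr v)))) c₃ →
    SS (K.e (ρ * ξ₃)) (zT (Sum.elim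
      (fun v : I => if p v then cj (D.t (Sum.inl v)) else D.t (Sum.inl v))
      (fun v : J => D.t (Sum.inr v)))) c₄ →
    (fun v : I => if p v then D.t (Sum.inl v) (y * ρ) else -1 / D.t (Sum.inl v) y) ∈ D.Dom ∧
    ∀ (B : Module.Basis (Co I J ⊕ Co I J) ℚ (E × E)) (Θ : (I → ℂ) → (Co I J → ℂ) → ℂ),
      SympBasis D.e B → D.ThFam B Θ →
      D.Hq Θ (fun v : I => if p v then D.t (Sum.inl v) (y * ρ) else -1 / D.t (Sum.inl v) y)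
        (fun v : J => c₃ (Sum.inr v) * c₄ (Sum.inr v))

/-- From the centre of the family to `S(E, ξ₁), S(E, ξ₂)`. -/
def Stmt_ZPT : Prop :=
  ∀ (E : Type) [Field E] [NumberField E] (I J : Type) [Fintype I] [Fintype J] [DecidableEq I]
    [DecidableEq J] (D : FamData E I J) (K : CMF E) (B : Module.Basis (Co I J ⊕ Co I J) ℚ (E × E))
    (Θ : (I → ℂ) → (Co I J → ℂ) → ℂ) (c : Co I J → ℂ), K.bar = D.bar → SympBasis D.e B →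
    D.ThFam B Θ → (∀ i, c i ≠ 0) → SDat (D.zeta 0) D.L (Θ 0) c →
    SS (K.e D.ξ₁) (zT D.t) (fun v => c (Sum.inl v)) ∧
    SS (K.e D.ξ₂) (zT (Sum.elim (fun v : I => cj (D.t (Sum.inl v))) (fun v : J => D.t (Sum.inr v))))
      (fun v => c (Sum.inr v))

/-- `S` is invariant under relabelling of the coordinates. -/
def Stmt_RLB : Prop :=
  ∀ (V : Type) [AddCommGroup V] [Module ℚ V] (ι ι' : Type) [Fintype ι] [DecidableEq ι] [Fintype ι']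
    [DecidableEq ι'] (f : ι ≃ ι') (e : V →ₗ[ℚ] V →ₗ[ℚ] ℚ) (ζ : V →ₗ[ℚ] (ι → ℂ))
    (ζ' : V →ₗ[ℚ] (ι' → ℂ)) (c : ι → ℂ) (c' : ι' → ℂ), (∀ x i, ζ' x (f i) = ζ x i) →
    (∀ i, c' (f i) = c i) → SS e ζ c → SS e ζ' c'

/-- Uniqueness of the period symbol. -/
def Stmt_UNQ : Prop :=
  ∀ (E : Type) [Field E] [NumberField E] (K : CMF E) (Φ : Finset (E →+* ℂ)) (ξ ξ' : E)
    (c c' : (E →+* ℂ) → ℂ), IsType Φ → K.S ξ Φ c → K.S ξ' Φ c' → ∀ φ ∈ Φ, Alg (c φ / c' φ)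

open Classical in
/-- Base types: induced from `ℚ(i)` and `ℚ(√-3)`. -/
def Stmt_INF : Prop :=
  ∀ (E : Type) [Field E] [NumberField E] (K : CMF E) (θ : E), (θ ^ 2 = -1 ∨ θ ^ 2 = -3) →
    ∃ (ξ : E) (c : (E →+* ℂ) → ℂ),
      K.S ξ (Finset.univ.filter fun φ : E →+* ℂ => 0 < (φ θ).im) c

/-- All CM types of a CM field containing `i` and `√-3`. -/
def Stmt_ALLT : Prop :=
  ∀ (E : Type) [Field E] [NumberField E] (K : CMF E), (∃ θ : E, θ ^ 2 = -1) →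
    (∃ θ : E, θ ^ 2 = -3) → ∀ Φ : Finset (E →+* ℂ), IsType Φ →
    ∃ (ξ : E) (c : (E →+* ℂ) → ℂ), K.S ξ Φ c

open Classical in
/-- The relations between the period symbols of the types. -/
def Stmt_R4 : Prop :=
  ∀ (E : Type) [Field E] [NumberField E] (K : CMF E), (∃ θ : E, θ ^ 2 = -1) →
    (∃ θ : E, θ ^ 2 = -3) → ∀ (Φ₁ Φ₂ Φ₃ Φ₄ : Finset (E →+* ℂ)) (ξ₁ ξ₂ ξ₃ ξ₄ : E)
    (c₁ c₂ c₃ c₄ : (E →+* ℂ) → ℂ), IsType Φ₁ → IsType Φ₂ → IsType Φ₃ → IsType Φ₄ →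
    (∀ φ, (if φ ∈ Φ₁ then 1 else 0) + (if φ ∈ Φ₂ then 1 else 0) =
      (if φ ∈ Φ₃ then 1 else 0) + (if φ ∈ Φ₄ then (1 : ℕ) else 0)) →
    K.S ξ₁ Φ₁ c₁ → K.S ξ₂ Φ₂ c₂ → K.S ξ₃ Φ₃ c₃ → K.S ξ₄ Φ₄ c₄ →
    ∀ φ ∈ Φ₁ ∩ Φ₂, Alg (c₁ φ * c₂ φ / (c₃ φ * c₄ φ))

/-- Twisting by an automorphism of `E`. -/
def Stmt_TWI : Prop :=
  ∀ (E : Type) [Field E] [NumberField E] (K : CMF E) (Φ Φ' : Finset (E →+* ℂ)) (ξ : E)
    (c : (E →+* ℂ) → ℂ) (g : E ≃+* E), (∀ x, g (K.bar x) = K.bar (g x)) →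
    (∀ φ : E →+* ℂ, φ ∈ Φ' ↔ φ.comp (g : E →+* E) ∈ Φ) → K.S ξ Φ c →
    K.S (g ξ) Φ' (fun φ => c (φ.comp (g : E →+* E)))

end

end Pool.Agent.SPF
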