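import Pool.Agent.SPF.OutKit
import Pool.Agent.DRB.Osgood

set_option linter.unusedSectionVars false
set_option linter.unusedSimpArgs false
set_option linter.unusedVariables false

/-!
# `S` implies the existence of a structure of abelian variety over the algebraic numbers
-/

open scoped BigOperators
open Complex

namespace Pool.Agent.SPF

noncomputable section

namespace ABV_

variable {V : Type} [AddCommGroup V] [Module ℚ V] {ι : Type} [Fintype ι] [DecidableEq ι]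
variable {e : V →ₗ[ℚ] V →ₗ[ℚ] ℚ} {B : Module.Basis (ι ⊕ ι) ℚ V} {ζ L : V →ₗ[ℚ] (ι → ℂ)}

/-! ### algebraic numbers -/

theorem alg_sum {α : Type} (t : Finset α) (f : α → ℂ) (h : ∀ y ∈ t, Alg (f y)) :
    Alg (∑ y ∈ t, f y) := by
  classical
  refine Finset.sum_induction f Alg (fun a b ha hb => ha.add hb) ?_ h
  exact isAlgebraic_zero

theorem alg_exp (q : ℚ) : Alg (cexp (Real.pi * I * (q : ℚ))) := by
  have hd : (q.den : ℂ) ≠ 0 := by exact_mod_cast q.den_nz
  have h1 : cexp (Real.pi * I * (q : ℚ)) ^ (2 * q.den) = 1 := by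
    rw [← Complex.exp_nat_mul]
    have h2 : ((2 * q.den : ℕ) : ℂ) * (Real.pi * I * (q : ℚ)) = (q.num : ℤ) * (2 * Real.pi * I) := by
      have h3 : ((q : ℚ) : ℂ) * (q.den : ℂ) = (q.num : ℂ) := by
        have := Rat.mul_den_eq_num q
        exact_mod_cast congrArg (fun x : ℚ => (x : ℂ)) this
      push_cast
      linear_combination (2 * Real.pi * I) * h3
    rw [h2]
    exact Complex.exp_int_mul_two_pi_mul_I q.num
  have hpos : 0 < 2 * q.den := Nat.mul_pos two_pos q.den_pos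
  refine IsAlgebraic.of_pow hpos ?_
  rw [h1]
  exact isAlgebraic_one

/-! ### partial derivatives -/

theorem differentiable_pd {F : (ι → ℂ) → ℂ} (hF : Differentiable ℂ F) (i : ι) :
    Differentiable ℂ (pd i F) :=
  DRB.Osgood.differentiable_fderiv_apply hF _

theorem pd_const_mul {F : (ι → ℂ) → ℂ} {z : ι → ℂ} (i : ι) (a : ℂ)
    (hF : DifferentiableAt ℂ F z) : pd i (fun z => a * F z) z = a * pd i F z := by
  unfold pd
  rw [fderiv_const_mul hF]
  simp

theorem pd_add {F G : (ι → ℂ) → ℂ} {z : ι → ℂ} (i : ι) (hF : DifferentiableAt ℂ F z)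
    (hG : DifferentiableAt ℂ G z) : pd i (fun z => F z + G z) z = pd i F z + pd i G z := by
  unfold pd
  rw [fderiv_fun_add hF hG]
  rfl

theorem pd_sub {F G : (ι → ℂ) → ℂ} {z : ι → ℂ} (i : ι) (hF : DifferentiableAt ℂ F z)
    (hG : DifferentiableAt ℂ G z) : pd i (fun z => F z - G z) z = pd i F z - pd i G z := by
  unfold pd
  rw [fderiv_fun_sub hF hG]
  rfl

theorem pd_sum {α : Type} (t : Finset α) (F : α → (ι → ℂ) → ℂ) (z : ι → ℂ) (i : ι)
    (hF : ∀ a ∈ t, DifferentiableAt ℂ (F a) z) :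
    pd i (fun z => ∑ a ∈ t, F a z) z = ∑ a ∈ t, pd i (F a) z := by
  unfold pd
  rw [fderiv_fun_sum hF]
  simp

theorem pd_coord (i j : ι) (z : ι → ℂ) :
    pd i (fun z : ι → ℂ => z j) z = if j = i then 1 else 0 := by
  unfold pd
  have : fderiv ℂ (fun z : ι → ℂ => z j) z = ContinuousLinearMap.proj j :=
    (hasFDerivAt_apply j z).fderiv
  rw [this]
  simp [Pi.single_apply]

theorem pd_exp {F : (ι → ℂ) → ℂ} {z : ι → ℂ} (i : ι) (hF : DifferentiableAt ℂ F z) :
    pd i (fun z => cexp (F z)) z = cexp (F z) * pd i F z := by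
  unfold pd
  rw [hF.hasFDerivAt.cexp.fderiv]
  simp

theorem pd_congr {F G : (ι → ℂ) → ℂ} {z : ι → ℂ} (i : ι) (h : F =ᶠ[nhds z] G) :
    pd i F z = pd i G z := by
  unfold pd
  rw [Filter.EventuallyEq.fderiv_eq h]

theorem pd_div {F G : (ι → ℂ) → ℂ} {z : ι → ℂ} (i : ι) (hF : Differentiable ℂ F)
    (hG : Differentiable ℂ G) (h0 : G z ≠ 0) :
    pd i (fun z => F z / G z) z = (G z * pd i F z - F z * pd i G z) / G z ^ 2 := by
  have h1 : DifferentiableAt ℂ (fun z => F z / G z) z := by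
    simp only [div_eq_mul_inv]
    exact (hF z).mul ((hG z).fun_inv h0)
  have h2 := pd_mul i h1 (hG z)
  have h3 : (fun z => F z / G z * G z) =ᶠ[nhds z] F := by
    have h4 : ∀ᶠ w in nhds z, G w ≠ 0 := hG.continuous.continuousAt.eventually_ne h0
    filter_upwards [h4] with w hw
    field_simp
  rw [pd_congr i h3] at h2
  rw [eq_div_iff (pow_ne_zero 2 h0)]
  field_simp at h2
  linear_combination -h2

theorem fderiv_eq_sum (F : (ι → ℂ) → ℂ) (z v : ι → ℂ) :
    fderiv ℂ F z v = ∑ i, v i * pd i F z := by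
  have h1 := (fderiv ℂ F z).toLinearMap.pi_apply_eq_sum_univ v
  rw [ContinuousLinearMap.coe_coe] at h1
  rw [h1]
  refine Finset.sum_congr rfl fun i _ => ?_
  rw [smul_eq_mul]
  congr 1
  unfold pd
  congr 1
  funext j
  rw [Pi.single_apply]
  simp only [eq_comm]

/-! ### scaling of the coordinates -/

/-- the map `u ↦ u / c` -/
def sc (c : ι → ℂ) : (ι → ℂ) →L[ℂ] (ι → ℂ) :=
  ContinuousLinearMap.pi fun i => (c i)⁻¹ • ContinuousLinearMap.proj (R := ℂ) (φ := fun _ => ℂ) i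

theorem sc_apply (c u : ι → ℂ) (i : ι) : sc c u i = (c i)⁻¹ * u i := rfl

theorem pd_sc (c : ι → ℂ) {F : (ι → ℂ) → ℂ} (i : ι) {u : ι → ℂ}
    (hF : DifferentiableAt ℂ F (sc c u)) :
    pd i (fun u => F (sc c u)) u = (c i)⁻¹ * pd i F (sc c u) := by
  unfold pd
  have h1 := (hF.hasFDerivAt.comp u (sc c).hasFDerivAt).fderiv
  have h2 : fderiv ℂ (fun u => F (sc c u)) u = (fderiv ℂ F (sc c u)).comp (sc c) := h1
  rw [h2, ContinuousLinearMap.comp_apply]
  have h3 : sc c (Pi.single i 1) = (c i)⁻¹ • Pi.single i 1 := by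
    funext j
    rw [sc_apply, Pi.smul_apply, smul_eq_mul]
    by_cases hij : j = i
    · subst hij
      simp
    · simp [Pi.single_apply, hij]
  rw [h3, map_smul, smul_eq_mul]

/-! ### quadratic forms -/

/-- the bilinear form with matrix `Q` -/
def qf (Q : ι → ι → ℂ) (u v : ι → ℂ) : ℂ := ∑ i, ∑ j, Q i j * (u i * v j)

theorem qf_comm {Q : ι → ι → ℂ} (hQ : ∀ i j, Q i j = Q j i) (u v : ι → ℂ) :
    qf Q u v = qf Q v u := by
  unfold qf
  rw [Finset.sum_comm]
  refine Finset.sum_congr rfl fun i _ => Finset.sum_congr rfl fun j _ => ?_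
  rw [hQ j i]
  ring

theorem qf_add_left (Q : ι → ι → ℂ) (u v w : ι → ℂ) : qf Q (u + v) w = qf Q u w + qf Q v w := by
  unfold qf
  rw [← Finset.sum_add_distrib]
  refine Finset.sum_congr rfl fun i _ => ?_
  rw [← Finset.sum_add_distrib]
  refine Finset.sum_congr rfl fun j _ => ?_
  rw [Pi.add_apply]
  ring

theorem qf_add {Q : ι → ι → ℂ} (hQ : ∀ i j, Q i j = Q j i) (u v : ι → ℂ) :
    qf Q (u + v) (u + v) = qf Q u u + 2 * qf Q v u + qf Q v v := by
  rw [qf_add_left, qf_comm hQ u, qf_comm hQ v, qf_add_left, qf_add_left, qf_comm hQ u v]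
  ring

theorem qf_differentiable (Q : ι → ι → ℂ) : Differentiable ℂ (fun u => qf Q u u / 2) := by
  unfold qf
  fun_prop

theorem pd_qf {Q : ι → ι → ℂ} (hQ : ∀ i j, Q i j = Q j i) (i : ι) (u : ι → ℂ) :
    pd i (fun u => qf Q u u / 2) u = ∑ j, Q i j * u j := by
  have hd : ∀ a : ι, Differentiable ℂ (fun u : ι → ℂ => u a) := fun a => by fun_prop
  have h1 : (fun u : ι → ℂ => qf Q u u / 2) =
      fun u => (1 / 2 : ℂ) * ∑ a, ∑ b, Q a b * (u a * u b) := by
    funext u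
    unfold qf
    ring
  rw [h1, pd_const_mul i (1 / 2) (by fun_prop), pd_sum _ _ _ _ (fun a _ => by fun_prop)]
  have h2 : ∀ a : ι, pd i (fun u : ι → ℂ => ∑ b, Q a b * (u a * u b)) u =
      (∑ b, if b = i then Q a b * u a else 0) + (if a = i then ∑ b, Q a b * u b else 0) := by
    intro a
    rw [pd_sum _ _ _ _ (fun b _ => by fun_prop)]
    have h3 : ∀ b : ι, pd i (fun u : ι → ℂ => Q a b * (u a * u b)) u =
        (if b = i then Q a b * u a else 0) + (if a = i then Q a b * u b else 0) := by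
      intro b
      rw [pd_const_mul i _ (by fun_prop), pd_mul i (hd a u) (hd b u), pd_coord, pd_coord]
      split_ifs <;> ring
    rw [Finset.sum_congr rfl fun b _ => h3 b, Finset.sum_add_distrib]
    congr 1
    by_cases ha : a = i
    · simp [ha]
    · simp [ha]
  rw [Finset.sum_congr rfl fun a _ => h2 a, Finset.sum_add_distrib]
  simp only [Finset.sum_ite_eq', Finset.mem_univ, if_true]
  have h4 : ∑ a, Q a i * u a = ∑ a, Q i a * u a :=
    Finset.sum_congr rfl fun a _ => by rw [hQ a i]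
  rw [h4]
  ring

/-! ### level `k` functions -/

theorem shift {k : ℕ} {w : V} {G : (ι → ℂ) → ℂ} (hG : IsTk e ζ L B k w G) (j : ι ⊕ ι)
    (z : ι → ℂ) : G (z + ζ (B j)) = cexp ((k : ℂ) * (dotp (L (B j)) z +
      dotp (L (B j)) (ζ (B j)) / 2) + 2 * Real.pi * I * (e (B j) w : ℚ)) * G z := by
  have h1 := hG.per j z
  simp only [TT, nsmul_L_apply, dotp_nsmul_left] at h1
  rw [Complex.exp_add, mul_assoc, ← h1, ← mul_assoc, ← Complex.exp_add]
  have h2 : (k : ℂ) * (dotp (L (B j)) z + dotp (L (B j)) (ζ (B j)) / 2) +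
      (-((k : ℂ) * dotp (L (B j)) z) - (k : ℂ) * dotp (L (B j)) (ζ (B j)) / 2) = 0 := by ring
  rw [h2, Complex.exp_zero, one_mul]

theorem lat_phase (hS : SympBasis e B) (h : IsPStr e B ζ L) {T : (ι → ℂ) → ℂ}
    (hT : IsTh ζ L B T) {l : V} (hl : l ∈ lat B) :
    ∃ p : ℂ, p ≠ 0 ∧ ∀ z, TT ζ L l T z = p * T z := by
  unfold lat at hl
  induction hl using AddSubgroup.closure_induction with
  | mem x hx =>
    obtain ⟨j, rfl⟩ := hx
    exact ⟨1, one_ne_zero, fun z => by rw [hT.per j, one_mul]⟩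
  | zero => exact ⟨1, one_ne_zero, fun z => by rw [TT_zero, one_mul]⟩
  | add x y hx hy ihx ihy =>
    obtain ⟨p, hp, hpx⟩ := ihx
    obtain ⟨q, hq, hqy⟩ := ihy
    have h1 : ∀ z, TT ζ L x (TT ζ L y T) z = p * q * T z := by
      intro z
      have h2 : TT ζ L y T = fun z => q * T z := funext hqy
      rw [h2, TT_smul, hpx]
      ring
    refine ⟨cexp (-(Real.pi * I * (e x y : ℚ))) * (p * q),
      mul_ne_zero (Complex.exp_ne_zero _) (mul_ne_zero hp hq), fun z => ?_⟩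
    have h3 := TT_TT h x y T z
    rw [h1] at h3
    rw [mul_assoc, h3, ← mul_assoc, ← Complex.exp_add, neg_add_cancel, Complex.exp_zero, one_mul]
  | neg x hx ihx =>
    obtain ⟨p, hp, hpx⟩ := ihx
    have h2 : TT ζ L x T = fun z => p * T z := funext hpx
    refine ⟨p⁻¹, inv_ne_zero hp, fun z => ?_⟩
    have h3 := TT_TT h (-x) x T z
    rw [h2, TT_smul, neg_add_cancel, TT_zero] at h3
    have h4 : (e (-x) x : ℚ) = 0 := by
      rw [map_neg, LinearMap.neg_apply, hS.alt, neg_zero]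
    rw [h4] at h3
    simp only [Rat.cast_zero, mul_zero, Complex.exp_zero, one_mul] at h3
    rw [← h3]
    field_simp

theorem lat_coord {l : V} (hl : l ∈ lat B) : ∃ m : ι ⊕ ι → ℤ, l = ∑ s, ((m s : ℤ) : ℚ) • B s := by
  unfold lat at hl
  induction hl using AddSubgroup.closure_induction with
  | mem x hx =>
    obtain ⟨j, rfl⟩ := hx
    refine ⟨fun s => if s = j then 1 else 0, ?_⟩
    rw [Finset.sum_eq_single j]
    · simp
    · intro s _ hs
      simp [hs]
    · simp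
  | zero => exact ⟨0, by simp⟩
  | add x y hx hy ihx ihy =>
    obtain ⟨m, rfl⟩ := ihx
    obtain ⟨m', rfl⟩ := ihy
    refine ⟨fun s => m s + m' s, ?_⟩
    rw [← Finset.sum_add_distrib]
    refine Finset.sum_congr rfl fun s _ => ?_
    push_cast
    rw [add_smul]
  | neg x hx ihx =>
    obtain ⟨m, rfl⟩ := ihx
    refine ⟨fun s => - m s, ?_⟩
    rw [← Finset.sum_neg_distrib]
    refine Finset.sum_congr rfl fun s _ => ?_
    push_cast
    rw [neg_smul]

theorem sum_mem_lat (m : ι ⊕ ι → ℤ) : ∑ s, ((m s : ℤ) : ℚ) • B s ∈ lat B := by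
  refine sum_mem fun s _ => ?_
  have h1 : ((m s : ℤ) : ℚ) • B s = m s • B s := Int.cast_smul_eq_zsmul ℚ (m s) (B s)
  rw [h1]
  exact zsmul_mem (AddSubgroup.subset_closure (Set.mem_range_self s)) _

/-- the points `x_a` -/
def xa (B : Module.Basis (ι ⊕ ι) ℚ V) (k : ℕ) (x₀ : V) (a : ι ⊕ ι → Fin k) : V :=
  x₀ + ∑ s, ((((a s : ℕ) : ℤ) : ℚ) / k) • B s

/-- the functions `G_a` -/
def Ga (ζ L : V → ι → ℂ) (T : (ι → ℂ) → ℂ) (B : Module.Basis (ι ⊕ ι) ℚ V) (k : ℕ) (x₀ : V)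
    (a : ι ⊕ ι → Fin k) : (ι → ℂ) → ℂ := fun z => TT ζ L (xa B k x₀ a) T z ^ k

theorem k_smul_xa {k : ℕ} (hk : 0 < k) (x₀ : V) (a : ι ⊕ ι → Fin k) :
    (k : ℚ) • xa B k x₀ a = (k : ℚ) • x₀ + ∑ s, (((a s : ℕ) : ℤ) : ℚ) • B s := by
  have hk' : (k : ℚ) ≠ 0 := by exact_mod_cast hk.ne'
  unfold xa
  rw [smul_add, Finset.smul_sum]
  congr 1
  refine Finset.sum_congr rfl fun s _ => ?_
  rw [smul_smul]
  congr 1
  field_simp

theorem e_int (hS : SympBasis e B) (j s : ι ⊕ ι) : ∃ m : ℤ, e (B j) (B s) = m := by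
  rcases j with j | j <;> rcases s with s | s
  · exact ⟨0, by rw [hS.ll]; simp⟩
  · refine ⟨if j = s then 1 else 0, ?_⟩
    rw [hS.lr]
    split_ifs <;> simp
  · refine ⟨-(if s = j then 1 else 0), ?_⟩
    rw [e_swap hS.alt (B (Sum.inl s)) (B (Sum.inr j)), hS.lr]
    split_ifs <;> simp
  · exact ⟨0, by rw [hS.rr]; simp⟩

theorem e_int_lat (hS : SympBasis e B) (j : ι ⊕ ι) (m : ι ⊕ ι → ℤ) :
    ∃ r : ℤ, e (B j) (∑ s, ((m s : ℤ) : ℚ) • B s) = r := by
  choose f hf using e_int hS j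
  refine ⟨∑ s, m s * f s, ?_⟩
  rw [map_sum]
  push_cast
  refine Finset.sum_congr rfl fun s _ => ?_
  rw [map_smul, hf, smul_eq_mul]

/-- the functions `G_a` are of level `k` and character `k x₀` -/
theorem isTk_Ga (hS : SympBasis e B) (h : IsPStr e B ζ L) {T : (ι → ℂ) → ℂ}
    (hT : IsTh ζ L B T) {k : ℕ} (hk : 0 < k) (x₀ : V) (a : ι ⊕ ι → Fin k) :
    IsTk e ζ L B k ((k : ℚ) • x₀) (Ga ζ L T B k x₀ a) := by
  have h1 := isTk_pow hS h hT k (xa B k x₀ a)
  refine ⟨h1.entire, fun j z => ?_⟩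
  have h2 := h1.per j z
  have h3 : Ga ζ L T B k x₀ a = fun z => TT ζ L (xa B k x₀ a) T z ^ k := rfl
  rw [h3, h2]
  congr 1
  rw [k_smul_xa hk, map_add]
  obtain ⟨r, hr⟩ := e_int_lat hS j (fun s => ((a s : ℕ) : ℤ))
  rw [hr]
  have h4 : 2 * (Real.pi : ℂ) * I * (((e (B j)) ((k : ℚ) • x₀) + (r : ℚ) : ℚ) : ℂ) =
      2 * Real.pi * I * ((e (B j)) ((k : ℚ) • x₀) : ℚ) + r * (2 * Real.pi * I) := by
    push_cast
    ring
  rw [h4, Complex.exp_add, Complex.exp_int_mul_two_pi_mul_I, mul_one]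

/-- the functions `G_a` span -/
theorem span_Ga (hSPN : Stmt_SPN) (hS : SympBasis e B) (h : IsPStr e B ζ L)
    {T : (ι → ℂ) → ℂ} (hT : IsTh ζ L B T) (hT0 : T ≠ 0) {k : ℕ} (hk : 0 < k) (x₀ : V)
    {G : (ι → ℂ) → ℂ} (hG : IsTk e ζ L B k ((k : ℚ) • x₀) G) :
    G ∈ Submodule.span ℂ (Set.range (Ga ζ L T B k x₀)) := by
  have h1 := hSPN V ι e B ζ L hS h T hT hT0 k _ G hk hG
  refine (Submodule.span_le.2 ?_) h1
  rintro H ⟨x, l, hl, hx, rfl⟩
  have hk' : (k : ℚ) ≠ 0 := by exact_mod_cast hk.ne'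
  have hkz : (0 : ℤ) < k := by exact_mod_cast hk
  obtain ⟨m, hm⟩ := lat_coord hl
  have ha : ∀ s, ∃ t : Fin k, ((t : ℕ) : ℤ) = m s % k := by
    intro s
    have h2 := Int.emod_nonneg (m s) hkz.ne'
    have h3 := Int.emod_lt_of_pos (m s) hkz
    refine ⟨⟨(m s % k).toNat, by omega⟩, ?_⟩
    simp only
    rw [Int.toNat_of_nonneg h2]
  choose a ha using ha
  have h4 : x = xa B k x₀ a + ∑ s, (((m s / k : ℤ)) : ℚ) • B s := by
    have h5 : x = x₀ + (k : ℚ)⁻¹ • l := by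
      have h6 : x = (k : ℚ)⁻¹ • ((k : ℚ) • x) := by rw [smul_smul, inv_mul_cancel₀ hk', one_smul]
      rw [h6, hx, smul_add, smul_smul, inv_mul_cancel₀ hk', one_smul]
    rw [h5, hm]
    unfold xa
    rw [add_assoc, Finset.smul_sum, ← Finset.sum_add_distrib]
    congr 1
    refine Finset.sum_congr rfl fun s _ => ?_
    rw [smul_smul, ← add_smul, ha]
    congr 1
    have h7 : (m s : ℚ) = ((m s % k : ℤ) : ℚ) + (k : ℚ) * ((m s / k : ℤ) : ℚ) := by
      have := Int.emod_add_mul_ediv (m s) k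
      exact_mod_cast this.symm
    field_simp
    linear_combination h7
  obtain ⟨p, hp, hpl⟩ := lat_phase hS h hT (sum_mem_lat (B := B) (fun s => m s / k))
  have h8 : ∀ z, TT ζ L x T z = (cexp (-(Real.pi * I * (e (xa B k x₀ a)
      (∑ s, (((m s / k : ℤ)) : ℚ) • B s) : ℚ))) * p) * TT ζ L (xa B k x₀ a) T z := by
    intro z
    have h9 := TT_TT h (xa B k x₀ a) (∑ s, (((m s / k : ℤ)) : ℚ) • B s) T z
    rw [← h4, funext hpl, TT_smul] at h9
    rw [mul_assoc, h9, ← mul_assoc, ← Complex.exp_add, neg_add_cancel, Complex.exp_zero, one_mul]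
  have h10 : (fun z => TT ζ L x T z ^ k) = ((cexp (-(Real.pi * I * (e (xa B k x₀ a)
      (∑ s, (((m s / k : ℤ)) : ℚ) • B s) : ℚ))) * p) ^ k) • Ga ζ L T B k x₀ a := by
    funext z
    rw [h8, mul_pow]
    rfl
  rw [h10]
  exact Submodule.smul_mem _ _ (Submodule.subset_span ⟨a, rfl⟩)

/-- algebraic values of powers -/
theorem alg_pow (h : IsPStr e B ζ L) {T : (ι → ℂ) → ℂ} {κ : ℂ} {c : ι → ℂ}
    (hA : AlgT ζ L T κ c) (k : ℕ) (x y : V) :
    Alg (TT ζ (⇑(k • L)) y (fun z => TT ζ L x T z ^ k) 0 / κ ^ k) := by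
  rw [TT_pow, TT_TT h, mul_pow, mul_div_assoc, ← div_pow]
  exact ((alg_exp _).pow k).mul (((hA.2.2 _).1).pow k)

/-! ### quadratic relations with algebraic coefficients -/

/-- the values at the torsion points, as a linear map -/
def vals (ζ L : V →ₗ[ℚ] (ι → ℂ)) (m : ℕ) (κ : ℂ) : ((ι → ℂ) → ℂ) →ₗ[ℂ] (V → ℂ) where
  toFun := fun F y => TT ζ (⇑(m • L)) y F 0 / κ ^ m
  map_add' := by
    intro F G
    funext y
    simp only [TT, Pi.add_apply]
    ring
  map_smul' := by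
    intro a F
    funext y
    simp only [TT, Pi.smul_apply, smul_eq_mul, RingHom.id_apply]
    ring

theorem vals_apply (m : ℕ) (κ : ℂ) (F : (ι → ℂ) → ℂ) (y : V) :
    vals ζ L m κ F y = TT ζ (⇑(m • L)) y F 0 / κ ^ m := rfl

theorem key (hLALG : Stmt_LALG) (h : IsPStr e B ζ L) {κ : ℂ} (hκ : κ ≠ 0) {k : ℕ} {Y : Type}
    [Fintype Y] (g : Y → (ι → ℂ) → ℂ) (hgc : ∀ a, Continuous (g a))
    (hga : ∀ a y, Alg (TT ζ (⇑(k • L)) y (g a) 0 / κ ^ k)) (w : V)
    (hsp : ∀ G, IsTk e ζ L B k w G → G ∈ Submodule.span ℂ (Set.range g))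
    (hN : ∀ F, IsTk e ζ L B (2 * k) (w + w) F → F ∈ Submodule.span ℂ {H | ∃ G G' : (ι → ℂ) → ℂ,
      IsTk e ζ L B k w G ∧ IsTk e ζ L B k w G' ∧ H = fun z => G z * G' z})
    {H : (ι → ℂ) → ℂ} (hH : IsTk e ζ L B (2 * k) (w + w) H)
    (hHa : ∀ y, Alg (TT ζ (⇑((2 * k) • L)) y H 0 / κ ^ (2 * k))) :
    ∃ a : Y × Y → ℂ, (∀ p, Alg (a p)) ∧ ∀ z, H z = ∑ p, a p * (g p.1 z * g p.2 z) := by
  classical
  have h1 : H ∈ Submodule.span ℂ (Set.range fun p : Y × Y => g p.1 * g p.2) := by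
    refine (Submodule.span_le.2 ?_) (hN H hH)
    rintro _ ⟨G, G', hG, hG', rfl⟩
    have h2 := Submodule.mul_mem_mul (hsp G hG) (hsp G' hG')
    rw [Submodule.span_mul_span] at h2
    refine (Submodule.span_mono ?_) h2
    rintro _ ⟨_, ⟨a, rfl⟩, _, ⟨b, rfl⟩, rfl⟩
    exact ⟨(a, b), rfl⟩
  have h3 : vals ζ L (2 * k) κ H ∈ Submodule.span ℂ
      (Set.range fun p : Y × Y => vals ζ L (2 * k) κ (g p.1 * g p.2)) := by
    have h4 := Submodule.mem_map_of_mem (f := vals ζ L (2 * k) κ) h1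
    rw [Submodule.map_span, ← Set.range_comp] at h4
    exact h4
  have hs : ∀ (p : Y × Y) (y : V), Alg (vals ζ L (2 * k) κ (g p.1 * g p.2) y) := by
    intro p y
    have h5 : vals ζ L (2 * k) κ (g p.1 * g p.2) y =
        (TT ζ (⇑(k • L)) y (g p.1) 0 / κ ^ k) * (TT ζ (⇑(k • L)) y (g p.2) 0 / κ ^ k) := by
      rw [vals_apply]
      have h6 := TT_mul (ζ := ζ) (L := L) k k y (g p.1) (g p.2) 0
      have h7 : (g p.1 * g p.2 : (ι → ℂ) → ℂ) = fun z => g p.1 z * g p.2 z := rfl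
      rw [h7, two_mul, h6, pow_add]
      field_simp
    rw [h5]
    exact (hga _ _).mul (hga _ _)
  obtain ⟨a, ha, hsum⟩ := hLALG V (Y × Y) (fun p => vals ζ L (2 * k) κ (g p.1 * g p.2))
    (vals ζ L (2 * k) κ H) hs (fun y => hHa y) h3
  refine ⟨fun p => a p, ha, ?_⟩
  have hcs : Continuous fun z => ∑ p : Y × Y, a p * (g p.1 z * g p.2 z) := by
    refine continuous_finsetSum _ fun p _ => ?_
    exact continuous_const.mul ((hgc _).mul (hgc _))
  have h8 := eq_of_torsion h (2 * k) (F := H)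
    (G := fun z => ∑ p : Y × Y, a p * (g p.1 z * g p.2 z)) hH.entire.continuous hcs (by
      intro y
      have h9 := hsum y
      rw [Finsupp.sum_fintype _ _ (by intro i; simp)] at h9
      have hk0 : κ ^ (2 * k) ≠ 0 := pow_ne_zero _ hκ
      rw [vals_apply, div_eq_iff hk0, Finset.sum_mul] at h9
      rw [h9, TT_sum]
      refine Finset.sum_congr rfl fun p _ => ?_
      rw [TT_smul, vals_apply, mul_assoc, div_mul_cancel₀ _ hk0]
      rfl)
  intro z
  exact congrFun h8 z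

/-- the polynomial of a quadratic relation -/
theorem exists_poly {N : ℕ} (a : Fin N × Fin N → ℂ) (ha : ∀ p, Alg (a p)) :
    ∃ P : MvPolynomial (Fin N) ℂ, DRB.AlgPoly P ∧ ∀ f : Fin N → ℂ,
      MvPolynomial.eval f P = ∑ p, a p * (f p.1 * f p.2) := by
  classical
  refine ⟨∑ p, MvPolynomial.C (a p) * (MvPolynomial.X p.1 * MvPolynomial.X p.2), ?_, ?_⟩
  · intro m
    rw [MvPolynomial.coeff_sum]
    refine alg_sum _ _ fun p _ => ?_
    rw [MvPolynomial.coeff_C_mul]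
    refine (ha p).mul ?_
    have h1 : (MvPolynomial.X p.1 * MvPolynomial.X p.2 : MvPolynomial (Fin N) ℂ) =
        MvPolynomial.monomial (Finsupp.single p.1 1 + Finsupp.single p.2 1) 1 := by
      rw [MvPolynomial.X, MvPolynomial.X, MvPolynomial.monomial_mul, one_mul]
    rw [h1, MvPolynomial.coeff_monomial]
    split_ifs
    · exact isAlgebraic_one
    · exact isAlgebraic_zero
  · intro f
    simp [map_sum]

/-! ### Wronskians and second logarithmic derivatives -/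

theorem wron_smul (i : ι) {F G : (ι → ℂ) → ℂ} (hF : Differentiable ℂ F) (hG : Differentiable ℂ G)
    (p q : ℂ) (z : ι → ℂ) :
    wron i (fun z => p * F z) (fun z => q * G z) z = p * q * wron i F G z := by
  unfold wron
  rw [pd_const_mul i p (hF z), pd_const_mul i q (hG z)]
  ring

theorem wron_differentiable (i : ι) {F G : (ι → ℂ) → ℂ} (hF : Differentiable ℂ F)
    (hG : Differentiable ℂ G) : Differentiable ℂ (wron i F G) := by
  unfold wron
  exact (hF.mul (differentiable_pd hG i)).sub (hG.mul (differentiable_pd hF i))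

theorem isTk_wron {k : ℕ} {w : V} (i : ι) {F G : (ι → ℂ) → ℂ} (hF : IsTk e ζ L B k w F)
    (hG : IsTk e ζ L B k w G) : IsTk e ζ L B (2 * k) (w + w) (wron i F G) := by
  refine ⟨wron_differentiable i hF.entire hG.entire, fun j z => ?_⟩
  rw [TT_wron k (B j) i hF.entire hG.entire, funext (hF.per j), funext (hG.per j),
    wron_smul i hF.entire hG.entire, ← Complex.exp_add, map_add]
  congr 2
  push_cast
  ring

/-- the numerators of the second logarithmic derivatives -/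
def Hf (k : ℕ) (i j : ι) (q r : ℂ) (W : (ι → ℂ) → ℂ) : (ι → ℂ) → ℂ :=
  fun z => (r * wron i W (pd j W) z + q * W z ^ 2) * W z ^ (2 * k - 2)

theorem Hf_smul {k : ℕ} (hk : 0 < k) (i j : ι) (q r : ℂ) {W : (ι → ℂ) → ℂ}
    (hW : Differentiable ℂ W) (p : ℂ) (z : ι → ℂ) :
    Hf k i j q r (fun z => p * W z) z = p ^ (2 * k) * Hf k i j q r W z := by
  unfold Hf
  have h1 : pd j (fun z => p * W z) = fun z => p * pd j W z :=
    funext fun z => pd_const_mul j p (hW z)
  rw [h1, wron_smul i hW (differentiable_pd hW j)]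
  have h2 : p ^ (2 * k) = p ^ 2 * p ^ (2 * k - 2) := by
    rw [← pow_add]
    congr 1
    omega
  rw [h2, mul_pow, mul_pow]
  ring

theorem Hf_differentiable (k : ℕ) (i j : ι) (q r : ℂ) {W : (ι → ℂ) → ℂ}
    (hW : Differentiable ℂ W) : Differentiable ℂ (Hf k i j q r W) := by
  unfold Hf
  have h1 := wron_differentiable i hW (differentiable_pd hW j)
  fun_prop

theorem TT_Hf {k : ℕ} (hk : 0 < k) (i j : ι) (q r : ℂ) {W : (ι → ℂ) → ℂ}
    (hW : Differentiable ℂ W) (y : V) (z : ι → ℂ) :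
    TT ζ (⇑((2 * k) • L)) y (Hf k i j q r W) z = Hf k i j q r (TT ζ L y W) z := by
  have hW1 := differentiable_pd hW j
  -- the derivative of the translate
  have h1 : pd j (TT ζ L y W) = TT ζ L y (fun z => pd j W z - L y j * W z) := by
    funext z
    rw [pd_TT y hW]
    rfl
  have h2 : Differentiable ℂ (fun z => pd j W z - L y j * W z) := hW1.sub (hW.const_mul _)
  have h3 : ∀ z, pd i (fun z => pd j W z - L y j * W z) z = pd i (pd j W) z - L y j * pd i W z := by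
    intro z
    rw [pd_sub i (hW1 z) ((hW z).const_mul _), pd_const_mul i _ (hW z)]
  unfold Hf wron
  rw [h1, pd_TT y h2, pd_TT y hW, h3]
  simp only [TT, nsmul_L_apply, dotp_nsmul_left]
  have h4 : cexp (-(((2 * k : ℕ) : ℂ) * dotp (L y) z) - ((2 * k : ℕ) : ℂ) * dotp (L y) (ζ y) / 2) =
      cexp (-(dotp (L y) z) - dotp (L y) (ζ y) / 2) ^ 2 *
      cexp (-(dotp (L y) z) - dotp (L y) (ζ y) / 2) ^ (2 * k - 2) := by
    rw [← pow_add, ← Complex.exp_nat_mul]
    have h5 : 2 + (2 * k - 2) = 2 * k := by omega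
    rw [h5]
    congr 1
    ring
  rw [h4, mul_pow]
  ring

/-- the functions `Hf` are of level `2 k` -/
theorem isTk_Hf (hS : SympBasis e B) (h : IsPStr e B ζ L) {T : (ι → ℂ) → ℂ}
    (hT : IsTh ζ L B T) {k : ℕ} (hk : 0 < k) (x₀ : V) (i j : ι) (q r : ℂ) :
    IsTk e ζ L B (2 * k) ((k : ℚ) • x₀ + (k : ℚ) • x₀) (Hf k i j q r (TT ζ L x₀ T)) := by
  have hW := TT_differentiable (ζ := ζ) (L := L) x₀ hT.entire
  refine ⟨Hf_differentiable k i j q r hW, fun l z => ?_⟩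
  have h1 : TT ζ L (B l) (TT ζ L x₀ T) =
      fun z => cexp (2 * Real.pi * I * (e (B l) x₀ : ℚ)) * TT ζ L x₀ T z := by
    funext z
    rw [TT_comm' hS h, hT.per l]
  rw [TT_Hf hk i j q r hW, h1, Hf_smul hk i j q r hW, ← Complex.exp_nat_mul, map_add, map_smul]
  congr 2
  rw [smul_eq_mul]
  push_cast
  ring

/-- algebraic values of the functions `Hf` -/
theorem alg_Hf {T : (ι → ℂ) → ℂ} (hT : Differentiable ℂ T) (h : IsPStr e B ζ L) {κ : ℂ}
    {c : ι → ℂ} (hA : AlgT ζ L T κ c) {Q : ι → ι → ℂ}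
    (hQ : ∀ x : V, TT ζ L x T 0 ≠ 0 → ∀ i j,
      Alg (pd i (fun z => pd j (TT ζ L x T) z / TT ζ L x T z) 0 / (c i * c j) + Q i j))
    {k : ℕ} (hk : 1 < k) (x₀ : V) (i j : ι) (y : V) :
    Alg (TT ζ (⇑((2 * k) • L)) y (Hf k i j (Q i j) (c i * c j)⁻¹ (TT ζ L x₀ T)) 0 /
      κ ^ (2 * k)) := by
  have hW := TT_differentiable (ζ := ζ) (L := L) x₀ hT
  have h1 : TT ζ L y (TT ζ L x₀ T) =
      fun z => cexp (Real.pi * I * (e y x₀ : ℚ)) * TT ζ L (y + x₀) T z := by
    funext z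
    rw [TT_TT h]
  have hW' := TT_differentiable (ζ := ζ) (L := L) (y + x₀) hT
  rw [TT_Hf (by omega) i j _ _ hW, h1, Hf_smul (by omega) i j _ _ hW', mul_div_assoc]
  refine ((alg_exp _).pow _).mul ?_
  by_cases h0 : TT ζ L (y + x₀) T 0 = 0
  · have h2 : Hf k i j (Q i j) (c i * c j)⁻¹ (TT ζ L (y + x₀) T) 0 = 0 := by
      unfold Hf
      rw [h0, zero_pow (by omega : 2 * k - 2 ≠ 0), mul_zero]
    rw [h2, zero_div]
    exact isAlgebraic_zero
  · have h3 := hQ (y + x₀) h0 i j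
    rw [pd_div i (differentiable_pd hW' j) hW' h0] at h3
    have h4 : Hf k i j (Q i j) (c i * c j)⁻¹ (TT ζ L (y + x₀) T) 0 / κ ^ (2 * k) =
        ((TT ζ L (y + x₀) T 0 * pd i (pd j (TT ζ L (y + x₀) T)) 0 -
          pd j (TT ζ L (y + x₀) T) 0 * pd i (TT ζ L (y + x₀) T) 0) / TT ζ L (y + x₀) T 0 ^ 2 /
          (c i * c j) + Q i j) * (TT ζ L (y + x₀) T 0 / κ) ^ (2 * k) := by
      unfold Hf wron
      have h5 : (TT ζ L (y + x₀) T 0 / κ) ^ (2 * k) =
          TT ζ L (y + x₀) T 0 ^ 2 * TT ζ L (y + x₀) T 0 ^ (2 * k - 2) / κ ^ (2 * k) := by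
        rw [div_pow, ← pow_add]
        congr 2
        omega
      rw [h5]
      field_simp
    rw [h4]
    exact h3.mul (((hA.2.2 _).1).pow _)

/-! ### the theta function and the numerators -/

/-- the functions `exp (m/2 Q(u, u)) G (u / c)` -/
def num (Q : ι → ι → ℂ) (c : ι → ℂ) (m : ℕ) (G : (ι → ℂ) → ℂ) : (ι → ℂ) → ℂ :=
  fun u => cexp ((m : ℂ) * (qf Q u u / 2)) * G (sc c u)

theorem differentiable_sc {c : ι → ℂ} {G : (ι → ℂ) → ℂ} (hG : Differentiable ℂ G) :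
    Differentiable ℂ (fun u => G (sc c u)) := hG.comp (sc c).differentiable

theorem num_differentiable (Q : ι → ι → ℂ) (c : ι → ℂ) (m : ℕ) {G : (ι → ℂ) → ℂ}
    (hG : Differentiable ℂ G) : Differentiable ℂ (num Q c m G) := by
  unfold num
  exact ((qf_differentiable Q).const_mul _).cexp.mul (differentiable_sc hG)

/-- the theta function in the coordinates `u` -/
def tht (Q : ι → ι → ℂ) (c : ι → ℂ) (W : (ι → ℂ) → ℂ) : (ι → ℂ) → ℂ :=
  fun u => cexp (qf Q u u / 2) * W (sc c u)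

theorem tht_eq_num (Q : ι → ι → ℂ) (c : ι → ℂ) (W : (ι → ℂ) → ℂ) :
    tht Q c W = num Q c 1 W := by
  funext u
  simp [tht, num]

theorem tht_ne_zero {Q : ι → ι → ℂ} {c : ι → ℂ} {W : (ι → ℂ) → ℂ} {u : ι → ℂ} :
    tht Q c W u ≠ 0 ↔ W (sc c u) ≠ 0 := by
  unfold tht
  simp [Complex.exp_ne_zero]

theorem num_div (Q : ι → ι → ℂ) (c : ι → ℂ) (k : ℕ) (G W : (ι → ℂ) → ℂ) (u : ι → ℂ) :
    num Q c k G u / tht Q c W u ^ k = G (sc c u) / W (sc c u) ^ k := by
  unfold num tht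
  rw [mul_pow, ← Complex.exp_nat_mul, mul_div_mul_left _ _ (Complex.exp_ne_zero _)]

/-- the lattice vectors in the coordinates `u` -/
def lt (c : ι → ℂ) (ζ : V → ι → ℂ) (B : Module.Basis (ι ⊕ ι) ℚ V) (j : ι ⊕ ι) : ι → ℂ :=
  fun i => c i * ζ (B j) i

/-- the linear parts of the exponents -/
def ln (c : ι → ℂ) (ζ L : V → ι → ℂ) (B : Module.Basis (ι ⊕ ι) ℚ V) (Q : ι → ι → ℂ)
    (j : ι ⊕ ι) : ι → ℂ :=
  fun l => (c l)⁻¹ * L (B j) l + ∑ i, Q i l * lt c ζ B j i

/-- the constant parts of the exponents -/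
def ct (e : V →ₗ[ℚ] V →ₗ[ℚ] ℚ) (c : ι → ℂ) (ζ L : V → ι → ℂ) (B : Module.Basis (ι ⊕ ι) ℚ V)
    (Q : ι → ι → ℂ) (x₀ : V) (j : ι ⊕ ι) : ℂ :=
  dotp (L (B j)) (ζ (B j)) / 2 + 2 * Real.pi * I * (e (B j) x₀ : ℚ) +
    qf Q (lt c ζ B j) (lt c ζ B j) / 2

theorem sum_ln (c : ι → ℂ) (Q : ι → ι → ℂ) (j : ι ⊕ ι) (u : ι → ℂ) :
    ∑ l, ln c ζ L B Q j l * u l = dotp (L (B j)) (sc c u) + qf Q (lt c ζ B j) u := by
  unfold ln dotp qf
  simp only [add_mul, Finset.sum_add_distrib, sc_apply]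
  congr 1
  · exact Finset.sum_congr rfl fun l _ => by ring
  · simp only [Finset.sum_mul]
    rw [Finset.sum_comm]
    exact Finset.sum_congr rfl fun i _ => Finset.sum_congr rfl fun l _ => by ring

theorem sc_add_lt {c : ι → ℂ} (hc : ∀ i, c i ≠ 0) (j : ι ⊕ ι) (u : ι → ℂ) :
    sc c (u + lt c ζ B j) = sc c u + ζ (B j) := by
  funext i
  rw [Pi.add_apply, sc_apply, sc_apply, Pi.add_apply, mul_add]
  congr 1
  unfold lt
  rw [← mul_assoc, inv_mul_cancel₀ (hc i), one_mul]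

theorem num_aut {Q : ι → ι → ℂ} (hQ : ∀ i j, Q i j = Q j i) {c : ι → ℂ} (hc : ∀ i, c i ≠ 0)
    {m : ℕ} {x₀ : V} {G : (ι → ℂ) → ℂ} (hG : IsTk e ζ L B m ((m : ℚ) • x₀) G) (j : ι ⊕ ι)
    (u : ι → ℂ) : num Q c m G (u + lt c ζ B j) =
      cexp ((m : ℂ) * ((∑ l, ln c ζ L B Q j l * u l) + ct e c ζ L B Q x₀ j)) * num Q c m G u := by
  unfold num
  rw [sc_add_lt hc, shift hG, qf_add hQ, sum_ln, ← mul_assoc, ← mul_assoc, ← Complex.exp_add,
    ← Complex.exp_add, map_smul, smul_eq_mul]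
  congr 2
  unfold ct
  push_cast
  ring

/-- partial derivatives of the functions `G (u / c) / W (u / c) ^ k` -/
theorem pd_quot (c : ι → ℂ) (k : ℕ) {G W : (ι → ℂ) → ℂ} (hG : Differentiable ℂ G)
    (hW : Differentiable ℂ W) (i : ι) {u : ι → ℂ} (h0 : W (sc c u) ≠ 0) :
    pd i (fun u => G (sc c u) / W (sc c u) ^ k) u =
      (c i)⁻¹ * wron i (fun z => W z ^ k) G (sc c u) / (W (sc c u) ^ k) ^ 2 := by
  have hWk : Differentiable ℂ fun z => W z ^ k := hW.pow k
  have h0k : W (sc c u) ^ k ≠ 0 := pow_ne_zero _ h0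
  have hd : DifferentiableAt ℂ (fun z => G z / W z ^ k) (sc c u) := by
    simp only [div_eq_mul_inv]
    exact (hG _).mul ((hWk _).fun_inv h0k)
  rw [pd_sc c i hd, pd_div i hG hWk h0k]
  unfold wron
  ring

/-- the second logarithmic derivatives of the theta function -/
theorem pd_log {Q : ι → ι → ℂ} (hQ : ∀ i j, Q i j = Q j i) (c : ι → ℂ) {W : (ι → ℂ) → ℂ}
    (hW : Differentiable ℂ W) (i j : ι) {u : ι → ℂ} (h0 : W (sc c u) ≠ 0) :
    pd i (fun w => pd j (tht Q c W) w / tht Q c W w) u =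
      ((c i * c j)⁻¹ * wron i W (pd j W) (sc c u) + Q i j * W (sc c u) ^ 2) /
        W (sc c u) ^ 2 := by
  have hcW : Continuous fun u => W (sc c u) := (differentiable_sc hW).continuous
  have h1 : (fun w => pd j (tht Q c W) w / tht Q c W w) =ᶠ[nhds u]
      fun w => (∑ l, Q j l * w l) + (c j)⁻¹ * (pd j W (sc c w) / W (sc c w)) := by
    have h2 : ∀ᶠ w in nhds u, W (sc c w) ≠ 0 := hcW.continuousAt.eventually_ne h0
    filter_upwards [h2] with w hw
    have h3 : pd j (tht Q c W) w = cexp (qf Q w w / 2) * ((c j)⁻¹ * pd j W (sc c w)) +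
        W (sc c w) * (cexp (qf Q w w / 2) * ∑ l, Q j l * w l) := by
      have h4 : tht Q c W = fun u => cexp (qf Q u u / 2) * W (sc c u) := rfl
      rw [h4, pd_mul j ((qf_differentiable Q).cexp w) (differentiable_sc hW w),
        pd_sc c j (hW _), pd_exp j (qf_differentiable Q w), pd_qf hQ]
    rw [h3]
    unfold tht
    have h5 := Complex.exp_ne_zero (qf Q w w / 2)
    field_simp
    ring
  have hW1 := differentiable_pd hW j
  have hd : DifferentiableAt ℂ (fun z => pd j W z / W z) (sc c u) := by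
    simp only [div_eq_mul_inv]
    exact (hW1 _).mul ((hW _).fun_inv h0)
  have hd' : DifferentiableAt ℂ (fun u => pd j W (sc c u) / W (sc c u)) u :=
    hd.comp u (sc c).differentiableAt
  have hs : Differentiable ℂ (fun w : ι → ℂ => ∑ l, Q j l * w l) := by fun_prop
  rw [pd_congr i h1, pd_add i (hs u) (hd'.const_mul _), pd_const_mul i _ hd',
    pd_sc (F := fun z => pd j W z / W z) c i hd, pd_div i hW1 hW h0,
    pd_sum _ _ _ _ (fun b _ => by fun_prop)]
  have h6 : ∑ a, pd i (fun w : ι → ℂ => Q j a * w a) u = Q i j := by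
    have h7 : ∀ a, pd i (fun w : ι → ℂ => Q j a * w a) u = if a = i then Q j a else 0 := by
      intro a
      rw [pd_const_mul (F := fun w : ι → ℂ => w a) i _ (by fun_prop), pd_coord]
      split_ifs <;> ring
    rw [Finset.sum_congr rfl fun a _ => h7 a]
    simp [hQ i j]
  rw [h6]
  unfold wron
  rw [mul_inv]
  field_simp
  ring

/-- the period matrix is invertible -/
theorem nondeg {n : ℕ} {B : Module.Basis (Fin n ⊕ Fin n) ℚ V} {ζ L : V →ₗ[ℚ] (Fin n → ℂ)}
    (hS : SympBasis e B) (h : IsPStr e B ζ L) {Q : Fin n → Fin n → ℂ}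
    (hQ : ∀ i j, Q i j = Q j i) {c : Fin n → ℂ} (hc : ∀ i, c i ≠ 0) :
    IsUnit (Matrix.of (fun (r : DRB.Idx n) (i : DRB.Idx n) =>
      Sum.elim (fun k => lt c ζ B i k) (fun k => ln c ζ L B Q i k) r)).det := by
  rw [isUnit_iff_ne_zero]
  intro hdet
  obtain ⟨v, hv0, hv⟩ := Matrix.exists_mulVec_eq_zero_iff.2 hdet
  apply hv0
  have h1 : ∀ k, ∑ i, lt c ζ B i k * v i = 0 := fun k => by
    have := congrFun hv (Sum.inl k)
    simpa [Matrix.mulVec, dotProduct] using this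
  have h2 : ∀ k, ∑ i, ln c ζ L B Q i k * v i = 0 := fun k => by
    have := congrFun hv (Sum.inr k)
    simpa [Matrix.mulVec, dotProduct] using this
  have hsc : ∀ j, sc c (lt c ζ B j) = ζ (B j) := by
    intro j
    have := sc_add_lt (ζ := ζ) (B := B) hc j 0
    rw [zero_add, map_zero, zero_add] at this
    exact this
  have h3 : ∀ i j, ∑ l, ln c ζ L B Q i l * lt c ζ B j l - ∑ l, ln c ζ L B Q j l * lt c ζ B i l =
      2 * Real.pi * I * (e (B i) (B j) : ℚ) := by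
    intro i j
    rw [sum_ln, sum_ln, hsc, hsc, qf_comm hQ (lt c ζ B j) (lt c ζ B i), ← h.rel (B i) (B j)]
    ring
  have h4 : ∀ j, ∑ i, v i * (e (B i) (B j) : ℚ) = (0 : ℂ) := by
    intro j
    have h5 : (2 * Real.pi * I : ℂ) * ∑ i, v i * (e (B i) (B j) : ℚ) = 0 := by
      rw [Finset.mul_sum]
      have h6 : ∀ i, (2 * Real.pi * I : ℂ) * (v i * (e (B i) (B j) : ℚ)) =
          ∑ l, (ln c ζ L B Q i l * v i) * lt c ζ B j l -
            ∑ l, ln c ζ L B Q j l * (lt c ζ B i l * v i) := by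
        intro i
        have h7 := h3 i j
        have h8 : (2 * Real.pi * I : ℂ) * (v i * (e (B i) (B j) : ℚ)) =
            v i * (2 * Real.pi * I * (e (B i) (B j) : ℚ)) := by ring
        rw [h8, ← h7, mul_sub, Finset.mul_sum, Finset.mul_sum]
        congr 1
        · exact Finset.sum_congr rfl fun l _ => by ring
        · exact Finset.sum_congr rfl fun l _ => by ring
      rw [Finset.sum_congr rfl fun i _ => h6 i, Finset.sum_sub_distrib, Finset.sum_comm,
        Finset.sum_comm (f := fun i l => ln c ζ L B Q j l * (lt c ζ B i l * v i))]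
      simp only [← Finset.sum_mul, ← Finset.mul_sum, h1, h2, zero_mul, mul_zero,
        Finset.sum_const_zero, sub_zero]
    rcases mul_eq_zero.1 h5 with h6 | h6
    · exact absurd h6 Complex.two_pi_I_ne_zero
    · exact h6
  funext s
  rcases s with s | s
  · have h5 := h4 (Sum.inr s)
    rw [Fintype.sum_sum_type] at h5
    simp only [hS.lr, hS.rr, Rat.cast_zero, mul_zero, Finset.sum_const_zero, add_zero] at h5
    rw [Finset.sum_eq_single s] at h5
    · simpa using h5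
    · intro b _ hb
      simp [hb]
    · simp
  · have h5 := h4 (Sum.inl s)
    rw [Fintype.sum_sum_type] at h5
    simp only [hS.ll, Rat.cast_zero, mul_zero, Finset.sum_const_zero, zero_add] at h5
    rw [Finset.sum_eq_single s] at h5
    · rw [e_swap hS.alt, hS.lr] at h5
      simpa using h5
    · intro b _ hb
      rw [e_swap hS.alt, hS.lr]
      simp [Ne.symm hb]
    · simp

/-- the lattice vectors are linearly independent over the real numbers -/
theorem indep_lt {n : ℕ} {B : Module.Basis (Fin n ⊕ Fin n) ℚ V} {ζ L : V →ₗ[ℚ] (Fin n → ℂ)}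
    (h : IsPStr e B ζ L) {c : Fin n → ℂ} (hc : ∀ i, c i ≠ 0) :
    LinearIndependent ℝ (lt c ζ B) := by
  have h1 := linInd_zeta h
  let φ : (Fin n → ℂ) →ₗ[ℝ] (Fin n → ℂ) :=
    { toFun := fun z i => c i * z i
      map_add' := by
        intro x y
        funext i
        simp only [Pi.add_apply]
        ring
      map_smul' := by
        intro r x
        funext i
        simp only [Pi.smul_apply, RingHom.id_apply, Complex.real_smul]
        ring }
  have hφ : LinearMap.ker φ = ⊥ := by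
    rw [LinearMap.ker_eq_bot]
    intro x y hxy
    funext i
    have := congrFun hxy i
    exact mul_left_cancel₀ (hc i) this
  exact h1.map' φ hφ

/-- the immersion property for the generators -/
theorem imm_gen {Y : Type} (g : Y → (ι → ℂ) → ℂ) (hg : ∀ a, Differentiable ℂ (g a)) (k : ℕ)
    {W : (ι → ℂ) → ℂ} (hW : Differentiable ℂ W) (h0 : W 0 ≠ 0) {c : ι → ℂ} (hc : ∀ i, c i ≠ 0)
    (P : ((ι → ℂ) → ℂ) → Prop)
    (hsp : ∀ G, P G → G ∈ Submodule.span ℂ (Set.range g))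
    (hI : ∀ v : ι → ℂ, v ≠ 0 → ∀ t : ℂ, ∃ F, P F ∧ ∑ i, v i * pd i F 0 ≠ t * F 0)
    (v : ι → ℂ) (hv : ∀ a, fderiv ℂ (fun u => g a (sc c u) / W (sc c u) ^ k) 0 v = 0) :
    v = 0 := by
  by_contra hne
  have hWk : Differentiable ℂ fun z => W z ^ k := hW.pow k
  have h0k : W 0 ^ k ≠ 0 := pow_ne_zero _ h0
  have hv' : (fun i => (c i)⁻¹ * v i) ≠ 0 := by
    intro h
    apply hne
    funext i
    have := congrFun h i
    simpa [hc i] using this
  obtain ⟨F, hF, hF'⟩ := hI _ hv' ((∑ i, (c i)⁻¹ * v i * pd i (fun z => W z ^ k) 0) / W 0 ^ k)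
  apply hF'
  have h1 : Differentiable ℂ F ∧ ∑ i, (c i)⁻¹ * v i * pd i F 0 =
      (∑ i, (c i)⁻¹ * v i * pd i (fun z => W z ^ k) 0) / W 0 ^ k * F 0 := by
    refine Submodule.span_induction (p := fun F _ => Differentiable ℂ F ∧
      ∑ i, (c i)⁻¹ * v i * pd i F 0 =
      (∑ i, (c i)⁻¹ * v i * pd i (fun z => W z ^ k) 0) / W 0 ^ k * F 0) ?_ ?_ ?_ ?_ (hsp F hF)
    · rintro _ ⟨a, rfl⟩
      refine ⟨hg a, ?_⟩
      have h2 := hv a
      rw [fderiv_eq_sum] at h2
      have h3 : ∀ i, v i * pd i (fun u => g a (sc c u) / W (sc c u) ^ k) 0 =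
          ((W 0 ^ k) * ((c i)⁻¹ * v i * pd i (g a) 0) -
            g a 0 * ((c i)⁻¹ * v i * pd i (fun z => W z ^ k) 0)) / (W 0 ^ k) ^ 2 := by
        intro i
        rw [pd_quot c k (hg a) hW i (by rw [map_zero]; exact h0), map_zero]
        unfold wron
        ring
      rw [Finset.sum_congr rfl fun i _ => h3 i, ← Finset.sum_div, Finset.sum_sub_distrib,
        ← Finset.mul_sum, ← Finset.mul_sum] at h2
      have h4 := (div_eq_zero_iff.1 h2).resolve_right (pow_ne_zero _ h0k)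
      rw [div_mul_eq_mul_div, eq_div_iff h0k]
      linear_combination h4
    · refine ⟨differentiable_const _, ?_⟩
      have h5 : ∀ i, pd i (0 : (ι → ℂ) → ℂ) 0 = 0 := by
        intro i
        unfold pd
        have : fderiv ℂ (0 : (ι → ℂ) → ℂ) 0 = 0 := by simp
        rw [this]
        rfl
      simp [h5]
    · rintro F G _ _ ⟨hF, hF1⟩ ⟨hG, hG1⟩
      refine ⟨hF.add hG, ?_⟩
      have h5 : ∀ i, pd i (F + G) 0 = pd i F 0 + pd i G 0 := fun i => pd_add i (hF 0) (hG 0)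
      simp only [h5, mul_add, Finset.sum_add_distrib, hF1, hG1, Pi.add_apply]
    · rintro a F _ ⟨hF, hF1⟩
      refine ⟨hF.const_smul a, ?_⟩
      have h5 : ∀ i, pd i (a • F) 0 = a * pd i F 0 := fun i => pd_const_mul i a (hF 0)
      have h6 : ∑ i, (c i)⁻¹ * v i * pd i (a • F) 0 = a * ∑ i, (c i)⁻¹ * v i * pd i F 0 := by
        rw [Finset.mul_sum]
        exact Finset.sum_congr rfl fun i _ => by rw [h5]; ring
      rw [h6, hF1, Pi.smul_apply, smul_eq_mul]
      ring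
  exact h1.2

end ABV_

open ABV_

theorem abv_proof (hTHE : Stmt_THE) (hSALL : Stmt_SALL) (hSEP1 : Stmt_SEP1) (hSPN : Stmt_SPN)
    (hLALG : Stmt_LALG) (hALGD : Stmt_ALGD) (hNRM : Stmt_NRM) (hIMK : Stmt_IMK)
    (hLGD : Stmt_LGD) : Stmt_ABV := by
  intro n V _ _ e ζ c hSS B L hS h
  -- the theta function
  obtain ⟨Θ, -, hΘ⟩ := hTHE V (Fin n) e B (Fin 0) Set.univ (fun _ => ζ) L isOpen_univ
    (fun x i => differentiableOn_const _) hS (fun _ _ => h)
  obtain ⟨hT, hT0⟩ := hΘ 0 (Set.mem_univ _)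
  generalize Θ 0 = T at hT hT0
  have hc : ∀ i, c i ≠ 0 := hSS.1
  obtain ⟨κ, hκ, hx⟩ := hSALL V (Fin n) e ζ c hSS B L T hS h hT hT0
  have hA : AlgT ζ L T κ c := ⟨hκ, hc, hx⟩
  obtain ⟨x₀, hx₀⟩ := (hSEP1 V (Fin n) e B ζ L hS h T hT hT0).1
  obtain ⟨Q, hQ, hQ'⟩ := hLGD V (Fin n) e B ζ L hS h T hT hT0 κ c hA
  obtain ⟨m, hm, hI⟩ := hIMK V (Fin n) e B ζ L hS h T hT hT0 x₀ hx₀
  obtain ⟨k₀, hN⟩ := hNRM V (Fin n) e B ζ L hS h
  -- the level
  obtain ⟨k, hk1, hkk, hke, hkm⟩ : ∃ k : ℕ, 1 < k ∧ k₀ ≤ k ∧ Even k ∧ m ∣ k := by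
    refine ⟨2 * m * (k₀ + 1), ?_, ?_, ?_, ?_⟩
    · have h1 : 1 ≤ m * (k₀ + 1) := Nat.mul_pos hm (Nat.succ_pos _)
      have h2 : 2 * m * (k₀ + 1) = 2 * (m * (k₀ + 1)) := by ring
      omega
    · have h1 : (k₀ + 1) ≤ 2 * m * (k₀ + 1) := Nat.le_mul_of_pos_left _ (by omega)
      omega
    · exact ⟨m * (k₀ + 1), by ring⟩
    · exact ⟨2 * (k₀ + 1), by ring⟩
  have hk : 0 < k := by omega
  have hW : Differentiable ℂ (TT ζ L x₀ T) := TT_differentiable x₀ hT.entire
  have hWk := isTk_pow hS h hT k x₀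
  have hW1 : IsTk e ζ L B 1 (((1 : ℕ) : ℚ) • x₀) (TT ζ L x₀ T) := by
    have h1 := isTk_pow hS h hT 1 x₀
    simp only [pow_one] at h1
    exact h1
  -- the generators
  let Y := Fin (Fintype.card (Fin n ⊕ Fin n → Fin k))
  let eY : (Fin n ⊕ Fin n → Fin k) ≃ Y := Fintype.equivFin _
  let g : Y → (Fin n → ℂ) → ℂ := fun a => Ga ζ L T B k x₀ (eY.symm a)
  have hgT : ∀ a, IsTk e ζ L B k ((k : ℚ) • x₀) (g a) := fun a => isTk_Ga hS h hT hk x₀ _
  have hgd : ∀ a, Differentiable ℂ (g a) := fun a => (hgT a).entire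
  have hga : ∀ a y, Alg (TT ζ (⇑(k • L)) y (g a) 0 / κ ^ k) := fun a y => alg_pow h hA k _ y
  have hWa : ∀ y, Alg (TT ζ (⇑(k • L)) y (fun z => TT ζ L x₀ T z ^ k) 0 / κ ^ k) :=
    fun y => alg_pow h hA k _ y
  have hsp : ∀ G, IsTk e ζ L B k ((k : ℚ) • x₀) G → G ∈ Submodule.span ℂ (Set.range g) := by
    intro G hG
    have h1 := span_Ga hSPN hS h hT hT0 hk x₀ hG
    have h2 : Set.range g = Set.range (Ga ζ L T B k x₀) :=
      eY.symm.surjective.range_comp (Ga ζ L T B k x₀)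
    rw [h2]
    exact h1
  have hkey : ∀ H : (Fin n → ℂ) → ℂ,
      IsTk e ζ L B (2 * k) ((k : ℚ) • x₀ + (k : ℚ) • x₀) H →
      (∀ y, Alg (TT ζ (⇑((2 * k) • L)) y H 0 / κ ^ (2 * k))) →
      ∃ P : MvPolynomial Y ℂ, DRB.AlgPoly P ∧ ∀ u, tht Q c (TT ζ L x₀ T) u ≠ 0 →
        H (sc c u) / (TT ζ L x₀ T (sc c u) ^ k) ^ 2 = MvPolynomial.eval
          (fun l => num Q c k (g l) u / tht Q c (TT ζ L x₀ T) u ^ k) P := by
    intro H hH hHa
    obtain ⟨a, ha, hsum⟩ := key hLALG h hκ g (fun a => (hgd a).continuous) hga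
      ((k : ℚ) • x₀) hsp (fun F hF => hN k hkk hke hk _ F hF) hH hHa
    obtain ⟨P, hP, hP'⟩ := exists_poly a ha
    refine ⟨P, hP, fun u hu => ?_⟩
    rw [hP', hsum, Finset.sum_div]
    refine Finset.sum_congr rfl fun p _ => ?_
    rw [num_div, num_div]
    have h1 : TT ζ L x₀ T (sc c u) ^ k ≠ 0 := pow_ne_zero _ (tht_ne_zero.1 hu)
    field_simp
  refine ⟨{ lat := lt c ζ B
            lat_indep := indep_lt h hc
            θ := tht Q c (TT ζ L x₀ T)
            θ_entire := ?_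
            θ_zero := ?_
            lin := ln c ζ L B Q
            cst := ct e c ζ L B Q x₀
            θ_aut := ?_
            nfun := Fintype.card (Fin n ⊕ Fin n → Fin k)
            wt := k
            num := fun a => num Q c k (g a)
            num_entire := fun a => num_differentiable Q c k (hgd a)
            num_aut := fun a i z => num_aut hQ hc (hgT a) i z
            alg_f := ?_
            alg_θ := ?_
            alg_zero := ?_
            imm := ?_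
            nondeg := nondeg hS h hQ hc }, fun j i => rfl⟩
  · rw [tht_eq_num]
    exact num_differentiable Q c 1 hW
  · rw [tht_ne_zero, map_zero]
    exact hx₀
  · intro i z
    have h1 := num_aut hQ hc hW1 i z
    rw [← tht_eq_num] at h1
    rw [h1]
    simp
  · -- derivatives of the generators
    intro i a
    obtain ⟨P, hP, hP'⟩ := hkey (fun z => (c i)⁻¹ * wron i (fun z => TT ζ L x₀ T z ^ k) (g a) z)
      ((isTk_wron i hWk (hgT a)).smul _) (by
        intro y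
        have h1 := hALGD V (Fin n) e B ζ L hS h T hT hT0 κ c hA k _ _ hk (hgT a) (hga a) y i
        have h2 := hALGD V (Fin n) e B ζ L hS h T hT hT0 κ c hA k _ _ hk hWk hWa y i
        rw [TT_smul, TT_wron k y i hWk.entire (hgd a)]
        have h3 : (c i)⁻¹ * wron i (TT ζ (⇑(k • L)) y fun z => TT ζ L x₀ T z ^ k)
            (TT ζ (⇑(k • L)) y (g a)) 0 / κ ^ (2 * k) =
            (TT ζ (⇑(k • L)) y (fun z => TT ζ L x₀ T z ^ k) 0 / κ ^ k) *
              (pd i (TT ζ (⇑(k • L)) y (g a)) 0 / (κ ^ k * c i)) -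
            (TT ζ (⇑(k • L)) y (g a) 0 / κ ^ k) *
              (pd i (TT ζ (⇑(k • L)) y fun z => TT ζ L x₀ T z ^ k) 0 / (κ ^ k * c i)) := by
          unfold wron
          have h4 : κ ^ (2 * k) = κ ^ k * κ ^ k := by rw [two_mul, pow_add]
          have h5 : κ ^ k ≠ 0 := pow_ne_zero _ hκ
          have h6 := hc i
          rw [h4]
          field_simp
        rw [h3]
        exact ((hWa y).mul h1).sub ((hga a y).mul h2))
    refine ⟨P, hP, fun u hu => ?_⟩
    rw [← hP' u hu]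
    have h1 : (fun w => num Q c k (g a) w / tht Q c (TT ζ L x₀ T) w ^ k) =
        fun w => g a (sc c w) / TT ζ L x₀ T (sc c w) ^ k := funext fun w => num_div _ _ _ _ _ _
    have h2 := pd_quot c k (hgd a) hW i (tht_ne_zero.1 hu)
    rw [← h1] at h2
    exact h2
  · -- second logarithmic derivatives
    intro i j
    obtain ⟨P, hP, hP'⟩ := hkey (Hf k i j (Q i j) (c i * c j)⁻¹ (TT ζ L x₀ T))
      (isTk_Hf hS h hT hk x₀ i j _ _) (fun y => alg_Hf hT.entire h hA hQ' hk1 x₀ i j y)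
    refine ⟨P, hP, fun u hu => ?_⟩
    rw [← hP' u hu]
    have h0 := tht_ne_zero.1 hu
    have h2 := pd_log hQ c hW i j h0
    refine h2.trans ?_
    unfold Hf
    have h3 : (TT ζ L x₀ T (sc c u) ^ k) ^ 2 = TT ζ L x₀ T (sc c u) ^ 2 *
        TT ζ L x₀ T (sc c u) ^ (2 * k - 2) := by
      rw [← pow_mul, ← pow_add]
      congr 1
      omega
    rw [h3, mul_div_mul_right _ _ (pow_ne_zero _ h0)]
  · -- the origin is an algebraic point
    intro a
    rw [num_div, map_zero]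
    have h1 : g a 0 / TT ζ L x₀ T 0 ^ k =
        ((TT ζ L (xa B k x₀ (eY.symm a)) T 0 / κ) / (TT ζ L x₀ T 0 / κ)) ^ k := by
      rw [div_div_div_cancel_right₀ hκ, div_pow]
      rfl
    rw [h1, div_eq_mul_inv]
    exact ((IsAlgebraic.mul ((hx _).1) (IsAlgebraic.inv ((hx _).1)))).pow k
  · -- immersion
    intro v hv
    refine imm_gen g hgd k hW hx₀ hc (fun F => IsTk e ζ L B k ((k : ℚ) • x₀) F) hsp
      (fun v hv t => hI k hk hkm v hv t) v fun a => ?_
    have h1 : (fun w => num Q c k (g a) w / tht Q c (TT ζ L x₀ T) w ^ k) =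
        fun w => g a (sc c w) / TT ζ L x₀ T (sc c w) ^ k := funext fun w => num_div _ _ _ _ _ _
    rw [← h1]
    exact hv a

end

end Pool.Agent.SPF
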