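import Mathlib

/-!
# Algebraic dependence of holomorphic functions with a compact fundamental set

`X` open in a complex vector space of dimension `d`, `P` a finite family of analytic functions on
`X` without common zero, `B` a compact subset of `X` such that every point of `X` has the same
image as a point of `B` under `x ↦ [P x]`.  Then any `d + 2` of the functions satisfy a homogeneous
polynomial relation.
-/

set_option autoImplicit false
set_option linter.unusedSectionVars false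

open scoped Topology
open Metric

namespace Pool.Agent.SPF.ADX

/-- Taylor coefficients of order `< T` vanish: Schwarz lemma. -/
theorem schwarz {g : ℂ → ℂ} {M : ℝ} (hM : ∀ t ∈ closedBall (0 : ℂ) 3, ‖g t‖ ≤ M)
    (hg : DifferentiableOn ℂ g (closedBall 0 3)) {T : ℕ}
    {p : FormalMultilinearSeries ℂ ℂ ℂ} (hp : HasFPowerSeriesAt g p 0)
    (h0 : ∀ i < T, p i (fun _ => 1) = 0) : ‖g 1‖ * (2 * 3 ^ T) ≤ 3 * M := by
  have hM0 : 0 ≤ M := (norm_nonneg _).trans (hM 0 (by simp))
  have h1 : HasFPowerSeriesOnBall g (cauchyPowerSeries g 0 ((3 : NNReal) : ℝ)) 0 (3 : NNReal) := by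
    apply DifferentiableOn.hasFPowerSeriesOnBall _ (by norm_num)
    exact_mod_cast hg
  have h2 : p = cauchyPowerSeries g 0 ((3 : NNReal) : ℝ) :=
    hp.eq_formalMultilinearSeries h1.hasFPowerSeriesAt
  have h3 : ∀ n, ‖p n (fun _ => 1)‖ ≤ M * (1 / 3) ^ n := by
    intro n
    have h4 := norm_cauchyPowerSeries_le g 0 ((3 : NNReal) : ℝ) n
    rw [← h2] at h4
    have h5 : ‖p n (fun _ => (1 : ℂ))‖ ≤ ‖p n‖ := by
      simp
    refine h5.trans (h4.trans ?_)
    have h6 : (2 * Real.pi)⁻¹ * ∫ θ in (0 : ℝ)..2 * Real.pi,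
        ‖g (circleMap 0 ((3 : NNReal) : ℝ) θ)‖ ≤ M := by
      have h7 : ‖∫ θ in (0 : ℝ)..2 * Real.pi, ‖g (circleMap 0 ((3 : NNReal) : ℝ) θ)‖‖
          ≤ M * |2 * Real.pi - 0| := by
        apply intervalIntegral.norm_integral_le_of_norm_le_const
        intro θ _
        rw [norm_norm]
        apply hM
        have := circleMap_mem_closedBall (0 : ℂ) (show (0 : ℝ) ≤ 3 by norm_num) θ
        exact_mod_cast this
      have h8 := le_trans (Real.le_norm_self _) h7
      have h9 : (0 : ℝ) < 2 * Real.pi := by positivity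
      rw [sub_zero, abs_of_pos h9] at h8
      rw [inv_mul_le_iff₀ h9]
      linarith
    have h10 : |((3 : NNReal) : ℝ)|⁻¹ ^ n = (1 / 3) ^ n := by
      congr 1
      norm_num
    rw [h10]
    exact mul_le_mul_of_nonneg_right h6 (by positivity)
  have h4 : HasSum (fun n => p n (fun _ => (1 : ℂ))) (g 1) := by
    have h5 := h1.hasSum (y := 1) (by
      rw [Metric.eball_coe, mem_ball_zero_iff]
      norm_num)
    rw [zero_add, ← h2] at h5
    exact h5
  obtain ⟨s, hs⟩ : ∃ s : ℕ → ℂ, ∀ n, s n = p n (fun _ => (1 : ℂ)) := ⟨_, fun _ => rfl⟩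
  have h4 : HasSum s (g 1) := by
    rw [funext hs]
    exact h4
  have h5 : HasSum (fun n => s (n + T)) (g 1) := by
    rw [hasSum_nat_add_iff]
    rw [Finset.sum_eq_zero (fun i hi => (hs i).trans (h0 i (Finset.mem_range.mp hi))), add_zero]
    exact h4
  have h6 : HasSum (fun n : ℕ => M * (1 / 3) ^ T * (1 / 3 : ℝ) ^ n) (M * (1 / 3) ^ T * (1 - 1 / 3)⁻¹) :=
    (hasSum_geometric_of_lt_one (by norm_num) (by norm_num)).mul_left _
  have h7 : ‖g 1‖ ≤ M * (1 / 3) ^ T * (1 - 1 / 3)⁻¹ := by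
    rw [← h5.tsum_eq]
    apply tsum_of_norm_bounded h6
    intro n
    rw [hs]
    refine (h3 (n + T)).trans_eq ?_
    rw [pow_add]
    ring
  calc ‖g 1‖ * (2 * 3 ^ T) ≤ M * (1 / 3) ^ T * (1 - 1 / 3)⁻¹ * (2 * 3 ^ T) :=
        mul_le_mul_of_nonneg_right h7 (by positivity)
    _ = M * ((1 / 3) ^ T * 3 ^ T) * 3 := by ring
    _ = 3 * M := by
      rw [← mul_pow]
      norm_num
      ring

section jets

variable {E : Type*} [NormedAddCommGroup E] [NormedSpace ℂ E] {d : ℕ}
  (b : Module.Basis (Fin d) ℂ E)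

theorem expand {i : ℕ} (q : ContinuousMultilinearMap ℂ (fun _ : Fin i => E) ℂ) (v : E) :
    q (fun _ => v) = ∑ j : Fin i → Fin d, (∏ k, b.repr v (j k)) * q (fun k => b (j k)) := by
  have h1 : (fun _ : Fin i => v) = fun _ : Fin i => ∑ a : Fin d, b.repr v a • b a := by
    funext _
    exact (b.sum_repr v).symm
  rw [h1, ContinuousMultilinearMap.map_sum]
  refine Finset.sum_congr rfl fun j _ => ?_
  rw [ContinuousMultilinearMap.map_smul_univ, smul_eq_mul]

/-- Number of occurrences. -/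
def cnt {i : ℕ} (j : Fin i → Fin d) (a : Fin d) : ℕ :=
  (Finset.univ.filter (fun k => j k = a)).card

theorem prod_cnt {i : ℕ} (j : Fin i → Fin d) (x : Fin d → ℂ) :
    ∏ k, x (j k) = ∏ a, x a ^ cnt j a := by
  rw [← Finset.prod_fiberwise_of_maps_to (s := Finset.univ) (t := Finset.univ) (g := j)
    (fun _ _ => Finset.mem_univ _)]
  refine Finset.prod_congr rfl fun a _ => ?_
  rw [Finset.prod_congr rfl (g := fun _ => x a) (fun k hk => by
    rw [(Finset.mem_filter.mp hk).2]), Finset.prod_const]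
  rfl

theorem sum_cnt {i : ℕ} (j : Fin i → Fin d) : ∑ a, cnt j a = i := by
  have h := Finset.card_eq_sum_card_fiberwise (s := (Finset.univ : Finset (Fin i)))
    (t := (Finset.univ : Finset (Fin d))) (f := j) (fun _ _ => Finset.mem_coe.mpr (Finset.mem_univ _))
  rw [Finset.card_univ, Fintype.card_fin] at h
  exact h.symm

open Classical in
/-- The coefficient of the monomial `α` in the homogeneous part of degree `i`. -/
noncomputable def mom (p : FormalMultilinearSeries ℂ E ℂ) (i : ℕ) (α : Fin d → ℕ) : ℂ :=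
  ∑ j : Fin i → Fin d, if cnt j = α then p i (fun k => b (j k)) else 0

theorem homog_eq (p : FormalMultilinearSeries ℂ E ℂ) (i : ℕ) (v : E) :
    p i (fun _ => v) = ∑ α : Fin d → Fin (i + 1),
      (∏ a, b.repr v a ^ (α a : ℕ)) * mom b p i (fun a => (α a : ℕ)) := by
  rw [expand b]
  have h1 : ∀ j : Fin i → Fin d, ∃ α : Fin d → Fin (i + 1), cnt j = fun a => (α a : ℕ) := by
    intro j
    refine ⟨fun a => ⟨cnt j a, ?_⟩, rfl⟩
    have := Finset.single_le_sum (f := cnt j) (fun _ _ => Nat.zero_le _) (Finset.mem_univ a)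
    rw [sum_cnt] at this
    omega
  choose A hA using h1
  rw [← Finset.sum_fiberwise_of_maps_to (s := Finset.univ) (t := Finset.univ) (g := A)
    (fun _ _ => Finset.mem_univ _)]
  refine Finset.sum_congr rfl fun α _ => ?_
  rw [mom, Finset.mul_sum, Finset.sum_filter]
  refine Finset.sum_congr rfl fun j _ => ?_
  have h2 : A j = α ↔ cnt j = fun a => (α a : ℕ) := by
    rw [hA j]
    constructor
    · rintro rfl
      rfl
    · intro h
      funext a
      exact Fin.ext (congrFun h a)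
  by_cases h : A j = α
  · rw [if_pos h, if_pos (h2.mp h), prod_cnt, h2.mp h]
  · rw [if_neg h, if_neg (fun h' => h (h2.mpr h')), mul_zero]

theorem mom_eq_zero (p : FormalMultilinearSeries ℂ E ℂ) {i : ℕ} {α : Fin d → ℕ}
    (h : ∑ a, α a ≠ i) : mom b p i α = 0 := by
  rw [mom]
  refine Finset.sum_eq_zero fun j _ => ?_
  rw [if_neg]
  rintro rfl
  exact h (sum_cnt j)

/-- If all Taylor coefficients of index `< T` vanish, the homogeneous parts of degree `< T` do. -/
theorem homog_zero (p : FormalMultilinearSeries ℂ E ℂ) {T : ℕ}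
    (h : ∀ α : Fin d → Fin T, mom b p (∑ a, (α a : ℕ)) (fun a => (α a : ℕ)) = 0) :
    ∀ i < T, ∀ v : E, p i (fun _ => v) = 0 := by
  intro i hi v
  rw [homog_eq b]
  refine Finset.sum_eq_zero fun α _ => ?_
  rw [mul_eq_zero]
  right
  by_cases h1 : ∑ a, (α a : ℕ) = i
  · have h2 := h (fun a => ⟨(α a : ℕ), lt_of_le_of_lt (by
      have := Finset.single_le_sum (f := fun a => (α a : ℕ)) (fun _ _ => Nat.zero_le _)
        (Finset.mem_univ a)
      rw [h1] at this
      exact this) hi⟩)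
    simp only at h2
    rw [h1] at h2
    exact h2
  · exact mom_eq_zero b p h1

end jets

section line

variable {E : Type*} [NormedAddCommGroup E] [NormedSpace ℂ E]

/-- Schwarz lemma on complex lines. -/
theorem schwarz_line {G : E → ℂ} {c v : E} {M : ℝ}
    (hG : ∀ t ∈ closedBall (0 : ℂ) 3, AnalyticAt ℂ G (c + t • v))
    (hM : ∀ t ∈ closedBall (0 : ℂ) 3, ‖G (c + t • v)‖ ≤ M)
    {p : FormalMultilinearSeries ℂ E ℂ} (hp : HasFPowerSeriesAt G p c) {T : ℕ}
    (h0 : ∀ i < T, p i (fun _ => v) = 0) : ‖G (c + v)‖ * (2 * 3 ^ T) ≤ 3 * M := by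
  have h1 : HasFPowerSeriesAt (fun t : ℂ => G (c + t • v))
      (p.compContinuousLinearMap (ContinuousLinearMap.toSpanSingleton ℂ v)) 0 := by
    have h2 : HasFPowerSeriesAt (fun w => G (c + w)) p
        ((ContinuousLinearMap.toSpanSingleton ℂ v) 0) := by
      rw [map_zero]
      obtain ⟨r, hr⟩ := hp
      refine ⟨r, ?_⟩
      exact ⟨hr.r_le, hr.r_pos, fun {y} hy => by
        have := hr.hasSum hy
        rwa [zero_add]⟩
    exact h2.compContinuousLinearMap
  have h2 : ‖(fun t : ℂ => G (c + t • v)) 1‖ * (2 * 3 ^ T) ≤ 3 * M := by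
    refine schwarz hM ?_ h1 ?_
    · intro t ht
      have h3 : AnalyticAt ℂ (fun t : ℂ => G (c + t • v)) t := by
        have h4 : AnalyticAt ℂ (fun t : ℂ => c + t • v) t := by fun_prop
        exact AnalyticAt.fun_comp (hG t ht) h4
      exact h3.differentiableAt.differentiableWithinAt
    · intro i hi
      rw [FormalMultilinearSeries.compContinuousLinearMap_apply]
      have := h0 i hi
      simpa [Function.comp_def] using this
  simpa using h2

end line

theorem eval_scale {m k : ℕ} {F : MvPolynomial (Fin m) ℂ} (hF : F.IsHomogeneous k) (c : ℂ)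
    (x : Fin m → ℂ) : MvPolynomial.eval (fun i => c * x i) F = c ^ k * MvPolynomial.eval x F := by
  rw [MvPolynomial.eval_eq', MvPolynomial.eval_eq', Finset.mul_sum]
  refine Finset.sum_congr rfl fun e he => ?_
  have h1 : ∑ i, e i = k := by
    have := hF (MvPolynomial.mem_support_iff.mp he)
    rwa [Finsupp.weight_apply, Finsupp.sum_fintype _ _ (by simp), Finset.sum_congr rfl
      (g := fun i => e i) (by simp)] at this
  simp_rw [mul_pow]
  rw [Finset.prod_mul_distrib, Finset.prod_pow_eq_pow_sum, h1]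
  ring

theorem eval_analytic {E : Type*} [NormedAddCommGroup E] [NormedSpace ℂ E] {m : ℕ} {X : Set E}
    {P : Fin m → E → ℂ} (hP : ∀ i, AnalyticOnNhd ℂ (P i) X) (F : MvPolynomial (Fin m) ℂ) :
    AnalyticOnNhd ℂ (fun x => MvPolynomial.eval (fun i => P i x) F) X :=
  AnalyticOnNhd.aeval_mvPolynomial (A := ℂ) (f := fun x i => P i x) (s := X) hP F

section main

variable {E : Type*} [NormedAddCommGroup E] [NormedSpace ℂ E] [FiniteDimensional ℂ E]

/-- A homogeneous polynomial in the `P i` with high order of vanishing at the centres is `0`. -/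
theorem vanish {κ : Type*} [Fintype κ] {X B : Set E} (hX : IsOpen X) (hB : IsCompact B)
    (hBX : B ⊆ X) (P : κ → E → ℂ) (hP : ∀ i, AnalyticOnNhd ℂ (P i) X)
    (h0 : ∀ x ∈ X, ∃ i, P i x ≠ 0)
    (hrep : ∀ x ∈ X, ∃ y ∈ B, ∃ c : ℂ, ∀ i, P i x = c * P i y) :
    ∃ S : Finset E, (S : Set E) ⊆ B ∧ ∃ C : ℕ, ∀ k T : ℕ, C * k + 1 ≤ T → ∀ {m : ℕ} (f : Fin m → κ)
      (F : MvPolynomial (Fin m) ℂ), F.IsHomogeneous k →
      (∀ c ∈ S, ∃ p : FormalMultilinearSeries ℂ E ℂ,
        HasFPowerSeriesAt (fun x => MvPolynomial.eval (fun i => P (f i) x) F) p c ∧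
        ∀ i < T, ∀ v : E, p i (fun _ => v) = 0) →
      ∀ x ∈ X, MvPolynomial.eval (fun i => P (f i) x) F = 0 := by
  classical
  have : ProperSpace E := FiniteDimensional.proper ℂ E
  rcases X.eq_empty_or_nonempty with rfl | ⟨x₀, hx₀⟩
  · exact ⟨∅, by simp, 0, by simp⟩
  have hBne : B.Nonempty := by
    obtain ⟨y, hy, _⟩ := hrep x₀ hx₀
    exact ⟨y, hy⟩
  obtain ⟨δ, hδ, hδX⟩ := hB.exists_cthickening_subset_open hX hBX
  have hK : IsCompact (cthickening δ B) := hB.cthickening
  have hρc : ContinuousOn (fun x => ‖fun i => P i x‖) X := by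
    apply ContinuousOn.norm
    exact continuousOn_pi.mpr fun i => (hP i).continuousOn
  have hρ0 : ∀ x ∈ X, 0 < ‖fun i => P i x‖ := by
    intro x hx
    rw [norm_pos_iff]
    intro h
    obtain ⟨i, hi⟩ := h0 x hx
    exact hi (congrFun h i)
  obtain ⟨r, hr, hrB⟩ := hB.exists_forall_le' (hρc.mono hBX) (fun x hx => hρ0 x (hBX hx))
  obtain ⟨R, hR⟩ := hK.exists_bound_of_continuousOn (hρc.mono hδX)
  have hR' : ∀ x ∈ cthickening δ B, ‖fun i => P i x‖ ≤ R := by
    intro x hx
    have := hR x hx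
    rwa [norm_norm] at this
  obtain ⟨S, hSB, hSf, hS⟩ := hB.finite_cover_balls (show 0 < δ / 4 by positivity)
  obtain ⟨C, hC⟩ := pow_unbounded_of_one_lt (R / r) (show (1 : ℝ) < 3 by norm_num)
  have hRr : R ≤ 3 ^ C * r := by
    rw [div_lt_iff₀ hr] at hC
    exact hC.le
  have hR0 : 0 < R := by
    obtain ⟨y, hy⟩ := hBne
    exact (hρ0 y (hBX hy)).trans_le (hR' y (self_subset_cthickening B hy))
  refine ⟨hSf.toFinset, by simpa using hSB, C, ?_⟩
  intro k T hT m f F hF hvan
  set G : E → ℂ := fun x => MvPolynomial.eval (fun i => P (f i) x) F with hG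
  have hGan : AnalyticOnNhd ℂ G X := eval_analytic (P := fun i => P (f i)) (fun i => hP (f i)) F
  have hscale : ∀ (x y : E) (c : ℂ), (∀ i, P i x = c * P i y) → G x = c ^ k * G y := by
    intro x y c h
    have h1 : (fun i => P (f i) x) = fun i => c * P (f i) y := funext fun i => h (f i)
    simp only [hG]
    rw [h1, eval_scale hF]
  -- the invariant function
  set H : E → ℝ := fun x => ‖G x‖ / ‖fun i => P i x‖ ^ k with hH
  have hHc : ContinuousOn H X := by
    apply ContinuousOn.div hGan.continuousOn.norm (hρc.pow k)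
    intro x hx
    exact pow_ne_zero _ (hρ0 x hx).ne'
  obtain ⟨y, hyB, hy⟩ := hB.exists_isMaxOn hBne (hHc.mono hBX)
  have hmax : ∀ x ∈ X, H x ≤ H y := by
    intro x hx
    obtain ⟨z, hz, c, hc⟩ := hrep x hx
    have hc0 : c ≠ 0 := by
      rintro rfl
      obtain ⟨i, hi⟩ := h0 x hx
      exact hi (by rw [hc i, zero_mul])
    have h1 : H x = H z := by
      simp only [hH]
      have h2 : (fun i => P i x) = c • fun i => P i z := funext fun i => by
        rw [Pi.smul_apply, smul_eq_mul, hc i]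
      rw [hscale x z c hc, h2, norm_smul, norm_mul, norm_pow, mul_pow,
        mul_div_mul_left _ _ (pow_ne_zero _ (norm_ne_zero_iff.mpr hc0))]
    rw [h1]
    exact hy hz
  have hbound : ∀ x ∈ X, ‖G x‖ ≤ H y * ‖fun i => P i x‖ ^ k := by
    intro x hx
    have := hmax x hx
    rwa [hH, div_le_iff₀ (pow_pos (hρ0 x hx) k)] at this
  have hHy0 : 0 ≤ H y := by
    simp only [hH]
    positivity
  -- nearest centre
  obtain ⟨c, hcS, hcy⟩ := Set.mem_iUnion₂.mp (hS hyB)
  obtain ⟨p, hp, hp0⟩ := hvan c (hSf.mem_toFinset.mpr hcS) 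
  have hnorm : ‖y - c‖ < δ / 4 := by
    rwa [mem_ball, dist_eq_norm] at hcy
  have hmem : ∀ t ∈ closedBall (0 : ℂ) 3, c + t • (y - c) ∈ cthickening δ B := by
    intro t ht
    apply mem_cthickening_of_dist_le _ c δ B (hSB hcS)
    rw [dist_eq_norm, add_sub_cancel_left, norm_smul]
    rw [mem_closedBall_zero_iff] at ht
    nlinarith [norm_nonneg t, norm_nonneg (y - c)]
  have hS1 : ‖G (c + (y - c))‖ * (2 * 3 ^ T) ≤ 3 * (H y * R ^ k) := by
    refine schwarz_line (fun t ht => hGan _ (hδX (hmem t ht))) (fun t ht => ?_) hp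
      (fun i hi => hp0 i hi _)
    refine (hbound _ (hδX (hmem t ht))).trans ?_
    exact mul_le_mul_of_nonneg_left (pow_le_pow_left₀ (norm_nonneg _) (hR' _ (hmem t ht)) k) hHy0
  rw [add_sub_cancel] at hS1
  have hyX : y ∈ X := hBX hyB
  have hGy : H y * r ^ k ≤ ‖G y‖ := by
    have h1 : ‖G y‖ = H y * ‖fun i => P i y‖ ^ k := by
      simp only [hH]
      rw [div_mul_cancel₀ _ (pow_ne_zero _ (hρ0 y hyX).ne')]
    rw [h1]
    exact mul_le_mul_of_nonneg_left (pow_le_pow_left₀ hr.le (hrB y hyB) k) hHy0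
  have hHyz : H y = 0 := by
    by_contra hne
    have hpos : 0 < H y := lt_of_le_of_ne hHy0 (Ne.symm hne)
    have h1 : H y * r ^ k * (2 * 3 ^ T) ≤ 3 * (H y * R ^ k) :=
      (mul_le_mul_of_nonneg_right hGy (by positivity)).trans hS1
    have h2 : R ^ k ≤ 3 ^ (C * k) * r ^ k := by
      rw [pow_mul, ← mul_pow]
      exact pow_le_pow_left₀ hR0.le hRr k
    have h3 : (3 : ℝ) * 3 ^ (C * k) ≤ 3 ^ T := by
      rw [← pow_succ']
      exact pow_le_pow_right₀ (by norm_num) hT
    have h4 : 0 < H y * r ^ k * 3 ^ (C * k) := by positivity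
    have h5 : 3 * (H y * R ^ k) ≤ 3 * (H y * (3 ^ (C * k) * r ^ k)) := by
      have := mul_le_mul_of_nonneg_left h2 hHy0
      linarith
    have h6 : H y * r ^ k * (2 * (3 * 3 ^ (C * k))) ≤ H y * r ^ k * (2 * 3 ^ T) := by
      apply mul_le_mul_of_nonneg_left _ (by positivity)
      linarith
    nlinarith
  intro x hx
  have h1 := hbound x hx
  rw [hHyz, zero_mul] at h1
  exact norm_le_zero_iff.mp h1

/-- Exponent vectors. -/
noncomputable def expo {d n : ℕ} (α : Fin (d + 1) → Fin (n + 1)) : Fin (d + 2) →₀ ℕ :=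
  Finsupp.equivFunOnFinite.symm
    (Fin.snoc (fun i => (α i : ℕ)) ((d + 1) * n - ∑ i, (α i : ℕ)) : Fin (d + 2) → ℕ)

theorem expo_castSucc {d n : ℕ} (α : Fin (d + 1) → Fin (n + 1)) (i : Fin (d + 1)) :
    expo α i.castSucc = (α i : ℕ) := by
  simp [expo]

theorem expo_inj {d n : ℕ} : Function.Injective (expo (d := d) (n := n)) := by
  intro α β h
  funext i
  apply Fin.ext
  rw [← expo_castSucc α i, ← expo_castSucc β i, h]

theorem expo_sum {d n : ℕ} (α : Fin (d + 1) → Fin (n + 1)) :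
    ∑ i, expo α i = (d + 1) * n := by
  rw [Fin.sum_univ_castSucc]
  simp_rw [expo_castSucc]
  have h1 : expo α (Fin.last (d + 1)) = (d + 1) * n - ∑ i, (α i : ℕ) := by
    simp [expo]
  rw [h1]
  have h2 : ∑ i, (α i : ℕ) ≤ (d + 1) * n := by
    calc ∑ i, (α i : ℕ) ≤ ∑ _i : Fin (d + 1), n :=
          Finset.sum_le_sum fun i _ => Nat.lt_succ_iff.mp (α i).2
      _ = (d + 1) * n := by simp
  omega

theorem mom_sum {ι : Type*} {d : ℕ} (b : Module.Basis (Fin d) ℂ E) (s : Finset ι) (c : ι → ℂ)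
    (p : ι → FormalMultilinearSeries ℂ E ℂ) (i : ℕ) (α : Fin d → ℕ) :
    mom b (∑ a ∈ s, c a • p a) i α = ∑ a ∈ s, c a * mom b (p a) i α := by
  classical
  induction s using Finset.induction_on with
  | empty =>
    rw [Finset.sum_empty, Finset.sum_empty, mom]
    refine Finset.sum_eq_zero fun j _ => ?_
    split_ifs
    · simp
    · rfl
  | insert a s ha ih =>
    rw [Finset.sum_insert ha, Finset.sum_insert ha, ← ih]
    simp only [mom]
    rw [Finset.mul_sum, ← Finset.sum_add_distrib]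
    refine Finset.sum_congr rfl fun j _ => ?_
    split_ifs
    · simp
    · simp

theorem hasFPowerSeriesAt_sum {ι : Type*} (s : Finset ι) (c : ι → ℂ) (φ : ι → E → ℂ) {x : E}
    {p : ι → FormalMultilinearSeries ℂ E ℂ} (hp : ∀ a, HasFPowerSeriesAt (φ a) (p a) x) :
    HasFPowerSeriesAt (fun z => ∑ a ∈ s, c a * φ a z) (∑ a ∈ s, c a • p a) x := by
  classical
  induction s using Finset.induction_on with
  | empty =>
    rw [Finset.sum_empty]
    have h := hasFPowerSeriesOnBall_const (𝕜 := ℂ) (E := E) (c := (0 : ℂ)) (e := x)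
    have h2 : constFormalMultilinearSeries ℂ E (0 : ℂ) = 0 := by
      ext n v
      cases n with
      | zero => simp [constFormalMultilinearSeries]
      | succ n => simp [constFormalMultilinearSeries]
    rw [h2] at h
    simpa using h.hasFPowerSeriesAt
  | insert a s ha ih =>
    rw [Finset.sum_insert ha]
    have h1 : (fun z => ∑ a ∈ insert a s, c a * φ a z) =
        c a • φ a + fun z => ∑ a ∈ s, c a * φ a z := by
      funext z
      rw [Finset.sum_insert ha]
      rfl
    rw [h1]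
    exact (hp a).const_smul.add ih

/-- **Algebraic dependence.** -/
theorem dependence' {d : ℕ} (hd : Module.finrank ℂ E = d) {κ : Type*} [Fintype κ] {X B : Set E} (hX : IsOpen X) (hB : IsCompact B)
    (hBX : B ⊆ X) (P : κ → E → ℂ) (hP : ∀ i, AnalyticOnNhd ℂ (P i) X)
    (h0 : ∀ x ∈ X, ∃ i, P i x ≠ 0)
    (hrep : ∀ x ∈ X, ∃ y ∈ B, ∃ c : ℂ, ∀ i, P i x = c * P i y)
    (f : Fin (d + 2) → κ) :
    ∃ (k : ℕ) (F : MvPolynomial (Fin (d + 2)) ℂ), F ≠ 0 ∧ F.IsHomogeneous k ∧
      ∀ x ∈ X, MvPolynomial.eval (fun i => P (f i) x) F = 0 := by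
  classical
  obtain ⟨S, hSB, C, hS⟩ := vanish hX hB hBX P hP h0 hrep
  let b : Module.Basis (Fin d) ℂ E := Module.finBasisOfFinrankEq ℂ E hd
  set D : ℕ := C * (d + 1) + 1 with hD
  set n : ℕ := S.card * D ^ d + 1 with hn
  set k : ℕ := (d + 1) * n with hk
  set T : ℕ := C * k + 1 with hT
  have hTD : T ≤ D * n := by
    rw [hT, hk, hD]
    have : 1 ≤ n := by omega
    nlinarith
  have hcount : S.card * T ^ d < (n + 1) ^ (d + 1) := by
    calc S.card * T ^ d ≤ S.card * (D * n) ^ d :=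
          Nat.mul_le_mul_left _ (Nat.pow_le_pow_left hTD d)
      _ = (S.card * D ^ d) * n ^ d := by rw [mul_pow]; ring
      _ < n * n ^ d := by
          apply Nat.mul_lt_mul_of_pos_right
          · omega
          · have : 0 < n := by omega
            positivity
      _ = n ^ (d + 1) := by ring
      _ ≤ (n + 1) ^ (d + 1) := Nat.pow_le_pow_left (by omega) _
  let φ : (Fin (d + 1) → Fin (n + 1)) → E → ℂ := fun α x =>
    MvPolynomial.eval (fun i => P (f i) x) (MvPolynomial.monomial (expo α) (1 : ℂ))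
  have hφ : ∀ α, AnalyticOnNhd ℂ (φ α) X := fun α =>
    eval_analytic (P := fun i => P (f i)) (fun i => hP (f i)) _
  have hser : ∀ (c : S) (α : Fin (d + 1) → Fin (n + 1)), ∃ p, HasFPowerSeriesAt (φ α) p (c : E) :=
    fun c α => hφ α _ (hBX (hSB c.2))
  choose p hp using hser
  let Λ : ((Fin (d + 1) → Fin (n + 1)) → ℂ) →ₗ[ℂ] (S × (Fin d → Fin T) → ℂ) :=
    { toFun := fun u cb => ∑ α, u α * mom b (p cb.1 α) (∑ a, (cb.2 a : ℕ)) (fun a => (cb.2 a : ℕ))
      map_add' := by
        intro u v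
        funext cb
        simp only [Pi.add_apply, add_mul, Finset.sum_add_distrib]
      map_smul' := by
        intro u v
        funext cb
        simp only [Pi.smul_apply, smul_eq_mul, Finset.mul_sum, RingHom.id_apply, mul_assoc] }
  have hker : LinearMap.ker Λ ≠ ⊥ := by
    apply LinearMap.ker_ne_bot_of_finrank_lt
    rw [Module.finrank_fintype_fun_eq_card, Module.finrank_fintype_fun_eq_card]
    simpa using hcount
  obtain ⟨u, hu, hu0⟩ := Submodule.exists_mem_ne_zero_of_ne_bot hker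
  set F : MvPolynomial (Fin (d + 2)) ℂ :=
    ∑ α, MvPolynomial.monomial (expo α) (u α) with hF
  have hcoef : ∀ α, MvPolynomial.coeff (expo α) F = u α := by
    intro α
    rw [hF, MvPolynomial.coeff_sum, Finset.sum_eq_single α]
    · rw [MvPolynomial.coeff_monomial, if_pos rfl]
    · intro β _ hβ
      rw [MvPolynomial.coeff_monomial, if_neg (fun h => hβ (expo_inj h))]
    · intro h
      exact absurd (Finset.mem_univ _) h
  have hev : ∀ x, MvPolynomial.eval (fun i => P (f i) x) F = ∑ α, u α * φ α x := by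
    intro x
    rw [hF, map_sum]
    refine Finset.sum_congr rfl fun α _ => ?_
    simp only [φ, MvPolynomial.eval_monomial, one_mul]
  have hhom : F.IsHomogeneous k := by
    apply MvPolynomial.IsHomogeneous.sum
    intro α _
    apply MvPolynomial.isHomogeneous_monomial
    rw [Finsupp.degree_eq_sum, expo_sum]
  refine ⟨k, F, ?_, hhom, ?_⟩
  · intro h
    apply hu0
    funext α
    rw [← hcoef α, h]
    simp
  · refine hS k T le_rfl f F hhom ?_
    intro c hc
    refine ⟨∑ α, u α • p ⟨c, hc⟩ α, ?_, ?_⟩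
    · rw [funext hev]
      exact hasFPowerSeriesAt_sum Finset.univ u φ (hp ⟨c, hc⟩)
    · apply homog_zero b
      intro β
      rw [mom_sum]
      exact congrFun (LinearMap.mem_ker.mp hu) (⟨c, hc⟩, β)

/-- **Algebraic dependence.** -/
theorem dependence {κ : Type*} [Fintype κ] {X B : Set E} (hX : IsOpen X) (hB : IsCompact B)
    (hBX : B ⊆ X) (P : κ → E → ℂ) (hP : ∀ i, AnalyticOnNhd ℂ (P i) X)
    (h0 : ∀ x ∈ X, ∃ i, P i x ≠ 0)
    (hrep : ∀ x ∈ X, ∃ y ∈ B, ∃ c : ℂ, ∀ i, P i x = c * P i y)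
    (f : Fin (Module.finrank ℂ E + 2) → κ) :
    ∃ (k : ℕ) (F : MvPolynomial (Fin (Module.finrank ℂ E + 2)) ℂ), F ≠ 0 ∧ F.IsHomogeneous k ∧
      ∀ x ∈ X, MvPolynomial.eval (fun i => P (f i) x) F = 0 :=
  dependence' rfl hX hB hBX P hP h0 hrep f

end main

end Pool.Agent.SPF.ADX
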