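import Mathlib

/-!
# Osgood's lemma, local version

A function on an open subset of a finite dimensional complex vector space which is complex
differentiable at every point is analytic: `Pool.Agent.SPF.analyticOnNhd_of_differentiableOn`.
-/

set_option autoImplicit false

open scoped Topology
open Metric Filter MeasureTheory

namespace Pool.Agent.SPF.OsgoodL

section

variable {E F : Type*} [NormedAddCommGroup E] [NormedSpace ℂ E]
  [NormedAddCommGroup F] [NormedSpace ℂ F]

/-- Derivatives along a line. -/
theorem hasDerivAt_line {f : E → F} {x y : E} {t : ℂ} (hf : DifferentiableAt ℂ f (x + t • y)) :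
    HasDerivAt (fun t : ℂ => f (x + t • y)) (fderiv ℂ f (x + t • y) y) t := by
  have h1 : HasDerivAt (fun t : ℂ => x + t • y) y t := by
    have := ((hasDerivAt_id t).smul_const y).const_add x
    simpa using this
  exact hf.hasFDerivAt.comp_hasDerivAt t h1

/-- Cauchy's estimate for the Fréchet derivative. -/
theorem norm_fderiv_le {f : E → F} {x : E} {r M : ℝ} (hr : 0 < r)
    (hf : ∀ y ∈ closedBall x r, DifferentiableAt ℂ f y)
    (hM : ∀ y ∈ closedBall x r, ‖f y‖ ≤ M) : ‖fderiv ℂ f x‖ ≤ M / r := by
  have hM0 : 0 ≤ M := (norm_nonneg _).trans (hM x (mem_closedBall_self hr.le))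
  apply ContinuousLinearMap.opNorm_le_bound _ (div_nonneg hM0 hr.le)
  intro v
  rcases eq_or_ne v 0 with rfl | hv
  · simp
  have hv0 : 0 < ‖v‖ := norm_pos_iff.mpr hv
  have hmem : ∀ t ∈ closedBall (0 : ℂ) (r / ‖v‖), x + t • v ∈ closedBall x r := by
    intro t ht
    rw [mem_closedBall, dist_eq_norm, add_sub_cancel_left, norm_smul]
    rw [mem_closedBall_zero_iff, le_div_iff₀ hv0] at ht
    exact ht
  have h1 := hasDerivAt_line (f := f) (x := x) (y := v) (t := 0)
    (hf _ (hmem 0 (mem_closedBall_self (by positivity))))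
  rw [zero_smul, add_zero] at h1
  rw [← h1.deriv]
  have h2 : ‖deriv (fun t : ℂ => f (x + t • v)) 0‖ ≤ M / (r / ‖v‖) := by
    apply Complex.norm_deriv_le_of_forall_mem_sphere_norm_le (div_pos hr hv0)
    · apply DifferentiableOn.diffContOnCl
      intro t ht
      exact (hasDerivAt_line (hf _ (hmem t (closure_ball_subset_closedBall ht)))).differentiableAt.differentiableWithinAt
    · intro t ht
      exact hM _ (hmem t (sphere_subset_closedBall ht))
  calc _ ≤ _ := h2
    _ = M / r * ‖v‖ := by
      field_simp

end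

section retr

variable {E : Type*} [NormedAddCommGroup E] [NormedSpace ℂ E]

/-- Radial retraction onto a closed ball. -/
noncomputable def retr (x₀ : E) (r : ℝ) (z : E) : E :=
  x₀ + (((r / max r ‖z - x₀‖ : ℝ)) : ℂ) • (z - x₀)

theorem continuous_retr (x₀ : E) {r : ℝ} (hr : 0 < r) : Continuous (retr x₀ r) := by
  unfold retr
  have h1 : Continuous (fun z : E => r / max r ‖z - x₀‖) := by
    apply Continuous.div continuous_const
    · fun_prop
    · intro z
      have := le_max_left r ‖z - x₀‖
      linarith
  exact continuous_const.add ((Complex.continuous_ofReal.comp h1).smul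
    (continuous_id.sub continuous_const))

theorem retr_eq {x₀ : E} {r : ℝ} (hr : 0 < r) {z : E} (hz : z ∈ closedBall x₀ r) :
    retr x₀ r z = z := by
  rw [mem_closedBall, dist_eq_norm] at hz
  rw [retr, max_eq_left hz, div_self hr.ne']
  simp

theorem retr_mem (x₀ : E) {r : ℝ} (hr : 0 < r) (z : E) : retr x₀ r z ∈ closedBall x₀ r := by
  rw [mem_closedBall, dist_eq_norm, retr, add_sub_cancel_left, norm_smul, Complex.norm_real,
    Real.norm_eq_abs, abs_of_nonneg (by positivity)]
  have h1 : 0 < max r ‖z - x₀‖ := lt_of_lt_of_le hr (le_max_left _ _)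
  rw [div_mul_eq_mul_div, div_le_iff₀ h1]
  exact mul_le_mul_of_nonneg_left (le_max_right _ _) hr.le

end retr

section param

variable {E : Type*} [NormedAddCommGroup E] [NormedSpace ℂ E] [FiniteDimensional ℂ E]

/-- Circle integrals depending on parameters. -/
theorem differentiableAt_circleIntegral {H : E → ℂ → ℂ} (hc : Continuous (Function.uncurry H))
    {ψ : ℂ → ℂ} {c : ℂ} {R : ℝ} (hR : 0 ≤ R) {x₀ : E} {ε : ℝ} (hε : 0 < ε)
    (hd : ∀ t ∈ sphere c R, ∀ x ∈ closedBall x₀ (2 * ε), DifferentiableAt ℂ (fun x => H x t) x)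
    (hψ : ContinuousOn ψ (sphere c R)) :
    DifferentiableAt ℂ (fun x => ∮ t in C(c, R), ψ t * H x t) x₀ := by
  have : ProperSpace E := FiniteDimensional.proper ℂ E
  borelize E
  have hγ : Continuous (circleMap c R) := continuous_circleMap c R
  have hγs : ∀ θ, circleMap c R θ ∈ sphere c R := circleMap_mem_sphere c hR
  set w : ℝ → ℂ := fun θ => deriv (circleMap c R) θ * ψ (circleMap c R θ) with hw
  have hwc : Continuous w := by
    apply Continuous.mul
    · have h1 : deriv (circleMap c R) = fun θ => circleMap 0 R θ * Complex.I := by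
        funext θ
        exact deriv_circleMap c R θ
      rw [h1]
      fun_prop
    · exact hψ.comp_continuous hγ hγs
  obtain ⟨W, hW⟩ := (isCompact_Icc (a := (0 : ℝ)) (b := 2 * Real.pi)).exists_bound_of_continuousOn
    hwc.continuousOn
  obtain ⟨M, hM⟩ := ((isCompact_closedBall x₀ (2 * ε)).prod
    (isCompact_sphere c R)).exists_bound_of_continuousOn hc.continuousOn
  have hmeas : Measurable (fun p : ℂ × E => fderiv ℂ (fun x => H x p.1) p.2) := by
    apply measurable_fderiv_with_param ℂ (f := fun (t : ℂ) (x : E) => H x t)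
    exact hc.comp continuous_swap
  have hC : ∀ x ∈ ball x₀ ε, ∀ θ, HasFDerivAt (fun x => w θ * H x (circleMap c R θ))
      (w θ • fderiv ℂ (fun x => H x (circleMap c R θ)) x) x := by
    intro x hx θ
    refine ((hd _ (hγs θ) x ?_).hasFDerivAt).const_mul (w θ)
    rw [mem_ball] at hx
    rw [mem_closedBall]
    linarith
  have key : HasFDerivAt (fun x => ∫ θ in (0 : ℝ)..(2 * Real.pi), w θ * H x (circleMap c R θ))
      (∫ θ in (0 : ℝ)..(2 * Real.pi), w θ • fderiv ℂ (fun x => H x (circleMap c R θ)) x₀) x₀ := by
    apply intervalIntegral.hasFDerivAt_integral_of_dominated_of_fderiv_le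
      (s := ball x₀ ε) (bound := fun _ => |W| * (|M| / ε))
      (F' := fun x θ => w θ • fderiv ℂ (fun x => H x (circleMap c R θ)) x)
      (ball_mem_nhds x₀ hε)
    · refine Eventually.of_forall fun x => Continuous.aestronglyMeasurable ?_
      exact hwc.mul (hc.comp (continuous_const.prodMk hγ))
    · apply Continuous.intervalIntegrable
      exact hwc.mul (hc.comp (continuous_const.prodMk hγ))
    · apply AEStronglyMeasurable.smul hwc.aestronglyMeasurable
      apply Measurable.aestronglyMeasurable
      exact hmeas.comp (hγ.measurable.prodMk measurable_const)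
    · refine Eventually.of_forall fun θ hθ x hx => ?_
      rw [norm_smul]
      have hθ' : θ ∈ Set.Icc (0 : ℝ) (2 * Real.pi) := by
        rw [Set.uIoc_of_le (by positivity)] at hθ
        exact Set.Ioc_subset_Icc_self hθ
      apply mul_le_mul ((hW θ hθ').trans (le_abs_self W)) _ (norm_nonneg _) (abs_nonneg W)
      have hsub : ∀ y ∈ closedBall x ε, y ∈ closedBall x₀ (2 * ε) := by
        intro y hy
        rw [mem_closedBall] at hy ⊢
        rw [mem_ball] at hx
        have := dist_triangle y x x₀
        linarith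
      apply norm_fderiv_le hε
      · exact fun y hy => hd _ (hγs θ) y (hsub y hy)
      · intro y hy
        exact (hM (y, circleMap c R θ) ⟨hsub y hy, hγs θ⟩).trans (le_abs_self M)
    · exact continuous_const.intervalIntegrable _ _
    · exact Eventually.of_forall fun θ _ x hx => hC x hx θ
  have h2 : (fun x => ∮ t in C(c, R), ψ t * H x t) =
      fun x => ∫ θ in (0 : ℝ)..(2 * Real.pi), w θ * H x (circleMap c R θ) := by
    funext x
    rw [circleIntegral]
    apply intervalIntegral.integral_congr
    intro θ _
    simp only [hw, smul_eq_mul]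
    ring
  rw [h2]
  exact key.differentiableAt

/-- Directional derivatives of holomorphic functions are holomorphic. -/
theorem differentiableAt_fderiv_apply {f : E → ℂ} {X : Set E} (hX : IsOpen X)
    (hf : DifferentiableOn ℂ f X) (y : E) {x₀ : E} (hx₀ : x₀ ∈ X) :
    DifferentiableAt ℂ (fun x => fderiv ℂ f x y) x₀ := by
  obtain ⟨R, hR, hRX⟩ := Metric.isOpen_iff.mp hX x₀ hx₀
  have hfd : ∀ x ∈ ball x₀ R, DifferentiableAt ℂ f x := fun x hx =>
    (hf x (hRX hx)).differentiableAt (hX.mem_nhds (hRX hx))
  set r : ℝ := R / 2 with hr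
  have hr0 : 0 < r := by positivity
  set ρ : ℝ := r / (4 * (‖y‖ + 1)) with hρ
  have hρ0 : 0 < ρ := by positivity
  have hρy : ρ * ‖y‖ ≤ r / 4 := by
    rw [hρ]
    rw [div_mul_eq_mul_div, div_le_div_iff₀ (by positivity) (by norm_num)]
    nlinarith [norm_nonneg y]
  have hmem : ∀ x ∈ closedBall x₀ (r / 2), ∀ t ∈ closedBall (0 : ℂ) ρ,
      x + t • y ∈ ball x₀ r := by
    intro x hx t ht
    rw [mem_closedBall, dist_eq_norm] at hx
    rw [mem_closedBall_zero_iff] at ht
    rw [mem_ball, dist_eq_norm]
    have h1 : x + t • y - x₀ = (x - x₀) + t • y := by abel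
    rw [h1]
    have h2 := norm_add_le (x - x₀) (t • y)
    rw [norm_smul] at h2
    have h3 : ‖t‖ * ‖y‖ ≤ ρ * ‖y‖ := mul_le_mul_of_nonneg_right ht (norm_nonneg y)
    linarith
  set H : E → ℂ → ℂ := fun x t => f (retr x₀ r (x + t • y)) with hH
  have hHc : Continuous (Function.uncurry H) := by
    have h1 : ContinuousOn f (closedBall x₀ r) := by
      intro x hx
      apply (hfd x _).continuousAt.continuousWithinAt
      rw [mem_closedBall] at hx
      rw [mem_ball]
      linarith
    have h2 : Continuous (fun p : E × ℂ => retr x₀ r (p.1 + p.2 • y)) :=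
      (continuous_retr x₀ hr0).comp (by fun_prop)
    exact h1.comp_continuous h2 (fun p => retr_mem x₀ hr0 _)
  have hHeq : ∀ x ∈ closedBall x₀ (r / 2), ∀ t ∈ closedBall (0 : ℂ) ρ, H x t = f (x + t • y) := by
    intro x hx t ht
    simp only [hH]
    rw [retr_eq hr0 (ball_subset_closedBall (hmem x hx t ht))]
  have h1 : (fun x => fderiv ℂ f x y) =ᶠ[𝓝 x₀] fun x =>
      (2 * Real.pi * Complex.I : ℂ)⁻¹ *
        ∮ t in C((0 : ℂ), ρ), (t ^ 2)⁻¹ * H x t := by
    filter_upwards [closedBall_mem_nhds x₀ (show 0 < r / 2 by positivity)] with x hx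
    have h2 := hasDerivAt_line (f := f) (x := x) (y := y) (t := 0) (hfd _ (by
      have := hmem x hx 0 (mem_closedBall_self hρ0.le)
      rw [mem_ball] at this ⊢
      linarith))
    rw [zero_smul, add_zero] at h2
    rw [← h2.deriv]
    have hU : IsOpen {t : ℂ | x + t • y ∈ ball x₀ r} := by
      apply isOpen_ball.preimage
      fun_prop
    have h3 := Complex.two_pi_I_inv_smul_circleIntegral_sub_sq_inv_smul_of_differentiable
      hU (c := 0) (w₀ := 0) (R := ρ) (f := fun t : ℂ => f (x + t • y))
      (fun t ht => hmem x hx t ht) (fun t ht => by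
        refine (hasDerivAt_line (hfd _ ?_)).differentiableAt.differentiableWithinAt
        have ht' : x + t • y ∈ ball x₀ r := ht
        rw [mem_ball] at ht' ⊢
        linarith) (mem_ball_self hρ0)
    rw [← h3]
    simp only [sub_zero, smul_eq_mul]
    congr 1
    apply circleIntegral.integral_congr hρ0.le
    intro t ht
    simp only
    rw [hHeq x hx t (sphere_subset_closedBall ht)]
  refine DifferentiableAt.congr_of_eventuallyEq ?_ h1
  apply DifferentiableAt.const_mul
  apply differentiableAt_circleIntegral hHc hρ0.le (ε := r / 8) (by positivity)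
  · intro t ht x hx
    have hx' : x ∈ ball x₀ (r / 2) := by
      rw [mem_closedBall] at hx
      rw [mem_ball]
      linarith
    have h3 : (fun x => H x t) =ᶠ[𝓝 x] fun x => f (x + t • y) := by
      filter_upwards [isOpen_ball.mem_nhds hx'] with z hz
      exact hHeq z (ball_subset_closedBall hz) t (sphere_subset_closedBall ht)
    refine DifferentiableAt.congr_of_eventuallyEq ?_ h3
    have h4 : DifferentiableAt ℂ f (x + t • y) := by
      apply hfd
      have := hmem x (ball_subset_closedBall hx') t (sphere_subset_closedBall ht)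
      rw [mem_ball] at this ⊢
      linarith
    exact DifferentiableAt.comp (f := fun x : E => x + t • y) x h4
      (differentiableAt_id.add_const (t • y))
  · apply ContinuousOn.inv₀ (by fun_prop)
    intro t ht h0
    rw [mem_sphere_zero_iff_norm] at ht
    have : t = 0 := by simpa using h0
    rw [this] at ht
    simp at ht
    linarith

theorem contDiffOn_nat {X : Set E} (hX : IsOpen X) (n : ℕ) :
    ∀ {f : E → ℂ}, DifferentiableOn ℂ f X → ContDiffOn ℂ n f X := by
  induction n with
  | zero =>
    intro f hf
    simpa using hf.continuousOn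
  | succ n ih =>
    intro f hf
    push_cast
    rw [contDiffOn_succ_iff_fderiv_of_isOpen hX]
    refine ⟨hf, ?_, ?_⟩
    · intro h
      exact absurd h (by simp)
    · rw [contDiffOn_clm_apply]
      intro y
      exact ih fun x hx => (differentiableAt_fderiv_apply hX hf y hx).differentiableWithinAt

end param

section analytic

variable {E : Type*} [NormedAddCommGroup E] [NormedSpace ℂ E] [FiniteDimensional ℂ E]

theorem norm_iteratedFDeriv_le {f : E → ℂ} {X : Set E} (hX : IsOpen X)
    (hf : DifferentiableOn ℂ f X) {x : E} {r M δ : ℝ} (hrX : closedBall x r ⊆ X)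
    (hδ : 0 < δ) (hM : ∀ y ∈ closedBall x r, ‖f y‖ ≤ M) (k : ℕ) :
    ∀ y ∈ closedBall x (r - k * δ), ‖iteratedFDeriv ℂ k f y‖ ≤ M / δ ^ k := by
  induction k with
  | zero =>
    intro y hy
    simp only [Nat.cast_zero, zero_mul, sub_zero] at hy
    rw [norm_iteratedFDeriv_zero, pow_zero, div_one]
    exact hM y hy
  | succ k ih =>
    intro y hy
    rw [← norm_fderiv_iteratedFDeriv, pow_succ, ← div_div]
    have hsub : ∀ z ∈ closedBall y δ, z ∈ closedBall x (r - k * δ) := by
      intro z hz
      rw [mem_closedBall] at hy hz ⊢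
      have h1 := dist_triangle z y x
      push_cast at hy
      linarith
    apply norm_fderiv_le hδ
    · intro z hz
      have hzX : z ∈ X := by
        apply hrX
        have := hsub z hz
        rw [mem_closedBall] at this ⊢
        have : 0 ≤ (k : ℝ) * δ := by positivity
        linarith
      have h1 : ContDiffAt ℂ ((k + 1 : ℕ) : ℕ∞) f z :=
        (contDiffOn_nat hX (k + 1) hf).contDiffAt (hX.mem_nhds hzX)
      apply h1.differentiableAt_iteratedFDeriv
      exact_mod_cast Nat.lt_succ_self k
    · intro z hz
      exact ih z (hsub z hz)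

theorem iteratedFDeriv_line {f : E → ℂ} {X : Set E} (hX : IsOpen X)
    (hf : DifferentiableOn ℂ f X) {x : E} (hx : x ∈ X) (y : E) (n : ℕ) :
    iteratedDeriv n (fun t : ℂ => f (x + t • y)) 0 = iteratedFDeriv ℂ n f x (fun _ => y) := by
  set g : ℂ →L[ℂ] E := ContinuousLinearMap.toSpanSingleton ℂ y with hg
  have h1 : (fun t : ℂ => f (x + t • y)) = (fun z => f (x + z)) ∘ g := by
    funext t
    simp [hg, ContinuousLinearMap.toSpanSingleton_apply]
  set Y : Set E := (fun z => x + z) ⁻¹' X with hY
  have hYo : IsOpen Y := hX.preimage (by fun_prop)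
  have h2 : ContDiffOn ℂ n (fun z => f (x + z)) Y := by
    have := contDiffOn_nat hX n hf
    exact this.comp (contDiff_const.add contDiff_id).contDiffOn (fun z hz => hz)
  have h0 : g 0 ∈ Y := by
    rw [map_zero, hY, Set.mem_preimage, add_zero]
    exact hx
  have hgY : IsOpen (g ⁻¹' Y) := hYo.preimage g.continuous
  have h3 := ContinuousLinearMap.iteratedFDerivWithin_comp_right g h2 hYo.uniqueDiffOn
    hgY.uniqueDiffOn h0 (i := n) (by exact_mod_cast le_rfl)
  rw [iteratedFDerivWithin_of_isOpen n hgY h0, iteratedFDerivWithin_of_isOpen n hYo h0] at h3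
  rw [iteratedDeriv_eq_iteratedFDeriv, h1, h3,
    ContinuousMultilinearMap.compContinuousLinearMap_apply, iteratedFDeriv_comp_add_left]
  simp [hg, ContinuousLinearMap.toSpanSingleton_apply]

/-- **Osgood's lemma**, local version. -/
theorem analyticAt {f : E → ℂ} {X : Set E} (hX : IsOpen X)
    (hf : DifferentiableOn ℂ f X) {x : E} (hx : x ∈ X) : AnalyticAt ℂ f x := by
  have : ProperSpace E := FiniteDimensional.proper ℂ E
  obtain ⟨R, hR, hRX⟩ := Metric.isOpen_iff.mp hX x hx
  set r : ℝ := R / 2 with hr
  have hr0 : 0 < r := by positivity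
  have hrX : closedBall x r ⊆ X := fun z hz => hRX (by
    rw [mem_closedBall] at hz
    rw [mem_ball]
    linarith)
  obtain ⟨M, hM⟩ := (isCompact_closedBall x r).exists_bound_of_continuousOn
    (hf.continuousOn.mono hrX)
  have hM0 : 0 ≤ M := (norm_nonneg _).trans (hM x (mem_closedBall_self hr0.le))
  set p : FormalMultilinearSeries ℂ E ℂ := fun n =>
    ((n.factorial : ℂ)⁻¹) • iteratedFDeriv ℂ n f x with hp
  have hbound : ∀ n, ‖p n‖ ≤ M * (Real.exp 1 / r) ^ n := by
    intro n
    rw [hp]
    simp only
    rw [norm_smul, norm_inv, Complex.norm_natCast]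
    rcases Nat.eq_zero_or_pos n with rfl | hn
    · simp only [Nat.factorial_zero, Nat.cast_one, inv_one, one_mul, pow_zero, mul_one,
        norm_iteratedFDeriv_zero]
      exact hM x (mem_closedBall_self hr0.le)
    have hn' : (0 : ℝ) < n := Nat.cast_pos.mpr hn
    have h1 := norm_iteratedFDeriv_le hX hf hrX (δ := r / n) (by positivity) hM n x (by
      rw [mul_div_cancel₀ _ hn'.ne', sub_self]
      exact mem_closedBall_self le_rfl)
    have h2 : (n : ℝ) ^ n / n.factorial ≤ Real.exp n := Real.pow_div_factorial_le_exp _ hn'.le n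
    have h3 : (n.factorial : ℝ)⁻¹ * ‖iteratedFDeriv ℂ n f x‖ ≤
        (n.factorial : ℝ)⁻¹ * (M / (r / n : ℝ) ^ n) :=
      mul_le_mul_of_nonneg_left h1 (by positivity)
    calc _ ≤ _ := h3
      _ = M * ((n : ℝ) ^ n / n.factorial) / r ^ n := by
        rw [div_pow]
        field_simp
      _ ≤ M * Real.exp n / r ^ n := by
        gcongr
      _ = M * (Real.exp 1 / r) ^ n := by
        rw [div_pow (Real.exp 1) r n, ← Real.exp_nat_mul, mul_one]
        ring
  set ρ : NNReal := ⟨r / 3, by positivity⟩ with hρ
  have h3pos : (0 : ENNReal) < (ρ : ENNReal) := by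
    rw [ENNReal.coe_pos, ← NNReal.coe_pos]
    change 0 < r / 3
    positivity
  have hser : HasFPowerSeriesOnBall f p x (ρ : ENNReal) := by
    refine ⟨?_, h3pos, ?_⟩
    · apply FormalMultilinearSeries.le_radius_of_bound p M
      intro n
      have h1 : Real.exp 1 * (1 / 3) ≤ 1 := by
        have := Real.exp_one_lt_d9
        linarith
      calc ‖p n‖ * (ρ : ℝ) ^ n ≤ (M * (Real.exp 1 / r) ^ n) * (r / 3 : ℝ) ^ n := by
            change ‖p n‖ * (r / 3) ^ n ≤ _
            exact mul_le_mul_of_nonneg_right (hbound n) (by positivity)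
        _ = M * (Real.exp 1 * (1 / 3)) ^ n := by
            rw [mul_assoc, ← mul_pow]
            congr 2
            field_simp
        _ ≤ M * 1 := by
            apply mul_le_mul_of_nonneg_left _ hM0
            exact pow_le_one₀ (by positivity) h1
        _ = M := mul_one M
    · intro y hy
      have hy' : ‖y‖ < r / 3 := by
        rw [Metric.eball_coe, mem_ball_zero_iff] at hy
        exact hy
      have hd : DifferentiableOn ℂ (fun t : ℂ => f (x + t • y)) (ball 0 2) := by
        intro t ht
        rw [mem_ball_zero_iff] at ht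
        have h1 : x + t • y ∈ X := by
          apply hrX
          rw [mem_closedBall, dist_eq_norm, add_sub_cancel_left, norm_smul]
          nlinarith [norm_nonneg t, norm_nonneg y]
        exact (hasDerivAt_line ((hf _ h1).differentiableAt
          (hX.mem_nhds h1))).differentiableAt.differentiableWithinAt
      have h1 := Complex.hasSum_taylorSeries_on_ball (r := 2) (z := 1) hd (by
        rw [mem_ball_zero_iff]
        norm_num)
      simp only [sub_zero, one_pow, one_smul] at h1
      have h2 : ∀ n, p n (fun _ => y) =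
          ((n.factorial : ℂ)⁻¹) • iteratedDeriv n (fun t : ℂ => f (x + t • y)) 0 := by
        intro n
        rw [iteratedFDeriv_line hX hf hx]
        rfl
      simp only [h2]
      exact h1
  exact ⟨p, _, hser⟩

end analytic

end Pool.Agent.SPF.OsgoodL

namespace Pool.Agent.SPF

/-- **Osgood's lemma** on open sets of finite dimensional complex vector spaces. -/
theorem analyticOnNhd_of_differentiableOn {E : Type*} [NormedAddCommGroup E] [NormedSpace ℂ E]
    [FiniteDimensional ℂ E] {f : E → ℂ} {X : Set E} (hX : IsOpen X)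
    (hf : DifferentiableOn ℂ f X) : AnalyticOnNhd ℂ f X :=
  fun _ hx => OsgoodL.analyticAt hX hf hx

end Pool.Agent.SPF
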