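import Pool.Agent.SPF.OutKit
import Pool.Agent.SPF.ADcore
import Pool.Agent.SPF.OsgoodL

set_option linter.unusedSectionVars false

/-!
# Algebraic dependence of theta functions of the same type
-/

open scoped BigOperators Topology
open Complex Metric

namespace Pool.Agent.SPF

namespace ADT_

open ADX

section weight

variable {E : Type*} [NormedAddCommGroup E] [NormedSpace ℂ E] [FiniteDimensional ℂ E]

/-- A homogeneous polynomial in the `h i` with high order of vanishing at the centres is `0`. -/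
theorem vanish {m : ℕ} (h : Fin m → E → ℂ) (hh : ∀ i, AnalyticOnNhd ℂ (h i) Set.univ)
    (ρ : E → ℝ) (hρc : Continuous ρ) (hρ0 : ∀ x, 0 < ρ x) {B : Set E} (hB : IsCompact B)
    (hrep : ∀ x, ∃ y ∈ B, ∃ c : ℂ, c ≠ 0 ∧ (∀ i, h i x = c * h i y) ∧ ρ x = ‖c‖ * ρ y) :
    ∃ S : Finset E, ∃ C : ℕ, ∀ k T : ℕ, C * k + 1 ≤ T →
      ∀ (F : MvPolynomial (Fin m) ℂ), F.IsHomogeneous k →
      (∀ c ∈ S, ∃ p : FormalMultilinearSeries ℂ E ℂ,
        HasFPowerSeriesAt (fun x => MvPolynomial.eval (fun i => h i x) F) p c ∧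
        ∀ i < T, ∀ v : E, p i (fun _ => v) = 0) →
      ∀ x, MvPolynomial.eval (fun i => h i x) F = 0 := by
  classical
  have : ProperSpace E := FiniteDimensional.proper ℂ E
  have hBne : B.Nonempty := by
    obtain ⟨y, hy, _⟩ := hrep 0
    exact ⟨y, hy⟩
  have hK : IsCompact (cthickening 1 B) := hB.cthickening
  obtain ⟨r, hr, hrB⟩ := hB.exists_forall_le' hρc.continuousOn (fun x _ => hρ0 x)
  obtain ⟨R, hR⟩ := hK.exists_bound_of_continuousOn hρc.continuousOn
  have hR' : ∀ x ∈ cthickening 1 B, ρ x ≤ R := by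
    intro x hx
    exact (Real.le_norm_self _).trans (hR x hx)
  obtain ⟨S, hSB, hSf, hS⟩ := hB.finite_cover_balls (show (0 : ℝ) < 1 / 4 by positivity)
  obtain ⟨C, hC⟩ := pow_unbounded_of_one_lt (R / r) (show (1 : ℝ) < 3 by norm_num)
  have hRr : R ≤ 3 ^ C * r := by
    rw [div_lt_iff₀ hr] at hC
    exact hC.le
  have hR0 : 0 < R := by
    obtain ⟨y, hy⟩ := hBne
    exact (hρ0 y).trans_le (hR' y (self_subset_cthickening B hy))
  refine ⟨hSf.toFinset, C, ?_⟩
  intro k T hT F hF hvan
  set G : E → ℂ := fun x => MvPolynomial.eval (fun i => h i x) F with hG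
  have hGan : AnalyticOnNhd ℂ G Set.univ := eval_analytic (P := h) hh F
  have hscale : ∀ (x y : E) (c : ℂ), (∀ i, h i x = c * h i y) → G x = c ^ k * G y := by
    intro x y c hc
    have h1 : (fun i => h i x) = fun i => c * h i y := funext fun i => hc i
    simp only [hG]
    rw [h1, eval_scale hF]
  -- the invariant function
  set H : E → ℝ := fun x => ‖G x‖ / ρ x ^ k with hH
  have hHc : Continuous H := by
    apply Continuous.div
    · exact (continuousOn_univ.1 hGan.continuousOn).norm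
    · exact hρc.pow k
    · intro x
      exact pow_ne_zero _ (hρ0 x).ne'
  obtain ⟨y, hyB, hy⟩ := hB.exists_isMaxOn hBne hHc.continuousOn
  have hmax : ∀ x, H x ≤ H y := by
    intro x
    obtain ⟨z, hz, c, hc0, hc, hcρ⟩ := hrep x
    have h1 : H x = H z := by
      simp only [hH]
      rw [hscale x z c hc, hcρ, norm_mul, norm_pow, mul_pow,
        mul_div_mul_left _ _ (pow_ne_zero _ (norm_ne_zero_iff.mpr hc0))]
    rw [h1]
    exact hy hz
  have hbound : ∀ x, ‖G x‖ ≤ H y * ρ x ^ k := by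
    intro x
    have := hmax x
    rwa [hH, div_le_iff₀ (pow_pos (hρ0 x) k)] at this
  have hHy0 : 0 ≤ H y := by
    have := hρ0 y
    simp only [hH]
    positivity
  -- nearest centre
  obtain ⟨c, hcS, hcy⟩ := Set.mem_iUnion₂.mp (hS hyB)
  obtain ⟨p, hp, hp0⟩ := hvan c (hSf.mem_toFinset.mpr hcS)
  have hnorm : ‖y - c‖ < 1 / 4 := by
    rwa [mem_ball, dist_eq_norm] at hcy
  have hmem : ∀ t ∈ closedBall (0 : ℂ) 3, c + t • (y - c) ∈ cthickening 1 B := by
    intro t ht
    apply mem_cthickening_of_dist_le _ c 1 B (hSB hcS)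
    rw [dist_eq_norm, add_sub_cancel_left, norm_smul]
    rw [mem_closedBall_zero_iff] at ht
    nlinarith [norm_nonneg t, norm_nonneg (y - c)]
  have hS1 : ‖G (c + (y - c))‖ * (2 * 3 ^ T) ≤ 3 * (H y * R ^ k) := by
    refine schwarz_line (fun t _ => hGan _ (Set.mem_univ _)) (fun t ht => ?_) hp
      (fun i hi => hp0 i hi _)
    refine (hbound _).trans ?_
    exact mul_le_mul_of_nonneg_left (pow_le_pow_left₀ (hρ0 _).le (hR' _ (hmem t ht)) k) hHy0
  rw [add_sub_cancel] at hS1
  have hGy : H y * r ^ k ≤ ‖G y‖ := by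
    have h1 : ‖G y‖ = H y * ρ y ^ k := by
      simp only [hH]
      rw [div_mul_cancel₀ _ (pow_ne_zero _ (hρ0 y).ne')]
    rw [h1]
    exact mul_le_mul_of_nonneg_left (pow_le_pow_left₀ hr.le (hrB y hyB) k) hHy0
  have hHyz : H y = 0 := by
    by_contra hne
    have hpos : 0 < H y := lt_of_le_of_ne hHy0 (Ne.symm hne)
    have h1 : H y * r ^ k * (2 * 3 ^ T) ≤ 3 * (H y * R ^ k) :=
      (mul_le_mul_of_nonneg_right hGy (by positivity)).trans hS1
    have h2 : R ^ k ≤ 3 ^ (C * k) * r ^ k := by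
      rw [pow_mul, ← mul_pow]
      exact pow_le_pow_left₀ hR0.le hRr k
    have h3 : (3 : ℝ) * 3 ^ (C * k) ≤ 3 ^ T := by
      rw [← pow_succ']
      exact pow_le_pow_right₀ (by norm_num) hT
    have h4 : 0 < H y * r ^ k * 3 ^ (C * k) := by positivity
    have h5 : 3 * (H y * R ^ k) ≤ 3 * (H y * (3 ^ (C * k) * r ^ k)) := by
      have := mul_le_mul_of_nonneg_left h2 hHy0
      linarith
    have h6 : H y * r ^ k * (2 * (3 * 3 ^ (C * k))) ≤ H y * r ^ k * (2 * 3 ^ T) := by
      apply mul_le_mul_of_nonneg_left _ (by positivity)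
      linarith
    nlinarith
  intro x
  have h1 := hbound x
  rw [hHyz, zero_mul] at h1
  exact norm_le_zero_iff.mp h1

/-- **Algebraic dependence.** -/
theorem dependence {d : ℕ} (hd : Module.finrank ℂ E = d) (h : Fin (d + 2) → E → ℂ)
    (hh : ∀ i, AnalyticOnNhd ℂ (h i) Set.univ)
    (ρ : E → ℝ) (hρc : Continuous ρ) (hρ0 : ∀ x, 0 < ρ x) {B : Set E} (hB : IsCompact B)
    (hrep : ∀ x, ∃ y ∈ B, ∃ c : ℂ, c ≠ 0 ∧ (∀ i, h i x = c * h i y) ∧ ρ x = ‖c‖ * ρ y) :
    ∃ (k : ℕ) (F : MvPolynomial (Fin (d + 2)) ℂ), F ≠ 0 ∧ F.IsHomogeneous k ∧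
      ∀ x, MvPolynomial.eval (fun i => h i x) F = 0 := by
  classical
  obtain ⟨S, C, hS⟩ := vanish h hh ρ hρc hρ0 hB hrep
  let b : Module.Basis (Fin d) ℂ E := Module.finBasisOfFinrankEq ℂ E hd
  set D : ℕ := C * (d + 1) + 1 with hD
  set n : ℕ := S.card * D ^ d + 1 with hn
  set k : ℕ := (d + 1) * n with hk
  set T : ℕ := C * k + 1 with hT
  have hTD : T ≤ D * n := by
    rw [hT, hk, hD]
    have : 1 ≤ n := by omega
    nlinarith
  have hcount : S.card * T ^ d < (n + 1) ^ (d + 1) := by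
    calc S.card * T ^ d ≤ S.card * (D * n) ^ d :=
          Nat.mul_le_mul_left _ (Nat.pow_le_pow_left hTD d)
      _ = (S.card * D ^ d) * n ^ d := by rw [mul_pow]; ring
      _ < n * n ^ d := by
          apply Nat.mul_lt_mul_of_pos_right
          · omega
          · have : 0 < n := by omega
            positivity
      _ = n ^ (d + 1) := by ring
      _ ≤ (n + 1) ^ (d + 1) := Nat.pow_le_pow_left (by omega) _
  let φ : (Fin (d + 1) → Fin (n + 1)) → E → ℂ := fun α x =>
    MvPolynomial.eval (fun i => h i x) (MvPolynomial.monomial (expo α) (1 : ℂ))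
  have hφ : ∀ α, AnalyticOnNhd ℂ (φ α) Set.univ := fun α => eval_analytic (P := h) hh _
  have hser : ∀ (c : S) (α : Fin (d + 1) → Fin (n + 1)), ∃ p, HasFPowerSeriesAt (φ α) p (c : E) :=
    fun c α => hφ α _ (Set.mem_univ _)
  choose p hp using hser
  let Λ : ((Fin (d + 1) → Fin (n + 1)) → ℂ) →ₗ[ℂ] (S × (Fin d → Fin T) → ℂ) :=
    { toFun := fun u cb => ∑ α, u α * mom b (p cb.1 α) (∑ a, (cb.2 a : ℕ)) (fun a => (cb.2 a : ℕ))
      map_add' := by
        intro u v
        funext cb
        simp only [Pi.add_apply, add_mul, Finset.sum_add_distrib]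
      map_smul' := by
        intro u v
        funext cb
        simp only [Pi.smul_apply, smul_eq_mul, Finset.mul_sum, RingHom.id_apply, mul_assoc] }
  have hker : LinearMap.ker Λ ≠ ⊥ := by
    apply LinearMap.ker_ne_bot_of_finrank_lt
    rw [Module.finrank_fintype_fun_eq_card, Module.finrank_fintype_fun_eq_card]
    simpa using hcount
  obtain ⟨u, hu, hu0⟩ := Submodule.exists_mem_ne_zero_of_ne_bot hker
  set F : MvPolynomial (Fin (d + 2)) ℂ :=
    ∑ α, MvPolynomial.monomial (expo α) (u α) with hF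
  have hcoef : ∀ α, MvPolynomial.coeff (expo α) F = u α := by
    intro α
    rw [hF, MvPolynomial.coeff_sum, Finset.sum_eq_single α]
    · rw [MvPolynomial.coeff_monomial, if_pos rfl]
    · intro β _ hβ
      rw [MvPolynomial.coeff_monomial, if_neg (fun h => hβ (expo_inj h))]
    · intro h
      exact absurd (Finset.mem_univ _) h
  have hev : ∀ x, MvPolynomial.eval (fun i => h i x) F = ∑ α, u α * φ α x := by
    intro x
    rw [hF, map_sum]
    refine Finset.sum_congr rfl fun α _ => ?_
    simp only [φ, MvPolynomial.eval_monomial, one_mul]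
  have hhom : F.IsHomogeneous k := by
    apply MvPolynomial.IsHomogeneous.sum
    intro α _
    apply MvPolynomial.isHomogeneous_monomial
    rw [Finsupp.degree_eq_sum, expo_sum]
  refine ⟨k, F, ?_, hhom, ?_⟩
  · intro h
    apply hu0
    funext α
    rw [← hcoef α, h]
    simp
  · refine hS k T le_rfl F hhom ?_
    intro c hc
    refine ⟨∑ α, u α • p ⟨c, hc⟩ α, ?_, ?_⟩
    · rw [funext hev]
      exact hasFPowerSeriesAt_sum Finset.univ u φ (hp ⟨c, hc⟩)
    · apply homog_zero b
      intro β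
      rw [mom_sum]
      exact congrFun (LinearMap.mem_ker.mp hu) (⟨c, hc⟩, β)

end weight

section quad

variable {E : Type} [AddCommGroup E] [Module ℝ E] {ι : Type} [Fintype ι] [DecidableEq ι]

/-- the quadratic function with given increments -/
noncomputable def qf (A : ι → ι → ℝ) (β : ι → ℝ) (x : ι → ℝ) : ℝ :=
  (∑ i, ∑ j, A i j * x i * x j) / 2 + ∑ i, (β i - A i i / 2) * x i

theorem qf_add (A : ι → ι → ℝ) (hA : ∀ i j, A i j = A j i) (β : ι → ℝ) (x : ι → ℝ) (k : ι) :
    qf A β (x + Pi.single k 1) = qf A β x + (∑ j, A k j * x j) + β k := by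
  unfold qf
  have h1 : ∑ i, ∑ j, A i j * (x + (Pi.single k (1 : ℝ) : ι → ℝ)) i * (x + (Pi.single k (1 : ℝ) : ι → ℝ)) j =
      ∑ i, ∑ j, A i j * x i * x j + (∑ j, A k j * x j) + (∑ j, A j k * x j) + A k k := by
    have h2 : ∀ i j, A i j * (x + (Pi.single k (1 : ℝ) : ι → ℝ)) i * (x + (Pi.single k (1 : ℝ) : ι → ℝ)) j =
        A i j * x i * x j + (if i = k then A i j * x j else 0) +
        (if j = k then A i j * x i else 0) + (if i = k then (if j = k then A i j else 0) else 0) := by
      intro i j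
      simp only [Pi.add_apply, Pi.single_apply]
      split_ifs <;> ring
    simp only [h2, Finset.sum_add_distrib, Finset.sum_ite_eq', Finset.mem_univ, if_true]
    have h3 : ∑ i, ∑ j, (if i = k then A i j * x j else 0) = ∑ j, A k j * x j := by
      rw [Finset.sum_comm]
      simp
    have h4 : ∑ i, ∑ j, (if i = k then (if j = k then A i j else 0) else 0) = A k k := by
      simp
    rw [h3, h4]
  have h5 : ∑ i, (β i - A i i / 2) * (x + (Pi.single k (1 : ℝ) : ι → ℝ)) i =
      ∑ i, (β i - A i i / 2) * x i + (β k - A k k / 2) := by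
    have h6 : ∀ i, (β i - A i i / 2) * (x + (Pi.single k (1 : ℝ) : ι → ℝ)) i =
        (β i - A i i / 2) * x i + (if i = k then β i - A i i / 2 else 0) := by
      intro i
      simp only [Pi.add_apply, Pi.single_apply]
      split_ifs <;> ring
    simp only [h6, Finset.sum_add_distrib, Finset.sum_ite_eq', Finset.mem_univ, if_true]
  have h7 : ∑ j, A j k * x j = ∑ j, A k j * x j :=
    Finset.sum_congr rfl fun j _ => by rw [hA j k]
  rw [h1, h5, h7]
  ring

end quad

end ADT_

open ADT_ in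
theorem adt_proof : Stmt_ADT := by
  intro n om a b h hom hd hper
  classical
  by_cases hz : ∀ k z, h k z = 0
  · refine ⟨1, MvPolynomial.X 0, MvPolynomial.X_ne_zero 0, MvPolynomial.isHomogeneous_X ℂ 0, ?_⟩
    intro z
    simp [hz]
  push Not at hz
  obtain ⟨k0, z0, hz0⟩ := hz
  -- symmetry
  have hdot : ∀ i (z w : Fin n → ℂ), ∑ l, a i l * (z + w) l = ∑ l, a i l * z l + ∑ l, a i l * w l := by
    intro i z w
    rw [← Finset.sum_add_distrib]
    exact Finset.sum_congr rfl fun l _ => by rw [Pi.add_apply]; ring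
  have hsym : ∀ i j, (∑ l, a i l * om j l).re = (∑ l, a j l * om i l).re := by
    intro i j
    have h1 : h k0 (z0 + om i + om j) = cexp ((∑ l, a j l * (z0 + om i) l) + b j) *
        (cexp ((∑ l, a i l * z0 l) + b i) * h k0 z0) := by
      rw [hper, hper]
    have h2 : h k0 (z0 + om j + om i) = cexp ((∑ l, a i l * (z0 + om j) l) + b i) *
        (cexp ((∑ l, a j l * z0 l) + b j) * h k0 z0) := by
      rw [hper, hper]
    have h3 : z0 + om i + om j = z0 + om j + om i := by abel
    rw [h3, h2] at h1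
    rw [← mul_assoc, ← mul_assoc, ← Complex.exp_add, ← Complex.exp_add] at h1
    have h4 := congrArg norm (mul_right_cancel₀ hz0 h1)
    rw [Complex.norm_exp, Complex.norm_exp] at h4
    have h5 := Real.exp_injective h4
    rw [hdot, hdot] at h5
    simp only [Complex.add_re] at h5
    linarith
  -- the real basis
  have hcard : Fintype.card (Fin n ⊕ Fin n) = Module.finrank ℝ (Fin n → ℂ) := by
    rw [Fintype.card_sum, Module.finrank_pi_fintype]
    simp only [Complex.finrank_real_complex, Finset.sum_const, Finset.card_univ, smul_eq_mul]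
    ring
  have hspan := hom.span_eq_top_of_card_eq_finrank' hcard
  let bs : Module.Basis (Fin n ⊕ Fin n) ℝ (Fin n → ℂ) :=
    Module.Basis.mk hom (by rw [hspan])
  have hbs : ∀ i, bs i = om i := fun i => by
    simp [bs]
  let A : Fin n ⊕ Fin n → Fin n ⊕ Fin n → ℝ := fun i j => (∑ l, a i l * om j l).re
  let X : (Fin n → ℂ) →ₗ[ℝ] (Fin n ⊕ Fin n → ℝ) := bs.equivFun.toLinearMap
  have hXom : ∀ i, X (om i) = Pi.single i 1 := by
    intro i
    rw [← hbs i]
    funext j
    simp only [X, LinearEquiv.coe_coe, Module.Basis.equivFun_self, Pi.single_apply]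
    exact if_congr eq_comm rfl rfl
  have hXc : Continuous X := LinearMap.continuous_of_finiteDimensional X
  have hXsum : ∀ z, ∑ j, X z j • om j = z := by
    intro z
    have := bs.sum_equivFun z
    simp only [hbs] at this
    exact this
  have hre : ∀ i z, (∑ l, a i l * z l).re = ∑ j, A i j * X z j := by
    intro i z
    conv_lhs => rw [← hXsum z]
    simp only [Finset.sum_apply, Pi.smul_apply, Finset.mul_sum]
    rw [Finset.sum_comm, Complex.re_sum]
    refine Finset.sum_congr rfl fun j _ => ?_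
    simp only [A]
    rw [Complex.re_sum, Complex.re_sum, Finset.sum_mul]
    refine Finset.sum_congr rfl fun l _ => ?_
    rw [Complex.real_smul, mul_left_comm, Complex.re_ofReal_mul]
    ring
  let ρ : (Fin n → ℂ) → ℝ := fun z => Real.exp (qf A (fun i => (b i).re) (X z))
  have hρc : Continuous ρ := by
    refine Real.continuous_exp.comp ?_
    have hXj : ∀ j, Continuous fun z => X z j := fun j => (continuous_apply j).comp hXc
    unfold qf
    refine Continuous.add (Continuous.div_const ?_ 2) ?_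
    · exact continuous_finsetSum _ fun i _ => continuous_finsetSum _ fun j _ =>
        (continuous_const.mul (hXj i)).mul (hXj j)
    · exact continuous_finsetSum _ fun i _ => continuous_const.mul (hXj i)
  have hρ0 : ∀ z, 0 < ρ z := fun z => Real.exp_pos _
  have hρper : ∀ i z, ρ (z + om i) = ‖cexp ((∑ l, a i l * z l) + b i)‖ * ρ z := by
    intro i z
    simp only [ρ]
    rw [map_add, hXom, qf_add A (fun i j => hsym i j), Complex.norm_exp, Complex.add_re, hre,
      ← Real.exp_add]
    congr 1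
    ring
  -- the group of quasi-periods
  let Q : (Fin n → ℂ) → Prop := fun p => ∀ z, ∃ c : ℂ, c ≠ 0 ∧ (∀ k, h k (z + p) = c * h k z) ∧
    ρ (z + p) = ‖c‖ * ρ z
  have hQ0 : Q 0 := fun z => ⟨1, one_ne_zero, by simp, by simp⟩
  have hQadd : ∀ p p', Q p → Q p' → Q (p + p') := by
    intro p p' hp hp' z
    obtain ⟨c, hc0, hc, hcρ⟩ := hp z
    obtain ⟨c', hc0', hc', hcρ'⟩ := hp' (z + p)
    refine ⟨c' * c, mul_ne_zero hc0' hc0, ?_, ?_⟩
    · intro k
      rw [← add_assoc, hc', hc, mul_assoc]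
    · rw [← add_assoc, hcρ', hcρ, norm_mul, mul_assoc]
  have hQneg : ∀ p, Q p → Q (-p) := by
    intro p hp z
    obtain ⟨c, hc0, hc, hcρ⟩ := hp (z + -p)
    rw [neg_add_cancel_right] at hcρ
    refine ⟨c⁻¹, inv_ne_zero hc0, ?_, ?_⟩
    · intro k
      have := hc k
      rw [neg_add_cancel_right] at this
      rw [this, inv_mul_cancel_left₀ hc0]
    · rw [hcρ, norm_inv, inv_mul_cancel_left₀ (norm_ne_zero_iff.2 hc0)]
  let QG : AddSubgroup (Fin n → ℂ) :=
    { carrier := {p | Q p}
      zero_mem' := hQ0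
      add_mem' := fun {p p'} hp hp' => hQadd p p' hp hp'
      neg_mem' := fun {p} hp => hQneg p hp }
  have hQom : ∀ i, om i ∈ QG := by
    intro i z
    exact ⟨cexp ((∑ l, a i l * z l) + b i), Complex.exp_ne_zero _, fun k => hper k i z, hρper i z⟩
  -- the compact fundamental set
  let B : Set (Fin n → ℂ) :=
    (fun x : Fin n ⊕ Fin n → ℝ => ∑ j, x j • om j) '' (Set.Icc 0 1)
  have hB : IsCompact B := by
    apply IsCompact.image isCompact_Icc
    fun_prop
  have hrep : ∀ x, ∃ y ∈ B, ∃ c : ℂ, c ≠ 0 ∧ (∀ i, h i x = c * h i y) ∧ ρ x = ‖c‖ * ρ y := by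
    intro x
    let y : Fin n → ℂ := ∑ j, Int.fract (X x j) • om j
    let p : Fin n → ℂ := ∑ j, ⌊X x j⌋ • om j
    have hp : p ∈ QG := QG.sum_mem fun j _ => QG.zsmul_mem (hQom j) _
    have hyp : y + p = x := by
      rw [← hXsum x]
      simp only [y, p]
      rw [← Finset.sum_add_distrib]
      refine Finset.sum_congr rfl fun j _ => ?_
      have h1 : (⌊X x j⌋ : ℤ) • om j = ((⌊X x j⌋ : ℤ) : ℝ) • om j := by
        rw [Int.cast_smul_eq_zsmul]
      rw [h1, ← add_smul]
      congr 1
      exact Int.fract_add_floor (X x j)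
    obtain ⟨c, hc0, hc, hcρ⟩ := hp y
    rw [hyp] at hcρ
    refine ⟨y, ⟨fun j => Int.fract (X x j), ⟨fun j => Int.fract_nonneg _,
      fun j => (Int.fract_lt_one _).le⟩, rfl⟩, c, hc0, ?_, hcρ⟩
    intro i
    have := hc i
    rwa [hyp] at this
  have han : ∀ i, AnalyticOnNhd ℂ (h i) Set.univ := fun i =>
    analyticOnNhd_of_differentiableOn isOpen_univ (hd i).differentiableOn
  obtain ⟨k, F, hF0, hFh, hF⟩ := dependence (E := Fin n → ℂ) (d := n) (by simp) h han ρ hρc hρ0
    hB hrep
  exact ⟨k, F, hF0, hFh, hF⟩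

end Pool.Agent.SPF
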