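import Pool.Agent.SPF.Kit

set_option linter.unusedSectionVars false
set_option linter.unusedSimpArgs false
set_option linter.unusedVariables false

/-!
# Module ALG: arithmetic functions of the family
-/

open scoped BigOperators
open Complex

namespace Pool.Agent.SPF

noncomputable section

namespace ALG_

/-! ### algebraic numbers -/

theorem alg_div {x y : ℂ} (hx : Alg x) (hy : Alg y) : Alg (x / y) := by
  rw [div_eq_mul_inv]
  exact IsAlgebraic.mul hx (IsAlgebraic.inv hy)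

theorem alg_sum {κ : Type} (t : Finset κ) (f : κ → ℂ) (h : ∀ i ∈ t, Alg (f i)) :
    Alg (∑ i ∈ t, f i) := by
  classical
  induction t using Finset.induction_on with
  | empty => simpa using (isAlgebraic_zero : IsAlgebraic ℚ (0 : ℂ))
  | insert a t ha ih =>
      rw [Finset.sum_insert ha]
      exact IsAlgebraic.add (h a (Finset.mem_insert_self a t))
        (ih fun i hi => h i (Finset.mem_insert_of_mem hi))

theorem alg_exp (r : ℚ) : Alg (cexp (Real.pi * I * (r : ℚ))) := by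
  have h : (cexp (Real.pi * I * (r : ℚ))) ^ (2 * r.den) = 1 := by
    rw [← Complex.exp_nat_mul, Complex.exp_eq_one_iff]
    refine ⟨r.num, ?_⟩
    have h1 : (r : ℂ) * (r.den : ℂ) = (r.num : ℂ) := by
      have := Rat.mul_den_eq_num r
      exact_mod_cast congrArg (fun t : ℚ => (t : ℂ)) this
    push_cast
    linear_combination (2 * (Real.pi : ℂ) * I) * h1
  have h2 : IsIntegral ℚ ((cexp (Real.pi * I * (r : ℚ))) ^ (2 * r.den)) := by
    rw [h]; exact isIntegral_one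
  have h3 : 0 < 2 * r.den := by have := r.den_pos; omega
  exact (IsIntegral.of_pow h3 h2).isAlgebraic

section

variable {E : Type} [Field E] [NumberField E] {I J : Type} [Fintype I] [Fintype J]
  [DecidableEq I] [DecidableEq J]

theorem alg_t (D : FamData E I J) (v : I ⊕ J) (a : E) : Alg (D.t v a) := by
  have h : IsAlgebraic ℚ a := Algebra.IsAlgebraic.isAlgebraic a
  exact h.algHom (D.t v).toRatAlgHom

theorem alg_Hsum {V : Type} [AddCommGroup V] [Module ℚ V] (e : V →ₗ[ℚ] V →ₗ[ℚ] ℚ) (C : V →₀ ℂ)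
    (f : V → ℂ) (x : V) (a : ℂ) (hC : ∀ y, Alg (C y)) (hf : ∀ y, Alg (f y / a)) :
    Alg (Hsum e C f x / a) := by
  have : Hsum e C f x / a =
      ∑ y ∈ C.support, C y * cexp (Real.pi * Complex.I * (e x y : ℚ)) * (f (x + y) / a) := by
    unfold Hsum Finsupp.sum
    rw [Finset.sum_div]
    exact Finset.sum_congr rfl fun y _ => by ring
  rw [this]
  exact alg_sum _ _ fun y _ => IsAlgebraic.mul (IsAlgebraic.mul (hC y) (alg_exp _)) (hf _)

/-- bilinear version -/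
theorem alg_Hsum2 {V : Type} [AddCommGroup V] [Module ℚ V] (e : V →ₗ[ℚ] V →ₗ[ℚ] ℚ) (C : V →₀ ℂ)
    (f1 f2 : V → ℂ) (x y : V) (a : ℂ) (hC : ∀ y, Alg (C y))
    (hf : ∀ u w, Alg ((f1 u * f2 w - f2 u * f1 w) / a)) :
    Alg ((Hsum e C f1 x * Hsum e C f2 y - Hsum e C f2 x * Hsum e C f1 y) / a) := by
  have : (Hsum e C f1 x * Hsum e C f2 y - Hsum e C f2 x * Hsum e C f1 y) / a =
      ∑ u ∈ C.support, ∑ w ∈ C.support, (C u * cexp (Real.pi * Complex.I * (e x u : ℚ))) *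
        (C w * cexp (Real.pi * Complex.I * (e y w : ℚ))) *
        ((f1 (x + u) * f2 (y + w) - f2 (x + u) * f1 (y + w)) / a) := by
    unfold Hsum Finsupp.sum
    rw [Finset.sum_mul_sum, Finset.sum_mul_sum, ← Finset.sum_sub_distrib, Finset.sum_div]
    refine Finset.sum_congr rfl fun u _ => ?_
    rw [← Finset.sum_sub_distrib, Finset.sum_div]
    exact Finset.sum_congr rfl fun w _ => by ring
  rw [this]
  exact alg_sum _ _ fun u _ => alg_sum _ _ fun w _ =>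
    IsAlgebraic.mul (IsAlgebraic.mul (IsAlgebraic.mul (hC u) (alg_exp _))
      (IsAlgebraic.mul (hC w) (alg_exp _))) (hf _ _)

/-! ### denominators -/

theorem exists_den (B : Module.Basis (Co I J ⊕ Co I J) ℚ (E × E)) (x : E × E) :
    ∃ n : ℕ, 0 < n ∧ (n : ℚ) • x ∈ lat B := by
  classical
  refine ⟨∏ i, (B.repr x i).den, Finset.prod_pos fun i _ => (B.repr x i).den_pos, ?_⟩
  have h0 : ((∏ i, (B.repr x i).den : ℕ) : ℚ) • x =
      ∑ i, (((∏ i, (B.repr x i).den : ℕ) : ℚ) * B.repr x i) • B i := by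
    conv_lhs => rw [← B.sum_repr x, Finset.smul_sum]
    refine Finset.sum_congr rfl fun i _ => ?_
    rw [smul_smul]
    simp only [Module.Basis.sum_repr]
  rw [h0]
  refine AddSubgroup.sum_mem _ fun i _ => ?_
  have h1 : ((∏ i, (B.repr x i).den : ℕ) : ℚ) * B.repr x i =
      (((∏ j ∈ Finset.univ.erase i, ((B.repr x j).den : ℤ)) * (B.repr x i).num : ℤ) : ℚ) := by
    rw [← Finset.mul_prod_erase Finset.univ _ (Finset.mem_univ i)]
    push_cast
    have := Rat.mul_den_eq_num (B.repr x i)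
    linear_combination (∏ j ∈ Finset.univ.erase i, ((B.repr x j).den : ℚ)) * this
  rw [h1, Int.cast_smul_eq_zsmul]
  exact AddSubgroup.zsmul_mem _ (AddSubgroup.subset_closure (Set.mem_range_self i)) _

theorem den_dvd (B : Module.Basis (Co I J ⊕ Co I J) ℚ (E × E)) (x : E × E) (n m : ℕ)
    (hnm : n ∣ m) (h : (n : ℚ) • x ∈ lat B) : (m : ℚ) • x ∈ lat B := by
  obtain ⟨k, rfl⟩ := hnm
  have : ((n * k : ℕ) : ℚ) • x = k • ((n : ℚ) • x) := by
    rw [← Nat.cast_smul_eq_nsmul ℚ, smul_smul]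
    push_cast
    rw [mul_comm]
  rw [this]
  exact AddSubgroup.nsmul_mem _ h _

theorem Rm_lat (B : Module.Basis (Co I J ⊕ Co I J) ℚ (E × E)) (m : ℕ) (hm : 0 < m) (x : E × E)
    (hx : x ∈ FamData.Rm B m) : (m : ℚ) • x ∈ lat B := by
  obtain ⟨k, -, rfl⟩ := hx
  rw [Finset.smul_sum]
  refine AddSubgroup.sum_mem _ fun i _ => ?_
  have hm' : (m : ℚ) ≠ 0 := by exact_mod_cast hm.ne'
  rw [smul_smul, mul_div_cancel₀ _ hm', Nat.cast_smul_eq_nsmul]
  exact AddSubgroup.nsmul_mem _ (AddSubgroup.subset_closure (Set.mem_range_self i)) _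

theorem exists_m (B : Module.Basis (Co I J ⊕ Co I J) ℚ (E × E)) (m₀ : ℕ) (hm₀ : 0 < m₀)
    (S : Finset (E × E)) :
    ∃ m : ℕ, 0 < m ∧ m₀ ∣ m ∧ ∀ x ∈ S, (m : ℚ) • x ∈ lat B := by
  classical
  choose dn hdn0 hdn using fun x : E × E => exists_den B x
  refine ⟨m₀ * ∏ x ∈ S, dn x, Nat.mul_pos hm₀ (Finset.prod_pos fun x _ => hdn0 x),
    Dvd.intro _ rfl, fun x hx => den_dvd B x (dn x) _ ?_ (hdn x)⟩
  exact Dvd.dvd.mul_left (Finset.dvd_prod_of_mem dn hx) m₀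

/-- points of `Rm` -/
def pt (B : Module.Basis (Co I J ⊕ Co I J) ℚ (E × E)) (m : ℕ) (k : Co I J ⊕ Co I J → Fin m) :
    E × E := ∑ i, (((k i : ℕ) : ℚ) / m) • B i

theorem pt_mem (B : Module.Basis (Co I J ⊕ Co I J) ℚ (E × E)) (m : ℕ)
    (k : Co I J ⊕ Co I J → Fin m) : pt B m k ∈ FamData.Rm B m :=
  ⟨fun i => (k i : ℕ), fun i => (k i).2, rfl⟩

theorem exists_pt (B : Module.Basis (Co I J ⊕ Co I J) ℚ (E × E)) (m : ℕ) (x : E × E)
    (hx : x ∈ FamData.Rm B m) : ∃ k, pt B m k = x := by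
  obtain ⟨k, hk, rfl⟩ := hx
  exact ⟨fun i => ⟨k i, hk i⟩, rfl⟩

/-! ### the core -/

theorem core (h1 : Stmt_ARI) (h2 : Stmt_INV) (h3 : Stmt_CPT) (h4 : Stmt_DEN) (h5 : Stmt_REL)
    (h7 : Stmt_HOLO) (h8 : Stmt_ISO) [Nonempty J]
    (D : FamData E I J) (B : Module.Basis (Co I J ⊕ Co I J) ℚ (E × E))
    (Θ : (I → ℂ) → (Co I J → ℂ) → ℂ) (q : I → ℂ) (C : J → ℂ)
    (hB : SympBasis D.e B) (hΘ : D.ThFam B Θ) (hq : q ∈ D.Dom) (hH : D.Hq Θ q C)
    (m : ℕ) (hm : 0 < m) (hNW : ∀ s ∈ D.Dom, ∃ x ∈ FamData.Rm B m, D.W Θ x s ≠ 0)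
    (y₀ : E × E) (xs : I → E × E) (hy₀ : (m : ℚ) • y₀ ∈ lat B)
    (hxs : ∀ v, (m : ℚ) • xs v ∈ lat B)
    (κ₂ : Type) [Fintype κ₂] (Yf : κ₂ → (I → ℂ) → ℂ)
    (hYd : ∀ l, DifferentiableOn ℂ (Yf l) D.Dom)
    (hYn : ∀ s ∈ D.Dom, ∃ l, Yf l s ≠ 0)
    (hYi : ∀ g : D.Iso, g ∈ D.Gam B (2 * m ^ 2) → ∀ s ∈ D.Dom,
      ∃ a : ℂ, a ≠ 0 ∧ ∀ l, Yf l (g.act s) = a * Yf l s)
    (hYa : ∀ g : D.Iso, ∃ a : ℂ, a ≠ 0 ∧ ∀ l, Alg (Yf l (g.act q) / a))
    (l₀ l₁ : κ₂) :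
    ∃ P : MvPolynomial (Option I) ℂ, P ≠ 0 ∧ AlgPoly P ∧
      ∀ s ∈ D.Dom, D.W Θ y₀ s ≠ 0 → Yf l₀ s ≠ 0 →
        MvPolynomial.eval (fun o : Option I => o.elim (Yf l₁ s / Yf l₀ s)
          (fun v => D.W Θ (xs v) s / D.W Θ y₀ s)) P = 0 := by
  classical
  have hN : 0 < 2 * m ^ 2 := by positivity
  obtain ⟨K, hK, hKD, hKg⟩ := h3 E I J D B hB (2 * m ^ 2) hN
  let pts : ((Co I J ⊕ Co I J → Fin m) ⊕ Option I) → E × E := fun k =>
    Sum.elim (pt B m) (fun o => o.elim y₀ xs) k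
  have hpts : ∀ k, (m : ℚ) • pts k ∈ lat B := by
    intro k
    rcases k with k | (_ | v)
    · exact Rm_lat B m hm _ (pt_mem B m k)
    · exact hy₀
    · exact hxs v
  obtain ⟨κq, c, hκq, hc, hHq⟩ := hH
  have key := h1 I ((Co I J ⊕ Co I J → Fin m) ⊕ Option I) κ₂ D.Dom K
    (Set.range fun g : D.Iso => g.act q) (fun k => D.W Θ (pts k)) Yf D.isOpen_Dom hK hKD
    (by
      rintro _ ⟨g, rfl⟩
      exact ((h8 E I J D g).2.2.2 q hq).2.1)
    (by
      intro s hs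
      rw [Metric.mem_closure_iff]
      intro ε hε
      obtain ⟨g, hg⟩ := h4 E I J D q hq s hs ε hε
      exact ⟨g.act q, ⟨g, rfl⟩, by rw [dist_comm]; exact hg⟩)
    (fun k => (h7 E I J D B Θ hΘ (pts k)).1) hYd
    (by
      intro s hs
      obtain ⟨x, hx, hx'⟩ := hNW s hs
      obtain ⟨k, rfl⟩ := exists_pt B m x hx
      exact ⟨Sum.inl k, hx'⟩)
    hYn
    (by
      intro s hs
      obtain ⟨g, hg, hgK⟩ := hKg s hs
      refine ⟨g.act s, hgK, ?_, hYi g hg s hs⟩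
      obtain ⟨a, ha, hxy⟩ := h2 E I J D B Θ hB hΘ m hm g hg s hs
      exact ⟨a, ha, fun k => (hxy (pts k) (pts k) (hpts k) (hpts k)).1⟩)
    (by
      rintro _ ⟨g, rfl⟩
      refine ⟨?_, hYa g⟩
      obtain ⟨C', hC', hs⟩ := h5 E I J D B Θ hB hΘ g
      obtain ⟨κ, hκ, hx⟩ := hs q hq
      refine ⟨κ * κq, mul_ne_zero hκ hκq, fun k => ?_⟩
      obtain ⟨x', hx'⟩ := (h8 E I J D g).2.2.1 (pts k)
      show Alg (D.W Θ (pts k) (g.act q) / (κ * κq))
      rw [← hx', (hx x').1]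
      have : κ * Hsum D.e C' (fun y => D.W Θ y q) x' / (κ * κq) =
          Hsum D.e C' (fun y => D.W Θ y q) x' / κq := by
        field_simp
      rw [this]
      exact alg_Hsum _ _ _ _ _ hC' fun y => (hHq y).1)
    (Sum.inr none) (fun v => Sum.inr (some v)) l₀ l₁
  obtain ⟨P, hP0, hPa, hP⟩ := key
  exact ⟨P, hP0, hPa, fun s hs hw hy => hP s hs hw hy⟩

theorem fam1 (h1 : Stmt_ARI) (h2 : Stmt_INV) (h3 : Stmt_CPT) (h4 : Stmt_DEN) (h5 : Stmt_REL)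
    (h6 : Stmt_NOZ) (h7 : Stmt_HOLO) (h8 : Stmt_ISO) [Nonempty J]
    (D : FamData E I J) (B : Module.Basis (Co I J ⊕ Co I J) ℚ (E × E))
    (Θ : (I → ℂ) → (Co I J → ℂ) → ℂ) (q : I → ℂ) (C : J → ℂ)
    (hB : SympBasis D.e B) (hΘ : D.ThFam B Θ) (hq : q ∈ D.Dom) (hH : D.Hq Θ q C)
    (F : E × E → (I → ℂ) → ℂ) (hFd : ∀ x, DifferentiableOn ℂ (F x) D.Dom)
    (m₀ : ℕ) (hm₀ : 0 < m₀)
    (hFn : ∀ m : ℕ, 0 < m → m₀ ∣ m → ∀ s ∈ D.Dom, ∃ x ∈ FamData.Rm B m, F x s ≠ 0)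
    (hWn : ∀ m : ℕ, 0 < m → m₀ ∣ m → ∀ s ∈ D.Dom, ∃ x ∈ FamData.Rm B m, D.W Θ x s ≠ 0)
    (hFi : ∀ m : ℕ, 0 < m → ∀ g : D.Iso, g ∈ D.Gam B (2 * m ^ 2) → ∀ s ∈ D.Dom,
      ∃ a : ℂ, a ≠ 0 ∧ ∀ x, (m : ℚ) • x ∈ lat B → F x (g.act s) = a * F x s)
    (hFa : ∀ g : D.Iso, ∃ a : ℂ, a ≠ 0 ∧ ∀ x, Alg (F x (g.act q) / a)) (x y : E × E) :
    D.Rel Θ (F x) (F y) := by
  classical
  intro y₀ xs
  obtain ⟨m, hm, hmd, hS⟩ := exists_m B m₀ hm₀ ({y₀, x, y} ∪ Finset.univ.image xs)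
  have hy₀ : (m : ℚ) • y₀ ∈ lat B := hS _ (by simp)
  have hx : (m : ℚ) • x ∈ lat B := hS _ (by simp)
  have hy : (m : ℚ) • y ∈ lat B := hS _ (by simp)
  have hxs : ∀ v, (m : ℚ) • xs v ∈ lat B := fun v => hS _ (by simp)
  let pts : ((Co I J ⊕ Co I J → Fin m) ⊕ Bool) → E × E := fun k =>
    Sum.elim (pt B m) (fun b => if b = true then x else y) k
  have hpts : ∀ k, (m : ℚ) • pts k ∈ lat B := by
    intro k
    rcases k with k | (_ | _)
    · exact Rm_lat B m hm _ (pt_mem B m k)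
    · exact hy
    · exact hx
  exact core h1 h2 h3 h4 h5 h7 h8 D B Θ q C hB hΘ hq hH m hm (hWn m hm hmd) y₀ xs hy₀ hxs
    ((Co I J ⊕ Co I J → Fin m) ⊕ Bool) (fun k => F (pts k)) (fun k => hFd _)
    (by
      intro s hs
      obtain ⟨x, hx, hx'⟩ := hFn m hm hmd s hs
      obtain ⟨k, rfl⟩ := exists_pt B m x hx
      exact ⟨Sum.inl k, hx'⟩)
    (by
      intro g hg s hs
      obtain ⟨a, ha, h⟩ := hFi m hm g hg s hs
      exact ⟨a, ha, fun k => h _ (hpts k)⟩)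
    (by
      intro g
      obtain ⟨a, ha, h⟩ := hFa g
      exact ⟨a, ha, fun k => h _⟩)
    (Sum.inr false) (Sum.inr true)

theorem fam2 (h1 : Stmt_ARI) (h2 : Stmt_INV) (h3 : Stmt_CPT) (h4 : Stmt_DEN) (h5 : Stmt_REL)
    (h6 : Stmt_NOZ) (h7 : Stmt_HOLO) (h8 : Stmt_ISO) [Nonempty J]
    (D : FamData E I J) (B : Module.Basis (Co I J ⊕ Co I J) ℚ (E × E))
    (Θ : (I → ℂ) → (Co I J → ℂ) → ℂ) (q : I → ℂ) (C : J → ℂ)
    (hB : SympBasis D.e B) (hΘ : D.ThFam B Θ) (hq : q ∈ D.Dom) (hH : D.Hq Θ q C)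
    (F : E × E → E × E → (I → ℂ) → ℂ) (hFd : ∀ x y, DifferentiableOn ℂ (F x y) D.Dom)
    (m₀ : ℕ) (hm₀ : 0 < m₀)
    (hFn : ∀ m : ℕ, 0 < m → m₀ ∣ m → ∀ s ∈ D.Dom, ∃ x ∈ FamData.Rm B m,
      ∃ y ∈ FamData.Rm B m, F x y s ≠ 0)
    (hWn : ∀ m : ℕ, 0 < m → m₀ ∣ m → ∀ s ∈ D.Dom, ∃ x ∈ FamData.Rm B m, D.W Θ x s ≠ 0)
    (hFi : ∀ m : ℕ, 0 < m → ∀ g : D.Iso, g ∈ D.Gam B (2 * m ^ 2) → ∀ s ∈ D.Dom,
      ∃ a : ℂ, a ≠ 0 ∧ ∀ x y, (m : ℚ) • x ∈ lat B → (m : ℚ) • y ∈ lat B →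
        F x y (g.act s) = a * F x y s)
    (hFa : ∀ g : D.Iso, ∃ a : ℂ, a ≠ 0 ∧ ∀ x y, Alg (F x y (g.act q) / a)) (x y x' y' : E × E) :
    D.Rel Θ (F x y) (F x' y') := by
  classical
  intro y₀ xs
  obtain ⟨m, hm, hmd, hS⟩ := exists_m B m₀ hm₀ ({y₀, x, y, x', y'} ∪ Finset.univ.image xs)
  have hy₀ : (m : ℚ) • y₀ ∈ lat B := hS _ (by simp)
  have hx : (m : ℚ) • x ∈ lat B := hS _ (by simp)
  have hy : (m : ℚ) • y ∈ lat B := hS _ (by simp)
  have hx' : (m : ℚ) • x' ∈ lat B := hS _ (by simp)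
  have hy' : (m : ℚ) • y' ∈ lat B := hS _ (by simp)
  have hxs : ∀ v, (m : ℚ) • xs v ∈ lat B := fun v => hS _ (by simp)
  let p1 : (((Co I J ⊕ Co I J → Fin m) × (Co I J ⊕ Co I J → Fin m)) ⊕ Bool) → E × E := fun k =>
    Sum.elim (fun u => pt B m u.1) (fun b => if b = true then x else x') k
  let p2 : (((Co I J ⊕ Co I J → Fin m) × (Co I J ⊕ Co I J → Fin m)) ⊕ Bool) → E × E := fun k =>
    Sum.elim (fun u => pt B m u.2) (fun b => if b = true then y else y') k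
  have hp1 : ∀ k, (m : ℚ) • p1 k ∈ lat B := by
    intro k
    rcases k with k | (_ | _)
    · exact Rm_lat B m hm _ (pt_mem B m k.1)
    · exact hx'
    · exact hx
  have hp2 : ∀ k, (m : ℚ) • p2 k ∈ lat B := by
    intro k
    rcases k with k | (_ | _)
    · exact Rm_lat B m hm _ (pt_mem B m k.2)
    · exact hy'
    · exact hy
  have fin1 : Fintype (Co I J ⊕ Co I J → Fin m) := Pi.instFintype
  have fin2 : Fintype ((Co I J ⊕ Co I J → Fin m) × (Co I J ⊕ Co I J → Fin m)) :=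
    instFintypeProd _ _
  have fin3 : Fintype (((Co I J ⊕ Co I J → Fin m) × (Co I J ⊕ Co I J → Fin m)) ⊕ Bool) :=
    instFintypeSum _ _
  exact core h1 h2 h3 h4 h5 h7 h8 D B Θ q C hB hΘ hq hH m hm (hWn m hm hmd) y₀ xs hy₀ hxs
    (((Co I J ⊕ Co I J → Fin m) × (Co I J ⊕ Co I J → Fin m)) ⊕ Bool)
    (fun k => F (p1 k) (p2 k)) (fun k => hFd _ _)
    (by
      intro s hs
      obtain ⟨x, hx, y, hy, hxy⟩ := hFn m hm hmd s hs
      obtain ⟨k, rfl⟩ := exists_pt B m x hx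
      obtain ⟨l, rfl⟩ := exists_pt B m y hy
      exact ⟨Sum.inl (k, l), hxy⟩)
    (by
      intro g hg s hs
      obtain ⟨a, ha, h⟩ := hFi m hm g hg s hs
      exact ⟨a, ha, fun k => h _ _ (hp1 k) (hp2 k)⟩)
    (by
      intro g
      obtain ⟨a, ha, h⟩ := hFa g
      exact ⟨a, ha, fun k => h _ _⟩)
    (Sum.inr false) (Sum.inr true)

/-- the determinant of an isometry is mapped to something nonzero -/
theorem t_det_ne (h8 : Stmt_ISO) (D : FamData E I J) (g : D.Iso) (v : I ⊕ J) :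
    D.t v g.det ≠ 0 := by
  intro h
  have h0 := (h8 E I J D g).1
  have h1 : g.det = 0 := by
    by_contra hne
    exact hne ((map_eq_zero (D.t v)).1 h)
  rw [h1, zero_mul] at h0
  exact zero_ne_one h0

/-- algebraicity of the minors along the orbit -/
theorem Mi_alg (h5 : Stmt_REL) (h8 : Stmt_ISO)
    (D : FamData E I J) (B : Module.Basis (Co I J ⊕ Co I J) ℚ (E × E))
    (Θ : (I → ℂ) → (Co I J → ℂ) → ℂ) (q : I → ℂ) (C : J → ℂ)
    (hB : SympBasis D.e B) (hΘ : D.ThFam B Θ) (hq : q ∈ D.Dom) (hH : D.Hq Θ q C) (g : D.Iso) :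
    ∃ a : ℂ, a ≠ 0 ∧ (∀ x, Alg (D.W Θ x (g.act q) / a)) ∧
      ∀ (v : J) x y, Alg (D.Mi Θ v x y (g.act q) / (a ^ 2 * C v)) := by
  obtain ⟨κq, c, hκq, hc, hHq⟩ := hH
  obtain ⟨C', hC', hs⟩ := h5 E I J D B Θ hB hΘ g
  obtain ⟨κ, hκ, hx⟩ := hs q hq
  refine ⟨κ * κq, mul_ne_zero hκ hκq, ?_, ?_⟩
  · intro x
    obtain ⟨x', rfl⟩ := (h8 E I J D g).2.2.1 x
    rw [(hx x').1]
    have : κ * Hsum D.e C' (fun y => D.W Θ y q) x' / (κ * κq) =
        Hsum D.e C' (fun y => D.W Θ y q) x' / κq := by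
      field_simp
    rw [this]
    exact alg_Hsum _ _ _ _ _ hC' fun y => (hHq y).1
  · intro v x y
    obtain ⟨x', rfl⟩ := (h8 E I J D g).2.2.1 x
    obtain ⟨y', rfl⟩ := (h8 E I J D g).2.2.1 y
    have hx1 := ((hx x').2.2 v).1
    have hx2 := ((hx x').2.2 v).2
    have hy1 := ((hx y').2.2 v).1
    have hy2 := ((hx y').2.2 v).2
    have hd : D.t (Sum.inr v) g.det = D.t (Sum.inr v) g.a * D.t (Sum.inr v) g.d -
        D.t (Sum.inr v) g.b * D.t (Sum.inr v) g.c := by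
      unfold FamData.Iso.det
      rw [map_sub, map_mul, map_mul]
    have hd0 := t_det_ne h8 D g (Sum.inr v)
    set H1 : E × E → ℂ := Hsum D.e C' (fun y => D.G Θ (FamData.j1 v) y q) with hH1
    set H2 : E × E → ℂ := Hsum D.e C' (fun y => D.G Θ (FamData.j2 v) y q) with hH2
    have key : D.t (Sum.inr v) g.det * D.Mi Θ v (g.app x') (g.app y') (g.act q) =
        κ ^ 2 * (H1 x' * H2 y' - H2 x' * H1 y') := by
      rw [hd]
      unfold FamData.Mi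
      linear_combination (D.t (Sum.inr v) g.b * D.G Θ (FamData.j1 v) (g.app y') (g.act q) +
            D.t (Sum.inr v) g.d * D.G Θ (FamData.j2 v) (g.app y') (g.act q)) * hx1 +
        (κ * H1 x') * hy2 -
        (D.t (Sum.inr v) g.a * D.G Θ (FamData.j1 v) (g.app y') (g.act q) +
            D.t (Sum.inr v) g.c * D.G Θ (FamData.j2 v) (g.app y') (g.act q)) * hx2 -
        (κ * H2 x') * hy1
    have h3 : D.Mi Θ v (g.app x') (g.app y') (g.act q) / ((κ * κq) ^ 2 * C v) =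
        (H1 x' * H2 y' - H2 x' * H1 y') / (κq ^ 2 * C v) / D.t (Sum.inr v) g.det := by
      have h4 : D.Mi Θ v (g.app x') (g.app y') (g.act q) =
          κ ^ 2 * (H1 x' * H2 y' - H2 x' * H1 y') / D.t (Sum.inr v) g.det := by
        rw [eq_div_iff hd0, ← key]; ring
      rw [h4]
      have hκ2 : κ ^ 2 ≠ 0 := pow_ne_zero _ hκ
      rw [mul_pow, mul_assoc (κ ^ 2) (κq ^ 2) (C v), div_div, div_div,
        show D.t (Sum.inr v) g.det * (κ ^ 2 * (κq ^ 2 * C v)) =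
          κ ^ 2 * (κq ^ 2 * C v * D.t (Sum.inr v) g.det) by ring]
      exact mul_div_mul_left _ _ hκ2
    rw [h3]
    refine alg_div ?_ (alg_t D _ _)
    exact alg_Hsum2 _ _ _ _ _ _ _ hC' fun u w => (hHq u).2.2 v w

end

end ALG_

open ALG_ in
theorem alg_proof (h1 : Stmt_ARI) (h2 : Stmt_INV) (h3 : Stmt_CPT) (h4 : Stmt_DEN)
    (h5 : Stmt_REL) (h6 : Stmt_NOZ) (h7 : Stmt_HOLO) (h8 : Stmt_ISO) : Stmt_ALG := by
  intro E _ _ I J _ _ _ _ _ D B Θ q C hB hΘ hq hC hH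
  classical
  obtain ⟨m₀, hm₀, hNZ⟩ := h6 E I J D B Θ hB hΘ
  have hWn : ∀ m : ℕ, 0 < m → m₀ ∣ m → ∀ s ∈ D.Dom, ∃ x ∈ FamData.Rm B m, D.W Θ x s ≠ 0 :=
    fun m hm hmd s hs => (hNZ m hm hmd s hs).1
  obtain ⟨κq, c, hκq, hc, hHq⟩ := id hH
  refine ⟨?_, ?_, ?_, ?_⟩
  · -- nulls
    refine fam1 h1 h2 h3 h4 h5 h6 h7 h8 D B Θ q C hB hΘ hq hH (D.W Θ)
      (fun x => (h7 E I J D B Θ hΘ x).1) m₀ hm₀ hWn hWn ?_ ?_
    · intro m hm g hg s hs
      obtain ⟨a, ha, hxy⟩ := h2 E I J D B Θ hB hΘ m hm g hg s hs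
      exact ⟨a, ha, fun x hx => (hxy x x hx hx).1⟩
    · intro g
      obtain ⟨a, ha, h, -⟩ := Mi_alg h5 h8 D B Θ q C hB hΘ hq hH g
      exact ⟨a, ha, h⟩
  · intro v x y
    constructor
    · refine fam1 h1 h2 h3 h4 h5 h6 h7 h8 D B Θ q C hB hΘ hq hH (D.G Θ (FamData.i1 v))
        (fun x => (h7 E I J D B Θ hΘ x).2 _) m₀ hm₀
        (fun m hm hmd s hs => ((hNZ m hm hmd s hs).2.1 v).1) hWn ?_ ?_ x y
      · intro m hm g hg s hs
        obtain ⟨a, ha, hxy⟩ := h2 E I J D B Θ hB hΘ m hm g hg s hs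
        refine ⟨a * g.j s v, mul_ne_zero ha (((h8 E I J D g).2.2.2 s hs).1 v), fun x hx => ?_⟩
        exact ((hxy x x hx hx).2.1 v).1
      · intro g
        obtain ⟨C', hC', hs⟩ := h5 E I J D B Θ hB hΘ g
        obtain ⟨κ, hκ, hx⟩ := hs q hq
        have hj : g.j q v ≠ 0 := ((h8 E I J D g).2.2.2 q hq).1 v
        have hd := t_det_ne h8 D g (Sum.inl v)
        refine ⟨κ * g.j q v * (κq * c (FamData.i1 v)) / D.t (Sum.inl v) g.det,
          div_ne_zero (mul_ne_zero (mul_ne_zero hκ hj) (mul_ne_zero hκq (hc _))) hd, fun x => ?_⟩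
        obtain ⟨x', rfl⟩ := (h8 E I J D g).2.2.1 x
        have e1 := ((hx x').2.1 v).1
        have hk : κq * c (FamData.i1 v) ≠ 0 := mul_ne_zero hκq (hc _)
        have : D.G Θ (FamData.i1 v) (g.app x') (g.act q) /
            (κ * g.j q v * (κq * c (FamData.i1 v)) / D.t (Sum.inl v) g.det) =
            Hsum D.e C' (fun y => D.G Θ (FamData.i1 v) y q) x' / (κq * c (FamData.i1 v)) := by
          rw [div_mul_eq_mul_div, div_eq_iff hj] at e1
          rw [div_eq_div_iff (div_ne_zero (mul_ne_zero (mul_ne_zero hκ hj) hk) hd) hk,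
            mul_div_assoc', eq_div_iff hd]
          linear_combination (κq * c (FamData.i1 v)) * e1
        rw [this]
        exact alg_Hsum _ _ _ _ _ hC' fun y => ((hHq y).2.1 v).1
    · refine fam1 h1 h2 h3 h4 h5 h6 h7 h8 D B Θ q C hB hΘ hq hH (D.G Θ (FamData.i2 v))
        (fun x => (h7 E I J D B Θ hΘ x).2 _) m₀ hm₀
        (fun m hm hmd s hs => ((hNZ m hm hmd s hs).2.1 v).2) hWn ?_ ?_ x y
      · intro m hm g hg s hs
        obtain ⟨a, ha, hxy⟩ := h2 E I J D B Θ hB hΘ m hm g hg s hs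
        refine ⟨a * g.j s v, mul_ne_zero ha (((h8 E I J D g).2.2.2 s hs).1 v), fun x hx => ?_⟩
        exact ((hxy x x hx hx).2.1 v).2
      · intro g
        obtain ⟨C', hC', hs⟩ := h5 E I J D B Θ hB hΘ g
        obtain ⟨κ, hκ, hx⟩ := hs q hq
        have hj : g.j q v ≠ 0 := ((h8 E I J D g).2.2.2 q hq).1 v
        have hk : κq * c (FamData.i2 v) ≠ 0 := mul_ne_zero hκq (hc _)
        refine ⟨κ * g.j q v * (κq * c (FamData.i2 v)),
          mul_ne_zero (mul_ne_zero hκ hj) hk, fun x => ?_⟩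
        obtain ⟨x', rfl⟩ := (h8 E I J D g).2.2.1 x
        have e1 := ((hx x').2.1 v).2
        have : D.G Θ (FamData.i2 v) (g.app x') (g.act q) /
            (κ * g.j q v * (κq * c (FamData.i2 v))) =
            Hsum D.e C' (fun y => D.G Θ (FamData.i2 v) y q) x' / (κq * c (FamData.i2 v)) := by
          rw [div_mul_eq_mul_div, one_mul, div_eq_iff hj] at e1
          rw [div_eq_div_iff (mul_ne_zero (mul_ne_zero hκ hj) hk) hk]
          linear_combination (κq * c (FamData.i2 v)) * e1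
        rw [this]
        exact alg_Hsum _ _ _ _ _ hC' fun y => ((hHq y).2.1 v).2
  · intro v
    refine fam2 h1 h2 h3 h4 h5 h6 h7 h8 D B Θ q C hB hΘ hq hH (D.Mi Θ v)
      (fun x y => ?_) m₀ hm₀
      (fun m hm hmd s hs => (hNZ m hm hmd s hs).2.2 v) hWn ?_ ?_
    · unfold FamData.Mi
      exact (((h7 E I J D B Θ hΘ x).2 _).mul ((h7 E I J D B Θ hΘ y).2 _)).sub
        (((h7 E I J D B Θ hΘ x).2 _).mul ((h7 E I J D B Θ hΘ y).2 _))
    · intro m hm g hg s hs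
      obtain ⟨a, ha, hxy⟩ := h2 E I J D B Θ hB hΘ m hm g hg s hs
      exact ⟨a ^ 2, pow_ne_zero _ ha, fun x y hx hy => (hxy x y hx hy).2.2 v⟩
    · intro g
      obtain ⟨a, ha, -, h⟩ := Mi_alg h5 h8 D B Θ q C hB hΘ hq hH g
      exact ⟨a ^ 2 * C v, mul_ne_zero (pow_ne_zero _ ha) (hC v), h v⟩
  · intro v x y z y₀ xs
    obtain ⟨m, hm, hmd, hS⟩ := exists_m B m₀ hm₀ ({y₀, x, y, z} ∪ Finset.univ.image xs)
    have hy₀ : (m : ℚ) • y₀ ∈ lat B := hS _ (by simp)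
    have hx : (m : ℚ) • x ∈ lat B := hS _ (by simp)
    have hy : (m : ℚ) • y ∈ lat B := hS _ (by simp)
    have hz : (m : ℚ) • z ∈ lat B := hS _ (by simp)
    have hxs : ∀ v, (m : ℚ) • xs v ∈ lat B := fun v => hS _ (by simp)
    let Yf : ((Co I J ⊕ Co I J → Fin m) ⊕ Bool) → (I → ℂ) → ℂ := fun k =>
      Sum.elim (fun u s => D.W Θ (pt B m u) s ^ 2)
        (fun b => if b = true then (fun s => D.Mi Θ v x y s / C v) else
          (fun s => D.W Θ z s ^ 2)) k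
    obtain ⟨P, hP0, hPa, hP⟩ := core h1 h2 h3 h4 h5 h7 h8 D B Θ q C hB hΘ hq hH m hm
      (hWn m hm hmd) y₀ xs hy₀ hxs
      ((Co I J ⊕ Co I J → Fin m) ⊕ Bool) Yf
      (by
        intro k
        rcases k with k | (_ | _)
        · exact ((h7 E I J D B Θ hΘ _).1).pow 2
        · exact ((h7 E I J D B Θ hΘ _).1).pow 2
        · show DifferentiableOn ℂ (fun s => D.Mi Θ v x y s / C v) D.Dom
          simp only [div_eq_mul_inv]
          refine DifferentiableOn.mul_const ?_ _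
          unfold FamData.Mi
          exact (((h7 E I J D B Θ hΘ x).2 _).mul ((h7 E I J D B Θ hΘ y).2 _)).sub
            (((h7 E I J D B Θ hΘ x).2 _).mul ((h7 E I J D B Θ hΘ y).2 _)))
      (by
        intro s hs
        obtain ⟨x, hx, hx'⟩ := hWn m hm hmd s hs
        obtain ⟨k, rfl⟩ := exists_pt B m x hx
        exact ⟨Sum.inl k, pow_ne_zero 2 hx'⟩)
      (by
        intro g hg s hs
        obtain ⟨a, ha, hxy⟩ := h2 E I J D B Θ hB hΘ m hm g hg s hs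
        refine ⟨a ^ 2, pow_ne_zero _ ha, fun k => ?_⟩
        rcases k with k | (_ | _)
        · show D.W Θ (pt B m k) (g.act s) ^ 2 = a ^ 2 * D.W Θ (pt B m k) s ^ 2
          have hk := Rm_lat B m hm _ (pt_mem B m k)
          rw [(hxy _ _ hk hk).1]; ring
        · show D.W Θ z (g.act s) ^ 2 = a ^ 2 * D.W Θ z s ^ 2
          rw [(hxy _ _ hz hz).1]; ring
        · show D.Mi Θ v x y (g.act s) / C v = a ^ 2 * (D.Mi Θ v x y s / C v)
          rw [(hxy _ _ hx hy).2.2 v]; ring)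
      (by
        intro g
        obtain ⟨a, ha, hW, hM⟩ := Mi_alg h5 h8 D B Θ q C hB hΘ hq hH g
        refine ⟨a ^ 2, pow_ne_zero _ ha, fun k => ?_⟩
        rcases k with k | (_ | _)
        · show Alg (D.W Θ (pt B m k) (g.act q) ^ 2 / a ^ 2)
          rw [← div_pow, pow_two]
          exact IsAlgebraic.mul (hW _) (hW _)
        · show Alg (D.W Θ z (g.act q) ^ 2 / a ^ 2)
          rw [← div_pow, pow_two]
          exact IsAlgebraic.mul (hW _) (hW _)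
        · show Alg (D.Mi Θ v x y (g.act q) / C v / a ^ 2)
          rw [div_div, mul_comm (C v)]
          exact hM v x y)
      (Sum.inr false) (Sum.inr true)
    refine ⟨P, hP0, hPa, fun s hs hw hne => ?_⟩
    have hz2 : D.W Θ z s ^ 2 ≠ 0 := fun h => hne (by
      show C v * D.W Θ z s ^ 2 = 0
      rw [h, mul_zero])
    have h := hP s hs hw hz2
    have e1 : D.Mi Θ v x y s / (C v * D.W Θ z s ^ 2) =
        D.Mi Θ v x y s / C v / D.W Θ z s ^ 2 := by rw [div_div]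
    have e2 : (fun o : Option I => o.elim (D.Mi Θ v x y s / (C v * D.W Θ z s ^ 2))
        (fun v => D.W Θ (xs v) s / D.W Θ y₀ s)) =
        fun o : Option I => o.elim (Yf (Sum.inr true) s / Yf (Sum.inr false) s)
          (fun v => D.W Θ (xs v) s / D.W Θ y₀ s) := by
      funext o
      cases o with
      | none => exact e1
      | some v => rfl
    show MvPolynomial.eval (fun o : Option I => o.elim (D.Mi Θ v x y s / (C v * D.W Θ z s ^ 2))
        (fun v => D.W Θ (xs v) s / D.W Θ y₀ s)) P = 0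
    rw [e2]
    exact h

end

end Pool.Agent.SPF
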