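import Pool.Agent.SPF.OutKit

set_option linter.unusedSectionVars false
set_option linter.unusedSimpArgs false

/-!
# ALGD: algebraic values at torsion points imply algebraic gradients
-/

open scoped BigOperators
open Complex

namespace Pool.Agent.SPF

noncomputable section

namespace ALGD_

variable {V : Type} [AddCommGroup V] [Module ℚ V] {ι : Type} [Fintype ι] [DecidableEq ι]
variable {e : V →ₗ[ℚ] V →ₗ[ℚ] ℚ} {B : Module.Basis (ι ⊕ ι) ℚ V} {ζ L : V →ₗ[ℚ] (ι → ℂ)}

theorem alg_exp (q : ℚ) : Alg (cexp (Real.pi * I * (q : ℚ))) := by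
  have h1 : cexp (Real.pi * I * (q : ℚ)) ^ (2 * q.den) = 1 := by
    rw [← Complex.exp_nat_mul, Complex.exp_eq_one_iff]
    refine ⟨q.num, ?_⟩
    have h2 : (q : ℂ) * q.den = q.num := by
      exact_mod_cast Rat.mul_den_eq_num q
    push_cast
    linear_combination (2 * Real.pi * I) * h2
  have h3 : 0 < 2 * q.den := by have := q.den_pos; omega
  refine IsAlgebraic.of_pow h3 ?_
  rw [h1]
  exact isAlgebraic_one

theorem alg_nat (n : ℕ) : Alg (n : ℂ) := by
  have := isAlgebraic_algebraMap (R := ℚ) (A := ℂ) (n : ℚ)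
  simpa using this

theorem alg_sum {α : Type} (t : Finset α) (f : α → ℂ) (h : ∀ y ∈ t, Alg (f y)) :
    Alg (∑ y ∈ t, f y) := by
  classical
  induction t using Finset.induction_on with
  | empty => simpa using isAlgebraic_zero
  | insert a s ha ih =>
    rw [Finset.sum_insert ha]
    exact (h a (Finset.mem_insert_self _ _)).add
      (ih fun y hy => h y (Finset.mem_insert_of_mem hy))

theorem pd_cmul {F : (ι → ℂ) → ℂ} {z : ι → ℂ} (i : ι) (a : ℂ) (hF : DifferentiableAt ℂ F z) :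
    pd i (fun z => a * F z) z = a * pd i F z := by
  unfold pd
  have h1 := (hF.hasFDerivAt.const_mul a).fderiv
  have h2 : fderiv ℂ (fun z => a * F z) z = a • fderiv ℂ F z := h1
  rw [h2]
  simp

theorem pd_pow {F : (ι → ℂ) → ℂ} {z : ι → ℂ} (i : ι) (n : ℕ) (hF : DifferentiableAt ℂ F z) :
    pd i (fun z => F z ^ n) z = n * F z ^ (n - 1) * pd i F z := by
  unfold pd
  have h1 := (hF.hasFDerivAt.pow n).fderiv
  have h2 : fderiv ℂ (fun z => F z ^ n) z = (n * F z ^ (n - 1)) • fderiv ℂ F z := by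
    rw [h1]
    simp [nsmul_eq_mul]
  rw [h2]
  simp

theorem pd_sum {κ : Type} (t : Finset κ) (F : κ → (ι → ℂ) → ℂ) {z : ι → ℂ} (i : ι)
    (hF : ∀ k ∈ t, DifferentiableAt ℂ (F k) z) :
    pd i (fun z => ∑ k ∈ t, F k z) z = ∑ k ∈ t, pd i (F k) z := by
  unfold pd
  rw [fderiv_fun_sum hF]
  simp

end ALGD_

open ALGD_

theorem algd_proof (hSPN : Stmt_SPN) (hLALG : Stmt_LALG) : Stmt_ALGD := by
  intro V _ _ ι _ _ e B ζ L hS h T hT hT0 κ c hA k w F hk hF hFA y i
  obtain ⟨hκ, hc, hx⟩ := hA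
  have hspan := hSPN V ι e B ζ L hS h T hT hT0 k w F hk hF
  -- values of the translates of the powers
  have hval : ∀ x y : V, Alg (TT ζ L y (TT ζ L x T) 0 / κ) := by
    intro x y
    rw [TT_TT h, mul_div_assoc]
    exact (alg_exp _).mul (hx _).1
  have hgrad : ∀ x y : V, ∀ i, Alg (pd i (TT ζ L y (TT ζ L x T)) 0 / (κ * c i)) := by
    intro x y i
    have h1 : TT ζ L y (TT ζ L x T) = fun z => cexp (Real.pi * I * (e y x : ℚ)) *
        TT ζ L (y + x) T z := by
      funext z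
      exact TT_TT h y x T z
    rw [h1, pd_cmul i _ (TT_differentiable _ hT.entire 0), mul_div_assoc]
    exact (alg_exp _).mul ((hx _).2 i)
  -- the algebraic combination
  have hspan2 : (fun y => TT ζ (⇑(k • L)) y F 0 / κ ^ k) ∈ Submodule.span ℂ
      (Set.range fun (x : {x : V // ∃ l ∈ lat B, (k : ℚ) • x = w + l}) (y : V) =>
        (TT ζ L y (TT ζ L x.1 T) 0 / κ) ^ k) := by
    refine Submodule.span_induction
      (p := fun (G : (ι → ℂ) → ℂ) _ => (fun y => TT ζ (⇑(k • L)) y G 0 / κ ^ k) ∈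
        Submodule.span ℂ (Set.range fun (x : {x : V // ∃ l ∈ lat B, (k : ℚ) • x = w + l})
          (y : V) => (TT ζ L y (TT ζ L x.1 T) 0 / κ) ^ k)) ?_ ?_ ?_ ?_ hspan
    · rintro G ⟨x, l, hl, hxl, rfl⟩
      refine Submodule.subset_span ⟨⟨x, l, hl, hxl⟩, ?_⟩
      funext y
      rw [TT_pow, ← div_pow]
    · have : (fun y : V => TT ζ (⇑(k • L)) y (0 : (ι → ℂ) → ℂ) 0 / κ ^ k) = 0 := by
        funext y
        simp [TT]
      rw [this]
      exact zero_mem _
    · intro G G' _ _ hG hG'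
      have : (fun y : V => TT ζ (⇑(k • L)) y (G + G') 0 / κ ^ k) =
          (fun y : V => TT ζ (⇑(k • L)) y G 0 / κ ^ k) +
          (fun y : V => TT ζ (⇑(k • L)) y G' 0 / κ ^ k) := by
        funext y
        simp only [TT, Pi.add_apply]
        ring
      rw [this]
      exact add_mem hG hG'
    · intro a G _ hG
      have : (fun y : V => TT ζ (⇑(k • L)) y (a • G) 0 / κ ^ k) =
          a • (fun y : V => TT ζ (⇑(k • L)) y G 0 / κ ^ k) := by
        funext y
        simp only [TT, Pi.smul_apply, smul_eq_mul]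
        ring
      rw [this]
      exact Submodule.smul_mem _ _ hG
  obtain ⟨a, ha, hg⟩ := hLALG V {x : V // ∃ l ∈ lat B, (k : ℚ) • x = w + l}
    (fun x y => (TT ζ L y (TT ζ L x.1 T) 0 / κ) ^ k)
    (fun y => TT ζ (⇑(k • L)) y F 0 / κ ^ k) (fun x y => (hval x.1 y).pow k) hFA hspan2
  have hdiff : ∀ x : V, Differentiable ℂ (fun z => TT ζ L x T z ^ k) := fun x =>
    (TT_differentiable x hT.entire).pow k
  have hFeq : F = fun z => ∑ x ∈ a.support, a x * TT ζ L x.1 T z ^ k := by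
    refine eq_of_torsion h k hF.entire.continuous ?_ ?_
    · refine continuous_finset_sum _ fun x _ => continuous_const.mul (hdiff x.1).continuous
    · intro y
      have h1 := hg y
      rw [div_eq_iff (pow_ne_zero _ hκ)] at h1
      rw [h1, Finsupp.sum, Finset.sum_mul]
      have h2 : TT ζ (⇑(k • L)) y (fun z => ∑ x ∈ a.support, a x * TT ζ L x.1 T z ^ k) 0 =
          ∑ x ∈ a.support, TT ζ (⇑(k • L)) y (fun z => a x * TT ζ L x.1 T z ^ k) 0 :=
        TT_sum (L := k • L) a.support y (fun x z => a x * TT ζ L x.1 T z ^ k) 0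
      rw [h2]
      refine Finset.sum_congr rfl fun x _ => ?_
      have h3 : TT ζ (⇑(k • L)) y (fun z => a x * TT ζ L x.1 T z ^ k) 0 =
          a x * TT ζ (⇑(k • L)) y (fun z => TT ζ L x.1 T z ^ k) 0 :=
        TT_smul (L := k • L) y (a x) (fun z => TT ζ L x.1 T z ^ k) 0
      rw [h3, TT_pow, div_pow]
      field_simp
  have hTF : TT ζ (⇑(k • L)) y F = fun z => ∑ x ∈ a.support,
      a x * TT ζ L y (TT ζ L x.1 T) z ^ k := by
    funext z
    rw [hFeq]
    have h2 : TT ζ (⇑(k • L)) y (fun z => ∑ x ∈ a.support, a x * TT ζ L x.1 T z ^ k) z =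
        ∑ x ∈ a.support, TT ζ (⇑(k • L)) y (fun z => a x * TT ζ L x.1 T z ^ k) z :=
      TT_sum (L := k • L) a.support y (fun x z => a x * TT ζ L x.1 T z ^ k) z
    rw [h2]
    refine Finset.sum_congr rfl fun x _ => ?_
    have h3 : TT ζ (⇑(k • L)) y (fun z => a x * TT ζ L x.1 T z ^ k) z =
        a x * TT ζ (⇑(k • L)) y (fun z => TT ζ L x.1 T z ^ k) z :=
      TT_smul (L := k • L) y (a x) (fun z => TT ζ L x.1 T z ^ k) z
    rw [h3, TT_pow]
  have hd2 : ∀ x : V, Differentiable ℂ (TT ζ L y (TT ζ L x T)) := fun x =>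
    TT_differentiable y (TT_differentiable x hT.entire)
  have hps : pd i (fun z => ∑ x ∈ a.support, a x * TT ζ L y (TT ζ L x.1 T) z ^ k) 0 =
      ∑ x ∈ a.support, pd i (fun z => a x * TT ζ L y (TT ζ L x.1 T) z ^ k) 0 :=
    pd_sum a.support (fun x z => a x * TT ζ L y (TT ζ L x.1 T) z ^ k) i
      fun x _ => (((hd2 x.1).pow k).const_mul (a x)) 0
  rw [hTF, hps, Finset.sum_div]
  refine alg_sum _ _ fun x _ => ?_
  have hp1 : pd i (fun z => a x * TT ζ L y (TT ζ L x.1 T) z ^ k) 0 =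
      a x * pd i (fun z => TT ζ L y (TT ζ L x.1 T) z ^ k) 0 :=
    pd_cmul i (a x) (((hd2 x.1).pow k) 0)
  rw [hp1, pd_pow i k ((hd2 x.1) 0)]
  have hk1 : κ ^ k = κ ^ (k - 1) * κ := by
    rw [← pow_succ, Nat.sub_add_cancel hk]
  have h5 : a x * (k * TT ζ L y (TT ζ L x.1 T) 0 ^ (k - 1) * pd i (TT ζ L y (TT ζ L x.1 T)) 0) /
      (κ ^ k * c i) = a x * (k * ((TT ζ L y (TT ζ L x.1 T) 0 / κ) ^ (k - 1) *
        (pd i (TT ζ L y (TT ζ L x.1 T)) 0 / (κ * c i)))) := by
    rw [hk1, div_pow]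
    have := hc i
    field_simp
  rw [h5]
  exact (ha x).mul ((alg_nat k).mul (((hval x.1 y).pow _).mul (hgrad x.1 y i)))

end

end Pool.Agent.SPF
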