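import Pool.Agent.SPF.StmtsE

set_option linter.unusedSectionVars false

/-!
# Module ALLT: all CM types of a CM field containing i and the square root of -3
-/

open scoped BigOperators
open Complex

namespace Pool.Agent.SPF

noncomputable section

namespace ALLT_

variable {E : Type} [Field E] [NumberField E]

theorem cj_cj (φ : E →+* ℂ) : cj (cj φ) = φ := by
  ext x
  simp [cj]

theorem cj_im (φ : E →+* ℂ) (x : E) : (cj φ x).im = -(φ x).im := by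
  simp [cj]

/-- the value of an embedding at a square root of a negative number -/
theorem re_im (φ : E →+* ℂ) (θ : E) (r : ℝ) (hr : 0 < r) (h : φ (θ ^ 2) = -(r : ℂ)) :
    (φ θ).re = 0 ∧ (φ θ).im ^ 2 = r := by
  rw [map_pow] at h
  have h1 := congrArg Complex.re h
  have h2 := congrArg Complex.im h
  simp only [pow_two, Complex.mul_re, Complex.mul_im, Complex.neg_re, Complex.neg_im,
    Complex.ofReal_re, Complex.ofReal_im, neg_zero] at h1 h2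
  have h3 : (φ θ).re = 0 := by
    have h4 : (φ θ).re * (φ θ).im = 0 := by linarith
    rcases mul_eq_zero.1 h4 with h5 | h5
    · exact h5
    · rw [h5] at h1
      nlinarith [sq_nonneg (φ θ).re]
  refine ⟨h3, ?_⟩
  rw [h3] at h1
  nlinarith

/-- an element whose square is 3 does not have the same value at all embeddings -/
theorem not_const (x : E) (hx : x ^ 2 = 3) (r : ℂ) : ∃ φ : E →+* ℂ, φ x ≠ r := by
  by_contra hcon
  push Not at hcon
  have h1 := trace_eq_sum_embeddings ℂ (K := ℚ) (L := E) (x := x)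
  have h2 : ∀ σ : E →ₐ[ℚ] ℂ, σ x = r := fun σ => hcon (σ : E →+* ℂ)
  rw [Finset.sum_congr rfl (fun σ _ => h2 σ), Finset.sum_const, nsmul_eq_mul] at h1
  obtain ⟨φ⟩ : Nonempty (E →+* ℂ) := inferInstance
  have h3 : r ^ 2 = 3 := by
    rw [← hcon φ, ← map_pow, hx, map_ofNat]
  have hcard : (Finset.univ : Finset (E →ₐ[ℚ] ℂ)).card ≠ 0 := by
    rw [Finset.card_univ, AlgHom.card]
    exact Module.finrank_pos.ne'
  have h4 : r = ((Algebra.trace ℚ E x / ((Finset.univ : Finset (E →ₐ[ℚ] ℂ)).card : ℚ) : ℚ) : ℂ) := by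
    rw [Rat.cast_div, Rat.cast_natCast, eq_div_iff (by exact_mod_cast hcard), mul_comm, ← h1]
    rfl
  generalize (Algebra.trace ℚ E x / ((Finset.univ : Finset (E →ₐ[ℚ] ℂ)).card : ℚ) : ℚ) = q at h4
  rw [h4] at h3
  have h5 : q ^ 2 = 3 := by exact_mod_cast h3
  have h6 : Irrational (Real.sqrt (3 : ℕ)) := Nat.Prime.irrational_sqrt (by norm_num)
  apply h6
  refine ⟨|q|, ?_⟩
  have h7 : ((|q| : ℚ) : ℝ) ^ 2 = ((3 : ℕ) : ℝ) := by
    rw [Rat.cast_abs, sq_abs]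
    exact_mod_cast h5
  rw [← h7, Real.sqrt_sq]
  rw [Rat.cast_abs]; exact abs_nonneg _

theorem signs (φ : E →+* ℂ) (θ : E) (h : θ ^ 2 = -1 ∨ θ ^ 2 = -3) :
    (φ θ).re = 0 ∧ (φ θ).im ≠ 0 := by
  rcases h with h | h
  · obtain ⟨a, b⟩ := re_im φ θ 1 one_pos (by rw [h]; simp)
    exact ⟨a, fun h0 => by rw [h0] at b; norm_num at b⟩
  · obtain ⟨a, b⟩ := re_im φ θ 3 (by norm_num) (by rw [h, map_neg, map_ofNat]; norm_num)
    exact ⟨a, fun h0 => by rw [h0] at b; norm_num at b⟩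

/-- there are embeddings of all signs -/
theorem exists_sign (θ₁ θ₂ : E) (h1 : θ₁ ^ 2 = -1) (h2 : θ₂ ^ 2 = -3) :
    ∃ φ : E →+* ℂ, 0 < (φ θ₁).im ∧ 0 < (φ θ₂).im := by
  by_contra hcon
  push Not at hcon
  have key : ∀ φ : E →+* ℂ, (φ θ₁).im * (φ θ₂).im < 0 := by
    intro φ
    have n1 := (signs φ θ₁ (Or.inl h1)).2
    have n2 := (signs φ θ₂ (Or.inr h2)).2
    rcases lt_or_gt_of_ne n1 with s1 | s1
    · have h3 := hcon (cj φ)
      rw [cj_im, cj_im] at h3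
      have h4 := h3 (by linarith)
      have h5 : 0 < (φ θ₂).im := lt_of_le_of_ne (by linarith) (Ne.symm n2)
      exact mul_neg_of_neg_of_pos s1 h5
    · have h4 := hcon φ s1
      have h5 : (φ θ₂).im < 0 := lt_of_le_of_ne h4 n2
      exact mul_neg_of_pos_of_neg s1 h5
  obtain ⟨φ, hφ⟩ := not_const (θ₁ * θ₂) (by rw [mul_pow, h1, h2]; norm_num)
    ((Real.sqrt 3 : ℝ) : ℂ)
  apply hφ
  obtain ⟨a1, b1⟩ := re_im φ θ₁ 1 one_pos (by rw [h1]; simp)
  obtain ⟨a2, b2⟩ := re_im φ θ₂ 3 (by norm_num) (by rw [h2, map_neg, map_ofNat]; norm_num)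
  have hk := key φ
  have h3 : Real.sqrt 3 = -((φ θ₁).im * (φ θ₂).im) := by
    rw [← Real.sqrt_sq (by linarith : 0 ≤ -((φ θ₁).im * (φ θ₂).im))]
    congr 1
    rw [neg_sq, mul_pow, b1, b2]; norm_num
  rw [map_mul]
  apply Complex.ext
  · rw [Complex.mul_re, a1, Complex.ofReal_re, h3]; ring
  · rw [Complex.mul_im, a1, a2, Complex.ofReal_im]; ring

open Classical in
theorem main (h1 : Stmt_STEPE) (h2 : Stmt_INF) (K : CMF E) (θ₁ θ₂ : E) (e1 : θ₁ ^ 2 = -1)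
    (e2 : θ₂ ^ 2 = -3) (h : E →+* ℂ) (s1 : 0 < (h θ₁).im) (s2 : 0 < (h θ₂).im)
    (Φ : Finset (E →+* ℂ)) (hΦ : IsType Φ) (hh : h ∈ Φ) :
    ∃ (ξ : E) (c : (E →+* ℂ) → ℂ), K.S ξ Φ c := by
  have n1 : ∀ φ : E →+* ℂ, (φ θ₁).im ≠ 0 := fun φ => (signs φ θ₁ (Or.inl e1)).2
  have n2 : ∀ φ : E →+* ℂ, (φ θ₂).im ≠ 0 := fun φ => (signs φ θ₂ (Or.inr e2)).2
  have base : ∀ θ : E, (θ ^ 2 = -1 ∨ θ ^ 2 = -3) → ∃ (Ψ : Finset (E →+* ℂ)) (ξ : E)
      (c : (E →+* ℂ) → ℂ), IsType Ψ ∧ K.S ξ Ψ c ∧ ∀ φ, φ ∈ Ψ ↔ 0 < (φ θ).im := by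
    intro θ hθ
    obtain ⟨ξ, c, hS⟩ := h2 E K θ hθ
    have hm : ∀ φ : E →+* ℂ, φ ∈ (Finset.univ.filter fun φ : E →+* ℂ => 0 < (φ θ).im) ↔
        0 < (φ θ).im := by
      intro φ; simp
    refine ⟨_, ξ, c, ?_, hS, hm⟩
    intro φ
    rw [hm, hm, cj_im]
    have := (signs φ θ hθ).2
    constructor
    · intro h; linarith
    · intro h
      exact lt_of_le_of_ne (by linarith) (Ne.symm this)
  -- the first type
  obtain ⟨Φi, ξi, ci, ti, Si, mi⟩ := base θ₁ (Or.inl e1)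
  obtain ⟨Φw, ξw, cw, tw, Sw, mw⟩ := base θ₂ (Or.inr e2)
  obtain ⟨Φv, ξv, cv, tv, Sv, mv⟩ := base (-θ₂) (Or.inr (by rw [neg_sq]; exact e2))
  have mv' : ∀ φ, φ ∈ Φv ↔ (φ θ₂).im < 0 := by
    intro φ; rw [mv, map_neg, Complex.neg_im]; constructor <;> intro hx <;> linarith
  -- Step A
  set Ψ : Finset (E →+* ℂ) := Finset.univ.filter fun φ : E →+* ℂ =>
    (0 < (φ θ₁).im ∧ (φ θ₂).im < 0) ∨ φ = h ∨ ((φ θ₁).im < 0 ∧ (φ θ₂).im < 0 ∧ φ ≠ cj h)
    with hΨ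
  have mΨ : ∀ φ, φ ∈ Ψ ↔ (0 < (φ θ₁).im ∧ (φ θ₂).im < 0) ∨ φ = h ∨
      ((φ θ₁).im < 0 ∧ (φ θ₂).im < 0 ∧ φ ≠ cj h) := by
    intro φ; rw [hΨ, Finset.mem_filter]; simp
  have tΨ : IsType Ψ := by
    intro φ
    rw [mΨ, mΨ, cj_im, cj_im]
    have hcc : (cj φ ≠ cj h) ↔ φ ≠ h := by
      constructor
      · intro hx hy; exact hx (by rw [hy])
      · intro hx hy; apply hx; rw [← cj_cj φ, hy, cj_cj]
    have hch : cj φ = h ↔ φ = cj h := by
      constructor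
      · intro hx; rw [← hx, cj_cj]
      · intro hx; rw [hx, cj_cj]
    rw [hcc, hch]
    have hs1 : ∀ ψ : E →+* ℂ, ψ = h → 0 < (ψ θ₁).im ∧ 0 < (ψ θ₂).im := by
      rintro ψ rfl; exact ⟨s1, s2⟩
    have hs2 : ∀ ψ : E →+* ℂ, ψ = cj h → (ψ θ₁).im < 0 ∧ (ψ θ₂).im < 0 := by
      rintro ψ rfl; rw [cj_im, cj_im]; constructor <;> linarith
    rcases lt_or_gt_of_ne (n1 φ) with p1 | p1 <;> rcases lt_or_gt_of_ne (n2 φ) with p2 | p2
    · -- (-,-)
      have q1 : φ ≠ h := fun hx => by have := (hs1 φ hx).1; linarith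
      constructor
      · rintro (⟨hx, -⟩ | hx | ⟨-, -, hx⟩)
        · linarith
        · exact absurd hx q1
        · rintro (⟨hy, hz⟩ | hy | ⟨hy, -, -⟩)
          · linarith
          · exact hx hy
          · linarith
      · intro hx
        refine Or.inr (Or.inr ⟨p1, p2, fun hy => hx (Or.inr (Or.inl hy))⟩)
    · -- (-,+)
      have q1 : φ ≠ h := fun hx => by have := (hs1 φ hx).1; linarith
      constructor
      · rintro (⟨hx, -⟩ | hx | ⟨-, hx, -⟩)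
        · linarith
        · exact absurd hx q1
        · linarith
      · intro hx
        exact absurd (Or.inl ⟨by linarith, by linarith⟩) hx
    · -- (+,-)
      have q1 : φ ≠ cj h := fun hx => by have := (hs2 φ hx).1; linarith
      constructor
      · intro _
        rintro (⟨hy, hz⟩ | hy | ⟨hy, hz, -⟩)
        · linarith
        · exact q1 hy
        · linarith
      · intro _
        exact Or.inl ⟨p1, p2⟩
    · -- (+,+)
      have q1 : φ ≠ cj h := fun hx => by have := (hs2 φ hx).1; linarith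
      constructor
      · rintro (⟨-, hx⟩ | hx | ⟨hx, -, -⟩)
        · linarith
        · rintro (⟨hy, hz⟩ | hy | ⟨hy, hz, hw⟩)
          · linarith
          · exact q1 hy
          · exact hw hx
        · linarith
      · intro hx
        right; left
        by_contra hy
        exact hx (Or.inr (Or.inr ⟨by linarith, by linarith, hy⟩))
  have hA : ∃ (ξ : E) (c : (E →+* ℂ) → ℂ), K.S ξ Ψ c := by
    obtain ⟨ψ, w1, w2⟩ := exists_sign θ₁ (-θ₂) e1 (by rw [neg_sq]; exact e2)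
    rw [map_neg, Complex.neg_im] at w2
    obtain ⟨ξ, ξ', c, c', hS, -⟩ := h1 E K Φi Φv Ψ ξi ξv ci cv ti tv tΨ
      ⟨ψ, Finset.mem_inter.2 ⟨(mi ψ).2 w1, (mv' ψ).2 (by linarith)⟩⟩
      (fun φ hφ => by
        rw [Finset.mem_inter, mi, mv'] at hφ
        exact (mΨ φ).2 (Or.inl hφ)) Si Sv
    exact ⟨ξ, c, hS⟩
  obtain ⟨ξA, cA, SA⟩ := hA
  -- Step B
  have hint : ∀ φ, φ ∈ Φw ∩ Ψ ↔ φ = h := by
    intro φ
    rw [Finset.mem_inter, mw, mΨ]
    constructor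
    · rintro ⟨hx, (⟨-, hy⟩ | hy | ⟨-, hy, -⟩)⟩
      · linarith
      · exact hy
      · linarith
    · rintro rfl
      exact ⟨s2, Or.inr (Or.inl rfl)⟩
  obtain ⟨ξ, ξ', c, c', hS, -⟩ := h1 E K Φw Ψ Φ ξw ξA cw cA tw tΨ hΦ
    ⟨h, (hint h).2 rfl⟩ (fun φ hφ => by rw [(hint φ).1 hφ]; exact hh) Sw SA
  exact ⟨ξ, c, hS⟩

end ALLT_

open ALLT_ in
theorem allt_proof (h1 : Stmt_STEPE) (h2 : Stmt_INF) : Stmt_ALLT := by
  intro E _ _ K hi hw Φ hΦ
  obtain ⟨θ₁, e1⟩ := hi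
  obtain ⟨θ₂, e2⟩ := hw
  obtain ⟨h, s1, s2⟩ := exists_sign θ₁ θ₂ e1 e2
  by_cases hh : h ∈ Φ
  · exact main h1 h2 K θ₁ θ₂ e1 e2 h s1 s2 Φ hΦ hh
  · have hh' : cj h ∈ Φ := by
      rw [hΦ (cj h), cj_cj]; exact hh
    refine main h1 h2 K (-θ₁) (-θ₂) (by rw [neg_sq]; exact e1) (by rw [neg_sq]; exact e2) (cj h)
      ?_ ?_ Φ hΦ hh'
    · rw [map_neg, Complex.neg_im, cj_im]; linarith
    · rw [map_neg, Complex.neg_im, cj_im]; linarith

end

end Pool.Agent.SPF
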