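import Pool.Agent.SPF.Stmts
import Pool.Agent.SPF.ADcore
import Pool.Agent.SPF.OsgoodL

/-!
# Algebraic dependence over the algebraic numbers
-/

set_option autoImplicit false

open scoped Topology

namespace Pool.Agent.SPF

namespace ARI_

/-- The field of algebraic numbers. -/
noncomputable abbrev Qb : IntermediateField ℚ ℂ := algebraicClosure ℚ ℂ

theorem mem_Qb {x : ℂ} : x ∈ Qb ↔ Alg x := mem_algebraicClosure_iff

theorem eval_map_eq {m : Type} (x : m → ℂ) (F : MvPolynomial m Qb) :
    MvPolynomial.eval x (MvPolynomial.map (algebraMap Qb ℂ) F) = MvPolynomial.aeval x F := by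
  rw [MvPolynomial.eval_map, MvPolynomial.aeval_def]

theorem aeval_scale {m k : ℕ} {F : MvPolynomial (Fin m) Qb} (hF : F.IsHomogeneous k) (c : ℂ)
    (x : Fin m → ℂ) :
    MvPolynomial.aeval (fun i => c * x i) F = c ^ k * MvPolynomial.aeval x F := by
  rw [← eval_map_eq, ← eval_map_eq]
  exact ADX.eval_scale (hF.map _) c x

/-- Descent of a relation to the algebraic numbers. -/
theorem descend {m : ℕ} {E : Type} [TopologicalSpace E] {Dom A : Set E} (hA : A ⊆ Dom)
    (hD : Dom ⊆ closure A) (Q : Fin m → E → ℂ) (hQ : ∀ i, ContinuousOn (Q i) Dom)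
    (halg : ∀ s ∈ A, ∃ a : ℂ, a ≠ 0 ∧ ∀ i, Alg (Q i s / a))
    {k : ℕ} {F : MvPolynomial (Fin m) ℂ} (hF0 : F ≠ 0) (hF : F.IsHomogeneous k)
    (h0 : ∀ s ∈ Dom, MvPolynomial.eval (fun i => Q i s) F = 0) :
    ∃ F' : MvPolynomial (Fin m) Qb, F' ≠ 0 ∧ F'.IsHomogeneous k ∧
      ∀ s ∈ Dom, MvPolynomial.aeval (fun i => Q i s) F' = 0 := by
  classical
  obtain ⟨e₀, he₀⟩ := MvPolynomial.ne_zero_iff.mp hF0
  obtain ⟨ℓ, hℓ⟩ : ∃ ℓ : Module.Dual Qb ℂ, ℓ (F.coeff e₀) ≠ 0 := by
    by_contra hcon
    push Not at hcon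
    exact he₀ ((Module.forall_dual_apply_eq_zero_iff Qb (F.coeff e₀)).mp hcon)
  set F' : MvPolynomial (Fin m) Qb :=
    ∑ e ∈ F.support, MvPolynomial.monomial e (ℓ (F.coeff e)) with hF'
  have hcoef : F'.coeff e₀ = ℓ (F.coeff e₀) := by
    rw [hF', MvPolynomial.coeff_sum, Finset.sum_eq_single e₀]
    · rw [MvPolynomial.coeff_monomial, if_pos rfl]
    · intro β _ hβ
      rw [MvPolynomial.coeff_monomial, if_neg hβ]
    · intro h
      exact absurd (MvPolynomial.mem_support_iff.mpr he₀) h
  refine ⟨F', ?_, ?_, ?_⟩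
  · intro h
    rw [h, MvPolynomial.coeff_zero] at hcoef
    exact hℓ hcoef.symm
  · apply MvPolynomial.IsHomogeneous.sum
    intro e he
    apply MvPolynomial.isHomogeneous_monomial
    have := hF (MvPolynomial.mem_support_iff.mp he)
    rwa [Finsupp.degree_eq_weight_one]
  · have hhom : F'.IsHomogeneous k := by
      apply MvPolynomial.IsHomogeneous.sum
      intro e he
      apply MvPolynomial.isHomogeneous_monomial
      have := hF (MvPolynomial.mem_support_iff.mp he)
      rwa [Finsupp.degree_eq_weight_one]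
    have key : ∀ s ∈ A, MvPolynomial.aeval (fun i => Q i s) F' = 0 := by
      intro s hs
      obtain ⟨a, ha, hal⟩ := halg s hs
      let q : Fin m → Qb := fun i => ⟨Q i s / a, mem_Qb.mpr (hal i)⟩
      have hq : ∀ i, Q i s = a * (q i : ℂ) := fun i => by
        simp only [q]
        field_simp
      have h1 : (fun i => Q i s) = fun i => a * (q i : ℂ) := funext hq
      have h2 := h0 s (hA hs)
      rw [h1, ADX.eval_scale hF] at h2
      have h3 : MvPolynomial.eval (fun i => (q i : ℂ)) F = 0 :=
        (mul_eq_zero.mp h2).resolve_left (pow_ne_zero _ ha)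
      rw [h1, aeval_scale hhom]
      have h4 : MvPolynomial.aeval (fun i => (q i : ℂ)) F' =
          ((ℓ (MvPolynomial.eval (fun i => (q i : ℂ)) F) : Qb) : ℂ) := by
        rw [MvPolynomial.eval_eq', hF', map_sum, map_sum, AddSubmonoidClass.coe_finsetSum]
        refine Finset.sum_congr rfl fun e _ => ?_
        rw [MvPolynomial.aeval_monomial, Finsupp.prod_fintype _ _ (by simp)]
        have h5 : F.coeff e * ∏ i, (q i : ℂ) ^ e i = (∏ i, q i ^ e i : Qb) • F.coeff e := by
          rw [Algebra.smul_def, mul_comm]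
          congr 1
          simp
        rw [h5, map_smul, smul_eq_mul, MulMemClass.coe_mul, mul_comm]
        congr 1
        simp
      rw [h4, h3, map_zero]
      simp
    have hcont : ContinuousOn (fun s => MvPolynomial.aeval (fun i => Q i s) F') Dom := by
      have h1 : Continuous (fun x : Fin m → ℂ => MvPolynomial.aeval x F') := by
        have h2 : (fun x : Fin m → ℂ => MvPolynomial.aeval x F') = fun x =>
            MvPolynomial.eval x (MvPolynomial.map (algebraMap Qb ℂ) F') :=
          funext fun x => (eval_map_eq x F').symm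
        rw [h2]
        exact MvPolynomial.continuous_eval _
      exact h1.comp_continuousOn (continuousOn_pi.mpr hQ)
    exact Set.EqOn.of_subset_closure (g := fun _ => (0 : ℂ)) key hcont continuousOn_const hA hD

/-- Dehomogenisation. -/
noncomputable def dehom {m : ℕ} {r : Type} (e : Fin m ≃ Option (Option r))
    (F : MvPolynomial (Fin m) Qb) : MvPolynomial (Option r) Qb :=
  MvPolynomial.aeval (fun j => (e j).elim 1 MvPolynomial.X) F

theorem aeval_dehom {m : ℕ} {r : Type} (e : Fin m ≃ Option (Option r))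
    (F : MvPolynomial (Fin m) Qb) {B : Type} [CommRing B] [Algebra Qb B] (x : Option r → B) :
    MvPolynomial.aeval x (dehom e F) = MvPolynomial.aeval (fun j => (e j).elim 1 x) F := by
  have h1 : ((MvPolynomial.aeval x).comp (MvPolynomial.aeval
      (fun j => (e j).elim (1 : MvPolynomial (Option r) Qb) MvPolynomial.X))) =
      MvPolynomial.aeval (fun j => (e j).elim 1 x) := by
    apply MvPolynomial.algHom_ext
    intro j
    rw [AlgHom.comp_apply, MvPolynomial.aeval_X, MvPolynomial.aeval_X]
    rcases e j with _ | o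
    · simp
    · simp
  rw [dehom, ← h1]
  rfl

theorem dehom_ne_zero {m k : ℕ} {r : Type} (e : Fin m ≃ Option (Option r))
    {F : MvPolynomial (Fin m) Qb} (hF : F.IsHomogeneous k) (h0 : F ≠ 0) : dehom e F ≠ 0 := by
  intro h
  apply h0
  have h1 : MvPolynomial.map (algebraMap Qb ℂ) F * MvPolynomial.X (e.symm none) = 0 := by
    apply MvPolynomial.funext
    intro x
    rw [map_mul, map_zero, MvPolynomial.eval_X, eval_map_eq]
    by_cases hx : x (e.symm none) = 0
    · rw [hx, mul_zero]
    · have h2 := aeval_dehom e F (fun o => x (e.symm (some o)) / x (e.symm none))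
      rw [h, map_zero] at h2
      have h3 : x = fun j => x (e.symm none) *
          (e j).elim 1 (fun o => x (e.symm (some o)) / x (e.symm none)) := by
        funext j
        rcases hj : e j with _ | o
        · have h4 : e.symm none = j := by rw [← hj, e.symm_apply_apply]
          rw [h4]
          simp [hj]
        · simp only [Option.elim_some]
          rw [← hj, e.symm_apply_apply]
          field_simp
      rw [h3, aeval_scale hF, ← h2]
      simp
  have h2 : MvPolynomial.map (algebraMap Qb ℂ) F = 0 :=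
    (mul_eq_zero.mp h1).resolve_right (MvPolynomial.X_ne_zero _)
  have h3 := MvPolynomial.map_injective (σ := Fin m) (algebraMap Qb ℂ) (algebraMap Qb ℂ).injective
  exact h3 (by rw [h2, map_zero])

end ARI_

open ARI_ in
theorem ari_proof : Stmt_ARI := by
  intro r κ₁ κ₂ _ _ _ _ Dom K A Wf Yf hDom hK hKD hAD hDA hWd hYd hW0 hY0 hred halg k₀ ks l₀ l₁
  classical
  have hWa : ∀ k, AnalyticOnNhd ℂ (Wf k) Dom := fun k =>
    analyticOnNhd_of_differentiableOn hDom (hWd k)
  have hYa : ∀ l, AnalyticOnNhd ℂ (Yf l) Dom := fun l =>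
    analyticOnNhd_of_differentiableOn hDom (hYd l)
  have hcard : Fintype.card (Fin (Module.finrank ℂ (r → ℂ) + 2)) =
      Fintype.card (Option (Option r)) := by
    rw [Fintype.card_fin, Fintype.card_option, Fintype.card_option,
      Module.finrank_fintype_fun_eq_card]
  let e : Fin (Module.finrank ℂ (r → ℂ) + 2) ≃ Option (Option r) := Fintype.equivOfCardEq hcard
  let g : Option (Option r) → κ₁ × κ₂ := fun o =>
    o.elim (k₀, l₀) fun o' => o'.elim (k₀, l₁) fun i => (ks i, l₀)
  let P : κ₁ × κ₂ → (r → ℂ) → ℂ := fun kl s => Wf kl.1 s * Yf kl.2 s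
  obtain ⟨k, F, hF0, hFh, hF⟩ := ADX.dependence hDom hK hKD P
    (fun i => (hWa i.1).mul (hYa i.2))
    (fun s hs => by
      obtain ⟨k, hk⟩ := hW0 s hs
      obtain ⟨l, hl⟩ := hY0 s hs
      exact ⟨(k, l), mul_ne_zero hk hl⟩)
    (fun s hs => by
      obtain ⟨s', hs', ⟨a, ha, haW⟩, b, hb, hbY⟩ := hred s hs
      refine ⟨s', hs', (a * b)⁻¹, fun i => ?_⟩
      simp only [P]
      rw [haW, hbY]
      field_simp)
    (fun j => g (e j))
  obtain ⟨F', hF'0, hF'h, hF'⟩ := descend hAD hDA (fun j s => P (g (e j)) s)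
    (fun j => ((hWa _).continuousOn).mul ((hYa _).continuousOn))
    (fun s hs => by
      obtain ⟨⟨a, ha, haW⟩, b, hb, hbY⟩ := halg s hs
      refine ⟨a * b, mul_ne_zero ha hb, fun j => ?_⟩
      have h1 : P (g (e j)) s / (a * b) = (Wf (g (e j)).1 s / a) * (Yf (g (e j)).2 s / b) := by
        simp only [P]
        field_simp
      rw [h1]
      exact (haW _).mul (hbY _)) hF0 hFh hF
  refine ⟨MvPolynomial.map (algebraMap Qb ℂ) (dehom e F'), ?_, ?_, ?_⟩
  · intro h
    have h3 := MvPolynomial.map_injective (σ := Option r) (algebraMap Qb ℂ)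
      (algebraMap Qb ℂ).injective
    exact dehom_ne_zero e hF'h hF'0 (h3 (by rw [h, map_zero]))
  · intro m
    rw [MvPolynomial.coeff_map]
    exact mem_Qb.mp ((dehom e F').coeff m).2
  · intro s hs hk hl
    rw [eval_map_eq, aeval_dehom]
    have h1 := hF' s hs
    have h2 : (fun j => P (g (e j)) s) = fun j => (Wf k₀ s * Yf l₀ s) *
        (e j).elim 1 (fun o : Option r => o.elim (Yf l₁ s / Yf l₀ s)
          (fun i => Wf (ks i) s / Wf k₀ s)) := by
      funext j
      rcases e j with _ | _ | i
      · simp [P, g]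
      · simp only [P, g, Option.elim_some, Option.elim_none]
        field_simp
      · simp only [P, g, Option.elim_some]
        field_simp
    rw [h2, aeval_scale hF'h] at h1
    exact (mul_eq_zero.mp h1).resolve_left (pow_ne_zero _ (mul_ne_zero hk hl))

end Pool.Agent.SPF
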