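import Pool.Agent.SPF.Kit

set_option linter.unusedSectionVars false
set_option linter.unusedSimpArgs false

/-!
# AVG: averaging formula for theta functions of unimodular lattices
-/

open scoped BigOperators
open Complex

namespace Pool.Agent.SPF

noncomputable section

namespace AVG_

/-! ### the roots of unity `exp (π i q)` -/

/-- `exp (π i q)` -/
def E1 (q : ℚ) : ℂ := cexp (Real.pi * I * (q : ℚ))

theorem E1_add (a b : ℚ) : E1 (a + b) = E1 a * E1 b := by
  unfold E1
  push_cast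
  rw [← Complex.exp_add]
  congr 1
  ring

theorem E1_zero : E1 0 = 1 := by simp [E1]

theorem E1_ne (q : ℚ) : E1 q ≠ 0 := Complex.exp_ne_zero _

theorem E1_neg (a : ℚ) : E1 (-a) = (E1 a)⁻¹ := by
  unfold E1
  push_cast
  rw [← Complex.exp_neg]
  congr 1
  ring

theorem E1_mul_neg (a : ℚ) : E1 a * E1 (-a) = 1 := by
  rw [← E1_add, add_neg_cancel, E1_zero]

theorem E1_two_int (n : ℤ) : E1 (2 * n) = 1 := by
  unfold E1
  rw [Complex.exp_eq_one_iff]
  refine ⟨n, ?_⟩
  push_cast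
  ring

theorem E1_two_eq_one {q : ℚ} (h : E1 (2 * q) = 1) : ∃ n : ℤ, q = n := by
  unfold E1 at h
  rw [Complex.exp_eq_one_iff] at h
  obtain ⟨n, hn⟩ := h
  refine ⟨n, ?_⟩
  have hpi : (2 * Real.pi * I : ℂ) ≠ 0 := Complex.two_pi_I_ne_zero
  have h1 : (2 * Real.pi * I : ℂ) * (q : ℂ) = (2 * Real.pi * I) * (n : ℂ) := by
    rw [show (2 * Real.pi * I : ℂ) * (n : ℂ) = n * (2 * Real.pi * I) by ring, ← hn]
    push_cast
    ring
  have h2 : (q : ℂ) = (n : ℂ) := mul_left_cancel₀ hpi h1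
  exact_mod_cast h2

theorem E1_int_sq (n : ℤ) : E1 n * E1 n = 1 := by
  rw [← E1_add, ← two_mul]
  exact E1_two_int n

theorem E1_int_neg (n : ℤ) : E1 (-(n : ℚ)) = E1 n := by
  rw [E1_neg]
  exact inv_eq_of_mul_eq_one_left (E1_int_sq n)

theorem E1_nat_mul (n : ℕ) (q : ℚ) : E1 (n * q) = E1 q ^ n := by
  unfold E1
  rw [← Complex.exp_nat_mul]
  congr 1
  push_cast
  ring

theorem E1_alg (q : ℚ) : Alg (E1 q) := by
  have h : E1 q ^ (2 * q.den) = 1 := by
    rw [← E1_nat_mul]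
    have h1 : ((2 * q.den : ℕ) : ℚ) * q = 2 * (q.num : ℤ) := by
      push_cast
      rw [mul_assoc, Rat.den_mul_eq_num]
    rw [h1]
    exact E1_two_int _
  refine IsAlgebraic.of_pow (n := 2 * q.den) (by have := q.den_pos; omega) ?_
  rw [h]
  exact isAlgebraic_one

theorem E1_sum {κ : Type} (s : Finset κ) (f : κ → ℚ) : E1 (∑ i ∈ s, f i) = ∏ i ∈ s, E1 (f i) := by
  classical
  induction s using Finset.induction_on with
  | empty => simp [E1_zero]
  | insert a s ha ih => rw [Finset.sum_insert ha, Finset.prod_insert ha, E1_add, ih]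

section

variable {V : Type} [AddCommGroup V] [Module ℚ V] {ι : Type} [Fintype ι] [DecidableEq ι]
variable {e : V →ₗ[ℚ] V →ₗ[ℚ] ℚ}

/-! ### coordinates -/

/-- integral coordinates -/
def IsInt (B : Module.Basis (ι ⊕ ι) ℚ V) (x : V) : Prop := ∀ j, ∃ m : ℤ, B.repr x j = m

/-- the semicharacter -/
def chi (B : Module.Basis (ι ⊕ ι) ℚ V) (x : V) : ℂ :=
  E1 (-(∑ i, B.repr x (Sum.inl i) * B.repr x (Sum.inr i)))

theorem isInt_zero (B : Module.Basis (ι ⊕ ι) ℚ V) : IsInt B 0 := fun j => ⟨0, by simp⟩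

theorem isInt_add {B : Module.Basis (ι ⊕ ι) ℚ V} {x y : V} (hx : IsInt B x) (hy : IsInt B y) :
    IsInt B (x + y) := by
  intro j
  obtain ⟨m, hm⟩ := hx j
  obtain ⟨n, hn⟩ := hy j
  exact ⟨m + n, by rw [map_add, Finsupp.add_apply, hm, hn]; push_cast; ring⟩

theorem isInt_neg {B : Module.Basis (ι ⊕ ι) ℚ V} {x : V} (hx : IsInt B x) : IsInt B (-x) := by
  intro j
  obtain ⟨m, hm⟩ := hx j
  exact ⟨-m, by rw [map_neg, Finsupp.neg_apply, hm]; push_cast; ring⟩

theorem isInt_nsmul {B : Module.Basis (ι ⊕ ι) ℚ V} {x : V} (hx : IsInt B x) (n : ℕ) :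
    IsInt B ((n : ℚ) • x) := by
  intro j
  obtain ⟨m, hm⟩ := hx j
  exact ⟨n * m, by rw [map_smul, Finsupp.smul_apply, hm, smul_eq_mul]; push_cast; ring⟩

theorem isInt_basis (B : Module.Basis (ι ⊕ ι) ℚ V) (k : ι ⊕ ι) : IsInt B (B k) := by
  intro j
  by_cases h : k = j
  · exact ⟨1, by rw [Module.Basis.repr_self, h, Finsupp.single_eq_same]; simp⟩
  · exact ⟨0, by rw [Module.Basis.repr_self, Finsupp.single_eq_of_ne (Ne.symm h)]; simp⟩

theorem e_skew {B : Module.Basis (ι ⊕ ι) ℚ V} (hB : SympBasis e B) (x y : V) : e x y = -(e y x) := by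
  have h := hB.alt (x + y)
  simp only [map_add, LinearMap.add_apply, hB.alt x, hB.alt y] at h
  linarith

theorem e_inl {B : Module.Basis (ι ⊕ ι) ℚ V} (hB : SympBasis e B) (i : ι) (x : V) :
    e (B (Sum.inl i)) x = B.repr x (Sum.inr i) := by
  conv_lhs => rw [← B.sum_repr x]
  rw [map_sum, Fintype.sum_sum_type]
  simp only [map_smul, hB.ll, hB.lr, smul_eq_mul, mul_zero, Finset.sum_const_zero, zero_add]
  simp

theorem e_inr {B : Module.Basis (ι ⊕ ι) ℚ V} (hB : SympBasis e B) (i : ι) (x : V) :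
    e (B (Sum.inr i)) x = -(B.repr x (Sum.inl i)) := by
  conv_lhs => rw [← B.sum_repr x]
  rw [map_sum, Fintype.sum_sum_type]
  have h1 : ∀ j, e (B (Sum.inr i)) (B (Sum.inl j)) = -(if j = i then 1 else 0) := by
    intro j
    rw [e_skew hB, hB.lr]
  simp only [map_smul, hB.rr, h1, smul_eq_mul, mul_zero, Finset.sum_const_zero, add_zero]
  simp

theorem e_coord {B : Module.Basis (ι ⊕ ι) ℚ V} (hB : SympBasis e B) (x y : V) :
    e x y = ∑ i, (B.repr x (Sum.inl i) * B.repr y (Sum.inr i) -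
      B.repr x (Sum.inr i) * B.repr y (Sum.inl i)) := by
  conv_lhs => rw [← B.sum_repr x]
  rw [map_sum, LinearMap.sum_apply, Fintype.sum_sum_type, ← Finset.sum_add_distrib]
  refine Finset.sum_congr rfl fun i _ => ?_
  rw [map_smul, map_smul, LinearMap.smul_apply, LinearMap.smul_apply, e_inl hB, e_inr hB, smul_eq_mul,
    smul_eq_mul]
  ring

theorem e_int {B : Module.Basis (ι ⊕ ι) ℚ V} (hB : SympBasis e B) {x y : V} (hx : IsInt B x)
    (hy : IsInt B y) : ∃ n : ℤ, e x y = n := by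
  choose f hf using hx
  choose g hg using hy
  refine ⟨∑ i, (f (Sum.inl i) * g (Sum.inr i) - f (Sum.inr i) * g (Sum.inl i)), ?_⟩
  rw [e_coord hB]
  push_cast
  refine Finset.sum_congr rfl fun i _ => ?_
  rw [hf, hf, hg, hg]

theorem isInt_of_e {B : Module.Basis (ι ⊕ ι) ℚ V} (hB : SympBasis e B) {x : V}
    (h : ∀ j, ∃ n : ℤ, e (B j) x = n) : IsInt B x := by
  intro j
  rcases j with i | i
  · obtain ⟨n, hn⟩ := h (Sum.inr i)
    rw [e_inr hB] at hn
    exact ⟨-n, by push_cast; linarith⟩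
  · obtain ⟨n, hn⟩ := h (Sum.inl i)
    rw [e_inl hB] at hn
    exact ⟨n, hn⟩

theorem chi_zero (B : Module.Basis (ι ⊕ ι) ℚ V) : chi B 0 = 1 := by
  unfold chi
  simp [E1_zero]

theorem chi_int {B : Module.Basis (ι ⊕ ι) ℚ V} {x : V} (hx : IsInt B x) :
    ∃ n : ℤ, chi B x = E1 n := by
  choose f hf using hx
  refine ⟨-(∑ i, f (Sum.inl i) * f (Sum.inr i)), ?_⟩
  unfold chi
  congr 1
  push_cast
  congr 1
  refine Finset.sum_congr rfl fun i _ => ?_
  rw [hf, hf]

theorem chi_sq {B : Module.Basis (ι ⊕ ι) ℚ V} {x : V} (hx : IsInt B x) : chi B x * chi B x = 1 := by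
  obtain ⟨n, hn⟩ := chi_int hx
  rw [hn]
  exact E1_int_sq n

theorem chi_ne (B : Module.Basis (ι ⊕ ι) ℚ V) (x : V) : chi B x ≠ 0 := E1_ne _

theorem chi_add {B : Module.Basis (ι ⊕ ι) ℚ V} (hB : SympBasis e B) {x y : V} (hx : IsInt B x)
    (hy : IsInt B y) : chi B (x + y) = chi B x * chi B y * E1 (-(e x y)) := by
  have hx' := hx
  have hy' := hy
  choose f hf using hx
  choose g hg using hy
  unfold chi
  rw [← E1_add, ← E1_add, e_coord hB]
  have h1 : -(∑ i, B.repr (x + y) (Sum.inl i) * B.repr (x + y) (Sum.inr i)) =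
      (-(∑ i, B.repr x (Sum.inl i) * B.repr x (Sum.inr i)) +
        -(∑ i, B.repr y (Sum.inl i) * B.repr y (Sum.inr i)) +
        -(∑ i, (B.repr x (Sum.inl i) * B.repr y (Sum.inr i) -
          B.repr x (Sum.inr i) * B.repr y (Sum.inl i)))) +
        2 * ((-(∑ i, f (Sum.inr i) * g (Sum.inl i)) : ℤ) : ℚ) := by
    push_cast
    simp only [map_add, Finsupp.add_apply]
    rw [← Finset.sum_neg_distrib, ← Finset.sum_neg_distrib, ← Finset.sum_neg_distrib,
      ← Finset.sum_neg_distrib, ← Finset.sum_neg_distrib, Finset.mul_sum, ← Finset.sum_add_distrib,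
      ← Finset.sum_add_distrib, ← Finset.sum_add_distrib]
    refine Finset.sum_congr rfl fun i _ => ?_
    rw [← hf, ← hg]
    ring
  rw [h1, E1_add _ (2 * _), E1_two_int, mul_one]

theorem chi_neg (B : Module.Basis (ι ⊕ ι) ℚ V) (x : V) : chi B (-x) = chi B x := by
  unfold chi
  congr 2
  refine Finset.sum_congr rfl fun i _ => ?_
  rw [map_neg, Finsupp.neg_apply, Finsupp.neg_apply]
  ring

theorem chi_basis (B : Module.Basis (ι ⊕ ι) ℚ V) (k : ι ⊕ ι) : chi B (B k) = 1 := by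
  unfold chi
  have : ∀ i, B.repr (B k) (Sum.inl i) * B.repr (B k) (Sum.inr i) = 0 := by
    intro i
    rw [Module.Basis.repr_self]
    rcases k with k | k
    · rw [Finsupp.single_eq_of_ne (a' := Sum.inr i) (by simp), mul_zero]
    · rw [Finsupp.single_eq_of_ne (a' := Sum.inl i) (by simp), zero_mul]
  simp only [this, Finset.sum_const_zero, neg_zero]
  exact E1_zero

/-! ### existence of the shift -/

theorem exists_functional {B B' : Module.Basis (ι ⊕ ι) ℚ V} (hB : SympBasis e B)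
    (hB' : SympBasis e B') : ∃ φ : V →ₗ[ℚ] ℚ, ∀ l, IsInt B l → IsInt B' l →
      E1 (2 * φ l) * chi B l = chi B' l := by
  -- the lattice
  let Λ : Submodule ℤ V :=
    { carrier := {x | IsInt B x ∧ IsInt B' x}
      add_mem' := fun ha hb => ⟨isInt_add ha.1 hb.1, isInt_add ha.2 hb.2⟩
      zero_mem' := ⟨isInt_zero B, isInt_zero B'⟩
      smul_mem' := by
        intro c x hx
        constructor
        · intro j
          obtain ⟨m, hm⟩ := hx.1 j
          exact ⟨c * m, by rw [map_zsmul, Finsupp.smul_apply, hm, zsmul_eq_mul]; push_cast; ring⟩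
        · intro j
          obtain ⟨m, hm⟩ := hx.2 j
          exact ⟨c * m, by rw [map_zsmul, Finsupp.smul_apply, hm, zsmul_eq_mul]; push_cast; ring⟩ }
  have hmem : ∀ x : Λ, IsInt B (x : V) ∧ IsInt B' (x : V) := fun x => x.2
  -- integral coordinates
  have hco : ∀ x : Λ, ∃ f : (ι ⊕ ι) → ℤ, ∀ j, B.repr (x : V) j = f j := by
    intro x
    choose f hf using (hmem x).1
    exact ⟨f, hf⟩
  choose c hc using hco
  let cl : Λ →ₗ[ℤ] ((ι ⊕ ι) → ℤ) :=
    { toFun := c
      map_add' := by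
        intro x y
        funext j
        have h1 := hc (x + y) j
        have h2 := hc x j
        have h3 := hc y j
        rw [Submodule.coe_add, map_add, Finsupp.add_apply, h2, h3] at h1
        have : ((c x j + c y j : ℤ) : ℚ) = (c (x + y) j : ℤ) := by push_cast; exact h1
        exact_mod_cast this.symm
      map_smul' := by
        intro n x
        funext j
        have h1 := hc (n • x) j
        have h2 := hc x j
        rw [Submodule.coe_smul, map_zsmul, Finsupp.smul_apply, h2, zsmul_eq_mul] at h1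
        have : ((n * c x j : ℤ) : ℚ) = (c (n • x) j : ℤ) := by push_cast; exact h1
        have h3 : n * c x j = c (n • x) j := by exact_mod_cast this
        simp only [RingHom.id_apply, Pi.smul_apply, smul_eq_mul]
        exact h3.symm }
  have hinj : Function.Injective cl := by
    intro x y hxy
    apply Subtype.ext
    apply B.repr.injective
    ext j
    rw [hc x j, hc y j]
    have : c x j = c y j := congrFun hxy j
    rw [this]
  have : Module.Finite ℤ Λ := Module.Finite.of_injective cl hinj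
  have : Module.IsTorsionFree ℤ Λ := Function.Injective.moduleIsTorsionFree cl hinj (fun c x => map_smul cl c x)
  have : Module.Free ℤ Λ := Module.free_of_finite_type_torsion_free'
  let b := Module.Free.chooseBasis ℤ Λ
  have hli : LinearIndependent ℤ (fun k => ((b k : Λ) : V)) :=
    b.linearIndependent.map' Λ.subtype (Submodule.ker_subtype Λ)
  have hliQ : LinearIndependent ℚ (fun k => ((b k : Λ) : V)) :=
    (LinearIndependent.iff_fractionRing ℤ ℚ).1 hli
  -- the functional on the span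
  let ψ : V → ℂ := fun x => chi B x * chi B' x
  have hψ : ∀ x : Λ, ψ x = 1 ∨ ψ x = -1 := by
    intro x
    have h1 : ψ x * ψ x = 1 := by
      show chi B (x : V) * chi B' (x : V) * (chi B (x : V) * chi B' (x : V)) = 1
      have h2 := chi_sq (hmem x).1
      have h3 := chi_sq (hmem x).2
      calc chi B (x : V) * chi B' (x : V) * (chi B (x : V) * chi B' (x : V)) =
          (chi B (x : V) * chi B (x : V)) * (chi B' (x : V) * chi B' (x : V)) := by ring
        _ = 1 := by rw [h2, h3, one_mul]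
    exact mul_self_eq_one_iff.1 h1
  let val : Module.Free.ChooseBasisIndex ℤ Λ → ℚ := fun k => if ψ (b k : V) = 1 then 0 else 1 / 2
  let φ0 : Submodule.span ℚ (Set.range fun k => ((b k : Λ) : V)) →ₗ[ℚ] ℚ :=
    (Module.Basis.span hliQ).constr ℚ val
  obtain ⟨φ, hφ⟩ := LinearMap.exists_extend φ0
  have hval : ∀ k, φ (b k : V) = val k := by
    intro k
    have h1 : φ (b k : V) = φ0 (Module.Basis.span hliQ k) := by
      rw [← hφ]
      simp only [LinearMap.comp_apply, Submodule.subtype_apply]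
      rw [Module.Basis.span_apply]
    rw [h1]
    exact Module.Basis.constr_basis _ _ _ _
  have hE1 : E1 1 = -1 := by
    unfold E1
    simp [Complex.exp_pi_mul_I]
  have hbasis : ∀ k, E1 (2 * φ (b k : V)) = ψ (b k : V) := by
    intro k
    rw [hval]
    show E1 (2 * if ψ (b k : V) = 1 then 0 else 1 / 2) = _
    by_cases h : ψ (b k : V) = 1
    · rw [if_pos h, h, mul_zero, E1_zero]
    · rw [if_neg h, (hψ (b k)).resolve_left h]
      norm_num [hE1]
  refine ⟨φ, ?_⟩
  -- the property is closed under addition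
  let P : Λ → Prop := fun x => E1 (2 * φ (x : V)) = ψ (x : V)
  have hadd : ∀ x y : Λ, P x → P y → P (x + y) := by
    intro x y hx hy
    show E1 (2 * φ ((x + y : Λ) : V)) = chi B ((x + y : Λ) : V) * chi B' ((x + y : Λ) : V)
    rw [Submodule.coe_add, map_add, mul_add, E1_add, hx, hy, chi_add hB (hmem x).1 (hmem y).1,
      chi_add hB' (hmem x).2 (hmem y).2]
    obtain ⟨n, hn⟩ := e_int hB (hmem x).1 (hmem y).1
    have h1 : E1 (-(e (x : V) (y : V))) * E1 (-(e (x : V) (y : V))) = 1 := by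
      rw [hn, E1_int_neg]
      exact E1_int_sq n
    show chi B (x : V) * chi B' (x : V) * (chi B (y : V) * chi B' (y : V)) = _
    linear_combination (-(chi B (x : V) * chi B' (x : V) * (chi B (y : V) * chi B' (y : V)))) * h1
  have hneg : ∀ x : Λ, P x → P (-x) := by
    intro x hx
    show E1 (2 * φ ((-x : Λ) : V)) = chi B ((-x : Λ) : V) * chi B' ((-x : Λ) : V)
    rw [Submodule.coe_neg, map_neg, chi_neg, chi_neg, mul_neg, E1_neg]
    have hx' : E1 (2 * φ (x : V)) = chi B (x : V) * chi B' (x : V) := hx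
    rw [hx']
    have h2 := chi_sq (hmem x).1
    have h3 := chi_sq (hmem x).2
    apply inv_eq_of_mul_eq_one_left
    linear_combination (chi B' (x : V) * chi B' (x : V)) * h2 + h3
  have hzero : P 0 := by
    show E1 (2 * φ ((0 : Λ) : V)) = chi B ((0 : Λ) : V) * chi B' ((0 : Λ) : V)
    rw [Submodule.coe_zero, map_zero, chi_zero, chi_zero, mul_zero, E1_zero, one_mul]
  have hsmul : ∀ (n : ℤ) (x : Λ), P x → P (n • x) := by
    intro n x hx
    induction n using Int.induction_on with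
    | zero => rw [zero_smul]; exact hzero
    | succ n ih => rw [add_smul, one_smul]; exact hadd _ _ ih hx
    | pred n ih =>
      rw [sub_smul, one_smul, sub_eq_add_neg]
      exact hadd _ _ ih (hneg _ hx)
  have hall : ∀ x : Λ, P x := by
    intro x
    have hx : x ∈ Submodule.span ℤ (Set.range b) := by rw [b.span_eq]; trivial
    induction hx using Submodule.span_induction with
    | mem x hx => obtain ⟨k, rfl⟩ := hx; exact hbasis k
    | zero => exact hzero
    | add x y _ _ hx hy => exact hadd x y hx hy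
    | smul n x _ hx => exact hsmul n x hx
  intro l h1 h2
  have h3 : E1 (2 * φ l) = chi B l * chi B' l := hall ⟨l, h1, h2⟩
  rw [h3]
  linear_combination chi B' l * chi_sq h1

theorem exists_shift {B B' : Module.Basis (ι ⊕ ι) ℚ V} (hB : SympBasis e B)
    (hB' : SympBasis e B') : ∃ t : V, ∀ l, IsInt B l → IsInt B' l →
      E1 (2 * e l t) * chi B l = chi B' l := by
  obtain ⟨φ, hφ⟩ := exists_functional hB hB'
  let t : V := ∑ i, (φ (B (Sum.inl i)) • B (Sum.inr i) - φ (B (Sum.inr i)) • B (Sum.inl i))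
  have h1 : ∀ i, e (B (Sum.inl i)) t = φ (B (Sum.inl i)) := by
    intro i
    show e (B (Sum.inl i)) (∑ j, (φ (B (Sum.inl j)) • B (Sum.inr j) -
      φ (B (Sum.inr j)) • B (Sum.inl j))) = _
    rw [map_sum]
    simp only [map_sub, map_smul, hB.ll, hB.lr, smul_eq_mul, mul_zero, sub_zero]
    simp
  have h2 : ∀ i, e (B (Sum.inr i)) t = φ (B (Sum.inr i)) := by
    intro i
    show e (B (Sum.inr i)) (∑ j, (φ (B (Sum.inl j)) • B (Sum.inr j) -
      φ (B (Sum.inr j)) • B (Sum.inl j))) = _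
    have h1 : ∀ j, e (B (Sum.inr i)) (B (Sum.inl j)) = -(if j = i then 1 else 0) := by
      intro j
      rw [e_skew hB, hB.lr]
    rw [map_sum]
    simp only [map_sub, map_smul, hB.rr, h1, smul_eq_mul, mul_zero, zero_sub]
    simp
  have h3 : e.flip t = φ := by
    apply B.ext
    intro j
    rcases j with i | i
    · exact h1 i
    · exact h2 i
  refine ⟨t, fun l hl hl' => ?_⟩
  have h4 : e l t = φ l := by
    rw [← h3]
    rfl
  rw [h4]
  exact hφ l hl hl'

/-! ### translations -/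

variable {B B' : Module.Basis (ι ⊕ ι) ℚ V} {ζ L : V →ₗ[ℚ] (ι → ℂ)}

theorem TT_comp (h : IsPStr e B ζ L) (x y : V) (F : (ι → ℂ) → ℂ) :
    TT ζ L x (TT ζ L y F) = E1 (e x y) • TT ζ L (x + y) F := by
  funext z
  rw [TT_TT h]
  rfl

theorem TT_sm (x : V) (a : ℂ) (F : (ι → ℂ) → ℂ) : TT ζ L x (a • F) = a • TT ζ L x F := by
  funext z
  exact TT_smul x a F z

theorem TT_plus (h : IsPStr e B ζ L) (x y : V) (F : (ι → ℂ) → ℂ) :
    TT ζ L (x + y) F = E1 (-(e x y)) • TT ζ L x (TT ζ L y F) := by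
  rw [TT_comp h, smul_smul, mul_comm, E1_mul_neg, one_smul]

theorem TT_swap (hB : SympBasis e B) (h : IsPStr e B ζ L) (x y : V) (F : (ι → ℂ) → ℂ) :
    TT ζ L x (TT ζ L y F) = E1 (2 * e x y) • TT ζ L y (TT ζ L x F) := by
  rw [TT_comp h x y, add_comm x y, TT_plus h y x, smul_smul, e_skew hB y x, neg_neg, two_mul, E1_add]

theorem TT_int (hB : SympBasis e B) (h : IsPStr e B ζ L) {F : (ι → ℂ) → ℂ} (hF : IsTh ζ L B F)
    {x : V} (hx : IsInt B x) : TT ζ L x F = chi B x • F := by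
  have key : ∀ y ∈ AddSubgroup.closure (Set.range B), IsInt B y ∧ TT ζ L y F = chi B y • F := by
    intro y hy
    induction hy using AddSubgroup.closure_induction with
    | mem y hy =>
      obtain ⟨k, rfl⟩ := hy
      exact ⟨isInt_basis B k, by rw [hF.per k, chi_basis, one_smul]⟩
    | zero => exact ⟨isInt_zero B, by rw [TT_zero, chi_zero, one_smul]⟩
    | add y z _ _ hy hz =>
      refine ⟨isInt_add hy.1 hz.1, ?_⟩
      rw [TT_plus h, hz.2, TT_sm, hy.2, smul_smul, smul_smul, chi_add hB hy.1 hz.1]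
      congr 1
      ring
    | neg y _ hy =>
      refine ⟨isInt_neg hy.1, ?_⟩
      have h1 : TT ζ L (-y) (TT ζ L y F) = F := by
        rw [TT_comp h, neg_add_cancel, TT_zero, map_neg, LinearMap.neg_apply, hB.alt, neg_zero,
          E1_zero, one_smul]
      rw [hy.2, TT_sm] at h1
      rw [chi_neg]
      have h2 := congrArg (fun G => chi B y • G) h1
      simp only [smul_smul, chi_sq hy.1, one_smul] at h2
      exact h2
  have hmem : x ∈ AddSubgroup.closure (Set.range B) := by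
    choose f hf using hx
    rw [← B.sum_repr x]
    refine AddSubgroup.sum_mem _ fun j _ => ?_
    rw [hf j]
    have : ((f j : ℤ) : ℚ) • B j = f j • B j := Int.cast_smul_eq_zsmul ℚ _ _
    rw [this]
    exact AddSubgroup.zsmul_mem _ (AddSubgroup.subset_closure (Set.mem_range_self j)) _
  exact (key x hmem).2

/-! ### the summands -/

/-- the function `g_w = χ'(w) T_w T_t F` -/
def gg (B' : Module.Basis (ι ⊕ ι) ℚ V) (ζ L : V →ₗ[ℚ] (ι → ℂ)) (t : V) (F : (ι → ℂ) → ℂ) (w : V) :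
    (ι → ℂ) → ℂ :=
  chi B' w • TT ζ L w (TT ζ L t F)

theorem gg_per (hB : SympBasis e B) (hB' : SympBasis e B') (h : IsPStr e B ζ L)
    {F : (ι → ℂ) → ℂ} (hF : IsTh ζ L B F) {t : V}
    (ht : ∀ l, IsInt B l → IsInt B' l → E1 (2 * e l t) * chi B l = chi B' l)
    {w l : V} (hw : IsInt B' w) (hl : IsInt B l) (hl' : IsInt B' l) :
    gg B' ζ L t F (w + l) = gg B' ζ L t F w := by
  unfold gg
  rw [TT_plus h, TT_swap hB h l t, TT_int hB h hF hl, TT_sm, TT_sm, TT_sm, chi_add hB' hw hl']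
  simp only [smul_smul]
  congr 1
  obtain ⟨n, hn⟩ := e_int hB' hw hl'
  have h1 : E1 (-(e w l)) * E1 (-(e w l)) = 1 := by
    rw [hn, E1_int_neg]
    exact E1_int_sq n
  have h2 := ht l hl hl'
  have h3 := chi_sq hl'
  linear_combination (chi B' w * chi B' l * E1 (-(e w l)) * E1 (-(e w l))) * h2 +
    (chi B' w * E1 (-(e w l)) * E1 (-(e w l))) * h3 + chi B' w * h1

theorem gg_shift (hB : SympBasis e B) (hB' : SympBasis e B') (h : IsPStr e B ζ L)
    (F : (ι → ℂ) → ℂ) (t : V) {w : V} (hw : IsInt B' w) (j : ι ⊕ ι) :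
    TT ζ L (B' j) (gg B' ζ L t F w) = gg B' ζ L t F (w + B' j) := by
  unfold gg
  rw [TT_sm, TT_comp h, chi_add hB' hw (isInt_basis B' j), chi_basis, smul_smul, add_comm (B' j) w,
    e_skew hB (B' j) w, mul_one]

theorem gg_left (hB : SympBasis e B) (h : IsPStr e B ζ L)
    {F : (ι → ℂ) → ℂ} (hF : IsTh ζ L B F) (t w : V) {l : V} (hl : IsInt B l) :
    TT ζ L l (gg B' ζ L t F w) = (E1 (2 * e l w) * (E1 (2 * e l t) * chi B l)) • gg B' ζ L t F w := by
  unfold gg
  rw [TT_sm, TT_swap hB h l w, TT_swap hB h l t, TT_int hB h hF hl, TT_sm, TT_sm, TT_sm]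
  simp only [smul_smul]
  congr 1
  ring

theorem gg_zero (t : V) (F : (ι → ℂ) → ℂ) : gg B' ζ L t F 0 = TT ζ L t F := by
  unfold gg
  rw [chi_zero, one_smul, TT_zero]

/-! ### geometric sums -/

theorem geom {N : ℕ} {q : ℚ} (hq : ∃ n : ℤ, (N : ℚ) * q = n) :
    (∃ n : ℤ, q = n) ∧ ∑ a : Fin N, E1 (2 * ((a : ℕ) * q)) = N ∨
    (¬ ∃ n : ℤ, q = n) ∧ ∑ a : Fin N, E1 (2 * ((a : ℕ) * q)) = 0 := by
  have hterm : ∀ a : ℕ, E1 (2 * ((a : ℕ) * q)) = E1 (2 * q) ^ a := by
    intro a
    rw [← E1_nat_mul]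
    congr 1
    ring
  by_cases h : ∃ n : ℤ, q = n
  · left
    refine ⟨h, ?_⟩
    obtain ⟨n, hn⟩ := h
    have h1 : E1 (2 * q) = 1 := by rw [hn]; exact E1_two_int n
    simp only [hterm, h1, one_pow]
    simp
  · right
    refine ⟨h, ?_⟩
    have h1 : E1 (2 * q) ≠ 1 := fun h2 => h (E1_two_eq_one h2)
    have h2 : E1 (2 * q) ^ N = 1 := by
      obtain ⟨n, hn⟩ := hq
      rw [← hterm, hn]
      exact E1_two_int n
    simp only [hterm]
    rw [Fin.sum_univ_eq_sum_range (fun a => E1 (2 * q) ^ a) N, geom_sum_eq h1, h2, sub_self, zero_div]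

/-! ### boxes -/

theorem common_den {κ : Type} [Fintype κ] (f : κ → ℚ) :
    ∃ N : ℕ, 0 < N ∧ ∀ i, ∃ n : ℤ, (N : ℚ) * f i = n := by
  classical
  refine ⟨∏ i, (f i).den, Finset.prod_pos fun i _ => (f i).den_pos, fun i => ?_⟩
  obtain ⟨c, hc⟩ := Finset.dvd_prod_of_mem (fun i => (f i).den) (Finset.mem_univ i)
  refine ⟨c * (f i).num, ?_⟩
  rw [hc]
  push_cast
  rw [mul_comm ((f i).den : ℚ) (c : ℚ), mul_assoc, Rat.den_mul_eq_num]

/-- point of the box -/
def pt (B : Module.Basis (ι ⊕ ι) ℚ V) {N : ℕ} (k : ι ⊕ ι → Fin N) : V :=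
  ∑ j, ((k j : ℕ) : ℚ) • B j

theorem isInt_sum {κ : Type} (s : Finset κ) {f : κ → V} (h : ∀ i ∈ s, IsInt B (f i)) :
    IsInt B (∑ i ∈ s, f i) := by
  classical
  induction s using Finset.induction_on with
  | empty => rw [Finset.sum_empty]; exact isInt_zero B
  | insert a s ha ih =>
    rw [Finset.sum_insert ha]
    exact isInt_add (h a (Finset.mem_insert_self a s)) (ih fun i hi => h i (Finset.mem_insert_of_mem hi))

theorem isInt_pt (B : Module.Basis (ι ⊕ ι) ℚ V) {N : ℕ} (k : ι ⊕ ι → Fin N) : IsInt B (pt B k) :=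
  isInt_sum _ fun j _ => isInt_nsmul (isInt_basis B j) _

theorem pt_change (B : Module.Basis (ι ⊕ ι) ℚ V) {N : ℕ} (k k' : ι ⊕ ι → Fin N) (j : ι ⊕ ι)
    (h : ∀ i, i ≠ j → k i = k' i) :
    pt B k = pt B k' + (((k j : ℕ) : ℚ) - ((k' j : ℕ) : ℚ)) • B j := by
  unfold pt
  rw [← Finset.add_sum_erase _ _ (Finset.mem_univ j), ← Finset.add_sum_erase Finset.univ
    (fun i => ((k' i : ℕ) : ℚ) • B i) (Finset.mem_univ j)]
  have h1 : ∑ x ∈ Finset.univ.erase j, ((k x : ℕ) : ℚ) • B x =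
      ∑ x ∈ Finset.univ.erase j, ((k' x : ℕ) : ℚ) • B x := by
    refine Finset.sum_congr rfl fun i hi => ?_
    rw [h i (Finset.ne_of_mem_erase hi)]
  rw [h1, sub_smul]
  abel

theorem TT_fsum {κ : Type} (s : Finset κ) (x : V) (G : κ → (ι → ℂ) → ℂ) :
    TT ζ L x (∑ k ∈ s, G k) = ∑ k ∈ s, TT ζ L x (G k) := by
  funext z
  have h1 : (∑ k ∈ s, G k) = fun z => ∑ k ∈ s, G k z := by
    funext z
    rw [Finset.sum_apply]
  rw [h1, TT_sum, Finset.sum_apply]

/-- the averaged function -/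
def AA (B' : Module.Basis (ι ⊕ ι) ℚ V) (ζ L : V →ₗ[ℚ] (ι → ℂ)) (t : V) (F : (ι → ℂ) → ℂ) (N : ℕ) :
    (ι → ℂ) → ℂ :=
  ∑ k : ι ⊕ ι → Fin N, gg B' ζ L t F (pt B' k)

theorem AA_shift (hB : SympBasis e B) (hB' : SympBasis e B') (h : IsPStr e B ζ L)
    {F : (ι → ℂ) → ℂ} (hF : IsTh ζ L B F) {t : V}
    (ht : ∀ l, IsInt B l → IsInt B' l → E1 (2 * e l t) * chi B l = chi B' l)
    {N : ℕ} [NeZero N] (hN : ∀ j, IsInt B ((N : ℚ) • B' j)) (j : ι ⊕ ι) :
    TT ζ L (B' j) (AA B' ζ L t F N) = AA B' ζ L t F N := by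
  unfold AA
  rw [TT_fsum]
  rw [← Equiv.sum_comp (Equiv.addRight (Pi.single j (1 : Fin N) : ι ⊕ ι → Fin N))
    (fun k => gg B' ζ L t F (pt B' k))]
  refine Finset.sum_congr rfl fun k _ => ?_
  rw [gg_shift hB hB' h F t (isInt_pt B' k) j, Equiv.coe_addRight]
  set k' : ι ⊕ ι → Fin N := k + Pi.single j 1 with hk'
  have hoff : ∀ i, i ≠ j → k i = k' i := by
    intro i hi
    rw [hk', Pi.add_apply, Pi.single_eq_of_ne hi, add_zero]
  have hj : k' j = k j + 1 := by
    rw [hk', Pi.add_apply, Pi.single_eq_same]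
  have hch := pt_change B' k k' j hoff
  rw [hch]
  have hNpos : 0 < N := Nat.pos_of_ne_zero (NeZero.ne N)
  have hval : (k' j : ℕ) = ((k j : ℕ) + 1) % N := by
    rw [hj, Fin.val_add]
    rw [Fin.val_one']
    rw [Nat.add_mod_mod]
  by_cases hlt : (k j : ℕ) + 1 < N
  · rw [Nat.mod_eq_of_lt hlt] at hval
    have h1 : pt B' k' + (((k j : ℕ) : ℚ) - ((k' j : ℕ) : ℚ)) • B' j + B' j = pt B' k' := by
      rw [hval]
      push_cast
      have : ((k j : ℕ) : ℚ) - (((k j : ℕ) : ℚ) + 1) = -1 := by ring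
      rw [this, neg_smul, one_smul]
      abel
    rw [h1]
  · have hlt' : (k j : ℕ) + 1 = N := by
      have := (k j).isLt
      omega
    rw [hlt', Nat.mod_self] at hval
    have h1 : pt B' k' + (((k j : ℕ) : ℚ) - ((k' j : ℕ) : ℚ)) • B' j + B' j =
        pt B' k' + (N : ℚ) • B' j := by
      have hNq : (N : ℚ) = ((k j : ℕ) : ℚ) + 1 := by exact_mod_cast hlt'.symm
      have hsc : (((k j : ℕ) : ℚ) - ((k' j : ℕ) : ℚ)) • B' j + B' j = (N : ℚ) • B' j := by
        rw [hval, hNq, Nat.cast_zero, sub_zero, add_smul, one_smul]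
      rw [add_assoc, hsc]
    rw [h1]
    exact gg_per hB hB' h hF ht (isInt_pt B' k') (hN j) (isInt_nsmul (isInt_basis B' j) N)

open Classical in
theorem sum_box (hB : SympBasis e B) {N : ℕ} {w : V} (hw : IsInt B ((N : ℚ) • w)) :
    ∑ m : ι ⊕ ι → Fin N, E1 (2 * e (pt B m) w) =
      if IsInt B w then (N : ℂ) ^ Fintype.card (ι ⊕ ι) else 0 := by
  have hq : ∀ j, ∃ n : ℤ, (N : ℚ) * e (B j) w = n := by
    intro j
    obtain ⟨n, hn⟩ := e_int hB (isInt_basis B j) hw
    exact ⟨n, by rw [← hn, map_smul, smul_eq_mul]⟩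
  have h1 : ∀ m : ι ⊕ ι → Fin N, E1 (2 * e (pt B m) w) =
      ∏ j, E1 (2 * (((m j : ℕ) : ℚ) * e (B j) w)) := by
    intro m
    rw [← E1_sum]
    congr 1
    unfold pt
    rw [map_sum, LinearMap.sum_apply, Finset.mul_sum]
    refine Finset.sum_congr rfl fun j _ => ?_
    rw [map_smul, LinearMap.smul_apply, smul_eq_mul]
  have h2 : ∑ m : ι ⊕ ι → Fin N, E1 (2 * e (pt B m) w) =
      ∏ j, ∑ a : Fin N, E1 (2 * (((a : ℕ) : ℚ) * e (B j) w)) := by
    rw [Finset.prod_univ_sum, Fintype.piFinset_univ]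
    exact Finset.sum_congr rfl fun m _ => h1 m
  rw [h2]
  by_cases hint : IsInt B w
  · rw [if_pos hint]
    have h3 : ∀ j, ∑ a : Fin N, E1 (2 * (((a : ℕ) : ℚ) * e (B j) w)) = N := by
      intro j
      rcases geom (hq j) with h | h
      · exact h.2
      · exact absurd (e_int hB (isInt_basis B j) hint) h.1
    rw [Finset.prod_congr rfl fun j _ => h3 j, Finset.prod_const, Finset.card_univ]
  · rw [if_neg hint]
    have h4 : ∃ j, ¬ ∃ n : ℤ, e (B j) w = n := by
      by_contra hcon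
      push Not at hcon
      exact hint (isInt_of_e hB hcon)
    obtain ⟨j, hj⟩ := h4
    apply Finset.prod_eq_zero (Finset.mem_univ j)
    rcases geom (hq j) with h | h
    · exact absurd h.1 hj
    · exact h.2

theorem AA_ne (hB : SympBasis e B) (hB' : SympBasis e B') (h : IsPStr e B ζ L)
    {F : (ι → ℂ) → ℂ} (hF : IsTh ζ L B F) (hF0 : F ≠ 0) {t : V}
    (ht : ∀ l, IsInt B l → IsInt B' l → E1 (2 * e l t) * chi B l = chi B' l)
    {N : ℕ} [NeZero N] (hN : ∀ j, IsInt B ((N : ℚ) • B' j)) :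
    AA B' ζ L t F N ≠ 0 := by
  classical
  intro hA
  have hNw : ∀ k : ι ⊕ ι → Fin N, IsInt B ((N : ℚ) • pt B' k) := by
    intro k
    unfold pt
    rw [Finset.smul_sum]
    refine isInt_sum _ fun j _ => ?_
    rw [smul_comm]
    exact isInt_nsmul (hN j) _
  -- the equation for each `m`
  have h1 : ∀ m : ι ⊕ ι → Fin N,
      ∑ k : ι ⊕ ι → Fin N, E1 (2 * e (pt B m) (pt B' k)) • gg B' ζ L t F (pt B' k) = 0 := by
    intro m
    have h2 : TT ζ L (pt B m) (AA B' ζ L t F N) = 0 := by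
      rw [hA]
      funext z
      simp [TT]
    unfold AA at h2
    rw [TT_fsum] at h2
    have h3 : ∀ k : ι ⊕ ι → Fin N, TT ζ L (pt B m) (gg B' ζ L t F (pt B' k)) =
        (E1 (2 * e (pt B m) t) * chi B (pt B m)) •
          (E1 (2 * e (pt B m) (pt B' k)) • gg B' ζ L t F (pt B' k)) := by
      intro k
      rw [gg_left hB h hF t _ (isInt_pt B m), smul_smul]
      congr 1
      ring
    rw [Finset.sum_congr rfl fun k _ => h3 k, ← Finset.smul_sum] at h2
    have h4 : E1 (2 * e (pt B m) t) * chi B (pt B m) ≠ 0 := mul_ne_zero (E1_ne _) (chi_ne B _)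
    exact (smul_eq_zero.1 h2).resolve_left h4
  have h5 : ∑ k : ι ⊕ ι → Fin N, (∑ m : ι ⊕ ι → Fin N, E1 (2 * e (pt B m) (pt B' k))) •
      gg B' ζ L t F (pt B' k) = 0 := by
    simp only [Finset.sum_smul]
    rw [Finset.sum_comm]
    exact Finset.sum_eq_zero fun m _ => h1 m
  have h6 : ∀ k : ι ⊕ ι → Fin N, (∑ m : ι ⊕ ι → Fin N, E1 (2 * e (pt B m) (pt B' k))) •
      gg B' ζ L t F (pt B' k) =
      (if IsInt B (pt B' k) then (N : ℂ) ^ Fintype.card (ι ⊕ ι) else 0) • TT ζ L t F := by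
    intro k
    rw [sum_box hB (hNw k)]
    by_cases hk : IsInt B (pt B' k)
    · rw [if_pos hk]
      have h7 := gg_per hB hB' h hF ht (isInt_zero B') hk (isInt_pt B' k)
      rw [zero_add] at h7
      rw [h7, gg_zero]
    · rw [if_neg hk, zero_smul, zero_smul]
  rw [Finset.sum_congr rfl fun k _ => h6 k, ← Finset.sum_smul] at h5
  have h8 : TT ζ L t F ≠ 0 := fun h9 => hF0 ((TT_eq_iff_ne_zero t F).1 h9)
  have h9 := (smul_eq_zero.1 h5).resolve_right h8
  rw [Finset.sum_ite, Finset.sum_const_zero, add_zero, Finset.sum_const, nsmul_eq_mul] at h9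
  have hN0 : (N : ℂ) ≠ 0 := Nat.cast_ne_zero.2 (NeZero.ne N)
  rcases mul_eq_zero.1 h9 with h10 | h10
  · have h11 : (Finset.univ.filter fun k : ι ⊕ ι → Fin N => IsInt B (pt B' k)).card = 0 := by
      exact_mod_cast h10
    rw [Finset.card_eq_zero] at h11
    have h12 : (fun _ => 0 : ι ⊕ ι → Fin N) ∈
        (Finset.univ.filter fun k : ι ⊕ ι → Fin N => IsInt B (pt B' k)) := by
      rw [Finset.mem_filter]
      refine ⟨Finset.mem_univ _, ?_⟩
      have : pt B' (fun _ => 0 : ι ⊕ ι → Fin N) = 0 := by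
        unfold pt
        simp
      rw [this]
      exact isInt_zero B
    rw [h11] at h12
    exact absurd h12 (Finset.notMem_empty _)
  · exact pow_ne_zero _ hN0 h10

theorem comb_eq (h : IsPStr e B ζ L) (F : (ι → ℂ) → ℂ) (t : V) (N : ℕ) :
    comb ζ L (∑ k : ι ⊕ ι → Fin N, Finsupp.single (pt B' k + t) (chi B' (pt B' k) * E1 (e (pt B' k) t))) F
      = AA B' ζ L t F N := by
  funext z
  unfold comb AA
  rw [← Finsupp.sum_finsetSum_index (fun y => by simp) (fun y a b => by ring), Finset.sum_apply]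
  refine Finset.sum_congr rfl fun k _ => ?_
  rw [Finsupp.sum_single_index (by simp)]
  unfold gg
  rw [TT_comp h, smul_smul]
  rfl

end

end AVG_

open AVG_ in
theorem avg_proof : Stmt_AVG := by
  intro V _ _ ι _ _ e B B' hB hB'
  classical
  obtain ⟨t, ht⟩ := exists_shift hB hB'
  obtain ⟨N, hNpos, hN⟩ := common_den (fun p : (ι ⊕ ι) × (ι ⊕ ι) => B.repr (B' p.1) p.2)
  have hN' : ∀ j, IsInt B ((N : ℚ) • B' j) := by
    intro j i
    obtain ⟨n, hn⟩ := hN (j, i)
    exact ⟨n, by rw [map_smul, Finsupp.smul_apply, smul_eq_mul]; exact hn⟩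
  have : NeZero N := ⟨hNpos.ne'⟩
  refine ⟨∑ k : ι ⊕ ι → Fin N, Finsupp.single (pt B' k + t) (chi B' (pt B' k) * E1 (e (pt B' k) t)),
    ?_, ?_⟩
  · intro y
    rw [Finsupp.finsetSum_apply]
    refine Finset.sum_induction _ (fun x : ℂ => IsAlgebraic ℚ x) (fun a b => IsAlgebraic.add)
      isAlgebraic_zero fun k _ => ?_
    rw [Finsupp.single_apply]
    split_ifs
    · exact (E1_alg _).mul (E1_alg _)
    · exact isAlgebraic_zero
  · intro ζ L h F hF hF0
    rw [comb_eq h]
    refine ⟨⟨?_, ?_⟩, AA_ne hB hB' h hF hF0 ht hN'⟩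
    · have h1 : AA B' ζ L t F N = fun z => ∑ k : ι ⊕ ι → Fin N, gg B' ζ L t F (pt B' k) z := by
        funext z
        unfold AA
        rw [Finset.sum_apply]
      rw [h1]
      refine Differentiable.fun_sum fun k _ => ?_
      unfold gg
      exact (TT_differentiable _ (TT_differentiable _ hF.entire)).const_smul _
    · intro j
      exact AA_shift hB hB' h hF ht hN' j

end

end Pool.Agent.SPF
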