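import Pool.Agent.SPF.OutKit

/-!
# The base points
-/

open scoped BigOperators
open Complex

namespace Pool.Agent.SPF

noncomputable section

namespace BAS_

theorem G_scale (L L' : PeriodPair) (c : ℂ) (hc : c ≠ 0)
    (h : ∀ z, z ∈ L.lattice ↔ c * z ∈ L'.lattice) (n : ℕ) : L'.G n * c ^ n = L.G n := by
  let e : L.lattice ≃ L'.lattice :=
    { toFun := fun l => ⟨c * l, (h l).1 l.2⟩
      invFun := fun m => ⟨c⁻¹ * m, (h _).2 (by rw [mul_inv_cancel_left₀ hc]; exact m.2)⟩
      left_inv := fun l => Subtype.ext (by simp [hc])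
      right_inv := fun m => Subtype.ext (by simp [hc]) }
  have h1 : L'.G n = ∑' l : L.lattice, ((c * (l : ℂ)) ^ n)⁻¹ := by
    unfold PeriodPair.G
    exact (e.tsum_eq (fun m : L'.lattice => ((m : ℂ) ^ n)⁻¹)).symm
  have h2 : ∀ l : L.lattice, ((c * (l : ℂ)) ^ n)⁻¹ = (c ^ n)⁻¹ * ((l : ℂ) ^ n)⁻¹ := by
    intro l
    rw [mul_pow, mul_inv]
  rw [h1, tsum_congr h2, tsum_mul_left]
  unfold PeriodPair.G
  field_simp

theorem G_zero (L : PeriodPair) (u : ℂ) (hu : u ≠ 0)
    (h : ∀ z, z ∈ L.lattice ↔ u * z ∈ L.lattice) (n : ℕ) (hn : u ^ n ≠ 1) : L.G n = 0 := by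
  have h1 := G_scale L L u hu h n
  have h2 : L.G n * (u ^ n - 1) = 0 := by linear_combination h1
  rcases mul_eq_zero.1 h2 with h3 | h3
  · exact h3
  · exact absurd (sub_eq_zero.1 h3) hn

theorem indep (c τ : ℂ) (hc : c ≠ 0) (hτ : τ.im ≠ 0) :
    LinearIndependent ℝ ![c, c * τ] := by
  rw [LinearIndependent.pair_iff]
  intro s t hst
  have h1 : c * ((s : ℂ) + t * τ) = 0 := by
    rw [← hst]
    simp only [Complex.real_smul]
    ring
  have h2 : (s : ℂ) + t * τ = 0 := by
    rcases mul_eq_zero.1 h1 with h | h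
    · exact absurd h hc
    · exact h
  have h3 := congrArg Complex.im h2
  simp at h3
  have h4 : t = 0 := by
    rcases h3 with h | h
    · exact h
    · exact absurd h hτ
  have h5 := congrArg Complex.re h2
  simp [h4] at h5
  exact ⟨h5, h4⟩

/-- The pair `(c, c τ)`. -/
def pp (c τ : ℂ) (hc : c ≠ 0) (hτ : τ.im ≠ 0) : PeriodPair := ⟨c, c * τ, indep c τ hc hτ⟩

theorem mem_pp {c τ : ℂ} (hc : c ≠ 0) (hτ : τ.im ≠ 0) (z : ℂ) :
    z ∈ (pp c τ hc hτ).lattice ↔ ∃ m n : ℤ, (m : ℂ) * c + n * (c * τ) = z :=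
  PeriodPair.mem_lattice

theorem G_pp {c τ : ℂ} (hc : c ≠ 0) (hτ : τ.im ≠ 0) (n : ℕ) :
    (pp c τ hc hτ).G n * c ^ n = (pp 1 τ one_ne_zero hτ).G n := by
  apply G_scale _ _ _ hc
  intro z
  rw [mem_pp, mem_pp]
  constructor
  · rintro ⟨m, k, h⟩
    exact ⟨m, k, by rw [← h]; ring⟩
  · rintro ⟨m, k, h⟩
    refine ⟨m, k, ?_⟩
    have h1 : c * ((m : ℂ) * 1 + k * (1 * τ)) = c * z := by rw [← h]; ring
    exact mul_left_cancel₀ hc h1

theorem alg_one : Alg (1 : ℂ) := by
  unfold Alg
  exact isAlgebraic_one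

theorem alg_zero : Alg (0 : ℂ) := by
  unfold Alg
  exact isAlgebraic_zero

theorem main (hW : Stmt_WEI) (hL : Stmt_LIN) (τ : ℂ) (hτ : 0 < τ.im) (c : ℂ) (hc : c ≠ 0)
    (h2 : Alg (pp c τ hc hτ.ne').g₂) (h3 : Alg (pp c τ hc hτ.ne').g₃) :
    SS e0 (z0 1 τ) (fun _ => c) := by
  have h4 : SS e0 (z0 c (c * τ)) (fun _ => 1) := by
    refine hW (pp c τ hc hτ.ne') ?_ h2 h3
    show 0 < (c * τ / c).im
    rw [mul_div_cancel_left₀ _ hc]
    exact hτ
  refine hL (ℚ × ℚ) (ℚ × ℚ) (Fin 1) e0 e0 (LinearEquiv.refl ℚ _) (z0 c (c * τ)) (z0 1 τ)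
    (c⁻¹ • (1 : Matrix (Fin 1) (Fin 1) ℂ)) (c • (1 : Matrix (Fin 1) (Fin 1) ℂ)) (fun _ => 1)
    (fun _ => c) (fun x y => rfl) ?_ ?_ (fun _ => hc) ?_ h4
  · rw [smul_mul_smul_comm, inv_mul_cancel₀ hc, mul_one, one_smul]
  · intro x
    rw [Matrix.smul_mulVec, Matrix.one_mulVec]
    funext i
    show (x.1 : ℂ) * 1 + (x.2 : ℂ) * τ = c⁻¹ * ((x.1 : ℂ) * c + (x.2 : ℂ) * (c * τ))
    field_simp
  · intro i j
    have h5 : (c • (1 : Matrix (Fin 1) (Fin 1) ℂ)) i j * 1 / c = 1 := by
      rw [Subsingleton.elim i j, Matrix.smul_apply, Matrix.one_apply_eq, smul_eq_mul, mul_one,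
        mul_one, div_self hc]
    rw [h5]
    exact alg_one

theorem exists_root (g : ℂ) (n : ℕ) (hn : 0 < n) :
    ∃ c : ℂ, c ≠ 0 ∧ ∀ x : ℂ, x * c ^ n = g → Alg x := by
  by_cases hg : g = 0
  · refine ⟨1, one_ne_zero, fun x hx => ?_⟩
    rw [one_pow, mul_one] at hx
    rw [hx, hg]
    exact alg_zero
  · obtain ⟨c, hc⟩ := IsAlgClosed.exists_pow_nat_eq g hn
    have hc0 : c ≠ 0 := by
      rintro rfl
      rw [zero_pow hn.ne'] at hc
      exact hg hc.symm
    refine ⟨c, hc0, fun x hx => ?_⟩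
    rw [hc] at hx
    have : x = 1 := by
      have h1 : (x - 1) * g = 0 := by linear_combination hx
      rcases mul_eq_zero.1 h1 with h | h
      · exact sub_eq_zero.1 h
      · exact absurd h hg
    rw [this]
    exact alg_one

end BAS_

open BAS_

theorem bas_proof (hW : Stmt_WEI) (hL : Stmt_LIN) : Stmt_BAS := by
  constructor
  · have hτ : 0 < (I : ℂ).im := by simp
    obtain ⟨c, hc, hx⟩ := exists_root (pp 1 I one_ne_zero hτ.ne').g₂ 4 (by norm_num)
    refine ⟨c, main hW hL I hτ c hc ?_ ?_⟩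
    · apply hx
      have h1 := G_pp hc hτ.ne' 4
      unfold PeriodPair.g₂
      linear_combination 60 * h1
    · have h1 := G_pp hc hτ.ne' 6
      have h2 : (pp 1 I one_ne_zero hτ.ne').G 6 = 0 := by
        apply G_zero _ I I_ne_zero
        · intro z
          rw [mem_pp, mem_pp]
          constructor
          · rintro ⟨m, k, h⟩
            refine ⟨-k, m, ?_⟩
            rw [← h]
            push_cast
            linear_combination (k : ℂ) * (-1 : ℂ) * I_mul_I
          · rintro ⟨m, k, h⟩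
            refine ⟨k, -m, ?_⟩
            push_cast
            linear_combination (-I) * h + (k - z : ℂ) * I_mul_I
        · have : (I : ℂ) ^ 6 = -1 := by
            have : (I : ℂ) ^ 6 = (I ^ 2) ^ 3 := by ring
            rw [this, I_sq]
            norm_num
          rw [this]
          norm_num
      rw [h2] at h1
      have h3 : (pp c I hc hτ.ne').G 6 = 0 := by
        rcases mul_eq_zero.1 h1 with h | h
        · exact h
        · exact absurd h (pow_ne_zero _ hc)
      unfold PeriodPair.g₃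
      rw [h3, mul_zero]
      exact alg_zero
  · have h30 : (0 : ℝ) < Real.sqrt 3 := Real.sqrt_pos.2 (by norm_num)
    have h33 : (Real.sqrt 3 : ℂ) * (Real.sqrt 3 : ℂ) = 3 := by
      rw [← Complex.ofReal_mul, Real.mul_self_sqrt (by norm_num)]
      norm_num
    set η : ℂ := (-1 + (Real.sqrt 3 : ℂ) * I) / 2 with hη
    have hτ : 0 < η.im := by
      have : η.im = Real.sqrt 3 / 2 := by
        rw [hη]
        simp
      rw [this]
      positivity
    have hη2 : η * η + η + 1 = 0 := by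
      rw [hη]
      linear_combination (1 / 4 : ℂ) * (I * I) * h33 + (3 / 4 : ℂ) * I_mul_I
    have hη0 : η ≠ 0 := by
      intro h
      rw [h] at hη2
      norm_num at hη2
    obtain ⟨c, hc, hx⟩ := exists_root (pp 1 η one_ne_zero hτ.ne').g₃ 6 (by norm_num)
    refine ⟨c, main hW hL η hτ c hc ?_ ?_⟩
    · have h1 := G_pp hc hτ.ne' 4
      have h2 : (pp 1 η one_ne_zero hτ.ne').G 4 = 0 := by
        apply G_zero _ η hη0
        · intro z
          rw [mem_pp, mem_pp]
          constructor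
          · rintro ⟨m, k, h⟩
            refine ⟨-k, m - k, ?_⟩
            rw [← h]
            push_cast
            linear_combination (-(k : ℂ)) * hη2
          · rintro ⟨m, k, h⟩
            refine ⟨k - m, -m, ?_⟩
            push_cast
            linear_combination (-1 - η) * h + (k - z : ℂ) * hη2
        · have h5 : η ^ 4 = η := by
            linear_combination (η * η - η) * hη2
          rw [h5]
          intro h6
          rw [h6] at hη2
          norm_num at hη2
      rw [h2] at h1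
      have h3 : (pp c η hc hτ.ne').G 4 = 0 := by
        rcases mul_eq_zero.1 h1 with h | h
        · exact h
        · exact absurd h (pow_ne_zero _ hc)
      unfold PeriodPair.g₂
      rw [h3, mul_zero]
      exact alg_zero
    · apply hx
      have h1 := G_pp hc hτ.ne' 6
      unfold PeriodPair.g₃
      linear_combination 140 * h1

end

end Pool.Agent.SPF
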