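import Pool.Agent.SPF.OutKit

set_option linter.unusedSectionVars false
set_option linter.unusedSimpArgs false

/-!
# The dimension of the space of theta functions of level `k` is at most `k ^ n`
-/

open scoped BigOperators
open Complex

namespace Pool.Agent.SPF

noncomputable section

namespace DIM_

/-! ## Finite Fourier projections -/

section Proj

variable {E : Type} [AddCommGroup E] [Module ℂ E]

/-- decomposition into eigenvectors of an operator with `D ^ k F = c ^ k F` -/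
theorem eig_dec (D : E →ₗ[ℂ] E) (k : ℕ) (hk : 0 < k) (c ω : ℂ) (hc : c ≠ 0)
    (hω : IsPrimitiveRoot ω k) (F : E) (hF : (D ^ k) F = c ^ k • F) :
    ∃ Fm : ℕ → E, F = ∑ m ∈ Finset.range k, Fm m ∧ (∀ m, D (Fm m) = (c * ω ^ m) • Fm m) ∧
      ∀ N : Submodule ℂ E, (∀ x ∈ N, D x ∈ N) → F ∈ N → ∀ m, Fm m ∈ N := by
  have hkc : (k : ℂ) ≠ 0 := Nat.cast_ne_zero.2 hk.ne'
  have hω0 : ω ≠ 0 := hω.ne_zero hk.ne'
  set Fm : ℕ → E := fun m => (k : ℂ)⁻¹ • ∑ s ∈ Finset.range k,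
    ((c * ω ^ m)⁻¹) ^ s • (D ^ s) F with hFm
  refine ⟨Fm, ?_, ?_, ?_⟩
  · have h1 : ∑ m ∈ Finset.range k, Fm m = (k : ℂ)⁻¹ • ∑ s ∈ Finset.range k,
        (∑ m ∈ Finset.range k, ((c * ω ^ m)⁻¹) ^ s) • (D ^ s) F := by
      rw [hFm, ← Finset.smul_sum, Finset.sum_comm]
      congr 1
      refine Finset.sum_congr rfl fun s _ => ?_
      rw [Finset.sum_smul]
    have h2 : ∀ s ∈ Finset.range k, s ≠ 0 →
        (∑ m ∈ Finset.range k, ((c * ω ^ m)⁻¹) ^ s) • (D ^ s) F = 0 := by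
      intro s hs hs0
      have h3 : ∑ m ∈ Finset.range k, ((c * ω ^ m)⁻¹) ^ s =
          (c⁻¹) ^ s * ∑ m ∈ Finset.range k, ((ω ^ s)⁻¹) ^ m := by
        rw [Finset.mul_sum]
        refine Finset.sum_congr rfl fun m _ => ?_
        rw [mul_inv, mul_pow]
        congr 1
        rw [← inv_pow, ← inv_pow, ← pow_mul, ← pow_mul, mul_comm]
      have h4 : (ω ^ s)⁻¹ ≠ 1 := by
        intro h5
        rw [inv_eq_one] at h5
        exact hω.pow_ne_one_of_pos_of_lt hs0 (Finset.mem_range.1 hs) h5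
      have h5 : ∑ m ∈ Finset.range k, ((ω ^ s)⁻¹) ^ m = 0 := by
        rw [geom_sum_eq h4, ← inv_pow, ← pow_mul, mul_comm, pow_mul, inv_pow, hω.pow_eq_one]
        simp
      rw [h3, h5, mul_zero, zero_smul]
    rw [h1, Finset.sum_eq_single 0 h2 (fun h => absurd (Finset.mem_range.2 hk) h)]
    simp only [pow_zero, Finset.sum_const, Finset.card_range, nsmul_eq_mul, mul_one]
    rw [smul_smul, inv_mul_cancel₀ hkc, one_smul]
    rfl
  · intro m
    have hμ : c * ω ^ m ≠ 0 := mul_ne_zero hc (pow_ne_zero _ hω0)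
    have h1 : ∑ s ∈ Finset.range k, ((c * ω ^ m)⁻¹) ^ (s + 1) • (D ^ (s + 1)) F =
        ∑ s ∈ Finset.range k, ((c * ω ^ m)⁻¹) ^ s • (D ^ s) F := by
      have h2 := Finset.sum_range_succ (fun s => ((c * ω ^ m)⁻¹) ^ s • (D ^ s) F) k
      have h3 := Finset.sum_range_succ' (fun s => ((c * ω ^ m)⁻¹) ^ s • (D ^ s) F) k
      have h4 : ((c * ω ^ m)⁻¹) ^ k • (D ^ k) F = F := by
        rw [hF, smul_smul, inv_pow, mul_pow, ← pow_mul, mul_comm m k, pow_mul, hω.pow_eq_one,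
          one_pow, mul_one, inv_mul_cancel₀ (pow_ne_zero _ hc), one_smul]
      have h5 : ((c * ω ^ m)⁻¹) ^ 0 • (D ^ 0) F = F := by
        rw [pow_zero, one_smul]
        rfl
      rw [h2, h4, h5] at h3
      exact (add_right_cancel h3).symm
    show D ((k : ℂ)⁻¹ • ∑ s ∈ Finset.range k, ((c * ω ^ m)⁻¹) ^ s • (D ^ s) F) =
      (c * ω ^ m) • ((k : ℂ)⁻¹ • ∑ s ∈ Finset.range k, ((c * ω ^ m)⁻¹) ^ s • (D ^ s) F)
    rw [map_smul, map_sum, smul_comm (c * ω ^ m) (k : ℂ)⁻¹]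
    congr 1
    rw [← h1, Finset.smul_sum]
    refine Finset.sum_congr rfl fun s _ => ?_
    rw [map_smul, smul_smul, pow_succ' ((c * ω ^ m)⁻¹) s, ← mul_assoc, mul_inv_cancel₀ hμ, one_mul,
      pow_succ' D s]
    rfl
  · intro N hN hFN m
    have hs : ∀ s : ℕ, (D ^ s) F ∈ N := by
      intro s
      induction s with
      | zero => simpa using hFN
      | succ s ih =>
        rw [pow_succ' D s]
        exact hN _ ih
    exact N.smul_mem _ (N.sum_mem fun s _ => N.smul_mem _ (hs s))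

/-- decomposition into joint eigenvectors -/
theorem joint_dec {ι : Type} [DecidableEq ι] (D : ι → E →ₗ[ℂ] E) (k : ℕ) (hk : 0 < k) (c : ι → ℂ)
    (ω : ℂ) (hc : ∀ i, c i ≠ 0) (hω : IsPrimitiveRoot ω k) (W : Submodule ℂ E)
    (hW : ∀ i, ∀ x ∈ W, D i x ∈ W) (hk' : ∀ i, ∀ x ∈ W, ((D i) ^ k) x = (c i) ^ k • x)
    (hcomm : ∀ i j x, D i (D j x) = D j (D i x)) (S : Finset ι) :
    ∀ F ∈ W, F ∈ Submodule.span ℂ {G | G ∈ W ∧ ∀ i ∈ S, ∃ m : Fin k,
      D i G = (c i * ω ^ (m : ℕ)) • G} := by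
  induction S using Finset.induction_on with
  | empty =>
    intro F hF
    refine Submodule.subset_span ⟨hF, ?_⟩
    intro i hi
    simp at hi
  | insert a S ha ih =>
    intro F hF
    have h1 := ih F hF
    refine (Submodule.span_le.2 ?_) h1
    rintro G ⟨hG, hGS⟩
    obtain ⟨Gm, hsum, heig, hN⟩ := eig_dec (D a) k hk (c a) ω (hc a) hω G (hk' a G hG)
    rw [SetLike.mem_coe, hsum]
    refine Submodule.sum_mem _ fun m hm => Submodule.subset_span ⟨hN W (hW a) hG m, ?_⟩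
    intro i hi
    rw [Finset.mem_insert] at hi
    rcases hi with rfl | hi
    · exact ⟨⟨m, Finset.mem_range.1 hm⟩, heig m⟩
    · obtain ⟨m', hm'⟩ := hGS i hi
      refine ⟨m', ?_⟩
      have h2 := hN (LinearMap.ker (D i - (c i * ω ^ (m' : ℕ)) • LinearMap.id)) (by
        intro x hx
        rw [LinearMap.mem_ker, LinearMap.sub_apply, LinearMap.smul_apply, LinearMap.id_apply,
          sub_eq_zero] at hx ⊢
        rw [hcomm, hx, map_smul]) (by
        rw [LinearMap.mem_ker, LinearMap.sub_apply, LinearMap.smul_apply, LinearMap.id_apply,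
          sub_eq_zero]
        exact hm') m
      rw [LinearMap.mem_ker, LinearMap.sub_apply, LinearMap.smul_apply, LinearMap.id_apply,
        sub_eq_zero] at h2
      exact h2

end Proj

section Main

variable {V : Type} [AddCommGroup V] [Module ℚ V] {ι : Type} [Fintype ι] [DecidableEq ι]
variable {e : V →ₗ[ℚ] V →ₗ[ℚ] ℚ} {B : Module.Basis (ι ⊕ ι) ℚ V} {ζ L : V →ₗ[ℚ] (ι → ℂ)}

/-- the Heisenberg translation as a linear map -/
def TL (ζ L : V → ι → ℂ) (x : V) : ((ι → ℂ) → ℂ) →ₗ[ℂ] ((ι → ℂ) → ℂ) where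
  toFun := TT ζ L x
  map_add' := by
    intro F G
    funext z
    simp only [TT, Pi.add_apply]
    ring
  map_smul' := by
    intro a F
    funext z
    simp only [TT, Pi.smul_apply, smul_eq_mul, RingHom.id_apply]
    ring

theorem TL_apply (ζ L : V → ι → ℂ) (x : V) (F : (ι → ℂ) → ℂ) : TL ζ L x F = TT ζ L x F := rfl

/-- the space of theta functions of level `k` -/
def Wk (e : V →ₗ[ℚ] V →ₗ[ℚ] ℚ) (ζ L : V →ₗ[ℚ] (ι → ℂ)) (B : Module.Basis (ι ⊕ ι) ℚ V)
    (k : ℕ) (w : V) : Submodule ℂ ((ι → ℂ) → ℂ) where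
  carrier := {F | IsTk e ζ L B k w F}
  add_mem' := by
    intro F G hF hG
    exact IsTk.add hF hG
  zero_mem' := by
    constructor
    · exact differentiable_const 0
    · intro j z
      simp [TT]
  smul_mem' := by
    intro a F hF
    exact IsTk.smul hF a

/-- scaled basis: `(1/k) B_inl, B_inr` -/
def Bs (B : Module.Basis (ι ⊕ ι) ℚ V) (k : ℕ) (hk : 0 < k) : Module.Basis (ι ⊕ ι) ℚ V :=
  B.unitsSMul (Sum.elim (fun _ => Units.mk0 ((k : ℚ)⁻¹)
    (inv_ne_zero (Nat.cast_ne_zero.2 hk.ne'))) (fun _ => 1))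

theorem Bs_inl (k : ℕ) (hk : 0 < k) (i : ι) :
    Bs B k hk (Sum.inl i) = (k : ℚ)⁻¹ • B (Sum.inl i) := by
  unfold Bs
  rw [Module.Basis.unitsSMul_apply]
  rfl

theorem Bs_inr (k : ℕ) (hk : 0 < k) (i : ι) : Bs B k hk (Sum.inr i) = B (Sum.inr i) := by
  unfold Bs
  rw [Module.Basis.unitsSMul_apply]
  simp

theorem sympBasis_Bs (hS : SympBasis e B) (k : ℕ) (hk : 0 < k) :
    SympBasis (k • e) (Bs B k hk) := by
  have hk0 : (k : ℚ) ≠ 0 := Nat.cast_ne_zero.2 hk.ne'
  have hke : ∀ x y, (k • e) x y = (k : ℚ) * e x y := by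
    intro x y
    simp [nsmul_eq_mul]
  constructor
  · intro x
    rw [hke, hS.alt, mul_zero]
  · intro i j
    rw [hke, Bs_inl, Bs_inl]
    simp only [map_smul, LinearMap.smul_apply, hS.ll, smul_zero, mul_zero]
  · intro i j
    rw [hke, Bs_inr, Bs_inr, hS.rr, mul_zero]
  · intro i j
    rw [hke, Bs_inl, Bs_inr]
    simp only [map_smul, LinearMap.smul_apply, hS.lr, smul_eq_mul]
    rw [← mul_assoc, mul_inv_cancel₀ hk0, one_mul]

theorem isPStr_Bs (h : IsPStr e B ζ L) (k : ℕ) (hk : 0 < k) :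
    IsPStr (k • e) (Bs B k hk) ζ (k • L) := by
  have h1 := h.nsmul k hk
  have hk0 : (k : ℝ) ≠ 0 := Nat.cast_ne_zero.2 hk.ne'
  refine ⟨h1.rel, ?_⟩
  intro r hr
  set s : ι ⊕ ι → ℝ := Sum.elim (fun _ => (k : ℝ)⁻¹) (fun _ => 1) with hs
  have hs0 : ∀ j, s j ≠ 0 := by
    rintro (i | i)
    · exact inv_ne_zero hk0
    · exact one_ne_zero
  have hB : ∀ j, ∃ q : ℚ, (q : ℝ) = s j ∧ Bs B k hk j = q • B j := by
    rintro (i | i)
    · refine ⟨(k : ℚ)⁻¹, ?_, Bs_inl k hk i⟩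
      simp [hs]
    · refine ⟨1, ?_, ?_⟩
      · simp [hs]
      · rw [Bs_inr, one_smul]
  have h2 := h1.pos (fun j => r j * s j) (by
    intro h3
    apply hr
    funext j
    have := congrFun h3 j
    simp only [Pi.zero_apply, mul_eq_zero] at this
    exact this.resolve_right (hs0 j))
  have h3 : (∑ j, ∑ l, (r j : ℂ) * (r l : ℂ) * dotp ((k • L) (Bs B k hk j)) (ζ (Bs B k hk l))) =
      ∑ j, ∑ l, ((r j * s j : ℝ) : ℂ) * ((r l * s l : ℝ) : ℂ) *
        dotp ((k • L) (B j)) (ζ (B l)) := by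
    refine Finset.sum_congr rfl fun j _ => Finset.sum_congr rfl fun l _ => ?_
    obtain ⟨p, hp, hp'⟩ := hB j
    obtain ⟨q, hq, hq'⟩ := hB l
    rw [hp', hq', map_smul, map_smul, ← hp, ← hq]
    have e1 : (p • (k • L) (B j) : ι → ℂ) = (p : ℂ) • (k • L) (B j) := by
      funext i
      simp only [Pi.smul_apply, Rat.smul_def, smul_eq_mul]
    have e2 : (q • ζ (B l) : ι → ℂ) = (q : ℂ) • ζ (B l) := by
      funext i
      simp only [Pi.smul_apply, Rat.smul_def, smul_eq_mul]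
    rw [e1, e2, dotp_smul_left, dotp_smul_right]
    push_cast
    ring
  rw [h3]
  exact h2

/-- integer exponents -/
theorem exp_int (n : ℤ) : cexp (2 * Real.pi * I * ((n : ℚ) : ℂ)) = 1 := by
  have h := Complex.exp_int_mul_two_pi_mul_I n
  rw [← h]
  congr 1
  push_cast
  ring

theorem e_int (hS : SympBasis e B) (j : ι ⊕ ι) (i : ι) :
    ∃ n : ℤ, e (B j) (B (Sum.inl i)) = (n : ℚ) := by
  rcases j with j | j
  · exact ⟨0, by rw [hS.ll]; simp⟩
  · rw [e_swap hS.alt (B (Sum.inl i)) (B (Sum.inr j)), hS.lr]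
    split_ifs
    · exact ⟨-1, by simp⟩
    · exact ⟨0, by simp⟩

/-- uniqueness of eigenfunctions -/
theorem eig_unique (THU : Stmt_THU) (hS : SympBasis e B) (h : IsPStr e B ζ L) (k : ℕ) (hk : 0 < k)
    (r : ι ⊕ ι → ℚ) (F G : (ι → ℂ) → ℂ) (hFd : Differentiable ℂ F) (hGd : Differentiable ℂ G)
    (hF : ∀ j z, TT ζ (⇑(k • L)) (Bs B k hk j) F z = cexp (2 * Real.pi * I * (r j : ℚ)) * F z)
    (hG : ∀ j z, TT ζ (⇑(k • L)) (Bs B k hk j) G z = cexp (2 * Real.pi * I * (r j : ℚ)) * G z)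
    (hF0 : F ≠ 0) : ∃ a : ℂ, G = a • F := by
  have hS' := sympBasis_Bs hS k hk
  have h' := isPStr_Bs h k hk
  set y : V := ∑ i, (r (Sum.inr i) • Bs B k hk (Sum.inl i) - r (Sum.inl i) • Bs B k hk (Sum.inr i))
    with hy
  have hey : ∀ j, (k • e) (Bs B k hk j) y = - r j := by
    intro j
    rw [hy, map_sum]
    simp only [map_sub, map_smul, smul_eq_mul]
    rcases j with j | j
    · simp only [hS'.ll, hS'.lr, mul_zero, zero_sub, mul_ite, mul_one]
      rw [Finset.sum_neg_distrib, Finset.sum_ite_eq]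
      simp
    · have hsw : ∀ i, (k • e) (Bs B k hk (Sum.inr j)) (Bs B k hk (Sum.inl i)) =
          - (if i = j then 1 else 0) := by
        intro i
        rw [e_swap hS'.alt (Bs B k hk (Sum.inl i)) (Bs B k hk (Sum.inr j)), hS'.lr]
      simp only [hsw, hS'.rr, mul_zero, sub_zero, mul_neg, mul_ite, mul_one]
      rw [Finset.sum_neg_distrib, Finset.sum_ite_eq']
      simp
  have key : ∀ H : (ι → ℂ) → ℂ, Differentiable ℂ H →
      (∀ j z, TT ζ (⇑(k • L)) (Bs B k hk j) H z = cexp (2 * Real.pi * I * (r j : ℚ)) * H z) →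
      IsTh ζ (⇑(k • L)) (Bs B k hk) (TT ζ (⇑(k • L)) y H) := by
    intro H hH hj
    refine ⟨TT_differentiable y hH, ?_⟩
    intro j
    funext z
    rw [TT_comm' hS' h', hey j]
    have h1 : TT ζ (⇑(k • L)) (Bs B k hk j) H =
        fun z => cexp (2 * Real.pi * I * (r j : ℚ)) * H z := by
      funext z
      exact hj j z
    rw [h1, TT_smul, ← mul_assoc, ← Complex.exp_add]
    have h2 : 2 * Real.pi * I * ((-r j : ℚ) : ℂ) + 2 * Real.pi * I * ((r j : ℚ) : ℂ) = 0 := by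
      push_cast
      ring
    rw [h2, Complex.exp_zero, one_mul]
  obtain ⟨a, ha⟩ := THU V ι (k • e) (Bs B k hk) ζ (k • L) hS' h' _ _ (key F hFd hF)
    (key G hGd hG) (by
      intro h0
      exact hF0 ((TT_eq_iff_ne_zero (L := k • L) y F).1 h0))
  refine ⟨a, ?_⟩
  have h0 : TT ζ (⇑(k • L)) y (G - a • F) = 0 := by
    have e1 : TT ζ (⇑(k • L)) y (G - a • F) = TL ζ (⇑(k • L)) y (G - a • F) := rfl
    rw [e1, map_sub, map_smul, TL_apply, TL_apply, ha]
    funext z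
    simp
  exact sub_eq_zero.1 ((TT_eq_iff_ne_zero (L := k • L) y _).1 h0)

end Main

end DIM_

open DIM_

theorem dim_proof (THU : Stmt_THU) : Stmt_DIM := by
  intro V _ _ ι _ _ e B ζ L hS h k w hk F hF hind
  have hk0 : (k : ℚ) ≠ 0 := Nat.cast_ne_zero.2 hk.ne'
  have hkc : (k : ℂ) ≠ 0 := Nat.cast_ne_zero.2 hk.ne'
  set x : ι → V := fun i => (k : ℚ)⁻¹ • B (Sum.inl i) with hx
  set D : ι → ((ι → ℂ) → ℂ) →ₗ[ℂ] ((ι → ℂ) → ℂ) := fun i => TL ζ (⇑(k • L)) (x i) with hD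
  set c : ι → ℂ := fun i => cexp (2 * Real.pi * I * ((e (B (Sum.inl i)) w / k : ℚ) : ℂ)) with hc
  set ω : ℂ := cexp (2 * Real.pi * I / k) with hω
  have hωp : IsPrimitiveRoot ω k := Complex.isPrimitiveRoot_exp k hk.ne'
  -- powers of `D i`
  have hpow : ∀ i (s : ℕ) (G : (ι → ℂ) → ℂ), ((D i) ^ s) G =
      TT ζ (⇑(k • L)) ((s : ℚ) • x i) G := by
    intro i s G
    induction s with
    | zero =>
      rw [Nat.cast_zero, zero_smul, TTk_zero]
      rfl
    | succ s ih =>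
      rw [pow_succ' (D i) s]
      show D i (((D i) ^ s) G) = _
      rw [ih]
      funext z
      show TT ζ (⇑(k • L)) (x i) (TT ζ (⇑(k • L)) ((s : ℚ) • x i) G) z = _
      rw [TTk_TTk h, map_smul, hS.alt, smul_zero]
      have e1 : x i + (s : ℚ) • x i = ((s + 1 : ℕ) : ℚ) • x i := by
        push_cast
        rw [add_smul, one_smul, add_comm]
      rw [e1]
      simp
  have hW : ∀ i, ∀ G ∈ Wk e ζ L B k w, D i G ∈ Wk e ζ L B k w := by
    intro i G hG
    have hG' : IsTk e ζ L B k w G := hG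
    have h1 := hG'.translate hS h (x i)
    refine ⟨h1.entire, ?_⟩
    intro j z
    rw [show D i G = TT ζ (⇑(k • L)) (x i) G from rfl, h1.per j z]
    have e1 : (k : ℚ) • x i = B (Sum.inl i) := by
      rw [hx]
      show (k : ℚ) • ((k : ℚ)⁻¹ • B (Sum.inl i)) = _
      rw [smul_smul, mul_inv_cancel₀ hk0, one_smul]
    obtain ⟨n, hn⟩ := e_int hS j i
    rw [e1, map_add, hn]
    have e2 : 2 * Real.pi * I * ((e (B j) w + n : ℚ) : ℂ) =
        2 * Real.pi * I * ((e (B j) w : ℚ) : ℂ) + 2 * Real.pi * I * ((n : ℚ) : ℂ) := by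
      push_cast
      ring
    rw [e2, Complex.exp_add, exp_int, mul_one]
  have hk' : ∀ i, ∀ G ∈ Wk e ζ L B k w, ((D i) ^ k) G = (c i) ^ k • G := by
    intro i G hG
    have hG' : IsTk e ζ L B k w G := hG
    rw [hpow]
    have e1 : (k : ℚ) • x i = B (Sum.inl i) := by
      rw [hx]
      show (k : ℚ) • ((k : ℚ)⁻¹ • B (Sum.inl i)) = _
      rw [smul_smul, mul_inv_cancel₀ hk0, one_smul]
    rw [e1]
    funext z
    rw [hG'.per, Pi.smul_apply, smul_eq_mul, hc]
    show _ = cexp (2 * Real.pi * I * ((e (B (Sum.inl i)) w / k : ℚ) : ℂ)) ^ k * G z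
    rw [← Complex.exp_nat_mul]
    congr 2
    push_cast
    field_simp
  have hcomm : ∀ i j G, D i (D j G) = D j (D i G) := by
    intro i j G
    funext z
    show TT ζ (⇑(k • L)) (x i) (TT ζ (⇑(k • L)) (x j) G) z =
      TT ζ (⇑(k • L)) (x j) (TT ζ (⇑(k • L)) (x i) G) z
    rw [TTk_comm h k hS.alt]
    have e1 : e (x i) (x j) = 0 := by
      rw [hx]
      show e ((k : ℚ)⁻¹ • B (Sum.inl i)) ((k : ℚ)⁻¹ • B (Sum.inl j)) = 0
      simp only [map_smul, LinearMap.smul_apply, hS.ll, smul_zero]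
    rw [e1]
    simp
  have hdec := joint_dec D k hk c ω (fun i => Complex.exp_ne_zero _) hωp (Wk e ζ L B k w) hW hk'
    hcomm Finset.univ
  -- eigenlines
  have hline : ∀ m : ι → Fin k, ∃ g : (ι → ℂ) → ℂ, ∀ G ∈ Wk e ζ L B k w,
      (∀ i, D i G = (c i * ω ^ ((m i : Fin k) : ℕ)) • G) → ∃ a : ℂ, G = a • g := by
    intro m
    by_cases hex : ∃ g ∈ Wk e ζ L B k w, g ≠ 0 ∧
        ∀ i, D i g = (c i * ω ^ ((m i : Fin k) : ℕ)) • g
    · obtain ⟨g, hgW, hg0, hg⟩ := hex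
      refine ⟨g, fun G hG hGe => ?_⟩
      have hgW' : IsTk e ζ L B k w g := hgW
      have hG' : IsTk e ζ L B k w G := hG
      set r : ι ⊕ ι → ℚ := Sum.elim
        (fun i => e (B (Sum.inl i)) w / k + ((m i : Fin k) : ℕ) / k)
        (fun i => e (B (Sum.inr i)) w) with hr
      have hchar : ∀ H : (ι → ℂ) → ℂ, IsTk e ζ L B k w H →
          (∀ i, D i H = (c i * ω ^ ((m i : Fin k) : ℕ)) • H) → ∀ j z,
          TT ζ (⇑(k • L)) (Bs B k hk j) H z = cexp (2 * Real.pi * I * (r j : ℚ)) * H z := by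
        intro H hH hHe j z
        rcases j with i | i
        · rw [Bs_inl]
          have h1 := congrFun (hHe i) z
          have h2 : D i H z = TT ζ (⇑(k • L)) ((k : ℚ)⁻¹ • B (Sum.inl i)) H z := rfl
          rw [← h2, h1, Pi.smul_apply, smul_eq_mul]
          congr 1
          rw [hc, hω]
          show cexp (2 * Real.pi * I * ((e (B (Sum.inl i)) w / k : ℚ) : ℂ)) * _ = _
          rw [← Complex.exp_nat_mul, ← Complex.exp_add]
          congr 1
          show _ = 2 * Real.pi * I *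
            ((e (B (Sum.inl i)) w / k + ((m i : Fin k) : ℕ) / k : ℚ) : ℂ)
          push_cast
          ring
        · rw [Bs_inr]
          exact hH.per _ z
      exact eig_unique THU hS h k hk r g G hgW'.entire hG'.entire (hchar g hgW' hg)
        (hchar G hG' hGe) hg0
    · refine ⟨0, fun G hG hGe => ⟨0, ?_⟩⟩
      rw [smul_zero]
      by_contra hne
      exact hex ⟨G, hG, hne, hGe⟩
  choose g hg using hline
  have hspan : ∀ G ∈ Wk e ζ L B k w, G ∈ Submodule.span ℂ (Set.range g) := by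
    intro G hG
    refine (Submodule.span_le.2 ?_) (hdec G hG)
    rintro H ⟨hH, hHe⟩
    choose m hm using fun i => hHe i (Finset.mem_univ i)
    obtain ⟨a, ha⟩ := hg m H hH hm
    rw [SetLike.mem_coe, ha]
    exact Submodule.smul_mem _ _ (Submodule.subset_span ⟨m, rfl⟩)
  -- dimension count
  have hle : Submodule.span ℂ (Set.range F) ≤ Submodule.span ℂ (Set.range g) := by
    rw [Submodule.span_le]
    rintro _ ⟨a, rfl⟩
    exact hspan _ (hF a)
  have : Module.Finite ℂ (Submodule.span ℂ (Set.range g)) :=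
    FiniteDimensional.span_of_finite ℂ (Set.finite_range g)
  have h1 : Module.finrank ℂ (Submodule.span ℂ (Set.range F)) = k ^ Fintype.card ι + 1 := by
    rw [finrank_span_eq_card hind, Fintype.card_fin]
  have h2 := Submodule.finrank_mono hle
  have h3 : Module.finrank ℂ (Submodule.span ℂ (Set.range g)) ≤ k ^ Fintype.card ι := by
    have := finrank_range_le_card (R := ℂ) g
    rw [Set.finrank] at this
    rw [Fintype.card_fun, Fintype.card_fin] at this
    exact this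
  omega

end

end Pool.Agent.SPF
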