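import Pool.Agent.SPF.OutKit
import Pool.Agent.DRB.Osgood

/-!
# Module FRM: Taylor coefficients along lines and automorphisms of the complex numbers
-/

set_option linter.unusedSectionVars false

open scoped BigOperators Topology
open Complex MvPolynomial

namespace Pool.Agent.SPF

noncomputable section

namespace FRM_

/-- chain rule for polynomials -/
theorem chain {n : ℕ} {y : ℂ → Fin n → ℂ} {y' : Fin n → ℂ} {s : ℂ}
    (h : ∀ k, HasDerivAt (fun s => y s k) (y' k) s) (Q : MvPolynomial (Fin n) ℂ) :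
    HasDerivAt (fun s => MvPolynomial.eval (y s) Q)
      (∑ k, MvPolynomial.eval (y s) (pderiv k Q) * y' k) s := by
  induction Q using MvPolynomial.induction_on with
  | C a =>
    simp only [MvPolynomial.eval_C, MvPolynomial.pderiv_C, map_zero, zero_mul,
      Finset.sum_const_zero]
    exact hasDerivAt_const s a
  | add p q hp hq =>
    have := hp.add hq
    simp only [map_add, add_mul, Finset.sum_add_distrib]
    exact this
  | mul_X p j hp =>
    have := hp.mul (h j)
    simp only [map_mul, MvPolynomial.eval_X]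
    have e : (∑ k, MvPolynomial.eval (y s) (pderiv k p) * y' k) * y s j +
        MvPolynomial.eval (y s) p * y' j =
        ∑ k, MvPolynomial.eval (y s) (pderiv k (p * X j)) * y' k := by
      have e1 : ∀ k, MvPolynomial.eval (y s) (pderiv k (p * X j)) * y' k =
          MvPolynomial.eval (y s) (pderiv k p) * y' k * y s j +
            MvPolynomial.eval (y s) p * ((if k = j then 1 else 0) * y' k) := by
        intro k
        rw [Derivation.leibniz, MvPolynomial.pderiv_X]
        by_cases hk : k = j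
        · subst hk
          simp; ring
        · simp [hk]
          ring
      rw [Finset.sum_congr rfl fun k _ => e1 k, Finset.sum_add_distrib, Finset.sum_mul,
        ← Finset.mul_sum]
      congr 1
      simp
    rw [← e]
    exact this

/-- the derivation of the polynomial ring attached to a direction -/
def DD {g n : ℕ} (P : Fin g → Fin n → MvPolynomial (Fin n) ℂ) (m : Fin g → ℂ)
    (Q : MvPolynomial (Fin n) ℂ) : MvPolynomial (Fin n) ℂ :=
  ∑ k, pderiv k Q * ∑ i, C (m i) * P i k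

theorem eval_DD {g n : ℕ} (P : Fin g → Fin n → MvPolynomial (Fin n) ℂ) (m : Fin g → ℂ)
    (Q : MvPolynomial (Fin n) ℂ) (x : Fin n → ℂ) :
    MvPolynomial.eval x (DD P m Q) =
      ∑ k, MvPolynomial.eval x (pderiv k Q) * ∑ i, m i * MvPolynomial.eval x (P i k) := by
  simp [DD, map_sum, map_mul]

theorem map_alg {n : ℕ} {τ : ℂ ≃ₐ[ℚ] ℂ} (hτ : τ ∈ DRB.GalA) {P : MvPolynomial (Fin n) ℂ}
    (hP : DRB.AlgPoly P) : MvPolynomial.map (τ : ℂ →+* ℂ) P = P := by
  ext m
  rw [MvPolynomial.coeff_map]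
  exact hτ _ (hP m)

theorem map_DD {g n : ℕ} {P : Fin g → Fin n → MvPolynomial (Fin n) ℂ}
    (hP : ∀ i k, DRB.AlgPoly (P i k)) {τ : ℂ ≃ₐ[ℚ] ℂ} (hτ : τ ∈ DRB.GalA) (m : Fin g → ℂ)
    (Q : MvPolynomial (Fin n) ℂ) :
    MvPolynomial.map (τ : ℂ →+* ℂ) (DD P m Q) =
      DD P (fun l => τ (m l)) (MvPolynomial.map (τ : ℂ →+* ℂ) Q) := by
  simp only [DD, map_sum, map_mul, MvPolynomial.pderiv_map, MvPolynomial.map_C]
  refine Finset.sum_congr rfl fun k _ => ?_
  congr 1
  refine Finset.sum_congr rfl fun i _ => ?_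
  rw [map_alg hτ (hP i k)]
  rfl

theorem map_DD_iter {g n : ℕ} {P : Fin g → Fin n → MvPolynomial (Fin n) ℂ}
    (hP : ∀ i k, DRB.AlgPoly (P i k)) {τ : ℂ ≃ₐ[ℚ] ℂ} (hτ : τ ∈ DRB.GalA) (m : Fin g → ℂ)
    (r : ℕ) (Q : MvPolynomial (Fin n) ℂ) :
    MvPolynomial.map (τ : ℂ →+* ℂ) ((DD P m)^[r] Q) =
      (DD P (fun l => τ (m l)))^[r] (MvPolynomial.map (τ : ℂ →+* ℂ) Q) := by
  induction r with
  | zero => rfl
  | succ r ih =>
    rw [Function.iterate_succ_apply', Function.iterate_succ_apply', map_DD hP hτ, ih]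

theorem map_eval' {n : ℕ} {τ : ℂ ≃ₐ[ℚ] ℂ} (hτ : τ ∈ DRB.GalA) {x : Fin n → ℂ}
    (hx : ∀ k, IsAlgebraic ℚ (x k)) (Q : MvPolynomial (Fin n) ℂ) :
    MvPolynomial.eval x (MvPolynomial.map (τ : ℂ →+* ℂ) Q) = τ (MvPolynomial.eval x Q) := by
  induction Q using MvPolynomial.induction_on with
  | C a => simp
  | add p q hp hq => rw [map_add, map_add, map_add, hp, hq, map_add]
  | mul_X p j hp =>
    rw [map_mul, map_mul, map_mul, hp, map_mul, MvPolynomial.map_X, MvPolynomial.eval_X,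
      hτ _ (hx j)]

section

variable {g : ℕ} (A : DRB.AbVar g)

theorem f_diff {k : Fin A.nfun} {z : Fin g → ℂ} (hz : A.θ z ≠ 0) :
    DifferentiableAt ℂ (A.f k) z := by
  have h1 : DifferentiableAt ℂ (A.num k) z := A.num_entire k z
  have h2 : DifferentiableAt ℂ (fun z => A.θ z ^ A.wt) z := (A.θ_entire z).fun_pow _
  have h3 : DifferentiableAt ℂ (fun z => (A.θ z ^ A.wt)⁻¹) z := h2.fun_inv (pow_ne_zero _ hz)
  have e : A.f k = fun z => A.num k z * (A.θ z ^ A.wt)⁻¹ := by
    funext z; rw [DRB.AbVar.f, div_eq_mul_inv]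
  rw [e]
  exact h1.fun_mul h3

theorem Z_diff {j : Fin g} {z : Fin g → ℂ} (hz : A.θ z ≠ 0) : DifferentiableAt ℂ (A.Z j) z := by
  have h1 : DifferentiableAt ℂ (fun z => DRB.pd j A.θ z) z :=
    DRB.Osgood.differentiable_fderiv_apply A.θ_entire _ z
  have h2 : DifferentiableAt ℂ A.θ z := A.θ_entire z
  have h3 : DifferentiableAt ℂ (fun z => (A.θ z)⁻¹) z := h2.fun_inv hz
  have e : A.Z j = fun z => DRB.pd j A.θ z * (A.θ z)⁻¹ := by
    funext z; rw [DRB.AbVar.Z, div_eq_mul_inv]
  rw [e]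
  exact h1.fun_mul h3

/-- derivative along a line through the origin -/
theorem line {F : (Fin g → ℂ) → ℂ} {m : Fin g → ℂ} {s : ℂ} (hF : DifferentiableAt ℂ F (s • m)) :
    HasDerivAt (fun s : ℂ => F (s • m)) (∑ i, m i * DRB.pd i F (s • m)) s := by
  have h1 : HasDerivAt (fun s : ℂ => s • m) m s := by
    have := (hasDerivAt_id s).smul_const m
    simpa using this
  have h2 := hF.hasFDerivAt.comp_hasDerivAt s h1
  have h3 : fderiv ℂ F (s • m) m = ∑ i, m i * DRB.pd i F (s • m) := by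
    generalize s • m = w
    have e : m = ∑ i, m i • (Pi.single (M := fun _ => ℂ) i 1) := by
      funext l
      rw [Finset.sum_apply, Finset.sum_eq_single l]
      · simp
      · intro b _ hb
        simp [hb.symm]
      · simp
    conv_lhs => rw [e, map_sum]
    refine Finset.sum_congr rfl fun i _ => ?_
    rw [map_smul, smul_eq_mul]
    rfl
  rw [← h3]
  exact h2

theorem isOpen_U (m : Fin g → ℂ) : IsOpen {s : ℂ | A.θ (s • m) ≠ 0} := by
  have : Continuous fun s : ℂ => A.θ (s • m) :=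
    A.θ_entire.continuous.comp (continuous_id.smul continuous_const)
  exact isOpen_ne_fun this continuous_const

variable {A} {P : Fin g → Fin A.nfun → MvPolynomial (Fin A.nfun) ℂ}

theorem der_eval (hP : ∀ i k z, A.θ z ≠ 0 →
      DRB.pd i (A.f k) z = MvPolynomial.eval (fun l => A.f l z) (P i k))
    (m : Fin g → ℂ) {s : ℂ} (hs : A.θ (s • m) ≠ 0) (Q : MvPolynomial (Fin A.nfun) ℂ) :
    HasDerivAt (fun s : ℂ => MvPolynomial.eval (fun l => A.f l (s • m)) Q)
      (MvPolynomial.eval (fun l => A.f l (s • m)) (DD P m Q)) s := by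
  have h1 := chain (y := fun s l => A.f l (s • m))
    (y' := fun k => ∑ i, m i * DRB.pd i (A.f k) (s • m)) (s := s)
    (fun k => line (f_diff A hs)) Q
  rw [eval_DD]
  simp only [hP _ _ _ hs] at h1
  exact h1

theorem iter_eval (hP : ∀ i k z, A.θ z ≠ 0 →
      DRB.pd i (A.f k) z = MvPolynomial.eval (fun l => A.f l z) (P i k))
    (m : Fin g → ℂ) (r : ℕ) (Q : MvPolynomial (Fin A.nfun) ℂ) :
    ∀ s : ℂ, A.θ (s • m) ≠ 0 →
    iteratedDeriv r (fun s : ℂ => MvPolynomial.eval (fun l => A.f l (s • m)) Q) s =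
      MvPolynomial.eval (fun l => A.f l (s • m)) ((DD P m)^[r] Q) := by
  induction r with
  | zero => intro s _; rw [iteratedDeriv_zero]; rfl
  | succ r ih =>
    intro s hs
    rw [iteratedDeriv_succ, Function.iterate_succ_apply']
    have h1 : iteratedDeriv r (fun s : ℂ => MvPolynomial.eval (fun l => A.f l (s • m)) Q) =ᶠ[𝓝 s]
        fun s => MvPolynomial.eval (fun l => A.f l (s • m)) ((DD P m)^[r] Q) := by
      filter_upwards [(isOpen_U A m).mem_nhds hs] with t ht
      exact ih t ht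
    rw [h1.deriv_eq]
    exact (der_eval hP m hs _).deriv

theorem iter_Z (hP : ∀ i k z, A.θ z ≠ 0 →
      DRB.pd i (A.f k) z = MvPolynomial.eval (fun l => A.f l z) (P i k)) {j : Fin g}
    {Pz : Fin g → MvPolynomial (Fin A.nfun) ℂ} (hPz : ∀ i z, A.θ z ≠ 0 →
      DRB.pd i (A.Z j) z = MvPolynomial.eval (fun l => A.f l z) (Pz i))
    (m : Fin g → ℂ) (r : ℕ) :
    ∀ s : ℂ, A.θ (s • m) ≠ 0 →
    iteratedDeriv (r + 1) (fun s : ℂ => A.Z j (s • m)) s =
      MvPolynomial.eval (fun l => A.f l (s • m)) ((DD P m)^[r] (∑ i, C (m i) * Pz i)) := by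
  induction r with
  | zero =>
    intro s hs
    rw [zero_add, iteratedDeriv_one, (line (Z_diff A hs)).deriv]
    simp only [Function.iterate_zero, id_eq, map_sum, map_mul, MvPolynomial.eval_C, hPz _ _ hs]
  | succ r ih =>
    intro s hs
    rw [iteratedDeriv_succ, Function.iterate_succ_apply']
    have h1 : iteratedDeriv (r + 1) (fun s : ℂ => A.Z j (s • m)) =ᶠ[𝓝 s]
        fun s => MvPolynomial.eval (fun l => A.f l (s • m))
          ((DD P m)^[r] (∑ i, C (m i) * Pz i)) := by
      filter_upwards [(isOpen_U A m).mem_nhds hs] with t ht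
      exact ih t ht
    rw [h1.deriv_eq]
    exact (der_eval hP m hs _).deriv

end

end FRM_

open FRM_ in
theorem frm_proof : Stmt_FRM := by
  intro g A τ hτ m r
  choose P hPa hP using A.alg_f
  have hP' : ∀ i k z, A.θ z ≠ 0 →
      DRB.pd i (A.f k) z = MvPolynomial.eval (fun l => A.f l z) (P i k) := hP
  have h0 : ∀ m : Fin g → ℂ, A.θ ((0 : ℂ) • m) ≠ 0 := by
    intro m; rw [zero_smul]; exact A.θ_zero
  have hx : ∀ k, IsAlgebraic ℚ (A.f k 0) := A.alg_zero
  constructor
  · intro j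
    have e : ∀ m : Fin g → ℂ, (fun s : ℂ => A.f j (s • m)) =
        fun s : ℂ => MvPolynomial.eval (fun l => A.f l (s • m)) (X j) := by
      intro m; funext s; rw [MvPolynomial.eval_X]
    rw [e m, e (fun l => τ (m l)), iter_eval hP' _ r _ 0 (h0 _), iter_eval hP' _ r _ 0 (h0 _)]
    simp only [zero_smul]
    rw [← map_eval' hτ hx, map_DD_iter hPa hτ, MvPolynomial.map_X]
  · intro hr j
    obtain ⟨r', rfl⟩ : ∃ r', r = r' + 1 := ⟨r - 1, by omega⟩
    choose Pz hPza hPz using fun i => A.alg_θ i j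
    have hPz' : ∀ i z, A.θ z ≠ 0 →
        DRB.pd i (A.Z j) z = MvPolynomial.eval (fun l => A.f l z) (Pz i) := hPz
    rw [iter_Z hP' hPz' _ r' 0 (h0 _), iter_Z hP' hPz' _ r' 0 (h0 _)]
    simp only [zero_smul]
    rw [← map_eval' hτ hx, map_DD_iter hPa hτ, map_sum]
    simp only [map_mul, MvPolynomial.map_C, map_alg hτ (hPza _)]
    rfl

end

end Pool.Agent.SPF
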