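import Pool.Agent.SPF.OutKit
import Pool.Agent.SPF.OsgoodL
import Pool.Agent.DRB.Stmts

set_option linter.unusedSectionVars false

/-!
# Module HM1: homomorphisms between abelian varieties over the algebraic numbers are algebraic
-/

open scoped BigOperators
open Complex

namespace Pool.Agent.SPF

noncomputable section

namespace HM1_

/-! ## Analysis -/

theorem countable_zeros {f : ℂ → ℂ} (hf : Differentiable ℂ f) {x : ℂ} (hx : f x ≠ 0) :
    {s | f s = 0}.Countable := by
  have h1 : AnalyticOnNhd ℂ f Set.univ := fun s _ => hf.analyticAt s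
  have h2 := h1.preimage_zero_mem_codiscrete hx
  rw [mem_codiscrete'] at h2
  have h3 : {s | f s = 0} = (f ⁻¹' {0}ᶜ)ᶜ := by
    ext s; simp
  rw [h3]
  exact (HereditarilyLindelofSpace.isLindelof _).countable_of_isDiscrete h2.2

variable {g g' : ℕ}

theorem line_zero {Θ G : (Fin g → ℂ) → ℂ} (hΘ : Differentiable ℂ Θ) (h0 : Θ 0 ≠ 0)
    (hG : DifferentiableOn ℂ G {z | Θ z ≠ 0}) {a : Fin g → ℂ} (ha : Θ a ≠ 0)
    (h : ∀ᶠ s in nhds (0 : ℂ), G (s • a) = 0) : G a = 0 := by
  have hl : Differentiable ℂ fun s : ℂ => s • a := differentiable_id.smul_const a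
  have h1 : Differentiable ℂ fun s : ℂ => Θ (s • a) := hΘ.comp hl
  have hc : {s : ℂ | Θ (s • a) = 0}.Countable :=
    countable_zeros h1 (x := 0) (by simpa using h0)
  have hconn : IsPreconnected {s : ℂ | Θ (s • a) = 0}ᶜ :=
    (hc.isConnected_compl_of_one_lt_rank (by rw [Complex.rank_real_complex]; norm_num)).isPreconnected
  have hopen : IsOpen {s : ℂ | Θ (s • a) = 0}ᶜ := by
    rw [isOpen_compl_iff]
    exact isClosed_eq h1.continuous continuous_const
  have h2 : DifferentiableOn ℂ (fun s : ℂ => G (s • a)) {s : ℂ | Θ (s • a) = 0}ᶜ :=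
    hG.comp hl.differentiableOn fun s hs => hs
  have h3 := (h2.analyticOnNhd hopen).eqOn_zero_of_preconnected_of_eventuallyEq_zero hconn
    (z₀ := 0) (by simpa using h0) h
  have h4 := h3 (x := 1) (by simpa using ha)
  simpa using h4

theorem dense_alg : Dense {z : ℂ | IsAlgebraic ℚ z} := by
  have h1 : DenseRange (fun p : ℚ × ℚ => ((p.1 : ℝ), (p.2 : ℝ))) :=
    Rat.denseRange_cast.prodMap Rat.denseRange_cast
  have h2 : DenseRange (fun p : ℚ × ℚ => Complex.equivRealProdCLM.symm ((p.1 : ℝ), (p.2 : ℝ))) :=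
    (Complex.equivRealProdCLM.symm.surjective.denseRange).comp h1
      Complex.equivRealProdCLM.symm.continuous
  refine Dense.mono ?_ h2
  rintro z ⟨p, rfl⟩
  show IsAlgebraic ℚ _
  have h3 : (Complex.equivRealProdCLM.symm ((p.1 : ℝ), (p.2 : ℝ)) : ℂ) = (p.1 : ℂ) + (p.2 : ℂ) * I := by
    apply Complex.ext <;> simp
  show IsAlgebraic ℚ (Complex.equivRealProdCLM.symm ((p.1 : ℝ), (p.2 : ℝ)) : ℂ)
  rw [h3]
  have hI : IsAlgebraic ℚ I := by
    refine ⟨Polynomial.X ^ 2 + 1, ?_, ?_⟩
    · intro h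
      have := congrArg (Polynomial.eval 0) h
      simp at this
    · simp
  have hq : ∀ q : ℚ, IsAlgebraic ℚ (q : ℂ) := fun q => isAlgebraic_algebraMap (A := ℂ) q
  exact (hq _).add ((hq _).mul hI)

theorem dense_algN : Dense {z : Fin g → ℂ | ∀ i, IsAlgebraic ℚ (z i)} := by
  have h := dense_pi (α := fun _ : Fin g => ℂ) Set.univ
    (s := fun _ => {z : ℂ | IsAlgebraic ℚ z}) (fun i _ => dense_alg)
  refine Dense.mono ?_ h
  intro z hz i
  exact hz i (Set.mem_univ i)

theorem dense_ne {f : (Fin g → ℂ) → ℂ} (hf : Differentiable ℂ f) {p : Fin g → ℂ}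
    (hp : f p ≠ 0) : Dense {z | f z ≠ 0} := by
  rw [dense_iff_inter_open]
  rintro U hU ⟨z, hz⟩
  by_contra hne
  rw [Set.not_nonempty_iff_eq_empty] at hne
  have hU0 : ∀ w ∈ U, f w = 0 := by
    intro w hw
    by_contra h
    have : w ∈ U ∩ {z | f z ≠ 0} := ⟨hw, h⟩
    rw [hne] at this
    exact this
  have hl : Differentiable ℂ fun s : ℂ => z + s • (p - z) :=
    (differentiable_id.smul_const _).const_add _
  have h1 : Differentiable ℂ fun s : ℂ => f (z + s • (p - z)) := hf.comp hl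
  have h2 : AnalyticOnNhd ℂ (fun s : ℂ => f (z + s • (p - z))) Set.univ :=
    fun s _ => h1.analyticAt s
  have h3 : ∀ᶠ s in nhds (0 : ℂ), f (z + s • (p - z)) = 0 := by
    have h4 : ∀ᶠ s in nhds (0 : ℂ), z + s • (p - z) ∈ U :=
      hl.continuous.continuousAt.eventually_mem (by simpa using hU.mem_nhds hz)
    exact h4.mono fun s hs => hU0 _ hs
  have h5 := h2.eqOn_zero_of_preconnected_of_eventuallyEq_zero isPreconnected_univ
    (Set.mem_univ 0) h3
  have h6 := h5 (Set.mem_univ 1)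
  simp at h6
  exact hp h6

theorem differentiableOn_eval {κ : Type} [Fintype κ] {E : Type} [NormedAddCommGroup E]
    [NormedSpace ℂ E] {U : Set E} {h : κ → E → ℂ} (hh : ∀ o, DifferentiableOn ℂ (h o) U)
    (P : MvPolynomial κ ℂ) :
    DifferentiableOn ℂ (fun z => MvPolynomial.eval (fun o => h o z) P) U := by
  have h1 : (fun z => MvPolynomial.eval (fun o => h o z) P) =
      fun z => ∑ d ∈ P.support, P.coeff d * ∏ i, h i z ^ d i := by
    funext z
    rw [MvPolynomial.eval_eq']
  rw [h1]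
  refine DifferentiableOn.fun_sum fun d _ => ?_
  have h2 : ∀ s : Finset κ, DifferentiableOn ℂ (fun z => ∏ i ∈ s, h i z ^ d i) U := by
    intro s
    classical
    induction s using Finset.induction_on with
    | empty =>
      simp only [Finset.prod_empty]
      exact differentiableOn_const _
    | insert a s ha ih =>
      simp only [Finset.prod_insert ha]
      exact ((hh a).fun_pow _).fun_mul ih
  exact (h2 Finset.univ).const_mul _

/-! ## Abelian varieties -/

/-- `v` is a period of the factor of automorphy -/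
def Auto (A : DRB.AbVar g) (v : Fin g → ℂ) : Prop :=
  ∃ (a : Fin g → ℂ) (b : ℂ), (∀ w, A.θ (w + v) = cexp ((∑ l, a l * w l) + b) * A.θ w) ∧
    ∀ k w, A.num k (w + v) = cexp (A.wt * ((∑ l, a l * w l) + b)) * A.num k w

theorem auto_lat (A : DRB.AbVar g) (i : DRB.Idx g) : Auto A (A.lat i) :=
  ⟨A.lin i, A.cst i, A.θ_aut i, fun k w => A.num_aut k i w⟩

theorem auto_zero (A : DRB.AbVar g) : Auto A 0 :=
  ⟨0, 0, fun w => by simp, fun k w => by simp⟩

theorem auto_add (A : DRB.AbVar g) {v v' : Fin g → ℂ} (h : Auto A v) (h' : Auto A v') :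
    Auto A (v + v') := by
  obtain ⟨a, b, h1, h2⟩ := h
  obtain ⟨a', b', h1', h2'⟩ := h'
  have key : ∀ w : Fin g → ℂ, (∑ l, a' l * (w + v) l) + b' + ((∑ l, a l * w l) + b) =
      (∑ l, (a + a') l * w l) + (b + b' + ∑ l, a' l * v l) := by
    intro w
    simp only [Pi.add_apply, mul_add, add_mul, Finset.sum_add_distrib]
    ring
  refine ⟨a + a', b + b' + ∑ l, a' l * v l, fun w => ?_, fun k w => ?_⟩
  · rw [← add_assoc, h1', h1, ← mul_assoc, ← Complex.exp_add, key]
  · rw [← add_assoc, h2', h2, ← mul_assoc, ← Complex.exp_add, ← mul_add, key]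

theorem auto_neg (A : DRB.AbVar g) {v : Fin g → ℂ} (h : Auto A v) : Auto A (-v) := by
  obtain ⟨a, b, h1, h2⟩ := h
  have key : ∀ w : Fin g → ℂ, (∑ l, a l * (w + -v) l) + b =
      -((∑ l, (-a) l * w l) + (-b + ∑ l, a l * v l)) := by
    intro w
    simp only [Pi.add_apply, Pi.neg_apply, mul_add, mul_neg, neg_mul, Finset.sum_add_distrib,
      Finset.sum_neg_distrib]
    ring
  refine ⟨-a, -b + ∑ l, a l * v l, fun w => ?_, fun k w => ?_⟩
  · have h3 := h1 (w + -v)
    rw [neg_add_cancel_right, key, Complex.exp_neg] at h3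
    rw [h3, ← mul_assoc, mul_inv_cancel₀ (Complex.exp_ne_zero _), one_mul]
  · have h3 := h2 k (w + -v)
    rw [neg_add_cancel_right, key, mul_neg, Complex.exp_neg] at h3
    rw [h3, ← mul_assoc, mul_inv_cancel₀ (Complex.exp_ne_zero _), one_mul]

/-- the group of periods -/
def autoGroup (A : DRB.AbVar g) : AddSubgroup (Fin g → ℂ) where
  carrier := {v | Auto A v}
  add_mem' := fun h h' => auto_add A h h'
  zero_mem' := auto_zero A
  neg_mem' := fun h => auto_neg A h

theorem auto_sum (A : DRB.AbVar g) (n : DRB.Idx g → ℤ) : Auto A (∑ k, (n k : ℂ) • A.lat k) := by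
  have : (∑ k, (n k : ℂ) • A.lat k) ∈ autoGroup A := by
    refine sum_mem fun k _ => ?_
    have h1 : (n k : ℂ) • A.lat k = n k • A.lat k := by
      funext i
      simp
    rw [h1]
    exact zsmul_mem (auto_lat A k) _
  exact this

theorem auto_f (A : DRB.AbVar g) {v : Fin g → ℂ} (h : Auto A v) (k : Fin A.nfun)
    (w : Fin g → ℂ) : A.f k (w + v) = A.f k w := by
  obtain ⟨a, b, h1, h2⟩ := h
  unfold DRB.AbVar.f
  rw [h1, h2, mul_pow, ← Complex.exp_nat_mul]
  exact mul_div_mul_left _ _ (Complex.exp_ne_zero _)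

theorem auto_theta (A : DRB.AbVar g) {v : Fin g → ℂ} (h : Auto A v) (w : Fin g → ℂ) :
    A.θ (w + v) ≠ 0 ↔ A.θ w ≠ 0 := by
  obtain ⟨a, b, h1, h2⟩ := h
  rw [h1]
  simp [Complex.exp_ne_zero]

theorem differentiableOn_f (A : DRB.AbVar g) (k : Fin A.nfun) :
    DifferentiableOn ℂ (A.f k) {z | A.θ z ≠ 0} := by
  intro z hz
  have h0 : A.θ z ^ A.wt ≠ 0 := pow_ne_zero _ hz
  have h2 : DifferentiableAt ℂ (fun z => A.θ z ^ A.wt) z := (A.θ_entire z).fun_pow A.wt
  have h3 : DifferentiableAt ℂ (fun z => (A.θ z ^ A.wt)⁻¹) z := h2.fun_inv h0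
  have h1 : DifferentiableAt ℂ (fun z => A.num k z / A.θ z ^ A.wt) z := by
    simp only [div_eq_mul_inv]
    exact (A.num_entire k z).fun_mul h3
  exact h1.differentiableWithinAt

theorem isOpen_theta (A : DRB.AbVar g) : IsOpen {z | A.θ z ≠ 0} :=
  isOpen_ne_fun A.θ_entire.continuous continuous_const

theorem exists_K (A : DRB.AbVar g) : ∃ K : Fin g → Fin A.nfun,
    (Matrix.of fun i j => pd j (A.f (K i)) 0).det ≠ 0 := by
  let r : Fin A.nfun → (Fin g → ℂ) := fun k j => pd j (A.f k) 0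
  have hspan : Submodule.span ℂ (Set.range r) = ⊤ := by
    by_contra hne
    obtain ⟨φ, hφ, hle⟩ := Submodule.exists_le_ker_of_lt_top _ (lt_top_iff_ne_top.2 hne)
    apply hφ
    have hv := A.imm (fun i => φ (Pi.single i 1)) (by
      intro k
      have h1 : φ (r k) = 0 := hle (Submodule.subset_span ⟨k, rfl⟩)
      have h2 : r k = ∑ i, r k i • (Pi.single i (1 : ℂ) : Fin g → ℂ) := by
        funext j
        simp [Finset.sum_apply, Pi.single_apply]
      rw [h2, map_sum] at h1
      have h3 : (fun i => φ (Pi.single i 1)) =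
          ∑ i, φ (Pi.single i 1) • (Pi.single i (1 : ℂ) : Fin g → ℂ) := by
        funext j
        simp [Finset.sum_apply, Pi.single_apply]
      rw [h3, map_sum, ← h1]
      refine Finset.sum_congr rfl fun i _ => ?_
      rw [map_smul, map_smul, smul_eq_mul, smul_eq_mul, mul_comm]
      rfl)
    refine LinearMap.pi_ext' fun i => ?_
    refine LinearMap.ext_ring ?_
    have := congrFun hv i
    simpa using this
  have hfin : Module.finrank ℂ (Submodule.span ℂ (Set.range r)) = g := by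
    rw [hspan, finrank_top, Module.finrank_fin_fun]
  obtain ⟨f, hf, -, hind⟩ := Submodule.exists_fun_fin_finrank_span_eq ℂ (Set.range r)
  choose K hK using hf
  let e : Fin g ≃ Fin (Module.finrank ℂ (Submodule.span ℂ (Set.range r))) := finCongr hfin.symm
  refine ⟨fun i => K (e i), ?_⟩
  have h1 : LinearIndependent ℂ (fun i => f (e i)) := hind.comp e e.injective
  have h2 : (Matrix.of fun i j => pd j (A.f (K (e i))) 0).row = fun i => f (e i) := by
    funext i
    rw [← hK (e i)]
    rfl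
  rw [← h2] at h1
  exact ((Matrix.isUnit_iff_isUnit_det _).1
    (Matrix.linearIndependent_rows_iff_isUnit.1 h1)).ne_zero

theorem exists_den {κ : Type} [Fintype κ] (q : κ → ℚ) :
    ∃ N : ℕ, 0 < N ∧ ∃ n : κ → ℤ, ∀ k, (N : ℚ) * q k = n k := by
  refine ⟨∏ k, (q k).den, Finset.prod_pos fun k _ => (q k).den_pos, ?_⟩
  have h : ∀ k, ∃ n : ℤ, ((∏ k, (q k).den : ℕ) : ℚ) * q k = n := by
    intro k
    obtain ⟨m, hm⟩ := Finset.dvd_prod_of_mem (fun k => (q k).den) (Finset.mem_univ k)
    refine ⟨m * (q k).num, ?_⟩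
    rw [hm]
    push_cast
    have h1 : ((q k).den : ℚ) * q k = (q k).num := Rat.den_mul_eq_num (q k)
    linear_combination (m : ℚ) * h1
  choose n hn using h
  exact ⟨n, hn⟩

theorem exists_P (hPRL : Stmt_PRL) (A : DRB.AbVar g) (A' : DRB.AbVar g')
    (M : Matrix (Fin g') (Fin g) ℂ) (R : Matrix (DRB.Idx g') (DRB.Idx g) ℚ)
    (h : ∀ j, M.mulVec (A.lat j) = ∑ k, ((R k j : ℚ) : ℂ) • A'.lat k)
    (K : Fin g → Fin A.nfun) (j : Fin A'.nfun) :
    ∃ P : MvPolynomial (Option (Fin g)) ℂ, P ≠ 0 ∧ ∀ z, A.θ z ≠ 0 → A'.θ (M.mulVec z) ≠ 0 →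
      MvPolynomial.eval (fun o : Option (Fin g) =>
        o.elim (A'.f j (M.mulVec z)) (fun i => A.f (K i) z)) P = 0 := by
  obtain ⟨N, hN, n, hn⟩ := exists_den (fun p : DRB.Idx g' × DRB.Idx g => R p.1 p.2)
  have hauto : ∀ i, Auto A' (M.mulVec ((N : ℂ) • A.lat i)) := by
    intro i
    have h1 : M.mulVec ((N : ℂ) • A.lat i) = ∑ k, ((n (k, i) : ℤ) : ℂ) • A'.lat k := by
      rw [Matrix.mulVec_smul, h, Finset.smul_sum]
      refine Finset.sum_congr rfl fun k _ => ?_
      rw [smul_smul]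
      congr 1
      have := hn (k, i)
      exact_mod_cast congrArg (fun q : ℚ => (q : ℂ)) this
    rw [h1]
    exact auto_sum A' _
  choose a b hθ hnum using hauto
  have hMd : Differentiable ℂ fun z : Fin g → ℂ => M.mulVec z :=
    (LinearMap.toContinuousLinearMap (Matrix.mulVecLin M)).differentiable
  have key : ∀ i (z : Fin g → ℂ), (A'.wt : ℂ) * ((∑ l, a i l * (M.mulVec z) l) + b i) =
      (∑ l, (A'.wt * ∑ k, a i k * M k l) * z l) + A'.wt * b i := by
    intro i z
    simp only [Matrix.mulVec, dotProduct, Finset.mul_sum, Finset.sum_mul, mul_add]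
    rw [Finset.sum_comm]
    congr 1
    refine Finset.sum_congr rfl fun l _ => Finset.sum_congr rfl fun k _ => ?_
    ring
  obtain ⟨P, hP, hrel⟩ := hPRL g A N (fun z => A'.num j (M.mulVec z))
    (fun z => A'.θ (M.mulVec z) ^ A'.wt) (fun i l => A'.wt * ∑ k, a i k * M k l)
    (fun i => A'.wt * b i) hN ((A'.num_entire j).comp hMd) ((A'.θ_entire.comp hMd).pow _)
    (fun i z => by
      rw [Matrix.mulVec_add, hnum i, key])
    (fun i z => by
      rw [Matrix.mulVec_add, hθ i, mul_pow, ← Complex.exp_nat_mul, key]) K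
  exact ⟨P, hP, fun z hz hz' => hrel z hz (pow_ne_zero _ hz')⟩

theorem galois (hFRM : Stmt_FRM) (hTRF : Stmt_TRF) (A : DRB.AbVar g) (A' : DRB.AbVar g')
    (M : Matrix (Fin g') (Fin g) ℂ) (K : Fin g → Fin A.nfun) (j : Fin A'.nfun)
    (P : MvPolynomial (Option (Fin g)) ℂ)
    (hrel : ∀ z, A.θ z ≠ 0 → A'.θ (M.mulVec z) ≠ 0 →
      MvPolynomial.eval (fun o : Option (Fin g) =>
        o.elim (A'.f j (M.mulVec z)) (fun i => A.f (K i) z)) P = 0)
    (τ : ℂ ≃ₐ[ℚ] ℂ) (hτ : τ ∈ DRB.GalA) (z : Fin g → ℂ) (hz : A.θ z ≠ 0)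
    (hz' : A'.θ ((M.map τ).mulVec z) ≠ 0) :
      MvPolynomial.eval (fun o : Option (Fin g) =>
        o.elim (A'.f j ((M.map τ).mulVec z)) (fun i => A.f (K i) z))
        (MvPolynomial.map (τ : ℂ →+* ℂ) P) = 0 := by
  have hMd : ∀ M : Matrix (Fin g') (Fin g) ℂ, Differentiable ℂ fun z : Fin g → ℂ => M.mulVec z :=
    fun M => (LinearMap.toContinuousLinearMap (Matrix.mulVecLin M)).differentiable
  set Θ : (Fin g → ℂ) → ℂ := fun z => A.θ z * A'.θ ((M.map τ).mulVec z) with hΘ
  set G : (Fin g → ℂ) → ℂ := fun z => MvPolynomial.eval (fun o : Option (Fin g) =>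
        o.elim (A'.f j ((M.map τ).mulVec z)) (fun i => A.f (K i) z))
        (MvPolynomial.map (τ : ℂ →+* ℂ) P) with hG
  have hΘd : Differentiable ℂ Θ := A.θ_entire.mul (A'.θ_entire.comp (hMd _))
  have hΘ0 : Θ 0 ≠ 0 := by
    simp only [hΘ, Matrix.mulVec_zero]
    exact mul_ne_zero A.θ_zero A'.θ_zero
  have hGd : DifferentiableOn ℂ G {z | Θ z ≠ 0} := by
    refine differentiableOn_eval (h := fun (o : Option (Fin g)) (z : Fin g → ℂ) =>
      o.elim (A'.f j ((M.map τ).mulVec z)) (fun i => A.f (K i) z)) ?_ _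
    rintro (_ | i)
    · exact (differentiableOn_f A' j).comp (hMd _).differentiableOn
        fun z hz => right_ne_zero_of_mul hz
    · exact (differentiableOn_f A (K i)).mono fun z hz => left_ne_zero_of_mul hz
  have hopen : IsOpen {z | Θ z ≠ 0} := isOpen_ne_fun hΘd.continuous continuous_const
  -- algebraic points
  have halg : ∀ a : Fin g → ℂ, (∀ i, IsAlgebraic ℚ (a i)) → Θ a ≠ 0 → G a = 0 := by
    intro a ha hΘa
    refine line_zero hΘd hΘ0 hGd hΘa ?_
    have hτa : (fun l => τ (a l)) = a := by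
      funext l
      exact hτ _ (ha l)
    have hτM : (fun l => τ ((M.mulVec a) l)) = (M.map τ).mulVec a := by
      funext l
      simp only [Matrix.mulVec, dotProduct, Matrix.map_apply, map_sum, map_mul]
      refine Finset.sum_congr rfl fun k _ => ?_
      rw [hτ _ (ha k)]
    have hsm : ∀ (M : Matrix (Fin g') (Fin g) ℂ) (s : ℂ), M.mulVec (s • a) = s • M.mulVec a :=
      fun M s => Matrix.mulVec_smul _ _ _
    have han : ∀ (n : ℕ) (C : DRB.AbVar n) (k : Fin C.nfun) (b : Fin n → ℂ),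
        AnalyticAt ℂ (fun s : ℂ => C.f k (s • b)) 0 := by
      intro n C k b
      have hl : Differentiable ℂ fun s : ℂ => s • b := differentiable_id.smul_const b
      have ho : IsOpen {s : ℂ | C.θ (s • b) ≠ 0} :=
        isOpen_ne_fun (C.θ_entire.comp hl).continuous continuous_const
      have hd : DifferentiableOn ℂ (fun s : ℂ => C.f k (s • b)) {s : ℂ | C.θ (s • b) ≠ 0} :=
        (differentiableOn_f C k).comp hl.differentiableOn fun s hs => hs
      exact hd.analyticAt (ho.mem_nhds (by simpa using C.θ_zero))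
    have hT := hTRF (Option (Fin g))
      (fun o s => o.elim (A'.f j (s • M.mulVec a)) (fun i => A.f (K i) (s • a)))
      (fun o s => o.elim (A'.f j (s • (M.map τ).mulVec a)) (fun i => A.f (K i) (s • a))) τ
      (by
        rintro (_ | i)
        · exact han g' A' j _
        · exact han g A (K i) _)
      (by
        rintro (_ | i)
        · exact han g' A' j _
        · exact han g A (K i) _)
      (by
        rintro (_ | i) r
        · have := (hFRM g' A' τ hτ (M.mulVec a) r).1 j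
          rw [hτM] at this
          exact this
        · have := (hFRM g A τ hτ a r).1 (K i)
          rw [hτa] at this
          exact this) P
      (by
        have hl : Continuous fun s : ℂ => A.θ (s • a) :=
          A.θ_entire.continuous.comp (continuous_id.smul continuous_const)
        have hl' : Continuous fun s : ℂ => A'.θ (s • M.mulVec a) :=
          A'.θ_entire.continuous.comp (continuous_id.smul continuous_const)
        have e1 : ∀ᶠ s in nhds (0 : ℂ), A.θ (s • a) ≠ 0 :=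
          hl.continuousAt.eventually_ne (by simpa using A.θ_zero)
        have e2 : ∀ᶠ s in nhds (0 : ℂ), A'.θ (s • M.mulVec a) ≠ 0 :=
          hl'.continuousAt.eventually_ne (by simpa using A'.θ_zero)
        filter_upwards [e1, e2] with s h1 h2
        have := hrel (s • a) h1 (by rw [hsm]; exact h2)
        rw [hsm] at this
        exact this)
    refine hT.mono fun s hs => ?_
    show MvPolynomial.eval (fun o : Option (Fin g) =>
        o.elim (A'.f j ((M.map τ).mulVec (s • a))) (fun i => A.f (K i) (s • a)))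
        (MvPolynomial.map (τ : ℂ →+* ℂ) P) = 0
    rw [hsm]
    exact hs
  by_contra hne
  have hO : IsOpen ({z | Θ z ≠ 0} ∩ G ⁻¹' {0}ᶜ) :=
    hGd.continuousOn.isOpen_inter_preimage hopen isOpen_compl_singleton
  obtain ⟨a, ha1, ha2⟩ := dense_algN.exists_mem_open hO ⟨z, mul_ne_zero hz hz', hne⟩
  exact ha2.2 (halg a ha1 ha2.1)

theorem eval_opt (P : MvPolynomial (Option (Fin g)) ℂ) (t : ℂ) (x : Fin g → ℂ) :
    MvPolynomial.eval (fun o : Option (Fin g) => o.elim t x) P =
      Polynomial.eval t ((MvPolynomial.optionEquivLeft ℂ (Fin g) P).map (MvPolynomial.eval x)) := by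
  induction P using MvPolynomial.induction_on with
  | C a => simp
  | add p q hp hq => simp [hp, hq]
  | mul_X p o hp =>
    rw [map_mul, map_mul, hp, Polynomial.map_mul, Polynomial.eval_mul]
    congr 1
    rcases o with _ | i <;> simp

theorem rational_of_rel (hIDP : Stmt_IDP) (hPER : Stmt_PER) (A : DRB.AbVar g)
    (A' : DRB.AbVar g') (K : Fin g → Fin A.nfun)
    (hK : (Matrix.of fun i j => pd j (A.f (K i)) 0).det ≠ 0) (M : Matrix (Fin g') (Fin g) ℂ)
    (P : Fin A'.nfun → MvPolynomial (Option (Fin g)) ℂ) (hP : ∀ j, P j ≠ 0)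
    (hrel : ∀ j z, A.θ z ≠ 0 → A'.θ (M.mulVec z) ≠ 0 →
      MvPolynomial.eval (fun o : Option (Fin g) =>
        o.elim (A'.f j (M.mulVec z)) (fun i => A.f (K i) z)) (P j) = 0) (i : DRB.Idx g) :
    ∃ ρ : DRB.Idx g' → ℚ, M.mulVec (A.lat i) = ∑ k, ((ρ k : ℚ) : ℂ) • A'.lat k := by
  have hMd : Differentiable ℂ fun z : Fin g → ℂ => M.mulVec z :=
    (LinearMap.toContinuousLinearMap (Matrix.mulVecLin M)).differentiable
  -- the product of the leading coefficients
  set Q : MvPolynomial (Fin g) ℂ :=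
    ∏ j, (MvPolynomial.optionEquivLeft ℂ (Fin g) (P j)).leadingCoeff with hQ
  have hQ0 : Q ≠ 0 := by
    rw [hQ, Finset.prod_ne_zero_iff]
    intro j _
    rw [Polynomial.leadingCoeff_ne_zero]
    intro h0
    exact hP j ((MvPolynomial.optionEquivLeft ℂ (Fin g)).injective (by rw [h0, map_zero]))
  have hdQ : DifferentiableOn ℂ (fun z => MvPolynomial.eval (fun i => A.f (K i) z) Q)
      {z | A.θ z ≠ 0} := differentiableOn_eval (fun i => differentiableOn_f A (K i)) Q
  have hO : IsOpen ({z | A.θ z ≠ 0} ∩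
      (fun z => MvPolynomial.eval (fun i => A.f (K i) z) Q) ⁻¹' {0}ᶜ) :=
    hdQ.continuousOn.isOpen_inter_preimage (isOpen_theta A) isOpen_compl_singleton
  have hne : ({z | A.θ z ≠ 0} ∩
      (fun z => MvPolynomial.eval (fun i => A.f (K i) z) Q) ⁻¹' {0}ᶜ).Nonempty := by
    by_contra hempty
    rw [Set.not_nonempty_iff_eq_empty] at hempty
    apply hQ0
    refine hIDP g (fun i => A.f (K i)) 0 (fun i =>
      analyticOnNhd_of_differentiableOn (isOpen_theta A) (differentiableOn_f A (K i)) 0 A.θ_zero)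
      hK Q ?_
    filter_upwards [(isOpen_theta A).mem_nhds A.θ_zero] with z hz
    by_contra h
    have : z ∈ ({z | A.θ z ≠ 0} ∩
      (fun z => MvPolynomial.eval (fun i => A.f (K i) z) Q) ⁻¹' {0}ᶜ) := ⟨hz, h⟩
    rw [hempty] at this
    exact this
  -- a point which is regular for all translates
  have hauto : ∀ m : ℕ, Auto A ((m : ℂ) • A.lat i) := by
    intro m
    have := auto_sum A (fun k => if k = i then (m : ℤ) else 0)
    have h1 : (∑ k, (((if k = i then (m : ℤ) else 0 : ℤ)) : ℂ) • A.lat k) = (m : ℂ) • A.lat i := by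
      rw [Finset.sum_eq_single i]
      · simp
      · intro k _ hk
        simp [hk]
      · intro h
        exact absurd (Finset.mem_univ i) h
    rw [h1] at this
    exact this
  have hdense : Dense (⋂ m : ℕ, {z | A'.θ (M.mulVec (z + (m : ℂ) • A.lat i)) ≠ 0}) := by
    have hd : ∀ m : ℕ, Differentiable ℂ fun z => A'.θ (M.mulVec (z + (m : ℂ) • A.lat i)) :=
      fun m => A'.θ_entire.comp (hMd.comp (differentiable_id.add_const _))
    refine dense_iInter_of_isOpen (fun m => isOpen_ne_fun (hd m).continuous continuous_const)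
      fun m => ?_
    refine dense_ne (hd m) (p := -((m : ℂ) • A.lat i)) ?_
    rw [neg_add_cancel, Matrix.mulVec_zero]
    exact A'.θ_zero
  obtain ⟨u, hu1, hu2⟩ := hdense.exists_mem_open hO hne
  have hu1' : ∀ m : ℕ, A'.θ (M.mulVec (u + (m : ℂ) • A.lat i)) ≠ 0 := by
    intro m
    exact Set.mem_iInter.1 hu1 m
  -- the values are roots of fixed polynomials
  let p : Fin A'.nfun → Polynomial ℂ := fun j =>
    (MvPolynomial.optionEquivLeft ℂ (Fin g) (P j)).map (MvPolynomial.eval fun i => A.f (K i) u)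
  have hp0 : ∀ j, p j ≠ 0 := by
    intro j h0
    have h1 : (p j).coeff (MvPolynomial.optionEquivLeft ℂ (Fin g) (P j)).natDegree = 0 := by
      rw [h0, Polynomial.coeff_zero]
    rw [Polynomial.coeff_map, Polynomial.coeff_natDegree] at h1
    apply hu2.2
    show MvPolynomial.eval (fun i => A.f (K i) u) Q = 0
    rw [hQ, map_prod]
    exact Finset.prod_eq_zero (Finset.mem_univ j) h1
  have hroot : ∀ (m : ℕ) j, A'.f j (M.mulVec (u + (m : ℂ) • A.lat i)) ∈ {x | (p j).IsRoot x} := by
    intro m j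
    have h1 := hrel j (u + (m : ℂ) • A.lat i) ((auto_theta A (hauto m) u).2 hu2.1) (hu1' m)
    have h2 : (fun i_1 => A.f (K i_1) (u + (m : ℂ) • A.lat i)) = fun i => A.f (K i) u := by
      funext l
      exact auto_f A (hauto m) (K l) u
    rw [h2, eval_opt] at h1
    exact h1
  have hfinite : (Set.pi Set.univ fun j => {x | (p j).IsRoot x}).Finite :=
    Set.Finite.pi fun j => Polynomial.finite_setOfPred_isRoot (hp0 j)
  obtain ⟨m, m', hmm, heq⟩ : ∃ m m' : ℕ, m ≠ m' ∧
      (fun j => A'.f j (M.mulVec (u + (m : ℂ) • A.lat i))) =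
      fun j => A'.f j (M.mulVec (u + (m' : ℂ) • A.lat i)) := by
    by_contra hcon
    push Not at hcon
    have hinj : Function.Injective fun m : ℕ =>
        (fun j => A'.f j (M.mulVec (u + (m : ℂ) • A.lat i))) := by
      intro a b hab
      by_contra h
      exact hcon a b h hab
    have h1 : (Set.range fun m : ℕ =>
        (fun j => A'.f j (M.mulVec (u + (m : ℂ) • A.lat i)))).Infinite :=
      Set.infinite_range_of_injective hinj
    refine h1 (hfinite.subset ?_)
    rintro x ⟨m, rfl⟩ j -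
    exact hroot m j
  have hsplit : M.mulVec (u + (m' : ℂ) • A.lat i) =
      M.mulVec (u + (m : ℂ) • A.lat i) + ((m' : ℂ) - m) • M.mulVec (A.lat i) := by
    rw [Matrix.mulVec_add, Matrix.mulVec_add, Matrix.mulVec_smul, Matrix.mulVec_smul, sub_smul]
    abel
  obtain ⟨N, r, hN, hr⟩ := hPER g' A' (M.mulVec (u + (m : ℂ) • A.lat i))
    (((m' : ℂ) - m) • M.mulVec (A.lat i)) (hu1' m) (by rw [← hsplit]; exact hu1' m')
    (fun j => by
      rw [← hsplit]
      exact (congrFun heq j).symm)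
  have hmne : ((m' : ℂ) - m) ≠ 0 := by
    intro h
    rw [sub_eq_zero] at h
    exact hmm (by exact_mod_cast h.symm)
  have hNne : (N : ℂ) ≠ 0 := by exact_mod_cast hN.ne'
  refine ⟨fun k => (r k : ℚ) / ((N : ℚ) * ((m' : ℚ) - m)), ?_⟩
  have h1 : M.mulVec (A.lat i) = ((N : ℂ) * ((m' : ℂ) - m))⁻¹ •
      ((N : ℂ) • (((m' : ℂ) - m) • M.mulVec (A.lat i))) := by
    rw [smul_smul, smul_smul]
    rw [show ((N : ℂ) * ((m' : ℂ) - m))⁻¹ * (N : ℂ) * ((m' : ℂ) - m) = 1 by
      field_simp, one_smul]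
  rw [h1, hr, Finset.smul_sum]
  refine Finset.sum_congr rfl fun k _ => ?_
  rw [smul_smul]
  congr 1
  push_cast
  field_simp

theorem span_lat (A : DRB.AbVar g) : Submodule.span ℝ (Set.range A.lat) = ⊤ := by
  refine A.lat_indep.span_eq_top_of_card_eq_finrank' ?_
  rw [Fintype.card_sum, Module.finrank_pi_fintype]
  simp only [Complex.finrank_real_complex, Finset.sum_const, Finset.card_univ, smul_eq_mul]
  ring

theorem eq_of_lat (A : DRB.AbVar g) {M M' : Matrix (Fin g') (Fin g) ℂ}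
    (h : ∀ i, M.mulVec (A.lat i) = M'.mulVec (A.lat i)) : M = M' := by
  have h1 : (Matrix.mulVecLin M).restrictScalars ℝ = (Matrix.mulVecLin M').restrictScalars ℝ := by
    refine LinearMap.ext_on_range (v := A.lat) (span_lat A) fun i => ?_
    exact h i
  ext i j
  have h2 := congrFun (LinearMap.congr_fun h1 (Pi.single j 1)) i
  simpa using h2

theorem countable_mat (A : DRB.AbVar g) (A' : DRB.AbVar g') :
    {M : Matrix (Fin g') (Fin g) ℂ | ∀ i, ∃ ρ : DRB.Idx g' → ℚ,
      M.mulVec (A.lat i) = ∑ k, ((ρ k : ℚ) : ℂ) • A'.lat k}.Countable := by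
  let S := {M : Matrix (Fin g') (Fin g) ℂ | ∀ i, ∃ ρ : DRB.Idx g' → ℚ,
      M.mulVec (A.lat i) = ∑ k, ((ρ k : ℚ) : ℂ) • A'.lat k}
  have hex : ∀ M : S, ∃ ρ : DRB.Idx g → DRB.Idx g' → ℚ, ∀ i,
      (M : Matrix (Fin g') (Fin g) ℂ).mulVec (A.lat i) = ∑ k, ((ρ i k : ℚ) : ℂ) • A'.lat k := by
    intro M
    have := M.2
    choose ρ hρ using this
    exact ⟨ρ, hρ⟩
  choose ρ hρ using hex
  have hinj : Function.Injective ρ := by
    intro M M' h
    apply Subtype.ext
    refine eq_of_lat A fun i => ?_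
    rw [hρ M i, hρ M' i, h]
  exact Set.countable_coe_iff.1 hinj.countable

end HM1_

open HM1_ in
theorem hm1_proof (hIDP : Stmt_IDP) (hPRL : Stmt_PRL) (hFRM : Stmt_FRM) (hTRF : Stmt_TRF)
    (hPER : Stmt_PER) (hAut : DRB.Stmt_Aut2) : Stmt_HM1 := by
  intro g g' A A' M R h i j
  obtain ⟨K, hK⟩ := exists_K A
  choose P hP hrel using exists_P hPRL A A' M R h K
  refine hAut _ ?_
  have hc := countable_mat A A'
  refine (hc.image fun M' => M' i j).mono ?_
  rintro w ⟨τ, hτ, rfl⟩
  refine ⟨M.map τ, ?_, rfl⟩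
  intro l
  refine rational_of_rel hIDP hPER A A' K hK (M.map τ)
    (fun j => MvPolynomial.map (τ : ℂ →+* ℂ) (P j)) ?_ ?_ l
  · intro j h0
    apply hP j
    have hinj : Function.Injective (MvPolynomial.map (σ := Option (Fin g)) (τ : ℂ →+* ℂ)) :=
      MvPolynomial.map_injective _ τ.injective
    exact hinj (by rw [h0, map_zero])
  · intro j z hz hz'
    exact galois hFRM hTRF A A' M K j (P j) (hrel j) τ hτ z hz hz'

end

end Pool.Agent.SPF
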