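import Pool.Agent.SPF.OutKit
import Pool.Agent.SPF.HM1
import Pool.Agent.DRB.Indep
import Pool.Agent.DRB.Osgood
import Pool.Agent.DRB.Qp

set_option linter.unusedSectionVars false
set_option linter.unusedSimpArgs false

/-!
# HM2: homomorphisms of complex tori between abelian varieties over the algebraic numbers are
algebraic on the de Rham homology
-/

open scoped BigOperators Topology
open Complex Matrix Filter

namespace Pool.Agent.SPF

noncomputable section

namespace HM2_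

open DRB

/-! ### pairs of functions conjugate under an automorphism -/

/-- `v` has the Taylor coefficients `τ (u_r)` -/
structure TPr (τ : ℂ ≃ₐ[ℚ] ℂ) (u v : ℂ → ℂ) : Prop where
  an_u : AnalyticAt ℂ u 0
  an_v : AnalyticAt ℂ v 0
  der : ∀ r, iteratedDeriv r v 0 = τ (iteratedDeriv r u 0)

variable {τ : ℂ ≃ₐ[ℚ] ℂ}

lemma TPr.add {u v u' v' : ℂ → ℂ} (h : TPr τ u v) (h' : TPr τ u' v') :
    TPr τ (fun s => u s + u' s) (fun s => v s + v' s) := by
  refine ⟨h.an_u.add h'.an_u, h.an_v.add h'.an_v, fun r => ?_⟩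
  have e1 : iteratedDeriv r (fun s => v s + v' s) 0 =
      iteratedDeriv r v 0 + iteratedDeriv r v' 0 :=
    iteratedDeriv_fun_add (h.an_v.contDiffAt) (h'.an_v.contDiffAt)
  have e2 : iteratedDeriv r (fun s => u s + u' s) 0 =
      iteratedDeriv r u 0 + iteratedDeriv r u' 0 :=
    iteratedDeriv_fun_add (h.an_u.contDiffAt) (h'.an_u.contDiffAt)
  rw [e1, e2, map_add, h.der, h'.der]

lemma TPr.const_mul {u v : ℂ → ℂ} (h : TPr τ u v) (c : ℂ) :
    TPr τ (fun s => c * u s) (fun s => τ c * v s) := by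
  refine ⟨analyticAt_const.mul h.an_u, analyticAt_const.mul h.an_v, fun r => ?_⟩
  have e1 : iteratedDeriv r (fun s => τ c * v s) 0 = τ c * iteratedDeriv r v 0 :=
    iteratedDeriv_const_mul_field (τ c) v
  have e2 : iteratedDeriv r (fun s => c * u s) 0 = c * iteratedDeriv r u 0 :=
    iteratedDeriv_const_mul_field c u
  rw [e1, e2, map_mul, h.der]

lemma TPr.zero : TPr τ (fun _ => 0) (fun _ => 0) := by
  refine ⟨analyticAt_const, analyticAt_const, fun r => ?_⟩
  have : iteratedDeriv r (fun _ : ℂ => (0 : ℂ)) 0 = 0 := by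
    rcases r with _ | r
    · simp
    · simp [iteratedDeriv_const]
  rw [this, map_zero]

lemma TPr.neg {u v : ℂ → ℂ} (h : TPr τ u v) : TPr τ (fun s => -u s) (fun s => -v s) := by
  have := h.const_mul (-1)
  simpa using this

lemma TPr.sub {u v u' v' : ℂ → ℂ} (h : TPr τ u v) (h' : TPr τ u' v') :
    TPr τ (fun s => u s - u' s) (fun s => v s - v' s) := by
  have := h.add h'.neg
  simpa [sub_eq_add_neg] using this

lemma TPr.sum {κ : Type} (t : Finset κ) {u v : κ → ℂ → ℂ} (h : ∀ k, TPr τ (u k) (v k)) :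
    TPr τ (fun s => ∑ k ∈ t, u k s) (fun s => ∑ k ∈ t, v k s) := by
  classical
  induction t using Finset.induction_on with
  | empty => simpa using TPr.zero
  | insert a t ha ih =>
    simp only [Finset.sum_insert ha]
    exact (h a).add ih

lemma TPr.id : TPr τ (fun s => s) (fun s => s) := by
  refine ⟨analyticAt_id, analyticAt_id, fun r => ?_⟩
  have : ∃ q : ℚ, iteratedDeriv r (fun s : ℂ => s) 0 = (q : ℂ) := by
    rcases r with _ | _ | r
    · exact ⟨0, by simp⟩
    · refine ⟨1, ?_⟩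
      rw [zero_add, iteratedDeriv_one]
      simp
    · refine ⟨0, ?_⟩
      rw [iteratedDeriv_succ']
      have h1 : deriv (fun s : ℂ => s) = fun _ => 1 := by
        funext s
        simp
      rw [h1]
      simp [iteratedDeriv_const]
  obtain ⟨q, hq⟩ := this
  rw [hq]
  simp

lemma TPr.self {u : ℂ → ℂ} (hu : AnalyticAt ℂ u 0)
    (h : ∀ r, 0 < r → iteratedDeriv r u 0 = τ (iteratedDeriv r u 0)) :
    TPr τ (fun s => u s - u 0) (fun s => u s - u 0) := by
  refine ⟨hu.sub analyticAt_const, hu.sub analyticAt_const, fun r => ?_⟩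
  rcases r with _ | r
  · simp
  · have : iteratedDeriv (r + 1) (fun s => u s - u 0) 0 = iteratedDeriv (r + 1) u 0 := by
      have h1 : iteratedDeriv (r + 1) (fun s => u s - u 0) 0 =
          iteratedDeriv (r + 1) u 0 - iteratedDeriv (r + 1) (fun _ : ℂ => u 0) 0 :=
        iteratedDeriv_fun_sub hu.contDiffAt contDiffAt_const
      rw [h1]
      simp [iteratedDeriv_const]
    rw [this]
    exact h _ (Nat.succ_pos r)

/-! ### quasi-periods -/

/-- the pairs (period, linear part of the exponent) -/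
def QP {g : ℕ} (θ : (Fin g → ℂ) → ℂ) : AddSubgroup ((Fin g → ℂ) × (Fin g → ℂ)) where
  carrier := {p | ∃ c : ℂ, ∀ z, θ (z + p.1) = cexp ((∑ k, p.2 k * z k) + c) * θ z}
  zero_mem' := ⟨0, fun z => by simp⟩
  add_mem' := by
    rintro p q ⟨c, hc⟩ ⟨c', hc'⟩
    refine ⟨(∑ k, q.2 k * p.1 k) + c + c', fun z => ?_⟩
    rw [Prod.fst_add, ← add_assoc, hc', hc, ← mul_assoc, ← Complex.exp_add]
    congr 2
    simp only [Prod.snd_add, Pi.add_apply, add_mul, mul_add, Finset.sum_add_distrib]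
    ring
  neg_mem' := by
    rintro p ⟨c, hc⟩
    refine ⟨(∑ k, p.2 k * p.1 k) - c, fun z => ?_⟩
    have := hc (z + -p.1)
    rw [neg_add_cancel_right] at this
    rw [Prod.fst_neg, this, ← mul_assoc, ← Complex.exp_add]
    have e : ((∑ k, (-p).2 k * z k) + ((∑ k, p.2 k * p.1 k) - c)) +
        ((∑ k, p.2 k * (z + -p.1) k) + c) = 0 := by
      simp only [Prod.snd_neg, Pi.neg_apply, Pi.add_apply, mul_add, Finset.sum_add_distrib,
        neg_mul, mul_neg, Finset.sum_neg_distrib]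
      ring
    rw [e, Complex.exp_zero, one_mul]

lemma mem_QP {g : ℕ} {θ : (Fin g → ℂ) → ℂ} {p : (Fin g → ℂ) × (Fin g → ℂ)} : p ∈ QP θ ↔
    ∃ c : ℂ, ∀ z, θ (z + p.1) = cexp ((∑ k, p.2 k * z k) + c) * θ z := Iff.rfl

/-- partial derivatives at translated points -/
lemma pd_translate {g : ℕ} {θ : (Fin g → ℂ) → ℂ} (hθ : Differentiable ℂ θ) {ω lam : Fin g → ℂ}
    {c : ℂ} (h : ∀ z, θ (z + ω) = cexp ((∑ k, lam k * z k) + c) * θ z) (j : Fin g)
    (z : Fin g → ℂ) :
    DRB.pd j θ (z + ω) = cexp ((∑ k, lam k * z k) + c) * (lam j * θ z + DRB.pd j θ z) := by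
  unfold DRB.pd
  have e1 : HasFDerivAt θ (fderiv ℂ θ (z + ω)) (z + ω) := (hθ _).hasFDerivAt
  have e2 : HasFDerivAt (fun w => θ (w + ω))
      ((fderiv ℂ θ (z + ω)).comp (ContinuousLinearMap.id ℂ (Fin g → ℂ))) z :=
    e1.comp z ((hasFDerivAt_id z).add_const ω)
  have e3 : (fun w => θ (w + ω)) = fun w =>
      Complex.exp ((∑ k, lam k * w k) + c) * θ w := funext fun w => h w
  have e4 : HasFDerivAt (fun w : Fin g → ℂ => (∑ k, lam k * w k) + c)
      (∑ k, lam k • (ContinuousLinearMap.proj k : (Fin g → ℂ) →L[ℂ] ℂ)) z := by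
    refine HasFDerivAt.add_const _ ?_
    have := HasFDerivAt.fun_sum (u := Finset.univ)
      (A := fun k (w : Fin g → ℂ) => lam k * w k)
      (A' := fun k => lam k • (ContinuousLinearMap.proj k : (Fin g → ℂ) →L[ℂ] ℂ))
      (x := z) (fun k _ => (ContinuousLinearMap.hasFDerivAt
        (ContinuousLinearMap.proj k : (Fin g → ℂ) →L[ℂ] ℂ)).const_mul (lam k))
    exact this
  have e5 := e4.cexp.mul (hθ z).hasFDerivAt
  rw [e3] at e2
  have e6 := e2.unique e5
  have e7 := congrArg (fun T => T (Pi.single j 1)) e6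
  simp only [ContinuousLinearMap.comp_apply, ContinuousLinearMap.id_apply,
    ContinuousLinearMap.add_apply, ContinuousLinearMap.smul_apply,
    ContinuousLinearMap.sum_apply, ContinuousLinearMap.proj_apply, smul_eq_mul] at e7
  have e8 : ∑ k, lam k * (Pi.single j (1 : ℂ) : Fin g → ℂ) k = lam j := by
    rw [Finset.sum_eq_single j]
    · rw [Pi.single_eq_same, mul_one]
    · intro m _ hm
      rw [Pi.single_eq_of_ne hm, mul_zero]
    · intro h; exact absurd (Finset.mem_univ _) h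
  rw [e8] at e7
  rw [e7]
  ring

lemma lat_mem_QP {g : ℕ} (A : AbVar g) (i : Idx g) : (A.lat i, A.lin i) ∈ QP A.θ :=
  ⟨A.cst i, A.θ_aut i⟩

/-! ### the functions of the proof -/

section main

variable {g g' : ℕ} (A : AbVar g) (A' : AbVar g') (M : Matrix (Fin g') (Fin g) ℂ) (j : Fin g')

/-- the comparison function -/
def Kf (a b : Fin g → ℂ) (u : Fin g → ℂ) : ℂ :=
  (A'.Z j (M *ᵥ u) - A'.Z j 0) - (∑ l, a l * u l) - ∑ l, b l * (A.Z l u - A.Z l 0)

/-- its denominator -/
def psf (u : Fin g → ℂ) : ℂ := A.θ u * A'.θ (M *ᵥ u)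

/-- its numerator -/
def phf (a b : Fin g → ℂ) (u : Fin g → ℂ) : ℂ :=
  A.θ u * (DRB.pd j A'.θ (M *ᵥ u) - A'.Z j 0 * A'.θ (M *ᵥ u)) -
    (∑ l, a l * u l) * (A.θ u * A'.θ (M *ᵥ u)) -
    A'.θ (M *ᵥ u) * ∑ l, b l * (DRB.pd l A.θ u - A.Z l 0 * A.θ u)

lemma Kf_eq (a b u : Fin g → ℂ) (h1 : A.θ u ≠ 0) (h2 : A'.θ (M *ᵥ u) ≠ 0) :
    Kf A A' M j a b u = phf A A' M j a b u / psf A A' M u := by
  unfold Kf phf psf AbVar.Z
  have e : ∑ l, b l * (DRB.pd l A.θ u / A.θ u - DRB.pd l A.θ 0 / A.θ 0) =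
      (∑ l, b l * (DRB.pd l A.θ u - DRB.pd l A.θ 0 / A.θ 0 * A.θ u)) / A.θ u := by
    rw [Finset.sum_div]
    refine Finset.sum_congr rfl fun l _ => ?_
    field_simp
  rw [e]
  generalize (∑ l, b l * (DRB.pd l A.θ u - DRB.pd l A.θ 0 / A.θ 0 * A.θ u)) = S
  have h3 := A'.θ_zero
  field_simp

lemma diff_M : Differentiable ℂ (fun u : Fin g → ℂ => M *ᵥ u) :=
  (LinearMap.toContinuousLinearMap (Matrix.mulVecLin M)).differentiable

lemma diff_pd {n : ℕ} {f : (Fin n → ℂ) → ℂ} (hf : Differentiable ℂ f) (i : Fin n) :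
    Differentiable ℂ (DRB.pd i f) :=
  DRB.Osgood.differentiable_fderiv_apply hf (Pi.single i 1)

lemma diff_θM : Differentiable ℂ (fun u : Fin g → ℂ => A'.θ (M *ᵥ u)) :=
  A'.θ_entire.comp (diff_M M)

lemma psf_diff : Differentiable ℂ (psf A A' M) := A.θ_entire.mul (diff_θM A' M)

lemma diff_lin (a : Fin g → ℂ) : Differentiable ℂ (fun u : Fin g → ℂ => ∑ l, a l * u l) := by
  fun_prop

lemma phf_diff (a b : Fin g → ℂ) : Differentiable ℂ (phf A A' M j a b) := by
  unfold phf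
  have h1 : Differentiable ℂ (fun u : Fin g → ℂ => DRB.pd j A'.θ (M *ᵥ u)) :=
    (diff_pd A'.θ_entire j).comp (diff_M M)
  have h2 := diff_θM A' M
  have h3 : Differentiable ℂ (fun u : Fin g → ℂ => ∑ l, b l *
      (DRB.pd l A.θ u - A.Z l 0 * A.θ u)) := by
    refine Differentiable.fun_sum fun l _ => ?_
    exact (((diff_pd A.θ_entire l).sub (A.θ_entire.const_mul _)).const_mul _)
  exact ((A.θ_entire.mul (h1.sub (h2.const_mul _))).sub ((diff_lin a).mul
    (A.θ_entire.mul h2))).sub (h2.mul h3)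

lemma Z_translate {n : ℕ} (B : AbVar n) {ω lam : Fin n → ℂ} (h : (ω, lam) ∈ QP B.θ)
    (z : Fin n → ℂ) (hz : B.θ z ≠ 0) :
    B.θ (z + ω) ≠ 0 ∧ ∀ l, B.Z l (z + ω) = B.Z l z + lam l := by
  obtain ⟨c, hc⟩ := h
  simp only at hc
  refine ⟨?_, fun l => ?_⟩
  · rw [hc]
    exact mul_ne_zero (Complex.exp_ne_zero _) hz
  · unfold AbVar.Z
    rw [pd_translate B.θ_entire hc, hc, mul_div_mul_left _ _ (Complex.exp_ne_zero _)]
    field_simp
    ring

/-- translation of the comparison function -/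
lemma Kf_translate (a b : Fin g → ℂ) {ω lam : Fin g → ℂ} {lam' : Fin g' → ℂ}
    (h : (ω, lam) ∈ QP A.θ) (h' : (M *ᵥ ω, lam') ∈ QP A'.θ) (u : Fin g → ℂ) (h1 : A.θ u ≠ 0)
    (h2 : A'.θ (M *ᵥ u) ≠ 0) : Kf A A' M j a b (u + ω) = Kf A A' M j a b u +
      (lam' j - (∑ l, a l * ω l) - ∑ l, b l * lam l) := by
  unfold Kf
  obtain ⟨-, t1⟩ := Z_translate A h u h1
  obtain ⟨-, t2⟩ := Z_translate A' h' _ h2
  rw [Matrix.mulVec_add, t2 j]
  simp only [t1, Pi.add_apply, mul_add, mul_sub, Finset.sum_add_distrib, Finset.sum_sub_distrib]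
  ring

/-- automorphy of numerator and denominator -/
lemma aut (a b : Fin g → ℂ) {ω lam : Fin g → ℂ} {lam' : Fin g' → ℂ}
    (h : (ω, lam) ∈ QP A.θ) (h' : (M *ᵥ ω, lam') ∈ QP A'.θ)
    (h0 : lam' j - (∑ l, a l * ω l) - (∑ l, b l * lam l) = 0) :
    ∃ c : ℂ, ∀ z,
      phf A A' M j a b (z + ω) = cexp ((∑ l, (lam l + ∑ k, lam' k * M k l) * z l) + c) *
        phf A A' M j a b z ∧
      psf A A' M (z + ω) = cexp ((∑ l, (lam l + ∑ k, lam' k * M k l) * z l) + c) *
        psf A A' M z := by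
  obtain ⟨c, hc⟩ := h
  obtain ⟨c', hc'⟩ := h'
  simp only at hc hc'
  refine ⟨c + c', fun z => ?_⟩
  have hE : cexp ((∑ l, (lam l + ∑ k, lam' k * M k l) * z l) + (c + c')) =
      cexp ((∑ l, lam l * z l) + c) * cexp ((∑ k, lam' k * (M *ᵥ z) k) + c') := by
    rw [← Complex.exp_add]
    congr 1
    have e : ∑ k, lam' k * (M *ᵥ z) k = ∑ l, (∑ k, lam' k * M k l) * z l := by
      simp only [Matrix.mulVec, dotProduct, Finset.mul_sum, Finset.sum_mul]
      rw [Finset.sum_comm]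
      refine Finset.sum_congr rfl fun l _ => Finset.sum_congr rfl fun k _ => ?_
      ring
    rw [e]
    simp only [add_mul, Finset.sum_add_distrib]
    ring
  rw [hE]
  have t1 := pd_translate A.θ_entire hc
  have t2 := pd_translate A'.θ_entire hc' j (M *ᵥ z)
  have t3 := hc' (M *ᵥ z)
  constructor
  · unfold phf
    rw [Matrix.mulVec_add, t2, t3, hc z]
    simp only [t1, Pi.add_apply]
    generalize cexp ((∑ l, lam l * z l) + c) = E1
    generalize cexp ((∑ k, lam' k * (M *ᵥ z) k) + c') = E2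
    have s1 : ∑ l, a l * (z l + ω l) = (∑ l, a l * z l) + ∑ l, a l * ω l := by
      simp only [mul_add, Finset.sum_add_distrib]
    have s2 : ∑ l, b l * (E1 * (lam l * A.θ z + DRB.pd l A.θ z) - A.Z l 0 * (E1 * A.θ z)) =
        E1 * ((∑ l, b l * lam l) * A.θ z) +
          E1 * ∑ l, b l * (DRB.pd l A.θ z - A.Z l 0 * A.θ z) := by
      rw [Finset.sum_mul, Finset.mul_sum, Finset.mul_sum, ← Finset.sum_add_distrib]
      refine Finset.sum_congr rfl fun l _ => ?_
      ring
    rw [s1, s2]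
    linear_combination (E1 * E2 * A.θ z * A'.θ (M *ᵥ z)) * h0
  · unfold psf
    rw [Matrix.mulVec_add, t3, hc z]
    ring

lemma diffOn_K (a b : Fin g → ℂ) :
    DifferentiableOn ℂ (Kf A A' M j a b) {z | psf A A' M z ≠ 0} := by
  intro z hz
  have h1 : DifferentiableAt ℂ (fun z => phf A A' M j a b z / psf A A' M z) z := by
    have h2 : DifferentiableAt ℂ (fun z => (psf A A' M z)⁻¹) z :=
      (psf_diff A A' M z).fun_inv hz
    simp only [div_eq_mul_inv]
    exact (phf_diff A A' M j a b z).fun_mul h2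
  refine (h1.differentiableWithinAt).congr (fun x hx => ?_) ?_
  · exact Kf_eq A A' M j a b x (left_ne_zero_of_mul hx) (right_ne_zero_of_mul hx)
  · exact Kf_eq A A' M j a b z (left_ne_zero_of_mul hz) (right_ne_zero_of_mul hz)

lemma diffOn_Z {n : ℕ} (C : AbVar n) (l : Fin n) :
    DifferentiableOn ℂ (C.Z l) {z | C.θ z ≠ 0} := by
  intro z hz
  have h3 : DifferentiableAt ℂ (fun z => (C.θ z)⁻¹) z := (C.θ_entire z).fun_inv hz
  have h1 : DifferentiableAt ℂ (fun z => DRB.pd l C.θ z / C.θ z) z := by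
    simp only [div_eq_mul_inv]
    exact (diff_pd C.θ_entire l z).fun_mul h3
  exact h1.differentiableWithinAt

lemma an_line {n : ℕ} (C : AbVar n) {F : (Fin n → ℂ) → ℂ}
    (hF : DifferentiableOn ℂ F {z | C.θ z ≠ 0}) (w : Fin n → ℂ) :
    AnalyticAt ℂ (fun s : ℂ => F (s • w)) 0 := by
  have hl : Differentiable ℂ fun s : ℂ => s • w := differentiable_id.smul_const w
  have ho : IsOpen {s : ℂ | C.θ (s • w) ≠ 0} :=
    isOpen_ne_fun (C.θ_entire.comp hl).continuous continuous_const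
  have hd : DifferentiableOn ℂ (fun s : ℂ => F (s • w)) {s : ℂ | C.θ (s • w) ≠ 0} :=
    hF.comp hl.differentiableOn fun s hs => hs
  exact hd.analyticAt (ho.mem_nhds (by simpa using C.θ_zero))

lemma psf_zero : psf A A' M 0 ≠ 0 := by
  unfold psf
  rw [Matrix.mulVec_zero]
  exact mul_ne_zero A.θ_zero A'.θ_zero

lemma TZ (h4 : Stmt_FRM) {τ : ℂ ≃ₐ[ℚ] ℂ} (hτ : τ ∈ DRB.GalA) {n : ℕ} (C : AbVar n)
    (w : Fin n → ℂ) (l : Fin n) (hw : ∀ i, IsAlgebraic ℚ (w i)) :
    TPr τ (fun s => C.Z l (s • w) - C.Z l 0) (fun s => C.Z l (s • w) - C.Z l 0) := by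
  have hτw : (fun l => τ (w l)) = w := funext fun l => hτ _ (hw l)
  have h := TPr.self (τ := τ) (an_line C (diffOn_Z C l) w) (fun r hr => by
    have := (h4 n C τ hτ w r).2 hr l
    rw [hτw] at this
    exact this)
  simpa using h

theorem galoisK (h4 : Stmt_FRM) (h5 : Stmt_TRF) (K : Fin g → Fin A.nfun)
    (hM : ∀ i k, IsAlgebraic ℚ (M i k)) (a b : Fin g → ℂ)
    (P : MvPolynomial (Option (Fin g)) ℂ)
    (hrel : ∀ z, psf A A' M z ≠ 0 → MvPolynomial.eval (fun o : Option (Fin g) =>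
        o.elim (Kf A A' M j a b z) (fun i => A.f (K i) z)) P = 0)
    (τ : ℂ ≃ₐ[ℚ] ℂ) (hτ : τ ∈ DRB.GalA) (z : Fin g → ℂ) (hz : psf A A' M z ≠ 0) :
    MvPolynomial.eval (fun o : Option (Fin g) =>
        o.elim (Kf A A' M j (fun l => τ (a l)) (fun l => τ (b l)) z) (fun i => A.f (K i) z))
        (MvPolynomial.map (τ : ℂ →+* ℂ) P) = 0 := by
  set G : (Fin g → ℂ) → ℂ := fun z => MvPolynomial.eval (fun o : Option (Fin g) =>
        o.elim (Kf A A' M j (fun l => τ (a l)) (fun l => τ (b l)) z) (fun i => A.f (K i) z))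
        (MvPolynomial.map (τ : ℂ →+* ℂ) P) with hG
  have hΘ0 := psf_zero A A' M
  have hGd : DifferentiableOn ℂ G {z | psf A A' M z ≠ 0} := by
    refine HM1_.differentiableOn_eval (h := fun (o : Option (Fin g)) (z : Fin g → ℂ) =>
      o.elim (Kf A A' M j (fun l => τ (a l)) (fun l => τ (b l)) z)
        (fun i => A.f (K i) z)) ?_ _
    rintro (_ | i)
    · exact diffOn_K A A' M j _ _
    · exact (HM1_.differentiableOn_f A (K i)).mono fun z hz => left_ne_zero_of_mul hz
  have hopen : IsOpen {z | psf A A' M z ≠ 0} :=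
    isOpen_ne_fun (psf_diff A A' M).continuous continuous_const
  have halg : ∀ v : Fin g → ℂ, (∀ i, IsAlgebraic ℚ (v i)) → psf A A' M v ≠ 0 → G v = 0 := by
    intro v hv hΘv
    refine HM1_.line_zero (psf_diff A A' M) hΘ0 hGd hΘv ?_
    have hτv : (fun l => τ (v l)) = v := funext fun l => hτ _ (hv l)
    have hMv : ∀ i, IsAlgebraic ℚ ((M *ᵥ v) i) := by
      intro i
      have h := DRB.AbVar.isAlgebraic_sum Finset.univ (fun k => M i k * v k)
        fun k _ => (hM i k).mul (hv k)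
      exact h
    have e : ∀ a b : Fin g → ℂ, (fun s : ℂ => Kf A A' M j a b (s • v)) = fun s =>
        (A'.Z j (s • (M *ᵥ v)) - A'.Z j 0) - (∑ l, a l * (v l * s)) -
          ∑ l, b l * (A.Z l (s • v) - A.Z l 0) := by
      intro a b
      funext s
      unfold Kf
      rw [Matrix.mulVec_smul]
      simp only [Pi.smul_apply, smul_eq_mul, mul_comm s]
    have TK : TPr τ (fun s => Kf A A' M j a b (s • v))
        (fun s => Kf A A' M j (fun l => τ (a l)) (fun l => τ (b l)) (s • v)) := by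
      have t1 := TZ h4 hτ A' (M *ᵥ v) j hMv
      have t2 : TPr τ (fun s => ∑ l, a l * (v l * s)) (fun s => ∑ l, τ (a l) * (v l * s)) := by
        refine TPr.sum _ fun l => ?_
        have := (TPr.id (τ := τ)).const_mul (v l)
        rw [hτ _ (hv l)] at this
        exact this.const_mul (a l)
      have t3 : TPr τ (fun s => ∑ l, b l * (A.Z l (s • v) - A.Z l 0))
          (fun s => ∑ l, τ (b l) * (A.Z l (s • v) - A.Z l 0)) :=
        TPr.sum _ fun l => (TZ h4 hτ A v l hv).const_mul (b l)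
      rw [e, e]
      exact (t1.sub t2).sub t3
    have hT := h5 (Option (Fin g))
      (fun o s => o.elim (Kf A A' M j a b (s • v)) (fun i => A.f (K i) (s • v)))
      (fun o s => o.elim (Kf A A' M j (fun l => τ (a l)) (fun l => τ (b l)) (s • v))
        (fun i => A.f (K i) (s • v))) τ
      (by
        rintro (_ | i)
        · exact TK.an_u
        · exact an_line A (HM1_.differentiableOn_f A (K i)) v)
      (by
        rintro (_ | i)
        · exact TK.an_v
        · exact an_line A (HM1_.differentiableOn_f A (K i)) v)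
      (by
        rintro (_ | i) r
        · exact TK.der r
        · have := (h4 g A τ hτ v r).1 (K i)
          rw [hτv] at this
          exact this) P
      (by
        have hl : Continuous fun s : ℂ => psf A A' M (s • v) :=
          (psf_diff A A' M).continuous.comp (continuous_id.smul continuous_const)
        have e1 : ∀ᶠ s in nhds (0 : ℂ), psf A A' M (s • v) ≠ 0 :=
          hl.continuousAt.eventually_ne (by simpa using hΘ0)
        filter_upwards [e1] with s h1
        exact hrel (s • v) h1)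
    exact hT
  by_contra hne
  have hO : IsOpen ({z | psf A A' M z ≠ 0} ∩ G ⁻¹' {0}ᶜ) :=
    hGd.continuousOn.isOpen_inter_preimage hopen isOpen_compl_singleton
  obtain ⟨v, hv1, hv2⟩ := HM1_.dense_algN.exists_mem_open hO ⟨z, hz, hne⟩
  exact hv2.2 (halg v hv1 hv2.1)

/-- the coefficients are fixed by the automorphisms -/
theorem main_fix (h2 : Stmt_IDP) (h3 : Stmt_PRL) (h4 : Stmt_FRM) (h5 : Stmt_TRF)
    (hM : ∀ i k, IsAlgebraic ℚ (M i k)) (R : Matrix (DRB.Idx g') (DRB.Idx g) ℚ)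
    (hR : ∀ i, M *ᵥ (A.lat i) = ∑ k, ((R k i : ℚ) : ℂ) • A'.lat k)
    (a b : Fin g → ℂ)
    (hab : ∀ i, (∑ l, a l * A.lat i l) + (∑ l, b l * A.lin i l) =
      ∑ k, ((R k i : ℚ) : ℂ) * A'.lin k j)
    (τ : ℂ ≃ₐ[ℚ] ℂ) (hτ : τ ∈ DRB.GalA) : (∀ l, τ (a l) = a l) ∧ ∀ l, τ (b l) = b l := by
  obtain ⟨K, hK⟩ := HM1_.exists_K A
  obtain ⟨N, hN, n, hn⟩ := HM1_.exists_den (fun p : DRB.Idx g' × DRB.Idx g => R p.1 p.2)
  have hnC : ∀ k i, (n (k, i) : ℂ) = (N : ℂ) * ((R k i : ℚ) : ℂ) := by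
    intro k i
    have := hn (k, i)
    have h := congrArg (fun q : ℚ => (q : ℂ)) this
    simp only at h
    push_cast at h
    exact h.symm
  have hNne : (N : ℂ) ≠ 0 := by exact_mod_cast hN.ne'
  -- quasi-periods
  have q1 : ∀ i, ((N : ℂ) • A.lat i, (N : ℂ) • A.lin i) ∈ QP A.θ := by
    intro i
    have := nsmul_mem (lat_mem_QP A i) N
    have e : N • (A.lat i, A.lin i) = ((N : ℂ) • A.lat i, (N : ℂ) • A.lin i) := by
      ext l <;> simp
    rwa [e] at this
  have q2 : ∀ i, (M *ᵥ ((N : ℂ) • A.lat i),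
      (N : ℂ) • ∑ k, ((R k i : ℚ) : ℂ) • A'.lin k) ∈ QP A'.θ := by
    intro i
    have h := sum_mem (t := Finset.univ) (f := fun k => n (k, i) • (A'.lat k, A'.lin k))
      (S := QP A'.θ) (fun k _ => zsmul_mem (lat_mem_QP A' k) (n (k, i)))
    have e : ∑ k, n (k, i) • (A'.lat k, A'.lin k) = (M *ᵥ ((N : ℂ) • A.lat i),
      (N : ℂ) • ∑ k, ((R k i : ℚ) : ℂ) • A'.lin k) := by
      refine Prod.ext ?_ ?_
      · rw [Prod.fst_sum, Matrix.mulVec_smul, hR, Finset.smul_sum]
        refine Finset.sum_congr rfl fun k _ => ?_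
        funext l
        show (n (k, i) • A'.lat k) l = _
        simp only [Pi.smul_apply, smul_eq_mul]
        rw [zsmul_eq_mul, hnC]
        ring
      · rw [Prod.snd_sum, Finset.smul_sum]
        refine Finset.sum_congr rfl fun k _ => ?_
        funext l
        show (n (k, i) • A'.lin k) l = _
        simp only [Pi.smul_apply, smul_eq_mul]
        rw [zsmul_eq_mul, hnC]
        ring
    rw [e] at h
    exact h
  have hdel : ∀ (a b : Fin g → ℂ) i, ((N : ℂ) • ∑ k, ((R k i : ℚ) : ℂ) • A'.lin k) j -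
      (∑ l, a l * ((N : ℂ) • A.lat i) l) - (∑ l, b l * ((N : ℂ) • A.lin i) l) =
      N * ((∑ k, ((R k i : ℚ) : ℂ) * A'.lin k j) -
        ((∑ l, a l * A.lat i l) + (∑ l, b l * A.lin i l))) := by
    intro a b i
    simp only [Pi.smul_apply, Finset.sum_apply, smul_eq_mul, Finset.mul_sum, mul_sub, mul_add]
    rw [sub_sub]
    congr 2 <;>
    · refine Finset.sum_congr rfl fun l _ => ?_
      ring
  have h0 : ∀ i, ((N : ℂ) • ∑ k, ((R k i : ℚ) : ℂ) • A'.lin k) j -
      (∑ l, a l * ((N : ℂ) • A.lat i) l) - (∑ l, b l * ((N : ℂ) • A.lin i) l) = 0 := by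
    intro i
    rw [hdel, hab, sub_self, mul_zero]
  choose c hc using fun i => aut A A' M j a b (q1 i) (q2 i) (h0 i)
  obtain ⟨P, hP, hrel⟩ := h3 g A N (phf A A' M j a b) (psf A A' M)
    (fun i l => ((N : ℂ) • A.lin i) l +
      ∑ k, ((N : ℂ) • ∑ k', ((R k' i : ℚ) : ℂ) • A'.lin k') k * M k l) c hN
    (phf_diff A A' M j a b) (psf_diff A A' M) (fun i z => (hc i z).1)
    (fun i z => (hc i z).2) K
  have hrel' : ∀ z, psf A A' M z ≠ 0 → MvPolynomial.eval (fun o : Option (Fin g) =>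
        o.elim (Kf A A' M j a b z) (fun i => A.f (K i) z)) P = 0 := by
    intro z hz
    have hz1 : A.θ z ≠ 0 := left_ne_zero_of_mul hz
    have hz2 : A'.θ (M *ᵥ z) ≠ 0 := right_ne_zero_of_mul hz
    rw [Kf_eq A A' M j a b z hz1 hz2]
    exact hrel z hz1 hz
  have hG := galoisK A A' M j h4 h5 K hM a b P hrel' τ hτ
  set P' := MvPolynomial.map (τ : ℂ →+* ℂ) P with hP'd
  have hP' : P' ≠ 0 := by
    intro h0
    apply hP
    have hinj : Function.Injective (MvPolynomial.map (σ := Option (Fin g)) (τ : ℂ →+* ℂ)) :=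
      MvPolynomial.map_injective _ τ.injective
    exact hinj (by rw [← hP'd, h0, map_zero])
  set Q : MvPolynomial (Fin g) ℂ :=
    (MvPolynomial.optionEquivLeft ℂ (Fin g) P').leadingCoeff with hQ
  have hQ0 : Q ≠ 0 := by
    rw [hQ, Polynomial.leadingCoeff_ne_zero]
    intro h0
    exact hP' ((MvPolynomial.optionEquivLeft ℂ (Fin g)).injective (by rw [h0, map_zero]))
  have hdQ : DifferentiableOn ℂ (fun z => MvPolynomial.eval (fun i => A.f (K i) z) Q)
      {z | A.θ z ≠ 0} :=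
    HM1_.differentiableOn_eval (fun i => HM1_.differentiableOn_f A (K i)) Q
  have hO : IsOpen ({z | A.θ z ≠ 0} ∩
      (fun z => MvPolynomial.eval (fun i => A.f (K i) z) Q) ⁻¹' {0}ᶜ) :=
    hdQ.continuousOn.isOpen_inter_preimage (HM1_.isOpen_theta A) isOpen_compl_singleton
  have hne : ({z | A.θ z ≠ 0} ∩
      (fun z => MvPolynomial.eval (fun i => A.f (K i) z) Q) ⁻¹' {0}ᶜ).Nonempty := by
    by_contra hempty
    rw [Set.not_nonempty_iff_eq_empty] at hempty
    apply hQ0
    refine h2 g (fun i => A.f (K i)) 0 (fun i =>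
      analyticOnNhd_of_differentiableOn (HM1_.isOpen_theta A)
        (HM1_.differentiableOn_f A (K i)) 0 A.θ_zero) hK Q ?_
    filter_upwards [(HM1_.isOpen_theta A).mem_nhds A.θ_zero] with z hz
    by_contra h
    have : z ∈ ({z | A.θ z ≠ 0} ∩
      (fun z => MvPolynomial.eval (fun i => A.f (K i) z) Q) ⁻¹' {0}ᶜ) := ⟨hz, h⟩
    rw [hempty] at this
    exact this
  obtain ⟨u, hu1, hu2⟩ := (HM1_.dense_ne (psf_diff A A' M) (p := 0)
    (psf_zero A A' M)).exists_mem_open hO hne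
  have hu1' : psf A A' M u ≠ 0 := hu1
  have hu3 : A.θ u ≠ 0 := left_ne_zero_of_mul hu1'
  have hu4 : A'.θ (M *ᵥ u) ≠ 0 := right_ne_zero_of_mul hu1'
  let p : Polynomial ℂ :=
    (MvPolynomial.optionEquivLeft ℂ (Fin g) P').map (MvPolynomial.eval fun i => A.f (K i) u)
  have hp0 : p ≠ 0 := by
    intro h0
    have h1 : p.coeff (MvPolynomial.optionEquivLeft ℂ (Fin g) P').natDegree = 0 := by
      rw [h0, Polynomial.coeff_zero]
    rw [Polynomial.coeff_map, Polynomial.coeff_natDegree] at h1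
    exact hu2.2 h1
  have hd : ∀ i, (∑ l, τ (a l) * A.lat i l) + (∑ l, τ (b l) * A.lin i l) =
      ∑ k, ((R k i : ℚ) : ℂ) * A'.lin k j := by
    intro i
    set δ : ℂ := (N : ℂ) * ((∑ k, ((R k i : ℚ) : ℂ) * A'.lin k j) -
        ((∑ l, τ (a l) * A.lat i l) + (∑ l, τ (b l) * A.lin i l))) with hδ
    have hroot : ∀ m : ℕ, p.IsRoot
        (Kf A A' M j (fun l => τ (a l)) (fun l => τ (b l)) u + m * δ) := by
      intro m
      have m1 : (m • ((N : ℂ) • A.lat i), m • ((N : ℂ) • A.lin i)) ∈ QP A.θ :=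
        nsmul_mem (q1 i) m
      have m2 : (M *ᵥ (m • ((N : ℂ) • A.lat i)),
          m • ((N : ℂ) • ∑ k, ((R k i : ℚ) : ℂ) • A'.lin k)) ∈ QP A'.θ := by
        have := nsmul_mem (q2 i) m
        have e : m • (M *ᵥ ((N : ℂ) • A.lat i),
            (N : ℂ) • ∑ k, ((R k i : ℚ) : ℂ) • A'.lin k) =
            (M *ᵥ (m • ((N : ℂ) • A.lat i)),
              m • ((N : ℂ) • ∑ k, ((R k i : ℚ) : ℂ) • A'.lin k)) := by
          rw [Matrix.mulVec_smul M m]
          rfl
        rwa [e] at this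
      have m3 : HM1_.Auto A (m • ((N : ℂ) • A.lat i)) := by
        have : (N • A.lat i) ∈ HM1_.autoGroup A := nsmul_mem (HM1_.auto_lat A i) N
        have h := nsmul_mem this m
        have e : m • (N • A.lat i) = m • ((N : ℂ) • A.lat i) := by
          rw [Nat.cast_smul_eq_nsmul]
        rw [e] at h
        exact h
      have k1 := Kf_translate A A' M j (fun l => τ (a l)) (fun l => τ (b l)) m1 m2 u hu3 hu4
      have k2 : psf A A' M (u + m • ((N : ℂ) • A.lat i)) ≠ 0 := by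
        unfold psf
        rw [Matrix.mulVec_add]
        exact mul_ne_zero (Z_translate A m1 u hu3).1 (Z_translate A' m2 _ hu4).1
      have k3 := hG _ k2
      have k4 : (fun l => A.f (K l) (u + m • ((N : ℂ) • A.lat i))) = fun l => A.f (K l) u := by
        funext l
        exact HM1_.auto_f A m3 (K l) u
      rw [k4, k1, HM1_.eval_opt] at k3
      have k5 : (m • ((N : ℂ) • ∑ k, ((R k i : ℚ) : ℂ) • A'.lin k)) j -
          (∑ l, τ (a l) * (m • ((N : ℂ) • A.lat i)) l) -
          (∑ l, τ (b l) * (m • ((N : ℂ) • A.lin i)) l) = m * δ := by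
        rw [hδ, ← hdel (fun l => τ (a l)) (fun l => τ (b l)) i]
        have w1 : ∀ (x : Fin g → ℂ) (y : Fin g → ℂ), (∑ l, x l * (m • y) l) =
            m * ∑ l, x l * y l := by
          intro x y
          rw [Finset.mul_sum]
          refine Finset.sum_congr rfl fun l _ => ?_
          rw [Pi.smul_apply, nsmul_eq_mul]
          ring
        rw [w1 (fun l => τ (a l)), w1 (fun l => τ (b l)), Pi.smul_apply, nsmul_eq_mul]
        ring
      rw [k5] at k3
      exact k3
    have hδ0 : δ = 0 := by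
      by_contra hne
      have hinj : Function.Injective fun m : ℕ =>
          Kf A A' M j (fun l => τ (a l)) (fun l => τ (b l)) u + m * δ := by
        intro m m' h
        have h1 := add_left_cancel h
        have h2 := mul_right_cancel₀ hne h1
        exact_mod_cast h2
      have h1 := Set.infinite_range_of_injective hinj
      refine h1 ((Polynomial.finite_setOfPred_isRoot hp0).subset ?_)
      rintro x ⟨m, rfl⟩
      exact hroot m
    rw [hδ] at hδ0
    have := (mul_eq_zero.1 hδ0).resolve_left hNne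
    exact (sub_eq_zero.1 this).symm
  have hz : (Sum.elim (fun l => τ (a l) - a l) (fun l => τ (b l) - b l) ᵥ* A.per) = 0 := by
    funext i
    rw [IndepX.vecMul_per, Pi.zero_apply]
    simp only [sub_mul, Finset.sum_sub_distrib]
    linear_combination hd i - hab i
  have hdet : A.per.det ≠ 0 := A.nondeg.ne_zero
  have hz' := Matrix.eq_zero_of_vecMul_eq_zero hdet hz
  constructor
  · intro l
    have := congrFun hz' (Sum.inl l)
    simp only [Sum.elim_inl, Pi.zero_apply] at this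
    exact sub_eq_zero.1 this
  · intro l
    have := congrFun hz' (Sum.inr l)
    simp only [Sum.elim_inr, Pi.zero_apply] at this
    exact sub_eq_zero.1 this

end main

lemma alg_of_fix (h6 : DRB.Stmt_Aut2) (z : ℂ) (h : ∀ τ ∈ DRB.GalA, τ z = z) :
    IsAlgebraic ℚ z := by
  refine h6 z ((Set.countable_singleton z).mono ?_)
  rintro w ⟨τ, hτ, rfl⟩
  rw [h τ hτ]
  rfl

end HM2_

open HM2_ in
theorem hm2_proof (h1 : Stmt_HM1) (h2 : Stmt_IDP) (h3 : Stmt_PRL) (h4 : Stmt_FRM)
    (h5 : Stmt_TRF) (h6 : DRB.Stmt_Aut2) : Stmt_HM2 := by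
  intro g g' A A' M R hR
  have hMalg := h1 g g' A A' M R hR
  have hU : IsUnit A.per.det := A.nondeg
  set ρ : Matrix (DRB.Idx g') (DRB.Idx g) ℂ :=
    A'.per * R.map (algebraMap ℚ ℂ) * A.per⁻¹ with hρ
  have hmul : ρ * A.per = A'.per * R.map (algebraMap ℚ ℂ) := by
    rw [hρ, Matrix.mul_assoc, Matrix.nonsing_inv_mul _ hU, Matrix.mul_one]
  have hrow : ∀ r i, (∑ l, ρ r (Sum.inl l) * A.lat i l) + (∑ l, ρ r (Sum.inr l) * A.lin i l) =
      ∑ k, A'.per r k * ((R k i : ℚ) : ℂ) := by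
    intro r i
    have h := congrFun (congrFun hmul r) i
    rw [Matrix.mul_apply, Matrix.mul_apply, Fintype.sum_sum_type] at h
    exact h
  have hinl : ∀ i, ρ (Sum.inl i) = Sum.elim (M i) 0 := by
    intro i
    have hz : ((ρ (Sum.inl i) - Sum.elim (M i) 0) ᵥ* A.per) = 0 := by
      funext s
      rw [Matrix.sub_vecMul, Pi.sub_apply, Pi.zero_apply, sub_eq_zero]
      have e1 := hrow (Sum.inl i) s
      have e2 : (ρ (Sum.inl i) ᵥ* A.per) s = (∑ l, ρ (Sum.inl i) (Sum.inl l) * A.lat s l) +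
          (∑ l, ρ (Sum.inl i) (Sum.inr l) * A.lin s l) := by
        rw [Matrix.vecMul, dotProduct, Fintype.sum_sum_type]
        rfl
      rw [e2, e1, DRB.IndepX.vecMul_per]
      have e3 := congrFun (hR s) i
      simp only [Pi.zero_apply, zero_mul, Finset.sum_const_zero, add_zero]
      rw [Matrix.mulVec, dotProduct] at e3
      rw [e3, Finset.sum_apply]
      refine Finset.sum_congr rfl fun k _ => ?_
      rw [Pi.smul_apply, smul_eq_mul, mul_comm]
      rfl
    exact sub_eq_zero.1 (Matrix.eq_zero_of_vecMul_eq_zero hU.ne_zero hz)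
  have hinr : ∀ j, (∀ l, IsAlgebraic ℚ (ρ (Sum.inr j) (Sum.inl l))) ∧
      ∀ l, IsAlgebraic ℚ (ρ (Sum.inr j) (Sum.inr l)) := by
    intro j
    have hfix := fun τ hτ => main_fix A A' M j h2 h3 h4 h5 hMalg R hR
      (fun l => ρ (Sum.inr j) (Sum.inl l)) (fun l => ρ (Sum.inr j) (Sum.inr l)) (by
        intro i
        rw [hrow (Sum.inr j) i]
        refine Finset.sum_congr rfl fun k _ => ?_
        rw [mul_comm]
        rfl) τ hτ
    exact ⟨fun l => alg_of_fix h6 _ fun τ hτ => (hfix τ hτ).1 l,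
      fun l => alg_of_fix h6 _ fun τ hτ => (hfix τ hτ).2 l⟩
  refine ⟨ρ, ?_, ?_, hmul.symm⟩
  · rintro (i | j) (l | l)
    · rw [hinl]
      exact hMalg i l
    · rw [hinl]
      exact isAlgebraic_zero
    · exact (hinr j).1 l
    · exact (hinr j).2 l
  · intro i j
    rw [hinl]
    rfl

end

end Pool.Agent.SPF
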