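import Pool.Agent.SPF.OutKit

set_option linter.unusedSectionVars false
set_option linter.unusedSimpArgs false
set_option linter.unusedVariables false

/-!
# SPF, module HRM: spaces with an action of `ℚ(i)` or `ℚ(√-3)` by complex scalars
-/

open scoped BigOperators
open Complex

namespace Pool.Agent.SPF

noncomputable section

namespace HRM_

section forms

variable {ι : Type} [Fintype ι] [DecidableEq ι]

/-- orthogonal sum of multiples of the standard form -/
def eN (q : ι → ℚ) : (ι → ℚ × ℚ) →ₗ[ℚ] (ι → ℚ × ℚ) →ₗ[ℚ] ℚ :=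
  ∑ k, q k • (e0.compl₁₂ (LinearMap.proj k) (LinearMap.proj k))

theorem e0_apply (x y : ℚ × ℚ) : e0 x y = x.1 * y.2 - x.2 * y.1 := rfl

theorem eN_apply (q : ι → ℚ) (x y : ι → ℚ × ℚ) : eN q x y = ∑ k, q k * e0 (x k) (y k) := by
  unfold eN
  simp [LinearMap.sum_apply]

/-- coordinates -/
def zN (ι : Type) (η : ℂ) : (ι → ℚ × ℚ) →ₗ[ℚ] (ι → ℂ) where
  toFun := fun x k => ((x k).1 : ℂ) + ((x k).2 : ℂ) * η
  map_add' := by
    intro x y
    funext k
    simp only [Pi.add_apply, Prod.fst_add, Prod.snd_add]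
    push_cast
    ring
  map_smul' := by
    intro r x
    funext k
    simp only [Pi.smul_apply, Prod.smul_fst, Prod.smul_snd, smul_eq_mul, RingHom.id_apply,
      Rat.smul_def]
    push_cast
    ring

theorem zN_apply (η : ℂ) (x : ι → ℚ × ℚ) (k : ι) :
    zN ι η x k = ((x k).1 : ℂ) + ((x k).2 : ℂ) * η := rfl

end forms

theorem ss_fin0 (q : Fin 0 → ℚ) (η c₀ : ℂ) : SS (eN q) (zN (Fin 0) η) (fun _ => c₀) := by
  refine ⟨fun i => i.elim0, ?_⟩
  let B : Module.Basis (Fin 0 ⊕ Fin 0) ℚ (Fin 0 → ℚ × ℚ) := Module.Basis.empty _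
  refine ⟨B, 0, fun _ => 1, ?_, ?_, ?_, ?_, ?_⟩
  · constructor
    · intro x
      rw [eN_apply]
      simp
    · intro i; exact i.elim0
    · intro i; exact i.elim0
    · intro i; exact i.elim0
  · constructor
    · intro x y
      rw [eN_apply]
      simp [dotp]
    · intro r hr
      exact absurd (Subsingleton.elim r 0) hr
  · constructor
    · exact differentiable_const _
    · intro j
      rcases j with j | j <;> exact j.elim0
  · intro h
    have := congrFun h 0
    simp at this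
  · refine ⟨1, one_ne_zero, fun x => ⟨?_, fun i => i.elim0⟩⟩
    have : TT (⇑(zN (Fin 0) η)) (⇑(0 : (Fin 0 → ℚ × ℚ) →ₗ[ℚ] (Fin 0 → ℂ))) x (fun _ => 1) 0 = 1 := by
      simp [TT, dotp]
    rw [this]
    simpa using isAlgebraic_one (R := ℚ) (A := ℂ)

/-- reorganisation of the coordinates -/
def consE (n : ℕ) : (Fin (n + 1) → ℚ × ℚ) ≃ₗ[ℚ] (ℚ × ℚ) × (Fin n → ℚ × ℚ) where
  toFun := fun x => (x 0, fun k => x k.succ)
  invFun := fun y => Fin.cons y.1 y.2
  map_add' := fun x y => rfl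
  map_smul' := fun r x => rfl
  left_inv := by
    intro x
    funext k
    refine Fin.cases ?_ (fun k => ?_) k <;> simp
  right_inv := by
    intro y
    simp

/-- relabelling -/
def sumE (n : ℕ) : Fin 1 ⊕ Fin n ≃ Fin (n + 1) where
  toFun := Sum.elim (fun _ => 0) Fin.succ
  invFun := Fin.cases (Sum.inl 0) Sum.inr
  left_inv := by
    intro x
    rcases x with x | x
    · simp [Subsingleton.elim x 0]
    · simp
  right_inv := by
    intro k
    refine Fin.cases ?_ (fun k => ?_) k <;> simp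

theorem ss_fin (hSUM : Stmt_SUM) (hSCA : Stmt_SCA) (hLIN : Stmt_LIN) (hRLB : Stmt_RLB) (η c₀ : ℂ)
    (hc : c₀ ≠ 0) (hb : SS e0 (z0 1 η) (fun _ => c₀)) : ∀ (n : ℕ) (q : Fin n → ℚ),
    (∀ k, 0 < q k) → SS (eN q) (zN (Fin n) η) (fun _ => c₀) := by
  intro n
  induction n with
  | zero => intro q _; exact ss_fin0 q η c₀
  | succ n ih =>
    intro q hq
    have h1 : SS (q 0 • e0) (z0 1 η) (fun _ => c₀) := hSCA _ _ _ _ _ _ (hq 0) hb
    have h2 := ih (fun k => q k.succ) (fun k => hq _)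
    obtain ⟨-, B1, L1, F1, hB1, hL1, -⟩ := id h1
    obtain ⟨-, B2, L2, F2, hB2, hL2, -⟩ := id h2
    have h3 := (hSUM _ _ _ _ _ _ B1 B2 (z0 1 η) L1 (zN (Fin n) η) L2 (fun _ => c₀) (fun _ => c₀)
      hB1 hL1 hB2 hL2).2 ⟨h1, h2⟩
    have hce : (Sum.elim (fun _ : Fin 1 => c₀) (fun _ : Fin n => c₀)) = fun _ => c₀ := by
      funext i
      rcases i with i | i <;> rfl
    rw [hce] at h3
    have hiso : ∀ x y, (eSum (q 0 • e0) (eN fun k => q k.succ)) (consE n x) (consE n y) =
        eN q x y := by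
      intro x y
      rw [eN_apply, Fin.sum_univ_succ]
      have e1 : (consE n x) = (x 0, fun k => x k.succ) := rfl
      have e2 : (consE n y) = (y 0, fun k => y k.succ) := rfl
      rw [e1, e2]
      unfold eSum
      simp only [LinearMap.add_apply, LinearMap.compl₁₂_apply, LinearMap.fst_apply,
        LinearMap.snd_apply, LinearMap.smul_apply, eN_apply, smul_eq_mul]
    have hz : ∀ x, ((zSum (z0 1 η) (zN (Fin n) η)).comp (consE n).toLinearMap) x =
        (1 : Matrix (Fin 1 ⊕ Fin n) (Fin 1 ⊕ Fin n) ℂ).mulVec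
          (zSum (z0 1 η) (zN (Fin n) η) (consE n x)) := by
      intro x
      rw [Matrix.one_mulVec]
      rfl
    have halg : ∀ i j, Alg ((1 : Matrix (Fin 1 ⊕ Fin n) (Fin 1 ⊕ Fin n) ℂ) i j * c₀ / c₀) := by
      intro i j
      rw [Matrix.one_apply]
      split_ifs
      · rw [one_mul, div_self hc]
        exact isAlgebraic_one
      · rw [zero_mul, zero_div]
        exact isAlgebraic_zero
    have h11 : (1 : Matrix (Fin 1 ⊕ Fin n) (Fin 1 ⊕ Fin n) ℂ) * 1 = 1 := one_mul 1
    have h4 : SS (eN q) ((zSum (z0 1 η) (zN (Fin n) η)).comp (consE n).toLinearMap)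
        (fun _ : Fin 1 ⊕ Fin n => c₀) :=
      hLIN ((ℚ × ℚ) × (Fin n → ℚ × ℚ)) (Fin (n + 1) → ℚ × ℚ) (Fin 1 ⊕ Fin n)
        (eSum (q 0 • e0) (eN fun k => q k.succ)) (eN q) (consE n) (zSum (z0 1 η) (zN (Fin n) η))
        ((zSum (z0 1 η) (zN (Fin n) η)).comp (consE n).toLinearMap) 1 1 (fun _ => c₀) (fun _ => c₀)
        hiso h11 hz (fun _ => hc) halg h3
    refine hRLB _ _ _ (sumE n) _ _ _ _ _ ?_ (fun _ => rfl) h4
    intro x i
    rcases i with i | i
    · show zN (Fin (n + 1)) η x 0 = z0 1 η (x 0) i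
      rw [zN_apply]
      show _ = ((x 0).1 : ℂ) * 1 + ((x 0).2 : ℂ) * η
      rw [mul_one]
    · rfl

theorem ss_gen (hSUM : Stmt_SUM) (hSCA : Stmt_SCA) (hLIN : Stmt_LIN) (hRLB : Stmt_RLB) (η c₀ : ℂ)
    (hc : c₀ ≠ 0) (hb : SS e0 (z0 1 η) (fun _ => c₀)) (ι : Type) [Fintype ι] [DecidableEq ι]
    (q : ι → ℚ) (hq : ∀ k, 0 < q k) : SS (eN q) (zN ι η) (fun _ => c₀) := by
  obtain ⟨n, ⟨f⟩⟩ := Finite.exists_equiv_fin ι
  have h1 := ss_fin hSUM hSCA hLIN hRLB η c₀ hc hb n (fun k => q (f.symm k)) (fun k => hq _)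
  let φ : (ι → ℚ × ℚ) ≃ₗ[ℚ] (Fin n → ℚ × ℚ) := LinearEquiv.funCongrLeft ℚ (ℚ × ℚ) f.symm
  have hφ : ∀ x k, φ x k = x (f.symm k) := fun x k => rfl
  have h2 : SS (eN q) ((zN (Fin n) η).comp φ.toLinearMap) (fun _ : Fin n => c₀) := by
    refine hLIN _ _ _ _ _ φ _ _ 1 1 _ _ ?_ (one_mul 1) ?_ (fun _ => hc) ?_ h1
    · intro x y
      rw [eN_apply, eN_apply]
      exact Fintype.sum_equiv f.symm _ _ fun k => by rw [hφ, hφ]
    · intro x
      rw [Matrix.one_mulVec]
      rfl
    · intro i j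
      rw [Matrix.one_apply]
      split_ifs
      · rw [one_mul, div_self hc]
        exact isAlgebraic_one
      · rw [zero_mul, zero_div]
        exact isAlgebraic_zero
  refine hRLB _ _ _ f.symm _ _ _ _ _ ?_ (fun _ => rfl) h2
  intro x i
  rfl

/-- orthogonal bases -/
theorem exists_orth : ∀ (n : ℕ) (V : Type) [AddCommGroup V] [Module ℚ V] [FiniteDimensional ℚ V]
    (d : ℚ) (e : V →ₗ[ℚ] V →ₗ[ℚ] ℚ) (J : V →ₗ[ℚ] V), (∀ x, e x x = 0) →
    (∀ x, J (J x) = -(d • x)) → (∀ x y, e (J x) y = -e x (J y)) →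
    (∀ x, x ≠ 0 → 0 < e x (J x)) → Module.finrank ℚ V = 2 * n →
    ∃ w : Fin n → V, (∀ i, w i ≠ 0) ∧
      ∀ i j, i ≠ j → e (w i) (w j) = 0 ∧ e (w i) (J (w j)) = 0 := by
  intro n
  induction n with
  | zero =>
    intro V _ _ _ d e J _ _ _ _ _
    exact ⟨fun i => i.elim0, fun i => i.elim0, fun i => i.elim0⟩
  | succ n ih =>
    intro V _ _ _ d e J halt hJ hanti hpos hdim
    have hpos' : 0 < Module.finrank ℚ V := by omega
    have : Nontrivial V := Module.finrank_pos_iff.1 hpos'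
    obtain ⟨x, hx⟩ := exists_ne (0 : V)
    have hq := hpos x hx
    have hswap : ∀ a b, e b a = - e a b := fun a b => e_swap halt a b
    let T : V →ₗ[ℚ] ℚ × ℚ := (e x).prod (e (J x))
    have hT : ∀ y, T y = (e x y, e (J x) y) := fun y => rfl
    have hJJ : e (J x) (J x) = 0 := halt _
    have hJx : e (J x) x = - e x (J x) := hswap _ _
    have hsurj : Function.Surjective T := by
      rintro ⟨a, b⟩
      refine ⟨(-(b / e x (J x))) • x + (a / e x (J x)) • J x, ?_⟩
      rw [hT]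
      simp only [map_add, map_smul, smul_eq_mul, halt, hJJ, hJx]
      rw [Prod.mk.injEq]
      constructor
      · field_simp
        ring
      · field_simp
        ring
    let V2 : Submodule ℚ V := LinearMap.ker T
    have hmem : ∀ y, y ∈ V2 ↔ e x y = 0 ∧ e (J x) y = 0 := by
      intro y
      rw [LinearMap.mem_ker, hT, Prod.mk_eq_zero]
    have hdim2 : Module.finrank ℚ V2 = 2 * n := by
      have h1 := LinearMap.finrank_range_add_finrank_ker T
      rw [LinearMap.range_eq_top.2 hsurj, finrank_top, hdim] at h1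
      have h2 : Module.finrank ℚ (ℚ × ℚ) = 2 := by
        rw [Module.finrank_prod, Module.finrank_self]
      rw [h2] at h1
      show Module.finrank ℚ (LinearMap.ker T) = 2 * n
      omega
    have hJV : ∀ y ∈ V2, J y ∈ V2 := by
      intro y hy
      rw [hmem] at hy ⊢
      constructor
      · have := hanti x y
        rw [hy.2] at this
        linarith
      · have h1 := hanti (J x) y
        rw [hJ, map_neg, LinearMap.neg_apply, map_smul, LinearMap.smul_apply, hy.1] at h1
        simpa using h1.symm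
    let e2 : V2 →ₗ[ℚ] V2 →ₗ[ℚ] ℚ := e.domRestrict₁₂ V2 V2
    have he2 : ∀ a b : V2, e2 a b = e a b := fun a b => rfl
    let J2 : V2 →ₗ[ℚ] V2 := J.restrict hJV
    have hJ2 : ∀ a : V2, ((J2 a : V2) : V) = J a := fun a => rfl
    obtain ⟨w', hw0, hw⟩ := ih V2 d e2 J2 (fun a => by rw [he2]; exact halt _)
      (fun a => by
        apply Subtype.ext
        rw [hJ2, hJ2, hJ]
        rfl)
      (fun a b => by rw [he2, he2, hJ2, hJ2]; exact hanti _ _)
      (fun a ha => by
        rw [he2, hJ2]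
        refine hpos _ ?_
        intro h
        exact ha (Subtype.ext h)) hdim2
    refine ⟨Fin.cons x (fun k => (w' k : V)), ?_, ?_⟩
    · intro i
      refine Fin.cases ?_ (fun k => ?_) i
      · simpa using hx
      · rw [Fin.cons_succ]
        intro h
        exact hw0 k (Subtype.ext h)
    · intro i j
      refine Fin.cases ?_ (fun k => ?_) i <;> refine Fin.cases ?_ (fun l => ?_) j
      · intro h
        exact absurd rfl h
      · intro _
        rw [Fin.cons_zero, Fin.cons_succ]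
        have h1 := (hmem _).1 (w' l).2
        have h2 := (hmem _).1 (hJV _ (w' l).2)
        exact ⟨h1.1, h2.1⟩
      · intro _
        rw [Fin.cons_zero, Fin.cons_succ]
        have h1 := (hmem _).1 (w' k).2
        rw [hswap x, hswap (J x), h1.1, h1.2]
        simp
      · intro h
        rw [Fin.cons_succ, Fin.cons_succ]
        have hkl : k ≠ l := fun hkl => h (by rw [hkl])
        have := hw k l hkl
        rw [he2, he2, hJ2] at this
        exact this

/-- matrices with algebraic entries have algebraic inverses -/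
theorem exists_inv {ι : Type} [Fintype ι] [DecidableEq ι] (M : Matrix ι ι ℂ)
    (hM : ∀ i j, Alg (M i j)) (hdet : M.det ≠ 0) :
    ∃ N : Matrix ι ι ℂ, M * N = 1 ∧ ∀ i j, Alg (N i j) := by
  let K := algebraicClosure ℚ ℂ
  have hmem : ∀ i j, M i j ∈ K := fun i j => mem_algebraicClosure_iff.2 (hM i j)
  let M' : Matrix ι ι K := Matrix.of fun i j => ⟨M i j, hmem i j⟩
  have h1 : M'.map (algebraMap K ℂ) = M := by
    ext i j
    rfl
  have h2 : M'.det ≠ 0 := by
    intro h
    apply hdet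
    rw [← h1]
    have := (algebraMap K ℂ).map_det M'
    rw [h, map_zero] at this
    exact this.symm
  refine ⟨(M'⁻¹).map (algebraMap K ℂ), ?_, ?_⟩
  · rw [← h1, ← Matrix.map_mul, Matrix.mul_nonsing_inv _ (Ne.isUnit h2)]
    exact Matrix.map_one _ (map_zero _) (map_one _)
  · intro i j
    exact mem_algebraicClosure_iff.1 (M'⁻¹ i j).2

end HRM_

open HRM_

theorem hrm_aux (hSUM : Stmt_SUM) (hSCA : Stmt_SCA) (hLIN : Stmt_LIN) (hRLB : Stmt_RLB)
    (d : ℕ) (s t : ℚ) (ht : 0 < t) (η c₀ : ℂ)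
    (hη : η = (s : ℂ) + (t : ℂ) * ((Real.sqrt d : ℂ) * I))
    (hc : c₀ ≠ 0) (hb : SS e0 (z0 1 η) (fun _ => c₀)) (V : Type) [AddCommGroup V] [Module ℚ V]
    [FiniteDimensional ℚ V] (ι : Type) [Fintype ι] [DecidableEq ι] (e : V →ₗ[ℚ] V →ₗ[ℚ] ℚ)
    (ζ : V →ₗ[ℚ] (ι → ℂ)) (J : V →ₗ[ℚ] V)
    (halt : ∀ x, e x x = 0) (hJ : ∀ x, J (J x) = -((d : ℚ) • x))
    (hanti : ∀ x y, e (J x) y = -e x (J y)) (hpos : ∀ x, x ≠ 0 → 0 < e x (J x))
    (hζJ : ∀ x, ζ (J x) = ((Real.sqrt d : ℂ) * I) • ζ x) (hζ : ∀ x i, Alg (ζ x i))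
    (hdim : Module.finrank ℚ V = 2 * Fintype.card ι)
    (hspan : Submodule.span ℂ (Set.range ζ) = ⊤) : SS e ζ (fun _ => c₀) := by
  obtain ⟨w0, hw0, hw⟩ := exists_orth (Fintype.card ι) V d e J halt hJ hanti hpos hdim
  let f := Fintype.equivFin ι
  let w : ι → V := fun i => w0 (f i)
  have hwne : ∀ i, w i ≠ 0 := fun i => hw0 _
  have horth : ∀ i j, i ≠ j → e (w i) (w j) = 0 ∧ e (w i) (J (w j)) = 0 := fun i j hij =>
    hw _ _ (fun h => hij (f.injective h))
  have hswap : ∀ a b, e b a = - e a b := fun a b => e_swap halt a b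
  let q : ι → ℚ := fun i => e (w i) (J (w i))
  have hq : ∀ i, 0 < q i := fun i => hpos _ (hwne i)
  have horth3 : ∀ i j, i ≠ j → e (J (w i)) (w j) = 0 := by
    intro i j hij
    rw [hanti, (horth i j hij).2, neg_zero]
  have horth4 : ∀ i j, i ≠ j → e (J (w i)) (J (w j)) = 0 := by
    intro i j hij
    rw [hanti, hJ, map_neg, map_smul, (horth i j hij).1]
    simp
  let w' : ι → V := fun i => s • w i + t • J (w i)
  let Φ : (ι → ℚ × ℚ) →ₗ[ℚ] V :=
    { toFun := fun x => ∑ k, ((x k).1 • w k + (x k).2 • w' k)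
      map_add' := by
        intro x y
        rw [← Finset.sum_add_distrib]
        refine Finset.sum_congr rfl fun k _ => ?_
        simp only [Pi.add_apply, Prod.fst_add, Prod.snd_add, add_smul]
        abel
      map_smul' := by
        intro r x
        rw [RingHom.id_apply, Finset.smul_sum]
        refine Finset.sum_congr rfl fun k _ => ?_
        simp only [Pi.smul_apply, Prod.smul_fst, Prod.smul_snd, smul_eq_mul, smul_add, mul_smul] }
  have hΦ : ∀ x, Φ x = ∑ k, ((x k).1 • w k + (x k).2 • w' k) := fun x => rfl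
  -- pairing of the blocks
  have hblock : ∀ (i j : ι) (a b a' b' : ℚ), e (a • w i + b • w' i) (a' • w j + b' • w' j) =
      if i = j then (t * q i) * (a * b' - b * a') else 0 := by
    intro i j a b a' b'
    by_cases hij : i = j
    · subst hij
      rw [if_pos rfl]
      have h1 : e (J (w i)) (w i) = - q i := hswap _ _
      have h2 : e (w i) (J (w i)) = q i := rfl
      simp only [w', map_add, map_smul, LinearMap.add_apply, LinearMap.smul_apply, smul_eq_mul,
        halt, h1, h2]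
      ring
    · rw [if_neg hij]
      simp only [w', map_add, map_smul, LinearMap.add_apply, LinearMap.smul_apply, smul_eq_mul,
        (horth i j hij).1, (horth i j hij).2, horth3 i j hij, horth4 i j hij]
      ring
  have hiso : ∀ x y, e (Φ x) (Φ y) = eN (fun i => t * q i) x y := by
    intro x y
    rw [hΦ x, hΦ y, eN_apply, map_sum e, LinearMap.sum_apply]
    refine Finset.sum_congr rfl fun i _ => ?_
    rw [map_sum, Finset.sum_eq_single i]
    · rw [hblock, if_pos rfl, e0_apply]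
    · intro j _ hj
      rw [hblock, if_neg (Ne.symm hj)]
    · intro h
      exact absurd (Finset.mem_univ i) h
  have hinj : Function.Injective Φ := by
    rw [injective_iff_map_eq_zero]
    intro x hx
    have h1 : ∀ y, eN (fun i => t * q i) x y = 0 := by
      intro y
      rw [← hiso, hx, map_zero, LinearMap.zero_apply]
    funext k
    have h2 := h1 (Pi.single k (0, 1))
    have h3 := h1 (Pi.single k (1, 0))
    rw [eN_apply, Finset.sum_eq_single k] at h2 h3
    · rw [Pi.single_eq_same, e0_apply] at h2 h3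
      have htq : t * q k ≠ 0 := (mul_pos ht (hq k)).ne'
      have h4 := (mul_eq_zero.1 h2).resolve_left htq
      have h5 := (mul_eq_zero.1 h3).resolve_left htq
      simp only [mul_one, mul_zero, sub_zero, zero_sub, neg_eq_zero] at h4 h5
      exact Prod.ext h4 h5
    all_goals first
      | (intro b _ hb; rw [Pi.single_eq_of_ne hb, map_zero, mul_zero])
      | (intro h; exact absurd (Finset.mem_univ k) h)
  have hfr : Module.finrank ℚ (ι → ℚ × ℚ) = Module.finrank ℚ V := by
    rw [hdim, Module.finrank_pi_fintype]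
    simp only [Module.finrank_prod, Module.finrank_self, Finset.sum_const, Finset.card_univ,
      smul_eq_mul]
    ring
  let ΦE : (ι → ℚ × ℚ) ≃ₗ[ℚ] V := LinearEquiv.ofInjectiveOfFinrankEq Φ hinj hfr
  have hΦE : ∀ x, ΦE x = Φ x := fun x => rfl
  -- the matrix of the coordinates
  let M : Matrix ι ι ℂ := Matrix.of fun i k => ζ (w k) i
  have hζw' : ∀ k, ζ (w' k) = η • ζ (w k) := by
    intro k
    show ζ (s • w k + t • J (w k)) = _
    rw [map_add, map_smul, map_smul, hζJ, hη]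
    funext i
    simp only [Pi.add_apply, Pi.smul_apply, smul_eq_mul, Rat.smul_def]
    ring
  have hζΦ : ∀ x, ζ (Φ x) = M.mulVec (zN ι η x) := by
    intro x
    rw [hΦ, map_sum]
    funext i
    rw [Finset.sum_apply, Matrix.mulVec]
    refine Finset.sum_congr rfl fun k _ => ?_
    rw [map_add, map_smul, map_smul, hζw', zN_apply]
    simp only [Pi.add_apply, Pi.smul_apply, smul_eq_mul, Rat.smul_def]
    show _ = ζ (w k) i * _
    ring
  have hsurj : Function.Surjective M.mulVec := by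
    intro y
    have hy : y ∈ Submodule.span ℂ (Set.range ζ) := by rw [hspan]; trivial
    have h1 : Submodule.span ℂ (Set.range ζ) ≤ LinearMap.range M.mulVecLin := by
      rw [Submodule.span_le]
      rintro _ ⟨v, rfl⟩
      obtain ⟨x, rfl⟩ := ΦE.surjective v
      exact ⟨zN ι η x, by rw [hΦE, hζΦ]; rfl⟩
    obtain ⟨x, hx⟩ := h1 hy
    exact ⟨x, hx⟩
  have hdet : M.det ≠ 0 := by
    have hu : IsUnit M := Matrix.mulVec_surjective_iff_isUnit.1 hsurj
    exact ((Matrix.isUnit_iff_isUnit_det _).1 hu).ne_zero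
  obtain ⟨N, hMN, hN⟩ := exists_inv M (fun i k => hζ _ _) hdet
  have hsrc := ss_gen hSUM hSCA hLIN hRLB η c₀ hc hb ι (fun i => t * q i)
    (fun i => mul_pos ht (hq i))
  refine hLIN _ _ _ _ _ ΦE.symm _ _ M N _ _ ?_ hMN ?_ (fun _ => hc) ?_ hsrc
  · intro x y
    rw [← hiso, ← hΦE, ← hΦE, LinearEquiv.apply_symm_apply, LinearEquiv.apply_symm_apply]
  · intro x
    rw [← hζΦ, ← hΦE, LinearEquiv.apply_symm_apply]
  · intro i j
    rw [mul_div_assoc, div_self hc, mul_one]
    exact hN i j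

theorem hrm_proof (hBAS : Stmt_BAS) (hSUM : Stmt_SUM) (hSCA : Stmt_SCA) (hLIN : Stmt_LIN)
    (hRLB : Stmt_RLB) : Stmt_HRM := by
  intro d hd
  rcases hd with rfl | rfl
  · obtain ⟨⟨c, hc⟩, -⟩ := hBAS
    have hc0 : c ≠ 0 := hc.1 0
    refine ⟨c, hc0, ?_⟩
    intro V _ _ _ ι _ _ e ζ J h1 h2 h3 h4 h5 h6 h7 h8
    exact hrm_aux hSUM hSCA hLIN hRLB 1 0 1 one_pos I c (by simp) hc0 hc V ι e ζ J h1 h2 h3 h4 h5
      h6 h7 h8
  · obtain ⟨-, c, hc⟩ := hBAS
    have hc0 : c ≠ 0 := hc.1 0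
    refine ⟨c, hc0, ?_⟩
    intro V _ _ _ ι _ _ e ζ J h1 h2 h3 h4 h5 h6 h7 h8
    exact hrm_aux hSUM hSCA hLIN hRLB 3 (-1/2) (1/2) (by norm_num) _ c
      (by push_cast; ring) hc0 hc V ι e ζ J h1 h2 h3 h4 h5 h6 h7 h8

end

end Pool.Agent.SPF
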