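import Pool.Agent.SPF.OutKit

open scoped BigOperators Topology
open Complex

namespace Pool.Agent.SPF

namespace IDP_

theorem surj {n : ℕ} (f : Fin n → (Fin n → ℂ) → ℂ) (z₀ : Fin n → ℂ)
    (hdet : (Matrix.of fun i j => pd j (f i) z₀).det ≠ 0) :
    (ContinuousLinearMap.pi (fun i => fderiv ℂ (f i) z₀) :
      (Fin n → ℂ) →L[ℂ] (Fin n → ℂ)).range = ⊤ := by
  rw [LinearMap.range_eq_top]
  intro y
  obtain ⟨M, hM⟩ : ∃ M : Matrix (Fin n) (Fin n) ℂ, M = Matrix.of fun i j => pd j (f i) z₀ :=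
    ⟨_, rfl⟩
  rw [← hM] at hdet
  have hu : IsUnit M.det := isUnit_iff_ne_zero.2 hdet
  refine ⟨M⁻¹.mulVec y, ?_⟩
  have h1 : ∀ v : Fin n → ℂ, (ContinuousLinearMap.pi (fun i => fderiv ℂ (f i) z₀) :
      (Fin n → ℂ) →L[ℂ] (Fin n → ℂ)) v = M.mulVec v := by
    intro v
    funext i
    rw [ContinuousLinearMap.pi_apply]
    have h2 : v = ∑ j, v j • (Pi.single j 1 : Fin n → ℂ) := by
      funext l
      simp [Finset.sum_apply, Pi.single_apply]
    conv_lhs => rw [h2]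
    rw [map_sum]
    simp only [map_smul, smul_eq_mul]
    rw [Matrix.mulVec, dotProduct, hM]
    refine Finset.sum_congr rfl (fun j _ => ?_)
    rw [Matrix.of_apply, pd, mul_comm]
  have h3 := h1 (M⁻¹.mulVec y)
  rw [Matrix.mulVec_mulVec, Matrix.mul_nonsing_inv _ hu, Matrix.one_mulVec] at h3
  exact h3

theorem ball_infinite (c : ℂ) {ε : ℝ} (hε : 0 < ε) : (Metric.ball c ε).Infinite := by
  intro hfin
  exact (infinite_of_mem_nhds c (Metric.ball_mem_nhds c hε)) hfin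

end IDP_

theorem idp_proof : Stmt_IDP := by
  intro n f z₀ hf hdet P hP
  have hF : HasStrictFDerivAt (fun z i => f i z)
      (ContinuousLinearMap.pi (fun i => fderiv ℂ (f i) z₀) : (Fin n → ℂ) →L[ℂ] (Fin n → ℂ)) z₀ :=
    hasStrictFDerivAt_pi.2 (fun i => (hf i).hasStrictFDerivAt)
  have hmap := hF.map_nhds_eq_of_surj (IDP_.surj f z₀ hdet)
  have hev : ∀ᶠ w in 𝓝 (fun i => f i z₀), MvPolynomial.eval w P = 0 := by
    rw [← hmap]
    exact Filter.eventually_map.2 hP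
  obtain ⟨ε, hε, hball⟩ := Metric.eventually_nhds_iff_ball.1 hev
  refine MvPolynomial.funext_set (fun i => Metric.ball (f i z₀) ε)
    (fun i => IDP_.ball_infinite _ hε) (fun x hx => ?_)
  rw [map_zero]
  refine hball x ?_
  rw [ball_pi _ hε]
  exact hx

end Pool.Agent.SPF
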