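import Pool.Agent.SPF.OutKit

set_option linter.unusedSectionVars false

/-!
# IMK: the immersion property
-/

open scoped BigOperators Topology
open Complex

namespace Pool.Agent.SPF

noncomputable section

namespace IMK_

variable {V : Type} [AddCommGroup V] [Module ℚ V] {ι : Type} [Fintype ι] [DecidableEq ι]
variable {e : V →ₗ[ℚ] V →ₗ[ℚ] ℚ} {B : Module.Basis (ι ⊕ ι) ℚ V} {ζ L : V →ₗ[ℚ] (ι → ℂ)}

/-- directional derivative at the origin -/
def dv (v : ι → ℂ) (F : (ι → ℂ) → ℂ) : ℂ := ∑ i, v i * pd i F 0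

theorem dv_mul (v : ι → ℂ) {F G : (ι → ℂ) → ℂ} (hF : Differentiable ℂ F)
    (hG : Differentiable ℂ G) : dv v (fun z => F z * G z) = F 0 * dv v G + G 0 * dv v F := by
  unfold dv
  rw [Finset.mul_sum, Finset.mul_sum, ← Finset.sum_add_distrib]
  refine Finset.sum_congr rfl fun i _ => ?_
  rw [pd_mul i (hF 0) (hG 0)]
  ring

theorem dv_add (v : ι → ℂ) {F G : (ι → ℂ) → ℂ} (hF : Differentiable ℂ F)
    (hG : Differentiable ℂ G) : dv v (fun z => F z + G z) = dv v F + dv v G := by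
  unfold dv
  rw [← Finset.sum_add_distrib]
  refine Finset.sum_congr rfl fun i _ => ?_
  have h1 : pd i (fun z => F z + G z) 0 = pd i F 0 + pd i G 0 := by
    unfold pd
    have h2 := ((hF 0).hasFDerivAt.add (hG 0).hasFDerivAt).fderiv
    have h3 : fderiv ℂ (fun z => F z + G z) 0 = fderiv ℂ F 0 + fderiv ℂ G 0 := h2
    rw [h3]
    rfl
  rw [h1]
  ring

theorem dv_pow (v : ι → ℂ) {F : (ι → ℂ) → ℂ} (hF : Differentiable ℂ F) (k : ℕ) :
    F 0 * dv v (fun z => F z ^ k) = k * dv v F * F 0 ^ k := by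
  induction k with
  | zero =>
    have : dv v (fun z : ι → ℂ => F z ^ 0) = 0 := by
      unfold dv
      refine Finset.sum_eq_zero fun i _ => ?_
      have h1 : pd i (fun z : ι → ℂ => F z ^ 0) 0 = 0 := by
        unfold pd
        simp only [pow_zero]
        rw [fderiv_fun_const]
        rfl
      rw [h1, mul_zero]
    rw [this]
    simp
  | succ k ih =>
    have h1 : (fun z => F z ^ (k + 1)) = fun z => F z ^ k * F z := by
      funext z
      rw [pow_succ]
    have h2 : Differentiable ℂ fun z => F z ^ k := hF.pow k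
    rw [h1, dv_mul v h2 hF]
    push_cast
    linear_combination F 0 * ih

theorem dv_add_left (v w : ι → ℂ) (F : (ι → ℂ) → ℂ) : dv (v + w) F = dv v F + dv w F := by
  unfold dv
  rw [← Finset.sum_add_distrib]
  refine Finset.sum_congr rfl fun i _ => ?_
  rw [Pi.add_apply]
  ring

theorem dv_smul_left (a : ℂ) (v : ι → ℂ) (F : (ι → ℂ) → ℂ) : dv (a • v) F = a * dv v F := by
  unfold dv
  rw [Finset.mul_sum]
  refine Finset.sum_congr rfl fun i _ => ?_
  rw [Pi.smul_apply, smul_eq_mul]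
  ring

theorem dv_zero_left (F : (ι → ℂ) → ℂ) : dv 0 F = 0 := by
  unfold dv
  simp

/-- the bad vectors -/
def bad (e : V →ₗ[ℚ] V →ₗ[ℚ] ℚ) (ζ L : V →ₗ[ℚ] (ι → ℂ)) (B : Module.Basis (ι ⊕ ι) ℚ V)
    (x₀ : V) (T : (ι → ℂ) → ℂ) (k : ℕ) : Submodule ℂ (ι → ℂ) where
  carrier := {v | ∀ F, IsTk e ζ L B k ((k : ℚ) • x₀) F →
    TT ζ L x₀ T 0 * dv v F = k * dv v (TT ζ L x₀ T) * F 0}
  zero_mem' := by
    intro F _
    rw [dv_zero_left, dv_zero_left]
    ring
  add_mem' := by
    intro v w hv hw F hF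
    have h1 := hv F hF
    have h2 := hw F hF
    rw [dv_add_left, dv_add_left]
    linear_combination h1 + h2
  smul_mem' := by
    intro a v hv F hF
    have h1 := hv F hF
    rw [dv_smul_left, dv_smul_left]
    linear_combination a * h1

theorem mem_bad {x₀ : V} {T : (ι → ℂ) → ℂ} {k : ℕ} {v : ι → ℂ} :
    v ∈ bad e ζ L B x₀ T k ↔ ∀ F, IsTk e ζ L B k ((k : ℚ) • x₀) F →
      TT ζ L x₀ T 0 * dv v F = k * dv v (TT ζ L x₀ T) * F 0 := Iff.rfl

theorem isTk_pow' {k : ℕ} {w : V} {F : (ι → ℂ) → ℂ} (hF : IsTk e ζ L B k w F) (j : ℕ) :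
    IsTk e ζ L B (j * k) ((j : ℚ) • w) (fun z => F z ^ j) := by
  induction j with
  | zero =>
    constructor
    · simp
    · intro i z
      have h1 : ((0 * k : ℕ) • L) = 0 := by rw [zero_mul, zero_nsmul]
      simp only [TT, h1]
      simp [dotp_zero_left]
  | succ j ih =>
    have h1 : (fun z => F z ^ (j + 1)) = fun z => F z ^ j * F z := by
      funext z
      rw [pow_succ]
    have h2 := ih.mul hF
    rw [h1]
    have h3 : j * k + k = (j + 1) * k := by ring
    have h4 : (j : ℚ) • w + w = ((j + 1 : ℕ) : ℚ) • w := by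
      push_cast
      rw [add_smul, one_smul]
    rw [h3, h4] at h2
    exact h2

theorem bad_anti (hS : SympBasis e B) (h : IsPStr e B ζ L) {T : (ι → ℂ) → ℂ}
    (hT : IsTh ζ L B T) {x₀ : V} (hx : TT ζ L x₀ T 0 ≠ 0) {m k : ℕ} (hm : 0 < m) (hk : 0 < k)
    (hmk : m ∣ k) : bad e ζ L B x₀ T k ≤ bad e ζ L B x₀ T m := by
  intro v hv
  rw [mem_bad] at hv ⊢
  obtain ⟨j, rfl⟩ := hmk
  have hj : 0 < j := Nat.pos_of_mul_pos_left hk |> fun h => h
  have key : ∀ F, IsTk e ζ L B m ((m : ℚ) • x₀) F → F 0 ≠ 0 →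
      TT ζ L x₀ T 0 * dv v F = m * dv v (TT ζ L x₀ T) * F 0 := by
    intro F hF hF0
    have h1 := isTk_pow' hF j
    have h2 : j * m = m * j := mul_comm _ _
    have h3 : (j : ℚ) • ((m : ℚ) • x₀) = ((m * j : ℕ) : ℚ) • x₀ := by
      rw [smul_smul]
      push_cast
      rw [mul_comm]
    rw [h2, h3] at h1
    have h4 := hv _ h1
    have h5 := dv_pow v hF.entire j
    have h6 : (j : ℂ) * F 0 ^ j ≠ 0 :=
      mul_ne_zero (Nat.cast_ne_zero.2 hj.ne') (pow_ne_zero _ hF0)
    apply mul_left_cancel₀ h6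
    push_cast at h4
    linear_combination F 0 * h4 - TT ζ L x₀ T 0 * h5
  intro F hF
  by_cases hF0 : F 0 = 0
  · have h1 := isTk_pow hS h hT m x₀
    have h2 := hF.add h1
    have h3 := key _ h1 (pow_ne_zero _ hx)
    have h4 := key _ h2 (by
      simp only [hF0, zero_add]
      exact pow_ne_zero _ hx)
    rw [dv_add v hF.entire h1.entire] at h4
    linear_combination h4 - h3
  · exact key F hF hF0

/-- two translates which do not vanish -/
theorem exists_translate (h : IsPStr e B ζ L) {T : (ι → ℂ) → ℂ} (hT : IsTh ζ L B T)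
    (hT0 : T ≠ 0) (a b : V) : ∃ y : V, TT ζ L (a + y) T 0 ≠ 0 ∧ TT ζ L (b - y) T 0 ≠ 0 := by
  by_contra hcon
  push Not at hcon
  have hTd := hT.entire
  have h1 : (fun z => T (ζ a + z) * T (ζ b - z)) = 0 := by
    refine eq_zero_of_torsion h 1 ?_ ?_
    · exact (hTd.continuous.comp (continuous_const.add continuous_id)).mul
        (hTd.continuous.comp (continuous_const.sub continuous_id))
    · intro y
      simp only [TT, zero_add]
      have h2 := hcon y
      simp only [TT, zero_add, mul_eq_zero, Complex.exp_ne_zero, false_or, ne_eq,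
        map_add, map_sub] at h2
      by_cases h3 : T (ζ a + ζ y) = 0
      · rw [h3]; ring
      · rw [h2 h3]; ring
  obtain ⟨z1, hz1⟩ : ∃ z, T (ζ a + z) ≠ 0 := by
    by_contra h2
    push Not at h2
    apply hT0
    funext z
    have := h2 (z - ζ a)
    rw [add_sub_cancel] at this
    exact this
  obtain ⟨z2, hz2⟩ : ∃ z, T (ζ b - z) ≠ 0 := by
    by_contra h2
    push Not at h2
    apply hT0
    funext z
    have := h2 (ζ b - z)
    rw [sub_sub_cancel] at this
    exact this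
  let f : ℂ → ℂ := fun s => T (ζ a + (z1 + s • (z2 - z1)))
  let k : ℂ → ℂ := fun s => T (ζ b - (z1 + s • (z2 - z1)))
  have hf : Differentiable ℂ f := hTd.comp (by fun_prop)
  have hk : Differentiable ℂ k := hTd.comp (by fun_prop)
  have hfk : ∀ s, f s * k s = 0 := fun s => congrFun h1 (z1 + s • (z2 - z1))
  have hf0 : f 0 ≠ 0 := by
    show T (ζ a + (z1 + (0 : ℂ) • (z2 - z1))) ≠ 0
    rw [zero_smul, add_zero]
    exact hz1
  have hk1 : k 1 ≠ 0 := by
    show T (ζ b - (z1 + (1 : ℂ) • (z2 - z1))) ≠ 0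
    rw [one_smul, add_sub_cancel]
    exact hz2
  have hev : ∀ᶠ s in 𝓝 (0 : ℂ), k s = 0 := by
    filter_upwards [hf.continuous.continuousAt.eventually_ne hf0] with s hs
    exact (mul_eq_zero.1 (hfk s)).resolve_left hs
  have hka : AnalyticOnNhd ℂ k Set.univ := hk.differentiableOn.analyticOnNhd isOpen_univ
  have hk0 : k = 0 := by
    funext s
    exact hka.eqOn_zero_of_preconnected_of_eventuallyEq_zero isPreconnected_univ
      (Set.mem_univ 0) hev (Set.mem_univ s)
  exact hk1 (congrFun hk0 1)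

theorem isTk_one (hS : SympBasis e B) (h : IsPStr e B ζ L) {T : (ι → ℂ) → ℂ}
    (hT : IsTh ζ L B T) (x : V) : IsTk e ζ L B 1 x (TT ζ L x T) := by
  have h1 := isTk_pow hS h hT 1 x
  simpa using h1

theorem den_ex (B : Module.Basis (ι ⊕ ι) ℚ V) (e : V →ₗ[ℚ] V →ₗ[ℚ] ℚ) (x : V) :
    ∃ N : ℕ, 0 < N ∧ ∀ j, ∃ a : ℤ, e (B j) ((N : ℚ) • x) = a := by
  refine ⟨∏ j, (e (B j) x).den, Finset.prod_pos fun j _ => (e (B j) x).den_pos, fun j => ?_⟩
  obtain ⟨w, hw⟩ := Finset.dvd_prod_of_mem (fun j => (e (B j) x).den) (Finset.mem_univ j)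
  refine ⟨(e (B j) x).num * w, ?_⟩
  rw [hw, map_smul, smul_eq_mul]
  push_cast
  have h := Rat.mul_den_eq_num (e (B j) x)
  linear_combination (w : ℚ) * h

end IMK_

open IMK_ in
theorem imk_proof (hSEP : Stmt_SEP1) : Stmt_IMK := by
  intro V _ _ ι _ _ e B ζ L hS h T hT hT0 x₀ hx
  by_contra hcon
  push Not at hcon
  -- all the spaces of bad vectors are nonzero
  have hne : ∀ m : ℕ, 0 < m → bad e ζ L B x₀ T m ≠ ⊥ := by
    intro m hm hbot
    obtain ⟨k, hk, hmk, v, hv, t, ht⟩ := hcon m hm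
    have h1 : v ∈ bad e ζ L B x₀ T k := by
      rw [mem_bad]
      intro F hF
      have h2 := ht F hF
      have h3 := ht _ (isTk_pow hS h hT k x₀)
      have h4 := dv_pow v (TT_differentiable x₀ hT.entire) k (F := TT ζ L x₀ T)
      have h5 : dv v (fun z => TT ζ L x₀ T z ^ k) = t * TT ζ L x₀ T 0 ^ k := h3
      rw [h5] at h4
      have h6 : TT ζ L x₀ T 0 * t = k * dv v (TT ζ L x₀ T) := by
        apply mul_right_cancel₀ (pow_ne_zero k hx)
        linear_combination h4
      have h7 : dv v F = t * F 0 := h2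
      rw [h7]
      linear_combination F 0 * h6
    have h2 := bad_anti hS h hT hx hm hk hmk h1
    rw [hbot, Submodule.mem_bot] at h2
    exact hv h2
  -- a vector which is bad for all levels
  obtain ⟨m0, hm0, hmin⟩ : ∃ m0 : ℕ, 0 < m0 ∧ ∀ m : ℕ, 0 < m →
      Module.finrank ℂ (bad e ζ L B x₀ T m0) ≤ Module.finrank ℂ (bad e ζ L B x₀ T m) := by
    classical
    have hex : ∃ n : ℕ, ∃ m : ℕ, 0 < m ∧ Module.finrank ℂ (bad e ζ L B x₀ T m) = n :=
      ⟨_, 1, one_pos, rfl⟩
    obtain ⟨m0, hm0, hm0'⟩ := Nat.find_spec hex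
    refine ⟨m0, hm0, fun m hm => ?_⟩
    rw [hm0']
    exact Nat.find_min' hex ⟨m, hm, rfl⟩
  obtain ⟨v, hv, hv0⟩ := (Submodule.ne_bot_iff _).1 (hne m0 hm0)
  have hall : ∀ m : ℕ, 0 < m → v ∈ bad e ζ L B x₀ T m := by
    intro m hm
    have hmm : 0 < m0 * m := Nat.mul_pos hm0 hm
    have h1 := bad_anti hS h hT hx hm0 hmm (Dvd.intro _ rfl)
    have h2 := Submodule.eq_of_le_of_finrank_le h1 (hmin _ hmm)
    have h3 : v ∈ bad e ζ L B x₀ T (m0 * m) := by rw [h2]; exact hv
    exact bad_anti hS h hT hx hm hmm (Dvd.intro_left _ rfl) h3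
  obtain ⟨x, hxx⟩ := (hSEP V ι e B ζ L hS h T hT hT0).2 v hv0
    (dv v (TT ζ L x₀ T) / TT ζ L x₀ T 0)
  apply hxx
  change dv v (TT ζ L x T) = _
  rw [div_mul_eq_mul_div, eq_div_iff hx]
  by_cases hx0 : TT ζ L x T 0 = 0
  · -- the value vanishes
    obtain ⟨y, hy1, hy2⟩ := exists_translate h hT hT0 x₀ (x₀ + x₀ - x)
    have t1 := isTk_one hS h hT x
    have t2 := isTk_one hS h hT (x₀ + y)
    have t3 := isTk_one hS h hT (x₀ + x₀ - x - y)
    have t4 := (t1.mul t2).mul t3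
    have t5 : x + (x₀ + y) + (x₀ + x₀ - x - y) = ((3 : ℕ) : ℚ) • x₀ := by
      have : ((3 : ℕ) : ℚ) • x₀ = x₀ + x₀ + x₀ := by
        rw [show ((3 : ℕ) : ℚ) = 1 + 1 + 1 by norm_num, add_smul, add_smul, one_smul]
      rw [this]
      abel
    rw [t5] at t4
    have t6 := hall 3 (by norm_num) _ t4
    rw [dv_mul v (t1.mul t2).entire t3.entire, dv_mul v t1.entire t2.entire] at t6
    simp only [hx0, zero_mul, zero_add, mul_zero] at t6
    have t7 : dv v (TT ζ L x T) = 0 := by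
      have := mul_eq_zero.1 t6
      rcases this with h1 | h1
      · exact absurd h1 hx
      · rcases mul_eq_zero.1 h1 with h2 | h2
        · exact absurd h2 hy2
        · rcases mul_eq_zero.1 h2 with h3 | h3
          · exact absurd h3 hy1
          · exact h3
    rw [t7, hx0]
    ring
  · obtain ⟨N, hN, hNe⟩ := den_ex B e (x - x₀)
    have t1 : IsTk e ζ L B N ((N : ℚ) • x₀) (fun z => TT ζ L x T z ^ N) := by
      have t2 := isTk_pow hS h hT N x
      refine ⟨t2.entire, fun j z => ?_⟩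
      rw [t2.per j z]
      congr 1
      obtain ⟨a, ha⟩ := hNe j
      have t3 : e (B j) ((N : ℚ) • x) = e (B j) ((N : ℚ) • x₀) + a := by
        rw [← ha, smul_sub, map_sub]
        ring
      rw [t3]
      push_cast
      rw [mul_add, Complex.exp_add]
      have t4 : cexp (2 * Real.pi * I * (a : ℂ)) = 1 := by
        rw [mul_comm]
        exact Complex.exp_int_mul_two_pi_mul_I a
      rw [t4, mul_one]
    have t2 := hall N hN _ t1
    have t3 := dv_pow v (TT_differentiable x hT.entire) N (F := TT ζ L x T)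
    have t4 : (N : ℂ) * TT ζ L x T 0 ^ N ≠ 0 :=
      mul_ne_zero (Nat.cast_ne_zero.2 hN.ne') (pow_ne_zero _ hx0)
    apply mul_left_cancel₀ t4
    linear_combination TT ζ L x T 0 * t2 - TT ζ L x₀ T 0 * t3

end

end Pool.Agent.SPF
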