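import Pool.Agent.SPF.OutStmts

set_option linter.unusedSectionVars false
set_option linter.unusedSimpArgs false

/-!
# SPF, module INF: base types
-/

open scoped BigOperators
open Complex

namespace Pool.Agent.SPF

noncomputable section

namespace INF_

variable {E : Type} [Field E] [NumberField E]

theorem alg_emb (φ : E →+* ℂ) (x : E) : Alg (φ x) := by
  have h : IsAlgebraic ℚ x := Algebra.IsAlgebraic.isAlgebraic x
  obtain ⟨p, hp, hx⟩ := h
  refine ⟨p, hp, ?_⟩
  have : Polynomial.aeval (φ x) p = φ (Polynomial.aeval x p) := by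
    rw [Polynomial.aeval_def, Polynomial.aeval_def, Polynomial.hom_eval₂]
    congr 1
    exact Subsingleton.elim _ _
  rw [this, hx, map_zero]

theorem tr_eq (x : E) : ((Algebra.trace ℚ E x : ℚ) : ℂ) = ∑ φ : E →+* ℂ, φ x := by
  have h := trace_eq_sum_embeddings (K := ℚ) (L := E) ℂ (x := x)
  have h1 : (algebraMap ℚ ℂ) (Algebra.trace ℚ E x) = ((Algebra.trace ℚ E x : ℚ) : ℂ) := rfl
  rw [h1] at h
  rw [h]
  exact Fintype.sum_equiv (RingHom.equivRatAlgHom E ℂ).symm _ _ (fun σ => rfl)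

theorem inj {x y : E} (φ : E →+* ℂ) (h : φ x = φ y) : x = y := φ.injective h

theorem bar_theta (K : CMF E) {θ : E} {d : ℝ} (hd : 0 < d) (hθ : ∀ φ : E →+* ℂ, φ θ ^ 2 = -(d : ℂ)) :
    K.bar θ = -θ := by
  obtain ⟨φ⟩ : Nonempty (E →+* ℂ) := inferInstance
  apply inj φ
  rw [K.bar_spec, map_neg]
  have h1 := hθ φ
  have hre : (φ θ).re = 0 ∨ (φ θ).im = 0 := by
    have := congrArg Complex.im h1
    rw [pow_two, Complex.mul_im] at this
    simp only [Complex.neg_im, Complex.ofReal_im, neg_zero] at this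
    have h2 : (φ θ).re * (φ θ).im = 0 := by linarith
    exact mul_eq_zero.1 h2
  have h3 := congrArg Complex.re h1
  rw [pow_two, Complex.mul_re] at h3
  simp only [Complex.neg_re, Complex.ofReal_re] at h3
  have hre0 : (φ θ).re = 0 := by
    rcases hre with h | h
    · exact h
    · rw [h] at h3
      nlinarith [mul_self_nonneg (φ θ).re]
  apply Complex.ext
  · rw [Complex.conj_re, Complex.neg_re, hre0, neg_zero]
  · rw [Complex.conj_im, Complex.neg_im]

/-- values of `θ` -/
theorem val_theta {θ : E} {d : ℕ} (hd : 0 < d) {φ : E →+* ℂ} (hθ : φ θ ^ 2 = -((d : ℝ) : ℂ))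
    (hpos : 0 < (φ θ).im) : φ θ = (Real.sqrt d : ℂ) * I := by
  have h1 : (φ θ) ^ 2 = ((Real.sqrt d : ℂ) * I) ^ 2 := by
    rw [hθ, mul_pow, Complex.I_sq, ← Complex.ofReal_pow, Real.sq_sqrt (Nat.cast_nonneg d)]
    ring
  rcases sq_eq_sq_iff_eq_or_eq_neg.1 h1 with h | h
  · exact h
  · exfalso
    rw [h] at hpos
    simp at hpos
    have := Real.sqrt_nonneg (d : ℝ)
    linarith

end INF_

open INF_ in
open Classical in
theorem inf_proof (hH : Stmt_HRM) : Stmt_INF := by
  intro E _ _ K θ hθ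
  obtain ⟨d, hd, hθd⟩ : ∃ d : ℕ, (d = 1 ∨ d = 3) ∧ θ ^ 2 = -((d : ℕ) : E) := by
    rcases hθ with h | h
    · exact ⟨1, Or.inl rfl, by rw [h]; simp⟩
    · exact ⟨3, Or.inr rfl, by rw [h]; norm_num⟩
  have hd0 : 0 < d := by omega
  have hφ : ∀ φ : E →+* ℂ, φ θ ^ 2 = -((d : ℝ) : ℂ) := by
    intro φ
    rw [← map_pow, hθd, map_neg, map_natCast]
    simp
  have hbar := bar_theta K (d := (d : ℝ)) (by exact_mod_cast hd0) hφ
  obtain ⟨c₀, hc₀, hS⟩ := hH d hd
  set Φ : Finset (E →+* ℂ) := Finset.univ.filter fun φ : E →+* ℂ => 0 < (φ θ).im with hΦ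
  have memΦ : ∀ φ, φ ∈ Φ ↔ 0 < (φ θ).im := by
    intro φ
    rw [hΦ, Finset.mem_filter]
    simp
  -- the imaginary part is not zero
  have him : ∀ φ : E →+* ℂ, (φ θ).im ≠ 0 := by
    intro φ h
    have h1 := hφ φ
    have h3 := congrArg Complex.re h1
    rw [pow_two, Complex.mul_re, h] at h3
    simp only [Complex.neg_re, Complex.ofReal_re] at h3
    have : (0 : ℝ) < d := by exact_mod_cast hd0
    nlinarith [mul_self_nonneg (φ θ).re]
  have hcj : ∀ φ : E →+* ℂ, (cj φ θ).im = -(φ θ).im := by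
    intro φ
    change ((starRingEnd ℂ) (φ θ)).im = _
    rw [Complex.conj_im]
  have hcjcj : ∀ φ : E →+* ℂ, cj (cj φ) = φ := by
    intro φ
    ext x
    change (starRingEnd ℂ) ((starRingEnd ℂ) (φ x)) = φ x
    rw [Complex.conj_conj]
  refine ⟨θ, fun _ => c₀, hbar, fun φ h => (memΦ φ).1 h, ?_⟩
  refine hS E {φ // φ ∈ Φ} (K.e θ) _ (LinearMap.mulLeft ℚ θ) ?_ ?_ ?_ ?_ ?_ ?_ ?_ ?_
  · -- alternating
    intro x
    change Algebra.trace ℚ E (θ * x * K.bar x) = 0
    have h1 : ((Algebra.trace ℚ E (θ * x * K.bar x) : ℚ) : ℂ) = 0 := by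
      rw [tr_eq]
      have h2 : ∑ φ : E →+* ℂ, φ (θ * x * K.bar x) = - ∑ φ : E →+* ℂ, φ (θ * x * K.bar x) := by
        rw [← Finset.sum_neg_distrib]
        refine Fintype.sum_bijective cj ?_ _ _ ?_
        · exact Function.Involutive.bijective hcjcj
        · intro φ
          change _ = -(starRingEnd ℂ) (φ _)
          rw [← K.bar_spec, ← map_neg]
          congr 1
          have h3 : K.bar (K.bar x) = x := by
            obtain ⟨ψ⟩ : Nonempty (E →+* ℂ) := inferInstance
            apply inj ψ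
            rw [K.bar_spec, K.bar_spec, Complex.conj_conj]
          rw [map_mul, map_mul, hbar, h3]
          ring
      have h3 : (2 : ℂ) * ∑ φ : E →+* ℂ, φ (θ * x * K.bar x) = 0 := by linear_combination h2
      exact (mul_eq_zero.1 h3).resolve_left two_ne_zero
    exact_mod_cast h1
  · intro x
    change θ * (θ * x) = -((d : ℚ) • x)
    rw [← mul_assoc, ← pow_two, hθd, Algebra.smul_def, map_natCast]
    ring
  · intro x y
    change Algebra.trace ℚ E (θ * (θ * x) * K.bar y) = -Algebra.trace ℚ E (θ * x * K.bar (θ * y))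
    rw [← map_neg, map_mul K.bar, hbar]
    congr 1
    ring
  · intro x hx
    change 0 < Algebra.trace ℚ E (θ * x * K.bar (θ * x))
    have h1 : ((Algebra.trace ℚ E (θ * x * K.bar (θ * x)) : ℚ) : ℂ) =
        ((∑ φ : E →+* ℂ, (d : ℝ) * Complex.normSq (φ x) : ℝ) : ℂ) := by
      rw [tr_eq]
      push_cast
      refine Finset.sum_congr rfl fun φ _ => ?_
      rw [map_mul K.bar, hbar]
      have h2 : θ * x * (-θ * K.bar x) = -(θ ^ 2) * (x * K.bar x) := by ring
      rw [h2, hθd, neg_neg, map_mul, map_natCast, map_mul, K.bar_spec, Complex.mul_conj]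
    have h3 : 0 < ∑ φ : E →+* ℂ, (d : ℝ) * Complex.normSq (φ x) := by
      refine Finset.sum_pos (fun φ _ => ?_) Finset.univ_nonempty
      refine mul_pos (by exact_mod_cast hd0) (Complex.normSq_pos.2 ?_)
      intro h
      exact hx (inj φ (by rw [h, map_zero]))
    have h4 : ((Algebra.trace ℚ E (θ * x * K.bar (θ * x)) : ℚ) : ℝ) =
        ∑ φ : E →+* ℂ, (d : ℝ) * Complex.normSq (φ x) := by
      apply Complex.ofReal_injective
      rw [← h1]
      simp
    rw [← h4] at h3
    exact_mod_cast h3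
  · intro x
    funext φ
    change (φ : E →+* ℂ) (θ * x) = ((Real.sqrt d : ℂ) * I) • (φ : E →+* ℂ) x
    rw [map_mul, val_theta hd0 (hφ _) ((memΦ _).1 φ.2), smul_eq_mul]
  · intro x φ
    exact alg_emb (φ : E →+* ℂ) x
  · -- dimension
    rw [← NumberField.Embeddings.card E ℂ, Fintype.card_coe]
    have h1 : Φᶜ = Φ.image cj := by
      ext φ
      rw [Finset.mem_compl, Finset.mem_image, memΦ]
      constructor
      · intro h
        refine ⟨cj φ, ?_, hcjcj φ⟩
        rw [memΦ, hcj]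
        have := him φ
        have h2 : (φ θ).im < 0 := lt_of_le_of_ne (not_lt.1 h) this
        linarith
      · rintro ⟨ψ, hψ, rfl⟩
        rw [memΦ] at hψ
        rw [hcj]
        linarith
    have h2 : Φᶜ.card = Φ.card := by
      rw [h1]
      exact Finset.card_image_of_injective _ (Function.Involutive.injective hcjcj)
    have h3 := Finset.card_compl Φ
    have h4 : Φ.card ≤ Fintype.card (E →+* ℂ) := Finset.card_le_univ Φ
    omega
  · -- span
    by_contra hne
    obtain ⟨f, hf0, hf⟩ := Submodule.exists_le_ker_of_lt_top _ (lt_top_iff_ne_top.2 hne)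
    apply hf0
    have hli := linearIndependent_monoidHom E ℂ
    have hli2 : LinearIndependent ℂ
        (fun φ : {φ // φ ∈ Φ} => ((φ : E →+* ℂ) : E → ℂ)) := by
      have h1 := hli.comp (fun φ : {φ // φ ∈ Φ} => ((φ : E →+* ℂ) : E →* ℂ)) ?_
      · exact h1
      · intro φ ψ h
        apply Subtype.ext
        ext x
        exact congrFun (congrArg (fun m : E →* ℂ => (m : E → ℂ)) h) x
    rw [Fintype.linearIndependent_iff] at hli2
    have h0 := hli2 (fun φ => f (Pi.single φ 1)) (by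
      funext x
      rw [Finset.sum_apply]
      have h1 : f (zT (fun φ : {φ // φ ∈ Φ} => (φ : E →+* ℂ)) x) = 0 :=
        hf (Submodule.subset_span ⟨x, rfl⟩)
      have h2 : zT (fun φ : {φ // φ ∈ Φ} => (φ : E →+* ℂ)) x =
          ∑ φ : {φ // φ ∈ Φ}, ((φ : E →+* ℂ) x) • (Pi.single φ (1 : ℂ) : {φ // φ ∈ Φ} → ℂ) := by
        funext ψ
        rw [Finset.sum_apply]
        simp [Pi.single_apply, zT]
      rw [h2, map_sum] at h1
      simp only [Pi.smul_apply, smul_eq_mul, Pi.zero_apply]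
      refine Eq.trans (Finset.sum_congr rfl fun φ _ => ?_) h1
      rw [map_smul, smul_eq_mul, mul_comm])
    refine LinearMap.pi_ext' fun φ => LinearMap.ext_ring ?_
    exact h0 φ

end

end Pool.Agent.SPF
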