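import Pool.Agent.SPF.OutKit

set_option linter.unusedSectionVars false

/-!
# LALG: a complex combination with algebraic values is an algebraic combination

Proof: apply pointwise a linear retraction of the complex numbers onto the field of algebraic numbers.
-/

open scoped BigOperators

namespace Pool.Agent.SPF

noncomputable section

theorem lalg_proof : Stmt_LALG := by
  intro X Y s g hs hg hspan
  have hmem : ∀ z : ℂ, Alg z → z ∈ algebraicClosure ℚ ℂ := fun z hz =>
    mem_algebraicClosure_iff.2 hz
  obtain ⟨π, hπ⟩ := LinearMap.exists_leftInverse_of_injective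
    (Algebra.linearMap (algebraicClosure ℚ ℂ) ℂ)
    (LinearMap.ker_eq_bot.2 (algebraMap (algebraicClosure ℚ ℂ) ℂ).injective)
  have hπ1 : ∀ k : algebraicClosure ℚ ℂ, π (k : ℂ) = k := fun k => by
    have := congrArg (fun f => f k) hπ
    exact this
  have hπ2 : ∀ z : ℂ, ∀ w : ℂ, Alg w → ((π (z * w) : algebraicClosure ℚ ℂ) : ℂ) =
      (π z : ℂ) * w := by
    intro z w hw
    have e : z * w = (⟨w, hmem w hw⟩ : algebraicClosure ℚ ℂ) • z := by
      rw [mul_comm]; rfl
    rw [e, map_smul, smul_eq_mul, mul_comm]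
    rfl
  obtain ⟨c, hc⟩ := Finsupp.mem_span_range_iff_exists_finsupp.1 hspan
  refine ⟨c.mapRange (fun z => ((π z : algebraicClosure ℚ ℂ) : ℂ)) (by simp), ?_, ?_⟩
  · intro y
    rw [Finsupp.mapRange_apply]
    exact mem_algebraicClosure_iff.1 (π (c y)).2
  · intro x
    rw [Finsupp.sum_mapRange_index (by simp)]
    have h1 : g x = c.sum fun y z => z * s y x := by
      rw [← hc]
      simp [Finsupp.sum, Finset.sum_apply]
    have h2 : ((π (g x) : algebraicClosure ℚ ℂ) : ℂ) = g x := by
      have := hπ1 ⟨g x, hmem _ (hg x)⟩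
      exact congrArg Subtype.val this
    rw [← h2]
    nth_rewrite 1 [h1]
    rw [Finsupp.sum, map_sum]
    rw [Finsupp.sum]
    push_cast
    exact Finset.sum_congr rfl fun y _ => hπ2 _ _ (hs y x)

end

end Pool.Agent.SPF
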