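import Pool.Agent.SPF.Osg
import Pool.Agent.SPF.OsgoodL

/-!
# Local Osgood lemma
-/

namespace Pool.Agent.SPF

theorem osg_proof : Stmt_OSG := by
  intro E _ _ _ U f hU hf
  exact analyticOnNhd_of_differentiableOn hU hf

end Pool.Agent.SPF
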