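import Pool.Agent.SPF.OutKit
import Pool.Agent.SPF.OSG1

set_option linter.unusedSectionVars false
set_option linter.unusedSimpArgs false

/-!
# LGD: second logarithmic derivatives at torsion points
-/

open scoped BigOperators
open Complex

namespace Pool.Agent.SPF

noncomputable section

namespace LGD_

variable {V : Type} [AddCommGroup V] [Module ℚ V] {ι : Type} [Fintype ι] [DecidableEq ι]
variable {e : V →ₗ[ℚ] V →ₗ[ℚ] ℚ} {B : Module.Basis (ι ⊕ ι) ℚ V} {ζ L : V →ₗ[ℚ] (ι → ℂ)}

theorem contDiff {F : (ι → ℂ) → ℂ} (hF : Differentiable ℂ F) : ContDiff ℂ 2 F := by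
  have h := osg_proof (ι → ℂ) Set.univ F isOpen_univ hF.differentiableOn
  rw [← contDiffOn_univ]
  exact h.contDiffOn_of_completeSpace

theorem pd_differentiable (j : ι) {F : (ι → ℂ) → ℂ} (hF : Differentiable ℂ F) :
    Differentiable ℂ (pd j F) := by
  unfold pd
  have h1 : Differentiable ℂ (fderiv ℂ F) :=
    ((contDiff hF).fderiv_right (m := 1) (by norm_num)).differentiable (by norm_num)
  exact fun z => (h1 z).clm_apply (differentiableAt_const _)

theorem pd_symm (i j : ι) {F : (ι → ℂ) → ℂ} (hF : Differentiable ℂ F) (z : ι → ℂ) :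
    pd i (pd j F) z = pd j (pd i F) z := by
  have h1 : Differentiable ℂ (fderiv ℂ F) :=
    ((contDiff hF).fderiv_right (m := 1) (by norm_num)).differentiable (by norm_num)
  have key : ∀ a b : ι, pd a (pd b F) z =
      fderiv ℂ (fderiv ℂ F) z (Pi.single a 1) (Pi.single b 1) := by
    intro a b
    unfold pd
    have h2 := ((h1 z).hasFDerivAt.clm_apply
      (hasFDerivAt_const (Pi.single b (1:ℂ) : ι → ℂ) z)).fderiv
    rw [h2]
    simp
  rw [key, key]
  have hs : IsSymmSndFDerivAt ℂ F z :=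
    (contDiff hF).contDiffAt.isSymmSndFDerivAt (by simp)
  exact hs _ _

theorem diff_div {F G : (ι → ℂ) → ℂ} {z : ι → ℂ} (hF : DifferentiableAt ℂ F z)
    (hG : DifferentiableAt ℂ G z) (h0 : G z ≠ 0) : DifferentiableAt ℂ (fun z => F z / G z) z := by
  simp only [div_eq_mul_inv]
  exact hF.mul (hG.inv h0)

theorem pd_div {F G : (ι → ℂ) → ℂ} {z : ι → ℂ} (i : ι) (hF : DifferentiableAt ℂ F z)
    (hG : DifferentiableAt ℂ G z) (h0 : G z ≠ 0) :
    pd i (fun z => F z / G z) z = (pd i F z * G z - F z * pd i G z) / G z ^ 2 := by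
  have h1 : DifferentiableAt ℂ (fun z => F z / G z) z := diff_div hF hG h0
  have h2 : pd i (fun z => (F z / G z) * G z) z = pd i F z := by
    unfold pd
    congr 1
    apply Filter.EventuallyEq.fderiv_eq
    filter_upwards [hG.continuousAt.eventually_ne h0] with w hw
    field_simp
  rw [pd_mul i h1 hG] at h2
  field_simp at h2 ⊢
  linear_combination h2

theorem pd_congr {F G : (ι → ℂ) → ℂ} {z : ι → ℂ} (i : ι) (h : F =ᶠ[nhds z] G) :
    pd i F z = pd i G z := by
  unfold pd
  rw [h.fderiv_eq]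

theorem pd_sub {F G : (ι → ℂ) → ℂ} {z : ι → ℂ} (i : ι) (hF : DifferentiableAt ℂ F z)
    (hG : DifferentiableAt ℂ G z) :
    pd i (fun z => F z - G z) z = pd i F z - pd i G z := by
  unfold pd
  have h1 := (hF.hasFDerivAt.sub hG.hasFDerivAt).fderiv
  have h2 : fderiv ℂ (fun z => F z - G z) z = fderiv ℂ F z - fderiv ℂ G z := h1
  rw [h2]
  simp

theorem pd_cmul {F : (ι → ℂ) → ℂ} {z : ι → ℂ} (i : ι) (a : ℂ) (hF : DifferentiableAt ℂ F z) :
    pd i (fun z => a * F z) z = a * pd i F z := by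
  unfold pd
  have h1 := (hF.hasFDerivAt.const_mul a).fderiv
  have h2 : fderiv ℂ (fun z => a * F z) z = a • fderiv ℂ F z := h1
  rw [h2]
  simp

theorem pd_pow {F : (ι → ℂ) → ℂ} {z : ι → ℂ} (i : ι) (n : ℕ) (hF : DifferentiableAt ℂ F z) :
    pd i (fun z => F z ^ n) z = n * F z ^ (n - 1) * pd i F z := by
  unfold pd
  have h1 := (hF.hasFDerivAt.pow n).fderiv
  have h2 : fderiv ℂ (fun z => F z ^ n) z = (n * F z ^ (n - 1)) • fderiv ℂ F z := by
    rw [h1]
    simp [nsmul_eq_mul]
  rw [h2]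
  simp

theorem alg_exp (q : ℚ) : Alg (cexp (Real.pi * I * (q : ℚ))) := by
  have h1 : cexp (Real.pi * I * (q : ℚ)) ^ (2 * q.den) = 1 := by
    rw [← Complex.exp_nat_mul, Complex.exp_eq_one_iff]
    refine ⟨q.num, ?_⟩
    have h2 : (q : ℂ) * q.den = q.num := by
      exact_mod_cast Rat.mul_den_eq_num q
    push_cast
    linear_combination (2 * Real.pi * I) * h2
  have h3 : 0 < 2 * q.den := by have := q.den_pos; omega
  refine IsAlgebraic.of_pow h3 ?_
  rw [h1]
  exact isAlgebraic_one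

theorem alg_nat (n : ℕ) : Alg (n : ℂ) := by
  have := isAlgebraic_algebraMap (R := ℚ) (A := ℂ) (n : ℚ)
  simpa using this

theorem e_int (hS : SympBasis e B) (j : ι ⊕ ι) (l : V) (hl : l ∈ lat B) :
    ∃ m : ℤ, e (B j) l = m := by
  refine AddSubgroup.closure_induction (p := fun l _ => ∃ m : ℤ, e (B j) l = m) ?_ ?_ ?_ ?_ hl
  · rintro _ ⟨k, rfl⟩
    rcases j with j | j <;> rcases k with k | k
    · exact ⟨0, by rw [hS.ll]; simp⟩
    · refine ⟨if j = k then 1 else 0, ?_⟩
      rw [hS.lr]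
      split_ifs <;> simp
    · refine ⟨-(if k = j then 1 else 0), ?_⟩
      rw [e_swap hS.alt, hS.lr]
      split_ifs <;> simp
    · exact ⟨0, by rw [hS.rr]; simp⟩
  · exact ⟨0, by simp⟩
  · rintro x y _ _ ⟨a, ha⟩ ⟨b, hb⟩
    exact ⟨a + b, by rw [map_add, ha, hb]; push_cast; ring⟩
  · rintro x _ ⟨a, ha⟩
    exact ⟨-a, by rw [map_neg, ha]; push_cast; ring⟩

theorem IsTk_congr (hS : SympBasis e B) {k : ℕ} {w l : V} {F : (ι → ℂ) → ℂ}
    (hF : IsTk e ζ L B k (w + l) F) (hl : l ∈ lat B) : IsTk e ζ L B k w F := by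
  refine ⟨hF.entire, ?_⟩
  intro j z
  rw [hF.per j z]
  obtain ⟨m, hm⟩ := e_int hS j l hl
  congr 1
  rw [map_add, hm]
  rw [Complex.exp_eq_exp_iff_exists_int]
  refine ⟨m, ?_⟩
  push_cast
  ring

/-- every point is a torsion point -/
theorem exists_nsmul_mem (B : Module.Basis (ι ⊕ ι) ℚ V) (x : V) :
    ∃ N : ℕ, 0 < N ∧ (N : ℚ) • x ∈ lat B := by
  have key : ∀ t : Finset (ι ⊕ ι), ∃ N : ℕ, 0 < N ∧ (N : ℚ) • (∑ j ∈ t, B.repr x j • B j) ∈ lat B := by
    intro t
    induction t using Finset.induction_on with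
    | empty => exact ⟨1, one_pos, by simp⟩
    | insert a t ha ih =>
      obtain ⟨N, hN, hNm⟩ := ih
      refine ⟨N * (B.repr x a).den, Nat.mul_pos hN (B.repr x a).den_pos, ?_⟩
      rw [Finset.sum_insert ha, smul_add]
      refine add_mem ?_ ?_
      · rw [smul_smul]
        have h1 : ((N * (B.repr x a).den : ℕ) : ℚ) * B.repr x a = ((N * (B.repr x a).num : ℤ) : ℚ) := by
          have := Rat.mul_den_eq_num (B.repr x a)
          push_cast
          linear_combination (N : ℚ) * this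
        rw [h1, Int.cast_smul_eq_zsmul]
        exact zsmul_mem (AddSubgroup.subset_closure (Set.mem_range_self a)) _
      · have h1 : ((N * (B.repr x a).den : ℕ) : ℚ) • (∑ j ∈ t, B.repr x j • B j) =
            (B.repr x a).den • ((N : ℚ) • (∑ j ∈ t, B.repr x j • B j)) := by
          rw [← Nat.cast_smul_eq_nsmul ℚ, smul_smul]
          congr 1
          push_cast
          ring
        rw [h1]
        exact nsmul_mem hNm _
  obtain ⟨N, hN, h⟩ := key Finset.univ
  rw [B.sum_repr] at h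
  exact ⟨N, hN, h⟩

section main

variable {T : (ι → ℂ) → ℂ} {κ : ℂ} {c : ι → ℂ}

/-- translates of powers of translates -/
theorem TT_pow_TT (h : IsPStr e B ζ L) (N : ℕ) (x y : V) :
    TT ζ (⇑(N • L)) y (fun z => TT ζ L x T z ^ N) =
      fun z => (cexp (Real.pi * I * (e y x : ℚ)) * TT ζ L (y + x) T z) ^ N := by
  funext z
  rw [TT_pow, TT_TT h]

theorem alg_val (h : IsPStr e B ζ L) (hA : AlgT ζ L T κ c) (N : ℕ) (x y : V) :
    Alg (TT ζ (⇑(N • L)) y (fun z => TT ζ L x T z ^ N) 0 / κ ^ N) := by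
  rw [TT_pow_TT h]
  show Alg ((cexp (Real.pi * I * (e y x : ℚ)) * TT ζ L (y + x) T 0) ^ N / κ ^ N)
  rw [← div_pow, mul_div_assoc]
  exact ((alg_exp _).mul (hA.2.2 _).1).pow N

theorem alg_pd (h : IsPStr e B ζ L) (hT : Differentiable ℂ T) (hA : AlgT ζ L T κ c) (N : ℕ)
    (hN : 0 < N) (x y : V) (j : ι) :
    Alg (pd j (TT ζ (⇑(N • L)) y (fun z => TT ζ L x T z ^ N)) 0 / (κ ^ N * c j)) := by
  rw [TT_pow_TT h]
  have hd : DifferentiableAt ℂ (TT ζ L (y + x) T) 0 := (TT_differentiable _ hT) 0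
  rw [pd_pow j N (hd.const_mul _), pd_cmul j _ hd]
  obtain ⟨M, rfl⟩ : ∃ M, N = M + 1 := ⟨N - 1, by omega⟩
  have hκ := hA.1
  have hc := hA.2.1 j
  have h1 : ((M + 1 : ℕ) : ℂ) * (cexp (Real.pi * I * (e y x : ℚ)) * TT ζ L (y + x) T 0) ^ (M + 1 - 1) *
      (cexp (Real.pi * I * (e y x : ℚ)) * pd j (TT ζ L (y + x) T) 0) / (κ ^ (M + 1) * c j) =
      ((M + 1 : ℕ) : ℂ) * (cexp (Real.pi * I * (e y x : ℚ)) * (TT ζ L (y + x) T 0 / κ)) ^ M *
      (cexp (Real.pi * I * (e y x : ℚ)) * (pd j (TT ζ L (y + x) T) 0 / (κ * c j))) := by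
    rw [Nat.add_sub_cancel, mul_pow, mul_pow, div_pow, pow_succ]
    field_simp
  rw [h1]
  exact ((alg_nat _).mul (((alg_exp _).mul (hA.2.2 _).1).pow M)).mul
    ((alg_exp _).mul ((hA.2.2 _).2 j))

theorem isTk_wron {N : ℕ} {w : V} {F G : (ι → ℂ) → ℂ} (hF : IsTk e ζ L B N w F)
    (hG : IsTk e ζ L B N w G) (j : ι) : IsTk e ζ L B (2 * N) (w + w) (wron j F G) := by
  constructor
  · exact (hF.entire.mul (pd_differentiable j hG.entire)).sub
      (hG.entire.mul (pd_differentiable j hF.entire))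
  · intro a z
    rw [TT_wron N (B a) j hF.entire hG.entire]
    have h1 : TT ζ (⇑(N • L)) (B a) F = fun z => cexp (2 * Real.pi * I * (e (B a) w : ℚ)) * F z := by
      funext z
      exact hF.per a z
    have h2 : TT ζ (⇑(N • L)) (B a) G = fun z => cexp (2 * Real.pi * I * (e (B a) w : ℚ)) * G z := by
      funext z
      exact hG.per a z
    rw [h1, h2]
    unfold wron
    rw [pd_cmul j _ (hF.entire z), pd_cmul j _ (hG.entire z), map_add]
    have h3 : cexp (2 * Real.pi * I * ((e (B a) w + e (B a) w : ℚ) : ℂ)) =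
        cexp (2 * Real.pi * I * (e (B a) w : ℚ)) * cexp (2 * Real.pi * I * (e (B a) w : ℚ)) := by
      rw [← Complex.exp_add]
      congr 1
      push_cast
      ring
    rw [h3]
    ring

theorem log_wron {a d : (ι → ℂ) → ℂ} (ha : Differentiable ℂ a) (hd : Differentiable ℂ d) (N : ℕ)
    (hN : 0 < N) (j : ι) (z : ι → ℂ) (ha0 : a z ≠ 0) (hd0 : d z ≠ 0) :
    wron j (fun z => d z ^ N) (fun z => a z ^ N) z / (a z ^ N * d z ^ N) =
      N * (pd j a z / a z - pd j d z / d z) := by
  unfold wron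
  rw [pd_pow j N (ha z), pd_pow j N (hd z)]
  obtain ⟨M, rfl⟩ : ∃ M, N = M + 1 := ⟨N - 1, by omega⟩
  rw [Nat.add_sub_cancel]
  field_simp
  ring

end main

end LGD_

open LGD_ in
theorem lgd_proof (hALGD : Stmt_ALGD) : Stmt_LGD := by
  intro V _ _ ι _ _ e B ζ L hS h T hT hT0 κ c hA
  have hex : ∃ x₀ : V, TT ζ L x₀ T 0 ≠ 0 := by
    by_contra hne
    push Not at hne
    apply hT0
    refine eq_zero_of_torsion h 1 hT.entire.continuous ?_
    intro y
    rw [one_nsmul]
    exact hne y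
  obtain ⟨x₀, hx₀⟩ := hex
  have hκ := hA.1
  have hc := hA.2.1
  refine ⟨fun i j => -(pd i (fun z => pd j (TT ζ L x₀ T) z / TT ζ L x₀ T z) 0 / (c i * c j)), ?_, ?_⟩
  · intro i j
    have hd := TT_differentiable (ζ := ζ) (L := L) x₀ hT.entire
    show -(_ / _) = -(_ / _)
    rw [pd_div i (pd_differentiable j hd 0) (hd 0) hx₀, pd_div j (pd_differentiable i hd 0) (hd 0) hx₀,
      pd_symm i j hd, mul_comm (c i) (c j)]
    ring
  · intro x hx i j
    obtain ⟨N, hN, hNl⟩ := exists_nsmul_mem B (x - x₀)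
    have ha := TT_differentiable (ζ := ζ) (L := L) x hT.entire
    have hd := TT_differentiable (ζ := ζ) (L := L) x₀ hT.entire
    set a := TT ζ L x T with ha_def
    set d := TT ζ L x₀ T with hd_def
    have hD : IsTk e ζ L B N ((N : ℚ) • x₀) (fun z => d z ^ N) := isTk_pow hS h hT N x₀
    have hA' : IsTk e ζ L B N ((N : ℚ) • x₀) (fun z => a z ^ N) := by
      have h1 := isTk_pow hS h hT N x
      have h2 : (N : ℚ) • x = (N : ℚ) • x₀ + (N : ℚ) • (x - x₀) := by
        rw [← smul_add]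
        congr 1
        abel
      rw [h2] at h1
      exact IsTk_congr hS h1 hNl
    have hH := isTk_wron hD hA' j
    -- values of the Wronskian at torsion points
    have hHval : ∀ y, Alg (TT ζ (⇑((2 * N) • L)) y (wron j (fun z => d z ^ N) (fun z => a z ^ N)) 0 /
        (κ ^ (2 * N) * c j)) := by
      intro y
      rw [TT_wron N y j hD.entire hA'.entire]
      unfold wron
      have e1 := alg_val h hA N x₀ y
      have e2 := alg_val h hA N x y
      have e3 := alg_pd h hT.entire hA N hN x₀ y j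
      have e4 := alg_pd h hT.entire hA N hN x y j
      have := (e1.mul e4).sub (e2.mul e3)
      rw [← ha_def, ← hd_def] at this
      have hcj := hc j
      convert this using 1
      rw [two_mul, pow_add]
      field_simp
    -- gradient of the Wronskian
    have hHpd : Alg (pd i (wron j (fun z => d z ^ N) (fun z => a z ^ N)) 0 /
        (κ ^ (2 * N) * (c i * c j))) := by
      have h1 := hALGD V ι e B ζ L hS h T hT hT0 κ c hA (2 * N) _ _ (by omega) (hH.smul (c j)⁻¹) (by
        intro y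
        rw [TT_smul]
        have := hHval y
        have hcj := hc j
        convert this using 1
        field_simp) 0 i
      rw [TTk_zero, pd_cmul i _ (hH.entire 0)] at h1
      have hcj := hc j
      have hci := hc i
      convert h1 using 1
      field_simp
    have hA0 : Alg (a 0 ^ N / κ ^ N) := by
      have := ((hA.2.2 x).1).pow N
      rwa [div_pow] at this
    have hD0 : Alg (d 0 ^ N / κ ^ N) := by
      have := ((hA.2.2 x₀).1).pow N
      rwa [div_pow] at this
    have hApd : Alg (pd i (fun z => a z ^ N) 0 / (κ ^ N * c i)) := by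
      have := alg_pd h hT.entire hA N hN x 0 i
      rwa [TTk_zero] at this
    have hDpd : Alg (pd i (fun z => d z ^ N) 0 / (κ ^ N * c i)) := by
      have := alg_pd h hT.entire hA N hN x₀ 0 i
      rwa [TTk_zero] at this
    have hH0 : Alg (wron j (fun z => d z ^ N) (fun z => a z ^ N) 0 / (κ ^ (2 * N) * c j)) := by
      have := hHval 0
      rwa [TTk_zero] at this
    -- the second logarithmic derivative
    have hP : DifferentiableAt ℂ (fun z => pd j a z / a z) 0 :=
      diff_div (pd_differentiable j ha 0) (ha 0) hx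
    have hP0 : DifferentiableAt ℂ (fun z => pd j d z / d z) 0 :=
      diff_div (pd_differentiable j hd 0) (hd 0) hx₀
    have hAD : DifferentiableAt ℂ (fun z => a z ^ N * d z ^ N) 0 :=
      (hA'.entire 0).mul (hD.entire 0)
    have hAD0 : a 0 ^ N * d 0 ^ N ≠ 0 := mul_ne_zero (pow_ne_zero _ hx) (pow_ne_zero _ hx₀)
    have key : (N : ℂ) * (pd i (fun z => pd j a z / a z) 0 - pd i (fun z => pd j d z / d z) 0) =
        (pd i (wron j (fun z => d z ^ N) (fun z => a z ^ N)) 0 * (a 0 ^ N * d 0 ^ N) -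
          wron j (fun z => d z ^ N) (fun z => a z ^ N) 0 *
            (a 0 ^ N * pd i (fun z => d z ^ N) 0 + d 0 ^ N * pd i (fun z => a z ^ N) 0)) /
          (a 0 ^ N * d 0 ^ N) ^ 2 := by
      have hPP : DifferentiableAt ℂ (fun z => pd j a z / a z - pd j d z / d z) 0 := hP.sub hP0
      rw [← pd_sub i hP hP0, ← pd_cmul i _ hPP, ← pd_mul i (hA'.entire 0) (hD.entire 0),
        ← pd_div i (hH.entire 0) hAD hAD0]
      apply pd_congr
      filter_upwards [(ha 0).continuousAt.eventually_ne hx, (hd 0).continuousAt.eventually_ne hx₀]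
        with z hz hz0
      rw [log_wron ha hd N hN j z hz hz0]
    have hN0 : (N : ℂ) ≠ 0 := by exact_mod_cast hN.ne'
    have hfin : pd i (fun z => pd j a z / a z) 0 / (c i * c j) +
        -(pd i (fun z => pd j d z / d z) 0 / (c i * c j)) =
        (N : ℂ)⁻¹ * (((pd i (wron j (fun z => d z ^ N) (fun z => a z ^ N)) 0 /
        (κ ^ (2 * N) * (c i * c j))) * ((a 0 ^ N / κ ^ N) * (d 0 ^ N / κ ^ N)) -
          (wron j (fun z => d z ^ N) (fun z => a z ^ N) 0 / (κ ^ (2 * N) * c j)) *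
          ((a 0 ^ N / κ ^ N) * (pd i (fun z => d z ^ N) 0 / (κ ^ N * c i)) +
            (d 0 ^ N / κ ^ N) * (pd i (fun z => a z ^ N) 0 / (κ ^ N * c i)))) /
          ((a 0 ^ N / κ ^ N) * (d 0 ^ N / κ ^ N)) ^ 2) := by
      have hcj := hc j
      have hci := hc i
      have h1 : pd i (fun z => pd j a z / a z) 0 - pd i (fun z => pd j d z / d z) 0 =
          (N : ℂ)⁻¹ * ((pd i (wron j (fun z => d z ^ N) (fun z => a z ^ N)) 0 * (a 0 ^ N * d 0 ^ N) -
          wron j (fun z => d z ^ N) (fun z => a z ^ N) 0 *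
            (a 0 ^ N * pd i (fun z => d z ^ N) 0 + d 0 ^ N * pd i (fun z => a z ^ N) 0)) /
          (a 0 ^ N * d 0 ^ N) ^ 2) := by
        rw [← key]
        field_simp
      have h2 : pd i (fun z => pd j a z / a z) 0 / (c i * c j) +
          -(pd i (fun z => pd j d z / d z) 0 / (c i * c j)) =
          (pd i (fun z => pd j a z / a z) 0 - pd i (fun z => pd j d z / d z) 0) / (c i * c j) := by
        ring
      rw [h2, h1, two_mul, pow_add]
      have ha1 : a 0 ^ N ≠ 0 := pow_ne_zero _ hx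
      have hd1 : d 0 ^ N ≠ 0 := pow_ne_zero _ hx₀
      generalize a 0 ^ N = A0 at *
      generalize d 0 ^ N = D0 at *
      have hk1 : κ ^ N ≠ 0 := pow_ne_zero _ hκ
      generalize κ ^ N = K at *
      field_simp
    show Alg (_ / _ + -(_ / _))
    rw [hfin]
    have hNalg : Alg ((N : ℂ)⁻¹) := (alg_nat N).inv
    have hq : Alg ((a 0 ^ N / κ ^ N) * (d 0 ^ N / κ ^ N)) := hA0.mul hD0
    refine hNalg.mul ?_
    rw [div_eq_mul_inv]
    exact ((hHpd.mul hq).sub (hH0.mul ((hA0.mul hDpd).add (hD0.mul hApd)))).mul (hq.pow 2).inv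

end

end Pool.Agent.SPF
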