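import Pool.Agent.SPF.OutKit

set_option linter.unusedSectionVars false
set_option autoImplicit false

/-!
# Module LIN: transport by an isometry and an algebraic change of coordinates
-/

open scoped BigOperators
open Complex

namespace Pool.Agent.SPF

noncomputable section

namespace LIN_

variable {V V' : Type} [AddCommGroup V] [Module ℚ V] [AddCommGroup V'] [Module ℚ V'] {ι : Type}
  [Fintype ι] [DecidableEq ι]

/-- transported `L` -/
def Lt (N : Matrix ι ι ℂ) (φ : V' ≃ₗ[ℚ] V) (L : V →ₗ[ℚ] (ι → ℂ)) : V' →ₗ[ℚ] (ι → ℂ) :=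
  ((Matrix.mulVecLin N.transpose).restrictScalars ℚ) ∘ₗ L ∘ₗ (φ : V' →ₗ[ℚ] V)

theorem Lt_apply (N : Matrix ι ι ℂ) (φ : V' ≃ₗ[ℚ] V) (L : V →ₗ[ℚ] (ι → ℂ)) (x : V') :
    Lt N φ L x = N.transpose.mulVec (L (φ x)) := rfl

theorem dotp_mulVec (N : Matrix ι ι ℂ) (a z : ι → ℂ) :
    dotp (N.transpose.mulVec a) z = dotp a (N.mulVec z) := by
  have h1 : dotp (N.transpose.mulVec a) z = (N.transpose.mulVec a) ⬝ᵥ z := rfl
  have h2 : dotp a (N.mulVec z) = a ⬝ᵥ (N.mulVec z) := rfl
  rw [h1, h2, Matrix.mulVec_transpose, Matrix.dotProduct_mulVec]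

theorem TT_lin (φ : V' ≃ₗ[ℚ] V) (ζ L : V →ₗ[ℚ] (ι → ℂ)) (ζ' : V' →ₗ[ℚ] (ι → ℂ))
    (M N : Matrix ι ι ℂ) (hNM : N * M = 1) (hζ : ∀ x, ζ' x = M.mulVec (ζ (φ x)))
    (F : (ι → ℂ) → ℂ) (x : V') (z : ι → ℂ) :
    TT ζ' (Lt N φ L) x (fun z => F (N.mulVec z)) z = TT ζ L (φ x) F (N.mulVec z) := by
  have h1 : N.mulVec (ζ' x) = ζ (φ x) := by
    rw [hζ, Matrix.mulVec_mulVec, hNM, Matrix.one_mulVec]
  simp only [TT, Lt_apply, dotp_mulVec]
  rw [Matrix.mulVec_add, h1]

theorem pd_comp (N : Matrix ι ι ℂ) (G : (ι → ℂ) → ℂ) (hG : Differentiable ℂ G) (j : ι) :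
    pd j (fun z => G (N.mulVec z)) 0 = ∑ i, N i j * pd i G 0 := by
  have h0 : N.mulVec (0 : ι → ℂ) = 0 := Matrix.mulVec_zero N
  have hl : HasFDerivAt (fun z : ι → ℂ => N.mulVec z)
      (LinearMap.toContinuousLinearMap (Matrix.mulVecLin N)) 0 := by
    have := (LinearMap.toContinuousLinearMap (Matrix.mulVecLin N)).hasFDerivAt (x := (0 : ι → ℂ))
    exact this
  have hg : HasFDerivAt G (fderiv ℂ G 0) (N.mulVec (0 : ι → ℂ)) := by
    rw [h0]
    exact (hG 0).hasFDerivAt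
  have hc := hg.comp (0 : ι → ℂ) hl
  unfold pd
  have h1 : fderiv ℂ (fun z => G (N.mulVec z)) 0 = _ := hc.fderiv
  rw [h1, ContinuousLinearMap.comp_apply]
  have h2 : (LinearMap.toContinuousLinearMap (Matrix.mulVecLin N)) (Pi.single j 1) =
      ∑ i, N i j • (Pi.single i (1 : ℂ) : ι → ℂ) := by
    show N.mulVec (Pi.single j 1) = _
    funext k
    rw [Matrix.mulVec_single_one, Finset.sum_apply]
    simp [Matrix.col, Pi.single_apply]
  rw [h2, map_sum]
  refine Finset.sum_congr rfl fun i _ => ?_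
  rw [map_smul, smul_eq_mul]

end LIN_

open LIN_ in
theorem lin_proof : Stmt_LIN := by
  intro V V' _ _ _ _ ι _ _ e e' φ ζ ζ' M N c c' hiso hMN hζ hc' halg hS
  obtain ⟨hc, B, L, F, hB, hP, hT, hF0, κ, hκ, hdat⟩ := hS
  have hNM : N * M = 1 := mul_eq_one_comm.1 hMN
  have hNζ : ∀ x, N.mulVec (ζ' x) = ζ (φ x) := by
    intro x
    rw [hζ, Matrix.mulVec_mulVec, hNM, Matrix.one_mulVec]
  have hB' : ∀ j, φ ((B.map φ.symm) j) = B j := by
    intro j
    rw [Module.Basis.map_apply, LinearEquiv.apply_symm_apply]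
  refine ⟨hc', B.map φ.symm, Lt N φ L, fun z => F (N.mulVec z), ?_, ?_, ?_, ?_, ?_⟩
  · refine ⟨?_, ?_, ?_, ?_⟩
    · intro x
      rw [← hiso]
      exact hB.alt _
    · intro i j
      rw [← hiso, hB', hB']
      exact hB.ll i j
    · intro i j
      rw [← hiso, hB', hB']
      exact hB.rr i j
    · intro i j
      rw [← hiso, hB', hB']
      exact hB.lr i j
  · refine ⟨?_, ?_⟩
    · intro x y
      rw [Lt_apply, Lt_apply, dotp_mulVec, dotp_mulVec, hNζ, hNζ, ← hiso]
      exact hP.rel _ _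
    · intro r hr
      have h := hP.pos r hr
      have h2 : (∑ j, ∑ k, (r j : ℂ) * (r k : ℂ) *
          dotp (Lt N φ L ((B.map φ.symm) j)) (ζ' ((B.map φ.symm) k))) =
          ∑ j, ∑ k, (r j : ℂ) * (r k : ℂ) * dotp (L (B j)) (ζ (B k)) := by
        refine Finset.sum_congr rfl fun j _ => Finset.sum_congr rfl fun k _ => ?_
        rw [Lt_apply, dotp_mulVec, hNζ, hB', hB']
      rw [h2]
      exact h
  · refine ⟨?_, ?_⟩
    · have h1 : Differentiable ℂ (fun z : ι → ℂ => N.mulVec z) :=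
        (LinearMap.toContinuousLinearMap (Matrix.mulVecLin N)).differentiable
      exact hT.entire.comp h1
    · intro j
      funext z
      rw [TT_lin φ ζ L ζ' M N hNM hζ, hB']
      exact congrFun (hT.per j) _
  · intro h
    apply hF0
    funext z
    have h1 := congrFun h (M.mulVec z)
    simp only [Matrix.mulVec_mulVec, hNM, Matrix.one_mulVec] at h1
    exact h1
  · refine ⟨κ, hκ, ?_⟩
    intro x
    have hfun : TT ζ' (Lt N φ L) x (fun z => F (N.mulVec z)) =
        fun z => TT ζ L (φ x) F (N.mulVec z) := by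
      funext z
      exact TT_lin φ ζ L ζ' M N hNM hζ F x z
    refine ⟨?_, ?_⟩
    · rw [hfun]
      show Alg (TT ζ L (φ x) F (N.mulVec 0) / κ)
      rw [Matrix.mulVec_zero]
      exact (hdat (φ x)).1
    · intro j
      rw [hfun, pd_comp N _ (TT_differentiable (φ x) hT.entire) j]
      have h1 : (∑ i, N i j * pd i (TT ζ L (φ x) F) 0) / (κ * c' j) =
          ∑ i, (N i j * c i / c' j) * (pd i (TT ζ L (φ x) F) 0 / (κ * c i)) := by
        rw [Finset.sum_div]
        refine Finset.sum_congr rfl fun i _ => ?_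
        have h1 := hc i
        have h2 := hc' j
        field_simp
      rw [h1]
      have h2 : ∀ s : Finset ι, Alg (∑ i ∈ s, (N i j * c i / c' j) *
          (pd i (TT ζ L (φ x) F) 0 / (κ * c i))) := by
        intro s
        refine Finset.sum_induction _ (fun y => Alg y) (fun a b ha hb => IsAlgebraic.add ha hb)
          isAlgebraic_zero ?_
        intro i _
        exact IsAlgebraic.mul (halg i j) ((hdat (φ x)).2 i)
      exact h2 _

end

end Pool.Agent.SPF
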