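import Pool.Agent.SPF.OutKit

set_option linter.unusedSectionVars false
set_option linter.unusedSimpArgs false

/-!
# NRM: products of theta functions of even large level span the functions of level `2 k`
-/

open scoped BigOperators
open Complex

namespace Pool.Agent.SPF

namespace NRM_

noncomputable section

variable {V : Type} [AddCommGroup V] [Module ℚ V] {ι : Type} [Fintype ι] [DecidableEq ι]
variable {e : V →ₗ[ℚ] V →ₗ[ℚ] ℚ} {B : Module.Basis (ι ⊕ ι) ℚ V} {ζ L : V →ₗ[ℚ] (ι → ℂ)}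

theorem e_int (hS : SympBasis e B) (j : ι ⊕ ι) (l : V) (hl : l ∈ lat B) :
    ∃ n : ℤ, e (B j) l = n := by
  unfold lat at hl
  induction hl using AddSubgroup.closure_induction with
  | mem x hx =>
    obtain ⟨i, rfl⟩ := hx
    rcases j with j | j <;> rcases i with i | i
    · exact ⟨0, by rw [hS.ll]; simp⟩
    · refine ⟨if j = i then 1 else 0, ?_⟩
      rw [hS.lr]; split_ifs <;> simp
    · refine ⟨-(if i = j then 1 else 0), ?_⟩
      rw [e_swap hS.alt, hS.lr]; split_ifs <;> simp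
    · exact ⟨0, by rw [hS.rr]; simp⟩
  | zero => exact ⟨0, by simp⟩
  | add x y _ _ hx hy =>
    obtain ⟨a, ha⟩ := hx
    obtain ⟨b, hb⟩ := hy
    exact ⟨a + b, by rw [map_add, ha, hb]; push_cast; rfl⟩
  | neg x _ hx =>
    obtain ⟨a, ha⟩ := hx
    exact ⟨-a, by rw [map_neg, ha]; push_cast; rfl⟩

theorem exp_int (n : ℤ) : cexp (2 * Real.pi * I * (n : ℂ)) = 1 := by
  rw [Complex.exp_eq_one_iff]
  exact ⟨n, by ring⟩

theorem isTk_lat (hS : SympBasis e B) {k : ℕ} {w l : V} {F : (ι → ℂ) → ℂ} (hl : l ∈ lat B)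
    (h : IsTk e ζ L B k (w + l) F) : IsTk e ζ L B k w F := by
  constructor
  · exact h.entire
  · intro j z
    rw [h.per, map_add]
    obtain ⟨n, hn⟩ := e_int hS j l hl
    rw [hn]
    have h2 : cexp (2 * Real.pi * I * ((e (B j) w + (n : ℚ) : ℚ) : ℂ)) =
        cexp (2 * Real.pi * I * (e (B j) w : ℚ)) * cexp (2 * Real.pi * I * (n : ℂ)) := by
      rw [← Complex.exp_add]
      congr 1
      push_cast
      ring
    rw [h2, exp_int, mul_one]

/-- translation as a linear map -/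
def TL (ζ M : V →ₗ[ℚ] (ι → ℂ)) (y : V) : ((ι → ℂ) → ℂ) →ₗ[ℂ] ((ι → ℂ) → ℂ) where
  toFun := TT ζ M y
  map_add' := by
    intro F G
    funext z
    exact TT_add y F G z
  map_smul' := by
    intro a F
    funext z
    exact TT_smul y a F z

/-- products of functions of level `k` -/
def PR (e : V →ₗ[ℚ] V →ₗ[ℚ] ℚ) (ζ L : V →ₗ[ℚ] (ι → ℂ)) (B : Module.Basis (ι ⊕ ι) ℚ V) (k : ℕ)
    (w : V) : Set ((ι → ℂ) → ℂ) :=
  {H | ∃ G G' : (ι → ℂ) → ℂ, IsTk e ζ L B k w G ∧ IsTk e ζ L B k w G' ∧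
      H = fun z => G z * G' z}

theorem W_stable (hS : SympBasis e B) (h : IsPStr e B ζ L) {k : ℕ} {w y : V}
    (hy : (k : ℚ) • y ∈ lat B) {H : (ι → ℂ) → ℂ} (hH : H ∈ Submodule.span ℂ (PR e ζ L B k w)) :
    TT ζ (⇑((2 * k) • L)) y H ∈ Submodule.span ℂ (PR e ζ L B k w) := by
  have h1 : Submodule.span ℂ (PR e ζ L B k w) ≤
      (Submodule.span ℂ (PR e ζ L B k w)).comap (TL ζ ((2 * k) • L) y) := by
    rw [Submodule.span_le]
    rintro _ ⟨G, G', hG, hG', rfl⟩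
    refine Submodule.subset_span ⟨TT ζ (⇑(k • L)) y G, TT ζ (⇑(k • L)) y G', ?_, ?_, ?_⟩
    · exact isTk_lat hS hy (hG.translate hS h y)
    · exact isTk_lat hS hy (hG'.translate hS h y)
    · funext z
      show TT ζ (⇑((2 * k) • L)) y (fun z => G z * G' z) z = _
      rw [two_mul]
      exact TT_mul k k y G G' z
  exact h1 hH

/-- `k` times half a basis vector -/
theorem half_lat {k m : ℕ} (hkm : k = m + m) (j : ι ⊕ ι) :
    (k : ℚ) • ((1 / 2 : ℚ) • B j) ∈ lat B := by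
  have h1 : (k : ℚ) • ((1 / 2 : ℚ) • B j) = m • B j := by
    rw [smul_smul, hkm, ← Nat.cast_smul_eq_nsmul ℚ]
    congr 1
    push_cast
    ring
  rw [h1]
  exact AddSubgroup.nsmul_mem _ (AddSubgroup.subset_closure (Set.mem_range_self j)) m

theorem half_lat2 {k : ℕ} (j : ι ⊕ ι) :
    ((2 * k : ℕ) : ℚ) • ((1 / 2 : ℚ) • B j) ∈ lat B := by
  have h1 : ((2 * k : ℕ) : ℚ) • ((1 / 2 : ℚ) • B j) = k • B j := by
    rw [smul_smul, ← Nat.cast_smul_eq_nsmul ℚ]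
    congr 1
    push_cast
    ring
  rw [h1]
  exact AddSubgroup.nsmul_mem _ (AddSubgroup.subset_closure (Set.mem_range_self j)) k

/-- `S_j` preserves the functions of level `2 k` -/
theorem S_isTk (hS : SympBasis e B) (h : IsPStr e B ζ L) {k : ℕ} {w : V} {F : (ι → ℂ) → ℂ}
    (hF : IsTk e ζ L B (2 * k) w F) (j : ι ⊕ ι) :
    IsTk e ζ L B (2 * k) w (TT ζ (⇑((2 * k) • L)) ((1 / 2 : ℚ) • B j) F) :=
  isTk_lat hS (half_lat2 j) (hF.translate hS h _)

/-- `S_i` and `S_j` commute -/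
theorem S_comm (hS : SympBasis e B) (h : IsPStr e B ζ L) {k m : ℕ} (hkm : k = m + m)
    (F : (ι → ℂ) → ℂ) (i j : ι ⊕ ι) (z : ι → ℂ) :
    TT ζ (⇑((2 * k) • L)) ((1 / 2 : ℚ) • B i)
      (TT ζ (⇑((2 * k) • L)) ((1 / 2 : ℚ) • B j) F) z =
    TT ζ (⇑((2 * k) • L)) ((1 / 2 : ℚ) • B j)
      (TT ζ (⇑((2 * k) • L)) ((1 / 2 : ℚ) • B i) F) z := by
  rw [TTk_comm h (2 * k) hS.alt]
  obtain ⟨n, hn⟩ := e_int hS i (B j) (AddSubgroup.subset_closure ⟨j, rfl⟩)
  have h2 : (2 * Real.pi * I * (((2 * k : ℕ) : ℂ) *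
      (e ((1 / 2 : ℚ) • B i) ((1 / 2 : ℚ) • B j) : ℚ)) : ℂ) =
      2 * Real.pi * I * (((m * n : ℤ)) : ℂ) := by
    rw [map_smul, map_smul, LinearMap.smul_apply, hn, hkm, smul_eq_mul, smul_eq_mul]
    push_cast
    ring
  rw [h2, exp_int, one_mul]

/-- the square of `S_j` -/
theorem S_sq (hS : SympBasis e B) (h : IsPStr e B ζ L) {k : ℕ} {w : V}
    {F : (ι → ℂ) → ℂ} (hF : IsTk e ζ L B (2 * k) (w + w) F) (j : ι ⊕ ι) (z : ι → ℂ) :
    TT ζ (⇑((2 * k) • L)) ((1 / 2 : ℚ) • B j)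
      (TT ζ (⇑((2 * k) • L)) ((1 / 2 : ℚ) • B j) F) z =
    cexp (2 * Real.pi * I * (e (B j) w : ℚ)) ^ 2 * F z := by
  rw [TTk_TTk h (2 * k), hS.alt]
  have h1 : (1 / 2 : ℚ) • B j + (1 / 2 : ℚ) • B j = B j := by
    rw [← add_smul]
    norm_num
  rw [h1, hF.per, map_add]
  have h2 : cexp (2 * Real.pi * I * ((e (B j) w + e (B j) w : ℚ) : ℂ)) =
      cexp (2 * Real.pi * I * (e (B j) w : ℚ)) ^ 2 := by
    rw [← Complex.exp_nat_mul]
    congr 1
    push_cast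
    ring
  rw [h2]
  simp

theorem norm_exp_rat (r : ℚ) : ‖cexp (2 * Real.pi * I * (r : ℂ))‖ = 1 := by
  have h1 : (2 * Real.pi * I * (r : ℂ) : ℂ) = ((2 * Real.pi * (r : ℝ) : ℝ) : ℂ) * I := by
    push_cast
    ring
  rw [h1, Complex.norm_exp_ofReal_mul_I]

theorem norm_exp_rat' (k : ℕ) (r : ℚ) : ‖cexp (Real.pi * I * ((k : ℂ) * (r : ℂ)))‖ = 1 := by
  have h1 : (Real.pi * I * ((k : ℂ) * (r : ℂ)) : ℂ) = ((Real.pi * (k * (r : ℝ)) : ℝ) : ℂ) * I := by
    push_cast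
    ring
  rw [h1, Complex.norm_exp_ofReal_mul_I]

/-- the projections of `G ^ 2` -/
theorem exists_H (hS : SympBasis e B) (h : IsPStr e B ζ L) {k m : ℕ} (hkm : k = m + m) {w : V}
    {G : (ι → ℂ) → ℂ} (hG : IsTk e ζ L B k w G) (χ : ι ⊕ ι → ℂ)
    (hχ : ∀ j, χ j = 1 ∨ χ j = -1) (s : Finset (ι ⊕ ι)) :
    ∃ (H : (ι → ℂ) → ℂ) (c : Finset (ι ⊕ ι) → ℂ), H ∈ Submodule.span ℂ (PR e ζ L B k w) ∧
      IsTk e ζ L B (2 * k) (w + w) H ∧
      (∀ j ∈ s, ∀ z, TT ζ (⇑((2 * k) • L)) ((1 / 2 : ℚ) • B j) H z =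
        χ j * cexp (2 * Real.pi * I * (e (B j) w : ℚ)) * H z) ∧
      (∀ T, ‖c T‖ = 1) ∧ c ∅ = 1 ∧
      ∀ z, H z = ∑ T ∈ s.powerset, c T *
        TT ζ (⇑((2 * k) • L)) ((1 / 2 : ℚ) • ∑ j ∈ T, B j) (fun z => G z * G z) z := by
  classical
  induction s using Finset.induction_on with
  | empty =>
    refine ⟨fun z => G z * G z, fun _ => 1, Submodule.subset_span ⟨G, G, hG, hG, rfl⟩, ?_, ?_,
      ?_, rfl, ?_⟩
    · rw [two_mul]
      exact hG.mul hG
    · intro j hj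
      simp at hj
    · intro T
      simp
    · intro z
      rw [Finset.powerset_empty, Finset.sum_singleton, Finset.sum_empty, smul_zero, TTk_zero,
        one_mul]
  | insert a s ha ih =>
    obtain ⟨H, c, hHW, hHk, hHe, hc, hc0, hsum⟩ := ih
    set lam : ℂ := cexp (2 * Real.pi * I * (e (B a) w : ℚ)) with hlam
    have hlam0 : lam ≠ 0 := Complex.exp_ne_zero _
    have hlam1 : ‖lam‖ = 1 := norm_exp_rat _
    set μ : ℂ := χ a * lam with hμ
    have hχ0 : χ a ≠ 0 := by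
      rcases hχ a with h1 | h1 <;> rw [h1] <;> norm_num
    have hχ1 : ‖χ a‖ = 1 := by
      rcases hχ a with h1 | h1 <;> rw [h1] <;> simp
    have hχ2 : χ a ^ 2 = 1 := by
      rcases hχ a with h1 | h1 <;> rw [h1] <;> norm_num
    have hμ0 : μ ≠ 0 := mul_ne_zero hχ0 hlam0
    have hμ1 : ‖μ‖ = 1 := by rw [hμ, norm_mul, hχ1, hlam1, one_mul]
    have hμ2 : lam ^ 2 = μ * μ := by
      rw [hμ]
      linear_combination (-(lam ^ 2)) * hχ2
    refine ⟨fun z => H z + μ⁻¹ * TT ζ (⇑((2 * k) • L)) ((1 / 2 : ℚ) • B a) H z,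
      fun T => if a ∈ T then μ⁻¹ * cexp (Real.pi * I * (((2 * k : ℕ) : ℂ) *
        (e ((1 / 2 : ℚ) • B a) ((1 / 2 : ℚ) • ∑ j ∈ T.erase a, B j) : ℚ))) * c (T.erase a)
        else c T, ?_, ?_, ?_, ?_, ?_, ?_⟩
    · have h1 := W_stable hS h (half_lat hkm a) hHW
      exact Submodule.add_mem _ hHW (Submodule.smul_mem _ μ⁻¹ h1)
    · exact hHk.add ((S_isTk hS h hHk a).smul μ⁻¹)
    · intro j hj z
      rw [TT_add, TT_smul]
      rcases Finset.mem_insert.1 hj with rfl | hj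
      · rw [S_sq hS h hHk, ← hlam, hμ2, ← hμ]
        have h2 : μ⁻¹ * (μ * μ * H z) = μ * H z := by
          field_simp
        rw [h2]
        have h3 : μ * (H z + μ⁻¹ * TT ζ (⇑((2 * k) • L)) ((1 / 2 : ℚ) • B j) H z) =
            μ * H z + TT ζ (⇑((2 * k) • L)) ((1 / 2 : ℚ) • B j) H z := by
          field_simp
        rw [h3, add_comm]
      · rw [S_comm hS h hkm]
        have h4 : TT ζ (⇑((2 * k) • L)) ((1 / 2 : ℚ) • B j) H =
            fun z => (χ j * cexp (2 * Real.pi * I * (e (B j) w : ℚ))) * H z := by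
          funext z
          exact hHe j hj z
        rw [h4, TT_smul]
        ring
    · intro T
      dsimp only
      split_ifs with hT
      · rw [norm_mul, norm_mul, norm_inv, hμ1, norm_exp_rat', hc]
        norm_num
      · exact hc T
    · simp [hc0]
    · intro z
      dsimp only
      rw [Finset.sum_powerset_insert ha]
      have h5 : ∑ T ∈ s.powerset, (if a ∈ T then μ⁻¹ * cexp (Real.pi * I * (((2 * k : ℕ) : ℂ) *
          (e ((1 / 2 : ℚ) • B a) ((1 / 2 : ℚ) • ∑ j ∈ T.erase a, B j) : ℚ))) * c (T.erase a)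
          else c T) *
          TT ζ (⇑((2 * k) • L)) ((1 / 2 : ℚ) • ∑ j ∈ T, B j) (fun z => G z * G z) z = H z := by
        rw [hsum]
        refine Finset.sum_congr rfl fun T hT => ?_
        have haT : a ∉ T := fun h' => ha (Finset.mem_powerset.1 hT h')
        rw [if_neg haT]
      rw [h5]
      congr 1
      have h6 : H = fun z => ∑ T ∈ s.powerset, (fun z => c T *
          TT ζ (⇑((2 * k) • L)) ((1 / 2 : ℚ) • ∑ j ∈ T, B j) (fun z => G z * G z) z) z := by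
        funext z
        exact hsum z
      rw [h6, TT_sum, Finset.mul_sum]
      refine Finset.sum_congr rfl fun T hT => ?_
      have haT : a ∉ T := fun h' => ha (Finset.mem_powerset.1 hT h')
      rw [TT_smul, TTk_TTk h (2 * k), if_pos (Finset.mem_insert_self a T),
        Finset.erase_insert haT, Finset.sum_insert haT, smul_add]
      ring

/-- the projections of `G ^ 2` do not vanish -/
theorem exists_H0 (hS : SympBasis e B) (h : IsPStr e B ζ L) {k m : ℕ} (hkm : k = m + m) {w : V}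
    {G : (ι → ℂ) → ℂ} (hG : IsTk e ζ L B k w G) (χ : ι ⊕ ι → ℂ)
    (hχ : ∀ j, χ j = 1 ∨ χ j = -1) (hG0 : G 0 ≠ 0)
    (hsm : ∀ S : Finset (ι ⊕ ι), S.Nonempty →
        ‖TT ζ (⇑(k • L)) ((1 / 2 : ℚ) • ∑ j ∈ S, B j) G 0‖ ≤
          (1 / 2 : ℝ) ^ (Fintype.card (ι ⊕ ι)) * ‖G 0‖) :
    ∃ H : (ι → ℂ) → ℂ, H ∈ Submodule.span ℂ (PR e ζ L B k w) ∧ H ≠ 0 ∧
      IsTk e ζ L B (2 * k) (w + w) H ∧
      (∀ j, ∀ z, TT ζ (⇑((2 * k) • L)) ((1 / 2 : ℚ) • B j) H z =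
        χ j * cexp (2 * Real.pi * I * (e (B j) w : ℚ)) * H z) := by
  classical
  obtain ⟨H, c, hHW, hHk, hHe, hc, hc0, hsum⟩ := exists_H hS h hkm hG χ hχ Finset.univ
  refine ⟨H, hHW, ?_, hHk, fun j => hHe j (Finset.mem_univ j)⟩
  intro hH0
  have h1 := hsum 0
  rw [hH0] at h1
  have h2 : ∀ T : Finset (ι ⊕ ι), TT ζ (⇑((2 * k) • L)) ((1 / 2 : ℚ) • ∑ j ∈ T, B j)
      (fun z => G z * G z) 0 = TT ζ (⇑(k • L)) ((1 / 2 : ℚ) • ∑ j ∈ T, B j) G 0 ^ 2 := by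
    intro T
    rw [two_mul, TT_mul k k, sq]
  have h3 : (∅ : Finset (ι ⊕ ι)) ∈ (Finset.univ : Finset (ι ⊕ ι)).powerset := by simp
  rw [← Finset.add_sum_erase _ _ h3] at h1
  rw [h2, hc0, Finset.sum_empty, smul_zero, TTk_zero, one_mul] at h1
  set N : ℕ := Fintype.card (ι ⊕ ι) with hN
  set q : ℝ := (1 / 2 : ℝ) ^ N with hq
  have hq0 : 0 < q := by positivity
  have hq1 : q * 2 ^ N = 1 := by
    rw [hq, ← mul_pow]
    norm_num
  have hG1 : 0 < ‖G 0‖ := norm_pos_iff.2 hG0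
  have h4 : ‖∑ T ∈ ((Finset.univ : Finset (ι ⊕ ι)).powerset).erase ∅, c T *
      TT ζ (⇑((2 * k) • L)) ((1 / 2 : ℚ) • ∑ j ∈ T, B j) (fun z => G z * G z) 0‖ ≤
      ∑ T ∈ ((Finset.univ : Finset (ι ⊕ ι)).powerset).erase ∅, (q * ‖G 0‖) ^ 2 := by
    refine (norm_sum_le _ _).trans (Finset.sum_le_sum fun T hT => ?_)
    have hT0 : T ≠ ∅ := Finset.ne_of_mem_erase hT
    rw [norm_mul, hc, one_mul, h2, norm_pow]
    have h5 := hsm T (Finset.nonempty_iff_ne_empty.2 hT0)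
    exact pow_le_pow_left₀ (norm_nonneg _) h5 2
  rw [Finset.sum_const, nsmul_eq_mul, Finset.card_erase_of_mem h3, Finset.card_powerset,
    Finset.card_univ, ← hN] at h4
  have h6 : ‖G 0‖ ^ 2 = ‖∑ T ∈ ((Finset.univ : Finset (ι ⊕ ι)).powerset).erase ∅, c T *
      TT ζ (⇑((2 * k) • L)) ((1 / 2 : ℚ) • ∑ j ∈ T, B j) (fun z => G z * G z) 0‖ := by
    rw [← norm_pow, ← norm_neg]
    congr 1
    have h1' : (0 : ℂ) = _ := h1
    linear_combination h1'
  rw [← h6] at h4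
  have h7 : ((2 ^ N - 1 : ℕ) : ℝ) < 2 ^ N := by
    have : 2 ^ N - 1 < 2 ^ N := Nat.sub_lt (by positivity) one_pos
    exact_mod_cast this
  have h8 : ((2 ^ N - 1 : ℕ) : ℝ) * (q * ‖G 0‖) ^ 2 < 2 ^ N * (q * ‖G 0‖) ^ 2 :=
    mul_lt_mul_of_pos_right h7 (by positivity)
  have h9 : (2 : ℝ) ^ N * (q * ‖G 0‖) ^ 2 = q * ‖G 0‖ ^ 2 := by
    calc (2 : ℝ) ^ N * (q * ‖G 0‖) ^ 2 = (q * 2 ^ N) * (q * ‖G 0‖ ^ 2) := by ring
      _ = q * ‖G 0‖ ^ 2 := by rw [hq1, one_mul]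
  have h10 : q ≤ 1 := pow_le_one₀ (by norm_num) (by norm_num)
  have h11 : q * ‖G 0‖ ^ 2 ≤ 1 * ‖G 0‖ ^ 2 := mul_le_mul_of_nonneg_right h10 (by positivity)
  linarith

/-- the basis `B / 2` -/
def hB (B : Module.Basis (ι ⊕ ι) ℚ V) : Module.Basis (ι ⊕ ι) ℚ V :=
  B.unitsSMul fun _ => Units.mk0 (1 / 2 : ℚ) (by norm_num)

theorem hB_apply (j : ι ⊕ ι) : hB B j = (1 / 2 : ℚ) • B j := by
  unfold hB
  rw [Module.Basis.unitsSMul_apply]
  rfl

theorem four_e (x y : V) : ((4 : ℕ) • e) x y = 4 * e x y := by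
  simp [nsmul_eq_mul]

theorem hS4 (hS : SympBasis e B) : SympBasis ((4 : ℕ) • e) (hB B) := by
  have h1 : ∀ i j, ((4 : ℕ) • e) (hB B i) (hB B j) = e (B i) (B j) := by
    intro i j
    rw [four_e, hB_apply, hB_apply, map_smul, map_smul, LinearMap.smul_apply, smul_eq_mul,
      smul_eq_mul]
    ring
  constructor
  · intro x
    rw [four_e, hS.alt, mul_zero]
  · intro i j
    rw [h1, hS.ll]
  · intro i j
    rw [h1, hS.rr]
  · intro i j
    rw [h1, hS.lr]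

theorem hP4 (h : IsPStr e B ζ L) : IsPStr ((4 : ℕ) • e) (hB B) ζ ((4 : ℕ) • L) := by
  constructor
  · exact (h.nsmul 4 (by norm_num)).rel
  · intro r hr
    have h2 : (∑ j, ∑ k, (r j : ℂ) * (r k : ℂ) * dotp (((4 : ℕ) • L) (hB B j)) (ζ (hB B k))) =
        ∑ j, ∑ k, (r j : ℂ) * (r k : ℂ) * dotp (L (B j)) (ζ (B k)) := by
      refine Finset.sum_congr rfl fun j _ => Finset.sum_congr rfl fun k _ => ?_
      rw [nsmul_L_apply, dotp_nsmul_left, hB_apply, hB_apply, map_smul, map_smul]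
      have h3 : ((1 / 2 : ℚ) • L (B j)) = (1 / 2 : ℂ) • L (B j) := by
        funext i
        simp [Rat.smul_def]
      have h4 : ((1 / 2 : ℚ) • ζ (B k)) = (1 / 2 : ℂ) • ζ (B k) := by
        funext i
        simp [Rat.smul_def]
      rw [h3, h4, dotp_smul_left, dotp_smul_right]
      push_cast
      ring
    rw [h2]
    exact h.pos r hr

theorem two_lat (v : V) (hv : v ∈ lat (hB B)) : (2 : ℚ) • v ∈ lat B := by
  unfold lat at hv
  induction hv using AddSubgroup.closure_induction with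
  | mem x hx =>
    obtain ⟨i, rfl⟩ := hx
    rw [hB_apply, smul_smul]
    norm_num
    exact AddSubgroup.subset_closure ⟨i, rfl⟩
  | zero => rw [smul_zero]; exact AddSubgroup.zero_mem _
  | add x y _ _ hx hy => rw [smul_add]; exact AddSubgroup.add_mem _ hx hy
  | neg x _ hx => rw [smul_neg]; exact AddSubgroup.neg_mem _ hx

/-- dual vectors -/
theorem exists_dual (hS : SympBasis e B) (a : ι ⊕ ι → ℚ) : ∃ u : V, ∀ j, e (B j) u = a j := by
  refine ⟨∑ i, (a (Sum.inl i) • B (Sum.inr i) - a (Sum.inr i) • B (Sum.inl i)), ?_⟩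
  intro j
  rw [map_sum]
  rcases j with j | j
  · have h1 : ∀ i ∈ (Finset.univ : Finset ι), e (B (Sum.inl j))
        (a (Sum.inl i) • B (Sum.inr i) - a (Sum.inr i) • B (Sum.inl i)) =
        if j = i then a (Sum.inl i) else 0 := by
      intro i _
      rw [map_sub, map_smul, map_smul, hS.lr, hS.ll, smul_eq_mul, smul_eq_mul]
      split_ifs <;> ring
    rw [Finset.sum_congr rfl h1]
    simp
  · have h1 : ∀ i ∈ (Finset.univ : Finset ι), e (B (Sum.inr j))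
        (a (Sum.inl i) • B (Sum.inr i) - a (Sum.inr i) • B (Sum.inl i)) =
        if i = j then a (Sum.inr i) else 0 := by
      intro i _
      rw [map_sub, map_smul, map_smul, hS.rr, e_swap hS.alt (B (Sum.inl i)), hS.lr, smul_eq_mul,
        smul_eq_mul]
      split_ifs <;> ring
    rw [Finset.sum_congr rfl h1]
    simp

/-- joint eigenfunctions are combinations of products -/
theorem key (hI : Stmt_IRR) (hS : SympBasis e B) (h : IsPStr e B ζ L) {k m : ℕ}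
    (hkm : k = m + m) (hm : 0 < m) {w : V}
    {G : (ι → ℂ) → ℂ} (hG : IsTk e ζ L B k w G) (χ : ι ⊕ ι → ℂ)
    (hχ : ∀ j, χ j = 1 ∨ χ j = -1) (hG0 : G 0 ≠ 0)
    (hsm : ∀ S : Finset (ι ⊕ ι), S.Nonempty →
        ‖TT ζ (⇑(k • L)) ((1 / 2 : ℚ) • ∑ j ∈ S, B j) G 0‖ ≤
          (1 / 2 : ℝ) ^ (Fintype.card (ι ⊕ ι)) * ‖G 0‖) (F : (ι → ℂ) → ℂ)
    (hF : IsTk e ζ L B (2 * k) (w + w) F)
    (hFe : ∀ j, ∀ z, TT ζ (⇑((2 * k) • L)) ((1 / 2 : ℚ) • B j) F z =
        χ j * cexp (2 * Real.pi * I * (e (B j) w : ℚ)) * F z) :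
    F ∈ Submodule.span ℂ (PR e ζ L B k w) := by
  classical
  obtain ⟨H, hHW, hH0, hHk, hHe⟩ := exists_H0 hS h hkm hG χ hχ hG0 hsm
  obtain ⟨u, hu⟩ := exists_dual hS (fun j => if χ j = 1 then 0 else 1)
  have hL : (m • ((4 : ℕ) • L)) = (2 * k) • L := by
    rw [← mul_smul]
    congr 1
    omega
  have hchar : ∀ j, cexp (2 * Real.pi * I *
      ((((4 : ℕ) • e) (hB B j) ((1 / 2 : ℚ) • w + (1 / 4 : ℚ) • u) : ℚ) : ℂ)) =
      χ j * cexp (2 * Real.pi * I * (e (B j) w : ℚ)) := by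
    intro j
    have h1 : ((4 : ℕ) • e) (hB B j) ((1 / 2 : ℚ) • w + (1 / 4 : ℚ) • u) =
        e (B j) w + (1 / 2) * (if χ j = 1 then 0 else 1) := by
      rw [four_e, hB_apply, map_add, map_smul, map_smul, map_smul, LinearMap.smul_apply,
        LinearMap.smul_apply, hu, smul_eq_mul, smul_eq_mul, smul_eq_mul, smul_eq_mul]
      ring
    rw [h1]
    have h2 : cexp (2 * Real.pi * I * ((e (B j) w + (1 / 2) * (if χ j = 1 then 0 else 1) : ℚ) : ℂ))
        = cexp (2 * Real.pi * I * (((1 / 2) * (if χ j = 1 then 0 else 1) : ℚ) : ℂ)) *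
          cexp (2 * Real.pi * I * (e (B j) w : ℚ)) := by
      rw [← Complex.exp_add]
      congr 1
      push_cast
      ring
    rw [h2]
    congr 1
    rcases hχ j with hj | hj
    · rw [if_pos hj, hj]
      simp
    · have hj' : χ j ≠ 1 := by
        rw [hj]
        norm_num
      rw [if_neg hj', hj]
      have h3 : (2 * Real.pi * I * (((1 / 2) * 1 : ℚ) : ℂ) : ℂ) = Real.pi * I := by
        push_cast
        ring
      rw [h3, Complex.exp_pi_mul_I]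
  have hconv : ∀ K : (ι → ℂ) → ℂ, Differentiable ℂ K →
      (∀ j, ∀ z, TT ζ (⇑((2 * k) • L)) ((1 / 2 : ℚ) • B j) K z =
        χ j * cexp (2 * Real.pi * I * (e (B j) w : ℚ)) * K z) →
      IsTk ((4 : ℕ) • e) ζ ((4 : ℕ) • L) (hB B) m ((1 / 2 : ℚ) • w + (1 / 4 : ℚ) • u) K := by
    intro K hK hKe
    constructor
    · exact hK
    · intro j z
      rw [hchar, hL, hB_apply, hKe]
  have h5 := hI V ι ((4 : ℕ) • e) (hB B) ζ ((4 : ℕ) • L) (hS4 hS) (hP4 h) m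
    ((1 / 2 : ℚ) • w + (1 / 4 : ℚ) • u) H F hm (hconv H hHk.entire hHe) hH0
    (hconv F hF.entire hFe)
  refine (Submodule.span_le.2 ?_) h5
  rintro _ ⟨y, hy, rfl⟩
  rw [hL]
  refine W_stable hS h ?_ hHW
  have h6 := two_lat _ hy
  have h7 : (2 : ℚ) • (m : ℚ) • y = (k : ℚ) • y := by
    rw [smul_smul, hkm]
    congr 1
    push_cast
    ring
  rw [h7] at h6
  exact h6

/-- decomposition into joint eigenfunctions -/
theorem decomp (hI : Stmt_IRR) (hS : SympBasis e B) (h : IsPStr e B ζ L) {k m : ℕ}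
    (hkm : k = m + m) (hm : 0 < m) {w : V}
    {G : (ι → ℂ) → ℂ} (hG : IsTk e ζ L B k w G) (hG0 : G 0 ≠ 0)
    (hsm : ∀ S : Finset (ι ⊕ ι), S.Nonempty →
        ‖TT ζ (⇑(k • L)) ((1 / 2 : ℚ) • ∑ j ∈ S, B j) G 0‖ ≤
          (1 / 2 : ℝ) ^ (Fintype.card (ι ⊕ ι)) * ‖G 0‖) (s : Finset (ι ⊕ ι)) :
    ∀ F : (ι → ℂ) → ℂ, IsTk e ζ L B (2 * k) (w + w) F →
    (∀ j, j ∉ s → ∃ χ : ℂ, (χ = 1 ∨ χ = -1) ∧
      ∀ z, TT ζ (⇑((2 * k) • L)) ((1 / 2 : ℚ) • B j) F z =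
        χ * cexp (2 * Real.pi * I * (e (B j) w : ℚ)) * F z) →
    F ∈ Submodule.span ℂ (PR e ζ L B k w) := by
  classical
  induction s using Finset.induction_on with
  | empty =>
    intro F hF hFe
    choose χ hχ hχe using fun j => hFe j (Finset.notMem_empty j)
    exact key hI hS h hkm hm hG χ hχ hG0 hsm F hF hχe
  | insert a s ha ih =>
    intro F hF hFe
    set lam : ℂ := cexp (2 * Real.pi * I * (e (B a) w : ℚ)) with hlam
    have hlam0 : lam ≠ 0 := Complex.exp_ne_zero _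
    have hgen : ∀ ν : ℂ, (ν = 1 ∨ ν = -1) →
        (fun z => F z + (ν * lam⁻¹) * TT ζ (⇑((2 * k) • L)) ((1 / 2 : ℚ) • B a) F z) ∈
          Submodule.span ℂ (PR e ζ L B k w) := by
      intro ν hν
      refine ih _ (hF.add ((S_isTk hS h hF a).smul (ν * lam⁻¹))) ?_
      intro j hj
      by_cases hja : j = a
      · subst hja
        refine ⟨ν, hν, fun z => ?_⟩
        rw [TT_add, TT_smul, S_sq hS h hF, ← hlam]
        have hν2 : ν * ν = 1 := by
          rcases hν with h1 | h1 <;> rw [h1] <;> norm_num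
        have h1 : lam⁻¹ * lam = 1 := inv_mul_cancel₀ hlam0
        linear_combination (ν * lam * F z -
          TT ζ (⇑((2 * k) • L)) ((1 / 2 : ℚ) • B j) F z) * h1 +
          (-(lam * lam⁻¹ * TT ζ (⇑((2 * k) • L)) ((1 / 2 : ℚ) • B j) F z)) * hν2
      · have hj2 : j ∉ insert a s := by
          rw [Finset.mem_insert]
          rintro (h1 | h1)
          · exact hja h1
          · exact hj h1
        obtain ⟨χ, hχ, hχe⟩ := hFe j hj2
        refine ⟨χ, hχ, fun z => ?_⟩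
        rw [TT_add, TT_smul, S_comm hS h hkm]
        have h4 : TT ζ (⇑((2 * k) • L)) ((1 / 2 : ℚ) • B j) F =
            fun z => (χ * cexp (2 * Real.pi * I * (e (B j) w : ℚ))) * F z := by
          funext z
          exact hχe z
        rw [h4, TT_smul]
        ring
    have h1 := hgen 1 (Or.inl rfl)
    have h2 := hgen (-1) (Or.inr rfl)
    have h3 : F = (1 / 2 : ℂ) • ((fun z => F z + (1 * lam⁻¹) *
        TT ζ (⇑((2 * k) • L)) ((1 / 2 : ℚ) • B a) F z) + (fun z => F z + (-1 * lam⁻¹) *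
        TT ζ (⇑((2 * k) • L)) ((1 / 2 : ℚ) • B a) F z)) := by
      funext z
      simp only [Pi.smul_apply, Pi.add_apply, smul_eq_mul]
      ring
    rw [h3]
    exact Submodule.smul_mem _ _ (Submodule.add_mem _ h1 h2)

end

end NRM_

theorem nrm_proof (h1 : Stmt_IRR) (h2 : Stmt_POI) : Stmt_NRM := by
  intro V _ _ ι _ _ e B ζ L hS h
  obtain ⟨k₀, hk₀⟩ := h2 V ι e B ζ L hS h ((1 / 2 : ℝ) ^ (Fintype.card (ι ⊕ ι))) (by positivity)
  refine ⟨k₀, fun k hk hev hpos w F hF => ?_⟩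
  obtain ⟨m, hkm⟩ := hev
  obtain ⟨G, hG, hG0, hsm⟩ := hk₀ k hk hpos w
  exact NRM_.decomp h1 hS h hkm (by omega) hG hG0 hsm Finset.univ F hF
    (fun j hj => absurd (Finset.mem_univ j) hj)

end Pool.Agent.SPF
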