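import Pool.Agent.SPF.OutKit

set_option linter.unusedSectionVars false

/-!
# Points with the same values of all functions `f j` differ by a torsion point (module PER)
-/

open scoped BigOperators
open Complex

namespace Pool.Agent.SPF.PER_

noncomputable section

variable {g : ℕ}

/-- identity principle along lines -/
theorem line_zero {h : (Fin g → ℂ) → ℂ} (hh : Differentiable ℂ h) (u : Fin g → ℂ)
    (h0 : ∀ᶠ z in nhds u, h z = 0) : ∀ z, h z = 0 := by
  intro z
  have h1 : Differentiable ℂ (fun s : ℂ => h (u + s • (z - u))) := hh.comp (by fun_prop)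
  have h2 : ∀ᶠ s in nhds (0:ℂ), h (u + s • (z - u)) = 0 := by
    have hc : Continuous (fun s : ℂ => u + s • (z - u)) := by fun_prop
    have h5 : Filter.Tendsto (fun s : ℂ => u + s • (z - u)) (nhds 0) (nhds u) := by
      have := hc.tendsto 0
      simpa using this
    exact h5.eventually h0
  have h3 : AnalyticOnNhd ℂ (fun s : ℂ => h (u + s • (z - u))) Set.univ :=
    fun s _ => h1.analyticAt s
  have h4 := h3.eq_of_eventuallyEq (g := fun _ => (0 : ℂ)) analyticOnNhd_const h2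
  have h5 := congrFun h4 1
  simpa using h5

variable (A : DRB.AbVar g)

/-- the group of periods of the functions `f j` -/
def Per : AddSubgroup (Fin g → ℂ) where
  carrier := {p | ∀ j z, A.num j (z + p) * A.θ z ^ A.wt = A.num j z * A.θ (z + p) ^ A.wt}
  zero_mem' := by
    intro j z
    simp
  neg_mem' := by
    intro p hp j z
    have := hp j (z + -p)
    rw [neg_add_cancel_right] at this
    exact this.symm
  add_mem' := by
    intro p q hp hq j
    have hd : Differentiable ℂ (fun z => A.num j (z + (p + q)) * A.θ z ^ A.wt -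
        A.num j z * A.θ (z + (p + q)) ^ A.wt) := by
      have h1 : Differentiable ℂ (fun z : Fin g → ℂ => A.num j (z + (p + q))) :=
        (A.num_entire j).comp (differentiable_id.add_const _)
      have h2 : Differentiable ℂ (fun z : Fin g → ℂ => A.θ (z + (p + q))) :=
        A.θ_entire.comp (differentiable_id.add_const _)
      exact (h1.mul (A.θ_entire.pow _)).sub ((A.num_entire j).mul (h2.pow _))
    have h0 : ∀ᶠ z in nhds (-p), A.θ (z + p) ≠ 0 := by
      have hc : Continuous (fun z : Fin g → ℂ => A.θ (z + p)) :=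
        A.θ_entire.continuous.comp (continuous_id.add continuous_const)
      refine hc.continuousAt.eventually_ne ?_
      rw [neg_add_cancel]
      exact A.θ_zero
    have hz : ∀ᶠ z in nhds (-p), A.num j (z + (p + q)) * A.θ z ^ A.wt -
        A.num j z * A.θ (z + (p + q)) ^ A.wt = 0 := by
      filter_upwards [h0] with z hz
      have h1 := hp j z
      have h2 := hq j (z + p)
      rw [add_assoc] at h2
      have h3 : A.θ (z + p) ^ A.wt * (A.num j (z + (p + q)) * A.θ z ^ A.wt -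
        A.num j z * A.θ (z + (p + q)) ^ A.wt) = 0 := by
        linear_combination A.θ z ^ A.wt * h2 + A.θ (z + (p + q)) ^ A.wt * h1
      rcases mul_eq_zero.1 h3 with h4 | h4
      · exact absurd h4 (pow_ne_zero _ hz)
      · exact h4
    intro z
    exact sub_eq_zero.1 (line_zero hd (-p) hz z)

theorem mem_Per (p : Fin g → ℂ) : p ∈ Per A ↔
    ∀ j z, A.num j (z + p) * A.θ z ^ A.wt = A.num j z * A.θ (z + p) ^ A.wt := Iff.rfl

theorem lat_mem (k : DRB.Idx g) : A.lat k ∈ Per A := by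
  intro j z
  rw [A.num_aut, A.θ_aut, mul_pow, ← Complex.exp_nat_mul]
  ring

theorem zsmul_eq (r : ℤ) (x : Fin g → ℂ) : (r : ℂ) • x = r • x := by
  funext i
  simp

/-- the derivative of `f j` at a regular point -/
theorem hasFDerivAt_f (j : Fin A.nfun) (z : Fin g → ℂ) (hz : A.θ z ≠ 0) :
    HasFDerivAt (A.f j) (fderiv ℂ (A.f j) z) z := by
  have h0 : DifferentiableAt ℂ (fun w => A.θ w ^ A.wt) z := (A.θ_entire z).fun_pow _
  have hz' : A.θ z ^ A.wt ≠ 0 := pow_ne_zero _ hz
  have h1 : DifferentiableAt ℂ (fun w => A.num j w / A.θ w ^ A.wt) z := by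
    simp only [div_eq_mul_inv]
    exact (A.num_entire j z).fun_mul (h0.fun_inv hz')
  exact h1.hasFDerivAt

theorem fderiv_f (P : Fin g → Fin A.nfun → MvPolynomial (Fin A.nfun) ℂ)
    (hP : ∀ i j z, A.θ z ≠ 0 → DRB.pd i (A.f j) z = MvPolynomial.eval (fun l => A.f l z) (P i j))
    (j : Fin A.nfun) (z v : Fin g → ℂ) (hz : A.θ z ≠ 0) :
    fderiv ℂ (A.f j) z v = ∑ i, v i * MvPolynomial.eval (fun l => A.f l z) (P i j) := by
  have h1 : v = ∑ i, v i • (Pi.single i 1 : Fin g → ℂ) := by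
    funext k
    simp [Pi.single_apply]
  conv_lhs => rw [h1, map_sum]
  refine Finset.sum_congr rfl fun i _ => ?_
  rw [map_smul, smul_eq_mul]
  congr 1
  exact hP i j z hz

/-- Step 1: near `u` -/
theorem near (u p : Fin g → ℂ) (hu : A.θ u ≠ 0) (hup : A.θ (u + p) ≠ 0)
    (hf : ∀ j, A.f j (u + p) = A.f j u) :
    ∀ᶠ z in nhds u, A.θ z ≠ 0 ∧ A.θ (z + p) ≠ 0 ∧ ∀ j, A.f j (z + p) = A.f j z := by
  choose P hPa hP using A.alg_f
  set F : (Fin g → ℂ) → (Fin A.nfun → ℂ) := fun z j => A.f j z with hF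
  set G : (Fin A.nfun → ℂ) → (Fin g → Fin A.nfun → ℂ) := fun y i j => MvPolynomial.eval y (P i j)
    with hG
  have hGc : ContDiffAt ℂ 1 G (F u) := by
    rw [contDiffAt_pi]
    intro i
    rw [contDiffAt_pi]
    intro j
    exact ((AnalyticOnNhd.eval_mvPolynomial (P i j)) (F u) (Set.mem_univ _)).contDiffAt
  obtain ⟨K, t, ht, hK⟩ := hGc.exists_lipschitzOnWith
  have hFc : ∀ z, A.θ z ≠ 0 → ContinuousAt F z := by
    intro z hz
    rw [continuousAt_pi]
    intro j
    exact (hasFDerivAt_f A j z hz).continuousAt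
  have hshift : Filter.Tendsto (fun z : Fin g → ℂ => z + p) (nhds u) (nhds (u + p)) :=
    (continuous_id.add continuous_const).tendsto u
  have e1 : ∀ᶠ z in nhds u, A.θ z ≠ 0 := A.θ_entire.continuous.continuousAt.eventually_ne hu
  have e2 : ∀ᶠ z in nhds u, A.θ (z + p) ≠ 0 :=
    hshift.eventually (A.θ_entire.continuous.continuousAt.eventually_ne hup)
  have e3 : ∀ᶠ z in nhds u, F z ∈ t := (hFc u hu).eventually ht
  have e4 : ∀ᶠ z in nhds u, F (z + p) ∈ t := by
    have h1 : F (u + p) = F u := funext fun j => hf j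
    have h2 : ∀ᶠ w in nhds (u + p), F w ∈ t := by
      refine (hFc (u + p) hup).eventually ?_
      rw [h1]
      exact ht
    exact hshift.eventually h2
  obtain ⟨r, hr, hball⟩ := Metric.eventually_nhds_iff_ball.1 (e1.and (e2.and (e3.and e4)))
  refine Metric.eventually_nhds_iff_ball.2 ⟨r, hr, fun z hz => ?_⟩
  refine ⟨(hball z hz).1, (hball z hz).2.1, ?_⟩
  -- the path
  have hγ : ∀ s : ℝ, s ∈ Set.Icc (0:ℝ) 1 → u + (s : ℂ) • (z - u) ∈ Metric.ball u r := by
    intro s hs
    rw [Metric.mem_ball, dist_eq_norm, add_sub_cancel_left, norm_smul, Complex.norm_real,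
      Real.norm_eq_abs, abs_of_nonneg hs.1]
    have h1 : ‖z - u‖ < r := by
      rw [← dist_eq_norm]
      exact hz
    calc s * ‖z - u‖ ≤ 1 * ‖z - u‖ := mul_le_mul_of_nonneg_right hs.2 (norm_nonneg _)
      _ < r := by rw [one_mul]; exact h1
  have hder : ∀ s : ℝ, s ∈ Set.Icc (0:ℝ) 1 → HasDerivAt
      (fun s : ℝ => F (u + (s : ℂ) • (z - u) + p) - F (u + (s : ℂ) • (z - u)))
      (fun j => ∑ i, (z - u) i * (G (F (u + (s : ℂ) • (z - u) + p)) i j -
        G (F (u + (s : ℂ) • (z - u))) i j)) s := by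
    intro s hs
    rw [hasDerivAt_pi]
    intro j
    have hb := hball _ (hγ s hs)
    have c1 : HasDerivAt (fun s : ℂ => u + s • (z - u)) (z - u) (s : ℂ) := by
      have := ((hasDerivAt_id (s : ℂ)).smul_const (z - u)).const_add u
      simpa using this
    have c2 : HasDerivAt (fun s : ℂ => u + s • (z - u) + p) (z - u) (s : ℂ) := c1.add_const p
    have d1 := (hasFDerivAt_f A j _ hb.1).comp_hasDerivAt (s : ℂ) c1
    have d2 := (hasFDerivAt_f A j _ hb.2.1).comp_hasDerivAt (s : ℂ) c2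
    rw [fderiv_f A P hP j _ _ hb.1] at d1
    rw [fderiv_f A P hP j _ _ hb.2.1] at d2
    have d3 := (d2.sub d1).comp_ofReal
    have e5 : (∑ i, (z - u) i * MvPolynomial.eval (fun l => A.f l (u + (s : ℂ) • (z - u) + p))
        (P i j)) - (∑ i, (z - u) i * MvPolynomial.eval (fun l => A.f l (u + (s : ℂ) • (z - u)))
        (P i j)) = ∑ i, (z - u) i * (G (F (u + (s : ℂ) • (z - u) + p)) i j -
        G (F (u + (s : ℂ) • (z - u))) i j) := by
      rw [← Finset.sum_sub_distrib]
      exact Finset.sum_congr rfl fun i _ => by rw [hG, hF]; ring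
    rw [e5] at d3
    exact d3
  have hzero := eq_zero_of_abs_deriv_le_mul_abs_self_of_eq_zero_right
    (f := fun s : ℝ => F (u + (s : ℂ) • (z - u) + p) - F (u + (s : ℂ) • (z - u)))
    (f' := fun s : ℝ => (fun j => ∑ i, (z - u) i * (G (F (u + (s : ℂ) • (z - u) + p)) i j -
        G (F (u + (s : ℂ) • (z - u))) i j)))
    (K := (g : ℝ) * ‖z - u‖ * K) (a := 0) (b := 1)
    (fun s hs => (hder s hs).continuousAt.continuousWithinAt)
    (fun s hs => (hder s ⟨hs.1, hs.2.le⟩).hasDerivWithinAt) ?_ ?_ 1 ⟨zero_le_one, le_refl _⟩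
  · intro j
    have h5 := congrFun hzero j
    simp only [Complex.ofReal_one, one_smul, add_sub_cancel, Pi.sub_apply, Pi.zero_apply] at h5
    exact sub_eq_zero.1 h5
  · funext j
    simp only [Complex.ofReal_zero, zero_smul, add_zero, Pi.sub_apply, Pi.zero_apply]
    exact sub_eq_zero.2 (hf j)
  · intro s hs
    have hs' : s ∈ Set.Icc (0:ℝ) 1 := ⟨hs.1, hs.2.le⟩
    have hb := hball _ (hγ s hs')
    have hL := hK.norm_sub_le hb.2.2.2 hb.2.2.1
    refine (pi_norm_le_iff_of_nonneg (by positivity)).2 fun j => ?_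
    calc ‖∑ i, (z - u) i * (G (F (u + (s : ℂ) • (z - u) + p)) i j -
          G (F (u + (s : ℂ) • (z - u))) i j)‖
        ≤ ∑ i : Fin g, ‖z - u‖ * (K * ‖F (u + (s : ℂ) • (z - u) + p) -
            F (u + (s : ℂ) • (z - u))‖) := by
          refine norm_sum_le_of_le _ fun i _ => ?_
          rw [norm_mul]
          refine mul_le_mul (norm_le_pi_norm (z - u) i) ?_ (norm_nonneg _) (norm_nonneg _)
          refine le_trans ?_ hL
          refine le_trans ?_ (norm_le_pi_norm _ i)
          exact norm_le_pi_norm ((G (F (u + (s : ℂ) • (z - u) + p)) -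
            G (F (u + (s : ℂ) • (z - u)))) i) j
      _ = (g : ℝ) * ‖z - u‖ * K * ‖F (u + (s : ℂ) • (z - u) + p) -
            F (u + (s : ℂ) • (z - u))‖ := by
          rw [Finset.sum_const, Finset.card_univ, Fintype.card_fin, nsmul_eq_mul]
          ring

/-- Step 2: `p` is a period -/
theorem mem_of_eq (u p : Fin g → ℂ) (hu : A.θ u ≠ 0) (hup : A.θ (u + p) ≠ 0)
    (hf : ∀ j, A.f j (u + p) = A.f j u) : p ∈ Per A := by
  have hn := near A u p hu hup hf
  intro j z
  have hd : Differentiable ℂ (fun z => A.num j (z + p) * A.θ z ^ A.wt -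
      A.num j z * A.θ (z + p) ^ A.wt) := by
    have h1 : Differentiable ℂ (fun z : Fin g → ℂ => A.num j (z + p)) :=
      (A.num_entire j).comp (differentiable_id.add_const _)
    have h2 : Differentiable ℂ (fun z : Fin g → ℂ => A.θ (z + p)) :=
      A.θ_entire.comp (differentiable_id.add_const _)
    exact (h1.mul (A.θ_entire.pow _)).sub ((A.num_entire j).mul (h2.pow _))
  have hz : ∀ᶠ z in nhds u, A.num j (z + p) * A.θ z ^ A.wt -
      A.num j z * A.θ (z + p) ^ A.wt = 0 := by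
    filter_upwards [hn] with z hz
    obtain ⟨h1, h2, h3⟩ := hz
    have h4 := h3 j
    unfold DRB.AbVar.f at h4
    rw [div_eq_div_iff (pow_ne_zero _ h2) (pow_ne_zero _ h1)] at h4
    rw [h4, sub_self]
  exact sub_eq_zero.1 (line_zero hd u hz z)

/-- Step 3: small periods are zero -/
theorem small : ∃ δ : ℝ, 0 < δ ∧ ∀ q ∈ Per A, ‖q‖ < δ → q = 0 := by
  set F : (Fin g → ℂ) → (Fin A.nfun → ℂ) := fun z j => A.f j z with hF
  have h1 : HasFDerivAt F (ContinuousLinearMap.pi fun j => fderiv ℂ (A.f j) 0) 0 := by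
    rw [hasFDerivAt_pi]
    exact fun j => hasFDerivAt_f A j 0 A.θ_zero
  have hinj : Function.Injective (ContinuousLinearMap.pi fun j => fderiv ℂ (A.f j) 0) := by
    rw [injective_iff_map_eq_zero]
    intro v hv
    exact A.imm v fun k => congrFun hv k
  obtain ⟨C, _, hC⟩ := (ContinuousLinearMap.pi fun j =>
    fderiv ℂ (A.f j) 0).toLinearMap.exists_antilipschitzWith (LinearMap.ker_eq_bot.2 hinj)
  have h2 : ∀ᶠ z in nhds (0 : Fin g → ℂ), z ≠ 0 → F z ≠ F 0 := by
    have := h1.eventually_ne ⟨C, hC⟩ (c := F 0)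
    rw [eventually_nhdsWithin_iff] at this
    filter_upwards [this] with z hz hz0
    exact hz hz0
  have h3 : ∀ᶠ z in nhds (0 : Fin g → ℂ), A.θ z ≠ 0 :=
    A.θ_entire.continuous.continuousAt.eventually_ne A.θ_zero
  obtain ⟨δ, hδ, hball⟩ := Metric.eventually_nhds_iff_ball.1 (h2.and h3)
  refine ⟨δ, hδ, fun q hq hn => ?_⟩
  by_contra hne
  obtain ⟨h4, h5⟩ := hball q (by rwa [mem_ball_zero_iff])
  refine h4 hne ?_
  funext j
  have h6 := hq j 0
  rw [zero_add] at h6
  show A.num j q / A.θ q ^ A.wt = A.num j 0 / A.θ 0 ^ A.wt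
  rw [div_eq_div_iff (pow_ne_zero _ h5) (pow_ne_zero _ A.θ_zero), h6]

/-- simultaneous approximation -/
theorem dirichlet {κ : Type} [Fintype κ] (c : κ → ℝ) (ε : ℝ) (hε : 0 < ε) :
    ∃ (N : ℕ) (r : κ → ℤ), 0 < N ∧ ∀ k, |N * c k - r k| < ε := by
  have hcpt : IsCompact (Set.Icc (0 : κ → ℝ) 1) := isCompact_Icc
  set x : ℕ → κ → ℝ := fun m k => Int.fract (m * c k) with hx
  have hmem : ∀ m, x m ∈ Set.Icc (0 : κ → ℝ) 1 :=
    fun m => ⟨fun k => Int.fract_nonneg _, fun k => (Int.fract_lt_one _).le⟩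
  obtain ⟨y, _, φ, hφ, hlim⟩ := hcpt.tendsto_subseq hmem
  have hcau := hlim.cauchySeq
  obtain ⟨M, hM⟩ := Metric.cauchySeq_iff.1 hcau ε hε
  have h1 := hM (M + 1) (by omega) M (le_refl _)
  have h2 : φ M < φ (M + 1) := hφ (Nat.lt_succ_self M)
  refine ⟨φ (M + 1) - φ M, fun k => ⌊(φ (M + 1) : ℝ) * c k⌋ - ⌊(φ M : ℝ) * c k⌋, by omega,
    fun k => ?_⟩
  have h3 : |x (φ (M + 1)) k - x (φ M) k| < ε := by
    refine lt_of_le_of_lt ?_ h1
    rw [← Real.dist_eq]
    exact dist_le_pi_dist _ _ k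
  have h4 : ((φ (M + 1) - φ M : ℕ) : ℝ) = (φ (M + 1) : ℝ) - φ M := Nat.cast_sub h2.le
  have h5 : ((φ (M + 1) - φ M : ℕ) : ℝ) * c k -
      ((⌊(φ (M + 1) : ℝ) * c k⌋ - ⌊(φ M : ℝ) * c k⌋ : ℤ) : ℝ) = x (φ (M + 1)) k - x (φ M) k := by
    rw [h4]
    simp only [hx]
    rw [Int.fract, Int.fract]
    push_cast
    ring
  rw [h5]
  exact h3

end

end Pool.Agent.SPF.PER_

namespace Pool.Agent.SPF

open PER_ in
theorem per_proof : Stmt_PER := by
  intro g A u p hu hup hf
  have hp := mem_of_eq A u p hu hup hf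
  obtain ⟨δ, hδ, hsmall⟩ := small A
  -- coordinates
  have hcard : Fintype.card (DRB.Idx g) = Module.finrank ℝ (Fin g → ℂ) := by
    simp [DRB.Idx, Module.finrank_pi_fintype, Complex.finrank_real_complex]
    ring
  obtain ⟨c, hc⟩ : ∃ c : DRB.Idx g → ℝ, p = ∑ k, c k • A.lat k := by
    have h1 : Submodule.span ℝ (Set.range A.lat) = ⊤ :=
      A.lat_indep.span_eq_top_of_card_eq_finrank' hcard
    have h2 : p ∈ Submodule.span ℝ (Set.range A.lat) := by
      rw [h1]
      exact Submodule.mem_top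
    obtain ⟨c, hc⟩ := (Submodule.mem_span_range_iff_exists_fun ℝ).1 h2
    exact ⟨c, hc.symm⟩
  obtain ⟨N, r, hN, hr⟩ := dirichlet c (δ / (∑ k, ‖A.lat k‖ + 1))
    (div_pos hδ (by have : 0 ≤ ∑ k, ‖A.lat k‖ := Finset.sum_nonneg fun _ _ => norm_nonneg _
                    linarith))
  refine ⟨N, r, hN, ?_⟩
  have hS : 0 ≤ ∑ k, ‖A.lat k‖ := Finset.sum_nonneg fun _ _ => norm_nonneg _
  set q : Fin g → ℂ := N • p - ∑ k, r k • A.lat k with hq
  have hqm : q ∈ Per A := by
    refine (Per A).sub_mem ((Per A).nsmul_mem hp N) ?_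
    exact (Per A).sum_mem fun k _ => (Per A).zsmul_mem (lat_mem A k) _
  have hqe : q = ∑ k, ((N : ℝ) * c k - r k) • A.lat k := by
    rw [hq, hc, Finset.smul_sum, ← Finset.sum_sub_distrib]
    refine Finset.sum_congr rfl fun k _ => ?_
    funext i
    simp only [Pi.sub_apply, Pi.smul_apply, nsmul_eq_mul, Complex.real_smul, zsmul_eq_mul,
      Pi.mul_apply, Pi.natCast_apply, Pi.intCast_apply]
    push_cast
    ring
  have hqn : ‖q‖ < δ := by
    have h1 : ‖q‖ ≤ ∑ k, (δ / (∑ k, ‖A.lat k‖ + 1)) * ‖A.lat k‖ := by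
      rw [hqe]
      refine norm_sum_le_of_le _ fun k _ => ?_
      rw [norm_smul, Real.norm_eq_abs]
      exact mul_le_mul_of_nonneg_right (hr k).le (norm_nonneg _)
    rw [← Finset.mul_sum] at h1
    refine lt_of_le_of_lt h1 ?_
    rw [div_mul_eq_mul_div, div_lt_iff₀ (by linarith)]
    nlinarith
  have h0 := hsmall q hqm hqn
  have h1 : N • p = ∑ k, r k • A.lat k := sub_eq_zero.1 h0
  have h2 : (N : ℂ) • p = N • p := by
    funext i
    simp
  rw [h2, h1]
  exact Finset.sum_congr rfl fun k _ => (zsmul_eq _ _).symm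

end Pool.Agent.SPF
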