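import Pool.Agent.SPF.OutKit

set_option linter.unusedSectionVars false
set_option linter.unusedSimpArgs false

/-!
# Quotients of theta functions are algebraic over the functions of the abelian variety
-/

open scoped BigOperators
open Complex

namespace Pool.Agent.SPF

noncomputable section

namespace PRL_

theorem eval_smul_hom {σ : Type} [Fintype σ] {P : MvPolynomial σ ℂ} {d : ℕ}
    (hP : P.IsHomogeneous d) (c : ℂ) (x : σ → ℂ) :
    MvPolynomial.eval (fun k => c * x k) P = c ^ d * MvPolynomial.eval x P := by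
  rw [MvPolynomial.eval_eq', MvPolynomial.eval_eq', Finset.mul_sum]
  refine Finset.sum_congr rfl fun m hm => ?_
  have hd : ∑ i, m i = d := by
    have h1 := hP (MvPolynomial.mem_support_iff.1 hm)
    rw [← h1, Finsupp.weight_apply, Finsupp.sum_fintype _ _ (by simp)]
    simp
  have h2 : ∏ i, (c * x i) ^ m i = c ^ d * ∏ i, x i ^ m i := by
    rw [← hd, ← Finset.prod_pow_eq_pow_sum, ← Finset.prod_mul_distrib]
    exact Finset.prod_congr rfl fun i _ => mul_pow _ _ _
  rw [h2]
  ring

/-- the dehomogenisation -/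
def sub (g : ℕ) : Fin (g + 2) → MvPolynomial (Option (Fin g)) ℂ :=
  Fin.cases 1 (Fin.lastCases (MvPolynomial.X none) (fun i => MvPolynomial.X (some i)))

/-- the point -/
def pt {g : ℕ} (t : ℂ) (y : ℂ) (x : Fin g → ℂ) : Fin (g + 2) → ℂ :=
  Fin.cases t (Fin.lastCases y x)

theorem eval_sub {g : ℕ} (P : MvPolynomial (Fin (g + 2)) ℂ) (p : Option (Fin g) → ℂ) :
    MvPolynomial.eval p (MvPolynomial.bind₁ (sub g) P) =
      MvPolynomial.eval (pt 1 (p none) fun i => p (some i)) P := by
  have h1 := MvPolynomial.eval₂Hom_bind₁ (RingHom.id ℂ) p (sub g) P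
  have h2 : (fun i => MvPolynomial.eval₂Hom (RingHom.id ℂ) p (sub g i)) =
      pt 1 (p none) fun i => p (some i) := by
    funext k
    refine Fin.cases ?_ (fun k => ?_) k
    · simp [sub, pt]
    · refine Fin.lastCases ?_ (fun k => ?_) k
      · simp only [sub, pt, Fin.cases_succ, Fin.lastCases_last]
        simp
      · simp only [sub, pt, Fin.cases_succ, Fin.lastCases_castSucc]
        simp
  rw [h2] at h1
  exact h1

theorem sub_ne_zero {g d : ℕ} {P : MvPolynomial (Fin (g + 2)) ℂ} (hP : P ≠ 0)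
    (hd : P.IsHomogeneous d) : MvPolynomial.bind₁ (sub g) P ≠ 0 := by
  intro h0
  apply hP
  have h1 : MvPolynomial.X 0 * P = 0 := by
    apply MvPolynomial.funext
    intro x
    rw [map_mul, MvPolynomial.eval_X, map_zero]
    by_cases hx : x 0 = 0
    · rw [hx, zero_mul]
    · have h2 : x = fun k => x 0 * pt 1 (x (Fin.last _) / x 0)
          (fun i : Fin g => x i.castSucc.succ / x 0) k := by
        funext k
        refine Fin.cases ?_ (fun k => ?_) k
        · simp [pt]
        · refine Fin.lastCases ?_ (fun k => ?_) k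
          · simp only [pt, Fin.cases_succ, Fin.lastCases_last]
            rw [Fin.succ_last]
            field_simp
          · simp only [pt, Fin.cases_succ, Fin.lastCases_castSucc]
            field_simp
      have h3 := eval_sub P (fun o : Option (Fin g) =>
        o.elim (x (Fin.last _) / x 0) (fun i => x i.castSucc.succ / x 0))
      rw [h0, map_zero] at h3
      rw [h2, eval_smul_hom hd]
      simp only [Option.elim] at h3
      rw [← h3]
      simp
  rcases mul_eq_zero.1 h1 with h2 | h2
  · exact absurd h2 (MvPolynomial.X_ne_zero 0)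
  · exact h2

/-- iterates of a translation formula -/
theorem iter {g : ℕ} (F : (Fin g → ℂ) → ℂ) (l v : Fin g → ℂ) (c : ℂ)
    (h : ∀ z, F (z + v) = cexp ((∑ k, l k * z k) + c) * F z) (N : ℕ) (z : Fin g → ℂ) :
    F (z + (N : ℂ) • v) = cexp ((N : ℂ) * ((∑ k, l k * z k) + c) +
      (N : ℂ) * (N - 1) / 2 * ∑ k, l k * v k) * F z := by
  induction N with
  | zero => simp
  | succ N ih =>
    have e1 : z + ((N + 1 : ℕ) : ℂ) • v = (z + (N : ℂ) • v) + v := by
      push_cast
      rw [add_smul, one_smul, add_assoc]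
    have e2 : ∑ k, l k * (z + (N : ℂ) • v) k = (∑ k, l k * z k) + N * ∑ k, l k * v k := by
      rw [Finset.mul_sum, ← Finset.sum_add_distrib]
      refine Finset.sum_congr rfl fun k _ => ?_
      simp only [Pi.add_apply, Pi.smul_apply, smul_eq_mul]
      ring
    rw [e1, h, ih, e2, ← mul_assoc, ← Complex.exp_add]
    congr 2
    push_cast
    ring

end PRL_

open PRL_ in
theorem prl_proof (hADT : Stmt_ADT) : Stmt_PRL := by
  intro g A N φ ψ a b hN hφ hψ aφ aψ K
  -- the common factor of automorphy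
  set a' : DRB.Idx g → Fin g → ℂ := fun i l => (A.wt : ℂ) * N * A.lin i l + a i l with ha'
  set b' : DRB.Idx g → ℂ := fun i => (A.wt : ℂ) * (N * A.cst i +
    (N : ℂ) * (N - 1) / 2 * ∑ k, A.lin i k * A.lat i k) + b i with hb'
  have hexp : ∀ (i : DRB.Idx g) (z : Fin g → ℂ), cexp ((∑ l, a' i l * z l) + b' i) =
      cexp ((A.wt : ℂ) * ((N : ℂ) * ((∑ k, A.lin i k * z k) + A.cst i) +
      (N : ℂ) * (N - 1) / 2 * ∑ k, A.lin i k * A.lat i k)) *
      cexp ((∑ l, a i l * z l) + b i) := by
    intro i z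
    rw [← Complex.exp_add]
    congr 1
    have : ∑ l, a' i l * z l = (A.wt : ℂ) * N * (∑ k, A.lin i k * z k) + ∑ l, a i l * z l := by
      rw [Finset.mul_sum, ← Finset.sum_add_distrib]
      refine Finset.sum_congr rfl fun k _ => ?_
      simp only [ha']
      ring
    rw [this]
    simp only [hb']
    ring
  have hθ : ∀ (i : DRB.Idx g) (z : Fin g → ℂ), A.θ (z + (N : ℂ) • A.lat i) ^ A.wt =
      cexp ((A.wt : ℂ) * ((N : ℂ) * ((∑ k, A.lin i k * z k) + A.cst i) +
      (N : ℂ) * (N - 1) / 2 * ∑ k, A.lin i k * A.lat i k)) * A.θ z ^ A.wt := by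
    intro i z
    rw [iter A.θ (A.lin i) (A.lat i) (A.cst i) (fun z => A.θ_aut i z) N z, mul_pow,
      ← Complex.exp_nat_mul]
  have hnum : ∀ (k : Fin A.nfun) (i : DRB.Idx g) (z : Fin g → ℂ), A.num k (z + (N : ℂ) • A.lat i) =
      cexp ((A.wt : ℂ) * ((N : ℂ) * ((∑ k, A.lin i k * z k) + A.cst i) +
      (N : ℂ) * (N - 1) / 2 * ∑ k, A.lin i k * A.lat i k)) * A.num k z := by
    intro k i z
    have h1 := iter (A.num k) (fun l => (A.wt : ℂ) * A.lin i l) (A.lat i) (A.wt * A.cst i)
      (fun z => by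
        rw [A.num_aut k i z]
        congr 2
        rw [mul_add, Finset.mul_sum]
        congr 1
        exact Finset.sum_congr rfl fun k _ => by ring) N z
    rw [h1]
    congr 2
    have h2 : ∀ x : Fin g → ℂ, ∑ k, (A.wt : ℂ) * A.lin i k * x k =
        A.wt * ∑ k, A.lin i k * x k := by
      intro x
      rw [Finset.mul_sum]
      exact Finset.sum_congr rfl fun k _ => by ring
    rw [h2, h2]
    ring
  set h : Fin (g + 2) → (Fin g → ℂ) → ℂ := fun k z =>
    pt (A.θ z ^ A.wt * ψ z) (A.θ z ^ A.wt * φ z) (fun i => A.num (K i) z * ψ z) k with hh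
  have h0 : ∀ z, h 0 z = A.θ z ^ A.wt * ψ z := by
    intro z; simp [hh, pt]
  have h1 : ∀ z, h (Fin.last _) z = A.θ z ^ A.wt * φ z := by
    intro z
    simp only [hh]
    rw [← Fin.succ_last]
    simp only [pt, Fin.cases_succ, Fin.lastCases_last]
  have h2 : ∀ i z, h (Fin.succ (Fin.castSucc i)) z = A.num (K i) z * ψ z := by
    intro i z
    simp only [hh, pt, Fin.cases_succ, Fin.lastCases_castSucc]
  have hind : LinearIndependent ℝ fun i => (N : ℂ) • A.lat i := by
    have h3 : (fun i => (N : ℂ) • A.lat i) = fun i => (N : ℝ) • A.lat i := by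
      funext i k
      simp
    rw [h3]
    have hN0 : (N : ℝ) ≠ 0 := by positivity
    exact A.lat_indep.units_smul (fun _ => Units.mk0 (N : ℝ) hN0)
  obtain ⟨d, P, hP, hd, hz⟩ := hADT g (fun i => (N : ℂ) • A.lat i) a' b' h hind
    (fun k => by
      refine Fin.cases ?_ (fun k => ?_) k
      · rw [show h 0 = fun z => A.θ z ^ A.wt * ψ z from funext h0]
        exact (A.θ_entire.pow _).mul hψ
      · refine Fin.lastCases ?_ (fun k => ?_) k
        · rw [Fin.succ_last, show h (Fin.last _) = fun z => A.θ z ^ A.wt * φ z from funext h1]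
          exact (A.θ_entire.pow _).mul hφ
        · rw [show h (Fin.succ (Fin.castSucc k)) = fun z => A.num (K k) z * ψ z from
            funext (h2 k)]
          exact (A.num_entire _).mul hψ)
    (fun k i z => by
      rw [hexp]
      refine Fin.cases ?_ (fun k => ?_) k
      · rw [h0, h0, hθ, aψ]
        ring
      · refine Fin.lastCases ?_ (fun k => ?_) k
        · rw [Fin.succ_last, h1, h1, hθ, aφ]
          ring
        · rw [h2, h2, hnum, aψ]
          ring)
  refine ⟨MvPolynomial.bind₁ (sub g) P, sub_ne_zero hP hd, fun z hθz hψz => ?_⟩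
  rw [eval_sub]
  simp only [Option.elim]
  have hne : A.θ z ^ A.wt * ψ z ≠ 0 := mul_ne_zero (pow_ne_zero _ hθz) hψz
  have h3 := hz z
  have h4 : (fun k => h k z) = fun k => (A.θ z ^ A.wt * ψ z) *
      pt 1 (φ z / ψ z) (fun i => A.f (K i) z) k := by
    funext k
    have hθ' : A.θ z ^ A.wt ≠ 0 := pow_ne_zero _ hθz
    refine Fin.cases ?_ (fun k => ?_) k
    · rw [h0]
      simp [pt]
    · refine Fin.lastCases ?_ (fun k => ?_) k
      · rw [Fin.succ_last, h1, ← Fin.succ_last]
        simp only [pt, Fin.cases_succ, Fin.lastCases_last]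
        field_simp
      · rw [h2]
        simp only [pt, Fin.cases_succ, Fin.lastCases_castSucc, DRB.AbVar.f]
        field_simp
  rw [h4, eval_smul_hom hd] at h3
  exact (mul_eq_zero.1 h3).resolve_left (pow_ne_zero _ hne)

end

end Pool.Agent.SPF
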