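import Pool.Agent.SPF.OutKit

set_option linter.unusedSectionVars false
set_option autoImplicit false

/-!
# SCA: positive rational multiples of the form
-/

open scoped BigOperators
open Complex

namespace Pool.Agent.SPF

noncomputable section

namespace SCA_

section scale

variable {V : Type} [AddCommGroup V] [Module ℚ V] {ι : Type} [Fintype ι] [DecidableEq ι]

/-- symplectic bases and positive structures for multiples of the form -/
theorem scal {e : V →ₗ[ℚ] V →ₗ[ℚ] ℚ} {B : Module.Basis (ι ⊕ ι) ℚ V} {ζ L : V →ₗ[ℚ] (ι → ℂ)}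
    (hB : SympBasis e B) (hL : IsPStr e B ζ L) (q : ℚ) (hq : 0 < q) :
    ∃ (B' : Module.Basis (ι ⊕ ι) ℚ V) (L' : V →ₗ[ℚ] (ι → ℂ)),
      SympBasis (q • e) B' ∧ IsPStr (q • e) B' ζ L' := by
  have hq0 : q ≠ 0 := hq.ne'
  set u : ι ⊕ ι → ℚˣ := Sum.elim (fun _ => 1) (fun _ => (Units.mk0 q hq0)⁻¹) with hu
  have hB' : ∀ j, (B.unitsSMul u) j = ((u j : ℚˣ) : ℚ) • B j := by
    intro j
    rw [Module.Basis.unitsSMul_apply]
    rfl
  refine ⟨B.unitsSMul u, q • L, ?_, ?_⟩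
  · constructor
    · intro x
      simp [LinearMap.smul_apply, hB.alt x]
    · intro i j
      rw [hB', hB']
      simp [LinearMap.smul_apply, hB.ll i j]
    · intro i j
      rw [hB', hB']
      simp [LinearMap.smul_apply, hB.rr i j]
    · intro i j
      rw [hB', hB']
      simp only [hu, Sum.elim_inl, Sum.elim_inr, Units.val_one, one_smul, LinearMap.smul_apply,
        map_smul, smul_eq_mul, hB.lr i j, Units.val_inv_eq_inv_val, Units.val_mk0]
      split_ifs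
      · field_simp
      · simp
  · constructor
    · intro x y
      have h := hL.rel x y
      have e1 : ∀ z w : V, dotp ((q • L) z) (ζ w) = (q : ℂ) * dotp (L z) (ζ w) := by
        intro z w
        rw [← dotp_smul_left, LinearMap.smul_apply]
        congr 1
      rw [e1, e1, ← mul_sub, h, LinearMap.smul_apply, LinearMap.smul_apply, smul_eq_mul]
      push_cast
      ring
    · intro r hr
      have h := hL.pos (fun j => r j * (((u j : ℚˣ) : ℚ) : ℝ)) (by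
        intro h0
        apply hr
        funext j
        have h1 := congrFun h0 j
        simp only [Pi.zero_apply, mul_eq_zero] at h1
        rcases h1 with h1 | h1
        · exact h1
        · exfalso
          have : ((u j : ℚˣ) : ℚ) ≠ 0 := (u j).ne_zero
          exact this (by exact_mod_cast h1))
      have e2 : (∑ j, ∑ k, (r j : ℂ) * (r k : ℂ) *
          dotp ((q • L) ((B.unitsSMul u) j)) (ζ ((B.unitsSMul u) k))) =
          ((q : ℝ) : ℂ) * ∑ j, ∑ k, ((r j * (((u j : ℚˣ) : ℚ) : ℝ) : ℝ) : ℂ) *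
            ((r k * (((u k : ℚˣ) : ℚ) : ℝ) : ℝ) : ℂ) * dotp (L (B j)) (ζ (B k)) := by
        rw [Finset.mul_sum]
        refine Finset.sum_congr rfl fun j _ => ?_
        rw [Finset.mul_sum]
        refine Finset.sum_congr rfl fun k _ => ?_
        have e3 : dotp ((q • L) ((B.unitsSMul u) j)) (ζ ((B.unitsSMul u) k)) =
            (q : ℂ) * ((((u j : ℚˣ) : ℚ) : ℂ) * ((((u k : ℚˣ) : ℚ) : ℂ) *
              dotp (L (B j)) (ζ (B k)))) := by
          rw [← dotp_smul_right, ← dotp_smul_left, ← dotp_smul_left]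
          rw [hB', hB', LinearMap.smul_apply, map_smul, map_smul]
          congr 1
        rw [e3]
        push_cast
        ring
      rw [e2, Complex.re_ofReal_mul]
      exact mul_pos (by exact_mod_cast hq) h

end scale

section quat

variable {V : Type} [AddCommGroup V] [Module ℚ V] {ι : Type} [Fintype ι] [DecidableEq ι]

/-- the quaternion matrix -/
def RR (a b c d : ℚ) : ((V × V) × (V × V)) →ₗ[ℚ] ((V × V) × (V × V)) where
  toFun := fun x => ((a • x.1.1 - b • x.1.2 - c • x.2.1 - d • x.2.2,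
    b • x.1.1 + a • x.1.2 - d • x.2.1 + c • x.2.2),
    (c • x.1.1 + d • x.1.2 + a • x.2.1 - b • x.2.2,
    d • x.1.1 - c • x.1.2 + b • x.2.1 + a • x.2.2))
  map_add' := by
    rintro ⟨⟨x1, x2⟩, ⟨x3, x4⟩⟩ ⟨⟨y1, y2⟩, ⟨y3, y4⟩⟩
    simp only [Prod.mk_add_mk, Prod.mk.injEq]
    refine ⟨⟨?_, ?_⟩, ?_, ?_⟩ <;> module
  map_smul' := by
    rintro r ⟨⟨x1, x2⟩, ⟨x3, x4⟩⟩
    simp only [Prod.smul_mk, Prod.mk.injEq, RingHom.id_apply]
    refine ⟨⟨?_, ?_⟩, ?_, ?_⟩ <;> module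

theorem RR_apply (a b c d : ℚ) (x1 x2 x3 x4 : V) : RR a b c d ((x1, x2), (x3, x4)) =
    ((a • x1 - b • x2 - c • x3 - d • x4, b • x1 + a • x2 - d • x3 + c • x4),
    (c • x1 + d • x2 + a • x3 - b • x4, d • x1 - c • x2 + b • x3 + a • x4)) := rfl

/-- the transposed quaternion matrix -/
def RT (a b c d : ℚ) : ((V × V) × (V × V)) →ₗ[ℚ] ((V × V) × (V × V)) where
  toFun := fun x => ((a • x.1.1 + b • x.1.2 + c • x.2.1 + d • x.2.2,
    -b • x.1.1 + a • x.1.2 + d • x.2.1 - c • x.2.2),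
    (-c • x.1.1 - d • x.1.2 + a • x.2.1 + b • x.2.2,
    -d • x.1.1 + c • x.1.2 - b • x.2.1 + a • x.2.2))
  map_add' := by
    rintro ⟨⟨x1, x2⟩, ⟨x3, x4⟩⟩ ⟨⟨y1, y2⟩, ⟨y3, y4⟩⟩
    simp only [Prod.mk_add_mk, Prod.mk.injEq]
    refine ⟨⟨?_, ?_⟩, ?_, ?_⟩ <;> module
  map_smul' := by
    rintro r ⟨⟨x1, x2⟩, ⟨x3, x4⟩⟩
    simp only [Prod.smul_mk, Prod.mk.injEq, RingHom.id_apply]
    refine ⟨⟨?_, ?_⟩, ?_, ?_⟩ <;> module

theorem RT_apply (a b c d : ℚ) (x1 x2 x3 x4 : V) : RT a b c d ((x1, x2), (x3, x4)) =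
    ((a • x1 + b • x2 + c • x3 + d • x4, -b • x1 + a • x2 + d • x3 - c • x4),
    (-c • x1 - d • x2 + a • x3 + b • x4, -d • x1 + c • x2 - b • x3 + a • x4)) := rfl

theorem RT_RR (a b c d : ℚ) (x : (V × V) × (V × V)) :
    RT a b c d (RR a b c d x) = (a ^ 2 + b ^ 2 + c ^ 2 + d ^ 2) • x := by
  obtain ⟨⟨x1, x2⟩, ⟨x3, x4⟩⟩ := x
  rw [RR_apply, RT_apply]
  simp only [Prod.smul_mk, Prod.mk.injEq]
  refine ⟨⟨?_, ?_⟩, ?_, ?_⟩ <;> module

theorem RR_RT (a b c d : ℚ) (x : (V × V) × (V × V)) :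
    RR a b c d (RT a b c d x) = (a ^ 2 + b ^ 2 + c ^ 2 + d ^ 2) • x := by
  obtain ⟨⟨x1, x2⟩, ⟨x3, x4⟩⟩ := x
  rw [RT_apply, RR_apply]
  simp only [Prod.smul_mk, Prod.mk.injEq]
  refine ⟨⟨?_, ?_⟩, ?_, ?_⟩ <;> module

/-- the quaternion matrix as an equivalence -/
def RE (a b c d : ℚ) (h : a ^ 2 + b ^ 2 + c ^ 2 + d ^ 2 ≠ 0) :
    ((V × V) × (V × V)) ≃ₗ[ℚ] ((V × V) × (V × V)) :=
  LinearEquiv.ofLinearMap (RR a b c d) ((a ^ 2 + b ^ 2 + c ^ 2 + d ^ 2)⁻¹ • RT a b c d)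
    (by
      apply LinearMap.ext
      intro x
      rw [LinearMap.comp_apply, LinearMap.smul_apply, map_smul, RR_RT, smul_smul,
        inv_mul_cancel₀ h, one_smul, LinearMap.id_apply])
    (by
      apply LinearMap.ext
      intro x
      rw [LinearMap.comp_apply, LinearMap.smul_apply, RT_RR, smul_smul,
        inv_mul_cancel₀ h, one_smul, LinearMap.id_apply])

theorem RE_apply (a b c d : ℚ) (h : a ^ 2 + b ^ 2 + c ^ 2 + d ^ 2 ≠ 0)
    (x : (V × V) × (V × V)) : RE a b c d h x = RR a b c d x := rfl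

theorem e4_RR (e : V →ₗ[ℚ] V →ₗ[ℚ] ℚ) (a b c d : ℚ) (x y : (V × V) × (V × V)) :
    eSum (eSum e e) (eSum e e) (RR a b c d x) (RR a b c d y) =
      (a ^ 2 + b ^ 2 + c ^ 2 + d ^ 2) * eSum (eSum e e) (eSum e e) x y := by
  obtain ⟨⟨x1, x2⟩, ⟨x3, x4⟩⟩ := x
  obtain ⟨⟨y1, y2⟩, ⟨y3, y4⟩⟩ := y
  rw [RR_apply, RR_apply]
  simp only [eSum, LinearMap.add_apply, LinearMap.compl₁₂_apply, LinearMap.fst_apply,
    LinearMap.snd_apply, map_add, map_sub, map_smul, LinearMap.smul_apply, LinearMap.sub_apply,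
    smul_eq_mul]
  ring

/-- the matrix on the coordinates -/
def NM (ι : Type) [DecidableEq ι] (a b c d : ℂ) :
    Matrix ((ι ⊕ ι) ⊕ (ι ⊕ ι)) ((ι ⊕ ι) ⊕ (ι ⊕ ι)) ℂ :=
  Matrix.fromBlocks
    (Matrix.fromBlocks (a • (1 : Matrix ι ι ℂ)) (-b • (1 : Matrix ι ι ℂ))
      (b • (1 : Matrix ι ι ℂ)) (a • (1 : Matrix ι ι ℂ)))
    (Matrix.fromBlocks (-c • (1 : Matrix ι ι ℂ)) (-d • (1 : Matrix ι ι ℂ))
      (-d • (1 : Matrix ι ι ℂ)) (c • (1 : Matrix ι ι ℂ)))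
    (Matrix.fromBlocks (c • (1 : Matrix ι ι ℂ)) (d • (1 : Matrix ι ι ℂ))
      (d • (1 : Matrix ι ι ℂ)) (-c • (1 : Matrix ι ι ℂ)))
    (Matrix.fromBlocks (a • (1 : Matrix ι ι ℂ)) (-b • (1 : Matrix ι ι ℂ))
      (b • (1 : Matrix ι ι ℂ)) (a • (1 : Matrix ι ι ℂ)))

theorem NM_mul (a b c d : ℂ) : (NM ι a b c d).transpose * NM ι a b c d =
    (a ^ 2 + b ^ 2 + c ^ 2 + d ^ 2) • (1 : Matrix ((ι ⊕ ι) ⊕ (ι ⊕ ι)) ((ι ⊕ ι) ⊕ (ι ⊕ ι)) ℂ) := by
  have h1 : ∀ u : ℂ, (u • (1 : Matrix ι ι ℂ)).transpose = u • (1 : Matrix ι ι ℂ) := by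
    intro u
    rw [Matrix.transpose_smul, Matrix.transpose_one]
  have h2 : ∀ u v : ℂ, (u • (1 : Matrix ι ι ℂ)) * (v • (1 : Matrix ι ι ℂ)) =
      (u * v) • (1 : Matrix ι ι ℂ) := by
    intro u v
    rw [Matrix.smul_mul, Matrix.mul_smul, Matrix.one_mul, smul_smul]
  have h3 : (1 : Matrix ((ι ⊕ ι) ⊕ (ι ⊕ ι)) ((ι ⊕ ι) ⊕ (ι ⊕ ι)) ℂ) =
      Matrix.fromBlocks (Matrix.fromBlocks 1 0 0 1) 0 0 (Matrix.fromBlocks 1 0 0 1) := by
    rw [Matrix.fromBlocks_one, Matrix.fromBlocks_one]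
  have h0 : (0 : Matrix (ι ⊕ ι) (ι ⊕ ι) ℂ) = Matrix.fromBlocks 0 0 0 0 := by
    rw [Matrix.fromBlocks_zero]
  rw [h3]
  simp only [NM, Matrix.fromBlocks_transpose, h1, Matrix.fromBlocks_multiply, h2,
    Matrix.fromBlocks_add, Matrix.fromBlocks_smul, smul_zero, ← add_smul]
  rw [h0]
  congr 2 <;> first
    | (congr 1; ring1)
    | (refine (congrArg (fun t : ℂ => t • (1 : Matrix ι ι ℂ)) ?_).trans (zero_smul ℂ _); ring1)

theorem NM_mulVec (ζ : V →ₗ[ℚ] (ι → ℂ)) (a b c d : ℚ) (x : (V × V) × (V × V)) :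
    zSum (zSum ζ ζ) (zSum ζ ζ) (RR a b c d x) =
      (NM ι a b c d).mulVec (zSum (zSum ζ ζ) (zSum ζ ζ) x) := by
  obtain ⟨⟨x1, x2⟩, ⟨x3, x4⟩⟩ := x
  have h : ∀ u : V × V, ∀ v : V × V, zSum (zSum ζ ζ) (zSum ζ ζ) (u, v) =
      Sum.elim (Sum.elim (ζ u.1) (ζ u.2)) (Sum.elim (ζ v.1) (ζ v.2)) := fun _ _ => rfl
  rw [RR_apply, h, h]
  simp only [NM, Matrix.fromBlocks_mulVec, Sum.elim_comp_inl, Sum.elim_comp_inr,
    Matrix.smul_mulVec, Matrix.one_mulVec]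
  funext i
  rcases i with (i | i) | (i | i) <;>
    simp only [Sum.elim_inl, Sum.elim_inr, Pi.add_apply, map_add, map_sub, map_smul,
      Pi.sub_apply, Pi.smul_apply, Rat.smul_def, smul_eq_mul] <;> ring

end quat

end SCA_

theorem sca_proof (hSUM : Stmt_SUM) (hLIN : Stmt_LIN) : Stmt_SCA := by
  intro V iV1 iV2 ι i3 i4 e ζ c q hq hS
  have hc : ∀ i, c i ≠ 0 := hS.1
  -- natural multiples
  have hnat : ∀ n : ℕ, 0 < n → SS ((n : ℚ) • e) ζ c := by
    intro n hn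
    obtain ⟨a, b, c', d, hN⟩ := Nat.sum_four_squares n
    have hNq : ((a : ℚ)) ^ 2 + (b : ℚ) ^ 2 + (c' : ℚ) ^ 2 + (d : ℚ) ^ 2 = (n : ℚ) := by
      exact_mod_cast hN
    have hn0 : ((a : ℚ)) ^ 2 + (b : ℚ) ^ 2 + (c' : ℚ) ^ 2 + (d : ℚ) ^ 2 ≠ 0 := by
      rw [hNq]
      exact_mod_cast hn.ne'
    have hnpos : (0 : ℚ) < n := by exact_mod_cast hn
    obtain ⟨-, B, L, F, hB, hL, hF, hF0, hD⟩ := id hS
    have hS2 : SS (eSum e e) (zSum ζ ζ) (Sum.elim c c) :=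
      (hSUM V V ι ι e e B B ζ L ζ L c c hB hL hB hL).2 ⟨hS, hS⟩
    obtain ⟨-, B2, L2, F2, hB2, hL2, hF2, hF20, hD2⟩ := id hS2
    have hS4 : SS (eSum (eSum e e) (eSum e e)) (zSum (zSum ζ ζ) (zSum ζ ζ))
        (Sum.elim (Sum.elim c c) (Sum.elim c c)) :=
      (hSUM (V × V) (V × V) (ι ⊕ ι) (ι ⊕ ι) _ _ B2 B2 _ L2 _ L2 _ _ hB2 hL2 hB2 hL2).2
        ⟨hS2, hS2⟩
    have hsum : ∀ (W W' : Type) [AddCommGroup W] [Module ℚ W] [AddCommGroup W'] [Module ℚ W']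
        (f : W →ₗ[ℚ] W →ₗ[ℚ] ℚ) (f' : W' →ₗ[ℚ] W' →ₗ[ℚ] ℚ) (r : ℚ),
        r • eSum f f' = eSum (r • f) (r • f') := by
      intro W W' _ _ _ _ f f' r
      apply LinearMap.ext
      intro x
      apply LinearMap.ext
      intro y
      simp [eSum]
    have hS4' : SS ((n : ℚ) • eSum (eSum e e) (eSum e e)) (zSum (zSum ζ ζ) (zSum ζ ζ))
        (Sum.elim (Sum.elim c c) (Sum.elim c c)) := by
      have hncomplex : ((a : ℂ)) ^ 2 + (b : ℂ) ^ 2 + (c' : ℂ) ^ 2 + (d : ℂ) ^ 2 = (n : ℂ) := by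
        exact_mod_cast hN
      have hnC : (n : ℂ) ≠ 0 := by exact_mod_cast hn.ne'
      have hMN : ((n : ℂ)⁻¹ • (SCA_.NM ι (a : ℂ) b c' d).transpose) *
          SCA_.NM ι (a : ℂ) b c' d = 1 := by
        rw [Matrix.smul_mul, SCA_.NM_mul, hncomplex, smul_smul, inv_mul_cancel₀ hnC, one_smul]
      refine hLIN _ _ _ (eSum (eSum e e) (eSum e e)) _ (SCA_.RE (a : ℚ) b c' d hn0)
        (zSum (zSum ζ ζ) (zSum ζ ζ)) (zSum (zSum ζ ζ) (zSum ζ ζ))
        ((n : ℂ)⁻¹ • (SCA_.NM ι (a : ℂ) b c' d).transpose) (SCA_.NM ι (a : ℂ) b c' d)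
        (Sum.elim (Sum.elim c c) (Sum.elim c c)) _ ?_ hMN ?_ ?_ ?_ hS4
      · intro x y
        rw [SCA_.RE_apply, SCA_.RE_apply, SCA_.e4_RR, hNq, LinearMap.smul_apply,
          LinearMap.smul_apply, smul_eq_mul]
      · intro x
        rw [SCA_.RE_apply]
        have h5 := SCA_.NM_mulVec ζ (a : ℚ) b c' d x
        push_cast at h5
        rw [h5, Matrix.mulVec_mulVec, hMN, Matrix.one_mulVec]
      · rintro ((j | j) | (j | j)) <;> simpa using hc j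
      · have hA : ∀ (t : ℂ) (i j : ι), Alg t →
            Alg ((t • (1 : Matrix ι ι ℂ)) i j * c i / c j) := by
          intro t i j ht
          by_cases hij : i = j
          · subst hij
            have : (t • (1 : Matrix ι ι ℂ)) i i * c i / c i = t := by
              rw [Matrix.smul_apply, Matrix.one_apply_eq, smul_eq_mul, mul_one,
                mul_div_cancel_right₀ _ (hc i)]
            rw [this]
            exact ht
          · have : (t • (1 : Matrix ι ι ℂ)) i j * c i / c j = 0 := by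
              rw [Matrix.smul_apply, Matrix.one_apply_ne hij, smul_zero, zero_mul, zero_div]
            rw [this]
            exact isAlgebraic_zero
        have hnatA : ∀ t : ℕ, Alg (t : ℂ) := fun t => isAlgebraic_natCast t
        rintro ((i | i) | (i | i)) ((j | j) | (j | j)) <;>
          simp only [SCA_.NM, Matrix.fromBlocks_apply₁₁, Matrix.fromBlocks_apply₁₂,
            Matrix.fromBlocks_apply₂₁, Matrix.fromBlocks_apply₂₂, Sum.elim_inl, Sum.elim_inr] <;>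
          first
            | exact hA _ i j (hnatA _)
            | exact hA _ i j (hnatA _).neg
    rw [hsum] at hS4'
    obtain ⟨B2', L2', hB2', hL2'⟩ := SCA_.scal hB2 hL2 (n : ℚ) hnpos
    have hS2' := ((hSUM (V × V) (V × V) (ι ⊕ ι) (ι ⊕ ι) _ _ B2' B2' _ L2' _ L2' _ _ hB2' hL2'
      hB2' hL2').1 hS4').1
    rw [hsum] at hS2'
    obtain ⟨B', L', hB', hL'⟩ := SCA_.scal hB hL (n : ℚ) hnpos
    exact ((hSUM V V ι ι _ _ B' B' ζ L' ζ L' c c hB' hL' hB' hL').1 hS2').1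
  -- the general case
  have hnum : 0 < q.num := Rat.num_pos.2 hq
  have hden : 0 < q.den := q.den_pos
  have hab := hnat (q.num.toNat * q.den) (Nat.mul_pos (by omega) hden)
  have hd0 : (q.den : ℚ) ≠ 0 := by exact_mod_cast hden.ne'
  have hdC : (q.den : ℂ) ≠ 0 := by exact_mod_cast hden.ne'
  have hval : ((q.num.toNat * q.den : ℕ) : ℚ) = q * (q.den : ℚ) ^ 2 := by
    have h1 : ((q.num.toNat : ℕ) : ℚ) = (q.num : ℚ) := by
      have : ((q.num.toNat : ℕ) : ℤ) = q.num := Int.toNat_of_nonneg hnum.le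
      exact_mod_cast congrArg (fun z : ℤ => (z : ℚ)) this
    rw [Nat.cast_mul, h1]
    have h2 : q * (q.den : ℚ) = q.num := Rat.mul_den_eq_num q
    rw [pow_two, ← mul_assoc, h2]
  refine hLIN V V ι _ _ (LinearEquiv.smulOfNeZero ℚ V ((q.den : ℚ)⁻¹) (inv_ne_zero hd0)) ζ ζ
    ((q.den : ℂ) • (1 : Matrix ι ι ℂ)) ((q.den : ℂ)⁻¹ • (1 : Matrix ι ι ℂ)) c c ?_ ?_ ?_ hc ?_ hab
  · intro x y
    rw [LinearEquiv.smulOfNeZero_apply, LinearEquiv.smulOfNeZero_apply]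
    simp only [LinearMap.smul_apply, map_smul, smul_eq_mul]
    rw [hval]
    field_simp
  · rw [Matrix.smul_mul, Matrix.mul_smul, smul_smul, mul_inv_cancel₀ hdC, one_smul,
      Matrix.one_mul]
  · intro x
    rw [LinearEquiv.smulOfNeZero_apply, map_smul, Matrix.smul_mulVec, Matrix.one_mulVec]
    funext i
    simp only [Pi.smul_apply, Rat.smul_def, smul_eq_mul]
    push_cast
    rw [← mul_assoc, mul_inv_cancel₀ hdC, one_mul]
  · intro i j
    by_cases hij : i = j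
    · subst hij
      have : ((q.den : ℂ)⁻¹ • (1 : Matrix ι ι ℂ)) i i * c i / c i = (q.den : ℂ)⁻¹ := by
        rw [Matrix.smul_apply, Matrix.one_apply_eq, smul_eq_mul, mul_one,
          mul_div_cancel_right₀ _ (hc i)]
      rw [this]
      exact (isAlgebraic_natCast q.den).inv
    · have : ((q.den : ℂ)⁻¹ • (1 : Matrix ι ι ℂ)) i j * c i / c j = 0 := by
        rw [Matrix.smul_apply, Matrix.one_apply_ne hij, smul_zero, zero_mul, zero_div]
      rw [this]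
      exact isAlgebraic_zero

end

end Pool.Agent.SPF
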