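import Pool.Agent.SPF.OutKit

set_option linter.unusedSectionVars false
set_option linter.unusedSimpArgs false
set_option linter.unusedVariables false

/-!
# SIG: the theta function of degree one of an elliptic curve is the sigma function
-/

open scoped BigOperators Topology
open Complex Filter

namespace Pool.Agent.SPF

namespace SIG_

noncomputable section

variable (P : PeriodPair)

/-- the constant -/
def Cc : ℂ := Real.pi / ((starRingEnd ℂ) P.ω₁ * P.ω₂).im

/-- the exponential factor -/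
def EE (ω z : ℂ) : ℂ :=
  cexp (Real.pi / ((starRingEnd ℂ) P.ω₁ * P.ω₂).im * (starRingEnd ℂ) ω * (z + ω / 2))

/-- degree one -/
def Sg (f : ℂ → ℂ) : Prop :=
  Differentiable ℂ f ∧ ∀ ω, (ω = P.ω₁ ∨ ω = P.ω₂) → ∀ z, f (z + ω) = -EE P ω z * f z

/-- degree two -/
def S2 (f : ℂ → ℂ) : Prop :=
  Differentiable ℂ f ∧ ∀ ω, (ω = P.ω₁ ∨ ω = P.ω₂) → ∀ z, f (z + ω) = EE P ω z ^ 2 * f z

theorem EE_eq (ω z : ℂ) : EE P ω z = cexp (Cc P * (starRingEnd ℂ) ω * (z + ω / 2)) := rfl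

theorem EE_ne (ω z : ℂ) : EE P ω z ≠ 0 := Complex.exp_ne_zero _

/-- the imaginary part of `conj ω₁ * ω₂` is positive -/
theorem im_pos (h : 0 < (P.ω₂ / P.ω₁).im) : 0 < ((starRingEnd ℂ) P.ω₁ * P.ω₂).im := by
  have h1 : P.ω₁ ≠ 0 := by
    rintro h0
    rw [h0] at h
    simp at h
  have h2 : (starRingEnd ℂ) P.ω₁ * P.ω₂ = (normSq P.ω₁ : ℂ) * (P.ω₂ / P.ω₁) := by
    rw [Complex.normSq_eq_conj_mul_self]
    field_simp
  rw [h2, Complex.im_ofReal_mul]
  exact mul_pos (Complex.normSq_pos.2 h1) h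

theorem Cc_eq : Cc P = ((Real.pi / ((starRingEnd ℂ) P.ω₁ * P.ω₂).im : ℝ) : ℂ) := by
  unfold Cc
  push_cast
  rfl

theorem ip_eq : (starRingEnd ℂ) P.ω₁ * P.ω₂ - (starRingEnd ℂ) P.ω₂ * P.ω₁ =
    2 * I * (((starRingEnd ℂ) P.ω₁ * P.ω₂).im : ℂ) := by
  apply Complex.ext <;> simp <;> ring

theorem Cc_ip (h : 0 < (P.ω₂ / P.ω₁).im) :
    Cc P * ((starRingEnd ℂ) P.ω₁ * P.ω₂ - (starRingEnd ℂ) P.ω₂ * P.ω₁) = 2 * Real.pi * I := by
  rw [ip_eq]
  unfold Cc
  have h1 : ((((starRingEnd ℂ) P.ω₁ * P.ω₂).im : ℝ) : ℂ) ≠ 0 := by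
    exact_mod_cast (im_pos P h).ne'
  field_simp

/-- the coordinate map -/
def ZZ : (ℚ × ℚ) →ₗ[ℚ] (Fin 1 → ℂ) := z0 P.ω₁ P.ω₂

/-- the antilinear map -/
def LL : (ℚ × ℚ) →ₗ[ℚ] (Fin 1 → ℂ) := z0 (Cc P * (starRingEnd ℂ) P.ω₁) (Cc P * (starRingEnd ℂ) P.ω₂)

/-- the standard basis -/
def BB : Module.Basis (Fin 1 ⊕ Fin 1) ℚ (ℚ × ℚ) :=
  (Module.Basis.singleton (Fin 1) ℚ).prod (Module.Basis.singleton (Fin 1) ℚ)

theorem BB_inl (i : Fin 1) : BB (Sum.inl i) = (1, 0) := by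
  unfold BB
  ext <;> simp

theorem BB_inr (i : Fin 1) : BB (Sum.inr i) = (0, 1) := by
  unfold BB
  ext <;> simp

theorem e0_apply (x y : ℚ × ℚ) : e0 x y = x.1 * y.2 - x.2 * y.1 := rfl

theorem ZZ_apply (x : ℚ × ℚ) (i : Fin 1) : ZZ P x i = (x.1 : ℂ) * P.ω₁ + (x.2 : ℂ) * P.ω₂ := rfl

theorem LL_apply (x : ℚ × ℚ) (i : Fin 1) :
    LL P x i = (x.1 : ℂ) * (Cc P * (starRingEnd ℂ) P.ω₁) + (x.2 : ℂ) * (Cc P * (starRingEnd ℂ) P.ω₂) := rfl

theorem dotp1 (a z : Fin 1 → ℂ) : dotp a z = a 0 * z 0 := by simp [dotp]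

theorem symp : SympBasis e0 BB := by
  constructor
  · intro x; rw [e0_apply]; ring
  · intro i j; rw [BB_inl, BB_inl, e0_apply]; norm_num
  · intro i j; rw [BB_inr, BB_inr, e0_apply]; norm_num
  · intro i j
    rw [BB_inl, BB_inr, e0_apply, if_pos (Subsingleton.elim _ _)]
    norm_num

theorem pstr (h : 0 < (P.ω₂ / P.ω₁).im) : IsPStr e0 BB (ZZ P) (LL P) := by
  constructor
  · intro x y
    rw [dotp1, dotp1, ZZ_apply, ZZ_apply, LL_apply, LL_apply, e0_apply]
    have h1 := Cc_ip P h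
    push_cast
    linear_combination ((x.1 : ℂ) * y.2 - x.2 * y.1) * h1
  · intro r hr
    have h1 : (∑ j, ∑ k, (r j : ℂ) * (r k : ℂ) * dotp (LL P (BB j)) (ZZ P (BB k))) =
        ((Real.pi / ((starRingEnd ℂ) P.ω₁ * P.ω₂).im : ℝ) : ℂ) *
          (normSq ((r (Sum.inl 0) : ℂ) * P.ω₁ + (r (Sum.inr 0) : ℂ) * P.ω₂) : ℂ) := by
      rw [← Cc_eq, Complex.normSq_eq_conj_mul_self]
      simp only [Fintype.sum_sum_type, Finset.univ_unique, Finset.sum_singleton, Fin.default_eq_zero,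
        dotp1, LL_apply, ZZ_apply, BB_inl, BB_inr, map_add, map_mul, Complex.conj_ofReal]
      push_cast
      ring
    rw [h1, Complex.re_ofReal_mul, Complex.ofReal_re]
    refine mul_pos (div_pos Real.pi_pos (im_pos P h)) (Complex.normSq_pos.2 ?_)
    intro h0
    apply hr
    have h2 := LinearIndependent.pair_iff.mp P.indep (r (Sum.inl 0)) (r (Sum.inr 0)) (by
      simpa [Complex.real_smul] using h0)
    funext j
    rcases j with j | j
    · rw [Subsingleton.elim j 0]; exact h2.1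
    · rw [Subsingleton.elim j 0]; exact h2.2

/-- functions of one variable -/
def up (f : ℂ → ℂ) : (Fin 1 → ℂ) → ℂ := fun v => f (v 0)

theorem up_diff {f : ℂ → ℂ} (hf : Differentiable ℂ f) : Differentiable ℂ (up f) := by
  unfold up
  fun_prop

theorem TTk_up (k : ℕ) (x : ℚ × ℚ) (f : ℂ → ℂ) (v : Fin 1 → ℂ) (ω : ℂ)
    (hω : (x.1 : ℂ) * P.ω₁ + (x.2 : ℂ) * P.ω₂ = ω) :
    TT (ZZ P) (⇑(k • LL P)) x (up f) v = (EE P ω (v 0) ^ k)⁻¹ * f (v 0 + ω) := by
  have hc : (x.1 : ℂ) * (starRingEnd ℂ) P.ω₁ + (x.2 : ℂ) * (starRingEnd ℂ) P.ω₂ =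
      (starRingEnd ℂ) ω := by
    rw [← hω]
    simp
  unfold TT up
  rw [nsmul_L_apply, dotp_nsmul_left, dotp_nsmul_left, dotp1, dotp1, LL_apply, ZZ_apply, hω, EE_eq,
    ← Complex.exp_nat_mul, ← Complex.exp_neg]
  have h1 : (v + ZZ P x) 0 = v 0 + ω := by
    rw [Pi.add_apply, ZZ_apply, hω]
  rw [h1]
  congr 2
  linear_combination (-(k : ℂ) * Cc P * (v 0 + ω / 2)) * hc

theorem TT_up (x : ℚ × ℚ) (f : ℂ → ℂ) (v : Fin 1 → ℂ) (ω : ℂ)
    (hω : (x.1 : ℂ) * P.ω₁ + (x.2 : ℂ) * P.ω₂ = ω) :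
    TT (ZZ P) (LL P) x (up f) v = (EE P ω (v 0))⁻¹ * f (v 0 + ω) := by
  have := TTk_up P 1 x f v ω hω
  rwa [one_nsmul, pow_one] at this

theorem S2_isTk {g : ℂ → ℂ} (hg : S2 P g) : IsTk e0 (ZZ P) (LL P) BB 2 0 (up g) := by
  refine ⟨up_diff hg.1, ?_⟩
  intro j v
  rw [map_zero, Rat.cast_zero, mul_zero, Complex.exp_zero, one_mul]
  rcases j with j | j
  · rw [BB_inl, TTk_up P 2 _ g v P.ω₁ (by simp), hg.2 _ (Or.inl rfl), ← mul_assoc,
      inv_mul_cancel₀ (pow_ne_zero _ (EE_ne P _ _)), one_mul]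
    rfl
  · rw [BB_inr, TTk_up P 2 _ g v P.ω₂ (by simp), hg.2 _ (Or.inr rfl), ← mul_assoc,
      inv_mul_cancel₀ (pow_ne_zero _ (EE_ne P _ _)), one_mul]
    rfl

theorem dim2 (hD : Stmt_DIM) (h : 0 < (P.ω₂ / P.ω₁).im) (g : Fin 3 → ℂ → ℂ)
    (hg : ∀ a, S2 P (g a)) : ∃ c : Fin 3 → ℂ, c ≠ 0 ∧ ∀ z, ∑ a, c a * g a z = 0 := by
  by_contra hne
  push Not at hne
  have hli : LinearIndependent ℂ (fun a : Fin 3 => up (g a)) := by
    rw [Fintype.linearIndependent_iff]
    intro c hc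
    by_contra hc0
    have hc1 : c ≠ 0 := by
      rintro rfl
      apply hc0
      intro i
      rfl
    obtain ⟨z, hz⟩ := hne c hc1
    apply hz
    have := congrFun hc (fun _ => z)
    simpa [up] using this
  have hcard : 2 ^ Fintype.card (Fin 1) + 1 = 3 := by simp
  have h2 := hD (ℚ × ℚ) (Fin 1) e0 BB (ZZ P) (LL P) symp (pstr P h) 2 0 (by norm_num)
    (fun a => up (g (Fin.cast hcard a))) (fun a => S2_isTk P (hg _))
  exact h2 (hli.comp _ (Fin.cast_injective hcard))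

/-- the half period vector -/
def yy : ℚ × ℚ := (1 / 2, 1 / 2)

theorem exp_BB_yy (j : Fin 1 ⊕ Fin 1) : cexp (2 * Real.pi * I * (e0 (BB j) yy : ℚ)) = -1 := by
  rcases j with j | j
  · rw [BB_inl, e0_apply]
    have : (2 * Real.pi * I * (((1, 0) : ℚ × ℚ).1 * yy.2 - ((1, 0) : ℚ × ℚ).2 * yy.1 : ℚ) : ℂ) =
        Real.pi * I := by
      simp [yy]
      ring
    rw [this, Complex.exp_pi_mul_I]
  · rw [BB_inr, e0_apply]
    have : (2 * Real.pi * I * (((0, 1) : ℚ × ℚ).1 * yy.2 - ((0, 1) : ℚ × ℚ).2 * yy.1 : ℚ) : ℂ) =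
        -(Real.pi * I) := by
      simp [yy]
      ring
    rw [this, Complex.exp_neg, Complex.exp_pi_mul_I]
    norm_num

theorem Sg_TT {f : ℂ → ℂ} (hf : Sg P f) (j : Fin 1 ⊕ Fin 1) :
    TT (ZZ P) (LL P) (BB j) (up f) = fun v => (-1) * up f v := by
  funext v
  rcases j with j | j
  · rw [BB_inl, TT_up P _ f v P.ω₁ (by simp), hf.2 _ (Or.inl rfl)]
    have := EE_ne P P.ω₁ (v 0)
    unfold up
    field_simp
  · rw [BB_inr, TT_up P _ f v P.ω₂ (by simp), hf.2 _ (Or.inr rfl)]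
    have := EE_ne P P.ω₂ (v 0)
    unfold up
    field_simp

theorem Sg_isTh (h : 0 < (P.ω₂ / P.ω₁).im) {f : ℂ → ℂ} (hf : Sg P f) :
    IsTh (ZZ P) (LL P) BB (TT (ZZ P) (LL P) yy (up f)) := by
  refine ⟨TT_differentiable _ (up_diff hf.1), ?_⟩
  intro j
  funext v
  rw [TT_comm' symp (pstr P h), exp_BB_yy, Sg_TT P hf, TT_smul]
  ring

theorem exists_Sg (hE : Stmt_THE) (h : 0 < (P.ω₂ / P.ω₁).im) : ∃ f, Sg P f ∧ f ≠ 0 := by
  obtain ⟨Θ, -, hΘ⟩ := hE (ℚ × ℚ) (Fin 1) e0 BB (Fin 0) Set.univ (fun _ => ZZ P) (LL P)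
    isOpen_univ (fun x i => differentiableOn_const _) symp (fun s _ => pstr P h)
  obtain ⟨hT, hT0⟩ := hΘ (fun i => i.elim0) trivial
  set T := Θ (fun i => i.elim0) with hTdef
  have hup : ∀ v : Fin 1 → ℂ, (fun _ => v 0) = v := by
    intro v
    funext i
    rw [Subsingleton.elim i 0]
  set f : ℂ → ℂ := fun z => TT (ZZ P) (LL P) yy T (fun _ => z) with hf
  have hupf : up f = TT (ZZ P) (LL P) yy T := by
    funext v
    unfold up
    rw [hf]
    simp only [hup]
  have hd : Differentiable ℂ (TT (ZZ P) (LL P) yy T) := TT_differentiable _ hT.entire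
  refine ⟨f, ⟨?_, ?_⟩, ?_⟩
  · intro z
    have h1 : Differentiable ℂ (fun z : ℂ => (fun _ : Fin 1 => z)) := by fun_prop
    exact (hd _).comp z (h1 z)
  · have key : ∀ j : Fin 1 ⊕ Fin 1, ∀ v, TT (ZZ P) (LL P) (BB j) (up f) v = - up f v := by
      intro j v
      rw [hupf, TT_comm' symp (pstr P h), exp_BB_yy, hT.per j]
      ring
    intro ω hω z
    rcases hω with rfl | rfl
    · have h1 := key (Sum.inl 0) (fun _ => z)
      rw [BB_inl, TT_up P _ f _ P.ω₁ (by simp)] at h1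
      have h2 := EE_ne P P.ω₁ z
      simp only [up] at h1
      field_simp at h1
      linear_combination h1
    · have h1 := key (Sum.inr 0) (fun _ => z)
      rw [BB_inr, TT_up P _ f _ P.ω₂ (by simp)] at h1
      have h2 := EE_ne P P.ω₂ z
      simp only [up] at h1
      field_simp at h1
      linear_combination h1
  · intro h0
    have h1 : TT (ZZ P) (LL P) yy T = 0 := by
      rw [← hupf, h0]
      rfl
    exact hT0 ((TT_eq_iff_ne_zero yy T).1 h1)

theorem uniq_Sg (hU : Stmt_THU) (h : 0 < (P.ω₂ / P.ω₁).im) {f g : ℂ → ℂ} (hf : Sg P f)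
    (hg : Sg P g) (hf0 : f ≠ 0) : ∃ a : ℂ, ∀ z, g z = a * f z := by
  have h1 := Sg_isTh P h hf
  have h2 := Sg_isTh P h hg
  have hf1 : TT (ZZ P) (LL P) yy (up f) ≠ 0 := by
    intro h0
    apply hf0
    have h3 := (TT_eq_iff_ne_zero yy (up f)).1 h0
    funext z
    exact congrFun h3 (fun _ => z)
  obtain ⟨a, ha⟩ := hU (ℚ × ℚ) (Fin 1) e0 BB (ZZ P) (LL P) symp (pstr P h) _ _ h1 h2 hf1
  refine ⟨a, fun z => ?_⟩
  have h3 := congrFun ha ((fun _ => z) - ZZ P yy)
  unfold TT at h3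
  simp only [sub_add_cancel, up] at h3
  have h4 := Complex.exp_ne_zero (-dotp ((LL P) yy) ((fun _ => z) - (ZZ P) yy) -
    dotp ((LL P) yy) ((ZZ P) yy) / 2)
  have h5 : cexp (-dotp ((LL P) yy) ((fun _ => z) - (ZZ P) yy) -
    dotp ((LL P) yy) ((ZZ P) yy) / 2) * g z = cexp (-dotp ((LL P) yy) ((fun _ => z) - (ZZ P) yy) -
    dotp ((LL P) yy) ((ZZ P) yy) / 2) * (a * f z) := by
    rw [h3]; ring
  exact mul_left_cancel₀ h4 h5

open Classical in
/-- the entire function `G ^ 2 * ℘` -/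
def HH (G : ℂ → ℂ) (z : ℂ) : ℂ :=
  if z ∈ P.lattice then (deriv G z) ^ 2 else G z ^ 2 * P.weierstrassP z

theorem HH_in (G : ℂ → ℂ) {z : ℂ} (hz : z ∈ P.lattice) : HH P G z = (deriv G z) ^ 2 := by
  unfold HH
  rw [if_pos hz]

theorem HH_out (G : ℂ → ℂ) {z : ℂ} (hz : z ∉ P.lattice) :
    HH P G z = G z ^ 2 * P.weierstrassP z := by
  unfold HH
  rw [if_neg hz]

theorem HH_diff {G : ℂ → ℂ} (hG : Differentiable ℂ G) (hG0 : ∀ l ∈ P.lattice, G l = 0) :
    Differentiable ℂ (HH P G) := by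
  intro l
  by_cases hl : l ∈ P.lattice
  · have h1 : HH P G =ᶠ[𝓝 l] fun z => (dslope G l z) ^ 2 *
        (1 + (z - l) ^ 2 * (P.weierstrassPExcept l z - 1 / l ^ 2)) := by
      filter_upwards [P.compl_lattice_sdiff_singleton_mem_nhds l] with z hz
      by_cases hzl : z = l
      · rw [hzl, HH_in P G hl, dslope_same]
        ring
      · have hz2 : z ∉ P.lattice := fun h => hz ⟨h, hzl⟩
        rw [HH_out P G hz2, ← P.weierstrassPExcept_add ⟨l, hl⟩ z]
        have h2 : (z - l) • dslope G l z = G z - G l := sub_smul_dslope G l z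
        rw [hG0 l hl, sub_zero, smul_eq_mul] at h2
        have h3 : z - l ≠ 0 := sub_ne_zero.2 hzl
        rw [← h2]
        simp only
        have h4 : ((z - l) * dslope G l z) ^ 2 * (1 / (z - l) ^ 2) = (dslope G l z) ^ 2 := by
          field_simp
        linear_combination h4
    refine DifferentiableAt.congr_of_eventuallyEq ?_ h1
    have h5 : DifferentiableAt ℂ (dslope G l) l := by
      have := (Complex.differentiableOn_dslope (f := G) (c := l) (s := Set.univ) univ_mem).2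
        hG.differentiableOn
      exact this.differentiableAt univ_mem
    have h6 : DifferentiableAt ℂ (P.weierstrassPExcept l) l :=
      (P.analyticAt_weierstrassPExcept l).differentiableAt
    fun_prop
  · have h1 : HH P G =ᶠ[𝓝 l] fun z => G z ^ 2 * P.weierstrassP z := by
      filter_upwards [P.isClosed_lattice.isOpen_compl.mem_nhds hl] with z hz
      exact HH_out P G hz
    refine DifferentiableAt.congr_of_eventuallyEq ?_ h1
    have h6 : DifferentiableAt ℂ P.weierstrassP l :=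
      P.differentiableOn_weierstrassP.differentiableAt
        (P.isClosed_lattice.isOpen_compl.mem_nhds hl)
    have h7 := hG l
    fun_prop

/-- functions quasi-periodic up to sign -/
def QP (G : ℂ → ℂ) : Prop :=
  ∀ ω, (ω = P.ω₁ ∨ ω = P.ω₂) → ∃ ε : ℂ, ε ^ 2 = 1 ∧ ∀ z, G (z + ω) = ε * EE P ω z * G z

theorem om_mem {ω : ℂ} (h : ω = P.ω₁ ∨ ω = P.ω₂) : ω ∈ P.lattice := by
  rcases h with rfl | rfl
  · exact P.ω₁_mem_lattice
  · exact P.ω₂_mem_lattice

theorem EE_diff (ω : ℂ) : Differentiable ℂ (EE P ω) := by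
  unfold EE
  fun_prop

theorem sq_S2 {G : ℂ → ℂ} (hG : Differentiable ℂ G) (hq : QP P G) : S2 P (fun z => G z ^ 2) := by
  refine ⟨hG.pow 2, ?_⟩
  intro ω hω z
  obtain ⟨ε, h1, h2⟩ := hq ω hω
  simp only
  rw [h2, mul_pow, mul_pow, h1, one_mul]

theorem HH_S2 {G : ℂ → ℂ} (hG : Differentiable ℂ G) (hG0 : ∀ l ∈ P.lattice, G l = 0)
    (hq : QP P G) : S2 P (HH P G) := by
  refine ⟨HH_diff P hG hG0, ?_⟩
  intro ω hω z
  obtain ⟨ε, h1, h2⟩ := hq ω hω
  have hom := om_mem P hω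
  by_cases hz : z ∈ P.lattice
  · have hz2 : z + ω ∈ P.lattice := add_mem hz hom
    rw [HH_in P G hz, HH_in P G hz2]
    have h3 : deriv (fun u => G (u + ω)) z = deriv G (z + ω) := deriv_comp_add_const G ω z
    have h4 : (fun u => G (u + ω)) = fun u => ε * EE P ω u * G u := funext h2
    have h5 : deriv (fun u => ε * EE P ω u * G u) z = ε * EE P ω z * deriv G z := by
      have h6 : HasDerivAt (fun u => ε * EE P ω u * G u)
          (ε * deriv (EE P ω) z * G z + ε * EE P ω z * deriv G z) z :=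
        (((EE_diff P ω) z).hasDerivAt.const_mul ε).mul (hG z).hasDerivAt
      rw [h6.deriv, hG0 z hz]
      ring
    rw [← h3, h4, h5, mul_pow, mul_pow, h1, one_mul]
  · have hz2 : z + ω ∉ P.lattice := by
      intro h
      apply hz
      have := sub_mem h hom
      simpa using this
    rw [HH_out P G hz, HH_out P G hz2, h2, P.weierstrassP_add_coe z ⟨ω, hom⟩, mul_pow, mul_pow, h1]
    ring

/-- zeros propagate along the lattice -/
theorem zero_lattice {G : ℂ → ℂ} (hq : QP P G) (h0 : G 0 = 0) : ∀ l ∈ P.lattice, G l = 0 := by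
  have step : ∀ ω, (ω = P.ω₁ ∨ ω = P.ω₂) → ∀ z, G (z + ω) = 0 ↔ G z = 0 := by
    intro ω hω z
    obtain ⟨ε, h1, h2⟩ := hq ω hω
    have hε : ε ≠ 0 := by
      rintro rfl
      norm_num at h1
    rw [h2]
    simp [hε, EE_ne P ω z]
  have stepn : ∀ ω, (ω = P.ω₁ ∨ ω = P.ω₂) → ∀ n : ℤ, ∀ z, G (z + n * ω) = 0 ↔ G z = 0 := by
    intro ω hω n
    induction n using Int.induction_on with
    | zero => intro z; simp
    | succ i ih =>
      intro z
      rw [← ih z, ← step ω hω (z + (i : ℤ) * ω)]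
      have : z + ((i : ℤ) + 1 : ℤ) * ω = z + ((i : ℤ) : ℂ) * ω + ω := by push_cast; ring
      rw [this]
    | pred i ih =>
      intro z
      rw [← ih z, ← step ω hω (z + ((-(i : ℤ) - 1 : ℤ) : ℂ) * ω)]
      have : z + ((-(i : ℤ) - 1 : ℤ) : ℂ) * ω + ω = z + ((-(i : ℤ) : ℤ) : ℂ) * ω := by push_cast; ring
      rw [this]
  intro l hl
  obtain ⟨m, n, rfl⟩ := PeriodPair.mem_lattice.1 hl
  rw [stepn _ (Or.inr rfl)]
  have := (stepn _ (Or.inl rfl) m 0).2 h0
  simpa using this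

theorem analytic_univ {f : ℂ → ℂ} (hf : Differentiable ℂ f) : AnalyticOnNhd ℂ f Set.univ :=
  fun z _ => hf.analyticAt z

theorem ev_ne {G : ℂ → ℂ} (hG : Differentiable ℂ G) (hne : G ≠ 0) :
    ∀ᶠ z in 𝓝[≠] (0 : ℂ), G z ≠ 0 := by
  rcases (hG.analyticAt 0).eventually_eq_zero_or_eventually_ne_zero with h | h
  · exfalso
    apply hne
    exact (analytic_univ hG).eq_of_eventuallyEq (analytic_univ (differentiable_const (0 : ℂ))) h
  · exact h

theorem ev_not_lattice : ∀ᶠ z in 𝓝[≠] (0 : ℂ), z ∉ P.lattice := by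
  have h1 := P.compl_lattice_sdiff_singleton_mem_nhds 0
  filter_upwards [mem_nhdsWithin_of_mem_nhds h1, self_mem_nhdsWithin] with z hz hz0 hzl
  exact hz ⟨hzl, hz0⟩

theorem indep {G : ℂ → ℂ} (hG : Differentiable ℂ G) (hne : G ≠ 0) (b c : ℂ)
    (h : ∀ z, b * G z ^ 2 + c * HH P G z = 0) : b = 0 ∧ c = 0 := by
  have h1 : ∀ᶠ z in 𝓝[≠] (0 : ℂ), b + c * P.weierstrassP z = 0 ∧ G z ≠ 0 := by
    filter_upwards [ev_ne hG hne, ev_not_lattice P] with z hz hzl
    refine ⟨?_, hz⟩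
    have h2 := h z
    rw [HH_out P G hzl] at h2
    have h3 : G z ^ 2 * (b + c * P.weierstrassP z) = 0 := by linear_combination h2
    exact (mul_eq_zero.1 h3).resolve_left (pow_ne_zero _ hz)
  have hc : c = 0 := by
    by_contra hc
    have h2 : P.weierstrassP =ᶠ[𝓝[≠] (0 : ℂ)] fun _ => -b / c := by
      filter_upwards [h1] with z hz
      field_simp
      linear_combination hz.1
    have h3 := meromorphicOrderAt_congr h2
    rw [P.order_weierstrassP 0 (zero_mem _)] at h3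
    have h4 : AnalyticAt ℂ (fun _ : ℂ => -b / c) 0 := analyticAt_const
    have h5 := h4.meromorphicOrderAt_nonneg
    rw [← h3] at h5
    exact absurd h5 (by decide)
  refine ⟨?_, hc⟩
  obtain ⟨z, hz⟩ := h1.exists
  rw [hc] at hz
  simpa using hz.1

theorem prod_S2 {S : ℂ → ℂ} (hS : Sg P S) (x : ℂ) : S2 P (fun z => S (z + x) * S (z - x)) := by
  refine ⟨?_, ?_⟩
  · have := hS.1
    fun_prop
  · intro ω hω z
    have h1 : z + ω + x = (z + x) + ω := by ring
    have h2 : z + ω - x = (z - x) + ω := by ring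
    simp only
    rw [h1, h2, hS.2 ω hω, hS.2 ω hω]
    have h3 : EE P ω (z + x) * EE P ω (z - x) = EE P ω z ^ 2 := by
      rw [EE_eq, EE_eq, EE_eq, ← Complex.exp_add, ← Complex.exp_nat_mul]
      congr 1
      push_cast
      ring
    linear_combination (S (z + x) * S (z - x)) * h3

theorem key (hD : Stmt_DIM) (h : 0 < (P.ω₂ / P.ω₁).im) {S G : ℂ → ℂ} (hS : Sg P S)
    (hG : Differentiable ℂ G) (hG0 : ∀ l ∈ P.lattice, G l = 0) (hq : QP P G) (hne : G ≠ 0)
    (x : ℂ) : ∃ a b : ℂ, ∀ z, S (z + x) * S (z - x) = a * G z ^ 2 + b * HH P G z := by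
  obtain ⟨c, hc, hcz'⟩ := dim2 P hD h ![fun z => S (z + x) * S (z - x), fun z => G z ^ 2, HH P G]
    (by
      intro a
      fin_cases a
      · exact prod_S2 P hS x
      · exact sq_S2 P hG hq
      · exact HH_S2 P hG hG0 hq)
  have hcz : ∀ z, c 0 * (S (z + x) * S (z - x)) + c 1 * G z ^ 2 + c 2 * HH P G z = 0 := by
    intro z
    have := hcz' z
    rw [Fin.sum_univ_three] at this
    exact this
  have h0 : c 0 ≠ 0 := by
    intro h0
    apply hc
    have h1 := indep P hG hne (c 1) (c 2) (by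
      intro z
      have := hcz z
      rw [h0] at this
      linear_combination this)
    funext a
    fin_cases a
    · exact h0
    · exact h1.1
    · exact h1.2
  refine ⟨-c 1 / c 0, -c 2 / c 0, fun z => ?_⟩
  have h1 := hcz z
  field_simp
  linear_combination h1

theorem nozero (hD : Stmt_DIM) (h : 0 < (P.ω₂ / P.ω₁).im) {S G : ℂ → ℂ} (hS : Sg P S)
    (hS0 : S ≠ 0) (hG : Differentiable ℂ G) (hG0 : ∀ l ∈ P.lattice, G l = 0) (hq : QP P G)
    (hne : G ≠ 0) (p : ℂ) (hp : p ∉ P.lattice) : G p ≠ 0 := by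
  intro hGp
  have h1 : ∀ x, S (p + x) * S (p - x) = 0 := by
    intro x
    obtain ⟨a, b, hab⟩ := key P hD h hS hG hG0 hq hne x
    rw [hab p, HH_out P G hp, hGp]
    ring
  have hd := hS.1
  have hd1 : Differentiable ℂ (fun x => S (p + x)) := by fun_prop
  have hd2 : Differentiable ℂ (fun x => S (p - x)) := by fun_prop
  rcases AnalyticOnNhd.eq_zero_or_eq_zero_of_mul_eq_zero (analytic_univ hd1) (analytic_univ hd2)
    (fun x _ => h1 x) isPreconnected_univ with h2 | h2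
  · apply hS0
    funext z
    have := h2 (z - p) trivial
    simpa using this
  · apply hS0
    funext z
    have := h2 (p - z) trivial
    simpa using this

theorem parity (hU : Stmt_THU) (h : 0 < (P.ω₂ / P.ω₁).im) {S : ℂ → ℂ} (hS : Sg P S)
    (hS0 : S ≠ 0) : (∀ z, S (-z) = S z) ∨ ∀ z, S (-z) = -S z := by
  have h1 : Sg P (fun z => S (-z)) := by
    refine ⟨?_, ?_⟩
    · have := hS.1
      fun_prop
    · intro ω hω z
      have h2 := hS.2 ω hω (-(z + ω))
      have h3 : -(z + ω) + ω = -z := by ring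
      rw [h3] at h2
      have h4 : EE P ω (-(z + ω)) * EE P ω z = 1 := by
        rw [EE_eq, EE_eq, ← Complex.exp_add, ← Complex.exp_zero]
        congr 1
        ring
      have h5 := EE_ne P ω (-(z + ω))
      simp only
      linear_combination (EE P ω z) * h2 - S (-(z + ω)) * h4
  obtain ⟨a, ha⟩ := uniq_Sg P hU h hS h1 hS0
  obtain ⟨z, hz⟩ : ∃ z, S z ≠ 0 := by
    by_contra hne
    push Not at hne
    exact hS0 (funext hne)
  have h2 : a ^ 2 = 1 := by
    have h3 := ha z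
    have h4 := ha (-z)
    simp only [neg_neg] at h4
    have h5 : S z * (a ^ 2 - 1) = 0 := by
      linear_combination (-a) * h3 - h4
    have := (mul_eq_zero.1 h5).resolve_left hz
    linear_combination this
  have h2' : a = 1 ∨ a = -1 := by
    have h6 : (a - 1) * (a + 1) = 0 := by linear_combination h2
    rcases mul_eq_zero.1 h6 with h7 | h7
    · left; linear_combination h7
    · right; linear_combination h7
  rcases h2' with h3 | h3
  · left
    intro z
    have := ha z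
    rw [h3, one_mul] at this
    exact this
  · right
    intro z
    have := ha z
    rw [h3] at this
    linear_combination this

theorem Sg_QP {S : ℂ → ℂ} (hS : Sg P S) : QP P S := by
  intro ω hω
  refine ⟨-1, by norm_num, fun z => ?_⟩
  rw [hS.2 ω hω]
  ring

theorem not_even (hD : Stmt_DIM) (h : 0 < (P.ω₂ / P.ω₁).im) {S : ℂ → ℂ} (hS : Sg P S)
    (hS0 : S ≠ 0) (hev : ∀ z, S (-z) = S z) : False := by
  have e1 : Cc P * ((starRingEnd ℂ) P.ω₁ * P.ω₂) - Cc P * ((starRingEnd ℂ) P.ω₂ * P.ω₁) =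
      2 * Real.pi * I := by
    rw [← mul_sub]
    exact Cc_ip P h
  -- zero at the half period
  have z1 : S (P.ω₁ / 2) = 0 := by
    have h1 := hS.2 P.ω₁ (Or.inl rfl) (-(P.ω₁ / 2))
    have h2 : -(P.ω₁ / 2) + P.ω₁ = P.ω₁ / 2 := by ring
    have h3 : EE P P.ω₁ (-(P.ω₁ / 2)) = 1 := by
      rw [EE_eq, ← Complex.exp_zero]
      congr 1
      ring
    rw [h2, h3, hev] at h1
    linear_combination h1 / 2
  have z3 : S ((P.ω₁ + P.ω₂) / 2) = 0 := by
    have h1 := hS.2 P.ω₂ (Or.inr rfl) (-((P.ω₁ + P.ω₂) / 2))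
    have h2 := hS.2 P.ω₁ (Or.inl rfl) (-((P.ω₁ + P.ω₂) / 2) + P.ω₂)
    have h3 : -((P.ω₁ + P.ω₂) / 2) + P.ω₂ + P.ω₁ = (P.ω₁ + P.ω₂) / 2 := by ring
    rw [h3, h1, hev] at h2
    have h4 : EE P P.ω₁ (-((P.ω₁ + P.ω₂) / 2) + P.ω₂) * EE P P.ω₂ (-((P.ω₁ + P.ω₂) / 2)) = -1 := by
      rw [EE_eq, EE_eq, ← Complex.exp_add, ← Complex.exp_pi_mul_I]
      congr 1
      linear_combination e1 / 2
    linear_combination h2 / 2 + (S ((P.ω₁ + P.ω₂) / 2) / 2) * h4
  -- the translate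
  set G : ℂ → ℂ := fun z => cexp (-(Cc P * (starRingEnd ℂ) P.ω₁ / 2 * z)) * S (z + P.ω₁ / 2) with hGdef
  have hG : Differentiable ℂ G := by
    have := hS.1
    rw [hGdef]
    fun_prop
  have hq : QP P G := by
    intro ω hω
    refine ⟨-cexp (Cc P * ((starRingEnd ℂ) ω * P.ω₁ - (starRingEnd ℂ) P.ω₁ * ω) / 2), ?_, ?_⟩
    · rcases hω with rfl | rfl
      · simp
      · have : Cc P * ((starRingEnd ℂ) P.ω₂ * P.ω₁ - (starRingEnd ℂ) P.ω₁ * P.ω₂) / 2 =
            -(Real.pi * I) := by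
          linear_combination (-1 / 2) * e1
        rw [this, Complex.exp_neg, Complex.exp_pi_mul_I]
        norm_num
    · intro z
      have h1 : z + ω + P.ω₁ / 2 = (z + P.ω₁ / 2) + ω := by ring
      rw [hGdef]
      simp only
      rw [h1, hS.2 ω hω, EE_eq, EE_eq]
      have h2 : cexp (-(Cc P * (starRingEnd ℂ) P.ω₁ / 2 * (z + ω))) *
          cexp (Cc P * (starRingEnd ℂ) ω * (z + P.ω₁ / 2 + ω / 2)) =
          cexp (Cc P * ((starRingEnd ℂ) ω * P.ω₁ - (starRingEnd ℂ) P.ω₁ * ω) / 2) *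
          cexp (Cc P * (starRingEnd ℂ) ω * (z + ω / 2)) *
          cexp (-(Cc P * (starRingEnd ℂ) P.ω₁ / 2 * z)) := by
        rw [← Complex.exp_add, ← Complex.exp_add, ← Complex.exp_add]
        congr 1
        ring
      linear_combination (-S (z + P.ω₁ / 2)) * h2
  have hne : G ≠ 0 := by
    intro h0
    apply hS0
    funext z
    have := congrFun h0 (z - P.ω₁ / 2)
    simp only [hGdef, Pi.zero_apply, sub_add_cancel, mul_eq_zero, Complex.exp_ne_zero,
      false_or] at this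
    exact this
  have hG0 : G 0 = 0 := by
    simp only [hGdef, zero_add, z1, mul_zero]
  refine nozero P hD h hS hS0 hG (zero_lattice P hq hG0) hq hne (P.ω₂ / 2)
    P.ω₂_div_two_notMem_lattice ?_
  have h5 : P.ω₂ / 2 + P.ω₁ / 2 = (P.ω₁ + P.ω₂) / 2 := by ring
  simp only [hGdef, h5, z3, mul_zero]

theorem Sg_smul {S : ℂ → ℂ} (hS : Sg P S) (a : ℂ) : Sg P (fun z => a * S z) := by
  refine ⟨hS.1.const_mul a, ?_⟩
  intro ω hω z
  simp only
  rw [hS.2 ω hω]
  ring

end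

end SIG_

open SIG_ in
theorem sig_proof (hU : Stmt_THU) (hE : Stmt_THE) (hD : Stmt_DIM) : Stmt_SIG := by
  intro P h
  obtain ⟨S₀, hS, hS0⟩ := exists_Sg P hE h
  have hodd : ∀ z, S₀ (-z) = -S₀ z := by
    rcases parity P hU h hS hS0 with h1 | h1
    · exact (not_even P hD h hS hS0 h1).elim
    · exact h1
  have hz0 : S₀ 0 = 0 := by
    have := hodd 0
    rw [neg_zero] at this
    linear_combination this / 2
  have hq := Sg_QP P hS
  have hlat := zero_lattice P hq hz0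
  have hnz := nozero P hD h hS hS0 hS.1 hlat hq hS0
  have hder : deriv S₀ 0 ≠ 0 := by
    intro h0
    obtain ⟨a, b, hab⟩ := key P hD h hS hS.1 hlat hq hS0 (P.ω₁ / 2)
    have h1 := hab 0
    rw [HH_in P S₀ (zero_mem _), h0, hz0, zero_add, zero_sub, hodd] at h1
    have h2 := hnz (P.ω₁ / 2) P.ω₁_div_two_notMem_lattice
    apply h2
    have h3 : S₀ (P.ω₁ / 2) ^ 2 = 0 := by linear_combination -h1
    exact pow_eq_zero_iff (two_ne_zero) |>.1 h3
  set c := (deriv S₀ 0)⁻¹ with hc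
  have hc0 : c ≠ 0 := inv_ne_zero hder
  have hS' : Sg P (fun z => c * S₀ z) := Sg_smul P hS c
  have hS'0 : (fun z => c * S₀ z) ≠ 0 := by
    intro h0
    apply hS0
    funext z
    have := congrFun h0 z
    simpa [hc0] using this
  have hd1 : deriv (fun z => c * S₀ z) 0 = 1 := by
    rw [deriv_const_mul _ (hS.1 0), hc, inv_mul_cancel₀ hder]
  have hlat' : ∀ l ∈ P.lattice, c * S₀ l = 0 := by
    intro l hl
    rw [hlat l hl, mul_zero]
  refine ⟨fun z => c * S₀ z, hS'.1, ?_, hd1, ?_, ?_, ?_⟩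
  · intro z
    simp only
    rw [hodd]
    ring
  · intro z
    constructor
    · intro h1
      by_contra h2
      exact hnz z h2 ((mul_eq_zero.1 h1).resolve_left hc0)
    · intro h1
      exact hlat' z h1
  · intro ω hω z
    exact hS'.2 ω hω z
  · intro z w hz hw
    obtain ⟨a, b, hab⟩ := key P hD h hS' hS'.1 hlat' (Sg_QP P hS') hS'0 w
    have h1 := hab 0
    rw [HH_in P _ (zero_mem _), hd1] at h1
    simp only [zero_add, zero_sub, hodd, hz0, mul_zero] at h1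
    have h2 := hab w
    rw [HH_out P _ hw] at h2
    simp only [sub_self, hz0, mul_zero] at h2
    have h3 := hab z
    rw [HH_out P _ hz] at h3
    simp only at h3 ⊢
    have hb : b = -(c * S₀ w) ^ 2 := by linear_combination -h1
    have hw0 : (c * S₀ w) ^ 2 ≠ 0 := pow_ne_zero _ (mul_ne_zero hc0 (hnz w hw))
    have ha : a = -b * P.weierstrassP w := by
      have h4 : (c * S₀ w) ^ 2 * (a + b * P.weierstrassP w) = 0 := by linear_combination -h2
      have := (mul_eq_zero.1 h4).resolve_left hw0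
      linear_combination this
    rw [h3, ha, hb]
    ring

end Pool.Agent.SPF
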