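import Pool.Agent.SPF.OutKit

set_option linter.unusedSectionVars false

/-!
# Theta functions of level `k` are combinations of `k`-th powers of translates of `Th`
-/

open scoped BigOperators
open Complex

namespace Pool.Agent.SPF

noncomputable section

theorem SPN_.TT_ne_zero {V : Type} [AddCommGroup V] [Module ℚ V] {ι : Type} [Fintype ι]
    [DecidableEq ι] {ζ L : V → ι → ℂ} (x : V) {F : (ι → ℂ) → ℂ} (hF : F ≠ 0) :
    TT ζ L x F ≠ 0 := by
  intro h
  apply hF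
  funext z
  have h1 := congrFun h (z - ζ x)
  simp only [TT, Pi.zero_apply, mul_eq_zero, Complex.exp_ne_zero, false_or] at h1
  rw [sub_add_cancel] at h1
  exact h1

theorem spn_proof (hIRR : Stmt_IRR) : Stmt_SPN := by
  intro V _ _ ι _ _ e B ζ L hS hP T hT hT0 k w G hk hG
  have hkq : (k : ℚ) ≠ 0 := by exact_mod_cast hk.ne'
  have hkw : (k : ℚ) • ((k : ℚ)⁻¹ • w) = w := by
    rw [smul_smul, mul_inv_cancel₀ hkq, one_smul]
  have hF : IsTk e ζ L B k w (fun z => TT ζ L ((k : ℚ)⁻¹ • w) T z ^ k) := by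
    have := isTk_pow hS hP hT k ((k : ℚ)⁻¹ • w)
    rwa [hkw] at this
  have hF0 : (fun z => TT ζ L ((k : ℚ)⁻¹ • w) T z ^ k) ≠ 0 := by
    intro h
    apply SPN_.TT_ne_zero (ζ := ζ) (L := L) ((k : ℚ)⁻¹ • w) hT0
    funext z
    have h1 := congrFun h z
    simp only [Pi.zero_apply] at h1 ⊢
    exact pow_eq_zero_iff hk.ne' |>.1 h1
  have h1 := hIRR V ι e B ζ L hS hP k w _ G hk hF hF0 hG
  refine Submodule.span_le.2 ?_ h1
  rintro H ⟨y, hy, rfl⟩
  have h2 : TT ζ (⇑(k • L)) y (fun z => TT ζ L ((k : ℚ)⁻¹ • w) T z ^ k) =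
      (cexp (Real.pi * I * (e y ((k : ℚ)⁻¹ • w) : ℚ)) ^ k) •
        fun z => TT ζ L (y + (k : ℚ)⁻¹ • w) T z ^ k := by
    funext z
    rw [TT_pow, TT_TT hP, mul_pow]
    rfl
  rw [h2]
  refine Submodule.smul_mem _ _ (Submodule.subset_span ?_)
  refine ⟨y + (k : ℚ)⁻¹ • w, (k : ℚ) • y, hy, ?_, rfl⟩
  rw [smul_add, hkw, add_comm]

end

end Pool.Agent.SPF
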