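import Pool.Agent.SPF.OutStmts

/-!
# Shimura period relations, outer block: module TRF (automorphisms applied to relations between
power series)
-/

open scoped BigOperators
open Complex

namespace Pool.Agent.SPF

noncomputable section

namespace TRF_

theorem analyticAt_eval {κ : Type} (u : κ → ℂ → ℂ) (hu : ∀ i, AnalyticAt ℂ (u i) 0)
    (P : MvPolynomial κ ℂ) : AnalyticAt ℂ (fun s => MvPolynomial.eval (fun i => u i s) P) 0 := by
  induction P using MvPolynomial.induction_on with
  | C a => simp only [MvPolynomial.eval_C]; exact analyticAt_const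
  | add p q hp hq =>
    simp only [map_add]
    exact AnalyticAt.fun_add hp hq
  | mul_X p i hp =>
    simp only [map_mul, MvPolynomial.eval_X]
    exact AnalyticAt.fun_mul hp (hu i)

theorem deriv_eval {κ : Type} (u v : κ → ℂ → ℂ) (τ : ℂ ≃ₐ[ℚ] ℂ)
    (hu : ∀ i, AnalyticAt ℂ (u i) 0) (hv : ∀ i, AnalyticAt ℂ (v i) 0)
    (huv : ∀ i r, iteratedDeriv r (v i) 0 = τ (iteratedDeriv r (u i) 0))
    (P : MvPolynomial κ ℂ) : ∀ r : ℕ,
      iteratedDeriv r (fun s => MvPolynomial.eval (fun i => v i s)
        (MvPolynomial.map (τ : ℂ →+* ℂ) P)) 0 =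
      τ (iteratedDeriv r (fun s => MvPolynomial.eval (fun i => u i s) P) 0) := by
  induction P using MvPolynomial.induction_on with
  | C a =>
    intro r
    simp only [MvPolynomial.map_C, MvPolynomial.eval_C]
    rw [iteratedDeriv_const, iteratedDeriv_const]
    split_ifs <;> simp
  | add p q hp hq =>
    intro r
    simp only [map_add]
    have h1 := (analyticAt_eval u hu p).contDiffAt (n := (r : WithTop ℕ∞))
    have h2 := (analyticAt_eval u hu q).contDiffAt (n := (r : WithTop ℕ∞))
    have h3 := (analyticAt_eval v hv (MvPolynomial.map (τ : ℂ →+* ℂ) p)).contDiffAt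
      (n := (r : WithTop ℕ∞))
    have h4 := (analyticAt_eval v hv (MvPolynomial.map (τ : ℂ →+* ℂ) q)).contDiffAt
      (n := (r : WithTop ℕ∞))
    rw [iteratedDeriv_fun_add h3 h4, iteratedDeriv_fun_add h1 h2, map_add, hp r, hq r]
  | mul_X p i hp =>
    intro r
    simp only [map_mul, MvPolynomial.map_X, MvPolynomial.eval_X]
    have h1 := (analyticAt_eval u hu p).contDiffAt (n := (r : WithTop ℕ∞))
    have h2 := (hu i).contDiffAt (n := (r : WithTop ℕ∞))
    have h3 := (analyticAt_eval v hv (MvPolynomial.map (τ : ℂ →+* ℂ) p)).contDiffAt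
      (n := (r : WithTop ℕ∞))
    have h4 := (hv i).contDiffAt (n := (r : WithTop ℕ∞))
    rw [iteratedDeriv_fun_mul h3 h4, iteratedDeriv_fun_mul h1 h2, map_sum]
    refine Finset.sum_congr rfl fun j _ => ?_
    rw [hp j, huv i (r - j), map_mul, map_mul, map_natCast]

end TRF_

theorem trf_proof : Stmt_TRF := by
  intro κ _ u v τ hu hv huv P hP
  have hA := TRF_.analyticAt_eval v hv (MvPolynomial.map (τ : ℂ →+* ℂ) P)
  have h0 : ∀ r : ℕ, iteratedDeriv r (fun s => MvPolynomial.eval (fun i => v i s)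
      (MvPolynomial.map (τ : ℂ →+* ℂ) P)) 0 = 0 := by
    intro r
    rw [TRF_.deriv_eval u v τ hu hv huv P r]
    have h1 : (fun s => MvPolynomial.eval (fun i => u i s) P) =ᶠ[nhds 0] fun _ => (0 : ℂ) := hP
    rw [h1.iteratedDeriv_eq r]
    simp
  have hps := hA.hasFPowerSeriesAt
  have hz : (FormalMultilinearSeries.ofScalars ℂ (fun n => iteratedDeriv n
      (fun s => MvPolynomial.eval (fun i => v i s) (MvPolynomial.map (τ : ℂ →+* ℂ) P)) 0 /
        (n.factorial : ℂ))) = (0 : FormalMultilinearSeries ℂ ℂ ℂ) := by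
    have h2 : (fun n : ℕ => iteratedDeriv n
      (fun s => MvPolynomial.eval (fun i => v i s) (MvPolynomial.map (τ : ℂ →+* ℂ) P)) 0 /
        (n.factorial : ℂ)) = fun _ => 0 := by
      funext n
      rw [h0 n, zero_div]
    rw [h2]
    ext n
    simp
  rw [hz] at hps
  exact hps.eventually_eq_zero

end

end Pool.Agent.SPF
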