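import Pool.Agent.SPF.OutKit

set_option linter.unusedSectionVars false
set_option linter.unusedSimpArgs false

/-!
# Torsion points of an elliptic curve over the algebraic numbers are algebraic

The addition theorem follows from the sigma function; a derivation of the field of complex numbers
which kills the invariants defines an additive function on the points.
-/

open Complex Filter Topology

namespace Pool.Agent.SPF

noncomputable section

namespace TRP_

variable (L : PeriodPair)

/-- `P'' = 6 P ^ 2 - g2 / 2` -/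
def P2 (z : ℂ) : ℂ := 6 * L.weierstrassP z ^ 2 - L.g₂ / 2

theorem nhds_compl {z : ℂ} (hz : z ∉ L.lattice) : ∀ᶠ u in 𝓝 z, u ∉ L.lattice := by
  have h : IsOpen ((L.lattice : Set ℂ)ᶜ) := L.isClosed_lattice.isOpen_compl
  exact h.mem_nhds hz

theorem nhds_compl_of {z : ℂ} {f : ℂ → ℂ} (hf : Continuous f) (hz : f z ∉ L.lattice) :
    ∀ᶠ u in 𝓝 z, f u ∉ L.lattice := hf.continuousAt.eventually (nhds_compl L hz)

theorem hasDeriv_P {z : ℂ} (hz : z ∉ L.lattice) :
    HasDerivAt L.weierstrassP (L.derivWeierstrassP z) z := by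
  have h : DifferentiableAt ℂ L.weierstrassP z :=
    (L.differentiableOn_weierstrassP).differentiableAt
      (L.isClosed_lattice.isOpen_compl.mem_nhds hz)
  have h2 := h.hasDerivAt
  rwa [L.deriv_weierstrassP] at h2

theorem diff_P' {z : ℂ} (hz : z ∉ L.lattice) : DifferentiableAt ℂ L.derivWeierstrassP z :=
  (L.differentiableOn_derivWeierstrassP).differentiableAt
      (L.isClosed_lattice.isOpen_compl.mem_nhds hz)

theorem hasDeriv_P' {z : ℂ} (hz : z ∉ L.lattice) (h0 : L.derivWeierstrassP z ≠ 0) :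
    HasDerivAt L.derivWeierstrassP (P2 L z) z := by
  have h1 := (diff_P' L hz).hasDerivAt
  have h2 : HasDerivAt (fun u => L.derivWeierstrassP u ^ 2)
      (2 * L.derivWeierstrassP z * deriv L.derivWeierstrassP z) z :=
    (h1.fun_pow 2).congr_deriv (by norm_num)
  have h3 : HasDerivAt (fun u => 4 * L.weierstrassP u ^ 3 - L.g₂ * L.weierstrassP u - L.g₃)
      (4 * (3 * L.weierstrassP z ^ 2 * L.derivWeierstrassP z) - L.g₂ * L.derivWeierstrassP z) z := by
    have hP := hasDeriv_P L hz
    exact ((((hP.fun_pow 3).const_mul 4).fun_sub (hP.const_mul L.g₂)).sub_const L.g₃).congr_deriv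
      (by norm_num)
  have h4 : (fun u => L.derivWeierstrassP u ^ 2) =ᶠ[𝓝 z]
      (fun u => 4 * L.weierstrassP u ^ 3 - L.g₂ * L.weierstrassP u - L.g₃) := by
    filter_upwards [nhds_compl L hz] with u hu
    exact L.derivWeierstrassP_sq u hu
  have h5 := (h3.congr_of_eventuallyEq h4).unique h2
  have h6 : deriv L.derivWeierstrassP z = P2 L z := by
    unfold P2
    have : 2 * L.derivWeierstrassP z * (deriv L.derivWeierstrassP z -
      (6 * L.weierstrassP z ^ 2 - L.g₂ / 2)) = 0 := by linear_combination -h5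
    rcases mul_eq_zero.mp this with h | h
    · exact absurd (by simpa using h) h0
    · exact sub_eq_zero.mp h
  rwa [h6] at h1

/-- the sigma function -/
structure Sg (S : ℂ → ℂ) : Prop where
  entire : Differentiable ℂ S
  d0 : deriv S 0 = 1
  zer : ∀ z, S z = 0 ↔ z ∈ L.lattice
  rel : ∀ z w, z ∉ L.lattice → w ∉ L.lattice →
      S (z + w) * S (z - w) = S z ^ 2 * S w ^ 2 * (L.weierstrassP w - L.weierstrassP z)

variable {L} {S : ℂ → ℂ}

theorem Sg.hd (h : Sg L S) (z : ℂ) : HasDerivAt S (deriv S z) z := (h.entire z).hasDerivAt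

theorem Sg.D_ne (h : Sg L S) {z w : ℂ} (hz : z ∉ L.lattice) (hw : w ∉ L.lattice)
    (h1 : z + w ∉ L.lattice) (h2 : z - w ∉ L.lattice) :
    L.weierstrassP w - L.weierstrassP z ≠ 0 := by
  intro h0
  have := h.rel z w hz hw
  rw [h0, mul_zero] at this
  rcases mul_eq_zero.mp this with h' | h'
  · exact h1 ((h.zer _).mp h')
  · exact h2 ((h.zer _).mp h')

theorem Sg.P'_ne (h : Sg L S) {z : ℂ} (hz : z ∉ L.lattice) (h2 : 2 * z ∉ L.lattice) :
    L.derivWeierstrassP z ≠ 0 := by
  have e1 : HasDerivAt (fun v => S (z + v) * S (z - v))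
      (deriv S (z + z) * S (z - z) + S (z + z) * (-(deriv S (z - z)))) z :=
    ((h.hd (z + z)).comp_const_add z z).fun_mul ((h.hd (z - z)).comp_const_sub z z)
  have e2 : HasDerivAt (fun v => S z ^ 2 * S v ^ 2 * (L.weierstrassP v - L.weierstrassP z))
      (S z ^ 2 * (2 * S z * deriv S z) * (L.weierstrassP z - L.weierstrassP z) +
        S z ^ 2 * S z ^ 2 * L.derivWeierstrassP z) z :=
    ((((h.hd z).fun_pow 2).const_mul (S z ^ 2)).fun_mul
      ((hasDeriv_P L hz).sub_const (L.weierstrassP z))).congr_deriv (by norm_num)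
  have e3 : (fun v => S (z + v) * S (z - v)) =ᶠ[𝓝 z]
      (fun v => S z ^ 2 * S v ^ 2 * (L.weierstrassP v - L.weierstrassP z)) := by
    filter_upwards [nhds_compl L hz] with v hv
    exact h.rel z v hz hv
  have e4 := (e2.congr_of_eventuallyEq e3).unique e1
  intro h0
  rw [h0, sub_self, sub_self, h.d0, (h.zer 0).mpr (zero_mem _)] at e4
  have : S (z + z) = 0 := by linear_combination e4
  rw [← two_mul] at this
  exact h2 ((h.zer _).mp this)

/-- logarithmic derivative -/
def Zf (S : ℂ → ℂ) (z : ℂ) : ℂ := deriv S z / S z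

theorem Sg.A1 (h : Sg L S) {z w : ℂ} (hz : z ∉ L.lattice) (hw : w ∉ L.lattice)
    (h1 : z + w ∉ L.lattice) (h2 : z - w ∉ L.lattice) :
    Zf S (z + w) + Zf S (z - w) - 2 * Zf S z =
      -(L.derivWeierstrassP z) / (L.weierstrassP w - L.weierstrassP z) := by
  have e1 : HasDerivAt (fun v => S (v + w) * S (v - w))
      (deriv S (z + w) * S (z - w) + S (z + w) * (deriv S (z - w))) z :=
    ((h.hd (z + w)).comp_add_const z w).fun_mul ((h.hd (z - w)).comp_sub_const z w)
  have e2 : HasDerivAt (fun v => S v ^ 2 * S w ^ 2 * (L.weierstrassP w - L.weierstrassP v))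
      ((2 * S z * deriv S z) * S w ^ 2 * (L.weierstrassP w - L.weierstrassP z) +
        S z ^ 2 * S w ^ 2 * (-(L.derivWeierstrassP z))) z :=
    ((((h.hd z).fun_pow 2).mul_const (S w ^ 2)).fun_mul
      ((hasDeriv_P L hz).const_sub (L.weierstrassP w))).congr_deriv (by norm_num)
  have e3 : (fun v => S (v + w) * S (v - w)) =ᶠ[𝓝 z]
      (fun v => S v ^ 2 * S w ^ 2 * (L.weierstrassP w - L.weierstrassP v)) := by
    filter_upwards [nhds_compl L hz] with v hv
    exact h.rel v w hv hw
  have e4 := (e2.congr_of_eventuallyEq e3).unique e1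
  have hD := h.D_ne hz hw h1 h2
  have s1 : S (z + w) ≠ 0 := fun h' => h1 ((h.zer _).mp h')
  have s2 : S (z - w) ≠ 0 := fun h' => h2 ((h.zer _).mp h')
  have s3 : S z ≠ 0 := fun h' => hz ((h.zer _).mp h')
  have s4 : S w ≠ 0 := fun h' => hw ((h.zer _).mp h')
  have e5 := h.rel z w hz hw
  have e6 : Zf S (z + w) + Zf S (z - w) =
      (deriv S (z + w) * S (z - w) + S (z + w) * (deriv S (z - w))) / (S (z + w) * S (z - w)) := by
    unfold Zf
    field_simp
  rw [e6, ← e4, e5]
  unfold Zf
  field_simp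
  ring

theorem Sg.A2 (h : Sg L S) {z w : ℂ} (hz : z ∉ L.lattice) (hw : w ∉ L.lattice)
    (h1 : z + w ∉ L.lattice) (h2 : z - w ∉ L.lattice) :
    Zf S (z + w) - Zf S (z - w) - 2 * Zf S w =
      (L.derivWeierstrassP w) / (L.weierstrassP w - L.weierstrassP z) := by
  have e1 : HasDerivAt (fun v => S (z + v) * S (z - v))
      (deriv S (z + w) * S (z - w) + S (z + w) * (-(deriv S (z - w)))) w :=
    ((h.hd (z + w)).comp_const_add z w).fun_mul ((h.hd (z - w)).comp_const_sub z w)
  have e2 : HasDerivAt (fun v => S z ^ 2 * S v ^ 2 * (L.weierstrassP v - L.weierstrassP z))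
      (S z ^ 2 * (2 * S w * deriv S w) * (L.weierstrassP w - L.weierstrassP z) +
        S z ^ 2 * S w ^ 2 * L.derivWeierstrassP w) w :=
    ((((h.hd w).fun_pow 2).const_mul (S z ^ 2)).fun_mul
      ((hasDeriv_P L hw).sub_const (L.weierstrassP z))).congr_deriv (by norm_num)
  have e3 : (fun v => S (z + v) * S (z - v)) =ᶠ[𝓝 w]
      (fun v => S z ^ 2 * S v ^ 2 * (L.weierstrassP v - L.weierstrassP z)) := by
    filter_upwards [nhds_compl L hw] with v hv
    exact h.rel z v hz hv
  have e4 := (e2.congr_of_eventuallyEq e3).unique e1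
  have hD := h.D_ne hz hw h1 h2
  have s1 : S (z + w) ≠ 0 := fun h' => h1 ((h.zer _).mp h')
  have s2 : S (z - w) ≠ 0 := fun h' => h2 ((h.zer _).mp h')
  have s3 : S z ≠ 0 := fun h' => hz ((h.zer _).mp h')
  have s4 : S w ≠ 0 := fun h' => hw ((h.zer _).mp h')
  have e5 := h.rel z w hz hw
  have e6 : Zf S (z + w) - Zf S (z - w) =
      (deriv S (z + w) * S (z - w) + S (z + w) * (-(deriv S (z - w)))) /
        (S (z + w) * S (z - w)) := by
    unfold Zf
    field_simp
    ring
  rw [e6, ← e4, e5]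
  unfold Zf
  field_simp
  ring

theorem Sg.B (h : Sg L S) {z w : ℂ} (hz : z ∉ L.lattice) (hw : w ∉ L.lattice)
    (h1 : z + w ∉ L.lattice) (h2 : z - w ∉ L.lattice) :
    Zf S (z + w) = Zf S z + Zf S w + (L.derivWeierstrassP w - L.derivWeierstrassP z) /
      (2 * (L.weierstrassP w - L.weierstrassP z)) := by
  have a1 := h.A1 hz hw h1 h2
  have a2 := h.A2 hz hw h1 h2
  have hD := h.D_ne hz hw h1 h2
  have : (L.derivWeierstrassP w - L.derivWeierstrassP z) /
      (2 * (L.weierstrassP w - L.weierstrassP z)) = (-(L.derivWeierstrassP z) /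
        (L.weierstrassP w - L.weierstrassP z) + (L.derivWeierstrassP w) /
        (L.weierstrassP w - L.weierstrassP z)) / 2 := by
    field_simp
    ring
  rw [this]
  linear_combination (a1 + a2) / 2

theorem Sg.hdZ (h : Sg L S) {z : ℂ} (hz : z ∉ L.lattice) :
    HasDerivAt (Zf S) (deriv (Zf S) z) z := by
  have s3 : S z ≠ 0 := fun h' => hz ((h.zer _).mp h')
  have : DifferentiableAt ℂ (fun u => deriv S u / S u) z := by
    refine DifferentiableAt.fun_div ?_ (h.entire z) s3
    exact (h.entire.differentiableOn.deriv isOpen_univ).differentiableAt Filter.univ_mem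
  exact this.hasDerivAt

theorem Sg.C (h : Sg L S) {z w : ℂ} (hz : z ∉ L.lattice) (hw : w ∉ L.lattice)
    (h1 : z + w ∉ L.lattice) (h2 : z - w ∉ L.lattice) (h3 : 2 * z ∉ L.lattice) :
    deriv (Zf S) (z + w) = deriv (Zf S) z + (-(P2 L z) * (L.weierstrassP w - L.weierstrassP z) +
      (L.derivWeierstrassP w - L.derivWeierstrassP z) * L.derivWeierstrassP z) /
      (2 * (L.weierstrassP w - L.weierstrassP z) ^ 2) := by
  have hD := h.D_ne hz hw h1 h2
  have e1 : HasDerivAt (fun u => Zf S (u + w)) (deriv (Zf S) (z + w)) z :=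
    (h.hdZ h1).comp_add_const z w
  have q1 := hasDeriv_P L hz
  have q2 := hasDeriv_P' L hz (h.P'_ne hz h3)
  have e2 : HasDerivAt (fun u => Zf S u + Zf S w + (L.derivWeierstrassP w - L.derivWeierstrassP u) /
      (2 * (L.weierstrassP w - L.weierstrassP u))) (deriv (Zf S) z + (-(P2 L z) *
      (2 * (L.weierstrassP w - L.weierstrassP z)) - (L.derivWeierstrassP w - L.derivWeierstrassP z) *
        (2 * (-(L.derivWeierstrassP z)))) / (2 * (L.weierstrassP w - L.weierstrassP z)) ^ 2) z :=
    ((h.hdZ hz).add_const (Zf S w)).fun_add ((q2.const_sub _).fun_div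
      ((q1.const_sub _).const_mul 2) (mul_ne_zero two_ne_zero hD))
  have e3 : (fun u => Zf S (u + w)) =ᶠ[𝓝 z] (fun u => Zf S u + Zf S w +
      (L.derivWeierstrassP w - L.derivWeierstrassP u) /
      (2 * (L.weierstrassP w - L.weierstrassP u))) := by
    filter_upwards [nhds_compl L hz, nhds_compl_of L (f := fun u => u + w) (by fun_prop) h1,
      nhds_compl_of L (f := fun u => u - w) (by fun_prop) h2] with u hu hu1 hu2
    exact h.B hu hw hu1 hu2
  have e4 := (e2.congr_of_eventuallyEq e3).unique e1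
  rw [← e4]
  field_simp
  ring

theorem sub_comm_notMem {z w : ℂ} (h2 : z - w ∉ L.lattice) : w - z ∉ L.lattice := by
  intro h'
  apply h2
  rw [← neg_sub]
  exact neg_mem h'

theorem Sg.Dd (h : Sg L S) {z w : ℂ} (hz : z ∉ L.lattice) (hw : w ∉ L.lattice)
    (h1 : z + w ∉ L.lattice) (h2 : z - w ∉ L.lattice) (h3 : 2 * z ∉ L.lattice)
    (h4 : 2 * w ∉ L.lattice) :
    deriv (Zf S) z + L.weierstrassP z = deriv (Zf S) w + L.weierstrassP w := by
  have c1 := h.C hz hw h1 h2 h3
  have c2 := h.C hw hz (by rwa [add_comm]) (sub_comm_notMem h2) h4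
  have hD := h.D_ne hz hw h1 h2
  have hD' : L.weierstrassP z - L.weierstrassP w ≠ 0 := fun h0 => hD (by linear_combination -h0)
  rw [add_comm w z] at c2
  have w1 := L.derivWeierstrassP_sq z hz
  have w2 := L.derivWeierstrassP_sq w hw
  unfold P2 at c1 c2
  set a := L.weierstrassP z
  set b := L.weierstrassP w
  set a' := L.derivWeierstrassP z
  set b' := L.derivWeierstrassP w
  have e : (-(6 * a ^ 2 - L.g₂ / 2) * (b - a) + (b' - a') * a') / (2 * (b - a) ^ 2) -
      (-(6 * b ^ 2 - L.g₂ / 2) * (a - b) + (a' - b') * b') / (2 * (a - b) ^ 2) = a - b := by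
    rw [show (a - b) ^ 2 = (b - a) ^ 2 by ring, ← sub_div,
      div_eq_iff (mul_ne_zero two_ne_zero (pow_ne_zero 2 hD))]
    linear_combination -w1 + w2
  linear_combination c2 - c1 - e

/-- the generic pairs -/
structure Gn (L : PeriodPair) (z w : ℂ) : Prop where
  z2 : 2 * z ∉ L.lattice
  w2 : 2 * w ∉ L.lattice
  s2 : 2 * (z + w) ∉ L.lattice
  sm : z - w ∉ L.lattice
  t : 2 * z + w ∉ L.lattice

theorem of_two {z : ℂ} (h : 2 * z ∉ L.lattice) : z ∉ L.lattice := by
  intro h'
  apply h
  rw [two_mul]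
  exact add_mem h' h'

/-- the addition theorem -/
theorem Sg.E (h : Sg L S) {z w : ℂ} (g : Gn L z w) :
    4 * (L.weierstrassP z - L.weierstrassP w) ^ 2 * (L.weierstrassP (z + w) + L.weierstrassP z +
      L.weierstrassP w) = (L.derivWeierstrassP z - L.derivWeierstrassP w) ^ 2 := by
  have hz := of_two g.z2
  have hw := of_two g.w2
  have hs := of_two g.s2
  have c1 := h.C hz hw hs g.sm g.z2
  have d1 := h.Dd (z := z + w) (w := z) hs hz (by convert g.t using 2; ring)
    (by rwa [add_sub_cancel_left]) g.s2 g.z2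
  have hD := h.D_ne hz hw hs g.sm
  have w1 := L.derivWeierstrassP_sq z hz
  have w2 := L.derivWeierstrassP_sq w hw
  unfold P2 at c1
  set a := L.weierstrassP z
  set b := L.weierstrassP w
  set a' := L.derivWeierstrassP z
  set b' := L.derivWeierstrassP w
  have e : L.weierstrassP (z + w) = a - (-(6 * a ^ 2 - L.g₂ / 2) * (b - a) + (b' - a') * a') /
      (2 * (b - a) ^ 2) := by
    linear_combination d1 - c1
  rw [e]
  field_simp
  linear_combination (4 * (b - a) ^ 2) * w1 - (4 * (b - a) ^ 2) * w2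

theorem Sg.Ez (h : Sg L S) {z w : ℂ} (g : Gn L z w) :
    8 * (L.weierstrassP z - L.weierstrassP w) * L.derivWeierstrassP z *
      (L.weierstrassP (z + w) + L.weierstrassP z + L.weierstrassP w) +
      4 * (L.weierstrassP z - L.weierstrassP w) ^ 2 *
        (L.derivWeierstrassP (z + w) + L.derivWeierstrassP z) =
    2 * (L.derivWeierstrassP z - L.derivWeierstrassP w) * P2 L z := by
  have hz := of_two g.z2
  have hw := of_two g.w2
  have hs := of_two g.s2
  have q1 := hasDeriv_P L hz
  have q2 := hasDeriv_P' L hz (h.P'_ne hz g.z2)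
  have q3 := (hasDeriv_P L hs).comp_add_const z w
  have e1 : HasDerivAt (fun u => 4 * (L.weierstrassP u - L.weierstrassP w) ^ 2 *
      (L.weierstrassP (u + w) + L.weierstrassP u + L.weierstrassP w))
      (8 * (L.weierstrassP z - L.weierstrassP w) * L.derivWeierstrassP z *
      (L.weierstrassP (z + w) + L.weierstrassP z + L.weierstrassP w) +
      4 * (L.weierstrassP z - L.weierstrassP w) ^ 2 *
        (L.derivWeierstrassP (z + w) + L.derivWeierstrassP z)) z :=
    ((((q1.sub_const _).fun_pow 2).const_mul 4).fun_mul ((q3.fun_add q1).add_const _)).congr_deriv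
      (by push_cast; ring)
  have e2 : HasDerivAt (fun u => (L.derivWeierstrassP u - L.derivWeierstrassP w) ^ 2)
      (2 * (L.derivWeierstrassP z - L.derivWeierstrassP w) * P2 L z) z :=
    ((q2.sub_const _).fun_pow 2).congr_deriv (by push_cast; ring)
  have e3 : (fun u => 4 * (L.weierstrassP u - L.weierstrassP w) ^ 2 *
      (L.weierstrassP (u + w) + L.weierstrassP u + L.weierstrassP w)) =ᶠ[𝓝 z]
      (fun u => (L.derivWeierstrassP u - L.derivWeierstrassP w) ^ 2) := by
    filter_upwards [nhds_compl_of L (f := fun u => 2 * u) (by fun_prop) g.z2,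
      nhds_compl_of L (f := fun u => 2 * (u + w)) (by fun_prop) g.s2,
      nhds_compl_of L (f := fun u => u - w) (by fun_prop) g.sm,
      nhds_compl_of L (f := fun u => 2 * u + w) (by fun_prop) g.t] with u h1 h2 h3 h4
    exact h.E ⟨h1, g.w2, h2, h3, h4⟩
  exact ((e2.congr_of_eventuallyEq e3).unique e1).symm

theorem Sg.Ew (h : Sg L S) {z w : ℂ} (g : Gn L z w) :
    -8 * (L.weierstrassP z - L.weierstrassP w) * L.derivWeierstrassP w *
      (L.weierstrassP (z + w) + L.weierstrassP z + L.weierstrassP w) +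
      4 * (L.weierstrassP z - L.weierstrassP w) ^ 2 *
        (L.derivWeierstrassP (z + w) + L.derivWeierstrassP w) =
    -2 * (L.derivWeierstrassP z - L.derivWeierstrassP w) * P2 L w := by
  have hz := of_two g.z2
  have hw := of_two g.w2
  have hs := of_two g.s2
  have q1 := hasDeriv_P L hw
  have q2 := hasDeriv_P' L hw (h.P'_ne hw g.w2)
  have q3 := (hasDeriv_P L hs).comp_const_add z w
  have e1 : HasDerivAt (fun u => 4 * (L.weierstrassP z - L.weierstrassP u) ^ 2 *
      (L.weierstrassP (z + u) + L.weierstrassP z + L.weierstrassP u))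
      (-8 * (L.weierstrassP z - L.weierstrassP w) * L.derivWeierstrassP w *
      (L.weierstrassP (z + w) + L.weierstrassP z + L.weierstrassP w) +
      4 * (L.weierstrassP z - L.weierstrassP w) ^ 2 *
        (L.derivWeierstrassP (z + w) + L.derivWeierstrassP w)) w :=
    ((((q1.const_sub _).fun_pow 2).const_mul 4).fun_mul ((q3.add_const _).fun_add q1)).congr_deriv
      (by push_cast; ring)
  have e2 : HasDerivAt (fun u => (L.derivWeierstrassP z - L.derivWeierstrassP u) ^ 2)
      (-2 * (L.derivWeierstrassP z - L.derivWeierstrassP w) * P2 L w) w :=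
    ((q2.const_sub _).fun_pow 2).congr_deriv (by push_cast; ring)
  have e3 : (fun u => 4 * (L.weierstrassP z - L.weierstrassP u) ^ 2 *
      (L.weierstrassP (z + u) + L.weierstrassP z + L.weierstrassP u)) =ᶠ[𝓝 w]
      (fun u => (L.derivWeierstrassP z - L.derivWeierstrassP u) ^ 2) := by
    filter_upwards [nhds_compl_of L (f := fun u => 2 * u) (by fun_prop) g.w2,
      nhds_compl_of L (f := fun u => 2 * (z + u)) (by fun_prop) g.s2,
      nhds_compl_of L (f := fun u => z - u) (by fun_prop) g.sm,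
      nhds_compl_of L (f := fun u => 2 * z + u) (by fun_prop) g.t] with u h1 h2 h3 h4
    exact h.E ⟨g.z2, h1, h2, h3, h4⟩
  exact ((e2.congr_of_eventuallyEq e3).unique e1).symm

/-- the additive function -/
def lam (L : PeriodPair) (δ : Derivation ℚ ℂ ℂ) (z : ℂ) : ℂ :=
  δ (L.weierstrassP z) / L.derivWeierstrassP z

theorem der_pow (δ : Derivation ℚ ℂ ℂ) (x : ℂ) : δ (x ^ 2) = 2 * x * δ x := by
  rw [pow_two, Derivation.leibniz]
  simp only [smul_eq_mul]
  ring

theorem der_cube (δ : Derivation ℚ ℂ ℂ) (x : ℂ) : δ (x ^ 3) = 3 * x ^ 2 * δ x := by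
  rw [pow_succ, Derivation.leibniz, der_pow]
  simp only [smul_eq_mul]
  ring

theorem der_nat (δ : Derivation ℚ ℂ ℂ) (n : ℕ) : δ (n : ℂ) = 0 := δ.map_natCast n

theorem der_mul (δ : Derivation ℚ ℂ ℂ) (x y : ℂ) : δ (x * y) = δ x * y + x * δ y := by
  rw [Derivation.leibniz]
  simp only [smul_eq_mul]
  ring

theorem der_alg (δ : Derivation ℚ ℂ ℂ) {a : ℂ} (ha : Alg a) : δ a = 0 := by
  have hi : IsIntegral ℚ a := ha.isIntegral
  have h1 : δ (Polynomial.aeval a (minpoly ℚ a)) = 0 := by rw [minpoly.aeval, map_zero]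
  rw [Derivation.map_aeval, smul_eq_mul] at h1
  rcases mul_eq_zero.mp h1 with h | h
  · exact absurd h ((minpoly.irreducible hi).separable.aeval_derivative_ne_zero (minpoly.aeval ℚ a))
  · exact h

theorem Sg.dP (h : Sg L S) (δ : Derivation ℚ ℂ ℂ) {z : ℂ} (h2 : 2 * z ∉ L.lattice) :
    δ (L.weierstrassP z) = lam L δ z * L.derivWeierstrassP z := by
  unfold lam
  rw [div_mul_cancel₀ _ (h.P'_ne (of_two h2) h2)]

theorem Sg.dP' (h : Sg L S) (δ : Derivation ℚ ℂ ℂ) (hg₂ : δ L.g₂ = 0) (hg₃ : δ L.g₃ = 0) {z : ℂ}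
    (h2 : 2 * z ∉ L.lattice) : δ (L.derivWeierstrassP z) = lam L δ z * P2 L z := by
  have h1 := L.derivWeierstrassP_sq z (of_two h2)
  have h3 := congrArg δ h1
  have h4 := der_nat δ 4
  have hne := h.P'_ne (of_two h2) h2
  rw [der_pow, map_sub, map_sub, der_mul, der_mul, der_cube, hg₂, hg₃, h.dP δ h2,
    show ((4 : ℂ)) = ((4 : ℕ) : ℂ) by norm_num, h4] at h3
  unfold P2
  apply mul_left_cancel₀ (mul_ne_zero two_ne_zero hne)
  push_cast at h3
  linear_combination h3

theorem Sg.lam_add (h : Sg L S) (δ : Derivation ℚ ℂ ℂ) (hg₂ : δ L.g₂ = 0) (hg₃ : δ L.g₃ = 0)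
    {z w : ℂ} (g : Gn L z w) : lam L δ (z + w) = lam L δ z + lam L δ w := by
  have hz := of_two g.z2
  have hw := of_two g.w2
  have hs := of_two g.s2
  have h1 := congrArg δ (h.E g)
  have h2 := h.Ez g
  have h3 := h.Ew g
  have hD := h.D_ne hz hw hs g.sm
  have hne := h.P'_ne hs g.s2
  have h4 := der_nat δ 4
  rw [der_mul, der_mul, der_pow, der_pow, map_sub, map_sub, map_add, map_add,
    show ((4 : ℂ)) = ((4 : ℕ) : ℂ) by norm_num, h4, h.dP δ g.z2, h.dP δ g.w2, h.dP δ g.s2,
    h.dP' δ hg₂ hg₃ g.z2, h.dP' δ hg₂ hg₃ g.w2] at h1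
  push_cast at h1
  set a := L.weierstrassP z
  set b := L.weierstrassP w
  set a' := L.derivWeierstrassP z
  set b' := L.derivWeierstrassP w
  set p' := L.derivWeierstrassP (z + w)
  have hab : a - b ≠ 0 := fun h0 => hD (by linear_combination -h0)
  apply mul_left_cancel₀ (mul_ne_zero (mul_ne_zero (by norm_num : (4 : ℂ) ≠ 0)
    (pow_ne_zero 2 hab)) hne)
  linear_combination h1 - lam L δ z * h2 - lam L δ w * h3

theorem lat_countable (L : PeriodPair) : (L.lattice : Set ℂ).Countable := by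
  have : Countable L.lattice := L.latticeEquivProd.toEquiv.injective.countable
  exact Set.countable_coe_iff.mp this

/-- a generic point -/
theorem exists_gen (L : PeriodPair) (z : ℂ) : ∃ w : ℂ, ∀ n m : ℤ, n ≠ 0 →
    (n : ℂ) * w + (m : ℂ) * z ∉ L.lattice := by
  by_contra hcon
  push Not at hcon
  have h1 : (Set.univ : Set ℂ) ⊆ ⋃ (n : ℤ), ⋃ (m : ℤ), ⋃ (_ : n ≠ 0),
      (fun w : ℂ => (n : ℂ) * w + (m : ℂ) * z) ⁻¹' (L.lattice : Set ℂ) := by
    intro w _
    obtain ⟨n, m, hn, hm⟩ := hcon w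
    simp only [Set.mem_iUnion]
    exact ⟨n, m, hn, hm⟩
  have h2 : (⋃ (n : ℤ), ⋃ (m : ℤ), ⋃ (_ : n ≠ 0),
      (fun w : ℂ => (n : ℂ) * w + (m : ℂ) * z) ⁻¹' (L.lattice : Set ℂ)).Countable := by
    refine Set.countable_iUnion fun n => Set.countable_iUnion fun m => Set.countable_iUnion
      fun hn => ?_
    refine (lat_countable L).preimage ?_
    intro x y hxy
    have hn' : (n : ℂ) ≠ 0 := by exact_mod_cast hn
    exact mul_left_cancel₀ hn' (add_right_cancel hxy)
  have : Uncountable ℂ := by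
    rw [← Cardinal.aleph0_lt_mk_iff, Cardinal.mk_complex]
    exact Cardinal.aleph0_lt_continuum
  exact Set.not_countable_univ (h2.mono h1)

theorem Sg.lam_zero (h : Sg L S) (δ : Derivation ℚ ℂ ℂ) (hg₂ : δ L.g₂ = 0) (hg₃ : δ L.g₃ = 0)
    {z : ℂ} (h2 : 2 * z ∉ L.lattice) {N : ℕ} (hN : 0 < N) (hNz : (N : ℂ) * z ∈ L.lattice) :
    lam L δ z = 0 := by
  obtain ⟨w, hw⟩ := exists_gen L z
  have hg : ∀ k : ℕ, Gn L (w + k * z) z := by
    intro k
    refine ⟨?_, h2, ?_, ?_, ?_⟩
    · have := hw 2 (2 * k) (by norm_num)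
      convert this using 2
      push_cast
      ring
    · have := hw 2 (2 * k + 2) (by norm_num)
      convert this using 2
      push_cast
      ring
    · have := hw 1 (k - 1) (by norm_num)
      convert this using 2
      push_cast
      ring
    · have := hw 2 (2 * k + 1) (by norm_num)
      convert this using 2
      push_cast
      ring
  have key : ∀ k : ℕ, lam L δ (w + k * z) = lam L δ w + k * lam L δ z := by
    intro k
    induction k with
    | zero => simp
    | succ k ih =>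
      have h1 := h.lam_add δ hg₂ hg₃ (hg k)
      rw [ih] at h1
      rw [show w + ((k + 1 : ℕ) : ℂ) * z = w + k * z + z by push_cast; ring, h1]
      push_cast
      ring
  have h3 := key N
  have h4 : lam L δ (w + N * z) = lam L δ w := by
    unfold lam
    have e1 := L.weierstrassP_add_coe w ⟨_, hNz⟩
    have e2 := L.derivWeierstrassP_add_coe w ⟨_, hNz⟩
    simp only at e1 e2
    rw [e1, e2]
  rw [h4] at h3
  have h5 : (N : ℂ) * lam L δ z = 0 := by linear_combination -h3
  rcases mul_eq_zero.mp h5 with h6 | h6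
  · exact absurd (by exact_mod_cast h6) hN.ne'
  · exact h6

theorem alg_of_sq {x y : ℂ} (hx : Alg x) (h : y ^ 2 = x) : Alg y := by
  have : Alg (y ^ 2) := h ▸ hx
  exact IsAlgebraic.of_pow two_pos this

end TRP_

open TRP_ in
theorem trp_proof (hSIG : Stmt_SIG) (hDER : Stmt_DER) : Stmt_TRP := by
  intro L hL hg₂ hg₃ z hz htor
  obtain ⟨S, hS1, -, hS3, hS4, -, hS6⟩ := hSIG L hL
  have h : Sg L S := ⟨hS1, hS3, hS4, hS6⟩
  obtain ⟨N, hN, hNz⟩ := htor
  have hsq := L.derivWeierstrassP_sq z hz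
  suffices hP : Alg (L.weierstrassP z) by
    refine ⟨hP, alg_of_sq ?_ hsq⟩
    exact (((isAlgebraic_natCast 4).mul (hP.pow 3)).sub (hg₂.mul hP)).sub hg₃
  by_cases h2 : 2 * z ∈ L.lattice
  · have h0 : L.derivWeierstrassP z = 0 := by
      have e1 := L.derivWeierstrassP_add_coe (-z) ⟨_, h2⟩
      simp only at e1
      rw [show -z + 2 * z = z by ring, L.derivWeierstrassP_neg] at e1
      have : 2 * L.derivWeierstrassP z = 0 := by linear_combination e1
      simpa using this
    rw [h0] at hsq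
    by_cases h12 : 12 * L.weierstrassP z ^ 2 - L.g₂ = 0
    · apply alg_of_sq (x := L.g₂ * ((12 : ℕ) : ℂ)⁻¹) (hg₂.mul (isAlgebraic_natCast 12).inv)
      push_cast
      linear_combination h12 / 12
    · apply hDER
      intro δ
      have h3 := congrArg δ hsq
      have h4 := der_nat δ 4
      rw [der_pow, map_sub, map_sub, der_mul, der_mul, der_cube, der_alg δ hg₂, der_alg δ hg₃,
        show ((4 : ℂ)) = ((4 : ℕ) : ℂ) by norm_num, h4] at h3
      push_cast at h3
      have h5 : (12 * L.weierstrassP z ^ 2 - L.g₂) * δ (L.weierstrassP z) = 0 := by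
        linear_combination -h3
      exact (mul_eq_zero.mp h5).resolve_left h12
  · apply hDER
    intro δ
    rw [h.dP δ h2, h.lam_zero δ (der_alg δ hg₂) (der_alg δ hg₃) h2 hN hNz, zero_mul]

end

end Pool.Agent.SPF
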