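import Pool.Agent.SPF.OutKit

set_option linter.unusedSectionVars false

/-!
# Module UNQ: uniqueness of the period symbol
-/

open scoped BigOperators
open Complex

namespace Pool.Agent.SPF

noncomputable section

namespace UNQ_

/-- the matrix comparison for two structures on the same space with the same coordinates -/
theorem core (hABV : Stmt_ABV) (hHM1 : Stmt_HM1) {n : ℕ} {V : Type} [AddCommGroup V] [Module ℚ V]
    (e e' : V →ₗ[ℚ] V →ₗ[ℚ] ℚ) (ζ : V →ₗ[ℚ] (Fin n → ℂ)) (c c' : Fin n → ℂ)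
    (h : SS e ζ c) (h' : SS e' ζ c') (i : Fin n) : Alg (c i / c' i) := by
  obtain ⟨B, L, F, hB, hP, -⟩ := h.2
  obtain ⟨B', L', F', hB', hP', -⟩ := h'.2
  obtain ⟨A, hA⟩ := hABV n V e ζ c h B L hB hP
  obtain ⟨A', hA'⟩ := hABV n V e' ζ c' h' B' L' hB' hP'
  have hM := hHM1 n n A A' (Matrix.diagonal fun i => c' i / c i)
    (Matrix.of fun k j => B'.repr (B j) k) (by
      intro j
      funext a
      rw [Matrix.mulVec_diagonal, hA]
      have hc : c a ≠ 0 := h.1 a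
      have h1 : c' a / c a * (c a * ζ (B j) a) = c' a * ζ (B j) a := by
        field_simp
      rw [h1]
      have h2 : ζ (B j) = ∑ k, (B'.repr (B j) k : ℚ) • ζ (B' k) := by
        conv_lhs => rw [← B'.sum_repr (B j)]
        rw [map_sum]
        exact Finset.sum_congr rfl fun k _ => map_smul _ _ _
      rw [h2, Finset.sum_apply, Finset.sum_apply, Finset.mul_sum]
      refine Finset.sum_congr rfl fun k _ => ?_
      rw [Pi.smul_apply, Pi.smul_apply, hA', Rat.smul_def, smul_eq_mul, Matrix.of_apply]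
      ring) i i
  rw [Matrix.diagonal_apply_eq] at hM
  have := hM.inv
  rwa [inv_div] at this

end UNQ_

open Classical in
theorem unq_proof (hABV : Stmt_ABV) (hHM1 : Stmt_HM1) (hRLB : Stmt_RLB) : Stmt_UNQ := by
  intro E _ _ K Φ ξ ξ' c c' _ h h' φ hφ
  obtain ⟨-, -, hS⟩ := h
  obtain ⟨-, -, hS'⟩ := h'
  let f : {φ // φ ∈ Φ} ≃ Fin (Fintype.card {φ // φ ∈ Φ}) := Fintype.equivFin _
  let ζ : E →ₗ[ℚ] (Fin (Fintype.card {φ // φ ∈ Φ}) → ℂ) :=
    zT (fun i => ((f.symm i : {φ // φ ∈ Φ}) : E →+* ℂ))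
  have hz : ∀ (x : E) (i : {φ // φ ∈ Φ}),
      ζ x (f i) = zT (fun φ : {φ // φ ∈ Φ} => (φ : E →+* ℂ)) x i := by
    intro x i
    show ((f.symm (f i) : {φ // φ ∈ Φ}) : E →+* ℂ) x = (i : E →+* ℂ) x
    rw [Equiv.symm_apply_apply]
  have h1 : SS (K.e ξ) ζ (fun i => c (f.symm i : {φ // φ ∈ Φ})) :=
    hRLB E _ _ f (K.e ξ) _ ζ _ _ hz (fun i => by simp) hS
  have h2 : SS (K.e ξ') ζ (fun i => c' (f.symm i : {φ // φ ∈ Φ})) :=
    hRLB E _ _ f (K.e ξ') _ ζ _ _ hz (fun i => by simp) hS'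
  have h3 := UNQ_.core hABV hHM1 (K.e ξ) (K.e ξ') ζ _ _ h1 h2 (f ⟨φ, hφ⟩)
  simpa using h3

end

end Pool.Agent.SPF
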