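import Pool.Agent.SPF.OutKit

/-!
# WEI: elliptic curves over the algebraic numbers satisfy `S`
-/

set_option linter.unusedSectionVars false
set_option linter.unusedSimpArgs false

open scoped BigOperators Topology
open Complex

namespace Pool.Agent.SPF

noncomputable section

namespace WEI_

/-- the constant -/
def Cc (L : PeriodPair) : ℂ := (Real.pi : ℂ) / (((starRingEnd ℂ) L.ω₁ * L.ω₂).im : ℂ)

def zz (L : PeriodPair) (x : ℚ × ℚ) : ℂ := (x.1 : ℂ) * L.ω₁ + (x.2 : ℂ) * L.ω₂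

theorem zz_add (L : PeriodPair) (x y : ℚ × ℚ) : zz L (x + y) = zz L x + zz L y := by
  simp only [zz, Prod.fst_add, Prod.snd_add]; push_cast; ring

theorem zz_sub (L : PeriodPair) (x y : ℚ × ℚ) : zz L (x - y) = zz L x - zz L y := by
  simp only [zz, Prod.fst_sub, Prod.snd_sub]; push_cast; ring

theorem zz_zsmul (L : PeriodPair) (k : ℤ) (x : ℚ × ℚ) : zz L (k • x) = (k : ℂ) * zz L x := by
  rw [zz, zz, Prod.smul_fst, Prod.smul_snd, zsmul_eq_mul, zsmul_eq_mul]; push_cast; ring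

/-- the hermitian form -/
def LL (L : PeriodPair) : (ℚ × ℚ) →ₗ[ℚ] (Fin 1 → ℂ) where
  toFun := fun x _ => Cc L * (starRingEnd ℂ) (zz L x)
  map_add' := by
    intro x y
    funext i
    rw [zz_add, map_add]
    simp only [Pi.add_apply]
    ring
  map_smul' := by
    intro r x
    funext i
    have : zz L (r • x) = (r : ℂ) * zz L x := by
      simp only [zz, Prod.smul_fst, Prod.smul_snd, smul_eq_mul]; push_cast; ring
    rw [this, map_mul]
    have h2 : (starRingEnd ℂ) (r : ℂ) = (r : ℂ) := by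
      exact map_ratCast (starRingEnd ℂ) r
    rw [h2]
    simp only [Pi.smul_apply, RingHom.id_apply, Rat.smul_def]
    ring

theorem dotp_one (a z : Fin 1 → ℂ) : dotp a z = a 0 * z 0 := by
  unfold dotp
  rw [Fin.sum_univ_one]

theorem z0_apply (L : PeriodPair) (x : ℚ × ℚ) (i : Fin 1) : z0 L.ω₁ L.ω₂ x i = zz L x := rfl

theorem LL_apply (L : PeriodPair) (x : ℚ × ℚ) (i : Fin 1) :
    LL L x i = Cc L * (starRingEnd ℂ) (zz L x) := rfl

/-- the standard basis -/
def BB : Module.Basis (Fin 1 ⊕ Fin 1) ℚ (ℚ × ℚ) :=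
  (Module.Basis.singleton (Fin 1) ℚ).prod (Module.Basis.singleton (Fin 1) ℚ)

theorem BB_inl (i : Fin 1) : BB (Sum.inl i) = ((1 : ℚ), (0 : ℚ)) := by
  simp [BB, Module.Basis.prod_apply]

theorem BB_inr (i : Fin 1) : BB (Sum.inr i) = ((0 : ℚ), (1 : ℚ)) := by
  simp [BB, Module.Basis.prod_apply]

theorem e0_apply (x y : ℚ × ℚ) : e0 x y = x.1 * y.2 - x.2 * y.1 := rfl

theorem symp : SympBasis e0 BB where
  alt := by intro x; rw [e0_apply]; ring
  ll := by intro i j; rw [e0_apply, BB_inl, BB_inl]; simp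
  rr := by intro i j; rw [e0_apply, BB_inr, BB_inr]; simp
  lr := by
    intro i j
    rw [e0_apply, BB_inl, BB_inr]
    have : i = j := Subsingleton.elim _ _
    simp [this]

/-- the properties of the sigma function -/
structure Sig (L : PeriodPair) (S : ℂ → ℂ) : Prop where
  him : 0 < ((starRingEnd ℂ) L.ω₁ * L.ω₂).im
  dif : Differentiable ℂ S
  d0 : deriv S 0 = 1
  zero : ∀ z, S z = 0 ↔ z ∈ L.lattice
  per : ∀ ω, (ω = L.ω₁ ∨ ω = L.ω₂) → ∀ z, S (z + ω) =
    -cexp (Cc L * (starRingEnd ℂ) ω * (z + ω / 2)) * S z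
  rel : ∀ z w, z ∉ L.lattice → w ∉ L.lattice →
    S (z + w) * S (z - w) = S z ^ 2 * S w ^ 2 * (L.weierstrassP w - L.weierstrassP z)

theorem him_of (L : PeriodPair) (h : 0 < (L.ω₂ / L.ω₁).im) :
    0 < ((starRingEnd ℂ) L.ω₁ * L.ω₂).im := by
  have h1 : L.ω₁ ≠ 0 := by
    intro h0
    rw [h0, div_zero] at h
    simp at h
  have h2 : (starRingEnd ℂ) L.ω₁ * L.ω₂ = ((normSq L.ω₁ : ℝ) : ℂ) * (L.ω₂ / L.ω₁) := by
    rw [← Complex.mul_conj]
    field_simp
  rw [h2, Complex.im_ofReal_mul]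
  exact mul_pos (Complex.normSq_pos.2 h1) h

theorem pstr (L : PeriodPair) (h : 0 < ((starRingEnd ℂ) L.ω₁ * L.ω₂).im) :
    IsPStr e0 BB (z0 L.ω₁ L.ω₂) (LL L) where
  rel := by
    intro x y
    rw [dotp_one, dotp_one, z0_apply, z0_apply, LL_apply, LL_apply, e0_apply]
    have hc : (starRingEnd ℂ) L.ω₁ * L.ω₂ - (starRingEnd ℂ) L.ω₂ * L.ω₁ =
        2 * I * ((((starRingEnd ℂ) L.ω₁ * L.ω₂).im : ℝ) : ℂ) := by
      have h1 := Complex.sub_conj ((starRingEnd ℂ) L.ω₁ * L.ω₂)
      rw [map_mul, Complex.conj_conj] at h1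
      rw [mul_comm ((starRingEnd ℂ) L.ω₂) L.ω₁, h1]
      push_cast
      ring
    have hC : Cc L * ((((starRingEnd ℂ) L.ω₁ * L.ω₂).im : ℝ) : ℂ) = Real.pi := by
      unfold Cc
      rw [div_mul_cancel₀]
      exact_mod_cast h.ne'
    have hr : ∀ q : ℚ, (starRingEnd ℂ) (q : ℂ) = (q : ℂ) := fun q => map_ratCast _ q
    simp only [zz, map_add, map_mul, hr]
    push_cast
    linear_combination (Cc L * ((x.1 : ℂ) * y.2 - (x.2 : ℂ) * y.1)) * hc +
      (2 * I * ((x.1 : ℂ) * y.2 - (x.2 : ℂ) * y.1)) * hC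
  pos := by
    intro r hr
    have key : (∑ j, ∑ k, (r j : ℂ) * (r k : ℂ) *
        dotp (LL L (BB j)) (z0 L.ω₁ L.ω₂ (BB k))) =
        ((Real.pi / ((starRingEnd ℂ) L.ω₁ * L.ω₂).im *
          normSq ((r (Sum.inl 0) : ℂ) * L.ω₁ + (r (Sum.inr 0) : ℂ) * L.ω₂) : ℝ) : ℂ) := by
      simp only [Fintype.sum_sum_type, Fin.sum_univ_one, dotp_one, z0_apply, LL_apply, BB_inl,
        BB_inr, zz]
      rw [Complex.ofReal_mul, ← Complex.mul_conj]
      simp only [map_add, map_mul, Complex.conj_ofReal, Cc]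
      push_cast
      simp
      ring
    rw [key, Complex.ofReal_re]
    refine mul_pos (div_pos Real.pi_pos h) (Complex.normSq_pos.2 ?_)
    intro h0
    apply hr
    have h1 := LinearIndependent.pair_iff.mp L.indep (r (Sum.inl 0)) (r (Sum.inr 0)) (by
      simpa using h0)
    funext j
    rcases j with j | j
    · have : j = 0 := Subsingleton.elim _ _
      rw [this]; exact h1.1
    · have : j = 0 := Subsingleton.elim _ _
      rw [this]; exact h1.2

theorem alg_exp (q : ℚ) : Alg (cexp (Real.pi * I * (q : ℚ))) := by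
  have hden : (0 : ℕ) < 2 * q.den := by have := q.den_pos; omega
  have hden' : (q.den : ℂ) ≠ 0 := Nat.cast_ne_zero.2 q.den_ne_zero
  have h1 : (cexp (Real.pi * I * (q : ℚ))) ^ (2 * q.den) = 1 := by
    rw [← Complex.exp_nat_mul]
    have : ((2 * q.den : ℕ) : ℂ) * (Real.pi * I * (q : ℚ)) = q.num * (2 * Real.pi * I) := by
      have hq : ((q : ℚ) : ℂ) = (q.num : ℂ) / (q.den : ℂ) := by
        have := Rat.num_div_den q
        nth_rewrite 1 [← this]
        push_cast
        rfl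
      rw [hq]
      push_cast
      field_simp
    rw [this]
    exact Complex.exp_int_mul_two_pi_mul_I q.num
  refine IsAlgebraic.of_pow hden ?_
  rw [h1]
  exact isAlgebraic_one

/-! ### derivations -/

theorem der_alg (δ : Derivation ℚ ℂ ℂ) {x : ℂ} (hx : Alg x) : δ x = 0 := by
  have hint : IsIntegral ℚ x := hx.isIntegral
  have h1 : Polynomial.aeval x (minpoly ℚ x) = 0 := minpoly.aeval ℚ x
  have h2 : δ (Polynomial.aeval x (minpoly ℚ x)) =
      Polynomial.aeval x (Polynomial.derivative (minpoly ℚ x)) • δ x := by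
    rw [Derivation.map_aeval]
  rw [h1, map_zero] at h2
  have h3 : Polynomial.aeval x (Polynomial.derivative (minpoly ℚ x)) ≠ 0 := by
    have hs := (minpoly.irreducible hint).separable
    exact hs.aeval_derivative_ne_zero h1
  rcases smul_eq_zero.1 h2.symm with h | h
  · exact absurd h h3
  · exact h

theorem der_mul (δ : Derivation ℚ ℂ ℂ) (a b : ℂ) : δ (a * b) = a * δ b + b * δ a := by
  rw [Derivation.leibniz]
  simp

theorem der_alg_mul (δ : Derivation ℚ ℂ ℂ) {c : ℂ} (hc : Alg c) (a : ℂ) :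
    δ (c * a) = c * δ a := by
  rw [der_mul, der_alg δ hc]
  ring

/-- the logarithmic derivative of a relation -/
theorem der_rel (δ : Derivation ℚ ℂ ℂ) {A B X Y c : ℂ} (hc : Alg c) (hA : A ≠ 0) (hB : B ≠ 0)
    (hX : X ≠ 0) (hY : Y ≠ 0) (h : A * B = X ^ 2 * Y ^ 2 * c) :
    δ A / A + δ B / B = 2 * (δ X / X) + 2 * (δ Y / Y) := by
  have hc0 : c ≠ 0 := by
    rintro rfl
    rw [mul_zero] at h
    exact (mul_ne_zero hA hB) h
  have h1 : δ (A * B) = δ (c * ((X * X) * (Y * Y))) := by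
    rw [h]
    congr 1
    ring
  rw [der_alg_mul δ hc, der_mul, der_mul, der_mul, der_mul] at h1
  have h2 : (δ A / A + δ B / B) * (A * B) = (2 * (δ X / X) + 2 * (δ Y / Y)) * (A * B) := by
    have e1 : (δ A / A + δ B / B) * (A * B) = A * δ B + B * δ A := by
      field_simp
      ring
    rw [e1, h1, h]
    field_simp
    ring
  exact mul_right_cancel₀ (mul_ne_zero hA hB) h2

/-! ### torsion points -/

theorem torsion (x : ℚ × ℚ) : ∃ N : ℕ, 0 < N ∧ ∀ L : PeriodPair,
    zz L ((N : ℤ) • x) ∈ L.lattice := by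
  refine ⟨x.1.den * x.2.den, Nat.mul_pos x.1.den_pos x.2.den_pos, ?_⟩
  intro L
  rw [zz_zsmul, zz]
  have h1 : ((x.1 : ℚ) : ℂ) * (x.1.den : ℂ) = (x.1.num : ℂ) := by
    have := Rat.mul_den_eq_num x.1
    exact_mod_cast congrArg (fun x : ℚ => (x : ℂ)) this
  have h2 : ((x.2 : ℚ) : ℂ) * (x.2.den : ℂ) = (x.2.num : ℂ) := by
    have := Rat.mul_den_eq_num x.2
    exact_mod_cast congrArg (fun x : ℚ => (x : ℂ)) this
  rw [PeriodPair.mem_lattice]
  refine ⟨x.1.num * x.2.den, x.2.num * x.1.den, ?_⟩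
  push_cast
  rw [← h1, ← h2]
  ring

/-- a point whose multiples avoid a cyclic group -/
theorem avoid (L : PeriodPair) (x : ℚ × ℚ) (N : ℕ) (hN : 0 < N)
    (hx : zz L ((N : ℤ) • x) ∈ L.lattice) : ∃ y : ℚ × ℚ, ∀ k : ℤ,
      zz L (y + k • x) ∉ L.lattice := by
  refine ⟨(1 / ((N : ℚ) + 1), 0), fun k hk => ?_⟩
  have h1 : zz L ((N : ℤ) • ((1 / ((N : ℚ) + 1), (0 : ℚ)) : ℚ × ℚ)) ∈ L.lattice := by
    have h2 := L.lattice.smul_mem (N : ℤ) hk
    have h3 := L.lattice.smul_mem k hx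
    have h4 := L.lattice.sub_mem h2 h3
    have h5 : (N : ℤ) • zz L ((1 / ((N : ℚ) + 1), (0 : ℚ)) + k • x) -
        k • zz L ((N : ℤ) • x) = zz L ((N : ℤ) • ((1 / ((N : ℚ) + 1), (0 : ℚ)) : ℚ × ℚ)) := by
      rw [zz_add, zz_zsmul, zz_zsmul, zz_zsmul, zsmul_eq_mul, zsmul_eq_mul]
      ring
    rw [h5] at h4
    exact h4
  have h6 : zz L ((N : ℤ) • ((1 / ((N : ℚ) + 1), (0 : ℚ)) : ℚ × ℚ)) =
      (((N : ℚ) / ((N : ℚ) + 1) : ℚ) : ℂ) * L.ω₁ + ((0 : ℚ) : ℂ) * L.ω₂ := by
    rw [zz_zsmul, zz]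
    push_cast
    ring
  rw [h6, PeriodPair.mul_ω₁_add_mul_ω₂_mem_lattice] at h1
  have h7 := h1.1
  have h8 : (N : ℚ) / ((N : ℚ) + 1) = ((N : ℚ) / ((N : ℚ) + 1)).num :=
    (Rat.coe_int_num_of_den_eq_one h7).symm
  have hN' : (0 : ℚ) < N := by exact_mod_cast hN
  have h9 : 0 < (N : ℚ) / ((N : ℚ) + 1) := by positivity
  have h10 : (N : ℚ) / ((N : ℚ) + 1) < 1 := by
    rw [div_lt_one (by positivity)]
    linarith
  rw [h8] at h9 h10
  have h11 : 0 < ((N : ℚ) / ((N : ℚ) + 1)).num := by exact_mod_cast h9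
  have h12 : ((N : ℚ) / ((N : ℚ) + 1)).num < 1 := by exact_mod_cast h10
  omega

/-! ### the functions -/

/-- the function on `Fin 1 → ℂ` -/
def Fs (S : ℂ → ℂ) : (Fin 1 → ℂ) → ℂ := fun z => S (z 0)

section

variable {L : PeriodPair} {S : ℂ → ℂ}

/-- translate -/
abbrev T (L : PeriodPair) (S : ℂ → ℂ) (x : ℚ × ℚ) : (Fin 1 → ℂ) → ℂ :=
  TT (z0 L.ω₁ L.ω₂) (LL L) x (Fs S)

theorem T_apply (x : ℚ × ℚ) (z : Fin 1 → ℂ) : T L S x z =
    cexp (-(Cc L * (starRingEnd ℂ) (zz L x) * z 0) -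
      Cc L * (starRingEnd ℂ) (zz L x) * zz L x / 2) * S (z 0 + zz L x) := by
  simp only [T, TT, dotp_one, z0_apply, LL_apply, Fs, Pi.add_apply]

theorem T_zero_val (x : ℚ × ℚ) : T L S x 0 =
    cexp (-(Cc L * (starRingEnd ℂ) (zz L x) * zz L x) / 2) * S (zz L x) := by
  rw [T_apply]
  simp only [Pi.zero_apply, mul_zero, neg_zero, zero_sub, zero_add]
  congr 2
  ring

theorem Fs_differentiable (h : Differentiable ℂ S) : Differentiable ℂ (Fs S) := by
  unfold Fs
  exact h.comp (differentiable_apply 0)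

theorem pd_Fs (h : Differentiable ℂ S) (w : Fin 1 → ℂ) : pd 0 (Fs S) w = deriv S (w 0) := by
  unfold pd Fs
  have h1 : HasFDerivAt (fun z : Fin 1 → ℂ => S (z 0)) _ w :=
    (h (w 0)).hasFDerivAt.comp w (hasFDerivAt_apply (𝕜 := ℂ) (F' := fun _ : Fin 1 => ℂ) 0 w)
  rw [h1.fderiv]
  simp

theorem pdT (h : Differentiable ℂ S) (x : ℚ × ℚ) : pd 0 (T L S x) 0 =
    cexp (-(Cc L * (starRingEnd ℂ) (zz L x) * zz L x) / 2) *
      (deriv S (zz L x) - Cc L * (starRingEnd ℂ) (zz L x) * S (zz L x)) := by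
  have h1 := pd_TT (ζ := z0 L.ω₁ L.ω₂) (L := LL L) x (Fs_differentiable h) 0 0
  rw [h1, pd_Fs h]
  simp only [dotp_one, z0_apply, LL_apply, Fs, Pi.add_apply, Pi.zero_apply, zero_add, mul_zero,
    neg_zero, zero_sub]
  congr 2
  ring

/-- periodicity of the translates -/
def Per (L : PeriodPair) (S : ℂ → ℂ) (x : ℚ × ℚ) : Prop :=
  ∃ ε : ℂ, ε ≠ 0 ∧ Alg ε ∧ ∀ z, T L S x z = ε * Fs S z

theorem T_T (hS : Sig L S) (x y : ℚ × ℚ) (z : Fin 1 → ℂ) :
    TT (z0 L.ω₁ L.ω₂) (LL L) x (T L S y) z =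
      cexp (Real.pi * I * (e0 x y : ℚ)) * T L S (x + y) z :=
  TT_TT (pstr L hS.him) x y (Fs S) z

theorem shift (hS : Sig L S) {l : ℚ × ℚ} (hl : Per L S l) (x : ℚ × ℚ) :
    ∃ η : ℂ, η ≠ 0 ∧ Alg η ∧ ∀ z, T L S (x + l) z = η * T L S x z := by
  obtain ⟨ε, h1, h2, h3⟩ := hl
  have hne : cexp (Real.pi * I * (e0 x l : ℚ)) ≠ 0 := Complex.exp_ne_zero _
  refine ⟨(cexp (Real.pi * I * (e0 x l : ℚ)))⁻¹ * ε, mul_ne_zero (inv_ne_zero hne) h1,
    (alg_exp _).inv.mul h2, fun z => ?_⟩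
  have h4 := T_T hS x l z
  have h5 : T L S l = fun z => ε * Fs S z := funext h3
  rw [h5, TT_smul] at h4
  rw [mul_assoc]
  have h6 : ε * T L S x z = cexp (Real.pi * I * (e0 x l : ℚ)) * T L S (x + l) z := h4
  rw [h6, ← mul_assoc, inv_mul_cancel₀ hne, one_mul]

/-- the group of periods -/
def perG (hS : Sig L S) : AddSubgroup (ℚ × ℚ) where
  carrier := {x | Per L S x}
  zero_mem' := by
    refine ⟨1, one_ne_zero, isAlgebraic_one, fun z => ?_⟩
    have : T L S 0 = Fs S := TT_zero _ _ _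
    rw [this, one_mul]
  add_mem' := by
    intro x y hx hy
    obtain ⟨η, h1, h2, h3⟩ := shift hS hy x
    obtain ⟨ε, h4, h5, h6⟩ := hx
    refine ⟨η * ε, mul_ne_zero h1 h4, h2.mul h5, fun z => ?_⟩
    rw [h3, h6, mul_assoc]
  neg_mem' := by
    intro x hx
    obtain ⟨η, h1, h2, h3⟩ := shift hS hx (-x)
    have hne : η ≠ 0 := h1
    refine ⟨η⁻¹, inv_ne_zero h1, h2.inv, fun z => ?_⟩
    have h4 := h3 z
    rw [neg_add_cancel] at h4
    have h5 : T L S 0 = Fs S := TT_zero _ _ _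
    rw [h5] at h4
    rw [h4, ← mul_assoc, inv_mul_cancel₀ h1, one_mul]

theorem per_basis (hS : Sig L S) (x : ℚ × ℚ) (hx : zz L x = L.ω₁ ∨ zz L x = L.ω₂) (z : Fin 1 → ℂ) :
    T L S x z = -1 * Fs S z := by
  rw [T_apply, hS.per _ hx]
  unfold Fs
  have : cexp (-(Cc L * (starRingEnd ℂ) (zz L x) * z 0) -
      Cc L * (starRingEnd ℂ) (zz L x) * zz L x / 2) *
      cexp (Cc L * (starRingEnd ℂ) (zz L x) * (z 0 + zz L x / 2)) = 1 := by
    rw [← Complex.exp_add, ← Complex.exp_zero]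
    congr 1
    ring
  linear_combination (-S (z 0)) * this

theorem zz_one : zz L ((1 : ℚ), (0 : ℚ)) = L.ω₁ := by simp [zz]

theorem zz_two : zz L ((0 : ℚ), (1 : ℚ)) = L.ω₂ := by simp [zz]

theorem per_of_mem (hS : Sig L S) (x : ℚ × ℚ) (hx : zz L x ∈ L.lattice) : Per L S x := by
  rw [zz, PeriodPair.mul_ω₁_add_mul_ω₂_mem_lattice] at hx
  have h1 : ((1 : ℚ), (0 : ℚ)) ∈ perG hS :=
    ⟨-1, by norm_num, isAlgebraic_one.neg, per_basis hS _ (Or.inl zz_one)⟩
  have h2 : ((0 : ℚ), (1 : ℚ)) ∈ perG hS :=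
    ⟨-1, by norm_num, isAlgebraic_one.neg, per_basis hS _ (Or.inr zz_two)⟩
  have h3 := (perG hS).add_mem ((perG hS).zsmul_mem h1 x.1.num) ((perG hS).zsmul_mem h2 x.2.num)
  have h4 : x.1.num • ((1 : ℚ), (0 : ℚ)) + x.2.num • ((0 : ℚ), (1 : ℚ)) = x := by
    have e1 := Rat.coe_int_num_of_den_eq_one hx.1
    have e2 := Rat.coe_int_num_of_den_eq_one hx.2
    ext
    · simp [Prod.smul_fst, e1]
    · simp [Prod.smul_snd, e2]
  rw [h4] at h3
  exact h3

theorem W_ne (hS : Sig L S) (x : ℚ × ℚ) (hx : zz L x ∉ L.lattice) : T L S x 0 ≠ 0 := by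
  rw [T_zero_val]
  exact mul_ne_zero (Complex.exp_ne_zero _) fun h => hx ((hS.zero _).1 h)

theorem W_rel (hS : Sig L S) (x y : ℚ × ℚ) (hx : zz L x ∉ L.lattice) (hy : zz L y ∉ L.lattice) :
    T L S (x + y) 0 * T L S (x - y) 0 = T L S x 0 ^ 2 * T L S y 0 ^ 2 *
      (L.weierstrassP (zz L y) - L.weierstrassP (zz L x)) := by
  rw [T_zero_val, T_zero_val, T_zero_val, T_zero_val, zz_add, zz_sub]
  have h1 := hS.rel _ _ hx hy
  have h2 : cexp (-(Cc L * (starRingEnd ℂ) (zz L x + zz L y) * (zz L x + zz L y)) / 2) *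
      cexp (-(Cc L * (starRingEnd ℂ) (zz L x - zz L y) * (zz L x - zz L y)) / 2) =
      cexp (-(Cc L * (starRingEnd ℂ) (zz L x) * zz L x) / 2) ^ 2 *
      cexp (-(Cc L * (starRingEnd ℂ) (zz L y) * zz L y) / 2) ^ 2 := by
    rw [← Complex.exp_add, ← Complex.exp_nat_mul, ← Complex.exp_nat_mul, ← Complex.exp_add]
    congr 1
    rw [map_add, map_sub]
    push_cast
    ring
  calc _ = (cexp (-(Cc L * (starRingEnd ℂ) (zz L x + zz L y) * (zz L x + zz L y)) / 2) *
      cexp (-(Cc L * (starRingEnd ℂ) (zz L x - zz L y) * (zz L x - zz L y)) / 2)) *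
      (S (zz L x + zz L y) * S (zz L x - zz L y)) := by ring
    _ = _ := by rw [h2, h1]; ring

/-! ### telescoping -/

theorem tele (a : ℤ → ℂ) (N : ℕ) (hN : 0 < N) (q : ℂ)
    (hrec : ∀ k, a (k + 1) + a (k - 1) = 2 * a k + 2 * q) (hper : ∀ k, a (k + N) = a k) :
    q = 0 := by
  have h1 := Finset.sum_range_sub (fun i : ℕ => a (i : ℤ) - a ((i : ℤ) - 1)) N
  have h2 : ∀ i ∈ Finset.range N, (a ((i + 1 : ℕ) : ℤ) - a (((i + 1 : ℕ) : ℤ) - 1)) -
      (a (i : ℤ) - a ((i : ℤ) - 1)) = 2 * q := by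
    intro i _
    have h3 := hrec (i : ℤ)
    have e1 : ((i + 1 : ℕ) : ℤ) = (i : ℤ) + 1 := by push_cast; rfl
    rw [e1, add_sub_cancel_right]
    linear_combination h3
  rw [Finset.sum_congr rfl h2, Finset.sum_const, Finset.card_range] at h1
  have h4 := hper 0
  have h5 := hper (-1)
  rw [zero_add] at h4
  have e2 : (N : ℤ) - 1 = -1 + N := by ring
  have e3 : ((0 : ℕ) : ℤ) - 1 = -1 := by norm_num
  simp only [e2, h4, h5, Nat.cast_zero, zero_sub, sub_self] at h1
  rw [nsmul_eq_mul] at h1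
  have hN' : (N : ℂ) ≠ 0 := by exact_mod_cast hN.ne'
  have h6 : 2 * q = 0 := by
    rcases mul_eq_zero.1 h1 with h | h
    · exact absurd h hN'
    · exact h
  rcases mul_eq_zero.1 h6 with h | h
  · norm_num at h
  · exact h

theorem tele1 (a : ℤ → ℂ) (N : ℕ) (hN : 0 < N) (q : ℂ) (hrec : ∀ k, a (k + 1) = a k + q)
    (hper : a (0 + N) = a 0) : q = 0 := by
  have h1 : ∀ n : ℕ, a (n : ℤ) = a 0 + n * q := by
    intro n
    induction n with
    | zero => simp
    | succ n ih =>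
      have := hrec (n : ℤ)
      push_cast
      rw [this, ih]
      ring
  rw [zero_add, h1 N] at hper
  have hN' : (N : ℂ) ≠ 0 := by exact_mod_cast hN.ne'
  have h2 : (N : ℂ) * q = 0 := by linear_combination hper
  rcases mul_eq_zero.1 h2 with h | h
  · exact absurd h hN'
  · exact h

theorem algW (hD : Stmt_DER) (hS : Sig L S)
    (hP : ∀ x, zz L x ∉ L.lattice → Alg (L.weierstrassP (zz L x)) ∧
      Alg (L.derivWeierstrassP (zz L x))) (x : ℚ × ℚ) (hx : zz L x ∉ L.lattice) :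
    Alg (T L S x 0) := by
  apply hD
  intro δ
  obtain ⟨N, hN, hNx⟩ := torsion x
  obtain ⟨y, hy⟩ := avoid L x N hN (hNx L)
  have hq : δ (T L S x 0) / T L S x 0 = 0 := by
    apply tele (fun k => δ (T L S (y + k • x) 0) / T L S (y + k • x) 0) N hN
    · intro k
      have h1 := W_rel hS (y + k • x) x (hy k) hx
      have e1 : y + k • x + x = y + (k + 1) • x := by rw [add_smul, one_smul, add_assoc]
      have e2 : y + k • x - x = y + (k - 1) • x := by rw [sub_smul, one_smul, add_sub_assoc]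
      rw [e1, e2] at h1
      exact der_rel δ ((hP _ hx).1.sub (hP _ (hy k)).1) (W_ne hS _ (hy _)) (W_ne hS _ (hy _))
        (W_ne hS _ (hy _)) (W_ne hS _ hx) h1
    · intro k
      obtain ⟨η, h1, h2, h3⟩ := shift hS (per_of_mem hS _ (hNx L)) (y + k • x)
      have e1 : y + (k + (N : ℤ)) • x = y + k • x + (N : ℤ) • x := by rw [add_smul, add_assoc]
      simp only [e1, h3 0]
      rw [der_alg_mul δ h2, mul_div_mul_left _ _ h1]
  rcases div_eq_zero_iff.1 hq with h | h
  · exact h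
  · exact absurd h (W_ne hS x hx)

theorem hasDerivAt_P (a : ℂ) (ha : a ∉ L.lattice) :
    HasDerivAt L.weierstrassP (L.derivWeierstrassP a) a := by
  have h1 : DifferentiableAt ℂ L.weierstrassP a :=
    L.differentiableOn_weierstrassP.differentiableAt
      (L.isClosed_lattice.isOpen_compl.mem_nhds ha)
  have h2 := h1.hasDerivAt
  rw [PeriodPair.deriv_weierstrassP] at h2
  exact h2

/-- the addition theorem of the zeta function -/
theorem zeta_add (hS : Sig L S) (a b : ℂ) (ha : a ∉ L.lattice) (hb : b ∉ L.lattice)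
    (hab : a + b ∉ L.lattice) (hab' : a - b ∉ L.lattice) :
    deriv S (a + b) / S (a + b) = deriv S a / S a + deriv S b / S b +
      (L.derivWeierstrassP b - L.derivWeierstrassP a) /
        (L.weierstrassP b - L.weierstrassP a) / 2 := by
  have hopen : IsOpen ((L.lattice : Set ℂ)ᶜ) := L.isClosed_lattice.isOpen_compl
  have hd : ∀ w, HasDerivAt S (deriv S w) w := fun w => (hS.dif w).hasDerivAt
  have h0 := hS.rel a b ha hb
  have nA : S (a + b) ≠ 0 := fun h => hab ((hS.zero _).1 h)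
  have nB : S (a - b) ≠ 0 := fun h => hab' ((hS.zero _).1 h)
  have nX : S a ≠ 0 := fun h => ha ((hS.zero _).1 h)
  have nY : S b ≠ 0 := fun h => hb ((hS.zero _).1 h)
  have nC : L.weierstrassP b - L.weierstrassP a ≠ 0 := by
    intro h
    rw [h, mul_zero] at h0
    exact mul_ne_zero nA nB h0
  -- derivative in the first variable
  have h1 : deriv S (a + b) * S (a - b) + S (a + b) * deriv S (a - b) =
      2 * S a * deriv S a * S b ^ 2 * (L.weierstrassP b - L.weierstrassP a) -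
        S a ^ 2 * S b ^ 2 * L.derivWeierstrassP a := by
    have f1 : HasDerivAt (fun z => S (z + b) * S (z - b))
        (deriv S (a + b) * S (a - b) + S (a + b) * deriv S (a - b)) a := by
      have g1 : HasDerivAt (fun z => S (z + b)) (deriv S (a + b)) a :=
        HasDerivAt.comp_add_const a b (hd (a + b))
      have g2 : HasDerivAt (fun z => S (z - b)) (deriv S (a - b)) a :=
        HasDerivAt.comp_sub_const a b (hd (a - b))
      exact g1.mul g2
    have f2 : HasDerivAt (fun z => S z ^ 2 * S b ^ 2 * (L.weierstrassP b - L.weierstrassP z))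
        (2 * S a * deriv S a * S b ^ 2 * (L.weierstrassP b - L.weierstrassP a) -
        S a ^ 2 * S b ^ 2 * L.derivWeierstrassP a) a := by
      have g1 := ((hd a).pow 2).mul_const (S b ^ 2)
      have g2 := (hasDerivAt_P (L := L) a ha).const_sub (L.weierstrassP b)
      have g3 := g1.mul g2
      refine g3.congr_deriv ?_
      simp only [Pi.pow_apply]
      push_cast
      ring
    have f3 : (fun z => S (z + b) * S (z - b)) =ᶠ[𝓝 a]
        (fun z => S z ^ 2 * S b ^ 2 * (L.weierstrassP b - L.weierstrassP z)) := by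
      filter_upwards [hopen.mem_nhds ha] with z hz
      exact hS.rel z b hz hb
    exact (f1.congr_of_eventuallyEq f3.symm).unique f2
  -- derivative in the second variable
  have h2 : deriv S (a + b) * S (a - b) - S (a + b) * deriv S (a - b) =
      S a ^ 2 * (2 * S b * deriv S b) * (L.weierstrassP b - L.weierstrassP a) +
        S a ^ 2 * S b ^ 2 * L.derivWeierstrassP b := by
    have f1 : HasDerivAt (fun w => S (a + w) * S (a - w))
        (deriv S (a + b) * S (a - b) - S (a + b) * deriv S (a - b)) b := by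
      have g1 : HasDerivAt (fun w => S (a + w)) (deriv S (a + b)) b :=
        HasDerivAt.comp_const_add a b (hd (a + b))
      have g2 : HasDerivAt (fun w => S (a - w)) (-deriv S (a - b)) b :=
        HasDerivAt.comp_const_sub a b (hd (a - b))
      refine (g1.mul g2).congr_deriv ?_
      ring
    have f2 : HasDerivAt (fun w => S a ^ 2 * S w ^ 2 * (L.weierstrassP w - L.weierstrassP a))
        (S a ^ 2 * (2 * S b * deriv S b) * (L.weierstrassP b - L.weierstrassP a) +
        S a ^ 2 * S b ^ 2 * L.derivWeierstrassP b) b := by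
      have g1 := ((hd b).pow 2).const_mul (S a ^ 2)
      have g2 := (hasDerivAt_P (L := L) b hb).sub_const (L.weierstrassP a)
      have g3 := g1.mul g2
      refine g3.congr_deriv ?_
      simp only [Pi.pow_apply]
      push_cast
      ring
    have f3 : (fun w => S (a + w) * S (a - w)) =ᶠ[𝓝 b]
        (fun w => S a ^ 2 * S w ^ 2 * (L.weierstrassP w - L.weierstrassP a)) := by
      filter_upwards [hopen.mem_nhds hb] with w hw
      exact hS.rel a w ha hw
    exact (f1.congr_of_eventuallyEq f3.symm).unique f2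
  have h3 : deriv S (a + b) * S (a - b) = S a * S b * (L.weierstrassP b - L.weierstrassP a) *
      (deriv S a * S b + S a * deriv S b) + S a ^ 2 * S b ^ 2 *
        (L.derivWeierstrassP b - L.derivWeierstrassP a) / 2 := by
    linear_combination (1 / 2 : ℂ) * h1 + (1 / 2 : ℂ) * h2
  have h4 : deriv S (a + b) / S (a + b) = deriv S (a + b) * S (a - b) /
      (S (a + b) * S (a - b)) := by
    rw [mul_div_mul_right _ _ nB]
  rw [h4, h3, h0]
  field_simp

/-- the gradient -/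
def DD (L : PeriodPair) (S : ℂ → ℂ) (x : ℚ × ℚ) : ℂ := pd 0 (T L S x) 0

/-- the logarithmic gradient -/
def rr (L : PeriodPair) (S : ℂ → ℂ) (x : ℚ × ℚ) : ℂ := DD L S x / T L S x 0

theorem rr_eq (hS : Sig L S) (x : ℚ × ℚ) (hx : zz L x ∉ L.lattice) : rr L S x =
    deriv S (zz L x) / S (zz L x) - Cc L * (starRingEnd ℂ) (zz L x) := by
  have nX : S (zz L x) ≠ 0 := fun h => hx ((hS.zero _).1 h)
  unfold rr DD
  rw [pdT hS.dif, T_zero_val, mul_div_mul_left _ _ (Complex.exp_ne_zero _), sub_div,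
    mul_div_cancel_right₀ _ nX]

theorem rr_add (hS : Sig L S) (x y : ℚ × ℚ) (hx : zz L x ∉ L.lattice) (hy : zz L y ∉ L.lattice)
    (h1 : zz L (x + y) ∉ L.lattice) (h2 : zz L (x - y) ∉ L.lattice) :
    rr L S (x + y) = (L.derivWeierstrassP (zz L y) - L.derivWeierstrassP (zz L x)) /
        (L.weierstrassP (zz L y) - L.weierstrassP (zz L x)) / 2 + (rr L S x + rr L S y) := by
  rw [rr_eq hS _ h1, rr_eq hS _ hx, rr_eq hS _ hy]
  rw [zz_add] at h1 ⊢
  rw [zz_sub] at h2
  rw [zeta_add hS _ _ hx hy h1 h2, map_add]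
  ring

theorem pd_const_mul (η : ℂ) {F : (Fin 1 → ℂ) → ℂ} (hF : Differentiable ℂ F) :
    pd 0 (fun z => η * F z) 0 = η * pd 0 F 0 := by
  unfold pd
  rw [fderiv_const_mul (hF 0)]
  simp

theorem T_differentiable (hS : Sig L S) (x : ℚ × ℚ) : Differentiable ℂ (T L S x) :=
  TT_differentiable x (Fs_differentiable hS.dif)

theorem rr_shift (hS : Sig L S) {l : ℚ × ℚ} (hl : Per L S l) (x : ℚ × ℚ) :
    rr L S (x + l) = rr L S x := by
  obtain ⟨η, h1, -, h3⟩ := shift hS hl x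
  have h4 : T L S (x + l) = fun z => η * T L S x z := funext h3
  unfold rr DD
  rw [h4, pd_const_mul η (T_differentiable hS x), mul_div_mul_left _ _ h1]

theorem algR (hD : Stmt_DER) (hS : Sig L S)
    (hP : ∀ x, zz L x ∉ L.lattice → Alg (L.weierstrassP (zz L x)) ∧
      Alg (L.derivWeierstrassP (zz L x))) (x : ℚ × ℚ) (hx : zz L x ∉ L.lattice) :
    Alg (rr L S x) := by
  apply hD
  intro δ
  obtain ⟨N, hN, hNx⟩ := torsion x
  obtain ⟨y, hy⟩ := avoid L x N hN (hNx L)
  apply tele1 (fun k => δ (rr L S (y + k • x))) N hN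
  · intro k
    have e1 : y + (k + 1) • x = y + k • x + x := by rw [add_smul, one_smul, add_assoc]
    have e2 : y + (k - 1) • x = y + k • x - x := by rw [sub_smul, one_smul, add_sub_assoc]
    have h1 := hy (k + 1)
    have h2 := hy (k - 1)
    rw [e1] at h1
    rw [e2] at h2
    have h3 := rr_add hS (y + k • x) x (hy k) hx h1 h2
    simp only [e1]
    rw [h3, map_add, map_add]
    have h4 : δ ((L.derivWeierstrassP (zz L x) - L.derivWeierstrassP (zz L (y + k • x))) /
        (L.weierstrassP (zz L x) - L.weierstrassP (zz L (y + k • x))) / 2) = 0 := by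
      apply der_alg
      have h5 : Alg (2 : ℂ) := by
        have := isAlgebraic_algebraMap (R := ℚ) (A := ℂ) (2 : ℚ)
        simpa using this
      simp only [div_eq_mul_inv]
      exact (((hP _ hx).2.sub (hP _ (hy k)).2).mul ((hP _ hx).1.sub (hP _ (hy k)).1).inv).mul
        h5.inv
    rw [h4, zero_add]
  · have e1 : y + (0 + (N : ℤ)) • x = y + (0 : ℤ) • x + (N : ℤ) • x := by
      rw [add_smul, add_assoc]
    simp only [e1]
    rw [rr_shift hS (per_of_mem hS _ (hNx L))]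

theorem all_alg (hD : Stmt_DER) (hS : Sig L S)
    (hP : ∀ x, zz L x ∉ L.lattice → Alg (L.weierstrassP (zz L x)) ∧
      Alg (L.derivWeierstrassP (zz L x))) (x : ℚ × ℚ) : Alg (T L S x 0) ∧ Alg (DD L S x) := by
  by_cases hx : zz L x ∈ L.lattice
  · obtain ⟨ε, h1, h2, h3⟩ := per_of_mem hS x hx
    have h4 : T L S x = fun z => ε * Fs S z := funext h3
    have hz : S 0 = 0 := (hS.zero 0).2 L.lattice.zero_mem
    constructor
    · rw [h4]
      have : Fs S 0 = 0 := hz
      simp only [this, mul_zero]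
      exact isAlgebraic_zero
    · unfold DD
      rw [h4, pd_const_mul ε (Fs_differentiable hS.dif), pd_Fs hS.dif]
      have : deriv S ((0 : Fin 1 → ℂ) 0) = 1 := hS.d0
      rw [this, mul_one]
      exact h2
  · have h1 := algW hD hS hP x hx
    refine ⟨h1, ?_⟩
    have h2 := algR hD hS hP x hx
    have h3 : DD L S x = rr L S x * T L S x 0 := by
      unfold rr
      rw [div_mul_cancel₀ _ (W_ne hS x hx)]
    rw [h3]
    exact h2.mul h1

end

end WEI_

open WEI_ in
theorem wei_proof (h1 : Stmt_SIG) (h2 : Stmt_TRP) (h3 : Stmt_DER) : Stmt_WEI := by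
  intro L him hg2 hg3
  obtain ⟨S, s1, -, s3, s4, s5, s6⟩ := h1 L him
  have hS : Sig L S := ⟨him_of L him, s1, s3, s4, s5, s6⟩
  have hP : ∀ x, zz L x ∉ L.lattice → Alg (L.weierstrassP (zz L x)) ∧
      Alg (L.derivWeierstrassP (zz L x)) := by
    intro x hx
    obtain ⟨N, hN, hNx⟩ := torsion x
    refine h2 L him hg2 hg3 _ hx ⟨N, hN, ?_⟩
    have := hNx L
    rw [zz_zsmul] at this
    exact_mod_cast this
  have hall := all_alg h3 hS hP
  refine ⟨fun _ => one_ne_zero, BB, LL L, T L S (-1 / 2, -1 / 2), symp, pstr L hS.him, ?_, ?_, ?_⟩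
  · refine ⟨T_differentiable hS _, ?_⟩
    have key : ∀ x : ℚ × ℚ, (zz L x = L.ω₁ ∨ zz L x = L.ω₂) →
        (e0 x (-1 / 2, -1 / 2) = -1 / 2 ∨ e0 x (-1 / 2, -1 / 2) = 1 / 2) →
        TT (z0 L.ω₁ L.ω₂) (LL L) x (T L S (-1 / 2, -1 / 2)) = T L S (-1 / 2, -1 / 2) := by
      intro x hx he
      funext z
      have h4 := TT_comm' symp (pstr L hS.him) x (-1 / 2, -1 / 2) (Fs S) z
      have h5 : TT (z0 L.ω₁ L.ω₂) (LL L) x (Fs S) = fun z => -1 * Fs S z :=
        funext (per_basis hS x hx)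
      rw [h5, TT_smul] at h4
      have h6 : cexp (2 * Real.pi * I * (e0 x (-1 / 2, -1 / 2) : ℚ)) = -1 := by
        rcases he with he | he
        · rw [he]
          have : 2 * (Real.pi : ℂ) * I * ((-1 / 2 : ℚ) : ℂ) = -(Real.pi * I) := by
            push_cast; ring
          rw [this, Complex.exp_neg, Complex.exp_pi_mul_I]
          norm_num
        · rw [he]
          have : 2 * (Real.pi : ℂ) * I * ((1 / 2 : ℚ) : ℂ) = Real.pi * I := by
            push_cast; ring
          rw [this, Complex.exp_pi_mul_I]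
      rw [h6] at h4
      rw [h4]
      ring
    intro j
    rcases j with j | j
    · rw [BB_inl]
      apply key _ (Or.inl zz_one)
      left
      rw [e0_apply]
      norm_num
    · rw [BB_inr]
      apply key _ (Or.inr zz_two)
      right
      rw [e0_apply]
      norm_num
  · intro h0
    have h4 : Fs S = 0 := (TT_eq_iff_ne_zero (ζ := z0 L.ω₁ L.ω₂) (L := LL L) _ _).1 h0
    have h5 : L.ω₁ / 2 ∉ L.lattice := L.ω₁_div_two_notMem_lattice
    apply h5
    rw [← hS.zero]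
    exact congrFun h4 (fun _ => L.ω₁ / 2)
  · refine ⟨1, one_ne_zero, fun x => ?_⟩
    have h4 : TT (z0 L.ω₁ L.ω₂) (LL L) x (T L S (-1 / 2, -1 / 2)) =
        fun z => cexp (Real.pi * I * (e0 x (-1 / 2, -1 / 2) : ℚ)) *
          T L S (x + (-1 / 2, -1 / 2)) z := funext (T_T hS x _)
    constructor
    · rw [h4, div_one]
      exact (alg_exp _).mul (hall _).1
    · intro i
      have hi : i = 0 := Subsingleton.elim _ _
      rw [h4, mul_one, div_one, hi, pd_const_mul _ (T_differentiable hS _)]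
      exact (alg_exp _).mul (hall _).2

end

end Pool.Agent.SPF
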