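import Pool.Agent.SPF.Core
import Pool.Agent.SPF.ABV
import Pool.Agent.SPF.ADT
import Pool.Agent.SPF.BAS
import Pool.Agent.SPF.DIM
import Pool.Agent.SPF.FRM
import Pool.Agent.SPF.HM1
import Pool.Agent.SPF.HM2
import Pool.Agent.SPF.HRM
import Pool.Agent.SPF.IDP
import Pool.Agent.SPF.IMK
import Pool.Agent.SPF.INF
import Pool.Agent.SPF.LALG
import Pool.Agent.SPF.LGD
import Pool.Agent.SPF.LIN
import Pool.Agent.SPF.NRM
import Pool.Agent.SPF.PER
import Pool.Agent.SPF.POI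
import Pool.Agent.SPF.PRL
import Pool.Agent.SPF.SCA
import Pool.Agent.SPF.SIG
import Pool.Agent.SPF.SPN
import Pool.Agent.SPF.TRF
import Pool.Agent.SPF.TRP
import Pool.Agent.SPF.UNQ
import Pool.Agent.SPF.WEI
import Pool.Agent.DRB.AUT2

/-!
# Shimura period relations: assembly of the core and of the outer block
-/

namespace Pool.Agent.SPF

theorem p_DIM : Stmt_DIM := dim_proof thu_proof

theorem p_SIG : Stmt_SIG := sig_proof thu_proof the_proof p_DIM

theorem p_TRP : Stmt_TRP := trp_proof p_SIG der_proof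

theorem p_WEI : Stmt_WEI := wei_proof p_SIG p_TRP der_proof

theorem p_BAS : Stmt_BAS := bas_proof p_WEI lin_proof

theorem p_SCA : Stmt_SCA := sca_proof p_SUM lin_proof

theorem p_HRM : Stmt_HRM := hrm_proof p_BAS p_SUM p_SCA lin_proof rlb_proof

theorem p_INF : Stmt_INF := inf_proof p_HRM

theorem p_ALLT : Stmt_ALLT := allt_proof p_STEPE p_INF

theorem p_PRL : Stmt_PRL := prl_proof adt_proof

theorem p_HM1 : Stmt_HM1 :=
  hm1_proof idp_proof p_PRL frm_proof trf_proof per_proof DRB.aut2_proof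

theorem p_HM2 : Stmt_HM2 :=
  hm2_proof p_HM1 idp_proof p_PRL frm_proof trf_proof DRB.aut2_proof

theorem p_ABV (hIRR : Stmt_IRR) (hALGD : Stmt_ALGD) : Stmt_ABV :=
  abv_proof the_proof p_SALL sep1_proof (spn_proof hIRR) lalg_proof hALGD
    (nrm_proof hIRR poi_proof) (imk_proof sep1_proof) (lgd_proof hALGD)

theorem p_UNQ (hIRR : Stmt_IRR) (hALGD : Stmt_ALGD) : Stmt_UNQ :=
  unq_proof (p_ABV hIRR hALGD) p_HM1 rlb_proof

theorem p_R4 (hIRR : Stmt_IRR) (hALGD : Stmt_ALGD) : Stmt_R4 :=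
  r4_proof p_STEPE (p_UNQ hIRR hALGD)

theorem p_TBL (hIRR : Stmt_IRR) (hALGD : Stmt_ALGD) : Stmt_TBL :=
  tbl_proof p_ALLT (p_R4 hIRR hALGD) twi_proof (p_UNQ hIRR hALGD)

end Pool.Agent.SPF
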