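import Pool.Agent.SPF.Kit

/-!
# CLM: the derivation claim
-/

open scoped BigOperators Topology PowerSeries
open Filter

namespace Pool.Agent.SPF

namespace CLM_

/-! ### power series of analytic functions of one variable -/

/-- `p` is the power series of `f` at `0` -/
def Rep (p : ℂ⟦X⟧) (f : ℂ → ℂ) : Prop :=
  ∀ᶠ s in 𝓝 (0 : ℂ), HasSum (fun n => PowerSeries.coeff n p * s ^ n) (f s)

theorem rep_exists {f : ℂ → ℂ} (hf : AnalyticAt ℂ f 0) : ∃ p, Rep p f := by
  obtain ⟨q, hq⟩ := hf
  refine ⟨PowerSeries.mk fun n => q.coeff n, ?_⟩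
  have h := hasFPowerSeriesAt_iff.1 hq
  filter_upwards [h] with s hs
  simp only [PowerSeries.coeff_mk]
  simpa [smul_eq_mul, mul_comm] using hs

theorem rep_add {p q : ℂ⟦X⟧} {f g : ℂ → ℂ} (hp : Rep p f) (hq : Rep q g) :
    Rep (p + q) (fun s => f s + g s) := by
  filter_upwards [hp, hq] with s h1 h2
  simpa [add_mul] using h1.add h2

theorem rep_const (a : ℂ) : Rep (PowerSeries.C a) (fun _ => a) := by
  refine Filter.Eventually.of_forall (fun s => ?_)
  have h := hasSum_single (f := fun n => PowerSeries.coeff n (PowerSeries.C a) * s ^ n) 0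
    (fun n hn => by
      simp [PowerSeries.coeff_C, hn])
  simpa using h

theorem rep_mul {p q : ℂ⟦X⟧} {f g : ℂ → ℂ} (hp : Rep p f) (hq : Rep q g) :
    Rep (p * q) (fun s => f s * g s) := by
  filter_upwards [hp, hq] with s h1 h2
  have n1 := h1.summable.norm
  have n2 := h2.summable.norm
  have h3 := tsum_mul_tsum_eq_tsum_sum_antidiagonal_of_summable_norm n1 n2
  have h4 := (summable_norm_sum_mul_antidiagonal_of_summable_norm n1 n2).of_norm
  have h5 := h4.hasSum
  rw [← h3, h1.tsum_eq, h2.tsum_eq] at h5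
  have e : (fun n => PowerSeries.coeff n (p * q) * s ^ n) = fun n =>
      ∑ kl ∈ Finset.HasAntidiagonal.antidiagonal n,
        PowerSeries.coeff kl.1 p * s ^ kl.1 * (PowerSeries.coeff kl.2 q * s ^ kl.2) := by
    funext n
    rw [PowerSeries.coeff_mul, Finset.sum_mul]
    refine Finset.sum_congr rfl (fun kl hkl => ?_)
    rw [← Finset.HasAntidiagonal.mem_antidiagonal.1 hkl, pow_add]
    ring
  rw [e]
  exact h5

theorem rep_congr {p : ℂ⟦X⟧} {f g : ℂ → ℂ} (hp : Rep p f) (h : f =ᶠ[𝓝 0] g) : Rep p g := by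
  filter_upwards [hp, h] with s h1 h2
  rwa [← h2]

theorem rep_zero {p : ℂ⟦X⟧} {f : ℂ → ℂ} (hp : Rep p f) (h : f =ᶠ[𝓝 0] 0) : p = 0 := by
  have h1 : HasFPowerSeriesAt f (FormalMultilinearSeries.ofScalars ℂ
      (fun n => PowerSeries.coeff n p)) 0 := by
    rw [hasFPowerSeriesAt_iff]
    filter_upwards [hp] with s hs
    simpa [FormalMultilinearSeries.coeff_ofScalars, smul_eq_mul, mul_comm] using hs
  have h2 := h1.eq_zero_of_eventually h
  ext n
  have h3 := congrArg (fun q : FormalMultilinearSeries ℂ ℂ ℂ => q.coeff n) h2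
  simp only [FormalMultilinearSeries.coeff_ofScalars] at h3
  rw [h3, map_zero]
  rfl

theorem rep_ne_zero {p : ℂ⟦X⟧} {f : ℂ → ℂ} (hp : Rep p f) (h : ¬ f =ᶠ[𝓝 0] 0) : p ≠ 0 := by
  rintro rfl
  apply h
  filter_upwards [hp] with s hs
  simp only [map_zero, zero_mul] at hs
  exact hs.unique hasSum_zero

theorem rep_coeff_zero {p : ℂ⟦X⟧} {f : ℂ → ℂ} (hp : Rep p f) : PowerSeries.coeff 0 p = f 0 := by
  have h := hp.self_of_nhds
  have h' := hasSum_single (f := fun n => PowerSeries.coeff n p * (0 : ℂ) ^ n) 0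
    (fun n hn => by simp [hn])
  have := h.unique h'
  simpa using this.symm

theorem rep_sum {α : Type} (s : Finset α) {p : α → ℂ⟦X⟧} {f : α → ℂ → ℂ}
    (h : ∀ a ∈ s, Rep (p a) (f a)) : Rep (∑ a ∈ s, p a) (fun z => ∑ a ∈ s, f a z) := by
  classical
  induction s using Finset.induction_on with
  | empty =>
    have := rep_const 0
    simpa using this
  | insert a s ha ih =>
    simp only [Finset.sum_insert ha]
    exact rep_add (h a (Finset.mem_insert_self _ _))
      (ih fun b hb => h b (Finset.mem_insert_of_mem hb))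

theorem rep_aeval {σ : Type} {p : σ → ℂ⟦X⟧} {f : σ → ℂ → ℂ} (h : ∀ o, Rep (p o) (f o))
    (Q : MvPolynomial σ ℂ) :
    Rep (MvPolynomial.eval₂ PowerSeries.C p Q) (fun s => MvPolynomial.eval (fun o => f o s) Q) := by
  induction Q using MvPolynomial.induction_on with
  | C a =>
    simp only [MvPolynomial.eval₂_C, MvPolynomial.eval_C]
    exact rep_const a
  | add P Q hP hQ =>
    simp only [MvPolynomial.eval₂_add, map_add]
    exact rep_add hP hQ
  | mul_X Q o hQ =>
    simp only [MvPolynomial.eval₂_mul, MvPolynomial.eval₂_X, map_mul, MvPolynomial.eval_X]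
    exact rep_mul hQ (h o)

/-! ### the coefficientwise derivation -/

/-- coefficientwise derivation -/
noncomputable def DD (δ : Derivation ℚ ℂ ℂ) (p : ℂ⟦X⟧) : ℂ⟦X⟧ :=
  PowerSeries.mk fun n => δ (PowerSeries.coeff n p)

theorem DD_add (δ : Derivation ℚ ℂ ℂ) (p q : ℂ⟦X⟧) : DD δ (p + q) = DD δ p + DD δ q := by
  ext n; simp [DD]

theorem DD_mul (δ : Derivation ℚ ℂ ℂ) (p q : ℂ⟦X⟧) :
    DD δ (p * q) = p * DD δ q + q * DD δ p := by
  ext n
  rw [mul_comm q (DD δ p), map_add, PowerSeries.coeff_mul, PowerSeries.coeff_mul]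
  simp only [DD, PowerSeries.coeff_mk]
  rw [PowerSeries.coeff_mul, map_sum, ← Finset.sum_add_distrib]
  refine Finset.sum_congr rfl (fun kl _ => ?_)
  rw [Derivation.leibniz]
  simp only [smul_eq_mul]
  ring

theorem DD_C (δ : Derivation ℚ ℂ ℂ) (a : ℂ) : DD δ (PowerSeries.C a) = PowerSeries.C (δ a) := by
  ext n
  simp only [DD, PowerSeries.coeff_mk, PowerSeries.coeff_C]
  by_cases hn : n = 0
  · simp [hn]
  · simp [hn]

theorem delta_alg (δ : Derivation ℚ ℂ ℂ) {a : ℂ} (ha : Alg a) : δ a = 0 := by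
  have h := Derivation.map_aeval δ (minpoly ℚ a) a
  rw [minpoly.aeval, map_zero, smul_eq_mul] at h
  have hs : (minpoly ℚ a).Separable := (minpoly.irreducible ha.isIntegral).separable
  have h1 := hs.aeval_derivative_ne_zero (minpoly.aeval ℚ a)
  rcases mul_eq_zero.1 h.symm with h2 | h2
  · exact absurd h2 h1
  · exact h2

/-- chain rule for the coefficientwise derivation and polynomials with algebraic coefficients -/
theorem DD_eval {σ : Type} [Fintype σ] [DecidableEq σ] (δ : Derivation ℚ ℂ ℂ) (p : σ → ℂ⟦X⟧)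
    (Q : MvPolynomial σ ℂ) (hQ : AlgPoly Q) :
    DD δ (MvPolynomial.eval₂ PowerSeries.C p Q) =
      ∑ o, MvPolynomial.eval₂ PowerSeries.C p (MvPolynomial.pderiv o Q) * DD δ (p o) := by
  -- the set of good polynomials
  have key : ∀ Q : MvPolynomial σ ℂ, (∀ m, δ (Q.coeff m) = 0) →
      DD δ (MvPolynomial.eval₂ PowerSeries.C p Q) =
        ∑ o, MvPolynomial.eval₂ PowerSeries.C p (MvPolynomial.pderiv o Q) * DD δ (p o) := by
    let T : Subsemiring (MvPolynomial σ ℂ) :=
      { carrier := {Q | DD δ (MvPolynomial.eval₂ PowerSeries.C p Q) =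
          ∑ o, MvPolynomial.eval₂ PowerSeries.C p (MvPolynomial.pderiv o Q) * DD δ (p o)}
        mul_mem' := by
          intro a b ha hb
          simp only [Set.mem_ofPred_eq] at ha hb ⊢
          rw [MvPolynomial.eval₂_mul, DD_mul, ha, hb, Finset.mul_sum, Finset.mul_sum,
            ← Finset.sum_add_distrib]
          refine Finset.sum_congr rfl (fun o _ => ?_)
          rw [Derivation.leibniz]
          simp only [smul_eq_mul, MvPolynomial.eval₂_add, MvPolynomial.eval₂_mul]
          ring
        one_mem' := by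
          simp only [Set.mem_ofPred_eq, MvPolynomial.eval₂_one]
          have h1 : DD δ (1 : ℂ⟦X⟧) = 0 := by
            have := DD_C δ 1
            simpa using this
          rw [h1]
          simp
        add_mem' := by
          intro a b ha hb
          simp only [Set.mem_ofPred_eq] at ha hb ⊢
          rw [MvPolynomial.eval₂_add, DD_add, ha, hb, ← Finset.sum_add_distrib]
          refine Finset.sum_congr rfl (fun o _ => ?_)
          rw [map_add, MvPolynomial.eval₂_add]
          ring
        zero_mem' := by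
          simp only [Set.mem_ofPred_eq, MvPolynomial.eval₂_zero]
          have h1 : DD δ (0 : ℂ⟦X⟧) = 0 := by
            ext n; simp [DD]
          rw [h1]
          simp }
    have hX : ∀ o, (MvPolynomial.X o : MvPolynomial σ ℂ) ∈ T := by
      intro o
      change DD δ (MvPolynomial.eval₂ PowerSeries.C p (MvPolynomial.X o)) = _
      rw [MvPolynomial.eval₂_X, Finset.sum_eq_single o]
      · simp
      · intro b _ hb
        rw [MvPolynomial.pderiv_X_of_ne hb.symm]
        simp
      · intro h; exact absurd (Finset.mem_univ _) h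
    have hC : ∀ a : ℂ, δ a = 0 → (MvPolynomial.C a : MvPolynomial σ ℂ) ∈ T := by
      intro a ha
      change DD δ (MvPolynomial.eval₂ PowerSeries.C p (MvPolynomial.C a)) = _
      rw [MvPolynomial.eval₂_C, DD_C, ha]
      simp
    intro Q hQ
    have : Q ∈ T := by
      rw [MvPolynomial.as_sum Q]
      refine Subsemiring.sum_mem T (fun m _ => ?_)
      rw [MvPolynomial.monomial_eq]
      refine T.mul_mem (hC _ (hQ m)) ?_
      exact Subsemiring.prod_mem T (fun o _ => T.pow_mem (hX o) _)
    exact this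
  exact key Q (fun m => delta_alg δ (hQ m))

/-! ### partial derivatives of polynomials -/

theorem coeff_pd {σ : Type} [DecidableEq σ] (i : σ) (P : MvPolynomial σ ℂ) (m : σ →₀ ℕ) :
    (MvPolynomial.pderiv i P).coeff m = P.coeff (m + Finsupp.single i 1) * (m i + 1) := by
  induction P using MvPolynomial.induction_on' with
  | monomial u a =>
    rw [MvPolynomial.pderiv_monomial, MvPolynomial.coeff_monomial, MvPolynomial.coeff_monomial]
    by_cases h : u = m + Finsupp.single i 1
    · subst h
      simp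
    · rw [if_neg h, zero_mul]
      by_cases h0 : u i = 0
      · simp [h0]
      · rw [if_neg]
        intro h'
        apply h
        rw [← h']
        ext j
        by_cases hj : j = i
        · subst hj
          simp
          omega
        · simp [Ne.symm hj]
  | add P Q hP hQ =>
    rw [map_add, MvPolynomial.coeff_add, hP, hQ, MvPolynomial.coeff_add]
    ring

theorem algPoly_pd {σ : Type} [DecidableEq σ] (i : σ) {P : MvPolynomial σ ℂ} (hP : AlgPoly P) :
    AlgPoly (MvPolynomial.pderiv i P) := by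
  intro m
  rw [coeff_pd]
  refine (hP _).mul ?_
  exact (isAlgebraic_natCast (R := ℚ) (A := ℂ) (m i)).add (isAlgebraic_one)

theorem pd_deg {σ : Type} [DecidableEq σ] (i : σ) {P : MvPolynomial σ ℂ}
    (h : MvPolynomial.pderiv i P ≠ 0) :
    (MvPolynomial.pderiv i P).totalDegree < P.totalDegree := by
  have key : ∀ m ∈ (MvPolynomial.pderiv i P).support, (m.sum fun _ e => e) + 1 ≤ P.totalDegree := by
    intro m hm
    rw [MvPolynomial.mem_support_iff, coeff_pd] at hm
    have h1 : P.coeff (m + Finsupp.single i 1) ≠ 0 := left_ne_zero_of_mul hm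
    have h2 := MvPolynomial.le_totalDegree (MvPolynomial.mem_support_iff.2 h1)
    rw [Finsupp.sum_add_index' (fun _ => rfl) (fun _ _ _ => rfl)] at h2
    simpa using h2
  obtain ⟨m0, hm0⟩ := MvPolynomial.support_nonempty.2 h
  have h0 := key m0 hm0
  rw [MvPolynomial.totalDegree, Finset.sup_lt_iff (by
    rw [bot_eq_zero]
    omega)]
  intro m hm
  exact key m hm

theorem const_of_pd {σ : Type} [DecidableEq σ] {P : MvPolynomial σ ℂ}
    (h : ∀ i, MvPolynomial.pderiv i P = 0) : P = MvPolynomial.C (P.coeff 0) := by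
  ext m
  rw [MvPolynomial.coeff_C]
  by_cases hm : 0 = m
  · simp [hm]
  · rw [if_neg hm]
    obtain ⟨i, hi⟩ : ∃ i, m i ≠ 0 := by
      by_contra hcon
      push Not at hcon
      apply hm
      ext i
      simp [hcon i]
    have h1 := coeff_pd i P (m - Finsupp.single i 1)
    rw [h i] at h1
    have h2 : m - Finsupp.single i 1 + Finsupp.single i 1 = m := by
      ext j
      by_cases hj : j = i
      · subst hj
        simp
        omega
      · simp [Ne.symm hj]
    rw [h2, MvPolynomial.coeff_zero] at h1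
    obtain ⟨m', hm'⟩ : ∃ m' : σ →₀ ℕ, m' = m - Finsupp.single i 1 := ⟨_, rfl⟩
    rw [← hm'] at h1
    have h3 : ((m' i : ℕ) : ℂ) + 1 ≠ 0 := by
      exact_mod_cast Nat.succ_ne_zero (m' i)
    rcases mul_eq_zero.1 h1.symm with h4 | h4
    · exact h4
    · exact absurd h4 h3

/-! ### derivatives of polynomials in functions -/

theorem hasFDerivAt_eval {σ : Type} [Fintype σ] [DecidableEq σ] {E : Type} [NormedAddCommGroup E]
    [NormedSpace ℂ E] (f : σ → E → ℂ) (f' : σ → E →L[ℂ] ℂ) (z : E)
    (h : ∀ o, HasFDerivAt (f o) (f' o) z) (Q : MvPolynomial σ ℂ) :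
    HasFDerivAt (fun z => MvPolynomial.eval (fun o => f o z) Q)
      (∑ o, MvPolynomial.eval (fun o => f o z) (MvPolynomial.pderiv o Q) • f' o) z := by
  induction Q using MvPolynomial.induction_on with
  | C a =>
    have e : (∑ o, MvPolynomial.eval (fun o => f o z)
        (MvPolynomial.pderiv o (MvPolynomial.C a)) • f' o) = 0 := by
      refine Finset.sum_eq_zero (fun o _ => ?_)
      rw [MvPolynomial.pderiv_C, map_zero]
      ext x
      simp
    rw [e]
    simp only [MvPolynomial.eval_C]
    exact hasFDerivAt_const a z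
  | add P Q hP hQ =>
    have e : (∑ o, MvPolynomial.eval (fun o => f o z)
        (MvPolynomial.pderiv o (P + Q)) • f' o) =
        (∑ o, MvPolynomial.eval (fun o => f o z) (MvPolynomial.pderiv o P) • f' o) +
        ∑ o, MvPolynomial.eval (fun o => f o z) (MvPolynomial.pderiv o Q) • f' o := by
      rw [← Finset.sum_add_distrib]
      refine Finset.sum_congr rfl (fun o _ => ?_)
      rw [map_add, map_add]
      ext x
      simp [add_mul]
    rw [e]
    have h1 := hP.fun_add hQ
    simp only [map_add]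
    exact h1
  | mul_X Q o hQ =>
    have h1 := hQ.fun_mul (h o)
    have e : (∑ o', MvPolynomial.eval (fun o => f o z)
        (MvPolynomial.pderiv o' (Q * MvPolynomial.X o)) • f' o') =
        MvPolynomial.eval (fun o => f o z) Q • f' o + f o z •
          ∑ o, MvPolynomial.eval (fun o => f o z) (MvPolynomial.pderiv o Q) • f' o := by
      rw [Finset.smul_sum]
      have : MvPolynomial.eval (fun o => f o z) Q • f' o = ∑ o',
          (if o' = o then MvPolynomial.eval (fun o => f o z) Q • f' o' else 0) := by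
        rw [Finset.sum_ite_eq' Finset.univ o]
        simp
      rw [this, ← Finset.sum_add_distrib]
      refine Finset.sum_congr rfl (fun o' _ => ?_)
      rw [Derivation.leibniz]
      by_cases ho : o' = o
      · subst ho
        rw [MvPolynomial.pderiv_X_self, smul_eq_mul, mul_one, smul_eq_mul, map_add, map_mul,
          MvPolynomial.eval_X, if_pos rfl]
        ext x
        simp only [add_apply, smul_apply, smul_eq_mul]
        ring
      · rw [MvPolynomial.pderiv_X_of_ne (Ne.symm ho), smul_eq_mul, mul_zero, zero_add,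
          smul_eq_mul, map_mul, MvPolynomial.eval_X, if_neg ho, zero_add]
        ext x
        simp only [smul_apply, smul_eq_mul]
        ring
    rw [e]
    have e2 : (fun z => MvPolynomial.eval (fun o => f o z) (Q * MvPolynomial.X o)) =
        fun z => MvPolynomial.eval (fun o => f o z) Q * f o z := by
      funext z
      rw [map_mul, MvPolynomial.eval_X]
    rw [e2]
    exact h1

theorem pd_eval {σ r : Type} [Fintype σ] [DecidableEq σ] [Fintype r] [DecidableEq r]
    (f : σ → (r → ℂ) → ℂ) (z : r → ℂ) (h : ∀ o, DifferentiableAt ℂ (f o) z)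
    (Q : MvPolynomial σ ℂ) (j : r) :
    pd j (fun z => MvPolynomial.eval (fun o => f o z) Q) z =
      ∑ o, MvPolynomial.eval (fun o => f o z) (MvPolynomial.pderiv o Q) * pd j (f o) z := by
  have h1 := hasFDerivAt_eval f (fun o => fderiv ℂ (f o) z) z (fun o => (h o).hasFDerivAt) Q
  unfold pd
  rw [h1.fderiv]
  simp [smul_eq_mul]

theorem analyticAt_eval {σ : Type} {E : Type} [NormedAddCommGroup E]
    [NormedSpace ℂ E] (f : σ → E → ℂ) (z : E) (h : ∀ o, AnalyticAt ℂ (f o) z)
    (Q : MvPolynomial σ ℂ) : AnalyticAt ℂ (fun z => MvPolynomial.eval (fun o => f o z) Q) z := by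
  induction Q using MvPolynomial.induction_on with
  | C a =>
    simp only [MvPolynomial.eval_C]
    exact analyticAt_const
  | add P Q hP hQ =>
    simp only [map_add]
    exact hP.add hQ
  | mul_X Q o hQ =>
    simp only [map_mul, MvPolynomial.eval_X]
    exact hQ.mul (h o)

/-- a line along which an analytic function does not vanish identically -/
theorem exists_line {E : Type} [NormedAddCommGroup E] [NormedSpace ℂ E] {h : E → ℂ} {z₀ : E}
    (hh : AnalyticAt ℂ h z₀) (hn : ¬ ∀ᶠ z in 𝓝 z₀, h z = 0) :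
    ∃ w : E, ¬ (fun s : ℂ => h (z₀ + s • w)) =ᶠ[𝓝 0] 0 := by
  obtain ⟨ε, hε, hb⟩ := Metric.eventually_nhds_iff_ball.1 hh.eventually_analyticAt
  obtain ⟨z₁, hz₁, hne⟩ : ∃ z₁ ∈ Metric.ball z₀ (ε / 2), h z₁ ≠ 0 := by
    by_contra hcon
    push Not at hcon
    apply hn
    filter_upwards [Metric.ball_mem_nhds z₀ (half_pos hε)] with z hz
    exact hcon z hz
  refine ⟨z₁ - z₀, fun hcon => hne ?_⟩
  have hnorm : ‖z₁ - z₀‖ < ε / 2 := by
    rw [← dist_eq_norm]; exact Metric.mem_ball.1 hz₁
  have han : AnalyticOnNhd ℂ (fun s : ℂ => h (z₀ + s • (z₁ - z₀))) (Metric.ball 0 2) := by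
    intro s hs
    have hs' : ‖s‖ < 2 := by simpa using hs
    have hmem : z₀ + s • (z₁ - z₀) ∈ Metric.ball z₀ ε := by
      rw [Metric.mem_ball, dist_eq_norm, add_sub_cancel_left, norm_smul]
      calc ‖s‖ * ‖z₁ - z₀‖ ≤ 2 * ‖z₁ - z₀‖ :=
            mul_le_mul_of_nonneg_right hs'.le (norm_nonneg _)
        _ < ε := by linarith
    have h1 : AnalyticAt ℂ h ((fun s : ℂ => z₀ + s • (z₁ - z₀)) s) := hb _ hmem
    exact AnalyticAt.fun_comp (g := h) (f := fun s : ℂ => z₀ + s • (z₁ - z₀)) h1 (by fun_prop)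
  have h2 := han.eqOn_zero_of_preconnected_of_eventuallyEq_zero
    (convex_ball (0 : ℂ) 2).isPreconnected (Metric.mem_ball_self (by norm_num)) hcon
  have h3 := h2 (x := 1) (by simp)
  simpa using h3

theorem analytic_pd {r : Type} [Fintype r] [DecidableEq r] {f : (r → ℂ) → ℂ} {z : r → ℂ}
    (hf : AnalyticAt ℂ f z) (j : r) : AnalyticAt ℂ (pd j f) z := by
  have h1 : AnalyticAt ℂ (fderiv ℂ f) z := hf.fderiv
  exact ((ContinuousLinearMap.apply ℂ ℂ (Pi.single j (1 : ℂ) : r → ℂ)).analyticAt
    (fderiv ℂ f z)).fun_comp h1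

theorem analytic_line {E : Type} [NormedAddCommGroup E] [NormedSpace ℂ E] {h : E → ℂ} {z₀ : E}
    (hh : AnalyticAt ℂ h z₀) (w : E) : AnalyticAt ℂ (fun s : ℂ => h (z₀ + s • w)) 0 := by
  have h1 : AnalyticAt ℂ h ((fun s : ℂ => z₀ + s • w) 0) := by simpa using hh
  exact AnalyticAt.fun_comp (g := h) (f := fun s : ℂ => z₀ + s • w) h1 (by fun_prop)

theorem line_tendsto {E : Type} [NormedAddCommGroup E] [NormedSpace ℂ E] (z₀ w : E) :
    Tendsto (fun s : ℂ => z₀ + s • w) (𝓝 0) (𝓝 z₀) := by
  have : Continuous (fun s : ℂ => z₀ + s • w) := by fun_prop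
  simpa using this.tendsto 0

/-- the functions `φ, ψ_i` -/
def fam {r : Type} (φ : (r → ℂ) → ℂ) (ψ : r → (r → ℂ) → ℂ) (o : Option r) : (r → ℂ) → ℂ :=
  o.elim φ ψ

theorem fam_eval {r : Type} (φ : (r → ℂ) → ℂ) (ψ : r → (r → ℂ) → ℂ) (z : r → ℂ) :
    (fun o => fam φ ψ o z) = fun o : Option r => o.elim (φ z) (fun i => ψ i z) := by
  funext o
  cases o <;> rfl

/-- a relation of minimal degree -/
theorem exists_min {r : Type} [Fintype r] [DecidableEq r] {z₀ : r → ℂ} {ψ : r → (r → ℂ) → ℂ}
    {φ : (r → ℂ) → ℂ} (P : MvPolynomial (Option r) ℂ) (hP0 : P ≠ 0) (hPa : AlgPoly P)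
    (hP : ∀ᶠ s in 𝓝 z₀, MvPolynomial.eval (fun o => fam φ ψ o s) P = 0) :
    ∃ Q : MvPolynomial (Option r) ℂ, Q ≠ 0 ∧ AlgPoly Q ∧
      (∀ᶠ s in 𝓝 z₀, MvPolynomial.eval (fun o => fam φ ψ o s) Q = 0) ∧
      ∀ Q' : MvPolynomial (Option r) ℂ, AlgPoly Q' →
        (∀ᶠ s in 𝓝 z₀, MvPolynomial.eval (fun o => fam φ ψ o s) Q' = 0) →
        Q'.totalDegree < Q.totalDegree → Q' = 0 := by
  classical
  have hex : ∃ n, ∃ Q : MvPolynomial (Option r) ℂ, Q ≠ 0 ∧ AlgPoly Q ∧
      (∀ᶠ s in 𝓝 z₀, MvPolynomial.eval (fun o => fam φ ψ o s) Q = 0) ∧ Q.totalDegree = n :=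
    ⟨_, P, hP0, hPa, hP, rfl⟩
  obtain ⟨Q, h1, h2, h3, h4⟩ := Nat.find_spec hex
  refine ⟨Q, h1, h2, h3, fun Q' ha hz hlt => ?_⟩
  by_contra hne
  rw [h4] at hlt
  exact Nat.find_min hex hlt ⟨Q', hne, ha, hz, rfl⟩

end CLM_

open CLM_ in
theorem clm_proof : Stmt_CLM := by
  intro r _ _ z₀ ψ φ P₀ hψ hφ hP₀ hP₀a hP₀z hdet δ X hX
  have hf : ∀ o, AnalyticAt ℂ (fam φ ψ o) z₀ := by
    intro o
    cases o with
    | none => exact hφ
    | some i => exact hψ i
  have hP₀z' : ∀ᶠ s in 𝓝 z₀, MvPolynomial.eval (fun o => fam φ ψ o s) P₀ = 0 := by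
    filter_upwards [hP₀z] with s hs
    rw [fam_eval]; exact hs
  obtain ⟨P, hP0, hPa, hPz, hmin⟩ := exists_min P₀ hP₀ hP₀a hP₀z'
  -- all derivatives of the relation
  have hgrad : ∀ᶠ z in 𝓝 z₀, ∀ j, ∑ o, MvPolynomial.eval (fun o => fam φ ψ o z)
      (MvPolynomial.pderiv o P) * pd j (fam φ ψ o) z = 0 := by
    have h1 : ∀ᶠ z in 𝓝 z₀, ∀ o, DifferentiableAt ℂ (fam φ ψ o) z := by
      rw [Filter.eventually_all]
      intro o
      exact (hf o).eventually_analyticAt.mono fun z hz => hz.differentiableAt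
    filter_upwards [h1, hPz.eventually_nhds] with z hz hz2 j
    rw [← pd_eval (fam φ ψ) z hz P j]
    have h2 : (fun z => MvPolynomial.eval (fun o => fam φ ψ o z) P) =ᶠ[𝓝 z] fun _ => 0 := hz2
    unfold pd
    rw [h2.fderiv_eq]
    simp
  -- the derivative in the variable `none` does not vanish identically
  have hPT : ¬ ∀ᶠ z in 𝓝 z₀, MvPolynomial.eval (fun o => fam φ ψ o z)
      (MvPolynomial.pderiv none P) = 0 := by
    intro hcon
    have hall : ∀ i : r, ∀ᶠ z in 𝓝 z₀, MvPolynomial.eval (fun o => fam φ ψ o z)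
        (MvPolynomial.pderiv (some i) P) = 0 := by
      have hdetc : ∀ᶠ z in 𝓝 z₀, (Matrix.of fun i j => pd j (ψ i) z).det ≠ 0 := by
        have hc : ContinuousAt (fun z => (Matrix.of fun i j => pd j (ψ i) z).det) z₀ := by
          simp only [Matrix.det_apply']
          refine tendsto_finsetSum _ (fun σ _ => ?_)
          refine Filter.Tendsto.const_mul _ ?_
          refine tendsto_finsetProd _ (fun i _ => ?_)
          exact (analytic_pd (hψ _) _).continuousAt
        exact hc.eventually_ne hdet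
      intro i
      filter_upwards [hcon, hgrad, hdetc] with z h1 h2 h3
      have h4 : Matrix.vecMul (fun i => MvPolynomial.eval (fun o => fam φ ψ o z)
          (MvPolynomial.pderiv (some i) P)) (Matrix.of fun i j => pd j (ψ i) z) = 0 := by
        funext j
        have := h2 j
        rw [Fintype.sum_option, h1, zero_mul, zero_add] at this
        exact this
      have h5 := Matrix.eq_zero_of_vecMul_eq_zero h3 h4
      exact congrFun h5 i
    have hz : ∀ o, MvPolynomial.pderiv o P = 0 := by
      intro o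
      by_contra hne
      refine hne (hmin _ (algPoly_pd o hPa) ?_ (pd_deg o hne))
      cases o with
      | none => exact hcon
      | some i => exact hall i
    have hc := const_of_pd hz
    have h6 := hPz.self_of_nhds
    rw [hc, MvPolynomial.eval_C] at h6
    rw [h6, map_zero] at hc
    exact hP0 hc
  -- choose a line
  obtain ⟨w, hw⟩ := exists_line (analyticAt_eval (fam φ ψ) z₀ hf (MvPolynomial.pderiv none P)) hPT
  -- power series
  choose p hp using fun o => rep_exists (analytic_line (hf o) w)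
  choose q hq using fun (oj : Option r × r) =>
    rep_exists (analytic_line (analytic_pd (hf oj.1) oj.2) w)
  have hrepQ : ∀ Q : MvPolynomial (Option r) ℂ, Rep (MvPolynomial.eval₂ PowerSeries.C p Q)
      (fun s => MvPolynomial.eval (fun o => fam φ ψ o (z₀ + s • w)) Q) :=
    fun Q => rep_aeval (f := fun o s => fam φ ψ o (z₀ + s • w)) hp Q
  have e0 : MvPolynomial.eval₂ PowerSeries.C p P = 0 :=
    rep_zero (hrepQ P) ((line_tendsto z₀ w).eventually hPz)
  have eT : MvPolynomial.eval₂ PowerSeries.C p (MvPolynomial.pderiv none P) ≠ 0 :=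
    rep_ne_zero (hrepQ _) hw
  have e1 : ∑ o, MvPolynomial.eval₂ PowerSeries.C p (MvPolynomial.pderiv o P) * DD δ (p o) = 0 := by
    rw [← DD_eval δ p P hPa, e0]
    ext n; simp [DD]
  have e2 : ∀ j, ∑ o, MvPolynomial.eval₂ PowerSeries.C p (MvPolynomial.pderiv o P) * q (o, j) = 0 := by
    intro j
    refine rep_zero (rep_sum Finset.univ (fun o _ => rep_mul (hrepQ _) (hq (o, j)))) ?_
    filter_upwards [(line_tendsto z₀ w).eventually hgrad] with s hs
    exact hs j
  -- the linear system
  obtain ⟨M, hM⟩ : ∃ M : Matrix r r ℂ⟦X⟧, M = Matrix.of fun i j => q (some i, j) := ⟨_, rfl⟩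
  have hM0 : M.map (PowerSeries.constantCoeff (R := ℂ)) = Matrix.of fun i j => pd j (ψ i) z₀ := by
    ext i j
    have := rep_coeff_zero (hq (some i, j))
    simp only [zero_smul, add_zero] at this
    rw [hM]
    simp only [Matrix.map_apply, Matrix.of_apply]
    rw [← PowerSeries.coeff_zero_eq_constantCoeff_apply]
    exact this
  have hMu : IsUnit M.det := by
    rw [PowerSeries.isUnit_iff_constantCoeff, RingHom.map_det]
    change IsUnit (M.map (PowerSeries.constantCoeff (R := ℂ))).det
    rw [hM0]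
    exact isUnit_iff_ne_zero.2 hdet
  obtain ⟨Y, hY⟩ : ∃ Y : r → ℂ⟦X⟧, M.mulVec Y = fun i => DD δ (p (some i)) := by
    refine ⟨M⁻¹.mulVec (fun i => DD δ (p (some i))), ?_⟩
    rw [Matrix.mulVec_mulVec, Matrix.mul_nonsing_inv _ hMu, Matrix.one_mulVec]
  have hY' : ∀ i, ∑ j, q (some i, j) * Y j = DD δ (p (some i)) := by
    intro i
    have := congrFun hY i
    rw [hM] at this
    exact this
  have e3 : ∑ o, MvPolynomial.eval₂ PowerSeries.C p (MvPolynomial.pderiv o P) *
      (∑ j, q (o, j) * Y j) = 0 := by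
    have h1 : ∑ o, MvPolynomial.eval₂ PowerSeries.C p (MvPolynomial.pderiv o P) *
        (∑ j, q (o, j) * Y j) = ∑ j, (∑ o, MvPolynomial.eval₂ PowerSeries.C p
          (MvPolynomial.pderiv o P) * q (o, j)) * Y j := by
      simp only [Finset.mul_sum, Finset.sum_mul]
      rw [Finset.sum_comm]
      refine Finset.sum_congr rfl (fun j _ => Finset.sum_congr rfl (fun o _ => ?_))
      ring
    rw [h1]
    refine Finset.sum_eq_zero (fun j _ => ?_)
    rw [e2 j, zero_mul]
  have e4 : DD δ (p none) = ∑ j, q (none, j) * Y j := by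
    rw [Fintype.sum_option] at e1 e3
    simp only [hY'] at e3
    have h1 : MvPolynomial.eval₂ PowerSeries.C p (MvPolynomial.pderiv none P) *
        (DD δ (p none) - ∑ j, q (none, j) * Y j) = 0 := by
      linear_combination e1 - e3
    rcases mul_eq_zero.1 h1 with h2 | h2
    · exact absurd h2 eT
    · exact sub_eq_zero.1 h2
  -- constant terms
  have hc : ∀ o, PowerSeries.constantCoeff (DD δ (p o)) = δ (fam φ ψ o z₀) := by
    intro o
    have := rep_coeff_zero (hp o)
    simp only [zero_smul, add_zero] at this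
    rw [← PowerSeries.coeff_zero_eq_constantCoeff_apply]
    simp only [DD, PowerSeries.coeff_mk]
    rw [this]
  have hcq : ∀ o j, PowerSeries.constantCoeff (q (o, j)) = pd j (fam φ ψ o) z₀ := by
    intro o j
    have := rep_coeff_zero (hq (o, j))
    simp only [zero_smul, add_zero] at this
    rw [← PowerSeries.coeff_zero_eq_constantCoeff_apply]
    exact this
  have hYX : (fun j => PowerSeries.constantCoeff (Y j)) = X := by
    have h1 : Matrix.mulVec (Matrix.of fun i j => pd j (ψ i) z₀)
        ((fun j => PowerSeries.constantCoeff (Y j)) - X) = 0 := by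
      funext i
      have h2 := congrArg (PowerSeries.constantCoeff (R := ℂ)) (hY' i)
      rw [map_sum, hc] at h2
      simp only [map_mul, hcq] at h2
      have h3 := hX i
      simp only [Matrix.mulVec, dotProduct, Matrix.of_apply, Pi.sub_apply, mul_sub,
        Finset.sum_sub_distrib, Pi.zero_apply]
      have h4 : ∑ j, pd j (ψ i) z₀ * X j = δ (ψ i z₀) := by
        rw [← h3]
        exact Finset.sum_congr rfl (fun j _ => mul_comm _ _)
      rw [h4]
      exact sub_eq_zero.2 h2
    exact sub_eq_zero.1 (Matrix.eq_zero_of_mulVec_eq_zero hdet h1)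
  have h1 := congrArg (PowerSeries.constantCoeff (R := ℂ)) e4
  rw [hc, map_sum] at h1
  simp only [map_mul, hcq] at h1
  change δ (φ z₀) = _ at h1
  rw [h1]
  refine Finset.sum_congr rfl (fun j _ => ?_)
  rw [mul_comm, ← congrFun hYX j]
  rfl

end Pool.Agent.SPF
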