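import Pool.Agent.SPF.DEN

/-!
# Compactness of the quotient of the family by arithmetic groups

Proof: Minkowski's theorem for the quaternion order acting on the lattice, finiteness of the
norms, pigeonhole modulo `n N`.
-/

set_option autoImplicit false
set_option linter.unusedSectionVars false

open scoped BigOperators ComplexConjugate Topology
open Complex

namespace Pool.Agent.SPF

namespace CPT_

open DEN_

noncomputable section

variable {E : Type} [Field E] [NumberField E] {I J : Type} [Fintype I] [Fintype J]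
  [DecidableEq I] [DecidableEq J] (D : FamData E I J)

/-! ### The quaternion algebra `E + E j` -/

/-- action of the quaternion `p + r j` on `V = E × E` -/
def ap (z x : E × E) : E × E :=
  (z.1 * x.1 + z.2 * x.2, beta D * D.bar z.2 * x.1 + D.bar z.1 * x.2)

/-- multiplication -/
def mul (z w : E × E) : E × E :=
  (z.1 * w.1 + beta D * (z.2 * D.bar w.2), z.1 * w.2 + z.2 * D.bar w.1)

/-- conjugation -/
def cj (z : E × E) : E × E := (D.bar z.1, -z.2)

/-- reduced norm -/
def nrd (z : E × E) : E := z.1 * D.bar z.1 - beta D * (z.2 * D.bar z.2)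

theorem bar_rat (q : ℚ) : D.bar (q : E) = q := map_ratCast D.bar q

theorem ap_add_right (z x y : E × E) : ap D z (x + y) = ap D z x + ap D z y := by
  ext <;> simp [ap] <;> ring

theorem ap_add_left (z w x : E × E) : ap D (z + w) x = ap D z x + ap D w x := by
  ext <;> simp [ap] <;> ring

theorem ap_smul_right (q : ℚ) (z x : E × E) : ap D z (q • x) = q • ap D z x := by
  ext <;> simp [ap, Algebra.smul_def] <;> ring

theorem ap_smul_left (q : ℚ) (z x : E × E) : ap D (q • z) x = q • ap D z x := by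
  ext <;> simp [ap, Algebra.smul_def] <;> ring

theorem ap_mul (z w x : E × E) : ap D (mul D z w) x = ap D z (ap D w x) := by
  ext <;> simp [ap, mul, bar_bar, bar_beta] <;> ring

theorem ap_one (x : E × E) : ap D (1, 0) x = x := by
  ext <;> simp [ap]

theorem nrd_mul (z w : E × E) : nrd D (mul D z w) = nrd D z * nrd D w := by
  simp only [nrd, mul, map_add, map_mul, bar_bar, bar_beta]
  ring

theorem nrd_cj (z : E × E) : nrd D (cj D z) = nrd D z := by
  simp only [nrd, cj, map_neg, bar_bar]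
  ring

theorem bar_nrd (z : E × E) : D.bar (nrd D z) = nrd D z := by
  simp only [nrd, map_sub, map_mul, bar_bar, bar_beta]
  ring

theorem t_beta_J (v : J) : ∃ c : ℝ, 0 < c ∧ D.t (Sum.inr v) (beta D) = -(c : ℂ) := by
  have h1 := t_purely D (Sum.inr v) D.ξ₁_bar
  have h2 := t_purely D (Sum.inr v) D.ξ₂_bar
  have h3 := D.posJ v
  have h4 := D.pos1 (Sum.inr v)
  refine ⟨(D.t (Sum.inr v) D.ξ₁).im / (D.t (Sum.inr v) D.ξ₂).im, div_pos h4 h3, ?_⟩
  rw [beta, map_div₀, map_neg, h1, h2]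
  push_cast
  simp only [Complex.mul_im, Complex.ofReal_re, Complex.I_im, mul_one, Complex.ofReal_im,
    Complex.I_re, mul_zero, add_zero]
  rw [neg_div, mul_div_mul_right _ _ Complex.I_ne_zero]

theorem nrd_ne_zero [Nonempty J] {z : E × E} (hz : z ≠ 0) : nrd D z ≠ 0 := by
  intro h
  apply hz
  obtain ⟨v⟩ := (inferInstance : Nonempty J)
  obtain ⟨c, hc, hβ⟩ := t_beta_J D v
  have h1 := congrArg (D.t (Sum.inr v)) h
  rw [nrd, map_sub, map_mul, map_mul, map_mul, D.bar_spec, D.bar_spec, hβ, map_zero,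
    Complex.mul_conj, Complex.mul_conj] at h1
  have h2 : Complex.normSq (D.t (Sum.inr v) z.1) + c * Complex.normSq (D.t (Sum.inr v) z.2) = 0 := by
    have : ((Complex.normSq (D.t (Sum.inr v) z.1) +
        c * Complex.normSq (D.t (Sum.inr v) z.2) : ℝ) : ℂ) = 0 := by
      push_cast
      linear_combination h1
    exact_mod_cast this
  have h3 := Complex.normSq_nonneg (D.t (Sum.inr v) z.1)
  have h4 := Complex.normSq_nonneg (D.t (Sum.inr v) z.2)
  have h5 : Complex.normSq (D.t (Sum.inr v) z.1) = 0 := by nlinarith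
  have h6 : Complex.normSq (D.t (Sum.inr v) z.2) = 0 := by
    rw [h5, zero_add] at h2
    exact (mul_eq_zero.mp h2).resolve_left hc.ne'
  rw [Complex.normSq_eq_zero, map_eq_zero] at h5 h6
  exact Prod.ext h5 h6

/-- isometry of a quaternion of norm one -/
def isoU (u : E × E) (h : nrd D u = 1) : D.Iso where
  a := u.1
  b := u.2
  c := beta D * D.bar u.2
  d := D.bar u.1
  h1 := by
    rw [nrd] at h
    rw [xi1_eq D]
    simp only [map_mul, bar_bar, bar_beta]
    linear_combination (-(beta D * D.ξ₂)) * h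
  h2 := by
    rw [xi1_eq D]
    simp only [bar_bar]
    ring
  h3 := by
    rw [nrd] at h
    rw [xi1_eq D]
    simp only [bar_bar]
    linear_combination D.ξ₂ * h

theorem isoU_app (u : E × E) (h : nrd D u = 1) (x : E × E) : (isoU D u h).app x = ap D u x := rfl

theorem isoU_det (u : E × E) (h : nrd D u = 1) : (isoU D u h).det = 1 := by
  rw [← h]
  simp only [FamData.Iso.det, isoU, nrd]
  ring

/-! ### The lattice and the order -/

variable (B : Module.Basis (Co I J ⊕ Co I J) ℚ (E × E))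

theorem mem_lat_iff (x : E × E) :
    x ∈ lat B ↔ ∃ n : Co I J ⊕ Co I J → ℤ, x = ∑ k, ((n k : ℚ)) • B k := by
  constructor
  · intro hx
    refine AddSubgroup.closure_induction (p := fun x _ => ∃ n : Co I J ⊕ Co I J → ℤ,
      x = ∑ k, ((n k : ℚ)) • B k) ?_ ?_ ?_ ?_ hx
    · rintro _ ⟨k, rfl⟩
      refine ⟨Pi.single k 1, ?_⟩
      rw [Finset.sum_eq_single k]
      · simp
      · intro b _ hb
        rw [Pi.single_eq_of_ne hb]
        simp
      · intro h
        exact absurd (Finset.mem_univ k) h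
    · exact ⟨0, by simp⟩
    · rintro x y _ _ ⟨n, rfl⟩ ⟨n', rfl⟩
      refine ⟨n + n', ?_⟩
      simp [add_smul, Finset.sum_add_distrib]
    · rintro x _ ⟨n, rfl⟩
      refine ⟨-n, ?_⟩
      simp [Finset.sum_neg_distrib]
  · rintro ⟨n, rfl⟩
    apply AddSubgroup.sum_mem
    intro k _
    have h1 : ((n k : ℚ)) • B k = (n k) • B k := by
      rw [Int.cast_smul_eq_zsmul]
    rw [h1]
    exact AddSubgroup.zsmul_mem _ (AddSubgroup.subset_closure (Set.mem_range_self k)) _

/-- every vector has a multiple in the lattice -/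
theorem exists_mul_mem_lat (x : E × E) : ∃ m : ℕ, 0 < m ∧ (m : ℚ) • x ∈ lat B := by
  classical
  have hx := (B.sum_repr x).symm
  obtain ⟨r, hr⟩ : ∃ r : Co I J ⊕ Co I J → ℚ, ∀ k, B.repr x k = r k := ⟨_, fun _ => rfl⟩
  simp only [hr] at hx
  refine ⟨∏ k, (r k).den, Finset.prod_pos fun k _ => (r k).den_pos, ?_⟩
  rw [mem_lat_iff]
  refine ⟨fun k => (∏ l ∈ Finset.univ.erase k, ((r l).den : ℤ)) * (r k).num, ?_⟩
  rw [hx, Finset.smul_sum]
  refine Finset.sum_congr rfl fun k _ => ?_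
  rw [smul_smul]
  congr 1
  rw [← Finset.mul_prod_erase Finset.univ _ (Finset.mem_univ k)]
  push_cast
  have h1 : ((r k).den : ℚ) * (r k) = (r k).num := Rat.den_mul_eq_num _
  linear_combination (∏ l ∈ Finset.univ.erase k, ((r l).den : ℚ)) * h1

/-- the order of the lattice -/
def Ord : Set (E × E) := {z | ∀ x ∈ lat B, ap D z x ∈ lat B}

variable {D B}

theorem Ord.add {z w : E × E} (hz : z ∈ Ord D B) (hw : w ∈ Ord D B) : z + w ∈ Ord D B := by
  intro x hx
  rw [ap_add_left]
  exact AddSubgroup.add_mem _ (hz x hx) (hw x hx)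

theorem Ord.mul {z w : E × E} (hz : z ∈ Ord D B) (hw : w ∈ Ord D B) : mul D z w ∈ Ord D B := by
  intro x hx
  rw [ap_mul]
  exact hz _ (hw x hx)

theorem Ord.zero : (0 : E × E) ∈ Ord D B := by
  intro x _
  have : ap D 0 x = 0 := by ext <;> simp [ap]
  rw [this]
  exact AddSubgroup.zero_mem _

theorem Ord.int_smul {z : E × E} (hz : z ∈ Ord D B) (n : ℤ) : (n : ℚ) • z ∈ Ord D B := by
  intro x hx
  rw [ap_smul_left, Int.cast_smul_eq_zsmul]
  exact AddSubgroup.zsmul_mem _ (hz x hx) n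

theorem Ord.sum {κ : Type} (s : Finset κ) (n : κ → ℤ) {f : κ → E × E} (hf : ∀ k ∈ s, f k ∈ Ord D B) :
    ∑ k ∈ s, (n k : ℚ) • f k ∈ Ord D B := by
  classical
  induction s using Finset.induction_on with
  | empty => simpa using Ord.zero
  | insert a s ha ih =>
    rw [Finset.sum_insert ha]
    exact Ord.add (Ord.int_smul (hf a (Finset.mem_insert_self a s)) _)
      (ih fun k hk => hf k (Finset.mem_insert_of_mem hk))

variable (D B)

/-- every quaternion has a multiple in the order -/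
theorem exists_mul_mem_Ord (z : E × E) : ∃ m : ℕ, 0 < m ∧ (m : ℚ) • z ∈ Ord D B := by
  classical
  choose m hm0 hm using fun k => exists_mul_mem_lat B (ap D z (B k))
  refine ⟨∏ k, m k, Finset.prod_pos fun k _ => hm0 k, ?_⟩
  intro x hx
  obtain ⟨n, rfl⟩ := (mem_lat_iff B x).mp hx
  have h1 : ap D ((((∏ k, m k : ℕ) : ℕ) : ℚ) • z) (∑ k, ((n k : ℚ)) • B k) =
      ∑ k, (n k * ∏ l ∈ Finset.univ.erase k, (m l : ℤ)) • ((m k : ℚ) • ap D z (B k)) := by
    have h2 : ∀ (s : Finset (Co I J ⊕ Co I J)) (w : E × E), ap D w (∑ k ∈ s, ((n k : ℚ)) • B k) =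
        ∑ k ∈ s, (n k : ℚ) • ap D w (B k) := by
      intro s w
      induction s using Finset.induction_on with
      | empty => 
        have : ap D w 0 = 0 := by ext <;> simp [ap]
        simpa using this
      | insert a s ha ih =>
        rw [Finset.sum_insert ha, Finset.sum_insert ha, ap_add_right, ap_smul_right, ih]
    rw [h2]
    refine Finset.sum_congr rfl fun k _ => ?_
    rw [ap_smul_left, smul_smul, ← Int.cast_smul_eq_zsmul ℚ, smul_smul]
    congr 1
    rw [← Finset.mul_prod_erase Finset.univ _ (Finset.mem_univ k)]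
    push_cast
    ring
  rw [h1]
  apply AddSubgroup.sum_mem
  intro k _
  exact AddSubgroup.zsmul_mem _ (hm k) _

theorem exists_mul_mem_Ord_all {κ : Type} [Fintype κ] (f : κ → E × E) :
    ∃ m : ℕ, 0 < m ∧ ∀ k, (m : ℚ) • f k ∈ Ord D B := by
  classical
  choose m hm0 hm using fun k => exists_mul_mem_Ord D B (f k)
  refine ⟨∏ k, m k, Finset.prod_pos fun k _ => hm0 k, fun k => ?_⟩
  rw [← Finset.mul_prod_erase Finset.univ _ (Finset.mem_univ k)]
  push_cast
  have h1 : ((m k : ℚ) * ∏ l ∈ Finset.univ.erase k, (m l : ℚ)) • f k =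
      ((∏ l ∈ Finset.univ.erase k, (m l : ℤ) : ℤ) : ℚ) • ((m k : ℚ) • f k) := by
    rw [smul_smul]
    congr 1
    push_cast
    ring
  rw [h1]
  exact Ord.int_smul (hm k) _

/-! ### Minkowski's theorem -/

theorem minkowski {W : Type*} [NormedAddCommGroup W] [NormedSpace ℝ W] [FiniteDimensional ℝ W]
    {κ : Type*} [Fintype κ] [Nonempty κ] (b : Module.Basis κ ℝ W) :
    ∃ C : ℝ, 0 < C ∧ ∀ A : W →ₗ[ℝ] W, |LinearMap.det A| = 1 →
      ∃ n : κ → ℤ, n ≠ 0 ∧ ‖A (∑ k, (n k : ℝ) • b k)‖ ≤ C := by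
  borelize W
  let μ : MeasureTheory.Measure W := MeasureTheory.Measure.addHaar
  let F := ZSpan.fundamentalDomain b
  have hF : μ F < ⊤ := (ZSpan.fundamentalDomain_isBounded b).measure_lt_top
  set d := Module.finrank ℝ W with hd
  have hd1 : 1 ≤ d := by
    rw [hd, Module.finrank_eq_card_basis b]
    exact Fintype.card_pos
  have hfin : μ F * 2 ^ d ≠ ⊤ := ENNReal.mul_ne_top hF.ne (by simp)
  have hball : μ (Metric.ball 0 1) ≠ 0 :=
    (Metric.measure_ball_pos μ (0 : W) one_pos).ne'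
  obtain ⟨M, hM⟩ := ENNReal.exists_nat_mul_gt hball hfin
  have hM0 : M ≠ 0 := by
    rintro rfl
    simp at hM
  have hM1 : 1 ≤ M := Nat.one_le_iff_ne_zero.mpr hM0
  have hvol : μ F * 2 ^ d < μ (Metric.closedBall 0 (M : ℝ)) := by
    rw [MeasureTheory.Measure.addHaar_closedBall μ 0 (Nat.cast_nonneg M)]
    refine hM.trans_le ?_
    refine mul_le_mul_left ?_ _
    rw [← ENNReal.ofReal_natCast]
    apply ENNReal.ofReal_le_ofReal
    calc (M : ℝ) = (M : ℝ) ^ 1 := (pow_one _).symm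
      _ ≤ (M : ℝ) ^ d := pow_le_pow_right₀ (by exact_mod_cast hM1) hd1
  refine ⟨M, by exact_mod_cast Nat.pos_of_ne_zero hM0, fun A hA => ?_⟩
  have hdet : LinearMap.det A ≠ 0 := by
    intro h
    rw [h, abs_zero] at hA
    exact zero_ne_one hA
  have hcount : Countable (Submodule.span ℤ (Set.range b)).toAddSubgroup :=
    inferInstanceAs (Countable (Submodule.span ℤ (Set.range b)))
  obtain ⟨x, hx0, hx⟩ := MeasureTheory.exists_ne_zero_mem_lattice_of_measure_mul_two_pow_lt_measure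
    (ZSpan.isAddFundamentalDomain' b μ) (s := A ⁻¹' Metric.closedBall 0 (M : ℝ))
    (by
      intro x hx
      rw [Set.mem_preimage, mem_closedBall_zero_iff] at hx ⊢
      rwa [map_neg, norm_neg])
    ((convex_closedBall (0 : W) (M : ℝ)).linear_preimage A)
    (by
      rw [MeasureTheory.Measure.addHaar_preimage_linearMap μ hdet, abs_inv, hA, inv_one,
        ENNReal.ofReal_one, one_mul]
      exact hvol)
  have hxs : (x : W) ∈ Submodule.span ℤ (Set.range b) := x.2
  obtain ⟨n, hn⟩ := (Submodule.mem_span_range_iff_exists_fun ℤ).mp hxs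
  refine ⟨n, ?_, ?_⟩
  · rintro rfl
    apply hx0
    apply Subtype.ext
    rw [← hn]
    simp
  · have h1 : ∑ k, (n k : ℝ) • b k = (x : W) := by
      rw [← hn]
      refine Finset.sum_congr rfl fun k _ => ?_
      rw [Int.cast_smul_eq_zsmul]
    rw [h1]
    rwa [Set.mem_preimage, mem_closedBall_zero_iff] at hx

/-! ### The real space -/

/-- the real space -/
abbrev WW (I J : Type) := I ⊕ J → ℂ × ℂ

/-- the embedding -/
def emb (z : E × E) : WW I J := fun v => (D.t v z.1, D.t v z.2)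

theorem emb_add (z w : E × E) : emb D (z + w) = emb D z + emb D w := by
  funext v
  simp [emb]

theorem emb_zero : emb D (0 : E × E) = 0 := by
  funext v
  simp [emb]

theorem emb_smul (q : ℚ) (z : E × E) : emb D (q • z) = (q : ℝ) • emb D z := by
  funext v
  simp only [emb, Prod.smul_fst, Prod.smul_snd, D.t_smul, Pi.smul_apply]
  ext <;> simp

theorem emb_sum {κ : Type} (s : Finset κ) (q : κ → ℚ) (f : κ → E × E) :
    emb D (∑ k ∈ s, q k • f k) = ∑ k ∈ s, (q k : ℝ) • emb D (f k) := by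
  classical
  induction s using Finset.induction_on with
  | empty => simpa using emb_zero D
  | insert a s ha ih =>
    rw [Finset.sum_insert ha, Finset.sum_insert ha, emb_add, emb_smul, ih]

theorem span_emb : ⊤ ≤ Submodule.span ℝ (Set.range fun k => emb D (B k)) := by
  set S := Submodule.span ℝ (Set.range fun k => emb D (B k)) with hS
  have hcl : IsClosed (S : Set (WW I J)) := S.closed_of_finiteDimensional
  intro w _
  have h1 : w ∈ closure (S : Set (WW I J)) := by
    rw [Metric.mem_closure_iff]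
    intro ε hε
    obtain ⟨x, hx⟩ := approx D (fun v => (w v).1) hε
    obtain ⟨y, hy⟩ := approx D (fun v => (w v).2) hε
    refine ⟨emb D (x, y), ?_, ?_⟩
    · rw [← B.sum_repr (x, y), emb_sum]
      apply Submodule.sum_mem
      intro k _
      exact Submodule.smul_mem _ _ (Submodule.subset_span (Set.mem_range_self k))
    · rw [dist_pi_lt_iff hε]
      intro v
      rw [dist_comm, Prod.dist_eq, max_lt_iff, dist_eq_norm, dist_eq_norm]
      exact ⟨hx v, hy v⟩
  rwa [hcl.closure_eq] at h1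

/-- the real basis -/
def bW : Module.Basis (Co I J ⊕ Co I J) ℝ (WW I J) :=
  basisOfTopLeSpanOfCardEqFinrank (fun k => emb D (B k)) (span_emb D B) (by
    rw [Module.finrank_pi_fintype]
    simp only [Module.finrank_prod, Complex.finrank_real_complex, Finset.sum_const,
      Finset.card_univ, Fintype.card_sum, smul_eq_mul]
    ring)

theorem bW_apply (k : Co I J ⊕ Co I J) : bW D B k = emb D (B k) := by
  simp [bW]

/-- the linear map given by a point of the domain -/
def AA (β s : I ⊕ J → ℂ) (c : I ⊕ J → ℝ) : WW I J →ₗ[ℝ] WW I J where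
  toFun w v := ((c v : ℂ) * ((w v).1 + β v * conj (s v) * (w v).2),
    (c v : ℂ) * (s v * (w v).1 + (w v).2))
  map_add' w w' := by
    funext v
    ext <;> simp <;> ring
  map_smul' r w := by
    funext v
    apply Prod.ext
    · simp only [Pi.smul_apply, Prod.smul_fst, Prod.smul_snd, RingHom.id_apply, Complex.real_smul]
      ring
    · simp only [Pi.smul_apply, Prod.smul_fst, Prod.smul_snd, RingHom.id_apply, Complex.real_smul]
      ring

/-- sign change -/
def DD : WW I J →ₗ[ℝ] WW I J where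
  toFun w v := ((w v).1, -(w v).2)
  map_add' w w' := by
    funext v
    ext <;> simp
    ring
  map_smul' r w := by
    funext v
    ext <;> simp

theorem det_AA (β s : I ⊕ J → ℂ) (c : I ⊕ J → ℝ)
    (h : ∀ v, (c v : ℂ) ^ 2 * (1 - β v * (s v * conj (s v))) = 1) :
    |LinearMap.det (AA β s c)| = 1 := by
  have h1 : (AA β (-s) c) ∘ₗ (AA β s c) = LinearMap.id := by
    apply LinearMap.ext
    intro w
    funext v
    have hv := h v
    apply Prod.ext
    · simp only [AA, LinearMap.comp_apply, LinearMap.coe_mk, AddHom.coe_mk, Pi.neg_apply, map_neg,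
        LinearMap.id_apply]
      linear_combination (w v).1 * hv
    · simp only [AA, LinearMap.comp_apply, LinearMap.coe_mk, AddHom.coe_mk, Pi.neg_apply, map_neg,
        LinearMap.id_apply]
      linear_combination (w v).2 * hv
  have h2 : AA β (-s) c = DD ∘ₗ (AA β s c) ∘ₗ DD := by
    apply LinearMap.ext
    intro w
    funext v
    apply Prod.ext
    · simp only [AA, DD, LinearMap.comp_apply, LinearMap.coe_mk, AddHom.coe_mk, Pi.neg_apply,
        map_neg]
      ring
    · simp only [AA, DD, LinearMap.comp_apply, LinearMap.coe_mk, AddHom.coe_mk, Pi.neg_apply,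
        map_neg]
      ring
  have h3 : (DD ∘ₗ DD : WW I J →ₗ[ℝ] WW I J) = LinearMap.id := by
    apply LinearMap.ext
    intro w
    funext v
    apply Prod.ext <;> simp [DD]
  have h4 := congrArg LinearMap.det h1
  rw [h2, LinearMap.det_comp, LinearMap.det_comp, LinearMap.det_comp, LinearMap.det_id] at h4
  have h5 := congrArg LinearMap.det h3
  rw [LinearMap.det_comp, LinearMap.det_id] at h5
  have h6 : LinearMap.det (AA β s c) * LinearMap.det (AA β s c) = 1 := by
    linear_combination h4 - (LinearMap.det (AA β s c) * LinearMap.det (AA β s c)) * h5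
  rcases mul_self_eq_one_iff.mp h6 with h7 | h7
  · rw [h7, abs_one]
  · rw [h7, abs_neg, abs_one]

/-! ### The point of the domain -/

/-- extension of `s` by `0` -/
def sp (s : I → ℂ) : I ⊕ J → ℂ := Sum.elim s (fun _ => 0)

/-- normalising factor -/
def cc (s : I → ℂ) : I ⊕ J → ℝ :=
  Sum.elim (fun v => (Real.sqrt (1 - D.b v * ‖s v‖ ^ 2))⁻¹) (fun _ => 1)

/-- the values of `β` -/
def bt : I ⊕ J → ℂ := fun v => D.t v (beta D)

theorem conj_bt (v : I ⊕ J) : conj (bt D v) = bt D v := by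
  rw [bt, ← D.bar_spec, bar_beta]

theorem cc_spec {s : I → ℂ} (hs : s ∈ D.Dom) (v : I ⊕ J) :
    (cc D s v : ℂ) ^ 2 * (1 - bt D v * (sp (J := J) s v * conj (sp (J := J) s v))) = 1 := by
  rcases v with v | v
  · have h1 : 0 < 1 - D.b v * ‖s v‖ ^ 2 := by
      have := hs v
      linarith
    have h2 : (cc D s (Sum.inl v)) ^ 2 * (1 - D.b v * ‖s v‖ ^ 2) = 1 := by
      simp only [cc, Sum.elim_inl]
      rw [inv_pow, Real.sq_sqrt h1.le, inv_mul_cancel₀ h1.ne']
    have h3 : sp (J := J) s (Sum.inl v) * conj (sp (J := J) s (Sum.inl v)) = ((‖s v‖ ^ 2 : ℝ) : ℂ) := by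
      simp only [sp, Sum.elim_inl]
      rw [Complex.mul_conj, Complex.normSq_eq_norm_sq]
    rw [h3, bt, t_beta]
    exact_mod_cast h2
  · simp [cc, sp]

/-- the matrix of `s` -/
def As (s : I → ℂ) : WW I J →ₗ[ℝ] WW I J := AA (bt D) (sp s) (cc D s)

theorem As_fst (s : I → ℂ) (w : WW I J) (v : I ⊕ J) : (As D s w v).1 =
    (cc D s v : ℂ) * ((w v).1 + bt D v * conj (sp (J := J) s v) * (w v).2) := rfl

theorem As_snd (s : I → ℂ) (w : WW I J) (v : I ⊕ J) : (As D s w v).2 =
    (cc D s v : ℂ) * (sp (J := J) s v * (w v).1 + (w v).2) := rfl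

/-- the norm is preserved -/
theorem As_nrd {s : I → ℂ} (hs : s ∈ D.Dom) (z : E × E) (v : I ⊕ J) :
    D.t v (nrd D z) = (As D s (emb D z) v).1 * conj (As D s (emb D z) v).1 -
      bt D v * ((As D s (emb D z) v).2 * conj (As D s (emb D z) v).2) := by
  have h := cc_spec D hs v
  rw [As_fst, As_snd]
  simp only [emb, nrd, map_sub, map_mul, D.bar_spec, map_add, Complex.conj_conj,
    Complex.conj_ofReal, conj_bt]
  change D.t v z.1 * conj (D.t v z.1) - bt D v * (D.t v z.2 * conj (D.t v z.2)) = _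
  linear_combination (-(D.t v z.1 * conj (D.t v z.1)) + bt D v * (D.t v z.2 * conj (D.t v z.2))) * h

/-- left multiplication -/
theorem As_mul (s : I → ℂ) (z w : E × E) (v : I ⊕ J) : (As D s (emb D (mul D z w)) v).1 =
    D.t v z.1 * (As D s (emb D w) v).1 + bt D v * D.t v z.2 * conj (As D s (emb D w) v).2 := by
  rw [As_fst, As_fst, As_snd]
  simp only [emb, mul, map_add, map_mul, D.bar_spec, Complex.conj_ofReal]
  change (cc D s v : ℂ) * (D.t v z.1 * D.t v w.1 + bt D v * (D.t v z.2 * conj (D.t v w.2)) +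
    _) = _
  ring

/-- the absolute value of the norm is bounded -/
theorem norm_nrd_le {s : I → ℂ} (hs : s ∈ D.Dom) (z : E × E) {C : ℝ} (hC : 0 ≤ C)
    (h : ‖As D s (emb D z)‖ ≤ C) (v : I ⊕ J) :
    ‖D.t v (nrd D z)‖ ≤ C ^ 2 + ‖bt D v‖ * C ^ 2 := by
  have h1 : ‖As D s (emb D z) v‖ ≤ C := (norm_le_pi_norm _ v).trans h
  have h2 : ‖(As D s (emb D z) v).1‖ ≤ C := (norm_fst_le _).trans h1
  have h3 : ‖(As D s (emb D z) v).2‖ ≤ C := (norm_snd_le _).trans h1
  rw [As_nrd D hs]
  refine (norm_sub_le _ _).trans ?_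
  rw [norm_mul, norm_mul, norm_mul, Complex.norm_conj, Complex.norm_conj]
  have h4 : ‖(As D s (emb D z) v).1‖ * ‖(As D s (emb D z) v).1‖ ≤ C ^ 2 := by
    rw [sq]
    exact mul_le_mul h2 h2 (norm_nonneg _) hC
  have h5 : ‖(As D s (emb D z) v).2‖ * ‖(As D s (emb D z) v).2‖ ≤ C ^ 2 := by
    rw [sq]
    exact mul_le_mul h3 h3 (norm_nonneg _) hC
  have h6 := mul_le_mul_of_nonneg_left h5 (norm_nonneg (bt D v))
  linarith

/-- the action in terms of the matrix -/
theorem act_bound {s : I → ℂ} (hs : s ∈ D.Dom) (u : E × E) (hu : nrd D u = 1) (v : I) {C : ℝ}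
    (h : ‖(As D s (emb D u) (Sum.inl v)).1‖ ≤ C) :
    D.b v * ‖(isoU D u hu).act s v‖ ^ 2 ≤ 1 - (C ^ 2)⁻¹ := by
  set P := (As D s (emb D u) (Sum.inl v)).1 with hP
  set R := (As D s (emb D u) (Sum.inl v)).2 with hR
  have h1 := As_nrd D hs u (Sum.inl v)
  rw [hu, map_one, ← hP, ← hR] at h1
  have hbt : bt D (Sum.inl v) = (D.b v : ℂ) := t_beta D v
  rw [hbt, Complex.mul_conj, Complex.mul_conj, Complex.normSq_eq_norm_sq,
    Complex.normSq_eq_norm_sq] at h1
  have h2 : ‖P‖ ^ 2 - D.b v * ‖R‖ ^ 2 = 1 := by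
    have : (((‖P‖ ^ 2 - D.b v * ‖R‖ ^ 2 : ℝ)) : ℂ) = 1 := by
      push_cast
      rw [h1]
      push_cast
      ring
    exact_mod_cast this
  have hc0 : (cc D s (Sum.inl v) : ℂ) ≠ 0 := by
    intro h0
    have := cc_spec D hs (Sum.inl v)
    rw [h0] at this
    simp at this
  have hb := D.b_pos v
  have hP0 : 0 < ‖P‖ ^ 2 := by
    have : 0 ≤ D.b v * ‖R‖ ^ 2 := by positivity
    linarith
  have hPne : P ≠ 0 := by
    intro h0
    rw [h0] at hP0
    simp at hP0
  have h3 : (isoU D u hu).act s v = R / conj P := by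
    rw [hP, hR, As_fst, As_snd]
    simp only [FamData.Iso.act, FamData.Iso.j, isoU, emb, sp, Sum.elim_inl, map_add, map_mul,
      Complex.conj_conj, Complex.conj_ofReal, conj_bt, D.bar_spec]
    rw [mul_div_mul_left _ _ hc0]
    change _ / (bt D (Sum.inl v) * _ * _ + _) = _
    congr 1
    · ring
    · ring
  rw [h3, norm_div, Complex.norm_conj, div_pow]
  have h4 : D.b v * (‖R‖ ^ 2 / ‖P‖ ^ 2) = 1 - (‖P‖ ^ 2)⁻¹ := by
    field_simp
    linarith
  rw [h4]
  have h5 : ‖P‖ ^ 2 ≤ C ^ 2 := pow_le_pow_left₀ (norm_nonneg _) h 2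
  have h6 : (C ^ 2)⁻¹ ≤ (‖P‖ ^ 2)⁻¹ := inv_anti₀ hP0 h5
  linarith

/-! ### Finiteness -/

/-- the vector with integral coordinates `n` in the basis `f` -/
def zz {κ : Type} [Fintype κ] (f : κ → E × E) (n : κ → ℤ) : E × E := ∑ k, (n k : ℚ) • f k

theorem zz_mem {κ : Type} [Fintype κ] {f : κ → E × E} (hf : ∀ k, f k ∈ Ord D B) (n : κ → ℤ) :
    zz f n ∈ Ord D B := Ord.sum Finset.univ n fun k _ => hf k

theorem nrd_zz {κ : Type} [Fintype κ] (f : κ → E × E) (n : κ → ℤ) :
    nrd D (zz f n) = ∑ k, ∑ l, ((n k * n l : ℤ) : E) *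
      ((f k).1 * D.bar (f l).1 - beta D * ((f k).2 * D.bar (f l).2)) := by
  have h1 : (zz f n).1 = ∑ k, (n k : E) * (f k).1 := by
    rw [zz, Prod.fst_sum]
    refine Finset.sum_congr rfl fun k _ => ?_
    rw [Prod.smul_fst, Algebra.smul_def]
    simp
  have h2 : (zz f n).2 = ∑ k, (n k : E) * (f k).2 := by
    rw [zz, Prod.snd_sum]
    refine Finset.sum_congr rfl fun k _ => ?_
    rw [Prod.smul_snd, Algebra.smul_def]
    simp
  rw [nrd, h1, h2, map_sum, map_sum, Finset.sum_mul_sum, Finset.sum_mul_sum, Finset.mul_sum,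
    ← Finset.sum_sub_distrib]
  refine Finset.sum_congr rfl fun k _ => ?_
  rw [Finset.mul_sum, ← Finset.sum_sub_distrib]
  refine Finset.sum_congr rfl fun l _ => ?_
  rw [map_mul, map_mul, map_intCast]
  push_cast
  ring

/-- the norms of bounded lattice vectors form a finite set -/
theorem finite_nrd {κ : Type} [Fintype κ] (f : κ → E × E) (C : ℝ) :
    {δ : E | (∃ n : κ → ℤ, δ = nrd D (zz f n)) ∧ ∀ v, ‖D.t v δ‖ ≤ C}.Finite := by
  classical
  obtain ⟨y, hy0, hy⟩ := exists_integral_multiples ℤ ℚ (L := E)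
    (Finset.univ.image fun kl : κ × κ =>
      ((f kl.1).1 * D.bar (f kl.2).1 - beta D * ((f kl.1).2 * D.bar (f kl.2).2)))
  have hy' : ∀ k l, IsIntegral ℤ (y • ((f k).1 * D.bar (f l).1 -
      beta D * ((f k).2 * D.bar (f l).2))) := fun k l =>
    hy _ (Finset.mem_image.mpr ⟨(k, l), Finset.mem_univ _, rfl⟩)
  have hfin := NumberField.Embeddings.finite_of_norm_le E ℂ (|(y : ℝ)| * C)
  refine Set.Finite.of_finite_image (f := fun x : E => y • x) (hfin.subset ?_) ?_
  · rintro _ ⟨δ, ⟨⟨n, rfl⟩, hδ⟩, rfl⟩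
    refine ⟨?_, ?_⟩
    · simp only
      rw [nrd_zz, Finset.smul_sum]
      apply IsIntegral.sum
      intro k _
      rw [Finset.smul_sum]
      apply IsIntegral.sum
      intro l _
      rw [← mul_smul_comm]
      exact (isIntegral_intCast _).mul (hy' k l)
    · intro φ
      have h1 : ‖φ (nrd D (zz f n))‖ ≤ C := by
        obtain ⟨v, hv | hv⟩ := D.t_surj φ
        · rw [hv]
          exact hδ v
        · rw [hv, RingHom.comp_apply, Complex.norm_conj]
          exact hδ v
      simp only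
      rw [zsmul_eq_mul, map_mul, map_intCast, norm_mul, Complex.norm_intCast]
      exact mul_le_mul_of_nonneg_left h1 (abs_nonneg _)
  · intro x _ x' _ h
    exact smul_right_injective E hy0 h

/-! ### Multiplication by scalars of `E` -/

theorem mul_add' (z w w' : E × E) : mul D z (w + w') = mul D z w + mul D z w' := by
  ext <;> simp [mul] <;> ring

theorem mul_smul' (q : ℚ) (z w : E × E) : mul D z (q • w) = q • mul D z w := by
  ext <;> simp [mul, Algebra.smul_def] <;> ring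

theorem smul_mul' (q : ℚ) (z w : E × E) : mul D (q • z) w = q • mul D z w := by
  ext <;> simp [mul, Algebra.smul_def] <;> ring

theorem esmul_mul' (a : E) (z w : E × E) : mul D (a • z) w = a • mul D z w := by
  ext <;> simp [mul] <;> ring

theorem cj_mul (z w : E × E) : cj D (mul D z w) = mul D (cj D w) (cj D z) := by
  ext
  · simp [mul, cj, bar_bar, bar_beta]
    ring
  · simp [mul, cj, bar_bar]
    ring

theorem cj_mul_self (z : E × E) : mul D (cj D z) z = (nrd D z, 0) := by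
  ext
  · simp [mul, cj, nrd]
    ring
  · simp [mul, cj]
    ring

theorem mul_cj_self (z : E × E) : mul D z (cj D z) = (nrd D z, 0) := by
  ext
  · simp [mul, cj, nrd, bar_bar]
    ring
  · simp [mul, cj, bar_bar]
    ring

theorem cj_zz {κ : Type} [Fintype κ] (f : κ → E × E) (n : κ → ℤ) :
    cj D (zz f n) = ∑ k, (n k : ℚ) • cj D (f k) := by
  have h : ∀ s : Finset κ, cj D (∑ k ∈ s, (n k : ℚ) • f k) = ∑ k ∈ s, (n k : ℚ) • cj D (f k) := by
    classical
    intro s
    induction s using Finset.induction_on with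
    | empty => ext <;> simp [cj]
    | insert a s ha ih =>
      rw [Finset.sum_insert ha, Finset.sum_insert ha, ← ih]
      ext
      · simp [cj, Algebra.smul_def]
      · simp [cj]
        ring
  exact h Finset.univ

/-- the quotient of two congruent vectors of the same norm -/
theorem quot_mem {κ : Type} [Fintype κ] {f : κ → E × E} (hf : ∀ k, f k ∈ Ord D B) {δ : E}
    (hδ : δ ≠ 0) {n₀ N : ℕ} (hn₀ : ∀ k, (n₀ : ℚ) • (δ⁻¹ • cj D (f k)) ∈ Ord D B)
    {n n' m : κ → ℤ} (hn : nrd D (zz f n) = δ) (hm : ∀ k, n' k = n k + (n₀ * N : ℕ) * m k) :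
    ∃ q ∈ Ord D B, δ⁻¹ • mul D (cj D (zz f n)) (zz f n') = (1, 0) + (N : ℚ) • q := by
  refine ⟨mul D ((n₀ : ℚ) • (δ⁻¹ • cj D (zz f n))) (zz f m), ?_, ?_⟩
  · apply Ord.mul _ (zz_mem D B hf m)
    rw [cj_zz]
    have h1 : (n₀ : ℚ) • (δ⁻¹ • ∑ k, (n k : ℚ) • cj D (f k)) =
        ∑ k, (n k : ℚ) • ((n₀ : ℚ) • (δ⁻¹ • cj D (f k))) := by
      rw [Finset.smul_sum, Finset.smul_sum]
      refine Finset.sum_congr rfl fun k _ => ?_
      ext
      · simp [Algebra.smul_def]
        ring
      · simp [Algebra.smul_def]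
        ring
    rw [h1]
    exact Ord.sum Finset.univ n fun k _ => hn₀ k
  · have h1 : zz f n' = zz f n + ((n₀ : ℚ) * N) • zz f m := by
      rw [zz, zz, zz, Finset.smul_sum, ← Finset.sum_add_distrib]
      refine Finset.sum_congr rfl fun k _ => ?_
      rw [hm k, smul_smul, ← add_smul]
      congr 1
      push_cast
      ring
    rw [h1, mul_add', mul_smul', cj_mul_self, hn, smul_add, smul_mul', esmul_mul']
    congr 1
    · ext
      · simp [hδ]
      · simp
    · ext
      · simp [Algebra.smul_def]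
        ring
      · simp [Algebra.smul_def]
        ring

end

end CPT_

open CPT_ DEN_ in
theorem cpt_proof : Stmt_CPT := by
  intro E _ _ I J _ _ _ _ _ D B _ N hN
  classical
  have hκ : Nonempty (Co I J ⊕ Co I J) :=
    ⟨Sum.inl (Sum.inl (Sum.inr (Classical.arbitrary J)))⟩
  obtain ⟨C₀, hC₀, hmink⟩ := minkowski (bW D B)
  obtain ⟨m, hm0, hm⟩ := exists_mul_mem_Ord_all D B (fun k => B k)
  set f : Co I J ⊕ Co I J → E × E := fun k => (m : ℚ) • B k with hf
  set C : ℝ := m * C₀ with hC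
  have hCpos : 0 < C := mul_pos (by exact_mod_cast hm0) hC₀
  -- Minkowski for every point
  have hmink' : ∀ s ∈ D.Dom, ∃ n : Co I J ⊕ Co I J → ℤ, zz f n ≠ 0 ∧ ‖As D s (emb D (zz f n))‖ ≤ C := by
    intro s hs
    obtain ⟨n, hn0, hn⟩ := hmink (As D s) (det_AA _ _ _ (cc_spec D hs))
    have h1 : zz f n = (m : ℚ) • ∑ k, (n k : ℚ) • B k := by
      rw [zz, Finset.smul_sum]
      refine Finset.sum_congr rfl fun k _ => ?_
      rw [hf]
      simp only
      rw [smul_comm]
    refine ⟨n, ?_, ?_⟩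
    · intro h0
      apply hn0
      rw [h1] at h0
      have h2 := (smul_eq_zero.mp h0).resolve_left (by exact_mod_cast hm0.ne')
      have h3 := Fintype.linearIndependent_iff.mp B.linearIndependent (fun k => (n k : ℚ)) h2
      funext k
      exact_mod_cast h3 k
    · rw [h1, emb_smul, map_smul, norm_smul, emb_sum]
      simp only [bW_apply] at hn
      have h4 : ‖((m : ℚ) : ℝ)‖ = m := by simp
      rw [h4, hC]
      apply mul_le_mul_of_nonneg_left _ (Nat.cast_nonneg m)
      have h5 : ∀ k, (((n k : ℤ) : ℚ) : ℝ) = (n k : ℝ) := fun k => Rat.cast_intCast _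
      simp only [h5]
      exact hn
  -- the finite set of norms
  obtain ⟨C₁, hC₁⟩ : ∃ C₁ : ℝ, ∀ v, C ^ 2 + ‖bt D v‖ * C ^ 2 ≤ C₁ := by
    obtain ⟨C₁, h⟩ := (Set.finite_range fun v : I ⊕ J => C ^ 2 + ‖bt D v‖ * C ^ 2).bddAbove
    exact ⟨C₁, fun v => h (Set.mem_range_self v)⟩
  have hfin := finite_nrd D f C₁
  set Δ : Finset E := hfin.toFinset with hΔ
  obtain ⟨n₀, hn₀0, hn₀⟩ := exists_mul_mem_Ord_all D B
    (fun x : Δ × (Co I J ⊕ Co I J) => (x.1 : E)⁻¹ • cj D (f x.2))
  -- classes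
  set M : ℕ := n₀ * N with hM
  have hM0 : M ≠ 0 := Nat.mul_ne_zero hn₀0.ne' hN.ne'
  have : NeZero M := ⟨hM0⟩
  let Cls := Δ × (Co I J ⊕ Co I J → ZMod M)
  let P : Cls → (Co I J ⊕ Co I J → ℤ) → Prop := fun c n =>
    nrd D (zz f n) = (c.1 : E) ∧ zz f n ≠ 0 ∧ ∀ k, ((n k : ℤ) : ZMod M) = c.2 k
  let rep : Cls → (Co I J ⊕ Co I J → ℤ) := fun c => if h : ∃ n, P c n then h.choose else 0
  have hrep : ∀ c n, P c n → P c (rep c) := by
    intro c n h
    have h' : ∃ n, P c n := ⟨n, h⟩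
    simp only [rep]
    rw [dif_pos h']
    exact h'.choose_spec
  obtain ⟨C₂, hC₂⟩ : ∃ C₂ : ℝ, ∀ (c : Cls) (v : I), ‖D.t (Sum.inl v) (c.1 : E)⁻¹‖ *
      (‖D.t (Sum.inl v) (zz f (rep c)).1‖ + ‖bt D (Sum.inl v)‖ * ‖D.t (Sum.inl v) (zz f (rep c)).2‖) *
        C ≤ C₂ := by
    obtain ⟨C₂, h⟩ := (Set.finite_range fun x : Cls × I => ‖D.t (Sum.inl x.2) (x.1.1 : E)⁻¹‖ *
      (‖D.t (Sum.inl x.2) (zz f (rep x.1)).1‖ + ‖bt D (Sum.inl x.2)‖ *
        ‖D.t (Sum.inl x.2) (zz f (rep x.1)).2‖) * C).bddAbove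
    exact ⟨C₂, fun c v => h (Set.mem_range_self (c, v))⟩
  set C₃ : ℝ := max C₂ 1 with hC₃
  have hC₃0 : 0 < C₃ := lt_of_lt_of_le one_pos (le_max_right _ _)
  refine ⟨{s | ∀ v, D.b v * ‖s v‖ ^ 2 ≤ 1 - (C₃ ^ 2)⁻¹}, ?_, ?_, ?_⟩
  · -- compact
    apply Metric.isCompact_of_isClosed_isBounded
    · have : {s : I → ℂ | ∀ v, D.b v * ‖s v‖ ^ 2 ≤ 1 - (C₃ ^ 2)⁻¹} =
          ⋂ v, {s : I → ℂ | D.b v * ‖s v‖ ^ 2 ≤ 1 - (C₃ ^ 2)⁻¹} := by
        ext s
        simp
      rw [this]
      exact isClosed_iInter fun v => isClosed_le (by fun_prop) continuous_const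
    · rw [isBounded_iff_forall_norm_le]
      obtain ⟨C₄, hC₄⟩ := (Set.finite_range fun v : I => 1 + (D.b v)⁻¹).bddAbove
      refine ⟨max C₄ 0, fun s hs => ?_⟩
      rw [pi_norm_le_iff_of_nonneg (le_max_right _ _)]
      intro v
      have h1 := hs v
      have h2 := hC₄ (Set.mem_range_self v)
      have h3 := D.b_pos v
      have h4 : 0 < (C₃ ^ 2)⁻¹ := by positivity
      have h5 : ‖s v‖ ^ 2 ≤ (D.b v)⁻¹ := by
        rw [inv_eq_one_div, le_div_iff₀ h3]
        linarith
      refine le_trans ?_ (h2.trans (le_max_left _ _))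
      nlinarith [sq_nonneg (‖s v‖ - 1), norm_nonneg (s v)]
  · intro s hs v
    have h1 := hs v
    have h4 : 0 < (C₃ ^ 2)⁻¹ := by positivity
    linarith
  · intro s hs
    obtain ⟨n, hn0, hn⟩ := hmink' s hs
    have hδ0 : nrd D (zz f n) ≠ 0 := nrd_ne_zero D hn0
    have hδΔ : nrd D (zz f n) ∈ Δ := by
      rw [hΔ, Set.Finite.mem_toFinset]
      exact ⟨⟨n, rfl⟩, fun v => (norm_nrd_le D hs _ hCpos.le hn v).trans (hC₁ v)⟩
    let c : Cls := (⟨nrd D (zz f n), hδΔ⟩, fun k => ((n k : ℤ) : ZMod M))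
    have hPn : P c n := ⟨rfl, hn0, fun k => rfl⟩
    obtain ⟨hr1, hr2, hr3⟩ := hrep c n hPn
    obtain ⟨δ, hδ⟩ : ∃ δ : E, δ = nrd D (zz f n) := ⟨_, rfl⟩
    obtain ⟨n', hn'⟩ : ∃ n', n' = rep c := ⟨_, rfl⟩
    have hc1 : (c.1 : E) = δ := hδ.symm
    rw [← hn'] at hr1 hr2 hr3
    rw [hc1] at hr1
    rw [← hδ] at hδ0
    have hδΔ' : δ ∈ Δ := by
      rw [hδ]
      exact hδΔ
    have hcong : ∀ k, ∃ w : ℤ, n k = n' k + (n₀ * N : ℕ) * w := by
      intro k
      have h1 : ((n k : ℤ) : ZMod M) = ((n' k : ℤ) : ZMod M) := (hr3 k).symm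
      rw [ZMod.intCast_eq_intCast_iff_dvd_sub] at h1
      obtain ⟨w, hw⟩ := h1
      refine ⟨-w, ?_⟩
      rw [← hM]
      linear_combination -hw
    choose w hw using hcong
    have hfOrd : ∀ k, f k ∈ Ord D B := hm
    have hn₀' : ∀ k, (n₀ : ℚ) • (δ⁻¹ • cj D (f k)) ∈ Ord D B := fun k => hn₀ (⟨δ, hδΔ'⟩, k)
    obtain ⟨q, hq, hqe⟩ := quot_mem D B hfOrd hδ0 (N := N) hn₀' (n := n') (n' := n) (m := w) hr1 hw
    obtain ⟨q', hq', hqe'⟩ := quot_mem D B hfOrd hδ0 (N := N) hn₀' (n := n) (n' := n') (m := fun k => -w k)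
      hδ.symm (fun k => by rw [hw k]; ring)
    set u : E × E := δ⁻¹ • mul D (cj D (zz f n')) (zz f n) with hu
    have hbδ : D.bar δ = δ := by
      rw [hδ]
      exact bar_nrd D _
    have hnu : nrd D u = 1 := by
      have h1 : nrd D u = δ⁻¹ * δ⁻¹ * nrd D (mul D (cj D (zz f n')) (zz f n)) := by
        rw [hu]
        simp only [nrd, Prod.smul_fst, Prod.smul_snd, smul_eq_mul, map_mul, map_inv₀, hbδ]
        ring
      rw [h1, nrd_mul, nrd_cj, hr1, ← hδ]
      field_simp
    have hcju : cj D u = (1, 0) + (N : ℚ) • q' := by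
      rw [← hqe', hu]
      have h1 : ∀ z : E × E, cj D (δ⁻¹ • z) = δ⁻¹ • cj D z := by
        intro z
        ext
        · simp [cj, hbδ]
        · simp [cj]
      have h2 : ∀ z : E × E, cj D (cj D z) = z := by
        intro z
        ext <;> simp [cj, bar_bar]
      rw [h1, cj_mul, h2]
    have happ1 : ∀ (q : E × E) (x : E × E), ap D ((1, 0) + (N : ℚ) • q) x = x + (N : ℚ) • ap D q x := by
      intro q x
      rw [ap_add_left, ap_one, ap_smul_left]
    refine ⟨isoU D u hnu, ⟨isoU_det D u hnu, ?_, ?_, ?_⟩, ?_⟩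
    · intro x hx
      rw [isoU_app, hqe, happ1]
      have h1 : (N : ℚ) • ap D q x = N • ap D q x := by
        rw [Nat.cast_smul_eq_nsmul]
      rw [h1]
      exact AddSubgroup.add_mem _ hx (AddSubgroup.nsmul_mem _ (hq x hx) N)
    · intro x hx
      refine ⟨ap D (cj D u) x, ?_, ?_⟩
      · rw [hcju, happ1]
        have h1 : (N : ℚ) • ap D q' x = N • ap D q' x := by
          rw [Nat.cast_smul_eq_nsmul]
        rw [h1]
        exact AddSubgroup.add_mem _ hx (AddSubgroup.nsmul_mem _ (hq' x hx) N)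
      · rw [isoU_app, ← ap_mul, mul_cj_self, hnu, ap_one]
    · intro x hx
      refine ⟨ap D q x, hq x hx, ?_⟩
      rw [isoU_app, hqe, happ1]
    · intro v
      apply act_bound D hs u hnu v
      have h1 : (As D s (emb D u) (Sum.inl v)).1 = D.t (Sum.inl v) δ⁻¹ *
          (As D s (emb D (mul D (cj D (zz f n')) (zz f n))) (Sum.inl v)).1 := by
        rw [As_fst, As_fst, hu]
        simp only [emb, Prod.smul_fst, Prod.smul_snd, smul_eq_mul, map_mul]
        ring
      rw [h1, As_mul, norm_mul]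
      have h2 : ‖As D s (emb D (zz f n)) (Sum.inl v)‖ ≤ C := (norm_le_pi_norm _ _).trans hn
      have h3 : ‖(As D s (emb D (zz f n)) (Sum.inl v)).1‖ ≤ C := (norm_fst_le _).trans h2
      have h4 : ‖(As D s (emb D (zz f n)) (Sum.inl v)).2‖ ≤ C := (norm_snd_le _).trans h2
      have hb := hC₂ c v
      rw [hc1, ← hn'] at hb
      refine le_trans ?_ (hb.trans (le_max_left _ _))
      rw [mul_assoc, mul_assoc]
      apply mul_le_mul_of_nonneg_left _ (norm_nonneg _)
      refine (norm_add_le _ _).trans ?_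
      rw [norm_mul, norm_mul, norm_mul, Complex.norm_conj, add_mul]
      simp only [cj, map_neg, norm_neg, D.bar_spec, Complex.norm_conj]
      apply add_le_add
      · exact mul_le_mul_of_nonneg_left h3 (norm_nonneg _)
      · rw [← mul_assoc]
        exact mul_le_mul_of_nonneg_left h4 (by positivity)

end Pool.Agent.SPF
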