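import Pool.Agent.SPF.Kit

/-!
# Density of the orbits of isometries
-/

set_option autoImplicit false
set_option linter.unusedSectionVars false

open scoped BigOperators ComplexConjugate Topology
open Complex

namespace Pool.Agent.SPF

namespace DEN_

/-- The quaternion moving `q` to `s`. -/
theorem point {b : ℝ} (hb : 0 < b) {s q : ℂ} (hs : b * ‖s‖ ^ 2 < 1) (hq : b * ‖q‖ ^ 2 < 1) :
    ∃ P R : ℂ, P * conj P - b * (R * conj R) ≠ 0 ∧
      b * (conj R * (P + conj P)) * q + (conj P ^ 2 + b * (R * conj R)) ≠ 0 ∧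
      (P ^ 2 + b * (R * conj R)) * q + R * (P + conj P) =
        s * (b * (conj R * (P + conj P)) * q + (conj P ^ 2 + b * (R * conj R))) := by
  set N : ℝ := (1 - b * ‖s‖ ^ 2) * (1 - b * ‖q‖ ^ 2) with hN
  have hN0 : 0 < N := mul_pos (by linarith) (by linarith)
  set ν : ℝ := Real.sqrt N with hν
  have hν0 : 0 < ν := Real.sqrt_pos.mpr hN0
  have hνN : ν * ν = N := Real.mul_self_sqrt hN0.le
  have hss : s * conj s = (‖s‖ ^ 2 : ℝ) := by
    rw [Complex.mul_conj, Complex.normSq_eq_norm_sq]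
  have hqq : q * conj q = (‖q‖ ^ 2 : ℝ) := by
    rw [Complex.mul_conj, Complex.normSq_eq_norm_sq]
  have hre : b * (s * conj q).re < 1 := by
    have h1 : (s * conj q).re ≤ ‖s‖ * ‖q‖ := by
      refine (Complex.re_le_norm _).trans_eq ?_
      rw [norm_mul, Complex.norm_conj]
    have h2 : ‖s‖ * ‖q‖ ≤ (‖s‖ ^ 2 + ‖q‖ ^ 2) / 2 := by nlinarith [sq_nonneg (‖s‖ - ‖q‖)]
    nlinarith
  set m : ℂ := 1 - b * (s * conj q) with hm
  have hmre : 0 < m.re := by
    have : m.re = 1 - b * (s * conj q).re := by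
      rw [hm]
      simp
    rw [this]
    linarith
  have hmc : m + conj m = (2 * m.re : ℝ) := by
    rw [Complex.add_conj]
  have hNc : (N : ℂ) = m * conj m - b * ((s - q) * conj (s - q)) := by
    rw [hN, hm]
    push_cast
    have h1 : (((‖s‖ : ℝ) : ℂ)) ^ 2 = s * conj s := by
      rw [hss]
      push_cast
      rfl
    have h2 : (((‖q‖ : ℝ) : ℂ)) ^ 2 = q * conj q := by
      rw [hqq]
      push_cast
      rfl
    rw [h1, h2]
    simp only [map_sub, map_mul, map_one, Complex.conj_conj, Complex.conj_ofReal]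
    ring
  have hνc : (ν : ℂ) * ν = m * conj m - b * ((s - q) * conj (s - q)) := by
    rw [← hNc, ← hνN]
    push_cast
    rfl
  refine ⟨ν + m, s - q, ?_, ?_, ?_⟩
  · have h1 : (ν + m) * conj (ν + m) - b * ((s - q) * conj (s - q)) =
        ((2 * ν * (ν + m.re) : ℝ) : ℂ) := by
      have h2 : (ν + m) * conj ((ν : ℂ) + m) = ν * ν + ν * (m + conj m) + m * conj m := by
        rw [map_add, Complex.conj_ofReal]
        ring
      rw [h2, hmc]
      have h3 : m * conj m - b * ((s - q) * conj (s - q)) = ν * ν := hνc.symm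
      push_cast
      linear_combination h3
    rw [h1]
    exact_mod_cast (by positivity : (2 * ν * (ν + m.re)) ≠ 0)
  · have h1 : b * (conj (s - q) * ((ν + m) + conj (ν + m))) * q +
        (conj (ν + m) ^ 2 + b * ((s - q) * conj (s - q))) =
        ((2 * (ν + m.re) * (1 - b * ‖q‖ ^ 2) : ℝ) : ℂ) := by
      have h2 : (((‖q‖ : ℝ) : ℂ)) ^ 2 = q * conj q := by
        rw [hqq]
        push_cast
        rfl
      have h3 : (2 : ℂ) * (m.re : ℂ) = m + conj m := by
        rw [hmc]
        push_cast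
        rfl
      push_cast
      rw [h2]
      have h4 : (2 : ℂ) * (ν + m.re) = 2 * ν + (m + conj m) := by
        rw [← h3]
        ring
      rw [h4]
      have h5 : conj m = 1 - b * (conj s * q) := by
        rw [hm]
        simp
      simp only [map_add, map_sub, Complex.conj_ofReal] at hνc ⊢
      linear_combination hνc + (2 * ν + m + conj m) * h5
    rw [h1]
    have : (2 * (ν + m.re) * (1 - b * ‖q‖ ^ 2)) ≠ 0 := by
      have h2 : 0 < 1 - b * ‖q‖ ^ 2 := by linarith
      positivity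
    exact_mod_cast this
  · have h5 : conj m = 1 - b * (conj s * q) := by
      rw [hm]
      simp
    simp only [map_add, map_sub, Complex.conj_ofReal] at hνc ⊢
    linear_combination (q - s) * hνc + (2 * ν + m + conj m) * (q * hm - s * h5)

section

variable {E : Type} [Field E] [NumberField E] {I J : Type} [Fintype I] [Fintype J]
  [DecidableEq I] [DecidableEq J] (D : FamData E I J)

/-- One place. -/
theorem approx_one (v : I ⊕ J) (w : ℂ) {ε : ℝ} (hε : 0 < ε) : ∃ x : E, ‖D.t v x - w‖ < ε := by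
  have hre : (D.t v D.ξ₁).re = 0 := by
    have h := D.bar_spec (D.t v) D.ξ₁
    rw [D.ξ₁_bar, map_neg] at h
    have h2 := congrArg Complex.re h
    rw [Complex.neg_re, Complex.conj_re] at h2
    linarith
  have him := D.pos1 v
  set y := (D.t v D.ξ₁).im with hy
  obtain ⟨a, ha1, ha2⟩ := exists_rat_btwn (show w.re - ε / 2 < w.re + ε / 2 by linarith)
  obtain ⟨c, hc1, hc2⟩ := exists_rat_btwn (show (w.im - ε / 2) / y < (w.im + ε / 2) / y by
    apply div_lt_div_of_pos_right _ him
    linarith)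
  rw [div_lt_iff₀ him] at hc1
  rw [lt_div_iff₀ him] at hc2
  refine ⟨(a : E) + (c : E) * D.ξ₁, ?_⟩
  have h1 : D.t v ((a : E) + (c : E) * D.ξ₁) - w =
      ((((a : ℝ) - w.re : ℝ)) : ℂ) + (((c : ℝ) * y - w.im : ℝ) : ℂ) * Complex.I := by
    rw [map_add, map_mul, map_ratCast, map_ratCast]
    apply Complex.ext
    · simp [hre]
    · simp [← hy]
  rw [h1]
  refine (norm_add_le _ _).trans_lt ?_
  rw [norm_mul, Complex.norm_I, mul_one, Complex.norm_real, Complex.norm_real, Real.norm_eq_abs,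
    Real.norm_eq_abs]
  have h2 : |(a : ℝ) - w.re| < ε / 2 := by
    rw [abs_lt]
    constructor <;> linarith
  have h3 : |(c : ℝ) * y - w.im| < ε / 2 := by
    rw [abs_lt]
    constructor <;> linarith
  linarith

/-- Weak approximation at the places of the family. -/
theorem approx (w : I ⊕ J → ℂ) {ε : ℝ} (hε : 0 < ε) : ∃ x : E, ∀ v, ‖D.t v x - w v‖ < ε := by
  classical
  choose X hX using fun v => approx_one D v (w v) (half_pos hε)
  let pl : I ⊕ J → NumberField.InfinitePlace E := fun v => NumberField.InfinitePlace.mk (D.t v)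
  have hinj : Function.Injective pl := by
    intro v v' h
    rcases NumberField.InfinitePlace.mk_eq_iff.mp h with h | h
    · exact D.t_inj h
    · exfalso
      apply D.t_conj v' v
      rw [← h]
      rfl
  let Y : (p : NumberField.InfinitePlace E) → WithAbs p.1 := fun p =>
    if h : ∃ v, pl v = p then WithAbs.toAbs p.1 (X h.choose) else 0
  have hY : ∀ v, Y (pl v) = WithAbs.toAbs (pl v).1 (X v) := by
    intro v
    have h : ∃ v', pl v' = pl v := ⟨v, rfl⟩
    simp only [Y]
    rw [dif_pos h]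
    rw [hinj h.choose_spec]
  obtain ⟨x, hx⟩ := Metric.denseRange_iff.mp
    (NumberField.InfinitePlace.denseRange_algebraMap_pi E) Y (ε / 2) (half_pos hε)
  refine ⟨x, fun v => ?_⟩
  have h1 := (dist_pi_lt_iff (half_pos hε)).mp hx (pl v)
  rw [hY, dist_eq_norm] at h1
  have h2 : ‖WithAbs.toAbs (pl v).1 (X v) -
      algebraMap E ((v : NumberField.InfinitePlace E) → WithAbs v.1) x (pl v)‖ =
      ‖D.t v (X v - x)‖ := rfl
  rw [h2, map_sub] at h1
  have h3 := hX v
  have h4 : D.t v x - w v = -(D.t v (X v) - D.t v x) + (D.t v (X v) - w v) := by ring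
  rw [h4]
  refine (norm_add_le _ _).trans_lt ?_
  rw [norm_neg]
  linarith

theorem bar_bar (x : E) : D.bar (D.bar x) = x := by
  obtain ⟨φ⟩ : Nonempty (E →+* ℂ) := inferInstance
  apply φ.injective
  rw [D.bar_spec, D.bar_spec, Complex.conj_conj]

theorem xi1_ne : D.ξ₁ ≠ 0 := by
  obtain ⟨φ⟩ : Nonempty (E →+* ℂ) := inferInstance
  intro h
  obtain ⟨v, hv⟩ := D.t_surj φ
  have := D.pos1 v
  rw [h, map_zero] at this
  simp at this

theorem xi2_ne : D.ξ₂ ≠ 0 := by
  obtain ⟨φ⟩ : Nonempty (E →+* ℂ) := inferInstance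
  intro h
  obtain ⟨v, hv⟩ := D.t_surj φ
  rcases v with v | v
  · have := D.posI v
    rw [h, map_zero] at this
    simp at this
  · have := D.posJ v
    rw [h, map_zero] at this
    simp at this

/-- `β = - ξ₁ / ξ₂`. -/
def beta : E := -D.ξ₁ / D.ξ₂

theorem bar_beta : D.bar (beta D) = beta D := by
  rw [beta, map_div₀, map_neg, D.ξ₁_bar, D.ξ₂_bar]
  rw [neg_neg, div_neg, neg_div]

theorem xi1_eq : D.ξ₁ = -(beta D * D.ξ₂) := by
  rw [beta, div_mul_cancel₀ _ (xi2_ne D), neg_neg]

theorem t_purely (v : I ⊕ J) {x : E} (hx : D.bar x = -x) :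
    D.t v x = (D.t v x).im * Complex.I := by
  have h := D.bar_spec (D.t v) x
  rw [hx, map_neg] at h
  have h2 := congrArg Complex.re h
  rw [Complex.neg_re, Complex.conj_re] at h2
  apply Complex.ext
  · simp
    linarith
  · simp

theorem t_beta (v : I) : D.t (Sum.inl v) (beta D) = (D.b v : ℂ) := by
  have h1 := t_purely D (Sum.inl v) D.ξ₁_bar
  have h2 := t_purely D (Sum.inl v) D.ξ₂_bar
  have h3 := D.posI v
  rw [beta, map_div₀, map_neg, h1, h2, FamData.b]
  push_cast
  rw [neg_div, mul_div_mul_right _ _ Complex.I_ne_zero, neg_div]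

/-- The isometry `z ^ 2 / N(z)`, `z = p + r j`. -/
def isoOf (p r N : E) (hN : N ≠ 0) (h : N = p * D.bar p - beta D * (r * D.bar r)) : D.Iso where
  a := (p ^ 2 + beta D * (r * D.bar r)) / N
  b := (r * (p + D.bar p)) / N
  c := (beta D * (D.bar r * (p + D.bar p))) / N
  d := (D.bar p ^ 2 + beta D * (r * D.bar r)) / N
  h1 := by
    have hb : D.bar N = N := by
      rw [h]
      simp only [map_sub, map_mul, bar_bar, bar_beta]
      ring
    rw [xi1_eq D]
    simp only [map_div₀, map_add, map_mul, map_pow, bar_bar, bar_beta, hb]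
    field_simp
    rw [h]
    ring
  h2 := by
    have hb : D.bar N = N := by
      rw [h]
      simp only [map_sub, map_mul, bar_bar, bar_beta]
      ring
    rw [xi1_eq D]
    simp only [map_div₀, map_add, map_mul, map_pow, bar_bar, bar_beta, hb]
    field_simp
    ring
  h3 := by
    have hb : D.bar N = N := by
      rw [h]
      simp only [map_sub, map_mul, bar_bar, bar_beta]
      ring
    rw [xi1_eq D]
    simp only [map_div₀, map_add, map_mul, map_pow, bar_bar, bar_beta, hb]
    field_simp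
    rw [h]
    ring

theorem isoOf_act (p r N : E) (hN : N ≠ 0) (h : N = p * D.bar p - beta D * (r * D.bar r))
    (q : I → ℂ) (v : I) : (isoOf D p r N hN h).act q v =
      ((D.t (Sum.inl v) p ^ 2 + D.b v * (D.t (Sum.inl v) r * conj (D.t (Sum.inl v) r))) * q v +
        D.t (Sum.inl v) r * (D.t (Sum.inl v) p + conj (D.t (Sum.inl v) p))) /
      (D.b v * (conj (D.t (Sum.inl v) r) * (D.t (Sum.inl v) p + conj (D.t (Sum.inl v) p))) * q v +
        (conj (D.t (Sum.inl v) p) ^ 2 + D.b v * (D.t (Sum.inl v) r * conj (D.t (Sum.inl v) r)))) := by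
  have hN' : D.t (Sum.inl v) N ≠ 0 := by
    rw [Ne, map_eq_zero]
    exact hN
  simp only [FamData.Iso.act, FamData.Iso.j, isoOf, map_div₀, map_add, map_mul, map_pow, D.bar_spec,
    t_beta]
  rw [div_mul_eq_mul_div, ← add_div, div_mul_eq_mul_div, ← add_div, div_div_div_cancel_right₀ hN']

end

end DEN_

open DEN_ in
theorem den_proof : Stmt_DEN := by
  intro E _ _ I J _ _ _ _ D q hq s hs ε hε
  choose P R hP1 hP2 hP3 using fun v : I => point (D.b_pos v) (hs v) (hq v)
  -- continuity at each place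
  have hcont : ∀ v : I, ∃ δ > 0, ∀ p r : ℂ, ‖p - P v‖ < δ → ‖r - R v‖ < δ →
      p * conj p - D.b v * (r * conj r) ≠ 0 ∧
      ‖((p ^ 2 + D.b v * (r * conj r)) * q v + r * (p + conj p)) /
        (D.b v * (conj r * (p + conj p)) * q v + (conj p ^ 2 + D.b v * (r * conj r))) - s v‖ < ε := by
    intro v
    have h1 : ContinuousAt (fun z : ℂ × ℂ => ((z.1 ^ 2 + D.b v * (z.2 * conj z.2)) * q v +
        z.2 * (z.1 + conj z.1)) / (D.b v * (conj z.2 * (z.1 + conj z.1)) * q v +
        (conj z.1 ^ 2 + D.b v * (z.2 * conj z.2)))) (P v, R v) := by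
      apply ContinuousAt.div
      · fun_prop
      · fun_prop
      · exact hP2 v
    have h2 : ContinuousAt (fun z : ℂ × ℂ => z.1 * conj z.1 - D.b v * (z.2 * conj z.2))
        (P v, R v) := by fun_prop
    have h3 := h2.eventually_ne (hP1 v)
    have h4 := Metric.continuousAt_iff'.mp h1 ε hε
    obtain ⟨δ, hδ, h5⟩ := Metric.eventually_nhds_iff.mp (h3.and h4)
    refine ⟨δ, hδ, fun p r hp hr => ?_⟩
    have h6 := @h5 (p, r) (by
      rw [Prod.dist_eq, max_lt_iff, dist_eq_norm, dist_eq_norm]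
      exact ⟨hp, hr⟩)
    refine ⟨h6.1, ?_⟩
    have h7 := h6.2
    rw [dist_eq_norm] at h7
    have h8 : ((P v ^ 2 + D.b v * (R v * conj (R v))) * q v + R v * (P v + conj (P v))) /
        (D.b v * (conj (R v) * (P v + conj (P v))) * q v +
          (conj (P v) ^ 2 + D.b v * (R v * conj (R v)))) = s v := by
      rw [div_eq_iff (hP2 v)]
      exact hP3 v
    simp only at h7
    rw [h8] at h7
    exact h7
  choose δ hδ hc using hcont
  rcases isEmpty_or_nonempty I with hI | hI
  · refine ⟨isoOf D 1 0 1 one_ne_zero (by simp), ?_⟩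
    have : (isoOf D 1 0 1 one_ne_zero (by simp)).act q = s := funext fun v => hI.elim v
    rw [this, dist_self]
    exact hε
  · obtain ⟨v₀⟩ := hI
    set δ₀ : ℝ := Finset.univ.inf' ⟨v₀, Finset.mem_univ _⟩ δ with hδ₀
    have hδ₀pos : 0 < δ₀ := by
      rw [hδ₀, Finset.lt_inf'_iff]
      exact fun v _ => hδ v
    have hle : ∀ v, δ₀ ≤ δ v := fun v => Finset.inf'_le _ (Finset.mem_univ v)
    obtain ⟨p, hp⟩ := approx D (Sum.elim P (fun _ => 0)) hδ₀pos
    obtain ⟨r, hr⟩ := approx D (Sum.elim R (fun _ => 0)) hδ₀pos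
    have hp' : ∀ v : I, ‖D.t (Sum.inl v) p - P v‖ < δ v := fun v => (hp (Sum.inl v)).trans_le (hle v)
    have hr' : ∀ v : I, ‖D.t (Sum.inl v) r - R v‖ < δ v := fun v => (hr (Sum.inl v)).trans_le (hle v)
    have hN : p * D.bar p - beta D * (r * D.bar r) ≠ 0 := by
      intro h
      have h1 := (hc v₀ _ _ (hp' v₀) (hr' v₀)).1
      apply h1
      rw [← D.bar_spec, ← D.bar_spec, ← t_beta, ← map_mul, ← map_mul, ← map_mul, ← map_sub, h,
        map_zero]
    refine ⟨isoOf D p r _ hN rfl, ?_⟩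
    rw [dist_pi_lt_iff hε]
    intro v
    rw [dist_eq_norm, isoOf_act]
    exact (hc v _ _ (hp' v) (hr' v)).2

end Pool.Agent.SPF
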