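import Pool.Agent.SPF.Kit

set_option linter.unusedSectionVars false
set_option linter.unusedSimpArgs false

/-!
# Derivations of the field of complex numbers

If a complex number is killed by all derivations of `ℂ`, it is algebraic.
-/

namespace Pool.Agent.SPF

noncomputable section

namespace DER_

open TensorProduct KaehlerDifferential

/-- A transcendental number has a derivation which does not kill it. -/
theorem exists_der (x : ℂ) (hx : Transcendental ℚ x) : ∃ δ : Derivation ℚ ℂ ℂ, δ x ≠ 0 := by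
  have h1 : AlgebraicIndepOn ℚ id ({x} : Set ℂ) := by
    have : AlgebraicIndependent ℚ (fun i : ({x} : Set ℂ) => (i : ℂ)) := by
      rw [algebraicIndependent_unique_type_iff]
      exact hx
    exact this
  obtain ⟨s, hs, hb⟩ := exists_isTranscendenceBasis_superset h1
  have hxs : x ∈ s := hs rfl
  letI alg : Algebra (MvPolynomial s ℚ) ℂ :=
    (MvPolynomial.aeval (R := ℚ) (fun i : s => (i : ℂ))).toRingHom.toAlgebra
  have halg : ∀ p : MvPolynomial s ℚ, algebraMap (MvPolynomial s ℚ) ℂ p =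
    MvPolynomial.aeval (R := ℚ) (fun i : s => (i : ℂ)) p := fun p => rfl
  have tower : IsScalarTower ℚ (MvPolynomial s ℚ) ℂ := by
    refine IsScalarTower.of_algebraMap_eq fun q => ?_
    rw [halg, MvPolynomial.algebraMap_eq, MvPolynomial.aeval_C]
  have hinj : Function.Injective (algebraMap (MvPolynomial s ℚ) ℂ) := hb.1
  have : FaithfulSMul (MvPolynomial s ℚ) ℂ := (faithfulSMul_iff_algebraMap_injective _ _).mpr hinj
  letI := FractionRing.liftAlgebra (MvPolynomial s ℚ) ℂ
  have : Algebra.IsAlgebraic (MvPolynomial s ℚ) ℂ := by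
    have h2 := hb.isAlgebraic
    constructor
    intro a
    have h3 := h2.isAlgebraic a
    let f : MvPolynomial s ℚ →ₐ[ℚ] Algebra.adjoin ℚ (Set.range (fun i : s => (i : ℂ))) :=
      MvPolynomial.aeval (fun i : s => ⟨(i : ℂ), Algebra.subset_adjoin ⟨i, rfl⟩⟩)
    have hf : ∀ p, ((f p : Algebra.adjoin ℚ (Set.range (fun i : s => (i : ℂ)))) : ℂ) =
        MvPolynomial.aeval (R := ℚ) (fun i : s => (i : ℂ)) p := by
      intro p
      have : (Algebra.adjoin ℚ (Set.range (fun i : s => (i : ℂ)))).val.comp f =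
          MvPolynomial.aeval (R := ℚ) (fun i : s => (i : ℂ)) := by
        apply MvPolynomial.algHom_ext
        intro i
        simp [f]
      exact congrArg (fun g => g p) this
    refine IsAlgebraic.of_ringHom_of_comp_eq (f.toRingHom) (RingHom.id ℂ) (a := a) h3 ?_
      Function.injective_id ?_
    · rintro ⟨b, hbm⟩
      rw [Algebra.adjoin_range_eq_range_aeval] at hbm
      obtain ⟨p, hp⟩ := hbm
      refine ⟨p, ?_⟩
      apply Subtype.ext
      exact (hf p).trans hp
    · refine RingHom.ext fun p => ?_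
      exact hf p
  have : Algebra.IsAlgebraic (FractionRing (MvPolynomial s ℚ)) ℂ :=
    (IsFractionRing.comap_isAlgebraic_iff (A := MvPolynomial s ℚ)
      (K := FractionRing (MvPolynomial s ℚ)) (C := ℂ)).mp inferInstance
  have : Algebra.FormallyEtale (FractionRing (MvPolynomial s ℚ)) ℂ :=
    Algebra.FormallyEtale.of_isSeparable _ _
  have : Algebra.FormallyEtale (MvPolynomial s ℚ) (FractionRing (MvPolynomial s ℚ)) :=
    Algebra.FormallyEtale.of_isLocalization (nonZeroDivisors (MvPolynomial s ℚ))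
  have : Algebra.FormallyEtale (MvPolynomial s ℚ) ℂ :=
    Algebra.FormallyEtale.comp (MvPolynomial s ℚ) (FractionRing (MvPolynomial s ℚ)) ℂ
  let E := tensorKaehlerEquivOfFormallyEtale ℚ (MvPolynomial s ℚ) ℂ
  let l : Ω[MvPolynomial s ℚ⁄ℚ] →ₗ[MvPolynomial s ℚ] ℂ :=
    (Algebra.linearMap (MvPolynomial s ℚ) ℂ) ∘ₗ
      ((mvPolynomialBasis ℚ s).coord ⟨x, hxs⟩)
  let L : ℂ ⊗[MvPolynomial s ℚ] Ω[MvPolynomial s ℚ⁄ℚ] →ₗ[ℂ] ℂ := LinearMap.liftBaseChange ℂ l
  let M : Ω[ℂ⁄ℚ] →ₗ[ℂ] ℂ := L ∘ₗ E.symm.toLinearMap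
  refine ⟨M.compDer (KaehlerDifferential.D ℚ ℂ), ?_⟩
  have h4 : (KaehlerDifferential.D ℚ ℂ) x = (KaehlerDifferential.D ℚ ℂ)
      (algebraMap (MvPolynomial s ℚ) ℂ (MvPolynomial.X ⟨x, hxs⟩)) := by
    rw [halg, MvPolynomial.aeval_X]
  have h5 : M.compDer (KaehlerDifferential.D ℚ ℂ) x = 1 := by
    show L (E.symm ((KaehlerDifferential.D ℚ ℂ) x)) = 1
    rw [h4]
    rw [show E.symm ((KaehlerDifferential.D ℚ ℂ)
      (algebraMap (MvPolynomial s ℚ) ℂ (MvPolynomial.X ⟨x, hxs⟩))) = _ from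
      tensorKaehlerEquivOfFormallyEtale_symm_D_algebraMap ℚ (MvPolynomial s ℚ) ℂ _]
    show LinearMap.liftBaseChange ℂ l (1 ⊗ₜ _) = 1
    rw [LinearMap.liftBaseChange_tmul, one_smul]
    show algebraMap (MvPolynomial s ℚ) ℂ ((mvPolynomialBasis ℚ s).coord ⟨x, hxs⟩ _) = 1
    rw [Module.Basis.coord_apply, mvPolynomialBasis_repr_D_X]
    simp
  rw [h5]
  exact one_ne_zero

end DER_

theorem der_proof : Stmt_DER := by
  intro x hx
  by_contra hc
  obtain ⟨δ, hδ⟩ := DER_.exists_der x hc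
  exact hδ (hx δ)

end

end Pool.Agent.SPF
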