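import Pool.Agent.SPF.Kit

/-!
# SPR, module EXB: existence of symplectic bases
-/

namespace Pool.Agent.SPF.EXB_

noncomputable section

variable {V : Type} [AddCommGroup V] [Module ℚ V] {e : V →ₗ[ℚ] V →ₗ[ℚ] ℚ}

lemma skew (ha : ∀ x, e x x = 0) (x y : V) : e x y = -e y x := by
  have h := ha (x + y)
  simp only [map_add, LinearMap.add_apply, ha, zero_add, add_zero] at h
  linarith

/-- a symplectic family -/
structure Fam (e : V →ₗ[ℚ] V →ₗ[ℚ] ℚ) {ι : Type} [DecidableEq ι] (p q : ι → V) : Prop where
  pp : ∀ i j, e (p i) (p j) = 0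
  qq : ∀ i j, e (q i) (q j) = 0
  pq : ∀ i j, e (p i) (q j) = if i = j then 1 else 0

/-- the projection on the span of a symplectic family -/
def proj (e : V →ₗ[ℚ] V →ₗ[ℚ] ℚ) {n : ℕ} (p q : Fin n → V) (z : V) : V :=
  ∑ i, (e z (q i)) • p i - ∑ i, (e z (p i)) • q i

lemma proj_p (ha : ∀ x, e x x = 0) {n : ℕ} {p q : Fin n → V} (h : Fam e p q) (z : V) (j : Fin n) :
    e (proj e p q z) (p j) = e z (p j) := by
  simp only [proj, map_sub, map_sum, map_smul, LinearMap.sub_apply, LinearMap.sum_apply,
    LinearMap.smul_apply, smul_eq_mul, h.pp, mul_zero, Finset.sum_const_zero, zero_sub]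
  rw [← Finset.sum_neg_distrib, Finset.sum_eq_single j]
  · rw [skew ha (q j), h.pq, if_pos rfl]; ring
  · intro i _ hij
    rw [skew ha (q i), h.pq, if_neg (fun h => hij h.symm)]; ring
  · intro h; exact absurd (Finset.mem_univ j) h

lemma proj_q {n : ℕ} {p q : Fin n → V} (h : Fam e p q) (z : V) (j : Fin n) :
    e (proj e p q z) (q j) = e z (q j) := by
  simp only [proj, map_sub, map_sum, map_smul, LinearMap.sub_apply, LinearMap.sum_apply,
    LinearMap.smul_apply, smul_eq_mul, h.qq, mul_zero, Finset.sum_const_zero, sub_zero]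
  rw [Finset.sum_eq_single j]
  · rw [h.pq, if_pos rfl]; ring
  · intro i _ hij
    rw [h.pq, if_neg hij]; ring
  · intro h; exact absurd (Finset.mem_univ j) h

lemma proj_mem {n : ℕ} (p q : Fin n → V) (z : V) :
    proj e p q z ∈ Submodule.span ℚ (Set.range (Sum.elim p q)) := by
  refine Submodule.sub_mem _ (Submodule.sum_mem _ fun i _ => Submodule.smul_mem _ _
    (Submodule.subset_span ⟨Sum.inl i, rfl⟩)) (Submodule.sum_mem _ fun i _ =>
      Submodule.smul_mem _ _ (Submodule.subset_span ⟨Sum.inr i, rfl⟩))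

theorem extend [FiniteDimensional ℚ V] (ha : ∀ x, e x x = 0)
    (hn : ∀ x, (∀ y, e x y = 0) → x = 0) {n : ℕ} {p q : Fin n → V} (h : Fam e p q)
    (hd : 2 * (n + 1) ≤ Module.finrank ℚ V) : ∃ p' q' : Fin (n + 1) → V, Fam e p' q' := by
  obtain ⟨z, hz⟩ : ∃ z, z ∉ Submodule.span ℚ (Set.range (Sum.elim p q)) := by
    by_contra hc
    push Not at hc
    have h1 : Submodule.span ℚ (Set.range (Sum.elim p q)) = ⊤ := by
      rw [Submodule.eq_top_iff']; exact hc
    have h2 := finrank_range_le_card (R := ℚ) (Sum.elim p q)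
    rw [Set.finrank, h1, finrank_top, Fintype.card_sum, Fintype.card_fin] at h2
    omega
  set z' := z - proj e p q z with hz'
  have hz0 : z' ≠ 0 := by
    intro h0
    apply hz
    have : z = proj e p q z := by
      have := sub_eq_zero.mp h0
      exact this
    rw [this]
    exact proj_mem p q z
  have zp : ∀ j, e z' (p j) = 0 := fun j => by
    rw [hz', map_sub, LinearMap.sub_apply, proj_p ha h, sub_self]
  have zq : ∀ j, e z' (q j) = 0 := fun j => by
    rw [hz', map_sub, LinearMap.sub_apply, proj_q h, sub_self]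
  obtain ⟨w, hw⟩ : ∃ w, e z' w ≠ 0 := by
    by_contra hc
    push Not at hc
    exact hz0 (hn z' hc)
  set w' := w - proj e p q w with hw'
  have wp : ∀ j, e w' (p j) = 0 := fun j => by
    rw [hw', map_sub, LinearMap.sub_apply, proj_p ha h, sub_self]
  have wq : ∀ j, e w' (q j) = 0 := fun j => by
    rw [hw', map_sub, LinearMap.sub_apply, proj_q h, sub_self]
  have hzw : e z' w' = e z' w := by
    rw [hw', map_sub]
    have : e z' (proj e p q w) = 0 := by
      simp only [proj, map_sub, map_sum, map_smul, zp, zq, smul_zero, Finset.sum_const_zero,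
        sub_zero]
    rw [this, sub_zero]
  set y := (e z' w)⁻¹ • w' with hy
  have hzy : e z' y = 1 := by
    rw [hy, map_smul, hzw, smul_eq_mul, inv_mul_cancel₀ hw]
  have yp : ∀ j, e y (p j) = 0 := fun j => by
    rw [hy, map_smul, LinearMap.smul_apply, wp, smul_zero]
  have yq : ∀ j, e y (q j) = 0 := fun j => by
    rw [hy, map_smul, LinearMap.smul_apply, wq, smul_zero]
  refine ⟨Fin.cons z' p, Fin.cons y q, ?_, ?_, ?_⟩
  · intro i j
    refine Fin.cases ?_ (fun i => ?_) i <;> refine Fin.cases ?_ (fun j => ?_) j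
    · simp only [Fin.cons_zero]; exact ha _
    · simp only [Fin.cons_zero, Fin.cons_succ]; exact zp j
    · simp only [Fin.cons_zero, Fin.cons_succ]; rw [skew ha, zp, neg_zero]
    · simp only [Fin.cons_succ]; exact h.pp i j
  · intro i j
    refine Fin.cases ?_ (fun i => ?_) i <;> refine Fin.cases ?_ (fun j => ?_) j
    · simp only [Fin.cons_zero]; exact ha _
    · simp only [Fin.cons_zero, Fin.cons_succ]; exact yq j
    · simp only [Fin.cons_zero, Fin.cons_succ]; rw [skew ha, yq, neg_zero]
    · simp only [Fin.cons_succ]; exact h.qq i j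
  · intro i j
    refine Fin.cases ?_ (fun i => ?_) i <;> refine Fin.cases ?_ (fun j => ?_) j
    · simp only [Fin.cons_zero]; rw [hzy, if_pos trivial]
    · simp only [Fin.cons_zero, Fin.cons_succ]
      rw [zq, if_neg (Fin.succ_ne_zero j).symm]
    · simp only [Fin.cons_zero, Fin.cons_succ]
      rw [skew ha, yp, neg_zero, if_neg (Fin.succ_ne_zero i)]
    · simp only [Fin.cons_succ]
      rw [h.pq]
      by_cases hij : i = j
      · rw [if_pos hij, if_pos (by rw [hij])]
      · rw [if_neg hij, if_neg (fun h => hij (Fin.succ_injective _ h))]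

theorem exists_fam [FiniteDimensional ℚ V] (ha : ∀ x, e x x = 0)
    (hn : ∀ x, (∀ y, e x y = 0) → x = 0) (n : ℕ) (hd : 2 * n ≤ Module.finrank ℚ V) :
    ∃ p q : Fin n → V, Fam e p q := by
  induction n with
  | zero => exact ⟨fun i => i.elim0, fun i => i.elim0, fun i => i.elim0, fun i => i.elim0,
      fun i => i.elim0⟩
  | succ n ih =>
    obtain ⟨p, q, h⟩ := ih (by omega)
    exact extend ha hn h hd

theorem li (ha : ∀ x, e x x = 0) {ι : Type} [Fintype ι] [DecidableEq ι] {p q : ι → V}
    (h : Fam e p q) : LinearIndependent ℚ (Sum.elim p q) := by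
  rw [Fintype.linearIndependent_iff]
  intro a hs
  rw [Fintype.sum_sum_type] at hs
  simp only [Sum.elim_inl, Sum.elim_inr] at hs
  rintro (j | j)
  · have h1 := congrArg (fun v => e v (q j)) hs
    simp only [map_add, map_sum, map_smul, LinearMap.add_apply, LinearMap.sum_apply,
      LinearMap.smul_apply, smul_eq_mul, h.qq, mul_zero, Finset.sum_const_zero, add_zero, map_zero,
      LinearMap.zero_apply] at h1
    rw [Finset.sum_eq_single j] at h1
    · rwa [h.pq, if_pos rfl, mul_one] at h1
    · intro i _ hij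
      rw [h.pq, if_neg hij, mul_zero]
    · intro h; exact absurd (Finset.mem_univ j) h
  · have h1 := congrArg (fun v => e v (p j)) hs
    simp only [map_add, map_sum, map_smul, LinearMap.add_apply, LinearMap.sum_apply,
      LinearMap.smul_apply, smul_eq_mul, h.pp, mul_zero, Finset.sum_const_zero, zero_add, map_zero,
      LinearMap.zero_apply] at h1
    rw [Finset.sum_eq_single j] at h1
    · rw [skew ha, h.pq, if_pos rfl] at h1
      linarith
    · intro i _ hij
      rw [skew ha, h.pq, if_neg (fun h => hij h.symm), neg_zero, mul_zero]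
    · intro h; exact absurd (Finset.mem_univ j) h

end

end Pool.Agent.SPF.EXB_

namespace Pool.Agent.SPF

open EXB_

theorem exb_proof : Stmt_EXB := by
  intro V _ _ _ ι _ _ e ha hn hr
  obtain ⟨p, q, h⟩ := exists_fam ha hn (Fintype.card ι) (by omega)
  set f : ι ≃ Fin (Fintype.card ι) := Fintype.equivFin ι
  have h' : Fam e (fun i => p (f i)) (fun i => q (f i)) := by
    refine ⟨fun i j => h.pp _ _, fun i j => h.qq _ _, fun i j => ?_⟩
    rw [h.pq]
    by_cases hij : i = j
    · rw [if_pos hij, if_pos (by rw [hij])]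
    · rw [if_neg hij, if_neg (fun h => hij (f.injective h))]
  have hl := li ha h'
  rcases isEmpty_or_nonempty ι with hi | hi
  · have hb : Module.finrank ℚ V = 0 := by rw [hr, Fintype.card_eq_zero, mul_zero]
    haveI := Module.finrank_zero_iff.mp hb
    exact ⟨Module.Basis.empty V, ha, fun i => hi.elim i, fun i => hi.elim i, fun i => hi.elim i⟩
  · have hc : Fintype.card (ι ⊕ ι) = Module.finrank ℚ V := by
      rw [Fintype.card_sum, hr, two_mul]
    refine ⟨basisOfLinearIndependentOfCardEqFinrank hl hc, ha, ?_, ?_, ?_⟩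
    · intro i j
      simp only [coe_basisOfLinearIndependentOfCardEqFinrank, Sum.elim_inl]
      exact h'.pp i j
    · intro i j
      simp only [coe_basisOfLinearIndependentOfCardEqFinrank, Sum.elim_inr]
      exact h'.qq i j
    · intro i j
      simp only [coe_basisOfLinearIndependentOfCardEqFinrank, Sum.elim_inr, Sum.elim_inl]
      exact h'.pq i j

end Pool.Agent.SPF
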