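import Pool.Agent.SPF.Kit

/-!
# EXF: existence of a symplectic basis for the family
-/

set_option linter.unusedSectionVars false

open Complex

namespace Pool.Agent.SPF

namespace EXF_

variable {E : Type} [Field E] [NumberField E] {I J : Type} [Fintype I] [Fintype J]
  [DecidableEq I] [DecidableEq J] (D : FamData E I J)

lemma bar_bar (x : E) : D.bar (D.bar x) = x := by
  obtain ⟨φ⟩ : Nonempty (E →+* ℂ) := inferInstance
  apply φ.injective
  rw [D.bar_spec, D.bar_spec, Complex.conj_conj]

lemma trace_bar (x : E) : Algebra.trace ℚ E (D.bar x) = Algebra.trace ℚ E x := by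
  let f : E ≃ₐ[ℚ] E := AlgEquiv.ofRingEquiv (f := D.bar) (fun r => map_ratCast D.bar r)
  exact Algebra.trace_eq_of_algEquiv f x

lemma e_apply (x y : E × E) : D.e x y = Algebra.trace ℚ E (D.psi x y) := rfl

lemma e_alt (x : E × E) : D.e x x = 0 := by
  have h1 : D.bar (D.psi x x) = -D.psi x x := by
    simp only [FamData.psi, map_add, map_mul, D.ξ₁_bar, D.ξ₂_bar, bar_bar]
    ring
  have h2 := trace_bar D (D.psi x x)
  rw [h1, map_neg] at h2
  rw [e_apply]
  linarith

lemma ne1 : D.ξ₁ ≠ 0 := by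
  obtain ⟨φ⟩ : Nonempty (E →+* ℂ) := inferInstance
  obtain ⟨v, -⟩ := D.t_surj φ
  intro h
  have := D.pos1 v
  rw [h, map_zero] at this
  simp at this

lemma ne2 : D.ξ₂ ≠ 0 := by
  obtain ⟨φ⟩ : Nonempty (E →+* ℂ) := inferInstance
  obtain ⟨v, -⟩ := D.t_surj φ
  intro h
  rcases v with v | v
  · have := D.posI v
    rw [h, map_zero] at this
    simp at this
  · have := D.posJ v
    rw [h, map_zero] at this
    simp at this

lemma tr_zero (a : E) (h : ∀ z, Algebra.trace ℚ E (a * D.bar z) = 0) : a = 0 := by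
  have hn := traceForm_nondegenerate ℚ E
  refine hn.1 a fun n => ?_
  rw [Algebra.traceForm_apply]
  have := h (D.bar n)
  rwa [bar_bar] at this

lemma e_nondeg (x : E × E) (h : ∀ y, D.e x y = 0) : x = 0 := by
  have h1 : D.ξ₁ * x.1 = 0 := by
    refine tr_zero D _ fun z => ?_
    have := h (z, 0)
    rw [e_apply] at this
    simpa [FamData.psi] using this
  have h2 : D.ξ₂ * x.2 = 0 := by
    refine tr_zero D _ fun z => ?_
    have := h (0, z)
    rw [e_apply] at this
    simpa [FamData.psi] using this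
  have h3 := (mul_eq_zero.1 h1).resolve_left (ne1 D)
  have h4 := (mul_eq_zero.1 h2).resolve_left (ne2 D)
  exact Prod.ext h3 h4

include D in
lemma card_emb : Fintype.card ((I ⊕ J) ⊕ (I ⊕ J)) = Module.finrank ℚ E := by
  rw [← NumberField.Embeddings.card E ℂ]
  let f : (I ⊕ J) ⊕ (I ⊕ J) → (E →+* ℂ) :=
    Sum.elim D.t (fun v => (starRingEnd ℂ).comp (D.t v))
  refine Fintype.card_of_bijective (f := f) ⟨?_, ?_⟩
  · intro a b hab
    rcases a with a | a <;> rcases b with b | b
    · exact congrArg Sum.inl (D.t_inj hab)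
    · exact absurd hab (D.t_conj a b)
    · exact absurd hab.symm (D.t_conj b a)
    · refine congrArg Sum.inr (D.t_inj ?_)
      ext x
      have := congrArg (fun φ : E →+* ℂ => φ x) hab
      exact (starRingEnd ℂ).injective this
  · intro φ
    obtain ⟨v, hv | hv⟩ := D.t_surj φ
    · exact ⟨Sum.inl v, hv.symm⟩
    · exact ⟨Sum.inr v, hv.symm⟩

end EXF_

/-- Existence of a symplectic basis for the family. -/
theorem exf_proof (h1 : Stmt_EXB) : Stmt_EXF := by
  intro E _ _ I J _ _ _ _ D
  refine h1 (E × E) (Co I J) D.e (EXF_.e_alt D) (EXF_.e_nondeg D) ?_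
  rw [Module.finrank_prod, EXF_.card_emb D, two_mul]

end Pool.Agent.SPF
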