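import Pool.Agent.SPF.Kit
import Pool.Agent.SPF.OsgoodL

/-!
# HEAT: heat equation for the family of theta functions
-/

set_option linter.unusedSectionVars false
set_option linter.unusedSimpArgs false

open scoped BigOperators Topology
open Complex Metric Filter

namespace Pool.Agent.SPF

noncomputable section

namespace HEAT_

variable {E : Type} [Field E] [NumberField E] {I J : Type} [Fintype I] [Fintype J]
  [DecidableEq I] [DecidableEq J]

theorem purely_imag (D : FamData E I J) (v : I ⊕ J) {ξ : E} (h : D.bar ξ = -ξ) :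
    D.t v ξ = (D.t v ξ).im * Complex.I := by
  have h := D.bar_spec (D.t v) ξ
  rw [‹D.bar ξ = -ξ›, map_neg] at h
  apply Complex.ext
  · have := congrArg Complex.re h
    simp at this ⊢
    linarith
  · simp

/-- `b_v B_v = A_v` -/
theorem b_mul_Bc (D : FamData E I J) (v : I) :
    (D.b v : ℂ) * D.Bc (Sum.inl v) = D.A (Sum.inl v) := by
  have h1 := purely_imag D (Sum.inl v) D.ξ₁_bar
  have h2 := purely_imag D (Sum.inl v) D.ξ₂_bar
  have h3 : ((D.t (Sum.inl v) D.ξ₂).im : ℂ) ≠ 0 := by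
    exact_mod_cast (D.posI v).ne
  have h5 : D.Bc (Sum.inl v) = 2 * Real.pi * Complex.I * D.t (Sum.inl v) D.ξ₂ := rfl
  rw [h5]
  unfold FamData.b FamData.A
  set p := (D.t (Sum.inl v) D.ξ₁).im with hp
  set q := (D.t (Sum.inl v) D.ξ₂).im with hq
  rw [h1, h2]
  push_cast
  field_simp

theorem Bc_ne_zero (D : FamData E I J) (v : I) : D.Bc (Sum.inl v) ≠ 0 := by
  have h2 := purely_imag D (Sum.inl v) D.ξ₂_bar
  have h3 : ((D.t (Sum.inl v) D.ξ₂).im : ℂ) ≠ 0 := by
    exact_mod_cast (D.posI v).ne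
  have h5 : D.Bc (Sum.inl v) = 2 * Real.pi * Complex.I * D.t (Sum.inl v) D.ξ₂ := rfl
  rw [h5, h2]
  have := Real.pi_ne_zero
  have h4 : (Real.pi : ℂ) ≠ 0 := by exact_mod_cast this
  simp [h4, h3]

/-- the derivative of `ζ_s x` in the direction `s_v` -/
def yv (D : FamData E I J) (v : I) (x : E × E) : Co I J → ℂ :=
  (-(D.t (Sum.inl v) x.2)) • Pi.single (FamData.i1 v) (1 : ℂ) +
    (-(D.b v * D.tb (Sum.inl v) x.1)) • Pi.single (FamData.i2 v) (1 : ℂ)

theorem zeta_line (D : FamData E I J) (v : I) (x : E × E) (s : I → ℂ) (τ : ℂ) :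
    D.zeta (s + τ • Pi.single v 1) x = D.zeta s x + τ • yv D v x := by
  funext i
  rcases i with (w | w) | (w | w)
  · show D.t (Sum.inl w) x.1 - (s + τ • (Pi.single v (1 : ℂ) : I → ℂ)) w * D.t (Sum.inl w) x.2 =
      (D.t (Sum.inl w) x.1 - s w * D.t (Sum.inl w) x.2) + τ * yv D v x (FamData.i1 w)
    by_cases hw : w = v
    · subst hw
      simp [yv, FamData.i1, FamData.i2]
      ring
    · simp [yv, FamData.i1, FamData.i2, hw, Pi.single_apply]
  · show D.t (Sum.inr w) x.1 = D.t (Sum.inr w) x.1 + τ * yv D v x (FamData.j1 w)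
    simp [yv, FamData.i1, FamData.i2, FamData.j1, Pi.single_apply]
  · show D.tb (Sum.inl w) x.2 - D.b w * (s + τ • (Pi.single v (1 : ℂ) : I → ℂ)) w * D.tb (Sum.inl w) x.1 =
      (D.tb (Sum.inl w) x.2 - D.b w * s w * D.tb (Sum.inl w) x.1) + τ * yv D v x (FamData.i2 w)
    by_cases hw : w = v
    · subst hw
      simp [yv, FamData.i1, FamData.i2]
      ring
    · simp [yv, FamData.i1, FamData.i2, hw, Pi.single_apply]
  · show D.t (Sum.inr w) x.2 = D.t (Sum.inr w) x.2 + τ * yv D v x (FamData.j2 w)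
    simp [yv, FamData.i1, FamData.i2, FamData.j2, Pi.single_apply]

theorem dotp_yv (D : FamData E I J) (v : I) (x : E × E) :
    dotp (D.L x) (yv D v x) =
      -(2 * (D.A (Sum.inl v) * D.tb (Sum.inl v) x.1 * D.t (Sum.inl v) x.2)) := by
  unfold yv
  rw [dotp_add_right, dotp_smul_right, dotp_smul_right]
  have h1 : dotp (D.L x) (Pi.single (FamData.i1 v) (1 : ℂ)) =
      D.A (Sum.inl v) * D.tb (Sum.inl v) x.1 := by
    unfold dotp
    simp [Pi.single_apply]
    rfl
  have h2 : dotp (D.L x) (Pi.single (FamData.i2 v) (1 : ℂ)) =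
      D.Bc (Sum.inl v) * D.t (Sum.inl v) x.2 := by
    unfold dotp
    simp [Pi.single_apply]
    rfl
  rw [h1, h2, ← b_mul_Bc]
  ring

/-- Derivative of a function of `s` in the direction `v`. -/
def dS (v : I) (F : (I → ℂ) → (Co I J → ℂ) → ℂ) (s : I → ℂ) (z : Co I J → ℂ) : ℂ :=
  deriv (fun τ : ℂ => F (s + τ • Pi.single v 1) z) 0

section fam

variable {D : FamData E I J} {B : Module.Basis (Co I J ⊕ Co I J) ℚ (E × E)}
    {Θ : (I → ℂ) → (Co I J → ℂ) → ℂ}

/-- the domain of the family -/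
abbrev Uu (D : FamData E I J) : Set ((I → ℂ) × (Co I J → ℂ)) := D.Dom ×ˢ Set.univ

theorem isOpen_Uu (D : FamData E I J) : IsOpen (Uu D) := D.isOpen_Dom.prod isOpen_univ

theorem hasFDerivAt_fam (h : D.ThFam B Θ) {s : I → ℂ} (hs : s ∈ D.Dom) (z : Co I J → ℂ) :
    HasFDerivAt (fun p : (I → ℂ) × (Co I J → ℂ) => Θ p.1 p.2)
      (fderiv ℂ (fun p : (I → ℂ) × (Co I J → ℂ) => Θ p.1 p.2) (s, z)) (s, z) :=
  (h.holo.differentiableAt ((isOpen_Uu D).mem_nhds ⟨hs, Set.mem_univ _⟩)).hasFDerivAt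

/-- derivative of the family along a line -/
theorem hasDerivAt_fam (h : D.ThFam B Θ) {s : I → ℂ} (hs : s ∈ D.Dom) (z : Co I J → ℂ)
    (u : I → ℂ) (y : Co I J → ℂ) :
    HasDerivAt (fun τ : ℂ => Θ (s + τ • u) (z + τ • y))
      (fderiv ℂ (fun p : (I → ℂ) × (Co I J → ℂ) => Θ p.1 p.2) (s, z) (u, y)) 0 := by
  have h1 : HasDerivAt (fun τ : ℂ => ((s + τ • u, z + τ • y) : (I → ℂ) × (Co I J → ℂ))) (u, y) 0 := by
    have e1 : HasDerivAt (fun τ : ℂ => s + τ • u) u 0 := by
      simpa using ((hasDerivAt_id (0 : ℂ)).smul_const u).const_add s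
    have e2 : HasDerivAt (fun τ : ℂ => z + τ • y) y 0 := by
      simpa using ((hasDerivAt_id (0 : ℂ)).smul_const y).const_add z
    exact e1.prodMk e2
  have h2 := hasFDerivAt_fam h hs z
  have h3 : ((s + (0 : ℂ) • u, z + (0 : ℂ) • y) : (I → ℂ) × (Co I J → ℂ)) = (s, z) := by simp
  rw [← h3] at h2
  have h4 := h2.comp_hasDerivAt (0 : ℂ) h1
  rw [h3] at h4
  exact h4

theorem dS_fam (h : D.ThFam B Θ) {s : I → ℂ} (hs : s ∈ D.Dom) (z : Co I J → ℂ) (v : I) :
    dS v Θ s z = fderiv ℂ (fun p : (I → ℂ) × (Co I J → ℂ) => Θ p.1 p.2) (s, z)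
      (Pi.single v 1, 0) := by
  have h1 := hasDerivAt_fam h hs z (Pi.single v 1) 0
  have h2 : (fun τ : ℂ => Θ (s + τ • Pi.single v (1 : ℂ)) (z + τ • (0 : Co I J → ℂ))) =
      fun τ : ℂ => Θ (s + τ • Pi.single v (1 : ℂ)) z := by
    funext τ; simp
  rw [h2] at h1
  exact h1.deriv

theorem pd_fam (h : D.ThFam B Θ) {s : I → ℂ} (hs : s ∈ D.Dom) (z : Co I J → ℂ) (i : Co I J) :
    pd i (Θ s) z = fderiv ℂ (fun p : (I → ℂ) × (Co I J → ℂ) => Θ p.1 p.2) (s, z)
      (0, Pi.single i 1) := by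
  have h3 : HasFDerivAt (Θ s) _ z := (hasFDerivAt_fam h hs z).comp z (hasFDerivAt_prodMk_right s z)
  unfold pd
  rw [h3.fderiv]
  simp

/-- differentiability of the translated family along a line of parameters -/
theorem hasDerivAt_TT (h : D.ThFam B Θ) {s : I → ℂ} (hs : s ∈ D.Dom) (x : E × E)
    (z : Co I J → ℂ) (v : I) :
    HasDerivAt (fun τ : ℂ => TT (D.zeta (s + τ • Pi.single v 1)) D.L x
        (Θ (s + τ • Pi.single v 1)) z)
      (cexp (-(dotp (D.L x) z) - dotp (D.L x) (D.zeta s x) / 2) *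
        (D.A (Sum.inl v) * D.tb (Sum.inl v) x.1 * D.t (Sum.inl v) x.2 * Θ s (z + D.zeta s x) +
          (dS v Θ s (z + D.zeta s x) -
            D.t (Sum.inl v) x.2 * pd (FamData.i1 v) (Θ s) (z + D.zeta s x) -
            D.b v * D.tb (Sum.inl v) x.1 * pd (FamData.i2 v) (Θ s) (z + D.zeta s x)))) 0 := by
  have h1 := hasDerivAt_fam h hs (z + D.zeta s x) (Pi.single v 1) (yv D v x)
  have h2 : HasDerivAt (fun τ : ℂ => cexp (-(dotp (D.L x) z) - (dotp (D.L x) (D.zeta s x) +
      τ * dotp (D.L x) (yv D v x)) / 2))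
      (cexp (-(dotp (D.L x) z) - dotp (D.L x) (D.zeta s x) / 2) *
        (D.A (Sum.inl v) * D.tb (Sum.inl v) x.1 * D.t (Sum.inl v) x.2)) 0 := by
    have e1 : HasDerivAt (fun τ : ℂ => -(dotp (D.L x) z) - (dotp (D.L x) (D.zeta s x) +
      τ * dotp (D.L x) (yv D v x)) / 2)
        (D.A (Sum.inl v) * D.tb (Sum.inl v) x.1 * D.t (Sum.inl v) x.2) 0 := by
      have e2 := ((((hasDerivAt_id (0 : ℂ)).mul_const (dotp (D.L x) (yv D v x))).const_add
        (dotp (D.L x) (D.zeta s x))).div_const 2).const_sub (-(dotp (D.L x) z))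
      refine e2.congr_deriv ?_
      rw [dotp_yv]
      ring
    have e3 := e1.cexp
    simpa using e3
  have h3 := h2.fun_mul h1
  have h4 : (fun τ : ℂ => TT (D.zeta (s + τ • Pi.single v 1)) D.L x
        (Θ (s + τ • Pi.single v 1)) z) = (fun τ : ℂ => cexp (-(dotp (D.L x) z) -
          (dotp (D.L x) (D.zeta s x) + τ * dotp (D.L x) (yv D v x)) / 2) *
          Θ (s + τ • Pi.single v 1) (z + D.zeta s x + τ • yv D v x)) := by
    funext τ
    unfold TT
    rw [zeta_line, dotp_add_right, dotp_smul_right, add_assoc]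
  rw [h4]
  refine h3.congr_deriv ?_
  have h5 : fderiv ℂ (fun p : (I → ℂ) × (Co I J → ℂ) => Θ p.1 p.2) (s, z + D.zeta s x)
      (Pi.single v 1, yv D v x) = dS v Θ s (z + D.zeta s x) -
        D.t (Sum.inl v) x.2 * pd (FamData.i1 v) (Θ s) (z + D.zeta s x) -
        D.b v * D.tb (Sum.inl v) x.1 * pd (FamData.i2 v) (Θ s) (z + D.zeta s x) := by
    rw [dS_fam h hs, pd_fam h hs, pd_fam h hs]
    have e1 : ((Pi.single v 1, yv D v x) : (I → ℂ) × (Co I J → ℂ)) =
        (Pi.single v 1, 0) + ((-(D.t (Sum.inl v) x.2)) • ((0, Pi.single (FamData.i1 v) (1 : ℂ)) :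
          (I → ℂ) × (Co I J → ℂ)) + (-(D.b v * D.tb (Sum.inl v) x.1)) •
          ((0, Pi.single (FamData.i2 v) (1 : ℂ)) : (I → ℂ) × (Co I J → ℂ))) := by
      unfold yv
      simp only [Prod.smul_mk, smul_zero, Prod.mk_add_mk, add_zero, zero_add]
    rw [e1, map_add, map_add, map_smul, map_smul, smul_eq_mul, smul_eq_mul]
    ring
  rw [h5]
  simp
  ring

/-- the heat operator applied to the family -/
def HF (D : FamData E I J) (Θ : (I → ℂ) → (Co I J → ℂ) → ℂ) (v : I) (s : I → ℂ)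
    (z : Co I J → ℂ) : ℂ :=
  dS v Θ s z - 1 / D.Bc (Sum.inl v) * pd (FamData.i1 v) (fun z => pd (FamData.i2 v) (Θ s) z) z

theorem differentiable_pd {f : (Co I J → ℂ) → ℂ} (hf : Differentiable ℂ f) (i : Co I J) :
    Differentiable ℂ (fun z => pd i f z) := fun z =>
  OsgoodL.differentiableAt_fderiv_apply isOpen_univ hf.differentiableOn _ (Set.mem_univ z)

theorem HF_differentiable (h : D.ThFam B Θ) {s : I → ℂ} (hs : s ∈ D.Dom) (v : I) :
    Differentiable ℂ (HF D Θ v s) := by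
  unfold HF
  apply Differentiable.sub
  · intro z
    have e1 : (fun z => dS v Θ s z) = fun z => fderiv ℂ
        (fun p : (I → ℂ) × (Co I J → ℂ) => Θ p.1 p.2) (s, z) (Pi.single v 1, 0) := by
      funext z
      exact dS_fam h hs z v
    show DifferentiableAt ℂ (fun z => dS v Θ s z) z
    rw [e1]
    have e2 : DifferentiableAt ℂ (fun p => fderiv ℂ
        (fun p : (I → ℂ) × (Co I J → ℂ) => Θ p.1 p.2) p (Pi.single v 1, 0)) (s, z) :=
      OsgoodL.differentiableAt_fderiv_apply (isOpen_Uu D) h.holo _ ⟨hs, Set.mem_univ _⟩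
    exact e2.comp z ((differentiableAt_const s).prodMk differentiableAt_id)
  · exact (differentiable_pd (differentiable_pd (h.th s hs).entire _) _).const_mul _

/-- second derivatives of a translate -/
theorem pd_pd_TT (h : D.ThFam B Θ) {s : I → ℂ} (hs : s ∈ D.Dom) (x : E × E)
    (z : Co I J → ℂ) (i j : Co I J) :
    pd i (fun z => pd j (TT (D.zeta s) D.L x (Θ s)) z) z =
      cexp (-(dotp (D.L x) z) - dotp (D.L x) (D.zeta s x) / 2) *
      (pd i (fun z => pd j (Θ s) z) (z + D.zeta s x) - D.L x j * pd i (Θ s) (z + D.zeta s x) -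
        D.L x i * (pd j (Θ s) (z + D.zeta s x) - D.L x j * Θ s (z + D.zeta s x))) := by
  have hF := (h.th s hs).entire
  have e1 : (fun z => pd j (TT (D.zeta s) D.L x (Θ s)) z) =
      TT (D.zeta s) D.L x (fun z => pd j (Θ s) z - D.L x j * Θ s z) := by
    funext z
    rw [pd_TT x hF j z]
    rfl
  have hd : Differentiable ℂ (fun z => pd j (Θ s) z - D.L x j * Θ s z) :=
    (differentiable_pd hF j).fun_sub (hF.const_mul _)
  rw [e1, pd_TT x hd i z]
  congr 2
  unfold pd
  have e2 : HasFDerivAt (fun z => fderiv ℂ (Θ s) z (Pi.single j 1) - D.L x j * Θ s z)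
      (fderiv ℂ (fun z => fderiv ℂ (Θ s) z (Pi.single j 1)) (z + D.zeta s x) -
        D.L x j • fderiv ℂ (Θ s) (z + D.zeta s x)) (z + D.zeta s x) := by
    exact ((differentiable_pd hF j) _).hasFDerivAt.fun_sub ((hF _).hasFDerivAt.const_mul _)
  rw [e2.fderiv]
  simp

/-- The heat operator commutes with translations. -/
theorem heat_TT (h : D.ThFam B Θ) {s : I → ℂ} (hs : s ∈ D.Dom) (x : E × E)
    (z : Co I J → ℂ) (v : I) :
    deriv (fun τ : ℂ => TT (D.zeta (s + τ • Pi.single v 1)) D.L x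
        (Θ (s + τ • Pi.single v 1)) z) 0 - 1 / D.Bc (Sum.inl v) *
      pd (FamData.i1 v) (fun z => pd (FamData.i2 v) (TT (D.zeta s) D.L x (Θ s)) z) z =
      TT (D.zeta s) D.L x (HF D Θ v s) z := by
  rw [(hasDerivAt_TT h hs x z v).deriv, pd_pd_TT h hs]
  unfold HF
  rw [TT]
  have h1 : D.L x (FamData.i1 v) = D.A (Sum.inl v) * D.tb (Sum.inl v) x.1 := rfl
  have h2 : D.L x (FamData.i2 v) = D.Bc (Sum.inl v) * D.t (Sum.inl v) x.2 := rfl
  have h3 := Bc_ne_zero D v
  rw [h1, h2, ← b_mul_Bc]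
  field_simp
  ring

end fam

end HEAT_

open HEAT_ in
theorem heat_proof (h1 : Stmt_THU) (h2 : Stmt_POSF) : Stmt_HEAT := by
  intro E _ _ I J _ _ _ _ D B Θ hB h s hs v
  have hev : ∀ᶠ τ : ℂ in 𝓝 0, s + τ • Pi.single v (1 : ℂ) ∈ D.Dom := by
    have hc : Continuous fun τ : ℂ => s + τ • Pi.single v (1 : ℂ) := by fun_prop
    apply hc.continuousAt.eventually_mem
    apply D.isOpen_Dom.mem_nhds
    simpa using hs
  have hth : IsTh (D.zeta s) D.L B (HF D Θ v s) := by
    refine ⟨HF_differentiable h hs v, fun j => ?_⟩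
    funext z
    rw [← heat_TT h hs (B j) z v]
    unfold HF dS
    congr 1
    · apply Filter.EventuallyEq.deriv_eq
      filter_upwards [hev] with τ hτ
      rw [(h.th _ hτ).per j]
    · rw [(h.th s hs).per j]
  obtain ⟨f, hf⟩ := h1 (E × E) (Co I J) D.e B (D.zeta s) D.L hB
    (h2 E I J D B hB s hs) (Θ s) (HF D Θ v s) (h.th s hs) hth (h.nz s hs)
  refine ⟨f, fun x => ?_⟩
  have h3 := heat_TT h hs x 0 v
  have h4 : pd v (D.W Θ x) s = deriv (fun τ : ℂ => TT (D.zeta (s + τ • Pi.single v 1)) D.L x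
        (Θ (s + τ • Pi.single v 1)) 0) 0 := by
    have hz : Differentiable ℂ (fun s : I → ℂ => (0 : Co I J → ℂ) + D.zeta s x) := by
      apply Differentiable.const_add
      rw [differentiable_pi]
      exact fun i => D.zeta_differentiable x i
    have hp : DifferentiableOn ℂ (fun s : I → ℂ => (s, (0 : Co I J → ℂ) + D.zeta s x)) D.Dom :=
      (differentiable_id.prodMk hz).differentiableOn
    have hm : Set.MapsTo (fun s : I → ℂ => (s, (0 : Co I J → ℂ) + D.zeta s x)) D.Dom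
        (D.Dom ×ˢ Set.univ) := fun s hs => ⟨hs, Set.mem_univ _⟩
    have e1 : DifferentiableOn ℂ (fun s : I → ℂ => Θ s (0 + D.zeta s x)) D.Dom := h.holo.comp hp hm
    have e3 : DifferentiableOn ℂ (fun s : I → ℂ =>
        cexp (-(dotp (D.L x) (0 : Co I J → ℂ)) - dotp (D.L x) (D.zeta s x) / 2)) D.Dom := by
      apply Differentiable.differentiableOn
      apply Differentiable.cexp
      apply Differentiable.const_sub
      simp only [div_eq_mul_inv]
      apply Differentiable.mul_const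
      unfold dotp
      apply Differentiable.fun_sum
      intro i _
      exact (D.zeta_differentiable x i).const_mul _
    have e4 : DifferentiableAt ℂ (D.W Θ x) s := (e3.mul e1).differentiableAt (D.isOpen_Dom.mem_nhds hs)
    have e5 : HasDerivAt (fun τ : ℂ => s + τ • Pi.single v (1 : ℂ)) (Pi.single v 1) 0 := by
      simpa using ((hasDerivAt_id (0 : ℂ)).smul_const (Pi.single v (1 : ℂ))).const_add s
    have e6 := e4.hasFDerivAt
    have e7 : s + (0 : ℂ) • Pi.single v (1 : ℂ) = s := by simp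
    rw [← e7] at e6
    have e8 := e6.comp_hasDerivAt (0 : ℂ) e5
    rw [e7] at e8
    exact e8.deriv.symm
  rw [h4]
  have h5 : TT (D.zeta s) D.L x (HF D Θ v s) 0 = f * D.W Θ x s := by
    rw [hf, TT_smul]
    rfl
  rw [h5] at h3
  linear_combination h3

end

end Pool.Agent.SPF
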