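import Pool.Agent.SPF.Kit

/-!
# HOLO: nulls and gradients are holomorphic
-/

set_option linter.unusedSectionVars false
set_option linter.unusedSimpArgs false

open scoped BigOperators Topology
open Complex Metric Filter MeasureTheory

namespace Pool.Agent.SPF

noncomputable section

namespace HOLO_

section

variable {E : Type*} [NormedAddCommGroup E] [NormedSpace ℂ E]

/-- Derivatives along a line. -/
theorem hasDerivAt_line {f : E → ℂ} {U : Set E} (hU : IsOpen U) (hf : DifferentiableOn ℂ f U)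
    (x y : E) (t : ℂ) (ht : x + t • y ∈ U) :
    HasDerivAt (fun t : ℂ => f (x + t • y)) (fderiv ℂ f (x + t • y) y) t := by
  have h1 : HasDerivAt (fun t : ℂ => x + t • y) y t := by
    have := ((hasDerivAt_id t).smul_const y).const_add x
    simpa using this
  exact ((hf.differentiableAt (hU.mem_nhds ht)).hasFDerivAt).comp_hasDerivAt t h1

theorem isOpen_line {U : Set E} (hU : IsOpen U) (x y : E) :
    IsOpen {t : ℂ | x + t • y ∈ U} := hU.preimage (by fun_prop)

theorem differentiableOn_line {f : E → ℂ} {U : Set E} (hU : IsOpen U)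
    (hf : DifferentiableOn ℂ f U) (x y : E) :
    DifferentiableOn ℂ (fun t : ℂ => f (x + t • y)) {t : ℂ | x + t • y ∈ U} :=
  fun t ht => (hasDerivAt_line hU hf x y t ht).differentiableAt.differentiableWithinAt

/-- Cauchy's estimate for the Fréchet derivative. -/
theorem norm_fderiv_le {f : E → ℂ} {U : Set E} (hU : IsOpen U) (hf : DifferentiableOn ℂ f U)
    {x : E} {r M : ℝ} (hr : 0 < r) (hx : closedBall x r ⊆ U)
    (hM : ∀ y ∈ closedBall x r, ‖f y‖ ≤ M) : ‖fderiv ℂ f x‖ ≤ M / r := by
  have hM0 : 0 ≤ M := (norm_nonneg _).trans (hM x (mem_closedBall_self hr.le))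
  apply ContinuousLinearMap.opNorm_le_bound _ (div_nonneg hM0 hr.le)
  intro v
  rcases eq_or_ne v 0 with rfl | hv
  · simp
  have hv0 : 0 < ‖v‖ := norm_pos_iff.mpr hv
  have h1 := hasDerivAt_line hU hf x v 0 (by simpa using hx (mem_closedBall_self hr.le))
  rw [zero_smul, add_zero] at h1
  rw [← h1.deriv]
  have hin : ∀ t : ℂ, ‖t‖ ≤ r / ‖v‖ → x + t • v ∈ closedBall x r := by
    intro t ht
    rw [mem_closedBall, dist_eq_norm, add_sub_cancel_left, norm_smul]
    calc ‖t‖ * ‖v‖ ≤ r / ‖v‖ * ‖v‖ := by gcongr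
      _ = r := div_mul_cancel₀ _ hv0.ne'
  have h2 : ‖deriv (fun t : ℂ => f (x + t • v)) 0‖ ≤ M / (r / ‖v‖) := by
    apply Complex.norm_deriv_le_of_forall_mem_sphere_norm_le (div_pos hr hv0)
    · apply (differentiableOn_line hU hf x v).diffContOnCl_ball
      intro t ht
      rw [mem_closedBall_zero_iff] at ht
      exact hx (hin t ht)
    · intro t ht
      rw [mem_sphere_zero_iff_norm] at ht
      exact hM _ (hin t ht.le)
  calc _ ≤ _ := h2
    _ = M / r * ‖v‖ := by
      field_simp

end

section param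

variable {E : Type*} [NormedAddCommGroup E] [NormedSpace ℂ E] [FiniteDimensional ℂ E]

/-- Directional derivatives of holomorphic functions are holomorphic. -/
theorem differentiableAt_fderiv_apply {f : E → ℂ} {U : Set E} (hU : IsOpen U)
    (hf : DifferentiableOn ℂ f U) {x₀ : E} (hx₀ : x₀ ∈ U) (y : E) :
    DifferentiableAt ℂ (fun x => fderiv ℂ f x y) x₀ := by
  have : ProperSpace E := FiniteDimensional.proper ℂ E
  borelize E
  obtain ⟨r', hr', hrU'⟩ := Metric.nhds_basis_closedBall.mem_iff.1 (hU.mem_nhds hx₀)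
  obtain ⟨r, hr, rfl⟩ : ∃ r : ℝ, 0 < r ∧ r' = 4 * r := ⟨r' / 4, by positivity, by ring⟩
  obtain ⟨R, hR, hRy⟩ : ∃ R : ℝ, 0 < R ∧ R * ‖y‖ ≤ r := by
    refine ⟨r / (‖y‖ + 1), by positivity, ?_⟩
    rw [div_mul_eq_mul_div, div_le_iff₀ (by positivity)]
    nlinarith [norm_nonneg y]
  have hin : ∀ x ∈ ball x₀ r, ∀ t : ℂ, ‖t‖ ≤ R → x + t • y ∈ ball x₀ (2 * r) := by
    intro x hx t ht
    rw [mem_ball, dist_eq_norm] at hx ⊢
    have h1 : ‖t • y‖ ≤ r := by
      rw [norm_smul]
      exact (mul_le_mul_of_nonneg_right ht (norm_nonneg _)).trans hRy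
    calc ‖x + t • y - x₀‖ = ‖(x - x₀) + t • y‖ := by congr 1; abel
      _ ≤ ‖x - x₀‖ + ‖t • y‖ := norm_add_le _ _
      _ < 2 * r := by linarith
  have h2U : ∀ z ∈ ball x₀ (2 * r), closedBall z r ⊆ closedBall x₀ (4 * r) := by
    intro z hz w hw
    rw [mem_closedBall] at hw ⊢
    rw [mem_ball] at hz
    have := dist_triangle w z x₀
    linarith
  have hzU : ∀ z ∈ ball x₀ (2 * r), z ∈ U := fun z hz =>
    hrU' (h2U z hz (mem_closedBall_self hr.le))
  set w : ℝ → ℂ := fun θ => deriv (circleMap 0 R) θ * (circleMap 0 R θ ^ 2)⁻¹ with hw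
  have hγ : Continuous (circleMap 0 R) := continuous_circleMap 0 R
  have hγs : ∀ θ, ‖circleMap 0 R θ‖ = R := by
    intro θ
    have := circleMap_mem_sphere 0 hR.le θ
    rwa [mem_sphere_zero_iff_norm] at this
  have hγ0 : ∀ θ, circleMap 0 R θ ≠ 0 := by
    intro θ h0
    have := hγs θ
    rw [h0, norm_zero] at this
    exact hR.ne this
  have hwc : Continuous w := by
    apply Continuous.mul
    · have h1 : deriv (circleMap 0 R) = fun θ => circleMap 0 R θ * Complex.I := by
        funext θ
        exact deriv_circleMap 0 R θ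
      rw [h1]
      fun_prop
    · exact (hγ.pow 2).inv₀ fun θ => pow_ne_zero 2 (hγ0 θ)
  obtain ⟨W, hW⟩ := (isCompact_Icc (a := (0 : ℝ)) (b := 2 * Real.pi)).exists_bound_of_continuousOn
    hwc.continuousOn
  obtain ⟨M, hM⟩ := (isCompact_closedBall x₀ (4 * r)).exists_bound_of_continuousOn
    (hf.continuousOn.mono hrU')
  have hline : ∀ x ∈ ball x₀ r, Continuous fun θ => f (x + circleMap 0 R θ • y) := by
    intro x hx
    apply ContinuousOn.comp_continuous hf.continuousOn (by fun_prop)
    intro θ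
    exact hzU _ (hin x hx _ (hγs θ).le)
  have key : HasFDerivAt (fun x => ∫ θ in (0 : ℝ)..(2 * Real.pi),
      w θ * f (x + circleMap 0 R θ • y))
      (∫ θ in (0 : ℝ)..(2 * Real.pi), w θ • fderiv ℂ f (x₀ + circleMap 0 R θ • y)) x₀ := by
    apply intervalIntegral.hasFDerivAt_integral_of_dominated_of_fderiv_le
      (s := ball x₀ r) (bound := fun _ => |W| * (|M| / r))
      (F' := fun x θ => w θ • fderiv ℂ f (x + circleMap 0 R θ • y))
      (ball_mem_nhds x₀ hr)
    · filter_upwards [ball_mem_nhds x₀ hr] with x hx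
      exact (hwc.mul (hline x hx)).aestronglyMeasurable
    · exact (hwc.mul (hline x₀ (mem_ball_self hr))).intervalIntegrable _ _
    · apply AEStronglyMeasurable.smul hwc.aestronglyMeasurable
      apply Measurable.aestronglyMeasurable
      exact (measurable_fderiv ℂ f).comp (by fun_prop)
    · refine Eventually.of_forall fun θ hθ x hx => ?_
      rw [norm_smul]
      have hθ' : θ ∈ Set.Icc (0 : ℝ) (2 * Real.pi) := by
        rw [Set.uIoc_of_le (by positivity)] at hθ
        exact Set.Ioc_subset_Icc_self hθ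
      apply mul_le_mul ((hW θ hθ').trans (le_abs_self W)) _ (norm_nonneg _) (abs_nonneg W)
      have hz := hin x hx _ (hγs θ).le
      apply norm_fderiv_le hU hf hr ((h2U _ hz).trans hrU')
      intro z hz'
      exact (hM z (h2U _ hz hz')).trans (le_abs_self M)
    · exact continuous_const.intervalIntegrable _ _
    · refine Eventually.of_forall fun θ _ x hx => ?_
      have hz := hzU _ (hin x hx _ (hγs θ).le)
      have h1 := (hf.differentiableAt (hU.mem_nhds hz)).hasFDerivAt
      have h2 : HasFDerivAt (fun x => f (x + circleMap 0 R θ • y))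
          (fderiv ℂ f (x + circleMap 0 R θ • y)) x := by
        have := h1.comp x ((hasFDerivAt_id x).add_const (circleMap 0 R θ • y))
        rw [ContinuousLinearMap.comp_id] at this
        exact this
      exact h2.const_mul (w θ)
  have hev : (fun x => fderiv ℂ f x y) =ᶠ[𝓝 x₀] fun x => (2 * Real.pi * Complex.I : ℂ)⁻¹ *
      ∫ θ in (0 : ℝ)..(2 * Real.pi), w θ * f (x + circleMap 0 R θ • y) := by
    filter_upwards [ball_mem_nhds x₀ hr] with x hx
    have hx0 : x + (0 : ℂ) • y ∈ U := by
      rw [zero_smul, add_zero]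
      exact hzU x (ball_subset_ball (by linarith) hx)
    have h2 := hasDerivAt_line hU hf x y 0 hx0
    rw [zero_smul, add_zero] at h2
    rw [← h2.deriv]
    have hsub : closedBall (0 : ℂ) R ⊆ {t : ℂ | x + t • y ∈ U} := by
      intro t ht
      rw [mem_closedBall_zero_iff] at ht
      exact hzU _ (hin x hx t ht)
    have h3 := Complex.two_pi_I_inv_smul_circleIntegral_sub_sq_inv_smul_of_differentiable
      (isOpen_line hU x y) (c := 0) (w₀ := 0) (R := R) (f := fun t : ℂ => f (x + t • y))
      hsub (differentiableOn_line hU hf x y) (mem_ball_self hR)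
    rw [← h3, smul_eq_mul]
    congr 1
    rw [circleIntegral]
    apply intervalIntegral.integral_congr
    intro θ _
    simp only [hw, smul_eq_mul, sub_zero]
    ring
  exact (key.differentiableAt.const_mul _).congr_of_eventuallyEq hev

end param

/-- partial derivatives of a holomorphic family -/
theorem differentiableOn_pd {I ι : Type} [Fintype I] [Fintype ι] [DecidableEq ι]
    {Dom : Set (I → ℂ)} (hD : IsOpen Dom) {Θ : (I → ℂ) → (ι → ℂ) → ℂ}
    (h : DifferentiableOn ℂ (fun p : (I → ℂ) × (ι → ℂ) => Θ p.1 p.2) (Dom ×ˢ Set.univ)) (i : ι) :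
    DifferentiableOn ℂ (fun p : (I → ℂ) × (ι → ℂ) => pd i (Θ p.1) p.2) (Dom ×ˢ Set.univ) := by
  have hU : IsOpen (Dom ×ˢ (Set.univ : Set (ι → ℂ))) := hD.prod isOpen_univ
  have h1 : DifferentiableOn ℂ (fun p : (I → ℂ) × (ι → ℂ) =>
      fderiv ℂ (fun p : (I → ℂ) × (ι → ℂ) => Θ p.1 p.2) p (0, Pi.single i 1))
      (Dom ×ˢ Set.univ) := fun p hp =>
    (differentiableAt_fderiv_apply hU h hp _).differentiableWithinAt
  apply h1.congr
  rintro ⟨s, z⟩ hp
  have h2 := (h.differentiableAt (hU.mem_nhds hp)).hasFDerivAt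
  have h3 : HasFDerivAt (Θ s) _ z := h2.comp z (hasFDerivAt_prodMk_right s z)
  unfold pd
  rw [h3.fderiv]
  simp

end HOLO_

open HOLO_ in
theorem holo_proof : Stmt_HOLO := by
  intro E _ _ I J _ _ _ _ D B Θ h x
  have hz : Differentiable ℂ (fun s : I → ℂ => (0 : Co I J → ℂ) + D.zeta s x) := by
    apply Differentiable.const_add
    rw [differentiable_pi]
    exact fun i => D.zeta_differentiable x i
  have hp : DifferentiableOn ℂ (fun s : I → ℂ => (s, (0 : Co I J → ℂ) + D.zeta s x)) D.Dom :=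
    (differentiable_id.prodMk hz).differentiableOn
  have hm : Set.MapsTo (fun s : I → ℂ => (s, (0 : Co I J → ℂ) + D.zeta s x)) D.Dom
      (D.Dom ×ˢ Set.univ) := fun s hs => ⟨hs, Set.mem_univ _⟩
  have h1 : DifferentiableOn ℂ (fun s : I → ℂ => Θ s (0 + D.zeta s x)) D.Dom := h.holo.comp hp hm
  have h2 : ∀ i, DifferentiableOn ℂ (fun s : I → ℂ => pd i (Θ s) (0 + D.zeta s x)) D.Dom :=
    fun i => (differentiableOn_pd D.isOpen_Dom h.holo i).comp hp hm
  have h3 : DifferentiableOn ℂ (fun s : I → ℂ =>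
      cexp (-(dotp (D.L x) (0 : Co I J → ℂ)) - dotp (D.L x) (D.zeta s x) / 2)) D.Dom := by
    apply Differentiable.differentiableOn
    apply Differentiable.cexp
    apply Differentiable.const_sub
    simp only [div_eq_mul_inv]
    apply Differentiable.mul_const
    unfold dotp
    apply Differentiable.fun_sum
    intro i _
    exact (D.zeta_differentiable x i).const_mul _
  refine ⟨h3.mul h1, fun i => ?_⟩
  have h4 : DifferentiableOn ℂ (fun s : I → ℂ =>
      cexp (-(dotp (D.L x) (0 : Co I J → ℂ)) - dotp (D.L x) (D.zeta s x) / 2) *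
        (pd i (Θ s) (0 + D.zeta s x) - D.L x i * Θ s (0 + D.zeta s x))) D.Dom :=
    h3.mul ((h2 i).sub (h1.const_mul _))
  apply h4.congr
  intro s hs
  exact pd_TT x (h.th s hs).entire i 0

end

end Pool.Agent.SPF
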