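import Pool.Agent.SPF.Kit

set_option linter.unusedSectionVars false

/-!
# SPF, module INV: exact invariance under the arithmetic group of level `2 m ^ 2`
-/

open scoped BigOperators
open Complex

namespace Pool.Agent.SPF

namespace INV_

noncomputable section

section Theta

variable {V : Type} [AddCommGroup V] [Module ℚ V] {ι : Type} [Fintype ι] [DecidableEq ι]
variable {e : V →ₗ[ℚ] V →ₗ[ℚ] ℚ} {B : Module.Basis (ι ⊕ ι) ℚ V} {ζ L : V →ₗ[ℚ] (ι → ℂ)}

theorem e_neg (hB : SympBasis e B) (x y : V) : e x y = -e y x := by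
  have h := hB.alt (x + y)
  simp only [map_add, LinearMap.add_apply, hB.alt x, hB.alt y] at h
  linarith

theorem e_basis (hB : SympBasis e B) (a b : ι ⊕ ι) : ∃ k : ℤ, e (B a) (B b) = k := by
  rcases a with i | i <;> rcases b with j | j
  · exact ⟨0, by rw [hB.ll]; simp⟩
  · rw [hB.lr]
    by_cases h : i = j
    · exact ⟨1, by rw [if_pos h]; simp⟩
    · exact ⟨0, by rw [if_neg h]; simp⟩
  · rw [e_neg hB, hB.lr]
    by_cases h : j = i
    · exact ⟨-1, by rw [if_pos h]; simp⟩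
    · exact ⟨0, by rw [if_neg h]; simp⟩
  · exact ⟨0, by rw [hB.rr]; simp⟩

theorem e_int (hB : SympBasis e B) {x y : V} (hx : x ∈ lat B) (hy : y ∈ lat B) :
    ∃ k : ℤ, e x y = k := by
  have h1 : ∀ a : ι ⊕ ι, ∃ k : ℤ, e (B a) y = k := by
    intro a
    refine AddSubgroup.closure_induction (p := fun y _ => ∃ k : ℤ, e (B a) y = k) ?_ ?_ ?_ ?_ hy
    · rintro _ ⟨b, rfl⟩
      exact e_basis hB a b
    · exact ⟨0, by simp⟩
    · rintro u v _ _ ⟨k, hk⟩ ⟨l, hl⟩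
      exact ⟨k + l, by rw [map_add, hk, hl]; push_cast; ring⟩
    · rintro u _ ⟨k, hk⟩
      exact ⟨-k, by rw [map_neg, hk]; push_cast; ring⟩
  refine AddSubgroup.closure_induction (p := fun x _ => ∃ k : ℤ, e x y = k) ?_ ?_ ?_ ?_ hx
  · rintro _ ⟨b, rfl⟩
    exact h1 b
  · exact ⟨0, by simp⟩
  · rintro u v _ _ ⟨k, hk⟩ ⟨l, hl⟩
    exact ⟨k + l, by rw [map_add, LinearMap.add_apply, hk, hl]; push_cast; ring⟩
  · rintro u _ ⟨k, hk⟩
    exact ⟨-k, by rw [map_neg, LinearMap.neg_apply, hk]; push_cast; ring⟩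

theorem exp_sq (k : ℤ) : cexp (Real.pi * I * ((k : ℚ) : ℂ)) * cexp (Real.pi * I * ((k : ℚ) : ℂ)) = 1 := by
  rw [← Complex.exp_add]
  have h : (Real.pi * I * ((k : ℚ) : ℂ) + Real.pi * I * ((k : ℚ) : ℂ)) =
      (k : ℂ) * (2 * Real.pi * I) := by
    push_cast
    ring
  rw [h, Complex.exp_int_mul_two_pi_mul_I]

theorem TT_lat (hB : SympBasis e B) (hP : IsPStr e B ζ L) {F : (ι → ℂ) → ℂ}
    (hF : IsTh ζ L B F) {y : V} (hy : y ∈ lat B) :
    ∃ χ : ℂ, χ * χ = 1 ∧ ∀ z, TT ζ L y F z = χ * F z := by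
  refine AddSubgroup.closure_induction
    (p := fun y _ => ∃ χ : ℂ, χ * χ = 1 ∧ ∀ z, TT ζ L y F z = χ * F z) ?_ ?_ ?_ ?_ hy
  · rintro _ ⟨b, rfl⟩
    exact ⟨1, by ring, fun z => by rw [hF.per b, one_mul]⟩
  · exact ⟨1, by ring, fun z => by rw [TT_zero, one_mul]⟩
  · rintro u v hu hv ⟨a, ha, ha'⟩ ⟨b, hb, hb'⟩
    obtain ⟨k, hk⟩ := e_int hB hu hv
    refine ⟨cexp (Real.pi * I * ((k : ℚ) : ℂ)) * a * b, ?_, ?_⟩
    · have h1 := exp_sq k
      linear_combination (a * a * b * b) * h1 + (b * b) * ha + hb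
    · intro z
      have h1 := TT_TT hP u v F z
      rw [hk] at h1
      have h2 : TT ζ L v F = fun z => b * F z := funext hb'
      rw [h2, TT_smul, ha'] at h1
      have h3 := exp_sq k
      linear_combination (-(TT ζ L (u + v) F z)) * h3 -
        cexp (Real.pi * I * ((k : ℚ) : ℂ)) * h1
  · rintro u hu ⟨a, ha, ha'⟩
    refine ⟨a, ha, ?_⟩
    intro z
    have h1 := TT_TT hP (-u) u F z
    have h2 : TT ζ L u F = fun z => a * F z := funext ha'
    rw [h2, TT_smul, neg_add_cancel, TT_zero, map_neg, LinearMap.neg_apply, hB.alt u] at h1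
    simp only [neg_zero, Rat.cast_zero, mul_zero, Complex.exp_zero, one_mul] at h1
    linear_combination (-(TT ζ L (-u) F z)) * ha + a * h1

/-- translation by twice a lattice point -/
theorem TT_two (hB : SympBasis e B) (hP : IsPStr e B ζ L) {F : (ι → ℂ) → ℂ}
    (hF : IsTh ζ L B F) {y : V} (hy : y ∈ lat B) : TT ζ L (y + y) F = F := by
  obtain ⟨χ, h1, h2⟩ := TT_lat hB hP hF hy
  funext z
  have h3 := TT_TT hP y y F z
  have h4 : TT ζ L y F = fun z => χ * F z := funext h2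
  rw [h4, TT_smul, h2, hB.alt y] at h3
  simp only [Rat.cast_zero, mul_zero, Complex.exp_zero, one_mul] at h3
  rw [← h3]
  linear_combination (F z) * h1

/-- translation of a torsion point by a highly divisible lattice point -/
theorem TT_add_lat (hB : SympBasis e B) (hP : IsPStr e B ζ L) {F : (ι → ℂ) → ℂ}
    (hF : IsTh ζ L B F) {m : ℕ} {x y : V} (hx : (m : ℚ) • x ∈ lat B) (hy : y ∈ lat B) :
    TT ζ L (x + ((2 * m : ℕ) : ℚ) • y) F = TT ζ L x F := by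
  have h0 : ((2 * m : ℕ) : ℚ) • y = m • y + m • y := by
    rw [Nat.cast_smul_eq_nsmul, two_mul, add_smul]
  have hmy : m • y ∈ lat B := AddSubgroup.nsmul_mem _ hy m
  have h1 := TT_two hB hP hF hmy
  rw [← h0] at h1
  funext z
  have h2 := TT_TT hP x (((2 * m : ℕ) : ℚ) • y) F z
  rw [h1] at h2
  obtain ⟨k, hk⟩ := e_int hB hx hy
  have h3 : e x (((2 * m : ℕ) : ℚ) • y) = ((2 * k : ℤ) : ℚ) := by
    rw [map_smul, smul_eq_mul]
    rw [map_smul, LinearMap.smul_apply, smul_eq_mul] at hk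
    push_cast
    rw [← hk]
    ring
  rw [h3] at h2
  have h4 : cexp (Real.pi * I * (((2 * k : ℤ) : ℚ) : ℂ)) = 1 := by
    have h5 : Real.pi * I * (((2 * k : ℤ) : ℚ) : ℂ) = (k : ℂ) * (2 * Real.pi * I) := by
      push_cast
      ring
    rw [h5, Complex.exp_int_mul_two_pi_mul_I]
  rw [h4, one_mul] at h2
  exact h2.symm

end Theta

section Fam

variable {E : Type} [Field E] [NumberField E] {I J : Type} [Fintype I] [Fintype J]
  [DecidableEq I] [DecidableEq J] {D : FamData E I J}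

theorem app_smul (g : D.Iso) (r : ℚ) (x : E × E) : g.app (r • x) = r • g.app x := by
  unfold FamData.Iso.app
  simp only [Prod.smul_fst, Prod.smul_snd, mul_smul_comm, Prod.smul_mk, smul_add]

theorem gam_le (B : Module.Basis (Co I J ⊕ Co I J) ℚ (E × E)) (m : ℕ) {g : D.Iso}
    (hg : g ∈ D.Gam B (2 * m ^ 2)) : g ∈ D.Gam B 2 := by
  obtain ⟨h1, h2, h3, h4⟩ := hg
  refine ⟨h1, h2, h3, fun x hx => ?_⟩
  obtain ⟨y, hy, h⟩ := h4 x hx
  refine ⟨(m ^ 2) • y, AddSubgroup.nsmul_mem _ hy _, ?_⟩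
  rw [h, Nat.cast_smul_eq_nsmul, Nat.cast_smul_eq_nsmul, smul_smul]

theorem app_eq (B : Module.Basis (Co I J ⊕ Co I J) ℚ (E × E)) {m : ℕ} (hm : 0 < m) {g : D.Iso}
    (hg : g ∈ D.Gam B (2 * m ^ 2)) {x : E × E} (hx : (m : ℚ) • x ∈ lat B) :
    ∃ y ∈ lat B, g.app x = x + ((2 * m : ℕ) : ℚ) • y := by
  obtain ⟨-, -, -, h4⟩ := hg
  obtain ⟨y, hy, h⟩ := h4 _ hx
  refine ⟨y, hy, ?_⟩
  have hm0 : (m : ℚ) ≠ 0 := by exact_mod_cast hm.ne'
  rw [app_smul] at h
  have h5 : (m : ℚ) • g.app x = (m : ℚ) • (x + ((2 * m : ℕ) : ℚ) • y) := by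
    rw [h, smul_add, smul_smul]
    congr 2
    push_cast
    ring
  have h6 := congrArg (fun v => (m : ℚ)⁻¹ • v) h5
  simp only [smul_smul, inv_mul_cancel₀ hm0, one_smul] at h6
  exact h6

end Fam

end

end INV_

open INV_ in
theorem inv_proof (h0 : Stmt_INV0) (hP : Stmt_POSF) (hI : Stmt_ISO) : Stmt_INV := by
  intro E _ _ I J _ _ _ _ D B Θ hB hΘ m hm g hg s hs
  obtain ⟨κ, hκ, h1⟩ := h0 E I J D B Θ hB hΘ g (gam_le B m hg) s hs
  have hs' : g.act s ∈ D.Dom := ((hI E I J D g).2.2.2 s hs).2.1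
  have hPs := hP E I J D B hB _ hs'
  have hTh := hΘ.th _ hs'
  have key : ∀ x : E × E, (m : ℚ) • x ∈ lat B →
      TT (D.zeta (g.act s)) D.L (g.app x) (Θ (g.act s)) =
        TT (D.zeta (g.act s)) D.L x (Θ (g.act s)) := by
    intro x hx
    obtain ⟨y, hy, h⟩ := app_eq B hm hg hx
    rw [h]
    exact TT_add_lat hB hPs hTh hx hy
  have kG : ∀ (i : Co I J) (x : E × E), (m : ℚ) • x ∈ lat B →
      D.G Θ i (g.app x) (g.act s) = D.G Θ i x (g.act s) := by
    intro i x hx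
    unfold FamData.G
    rw [key x hx]
  refine ⟨κ, hκ, fun x y hx hy => ?_⟩
  obtain ⟨h2, h3, h4⟩ := h1 x y
  refine ⟨?_, fun v => ?_, fun v => ?_⟩
  · rw [← h2]
    unfold FamData.W
    rw [key x hx]
  · obtain ⟨h5, h6⟩ := h3 v
    rw [kG _ x hx] at h5 h6
    exact ⟨h5, h6⟩
  · rw [← h4 v]
    unfold FamData.Mi
    rw [kG _ x hx, kG _ x hx, kG _ y hy, kG _ y hy]

end Pool.Agent.SPF
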