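import Pool.Agent.SPF.Kit

/-!
# Module INV0: invariance of nulls and gradients under the arithmetic group of level 2
-/

set_option autoImplicit false
set_option linter.unusedSectionVars false
set_option linter.unusedSimpArgs false

open scoped BigOperators
open Complex

namespace Pool.Agent.SPF

noncomputable section

namespace INV0_

/-! ### The action of the lattice on theta functions -/

section lattice

variable {V : Type} [AddCommGroup V] [Module ℚ V] {ι : Type} [Fintype ι] [DecidableEq ι]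
variable {e : V →ₗ[ℚ] V →ₗ[ℚ] ℚ} {B : Module.Basis (ι ⊕ ι) ℚ V} {ζ L : V →ₗ[ℚ] (ι → ℂ)}

theorem e_int (hB : SympBasis e B) {x y : V} (hx : x ∈ lat B) (hy : y ∈ lat B) :
    ∃ k : ℤ, e x y = k := by
  have hneg : ∀ x y, e x y = -e y x := by
    intro x y
    have h := hB.alt (x + y)
    simp only [map_add, LinearMap.add_apply] at h
    rw [hB.alt, hB.alt] at h
    linarith
  have h1 : ∀ i j, ∃ k : ℤ, e (B i) (B j) = k := by
    intro i j
    rcases i with i | i <;> rcases j with j | j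
    · exact ⟨0, by rw [hB.ll]; simp⟩
    · rw [hB.lr]
      split_ifs
      · exact ⟨1, by simp⟩
      · exact ⟨0, by simp⟩
    · rw [hneg, hB.lr]
      split_ifs
      · exact ⟨-1, by simp⟩
      · exact ⟨0, by simp⟩
    · exact ⟨0, by rw [hB.rr]; simp⟩
  unfold lat at hx hy
  have h2 : ∀ i, ∃ k : ℤ, e (B i) y = k := by
    intro i
    induction hy using AddSubgroup.closure_induction with
    | mem y hy =>
      obtain ⟨j, rfl⟩ := hy
      exact h1 i j
    | zero => exact ⟨0, by simp⟩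
    | add y y' _ _ h h' =>
      obtain ⟨k, hk⟩ := h
      obtain ⟨k', hk'⟩ := h'
      exact ⟨k + k', by rw [map_add, hk, hk']; push_cast; rfl⟩
    | neg y _ h =>
      obtain ⟨k, hk⟩ := h
      exact ⟨-k, by rw [map_neg, hk]; push_cast; rfl⟩
  induction hx using AddSubgroup.closure_induction with
  | mem x hx =>
    obtain ⟨i, rfl⟩ := hx
    exact h2 i
  | zero => exact ⟨0, by simp⟩
  | add x x' _ _ h h' =>
    obtain ⟨k, hk⟩ := h
    obtain ⟨k', hk'⟩ := h'
    exact ⟨k + k', by rw [map_add, LinearMap.add_apply, hk, hk']; push_cast; rfl⟩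
  | neg x _ h =>
    obtain ⟨k, hk⟩ := h
    exact ⟨-k, by rw [map_neg, LinearMap.neg_apply, hk]; push_cast; rfl⟩

theorem exp_int (k : ℤ) : cexp (Real.pi * I * ((k : ℚ) : ℂ)) ^ 2 = 1 := by
  rw [← Complex.exp_nat_mul, Complex.exp_eq_one_iff]
  exact ⟨k, by push_cast; ring⟩

theorem TT_add' (h : IsPStr e B ζ L) (x y : V) (F : (ι → ℂ) → ℂ) :
    TT ζ L (x + y) F = fun z => cexp (-(Real.pi * I * (e x y : ℚ))) * TT ζ L x (TT ζ L y F) z := by
  funext z
  rw [TT_TT h, ← mul_assoc, ← Complex.exp_add, neg_add_cancel, Complex.exp_zero, one_mul]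

theorem TT_fun_smul (x : V) (a : ℂ) (F : (ι → ℂ) → ℂ) :
    TT ζ L x (fun z => a * F z) = fun z => a * TT ζ L x F z := by
  funext z
  exact TT_smul x a F z

theorem lat_act (hB : SympBasis e B) (h : IsPStr e B ζ L) {F : (ι → ℂ) → ℂ}
    (hF : IsTh ζ L B F) {x : V} (hx : x ∈ lat B) :
    ∃ ε : ℂ, ε ^ 2 = 1 ∧ TT ζ L x F = fun z => ε * F z := by
  unfold lat at hx
  induction hx using AddSubgroup.closure_induction with
  | mem x hx =>
    obtain ⟨j, rfl⟩ := hx
    exact ⟨1, one_pow 2, by rw [hF.per j]; funext z; rw [one_mul]⟩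
  | zero => exact ⟨1, one_pow 2, by rw [TT_zero]; funext z; rw [one_mul]⟩
  | add x y hx hy h1 h2 =>
    obtain ⟨ε, hε, h1⟩ := h1
    obtain ⟨δ, hδ, h2⟩ := h2
    obtain ⟨k, hk⟩ := e_int hB (x := x) (y := y) hx hy
    refine ⟨(cexp (Real.pi * I * ((k : ℚ) : ℂ)))⁻¹ * (δ * ε), ?_, ?_⟩
    · rw [mul_pow, mul_pow, hδ, hε, inv_pow, exp_int, inv_one, mul_one, mul_one]
    · rw [TT_add' h, h2, TT_fun_smul, h1]
      funext z
      rw [hk, Complex.exp_neg]
      ring
  | neg x hx h1 =>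
    obtain ⟨ε, hε, h1⟩ := h1
    refine ⟨ε, hε, ?_⟩
    have h2 : TT ζ L (-x) (TT ζ L x F) = F := by
      funext z
      rw [TT_TT h, neg_add_cancel, TT_zero, map_neg, LinearMap.neg_apply, hB.alt]
      simp
    rw [h1, TT_fun_smul] at h2
    funext z
    have h3 : ε * TT ζ L (-x) F z = F z := congrFun h2 z
    calc TT ζ L (-x) F z = ε ^ 2 * TT ζ L (-x) F z := by rw [hε, one_mul]
      _ = ε * (ε * TT ζ L (-x) F z) := by ring
      _ = ε * F z := by rw [h3]

theorem per_two (hB : SympBasis e B) (h : IsPStr e B ζ L) {F : (ι → ℂ) → ℂ}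
    (hF : IsTh ζ L B F) (j : ι ⊕ ι) {y : V} (hy : y ∈ lat B) :
    TT ζ L (B j + (2 : ℚ) • y) F = F := by
  have h1 : TT ζ L ((2 : ℚ) • y) F = F := by
    obtain ⟨ε, hε, h1⟩ := lat_act hB h hF hy
    have h2 : (2 : ℚ) • y = y + y := two_smul ℚ y
    rw [h2, TT_add' h, h1, TT_fun_smul, h1, hB.alt]
    funext z
    show cexp (-(Real.pi * I * ((0 : ℚ) : ℂ))) * (ε * (ε * F z)) = F z
    have h3 : ε * (ε * F z) = ε ^ 2 * F z := by ring
    rw [h3, hε]
    simp
  obtain ⟨k, hk⟩ := e_int hB (x := B j) (y := y) (AddSubgroup.subset_closure ⟨j, rfl⟩) hy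
  rw [TT_add' h, h1, hF.per j]
  funext z
  have h2 : cexp (-(Real.pi * I * ((e (B j) ((2 : ℚ) • y) : ℚ) : ℂ))) = 1 := by
    rw [map_smul, hk, Complex.exp_neg, smul_eq_mul]
    have h3 : (Real.pi : ℂ) * I * (((2 : ℚ) * (k : ℚ) : ℚ) : ℂ) = k * (2 * Real.pi * I) := by
      push_cast
      ring
    rw [h3, Complex.exp_int_mul_two_pi_mul_I, inv_one]
  rw [h2, one_mul]

end lattice

/-! ### Derivatives at the origin -/

section deriv

variable {ι : Type} [Fintype ι] [DecidableEq ι]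

omit [DecidableEq ι] in
theorem hasDerivAt_line {F : (ι → ℂ) → ℂ} (hF : Differentiable ℂ F) (w : ι → ℂ) :
    HasDerivAt (fun t : ℂ => F (t • w)) (fderiv ℂ F 0 w) 0 := by
  have h1 : HasDerivAt (fun t : ℂ => t • w) w 0 := by
    have := (hasDerivAt_id (0 : ℂ)).smul_const w
    rwa [one_smul] at this
  have h2 : HasFDerivAt F (fderiv ℂ F 0) ((0 : ℂ) • w) := by
    rw [zero_smul]
    exact (hF 0).hasFDerivAt
  exact h2.comp_hasDerivAt (0 : ℂ) h1

theorem deriv_eq {F G : (ι → ℂ) → ℂ} (hF : Differentiable ℂ F) (hG : Differentiable ℂ G)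
    (w : ι → ℂ) (i : ι) (a : ℂ)
    (h : ∀ t : ℂ, F (t • w) = a * G (t • (Pi.single i 1 : ι → ℂ))) :
    fderiv ℂ F 0 w = a * pd i G 0 := by
  have h1 := hasDerivAt_line hF w
  have h2 := (hasDerivAt_line hG (Pi.single i 1 : ι → ℂ)).const_mul a
  have h3 : (fun t : ℂ => F (t • w)) = fun t : ℂ => a * G (t • (Pi.single i 1 : ι → ℂ)) :=
    funext h
  rw [h3] at h1
  exact h1.unique h2

end deriv

/-! ### The family -/

section fam

variable {E : Type} [Field E] [NumberField E] {I J : Type} [Fintype I] [Fintype J]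
  [DecidableEq I] [DecidableEq J] {D : FamData E I J}

theorem M_diff (g : D.Iso) (s : I → ℂ) : Differentiable ℂ (g.M s) := by
  rw [differentiable_pi]
  intro i
  rcases i with (v | v) | (v | v)
  · show Differentiable ℂ fun z : Co I J → ℂ =>
      D.t (Sum.inl v) g.det / g.j s v * z (FamData.i1 v)
    fun_prop
  · show Differentiable ℂ fun z : Co I J → ℂ =>
      D.t (Sum.inr v) g.a * z (FamData.j1 v) + D.t (Sum.inr v) g.b * z (FamData.j2 v)
    fun_prop
  · show Differentiable ℂ fun z : Co I J → ℂ => 1 / g.j s v * z (FamData.i2 v)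
    fun_prop
  · show Differentiable ℂ fun z : Co I J → ℂ =>
      D.t (Sum.inr v) g.c * z (FamData.j1 v) + D.t (Sum.inr v) g.d * z (FamData.j2 v)
    fun_prop

theorem Q_diff (g : D.Iso) (s : I → ℂ) : Differentiable ℂ (g.Q s) := by
  unfold FamData.Iso.Q
  fun_prop

theorem M_smul (g : D.Iso) (s : I → ℂ) (t : ℂ) (z : Co I J → ℂ) :
    g.M s (t • z) = t • g.M s z := by
  funext i
  rcases i with (v | v) | (v | v)
  · show D.t (Sum.inl v) g.det / g.j s v * (t * z (FamData.i1 v)) =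
      t * (D.t (Sum.inl v) g.det / g.j s v * z (FamData.i1 v))
    ring
  · show D.t (Sum.inr v) g.a * (t * z (FamData.j1 v)) + D.t (Sum.inr v) g.b *
      (t * z (FamData.j2 v)) = t * (D.t (Sum.inr v) g.a * z (FamData.j1 v) +
        D.t (Sum.inr v) g.b * z (FamData.j2 v))
    ring
  · show 1 / g.j s v * (t * z (FamData.i2 v)) = t * (1 / g.j s v * z (FamData.i2 v))
    ring
  · show D.t (Sum.inr v) g.c * (t * z (FamData.j1 v)) + D.t (Sum.inr v) g.d *
      (t * z (FamData.j2 v)) = t * (D.t (Sum.inr v) g.c * z (FamData.j1 v) +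
        D.t (Sum.inr v) g.d * z (FamData.j2 v))
    ring

theorem M_zero (g : D.Iso) (s : I → ℂ) : g.M s 0 = 0 := by
  have h := M_smul g s 0 0
  rwa [zero_smul, zero_smul] at h

theorem M_i1 (g : D.Iso) (s : I → ℂ) (v : I) :
    g.M s (Pi.single (FamData.i1 v) 1) =
      (D.t (Sum.inl v) g.det / g.j s v) • (Pi.single (FamData.i1 v) 1 : Co I J → ℂ) := by
  funext i
  rcases i with (w | w) | (w | w)
  · show D.t (Sum.inl w) g.det / g.j s w *
        (Pi.single (FamData.i1 v) 1 : Co I J → ℂ) (FamData.i1 w) =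
      D.t (Sum.inl v) g.det / g.j s v *
        (Pi.single (FamData.i1 v) 1 : Co I J → ℂ) (FamData.i1 w)
    by_cases h : w = v
    · subst h; rfl
    · simp [Pi.single_apply, FamData.i1, h]
  · show D.t (Sum.inr w) g.a * (Pi.single (FamData.i1 v) 1 : Co I J → ℂ) (FamData.j1 w) +
        D.t (Sum.inr w) g.b * (Pi.single (FamData.i1 v) 1 : Co I J → ℂ) (FamData.j2 w) =
      D.t (Sum.inl v) g.det / g.j s v *
        (Pi.single (FamData.i1 v) 1 : Co I J → ℂ) (FamData.j1 w)
    simp [Pi.single_apply, FamData.i1, FamData.j1, FamData.j2]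
  · show 1 / g.j s w * (Pi.single (FamData.i1 v) 1 : Co I J → ℂ) (FamData.i2 w) =
      D.t (Sum.inl v) g.det / g.j s v *
        (Pi.single (FamData.i1 v) 1 : Co I J → ℂ) (FamData.i2 w)
    simp [Pi.single_apply, FamData.i1, FamData.i2]
  · show D.t (Sum.inr w) g.c * (Pi.single (FamData.i1 v) 1 : Co I J → ℂ) (FamData.j1 w) +
        D.t (Sum.inr w) g.d * (Pi.single (FamData.i1 v) 1 : Co I J → ℂ) (FamData.j2 w) =
      D.t (Sum.inl v) g.det / g.j s v *
        (Pi.single (FamData.i1 v) 1 : Co I J → ℂ) (FamData.j2 w)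
    simp [Pi.single_apply, FamData.i1, FamData.j1, FamData.j2]

theorem M_i2 (g : D.Iso) (s : I → ℂ) (v : I) :
    g.M s (Pi.single (FamData.i2 v) 1) =
      (1 / g.j s v) • (Pi.single (FamData.i2 v) 1 : Co I J → ℂ) := by
  funext i
  rcases i with (w | w) | (w | w)
  · show D.t (Sum.inl w) g.det / g.j s w *
        (Pi.single (FamData.i2 v) 1 : Co I J → ℂ) (FamData.i1 w) =
      1 / g.j s v * (Pi.single (FamData.i2 v) 1 : Co I J → ℂ) (FamData.i1 w)
    simp [Pi.single_apply, FamData.i1, FamData.i2]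
  · show D.t (Sum.inr w) g.a * (Pi.single (FamData.i2 v) 1 : Co I J → ℂ) (FamData.j1 w) +
        D.t (Sum.inr w) g.b * (Pi.single (FamData.i2 v) 1 : Co I J → ℂ) (FamData.j2 w) =
      1 / g.j s v * (Pi.single (FamData.i2 v) 1 : Co I J → ℂ) (FamData.j1 w)
    simp [Pi.single_apply, FamData.i2, FamData.j1, FamData.j2]
  · show 1 / g.j s w * (Pi.single (FamData.i2 v) 1 : Co I J → ℂ) (FamData.i2 w) =
      1 / g.j s v * (Pi.single (FamData.i2 v) 1 : Co I J → ℂ) (FamData.i2 w)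
    by_cases h : w = v
    · subst h; rfl
    · simp [Pi.single_apply, FamData.i2, h]
  · show D.t (Sum.inr w) g.c * (Pi.single (FamData.i2 v) 1 : Co I J → ℂ) (FamData.j1 w) +
        D.t (Sum.inr w) g.d * (Pi.single (FamData.i2 v) 1 : Co I J → ℂ) (FamData.j2 w) =
      1 / g.j s v * (Pi.single (FamData.i2 v) 1 : Co I J → ℂ) (FamData.j2 w)
    simp [Pi.single_apply, FamData.i2, FamData.j1, FamData.j2]

theorem M_j1 (g : D.Iso) (s : I → ℂ) (v : J) :
    g.M s (Pi.single (FamData.j1 v) 1) =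
      D.t (Sum.inr v) g.a • (Pi.single (FamData.j1 v) 1 : Co I J → ℂ) +
        D.t (Sum.inr v) g.c • (Pi.single (FamData.j2 v) 1 : Co I J → ℂ) := by
  funext i
  rcases i with (w | w) | (w | w)
  · show D.t (Sum.inl w) g.det / g.j s w *
        (Pi.single (FamData.j1 v) 1 : Co I J → ℂ) (FamData.i1 w) =
      D.t (Sum.inr v) g.a * (Pi.single (FamData.j1 v) 1 : Co I J → ℂ) (FamData.i1 w) +
        D.t (Sum.inr v) g.c * (Pi.single (FamData.j2 v) 1 : Co I J → ℂ) (FamData.i1 w)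
    simp [Pi.single_apply, FamData.i1, FamData.j1, FamData.j2]
  · show D.t (Sum.inr w) g.a * (Pi.single (FamData.j1 v) 1 : Co I J → ℂ) (FamData.j1 w) +
        D.t (Sum.inr w) g.b * (Pi.single (FamData.j1 v) 1 : Co I J → ℂ) (FamData.j2 w) =
      D.t (Sum.inr v) g.a * (Pi.single (FamData.j1 v) 1 : Co I J → ℂ) (FamData.j1 w) +
        D.t (Sum.inr v) g.c * (Pi.single (FamData.j2 v) 1 : Co I J → ℂ) (FamData.j1 w)
    by_cases h : w = v
    · subst h; simp [Pi.single_apply, FamData.j1, FamData.j2]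
    · simp [Pi.single_apply, FamData.j1, FamData.j2, h]
  · show 1 / g.j s w * (Pi.single (FamData.j1 v) 1 : Co I J → ℂ) (FamData.i2 w) =
      D.t (Sum.inr v) g.a * (Pi.single (FamData.j1 v) 1 : Co I J → ℂ) (FamData.i2 w) +
        D.t (Sum.inr v) g.c * (Pi.single (FamData.j2 v) 1 : Co I J → ℂ) (FamData.i2 w)
    simp [Pi.single_apply, FamData.i2, FamData.j1, FamData.j2]
  · show D.t (Sum.inr w) g.c * (Pi.single (FamData.j1 v) 1 : Co I J → ℂ) (FamData.j1 w) +
        D.t (Sum.inr w) g.d * (Pi.single (FamData.j1 v) 1 : Co I J → ℂ) (FamData.j2 w) =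
      D.t (Sum.inr v) g.a * (Pi.single (FamData.j1 v) 1 : Co I J → ℂ) (FamData.j2 w) +
        D.t (Sum.inr v) g.c * (Pi.single (FamData.j2 v) 1 : Co I J → ℂ) (FamData.j2 w)
    by_cases h : w = v
    · subst h; simp [Pi.single_apply, FamData.j1, FamData.j2]
    · simp [Pi.single_apply, FamData.j1, FamData.j2, h]

theorem M_j2 (g : D.Iso) (s : I → ℂ) (v : J) :
    g.M s (Pi.single (FamData.j2 v) 1) =
      D.t (Sum.inr v) g.b • (Pi.single (FamData.j1 v) 1 : Co I J → ℂ) +
        D.t (Sum.inr v) g.d • (Pi.single (FamData.j2 v) 1 : Co I J → ℂ) := by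
  funext i
  rcases i with (w | w) | (w | w)
  · show D.t (Sum.inl w) g.det / g.j s w *
        (Pi.single (FamData.j2 v) 1 : Co I J → ℂ) (FamData.i1 w) =
      D.t (Sum.inr v) g.b * (Pi.single (FamData.j1 v) 1 : Co I J → ℂ) (FamData.i1 w) +
        D.t (Sum.inr v) g.d * (Pi.single (FamData.j2 v) 1 : Co I J → ℂ) (FamData.i1 w)
    simp [Pi.single_apply, FamData.i1, FamData.j1, FamData.j2]
  · show D.t (Sum.inr w) g.a * (Pi.single (FamData.j2 v) 1 : Co I J → ℂ) (FamData.j1 w) +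
        D.t (Sum.inr w) g.b * (Pi.single (FamData.j2 v) 1 : Co I J → ℂ) (FamData.j2 w) =
      D.t (Sum.inr v) g.b * (Pi.single (FamData.j1 v) 1 : Co I J → ℂ) (FamData.j1 w) +
        D.t (Sum.inr v) g.d * (Pi.single (FamData.j2 v) 1 : Co I J → ℂ) (FamData.j1 w)
    by_cases h : w = v
    · subst h; simp [Pi.single_apply, FamData.j1, FamData.j2]
    · simp [Pi.single_apply, FamData.j1, FamData.j2, h]
  · show 1 / g.j s w * (Pi.single (FamData.j2 v) 1 : Co I J → ℂ) (FamData.i2 w) =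
      D.t (Sum.inr v) g.b * (Pi.single (FamData.j1 v) 1 : Co I J → ℂ) (FamData.i2 w) +
        D.t (Sum.inr v) g.d * (Pi.single (FamData.j2 v) 1 : Co I J → ℂ) (FamData.i2 w)
    simp [Pi.single_apply, FamData.i2, FamData.j1, FamData.j2]
  · show D.t (Sum.inr w) g.c * (Pi.single (FamData.j2 v) 1 : Co I J → ℂ) (FamData.j1 w) +
        D.t (Sum.inr w) g.d * (Pi.single (FamData.j2 v) 1 : Co I J → ℂ) (FamData.j2 w) =
      D.t (Sum.inr v) g.b * (Pi.single (FamData.j1 v) 1 : Co I J → ℂ) (FamData.j2 w) +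
        D.t (Sum.inr v) g.d * (Pi.single (FamData.j2 v) 1 : Co I J → ℂ) (FamData.j2 w)
    by_cases h : w = v
    · subst h; simp [Pi.single_apply, FamData.j1, FamData.j2]
    · simp [Pi.single_apply, FamData.j1, FamData.j2, h]

theorem Q_single (g : D.Iso) (s : I → ℂ) (t : ℂ) (i : Co I J) :
    g.Q s (t • (Pi.single i 1 : Co I J → ℂ)) = 0 := by
  unfold FamData.Iso.Q
  refine Finset.sum_eq_zero fun v _ => ?_
  have h : (t • (Pi.single i 1 : Co I J → ℂ)) (FamData.i1 v) *
      (t • (Pi.single i 1 : Co I J → ℂ)) (FamData.i2 v) = 0 := by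
    by_cases h1 : i = FamData.i1 v
    · have h2 : (t • (Pi.single i 1 : Co I J → ℂ)) (FamData.i2 v) = 0 := by
        rw [h1]
        simp [Pi.single_apply, FamData.i1, FamData.i2]
      rw [h2, mul_zero]
    · have h2 : (t • (Pi.single i 1 : Co I J → ℂ)) (FamData.i1 v) = 0 := by
        have h3 : FamData.i1 v ≠ i := fun h => h1 h.symm
        simp [Pi.single_apply, h3]
      rw [h2, zero_mul]
  rw [mul_assoc, h, mul_zero]

end fam

end INV0_

open INV0_ in
theorem inv0_proof (hTHU : Stmt_THU) (hPOSF : Stmt_POSF) (hISO : Stmt_ISO) : Stmt_INV0 := by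
  intro E _ _ I J _ _ _ _ D B Θ hB hΘ g hg s hs
  obtain ⟨hdet, _, _, hg2⟩ := hg
  obtain ⟨_, _, _, hiso⟩ := hISO E I J D g
  obtain ⟨hj, hact, _, hsurj, hTT⟩ := hiso s hs
  have hP := hPOSF E I J D B hB s hs
  have hP' := hPOSF E I J D B hB (g.act s) hact
  have hT := hΘ.th s hs
  have hT' := hΘ.th (g.act s) hact
  set F : (Co I J → ℂ) → ℂ := fun z => cexp (-(g.Q s z)) * Θ (g.act s) (g.M s z) with hF
  -- the transformation formula
  have h1 : ∀ (x : E × E) (z : Co I J → ℂ),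
      TT (D.zeta (g.act s)) D.L (g.app x) (Θ (g.act s)) (g.M s z) =
        cexp (g.Q s z) * TT (D.zeta s) D.L x F z := fun x z => hTT (Θ (g.act s)) x z
  have hFdiff : Differentiable ℂ F :=
    ((Q_diff g s).neg.cexp).mul (hT'.entire.comp (M_diff g s))
  have hFth : IsTh (D.zeta s) D.L B F := by
    refine ⟨hFdiff, fun j => ?_⟩
    funext z
    have h2 := h1 (B j) z
    obtain ⟨y, hy, hy'⟩ := hg2 (B j) (AddSubgroup.subset_closure ⟨j, rfl⟩)
    have h3 : ((2 : ℕ) : ℚ) • y = (2 : ℚ) • y := by norm_num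
    rw [hy', h3, per_two hB hP' hT' j hy] at h2
    show TT (D.zeta s) D.L (B j) F z = cexp (-(g.Q s z)) * Θ (g.act s) (g.M s z)
    rw [h2, ← mul_assoc, ← Complex.exp_add, neg_add_cancel, Complex.exp_zero, one_mul]
  obtain ⟨a, ha⟩ := hTHU (E × E) (Co I J) D.e B (D.zeta s) D.L hB hP (Θ s) F hT hFth
    (hΘ.nz s hs)
  have ha0 : a ≠ 0 := by
    intro h0
    apply hΘ.nz (g.act s) hact
    funext z
    obtain ⟨z', rfl⟩ := hsurj z
    have h2 := congrFun ha z'
    rw [h0, zero_mul] at h2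
    exact (mul_eq_zero.1 h2).resolve_left (Complex.exp_ne_zero _)
  have h2 : ∀ (x : E × E) (z : Co I J → ℂ),
      TT (D.zeta (g.act s)) D.L (g.app x) (Θ (g.act s)) (g.M s z) =
        cexp (g.Q s z) * (a * TT (D.zeta s) D.L x (Θ s) z) := by
    intro x z
    rw [h1, ha, TT_smul]
  have hd : ∀ x, Differentiable ℂ (TT (D.zeta s) D.L x (Θ s)) := fun x =>
    TT_differentiable x hT.entire
  have hd' : ∀ x, Differentiable ℂ (TT (D.zeta (g.act s)) D.L x (Θ (g.act s))) := fun x =>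
    TT_differentiable x hT'.entire
  have h3 : ∀ (x : E × E) (i : Co I J),
      fderiv ℂ (TT (D.zeta (g.act s)) D.L (g.app x) (Θ (g.act s))) 0
        (g.M s (Pi.single i 1)) = a * pd i (TT (D.zeta s) D.L x (Θ s)) 0 := by
    intro x i
    refine deriv_eq (hd' _) (hd x) _ i a fun t => ?_
    rw [← M_smul, h2, Q_single, Complex.exp_zero, one_mul]
  have hI : ∀ (x : E × E) (v : I),
      D.G Θ (FamData.i1 v) (g.app x) (g.act s) = a * g.j s v * D.G Θ (FamData.i1 v) x s ∧
        D.G Θ (FamData.i2 v) (g.app x) (g.act s) = a * g.j s v * D.G Θ (FamData.i2 v) x s := by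
    intro x v
    have e1 := h3 x (FamData.i1 v)
    have e2 := h3 x (FamData.i2 v)
    rw [M_i1, map_smul, hdet, map_one, smul_eq_mul] at e1
    rw [M_i2, map_smul, smul_eq_mul] at e2
    have hjv := hj v
    constructor
    · show pd (FamData.i1 v) (TT (D.zeta (g.act s)) D.L (g.app x) (Θ (g.act s))) 0 =
        a * g.j s v * pd (FamData.i1 v) (TT (D.zeta s) D.L x (Θ s)) 0
      have e3 : pd (FamData.i1 v) (TT (D.zeta (g.act s)) D.L (g.app x) (Θ (g.act s))) 0 =
          g.j s v * (1 / g.j s v * pd (FamData.i1 v)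
            (TT (D.zeta (g.act s)) D.L (g.app x) (Θ (g.act s))) 0) := by
        field_simp
      rw [e3]
      unfold pd at e1 ⊢
      rw [e1]
      ring
    · show pd (FamData.i2 v) (TT (D.zeta (g.act s)) D.L (g.app x) (Θ (g.act s))) 0 =
        a * g.j s v * pd (FamData.i2 v) (TT (D.zeta s) D.L x (Θ s)) 0
      have e3 : pd (FamData.i2 v) (TT (D.zeta (g.act s)) D.L (g.app x) (Θ (g.act s))) 0 =
          g.j s v * (1 / g.j s v * pd (FamData.i2 v)
            (TT (D.zeta (g.act s)) D.L (g.app x) (Θ (g.act s))) 0) := by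
        field_simp
      rw [e3]
      unfold pd at e2 ⊢
      rw [e2]
      ring
  have hJ : ∀ (x : E × E) (v : J),
      D.t (Sum.inr v) g.a * D.G Θ (FamData.j1 v) (g.app x) (g.act s) +
          D.t (Sum.inr v) g.c * D.G Θ (FamData.j2 v) (g.app x) (g.act s) =
        a * D.G Θ (FamData.j1 v) x s ∧
      D.t (Sum.inr v) g.b * D.G Θ (FamData.j1 v) (g.app x) (g.act s) +
          D.t (Sum.inr v) g.d * D.G Θ (FamData.j2 v) (g.app x) (g.act s) =
        a * D.G Θ (FamData.j2 v) x s := by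
    intro x v
    have e1 := h3 x (FamData.j1 v)
    have e2 := h3 x (FamData.j2 v)
    rw [M_j1, map_add, map_smul, map_smul, smul_eq_mul, smul_eq_mul] at e1
    rw [M_j2, map_add, map_smul, map_smul, smul_eq_mul, smul_eq_mul] at e2
    exact ⟨e1, e2⟩
  refine ⟨a, ha0, fun x y => ⟨?_, hI x, fun v => ?_⟩⟩
  · have e1 := h2 x 0
    have e2 : g.Q s 0 = 0 := by
      unfold FamData.Iso.Q
      exact Finset.sum_eq_zero fun v _ => by rw [Pi.zero_apply, mul_zero, zero_mul]
    rw [M_zero, e2, Complex.exp_zero, one_mul] at e1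
    exact e1
  · obtain ⟨e1, e2⟩ := hJ x v
    obtain ⟨e3, e4⟩ := hJ y v
    have hdv : D.t (Sum.inr v) g.a * D.t (Sum.inr v) g.d -
        D.t (Sum.inr v) g.b * D.t (Sum.inr v) g.c = 1 := by
      rw [← map_mul, ← map_mul, ← map_sub]
      show D.t (Sum.inr v) g.det = 1
      rw [hdet, map_one]
    unfold FamData.Mi
    have e5 : a ^ 2 * (D.G Θ (FamData.j1 v) x s * D.G Θ (FamData.j2 v) y s -
        D.G Θ (FamData.j2 v) x s * D.G Θ (FamData.j1 v) y s) =
        (a * D.G Θ (FamData.j1 v) x s) * (a * D.G Θ (FamData.j2 v) y s) -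
          (a * D.G Θ (FamData.j2 v) x s) * (a * D.G Θ (FamData.j1 v) y s) := by ring
    rw [e5, ← e1, ← e2, ← e3, ← e4]
    linear_combination (-(D.G Θ (FamData.j1 v) (g.app x) (g.act s) *
      D.G Θ (FamData.j2 v) (g.app y) (g.act s) - D.G Θ (FamData.j2 v) (g.app x) (g.act s) *
      D.G Θ (FamData.j1 v) (g.app y) (g.act s))) * hdv

end

end Pool.Agent.SPF
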