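import Pool.Agent.SPF.Kit

set_option linter.unusedSectionVars false
set_option linter.unusedSimpArgs false

/-!
# SPF, module ISO: isometries, algebraic identities
-/

open scoped BigOperators
open Complex

namespace Pool.Agent.SPF

namespace ISO_

noncomputable section

variable {E : Type} [Field E] [NumberField E] {I J : Type} [Fintype I] [Fintype J]
  [DecidableEq I] [DecidableEq J] (D : FamData E I J)

lemma t_bar (v : I ⊕ J) (x : E) : D.t v (D.bar x) = D.tb v x := D.bar_spec _ _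

lemma tb_mul (v : I ⊕ J) (x y : E) : D.tb v (x * y) = D.tb v x * D.tb v y := by
  unfold FamData.tb
  rw [map_mul, map_mul]

lemma bar_bar (x : E) : D.bar (D.bar x) = x := by
  obtain ⟨φ⟩ : Nonempty (E →+* ℂ) := inferInstance
  apply φ.injective
  rw [D.bar_spec, D.bar_spec]
  exact Complex.conj_conj _

include D in
lemma exists_place : Nonempty (I ⊕ J) := by
  obtain ⟨φ⟩ : Nonempty (E →+* ℂ) := inferInstance
  obtain ⟨v, _⟩ := D.t_surj φ
  exact ⟨v⟩

lemma xi1_ne : D.ξ₁ ≠ 0 := by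
  obtain ⟨v⟩ := exists_place D
  intro h
  have := D.pos1 v
  rw [h, map_zero] at this
  simp at this

lemma xi2_ne : D.ξ₂ ≠ 0 := by
  obtain ⟨v⟩ := exists_place D
  intro h
  rcases v with v | v
  · have := D.posI v
    rw [h, map_zero] at this
    simp at this
  · have := D.posJ v
    rw [h, map_zero] at this
    simp at this

variable {D} (g : D.Iso)

lemma h2' : D.ξ₁ * D.bar g.a * g.b + D.ξ₂ * D.bar g.c * g.d = 0 := by
  have h := congrArg D.bar g.h2
  rw [map_add, map_mul, map_mul, map_mul, map_mul, bar_bar, bar_bar, D.ξ₁_bar, D.ξ₂_bar,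
    map_zero] at h
  linear_combination -h

lemma det_bar : g.det * D.bar g.det = 1 := by
  have h : D.ξ₁ * D.ξ₂ * (g.det * D.bar g.det) = D.ξ₁ * D.ξ₂ * 1 := by
    unfold FamData.Iso.det
    rw [map_sub, map_mul, map_mul]
    linear_combination (D.ξ₁ * g.b * D.bar g.b + D.ξ₂ * g.d * D.bar g.d) * g.h1 +
      D.ξ₁ * g.h3 - (D.ξ₁ * D.bar g.a * g.b + D.ξ₂ * D.bar g.c * g.d) * g.h2
  exact mul_left_cancel₀ (mul_ne_zero (xi1_ne D) (xi2_ne D)) h

lemma det_ne : g.det ≠ 0 := by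
  intro h
  have := det_bar g
  rw [h, zero_mul] at this
  exact zero_ne_one this

lemma abar : D.bar g.a * g.det = g.d := by
  have h : D.ξ₁ * (D.bar g.a * g.det) = D.ξ₁ * g.d := by
    unfold FamData.Iso.det
    linear_combination g.d * g.h1 - g.c * h2' g
  exact mul_left_cancel₀ (xi1_ne D) h

lemma bbar : D.ξ₁ * D.bar g.b * g.det = -(D.ξ₂ * g.c) := by
  unfold FamData.Iso.det
  linear_combination g.d * g.h2 - g.c * g.h3

lemma psi_app (x y : E × E) : D.psi (g.app x) (g.app y) = D.psi x y := by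
  unfold FamData.psi FamData.Iso.app
  simp only [map_add, map_mul]
  linear_combination x.1 * D.bar y.1 * g.h1 + x.1 * D.bar y.2 * g.h2 +
    x.2 * D.bar y.1 * h2' g + x.2 * D.bar y.2 * g.h3

lemma surj (x : E × E) : ∃ y, g.app y = x := by
  have hd := det_ne g
  refine ⟨((g.d * x.1 - g.b * x.2) / g.det, (-g.c * x.1 + g.a * x.2) / g.det), ?_⟩
  unfold FamData.Iso.app
  apply Prod.ext
  · show g.a * ((g.d * x.1 - g.b * x.2) / g.det) + g.b * ((-g.c * x.1 + g.a * x.2) / g.det) = x.1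
    field_simp
    unfold FamData.Iso.det
    ring
  · show g.c * ((g.d * x.1 - g.b * x.2) / g.det) + g.d * ((-g.c * x.1 + g.a * x.2) / g.det) = x.2
    field_simp
    unfold FamData.Iso.det
    ring

/-! ### one place -/

lemma xi_b (v : I) : D.t (Sum.inl v) D.ξ₁ = -((D.b v : ℂ) * D.t (Sum.inl v) D.ξ₂) := by
  have him : ∀ (x : E), D.bar x = -x → D.t (Sum.inl v) x =
      ((D.t (Sum.inl v) x).im : ℂ) * Complex.I := by
    intro x hx
    have h := D.bar_spec (D.t (Sum.inl v)) x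
    rw [hx, map_neg] at h
    have hre : (D.t (Sum.inl v) x).re = 0 := by
      have := congrArg Complex.re h
      rw [Complex.neg_re, Complex.conj_re] at this
      linarith
    apply Complex.ext
    · simp [hre]
    · simp
  have h1 := him _ D.ξ₁_bar
  have h2 := him _ D.ξ₂_bar
  have h3 : (D.t (Sum.inl v) D.ξ₂).im ≠ 0 := (D.posI v).ne
  have h4 : (D.t (Sum.inl v) D.ξ₁).im = -(D.b v * (D.t (Sum.inl v) D.ξ₂).im) := by
    unfold FamData.b
    field_simp
  rw [h1, h4, h2]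
  push_cast
  simp only [Complex.ofReal_im, Complex.mul_im, Complex.I_im, Complex.ofReal_re, Complex.I_re,
    mul_one, mul_zero, add_zero]
  ring

lemma xi2_t_ne (v : I) : D.t (Sum.inl v) D.ξ₂ ≠ 0 := by
  rw [Ne, map_eq_zero]
  exact xi2_ne D

lemma K1 (v : I) : (D.b v : ℂ) * D.t (Sum.inl v) g.a * D.tb (Sum.inl v) g.a -
    D.t (Sum.inl v) g.c * D.tb (Sum.inl v) g.c = D.b v := by
  have h := congrArg (D.t (Sum.inl v)) g.h1
  simp only [map_add, map_mul, t_bar, xi_b] at h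
  apply mul_left_cancel₀ (xi2_t_ne (D := D) v)
  linear_combination -h

lemma K2 (v : I) : (D.b v : ℂ) * D.t (Sum.inl v) g.a * D.tb (Sum.inl v) g.b =
    D.t (Sum.inl v) g.c * D.tb (Sum.inl v) g.d := by
  have h := congrArg (D.t (Sum.inl v)) g.h2
  simp only [map_add, map_mul, t_bar, xi_b, map_zero] at h
  apply mul_left_cancel₀ (xi2_t_ne (D := D) v)
  linear_combination -h

lemma K2' (v : I) : (D.b v : ℂ) * D.tb (Sum.inl v) g.a * D.t (Sum.inl v) g.b =
    D.tb (Sum.inl v) g.c * D.t (Sum.inl v) g.d := by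
  have h := congrArg (D.t (Sum.inl v)) (h2' g)
  simp only [map_add, map_mul, t_bar, xi_b, map_zero] at h
  apply mul_left_cancel₀ (xi2_t_ne (D := D) v)
  linear_combination -h

lemma K3 (v : I) : D.t (Sum.inl v) g.d * D.tb (Sum.inl v) g.d -
    (D.b v : ℂ) * D.t (Sum.inl v) g.b * D.tb (Sum.inl v) g.b = 1 := by
  have h := congrArg (D.t (Sum.inl v)) g.h3
  simp only [map_add, map_mul, t_bar, xi_b] at h
  apply mul_left_cancel₀ (xi2_t_ne (D := D) v)
  linear_combination h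

lemma jnorm (s : I → ℂ) (v : I) : ‖g.j s v‖ ^ 2 - D.b v *
    ‖D.t (Sum.inl v) g.a * s v + D.t (Sum.inl v) g.b‖ ^ 2 = 1 - D.b v * ‖s v‖ ^ 2 := by
  have h : ((‖g.j s v‖ ^ 2 - D.b v *
      ‖D.t (Sum.inl v) g.a * s v + D.t (Sum.inl v) g.b‖ ^ 2 : ℝ) : ℂ) =
      ((1 - D.b v * ‖s v‖ ^ 2 : ℝ) : ℂ) := by
    push_cast
    rw [← Complex.mul_conj', ← Complex.mul_conj', ← Complex.mul_conj']
    unfold FamData.Iso.j
    simp only [map_add, map_mul]
    have k1 := K1 g v
    have k2 := K2 g v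
    have k2' := K2' g v
    have k3 := K3 g v
    unfold FamData.tb at k1 k2 k2' k3
    linear_combination -(s v * (starRingEnd ℂ) (s v)) * k1 - s v * k2 -
      (starRingEnd ℂ) (s v) * k2' + k3
  exact_mod_cast h

lemma j_pos {s : I → ℂ} (hs : s ∈ D.Dom) (v : I) : 0 < ‖g.j s v‖ ^ 2 := by
  have h1 := jnorm g s v
  have h2 := hs v
  have h3 := D.b_pos v
  have h4 : 0 ≤ D.b v * ‖D.t (Sum.inl v) g.a * s v + D.t (Sum.inl v) g.b‖ ^ 2 := by positivity
  linarith

lemma j_ne {s : I → ℂ} (hs : s ∈ D.Dom) (v : I) : g.j s v ≠ 0 := by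
  intro h
  have := j_pos g hs v
  rw [h] at this
  simp at this

lemma act_mem {s : I → ℂ} (hs : s ∈ D.Dom) : g.act s ∈ D.Dom := by
  intro v
  unfold FamData.Iso.act
  have hp := j_pos g hs v
  rw [norm_div, div_pow, mul_div_assoc', div_lt_one hp]
  have h1 := jnorm g s v
  have h2 := hs v
  linarith

lemma zeta_app {s : I → ℂ} (hs : s ∈ D.Dom) (x : E × E) :
    D.zeta (g.act s) (g.app x) = g.M s (D.zeta s x) := by
  funext i
  rcases i with (v | v) | (v | v)
  · have hj := j_ne g hs v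
    show D.t (Sum.inl v) (g.a * x.1 + g.b * x.2) - (D.t (Sum.inl v) g.a * s v +
      D.t (Sum.inl v) g.b) / g.j s v * D.t (Sum.inl v) (g.c * x.1 + g.d * x.2) =
      D.t (Sum.inl v) g.det / g.j s v *
        (D.t (Sum.inl v) x.1 - s v * D.t (Sum.inl v) x.2)
    field_simp
    unfold FamData.Iso.j FamData.Iso.det
    simp only [map_add, map_mul, map_sub]
    ring
  · show D.t (Sum.inr v) (g.a * x.1 + g.b * x.2) = D.t (Sum.inr v) g.a * D.t (Sum.inr v) x.1 +
      D.t (Sum.inr v) g.b * D.t (Sum.inr v) x.2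
    simp only [map_add, map_mul]
  · have hj := j_ne g hs v
    show D.tb (Sum.inl v) (g.c * x.1 + g.d * x.2) - D.b v * ((D.t (Sum.inl v) g.a * s v +
      D.t (Sum.inl v) g.b) / g.j s v) * D.tb (Sum.inl v) (g.a * x.1 + g.b * x.2) =
      1 / g.j s v * (D.tb (Sum.inl v) x.2 - D.b v * s v * D.tb (Sum.inl v) x.1)
    have k1 := K1 g v
    have k2 := K2 g v
    have k2' := K2' g v
    have k3 := K3 g v
    simp only [FamData.tb_add, tb_mul]
    field_simp
    unfold FamData.Iso.j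
    linear_combination -(s v * D.tb (Sum.inl v) x.1) * k1 - D.tb (Sum.inl v) x.1 * k2' -
      s v * D.tb (Sum.inl v) x.2 * k2 + D.tb (Sum.inl v) x.2 * k3
  · show D.t (Sum.inr v) (g.c * x.1 + g.d * x.2) = D.t (Sum.inr v) g.c * D.t (Sum.inr v) x.1 +
      D.t (Sum.inr v) g.d * D.t (Sum.inr v) x.2
    simp only [map_add, map_mul]

lemma t_det (v : I ⊕ J) : D.t v g.a * D.t v g.d - D.t v g.b * D.t v g.c = D.t v g.det := by
  unfold FamData.Iso.det
  rw [map_sub, map_mul, map_mul]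

lemma t_det_ne (v : I ⊕ J) : D.t v g.det ≠ 0 := by
  rw [Ne, map_eq_zero]
  exact det_ne g

lemma M_surj {s : I → ℂ} (hs : s ∈ D.Dom) (z : Co I J → ℂ) : ∃ z', g.M s z' = z := by
  let z' : Co I J → ℂ := fun i => match i with
    | Sum.inl (Sum.inl v) => g.j s v / D.t (Sum.inl v) g.det * z (FamData.i1 v)
    | Sum.inl (Sum.inr v) => (D.t (Sum.inr v) g.d * z (FamData.j1 v) -
        D.t (Sum.inr v) g.b * z (FamData.j2 v)) / D.t (Sum.inr v) g.det
    | Sum.inr (Sum.inl v) => g.j s v * z (FamData.i2 v)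
    | Sum.inr (Sum.inr v) => (-D.t (Sum.inr v) g.c * z (FamData.j1 v) +
        D.t (Sum.inr v) g.a * z (FamData.j2 v)) / D.t (Sum.inr v) g.det
  refine ⟨z', ?_⟩
  funext i
  rcases i with (v | v) | (v | v)
  · have hj := j_ne g hs v
    have hd := t_det_ne g (Sum.inl v)
    show D.t (Sum.inl v) g.det / g.j s v *
      (g.j s v / D.t (Sum.inl v) g.det * z (FamData.i1 v)) = z (FamData.i1 v)
    field_simp
  · have hd := t_det_ne g (Sum.inr v)
    show D.t (Sum.inr v) g.a * ((D.t (Sum.inr v) g.d * z (FamData.j1 v) -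
        D.t (Sum.inr v) g.b * z (FamData.j2 v)) / D.t (Sum.inr v) g.det) +
      D.t (Sum.inr v) g.b * ((-D.t (Sum.inr v) g.c * z (FamData.j1 v) +
        D.t (Sum.inr v) g.a * z (FamData.j2 v)) / D.t (Sum.inr v) g.det) = z (FamData.j1 v)
    field_simp
    rw [← t_det]
    ring
  · have hj := j_ne g hs v
    show 1 / g.j s v * (g.j s v * z (FamData.i2 v)) = z (FamData.i2 v)
    field_simp
  · have hd := t_det_ne g (Sum.inr v)
    show D.t (Sum.inr v) g.c * ((D.t (Sum.inr v) g.d * z (FamData.j1 v) -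
        D.t (Sum.inr v) g.b * z (FamData.j2 v)) / D.t (Sum.inr v) g.det) +
      D.t (Sum.inr v) g.d * ((-D.t (Sum.inr v) g.c * z (FamData.j1 v) +
        D.t (Sum.inr v) g.a * z (FamData.j2 v)) / D.t (Sum.inr v) g.det) = z (FamData.j2 v)
    field_simp
    rw [← t_det]
    ring

lemma M_add (s : I → ℂ) (z w : Co I J → ℂ) : g.M s (z + w) = g.M s z + g.M s w := by
  funext i
  rcases i with (v | v) | (v | v) <;> simp only [FamData.Iso.M, Pi.add_apply] <;> ring

/-- The coefficient of the quadratic form. -/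
def kc (s : I → ℂ) (v : I) : ℂ :=
  D.A (Sum.inl v) * D.tb (Sum.inl v) g.b * D.t (Sum.inl v) g.det / g.j s v

lemma Q_add (s : I → ℂ) (z w : Co I J → ℂ) : g.Q s (z + w) = g.Q s z + g.Q s w +
    ∑ v : I, kc g s v * (z (FamData.i1 v) * w (FamData.i2 v) +
      z (FamData.i2 v) * w (FamData.i1 v)) := by
  unfold FamData.Iso.Q kc
  rw [← Finset.sum_add_distrib, ← Finset.sum_add_distrib]
  refine Finset.sum_congr rfl fun v _ => ?_
  simp only [Pi.add_apply]
  ring

lemma Q_self (s : I → ℂ) (w : Co I J → ℂ) : ∑ v : I, kc g s v * (w (FamData.i1 v) *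
    w (FamData.i2 v) + w (FamData.i2 v) * w (FamData.i1 v)) = 2 * g.Q s w := by
  unfold FamData.Iso.Q kc
  rw [Finset.mul_sum]
  refine Finset.sum_congr rfl fun v _ => ?_
  ring

lemma abar_t (v : I) : D.tb (Sum.inl v) g.a * D.t (Sum.inl v) g.det = D.t (Sum.inl v) g.d := by
  have h := congrArg (D.t (Sum.inl v)) (abar g)
  rwa [map_mul, t_bar] at h

lemma bbar_t (v : I) : (D.b v : ℂ) * D.tb (Sum.inl v) g.b * D.t (Sum.inl v) g.det =
    D.t (Sum.inl v) g.c := by
  have h := congrArg (D.t (Sum.inl v)) (bbar g)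
  simp only [map_neg, map_mul, t_bar, xi_b] at h
  apply mul_left_cancel₀ (xi2_t_ne (D := D) v)
  linear_combination -h

lemma A_Bc (v : I) : D.A (Sum.inl v) = D.b v * D.Bc (Sum.inl v) := by
  unfold FamData.A FamData.Bc
  rw [xi_b]
  ring

lemma placeI {s : I → ℂ} (hs : s ∈ D.Dom) (x : E × E) (z1 z2 : ℂ) (v : I) :
    D.A (Sum.inl v) * D.tb (Sum.inl v) (g.a * x.1 + g.b * x.2) *
      (D.t (Sum.inl v) g.det / g.j s v * z1) +
    D.Bc (Sum.inl v) * D.t (Sum.inl v) (g.c * x.1 + g.d * x.2) * (1 / g.j s v * z2) =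
    D.A (Sum.inl v) * D.tb (Sum.inl v) x.1 * z1 + D.Bc (Sum.inl v) * D.t (Sum.inl v) x.2 * z2 +
      kc g s v * (z1 * (D.tb (Sum.inl v) x.2 - D.b v * s v * D.tb (Sum.inl v) x.1) +
        z2 * (D.t (Sum.inl v) x.1 - s v * D.t (Sum.inl v) x.2)) := by
  have hj := j_ne g hs v
  have ha := abar_t g v
  have hb := bbar_t g v
  unfold kc
  rw [A_Bc]
  simp only [FamData.tb_add, tb_mul, map_add, map_mul]
  field_simp
  unfold FamData.Iso.j
  generalize D.tb (Sum.inl v) g.a = ab at *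
  generalize D.tb (Sum.inl v) g.b = bb at *
  generalize D.t (Sum.inl v) g.det = dt at *
  generalize D.t (Sum.inl v) g.c = c at *
  generalize D.t (Sum.inl v) g.d = d at *
  generalize D.tb (Sum.inl v) x.1 = X1 at *
  generalize D.tb (Sum.inl v) x.2 = X2 at *
  generalize D.t (Sum.inl v) x.1 = x1 at *
  generalize D.t (Sum.inl v) x.2 = x2 at *
  generalize (D.b v : ℂ) = β at *
  generalize D.Bc (Sum.inl v) = Bc at *
  subst ha hb
  ring

lemma placeJ (x : E × E) (z1 z2 : ℂ) (v : J) :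
    D.A (Sum.inr v) * D.tb (Sum.inr v) (g.a * x.1 + g.b * x.2) *
      (D.t (Sum.inr v) g.a * z1 + D.t (Sum.inr v) g.b * z2) +
    D.Bc (Sum.inr v) * D.tb (Sum.inr v) (g.c * x.1 + g.d * x.2) *
      (D.t (Sum.inr v) g.c * z1 + D.t (Sum.inr v) g.d * z2) =
    D.A (Sum.inr v) * D.tb (Sum.inr v) x.1 * z1 +
      D.Bc (Sum.inr v) * D.tb (Sum.inr v) x.2 * z2 := by
  have h1 := congrArg (D.t (Sum.inr v)) g.h1
  have h2 := congrArg (D.t (Sum.inr v)) g.h2
  have h2b := congrArg (D.t (Sum.inr v)) (h2' g)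
  have h3 := congrArg (D.t (Sum.inr v)) g.h3
  simp only [map_add, map_mul, t_bar, map_zero] at h1 h2 h2b h3
  unfold FamData.A FamData.Bc
  simp only [FamData.tb_add, tb_mul]
  linear_combination -(2 * Real.pi * Complex.I) * (D.tb (Sum.inr v) x.1 * z1 * h1 +
    D.tb (Sum.inr v) x.2 * z1 * h2 + D.tb (Sum.inr v) x.1 * z2 * h2b +
    D.tb (Sum.inr v) x.2 * z2 * h3)

lemma L_app {s : I → ℂ} (hs : s ∈ D.Dom) (x : E × E) (z : Co I J → ℂ) :
    dotp (D.L (g.app x)) (g.M s z) = dotp (D.L x) z + ∑ v : I, kc g s v *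
      (z (FamData.i1 v) * D.zeta s x (FamData.i2 v) +
        z (FamData.i2 v) * D.zeta s x (FamData.i1 v)) := by
  have hI := Finset.sum_congr (s₁ := Finset.univ) rfl fun (v : I) _ =>
    placeI g hs x (z (FamData.i1 v)) (z (FamData.i2 v)) v
  have hJ := Finset.sum_congr (s₁ := Finset.univ) rfl fun (v : J) _ =>
    placeJ g x (z (FamData.j1 v)) (z (FamData.j2 v)) v
  rw [Finset.sum_add_distrib, Finset.sum_add_distrib, Finset.sum_add_distrib] at hI
  rw [Finset.sum_add_distrib, Finset.sum_add_distrib] at hJ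
  simp only [dotp, Fintype.sum_sum_type]
  show (∑ v : I, D.A (Sum.inl v) * D.tb (Sum.inl v) (g.a * x.1 + g.b * x.2) *
      (D.t (Sum.inl v) g.det / g.j s v * z (FamData.i1 v)) +
    ∑ v : J, D.A (Sum.inr v) * D.tb (Sum.inr v) (g.a * x.1 + g.b * x.2) *
      (D.t (Sum.inr v) g.a * z (FamData.j1 v) + D.t (Sum.inr v) g.b * z (FamData.j2 v))) +
    (∑ v : I, D.Bc (Sum.inl v) * D.t (Sum.inl v) (g.c * x.1 + g.d * x.2) *
      (1 / g.j s v * z (FamData.i2 v)) +
    ∑ v : J, D.Bc (Sum.inr v) * D.tb (Sum.inr v) (g.c * x.1 + g.d * x.2) *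
      (D.t (Sum.inr v) g.c * z (FamData.j1 v) + D.t (Sum.inr v) g.d * z (FamData.j2 v))) =
    (∑ v : I, D.A (Sum.inl v) * D.tb (Sum.inl v) x.1 * z (FamData.i1 v) +
      ∑ v : J, D.A (Sum.inr v) * D.tb (Sum.inr v) x.1 * z (FamData.j1 v)) +
    (∑ v : I, D.Bc (Sum.inl v) * D.t (Sum.inl v) x.2 * z (FamData.i2 v) +
      ∑ v : J, D.Bc (Sum.inr v) * D.tb (Sum.inr v) x.2 * z (FamData.j2 v)) +
    ∑ v : I, kc g s v * (z (FamData.i1 v) * (D.tb (Sum.inl v) x.2 -
      D.b v * s v * D.tb (Sum.inl v) x.1) + z (FamData.i2 v) *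
        (D.t (Sum.inl v) x.1 - s v * D.t (Sum.inl v) x.2))
  linear_combination hI + hJ

end

end ISO_

open ISO_ in
theorem iso_proof : Stmt_ISO := by
  intro E _ _ I J _ _ _ _ D g
  refine ⟨det_bar g, ?_, surj g, ?_⟩
  · intro x y
    show Algebra.trace ℚ E (D.psi (g.app x) (g.app y)) = Algebra.trace ℚ E (D.psi x y)
    rw [psi_app]
  · intro s hs
    refine ⟨j_ne g hs, act_mem g hs, zeta_app g hs, M_surj g hs, ?_⟩
    intro F x z
    unfold TT
    rw [zeta_app g hs, ← M_add, ← mul_assoc, ← mul_assoc, ← Complex.exp_add, ← Complex.exp_add]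
    congr 2
    have h1 := L_app g hs x z
    have h2 := L_app g hs x (D.zeta s x)
    rw [Q_self] at h2
    have h3 := Q_add g s z (D.zeta s x)
    rw [h1, h2, h3]
    ring

end Pool.Agent.SPF
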