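import Pool.Agent.SPF.Kit

set_option linter.unusedSectionVars false

/-! # SPR core, module NOZ: no common zeros -/

open scoped BigOperators
open Complex

namespace Pool.Agent.SPF

noncomputable section

namespace NOZ_

/-! ### the lattice -/

section lattice

variable {V : Type} [AddCommGroup V] [Module ℚ V] {ι : Type} [Fintype ι] [DecidableEq ι]
variable (B : Module.Basis (ι ⊕ ι) ℚ V)

theorem lat_repr (x : V) (hx : x ∈ lat B) : ∀ i, ∃ n : ℤ, B.repr x i = n := by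
  unfold lat at hx
  induction hx using AddSubgroup.closure_induction with
  | mem x hx =>
    obtain ⟨j, rfl⟩ := hx
    intro i
    rw [B.repr_self, Finsupp.single_apply]
    split_ifs
    · exact ⟨1, by simp⟩
    · exact ⟨0, by simp⟩
  | zero =>
    intro i
    exact ⟨0, by simp⟩
  | add x y _ _ hx hy =>
    intro i
    obtain ⟨n, hn⟩ := hx i
    obtain ⟨m, hm⟩ := hy i
    exact ⟨n + m, by rw [map_add, Finsupp.add_apply, hn, hm]; push_cast; ring⟩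
  | neg x _ hx =>
    intro i
    obtain ⟨n, hn⟩ := hx i
    exact ⟨-n, by rw [map_neg, Finsupp.neg_apply, hn]; push_cast; ring⟩

theorem sum_mem_lat (n : ι ⊕ ι → ℤ) : ∑ i, ((n i : ℤ) : ℚ) • B i ∈ lat B := by
  refine AddSubgroup.sum_mem _ fun i _ => ?_
  rw [Int.cast_smul_eq_zsmul]
  have h : B i ∈ lat B := AddSubgroup.subset_closure (Set.mem_range_self i)
  exact AddSubgroup.zsmul_mem _ h _

theorem nat_smul_mem {x : V} (hx : x ∈ lat B) (t : ℕ) : (t : ℚ) • x ∈ lat B := by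
  rw [Nat.cast_smul_eq_nsmul]
  exact AddSubgroup.nsmul_mem _ hx t

theorem exists_denom (x : V) : ∃ d : ℕ, 0 < d ∧ (d : ℚ) • x ∈ lat B := by
  refine ⟨∏ i, (B.repr x i).den, Finset.prod_pos fun i _ => (B.repr x i).den_pos, ?_⟩
  set d := ∏ i, (B.repr x i).den with hd
  have h1 : ∀ i, ∃ n : ℤ, (d : ℚ) * B.repr x i = n := by
    intro i
    obtain ⟨t, ht⟩ : (B.repr x i).den ∣ d := Finset.dvd_prod_of_mem _ (Finset.mem_univ i)
    refine ⟨t * (B.repr x i).num, ?_⟩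
    have h2 := Rat.mul_den_eq_num (B.repr x i)
    rw [ht]
    push_cast
    rw [← h2]
    ring
  choose n hn using h1
  have h3 : (d : ℚ) • x = ∑ i, ((n i : ℤ) : ℚ) • B i := by
    conv_lhs => rw [← B.sum_repr x]
    rw [Finset.smul_sum]
    refine Finset.sum_congr rfl fun i _ => ?_
    rw [smul_smul, hn]
  rw [h3]
  exact sum_mem_lat B n

theorem exists_common (X : Finset V) : ∃ d : ℕ, 0 < d ∧ ∀ x ∈ X, (d : ℚ) • x ∈ lat B := by
  classical
  induction X using Finset.induction_on with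
  | empty => exact ⟨1, one_pos, by simp⟩
  | insert a X _ ih =>
    obtain ⟨d, hd, h⟩ := ih
    obtain ⟨d', hd', h'⟩ := exists_denom B a
    refine ⟨d * d', Nat.mul_pos hd hd', fun x hx => ?_⟩
    rcases Finset.mem_insert.1 hx with rfl | hx
    · have := nat_smul_mem B h' d
      rw [smul_smul] at this
      push_cast
      exact this
    · have := nat_smul_mem B (h x hx) d'
      rw [smul_smul] at this
      push_cast
      rw [mul_comm]
      exact this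

/-- reduction modulo the lattice -/
theorem exists_red (m : ℕ) (hm : 0 < m) (x : V) (hx : (m : ℚ) • x ∈ lat B) :
    ∃ k : ι ⊕ ι → ℕ, (∀ i, k i < m) ∧ ∃ l ∈ lat B, ∑ i, ((k i : ℚ) / m) • B i = x + l := by
  have hm0 : (m : ℚ) ≠ 0 := by exact_mod_cast hm.ne'
  have hmz : (m : ℤ) ≠ 0 := by exact_mod_cast hm.ne'
  choose n hn using lat_repr B _ hx
  have h1 : ∀ i, B.repr x i = (n i : ℚ) / m := by
    intro i
    have h2 := hn i
    rw [map_smul, Finsupp.smul_apply, smul_eq_mul] at h2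
    rw [← h2]
    field_simp
  have hmod : ∀ i, ∃ k : ℕ, k < m ∧ ((k : ℤ)) = n i % m := by
    intro i
    have h2 : 0 ≤ n i % m := Int.emod_nonneg _ hmz
    have h3 : n i % m < m := Int.emod_lt_of_pos _ (by exact_mod_cast hm)
    refine ⟨(n i % m).toNat, ?_, Int.toNat_of_nonneg h2⟩
    have h4 : ((n i % m).toNat : ℤ) < m := by rw [Int.toNat_of_nonneg h2]; exact h3
    exact_mod_cast h4
  choose k hk hkn using hmod
  refine ⟨k, hk, ∑ i, ((-(n i / m) : ℤ) : ℚ) • B i, sum_mem_lat B _, ?_⟩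
  have h5 : x = ∑ i, ((n i : ℚ) / m) • B i := by
    conv_lhs => rw [← B.sum_repr x]
    exact Finset.sum_congr rfl fun i _ => by rw [h1]
  conv_rhs => rw [h5]
  rw [← Finset.sum_add_distrib]
  refine Finset.sum_congr rfl fun i _ => ?_
  rw [← add_smul]
  congr 1
  have h6 : (k i : ℚ) = (n i : ℚ) - m * ((n i / m : ℤ) : ℚ) := by
    have h7 : ((k i : ℕ) : ℤ) = n i - m * (n i / m) := by
      rw [hkn]
      exact Int.emod_def _ _
    exact_mod_cast h7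
  rw [h6]
  push_cast
  field_simp
  ring

end lattice

/-! ### translations by lattice vectors -/

section trans

variable {V : Type} [AddCommGroup V] [Module ℚ V] {ι : Type} [Fintype ι] [DecidableEq ι]
variable {e : V →ₗ[ℚ] V →ₗ[ℚ] ℚ} {B : Module.Basis (ι ⊕ ι) ℚ V} {ζ L : V →ₗ[ℚ] (ι → ℂ)}

theorem TT_mul_const (x : V) (a : ℂ) (F : (ι → ℂ) → ℂ) :
    TT ζ L x (fun z => a * F z) = fun z => a * TT ζ L x F z := by
  funext z
  exact TT_smul x a F z

theorem TT_add_of (h : IsPStr e B ζ L) {F : (ι → ℂ) → ℂ} {l : V}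
    (hl : ∃ c : ℂ, c ≠ 0 ∧ TT ζ L l F = fun z => c * F z) (x : V) :
    ∃ c : ℂ, c ≠ 0 ∧ TT ζ L (x + l) F = fun z => c * TT ζ L x F z := by
  obtain ⟨c, hc, h1⟩ := hl
  refine ⟨c * (cexp (Real.pi * I * (e x l : ℚ)))⁻¹,
    mul_ne_zero hc (inv_ne_zero (Complex.exp_ne_zero _)), ?_⟩
  funext z
  have h2 := TT_TT h x l F z
  rw [h1, TT_mul_const] at h2
  simp only at h2
  have h3 := Complex.exp_ne_zero (Real.pi * I * (e x l : ℚ))
  field_simp
  rw [mul_comm (TT ζ L (x + l) F z)]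
  exact h2.symm

theorem TT_lat (h : IsPStr e B ζ L) {F : (ι → ℂ) → ℂ} (hF : IsTh ζ L B F) (l : V)
    (hl : l ∈ lat B) : ∃ c : ℂ, c ≠ 0 ∧ TT ζ L l F = fun z => c * F z := by
  unfold lat at hl
  induction hl using AddSubgroup.closure_induction with
  | mem x hx =>
    obtain ⟨j, rfl⟩ := hx
    exact ⟨1, one_ne_zero, by rw [hF.per j]; simp⟩
  | zero => exact ⟨1, one_ne_zero, by rw [TT_zero]; simp⟩
  | add x y _ _ hx hy =>
    obtain ⟨c, hc, h1⟩ := TT_add_of h hy x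
    obtain ⟨c', hc', h2⟩ := hx
    refine ⟨c * c', mul_ne_zero hc hc', ?_⟩
    rw [h1, h2]
    funext z
    ring
  | neg x _ hx =>
    obtain ⟨c, hc, h1⟩ := TT_add_of h hx (-x)
    rw [neg_add_cancel, TT_zero] at h1
    refine ⟨c⁻¹, inv_ne_zero hc, ?_⟩
    funext z
    have h2 := congrFun h1 z
    rw [h2]
    field_simp

theorem TT_add_lat (h : IsPStr e B ζ L) {F : (ι → ℂ) → ℂ} (hF : IsTh ζ L B F) (x l : V)
    (hl : l ∈ lat B) : ∃ c : ℂ, c ≠ 0 ∧ TT ζ L (x + l) F = fun z => c * TT ζ L x F z :=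
  TT_add_of h (TT_lat h hF l hl) x

end trans

/-! ### the family -/

section fam

variable {E : Type} [Field E] [NumberField E] {I J : Type} [Fintype I] [Fintype J]
  [DecidableEq I] [DecidableEq J] {D : FamData E I J}
  {B : Module.Basis (Co I J ⊕ Co I J) ℚ (E × E)} {Θ : (I → ℂ) → (Co I J → ℂ) → ℂ}

/-- the condition for a set of points -/
def Good (D : FamData E I J) (Θ : (I → ℂ) → (Co I J → ℂ) → ℂ) (X : Set (E × E)) (s : I → ℂ) :
    Prop :=
  (∃ x ∈ X, D.W Θ x s ≠ 0) ∧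
  (∀ v : I, (∃ x ∈ X, D.G Θ (FamData.i1 v) x s ≠ 0) ∧ ∃ x ∈ X, D.G Θ (FamData.i2 v) x s ≠ 0) ∧
  ∀ v : J, ∃ x ∈ X, ∃ y ∈ X, D.Mi Θ v x y s ≠ 0

theorem Good.mono {X Y : Set (E × E)} {s : I → ℂ} (h : Good D Θ X s) (hXY : X ⊆ Y) :
    Good D Θ Y s := by
  refine ⟨?_, fun v => ⟨?_, ?_⟩, fun v => ?_⟩
  · obtain ⟨x, hx, h1⟩ := h.1
    exact ⟨x, hXY hx, h1⟩
  · obtain ⟨x, hx, h1⟩ := (h.2.1 v).1
    exact ⟨x, hXY hx, h1⟩
  · obtain ⟨x, hx, h1⟩ := (h.2.1 v).2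
    exact ⟨x, hXY hx, h1⟩
  · obtain ⟨x, hx, y, hy, h1⟩ := h.2.2 v
    exact ⟨x, hXY hx, y, hXY hy, h1⟩

theorem sum_single (i : Co I J) (f : Co I J → ℂ) :
    ∑ j, (Pi.single (M := fun _ => ℂ) i 1) j * f j = f i := by
  simp [Pi.single_apply]

theorem good_univ (hSEP : Stmt_SEP1) (hPOS : Stmt_POSF) (hB : SympBasis D.e B)
    (hΘ : D.ThFam B Θ) (s : I → ℂ) (hs : s ∈ D.Dom) : Good D Θ Set.univ s := by
  have hP := hPOS E I J D B hB s hs
  obtain ⟨h1, h2⟩ := hSEP (E × E) (Co I J) D.e B (D.zeta s) D.L hB hP (Θ s) (hΘ.th s hs)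
    (hΘ.nz s hs)
  have h3 : ∀ i : Co I J, ∃ x, D.G Θ i x s ≠ 0 := by
    intro i
    obtain ⟨x, hx⟩ := h2 (Pi.single i 1) (by
      intro h
      have := congrFun h i
      simp at this) 0
    rw [sum_single, zero_mul] at hx
    exact ⟨x, hx⟩
  refine ⟨?_, fun v => ⟨?_, ?_⟩, fun v => ?_⟩
  · obtain ⟨x, hx⟩ := h1
    exact ⟨x, Set.mem_univ _, hx⟩
  · obtain ⟨x, hx⟩ := h3 (FamData.i1 v)
    exact ⟨x, Set.mem_univ _, hx⟩
  · obtain ⟨x, hx⟩ := h3 (FamData.i2 v)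
    exact ⟨x, Set.mem_univ _, hx⟩
  · obtain ⟨x, hx⟩ := h3 (FamData.j1 v)
    set p := D.G Θ (FamData.j1 v) x s with hp
    set q := D.G Θ (FamData.j2 v) x s with hq
    obtain ⟨y, hy⟩ := h2 (fun j => p * (Pi.single (M := fun _ => ℂ) (FamData.j2 v) 1) j -
        q * (Pi.single (M := fun _ => ℂ) (FamData.j1 v) 1) j) (by
      intro h
      have := congrFun h (FamData.j2 v)
      simp at this
      exact hx this) 0
    refine ⟨x, Set.mem_univ _, y, Set.mem_univ _, ?_⟩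
    have h4 : ∑ i, (p * (Pi.single (M := fun _ => ℂ) (FamData.j2 v) 1) i -
        q * (Pi.single (M := fun _ => ℂ) (FamData.j1 v) 1) i) *
          pd i (TT (D.zeta s) D.L y (Θ s)) 0 = D.Mi Θ v x y s := by
      have h5 : ∀ i, (p * (Pi.single (M := fun _ => ℂ) (FamData.j2 v) 1) i -
          q * (Pi.single (M := fun _ => ℂ) (FamData.j1 v) 1) i) *
            pd i (TT (D.zeta s) D.L y (Θ s)) 0 =
          p * ((Pi.single (M := fun _ => ℂ) (FamData.j2 v) 1) i *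
            pd i (TT (D.zeta s) D.L y (Θ s)) 0) -
          q * ((Pi.single (M := fun _ => ℂ) (FamData.j1 v) 1) i *
            pd i (TT (D.zeta s) D.L y (Θ s)) 0) := fun i => by ring
      rw [Finset.sum_congr rfl fun i _ => h5 i, Finset.sum_sub_distrib, ← Finset.mul_sum,
        ← Finset.mul_sum, sum_single, sum_single]
      rfl
    rw [h4, zero_mul] at hy
    exact hy

theorem good_finite {X : Set (E × E)} {s : I → ℂ} (h : Good D Θ X s) :
    ∃ Y : Finset (E × E), Good D Θ (Y : Set (E × E)) s := by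
  classical
  obtain ⟨x, -, hx⟩ := h.1
  have h1 : ∀ v : I, ∃ x, D.G Θ (FamData.i1 v) x s ≠ 0 := fun v => by
    obtain ⟨x, -, hx⟩ := (h.2.1 v).1
    exact ⟨x, hx⟩
  have h2 : ∀ v : I, ∃ x, D.G Θ (FamData.i2 v) x s ≠ 0 := fun v => by
    obtain ⟨x, -, hx⟩ := (h.2.1 v).2
    exact ⟨x, hx⟩
  have h3 : ∀ v : J, ∃ x y, D.Mi Θ v x y s ≠ 0 := fun v => by
    obtain ⟨x, -, y, -, hx⟩ := h.2.2 v
    exact ⟨x, y, hx⟩
  choose x1 hx1 using h1
  choose x2 hx2 using h2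
  choose x3 y3 hx3 using h3
  refine ⟨{x} ∪ Finset.univ.image x1 ∪ Finset.univ.image x2 ∪ Finset.univ.image x3 ∪
    Finset.univ.image y3, ⟨x, by simp, hx⟩, fun v => ⟨⟨x1 v, by simp, hx1 v⟩,
    ⟨x2 v, by simp, hx2 v⟩⟩, fun v => ⟨x3 v, by simp, y3 v, by simp, hx3 v⟩⟩

theorem good_nhds (hHOLO : Stmt_HOLO) (hΘ : D.ThFam B Θ) {X : Set (E × E)} {s : I → ℂ}
    (hs : s ∈ D.Dom) (h : Good D Θ X s) : ∀ᶠ s' in nhds s, Good D Θ X s' := by
  have hD : D.Dom ∈ nhds s := D.isOpen_Dom.mem_nhds hs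
  have hW : ∀ x, ContinuousAt (D.W Θ x) s := fun x =>
    (((hHOLO E I J D B Θ hΘ x).1).differentiableAt hD).continuousAt
  have hG : ∀ i x, ContinuousAt (D.G Θ i x) s := fun i x =>
    (((hHOLO E I J D B Θ hΘ x).2 i).differentiableAt hD).continuousAt
  have hM : ∀ v x y, ContinuousAt (D.Mi Θ v x y) s := fun v x y =>
    ((hG _ x).mul (hG _ y)).sub ((hG _ x).mul (hG _ y))
  have e1 : ∀ᶠ s' in nhds s, ∃ x ∈ X, D.W Θ x s' ≠ 0 := by
    obtain ⟨x, hx, h1⟩ := h.1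
    filter_upwards [(hW x).eventually_ne h1] with s' h2
    exact ⟨x, hx, h2⟩
  have e2 : ∀ᶠ s' in nhds s, ∀ v : I, (∃ x ∈ X, D.G Θ (FamData.i1 v) x s' ≠ 0) ∧
      ∃ x ∈ X, D.G Θ (FamData.i2 v) x s' ≠ 0 := by
    rw [Filter.eventually_all]
    intro v
    obtain ⟨x, hx, h1⟩ := (h.2.1 v).1
    obtain ⟨y, hy, h2⟩ := (h.2.1 v).2
    filter_upwards [(hG _ x).eventually_ne h1, (hG _ y).eventually_ne h2] with s' h3 h4
    exact ⟨⟨x, hx, h3⟩, ⟨y, hy, h4⟩⟩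
  have e3 : ∀ᶠ s' in nhds s, ∀ v : J, ∃ x ∈ X, ∃ y ∈ X, D.Mi Θ v x y s' ≠ 0 := by
    rw [Filter.eventually_all]
    intro v
    obtain ⟨x, hx, y, hy, h1⟩ := h.2.2 v
    filter_upwards [(hM v x y).eventually_ne h1] with s' h3
    exact ⟨x, hx, y, hy, h3⟩
  filter_upwards [e1, e2, e3] with s' h1 h2 h3
  exact ⟨h1, h2, h3⟩

theorem good_compact (hSEP : Stmt_SEP1) (hPOS : Stmt_POSF) (hHOLO : Stmt_HOLO)
    (hB : SympBasis D.e B) (hΘ : D.ThFam B Θ) (K : Set (I → ℂ)) (hK : IsCompact K)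
    (hKD : K ⊆ D.Dom) : ∃ X : Finset (E × E), ∀ s ∈ K, Good D Θ (X : Set (E × E)) s := by
  classical
  refine hK.induction_on (p := fun A => ∃ X : Finset (E × E), ∀ s ∈ A,
    Good D Θ (X : Set (E × E)) s) ⟨∅, by simp⟩ ?_ ?_ ?_
  · rintro A A' hA ⟨X, hX⟩
    exact ⟨X, fun s hs => hX s (hA hs)⟩
  · rintro A A' ⟨X, hX⟩ ⟨X', hX'⟩
    refine ⟨X ∪ X', fun s hs => ?_⟩
    rcases hs with hs | hs
    · exact (hX s hs).mono (by simp)
    · exact (hX' s hs).mono (by simp)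
  · intro s hs
    obtain ⟨Y, hY⟩ := good_finite (good_univ hSEP hPOS hB hΘ s (hKD hs))
    refine ⟨{s' | Good D Θ (Y : Set (E × E)) s'},
      mem_nhdsWithin_of_mem_nhds (good_nhds hHOLO hΘ (hKD hs) hY), Y, fun s' hs' => hs'⟩

/-- passing to a set of representatives -/
theorem good_rep (hPOS : Stmt_POSF) (hB : SympBasis D.e B) (hΘ : D.ThFam B Θ) {s : I → ℂ}
    (hs : s ∈ D.Dom) {X Y : Set (E × E)} (h : Good D Θ X s)
    (hXY : ∀ x ∈ X, ∃ y ∈ Y, ∃ l ∈ lat B, y = x + l) : Good D Θ Y s := by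
  have hP := hPOS E I J D B hB s hs
  have key : ∀ x ∈ X, ∃ y ∈ Y, ∃ c : ℂ, c ≠ 0 ∧ D.W Θ y s = c * D.W Θ x s ∧
      ∀ i, D.G Θ i y s = c * D.G Θ i x s := by
    intro x hx
    obtain ⟨y, hy, l, hl, rfl⟩ := hXY x hx
    obtain ⟨c, hc, h1⟩ := TT_add_lat hP (hΘ.th s hs) x l hl
    refine ⟨x + l, hy, c, hc, ?_, fun i => ?_⟩
    · unfold FamData.W
      rw [h1]
    · unfold FamData.G
      rw [h1]
      unfold pd
      have h2 := (TT_differentiable (ζ := D.zeta s) (L := D.L) x (hΘ.th s hs).entire) 0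
      have h3 : fderiv ℂ (fun z => c * TT (D.zeta s) D.L x (Θ s) z) 0 =
          c • fderiv ℂ (TT (D.zeta s) D.L x (Θ s)) 0 := fderiv_const_mul h2 c
      rw [h3]
      rfl
  refine ⟨?_, fun v => ⟨?_, ?_⟩, fun v => ?_⟩
  · obtain ⟨x, hx, h1⟩ := h.1
    obtain ⟨y, hy, c, hc, h2, -⟩ := key x hx
    exact ⟨y, hy, by rw [h2]; exact mul_ne_zero hc h1⟩
  · obtain ⟨x, hx, h1⟩ := (h.2.1 v).1
    obtain ⟨y, hy, c, hc, -, h2⟩ := key x hx
    exact ⟨y, hy, by rw [h2]; exact mul_ne_zero hc h1⟩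
  · obtain ⟨x, hx, h1⟩ := (h.2.1 v).2
    obtain ⟨y, hy, c, hc, -, h2⟩ := key x hx
    exact ⟨y, hy, by rw [h2]; exact mul_ne_zero hc h1⟩
  · obtain ⟨x, hx, x', hx', h1⟩ := h.2.2 v
    obtain ⟨y, hy, c, hc, -, h2⟩ := key x hx
    obtain ⟨y', hy', c', hc', -, h2'⟩ := key x' hx'
    refine ⟨y, hy, y', hy', ?_⟩
    have h3 : D.Mi Θ v y y' s = c * c' * D.Mi Θ v x x' s := by
      unfold FamData.Mi
      rw [h2, h2, h2', h2']
      ring
    rw [h3]
    exact mul_ne_zero (mul_ne_zero hc hc') h1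

/-- transport by an isometry -/
theorem good_inv (hINV : Stmt_INV0) (hISO : Stmt_ISO) (hB : SympBasis D.e B)
    (hΘ : D.ThFam B Θ) {s : I → ℂ} (hs : s ∈ D.Dom) (g : D.Iso) (hg : g ∈ D.Gam B 2)
    {X : Set (E × E)} (h : Good D Θ X (g.act s)) : Good D Θ {x | g.app x ∈ X} s := by
  obtain ⟨κ, hκ, hrel⟩ := hINV E I J D B Θ hB hΘ g hg s hs
  obtain ⟨-, -, hsurj, -⟩ := hISO E I J D g
  refine ⟨?_, fun v => ⟨?_, ?_⟩, fun v => ?_⟩
  · obtain ⟨x, hx, h1⟩ := h.1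
    obtain ⟨x', rfl⟩ := hsurj x
    refine ⟨x', hx, fun h2 => h1 ?_⟩
    rw [(hrel x' x').1, h2, mul_zero]
  · obtain ⟨x, hx, h1⟩ := (h.2.1 v).1
    obtain ⟨x', rfl⟩ := hsurj x
    refine ⟨x', hx, fun h2 => h1 ?_⟩
    rw [((hrel x' x').2.1 v).1, h2, mul_zero]
  · obtain ⟨x, hx, h1⟩ := (h.2.1 v).2
    obtain ⟨x', rfl⟩ := hsurj x
    refine ⟨x', hx, fun h2 => h1 ?_⟩
    rw [((hrel x' x').2.1 v).2, h2, mul_zero]
  · obtain ⟨x, hx, y, hy, h1⟩ := h.2.2 v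
    obtain ⟨x', rfl⟩ := hsurj x
    obtain ⟨y', rfl⟩ := hsurj y
    refine ⟨x', hx, y', hy, fun h2 => h1 ?_⟩
    rw [(hrel x' y').2.2 v, h2, mul_zero]

theorem app_smul (g : D.Iso) (r : ℚ) (x : E × E) : g.app (r • x) = r • g.app x := by
  unfold FamData.Iso.app
  ext
  · simp only [Prod.smul_fst, Prod.smul_snd, smul_add, mul_smul_comm]
  · simp only [Prod.smul_fst, Prod.smul_snd, smul_add, mul_smul_comm]

theorem app_injective (hISO : Stmt_ISO) (g : D.Iso) {x y : E × E} (h : g.app x = g.app y) :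
    x = y := by
  obtain ⟨hdet, -⟩ := hISO E I J D g
  have hd : g.det ≠ 0 := by
    intro h0
    rw [h0, zero_mul] at hdet
    exact zero_ne_one hdet
  unfold FamData.Iso.app at h
  have h1 := congrArg Prod.fst h
  have h2 := congrArg Prod.snd h
  simp only at h1 h2
  have h3 : g.det * x.1 = g.det * y.1 := by
    unfold FamData.Iso.det
    linear_combination g.d * h1 - g.b * h2
  have h4 : g.det * x.2 = g.det * y.2 := by
    unfold FamData.Iso.det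
    linear_combination g.a * h2 - g.c * h1
  exact Prod.ext (mul_left_cancel₀ hd h3) (mul_left_cancel₀ hd h4)

end fam

end NOZ_

open NOZ_ in
theorem noz_proof (hCPT : Stmt_CPT) (hINV : Stmt_INV0) (hSEP : Stmt_SEP1) (hHOLO : Stmt_HOLO)
    (hPOS : Stmt_POSF) (hISO : Stmt_ISO) : Stmt_NOZ := by
  intro E _ _ I J _ _ _ _ _ D B Θ hB hΘ
  obtain ⟨K, hK, hKD, hKr⟩ := hCPT E I J D B hB 2 (by norm_num)
  obtain ⟨X, hX⟩ := good_compact hSEP hPOS hHOLO hB hΘ K hK hKD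
  obtain ⟨m₀, hm₀, hden⟩ := exists_common B X
  refine ⟨m₀, hm₀, fun m hm hdvd s hs => ?_⟩
  obtain ⟨g, hg, hgK⟩ := hKr s hs
  have h1 := good_inv hINV hISO hB hΘ hs g hg (hX _ hgK)
  have h2 : Good D Θ (FamData.Rm B m) s := by
    refine good_rep hPOS hB hΘ hs h1 ?_
    intro x hx
    have h3 : (m : ℚ) • g.app x ∈ lat B := by
      obtain ⟨t, rfl⟩ := hdvd
      have := nat_smul_mem B (hden _ hx) t
      rw [smul_smul] at this
      push_cast
      rw [mul_comm]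
      exact this
    obtain ⟨y, hy, h4⟩ := hg.2.2.1 _ h3
    rw [← app_smul] at h4
    have h5 := app_injective hISO g h4
    rw [h5] at hy
    obtain ⟨k, hk, l, hl, h6⟩ := exists_red B m hm x hy
    exact ⟨_, ⟨k, hk, rfl⟩, l, hl, h6⟩
  exact h2

end

end Pool.Agent.SPF
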