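import Pool.Agent.SPF.Kit

set_option linter.unusedSectionVars false

/-!
# SPF module POSF: positivity of the family
-/

open scoped BigOperators
open Complex

namespace Pool.Agent.SPF

noncomputable section

namespace POSF_

variable {E : Type} [Field E] [NumberField E] {I J : Type} [Fintype I] [Fintype J]
  [DecidableEq I] [DecidableEq J] (D : FamData E I J)

theorem xi1_conj (v : I ⊕ J) : (starRingEnd ℂ) (D.t v D.ξ₁) = -D.t v D.ξ₁ := by
  rw [← D.bar_spec, D.ξ₁_bar, map_neg]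

theorem xi2_conj (v : I ⊕ J) : (starRingEnd ℂ) (D.t v D.ξ₂) = -D.t v D.ξ₂ := by
  rw [← D.bar_spec, D.ξ₂_bar, map_neg]

theorem im_of_conj {z : ℂ} (h : (starRingEnd ℂ) z = -z) : z = Complex.I * (z.im : ℂ) := by
  have h1 := congrArg Complex.re h
  rw [Complex.conj_re, Complex.neg_re] at h1
  have h2 : z.re = 0 := by linarith
  apply Complex.ext <;> simp [h2]

/-- the embeddings, indexed by the places -/
def emb : (I ⊕ J) ⊕ (I ⊕ J) → (E →ₐ[ℚ] ℂ) :=
  Sum.elim (fun v => (D.t v).toRatAlgHom) (fun v => ((starRingEnd ℂ).comp (D.t v)).toRatAlgHom)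

theorem emb_inl (v : I ⊕ J) (x : E) : emb D (Sum.inl v) x = D.t v x := rfl

theorem emb_inr (v : I ⊕ J) (x : E) : emb D (Sum.inr v) x = D.tb v x := rfl

theorem emb_bij : Function.Bijective (emb D) := by
  constructor
  · intro a b hab
    rcases a with v | v <;> rcases b with w | w
    · congr 1
      apply D.t_inj
      ext x
      rw [← emb_inl, ← emb_inl, hab]
    · exfalso
      apply D.t_conj v w
      ext x
      rw [← emb_inl, hab, emb_inr]
      rfl
    · exfalso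
      apply D.t_conj w v
      ext x
      rw [← emb_inl, ← hab, emb_inr]
      rfl
    · congr 1
      apply D.t_inj
      ext x
      have h1 : D.tb v x = D.tb w x := by rw [← emb_inr, ← emb_inr, hab]
      unfold FamData.tb at h1
      exact (starRingEnd ℂ).injective h1
  · intro φ
    obtain ⟨v, hv | hv⟩ := D.t_surj (φ : E →+* ℂ)
    · refine ⟨Sum.inl v, ?_⟩
      ext x
      rw [emb_inl, ← hv]
      rfl
    · refine ⟨Sum.inr v, ?_⟩
      ext x
      have h1 := congrArg (fun f : E →+* ℂ => f x) hv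
      rw [emb_inr]
      exact h1.symm

theorem trace_formula (x : E) :
    ((Algebra.trace ℚ E x : ℚ) : ℂ) = ∑ v, (D.t v x + D.tb v x) := by
  have h := trace_eq_sum_embeddings (K := ℚ) (L := E) ℂ (x := x)
  rw [eq_ratCast] at h
  rw [h, ← Fintype.sum_bijective (emb D) (emb_bij D) (fun i => emb D i x) (fun σ => σ x)
    (fun _ => rfl), Fintype.sum_sum_type, Finset.sum_add_distrib]
  rfl

theorem e_formula (x y : E × E) : ((D.e x y : ℚ) : ℂ) =
    ∑ v, (D.t v D.ξ₁ * (D.t v x.1 * D.tb v y.1 - D.tb v x.1 * D.t v y.1) +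
      D.t v D.ξ₂ * (D.t v x.2 * D.tb v y.2 - D.tb v x.2 * D.t v y.2)) := by
  have h : D.e x y = Algebra.trace ℚ E (D.psi x y) := rfl
  rw [h, trace_formula D]
  apply Finset.sum_congr rfl
  intro v _
  unfold FamData.tb FamData.psi
  simp only [map_add, map_mul, D.bar_spec, xi1_conj D v, xi2_conj D v, Complex.conj_conj]
  ring

theorem dot_eq (s : I → ℂ) (x y : E × E) : dotp (D.L x) (D.zeta s y) =
    (∑ v : I, (D.A (Sum.inl v) * D.tb (Sum.inl v) x.1 *
        (D.t (Sum.inl v) y.1 - s v * D.t (Sum.inl v) y.2) +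
      D.Bc (Sum.inl v) * D.t (Sum.inl v) x.2 *
        (D.tb (Sum.inl v) y.2 - D.b v * s v * D.tb (Sum.inl v) y.1))) +
    ∑ v : J, (D.A (Sum.inr v) * D.tb (Sum.inr v) x.1 * D.t (Sum.inr v) y.1 +
      D.Bc (Sum.inr v) * D.tb (Sum.inr v) x.2 * D.t (Sum.inr v) y.2) := by
  unfold dotp
  rw [Fintype.sum_sum_type, Fintype.sum_sum_type, Fintype.sum_sum_type, Finset.sum_add_distrib,
    Finset.sum_add_distrib]
  change (∑ v : I, D.A (Sum.inl v) * D.tb (Sum.inl v) x.1 *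
        (D.t (Sum.inl v) y.1 - s v * D.t (Sum.inl v) y.2) +
      ∑ v : J, D.A (Sum.inr v) * D.tb (Sum.inr v) x.1 * D.t (Sum.inr v) y.1) +
    (∑ v : I, D.Bc (Sum.inl v) * D.t (Sum.inl v) x.2 *
        (D.tb (Sum.inl v) y.2 - D.b v * s v * D.tb (Sum.inl v) y.1) +
      ∑ v : J, D.Bc (Sum.inr v) * D.tb (Sum.inr v) x.2 * D.t (Sum.inr v) y.2) = _
  ring

/-- real forms of the constants -/
def ar (v : I ⊕ J) : ℝ := 2 * Real.pi * (D.t v D.ξ₁).im

/-- real forms of the constants -/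
def br : I ⊕ J → ℝ
  | Sum.inl v => -(2 * Real.pi * (D.t (Sum.inl v) D.ξ₂).im)
  | Sum.inr v => 2 * Real.pi * (D.t (Sum.inr v) D.ξ₂).im

theorem ar_pos (v : I ⊕ J) : 0 < ar D v := by
  have := D.pos1 v
  have := Real.pi_pos
  unfold ar
  positivity

theorem br_pos (v : I ⊕ J) : 0 < br D v := by
  have hpi := Real.pi_pos
  rcases v with v | v
  · have := D.posI v
    unfold br
    nlinarith
  · have := D.posJ v
    unfold br
    positivity

theorem A_eq (v : I ⊕ J) : D.A v = (ar D v : ℂ) := by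
  unfold FamData.A ar
  conv_lhs => rw [im_of_conj (xi1_conj D v)]
  push_cast
  linear_combination (-2 * Real.pi * ((D.t v D.ξ₁).im : ℂ)) * Complex.I_mul_I

theorem Bc_eq (v : I ⊕ J) : D.Bc v = (br D v : ℂ) := by
  rcases v with v | v
  · unfold FamData.Bc br
    simp only
    conv_lhs => rw [im_of_conj (xi2_conj D (Sum.inl v))]
    push_cast
    linear_combination (2 * Real.pi * ((D.t (Sum.inl v) D.ξ₂).im : ℂ)) * Complex.I_mul_I
  · unfold FamData.Bc br
    simp only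
    conv_lhs => rw [im_of_conj (xi2_conj D (Sum.inr v))]
    push_cast
    linear_combination (-2 * Real.pi * ((D.t (Sum.inr v) D.ξ₂).im : ℂ)) * Complex.I_mul_I

theorem b_mul_br (v : I) : D.b v * br D (Sum.inl v) = ar D (Sum.inl v) := by
  have hne := (D.posI v).ne
  unfold FamData.b br ar
  field_simp

theorem A_eq_b_mul (v : I) : D.A (Sum.inl v) = D.b v * D.Bc (Sum.inl v) := by
  rw [A_eq, Bc_eq, ← b_mul_br]
  push_cast
  ring

theorem rel_aux (s : I → ℂ) (x y : E × E) :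
    dotp (D.L x) (D.zeta s y) - dotp (D.L y) (D.zeta s x) =
      2 * Real.pi * Complex.I * (D.e x y : ℚ) := by
  rw [dot_eq, dot_eq, e_formula, Fintype.sum_sum_type]
  have h1 : (∑ v : I, (D.A (Sum.inl v) * D.tb (Sum.inl v) x.1 *
        (D.t (Sum.inl v) y.1 - s v * D.t (Sum.inl v) y.2) +
      D.Bc (Sum.inl v) * D.t (Sum.inl v) x.2 *
        (D.tb (Sum.inl v) y.2 - D.b v * s v * D.tb (Sum.inl v) y.1))) -
      (∑ v : I, (D.A (Sum.inl v) * D.tb (Sum.inl v) y.1 *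
        (D.t (Sum.inl v) x.1 - s v * D.t (Sum.inl v) x.2) +
      D.Bc (Sum.inl v) * D.t (Sum.inl v) y.2 *
        (D.tb (Sum.inl v) x.2 - D.b v * s v * D.tb (Sum.inl v) x.1))) =
      2 * Real.pi * Complex.I * ∑ v : I, (D.t (Sum.inl v) D.ξ₁ *
        (D.t (Sum.inl v) x.1 * D.tb (Sum.inl v) y.1 - D.tb (Sum.inl v) x.1 * D.t (Sum.inl v) y.1) +
      D.t (Sum.inl v) D.ξ₂ * (D.t (Sum.inl v) x.2 * D.tb (Sum.inl v) y.2 -
        D.tb (Sum.inl v) x.2 * D.t (Sum.inl v) y.2)) := by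
    rw [← Finset.sum_sub_distrib, Finset.mul_sum]
    apply Finset.sum_congr rfl
    intro v _
    have hA := A_eq_b_mul D v
    have hA' : D.A (Sum.inl v) = -(2 * Real.pi * Complex.I * D.t (Sum.inl v) D.ξ₁) := rfl
    have hB' : D.Bc (Sum.inl v) = 2 * Real.pi * Complex.I * D.t (Sum.inl v) D.ξ₂ := rfl
    linear_combination (s v * (D.t (Sum.inl v) x.2 * D.tb (Sum.inl v) y.1 -
        D.tb (Sum.inl v) x.1 * D.t (Sum.inl v) y.2)) * hA +
      (D.tb (Sum.inl v) x.1 * D.t (Sum.inl v) y.1 -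
        D.t (Sum.inl v) x.1 * D.tb (Sum.inl v) y.1) * hA' +
      (D.t (Sum.inl v) x.2 * D.tb (Sum.inl v) y.2 -
        D.tb (Sum.inl v) x.2 * D.t (Sum.inl v) y.2) * hB'
  have h2 : (∑ v : J, (D.A (Sum.inr v) * D.tb (Sum.inr v) x.1 * D.t (Sum.inr v) y.1 +
      D.Bc (Sum.inr v) * D.tb (Sum.inr v) x.2 * D.t (Sum.inr v) y.2)) -
      (∑ v : J, (D.A (Sum.inr v) * D.tb (Sum.inr v) y.1 * D.t (Sum.inr v) x.1 +
      D.Bc (Sum.inr v) * D.tb (Sum.inr v) y.2 * D.t (Sum.inr v) x.2)) =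
      2 * Real.pi * Complex.I * ∑ v : J, (D.t (Sum.inr v) D.ξ₁ *
        (D.t (Sum.inr v) x.1 * D.tb (Sum.inr v) y.1 - D.tb (Sum.inr v) x.1 * D.t (Sum.inr v) y.1) +
      D.t (Sum.inr v) D.ξ₂ * (D.t (Sum.inr v) x.2 * D.tb (Sum.inr v) y.2 -
        D.tb (Sum.inr v) x.2 * D.t (Sum.inr v) y.2)) := by
    rw [← Finset.sum_sub_distrib, Finset.mul_sum]
    apply Finset.sum_congr rfl
    intro v _
    have hA' : D.A (Sum.inr v) = -(2 * Real.pi * Complex.I * D.t (Sum.inr v) D.ξ₁) := rfl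
    have hB' : D.Bc (Sum.inr v) = -(2 * Real.pi * Complex.I * D.t (Sum.inr v) D.ξ₂) := rfl
    rw [hA', hB']
    ring
  linear_combination h1 + h2

variable (B : Module.Basis (Co I J ⊕ Co I J) ℚ (E × E)) (r : Co I J ⊕ Co I J → ℝ)

/-- real combination of the first coordinates -/
def X1 (v : I ⊕ J) : ℂ := ∑ k, (r k : ℂ) * D.t v (B k).1

/-- real combination of the second coordinates -/
def X2 (v : I ⊕ J) : ℂ := ∑ k, (r k : ℂ) * D.t v (B k).2

theorem X1_conj (v : I ⊕ J) : ∑ k, (r k : ℂ) * D.tb v (B k).1 = (starRingEnd ℂ) (X1 D B r v) := by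
  unfold X1 FamData.tb
  rw [map_sum]
  apply Finset.sum_congr rfl
  intro k _
  rw [map_mul, Complex.conj_ofReal]

theorem X2_conj (v : I ⊕ J) : ∑ k, (r k : ℂ) * D.tb v (B k).2 = (starRingEnd ℂ) (X2 D B r v) := by
  unfold X2 FamData.tb
  rw [map_sum]
  apply Finset.sum_congr rfl
  intro k _
  rw [map_mul, Complex.conj_ofReal]

theorem double_sum (s : I → ℂ) :
    (∑ j, ∑ k, (r j : ℂ) * (r k : ℂ) * dotp (D.L (B j)) (D.zeta s (B k))) =
    (∑ v : I, (D.A (Sum.inl v) * (starRingEnd ℂ) (X1 D B r (Sum.inl v)) *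
        (X1 D B r (Sum.inl v) - s v * X2 D B r (Sum.inl v)) +
      D.Bc (Sum.inl v) * X2 D B r (Sum.inl v) *
        ((starRingEnd ℂ) (X2 D B r (Sum.inl v)) -
          D.b v * s v * (starRingEnd ℂ) (X1 D B r (Sum.inl v))))) +
    ∑ v : J, (D.A (Sum.inr v) * (starRingEnd ℂ) (X1 D B r (Sum.inr v)) * X1 D B r (Sum.inr v) +
      D.Bc (Sum.inr v) * (starRingEnd ℂ) (X2 D B r (Sum.inr v)) * X2 D B r (Sum.inr v)) := by
  have h0 : (∑ j, ∑ k, (r j : ℂ) * (r k : ℂ) * dotp (D.L (B j)) (D.zeta s (B k))) =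
      ∑ i, (∑ j, (r j : ℂ) * D.L (B j) i) * (∑ k, (r k : ℂ) * D.zeta s (B k) i) := by
    unfold dotp
    have c1 : ∀ j k, (r j : ℂ) * (r k : ℂ) * (∑ i, D.L (B j) i * D.zeta s (B k) i) =
        ∑ i, ((r j : ℂ) * D.L (B j) i) * ((r k : ℂ) * D.zeta s (B k) i) := by
      intro j k
      rw [Finset.mul_sum]
      apply Finset.sum_congr rfl
      intro i _
      ring
    simp only [c1]
    rw [Finset.sum_congr rfl (fun j _ => Finset.sum_comm), Finset.sum_comm]
    apply Finset.sum_congr rfl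
    intro i _
    rw [Finset.sum_mul_sum]
  rw [h0, Fintype.sum_sum_type, Fintype.sum_sum_type, Fintype.sum_sum_type,
    Finset.sum_add_distrib, Finset.sum_add_distrib]
  have a1 : ∀ v : I ⊕ J, (∑ j, (r j : ℂ) * D.L (B j) (Sum.inl v)) =
      D.A v * (starRingEnd ℂ) (X1 D B r v) := by
    intro v
    rw [← X1_conj, Finset.mul_sum]
    apply Finset.sum_congr rfl
    intro k _
    change (r k : ℂ) * (D.A v * D.tb v (B k).1) = _
    ring
  have a2 : ∀ v : I, (∑ j, (r j : ℂ) * D.L (B j) (Sum.inr (Sum.inl v))) =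
      D.Bc (Sum.inl v) * X2 D B r (Sum.inl v) := by
    intro v
    unfold X2
    rw [Finset.mul_sum]
    apply Finset.sum_congr rfl
    intro k _
    change (r k : ℂ) * (D.Bc (Sum.inl v) * D.t (Sum.inl v) (B k).2) = _
    ring
  have a3 : ∀ v : J, (∑ j, (r j : ℂ) * D.L (B j) (Sum.inr (Sum.inr v))) =
      D.Bc (Sum.inr v) * (starRingEnd ℂ) (X2 D B r (Sum.inr v)) := by
    intro v
    rw [← X2_conj, Finset.mul_sum]
    apply Finset.sum_congr rfl
    intro k _
    change (r k : ℂ) * (D.Bc (Sum.inr v) * D.tb (Sum.inr v) (B k).2) = _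
    ring
  have b1 : ∀ v : I, (∑ k, (r k : ℂ) * D.zeta s (B k) (Sum.inl (Sum.inl v))) =
      X1 D B r (Sum.inl v) - s v * X2 D B r (Sum.inl v) := by
    intro v
    unfold X1 X2
    rw [Finset.mul_sum, ← Finset.sum_sub_distrib]
    apply Finset.sum_congr rfl
    intro k _
    change (r k : ℂ) * (D.t (Sum.inl v) (B k).1 - s v * D.t (Sum.inl v) (B k).2) = _
    ring
  have b2 : ∀ v : J, (∑ k, (r k : ℂ) * D.zeta s (B k) (Sum.inl (Sum.inr v))) =
      X1 D B r (Sum.inr v) := fun v => rfl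
  have b3 : ∀ v : I, (∑ k, (r k : ℂ) * D.zeta s (B k) (Sum.inr (Sum.inl v))) =
      (starRingEnd ℂ) (X2 D B r (Sum.inl v)) -
        D.b v * s v * (starRingEnd ℂ) (X1 D B r (Sum.inl v)) := by
    intro v
    rw [← X1_conj, ← X2_conj, Finset.mul_sum, ← Finset.sum_sub_distrib]
    apply Finset.sum_congr rfl
    intro k _
    change (r k : ℂ) * (D.tb (Sum.inl v) (B k).2 - D.b v * s v * D.tb (Sum.inl v) (B k).1) = _
    ring
  have b4 : ∀ v : J, (∑ k, (r k : ℂ) * D.zeta s (B k) (Sum.inr (Sum.inr v))) =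
      X2 D B r (Sum.inr v) := fun v => rfl
  simp only [a1, a2, a3, b1, b2, b3, b4]
  ring

/-- the place terms are nonnegative, and vanish only if both coordinates vanish -/
theorem place_pos {a b : ℝ} {s x1 x2 : ℂ} (ha : 0 < a) (hs : a * ‖s‖ ^ 2 < b) :
    0 ≤ a * ‖x1‖ ^ 2 + b * ‖x2‖ ^ 2 - 2 * a * (s * (starRingEnd ℂ) x1 * x2).re ∧
    (a * ‖x1‖ ^ 2 + b * ‖x2‖ ^ 2 - 2 * a * (s * (starRingEnd ℂ) x1 * x2).re ≤ 0 →
      x1 = 0 ∧ x2 = 0) := by
  have h1 : (s * (starRingEnd ℂ) x1 * x2).re ≤ ‖s‖ * ‖x1‖ * ‖x2‖ := by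
    refine (Complex.re_le_norm _).trans (le_of_eq ?_)
    rw [norm_mul, norm_mul, Complex.norm_conj]
  have h2 : a * (s * (starRingEnd ℂ) x1 * x2).re ≤ a * (‖s‖ * ‖x1‖ * ‖x2‖) :=
    mul_le_mul_of_nonneg_left h1 ha.le
  have h3 : a * ‖x1‖ ^ 2 + b * ‖x2‖ ^ 2 - 2 * (a * (‖s‖ * ‖x1‖ * ‖x2‖)) =
      a * (‖x1‖ - ‖s‖ * ‖x2‖) ^ 2 + (b - a * ‖s‖ ^ 2) * ‖x2‖ ^ 2 := by ring
  have h4 : 0 ≤ a * (‖x1‖ - ‖s‖ * ‖x2‖) ^ 2 := by positivity
  have h5 : 0 ≤ (b - a * ‖s‖ ^ 2) * ‖x2‖ ^ 2 := by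
    apply mul_nonneg _ (by positivity)
    linarith
  constructor
  · linarith
  · intro h
    have h6 : (b - a * ‖s‖ ^ 2) * ‖x2‖ ^ 2 = 0 := by linarith
    have h7 : ‖x2‖ ^ 2 = 0 := by
      rcases mul_eq_zero.1 h6 with h8 | h8
      · linarith
      · exact h8
    have h8 : x2 = 0 := by
      rw [sq_eq_zero_iff, norm_eq_zero] at h7
      exact h7
    have h9 : a * (‖x1‖ - ‖s‖ * ‖x2‖) ^ 2 = 0 := by linarith
    rw [h8, norm_zero, mul_zero, sub_zero] at h9
    have h10 : ‖x1‖ ^ 2 = 0 := by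
      rcases mul_eq_zero.1 h9 with h | h
      · linarith
      · exact h
    rw [sq_eq_zero_iff, norm_eq_zero] at h10
    exact ⟨h10, h8⟩

theorem r_zero (hB : SympBasis D.e B) (h1 : ∀ v, X1 D B r v = 0) (h2 : ∀ v, X2 D B r v = 0) :
    r = 0 := by
  have key : ∀ y : E × E, ∑ k, (r k : ℂ) * ((D.e (B k) y : ℚ) : ℂ) = 0 := by
    intro y
    simp only [e_formula, Finset.mul_sum]
    rw [Finset.sum_comm]
    apply Finset.sum_eq_zero
    intro v _
    have c1 := X1_conj D B r v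
    have c2 := X2_conj D B r v
    have d1 := h1 v
    have d2 := h2 v
    rw [d1, map_zero] at c1
    rw [d2, map_zero] at c2
    unfold X1 at d1
    unfold X2 at d2
    have e1 : ∑ k, (r k : ℂ) * (D.t v D.ξ₁ * (D.t v (B k).1 * D.tb v y.1 -
        D.tb v (B k).1 * D.t v y.1) + D.t v D.ξ₂ * (D.t v (B k).2 * D.tb v y.2 -
        D.tb v (B k).2 * D.t v y.2)) =
        D.t v D.ξ₁ * D.tb v y.1 * (∑ k, (r k : ℂ) * D.t v (B k).1) -
        D.t v D.ξ₁ * D.t v y.1 * (∑ k, (r k : ℂ) * D.tb v (B k).1) +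
        D.t v D.ξ₂ * D.tb v y.2 * (∑ k, (r k : ℂ) * D.t v (B k).2) -
        D.t v D.ξ₂ * D.t v y.2 * (∑ k, (r k : ℂ) * D.tb v (B k).2) := by
      rw [Finset.mul_sum, Finset.mul_sum, Finset.mul_sum, Finset.mul_sum,
        ← Finset.sum_sub_distrib, ← Finset.sum_add_distrib, ← Finset.sum_sub_distrib]
      apply Finset.sum_congr rfl
      intro k _
      ring
    rw [e1, c1, c2, d1, d2]
    ring
  have hanti : ∀ x y, D.e x y = - D.e y x := by
    intro x y
    have h := hB.alt (x + y)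
    simp only [map_add, LinearMap.add_apply, hB.alt] at h
    linarith
  funext k
  rcases k with i | i
  · have h := key (B (Sum.inr i))
    rw [Fintype.sum_sum_type] at h
    simp only [hB.rr, hB.lr] at h
    rw [Finset.sum_eq_single i (fun j _ hj => by rw [if_neg hj]; simp)
      (fun hi => absurd (Finset.mem_univ i) hi), if_pos rfl] at h
    simp only [Rat.cast_zero, mul_zero, Finset.sum_const_zero, add_zero, Rat.cast_one,
      mul_one] at h
    exact_mod_cast h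
  · have h := key (B (Sum.inl i))
    rw [Fintype.sum_sum_type] at h
    simp only [hB.ll] at h
    have h3 : ∀ j, D.e (B (Sum.inr j)) (B (Sum.inl i)) = if i = j then -1 else 0 := by
      intro j
      rw [hanti, hB.lr]
      split_ifs <;> simp
    simp only [h3] at h
    rw [Finset.sum_eq_single (s := (Finset.univ : Finset (Co I J))) i
      (f := fun j => (r (Sum.inr j) : ℂ) * ((if i = j then (-1 : ℚ) else 0 : ℚ) : ℂ))
      (fun j _ hj => by rw [if_neg (Ne.symm hj)]; simp)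
      (fun hi => absurd (Finset.mem_univ i) hi), if_pos rfl] at h
    simp only [Rat.cast_zero, mul_zero, Finset.sum_const_zero, zero_add, Rat.cast_neg,
      Rat.cast_one, mul_neg, mul_one, neg_eq_zero] at h
    exact_mod_cast h

end POSF_

open POSF_ in
theorem posf_proof : Stmt_POSF := by
  intro E _ _ I J _ _ _ _ D B hB s hs
  refine ⟨fun x y => rel_aux D s x y, ?_⟩
  intro r hr
  rw [double_sum, Complex.add_re, Complex.re_sum, Complex.re_sum]
  have hI : ∀ v : I, (D.A (Sum.inl v) * (starRingEnd ℂ) (X1 D B r (Sum.inl v)) *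
        (X1 D B r (Sum.inl v) - s v * X2 D B r (Sum.inl v)) +
      D.Bc (Sum.inl v) * X2 D B r (Sum.inl v) *
        ((starRingEnd ℂ) (X2 D B r (Sum.inl v)) -
          D.b v * s v * (starRingEnd ℂ) (X1 D B r (Sum.inl v)))).re =
      ar D (Sum.inl v) * ‖X1 D B r (Sum.inl v)‖ ^ 2 + br D (Sum.inl v) *
        ‖X2 D B r (Sum.inl v)‖ ^ 2 - 2 * ar D (Sum.inl v) *
        (s v * (starRingEnd ℂ) (X1 D B r (Sum.inl v)) * X2 D B r (Sum.inl v)).re := by
    intro v
    have e1 : D.A (Sum.inl v) * (starRingEnd ℂ) (X1 D B r (Sum.inl v)) *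
        (X1 D B r (Sum.inl v) - s v * X2 D B r (Sum.inl v)) +
      D.Bc (Sum.inl v) * X2 D B r (Sum.inl v) *
        ((starRingEnd ℂ) (X2 D B r (Sum.inl v)) -
          D.b v * s v * (starRingEnd ℂ) (X1 D B r (Sum.inl v))) =
        (ar D (Sum.inl v) : ℂ) * (X1 D B r (Sum.inl v) * (starRingEnd ℂ) (X1 D B r (Sum.inl v))) +
        (br D (Sum.inl v) : ℂ) * (X2 D B r (Sum.inl v) * (starRingEnd ℂ) (X2 D B r (Sum.inl v))) -
        ((2 * ar D (Sum.inl v) : ℝ) : ℂ) *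
          (s v * (starRingEnd ℂ) (X1 D B r (Sum.inl v)) * X2 D B r (Sum.inl v)) := by
      have hA := A_eq D (Sum.inl v)
      have hB' := Bc_eq D (Sum.inl v)
      have hAB := A_eq_b_mul D v
      rw [hA, hB'] at hAB
      rw [hA, hB']
      push_cast
      linear_combination (s v * (starRingEnd ℂ) (X1 D B r (Sum.inl v)) *
        X2 D B r (Sum.inl v)) * hAB
    rw [e1, Complex.mul_conj, Complex.mul_conj, Complex.sub_re, Complex.add_re,
      Complex.re_ofReal_mul, Complex.re_ofReal_mul, Complex.re_ofReal_mul, Complex.ofReal_re,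
      Complex.ofReal_re, Complex.normSq_eq_norm_sq, Complex.normSq_eq_norm_sq]
  have hJ : ∀ v : J, (D.A (Sum.inr v) * (starRingEnd ℂ) (X1 D B r (Sum.inr v)) *
        X1 D B r (Sum.inr v) +
      D.Bc (Sum.inr v) * (starRingEnd ℂ) (X2 D B r (Sum.inr v)) * X2 D B r (Sum.inr v)).re =
      ar D (Sum.inr v) * ‖X1 D B r (Sum.inr v)‖ ^ 2 + br D (Sum.inr v) *
        ‖X2 D B r (Sum.inr v)‖ ^ 2 := by
    intro v
    have e1 : D.A (Sum.inr v) * (starRingEnd ℂ) (X1 D B r (Sum.inr v)) * X1 D B r (Sum.inr v) +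
        D.Bc (Sum.inr v) * (starRingEnd ℂ) (X2 D B r (Sum.inr v)) * X2 D B r (Sum.inr v) =
        (ar D (Sum.inr v) : ℂ) * (X1 D B r (Sum.inr v) * (starRingEnd ℂ) (X1 D B r (Sum.inr v))) +
        (br D (Sum.inr v) : ℂ) *
          (X2 D B r (Sum.inr v) * (starRingEnd ℂ) (X2 D B r (Sum.inr v))) := by
      rw [A_eq, Bc_eq]
      ring
    rw [e1, Complex.mul_conj, Complex.mul_conj, Complex.add_re,
      Complex.re_ofReal_mul, Complex.re_ofReal_mul, Complex.ofReal_re,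
      Complex.ofReal_re, Complex.normSq_eq_norm_sq, Complex.normSq_eq_norm_sq]
  simp only [hI, hJ]
  have hP : ∀ v : I, ar D (Sum.inl v) * ‖s v‖ ^ 2 < br D (Sum.inl v) := by
    intro v
    have h1 : D.b v * ‖s v‖ ^ 2 < 1 := hs v
    have h2 := b_mul_br D v
    have h3 := br_pos D (Sum.inl v)
    rw [← h2]
    nlinarith
  by_contra hcon
  rw [not_lt] at hcon
  have hIn : ∀ v ∈ (Finset.univ : Finset I), 0 ≤ ar D (Sum.inl v) *
      ‖X1 D B r (Sum.inl v)‖ ^ 2 + br D (Sum.inl v) *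
        ‖X2 D B r (Sum.inl v)‖ ^ 2 - 2 * ar D (Sum.inl v) *
        (s v * (starRingEnd ℂ) (X1 D B r (Sum.inl v)) * X2 D B r (Sum.inl v)).re :=
    fun v _ => (place_pos (ar_pos D _) (hP v)).1
  have hJn : ∀ v ∈ (Finset.univ : Finset J), 0 ≤ ar D (Sum.inr v) *
      ‖X1 D B r (Sum.inr v)‖ ^ 2 + br D (Sum.inr v) * ‖X2 D B r (Sum.inr v)‖ ^ 2 := by
    intro v _
    have := (ar_pos D (Sum.inr v)).le
    have := (br_pos D (Sum.inr v)).le
    positivity
  have hI0 := Finset.sum_nonneg hIn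
  have hJ0 := Finset.sum_nonneg hJn
  have hIz := (Finset.sum_eq_zero_iff_of_nonneg hIn).1 (by linarith)
  have hJz := (Finset.sum_eq_zero_iff_of_nonneg hJn).1 (by linarith)
  apply hr
  apply r_zero D B r hB
  · intro v
    rcases v with v | v
    · exact ((place_pos (ar_pos D _) (hP v)).2
        (hIz v (Finset.mem_univ v)).le).1
    · have h1 := hJz v (Finset.mem_univ v)
      have h2 := ar_pos D (Sum.inr v)
      have h3 := br_pos D (Sum.inr v)
      have h4 : 0 ≤ ar D (Sum.inr v) * ‖X1 D B r (Sum.inr v)‖ ^ 2 := by positivity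
      have h5 : 0 ≤ br D (Sum.inr v) * ‖X2 D B r (Sum.inr v)‖ ^ 2 := by positivity
      have h6 : ar D (Sum.inr v) * ‖X1 D B r (Sum.inr v)‖ ^ 2 = 0 := by linarith
      rcases mul_eq_zero.1 h6 with h7 | h7
      · linarith
      · rwa [sq_eq_zero_iff, norm_eq_zero] at h7
  · intro v
    rcases v with v | v
    · exact ((place_pos (ar_pos D _) (hP v)).2
        (hIz v (Finset.mem_univ v)).le).2
    · have h1 := hJz v (Finset.mem_univ v)
      have h2 := ar_pos D (Sum.inr v)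
      have h3 := br_pos D (Sum.inr v)
      have h4 : 0 ≤ ar D (Sum.inr v) * ‖X1 D B r (Sum.inr v)‖ ^ 2 := by positivity
      have h5 : 0 ≤ br D (Sum.inr v) * ‖X2 D B r (Sum.inr v)‖ ^ 2 := by positivity
      have h6 : br D (Sum.inr v) * ‖X2 D B r (Sum.inr v)‖ ^ 2 = 0 := by linarith
      rcases mul_eq_zero.1 h6 with h7 | h7
      · linarith
      · rwa [sq_eq_zero_iff, norm_eq_zero] at h7

end

end Pool.Agent.SPF
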