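import Pool.Agent.SPF.StmtsE

set_option linter.unusedSectionVars false
set_option linter.unusedSimpArgs false
set_option linter.unusedVariables false

/-!
# QPT: from CM types to the data at the CM point of the family
-/

open scoped BigOperators
open Complex

namespace Pool.Agent.SPF

noncomputable section

namespace QPT_

section gen

variable {P : Type} [Fintype P] [DecidableEq P]

/-- block diagonal linear map with `2 × 2` blocks -/
def Am (a b c d : P → ℂ) : (P ⊕ P → ℂ) →ₗ[ℂ] (P ⊕ P → ℂ) where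
  toFun := fun z => Sum.elim (fun v => a v * z (Sum.inl v) + b v * z (Sum.inr v))
    (fun v => c v * z (Sum.inl v) + d v * z (Sum.inr v))
  map_add' := by
    intro x y
    funext i
    rcases i with i | i <;> simp <;> ring
  map_smul' := by
    intro r x
    funext i
    rcases i with i | i <;> simp <;> ring

theorem Am_inl (a b c d : P → ℂ) (z : P ⊕ P → ℂ) (v : P) :
    Am a b c d z (Sum.inl v) = a v * z (Sum.inl v) + b v * z (Sum.inr v) := rfl

theorem Am_inr (a b c d : P → ℂ) (z : P ⊕ P → ℂ) (v : P) :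
    Am a b c d z (Sum.inr v) = c v * z (Sum.inl v) + d v * z (Sum.inr v) := rfl

theorem dotp_Am (a b c d : P → ℂ) (x z : P ⊕ P → ℂ) :
    dotp (Am a c b d x) z = dotp x (Am a b c d z) := by
  simp only [dotp, Fintype.sum_sum_type, Am_inl, Am_inr]
  rw [← Finset.sum_add_distrib, ← Finset.sum_add_distrib]
  exact Finset.sum_congr rfl fun i _ => by ring

theorem Am_surj (a b c d : P → ℂ) (h : ∀ v, a v * d v - b v * c v ≠ 0) (z : P ⊕ P → ℂ) :
    ∃ w, Am a b c d w = z := by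
  refine ⟨Sum.elim (fun v => (d v * z (Sum.inl v) - b v * z (Sum.inr v)) / (a v * d v - b v * c v))
    (fun v => (-(c v) * z (Sum.inl v) + a v * z (Sum.inr v)) / (a v * d v - b v * c v)), ?_⟩
  funext i
  rcases i with v | v
  · rw [Am_inl]
    simp only [Sum.elim_inl, Sum.elim_inr]
    rw [← mul_div_assoc, ← mul_div_assoc, ← add_div, div_eq_iff (h v)]
    ring
  · rw [Am_inr]
    simp only [Sum.elim_inl, Sum.elim_inr]
    rw [← mul_div_assoc, ← mul_div_assoc, ← add_div, div_eq_iff (h v)]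
    ring

theorem Am_single_inl (a b c d : P → ℂ) (v : P) :
    Am a b c d (Pi.single (Sum.inl v) 1) =
      a v • Pi.single (Sum.inl v) (1 : ℂ) + c v • Pi.single (Sum.inr v) (1 : ℂ) := by
  funext i
  rcases i with w | w
  · rw [Am_inl]
    by_cases h : w = v
    · subst h; simp
    · have : (Sum.inl w : P ⊕ P) ≠ Sum.inl v := fun h' => h (Sum.inl.inj h')
      simp [Pi.single_apply, this, h]
  · rw [Am_inr]
    by_cases h : w = v
    · subst h; simp
    · have : (Sum.inr w : P ⊕ P) ≠ Sum.inr v := fun h' => h (Sum.inr.inj h')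
      simp [Pi.single_apply, this, h]

theorem Am_single_inr (a b c d : P → ℂ) (v : P) :
    Am a b c d (Pi.single (Sum.inr v) 1) =
      b v • Pi.single (Sum.inl v) (1 : ℂ) + d v • Pi.single (Sum.inr v) (1 : ℂ) := by
  funext i
  rcases i with w | w
  · rw [Am_inl]
    by_cases h : w = v
    · subst h; simp
    · have : (Sum.inl w : P ⊕ P) ≠ Sum.inl v := fun h' => h (Sum.inl.inj h')
      simp [Pi.single_apply, this, h]
  · rw [Am_inr]
    by_cases h : w = v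
    · subst h; simp
    · have : (Sum.inr w : P ⊕ P) ≠ Sum.inr v := fun h' => h (Sum.inr.inj h')
      simp [Pi.single_apply, this, h]

theorem pd_comp (a b c d : P → ℂ) {G : (P ⊕ P → ℂ) → ℂ} (hG : Differentiable ℂ G) (i : P ⊕ P) :
    pd i (fun z => G (Am a b c d z)) 0 = fderiv ℂ G 0 (Am a b c d (Pi.single i 1)) := by
  unfold pd
  have hA : HasFDerivAt (fun z => Am a b c d z) (LinearMap.toContinuousLinearMap (Am a b c d)) 0 :=
    (LinearMap.toContinuousLinearMap (Am a b c d)).hasFDerivAt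
  have h0 : Am a b c d 0 = 0 := map_zero _
  have h1 : HasFDerivAt G (fderiv ℂ G 0) (Am a b c d 0) := by
    rw [h0]; exact (hG 0).hasFDerivAt
  have h2 := h1.comp 0 hA
  have h3 : fderiv ℂ (fun z => G (Am a b c d z)) 0 =
    (fderiv ℂ G 0).comp (LinearMap.toContinuousLinearMap (Am a b c d)) := h2.fderiv
  rw [h3]
  rfl

theorem pd_comp_inl (a b c d : P → ℂ) {G : (P ⊕ P → ℂ) → ℂ} (hG : Differentiable ℂ G) (v : P) :
    pd (Sum.inl v) (fun z => G (Am a b c d z)) 0 =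
      a v * pd (Sum.inl v) G 0 + c v * pd (Sum.inr v) G 0 := by
  rw [pd_comp a b c d hG, Am_single_inl, map_add, map_smul, map_smul]
  rfl

theorem pd_comp_inr (a b c d : P → ℂ) {G : (P ⊕ P → ℂ) → ℂ} (hG : Differentiable ℂ G) (v : P) :
    pd (Sum.inr v) (fun z => G (Am a b c d z)) 0 =
      b v * pd (Sum.inl v) G 0 + d v * pd (Sum.inr v) G 0 := by
  rw [pd_comp a b c d hG, Am_single_inr, map_add, map_smul, map_smul]
  rfl

variable {V V' : Type} [AddCommGroup V] [Module ℚ V] [AddCommGroup V'] [Module ℚ V']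

/-- transport of a theta function along an isometry and a block diagonal change of coordinates -/
theorem core (hS : Stmt_SALL) (e : V →ₗ[ℚ] V →ₗ[ℚ] ℚ) (e' : V' →ₗ[ℚ] V' →ₗ[ℚ] ℚ) (φ : V ≃ₗ[ℚ] V')
    (hφ : ∀ x y, e' (φ x) (φ y) = e x y) (a b c d : P → ℂ)
    (hdet : ∀ v, a v * d v - b v * c v ≠ 0) (ζw : V →ₗ[ℚ] (P ⊕ P → ℂ))
    (ζ L : V' →ₗ[ℚ] (P ⊕ P → ℂ)) (hζ : ∀ x, Am a b c d (ζw x) = ζ (φ x))
    (B : Module.Basis ((P ⊕ P) ⊕ (P ⊕ P)) ℚ V') (hB : SympBasis e' B) (hP : IsPStr e' B ζ L)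
    (F : (P ⊕ P → ℂ) → ℂ) (hF : IsTh ζ L B F) (hF0 : F ≠ 0) (C : P ⊕ P → ℂ) (hSS : SS e ζw C) :
    ∃ κ : ℂ, κ ≠ 0 ∧ ∀ x : V', Alg (TT ζ L x F 0 / κ) ∧ ∀ v : P,
      Alg ((a v * pd (Sum.inl v) (TT ζ L x F) 0 + c v * pd (Sum.inr v) (TT ζ L x F) 0) /
        (κ * C (Sum.inl v))) ∧
      Alg ((b v * pd (Sum.inl v) (TT ζ L x F) 0 + d v * pd (Sum.inr v) (TT ζ L x F) 0) /
        (κ * C (Sum.inr v))) := by
  set Bw : Module.Basis ((P ⊕ P) ⊕ (P ⊕ P)) ℚ V := B.map φ.symm with hBw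
  have hBwj : ∀ j, φ (Bw j) = B j := by
    intro j
    rw [hBw, Module.Basis.map_apply, LinearEquiv.apply_symm_apply]
  set Lw : V →ₗ[ℚ] (P ⊕ P → ℂ) := ((Am a c b d).restrictScalars ℚ).comp (L.comp φ.toLinearMap)
    with hLw
  have hLwx : ∀ x, Lw x = Am a c b d (L (φ x)) := fun x => rfl
  have hdot : ∀ x y, dotp (Lw x) (ζw y) = dotp (L (φ x)) (ζ (φ y)) := by
    intro x y
    rw [hLwx, dotp_Am, hζ]
  have hdotz : ∀ x z, dotp (Lw x) z = dotp (L (φ x)) (Am a b c d z) := by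
    intro x z
    rw [hLwx, dotp_Am]
  have hSB : SympBasis e Bw := by
    constructor
    · intro x
      rw [← hφ]; exact hB.alt _
    · intro i j
      rw [← hφ, hBwj, hBwj]; exact hB.ll i j
    · intro i j
      rw [← hφ, hBwj, hBwj]; exact hB.rr i j
    · intro i j
      rw [← hφ, hBwj, hBwj]; exact hB.lr i j
  have hPw : IsPStr e Bw ζw Lw := by
    constructor
    · intro x y
      rw [hdot, hdot, ← hφ]
      exact hP.rel _ _
    · intro r hr
      have := hP.pos r hr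
      simp only [hdot, hBwj]
      exact this
  have hTT : ∀ x z, TT ζw Lw x (fun z => F (Am a b c d z)) z = TT ζ L (φ x) F (Am a b c d z) := by
    intro x z
    simp only [TT]
    rw [map_add, hζ, hdotz, hdot]
  have hTTf : ∀ x, TT ζw Lw x (fun z => F (Am a b c d z)) =
      fun z => TT ζ L (φ x) F (Am a b c d z) := fun x => funext (hTT x)
  have hAd : Differentiable ℂ (fun z => Am a b c d z) :=
    (LinearMap.toContinuousLinearMap (Am a b c d)).differentiable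
  have hFw : IsTh ζw Lw Bw (fun z => F (Am a b c d z)) := by
    constructor
    · exact hF.entire.comp hAd
    · intro j
      rw [hTTf, hBwj]
      rw [hF.per j]
  have hFw0 : (fun z => F (Am a b c d z)) ≠ 0 := by
    intro h
    apply hF0
    funext z
    obtain ⟨w, hw⟩ := Am_surj a b c d hdet z
    have := congrFun h w
    simp only [Pi.zero_apply] at this ⊢
    rw [← hw]; exact this
  obtain ⟨κ, hκ, hall⟩ := hS V (P ⊕ P) e ζw C hSS Bw Lw _ hSB hPw hFw hFw0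
  refine ⟨κ, hκ, fun x => ?_⟩
  have hx := hall (φ.symm x)
  rw [hTTf, LinearEquiv.apply_symm_apply] at hx
  have hG : Differentiable ℂ (TT ζ L x F) := TT_differentiable x hF.entire
  refine ⟨?_, fun v => ⟨?_, ?_⟩⟩
  · have := hx.1
    simp only [map_zero] at this
    exact this
  · have := hx.2 (Sum.inl v)
    rw [pd_comp_inl a b c d hG] at this
    exact this
  · have := hx.2 (Sum.inr v)
    rw [pd_comp_inr a b c d hG] at this
    exact this

end gen

section fam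

variable {E : Type} [Field E] [NumberField E]

/-- the isometry `(y₁, y₂) ↦ y₁ w₁ + y₂ w₂` -/
def phi (y ρ : E) (hΔ : 1 + ρ * y ^ 2 ≠ 0) : (E × E) ≃ₗ[ℚ] (E × E) where
  toFun := fun x => ((x.1 + y * ρ * x.2) / (1 + ρ * y ^ 2), (-y * x.1 + x.2) / (1 + ρ * y ^ 2))
  map_add' := by
    intro x x'
    ext <;> simp only [Prod.fst_add, Prod.snd_add] <;> ring
  map_smul' := by
    intro r x
    ext
    · show (r • x.1 + y * ρ * (r • x.2)) / (1 + ρ * y ^ 2) =
        r • ((x.1 + y * ρ * x.2) / (1 + ρ * y ^ 2))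
      rw [Algebra.smul_def, Algebra.smul_def, Algebra.smul_def]; ring
    · show (-y * (r • x.1) + r • x.2) / (1 + ρ * y ^ 2) =
        r • ((-y * x.1 + x.2) / (1 + ρ * y ^ 2))
      rw [Algebra.smul_def, Algebra.smul_def, Algebra.smul_def]; ring
  invFun := fun x => (x.1 - y * ρ * x.2, y * x.1 + x.2)
  left_inv := by
    intro x
    ext
    · show (x.1 + y * ρ * x.2) / (1 + ρ * y ^ 2) -
        y * ρ * ((-y * x.1 + x.2) / (1 + ρ * y ^ 2)) = x.1
      rw [← mul_div_assoc, ← sub_div, div_eq_iff hΔ]; ring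
    · show y * ((x.1 + y * ρ * x.2) / (1 + ρ * y ^ 2)) +
        (-y * x.1 + x.2) / (1 + ρ * y ^ 2) = x.2
      rw [← mul_div_assoc, ← add_div, div_eq_iff hΔ]; ring
  right_inv := by
    intro x
    ext
    · show ((x.1 - y * ρ * x.2) + y * ρ * (y * x.1 + x.2)) / (1 + ρ * y ^ 2) = x.1
      rw [div_eq_iff hΔ]; ring
    · show (-y * (x.1 - y * ρ * x.2) + (y * x.1 + x.2)) / (1 + ρ * y ^ 2) = x.2
      rw [div_eq_iff hΔ]; ring

theorem phi_fst (y ρ : E) (hΔ : 1 + ρ * y ^ 2 ≠ 0) (x : E × E) :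
    (phi y ρ hΔ x).1 = (x.1 + y * ρ * x.2) / (1 + ρ * y ^ 2) := rfl

theorem phi_snd (y ρ : E) (hΔ : 1 + ρ * y ^ 2 ≠ 0) (x : E × E) :
    (phi y ρ hΔ x).2 = (-y * x.1 + x.2) / (1 + ρ * y ^ 2) := rfl

variable {I J : Type} [Fintype I] [Fintype J] [DecidableEq I] [DecidableEq J]

theorem phi_e (D : FamData E I J) (K : CMF E) (y ρ ξ₃ : E) (hK : K.bar = D.bar) (hy : D.bar y = y)
    (hρ : D.bar ρ = ρ) (h1 : D.ξ₁ = ξ₃ * (1 + ρ * y ^ 2)) (h2 : D.ξ₂ = ρ * D.ξ₁)
    (hΔ : 1 + ρ * y ^ 2 ≠ 0) (x x' : E × E) :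
    D.e (phi y ρ hΔ x) (phi y ρ hΔ x') = eSum (K.e ξ₃) (K.e (ρ * ξ₃)) x x' := by
  have l : D.e (phi y ρ hΔ x) (phi y ρ hΔ x') =
    Algebra.trace ℚ E (D.psi (phi y ρ hΔ x) (phi y ρ hΔ x')) := rfl
  have r : eSum (K.e ξ₃) (K.e (ρ * ξ₃)) x x' =
    Algebra.trace ℚ E (ξ₃ * x.1 * K.bar x'.1) + Algebra.trace ℚ E (ρ * ξ₃ * x.2 * K.bar x'.2) := rfl
  rw [l, r, ← map_add, hK]
  congr 1
  unfold FamData.psi
  rw [phi_fst, phi_snd, phi_fst, phi_snd, h2, h1]
  simp only [map_div₀, map_add, map_mul, map_neg, map_one, map_pow, hy, hρ]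
  field_simp
  ring

theorem alg_t (φ : E →+* ℂ) (x : E) : Alg (φ x) := by
  have h : IsAlgebraic ℚ x := Algebra.IsAlgebraic.isAlgebraic x
  have h' : (φ x) = (φ.toRatAlgHom) x := rfl
  rw [h']
  exact h.algHom _

theorem t_real (D : FamData E I J) (v : I ⊕ J) {x : E} (hx : D.bar x = x) :
    D.tb v x = D.t v x := by
  unfold FamData.tb
  rw [← D.bar_spec, hx]

theorem t_re (D : FamData E I J) (v : I ⊕ J) {x : E} (hx : D.bar x = x) :
    D.t v x = ((D.t v x).re : ℂ) := by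
  have h := t_real D v hx
  unfold FamData.tb at h
  exact (Complex.conj_eq_iff_re.1 h).symm

theorem b_eq (D : FamData E I J) (v : I) {ρ : E} (hρ : D.bar ρ = ρ) (h2 : D.ξ₂ = ρ * D.ξ₁) :
    (D.b v : ℂ) * D.t (Sum.inl v) ρ = -1 := by
  have h3 := t_re D (Sum.inl v) hρ
  have h1 := (D.pos1 (Sum.inl v)).ne'
  have hn := (D.posI v).ne
  have h4 : (D.t (Sum.inl v) D.ξ₂).im = (D.t (Sum.inl v) ρ).re * (D.t (Sum.inl v) D.ξ₁).im := by
    rw [h2, map_mul, h3, Complex.im_ofReal_mul, Complex.ofReal_re]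
  have h5 : (D.t (Sum.inl v) ρ).re ≠ 0 := by
    intro h
    rw [h4, h, zero_mul] at hn
    exact hn rfl
  rw [h3]
  rw [← Complex.ofReal_mul]
  have : D.b v * (D.t (Sum.inl v) ρ).re = -1 := by
    unfold FamData.b
    rw [h4]
    field_simp
  rw [this]
  simp

theorem b_eq_real (D : FamData E I J) (v : I) {ρ : E} (hρ : D.bar ρ = ρ) (h2 : D.ξ₂ = ρ * D.ξ₁) :
    D.b v * (D.t (Sum.inl v) ρ).re = -1 := by
  have h := b_eq D v hρ h2
  rw [t_re D (Sum.inl v) hρ, ← Complex.ofReal_mul] at h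
  exact_mod_cast h

theorem xi_im (D : FamData E I J) (v : I ⊕ J) {y ρ ξ₃ : E} (hy : D.bar y = y) (hρ : D.bar ρ = ρ)
    (h1 : D.ξ₁ = ξ₃ * (1 + ρ * y ^ 2)) :
    (D.t v D.ξ₁).im = (1 + (D.t v ρ).re * (D.t v y).re ^ 2) * (D.t v ξ₃).im := by
  rw [h1]
  simp only [map_mul, map_add, map_one, map_pow]
  rw [t_re D v hρ, t_re D v hy]
  have : ((1 : ℂ) + ((D.t v ρ).re : ℂ) * ((D.t v y).re : ℂ) ^ 2) =
    ((1 + (D.t v ρ).re * (D.t v y).re ^ 2 : ℝ) : ℂ) := by push_cast; rfl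
  rw [this, mul_comm, Complex.im_ofReal_mul, Complex.ofReal_re, Complex.ofReal_re]

open Classical in
/-- the CM point -/
def qp (D : FamData E I J) (y ρ : E) (p : I → Prop) : I → ℂ :=
  fun v : I => if p v then D.t (Sum.inl v) (y * ρ) else -1 / D.t (Sum.inl v) y

theorem qp_mem (D : FamData E I J) (y ρ ξ₃ : E) (p : I → Prop) (hy : D.bar y = y) (hy0 : y ≠ 0)
    (hρ : D.bar ρ = ρ) (h1 : D.ξ₁ = ξ₃ * (1 + ρ * y ^ 2)) (h2 : D.ξ₂ = ρ * D.ξ₁)
    (hp : ∀ v : I, p v → 0 < (D.t (Sum.inl v) ξ₃).im)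
    (hnp : ∀ v : I, ¬ p v → (D.t (Sum.inl v) ξ₃).im < 0) : qp D y ρ p ∈ D.Dom := by
  intro v
  have hb := b_eq_real D v hρ h2
  have hb0 := D.b_pos v
  have him := xi_im D (Sum.inl v) hy hρ h1
  have hpos := D.pos1 (Sum.inl v)
  rw [him] at hpos
  set r := (D.t (Sum.inl v) ρ).re with hr
  set u := (D.t (Sum.inl v) y).re with hu
  set b := D.b v with hbb
  unfold qp
  by_cases hv : p v
  · rw [if_pos hv]
    have h3 := hp v hv
    have h4 : 0 < 1 + r * u ^ 2 := by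
      by_contra h
      push Not at h
      exact absurd hpos (not_lt.2 (mul_nonpos_of_nonpos_of_nonneg h h3.le))
    rw [map_mul, t_re D _ hy, t_re D _ hρ, ← Complex.ofReal_mul, Complex.norm_real, ← hr, ← hu,
      Real.norm_eq_abs, sq_abs]
    have h5 : b * (u * r) ^ 2 = - (r * u ^ 2) := by
      linear_combination (r * u ^ 2) * hb
    rw [h5]
    linarith
  · rw [if_neg hv]
    have h3 := hnp v hv
    have h4 : 1 + r * u ^ 2 < 0 := by
      by_contra h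
      push Not at h
      exact absurd hpos (not_lt.2 (mul_nonpos_of_nonneg_of_nonpos h h3.le))
    have hu0 : u ≠ 0 := by
      intro h
      rw [h] at h4
      norm_num at h4
    have h6 : (-1 : ℂ) / D.t (Sum.inl v) y = ((-1 / u : ℝ) : ℂ) := by
      rw [t_re D _ hy, ← hu]
      push_cast
      rfl
    rw [h6, Complex.norm_real, Real.norm_eq_abs, sq_abs]
    have hu2 : 0 < u ^ 2 := by positivity
    have h7 : b * (-1 / u) ^ 2 = b / u ^ 2 := by
      field_simp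
    rw [h7, div_lt_one hu2]
    have h8 : b * (1 + r * u ^ 2) < 0 := mul_neg_of_pos_of_neg hb0 h4
    have h9 : b * (1 + r * u ^ 2) = b - u ^ 2 := by
      linear_combination (u ^ 2) * hb
    linarith

open Classical in
/-- coefficients -/
def ca (D : FamData E I J) (y ρ : E) (p : I → Prop) : I ⊕ J → ℂ
  | Sum.inl v => if p v then 1 else 0
  | Sum.inr v => 1 / D.t (Sum.inr v) (1 + ρ * y ^ 2)

open Classical in
/-- coefficients -/
def cb (D : FamData E I J) (y ρ : E) (p : I → Prop) : I ⊕ J → ℂ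
  | Sum.inl v => if p v then 0 else 1 / D.t (Sum.inl v) y
  | Sum.inr v => D.t (Sum.inr v) (y * ρ) / D.t (Sum.inr v) (1 + ρ * y ^ 2)

open Classical in
/-- coefficients -/
def cc (D : FamData E I J) (y ρ : E) (p : I → Prop) : I ⊕ J → ℂ
  | Sum.inl v => if p v then 0 else -1 / D.t (Sum.inl v) (ρ * y)
  | Sum.inr v => -D.t (Sum.inr v) y / D.t (Sum.inr v) (1 + ρ * y ^ 2)

theorem t_ne (φ : E →+* ℂ) {x : E} (hx : x ≠ 0) : φ x ≠ 0 := by
  rw [Ne, map_eq_zero]; exact hx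

theorem c_det (D : FamData E I J) (y ρ : E) (p : I → Prop) (hy0 : y ≠ 0) (hρ0 : ρ ≠ 0)
    (hΔ : 1 + ρ * y ^ 2 ≠ 0) (v : I ⊕ J) :
    ca D y ρ p v * ca D y ρ p v - cb D y ρ p v * cc D y ρ p v ≠ 0 := by
  rcases v with v | v
  · have hy1 := t_ne (D.t (Sum.inl v)) hy0
    have hy2 := t_ne (D.t (Sum.inl v)) (mul_ne_zero hρ0 hy0)
    unfold ca cb cc
    by_cases hv : p v
    · simp [hv]
    · simp only [hv, if_false]
      have : (0 : ℂ) * 0 - 1 / D.t (Sum.inl v) y * (-1 / D.t (Sum.inl v) (ρ * y)) =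
        1 / (D.t (Sum.inl v) y * D.t (Sum.inl v) (ρ * y)) := by
        rw [div_mul_div_comm]; ring
      rw [this]
      exact one_div_ne_zero (mul_ne_zero hy1 hy2)
  · unfold ca cb cc
    have hD := t_ne (D.t (Sum.inr v)) hΔ
    have : 1 / D.t (Sum.inr v) (1 + ρ * y ^ 2) * (1 / D.t (Sum.inr v) (1 + ρ * y ^ 2)) -
        D.t (Sum.inr v) (y * ρ) / D.t (Sum.inr v) (1 + ρ * y ^ 2) *
          (-D.t (Sum.inr v) y / D.t (Sum.inr v) (1 + ρ * y ^ 2)) =
        1 / D.t (Sum.inr v) (1 + ρ * y ^ 2) := by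
      rw [div_mul_div_comm, div_mul_div_comm, ← sub_div, div_eq_div_iff (mul_ne_zero hD hD) hD]
      simp only [map_add, map_mul, map_one, map_pow]
      ring
    simp only
    rw [this]
    exact one_div_ne_zero hD

open Classical in
/-- first coordinates -/
def z3 (D : FamData E I J) (p : I → Prop) : E →ₗ[ℚ] (I ⊕ J → ℂ) :=
  zT (Sum.elim (fun v : I => if p v then D.t (Sum.inl v) else cj (D.t (Sum.inl v)))
      (fun v : J => D.t (Sum.inr v)))

open Classical in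
/-- second coordinates -/
def z4 (D : FamData E I J) (p : I → Prop) : E →ₗ[ℚ] (I ⊕ J → ℂ) :=
  zT (Sum.elim
      (fun v : I => if p v then cj (D.t (Sum.inl v)) else D.t (Sum.inl v))
      (fun v : J => D.t (Sum.inr v)))

open Classical in
theorem z3_pos (D : FamData E I J) (p : I → Prop) (x : E) (v : I) (hv : p v) :
    z3 D p x (Sum.inl v) = D.t (Sum.inl v) x := by
  show (if p v then D.t (Sum.inl v) else cj (D.t (Sum.inl v))) x = _
  rw [if_pos hv]

open Classical in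
theorem z3_neg (D : FamData E I J) (p : I → Prop) (x : E) (v : I) (hv : ¬ p v) :
    z3 D p x (Sum.inl v) = D.tb (Sum.inl v) x := by
  show (if p v then D.t (Sum.inl v) else cj (D.t (Sum.inl v))) x = _
  rw [if_neg hv]; rfl

open Classical in
theorem z4_pos (D : FamData E I J) (p : I → Prop) (x : E) (v : I) (hv : p v) :
    z4 D p x (Sum.inl v) = D.tb (Sum.inl v) x := by
  show (if p v then cj (D.t (Sum.inl v)) else D.t (Sum.inl v)) x = _
  rw [if_pos hv]; rfl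

open Classical in
theorem z4_neg (D : FamData E I J) (p : I → Prop) (x : E) (v : I) (hv : ¬ p v) :
    z4 D p x (Sum.inl v) = D.t (Sum.inl v) x := by
  show (if p v then cj (D.t (Sum.inl v)) else D.t (Sum.inl v)) x = _
  rw [if_neg hv]

theorem fId1 (Y1 Y2 Y R : ℂ) (hD : 1 + R * Y ^ 2 ≠ 0) :
    Y1 = (Y1 + Y * R * Y2) / (1 + R * Y ^ 2) - Y * R * ((-Y * Y1 + Y2) / (1 + R * Y ^ 2)) := by
  rw [← mul_div_assoc, ← sub_div, eq_div_iff hD]; ring

theorem fId2 (Y1 Y2 Y R : ℂ) (hD : 1 + R * Y ^ 2 ≠ 0) (hY : Y ≠ 0) :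
    1 / Y * Y2 =
      (Y1 + Y * R * Y2) / (1 + R * Y ^ 2) - -1 / Y * ((-Y * Y1 + Y2) / (1 + R * Y ^ 2)) := by
  have e1 : (Y1 + Y * R * Y2) / (1 + R * Y ^ 2) - -1 / Y * ((-Y * Y1 + Y2) / (1 + R * Y ^ 2)) =
      ((1 + R * Y ^ 2) * Y2) / (Y * (1 + R * Y ^ 2)) := by
    rw [div_mul_div_comm, div_sub_div _ _ hD (mul_ne_zero hY hD),
      div_eq_div_iff (mul_ne_zero hD (mul_ne_zero hY hD)) (mul_ne_zero hY hD)]
    ring
  rw [e1, div_mul_eq_mul_div, one_mul, mul_comm (1 + R * Y ^ 2) Y2, mul_div_mul_right _ _ hD]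

theorem fId3 (b Y1 Y2 Y R : ℂ) (hb : b * R = -1) (hD : 1 + R * Y ^ 2 ≠ 0) :
    Y2 = (-Y * Y1 + Y2) / (1 + R * Y ^ 2) - b * (Y * R) * ((Y1 + Y * R * Y2) / (1 + R * Y ^ 2)) := by
  have : b * (Y * R) = -Y := by linear_combination Y * hb
  rw [this, ← mul_div_assoc, ← sub_div, eq_div_iff hD]; ring

theorem fId4 (b Y1 Y2 Y R : ℂ) (hb : b * R = -1) (hD : 1 + R * Y ^ 2 ≠ 0) (hY : Y ≠ 0)
    (hR : R ≠ 0) :
    -1 / (R * Y) * Y1 =
      (-Y * Y1 + Y2) / (1 + R * Y ^ 2) - b * (-1 / Y) * ((Y1 + Y * R * Y2) / (1 + R * Y ^ 2)) := by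
  have : b * (-1 / Y) = 1 / (R * Y) := by
    rw [mul_div_assoc', div_eq_div_iff hY (mul_ne_zero hR hY)]
    linear_combination (-Y) * hb
  rw [this, ← sub_eq_zero]
  field_simp
  ring

theorem z_eq (D : FamData E I J) (y ρ : E) (p : I → Prop) (hy : D.bar y = y) (hy0 : y ≠ 0)
    (hρ : D.bar ρ = ρ) (hρ0 : ρ ≠ 0) (h2 : D.ξ₂ = ρ * D.ξ₁)
    (hΔ : 1 + ρ * y ^ 2 ≠ 0) (x : E × E) :
    Am (ca D y ρ p) (cb D y ρ p) (cc D y ρ p) (ca D y ρ p) (zSum (z3 D p) (z4 D p) x) =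
      D.zeta (qp D y ρ p) (phi y ρ hΔ x) := by
  funext i
  rcases i with (v | v) | (v | v)
  · have hY := t_ne (D.t (Sum.inl v)) hy0
    have hD := t_ne (D.t (Sum.inl v)) hΔ
    simp only [map_add, map_mul, map_one, map_pow] at hD
    show ca D y ρ p (Sum.inl v) * z3 D p x.1 (Sum.inl v) +
        cb D y ρ p (Sum.inl v) * z4 D p x.2 (Sum.inl v) =
      D.t (Sum.inl v) (phi y ρ hΔ x).1 - qp D y ρ p v * D.t (Sum.inl v) (phi y ρ hΔ x).2
    rw [phi_fst, phi_snd]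
    simp only [map_div₀, map_add, map_mul, map_one, map_pow, map_neg]
    by_cases hv : p v
    · rw [z3_pos D p _ v hv, z4_pos D p _ v hv]
      simp only [ca, cb, qp, hv, if_true, map_mul, zero_mul, one_mul, add_zero]
      exact fId1 _ _ _ _ hD
    · rw [z3_neg D p _ v hv, z4_neg D p _ v hv]
      simp only [ca, cb, qp, hv, if_false, map_mul, zero_mul, zero_add]
      exact fId2 _ _ _ _ hD hY
  · show 1 / D.t (Sum.inr v) (1 + ρ * y ^ 2) * D.t (Sum.inr v) x.1 +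
        D.t (Sum.inr v) (y * ρ) / D.t (Sum.inr v) (1 + ρ * y ^ 2) * D.t (Sum.inr v) x.2 =
      D.t (Sum.inr v) (phi y ρ hΔ x).1
    rw [phi_fst]
    simp only [map_div₀, map_add, map_mul, map_one, map_pow, map_neg]
    ring
  · have hY := t_ne (D.t (Sum.inl v)) hy0
    have hR := t_ne (D.t (Sum.inl v)) hρ0
    have hD := t_ne (D.t (Sum.inl v)) hΔ
    have hb := b_eq D v hρ h2
    simp only [map_add, map_mul, map_one, map_pow] at hD
    show cc D y ρ p (Sum.inl v) * z3 D p x.1 (Sum.inl v) +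
        ca D y ρ p (Sum.inl v) * z4 D p x.2 (Sum.inl v) =
      D.tb (Sum.inl v) (phi y ρ hΔ x).2 - D.b v * qp D y ρ p v * D.tb (Sum.inl v) (phi y ρ hΔ x).1
    have e1 : D.tb (Sum.inl v) (phi y ρ hΔ x).2 =
        (-D.t (Sum.inl v) y * D.tb (Sum.inl v) x.1 + D.tb (Sum.inl v) x.2) /
          (1 + D.t (Sum.inl v) ρ * D.t (Sum.inl v) y ^ 2) := by
      rw [phi_snd, ← t_real D _ hy, ← t_real D _ hρ]
      unfold FamData.tb
      simp only [map_div₀, map_add, map_mul, map_one, map_pow, map_neg]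
    have e2 : D.tb (Sum.inl v) (phi y ρ hΔ x).1 =
        (D.tb (Sum.inl v) x.1 + D.t (Sum.inl v) y * D.t (Sum.inl v) ρ * D.tb (Sum.inl v) x.2) /
          (1 + D.t (Sum.inl v) ρ * D.t (Sum.inl v) y ^ 2) := by
      rw [phi_fst, ← t_real D _ hy, ← t_real D _ hρ]
      unfold FamData.tb
      simp only [map_div₀, map_add, map_mul, map_one, map_pow, map_neg]
    rw [e1, e2]
    by_cases hv : p v
    · rw [z3_pos D p _ v hv, z4_pos D p _ v hv]
      simp only [ca, cc, qp, hv, if_true, map_mul, zero_mul, one_mul, zero_add]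
      exact fId3 _ _ _ _ _ hb hD
    · rw [z3_neg D p _ v hv, z4_neg D p _ v hv]
      simp only [ca, cc, qp, hv, if_false, map_mul, zero_mul, add_zero]
      exact fId4 _ _ _ _ _ hb hD hY hR
  · show -D.t (Sum.inr v) y / D.t (Sum.inr v) (1 + ρ * y ^ 2) * D.t (Sum.inr v) x.1 +
        1 / D.t (Sum.inr v) (1 + ρ * y ^ 2) * D.t (Sum.inr v) x.2 =
      D.t (Sum.inr v) (phi y ρ hΔ x).2
    rw [phi_snd]
    simp only [map_div₀, map_add, map_mul, map_one, map_pow, map_neg]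
    ring

theorem minor_alg {g1 g2 g1' g2' κ c3 c4 α β γ : ℂ} (hκ : κ ≠ 0) (h3 : c3 ≠ 0) (h4 : c4 ≠ 0)
    (hαa : Alg α) (hα : α * α - β * γ ≠ 0) (hβ : Alg β) (hγ : Alg γ)
    (A1 : Alg ((α * g1 + γ * g2) / (κ * c3))) (A2 : Alg ((β * g1 + α * g2) / (κ * c4)))
    (A1' : Alg ((α * g1' + γ * g2') / (κ * c3))) (A2' : Alg ((β * g1' + α * g2') / (κ * c4))) :
    Alg ((g1 * g2' - g2 * g1') / (κ ^ 2 * (c3 * c4))) := by
  have h1 : Alg (((α * g1 + γ * g2) / (κ * c3)) * ((β * g1' + α * g2') / (κ * c4)) -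
      ((β * g1 + α * g2) / (κ * c4)) * ((α * g1' + γ * g2') / (κ * c3))) :=
    (A1.mul A2').sub (A2.mul A1')
  have h2 : Alg ((α * α - β * γ)⁻¹) := ((hαa.mul hαa).sub (hβ.mul hγ)).inv
  have h5 := h1.mul h2
  have h6 : (g1 * g2' - g2 * g1') / (κ ^ 2 * (c3 * c4)) =
      (((α * g1 + γ * g2) / (κ * c3)) * ((β * g1' + α * g2') / (κ * c4)) -
      ((β * g1 + α * g2) / (κ * c4)) * ((α * g1' + γ * g2') / (κ * c3))) *
        (α * α - β * γ)⁻¹ := by
    have e1 : ((α * g1 + γ * g2) / (κ * c3)) * ((β * g1' + α * g2') / (κ * c4)) -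
      ((β * g1 + α * g2) / (κ * c4)) * ((α * g1' + γ * g2') / (κ * c3)) =
      ((g1 * g2' - g2 * g1') / (κ ^ 2 * (c3 * c4))) * (α * α - β * γ) := by
      rw [div_mul_div_comm, div_mul_div_comm, mul_comm (κ * c4) (κ * c3), ← sub_div,
        show κ * c3 * (κ * c4) = κ ^ 2 * (c3 * c4) by ring, div_mul_eq_mul_div]
      congr 1
      ring
    rw [e1, mul_assoc, mul_inv_cancel₀ hα, mul_one]
  rw [h6]
  exact h5

end fam

end QPT_

open QPT_ in
theorem qpt_proof (h1 : Stmt_SUM) (h2 : Stmt_SALL) (h3 : Stmt_POSF) (h4 : Stmt_RLB) : Stmt_QPT := by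
  classical
  intro E _ _ I J _ _ _ _ D K y ρ ξ₃ p c₃ c₄ hK hy hy0 hρ hξ hξ₁ hξ₂ hp hnp hJ hS3 hS4
  have hq : qp D y ρ p ∈ D.Dom := qp_mem D y ρ ξ₃ p hy hy0 hρ hξ₁ hξ₂ (fun v hv => (hp v hv).1)
    (fun v hv => (hnp v hv).1)
  refine ⟨hq, fun B Θ hB hΘ => ?_⟩
  change D.Hq Θ (qp D y ρ p) _
  change SS (K.e ξ₃) (z3 D p) c₃ at hS3
  change SS (K.e (ρ * ξ₃)) (z4 D p) c₄ at hS4
  -- the determinant factor is nonzero
  have hΔ : 1 + ρ * y ^ 2 ≠ 0 := by
    obtain ⟨φ⟩ : Nonempty (E →+* ℂ) := inferInstance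
    obtain ⟨v, -⟩ := D.t_surj φ
    intro h
    have := D.pos1 v
    rw [hξ₁, h, mul_zero, map_zero] at this
    simp at this
  have hρ0 : ρ ≠ 0 := by
    obtain ⟨φ⟩ : Nonempty (E →+* ℂ) := inferInstance
    obtain ⟨v, -⟩ := D.t_surj φ
    intro h
    rw [h, zero_mul] at hξ₂
    rcases v with v | v
    · have := D.posI v
      rw [hξ₂, map_zero] at this
      simp at this
    · have := D.posJ v
      rw [hξ₂, map_zero] at this
      simp at this
  -- the sum of the two structures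
  have hc3 := hS3.1
  have hc4 := hS4.1
  have hsum : SS (eSum (K.e ξ₃) (K.e (ρ * ξ₃))) (zSum (z3 D p) (z4 D p)) (Sum.elim c₃ c₄) := by
    have hS3' := hS3
    have hS4' := hS4
    obtain ⟨-, B3, L3, F3, hB3, hP3, -⟩ := hS3'
    obtain ⟨-, B4, L4, F4, hB4, hP4, -⟩ := hS4'
    exact (h1 E E (I ⊕ J) (I ⊕ J) (K.e ξ₃) (K.e (ρ * ξ₃)) B3 B4 _ L3 _ L4 c₃ c₄ hB3 hP3 hB4 hP4).2
      ⟨hS3, hS4⟩
  obtain ⟨κ, hκ, hall⟩ := core h2 (eSum (K.e ξ₃) (K.e (ρ * ξ₃))) D.e (phi y ρ hΔ)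
    (phi_e D K y ρ ξ₃ hK hy hρ hξ₁ hξ₂ hΔ) (ca D y ρ p) (cb D y ρ p) (cc D y ρ p) (ca D y ρ p)
    (c_det D y ρ p hy0 hρ0 hΔ) (zSum (z3 D p) (z4 D p)) (D.zeta (qp D y ρ p)) D.L
    (z_eq D y ρ p hy hy0 hρ hρ0 hξ₂ hΔ) B hB (h3 E I J D B hB _ hq) (Θ (qp D y ρ p))
    (hΘ.th _ hq) (hΘ.nz _ hq) (Sum.elim c₃ c₄) hsum
  refine ⟨κ, Sum.elim (Sum.elim (fun v => if p v then c₃ (Sum.inl v) else c₄ (Sum.inl v))
    (fun _ => 1)) (Sum.elim (fun v => if p v then c₄ (Sum.inl v) else c₃ (Sum.inl v))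
    (fun _ => 1)), hκ, ?_, fun x => ⟨(hall x).1, fun v => ?_, fun v x' => ?_⟩⟩
  · intro i
    rcases i with (v | v) | (v | v)
    · simp only [Sum.elim_inl]
      split_ifs
      · exact hc3 _
      · exact hc4 _
    · simp
    · simp only [Sum.elim_inl, Sum.elim_inr]
      split_ifs
      · exact hc4 _
      · exact hc3 _
    · simp
  · obtain ⟨A1, A2⟩ := (hall x).2 (Sum.inl v)
    change Alg ((ca D y ρ p (Sum.inl v) * D.G Θ (FamData.i1 v) x (qp D y ρ p) +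
      cc D y ρ p (Sum.inl v) * D.G Θ (FamData.i2 v) x (qp D y ρ p)) / (κ * c₃ (Sum.inl v))) at A1
    change Alg ((cb D y ρ p (Sum.inl v) * D.G Θ (FamData.i1 v) x (qp D y ρ p) +
      ca D y ρ p (Sum.inl v) * D.G Θ (FamData.i2 v) x (qp D y ρ p)) / (κ * c₄ (Sum.inl v))) at A2
    show Alg (D.G Θ (FamData.i1 v) x (qp D y ρ p) /
        (κ * (if p v then c₃ (Sum.inl v) else c₄ (Sum.inl v)))) ∧
      Alg (D.G Θ (FamData.i2 v) x (qp D y ρ p) /
        (κ * (if p v then c₄ (Sum.inl v) else c₃ (Sum.inl v))))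
    by_cases hv : p v
    · simp only [ca, cb, cc, hv, if_true, zero_mul, one_mul, add_zero, zero_add] at A1 A2 ⊢
      exact ⟨A1, A2⟩
    · simp only [ca, cb, cc, hv, if_false, zero_mul, one_mul, add_zero, zero_add] at A1 A2 ⊢
      have hY := t_ne (D.t (Sum.inl v)) hy0
      have hRY := t_ne (D.t (Sum.inl v)) (mul_ne_zero hρ0 hy0)
      constructor
      · have := A2.mul (alg_t (D.t (Sum.inl v)) y)
        convert this using 1
        field_simp
      · have := A1.mul (alg_t (D.t (Sum.inl v)) (-(ρ * y)))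
        convert this using 1
        rw [map_neg]
        field_simp
  · obtain ⟨A1, A2⟩ := (hall x).2 (Sum.inr v)
    obtain ⟨A1', A2'⟩ := (hall x').2 (Sum.inr v)
    have hdd := c_det D y ρ p hy0 hρ0 hΔ (Sum.inr v)
    have a1 : Alg (ca D y ρ p (Sum.inr v)) := by
      have := alg_t (D.t (Sum.inr v)) (1 / (1 + ρ * y ^ 2))
      rw [map_div₀, map_one] at this
      exact this
    have a2 : Alg (cb D y ρ p (Sum.inr v)) := by
      have := alg_t (D.t (Sum.inr v)) ((y * ρ) / (1 + ρ * y ^ 2))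
      rw [map_div₀] at this
      exact this
    have a3 : Alg (cc D y ρ p (Sum.inr v)) := by
      have := alg_t (D.t (Sum.inr v)) ((-y) / (1 + ρ * y ^ 2))
      rw [map_div₀, map_neg] at this
      exact this
    exact minor_alg hκ (hc3 _) (hc4 _) a1 hdd a2 a3 A1 A2 A1' A2'

end

end Pool.Agent.SPF
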