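import Pool.Agent.SPF.StmtsE

set_option linter.unusedSectionVars false

/-!
# Module R4: relations between the period symbols of the CM types
-/

open scoped BigOperators
open Complex

namespace Pool.Agent.SPF

noncomputable section

namespace R4_

theorem cj_cj {E : Type} [Field E] (φ : E →+* ℂ) : cj (cj φ) = φ := by
  ext x
  simp [cj]

open Classical in
theorem inter_eq {E : Type} [Field E] [NumberField E] {Φ₁ Φ₂ Φ₃ Φ₄ : Finset (E →+* ℂ)}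
    (h : ∀ φ, (if φ ∈ Φ₁ then 1 else 0) + (if φ ∈ Φ₂ then 1 else 0) =
      (if φ ∈ Φ₃ then 1 else 0) + (if φ ∈ Φ₄ then (1 : ℕ) else 0)) (φ : E →+* ℂ) :
    (φ ∈ Φ₁ ∧ φ ∈ Φ₂) ↔ (φ ∈ Φ₃ ∧ φ ∈ Φ₄) := by
  have := h φ
  by_cases h1 : φ ∈ Φ₁ <;> by_cases h2 : φ ∈ Φ₂ <;> by_cases h3 : φ ∈ Φ₃ <;>
    by_cases h4 : φ ∈ Φ₄ <;> simp_all

open Classical in
theorem compl_eq {E : Type} [Field E] [NumberField E] {Φ₁ Φ₂ Φ₃ Φ₄ : Finset (E →+* ℂ)}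
    (t1 : IsType Φ₁) (t2 : IsType Φ₂)
    (h : ∀ φ, (φ ∈ Φ₁ ∧ φ ∈ Φ₂) ↔ (φ ∈ Φ₃ ∧ φ ∈ Φ₄)) : compl Φ₃ Φ₄ Φ₁ = Φ₂ := by
  ext φ
  unfold compl
  rw [Finset.mem_union, Finset.mem_inter, ← h φ, Finset.mem_image]
  constructor
  · rintro (⟨-, h2⟩ | ⟨ψ, hψ, rfl⟩)
    · exact h2
    · rw [Finset.mem_sdiff, Finset.mem_inter, ← h ψ] at hψ
      have h1 : ψ ∉ Φ₂ := fun hh => hψ.2 ⟨hψ.1, hh⟩
      rw [t2 (cj ψ), cj_cj]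
      exact h1
  · intro h2
    by_cases h1 : φ ∈ Φ₁
    · exact Or.inl ⟨h1, h2⟩
    · right
      have h3 : cj φ ∈ Φ₁ := by rw [t1 (cj φ), cj_cj]; exact h1
      have h4 : cj φ ∉ Φ₂ := (t2 φ).1 h2
      refine ⟨cj φ, ?_, cj_cj φ⟩
      rw [Finset.mem_sdiff, Finset.mem_inter, ← h (cj φ)]
      exact ⟨h3, fun hh => h4 hh.2⟩

end R4_

open R4_ in
theorem r4_proof (h1 : Stmt_STEPE) (h2 : Stmt_UNQ) : Stmt_R4 := by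
  classical
  intro E _ _ K _ _ Φ₁ Φ₂ Φ₃ Φ₄ ξ₁ ξ₂ ξ₃ ξ₄ c₁ c₂ c₃ c₄ t1 t2 t3 t4 hs S1 S2 S3 S4 φ hφ
  have hi := inter_eq (Φ₁ := Φ₁) (Φ₂ := Φ₂) (Φ₃ := Φ₃) (Φ₄ := Φ₄) (fun ψ => hs ψ)
  have hc := compl_eq t1 t2 hi
  have hφ' := Finset.mem_inter.1 hφ
  have hφ3 := (hi φ).1 hφ'
  obtain ⟨ξ, ξ', c, c', s, s', hh⟩ := h1 E K Φ₃ Φ₄ Φ₁ ξ₃ ξ₄ c₃ c₄ t3 t4 t1
    ⟨φ, Finset.mem_inter.2 hφ3⟩ (fun ψ hψ => ((hi ψ).2 (Finset.mem_inter.1 hψ)).1) S3 S4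
  rw [hc] at s'
  have a1 := h2 E K Φ₁ ξ₁ ξ c₁ c t1 S1 s φ hφ'.1
  have a2 := h2 E K Φ₂ ξ₂ ξ' c₂ c' t2 S2 s' φ hφ'.2
  have a3 := hh φ (Finset.mem_inter.2 hφ3)
  have n1 : c φ ≠ 0 := s.2.2.1 ⟨φ, hφ'.1⟩
  have n2 : c' φ ≠ 0 := s'.2.2.1 ⟨φ, hφ'.2⟩
  have e : c₁ φ * c₂ φ / (c₃ φ * c₄ φ) =
      c₁ φ / c φ * (c₂ φ / c' φ) * (c φ * c' φ / (c₃ φ * c₄ φ)) := by
    have e1 : c₁ φ = c₁ φ / c φ * c φ := by rw [div_mul_cancel₀ _ n1]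
    have e2 : c₂ φ = c₂ φ / c' φ * c' φ := by rw [div_mul_cancel₀ _ n2]
    conv_lhs => rw [e1, e2]
    ring
  rw [e]
  exact (a1.mul a2).mul a3

end

end Pool.Agent.SPF
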