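import Pool.Agent.SPF.Kit

set_option autoImplicit false
set_option linter.unusedSectionVars false
set_option linter.unusedSimpArgs false

/-!
# SPF, module REL: the Hecke rule
-/

open scoped BigOperators
open Complex

namespace Pool.Agent.SPF

namespace REL_

/-- The derivative along a line. -/
theorem line_deriv {ι : Type} [Fintype ι] {f : (ι → ℂ) → ℂ} (hf : Differentiable ℂ f)
    (v : ι → ℂ) : HasDerivAt (fun t : ℂ => f (t • v)) (fderiv ℂ f 0 v) 0 := by
  have h1 : HasDerivAt (fun t : ℂ => t • v) v 0 := by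
    have := (hasDerivAt_id (0 : ℂ)).smul_const v
    rw [one_smul] at this
    exact this
  have h2 : HasFDerivAt f (fderiv ℂ f 0) ((fun t : ℂ => t • v) 0) := by
    show HasFDerivAt f (fderiv ℂ f 0) ((0 : ℂ) • v)
    rw [zero_smul]
    exact (hf 0).hasFDerivAt
  exact h2.comp_hasDerivAt 0 h1

section

variable {E : Type} [Field E] [NumberField E] {I J : Type} [Fintype I] [Fintype J]
  [DecidableEq I] [DecidableEq J] {D : FamData E I J}

/-- The isometry as a linear map. -/
noncomputable def gl (g : D.Iso) : (E × E) →ₗ[ℚ] (E × E) where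
  toFun := g.app
  map_add' := by
    intro x y
    unfold FamData.Iso.app
    ext
    · simp only [Prod.fst_add, Prod.snd_add]
      ring
    · simp only [Prod.fst_add, Prod.snd_add]
      ring
  map_smul' := by
    intro r x
    unfold FamData.Iso.app
    ext
    · simp only [Prod.smul_fst, Prod.smul_snd, RingHom.id_apply]
      rw [smul_add, mul_smul_comm, mul_smul_comm]
    · simp only [Prod.smul_fst, Prod.smul_snd, RingHom.id_apply]
      rw [smul_add, mul_smul_comm, mul_smul_comm]

theorem gl_apply (g : D.Iso) (x : E × E) : gl g x = g.app x := rfl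

theorem M_smul (g : D.Iso) (s : I → ℂ) (t : ℂ) (z : Co I J → ℂ) :
    g.M s (t • z) = t • g.M s z := by
  funext i
  rcases i with (v | v) | (v | v)
  · simp only [FamData.Iso.M, Pi.smul_apply, smul_eq_mul]
    ring
  · simp only [FamData.Iso.M, Pi.smul_apply, smul_eq_mul]
    ring
  · simp only [FamData.Iso.M, Pi.smul_apply, smul_eq_mul]
    ring
  · simp only [FamData.Iso.M, Pi.smul_apply, smul_eq_mul]
    ring

theorem M_zero (g : D.Iso) (s : I → ℂ) : g.M s 0 = 0 := by
  have := M_smul g s 0 0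
  rw [zero_smul, zero_smul] at this
  exact this

theorem M_i1 (g : D.Iso) (s : I → ℂ) (v : I) :
    g.M s (Pi.single (FamData.i1 v) 1) =
      (D.t (Sum.inl v) g.det / g.j s v) • (Pi.single (FamData.i1 v) 1 : Co I J → ℂ) := by
  funext i
  rcases i with (w | w) | (w | w)
  · simp only [FamData.Iso.M, Pi.smul_apply, smul_eq_mul, Pi.single_apply, Sum.inl.injEq]
    by_cases h : w = v
    · subst h
      simp
    · simp [h]
  · simp [FamData.Iso.M, Pi.single_apply]
  · simp [FamData.Iso.M, Pi.single_apply]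
  · simp [FamData.Iso.M, Pi.single_apply]

theorem M_i2 (g : D.Iso) (s : I → ℂ) (v : I) :
    g.M s (Pi.single (FamData.i2 v) 1) =
      (1 / g.j s v) • (Pi.single (FamData.i2 v) 1 : Co I J → ℂ) := by
  funext i
  rcases i with (w | w) | (w | w)
  · simp [FamData.Iso.M, Pi.single_apply]
  · simp [FamData.Iso.M, Pi.single_apply]
  · simp only [FamData.Iso.M, Pi.smul_apply, smul_eq_mul, Pi.single_apply, Sum.inr.injEq,
      Sum.inl.injEq]
    by_cases h : w = v
    · subst h
      simp
    · simp [h]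
  · simp [FamData.Iso.M, Pi.single_apply]

theorem M_j1 (g : D.Iso) (s : I → ℂ) (v : J) :
    g.M s (Pi.single (FamData.j1 v) 1) =
      (D.t (Sum.inr v) g.a) • (Pi.single (FamData.j1 v) 1 : Co I J → ℂ) +
        (D.t (Sum.inr v) g.c) • (Pi.single (FamData.j2 v) 1 : Co I J → ℂ) := by
  funext i
  rcases i with (w | w) | (w | w)
  · simp [FamData.Iso.M, Pi.single_apply]
  · simp only [FamData.Iso.M, Pi.add_apply, Pi.smul_apply, smul_eq_mul, Pi.single_apply,
      Sum.inl.injEq, Sum.inr.injEq]
    by_cases h : w = v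
    · subst h
      simp
    · simp [h]
  · simp [FamData.Iso.M, Pi.single_apply]
  · simp only [FamData.Iso.M, Pi.add_apply, Pi.smul_apply, smul_eq_mul, Pi.single_apply,
      Sum.inl.injEq, Sum.inr.injEq]
    by_cases h : w = v
    · subst h
      simp
    · simp [h]

theorem M_j2 (g : D.Iso) (s : I → ℂ) (v : J) :
    g.M s (Pi.single (FamData.j2 v) 1) =
      (D.t (Sum.inr v) g.b) • (Pi.single (FamData.j1 v) 1 : Co I J → ℂ) +
        (D.t (Sum.inr v) g.d) • (Pi.single (FamData.j2 v) 1 : Co I J → ℂ) := by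
  funext i
  rcases i with (w | w) | (w | w)
  · simp [FamData.Iso.M, Pi.single_apply]
  · simp only [FamData.Iso.M, Pi.add_apply, Pi.smul_apply, smul_eq_mul, Pi.single_apply,
      Sum.inl.injEq, Sum.inr.injEq]
    by_cases h : w = v
    · subst h
      simp
    · simp [h]
  · simp [FamData.Iso.M, Pi.single_apply]
  · simp only [FamData.Iso.M, Pi.add_apply, Pi.smul_apply, smul_eq_mul, Pi.single_apply,
      Sum.inl.injEq, Sum.inr.injEq]
    by_cases h : w = v
    · subst h
      simp
    · simp [h]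

theorem Q_single (g : D.Iso) (s : I → ℂ) (t : ℂ) (i : Co I J) :
    g.Q s (t • (Pi.single i 1 : Co I J → ℂ)) = 0 := by
  unfold FamData.Iso.Q
  refine Finset.sum_eq_zero (fun v _ => ?_)
  by_cases h : FamData.i1 v = i
  · have h2 : ¬ (FamData.i2 v = i) := by
      rw [← h]
      simp
    have h3 : (t • (Pi.single i 1 : Co I J → ℂ)) (FamData.i2 v) = 0 := by
      rw [Pi.smul_apply, Pi.single_eq_of_ne h2, smul_zero]
    rw [h3, mul_zero]
  · have h3 : (t • (Pi.single i 1 : Co I J → ℂ)) (FamData.i1 v) = 0 := by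
      rw [Pi.smul_apply, Pi.single_eq_of_ne h, smul_zero]
    rw [h3, mul_zero, zero_mul]

theorem Q_zero (g : D.Iso) (s : I → ℂ) : g.Q s 0 = 0 := by
  unfold FamData.Iso.Q
  refine Finset.sum_eq_zero (fun v _ => ?_)
  simp

theorem Q_diff (g : D.Iso) (s : I → ℂ) : Differentiable ℂ (g.Q s) := by
  unfold FamData.Iso.Q
  fun_prop

theorem M_diff (g : D.Iso) (s : I → ℂ) : Differentiable ℂ (g.M s) := by
  rw [differentiable_pi]
  intro i
  rcases i with (v | v) | (v | v)
  · simp only [FamData.Iso.M]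
    fun_prop
  · simp only [FamData.Iso.M]
    fun_prop
  · simp only [FamData.Iso.M]
    fun_prop
  · simp only [FamData.Iso.M]
    fun_prop

end

end REL_

open REL_ in
/-- Module REL. -/
theorem rel_proof (hTHU : Stmt_THU) (hAVG : Stmt_AVG) (hPOSF : Stmt_POSF) (hISO : Stmt_ISO)
    (hPSB : Stmt_PSB) : Stmt_REL := by
  intro E _ _ I J _ _ _ _ D B Θ hB hΘ g
  obtain ⟨_, he, hsurj, hs0⟩ := hISO E I J D g
  have hsur : Function.Surjective (gl g) := by
    intro x
    obtain ⟨y, hy⟩ := hsurj x
    exact ⟨y, hy⟩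
  have hinj : Function.Injective (gl g) := LinearMap.injective_iff_surjective.mpr hsur
  let G : (E × E) ≃ₗ[ℚ] (E × E) := LinearEquiv.ofBijective (gl g) ⟨hinj, hsur⟩
  let B2 : Module.Basis (Co I J ⊕ Co I J) ℚ (E × E) := B.map G.symm
  have hB2 : ∀ j, g.app (B2 j) = B j := by
    intro j
    have h1 : G (G.symm (B j)) = B j := G.apply_symm_apply _
    have h2 : B2 j = G.symm (B j) := Module.Basis.map_apply _ _ _
    rw [h2]
    exact h1
  have hsymp : SympBasis D.e B2 := by
    refine ⟨hB.alt, ?_, ?_, ?_⟩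
    · intro i j
      rw [← he, hB2, hB2]
      exact hB.ll i j
    · intro i j
      rw [← he, hB2, hB2]
      exact hB.rr i j
    · intro i j
      rw [← he, hB2, hB2]
      exact hB.lr i j
  obtain ⟨C, hC1, hC2⟩ := hAVG (E × E) (Co I J) D.e B B2 hB hsymp
  refine ⟨C, hC1, ?_⟩
  intro s hs
  obtain ⟨hj, hact, hzeta, hMs, hTT⟩ := hs0 s hs
  have hP : IsPStr D.e B (D.zeta s) D.L := hPOSF E I J D B hB s hs
  have hP2 : IsPStr D.e B2 (D.zeta s) D.L := hPSB (E × E) (Co I J) D.e B B2 (D.zeta s) D.L hP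
  have hth := hΘ.th s hs
  obtain ⟨hc1, hc2⟩ := hC2 (D.zeta s) D.L hP (Θ s) hth (hΘ.nz s hs)
  set F' : (Co I J → ℂ) → ℂ := fun z' => cexp (-(g.Q s z')) * Θ (g.act s) (g.M s z') with hF'
  have hthg := hΘ.th (g.act s) hact
  have hF'th : IsTh (D.zeta s) D.L B2 F' := by
    refine ⟨?_, ?_⟩
    · exact ((Q_diff g s).neg.cexp).mul (hthg.entire.comp (M_diff g s))
    · intro j
      funext z
      have h1 := hTT (Θ (g.act s)) (B2 j) z
      rw [hB2, hthg.per j] at h1
      have h2 : TT (D.zeta s) D.L (B2 j) F' z =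
          cexp (-(g.Q s z)) * Θ (g.act s) (g.M s z) := by
        rw [h1, ← mul_assoc, ← Complex.exp_add]
        simp only [neg_add_cancel, Complex.exp_zero, one_mul]
        rfl
      exact h2
  have hF'0 : F' ≠ 0 := by
    intro h0
    apply hΘ.nz (g.act s) hact
    funext w
    obtain ⟨z, hz⟩ := hMs w
    have h1 := congrFun h0 z
    rw [hF'] at h1
    simp only [Pi.zero_apply, mul_eq_zero, Complex.exp_ne_zero, false_or] at h1
    rw [hz] at h1
    exact h1
  obtain ⟨κ, hκ⟩ := hTHU (E × E) (Co I J) D.e B2 (D.zeta s) D.L hsymp hP2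
    (comb (D.zeta s) D.L C (Θ s)) F' hc1 hF'th hc2
  have hκ0 : κ ≠ 0 := by
    intro h0
    apply hF'0
    rw [hκ, h0]
    funext z
    simp
  -- the main identity
  have hmain : ∀ (x : E × E) (z : Co I J → ℂ),
      TT (D.zeta (g.act s)) D.L (g.app x) (Θ (g.act s)) (g.M s z) =
        cexp (g.Q s z) * (κ * C.sum fun y a => a * cexp (Real.pi * Complex.I * (D.e x y : ℚ)) *
          TT (D.zeta s) D.L (x + y) (Θ s) z) := by
    intro x z
    rw [hTT]
    have h1 : TT (D.zeta s) D.L x (fun z' => cexp (-(g.Q s z')) * Θ (g.act s) (g.M s z')) z =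
        TT (D.zeta s) D.L x F' z := rfl
    rw [h1, hκ, TT_smul, TT_comb hP]
  refine ⟨κ, hκ0, ?_⟩
  intro x
  set T : (Co I J → ℂ) → ℂ := TT (D.zeta (g.act s)) D.L (g.app x) (Θ (g.act s)) with hT
  have hTd : Differentiable ℂ T := TT_differentiable _ hthg.entire
  -- derivatives
  have hder : ∀ i : Co I J, fderiv ℂ T 0 (g.M s (Pi.single i 1)) =
      κ * Hsum D.e C (fun y => D.G Θ i y s) x := by
    intro i
    have h1 := line_deriv hTd (g.M s (Pi.single i 1))
    have h2 : (fun t : ℂ => T (t • g.M s (Pi.single i 1))) = fun t : ℂ =>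
        κ * ∑ y ∈ C.support, C y * cexp (Real.pi * Complex.I * (D.e x y : ℚ)) *
          TT (D.zeta s) D.L (x + y) (Θ s) (t • (Pi.single i 1 : Co I J → ℂ)) := by
      funext t
      rw [← M_smul, hT, hmain, Q_single, Complex.exp_zero, one_mul]
      rfl
    rw [h2] at h1
    have h3 : HasDerivAt (fun t : ℂ =>
        κ * ∑ y ∈ C.support, C y * cexp (Real.pi * Complex.I * (D.e x y : ℚ)) *
          TT (D.zeta s) D.L (x + y) (Θ s) (t • (Pi.single i 1 : Co I J → ℂ)))
        (κ * ∑ y ∈ C.support, C y * cexp (Real.pi * Complex.I * (D.e x y : ℚ)) *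
          fderiv ℂ (TT (D.zeta s) D.L (x + y) (Θ s)) 0 (Pi.single i 1)) 0 := by
      refine HasDerivAt.const_mul κ ?_
      refine HasDerivAt.fun_sum (fun y _ => ?_)
      refine HasDerivAt.const_mul _ ?_
      exact line_deriv (TT_differentiable _ hth.entire) _
    exact h1.unique h3
  refine ⟨?_, ?_, ?_⟩
  · have h1 := hmain x 0
    rw [M_zero, Q_zero, Complex.exp_zero, one_mul] at h1
    exact h1
  · intro v
    constructor
    · have h1 := hder (FamData.i1 v)
      rw [M_i1, map_smul, smul_eq_mul] at h1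
      exact h1
    · have h1 := hder (FamData.i2 v)
      rw [M_i2, map_smul, smul_eq_mul] at h1
      exact h1
  · intro v
    constructor
    · have h1 := hder (FamData.j1 v)
      rw [M_j1, map_add, map_smul, map_smul, smul_eq_mul, smul_eq_mul] at h1
      exact h1
    · have h1 := hder (FamData.j2 v)
      rw [M_j2, map_add, map_smul, map_smul, smul_eq_mul, smul_eq_mul] at h1
      exact h1

end Pool.Agent.SPF
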