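import Pool.Agent.SPF.StmtsE

set_option linter.unusedSectionVars false

/-!
# Module RLB: relabelling of the coordinates
-/

open scoped BigOperators
open Complex

namespace Pool.Agent.SPF

noncomputable section

namespace RLB_

variable {V : Type} [AddCommGroup V] [Module ℚ V] {ι ι' : Type} [Fintype ι] [DecidableEq ι]
  [Fintype ι'] [DecidableEq ι']

/-- relabelled linear map -/
def rel (f : ι ≃ ι') (L : V →ₗ[ℚ] (ι → ℂ)) : V →ₗ[ℚ] (ι' → ℂ) where
  toFun := fun x j => L x (f.symm j)
  map_add' := by
    intro x y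
    funext j
    simp
  map_smul' := by
    intro r x
    funext j
    simp

theorem dotp_rel (f : ι ≃ ι') (a b : ι → ℂ) (a' b' : ι' → ℂ) (ha : ∀ i, a' (f i) = a i)
    (hb : ∀ i, b' (f i) = b i) : dotp a' b' = dotp a b := by
  unfold dotp
  rw [← Equiv.sum_comp f]
  exact Finset.sum_congr rfl fun i _ => by rw [ha, hb]

end RLB_

open RLB_ in
theorem rlb_proof : Stmt_RLB := by
  intro V _ _ ι ι' _ _ _ _ f e ζ ζ' c c' hζ hc hS
  obtain ⟨c0, B, L, F, hB, hP, hT, hF, κ, hκ, hD⟩ := hS
  have hL : ∀ x i, rel f L x (f i) = L x i := by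
    intro x i
    show L x (f.symm (f i)) = L x i
    rw [Equiv.symm_apply_apply]
  set B' := B.reindex (Equiv.sumCongr f f) with hB'
  have bB : ∀ k, B' k = B ((Equiv.sumCongr f f).symm k) := by
    intro k; rw [hB', Module.Basis.reindex_apply]
  have bl : ∀ j, B' (Sum.inl j) = B (Sum.inl (f.symm j)) := by
    intro j; rw [bB]; rfl
  have br : ∀ j, B' (Sum.inr j) = B (Sum.inr (f.symm j)) := by
    intro j; rw [bB]; rfl
  have eTT : ∀ x, TT ζ' (rel f L) x (fun z => F (fun i => z (f i))) =
      fun z => TT ζ L x F (fun i => z (f i)) := by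
    intro x
    funext z
    simp only [TT]
    rw [dotp_rel f (L x) (fun i => z (f i)) (rel f L x) z (hL x) (fun i => rfl),
      dotp_rel f (L x) (ζ x) (rel f L x) (ζ' x) (hL x) (hζ x)]
    congr 2
    funext i
    simp only [Pi.add_apply, hζ]
  have epd : ∀ (G : (ι → ℂ) → ℂ), Differentiable ℂ G → ∀ (j : ι') (z : ι' → ℂ),
      pd j (fun z => G (fun i => z (f i))) z = pd (f.symm j) G (fun i => z (f i)) := by
    intro G hG j z
    unfold pd
    have h1 : HasFDerivAt (fun z : ι' → ℂ => (fun i => z (f i) : ι → ℂ))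
        (ContinuousLinearMap.pi fun i => ContinuousLinearMap.proj (R := ℂ) (φ := fun _ : ι' => ℂ)
          (f i)) z := by
      rw [hasFDerivAt_pi]
      intro i
      exact hasFDerivAt_apply (f i) z
    have h2 := (hG (fun i => z (f i))).hasFDerivAt.comp z h1
    have h3 : fderiv ℂ (fun z => G (fun i => z (f i))) z = _ := h2.fderiv
    rw [h3, ContinuousLinearMap.comp_apply]
    congr 1
    funext i
    rw [ContinuousLinearMap.pi_apply, ContinuousLinearMap.proj_apply]
    by_cases h : f i = j
    · subst h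
      rw [Pi.single_eq_same, Equiv.symm_apply_apply, Pi.single_eq_same]
    · have h' : i ≠ f.symm j := by
        intro hh; apply h; rw [hh, Equiv.apply_symm_apply]
      rw [Pi.single_eq_of_ne h, Pi.single_eq_of_ne h']
  refine ⟨?_, B', rel f L, fun z => F (fun i => z (f i)), ?_, ?_, ?_, ?_, κ, hκ, ?_⟩
  · intro j
    have := hc (f.symm j)
    rw [Equiv.apply_symm_apply] at this
    rw [this]; exact c0 _
  · refine ⟨hB.alt, ?_, ?_, ?_⟩
    · intro i j; rw [bl, bl]; exact hB.ll _ _
    · intro i j; rw [br, br]; exact hB.rr _ _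
    · intro i j
      rw [bl, br, hB.lr]
      by_cases h : i = j
      · rw [if_pos h, if_pos (by rw [h])]
      · rw [if_neg h, if_neg (fun hh => h (f.symm.injective hh))]
  · refine ⟨?_, ?_⟩
    · intro x y
      rw [dotp_rel f (L x) (ζ y) _ _ (hL x) (hζ y), dotp_rel f (L y) (ζ x) _ _ (hL y) (hζ x)]
      exact hP.rel x y
    · intro r hr
      have := hP.pos (fun k => r (Equiv.sumCongr f f k)) (by
        intro h0
        apply hr
        funext k
        have := congrFun h0 ((Equiv.sumCongr f f).symm k)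
        simp only [Equiv.apply_symm_apply] at this
        exact this)
      have e1 : ∑ j, ∑ k, (r j : ℂ) * (r k : ℂ) * dotp (rel f L (B' j)) (ζ' (B' k)) =
          ∑ j, ∑ k, ((r (Equiv.sumCongr f f j) : ℝ) : ℂ) * ((r (Equiv.sumCongr f f k) : ℝ) : ℂ) *
            dotp (L (B j)) (ζ (B k)) := by
        rw [← Equiv.sum_comp (Equiv.sumCongr f f)]
        refine Finset.sum_congr rfl fun j _ => ?_
        rw [← Equiv.sum_comp (Equiv.sumCongr f f)]
        refine Finset.sum_congr rfl fun k _ => ?_
        rw [bB, bB, Equiv.symm_apply_apply, Equiv.symm_apply_apply,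
          dotp_rel f (L (B j)) (ζ (B k)) _ _ (hL (B j)) (hζ (B k))]
      rw [e1]; exact this
  · refine ⟨?_, ?_⟩
    · have h1 : Differentiable ℂ (fun z : ι' → ℂ => (fun i => z (f i) : ι → ℂ)) := by fun_prop
      exact hT.entire.comp h1
    · intro k
      rw [eTT, bB, hT.per]
  · intro h0
    apply hF
    funext z
    have := congrFun h0 (fun j => z (f.symm j))
    simp only [Equiv.symm_apply_apply] at this
    exact this
  · intro x
    obtain ⟨a1, a2⟩ := hD x
    rw [eTT]
    refine ⟨a1, ?_⟩
    intro j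
    rw [epd _ (TT_differentiable x hT.entire) j 0]
    have hcj : c' j = c (f.symm j) := by
      have := hc (f.symm j)
      rwa [Equiv.apply_symm_apply] at this
    rw [hcj]
    exact a2 (f.symm j)

end

end Pool.Agent.SPF
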