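import Pool.Agent.SPF.Kit

/-!
# SPF: SALL, independence of choices
-/

open scoped BigOperators
open Complex

namespace Pool.Agent.SPF

noncomputable section

namespace SALL_

theorem alg_sum {α : Type} (t : Finset α) (f : α → ℂ) (h : ∀ y ∈ t, Alg (f y)) :
    Alg (∑ y ∈ t, f y) := by
  classical
  refine Finset.sum_induction f Alg (fun a b ha hb => ha.add hb) ?_ h
  exact isAlgebraic_zero

theorem alg_exp (q : ℚ) : Alg (cexp (Real.pi * I * (q : ℚ))) := by
  have hd : (q.den : ℂ) ≠ 0 := by exact_mod_cast q.den_nz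
  have h1 : cexp (Real.pi * I * (q : ℚ)) ^ (2 * q.den) = 1 := by
    rw [← Complex.exp_nat_mul]
    have h2 : ((2 * q.den : ℕ) : ℂ) * (Real.pi * I * (q : ℚ)) = (q.num : ℤ) * (2 * Real.pi * I) := by
      have h3 : ((q : ℚ) : ℂ) * (q.den : ℂ) = (q.num : ℂ) := by
        have := Rat.mul_den_eq_num q
        exact_mod_cast congrArg (fun x : ℚ => (x : ℂ)) this
      push_cast
      linear_combination (2 * Real.pi * I) * h3
    rw [h2]
    exact Complex.exp_int_mul_two_pi_mul_I q.num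
  have hpos : 0 < 2 * q.den := Nat.mul_pos two_pos q.den_pos
  refine IsAlgebraic.of_pow hpos ?_
  rw [h1]
  exact isAlgebraic_one

variable {V : Type} [AddCommGroup V] [Module ℚ V] {ι : Type} [Fintype ι] [DecidableEq ι]
variable {e : V →ₗ[ℚ] V →ₗ[ℚ] ℚ} {B : Module.Basis (ι ⊕ ι) ℚ V} {ζ L : V →ₗ[ℚ] (ι → ℂ)}

theorem differentiable_TT (x : V) {F : (ι → ℂ) → ℂ} (hF : Differentiable ℂ F) :
    Differentiable ℂ (TT ζ L x F) := TT_differentiable x hF

/-- the data of a combination of translates -/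
theorem sdat_comb (h : IsPStr e B ζ L) {F : (ι → ℂ) → ℂ} (hF : Differentiable ℂ F) {c : ι → ℂ}
    (C : V →₀ ℂ) (hC : ∀ y, Alg (C y)) (hS : SDat ζ L F c) : SDat ζ L (comb ζ L C F) c := by
  obtain ⟨κ, hκ, hx⟩ := hS
  refine ⟨κ, hκ, fun x => ⟨?_, fun i => ?_⟩⟩
  · rw [TT_comb h, Finsupp.sum, Finset.sum_div]
    refine alg_sum _ _ fun y _ => ?_
    have e1 : C y * cexp (Real.pi * I * (e x y : ℚ)) * TT ζ L (x + y) F 0 / κ =
        C y * cexp (Real.pi * I * (e x y : ℚ)) * (TT ζ L (x + y) F 0 / κ) := by ring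
    rw [e1]
    exact ((hC y).mul (alg_exp _)).mul (hx _).1
  · have e0 : TT ζ L x (comb ζ L C F) = fun z => ∑ y ∈ C.support,
        (C y * cexp (Real.pi * I * (e x y : ℚ))) * TT ζ L (x + y) F z := by
      funext z
      rw [TT_comb h]
      rfl
    have e1 : pd i (TT ζ L x (comb ζ L C F)) 0 = ∑ y ∈ C.support,
        (C y * cexp (Real.pi * I * (e x y : ℚ))) * pd i (TT ζ L (x + y) F) 0 := by
      rw [e0]
      unfold pd
      have h1 : HasFDerivAt (fun z => ∑ y ∈ C.support,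
          (C y * cexp (Real.pi * I * (e x y : ℚ))) * TT ζ L (x + y) F z)
          (∑ y ∈ C.support, (C y * cexp (Real.pi * I * (e x y : ℚ))) •
            fderiv ℂ (TT ζ L (x + y) F) 0) 0 := by
        refine HasFDerivAt.fun_sum fun y _ => ?_
        exact ((TT_differentiable (x + y) hF) 0).hasFDerivAt.const_mul _
      rw [h1.fderiv]
      simp
    rw [e1, Finset.sum_div]
    refine alg_sum _ _ fun y _ => ?_
    have e2 : C y * cexp (Real.pi * I * (e x y : ℚ)) * pd i (TT ζ L (x + y) F) 0 / (κ * c i) =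
        C y * cexp (Real.pi * I * (e x y : ℚ)) * (pd i (TT ζ L (x + y) F) 0 / (κ * c i)) := by
      ring
    rw [e2]
    exact ((hC y).mul (alg_exp _)).mul ((hx _).2 i)

/-- the real basis `ζ (B j)` of `ℂ^n` -/
theorem exists_basis (h : IsPStr e B ζ L) :
    ∃ b : Module.Basis (ι ⊕ ι) ℝ (ι → ℂ), ∀ j, b j = ζ (B j) := by
  have hli : LinearIndependent ℝ (fun j : ι ⊕ ι => ζ (B j)) := by
    rw [Fintype.linearIndependent_iff]
    intro r hr
    by_contra hc
    push Not at hc
    have hr0 : r ≠ 0 := by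
      rintro rfl
      obtain ⟨i, hi⟩ := hc
      exact hi rfl
    have hp := h.pos r hr0
    have h2 : ∑ j, ∑ k, (r j : ℂ) * (r k : ℂ) * dotp (L (B j)) (ζ (B k)) =
        ∑ j, (r j : ℂ) * dotp (L (B j)) (∑ k, r k • ζ (B k)) := by
      refine Finset.sum_congr rfl fun j _ => ?_
      have h3 : dotp (L (B j)) (∑ k, r k • ζ (B k)) = ∑ k, (r k : ℂ) * dotp (L (B j)) (ζ (B k)) := by
        simp only [dotp, Finset.sum_apply, Pi.smul_apply, Complex.real_smul, Finset.mul_sum]
        rw [Finset.sum_comm]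
        refine Finset.sum_congr rfl fun k _ => Finset.sum_congr rfl fun i _ => ?_
        ring
      rw [h3, Finset.mul_sum]
      exact Finset.sum_congr rfl fun k _ => by ring
    rw [h2, hr] at hp
    simp [dotp_zero_right] at hp
  have hcard : Fintype.card (ι ⊕ ι) = Module.finrank ℝ (ι → ℂ) := by
    rw [Module.finrank_pi_fintype]
    simp [Complex.finrank_real_complex, Fintype.card_sum]
    ring
  exact ⟨basisOfLinearIndependentOfCardEqFinrank' _ hli hcard, fun j => by simp⟩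

/-- the difference of two structures with the same `ζ` -/
theorem exists_M {B₀ : Module.Basis (ι ⊕ ι) ℚ V} {L₀ : V →ₗ[ℚ] (ι → ℂ)} (h : IsPStr e B ζ L)
    (h₀ : IsPStr e B₀ ζ L₀) : ∃ M : (ι → ℂ) →ₗ[ℂ] (ι → ℂ),
      (∀ w w', dotp (M w) w' = dotp (M w') w) ∧ ∀ x, L x = L₀ x + M (ζ x) := by
  obtain ⟨b, hb⟩ := exists_basis h
  set M : (ι → ℂ) →ₗ[ℝ] (ι → ℂ) := b.constr ℝ (fun j => L (B j) - L₀ (B j)) with hM
  have hMb : ∀ j, M (ζ (B j)) = L (B j) - L₀ (B j) := by
    intro j
    rw [← hb j, hM, Module.Basis.constr_basis]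
  have hsym0 : ∀ j k, dotp (M (ζ (B j))) (ζ (B k)) = dotp (M (ζ (B k))) (ζ (B j)) := by
    intro j k
    rw [hMb, hMb]
    have h1 := h.rel (B j) (B k)
    have h2 := h₀.rel (B j) (B k)
    rw [sub_eq_add_neg, sub_eq_add_neg, dotp_add_left, dotp_add_left, dotp_neg_left,
      dotp_neg_left]
    linear_combination h1 - h2
  have hsmulR : ∀ (a : ι → ℂ) (r : ℝ) (z : ι → ℂ), dotp a (r • z) = (r : ℂ) * dotp a z := by
    intro a r z
    have : r • z = (r : ℂ) • z := by
      funext i; simp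
    rw [this, dotp_smul_right]
  have hsmulL : ∀ (a : ι → ℂ) (r : ℝ) (z : ι → ℂ), dotp (r • a) z = (r : ℂ) * dotp a z := by
    intro a r z
    rw [dotp_comm, hsmulR, dotp_comm]
  have haddL : ∀ (a a' z : ι → ℂ), dotp (a + a') z = dotp a z + dotp a' z := dotp_add_left
  set β : (ι → ℂ) →ₗ[ℝ] (ι → ℂ) →ₗ[ℝ] ℂ := LinearMap.mk₂ ℝ (fun w w' => dotp (M w) w')
    (fun w w₁ w' => by rw [map_add, dotp_add_left])
    (fun r w w' => by rw [map_smul, hsmulL, Complex.real_smul])
    (fun w w' w₁ => by rw [dotp_add_right])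
    (fun r w w' => by rw [hsmulR, Complex.real_smul]) with hβ
  have hβe : β = β.flip := by
    refine LinearMap.ext_basis b b fun j k => ?_
    rw [LinearMap.flip_apply, hb, hb]
    exact hsym0 j k
  have hsym : ∀ w w', dotp (M w) w' = dotp (M w') w := by
    intro w w'
    have h1 := congrArg (fun f => f w w') hβe
    simp only [LinearMap.flip_apply] at h1
    exact h1
  have hsep : ∀ a a' : ι → ℂ, (∀ z, dotp a z = dotp a' z) → a = a' := by
    intro a a' h
    funext i
    have := h (Pi.single i 1)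
    simpa [dotp, Pi.single_apply] using this
  have hsmulC : ∀ (c : ℂ) (w : ι → ℂ), M (c • w) = c • M w := by
    intro c w
    refine hsep _ _ fun w' => ?_
    rw [hsym, dotp_smul_right, hsym w' w, dotp_smul_left]
  refine ⟨⟨⟨M, fun x y => map_add M x y⟩, fun c w => hsmulC c w⟩, hsym, ?_⟩
  have h3 : L = L₀ + (M.restrictScalars ℚ).comp ζ := by
    refine B.ext fun j => ?_
    rw [LinearMap.add_apply, LinearMap.comp_apply, LinearMap.restrictScalars_apply, hMb]
    abel
  intro x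
  have h4 := congrArg (fun f => f x) h3
  exact h4

end SALL_

open SALL_ in
/-- SALL -/
theorem sall_proof (hTHU : Stmt_THU) (hAVG : Stmt_AVG) : Stmt_SALL := by
  intro V _ _ ι _ _ e ζ c hSS B L F hB hL hF hF0
  obtain ⟨hc, B₀, L₀, F₀, hB₀, hL₀, hF₀, hF₀0, hS₀⟩ := hSS
  obtain ⟨C, hC, hCc⟩ := hAVG V ι e B₀ B hB₀ hB
  obtain ⟨hG, hG0⟩ := hCc ζ L₀ hL₀ F₀ hF₀ hF₀0
  have hSG := sdat_comb hL₀ hF₀.entire C hC hS₀
  set G := comb ζ L₀ C F₀ with hGdef
  obtain ⟨M, hMs, hML⟩ := exists_M hL hL₀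
  set q : (ι → ℂ) → ℂ := fun z => (1 / 2 : ℂ) * dotp (M z) z with hq
  have hMd : ∀ i, Differentiable ℂ (fun z => M z i) := by
    intro i
    have h1 : Differentiable ℂ (fun z => M z) := by
      have := (LinearMap.toContinuousLinearMap M).differentiable
      exact this
    exact (differentiable_apply i).comp h1
  have hqd : Differentiable ℂ q := by
    rw [hq]
    unfold dotp
    have : ∀ i ∈ Finset.univ, Differentiable ℂ (fun z : ι → ℂ => M z i * z i) := fun i _ =>
      (hMd i).mul (differentiable_apply i)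
    exact (Differentiable.fun_sum this).const_mul (1 / 2 : ℂ)
  have hqadd : ∀ z w, q (z + w) = q z + dotp (M w) z + q w := by
    intro z w
    simp only [hq, map_add, dotp_add_left, dotp_add_right]
    rw [hMs z w]
    ring
  have hTT : ∀ (H : (ι → ℂ) → ℂ) (x : V) (z : ι → ℂ),
      TT ζ L x (fun z => cexp (q z) * H z) z = cexp (q z) * TT ζ L₀ x H z := by
    intro H x z
    simp only [TT]
    rw [← mul_assoc, ← mul_assoc, ← Complex.exp_add, ← Complex.exp_add]
    congr 2
    rw [hqadd, hML x, dotp_add_left, dotp_add_left]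
    have : q (ζ x) = (1 / 2 : ℂ) * dotp (M (ζ x)) (ζ x) := rfl
    rw [this]
    ring
  have hG' : IsTh ζ L B (fun z => cexp (q z) * G z) := by
    refine ⟨hqd.cexp.mul hG.entire, fun j => ?_⟩
    funext z
    rw [hTT, hG.per j]
  have hG'0 : (fun z => cexp (q z) * G z) ≠ 0 := by
    intro h
    apply hG0
    funext z
    have := congrFun h z
    simp only [Pi.zero_apply, mul_eq_zero, Complex.exp_ne_zero, false_or] at this
    simpa using this
  obtain ⟨a, ha⟩ := hTHU V ι e B ζ L hB hL _ F hG' hF hG'0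
  have ha0 : a ≠ 0 := by
    rintro rfl
    apply hF0
    rw [ha]
    funext z
    simp
  obtain ⟨κ, hκ, hx⟩ := hSG
  have hTF : ∀ x, TT ζ L x F = fun z => a * (cexp (q z) * TT ζ L₀ x G z) := by
    intro x
    rw [ha]
    funext z
    rw [TT_smul, hTT]
  have hq0 : q 0 = 0 := by simp [hq, dotp]
  refine ⟨a * κ, mul_ne_zero ha0 hκ, fun x => ⟨?_, fun i => ?_⟩⟩
  · rw [hTF x]
    simp only
    rw [hq0, Complex.exp_zero, one_mul, mul_div_mul_left _ _ ha0]
    exact (hx x).1
  · have hqf : HasFDerivAt q (0 : (ι → ℂ) →L[ℂ] ℂ) 0 := by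
      have h1 : ∀ i ∈ Finset.univ, HasFDerivAt (fun z : ι → ℂ => M z i * z i)
          (0 : (ι → ℂ) →L[ℂ] ℂ) 0 := by
        intro i _
        have h2 := ((hMd i) 0).hasFDerivAt.mul ((differentiable_apply (𝕜 := ℂ) i
          (0 : ι → ℂ))).hasFDerivAt
        have h3 : M 0 i = 0 := by rw [map_zero]; rfl
        refine h2.congr_fderiv ?_
        ext v
        simp [h3]
      have h4 := (HasFDerivAt.fun_sum h1).const_mul (1 / 2 : ℂ)
      refine h4.congr_fderiv ?_
      ext v
      simp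
    have hTd : Differentiable ℂ (TT ζ L₀ x G) := TT_differentiable x hG.entire
    have h5 := (hqf.cexp.mul (hTd 0).hasFDerivAt).const_mul a
    have h6 : pd i (TT ζ L x F) 0 = a * pd i (TT ζ L₀ x G) 0 := by
      rw [hTF x]
      unfold pd
      have h7 : fderiv ℂ (fun z => a * (cexp (q z) * TT ζ L₀ x G z)) 0 = _ := h5.fderiv
      rw [h7, hq0, Complex.exp_zero]
      simp
    rw [h6]
    have e2 : a * pd i (TT ζ L₀ x G) 0 / (a * κ * c i) = pd i (TT ζ L₀ x G) 0 / (κ * c i) := by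
      rw [mul_assoc, mul_div_mul_left _ _ ha0]
    rw [e2]
    exact (hx x).2 i

end

end Pool.Agent.SPF
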