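import Pool.Agent.SPF.Kit
import Pool.Agent.DRB.Osgood

set_option linter.unusedSectionVars false
set_option linter.unusedSimpArgs false

/-!
# SEP1: separation of holomorphic and antiholomorphic variables, first order
-/

open scoped BigOperators
open Complex

namespace Pool.Agent.SPF

noncomputable section

namespace SEP1_

variable {V : Type} [AddCommGroup V] [Module ℚ V] {ι : Type} [Fintype ι] [DecidableEq ι]
variable {e : V →ₗ[ℚ] V →ₗ[ℚ] ℚ} {B : Module.Basis (ι ⊕ ι) ℚ V} {ζ L : V →ₗ[ℚ] (ι → ℂ)}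

/-- real extension of a rational linear map -/
def ext (B : Module.Basis (ι ⊕ ι) ℚ V) (M : V →ₗ[ℚ] (ι → ℂ)) : (ι ⊕ ι → ℝ) →ₗ[ℝ] (ι → ℂ) :=
  Fintype.linearCombination ℝ (fun j => M (B j))

theorem ext_apply (M : V →ₗ[ℚ] (ι → ℂ)) (r : ι ⊕ ι → ℝ) :
    ext B M r = ∑ j, r j • M (B j) := by
  unfold ext
  rw [Fintype.linearCombination_apply]

theorem rat_smul (q : ℚ) (v : ι → ℂ) : (q : ℝ) • v = q • v := by
  funext i
  simp only [Pi.smul_apply, Complex.real_smul]
  rw [Rat.smul_def]
  push_cast
  rfl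

theorem ext_rat (M : V →ₗ[ℚ] (ι → ℂ)) (q : ι ⊕ ι → ℚ) :
    ext B M (fun j => (q j : ℝ)) = M (∑ j, q j • B j) := by
  rw [ext_apply, map_sum]
  refine Finset.sum_congr rfl fun j _ => ?_
  rw [map_smul, rat_smul]

theorem dotp_sum_left {κ : Type} (s : Finset κ) (f : κ → ι → ℂ) (z : ι → ℂ) :
    dotp (∑ k ∈ s, f k) z = ∑ k ∈ s, dotp (f k) z := by
  simp only [dotp, Finset.sum_apply, Finset.sum_mul]
  rw [Finset.sum_comm]

theorem dotp_sum_right {κ : Type} (s : Finset κ) (f : κ → ι → ℂ) (a : ι → ℂ) :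
    dotp a (∑ k ∈ s, f k) = ∑ k ∈ s, dotp a (f k) := by
  simp only [dotp, Finset.sum_apply, Finset.mul_sum]
  rw [Finset.sum_comm]

theorem dotp_rsmul_left (r : ℝ) (a z : ι → ℂ) : dotp (r • a) z = (r : ℂ) * dotp a z := by
  simp only [dotp, Pi.smul_apply, Complex.real_smul, Finset.mul_sum]
  exact Finset.sum_congr rfl fun i _ => by ring

theorem dotp_rsmul_right (r : ℝ) (a z : ι → ℂ) : dotp a (r • z) = (r : ℂ) * dotp a z := by
  simp only [dotp, Pi.smul_apply, Complex.real_smul, Finset.mul_sum]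
  exact Finset.sum_congr rfl fun i _ => by ring

theorem dotp_ext (r y : ι ⊕ ι → ℝ) : dotp (ext B L r) (ext B ζ y) =
    ∑ j, ∑ k, (r j : ℂ) * (y k : ℂ) * dotp (L (B j)) (ζ (B k)) := by
  rw [ext_apply, ext_apply, dotp_sum_left]
  refine Finset.sum_congr rfl fun j _ => ?_
  rw [dotp_rsmul_left, dotp_sum_right, Finset.mul_sum]
  refine Finset.sum_congr rfl fun k _ => ?_
  rw [dotp_rsmul_right]; ring

/-- real extension of the symplectic form -/
def om (e : V →ₗ[ℚ] V →ₗ[ℚ] ℚ) (B : Module.Basis (ι ⊕ ι) ℚ V) (r y : ι ⊕ ι → ℝ) : ℝ :=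
  ∑ j, ∑ k, r j * y k * (e (B j) (B k) : ℚ)

theorem rel_ext (h : IsPStr e B ζ L) (r y : ι ⊕ ι → ℝ) :
    dotp (ext B L r) (ext B ζ y) - dotp (ext B L y) (ext B ζ r) =
      2 * Real.pi * I * (om e B r y : ℝ) := by
  rw [dotp_ext, dotp_ext]
  have h1 : ∑ j, ∑ k, (y j : ℂ) * (r k : ℂ) * dotp (L (B j)) (ζ (B k))
      = ∑ j, ∑ k, (r j : ℂ) * (y k : ℂ) * dotp (L (B k)) (ζ (B j)) := by
    rw [Finset.sum_comm]
    refine Finset.sum_congr rfl fun j _ => Finset.sum_congr rfl fun k _ => by ring
  rw [h1, ← Finset.sum_sub_distrib]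
  unfold om
  push_cast
  rw [Finset.mul_sum]
  refine Finset.sum_congr rfl fun j _ => ?_
  rw [← Finset.sum_sub_distrib, Finset.mul_sum]
  refine Finset.sum_congr rfl fun k _ => ?_
  have h2 := h.rel (B j) (B k)
  linear_combination (r j : ℂ) * (y k : ℂ) * h2

theorem om_zero (hs : SympBasis e B) {y : ι ⊕ ι → ℝ} (h : ∀ r, om e B r y = 0) : y = 0 := by
  have hanti : ∀ x z, e x z = -e z x := by
    intro x z
    have h1 := hs.alt (x + z)
    simp only [map_add, LinearMap.add_apply, hs.alt, zero_add, add_zero] at h1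
    linarith
  have hsing : ∀ j, om e B (Pi.single j 1) y = ∑ k, y k * (e (B j) (B k) : ℚ) := by
    intro j
    unfold om
    rw [Finset.sum_eq_single j]
    · refine Finset.sum_congr rfl fun k _ => ?_
      rw [Pi.single_eq_same, one_mul]
    · intro b _ hb
      refine Finset.sum_eq_zero fun k _ => ?_
      rw [Pi.single_eq_of_ne hb, zero_mul, zero_mul]
    · intro h; exact absurd (Finset.mem_univ j) h
  funext j
  rcases j with j | j
  · have h1 := h (Pi.single (Sum.inr j) 1)
    rw [hsing, Fintype.sum_sum_type] at h1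
    have h2 : ∑ k, y (Sum.inl k) * ((e (B (Sum.inr j)) (B (Sum.inl k)) : ℚ) : ℝ)
        = - y (Sum.inl j) := by
      rw [Finset.sum_eq_single j]
      · rw [hanti, hs.lr, if_pos rfl]; push_cast; ring
      · intro b _ hb
        rw [hanti, hs.lr, if_neg hb]; simp
      · intro h; exact absurd (Finset.mem_univ j) h
    have h3 : ∑ k, y (Sum.inr k) * ((e (B (Sum.inr j)) (B (Sum.inr k)) : ℚ) : ℝ) = 0 := by
      refine Finset.sum_eq_zero fun k _ => ?_
      rw [hs.rr]; simp
    rw [h2, h3] at h1
    simp only [Pi.zero_apply]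
    linarith
  · have h1 := h (Pi.single (Sum.inl j) 1)
    rw [hsing, Fintype.sum_sum_type] at h1
    have h2 : ∑ k, y (Sum.inr k) * ((e (B (Sum.inl j)) (B (Sum.inr k)) : ℚ) : ℝ)
        = y (Sum.inr j) := by
      rw [Finset.sum_eq_single j]
      · rw [hs.lr, if_pos rfl]; push_cast; ring
      · intro b _ hb
        rw [hs.lr, if_neg (Ne.symm hb)]; simp
      · intro h; exact absurd (Finset.mem_univ j) h
    have h3 : ∑ k, y (Sum.inl k) * ((e (B (Sum.inl j)) (B (Sum.inl k)) : ℚ) : ℝ) = 0 := by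
      refine Finset.sum_eq_zero fun k _ => ?_
      rw [hs.ll]; simp
    rw [h2, h3] at h1
    simp only [Pi.zero_apply]
    linarith

theorem ext_inj (h : IsPStr e B ζ L) : Function.Injective (ext B ζ) := by
  rw [injective_iff_map_eq_zero]
  intro r hr
  by_contra hne
  have h1 := h.pos r hne
  rw [← dotp_ext, hr, dotp_zero_right] at h1
  simp at h1

theorem finrank_eq : Module.finrank ℝ (ι ⊕ ι → ℝ) = Module.finrank ℝ (ι → ℂ) := by
  rw [Module.finrank_fintype_fun_eq_card, Module.finrank_pi_fintype]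
  simp only [Complex.finrank_real_complex, Finset.sum_const, Finset.card_univ, smul_eq_mul,
    Fintype.card_sum]
  ring

/-- the real linear isomorphism given by `ζ` -/
def Zeq (h : IsPStr e B ζ L) : (ι ⊕ ι → ℝ) ≃ₗ[ℝ] (ι → ℂ) :=
  LinearMap.linearEquivOfInjective (ext B ζ) (ext_inj h) finrank_eq

theorem Zeq_apply (h : IsPStr e B ζ L) (r : ι ⊕ ι → ℝ) : Zeq h r = ext B ζ r :=
  LinearMap.linearEquivOfInjective_apply ..

theorem ext_surj (h : IsPStr e B ζ L) : Function.Surjective (ext B ζ) := by
  intro z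
  obtain ⟨r, hr⟩ := (Zeq h).surjective z
  exact ⟨r, by rw [← Zeq_apply h]; exact hr⟩

/-- the image of `ζ` is dense -/
theorem dense_zeta (h : IsPStr e B ζ L) : DenseRange (ζ : V → ι → ℂ) := by
  have h1 : DenseRange (fun q : ι ⊕ ι → ℚ => fun j => ((q j : ℚ) : ℝ)) :=
    DenseRange.piMap fun _ => Rat.denseRange_cast
  have hc : Continuous (ext B ζ) := LinearMap.continuous_of_finiteDimensional _
  have h2 : DenseRange ((ext B ζ) ∘ (fun q : ι ⊕ ι → ℚ => fun j => ((q j : ℚ) : ℝ))) :=
    (ext_surj h).denseRange.comp h1 hc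
  refine Dense.mono ?_ h2
  rintro z ⟨q, rfl⟩
  exact ⟨∑ j, q j • B j, (ext_rat ζ q).symm⟩

/-- continuous functions which agree on the image of `ζ` are equal -/
theorem eq_of_zeta (h : IsPStr e B ζ L) {f g : (ι → ℂ) → ℂ} (hf : Continuous f)
    (hg : Continuous g) (hfg : ∀ x, f (ζ x) = g (ζ x)) : f = g :=
  (dense_zeta h).equalizer hf hg (funext hfg)

end SEP1_

open SEP1_ in
theorem sep1_proof : Stmt_SEP1 := by
  intro V _ _ ι _ _ e B ζ L hs h F hF hF0
  have hval : ∀ x : V, TT ζ L x F 0 = cexp (-(dotp (L x) (ζ x) / 2)) * F (ζ x) := by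
    intro x
    simp only [TT, dotp_zero_right, zero_add]
    congr 2
    ring
  constructor
  · by_contra hcon
    push Not at hcon
    apply hF0
    refine eq_of_zeta h hF.entire.continuous continuous_const (g := fun _ => 0) fun x => ?_
    have h1 := hcon x
    rw [hval] at h1
    exact (mul_eq_zero.1 h1).resolve_left (Complex.exp_ne_zero _)
  · intro u hu κ
    by_contra hcon
    push Not at hcon
    -- the real linear function
    obtain ⟨lam, hlam⟩ : ∃ lam : (ι → ℂ) →ₗ[ℝ] ℂ, ∀ r : ι ⊕ ι → ℝ,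
        lam (ext B ζ r) = dotp (ext B L r) u := by
      refine ⟨{ toFun := fun z => dotp (ext B L ((Zeq h).symm z)) u
                map_add' := ?_
                map_smul' := ?_ }, ?_⟩
      · intro z w
        rw [map_add, map_add, dotp_add_left]
      · intro c z
        rw [map_smul, map_smul, dotp_rsmul_left, RingHom.id_apply, Complex.real_smul]
      · intro r
        change dotp (ext B L ((Zeq h).symm (ext B ζ r))) u = _
        rw [← Zeq_apply h, LinearEquiv.symm_apply_apply]
    have hlc : Continuous lam := LinearMap.continuous_of_finiteDimensional _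
    have hlx : ∀ x : V, lam (ζ x) = dotp (L x) u := by
      intro x
      have e1 : x = ∑ j, (B.repr x j) • B j := (B.sum_repr x).symm
      have e2 : ζ x = ext B ζ (fun j => ((B.repr x j : ℚ) : ℝ)) := by
        rw [ext_rat ζ (fun j => B.repr x j), ← e1]
      have e3 : L x = ext B L (fun j => ((B.repr x j : ℚ) : ℝ)) := by
        rw [ext_rat L (fun j => B.repr x j), ← e1]
      rw [e2, hlam, ← e3]
    -- the directional derivative
    have hdir : ∀ z, ∑ i, u i * pd i F z = fderiv ℂ F z u := by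
      intro z
      have e1 : u = ∑ i, u i • (Pi.single i 1 : ι → ℂ) := by
        funext k
        simp [Finset.sum_apply, Pi.single_apply]
      conv_rhs => rw [e1]
      rw [map_sum]
      refine Finset.sum_congr rfl fun i _ => ?_
      rw [map_smul, smul_eq_mul]
      rfl
    have hDc : Differentiable ℂ (fun z => fderiv ℂ F z u) :=
      Pool.Agent.DRB.Osgood.differentiable_fderiv_apply hF.entire u
    have heq : (fun z => fderiv ℂ F z u) = fun z => (lam z + κ) * F z := by
      refine eq_of_zeta h hDc.continuous ((hlc.add continuous_const).mul hF.entire.continuous)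
        fun x => ?_
      have h1 := hcon x
      rw [hval] at h1
      have h2 : ∑ i, u i * pd i (TT ζ L x F) 0 = cexp (-(dotp (L x) (ζ x) / 2)) *
          (fderiv ℂ F (ζ x) u - lam (ζ x) * F (ζ x)) := by
        rw [← hdir, hlx]
        have e4 : (-(0:ℂ) - dotp (L x) (ζ x) / 2) = -(dotp (L x) (ζ x) / 2) := by ring
        have e3 : dotp (L x) u * F (ζ x) = ∑ i, u i * (L x i * F (ζ x)) := by
          rw [dotp, Finset.sum_mul]
          exact Finset.sum_congr rfl fun i _ => by ring
        simp only [pd_TT x hF.entire, dotp_zero_right, zero_add]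
        rw [e3, e4, ← Finset.sum_sub_distrib, Finset.mul_sum]
        refine Finset.sum_congr rfl fun i _ => ?_
        ring
      rw [h2] at h1
      have h3 : fderiv ℂ F (ζ x) u - lam (ζ x) * F (ζ x) = κ * F (ζ x) := by
        have h4 := Complex.exp_ne_zero (-(dotp (L x) (ζ x) / 2))
        apply mul_left_cancel₀ h4
        rw [h1]; ring
      change fderiv ℂ F (ζ x) u = (lam (ζ x) + κ) * F (ζ x)
      linear_combination h3
    -- `lam` is complex linear
    obtain ⟨w0, hw0⟩ : ∃ w, F w ≠ 0 := by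
      by_contra hcon2
      push Not at hcon2
      exact hF0 (funext hcon2)
    have hdiff : DifferentiableAt ℂ (fun z => lam z) w0 := by
      have h1 : DifferentiableAt ℂ (fun z => fderiv ℂ F z u * (F z)⁻¹ - κ) w0 :=
        ((hDc w0).mul ((hF.entire w0).inv hw0)).sub_const κ
      refine h1.congr_of_eventuallyEq ?_
      have h2 : ∀ᶠ z in nhds w0, F z ≠ 0 := hF.entire.continuous.continuousAt.eventually_ne hw0
      filter_upwards [h2] with z hz
      have h3 : fderiv ℂ F z u = (lam z + κ) * F z := congrFun heq z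
      rw [h3]
      field_simp
      ring
    have hCl : ∀ z, lam (I • z) = I * lam z := by
      have h1 := hdiff.hasFDerivAt.restrictScalars ℝ
      have h2 : HasFDerivAt (fun z => lam z) (LinearMap.toContinuousLinearMap lam) w0 :=
        (LinearMap.toContinuousLinearMap lam).hasFDerivAt
      have h3 := h1.unique h2
      intro z
      have h4 : ∀ v, fderiv ℂ (fun z => lam z) w0 v = lam v := fun v => congrFun
        (congrArg DFunLike.coe h3) v
      rw [← h4, ← h4, map_smul, smul_eq_mul]
    -- the direction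
    obtain ⟨y, hy⟩ := ext_surj h u
    have hg : ∀ r : ι ⊕ ι → ℝ, lam (ext B ζ r) - dotp (ext B L y) (ext B ζ r)
        = 2 * Real.pi * I * (om e B r y : ℝ) := by
      intro r
      rw [hlam, ← hy]
      exact rel_ext h r y
    have hom : ∀ r, om e B r y = 0 := by
      intro r
      obtain ⟨r', hr'⟩ := ext_surj h (I • ext B ζ r)
      have h1 := hg r
      have h2 := hg r'
      rw [hr', hCl, dotp_smul_right, ← mul_sub, h1] at h2
      have h3 := congrArg Complex.re h2
      have e1 : (I * (2 * Real.pi * I * (om e B r y : ℝ)) : ℂ) = ((-(2 * Real.pi * om e B r y) : ℝ) : ℂ) := by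
        push_cast
        linear_combination (2 * Real.pi * (om e B r y : ℝ) : ℂ) * Complex.I_mul_I
      have e2 : (2 * Real.pi * I * (om e B r' y : ℝ) : ℂ) = ((2 * Real.pi * om e B r' y : ℝ) : ℂ) * I := by
        push_cast; ring
      rw [e1, e2, Complex.ofReal_re, Complex.re_ofReal_mul, Complex.I_re, mul_zero] at h3
      have hpi := Real.pi_pos
      have h4 : 2 * Real.pi * om e B r y = 0 := by linarith
      rcases mul_eq_zero.1 h4 with h5 | h5
      · exact absurd h5 (by positivity)
      · exact h5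
    have hy0 := om_zero hs hom
    apply hu
    rw [← hy, hy0, map_zero]

end

end Pool.Agent.SPF
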