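import Pool.Agent.SPF.Kit
import Pool.Agent.DRB.Osgood

set_option linter.unusedSectionVars false
set_option linter.unusedSimpArgs false
set_option linter.deprecated false

/-!
# Separation of holomorphic and antiholomorphic variables, second order
-/

open scoped BigOperators
open Complex

namespace Pool.Agent.SPF

noncomputable section

namespace SEP2_

/-- complex conjugation is nowhere holomorphic -/
theorem not_differentiableAt_conj (z : ℂ) :
    ¬ DifferentiableAt ℂ (fun p : ℂ => (starRingEnd ℂ) p) z := by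
  intro h
  have h1 : HasFDerivAt (fun p : ℂ => (starRingEnd ℂ) p)
      ((fderiv ℂ (fun p : ℂ => (starRingEnd ℂ) p) z).restrictScalars ℝ) z :=
    h.hasFDerivAt.restrictScalars ℝ
  have h2 : HasFDerivAt (fun p : ℂ => (starRingEnd ℂ) p) (Complex.conjCLE : ℂ →L[ℝ] ℂ) z :=
    Complex.conjCLE.hasFDerivAt
  have h3 := h1.unique h2
  have h4 := DFunLike.congr_fun h3 I
  have h5 := DFunLike.congr_fun h3 1
  rw [ContinuousLinearMap.coe_restrictScalars'] at h4 h5
  have h6 : (fderiv ℂ (fun p : ℂ => (starRingEnd ℂ) p) z) I =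
      I * (fderiv ℂ (fun p : ℂ => (starRingEnd ℂ) p) z) 1 := by
    have := (fderiv ℂ (fun p : ℂ => (starRingEnd ℂ) p) z).map_smul I 1
    simpa using this
  rw [h6, h5] at h4
  simp at h4
  have := congrArg Complex.im h4
  simp at this
  norm_num at this

/-- one variable separation -/
theorem sep_one {f g : ℂ → ℂ} (hf : Differentiable ℂ f) (hg : Differentiable ℂ g)
    (h : ∀ p, f p + (starRingEnd ℂ) p * g p = 0) : ∀ p, g p = 0 := by
  intro p₀
  by_contra hne
  apply not_differentiableAt_conj p₀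
  have hev : (fun p : ℂ => (starRingEnd ℂ) p) =ᶠ[nhds p₀] fun p => -f p / g p := by
    have h1 : ∀ᶠ p in nhds p₀, g p ≠ 0 := hg.continuous.continuousAt.eventually_ne hne
    filter_upwards [h1] with p hp
    have := h p
    field_simp
    linear_combination this
  refine DifferentiableAt.congr_of_eventuallyEq ?_ hev
  exact (hf p₀).neg.div (hg p₀) hne

section dense

variable {V : Type} [AddCommGroup V] [Module ℚ V] {ι : Type} [Fintype ι] [DecidableEq ι]
variable {e : V →ₗ[ℚ] V →ₗ[ℚ] ℚ} {B : Module.Basis (ι ⊕ ι) ℚ V} {ζ L : V →ₗ[ℚ] (ι → ℂ)}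

/-- the real combinations -/
def comb' (B : Module.Basis (ι ⊕ ι) ℚ V) (ζ : V →ₗ[ℚ] (ι → ℂ)) : (ι ⊕ ι → ℝ) →ₗ[ℝ] (ι → ℂ) where
  toFun r := ∑ k, (r k : ℂ) • ζ (B k)
  map_add' r s := by
    simp only [Pi.add_apply, ofReal_add, add_smul, Finset.sum_add_distrib]
  map_smul' a r := by
    simp only [Pi.smul_apply, smul_eq_mul, ofReal_mul, RingHom.id_apply, Finset.smul_sum]
    refine Finset.sum_congr rfl fun k _ => ?_
    rw [mul_smul]
    rfl

theorem comb'_injective (h : IsPStr e B ζ L) : Function.Injective (comb' B ζ) := by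
  rw [← LinearMap.ker_eq_bot, LinearMap.ker_eq_bot']
  intro r hr
  by_contra hne
  have h1 := h.pos r hne
  have h2 : ∑ j, ∑ k, (r j : ℂ) * (r k : ℂ) * dotp (L (B j)) (ζ (B k)) =
      ∑ j, (r j : ℂ) * dotp (L (B j)) (comb' B ζ r) := by
    refine Finset.sum_congr rfl fun j _ => ?_
    have h3 : dotp (L (B j)) (comb' B ζ r) = ∑ k, (r k : ℂ) * dotp (L (B j)) (ζ (B k)) := by
      show dotp (L (B j)) (∑ k, (r k : ℂ) • ζ (B k)) = _
      simp only [dotp, Finset.sum_apply, Pi.smul_apply, smul_eq_mul, Finset.mul_sum]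
      rw [Finset.sum_comm]
      refine Finset.sum_congr rfl fun k _ => Finset.sum_congr rfl fun i _ => by ring
    rw [h3, Finset.mul_sum]
    exact Finset.sum_congr rfl fun k _ => by ring
  rw [h2, hr] at h1
  simp [dotp_zero_right] at h1

theorem comb'_surjective (h : IsPStr e B ζ L) : Function.Surjective (comb' B ζ) := by
  have hinj := comb'_injective h
  have hd : Module.finrank ℝ (ι ⊕ ι → ℝ) = Module.finrank ℝ (ι → ℂ) := by
    rw [Module.finrank_fintype_fun_eq_card, Module.finrank_pi_fintype]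
    simp [Complex.finrank_real_complex]
    ring
  exact (LinearMap.injective_iff_surjective_of_finrank_eq_finrank hd).mp hinj

theorem dense_zeta (h : IsPStr e B ζ L) : DenseRange (fun x : V => ζ x) := by
  have h1 : DenseRange (fun q : ι ⊕ ι → ℚ => fun k => ((q k : ℚ) : ℝ)) :=
    DenseRange.piMap (fun _ => Rat.denseRange_cast)
  have hc : Continuous (comb' B ζ) := LinearMap.continuous_of_finiteDimensional _
  have h2 : DenseRange (comb' B ζ) := (comb'_surjective h).denseRange
  have h3 := h2.comp h1 hc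
  refine h3.mono ?_
  rintro _ ⟨q, rfl⟩
  refine ⟨∑ k, q k • B k, ?_⟩
  show ζ (∑ k, q k • B k) = ∑ k, (((q k : ℚ) : ℝ) : ℂ) • ζ (B k)
  rw [map_sum]
  refine Finset.sum_congr rfl fun k _ => ?_
  rw [map_smul]
  funext i
  simp [Rat.smul_def]

end dense

section pds

variable {σ : Type} [Fintype σ] [DecidableEq σ]

theorem differentiable_pd {F : (σ → ℂ) → ℂ} (hF : Differentiable ℂ F) (i : σ) :
    Differentiable ℂ (pd i F) :=
  Pool.Agent.DRB.Osgood.differentiable_fderiv_apply hF _

theorem pd_sub_mul {F G : (σ → ℂ) → ℂ} (hF : Differentiable ℂ F) (hG : Differentiable ℂ G)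
    (a : ℂ) (i : σ) (z : σ → ℂ) :
    pd i (fun z => F z - a * G z) z = pd i F z - a * pd i G z := by
  unfold pd
  have h1 : HasFDerivAt (fun z => F z - a * G z) (fderiv ℂ F z - a • fderiv ℂ G z) z :=
    (hF z).hasFDerivAt.sub ((hG z).hasFDerivAt.const_mul a)
  rw [h1.fderiv]
  rfl

end pds

section main

variable {E : Type} [Field E] [NumberField E] {I J : Type} [Fintype I] [Fintype J]
  [DecidableEq I] [DecidableEq J] (D : FamData E I J)

/-- the constants -/
def Kc : Co I J → ℂ
  | Sum.inl v => D.A v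
  | Sum.inr v => D.Bc v

theorem L_eq (x : E × E) (i : Co I J) : D.L x i = Kc D i * (starRingEnd ℂ) (D.zeta 0 x i) := by
  rcases i with v | (v | v)
  · rcases v with v | v
    · show D.A (Sum.inl v) * D.tb (Sum.inl v) x.1 = D.A (Sum.inl v) *
        (starRingEnd ℂ) (D.t (Sum.inl v) x.1 - (0 : I → ℂ) v * D.t (Sum.inl v) x.2)
      simp [FamData.tb]
    · rfl
  · show D.Bc (Sum.inl v) * D.t (Sum.inl v) x.2 = D.Bc (Sum.inl v) *
        (starRingEnd ℂ) (D.tb (Sum.inl v) x.2 - D.b v * (0 : I → ℂ) v * D.tb (Sum.inl v) x.1)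
    simp [FamData.tb]
  · rfl

theorem Kc1 (v : I) : Kc D (FamData.i1 v) ≠ 0 := by
  show -(2 * Real.pi * Complex.I * D.t (Sum.inl v) D.ξ₁) ≠ 0
  have h := D.pos1 (Sum.inl v)
  have h1 : D.t (Sum.inl v) D.ξ₁ ≠ 0 := by
    intro h0
    rw [h0] at h
    simp at h
  have h2 : (2 : ℂ) * Real.pi * Complex.I ≠ 0 := Complex.two_pi_I_ne_zero
  exact neg_ne_zero.mpr (mul_ne_zero h2 h1)

theorem Kc2 (v : I) : Kc D (FamData.i2 v) ≠ 0 := by
  show 2 * Real.pi * Complex.I * D.t (Sum.inl v) D.ξ₂ ≠ 0
  have h := D.posI v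
  have h1 : D.t (Sum.inl v) D.ξ₂ ≠ 0 := by
    intro h0
    rw [h0] at h
    simp at h
  have h2 : (2 : ℂ) * Real.pi * Complex.I ≠ 0 := Complex.two_pi_I_ne_zero
  exact mul_ne_zero h2 h1

/-- second derivatives of translates -/
theorem pd_pd (ζ L : E × E →ₗ[ℚ] (Co I J → ℂ)) (x : E × E) {F : (Co I J → ℂ) → ℂ}
    (hF : Differentiable ℂ F) (i j : Co I J) :
    pd i (fun z => pd j (TT ζ L x F) z) 0 = cexp (-(dotp (L x) 0) - dotp (L x) (ζ x) / 2) *
      (pd i (pd j F) (ζ x) - L x j * pd i F (ζ x) - L x i * (pd j F (ζ x) - L x j * F (ζ x))) := by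
  have h1 : (fun z => pd j (TT ζ L x F) z) =
      TT ζ L x (fun z => pd j F z - L x j * F z) := by
    funext z
    rw [pd_TT x hF j z]
    rfl
  have hG : Differentiable ℂ (fun z => pd j F z - L x j * F z) :=
    (differentiable_pd hF j).sub (hF.const_mul _)
  rw [h1, pd_TT x hG i 0, pd_sub_mul (differentiable_pd hF j) hF, zero_add]

end main

end SEP2_

open SEP2_ in
/-- Separation, second order, at the centre of the family. -/
theorem sep2_proof (h1 : Stmt_POSF) : Stmt_SEP2 := by
  intro E _ _ I J _ _ _ _ D B F hB hF hne a ha κ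
  by_contra hcon
  push Not at hcon
  have hFd := hF.entire
  have hP := h1 E I J D B hB 0 D.zero_mem_Dom
  -- identity on the dense set
  have hid : ∀ w : Co I J → ℂ, ∑ v, a v *
      (pd (FamData.i1 v) (pd (FamData.i2 v) F) w
        - Kc D (FamData.i2 v) * (starRingEnd ℂ) (w (FamData.i2 v)) * pd (FamData.i1 v) F w
        - Kc D (FamData.i1 v) * (starRingEnd ℂ) (w (FamData.i1 v)) *
          (pd (FamData.i2 v) F w - Kc D (FamData.i2 v) * (starRingEnd ℂ) (w (FamData.i2 v)) * F w))
        = κ * F w := by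
    have hc1 : Continuous fun w : Co I J → ℂ => ∑ v, a v *
      (pd (FamData.i1 v) (pd (FamData.i2 v) F) w
        - Kc D (FamData.i2 v) * (starRingEnd ℂ) (w (FamData.i2 v)) * pd (FamData.i1 v) F w
        - Kc D (FamData.i1 v) * (starRingEnd ℂ) (w (FamData.i1 v)) *
          (pd (FamData.i2 v) F w - Kc D (FamData.i2 v) * (starRingEnd ℂ) (w (FamData.i2 v)) * F w)) := by
      refine continuous_finset_sum _ fun v _ => ?_
      have a1 : Continuous (pd (FamData.i1 v) (pd (FamData.i2 v) F)) :=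
        (differentiable_pd (differentiable_pd hFd _) _).continuous
      have a2 : Continuous (pd (FamData.i1 v) F) := (differentiable_pd hFd _).continuous
      have a3 : Continuous (pd (FamData.i2 v) F) := (differentiable_pd hFd _).continuous
      have a4 : Continuous F := hFd.continuous
      have a5 : ∀ i : Co I J, Continuous fun w : Co I J → ℂ => (starRingEnd ℂ) (w i) := fun i =>
        Complex.continuous_conj.comp (continuous_apply i)
      exact continuous_const.mul (((a1.sub ((continuous_const.mul (a5 _)).mul a2)).sub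
        ((continuous_const.mul (a5 _)).mul (a3.sub ((continuous_const.mul (a5 _)).mul a4)))))
    have hc2 : Continuous fun w : Co I J → ℂ => κ * F w := continuous_const.mul hFd.continuous
    have hd := (dense_zeta hP).equalizer hc1 hc2 ?_
    · exact fun w => congrFun hd w
    · funext x
      simp only [Function.comp_apply]
      have h2 := hcon x
      have h3 : TT (D.zeta 0) D.L x F 0 =
          cexp (-(dotp (D.L x) 0) - dotp (D.L x) (D.zeta 0 x) / 2) * F (D.zeta 0 x) := by
        simp only [TT, zero_add]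
      rw [h3] at h2
      have h4 : ∀ v : I, a v * pd (FamData.i1 v)
          (fun z => pd (FamData.i2 v) (TT (D.zeta 0) D.L x F) z) 0 =
          cexp (-(dotp (D.L x) 0) - dotp (D.L x) (D.zeta 0 x) / 2) * (a v *
      (pd (FamData.i1 v) (pd (FamData.i2 v) F) (D.zeta 0 x)
        - Kc D (FamData.i2 v) * (starRingEnd ℂ) (D.zeta 0 x (FamData.i2 v)) * pd (FamData.i1 v) F (D.zeta 0 x)
        - Kc D (FamData.i1 v) * (starRingEnd ℂ) (D.zeta 0 x (FamData.i1 v)) *
          (pd (FamData.i2 v) F (D.zeta 0 x) - Kc D (FamData.i2 v) * (starRingEnd ℂ) (D.zeta 0 x (FamData.i2 v)) * F (D.zeta 0 x)))) := by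
        intro v
        rw [pd_pd (D.zeta 0) D.L x hFd (FamData.i1 v) (FamData.i2 v), L_eq D x (FamData.i1 v),
          L_eq D x (FamData.i2 v)]
        ring
      rw [Finset.sum_congr rfl fun v _ => h4 v, ← Finset.mul_sum] at h2
      have h5 := Complex.exp_ne_zero (-(dotp (D.L x) 0) - dotp (D.L x) (D.zeta 0 x) / 2)
      refine mul_left_cancel₀ h5 ?_
      rw [h2]
      ring
  -- choose a place and a point
  obtain ⟨v₀, hv₀⟩ : ∃ v, a v ≠ 0 := by
    by_contra h0
    push Not at h0
    exact ha (funext h0)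
  obtain ⟨w₀, hw₀⟩ : ∃ w, F w ≠ 0 := by
    by_contra h0
    push Not at h0
    exact hne (funext h0)
  -- the two parameter family
  let P : ℂ → ℂ → Co I J → ℂ := fun p q =>
    w₀ + (p • (Pi.single (FamData.i1 v₀) 1 : Co I J → ℂ) + q • (Pi.single (FamData.i2 v₀) 1 : Co I J → ℂ))
  have hPp : ∀ q, Differentiable ℂ fun p => P p q := by
    intro q
    exact ((differentiable_id.smul_const _).add_const _).const_add _
  have hPq : ∀ p, Differentiable ℂ fun q => P p q := by
    intro p
    exact ((differentiable_id.smul_const _).const_add _).const_add _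
  have hi12 : (FamData.i1 v₀ : Co I J) ≠ FamData.i2 v₀ := by simp
  have hP1 : ∀ p q, P p q (FamData.i1 v₀) = w₀ (FamData.i1 v₀) + p := by
    intro p q
    simp [P]
  have hP2 : ∀ p q, P p q (FamData.i2 v₀) = w₀ (FamData.i2 v₀) + q := by
    intro p q
    simp [P]
  have hP3 : ∀ p q v, v ≠ v₀ → P p q (FamData.i1 v) = w₀ (FamData.i1 v) := by
    intro p q v hv
    simp [P, hv]
  have hP4 : ∀ p q v, v ≠ v₀ → P p q (FamData.i2 v) = w₀ (FamData.i2 v) := by
    intro p q v hv
    simp [P, hv]
  set k1 := Kc D (FamData.i1 v₀) with hk1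
  set k2 := Kc D (FamData.i2 v₀) with hk2
  set u1 := (starRingEnd ℂ) (w₀ (FamData.i1 v₀)) with hu1
  set u2 := (starRingEnd ℂ) (w₀ (FamData.i2 v₀)) with hu2
  -- the remaining terms
  let R : (Co I J → ℂ) → ℂ := fun w => ∑ v ∈ Finset.univ.erase v₀, a v *
      (pd (FamData.i1 v) (pd (FamData.i2 v) F) w
        - Kc D (FamData.i2 v) * (starRingEnd ℂ) (w₀ (FamData.i2 v)) * pd (FamData.i1 v) F w
        - Kc D (FamData.i1 v) * (starRingEnd ℂ) (w₀ (FamData.i1 v)) *
          (pd (FamData.i2 v) F w - Kc D (FamData.i2 v) * (starRingEnd ℂ) (w₀ (FamData.i2 v)) * F w)) - κ * F w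
  have hRd : Differentiable ℂ R := by
    refine Differentiable.sub ?_ (hFd.const_mul _)
    refine Differentiable.fun_sum fun v _ => ?_
    refine Differentiable.const_mul ?_ _
    exact ((differentiable_pd (differentiable_pd hFd _) _).sub ((differentiable_pd hFd _).const_mul _)).sub
      (((differentiable_pd hFd _).sub (hFd.const_mul _)).const_mul _)
  have hmain : ∀ p q, (R (P p q) + a v₀ * (pd (FamData.i1 v₀) (pd (FamData.i2 v₀) F) (P p q)
      - k2 * (u2 + (starRingEnd ℂ) q) * pd (FamData.i1 v₀) F (P p q)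
      - k1 * u1 * (pd (FamData.i2 v₀) F (P p q) - k2 * (u2 + (starRingEnd ℂ) q) * F (P p q)))) +
      (starRingEnd ℂ) p * (-(a v₀) * k1 * (pd (FamData.i2 v₀) F (P p q) -
        k2 * (u2 + (starRingEnd ℂ) q) * F (P p q))) = 0 := by
    intro p q
    have h2 := hid (P p q)
    rw [← Finset.add_sum_erase Finset.univ _ (Finset.mem_univ v₀)] at h2
    have h3 : ∑ v ∈ Finset.univ.erase v₀, a v *
      (pd (FamData.i1 v) (pd (FamData.i2 v) F) (P p q)
        - Kc D (FamData.i2 v) * (starRingEnd ℂ) (P p q (FamData.i2 v)) * pd (FamData.i1 v) F (P p q)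
        - Kc D (FamData.i1 v) * (starRingEnd ℂ) (P p q (FamData.i1 v)) *
          (pd (FamData.i2 v) F (P p q) - Kc D (FamData.i2 v) * (starRingEnd ℂ) (P p q (FamData.i2 v)) * F (P p q))) =
        R (P p q) + κ * F (P p q) := by
      simp only [R, sub_add_cancel]
      refine Finset.sum_congr rfl fun v hv => ?_
      rw [hP3 p q v (Finset.ne_of_mem_erase hv), hP4 p q v (Finset.ne_of_mem_erase hv)]
    rw [h3, hP1, hP2, map_add, map_add] at h2
    linear_combination h2
  have hstep1 : ∀ q p, -(a v₀) * k1 * (pd (FamData.i2 v₀) F (P p q) -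
        k2 * (u2 + (starRingEnd ℂ) q) * F (P p q)) = 0 := by
    intro q
    refine sep_one (f := fun p => R (P p q) + a v₀ * (pd (FamData.i1 v₀) (pd (FamData.i2 v₀) F) (P p q)
      - k2 * (u2 + (starRingEnd ℂ) q) * pd (FamData.i1 v₀) F (P p q)
      - k1 * u1 * (pd (FamData.i2 v₀) F (P p q) - k2 * (u2 + (starRingEnd ℂ) q) * F (P p q))))
      ?_ ?_ fun p => hmain p q
    · refine (hRd.comp (hPp q)).add (Differentiable.const_mul ?_ _)
      exact (((differentiable_pd (differentiable_pd hFd _) _).comp (hPp q)).sub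
        (((differentiable_pd hFd _).comp (hPp q)).const_mul _)).sub
        ((((differentiable_pd hFd _).comp (hPp q)).sub ((hFd.comp (hPp q)).const_mul _)).const_mul _)
    · exact (((differentiable_pd hFd _).comp (hPp q)).sub ((hFd.comp (hPp q)).const_mul _)).const_mul _
  have hstep2 := sep_one (f := fun q => pd (FamData.i2 v₀) F (P 0 q) - k2 * u2 * F (P 0 q))
    (g := fun q => -k2 * F (P 0 q)) ?_ ?_ ?_
  · have h6 := hstep2 0
    have h7 : P 0 0 = w₀ := by simp [P]
    rw [h7] at h6
    have h8 : k2 ≠ 0 := Kc2 D v₀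
    simp only [mul_eq_zero, neg_eq_zero] at h6
    rcases h6 with h6 | h6
    · exact h8 h6
    · exact hw₀ h6
  · exact ((differentiable_pd hFd _).comp (hPq 0)).sub ((hFd.comp (hPq 0)).const_mul _)
  · exact (hFd.comp (hPq 0)).const_mul _
  · intro q
    have h6 := hstep1 q 0
    have h8 : k1 ≠ 0 := Kc1 D v₀
    have h9 : pd (FamData.i2 v₀) F (P 0 q) - k2 * (u2 + (starRingEnd ℂ) q) * F (P 0 q) = 0 := by
      rcases mul_eq_zero.mp h6 with h10 | h10
      · rcases mul_eq_zero.mp h10 with h11 | h11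
        · exact absurd (neg_eq_zero.mp h11) hv₀
        · exact absurd h11 h8
      · exact h10
    linear_combination h9

end

end Pool.Agent.SPF
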