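import Pool.Agent.SPF.StmtsE

/-!
# SPR, module SIGN: sign approximation in the real subfield
-/

open scoped BigOperators
open Complex

namespace Pool.Agent.SPF

namespace SIGN_

variable {E : Type} [Field E] [NumberField E] (K : CMF E)

/-- The real subfield. -/
def RF : Subfield E where
  carrier := {y | K.bar y = y}
  mul_mem' := by
    intro x y hx hy
    show K.bar (x * y) = x * y
    rw [map_mul, show K.bar x = x from hx, show K.bar y = y from hy]
  one_mem' := map_one K.bar
  add_mem' := by
    intro x y hx hy
    show K.bar (x + y) = x + y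
    rw [map_add, show K.bar x = x from hx, show K.bar y = y from hy]
  zero_mem' := map_zero K.bar
  neg_mem' := by
    intro x hx
    show K.bar (-x) = -x
    rw [map_neg, show K.bar x = x from hx]
  inv_mem' := by
    intro x hx
    show K.bar x⁻¹ = x⁻¹
    rw [map_inv₀, show K.bar x = x from hx]

lemma mem_RF (y : E) : y ∈ RF K ↔ K.bar y = y := Iff.rfl

lemma real_val (y : E) (hy : K.bar y = y) (φ : E →+* ℂ) : ((φ y).re : ℂ) = φ y := by
  have h := K.bar_spec φ y
  rw [hy] at h
  exact Complex.conj_eq_iff_re.mp h.symm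

lemma bar_bar (x : E) : K.bar (K.bar x) = x := by
  obtain ⟨φ⟩ : Nonempty (E →+* ℂ) := inferInstance
  apply φ.injective
  rw [K.bar_spec, K.bar_spec, Complex.conj_conj]

/-- Two embeddings which agree on the real subfield are equal or conjugate. -/
lemma eq_or_conj (φ ψ : E →+* ℂ) (h : ∀ y, K.bar y = y → φ y = ψ y) : φ = ψ ∨ φ = cj ψ := by
  have h1 : ∀ x, φ x = ψ x ∨ φ x = cj ψ x := by
    intro x
    have e1 : φ (x + K.bar x) = ψ (x + K.bar x) := by
      apply h
      rw [map_add, bar_bar]
      ring
    have e2 : φ (x * K.bar x) = ψ (x * K.bar x) := by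
      apply h
      rw [map_mul, bar_bar]
      ring
    have e3 : cj ψ x = ψ (K.bar x) := (K.bar_spec ψ x).symm
    rw [e3]
    have e4 : (φ x - ψ x) * (φ x - ψ (K.bar x)) = 0 := by
      rw [map_add, map_add] at e1
      rw [map_mul, map_mul] at e2
      linear_combination (φ x) * e1 - e2
    rcases mul_eq_zero.mp e4 with h5 | h5
    · exact Or.inl (sub_eq_zero.mp h5)
    · exact Or.inr (sub_eq_zero.mp h5)
  by_contra hcon
  push Not at hcon
  obtain ⟨x, hx⟩ : ∃ x, φ x ≠ ψ x := by
    by_contra h6
    push Not at h6
    exact hcon.1 (RingHom.ext h6)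
  obtain ⟨y, hy⟩ : ∃ y, φ y ≠ cj ψ y := by
    by_contra h6
    push Not at h6
    exact hcon.2 (RingHom.ext h6)
  have hx' : φ x = cj ψ x := (h1 x).resolve_left hx
  have hy' : φ y = ψ y := (h1 y).resolve_right hy
  rcases h1 (x + y) with h7 | h7
  · rw [map_add, map_add, hy'] at h7
    exact hx (add_right_cancel h7)
  · rw [map_add, map_add, hx'] at h7
    exact hy (add_left_cancel h7)

end SIGN_

open SIGN_ in
theorem sign_proof : Stmt_SIGN := by
  intro E _ _ K P _ τ hinj hcj b p hb
  classical
  -- the vector of the values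
  let f : RF K → (P → ℝ) := fun y v => (τ v y).re
  have hf : ∀ (y : RF K) (v : P), ((f y v : ℝ) : ℂ) = τ v y := fun y v =>
    real_val K y y.2 (τ v)
  -- linear independence
  let σ : P → (RF K →* ℂ) := fun v => (((τ v).comp (RF K).subtype : RF K →+* ℂ) : RF K →* ℂ)
  have hσ : Function.Injective σ := by
    intro v w hvw
    have h1 : ∀ y, K.bar y = y → τ v y = τ w y := by
      intro y hy
      have h2 := DFunLike.congr_fun hvw ⟨y, hy⟩
      exact h2
    rcases eq_or_conj K (τ v) (τ w) h1 with h2 | h2
    · exact hinj h2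
    · exact absurd h2 (hcj v w)
  have hLI : LinearIndependent ℂ (fun v : P => (σ v : RF K → ℂ)) :=
    (linearIndependent_monoidHom (RF K) ℂ).comp σ hσ
  have hspan : Submodule.span ℝ (Set.range f) = ⊤ := by
    by_contra hne
    obtain ⟨g, hg0, hg⟩ := Submodule.exists_le_ker_of_lt_top _ (lt_top_iff_ne_top.mpr hne)
    apply hg0
    have h3 : ∀ z : P → ℝ, g z = ∑ v, z v * g (Pi.single v 1) := by
      intro z
      conv_lhs => rw [← Finset.univ_sum_single z]
      rw [map_sum]
      refine Finset.sum_congr rfl fun v _ => ?_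
      have : (Pi.single v (z v) : P → ℝ) = z v • Pi.single v 1 := by
        rw [← Pi.single_smul, smul_eq_mul, mul_one]
      rw [this, map_smul, smul_eq_mul]
    have h4 : ∀ v, ((g (Pi.single v 1) : ℝ) : ℂ) = 0 := by
      rw [Fintype.linearIndependent_iff] at hLI
      apply hLI
      funext y
      rw [Finset.sum_apply]
      have h5 : g (f y) = 0 := hg (Submodule.subset_span ⟨y, rfl⟩)
      rw [h3] at h5
      have h6 : ((∑ v, f y v * g (Pi.single v 1) : ℝ) : ℂ) = 0 := by rw [h5]; simp
      rw [Complex.ofReal_sum] at h6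
      rw [Pi.zero_apply, ← h6]
      refine Finset.sum_congr rfl fun v _ => ?_
      rw [Complex.ofReal_mul, hf]
      show _ * τ v y = _
      ring
    apply LinearMap.ext
    intro z
    rw [h3]
    simp only [LinearMap.zero_apply]
    refine Finset.sum_eq_zero fun v _ => ?_
    have := h4 v
    rw [Complex.ofReal_eq_zero] at this
    rw [this, mul_zero]
  -- density
  have hdense : DenseRange f := by
    -- the closure of the range is a real subspace
    let W : Set (P → ℝ) := closure (Set.range f)
    have hadd : ∀ y y' : RF K, f (y + y') = f y + f y' := by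
      intro y y'
      funext v
      show (τ v ((y : E) + y')).re = _
      rw [map_add, Complex.add_re]
      rfl
    have hsm : ∀ (q : ℚ) (y : RF K), ∃ y' : RF K, f y' = (q : ℝ) • f y := by
      intro q y
      refine ⟨⟨q • (y : E), ?_⟩, ?_⟩
      · rw [mem_RF, K.bar_smul]
        rw [show K.bar (y : E) = y from y.2]
      · funext v
        show (τ v (q • (y : E))).re = (q : ℝ) * (τ v y).re
        rw [Algebra.smul_def, map_mul]
        have : τ v ((algebraMap ℚ E) q) = (q : ℂ) := map_ratCast (τ v) q
        rw [this]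
        simp
    have hzero : f 0 = 0 := by
      funext v
      show (τ v (0 : E)).re = 0
      simp
    have hWadd : ∀ a ∈ W, ∀ c ∈ W, a + c ∈ W := by
      intro a ha c hc
      refine map_mem_closure₂ continuous_add ha hc ?_
      rintro _ ⟨y, rfl⟩ _ ⟨y', rfl⟩
      exact ⟨y + y', hadd y y'⟩
    have hWsm : ∀ (r : ℝ), ∀ a ∈ W, r • a ∈ W := by
      intro r a ha
      have h8 : ∀ q : ℚ, (q : ℝ) • a ∈ W := by
        intro q
        refine map_mem_closure (continuous_const_smul (q : ℝ)) ha ?_
        rintro _ ⟨y, rfl⟩
        obtain ⟨y', hy'⟩ := hsm q y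
        exact ⟨y', hy'⟩
      have h9 : IsClosed {s : ℝ | s • a ∈ W} :=
        isClosed_closure.preimage (continuous_id.smul continuous_const)
      have h10 : {s : ℝ | s • a ∈ W} = Set.univ := by
        rw [← h9.closure_eq]
        refine (Rat.isDenseEmbedding_coe_real.dense.mono ?_).closure_eq
        rintro _ ⟨q, rfl⟩
        exact h8 q
      have : r ∈ {s : ℝ | s • a ∈ W} := by rw [h10]; trivial
      exact this
    let Wm : Submodule ℝ (P → ℝ) :=
      { carrier := W
        add_mem' := fun {a c} ha hc => hWadd a ha c hc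
        zero_mem' := subset_closure ⟨0, hzero⟩
        smul_mem' := fun r a ha => hWsm r a ha }
    have hle : Submodule.span ℝ (Set.range f) ≤ Wm := Submodule.span_le.mpr subset_closure
    rw [hspan] at hle
    intro z
    exact hle (Submodule.mem_top : z ∈ (⊤ : Submodule ℝ (P → ℝ)))
  -- the open set
  by_cases hP : Nonempty P
  · let U : Set (P → ℝ) := {z | ∀ v, z v ≠ 0 ∧ (p v → b v * (z v) ^ 2 < 1) ∧
      (¬ p v → 1 < b v * (z v) ^ 2)}
    have hU : IsOpen U := by
      have : U = ⋂ v, {z : P → ℝ | z v ≠ 0 ∧ (p v → b v * (z v) ^ 2 < 1) ∧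
          (¬ p v → 1 < b v * (z v) ^ 2)} := by
        ext z
        simp [U]
      rw [this]
      refine isOpen_iInter_of_finite fun v => ?_
      have h11 : Continuous fun z : P → ℝ => b v * (z v) ^ 2 :=
        continuous_const.mul ((continuous_apply v).pow 2)
      by_cases hpv : p v
      · have : {z : P → ℝ | z v ≠ 0 ∧ (p v → b v * (z v) ^ 2 < 1) ∧
          (¬ p v → 1 < b v * (z v) ^ 2)} = {z | z v ≠ 0} ∩ {z | b v * (z v) ^ 2 < 1} := by
          ext z
          simp [hpv]
        rw [this]
        exact (isOpen_ne_fun (continuous_apply v) continuous_const).inter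
          (isOpen_lt h11 continuous_const)
      · have : {z : P → ℝ | z v ≠ 0 ∧ (p v → b v * (z v) ^ 2 < 1) ∧
          (¬ p v → 1 < b v * (z v) ^ 2)} = {z | z v ≠ 0} ∩ {z | 1 < b v * (z v) ^ 2} := by
          ext z
          simp [hpv]
        rw [this]
        exact (isOpen_ne_fun (continuous_apply v) continuous_const).inter
          (isOpen_lt continuous_const h11)
    have hUne : U.Nonempty := by
      refine ⟨fun v => if p v then 1 / (2 * Real.sqrt (b v)) else 2 / Real.sqrt (b v), ?_⟩
      intro v
      have hs : 0 < Real.sqrt (b v) := Real.sqrt_pos.mpr (hb v)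
      have hs2 : Real.sqrt (b v) ^ 2 = b v := Real.sq_sqrt (hb v).le
      refine ⟨?_, ?_, ?_⟩
      · dsimp only
        split_ifs
        · positivity
        · positivity
      · intro hpv
        dsimp only
        rw [if_pos hpv]
        have : b v * (1 / (2 * Real.sqrt (b v))) ^ 2 = 1 / 4 := by
          rw [div_pow, mul_pow, hs2]
          have := (hb v).ne'
          field_simp
          norm_num
        rw [this]
        norm_num
      · intro hpv
        dsimp only
        rw [if_neg hpv]
        have : b v * (2 / Real.sqrt (b v)) ^ 2 = 4 := by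
          rw [div_pow, hs2]
          have := (hb v).ne'
          field_simp
          norm_num
        rw [this]
        norm_num
    obtain ⟨y, hy⟩ := hdense.exists_mem_open hU hUne
    refine ⟨y, y.2, ?_, ?_⟩
    · obtain ⟨v⟩ := hP
      intro h0
      apply (hy v).1
      show (τ v (y : E)).re = 0
      rw [h0]
      simp
    · intro v
      have h12 : ‖τ v (y : E)‖ ^ 2 = (f y v) ^ 2 := by
        rw [← hf y v, Complex.norm_real, Real.norm_eq_abs, sq_abs]
      rw [h12]
      exact (hy v).2
  · refine ⟨1, map_one _, one_ne_zero, ?_⟩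
    intro v
    exact absurd ⟨v⟩ hP

end Pool.Agent.SPF
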