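import Mathlib

/-!
# Local Osgood lemma: statement
-/

namespace Pool.Agent.SPF

/-- Osgood's lemma: holomorphic functions on open subsets of `ℂ^n` are analytic. -/
def Stmt_OSG : Prop :=
  ∀ (E : Type) [NormedAddCommGroup E] [NormedSpace ℂ E] [FiniteDimensional ℂ E] (U : Set E)
    (f : E → ℂ), IsOpen U → DifferentiableOn ℂ f U → AnalyticOnNhd ℂ f U

end Pool.Agent.SPF
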