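import Pool.Agent.SPF.Kit
import Pool.Agent.SPF.Osg

set_option linter.unusedSectionVars false

/-!
# STEP0: the step theorem at the centre of the family
-/

open scoped BigOperators
open Complex

namespace Pool.Agent.SPF

noncomputable section

namespace STEP0_

/-! ### Linear algebra: selection of an invertible square submatrix -/

theorem select {X r : Type} [Fintype r] [DecidableEq r] (g : X → r → ℂ)
    (h : ∀ a : r → ℂ, (∀ x, ∑ v, a v * g x v = 0) → a = 0) :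
    ∃ xs : r → X, (Matrix.of fun i j => g (xs i) j).det ≠ 0 := by
  classical
  have hspan : Submodule.span ℂ (Set.range g) = ⊤ := by
    by_contra hne
    obtain ⟨f, hf0, hf⟩ := Submodule.exists_le_ker_of_lt_top _ (lt_top_iff_ne_top.2 hne)
    apply hf0
    have ha : (fun v => f (Pi.single v 1)) = 0 := by
      apply h
      intro x
      have hx : f (g x) = 0 := by
        have := hf (Submodule.subset_span ⟨x, rfl⟩)
        simpa using this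
      have e1 : g x = ∑ v, g x v • (Pi.single v (1 : ℂ) : r → ℂ) := by
        funext w
        simp [Finset.sum_apply, Pi.single_apply]
      rw [e1, map_sum] at hx
      simp only [map_smul, smul_eq_mul] at hx
      rw [← hx]
      exact Finset.sum_congr rfl fun v _ => mul_comm _ _
    apply LinearMap.pi_ext'
    intro v
    ext
    simpa using congrFun ha v
  obtain ⟨b, hbs, hb1, hb2⟩ := exists_linearIndependent ℂ (Set.range g)
  rw [hspan] at hb1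
  let Bb : Module.Basis b ℂ (r → ℂ) := Module.Basis.mk hb2 (by
    rw [Subtype.range_coe, hb1])
  have : Finite b := Module.Finite.finite_basis Bb
  have := Fintype.ofFinite b
  have hcard : Fintype.card r = Fintype.card b := by
    rw [← Module.finrank_eq_card_basis Bb]
    simp
  let eq := Fintype.equivOfCardEq hcard
  have hch : ∀ i : r, ∃ x : X, g x = (eq i : r → ℂ) := fun i => hbs (eq i).2
  choose xs hxs using hch
  refine ⟨xs, ?_⟩
  have hli : LinearIndependent ℂ (fun i : r => g (xs i)) := by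
    have hc := hb2.comp eq eq.injective
    have hfun : (fun i : r => g (xs i)) = (Subtype.val ∘ eq) := funext hxs
    rw [hfun]
    exact hc
  have := (Matrix.linearIndependent_rows_iff_isUnit (A := Matrix.of fun i j => g (xs i) j)).1 hli
  exact ((Matrix.isUnit_iff_isUnit_det _).1 this).ne_zero

/-! ### derivations -/

theorem der_alg (δ : Derivation ℚ ℂ ℂ) {x : ℂ} (hx : Alg x) : δ x = 0 := by
  have hint : IsIntegral ℚ x := hx.isIntegral
  have h1 : Polynomial.aeval x (minpoly ℚ x) = 0 := minpoly.aeval ℚ x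
  have h2 : δ (Polynomial.aeval x (minpoly ℚ x)) =
      Polynomial.aeval x (Polynomial.derivative (minpoly ℚ x)) • δ x := by
    rw [Derivation.map_aeval]
  rw [h1, map_zero] at h2
  have h3 : Polynomial.aeval x (Polynomial.derivative (minpoly ℚ x)) ≠ 0 := by
    have hs := (minpoly.irreducible hint).separable
    exact hs.aeval_derivative_ne_zero h1
  rcases smul_eq_zero.1 h2.symm with h | h
  · exact absurd h h3
  · exact h

section Good

variable {r : Type} [Fintype r] [DecidableEq r]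

/-- `f` is differentiable at `0` and `δ (f 0) = df(0) X` -/
def Gd (δ : Derivation ℚ ℂ ℂ) (X : r → ℂ) (f : (r → ℂ) → ℂ) : Prop :=
  DifferentiableAt ℂ f 0 ∧ δ (f 0) = fderiv ℂ f 0 X

variable {δ : Derivation ℚ ℂ ℂ} {X : r → ℂ}

theorem Gd.add {f g : (r → ℂ) → ℂ} (hf : Gd δ X f) (hg : Gd δ X g) :
    Gd δ X (fun s => f s + g s) := by
  refine ⟨hf.1.add hg.1, ?_⟩
  have : fderiv ℂ (fun s => f s + g s) 0 = fderiv ℂ f 0 + fderiv ℂ g 0 := fderiv_add hf.1 hg.1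
  rw [this, map_add, hf.2, hg.2]
  rfl

theorem Gd.mul {f g : (r → ℂ) → ℂ} (hf : Gd δ X f) (hg : Gd δ X g) :
    Gd δ X (fun s => f s * g s) := by
  refine ⟨hf.1.mul hg.1, ?_⟩
  have : fderiv ℂ (fun s => f s * g s) 0 = f 0 • fderiv ℂ g 0 + g 0 • fderiv ℂ f 0 :=
    fderiv_mul hf.1 hg.1
  rw [this, Derivation.leibniz, hf.2, hg.2]
  simp

theorem Gd.const {a : ℂ} (ha : Alg a) : Gd δ X (fun _ : r → ℂ => a) := by
  refine ⟨differentiableAt_const a, ?_⟩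
  rw [der_alg δ ha]
  simp

theorem Gd.inv {f : (r → ℂ) → ℂ} (hf : Gd δ X f) (h0 : f 0 ≠ 0) :
    Gd δ X (fun s => (f s)⁻¹) := by
  have hd : DifferentiableAt ℂ (fun s => (f s)⁻¹) 0 := hf.1.inv h0
  refine ⟨hd, ?_⟩
  have h1 : fderiv ℂ (fun s => (f s)⁻¹) 0 = -((f 0) ^ 2)⁻¹ • fderiv ℂ f 0 := by
    have h2 : HasFDerivAt (fun s => (f s)⁻¹) (-((f 0) ^ 2)⁻¹ • fderiv ℂ f 0) 0 := by
      have := (hasDerivAt_inv h0).comp_hasFDerivAt (0 : r → ℂ) hf.1.hasFDerivAt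
      exact this
    exact h2.fderiv
  rw [h1]
  have h3 : δ ((f 0)⁻¹) = -((f 0) ^ 2)⁻¹ * δ (f 0) := by
    have h4 : δ (f 0 * (f 0)⁻¹) = 0 := by
      rw [mul_inv_cancel₀ h0]; exact Derivation.map_one_eq_zero δ
    rw [Derivation.leibniz, smul_eq_mul, smul_eq_mul] at h4
    have h5 : δ ((f 0)⁻¹) = (f 0)⁻¹ * (f 0 * δ ((f 0)⁻¹)) := by
      rw [← mul_assoc, inv_mul_cancel₀ h0, one_mul]
    rw [h5, eq_neg_of_add_eq_zero_left h4]
    ring
  rw [h3, hf.2]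
  simp

theorem Gd.div {f g : (r → ℂ) → ℂ} (hf : Gd δ X f) (hg : Gd δ X g) (h0 : g 0 ≠ 0) :
    Gd δ X (fun s => f s / g s) := by
  have := hf.mul (hg.inv h0)
  simpa [div_eq_mul_inv] using this

theorem Gd.sum {κ : Type} (t : Finset κ) {f : κ → (r → ℂ) → ℂ} (hf : ∀ k ∈ t, Gd δ X (f k)) :
    Gd δ X (fun s => ∑ k ∈ t, f k s) := by
  classical
  induction t using Finset.induction_on with
  | empty =>
    simpa using (Gd.const (δ := δ) (X := X) (a := 0) isAlgebraic_zero)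
  | insert a t ha ih =>
    simp only [Finset.sum_insert ha]
    exact (hf a (Finset.mem_insert_self _ _)).add
      (ih fun k hk => hf k (Finset.mem_insert_of_mem hk))

theorem Gd.congr {f g : (r → ℂ) → ℂ} (hf : Gd δ X f) (h : f =ᶠ[nhds 0] g) : Gd δ X g := by
  refine ⟨hf.1.congr_of_eventuallyEq h.symm, ?_⟩
  rw [← h.eq_of_nhds, hf.2, h.fderiv_eq]

theorem sum_pd (f : (r → ℂ) → ℂ) (z X : r → ℂ) : ∑ j, X j * pd j f z = fderiv ℂ f z X := by
  have e1 : X = ∑ v, X v • (Pi.single v (1 : ℂ) : r → ℂ) := by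
    funext w
    simp [Finset.sum_apply, Pi.single_apply]
  conv_rhs => rw [e1, map_sum]
  simp only [map_smul, smul_eq_mul, pd]

end Good


section Main

variable {E : Type} [Field E] [NumberField E] {I J : Type} [Fintype I] [Fintype J]
  [DecidableEq I] [DecidableEq J]

theorem alg_expq (q : ℚ) : Alg (cexp (Real.pi * Complex.I * (q : ℚ))) := by
  have hn : (q.den : ℂ) ≠ 0 := by exact_mod_cast q.den_nz
  have h1 : cexp (Real.pi * Complex.I * (q : ℚ)) ^ (2 * q.den) = 1 := by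
    rw [← Complex.exp_nat_mul, Complex.exp_eq_one_iff]
    refine ⟨q.num, ?_⟩
    have hq : ((q : ℚ) : ℂ) = (q.num : ℂ) / (q.den : ℂ) := by
      exact_mod_cast congrArg (fun r : ℚ => (r : ℂ)) q.num_div_den.symm
    rw [hq]
    push_cast
    field_simp
  refine IsAlgebraic.of_pow (n := 2 * q.den) (by have := q.den_pos; omega) ?_
  rw [h1]
  exact isAlgebraic_one


theorem alg_sum {κ : Type} (t : Finset κ) {f : κ → ℂ} (hf : ∀ k ∈ t, Alg (f k)) :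
    Alg (∑ k ∈ t, f k) := by
  classical
  induction t using Finset.induction_on with
  | empty => simpa using (isAlgebraic_zero : Alg (0 : ℂ))
  | insert a t ha ih =>
    rw [Finset.sum_insert ha]
    exact (hf a (Finset.mem_insert_self _ _)).add (ih fun k hk => hf k (Finset.mem_insert_of_mem hk))

theorem pd_div {r : Type} [Fintype r] [DecidableEq r] {f g : (r → ℂ) → ℂ} {z : r → ℂ}
    (hf : DifferentiableAt ℂ f z) (hg : DifferentiableAt ℂ g z) (h0 : g z ≠ 0) (v : r) :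
    pd v (fun s => f s / g s) z = (pd v f z * g z - f z * pd v g z) / g z ^ 2 := by
  have h1 : HasFDerivAt (fun s => (g s)⁻¹) (-((g z) ^ 2)⁻¹ • fderiv ℂ g z) z :=
    (hasDerivAt_inv h0).comp_hasFDerivAt z hg.hasFDerivAt
  have h2 := hf.hasFDerivAt.mul h1
  have h3 : (fun s => f s / g s) = fun s => f s * (g s)⁻¹ := by
    funext s; rw [div_eq_mul_inv]
  unfold pd
  rw [h3]
  have h4 : fderiv ℂ (fun s => f s * (g s)⁻¹) z =
      f z • (-((g z) ^ 2)⁻¹ • fderiv ℂ g z) + (g z)⁻¹ • fderiv ℂ f z := h2.fderiv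
  rw [h4]
  simp only [add_apply, smul_apply, smul_eq_mul]
  field_simp
  ring

variable (D : FamData E I J) (B : Module.Basis (Co I J ⊕ Co I J) ℚ (E × E))
  (Θ : (I → ℂ) → (Co I J → ℂ) → ℂ)

theorem Bc_ne (v : I) : D.Bc (Sum.inl v) ≠ 0 := by
  unfold FamData.Bc
  have h1 : D.t (Sum.inl v) D.ξ₂ ≠ 0 := by
    intro h
    have := D.posI v
    rw [h] at this
    simp at this
  have h2 : (Real.pi : ℂ) ≠ 0 := by exact_mod_cast Real.pi_ne_zero
  simp only [ne_eq, mul_eq_zero, OfNat.ofNat_ne_zero, h2, Complex.I_ne_zero, h1, or_self,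
    not_false_eq_true]

/-- the immersion property at the centre -/
theorem imm (hHEAT : Stmt_HEAT) (hSEP2 : Stmt_SEP2) (hHOLO : Stmt_HOLO)
    (hB : SympBasis D.e B) (hΘ : D.ThFam B Θ) (y₀ : E × E) (hy₀ : D.W Θ y₀ 0 ≠ 0) :
    ∃ xs : I → E × E,
      (Matrix.of fun i j => pd j (fun s => D.W Θ (xs i) s / D.W Θ y₀ s) 0).det ≠ 0 := by
  have hdiff : ∀ x, DifferentiableAt ℂ (D.W Θ x) 0 := fun x =>
    ((hHOLO E I J D B Θ hΘ x).1).differentiableAt (D.isOpen_Dom.mem_nhds D.zero_mem_Dom)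
  apply select (fun (x : E × E) v => pd v (fun s => D.W Θ x s / D.W Θ y₀ s) 0)
  intro a ha
  by_contra hane
  have hheat : ∀ v : I, ∃ f : ℂ, ∀ x, pd v (D.W Θ x) 0 = 1 / D.Bc (Sum.inl v) *
      pd (FamData.i1 v) (fun z => pd (FamData.i2 v) (TT (D.zeta 0) D.L x (Θ 0)) z) 0 +
      f * D.W Θ x 0 := hHEAT E I J D B Θ hB hΘ 0 D.zero_mem_Dom
  choose f hf using hheat
  have ha' : (fun v => a v / D.Bc (Sum.inl v)) ≠ 0 := by
    intro h
    apply hane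
    funext v
    have := congrFun h v
    simp only [Pi.zero_apply, div_eq_zero_iff] at this
    rcases this with h | h
    · exact h
    · exact absurd h (Bc_ne D v)
  obtain ⟨x, hx⟩ := hSEP2 E I J D B (Θ 0) hB (hΘ.th 0 D.zero_mem_Dom) (hΘ.nz 0 D.zero_mem_Dom) _ ha'
    ((∑ v, a v * pd v (D.W Θ y₀) 0) / D.W Θ y₀ 0 - ∑ v, a v * f v)
  apply hx
  have h1 := ha x
  have h2 : ∀ v, pd v (fun s => D.W Θ x s / D.W Θ y₀ s) 0 =
      (pd v (D.W Θ x) 0 * D.W Θ y₀ 0 - D.W Θ x 0 * pd v (D.W Θ y₀) 0) / D.W Θ y₀ 0 ^ 2 :=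
    fun v => pd_div (hdiff x) (hdiff y₀) hy₀ v
  simp only [h2] at h1
  have h3 : (∑ v, a v * pd v (D.W Θ x) 0) * D.W Θ y₀ 0 =
      D.W Θ x 0 * ∑ v, a v * pd v (D.W Θ y₀) 0 := by
    have h4 : ∑ v, a v * ((pd v (D.W Θ x) 0 * D.W Θ y₀ 0 - D.W Θ x 0 * pd v (D.W Θ y₀) 0) /
        D.W Θ y₀ 0 ^ 2) = ((∑ v, a v * pd v (D.W Θ x) 0) * D.W Θ y₀ 0 -
        D.W Θ x 0 * ∑ v, a v * pd v (D.W Θ y₀) 0) / D.W Θ y₀ 0 ^ 2 := by
      rw [Finset.sum_mul, Finset.mul_sum, ← Finset.sum_sub_distrib, Finset.sum_div]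
      exact Finset.sum_congr rfl fun v _ => by ring
    rw [h4, div_eq_zero_iff] at h1
    rcases h1 with h1 | h1
    · exact sub_eq_zero.1 h1
    · exact absurd h1 (pow_ne_zero 2 hy₀)
  have h5 : ∀ v, a v / D.Bc (Sum.inl v) *
      pd (FamData.i1 v) (fun z => pd (FamData.i2 v) (TT (D.zeta 0) D.L x (Θ 0)) z) 0 =
      a v * pd v (D.W Θ x) 0 - a v * f v * D.W Θ x 0 := by
    intro v
    rw [hf v x]
    ring
  rw [Finset.sum_congr rfl fun v _ => h5 v, Finset.sum_sub_distrib, ← Finset.sum_mul]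
  have h6 : ∑ v, a v * pd v (D.W Θ x) 0 =
      (∑ v, a v * pd v (D.W Θ y₀) 0) / D.W Θ y₀ 0 * D.W Θ x 0 := by
    field_simp
    rw [h3]
    ring
  rw [h6]
  show _ = _ * D.W Θ x 0
  ring


/-- quotients satisfying `Rel` are good -/
theorem gd_rel (hCLM : Stmt_CLM) (hOSG : Stmt_OSG) (hHOLO : Stmt_HOLO)
    (hΘ : D.ThFam B Θ) {y₀ : E × E} (hy₀ : D.W Θ y₀ 0 ≠ 0) {xs : I → E × E}
    (hxs : (Matrix.of fun i j => pd j (fun s => D.W Θ (xs i) s / D.W Θ y₀ s) 0).det ≠ 0)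
    {δ : Derivation ℚ ℂ ℂ} {X : I → ℂ}
    (hX : ∀ i, ∑ j, X j * pd j (fun s => D.W Θ (xs i) s / D.W Θ y₀ s) 0 =
      δ (D.W Θ (xs i) 0 / D.W Θ y₀ 0))
    {A B' : (I → ℂ) → ℂ} (hA : DifferentiableOn ℂ A D.Dom) (hB' : DifferentiableOn ℂ B' D.Dom)
    (h0 : B' 0 ≠ 0) (hrel : D.Rel Θ A B') :
    Gd δ X (fun s => A s / B' s) := by
  have hD : D.Dom ∈ nhds (0 : I → ℂ) := D.isOpen_Dom.mem_nhds D.zero_mem_Dom
  have hWan : ∀ x, AnalyticAt ℂ (D.W Θ x) 0 := fun x =>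
    hOSG _ _ _ D.isOpen_Dom (hHOLO E I J D B Θ hΘ x).1 0 D.zero_mem_Dom
  have hAan : AnalyticAt ℂ A 0 := hOSG _ _ _ D.isOpen_Dom hA 0 D.zero_mem_Dom
  have hBan : AnalyticAt ℂ B' 0 := hOSG _ _ _ D.isOpen_Dom hB' 0 D.zero_mem_Dom
  have hφ : AnalyticAt ℂ (fun s => A s / B' s) 0 := hAan.div hBan h0
  obtain ⟨P, hP0, hPalg, hP⟩ := hrel y₀ xs
  refine ⟨hφ.differentiableAt, ?_⟩
  rw [← sum_pd]
  refine hCLM I 0 (fun i s => D.W Θ (xs i) s / D.W Θ y₀ s) (fun s => A s / B' s) P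
    (fun i => (hWan _).div (hWan _) hy₀) hφ hP0 hPalg ?_ hxs δ X hX
  have e1 : ∀ᶠ s in nhds (0 : I → ℂ), D.W Θ y₀ s ≠ 0 := (hWan y₀).continuousAt.eventually_ne hy₀
  have e2 : ∀ᶠ s in nhds (0 : I → ℂ), B' s ≠ 0 := hBan.continuousAt.eventually_ne h0
  filter_upwards [hD, e1, e2] with s h1 h2 h3
  exact hP s h1 h2 h3

/-! ### the isometry -/

theorem xi_ne (v : I ⊕ J) : D.ξ₁ ≠ 0 := by
  intro h
  have := D.pos1 v
  rw [h] at this
  simp at this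

theorem one_add_ne : 1 + D.ξ₁ ≠ 0 := by
  intro h
  have h1 : D.ξ₁ = -1 := by linear_combination h
  have h2 := D.ξ₁_bar
  rw [h1, map_neg, map_one] at h2
  norm_num at h2

theorem one_sub_ne : 1 - D.ξ₁ ≠ 0 := by
  intro h
  have h1 : D.ξ₁ = 1 := by linear_combination -h
  have h2 := D.ξ₁_bar
  rw [h1, map_one] at h2
  norm_num at h2

/-- the isometry `diag(a, 1)` -/
def gIso : D.Iso where
  a := (1 + D.ξ₁) / (1 - D.ξ₁)
  b := 0
  c := 0
  d := 1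
  h1 := by
    have h1 := one_add_ne D
    have h2 := one_sub_ne D
    rw [map_div₀, map_add, map_sub, D.ξ₁_bar, map_one, map_zero]
    have h3 : (1 : E) - -D.ξ₁ ≠ 0 := by rw [sub_neg_eq_add]; exact h1
    rw [← sub_eq_add_neg, sub_neg_eq_add]
    field_simp
    ring
  h2 := by simp
  h3 := by simp

theorem gIso_ne (v : I ⊕ J) : D.t v (gIso D).a - 1 ≠ 0 := by
  intro h
  have h1 : D.t v (gIso D).a = D.t v 1 := by rw [map_one]; exact sub_eq_zero.1 h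
  have h2 : (gIso D).a = 1 := (D.t v).injective h1
  have h3 : (1 + D.ξ₁) / (1 - D.ξ₁) = 1 := h2
  rw [div_eq_one_iff_eq (one_sub_ne D)] at h3
  have h4 : D.ξ₁ = 0 := by
    have h5 : (2 : E) * D.ξ₁ = 0 := by linear_combination h3
    rcases mul_eq_zero.1 h5 with h | h
    · norm_num at h
    · exact h
  exact xi_ne D v h4

theorem gIso_act (s : I → ℂ) (v : I) :
    (gIso D).act s v = D.t (Sum.inl v) (gIso D).a * s v := by
  unfold FamData.Iso.act FamData.Iso.j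
  have h1 : (gIso D).b = 0 := rfl
  have h2 : (gIso D).c = 0 := rfl
  have h3 : (gIso D).d = 1 := rfl
  rw [h1, h2, h3, map_zero, map_one]
  simp


/-- Hecke sums of good quotients are good -/
theorem gd_hsum {δ : Derivation ℚ ℂ ℂ} {X : I → ℂ} (C : (E × E) →₀ ℂ) (hC : ∀ y, Alg (C y))
    {f : E × E → (I → ℂ) → ℂ} {h : (I → ℂ) → ℂ} (hf : ∀ y, Gd δ X (fun s => f y s / h s))
    (x : E × E) : Gd δ X (fun s => Hsum D.e C (fun y => f y s) x / h s) := by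
  have h1 : (fun s => Hsum D.e C (fun y => f y s) x / h s) = fun s => ∑ y ∈ C.support,
      (C y * cexp (Real.pi * Complex.I * (D.e x y : ℚ))) * (f (x + y) s / h s) := by
    funext s
    unfold Hsum Finsupp.sum
    rw [Finset.sum_div]
    exact Finset.sum_congr rfl fun y _ => by ring
  rw [h1]
  apply Gd.sum
  intro y _
  exact (Gd.const ((hC y).mul (alg_expq _))).mul (hf (x + y))

/-- the vector field vanishes -/
theorem X_zero (hREL : Stmt_REL) (hISO : Stmt_ISO) (hHOLO : Stmt_HOLO)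
    (hB : SympBasis D.e B) (hΘ : D.ThFam B Θ) {y₀ : E × E} (hy₀ : D.W Θ y₀ 0 ≠ 0)
    {xs : I → E × E}
    (hxs : (Matrix.of fun i j => pd j (fun s => D.W Θ (xs i) s / D.W Θ y₀ s) 0).det ≠ 0)
    {δ : Derivation ℚ ℂ ℂ} {X : I → ℂ}
    (hgd : ∀ x, Gd δ X (fun s => D.W Θ x s / D.W Θ y₀ s)) : X = 0 := by
  obtain ⟨C, hC, hrel⟩ := hREL E I J D B Θ hB hΘ (gIso D)
  obtain ⟨-, -, hsurj, hiso⟩ := hISO E I J D (gIso D)
  obtain ⟨y', hy'⟩ := hsurj y₀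
  have hD : D.Dom ∈ nhds (0 : I → ℂ) := D.isOpen_Dom.mem_nhds D.zero_mem_Dom
  have hact0 : (gIso D).act 0 = 0 := by
    funext v
    rw [gIso_act]
    simp
  -- the linear map
  let T : (I → ℂ) →L[ℂ] (I → ℂ) :=
    ContinuousLinearMap.pi fun v => (D.t (Sum.inl v) (gIso D).a) • ContinuousLinearMap.proj v
  have hT : ∀ s, (gIso D).act s = T s := by
    intro s
    funext v
    rw [gIso_act]
    simp [T]
  have hHy : Hsum D.e C (fun y => D.W Θ y 0) y' ≠ 0 := by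
    obtain ⟨κ, hκ, h⟩ := hrel 0 D.zero_mem_Dom
    have h1 := (h y').1
    rw [hy', hact0] at h1
    intro h2
    rw [h2, mul_zero] at h1
    exact hy₀ h1
  have key : ∀ i : I, fderiv ℂ (fun s => D.W Θ (xs i) s / D.W Θ y₀ s) 0 (T X - X) = 0 := by
    intro i
    obtain ⟨x', hx'⟩ := hsurj (xs i)
    have g1 := gd_hsum D C hC (f := fun y s => D.W Θ y s) (h := fun s => D.W Θ y₀ s) hgd x'
    have g2 := gd_hsum D C hC (f := fun y s => D.W Θ y s) (h := fun s => D.W Θ y₀ s) hgd y'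
    have g3 := g1.div g2 (div_ne_zero hHy hy₀)
    have hgx := hgd (xs i)
    have hev : (fun s => Hsum D.e C (fun y => D.W Θ y s) x' / D.W Θ y₀ s /
        (Hsum D.e C (fun y => D.W Θ y s) y' / D.W Θ y₀ s)) =ᶠ[nhds 0]
        fun s => D.W Θ (xs i) (T s) / D.W Θ y₀ (T s) := by
      have e1 : ∀ᶠ s in nhds (0 : I → ℂ), D.W Θ y₀ s ≠ 0 :=
        ((hHOLO E I J D B Θ hΘ y₀).1.differentiableAt hD).continuousAt.eventually_ne hy₀
      filter_upwards [hD, e1] with s hs1 hs2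
      obtain ⟨κ, hκ, h⟩ := hrel s hs1
      rw [← hT s, ← hx', ← hy', (h x').1, (h y').1, mul_div_mul_left _ _ hκ, hy',
        div_div_div_cancel_right₀ hs2]
    have g4 := g3.congr hev
    have hcomp : fderiv ℂ (fun s => D.W Θ (xs i) (T s) / D.W Θ y₀ (T s)) 0 =
        (fderiv ℂ (fun s => D.W Θ (xs i) s / D.W Θ y₀ s) 0).comp T := by
      have hT0 : T 0 = 0 := map_zero T
      have h1 : HasFDerivAt (fun s => D.W Θ (xs i) s / D.W Θ y₀ s)
          (fderiv ℂ (fun s => D.W Θ (xs i) s / D.W Θ y₀ s) 0) (T 0) := by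
        rw [hT0]
        exact hgx.1.hasFDerivAt
      exact (h1.comp 0 T.hasFDerivAt).fderiv
    have h5 : δ (D.W Θ (xs i) (T 0) / D.W Θ y₀ (T 0)) =
        fderiv ℂ (fun s => D.W Θ (xs i) (T s) / D.W Θ y₀ (T s)) 0 X := g4.2
    rw [hcomp, map_zero T] at h5
    have h6 : δ (D.W Θ (xs i) 0 / D.W Θ y₀ 0) =
        fderiv ℂ (fun s => D.W Θ (xs i) s / D.W Θ y₀ s) 0 (T X) := h5
    rw [map_sub, ← hgx.2, ← h6]
    exact sub_self _
  have hTX : T X - X = 0 := by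
    have hM : (Matrix.of fun i j => pd j (fun s => D.W Θ (xs i) s / D.W Θ y₀ s) 0).mulVec
        (T X - X) = 0 := by
      funext i
      have := key i
      rw [← sum_pd] at this
      rw [Matrix.mulVec, dotProduct]
      simp only [Matrix.of_apply, Pi.zero_apply]
      rw [← this]
      exact Finset.sum_congr rfl fun j _ => mul_comm _ _
    by_contra hne
    exact hxs (Matrix.exists_mulVec_eq_zero_iff.1 ⟨_, hne, hM⟩)
  funext v
  have h1 := congrFun hTX v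
  have h2 : (D.t (Sum.inl v) (gIso D).a - 1) * X v = 0 := by
    have h3 : T X v = D.t (Sum.inl v) (gIso D).a * X v := by simp [T]
    have h4 : T X v - X v = 0 := h1
    rw [h3] at h4
    linear_combination h4
  rcases mul_eq_zero.1 h2 with h | h
  · exact absurd h (gIso_ne D _)
  · exact h


/-- values at the centre are algebraic -/
theorem alg_centre (hCLM : Stmt_CLM) (hOSG : Stmt_OSG) (hDER : Stmt_DER) (hHEAT : Stmt_HEAT)
    (hSEP2 : Stmt_SEP2) (hREL : Stmt_REL) (hISO : Stmt_ISO) (hHOLO : Stmt_HOLO)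
    (hB : SympBasis D.e B) (hΘ : D.ThFam B Θ) {y₀ : E × E} (hy₀ : D.W Θ y₀ 0 ≠ 0)
    (hW : ∀ x y, D.Rel Θ (D.W Θ x) (D.W Θ y))
    {A B' : (I → ℂ) → ℂ} (hA : DifferentiableOn ℂ A D.Dom) (hB' : DifferentiableOn ℂ B' D.Dom)
    (h0 : B' 0 ≠ 0) (hrel : D.Rel Θ A B') : Alg (A 0 / B' 0) := by
  obtain ⟨xs, hxs⟩ := imm D B Θ hHEAT hSEP2 hHOLO hB hΘ y₀ hy₀
  apply hDER
  intro δ
  obtain ⟨X, hX⟩ : ∃ X : I → ℂ, ∀ i, ∑ j, X j * pd j (fun s => D.W Θ (xs i) s / D.W Θ y₀ s) 0 =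
      δ (D.W Θ (xs i) 0 / D.W Θ y₀ 0) := by
    have hu : IsUnit (Matrix.of fun i j => pd j (fun s => D.W Θ (xs i) s / D.W Θ y₀ s) 0) :=
      (Matrix.isUnit_iff_isUnit_det _).2 (isUnit_iff_ne_zero.2 hxs)
    obtain ⟨X, hX⟩ := (Matrix.mulVec_surjective_iff_isUnit.2 hu)
      (fun i => δ (D.W Θ (xs i) 0 / D.W Θ y₀ 0))
    refine ⟨X, fun i => ?_⟩
    have := congrFun hX i
    rw [Matrix.mulVec, dotProduct] at this
    simp only [Matrix.of_apply] at this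
    rw [← this]
    exact Finset.sum_congr rfl fun j _ => mul_comm _ _
  have hgd : ∀ x, Gd δ X (fun s => D.W Θ x s / D.W Θ y₀ s) := fun x =>
    gd_rel D B Θ hCLM hOSG hHOLO hΘ hy₀ hxs hX (hHOLO E I J D B Θ hΘ x).1
      (hHOLO E I J D B Θ hΘ y₀).1 hy₀ (hW x y₀)
  have hX0 : X = 0 := X_zero D B Θ hREL hISO hHOLO hB hΘ hy₀ hxs hgd
  have h := (gd_rel D B Θ hCLM hOSG hHOLO hΘ hy₀ hxs hX hA hB' h0 hrel).2
  rw [hX0, map_zero] at h
  exact h

/-! ### the final linear algebra -/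

/-- span of two vectors over the algebraic numbers -/
def InU (p₁ p₂ p : ℂ × ℂ) : Prop := ∃ α β : ℂ, Alg α ∧ Alg β ∧
  p = (α * p₁.1 + β * p₂.1, α * p₁.2 + β * p₂.2)

theorem InU.add {p₁ p₂ p q : ℂ × ℂ} (hp : InU p₁ p₂ p) (hq : InU p₁ p₂ q) : InU p₁ p₂ (p + q) := by
  obtain ⟨α, β, hα, hβ, rfl⟩ := hp
  obtain ⟨α', β', hα', hβ', rfl⟩ := hq
  refine ⟨α + α', β + β', hα.add hα', hβ.add hβ', ?_⟩
  ext <;> simp <;> ring

theorem InU.smul {p₁ p₂ p : ℂ × ℂ} {a : ℂ} (ha : Alg a) (hp : InU p₁ p₂ p) :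
    InU p₁ p₂ (a * p.1, a * p.2) := by
  obtain ⟨α, β, hα, hβ, rfl⟩ := hp
  refine ⟨a * α, a * β, ha.mul hα, ha.mul hβ, ?_⟩
  ext <;> simp <;> ring

theorem InU.sum {p₁ p₂ : ℂ × ℂ} {κ : Type} (t : Finset κ) {f : κ → ℂ × ℂ}
    (hf : ∀ k ∈ t, InU p₁ p₂ (f k)) : InU p₁ p₂ (∑ k ∈ t, f k) := by
  classical
  induction t using Finset.induction_on with
  | empty => exact ⟨0, 0, isAlgebraic_zero, isAlgebraic_zero, by simp; rfl⟩
  | insert a t ha ih =>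
    rw [Finset.sum_insert ha]
    exact (hf a (Finset.mem_insert_self _ _)).add (ih fun k hk => hf k (Finset.mem_insert_of_mem hk))

theorem InU.det {p₁ p₂ p q : ℂ × ℂ} (hp : InU p₁ p₂ p) (hq : InU p₁ p₂ q) :
    ∃ a : ℂ, Alg a ∧ p.1 * q.2 - p.2 * q.1 = a * (p₁.1 * p₂.2 - p₁.2 * p₂.1) := by
  obtain ⟨α, β, hα, hβ, rfl⟩ := hp
  obtain ⟨α', β', hα', hβ', rfl⟩ := hq
  refine ⟨α * β' - β * α', (hα.mul hβ').sub (hβ.mul hα'), ?_⟩
  simp only
  ring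


/-- the definite places: abstract form -/
theorem defin {X : Type} {G1 G2 : X → ℂ} {x₁ x₂ : X}
    (h1 : G1 x₁ * G2 x₂ - G2 x₁ * G1 x₂ ≠ 0)
    (h2 : ∀ x y, Alg ((G1 x * G2 y - G2 x * G1 y) / (G1 x₁ * G2 x₂ - G2 x₁ * G1 x₂)))
    {a : ℂ} (ha : Alg a) (ha1 : a - 1 ≠ 0) (g : X → X) (hg : ∀ y, ∃ x, g x = y)
    (h3 : ∀ x, (∀ y, InU (G1 x₁, G2 x₁) (G1 x₂, G2 x₂) (G1 y, G2 y)) →
      InU (G1 x₁, G2 x₁) (G1 x₂, G2 x₂) (a * G1 (g x), G2 (g x))) :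
    ∃ c₁ c₂ : ℂ, c₁ ≠ 0 ∧ c₂ ≠ 0 ∧ (∀ x, Alg (G1 x / c₁)) ∧ (∀ x, Alg (G2 x / c₂)) ∧
      Alg (c₁ * c₂ / (G1 x₁ * G2 x₂ - G2 x₁ * G1 x₂)) := by
  set M := G1 x₁ * G2 x₂ - G2 x₁ * G1 x₂ with hM
  have hU : ∀ y, InU (G1 x₁, G2 x₁) (G1 x₂, G2 x₂) (G1 y, G2 y) := by
    intro y
    refine ⟨(G1 y * G2 x₂ - G2 y * G1 x₂) / M, (G1 x₁ * G2 y - G2 x₁ * G1 y) / M, h2 y x₂, h2 x₁ y,
      ?_⟩
    ext
    · simp only
      field_simp
      rw [hM]; ring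
    · simp only
      field_simp
      rw [hM]; ring
  have hU1 : ∀ y, InU (G1 x₁, G2 x₁) (G1 x₂, G2 x₂) (G1 y, 0) := by
    intro y
    obtain ⟨x, rfl⟩ := hg y
    have e1 := (h3 x hU).add ((hU (g x)).smul (a := -1) (isAlgebraic_one.neg))
    have e2 := e1.smul (a := (a - 1)⁻¹) ((ha.sub isAlgebraic_one).inv)
    have e3 : ((a - 1)⁻¹ * ((a * G1 (g x), G2 (g x)) + (-1 * (G1 (g x), G2 (g x)).1,
        -1 * (G1 (g x), G2 (g x)).2)).1, (a - 1)⁻¹ * ((a * G1 (g x), G2 (g x)) +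
        (-1 * (G1 (g x), G2 (g x)).1, -1 * (G1 (g x), G2 (g x)).2)).2) = (G1 (g x), (0 : ℂ)) := by
      ext
      · simp only [Prod.fst_add]
        field_simp
        ring
      · simp only [Prod.snd_add]
        ring
    rw [e3] at e2
    exact e2
  have hU2 : ∀ y, InU (G1 x₁, G2 x₁) (G1 x₂, G2 x₂) (0, G2 y) := by
    intro y
    have e1 := (hU y).add ((hU1 y).smul (a := -1) (isAlgebraic_one.neg))
    have e3 : (G1 y, G2 y) + (-1 * (G1 y, (0 : ℂ)).1, -1 * (G1 y, (0 : ℂ)).2) = ((0 : ℂ), G2 y) := by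
      ext <;> simp
    rw [e3] at e1
    exact e1
  have hne : ∀ p q : ℂ × ℂ, p = q → p.1 = q.1 ∧ p.2 = q.2 := fun p q h => by rw [h]; exact ⟨rfl, rfl⟩
  obtain ⟨y₁, hy₁⟩ : ∃ y, G1 y ≠ 0 := by
    by_contra hcon
    push Not at hcon
    apply h1
    rw [hM, hcon x₁, hcon x₂]
    ring
  obtain ⟨y₂, hy₂⟩ : ∃ y, G2 y ≠ 0 := by
    by_contra hcon
    push Not at hcon
    apply h1
    rw [hM, hcon x₁, hcon x₂]
    ring
  have hdet : ∀ x y, ∃ b : ℂ, Alg b ∧ G1 x * G2 y = b * M := by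
    intro x y
    obtain ⟨b, hb, h⟩ := (hU1 x).det (hU2 y)
    refine ⟨b, hb, ?_⟩
    simp only [mul_zero, zero_mul, sub_zero] at h
    rw [h]
  refine ⟨G1 y₁, G2 y₂, hy₁, hy₂, ?_, ?_, ?_⟩
  · intro x
    obtain ⟨b, hb, h⟩ := hdet x y₂
    obtain ⟨b', hb', h'⟩ := hdet y₁ y₂
    have hb'0 : b' ≠ 0 := by
      rintro rfl
      rw [zero_mul] at h'
      exact mul_ne_zero hy₁ hy₂ h'
    have : G1 x / G1 y₁ = b / b' := by
      rw [← mul_div_mul_right _ _ hy₂, h, h', mul_div_mul_right _ _ h1]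
    rw [this, div_eq_mul_inv]
    exact hb.mul hb'.inv
  · intro x
    obtain ⟨b, hb, h⟩ := hdet y₁ x
    obtain ⟨b', hb', h'⟩ := hdet y₁ y₂
    have hb'0 : b' ≠ 0 := by
      rintro rfl
      rw [zero_mul] at h'
      exact mul_ne_zero hy₁ hy₂ h'
    have : G2 x / G2 y₂ = b / b' := by
      rw [← mul_div_mul_left _ _ hy₁, h, h', mul_div_mul_right _ _ h1]
    rw [this, div_eq_mul_inv]
    exact hb.mul hb'.inv
  · obtain ⟨b, hb, h⟩ := hdet y₁ y₂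
    rw [h, mul_div_assoc, div_self h1, mul_one]
    exact hb


theorem Mi_diff (hHOLO : Stmt_HOLO) (hΘ : D.ThFam B Θ) (v : J) (x y : E × E) :
    DifferentiableOn ℂ (D.Mi Θ v x y) D.Dom := by
  have h := fun x i => (hHOLO E I J D B Θ hΘ x).2 i
  exact ((h x _).mul (h y _)).sub ((h x _).mul (h y _))

/-- the definite places -/
theorem hdef (hREL : Stmt_REL) (hISO : Stmt_ISO)
    (hB : SympBasis D.e B) (hΘ : D.ThFam B Θ) {y₀ : E × E} (hy₀ : D.W Θ y₀ 0 ≠ 0)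
    (fW : ∀ x, Alg (D.W Θ x 0 / D.W Θ y₀ 0)) (v : J) {x₁ x₂ : E × E}
    (h1 : D.Mi Θ v x₁ x₂ 0 ≠ 0) (h2 : ∀ x y, Alg (D.Mi Θ v x y 0 / D.Mi Θ v x₁ x₂ 0)) :
    ∃ c₁ c₂ : ℂ, c₁ ≠ 0 ∧ c₂ ≠ 0 ∧ (∀ x, Alg (D.G Θ (FamData.j1 v) x 0 / c₁)) ∧
      (∀ x, Alg (D.G Θ (FamData.j2 v) x 0 / c₂)) ∧ Alg (c₁ * c₂ / D.Mi Θ v x₁ x₂ 0) := by
  obtain ⟨C, hC, hrel⟩ := hREL E I J D B Θ hB hΘ (gIso D)
  obtain ⟨-, -, hsurj, hiso⟩ := hISO E I J D (gIso D)
  have hact0 : (gIso D).act 0 = 0 := by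
    funext v
    rw [gIso_act]
    simp
  obtain ⟨κ, hκ, h⟩ := hrel 0 D.zero_mem_Dom
  rw [hact0] at h
  have hκa : Alg κ := by
    obtain ⟨y', hy'⟩ := hsurj y₀
    have e1 := (h y').1
    rw [hy'] at e1
    have e2 : Hsum D.e C (fun y => D.W Θ y 0) y' / D.W Θ y₀ 0 = κ⁻¹ := by
      rw [e1]
      have h3 : Hsum D.e C (fun y => D.W Θ y 0) y' ≠ 0 := by
        intro h4
        rw [h4, mul_zero] at e1
        exact hy₀ e1
      field_simp
    have e3 : Alg (Hsum D.e C (fun y => D.W Θ y 0) y' / D.W Θ y₀ 0) := by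
      unfold Hsum Finsupp.sum
      rw [Finset.sum_div]
      refine alg_sum _ fun y _ => ?_
      rw [mul_div_assoc]
      exact ((hC y).mul (alg_expq _)).mul (fW _)
    rw [e2] at e3
    have := e3.inv
    rwa [inv_inv] at this
  refine defin (X := E × E) (G1 := fun x => D.G Θ (FamData.j1 v) x 0)
    (G2 := fun x => D.G Θ (FamData.j2 v) x 0) (x₁ := x₁) (x₂ := x₂) h1 h2
    (a := D.t (Sum.inr v) (gIso D).a) ?_ (gIso_ne D _) (gIso D).app hsurj ?_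
  · have : IsAlgebraic ℚ (gIso D).a := Algebra.IsAlgebraic.isAlgebraic _
    exact this.algHom (RingHom.toRatAlgHom (D.t (Sum.inr v)))
  · intro x hU
    obtain ⟨g1, g2⟩ := (h x).2.2 v
    have hb : (gIso D).b = 0 := rfl
    have hc : (gIso D).c = 0 := rfl
    have hd : (gIso D).d = 1 := rfl
    rw [hc, map_zero, zero_mul, add_zero] at g1
    rw [hb, hd, map_zero, map_one, zero_mul, zero_add, one_mul] at g2
    have e1 : ((D.t (Sum.inr v)) (gIso D).a * D.G Θ (FamData.j1 v) ((gIso D).app x) 0,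
        D.G Θ (FamData.j2 v) ((gIso D).app x) 0) =
        ∑ y ∈ C.support, ((κ * (C y * cexp (Real.pi * Complex.I * (D.e x y : ℚ)))) *
          (D.G Θ (FamData.j1 v) (x + y) 0), (κ * (C y * cexp (Real.pi * Complex.I *
          (D.e x y : ℚ)))) * D.G Θ (FamData.j2 v) (x + y) 0) := by
      rw [g1, g2]
      unfold Hsum Finsupp.sum
      rw [Finset.mul_sum, Finset.mul_sum]
      ext
      · rw [Prod.fst_sum]
        exact Finset.sum_congr rfl fun y _ => by ring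
      · rw [Prod.snd_sum]
        exact Finset.sum_congr rfl fun y _ => by ring
    show InU _ _ ((D.t (Sum.inr v)) (gIso D).a * D.G Θ (FamData.j1 v) ((gIso D).app x) 0,
        D.G Θ (FamData.j2 v) ((gIso D).app x) 0)
    rw [e1]
    apply InU.sum
    intro y _
    exact (hU (x + y)).smul (hκa.mul ((hC y).mul (alg_expq _)))


end Main

end STEP0_

open STEP0_ in
theorem step0_proof (hALG : Stmt_ALG) (hCLM : Stmt_CLM) (hOSG : Stmt_OSG) (hDER : Stmt_DER)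
    (hHEAT : Stmt_HEAT) (hSEP1 : Stmt_SEP1) (hSEP2 : Stmt_SEP2) (hREL : Stmt_REL)
    (hISO : Stmt_ISO) (hHOLO : Stmt_HOLO) (hPOSF : Stmt_POSF) : Stmt_STEP0 := by
  intro E _ _ I J _ _ _ _ _ D B Θ q C hB hΘ hq hC hHq
  obtain ⟨aW, aG, aM, aMC⟩ := hALG E I J D B Θ q C hB hΘ hq hC hHq
  have hp := hPOSF E I J D B hB 0 D.zero_mem_Dom
  have hth := hΘ.th 0 D.zero_mem_Dom
  have hnz := hΘ.nz 0 D.zero_mem_Dom
  obtain ⟨⟨y₀, hy₀⟩, hgrad⟩ :=
    hSEP1 (E × E) (Co I J) D.e B (D.zeta 0) D.L hB hp (Θ 0) hth hnz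
  replace hy₀ : D.W Θ y₀ 0 ≠ 0 := hy₀
  have hGr : ∀ u : Co I J → ℂ, u ≠ 0 → ∃ x, ∑ i, u i * D.G Θ i x 0 ≠ 0 := by
    intro u hu
    obtain ⟨x, hx⟩ := hgrad u hu 0
    rw [zero_mul] at hx
    exact ⟨x, hx⟩
  have hA : ∀ {A B' : (I → ℂ) → ℂ}, DifferentiableOn ℂ A D.Dom → DifferentiableOn ℂ B' D.Dom →
      B' 0 ≠ 0 → D.Rel Θ A B' → Alg (A 0 / B' 0) := fun h1 h2 h3 h4 =>
    alg_centre D B Θ hCLM hOSG hDER hHEAT hSEP2 hREL hISO hHOLO hB hΘ hy₀ aW h1 h2 h3 h4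
  have dW : ∀ x, DifferentiableOn ℂ (D.W Θ x) D.Dom := fun x => (hHOLO E I J D B Θ hΘ x).1
  have dG : ∀ i x, DifferentiableOn ℂ (D.G Θ i x) D.Dom := fun i x =>
    (hHOLO E I J D B Θ hΘ x).2 i
  have fW : ∀ x, Alg (D.W Θ x 0 / D.W Θ y₀ 0) := fun x => hA (dW x) (dW y₀) hy₀ (aW x y₀)
  have hG : ∀ i, ∃ y, D.G Θ i y 0 ≠ 0 := by
    intro i
    obtain ⟨x, hx⟩ := hGr (Pi.single i 1) (by simp)
    refine ⟨x, ?_⟩
    rw [Finset.sum_eq_single i] at hx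
    · simpa using hx
    · intro b _ hb
      simp [Pi.single_eq_of_ne hb]
    · intro h
      exact absurd (Finset.mem_univ i) h
  choose yi hyi using hG
  have hM : ∀ v : J, ∃ x₁ x₂, D.Mi Θ v x₁ x₂ 0 ≠ 0 := by
    intro v
    obtain ⟨x₂, hx₂⟩ := hGr (Pi.single (FamData.j2 v) (D.G Θ (FamData.j1 v) (yi (FamData.j1 v)) 0) -
      Pi.single (FamData.j1 v) (D.G Θ (FamData.j2 v) (yi (FamData.j1 v)) 0)) (by
        intro h
        have := congrFun h (FamData.j2 v)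
        simp [FamData.j1, FamData.j2] at this
        exact hyi _ this)
    refine ⟨yi (FamData.j1 v), x₂, ?_⟩
    simp only [Pi.sub_apply, sub_mul, Finset.sum_sub_distrib] at hx₂
    rw [Finset.sum_eq_single (FamData.j2 v), Finset.sum_eq_single (FamData.j1 v)] at hx₂
    · simp only [Pi.single_eq_same] at hx₂
      exact hx₂
    · intro b _ hb
      simp [Pi.single_eq_of_ne hb]
    · intro h
      exact absurd (Finset.mem_univ _) h
    · intro b _ hb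
      simp [Pi.single_eq_of_ne hb]
    · intro h
      exact absurd (Finset.mem_univ _) h
  have hd : ∀ v : J, ∃ c₁ c₂ : ℂ, c₁ ≠ 0 ∧ c₂ ≠ 0 ∧ (∀ x, Alg (D.G Θ (FamData.j1 v) x 0 / c₁)) ∧
      (∀ x, Alg (D.G Θ (FamData.j2 v) x 0 / c₂)) ∧
      Alg (c₁ * c₂ / (C v * D.W Θ y₀ 0 ^ 2)) := by
    intro v
    obtain ⟨x₁, x₂, h1⟩ := hM v
    obtain ⟨c₁, c₂, hc₁, hc₂, a1, a2, a3⟩ := hdef D B Θ hREL hISO hB hΘ hy₀ fW v h1
      (fun x y => hA (Mi_diff D B Θ hHOLO hΘ v x y) (Mi_diff D B Θ hHOLO hΘ v x₁ x₂) h1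
        (aM v x y x₁ x₂))
    refine ⟨c₁, c₂, hc₁, hc₂, a1, a2, ?_⟩
    have h2 : Alg (D.Mi Θ v x₁ x₂ 0 / (C v * D.W Θ y₀ 0 ^ 2)) :=
      hA (A := D.Mi Θ v x₁ x₂) (B' := fun s => C v * D.W Θ y₀ s ^ 2)
        (Mi_diff D B Θ hHOLO hΘ v x₁ x₂) (((dW y₀).pow 2).const_mul (C v))
        (mul_ne_zero (hC v) (pow_ne_zero 2 hy₀)) (aMC v x₁ x₂ y₀)
    have h3 := a3.mul h2
    rwa [div_mul_div_cancel₀ h1] at h3
  choose c₁ c₂ hc₁ hc₂ a1 a2 a3 using hd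
  refine ⟨fun i => match i with
    | Sum.inl (Sum.inl v) => D.G Θ (FamData.i1 v) (yi (FamData.i1 v)) 0 / D.W Θ y₀ 0
    | Sum.inr (Sum.inl v) => D.G Θ (FamData.i2 v) (yi (FamData.i2 v)) 0 / D.W Θ y₀ 0
    | Sum.inl (Sum.inr v) => c₁ v / D.W Θ y₀ 0
    | Sum.inr (Sum.inr v) => c₂ v / D.W Θ y₀ 0, ?_, ⟨D.W Θ y₀ 0, hy₀, fun x => ⟨fW x, ?_⟩⟩, ?_⟩
  · rintro ((v | v) | (v | v))
    · exact div_ne_zero (hyi _) hy₀
    · exact div_ne_zero (hc₁ v) hy₀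
    · exact div_ne_zero (hyi _) hy₀
    · exact div_ne_zero (hc₂ v) hy₀
  · rintro ((v | v) | (v | v))
    · show Alg (D.G Θ (FamData.i1 v) x 0 / (D.W Θ y₀ 0 * (_ / D.W Θ y₀ 0)))
      rw [mul_div_cancel₀ _ hy₀]
      exact hA (dG _ x) (dG _ _) (hyi _) (aG v x _).1
    · show Alg (D.G Θ (FamData.j1 v) x 0 / (D.W Θ y₀ 0 * (_ / D.W Θ y₀ 0)))
      rw [mul_div_cancel₀ _ hy₀]
      exact a1 v x
    · show Alg (D.G Θ (FamData.i2 v) x 0 / (D.W Θ y₀ 0 * (_ / D.W Θ y₀ 0)))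
      rw [mul_div_cancel₀ _ hy₀]
      exact hA (dG _ x) (dG _ _) (hyi _) (aG v x _).2
    · show Alg (D.G Θ (FamData.j2 v) x 0 / (D.W Θ y₀ 0 * (_ / D.W Θ y₀ 0)))
      rw [mul_div_cancel₀ _ hy₀]
      exact a2 v x
  · intro v
    show Alg (c₁ v / D.W Θ y₀ 0 * (c₂ v / D.W Θ y₀ 0) / C v)
    have e : c₁ v / D.W Θ y₀ 0 * (c₂ v / D.W Θ y₀ 0) / C v = c₁ v * c₂ v / (C v * D.W Θ y₀ 0 ^ 2) := by
      have := hC v
      field_simp
    rw [e]
    exact a3 v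

end

end Pool.Agent.SPF
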