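import Pool.Agent.SPF.StmtsE

set_option linter.unusedSectionVars false

/-!
# Shimura period relations: the step theorem for CM types (module STEPE)
-/

open scoped BigOperators
open Complex

namespace Pool.Agent.SPF.STEPE_

noncomputable section

variable {E : Type} [Field E] [NumberField E]

theorem cj_apply (φ : E →+* ℂ) (x : E) : cj φ x = (starRingEnd ℂ) (φ x) := rfl

theorem cj_cj (φ : E →+* ℂ) : cj (cj φ) = φ := by
  ext x
  rw [cj_apply, cj_apply, Complex.conj_conj]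

theorem re_zero (K : CMF E) {ξ : E} (h : K.bar ξ = -ξ) (φ : E →+* ℂ) : (φ ξ).re = 0 := by
  have h1 := K.bar_spec φ ξ
  rw [h, map_neg] at h1
  have h2 := congrArg Complex.re h1
  rw [Complex.neg_re, Complex.conj_re] at h2
  linarith

theorem im_zero (K : CMF E) {y : E} (h : K.bar y = y) (φ : E →+* ℂ) : (φ y).im = 0 := by
  have h1 := K.bar_spec φ y
  rw [h] at h1
  have h2 := congrArg Complex.im h1
  rw [Complex.conj_im] at h2
  linarith

section relab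

variable {W : Type} (t : W → (E →+* ℂ)) (hinj : Function.Injective t)
  (hconj : ∀ v w, t v ≠ cj (t w)) (hsurj : ∀ φ : E →+* ℂ, ∃ v, φ = t v ∨ φ = cj (t v))
  (τ : W → (E →+* ℂ)) (hτ : ∀ w, τ w = t w ∨ τ w = cj (t w))

include hinj hconj hτ in
theorem tau_inj : Function.Injective τ := by
  intro w w' h
  rcases hτ w with h1 | h1 <;> rcases hτ w' with h2 | h2
  · exact hinj (by rw [← h1, ← h2, h])
  · exact absurd (by rw [← h1, ← h2, h]) (hconj w w')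
  · exact absurd (by rw [← h1, ← h2, h]) (hconj w' w)
  · refine hinj ?_
    have : cj (t w) = cj (t w') := by rw [← h1, ← h2, h]
    rw [← cj_cj (t w), this, cj_cj]

include hinj hconj hsurj hτ in
theorem exists_f (Ψ : Finset (E →+* ℂ)) (hΨ : IsType Ψ) (hmem : ∀ w, τ w ∈ Ψ) :
    ∃ f : {φ // φ ∈ Ψ} ≃ W, ∀ i, τ (f i) = i.1 := by
  have hb : Function.Bijective (fun w : W => (⟨τ w, hmem w⟩ : {φ // φ ∈ Ψ})) := by
    constructor
    · intro w w' h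
      exact tau_inj t hinj hconj τ hτ (congrArg Subtype.val h)
    · rintro ⟨φ, hφ⟩
      obtain ⟨v, hv⟩ := hsurj φ
      refine ⟨v, Subtype.ext ?_⟩
      show τ v = φ
      rcases hv with h1 | h1 <;> rcases hτ v with h2 | h2
      · rw [h1, h2]
      · exfalso
        have h3 := hmem v
        rw [h2, ← h1] at h3
        exact (hΨ φ).1 hφ h3
      · exfalso
        have h3 := hmem v
        rw [h2] at h3
        rw [h1] at hφ
        exact (hΨ _).1 h3 hφ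
      · rw [h1, h2]
  refine ⟨(Equiv.ofBijective _ hb).symm, fun i => ?_⟩
  have := (Equiv.ofBijective _ hb).apply_symm_apply i
  exact congrArg Subtype.val this

end relab

open Classical in
theorem mem_compl (Φ₃ Φ₄ Φ : Finset (E →+* ℂ)) (φ : E →+* ℂ) :
    φ ∈ compl Φ₃ Φ₄ Φ ↔ φ ∈ Φ₃ ∩ Φ₄ ∨ (cj φ ∈ Φ ∧ cj φ ∉ Φ₃ ∩ Φ₄) := by
  unfold compl
  rw [Finset.mem_union, Finset.mem_image]
  constructor
  · rintro (h | ⟨ψ, hψ, h⟩)
    · exact Or.inl h
    · right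
      rw [Finset.mem_sdiff] at hψ
      rw [← h, cj_cj]
      exact hψ
  · rintro (h | h)
    · exact Or.inl h
    · exact Or.inr ⟨cj φ, Finset.mem_sdiff.2 h, cj_cj φ⟩

open Classical in
theorem isType_compl (Φ₃ Φ₄ Φ : Finset (E →+* ℂ)) (hΦ : IsType Φ) (hsub : Φ₃ ∩ Φ₄ ⊆ Φ) :
    IsType (compl Φ₃ Φ₄ Φ) := by
  intro φ
  rw [mem_compl, mem_compl, cj_cj]
  have h1 := hΦ φ
  have h2 : φ ∈ Φ₃ ∩ Φ₄ → φ ∈ Φ := fun h => hsub h
  have h3 : cj φ ∈ Φ₃ ∩ Φ₄ → cj φ ∈ Φ := fun h => hsub h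
  generalize (φ ∈ Φ₃ ∩ Φ₄) = a at *
  generalize (cj φ ∈ Φ₃ ∩ Φ₄) = b at *
  generalize (φ ∈ Φ) = c at *
  generalize (cj φ ∈ Φ) = d at *
  tauto

open Classical in
/-- the main argument, with abstract index types -/
theorem core (hSTEP0 : Stmt_STEP0) (hQPT : Stmt_QPT) (hZPT : Stmt_ZPT) (hSIGN : Stmt_SIGN)
    (hEXF : Stmt_EXF) (hTHE : Stmt_THE) (hPOSF : Stmt_POSF) (hRLB : Stmt_RLB)
    (K : CMF E) (Φ₃ Φ₄ Φ : Finset (E →+* ℂ)) (ξ₃ ξ₄ : E) (c₃ c₄ : (E →+* ℂ) → ℂ)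
    (h3 : IsType Φ₃) (h4 : IsType Φ₄) (hΦ : IsType Φ) (hsub : Φ₃ ∩ Φ₄ ⊆ Φ)
    (hS3 : K.S ξ₃ Φ₃ c₃) (hS4 : K.S ξ₄ Φ₄ c₄)
    (I J : Type) [Fintype I] [Fintype J] [DecidableEq I] [DecidableEq J] [Nonempty J]
    (tI : I → (E →+* ℂ)) (tJ : J → (E →+* ℂ)) (hI : Function.Injective tI)
    (hJ : Function.Injective tJ) (hIm : ∀ φ, (∃ v, tI v = φ) ↔ (φ ∈ Φ ∧ φ ∉ Φ₃ ∩ Φ₄))
    (hJm : ∀ φ, (∃ v, tJ v = φ) ↔ φ ∈ Φ₃ ∩ Φ₄) (p : I → Prop) (hp : ∀ v, p v ↔ tI v ∈ Φ₃) :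
    ∃ (ξ ξ' : E) (c c' : (E →+* ℂ) → ℂ), K.S ξ Φ c ∧ K.S ξ' (compl Φ₃ Φ₄ Φ) c' ∧
      ∀ φ ∈ Φ₃ ∩ Φ₄, Alg (c φ * c' φ / (c₃ φ * c₄ φ)) := by
  obtain ⟨hb3, hpos3, hSS3⟩ := hS3
  obtain ⟨hb4, hpos4, hSS4⟩ := hS4
  -- membership facts
  have mI : ∀ v, tI v ∈ Φ ∧ tI v ∉ Φ₃ ∩ Φ₄ := fun v => (hIm _).1 ⟨v, rfl⟩
  have mJ : ∀ v, tJ v ∈ Φ₃ ∩ Φ₄ := fun v => (hJm _).1 ⟨v, rfl⟩
  have mp : ∀ v, p v → tI v ∈ Φ₃ ∧ cj (tI v) ∈ Φ₄ := by
    intro v hv
    have h5 := (hp v).1 hv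
    refine ⟨h5, ?_⟩
    by_contra h6
    exact (mI v).2 (Finset.mem_inter.2 ⟨h5, (h4 _).2 h6⟩)
  have mnp : ∀ v, ¬ p v → cj (tI v) ∈ Φ₃ ∧ tI v ∈ Φ₄ := by
    intro v hv
    have h5 : tI v ∉ Φ₃ := fun h => hv ((hp v).2 h)
    have h6 : cj (tI v) ∈ Φ₃ := by
      by_contra h7
      exact h5 ((h3 _).2 h7)
    refine ⟨h6, ?_⟩
    by_contra h7
    have h8 : cj (tI v) ∈ Φ₄ := by
      by_contra h9
      exact h7 ((h4 _).2 h9)
    exact (hΦ _).1 (mI v).1 (hsub (Finset.mem_inter.2 ⟨h6, h8⟩))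
  -- `t`
  set t : I ⊕ J → (E →+* ℂ) := Sum.elim tI tJ with ht
  have htΦ : ∀ w, t w ∈ Φ := by
    rintro (v | v)
    · exact (mI v).1
    · exact hsub (mJ v)
  have htinj : Function.Injective t := by
    rintro (v | v) (w | w) h
    · exact congrArg Sum.inl (hI h)
    · exfalso
      have h' : tI v = tJ w := h
      exact (mI v).2 (h' ▸ mJ w)
    · exfalso
      have h' : tJ v = tI w := h
      exact (mI w).2 (h' ▸ mJ v)
    · exact congrArg Sum.inr (hJ h)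
  have htconj : ∀ v w, t v ≠ cj (t w) := by
    intro v w h
    exact (hΦ _).1 (htΦ w) (h ▸ htΦ v)
  have htsurj0 : ∀ φ ∈ Φ, ∃ v, φ = t v := by
    intro φ hφ
    by_cases h : φ ∈ Φ₃ ∩ Φ₄
    · obtain ⟨v, hv⟩ := (hJm φ).2 h
      exact ⟨Sum.inr v, hv.symm⟩
    · obtain ⟨v, hv⟩ := (hIm φ).2 ⟨hφ, h⟩
      exact ⟨Sum.inl v, hv.symm⟩
  have htsurj : ∀ φ : E →+* ℂ, ∃ v, φ = t v ∨ φ = cj (t v) := by
    intro φ
    by_cases h : φ ∈ Φ
    · obtain ⟨v, hv⟩ := htsurj0 φ h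
      exact ⟨v, Or.inl hv⟩
    · have h' : cj φ ∈ Φ := by
        by_contra h5
        exact h ((hΦ _).2 h5)
      obtain ⟨v, hv⟩ := htsurj0 _ h'
      exact ⟨v, Or.inr (by rw [← hv, cj_cj])⟩
  -- the elements
  have hξ3 : ξ₃ ≠ 0 := by
    intro h
    obtain ⟨v⟩ := (inferInstance : Nonempty J)
    have := hpos3 _ (Finset.mem_inter.1 (mJ v)).1
    rw [h, map_zero] at this
    simp at this
  obtain ⟨ρ, hρ⟩ : ∃ ρ : E, ρ * ξ₃ = ξ₄ := ⟨ξ₄ / ξ₃, div_mul_cancel₀ _ hξ3⟩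
  have hbρ : K.bar ρ = ρ := by
    have h5 : K.bar ρ * K.bar ξ₃ = K.bar ξ₄ := by rw [← map_mul, hρ]
    rw [hb3, hb4, ← hρ] at h5
    have h6 : (K.bar ρ - ρ) * ξ₃ = 0 := by linear_combination -h5
    rcases mul_eq_zero.1 h6 with h7 | h7
    · exact sub_eq_zero.1 h7
    · exact absurd h7 hξ3
  -- sign facts
  have hcjim : ∀ (φ : E →+* ℂ) (x : E), (cj φ x).im = -(φ x).im := by
    intro φ x
    rw [cj_apply, Complex.conj_im]
  have sp : ∀ v, p v → 0 < (tI v ξ₃).im ∧ (tI v (ρ * ξ₃)).im < 0 := by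
    intro v hv
    obtain ⟨h5, h6⟩ := mp v hv
    refine ⟨hpos3 _ h5, ?_⟩
    have h7 := hpos4 _ h6
    rw [hcjim] at h7
    rw [hρ]
    linarith
  have snp : ∀ v, ¬ p v → (tI v ξ₃).im < 0 ∧ 0 < (tI v (ρ * ξ₃)).im := by
    intro v hv
    obtain ⟨h5, h6⟩ := mnp v hv
    have h7 := hpos3 _ h5
    rw [hcjim] at h7
    refine ⟨by linarith, ?_⟩
    rw [hρ]
    exact hpos4 _ h6
  have sJ : ∀ v, 0 < (tJ v ξ₃).im ∧ 0 < (tJ v (ρ * ξ₃)).im := by
    intro v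
    have h5 := Finset.mem_inter.1 (mJ v)
    refine ⟨hpos3 _ h5.1, ?_⟩
    rw [hρ]
    exact hpos4 _ h5.2
  have hmul : ∀ (φ : E →+* ℂ) (x ξ : E), K.bar x = x → K.bar ξ = -ξ →
      (φ (x * ξ)).im = (φ x).re * (φ ξ).im := by
    intro φ x ξ hx hξ
    rw [map_mul, Complex.mul_im, im_zero K hx, re_zero K hξ]
    ring
  have rI : ∀ v, (tI v ρ).re < 0 := by
    intro v
    by_cases hv : p v
    · obtain ⟨h5, h6⟩ := sp v hv
      rw [hmul _ _ _ hbρ hb3] at h6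
      by_contra h7
      rw [not_lt] at h7
      have := mul_nonneg h7 h5.le
      linarith
    · obtain ⟨h5, h6⟩ := snp v hv
      rw [hmul _ _ _ hbρ hb3] at h6
      by_contra h7
      rw [not_lt] at h7
      have := mul_nonpos_of_nonneg_of_nonpos h7 h5.le
      linarith
  have rJ : ∀ v, 0 < (tJ v ρ).re := by
    intro v
    obtain ⟨h5, h6⟩ := sJ v
    rw [hmul _ _ _ hbρ hb3] at h6
    by_contra h7
    rw [not_lt] at h7
    have := mul_nonpos_of_nonpos_of_nonneg h7 h5.le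
    linarith
  -- `y`
  obtain ⟨y, hby, hy0, hy⟩ := hSIGN E K I tI hI (fun v w => htconj (Sum.inl v) (Sum.inl w))
    (fun v => -(tI v ρ).re) p (fun v => by have := rI v; linarith)
  have hynorm : ∀ φ : E →+* ℂ, ‖φ y‖ ^ 2 = (φ y).re ^ 2 := by
    intro φ
    rw [← Complex.normSq_eq_norm_sq, Complex.normSq_apply, im_zero K hby]
    ring
  have hbf : K.bar (1 + ρ * y ^ 2) = 1 + ρ * y ^ 2 := by
    rw [map_add, map_one, map_mul, map_pow, hbρ, hby]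
  have hfre : ∀ φ : E →+* ℂ, (φ (1 + ρ * y ^ 2)).re = 1 + (φ ρ).re * (φ y).re ^ 2 := by
    intro φ
    rw [map_add, map_one, map_mul, map_pow, Complex.add_re, Complex.one_re, Complex.mul_re,
      im_zero K hbρ, sq (φ y), Complex.mul_re, im_zero K hby]
    ring
  set ξ₁ : E := ξ₃ * (1 + ρ * y ^ 2) with hξ1
  have hb1 : K.bar ξ₁ = -ξ₁ := by
    rw [hξ1, map_mul, hbf, hb3]
    ring
  have h1im : ∀ φ : E →+* ℂ, (φ ξ₁).im = (1 + (φ ρ).re * (φ y).re ^ 2) * (φ ξ₃).im := by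
    intro φ
    rw [hξ1, mul_comm, hmul φ _ _ hbf hb3, hfre]
  have hb2 : K.bar (ρ * ξ₁) = -(ρ * ξ₁) := by
    rw [map_mul, hb1, hbρ]
    ring
  have pos1I : ∀ v, 0 < (tI v ξ₁).im := by
    intro v
    rw [h1im]
    by_cases hv : p v
    · have h5 := (hy v).1 hv
      rw [hynorm] at h5
      exact mul_pos (by nlinarith) (sp v hv).1
    · have h5 := (hy v).2 hv
      rw [hynorm] at h5
      exact mul_pos_of_neg_of_neg (by nlinarith) (snp v hv).1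
  have pos1J : ∀ v, 0 < (tJ v ξ₁).im := by
    intro v
    rw [h1im]
    exact mul_pos (by have := mul_nonneg (rJ v).le (sq_nonneg (tJ v y).re); linarith) (sJ v).1
  let D : FamData E I J :=
    { bar := K.bar
      t := t
      ξ₁ := ξ₁
      ξ₂ := ρ * ξ₁
      bar_spec := K.bar_spec
      t_surj := htsurj
      t_inj := htinj
      t_conj := htconj
      ξ₁_bar := hb1
      ξ₂_bar := hb2
      pos1 := by
        rintro (v | v)
        · exact pos1I v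
        · exact pos1J v
      posI := by
        intro v
        show (tI v (ρ * ξ₁)).im < 0
        rw [hmul _ _ _ hbρ hb1]
        exact mul_neg_of_neg_of_pos (rI v) (pos1I v)
      posJ := by
        intro v
        show 0 < (tJ v (ρ * ξ₁)).im
        rw [hmul _ _ _ hbρ hb1]
        exact mul_pos (rJ v) (pos1J v) }
  -- the point `q`
  have S3 : SS (K.e ξ₃) (zT (Sum.elim (fun v : I => if p v then D.t (Sum.inl v) else
      cj (D.t (Sum.inl v))) (fun v : J => D.t (Sum.inr v))))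
      (fun w => c₃ (Sum.elim (fun v : I => if p v then D.t (Sum.inl v) else
      cj (D.t (Sum.inl v))) (fun v : J => D.t (Sum.inr v)) w)) := by
    set τ : I ⊕ J → (E →+* ℂ) := Sum.elim (fun v : I => if p v then D.t (Sum.inl v) else
      cj (D.t (Sum.inl v))) (fun v : J => D.t (Sum.inr v)) with hτdef
    have hτ : ∀ w, τ w = t w ∨ τ w = cj (t w) := by
      rintro (v | v)
      · by_cases hv : p v
        · left
          show (if p v then D.t (Sum.inl v) else cj (D.t (Sum.inl v))) = _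
          rw [if_pos hv]
        · right
          show (if p v then D.t (Sum.inl v) else cj (D.t (Sum.inl v))) = _
          rw [if_neg hv]
      · exact Or.inl rfl
    have hτm : ∀ w, τ w ∈ Φ₃ := by
      rintro (v | v)
      · by_cases hv : p v
        · show (if p v then D.t (Sum.inl v) else cj (D.t (Sum.inl v))) ∈ _
          rw [if_pos hv]
          exact (mp v hv).1
        · show (if p v then D.t (Sum.inl v) else cj (D.t (Sum.inl v))) ∈ _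
          rw [if_neg hv]
          exact (mnp v hv).1
      · exact (Finset.mem_inter.1 (mJ v)).1
    obtain ⟨f, hf⟩ := exists_f t htinj htconj htsurj τ hτ Φ₃ h3 hτm
    refine hRLB E _ _ f (K.e ξ₃) _ (zT τ) _ _ ?_ ?_ hSS3
    · intro x i
      show τ (f i) x = i.1 x
      rw [hf]
    · intro i
      show c₃ (τ (f i)) = c₃ i.1
      rw [hf]
  have S4 : SS (K.e (ρ * ξ₃)) (zT (Sum.elim (fun v : I => if p v then cj (D.t (Sum.inl v)) else
      D.t (Sum.inl v)) (fun v : J => D.t (Sum.inr v))))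
      (fun w => c₄ (Sum.elim (fun v : I => if p v then cj (D.t (Sum.inl v)) else
      D.t (Sum.inl v)) (fun v : J => D.t (Sum.inr v)) w)) := by
    set τ : I ⊕ J → (E →+* ℂ) := Sum.elim (fun v : I => if p v then cj (D.t (Sum.inl v)) else
      D.t (Sum.inl v)) (fun v : J => D.t (Sum.inr v)) with hτdef
    have hτ : ∀ w, τ w = t w ∨ τ w = cj (t w) := by
      rintro (v | v)
      · by_cases hv : p v
        · right
          show (if p v then cj (D.t (Sum.inl v)) else D.t (Sum.inl v)) = _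
          rw [if_pos hv]
        · left
          show (if p v then cj (D.t (Sum.inl v)) else D.t (Sum.inl v)) = _
          rw [if_neg hv]
      · exact Or.inl rfl
    have hτm : ∀ w, τ w ∈ Φ₄ := by
      rintro (v | v)
      · by_cases hv : p v
        · show (if p v then cj (D.t (Sum.inl v)) else D.t (Sum.inl v)) ∈ _
          rw [if_pos hv]
          exact (mp v hv).2
        · show (if p v then cj (D.t (Sum.inl v)) else D.t (Sum.inl v)) ∈ _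
          rw [if_neg hv]
          exact (mnp v hv).2
      · exact (Finset.mem_inter.1 (mJ v)).2
    obtain ⟨f, hf⟩ := exists_f t htinj htconj htsurj τ hτ Φ₄ h4 hτm
    rw [hρ]
    refine hRLB E _ _ f (K.e ξ₄) _ (zT τ) _ _ ?_ ?_ hSS4
    · intro x i
      show τ (f i) x = i.1 x
      rw [hf]
    · intro i
      show c₄ (τ (f i)) = c₄ i.1
      rw [hf]
  obtain ⟨hqD, hq⟩ := hQPT E I J D K y ρ ξ₃ p _ _ rfl hby hy0 hbρ hb3 rfl rfl sp snp sJ S3 S4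
  obtain ⟨B, hB⟩ := hEXF E I J D
  obtain ⟨Θ, hΘ1, hΘ2⟩ := hTHE (E × E) (Co I J) D.e B I D.Dom D.zeta D.L D.isOpen_Dom
    (fun x i => (D.zeta_differentiable x i).differentiableOn) hB (hPOSF E I J D B hB)
  have hΘ : D.ThFam B Θ := ⟨hΘ1, fun s hs => (hΘ2 s hs).1, fun s hs => (hΘ2 s hs).2⟩
  have hC : ∀ v : J, c₃ (tJ v) * c₄ (tJ v) ≠ 0 := by
    intro v
    have h5 := Finset.mem_inter.1 (mJ v)
    exact mul_ne_zero (hSS3.1 ⟨tJ v, h5.1⟩) (hSS4.1 ⟨tJ v, h5.2⟩)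
  obtain ⟨c0, hc0, hSD, hAlg⟩ := hSTEP0 E I J D B Θ _ (fun v : J => c₃ (tJ v) * c₄ (tJ v)) hB hΘ
    hqD hC (hq B Θ hB hΘ)
  obtain ⟨Z1, Z2⟩ := hZPT E I J D K B Θ c0 rfl hB hΘ hc0 hSD
  set τ' : I ⊕ J → (E →+* ℂ) := Sum.elim (fun v : I => cj (D.t (Sum.inl v)))
    (fun v : J => D.t (Sum.inr v)) with hτ'
  have hτ't : ∀ w, τ' w = t w ∨ τ' w = cj (t w) := by
    rintro (v | v)
    · exact Or.inr rfl
    · exact Or.inl rfl
  have hτ'm : ∀ w, τ' w ∈ compl Φ₃ Φ₄ Φ := by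
    rintro (v | v)
    · rw [mem_compl]
      right
      show cj (cj (tI v)) ∈ Φ ∧ cj (cj (tI v)) ∉ Φ₃ ∩ Φ₄
      rw [cj_cj]
      exact mI v
    · rw [mem_compl]
      exact Or.inl (mJ v)
  have hτ'inj : Function.Injective τ' := tau_inj t htinj htconj τ' hτ't
  refine ⟨ξ₁, ρ * ξ₁, Function.extend t (fun v => c0 (Sum.inl v)) (fun _ => 1),
    Function.extend τ' (fun v => c0 (Sum.inr v)) (fun _ => 1), ⟨hb1, ?_, ?_⟩, ⟨hb2, ?_, ?_⟩, ?_⟩
  · intro φ hφ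
    obtain ⟨v, hv⟩ := htsurj0 φ hφ
    rw [hv]
    exact D.pos1 v
  · obtain ⟨f, hf⟩ := exists_f t htinj htconj htsurj t (fun w => Or.inl rfl) Φ hΦ htΦ
    have hf' : ∀ w, (f.symm w).1 = t w := by
      intro w
      rw [← hf, Equiv.apply_symm_apply]
    refine hRLB E _ _ f.symm (K.e ξ₁) (zT t) _ _ _ ?_ ?_ Z1
    · intro x i
      show (f.symm i).1 x = t i x
      rw [hf']
    · intro i
      show Function.extend t (fun v => c0 (Sum.inl v)) (fun _ => 1) (f.symm i).1 = c0 (Sum.inl i)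
      rw [hf', htinj.extend_apply]
  · intro φ hφ
    rcases (mem_compl _ _ _ _).1 hφ with h | h
    · obtain ⟨v, hv⟩ := (hJm φ).2 h
      rw [← hv]
      exact D.posJ v
    · obtain ⟨v, hv⟩ := (hIm (cj φ)).2 h
      have h5 : (tI v (ρ * ξ₁)).im < 0 := D.posI v
      rw [hv, hcjim] at h5
      linarith
  · obtain ⟨f, hf⟩ := exists_f t htinj htconj htsurj τ' hτ't (compl Φ₃ Φ₄ Φ)
      (isType_compl Φ₃ Φ₄ Φ hΦ hsub) hτ'm
    have hf' : ∀ w, (f.symm w).1 = τ' w := by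
      intro w
      rw [← hf, Equiv.apply_symm_apply]
    refine hRLB E _ _ f.symm (K.e (ρ * ξ₁)) (zT τ') _ _ _ ?_ ?_ Z2
    · intro x i
      show (f.symm i).1 x = τ' i x
      rw [hf']
    · intro i
      show Function.extend τ' (fun v => c0 (Sum.inr v)) (fun _ => 1) (f.symm i).1 = c0 (Sum.inr i)
      rw [hf', hτ'inj.extend_apply]
  · intro φ hφ
    obtain ⟨v, hv⟩ := (hJm φ).2 hφ
    have h5 : Function.extend t (fun v => c0 (Sum.inl v)) (fun _ => 1) φ =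
        c0 (FamData.j1 v) := by
      have := htinj.extend_apply (fun v => c0 (Sum.inl v)) (fun _ => 1) (Sum.inr v)
      rw [← hv]
      exact this
    have h6 : Function.extend τ' (fun v => c0 (Sum.inr v)) (fun _ => 1) φ =
        c0 (FamData.j2 v) := by
      have := hτ'inj.extend_apply (fun v => c0 (Sum.inr v)) (fun _ => 1) (Sum.inr v)
      rw [← hv]
      exact this
    rw [h5, h6, ← hv]
    exact hAlg v

end

end Pool.Agent.SPF.STEPE_

namespace Pool.Agent.SPF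

open Classical in
theorem stepe_proof (hSTEP0 : Stmt_STEP0) (hQPT : Stmt_QPT) (hZPT : Stmt_ZPT) (hSIGN : Stmt_SIGN)
    (hEXF : Stmt_EXF) (hTHE : Stmt_THE) (hPOSF : Stmt_POSF) (hRLB : Stmt_RLB) : Stmt_STEPE := by
  intro E _ _ K Φ₃ Φ₄ Φ ξ₃ ξ₄ c₃ c₄ h3 h4 hΦ hne hsub hS3 hS4
  haveI : Nonempty {φ // φ ∈ Φ₃ ∩ Φ₄} := by
    obtain ⟨φ, hφ⟩ := hne
    exact ⟨⟨φ, hφ⟩⟩
  refine STEPE_.core hSTEP0 hQPT hZPT hSIGN hEXF hTHE hPOSF hRLB K Φ₃ Φ₄ Φ ξ₃ ξ₄ c₃ c₄ h3 h4 hΦ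
    hsub hS3 hS4 {φ // φ ∈ Φ \ (Φ₃ ∩ Φ₄)} {φ // φ ∈ Φ₃ ∩ Φ₄} Subtype.val Subtype.val
    Subtype.val_injective Subtype.val_injective ?_ ?_ (fun v => v.1 ∈ Φ₃) (fun v => Iff.rfl)
  · intro φ
    constructor
    · rintro ⟨v, rfl⟩
      exact Finset.mem_sdiff.1 v.2
    · intro h
      exact ⟨⟨φ, Finset.mem_sdiff.2 h⟩, rfl⟩
  · intro φ
    constructor
    · rintro ⟨v, rfl⟩
      exact v.2
    · intro h
      exact ⟨⟨φ, h⟩, rfl⟩

end Pool.Agent.SPF
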