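import Pool.Agent.SPF.StmtsE

set_option linter.unusedSectionVars false

/-!
# Module SUM: orthogonal sums
-/

open scoped BigOperators
open Complex

namespace Pool.Agent.SPF

noncomputable section

namespace SUM_

variable {V V' : Type} [AddCommGroup V] [Module ℚ V] [AddCommGroup V'] [Module ℚ V']
  {ι ι' : Type} [Fintype ι] [DecidableEq ι] [Fintype ι'] [DecidableEq ι']

/-- external product of two functions -/
def box (F : (ι → ℂ) → ℂ) (F' : (ι' → ℂ) → ℂ) : (ι ⊕ ι' → ℂ) → ℂ :=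
  fun z => F (fun i => z (Sum.inl i)) * F' (fun i => z (Sum.inr i))

/-- the basis of the orthogonal sum -/
def Bs (B : Module.Basis (ι ⊕ ι) ℚ V) (B' : Module.Basis (ι' ⊕ ι') ℚ V') :
    Module.Basis ((ι ⊕ ι') ⊕ (ι ⊕ ι')) ℚ (V × V') :=
  (B.prod B').reindex (Equiv.sumSumSumComm ι ι ι' ι')

variable (B : Module.Basis (ι ⊕ ι) ℚ V) (B' : Module.Basis (ι' ⊕ ι') ℚ V')

lemma Bs_ll (i : ι) : Bs B B' (Sum.inl (Sum.inl i)) = (B (Sum.inl i), 0) := by
  simp [Bs, Equiv.sumSumSumComm]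

lemma Bs_lr (i : ι') : Bs B B' (Sum.inl (Sum.inr i)) = (0, B' (Sum.inl i)) := by
  simp [Bs, Equiv.sumSumSumComm]

lemma Bs_rl (i : ι) : Bs B B' (Sum.inr (Sum.inl i)) = (B (Sum.inr i), 0) := by
  simp [Bs, Equiv.sumSumSumComm]

lemma Bs_rr (i : ι') : Bs B B' (Sum.inr (Sum.inr i)) = (0, B' (Sum.inr i)) := by
  simp [Bs, Equiv.sumSumSumComm]

variable {B B'} {e : V →ₗ[ℚ] V →ₗ[ℚ] ℚ} {e' : V' →ₗ[ℚ] V' →ₗ[ℚ] ℚ}
  {ζ L : V →ₗ[ℚ] (ι → ℂ)} {ζ' L' : V' →ₗ[ℚ] (ι' → ℂ)}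

lemma eSum_apply (x y : V × V') : eSum e e' x y = e x.1 y.1 + e' x.2 y.2 := rfl

lemma symp (h : SympBasis e B) (h' : SympBasis e' B') : SympBasis (eSum e e') (Bs B B') := by
  refine ⟨fun x => ?_, ?_, ?_, ?_⟩
  · rw [eSum_apply, h.alt, h'.alt, add_zero]
  · rintro (i | i) (j | j) <;>
      simp only [Bs_ll, Bs_lr, eSum_apply, h.ll, h'.ll, map_zero, LinearMap.zero_apply, add_zero]
  · rintro (i | i) (j | j) <;>
      simp only [Bs_rl, Bs_rr, eSum_apply, h.rr, h'.rr, map_zero, LinearMap.zero_apply, add_zero]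
  · rintro (i | i) (j | j)
    · simp only [Bs_ll, Bs_rl, eSum_apply, h.lr, map_zero, add_zero, Sum.inl.injEq]
    · simp only [Bs_ll, Bs_rr, eSum_apply, map_zero, LinearMap.zero_apply, add_zero,
        reduceCtorEq, if_false]
    · simp only [Bs_lr, Bs_rl, eSum_apply, map_zero, LinearMap.zero_apply, add_zero,
        reduceCtorEq, if_false]
    · simp only [Bs_lr, Bs_rr, eSum_apply, h'.lr, map_zero, zero_add, Sum.inr.injEq]

lemma dotp_elim (a z : ι → ℂ) (a' z' : ι' → ℂ) :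
    dotp (Sum.elim a a') (Sum.elim z z') = dotp a z + dotp a' z' := by
  simp only [dotp, Fintype.sum_sum_type, Sum.elim_inl, Sum.elim_inr]

lemma dotp_elim' (a : ι → ℂ) (a' : ι' → ℂ) (z : ι ⊕ ι' → ℂ) :
    dotp (Sum.elim a a') z = dotp a (fun i => z (Sum.inl i)) + dotp a' (fun i => z (Sum.inr i)) := by
  simp only [dotp, Fintype.sum_sum_type, Sum.elim_inl, Sum.elim_inr]

lemma zSum_apply (x : V × V') : zSum ζ ζ' x = Sum.elim (ζ x.1) (ζ' x.2) := rfl

lemma pstr (h : IsPStr e B ζ L) (h' : IsPStr e' B' ζ' L') :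
    IsPStr (eSum e e') (Bs B B') (zSum ζ ζ') (zSum L L') := by
  refine ⟨fun x y => ?_, fun r hr => ?_⟩
  · rw [zSum_apply, zSum_apply, zSum_apply, zSum_apply, dotp_elim, dotp_elim, eSum_apply]
    have h1 := h.rel x.1 y.1
    have h2 := h'.rel x.2 y.2
    push_cast
    linear_combination h1 + h2
  · -- split the double sum
    set r1 : ι ⊕ ι → ℝ := Sum.elim (fun i => r (Sum.inl (Sum.inl i)))
      (fun i => r (Sum.inr (Sum.inl i))) with hr1
    set r2 : ι' ⊕ ι' → ℝ := Sum.elim (fun i => r (Sum.inl (Sum.inr i)))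
      (fun i => r (Sum.inr (Sum.inr i))) with hr2
    have key : (∑ j, ∑ k, (r j : ℂ) * (r k : ℂ) *
        dotp (zSum L L' (Bs B B' j)) (zSum ζ ζ' (Bs B B' k))) =
        (∑ j, ∑ k, (r1 j : ℂ) * (r1 k : ℂ) * dotp (L (B j)) (ζ (B k))) +
        (∑ j, ∑ k, (r2 j : ℂ) * (r2 k : ℂ) * dotp (L' (B' j)) (ζ' (B' k))) := by
      simp only [Fintype.sum_sum_type, Bs_ll, Bs_lr, Bs_rl, Bs_rr, zSum_apply, dotp_elim, map_zero,
        dotp_zero_left, dotp_zero_right, add_zero, zero_add, mul_zero, Finset.sum_const_zero,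
        hr1, hr2, Sum.elim_inl, Sum.elim_inr, Finset.sum_add_distrib]
      ring
    rw [key, Complex.add_re]
    have n1 : r1 ≠ 0 ∨ r2 ≠ 0 := by
      by_contra hc
      push Not at hc
      apply hr
      funext k
      rcases k with (k | k) | (k | k)
      · exact congrFun hc.1 (Sum.inl k)
      · exact congrFun hc.2 (Sum.inl k)
      · exact congrFun hc.1 (Sum.inr k)
      · exact congrFun hc.2 (Sum.inr k)
    have p1 : 0 ≤ (∑ j, ∑ k, (r1 j : ℂ) * (r1 k : ℂ) * dotp (L (B j)) (ζ (B k))).re := by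
      by_cases h0 : r1 = 0
      · simp [h0]
      · exact (h.pos r1 h0).le
    have p2 : 0 ≤ (∑ j, ∑ k, (r2 j : ℂ) * (r2 k : ℂ) * dotp (L' (B' j)) (ζ' (B' k))).re := by
      by_cases h0 : r2 = 0
      · simp [h0]
      · exact (h'.pos r2 h0).le
    rcases n1 with n1 | n1
    · have := h.pos r1 n1
      linarith
    · have := h'.pos r2 n1
      linarith

lemma TT_box (x : V × V') (F : (ι → ℂ) → ℂ) (F' : (ι' → ℂ) → ℂ) :
    TT (zSum ζ ζ') (zSum L L') x (box F F') = box (TT ζ L x.1 F) (TT ζ' L' x.2 F') := by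
  funext z
  simp only [TT, box]
  rw [zSum_apply, zSum_apply, dotp_elim, dotp_elim']
  have e1 : (fun i => (z + Sum.elim (ζ x.1) (ζ' x.2)) (Sum.inl i)) =
      (fun i => z (Sum.inl i)) + ζ x.1 := by
    funext i; simp
  have e2 : (fun i => (z + Sum.elim (ζ x.1) (ζ' x.2)) (Sum.inr i)) =
      (fun i => z (Sum.inr i)) + ζ' x.2 := by
    funext i; simp
  rw [e1, e2]
  have e3 : cexp (-(dotp (L x.1) (fun i => z (Sum.inl i)) + dotp (L' x.2) (fun i => z (Sum.inr i))) -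
      (dotp (L x.1) (ζ x.1) + dotp (L' x.2) (ζ' x.2)) / 2) =
      cexp (-(dotp (L x.1) (fun i => z (Sum.inl i))) - dotp (L x.1) (ζ x.1) / 2) *
      cexp (-(dotp (L' x.2) (fun i => z (Sum.inr i))) - dotp (L' x.2) (ζ' x.2) / 2) := by
    rw [← Complex.exp_add]
    congr 1
    ring
  rw [e3]
  ring

lemma diff_l {F : (ι → ℂ) → ℂ} (hF : Differentiable ℂ F) :
    Differentiable ℂ (fun z : ι ⊕ ι' → ℂ => F (fun i => z (Sum.inl i))) := by
  have h1 : Differentiable ℂ (fun z : ι ⊕ ι' → ℂ => (fun i => z (Sum.inl i) : ι → ℂ)) := by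
    fun_prop
  exact hF.comp h1

lemma diff_r {F : (ι' → ℂ) → ℂ} (hF : Differentiable ℂ F) :
    Differentiable ℂ (fun z : ι ⊕ ι' → ℂ => F (fun i => z (Sum.inr i))) := by
  have h1 : Differentiable ℂ (fun z : ι ⊕ ι' → ℂ => (fun i => z (Sum.inr i) : ι' → ℂ)) := by
    fun_prop
  exact hF.comp h1

lemma diff_box {F : (ι → ℂ) → ℂ} {F' : (ι' → ℂ) → ℂ} (hF : Differentiable ℂ F)
    (hF' : Differentiable ℂ F') : Differentiable ℂ (box F F') :=
  (diff_l hF).mul (diff_r hF')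

lemma pd_line {κ : Type} [Fintype κ] [DecidableEq κ] {F : (κ → ℂ) → ℂ} (hF : Differentiable ℂ F)
    (i : κ) (z : κ → ℂ) : HasDerivAt (fun t : ℂ => F (z + t • Pi.single i 1)) (pd i F z) 0 := by
  have h1 : HasFDerivAt F (fderiv ℂ F (z + (0 : ℂ) • Pi.single i 1))
      (z + (0 : ℂ) • Pi.single i 1) := (hF _).hasFDerivAt
  have h2 : HasDerivAt (fun t : ℂ => z + t • (Pi.single i 1 : κ → ℂ)) (Pi.single i 1) 0 := by
    have := ((hasDerivAt_id (0 : ℂ)).smul_const (Pi.single i 1 : κ → ℂ)).const_add z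
    simpa using this
  have h3 := h1.comp_hasDerivAt (0 : ℂ) h2
  have e0 : z + (0 : ℂ) • (Pi.single i 1 : κ → ℂ) = z := by rw [zero_smul, add_zero]
  rw [e0] at h3
  exact h3

lemma pd_box_l {F : (ι → ℂ) → ℂ} {F' : (ι' → ℂ) → ℂ} (hF : Differentiable ℂ F)
    (hF' : Differentiable ℂ F') (i : ι) (z : ι ⊕ ι' → ℂ) :
    pd (Sum.inl i) (box F F') z = pd i F (fun i => z (Sum.inl i)) * F' (fun i => z (Sum.inr i)) := by
  have h1 := pd_line (diff_box hF hF') (Sum.inl i) z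
  have h2 := (pd_line hF i (fun i => z (Sum.inl i))).mul_const (F' (fun i => z (Sum.inr i)))
  refine h1.unique (h2.congr_of_eventuallyEq (Filter.Eventually.of_forall fun t => ?_))
  have e1 : (fun j => (z + t • (Pi.single (Sum.inl i) 1 : ι ⊕ ι' → ℂ)) (Sum.inl j)) =
      (fun j => z (Sum.inl j)) + t • (Pi.single i 1 : ι → ℂ) := by
    funext j
    by_cases hj : j = i
    · subst hj; simp
    · have : (Sum.inl j : ι ⊕ ι') ≠ Sum.inl i := fun h => hj (Sum.inl_injective h)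
      simp [Pi.single_eq_of_ne hj, Pi.single_eq_of_ne this]
  have e2 : (fun j => (z + t • (Pi.single (Sum.inl i) 1 : ι ⊕ ι' → ℂ)) (Sum.inr j)) =
      (fun j => z (Sum.inr j)) := by
    funext j
    simp
  simp only [box]
  rw [e1, e2]

lemma pd_box_r {F : (ι → ℂ) → ℂ} {F' : (ι' → ℂ) → ℂ} (hF : Differentiable ℂ F)
    (hF' : Differentiable ℂ F') (i : ι') (z : ι ⊕ ι' → ℂ) :
    pd (Sum.inr i) (box F F') z = F (fun i => z (Sum.inl i)) * pd i F' (fun i => z (Sum.inr i)) := by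
  have h1 := pd_line (diff_box hF hF') (Sum.inr i) z
  have h2 := (pd_line hF' i (fun i => z (Sum.inr i))).const_mul (F (fun i => z (Sum.inl i)))
  refine h1.unique (h2.congr_of_eventuallyEq (Filter.Eventually.of_forall fun t => ?_))
  have e1 : (fun j => (z + t • (Pi.single (Sum.inr i) 1 : ι ⊕ ι' → ℂ)) (Sum.inr j)) =
      (fun j => z (Sum.inr j)) + t • (Pi.single i 1 : ι' → ℂ) := by
    funext j
    by_cases hj : j = i
    · subst hj; simp
    · have : (Sum.inr j : ι ⊕ ι') ≠ Sum.inr i := fun h => hj (Sum.inr_injective h)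
      simp [Pi.single_eq_of_ne hj, Pi.single_eq_of_ne this]
  have e2 : (fun j => (z + t • (Pi.single (Sum.inr i) 1 : ι ⊕ ι' → ℂ)) (Sum.inl j)) =
      (fun j => z (Sum.inl j)) := by
    funext j
    simp
  simp only [box]
  rw [e1, e2]

lemma isTh {F : (ι → ℂ) → ℂ} {F' : (ι' → ℂ) → ℂ} (h : IsTh ζ L B F) (h' : IsTh ζ' L' B' F') :
    IsTh (zSum ζ ζ') (zSum L L') (Bs B B') (box F F') := by
  refine ⟨diff_box h.entire h'.entire, ?_⟩
  rintro ((i | i) | (i | i))
  · rw [TT_box, Bs_ll]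
    show box (TT ζ L (B (Sum.inl i)) F) (TT ζ' L' 0 F') = _
    rw [h.per, TT_zero]
  · rw [TT_box, Bs_lr]
    show box (TT ζ L 0 F) (TT ζ' L' (B' (Sum.inl i)) F') = _
    rw [h'.per, TT_zero]
  · rw [TT_box, Bs_rl]
    show box (TT ζ L (B (Sum.inr i)) F) (TT ζ' L' 0 F') = _
    rw [h.per, TT_zero]
  · rw [TT_box, Bs_rr]
    show box (TT ζ L 0 F) (TT ζ' L' (B' (Sum.inr i)) F') = _
    rw [h'.per, TT_zero]

lemma box_ne {F : (ι → ℂ) → ℂ} {F' : (ι' → ℂ) → ℂ} (h : F ≠ 0) (h' : F' ≠ 0) : box F F' ≠ 0 := by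
  obtain ⟨z, hz⟩ := Function.ne_iff.mp h
  obtain ⟨z', hz'⟩ := Function.ne_iff.mp h'
  intro h0
  have h1 := congrFun h0 (Sum.elim z z')
  simp only [box, Sum.elim_inl, Sum.elim_inr, Pi.zero_apply, mul_eq_zero] at h1 hz hz'
  rcases h1 with h1 | h1
  · exact hz h1
  · exact hz' h1

lemma exTh (h2 : Stmt_THE) (h : SympBasis e B) (hp : IsPStr e B ζ L) :
    ∃ F, IsTh ζ L B F ∧ F ≠ 0 := by
  obtain ⟨Θ, _, hΘ⟩ := h2 V ι e B (Fin 0) Set.univ (fun _ => ζ) L isOpen_univ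
    (fun x i => differentiableOn_const _) h (fun _ _ => hp)
  exact ⟨Θ 0, hΘ 0 (Set.mem_univ _)⟩

end SUM_

open SUM_ in
theorem sum_proof (h1 : Stmt_SALL) (h2 : Stmt_THE) (h3 : Stmt_SEP1) : Stmt_SUM := by
  intro V V' _ _ _ _ ι ι' _ _ _ _ e e' B B' ζ L ζ' L' c c' hB hP hB' hP'
  constructor
  · intro hS
    obtain ⟨F, hF, hF0⟩ := exTh h2 hB hP
    obtain ⟨F', hF', hF0'⟩ := exTh h2 hB' hP'
    have hc := hS.1
    obtain ⟨κ, hκ, hD⟩ := h1 _ _ _ _ _ hS (Bs B B') (zSum L L') (box F F') (symp hB hB')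
      (pstr hP hP') (isTh hF hF') (box_ne hF0 hF0')
    obtain ⟨x, hx⟩ := (h3 _ _ _ _ _ _ hB hP F hF hF0).1
    obtain ⟨x', hx'⟩ := (h3 _ _ _ _ _ _ hB' hP' F' hF' hF0').1
    have hv : ∀ (y : V) (y' : V'), TT (zSum ζ ζ') (zSum L L') (y, y') (box F F') 0 =
        TT ζ L y F 0 * TT ζ' L' y' F' 0 := by
      intro y y'
      rw [TT_box]
      rfl
    have hl : ∀ (y : V) (y' : V') (i : ι), pd (Sum.inl i)
        (TT (zSum ζ ζ') (zSum L L') (y, y') (box F F')) 0 =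
        pd i (TT ζ L y F) 0 * TT ζ' L' y' F' 0 := by
      intro y y' i
      rw [TT_box, pd_box_l (TT_differentiable y hF.entire) (TT_differentiable y' hF'.entire)]
      rfl
    have hr : ∀ (y : V) (y' : V') (i : ι'), pd (Sum.inr i)
        (TT (zSum ζ ζ') (zSum L L') (y, y') (box F F')) 0 =
        TT ζ L y F 0 * pd i (TT ζ' L' y' F') 0 := by
      intro y y' i
      rw [TT_box, pd_box_r (TT_differentiable y hF.entire) (TT_differentiable y' hF'.entire)]
      rfl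
    constructor
    · refine ⟨fun i => hc (Sum.inl i), B, L, F, hB, hP, hF, hF0, κ / TT ζ' L' x' F' 0,
        div_ne_zero hκ hx', fun y => ⟨?_, fun i => ?_⟩⟩
      · have h4 := (hD (y, x')).1
        rw [hv] at h4
        rwa [div_div_eq_mul_div]
      · have h4 := (hD (y, x')).2 (Sum.inl i)
        rw [hl] at h4
        have e1 : pd i (TT ζ L y F) 0 / (κ / TT ζ' L' x' F' 0 * c i) =
            pd i (TT ζ L y F) 0 * TT ζ' L' x' F' 0 / (κ * Sum.elim c c' (Sum.inl i)) := by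
          rw [Sum.elim_inl]
          have := hc (Sum.inl i)
          rw [Sum.elim_inl] at this
          field_simp
        rw [e1]
        exact h4
    · refine ⟨fun i => hc (Sum.inr i), B', L', F', hB', hP', hF', hF0', κ / TT ζ L x F 0,
        div_ne_zero hκ hx, fun y => ⟨?_, fun i => ?_⟩⟩
      · have h4 := (hD (x, y)).1
        rw [hv, mul_comm] at h4
        rwa [div_div_eq_mul_div]
      · have h4 := (hD (x, y)).2 (Sum.inr i)
        rw [hr] at h4
        have e1 : pd i (TT ζ' L' y F') 0 / (κ / TT ζ L x F 0 * c' i) =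
            TT ζ L x F 0 * pd i (TT ζ' L' y F') 0 / (κ * Sum.elim c c' (Sum.inr i)) := by
          rw [Sum.elim_inr]
          have := hc (Sum.inr i)
          rw [Sum.elim_inr] at this
          field_simp
        rw [e1]
        exact h4
  · rintro ⟨⟨hc, B1, L1, F1, hB1, hP1, hF1, hF10, κ1, hκ1, hD1⟩,
      ⟨hc', B2, L2, F2, hB2, hP2, hF2, hF20, κ2, hκ2, hD2⟩⟩
    refine ⟨?_, Bs B1 B2, zSum L1 L2, box F1 F2, symp hB1 hB2, pstr hP1 hP2, isTh hF1 hF2,
      box_ne hF10 hF20, κ1 * κ2, mul_ne_zero hκ1 hκ2, ?_⟩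
    · rintro (i | i)
      · exact hc i
      · exact hc' i
    · rintro ⟨y, y'⟩
      refine ⟨?_, ?_⟩
      · rw [TT_box]
        have h4 := ((hD1 y).1).mul ((hD2 y').1)
        have e1 : box (TT ζ L1 y F1) (TT ζ' L2 y' F2) 0 / (κ1 * κ2) =
            TT ζ L1 y F1 0 / κ1 * (TT ζ' L2 y' F2 0 / κ2) := by
          rw [div_mul_div_comm]
          rfl
        show Alg (box (TT ζ L1 y F1) (TT ζ' L2 y' F2) 0 / (κ1 * κ2))
        rw [e1]
        exact h4
      · rintro (i | i)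
        · rw [TT_box, pd_box_l (TT_differentiable _ hF1.entire) (TT_differentiable _ hF2.entire)]
          have h4 := ((hD1 y).2 i).mul ((hD2 y').1)
          have e1 : pd i (TT ζ L1 y F1) 0 * (TT ζ' L2 y' F2 0) /
              (κ1 * κ2 * Sum.elim c c' (Sum.inl i)) =
              pd i (TT ζ L1 y F1) 0 / (κ1 * c i) * (TT ζ' L2 y' F2 0 / κ2) := by
            rw [div_mul_div_comm, Sum.elim_inl]
            congr 1
            ring
          show Alg (pd i (TT ζ L1 y F1) 0 * (TT ζ' L2 y' F2 0) /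
              (κ1 * κ2 * Sum.elim c c' (Sum.inl i)))
          rw [e1]
          exact h4
        · rw [TT_box, pd_box_r (TT_differentiable _ hF1.entire) (TT_differentiable _ hF2.entire)]
          have h4 := ((hD1 y).1).mul ((hD2 y').2 i)
          have e1 : (TT ζ L1 y F1 0) * pd i (TT ζ' L2 y' F2) 0 /
              (κ1 * κ2 * Sum.elim c c' (Sum.inr i)) =
              (TT ζ L1 y F1 0 / κ1) * (pd i (TT ζ' L2 y' F2) 0 / (κ2 * c' i)) := by
            rw [div_mul_div_comm, Sum.elim_inr]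
            congr 1
            ring
          show Alg ((TT ζ L1 y F1 0) * pd i (TT ζ' L2 y' F2) 0 /
              (κ1 * κ2 * Sum.elim c c' (Sum.inr i)))
          rw [e1]
          exact h4

end

end Pool.Agent.SPF
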