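import Pool.Agent.SPF.Kit

set_option linter.unusedSectionVars false

open scoped BigOperators
open Complex

namespace Pool.Agent.SPF

noncomputable section

namespace THE_

variable {ι : Type} [Fintype ι] [DecidableEq ι]

/-! ### summability -/

/-- products of one variable functions are summable -/
theorem summable_prod_int (g : ℤ → ℝ) (hg0 : ∀ k, 0 ≤ g k) (hg : Summable g) :
    Summable (fun n : ι → ℤ => ∏ i, g (n i)) := by
  refine summable_of_sum_le (c := (∑' k, g k) ^ (Fintype.card ι)) ?_ ?_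
  · intro n
    exact Finset.prod_nonneg fun i _ => hg0 _
  · intro u
    let t : Finset ℤ := u.biUnion fun n => Finset.univ.image n
    have hsub : u ⊆ Fintype.piFinset (fun _ : ι => t) := by
      intro n hn
      rw [Fintype.mem_piFinset]
      intro i
      exact Finset.mem_biUnion.2 ⟨n, hn, Finset.mem_image_of_mem _ (Finset.mem_univ i)⟩
    calc ∑ n ∈ u, ∏ i, g (n i) ≤ ∑ n ∈ Fintype.piFinset (fun _ : ι => t), ∏ i, g (n i) :=
          Finset.sum_le_sum_of_subset_of_nonneg hsub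
            (fun n _ _ => Finset.prod_nonneg fun i _ => hg0 _)
      _ = ∏ _i : ι, ∑ k ∈ t, g k := (Finset.prod_univ_sum (fun _ : ι => t) (fun _ k => g k)).symm
      _ = (∑ k ∈ t, g k) ^ (Fintype.card ι) := by
          rw [Finset.prod_const, Finset.card_univ]
      _ ≤ (∑' k, g k) ^ (Fintype.card ι) := by
          apply pow_le_pow_left₀ (Finset.sum_nonneg fun k _ => hg0 k)
          exact hg.sum_le_tsum t (fun k _ => hg0 k)

theorem summable_gauss (a c : ℝ) (hc : 0 < c) :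
    Summable (fun k : ℤ => Real.exp (a * |(k : ℝ)| - c * (k : ℝ) ^ 2)) := by
  have h1 : Summable (fun k : ℤ => Real.exp ((a + 1) ^ 2 / (4 * c)) * Real.exp (-|(k : ℝ)|)) := by
    apply Summable.mul_left
    have h2 : Summable (fun n : ℕ => Real.exp (-(n : ℝ))) := Real.summable_exp_neg_nat
    refine Summable.of_nat_of_neg ?_ ?_
    · refine h2.congr fun n => ?_
      simp
    · refine h2.congr fun n => ?_
      simp
  refine Summable.of_nonneg_of_le (fun k => (Real.exp_pos _).le) (fun k => ?_) h1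
  rw [← Real.exp_add]
  apply Real.exp_le_exp.2
  have h3 : (k : ℝ) ^ 2 = |(k : ℝ)| ^ 2 := (sq_abs _).symm
  rw [h3]
  set t := |(k : ℝ)|
  have h4 : (a + 1) ^ 2 / (4 * c) + -t - (a * t - c * t ^ 2) =
      c * (t - (a + 1) / (2 * c)) ^ 2 := by
    field_simp
    ring
  have h5 : 0 ≤ c * (t - (a + 1) / (2 * c)) ^ 2 := by positivity
  linarith

theorem summable_gauss_multi (a c : ℝ) (hc : 0 < c) :
    Summable (fun n : ι → ℤ =>
      Real.exp (a * (∑ i, |(n i : ℝ)|) - c * ∑ i, (n i : ℝ) ^ 2)) := by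
  refine (summable_prod_int _ (fun k => (Real.exp_pos _).le) (summable_gauss a c hc)).congr ?_
  intro n
  rw [← Real.exp_sum, Finset.sum_sub_distrib, Finset.mul_sum, Finset.mul_sum]

/-! ### the theta series -/

/-- parameter space -/
abbrev PS (ι : Type) : Type := (ι → ι → ℂ) × (ι → ℂ)

/-- exponent of the theta series -/
def ell (n : ι → ℤ) : PS ι →L[ℂ] ℂ :=
  (∑ k, (-(2 * Real.pi * I) * (n k : ℂ)) •
    ((ContinuousLinearMap.proj (R := ℂ) (φ := fun _ : ι => ℂ) k).comp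
      (ContinuousLinearMap.snd ℂ (ι → ι → ℂ) (ι → ℂ)))) +
  ∑ i, ∑ j, (-(Real.pi * I) * (n i : ℂ) * (n j : ℂ)) •
    ((ContinuousLinearMap.proj (R := ℂ) (φ := fun _ : ι => ℂ) j).comp
      ((ContinuousLinearMap.proj (R := ℂ) (φ := fun _ : ι => ι → ℂ) i).comp
        (ContinuousLinearMap.fst ℂ (ι → ι → ℂ) (ι → ℂ))))

theorem ell_apply (n : ι → ℤ) (p : PS ι) : ell n p =
    (∑ k, -(2 * Real.pi * I) * (n k : ℂ) * p.2 k) +
      ∑ i, ∑ j, -(Real.pi * I) * (n i : ℂ) * (n j : ℂ) * p.1 i j := by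
  simp only [ell, _root_.add_apply, _root_.sum_apply,
    _root_.smul_apply, ContinuousLinearMap.comp_apply,
    ContinuousLinearMap.proj_apply, ContinuousLinearMap.coe_snd', ContinuousLinearMap.coe_fst',
    smul_eq_mul]

theorem ell_re (n : ι → ℤ) (p : PS ι) : (ell n p).re =
    (∑ k, 2 * Real.pi * (n k : ℝ) * (p.2 k).im) +
      Real.pi * ∑ i, ∑ j, (n i : ℝ) * (n j : ℝ) * (p.1 i j).im := by
  rw [ell_apply, Complex.add_re, Complex.re_sum, Complex.re_sum, Finset.mul_sum]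
  congr 1
  · refine Finset.sum_congr rfl fun k _ => ?_
    simp
  · refine Finset.sum_congr rfl fun i _ => ?_
    rw [Complex.re_sum, Finset.mul_sum]
    refine Finset.sum_congr rfl fun j _ => ?_
    simp
    ring

/-- l1 norm -/
def S1 (n : ι → ℤ) : ℝ := ∑ i, |(n i : ℝ)|

theorem S1_nonneg (n : ι → ℤ) : 0 ≤ S1 n := Finset.sum_nonneg fun i _ => abs_nonneg _

theorem ell_norm (n : ι → ℤ) : ‖ell n‖ ≤ 2 * Real.pi * Real.exp (2 * S1 n) := by
  refine ContinuousLinearMap.opNorm_le_bound _ (by positivity) fun p => ?_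
  rw [ell_apply]
  have h1 : ‖∑ k, -(2 * Real.pi * I) * (n k : ℂ) * p.2 k‖ ≤ 2 * Real.pi * S1 n * ‖p‖ := by
    refine (norm_sum_le _ _).trans ?_
    unfold S1
    rw [Finset.mul_sum, Finset.sum_mul]
    refine Finset.sum_le_sum fun k _ => ?_
    have h2 : ‖p.2 k‖ ≤ ‖p‖ := (norm_le_pi_norm p.2 k).trans (norm_snd_le p)
    rw [norm_mul, norm_mul, norm_neg, norm_mul, norm_mul, Complex.norm_I, Complex.norm_real,
      Complex.norm_intCast, Real.norm_of_nonneg Real.pi_pos.le]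
    simp only [Complex.norm_ofNat, mul_one]
    have h3 : 0 ≤ 2 * Real.pi * |(n k : ℝ)| := by positivity
    exact mul_le_mul_of_nonneg_left h2 h3
  have h2 : ‖∑ i, ∑ j, -(Real.pi * I) * (n i : ℂ) * (n j : ℂ) * p.1 i j‖ ≤
      Real.pi * S1 n ^ 2 * ‖p‖ := by
    refine (norm_sum_le _ _).trans ?_
    have h3 : Real.pi * S1 n ^ 2 * ‖p‖ =
        ∑ i, ∑ j, Real.pi * |(n i : ℝ)| * |(n j : ℝ)| * ‖p‖ := by
      unfold S1
      rw [sq, Finset.sum_mul_sum, Finset.mul_sum, Finset.sum_mul]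
      refine Finset.sum_congr rfl fun i _ => ?_
      rw [Finset.mul_sum, Finset.sum_mul]
      refine Finset.sum_congr rfl fun j _ => ?_
      ring
    rw [h3]
    refine Finset.sum_le_sum fun i _ => (norm_sum_le _ _).trans (Finset.sum_le_sum fun j _ => ?_)
    have h4 : ‖p.1 i j‖ ≤ ‖p‖ :=
      (norm_le_pi_norm (p.1 i) j).trans ((norm_le_pi_norm p.1 i).trans (norm_fst_le p))
    rw [norm_mul, norm_mul, norm_mul, norm_neg, norm_mul, Complex.norm_I, Complex.norm_real,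
      Complex.norm_intCast, Complex.norm_intCast, Real.norm_of_nonneg Real.pi_pos.le]
    simp only [mul_one]
    have h3 : 0 ≤ Real.pi * |(n i : ℝ)| * |(n j : ℝ)| := by positivity
    exact mul_le_mul_of_nonneg_left h4 h3
  have h3 := S1_nonneg n
  have h4 : 1 + S1 n ≤ Real.exp (S1 n) := by
    have := Real.add_one_le_exp (S1 n)
    linarith
  have h5 : (1 + S1 n) ^ 2 ≤ Real.exp (2 * S1 n) := by
    have : Real.exp (2 * S1 n) = Real.exp (S1 n) ^ 2 := by
      rw [← Real.exp_nat_mul]; norm_num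
    rw [this]
    exact pow_le_pow_left₀ (by linarith) h4 2
  calc _ ≤ 2 * Real.pi * S1 n * ‖p‖ + Real.pi * S1 n ^ 2 * ‖p‖ :=
        (norm_add_le _ _).trans (add_le_add h1 h2)
    _ ≤ 2 * Real.pi * (1 + S1 n) ^ 2 * ‖p‖ := by
        have h6 : 0 ≤ ‖p‖ := norm_nonneg p
        have h7 := Real.pi_pos
        have h8 : 0 ≤ Real.pi * ‖p‖ := by positivity
        nlinarith [mul_nonneg h8 h3, mul_nonneg h8 (mul_nonneg h3 h3)]
    _ ≤ 2 * Real.pi * Real.exp (2 * S1 n) * ‖p‖ := by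
        have h6 : 0 ≤ ‖p‖ := norm_nonneg p
        have h7 := Real.pi_pos
        gcongr

/-- the imaginary part is negative definite -/
def NegDef (τ : ι → ι → ℂ) : Prop :=
  ∀ r : ι → ℝ, r ≠ 0 → ∑ i, ∑ j, r i * r j * (τ i j).im < 0

/-- uniform bound -/
theorem negDef_bound {τ : ι → ι → ℂ} (h : NegDef τ) :
    ∃ c : ℝ, 0 < c ∧ ∀ r : ι → ℝ, ∑ i, ∑ j, r i * r j * (τ i j).im ≤ -c * ∑ i, r i ^ 2 := by
  classical
  let q : (ι → ℝ) → ℝ := fun r => ∑ i, ∑ j, r i * r j * (τ i j).im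
  have hq : Continuous q := by
    show Continuous fun r : ι → ℝ => ∑ i, ∑ j, r i * r j * (τ i j).im
    fun_prop
  have hhom : ∀ (t : ℝ) (r : ι → ℝ), q (t • r) = t ^ 2 * q r := by
    intro t r
    show ∑ i, ∑ j, (t • r) i * (t • r) j * (τ i j).im = t ^ 2 * ∑ i, ∑ j, r i * r j * (τ i j).im
    rw [Finset.mul_sum]
    refine Finset.sum_congr rfl fun i _ => ?_
    rw [Finset.mul_sum]
    refine Finset.sum_congr rfl fun j _ => ?_
    simp only [Pi.smul_apply, smul_eq_mul]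
    ring
  rcases isEmpty_or_nonempty ι with he | hne
  · exact ⟨1, one_pos, fun r => by simp⟩
  let K : Set (ι → ℝ) := Metric.sphere 0 1
  have hK : IsCompact K := isCompact_sphere 0 1
  have hKne : K.Nonempty := by
    have : Nontrivial (ι → ℝ) := Function.nontrivial
    exact NormedSpace.sphere_nonempty.2 zero_le_one
  obtain ⟨r₀, hr₀, hmax⟩ := hK.exists_isMaxOn hKne hq.continuousOn
  have hr₀n : r₀ ≠ 0 := by
    intro h0
    have : ‖r₀‖ = 1 := mem_sphere_zero_iff_norm.1 hr₀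
    rw [h0] at this
    simp at this
  have hneg : q r₀ < 0 := h r₀ hr₀n
  let N : ℝ := Fintype.card ι
  have hN : 0 < N := by
    have h0 : (0 : ℝ) < (Fintype.card ι : ℝ) := Nat.cast_pos.2 Fintype.card_pos
    exact h0
  refine ⟨-q r₀ / N, div_pos (neg_pos.2 hneg) hN, fun r => ?_⟩
  by_cases hr : r = 0
  · subst hr
    simp
  have hrn : 0 < ‖r‖ := norm_pos_iff.2 hr
  have h1 : q r = ‖r‖ ^ 2 * q (‖r‖⁻¹ • r) := by
    rw [hhom]
    field_simp
  have h2 : ‖r‖⁻¹ • r ∈ K := by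
    rw [mem_sphere_zero_iff_norm, norm_smul, norm_inv, norm_norm, inv_mul_cancel₀ hrn.ne']
  have h3 : q (‖r‖⁻¹ • r) ≤ q r₀ := hmax h2
  have h4 : ∑ i, r i ^ 2 ≤ N * ‖r‖ ^ 2 := by
    calc ∑ i, r i ^ 2 ≤ ∑ _i : ι, ‖r‖ ^ 2 := by
          refine Finset.sum_le_sum fun i _ => ?_
          have := norm_le_pi_norm r i
          rw [← sq_abs]
          exact pow_le_pow_left₀ (abs_nonneg _) this 2
      _ = N * ‖r‖ ^ 2 := by simp [N]
  show q r ≤ _
  have h5 : -(-q r₀ / N) * ∑ i, r i ^ 2 = (q r₀ / N) * ∑ i, r i ^ 2 := by ring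
  rw [h5, h1]
  have h6 : (q r₀ / N) * (N * ‖r‖ ^ 2) ≤ (q r₀ / N) * ∑ i, r i ^ 2 :=
    mul_le_mul_of_nonpos_left h4 (div_neg_of_neg_of_pos hneg hN).le
  have h7 : (q r₀ / N) * (N * ‖r‖ ^ 2) = ‖r‖ ^ 2 * q r₀ := by field_simp
  have h8 : ‖r‖ ^ 2 * q (‖r‖⁻¹ • r) ≤ ‖r‖ ^ 2 * q r₀ :=
    mul_le_mul_of_nonneg_left h3 (by positivity)
  linarith

/-- the theta series -/
def th (p : PS ι) : ℂ := ∑' n : ι → ℤ, cexp (ell n p)

/-- local bound -/
theorem local_bound {p₀ : PS ι} (h : NegDef p₀.1) : ∃ ε > 0, ∃ a c : ℝ, 0 < c ∧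
    ∀ p ∈ Metric.ball p₀ ε, ∀ n : ι → ℤ,
      (ell n p).re ≤ a * S1 n - c * ∑ i, (n i : ℝ) ^ 2 := by
  obtain ⟨c, hc, hb⟩ := negDef_bound h
  let N : ℝ := Fintype.card ι
  have hN : 0 ≤ N := Nat.cast_nonneg _
  refine ⟨min 1 (c / (2 * (N + 1))), lt_min one_pos (by positivity),
    2 * Real.pi * (‖p₀‖ + 1), Real.pi * (c / 2), by positivity, fun p hp n => ?_⟩
  rw [Metric.mem_ball, dist_eq_norm] at hp
  have hp1 : ‖p - p₀‖ ≤ 1 := (hp.trans_le (min_le_left _ _)).le
  have hp2 : ‖p - p₀‖ ≤ c / (2 * (N + 1)) := (hp.trans_le (min_le_right _ _)).le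
  have hpn : ‖p‖ ≤ ‖p₀‖ + 1 := by
    have := norm_le_norm_add_norm_sub' p p₀
    linarith
  rw [ell_re]
  have h1 : ∑ k, 2 * Real.pi * (n k : ℝ) * (p.2 k).im ≤ 2 * Real.pi * (‖p₀‖ + 1) * S1 n := by
    unfold S1
    rw [Finset.mul_sum]
    refine Finset.sum_le_sum fun k _ => ?_
    have h2 : |(p.2 k).im| ≤ ‖p₀‖ + 1 := by
      refine (Complex.abs_im_le_norm _).trans ?_
      exact ((norm_le_pi_norm p.2 k).trans (norm_snd_le p)).trans hpn
    have h3 : (n k : ℝ) * (p.2 k).im ≤ |(n k : ℝ)| * (‖p₀‖ + 1) := by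
      refine (le_abs_self _).trans ?_
      rw [abs_mul]
      exact mul_le_mul_of_nonneg_left h2 (abs_nonneg _)
    have h4 := Real.pi_pos
    nlinarith
  have h2 : ∑ i, ∑ j, (n i : ℝ) * (n j : ℝ) * (p.1 i j).im ≤ -(c / 2) * ∑ i, (n i : ℝ) ^ 2 := by
    have h3 : ∑ i, ∑ j, (n i : ℝ) * (n j : ℝ) * (p.1 i j).im =
        (∑ i, ∑ j, (n i : ℝ) * (n j : ℝ) * (p₀.1 i j).im) +
          ∑ i, ∑ j, (n i : ℝ) * (n j : ℝ) * (p.1 i j - p₀.1 i j).im := by
      rw [← Finset.sum_add_distrib]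
      refine Finset.sum_congr rfl fun i _ => ?_
      rw [← Finset.sum_add_distrib]
      refine Finset.sum_congr rfl fun j _ => ?_
      rw [Complex.sub_im]
      ring
    have h4 : ∑ i, ∑ j, (n i : ℝ) * (n j : ℝ) * (p.1 i j - p₀.1 i j).im ≤
        (S1 n) ^ 2 * (c / (2 * (N + 1))) := by
      unfold S1
      rw [sq, Finset.sum_mul_sum, Finset.sum_mul]
      refine Finset.sum_le_sum fun i _ => ?_
      rw [Finset.sum_mul]
      refine Finset.sum_le_sum fun j _ => ?_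
      have h5 : |(p.1 i j - p₀.1 i j).im| ≤ c / (2 * (N + 1)) := by
        refine (Complex.abs_im_le_norm _).trans ?_
        have h6 : ‖(p - p₀).1 i j‖ ≤ ‖p - p₀‖ :=
          (norm_le_pi_norm ((p - p₀).1 i) j).trans
            ((norm_le_pi_norm (p - p₀).1 i).trans (norm_fst_le (p - p₀)))
        exact h6.trans hp2
      refine (le_abs_self _).trans ?_
      rw [abs_mul, abs_mul]
      exact mul_le_mul_of_nonneg_left h5 (by positivity)
    have h5 : (S1 n) ^ 2 ≤ N * ∑ i, (n i : ℝ) ^ 2 := by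
      unfold S1
      have := sq_sum_le_card_mul_sum_sq (s := (Finset.univ : Finset ι))
        (f := fun i => |(n i : ℝ)|)
      simpa only [sq_abs, Finset.card_univ] using this
    have h6 : 0 ≤ ∑ i, (n i : ℝ) ^ 2 := Finset.sum_nonneg fun i _ => sq_nonneg _
    have h7 : (S1 n) ^ 2 * (c / (2 * (N + 1))) ≤ (c / 2) * ∑ i, (n i : ℝ) ^ 2 := by
      have h8 : 0 ≤ c / (2 * (N + 1)) := by positivity
      calc (S1 n) ^ 2 * (c / (2 * (N + 1))) ≤ (N * ∑ i, (n i : ℝ) ^ 2) * (c / (2 * (N + 1))) :=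
            mul_le_mul_of_nonneg_right h5 h8
        _ = (c / 2) * (∑ i, (n i : ℝ) ^ 2) * (N / (N + 1)) := by field_simp
        _ ≤ (c / 2) * (∑ i, (n i : ℝ) ^ 2) * 1 := by
            apply mul_le_mul_of_nonneg_left _ (by positivity)
            rw [div_le_one (by positivity)]
            linarith
        _ = _ := by ring
    have h8 := hb (fun i => (n i : ℝ))
    rw [h3]
    linarith
  have h3 : Real.pi * ∑ i, ∑ j, (n i : ℝ) * (n j : ℝ) * (p.1 i j).im ≤
      Real.pi * (-(c / 2) * ∑ i, (n i : ℝ) ^ 2) := mul_le_mul_of_nonneg_left h2 Real.pi_pos.le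
  calc _ ≤ 2 * Real.pi * (‖p₀‖ + 1) * S1 n + Real.pi * (-(c / 2) * ∑ i, (n i : ℝ) ^ 2) :=
        add_le_add h1 h3
    _ = _ := by ring

theorem summable_th {p : PS ι} (h : NegDef p.1) : Summable (fun n : ι → ℤ => ‖cexp (ell n p)‖) := by
  obtain ⟨ε, hε, a, c, hc, hb⟩ := local_bound h
  refine Summable.of_nonneg_of_le (fun n => norm_nonneg _) (fun n => ?_)
    (summable_gauss_multi a c hc)
  rw [Complex.norm_exp]
  exact Real.exp_le_exp.2 (hb p (Metric.mem_ball_self hε) n)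

/-- the theta series is holomorphic -/
theorem th_differentiableAt {p₀ : PS ι} (h : NegDef p₀.1) : DifferentiableAt ℂ (th (ι := ι)) p₀ := by
  obtain ⟨ε, hε, a, c, hc, hb⟩ := local_bound h
  have hu : Summable (fun n : ι → ℤ => (2 * Real.pi) *
      Real.exp ((a + 2) * (∑ i, |(n i : ℝ)|) - c * ∑ i, (n i : ℝ) ^ 2)) :=
    (summable_gauss_multi (a + 2) c hc).mul_left _
  have h1 := hasFDerivAt_tsum_of_isPreconnected (𝕜 := ℂ) (f := fun (n : ι → ℤ) p => cexp (ell n p))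
    (f' := fun n p => cexp (ell n p) • ell n) hu Metric.isOpen_ball
    (convex_ball p₀ ε).isPreconnected
    (fun n x _ => (ell n).hasFDerivAt.cexp) ?_ (Metric.mem_ball_self hε)
    (summable_th h).of_norm (Metric.mem_ball_self hε)
  · exact h1.differentiableAt
  · intro n x hx
    rw [norm_smul, Complex.norm_exp]
    have h2 := Real.exp_le_exp.2 (hb x hx n)
    calc Real.exp (ell n x).re * ‖ell n‖ ≤
        Real.exp (a * S1 n - c * ∑ i, (n i : ℝ) ^ 2) * (2 * Real.pi * Real.exp (2 * S1 n)) :=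
          mul_le_mul h2 (ell_norm n) (norm_nonneg _) (Real.exp_pos _).le
      _ = _ := by
          have h3 : (a + 2) * (∑ i, |(n i : ℝ)|) - c * ∑ i, (n i : ℝ) ^ 2 =
              (a * S1 n - c * ∑ i, (n i : ℝ) ^ 2) + 2 * S1 n := by
            unfold S1
            ring
          rw [h3, Real.exp_add]
          ring

/-! ### nonvanishing -/

theorem orth_coeff {H : Type} [NormedAddCommGroup H] [InnerProductSpace ℂ H]
    (v : (ι → ℤ) → H) (hv : Orthonormal ℂ v) (c : (ι → ℤ) → ℂ)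
    (h : HasSum (fun n => c n • v (-n)) 0) : c 0 = 0 := by
  have h3 := h.mapL (innerSL ℂ (v 0))
  have h4 : (fun n : ι → ℤ => (innerSL ℂ (v 0)) (c n • v (-n))) =
      fun n => if n = 0 then c 0 else 0 := by
    funext n
    have h5 := (orthonormal_iff_ite.1 hv) 0 (-n)
    rw [map_smul, smul_eq_mul, innerSL_apply_apply, h5]
    by_cases hn : n = 0
    · subst hn
      simp
    · have : (0 : ι → ℤ) ≠ -n := by
        intro h0
        apply hn
        rw [eq_comm, neg_eq_zero] at h0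
        exact h0
      rw [if_neg this, if_neg hn, mul_zero]
  rw [h4, map_zero] at h3
  have h5 : HasSum (fun n : ι → ℤ => if n = 0 then c 0 else 0) (c 0) := hasSum_ite_eq 0 (c 0)
  exact h5.unique h3

theorem toLp_hasSum {X : Type} [TopologicalSpace X] [CompactSpace X] {mX : MeasurableSpace X}
    [BorelSpace X] {μ : MeasureTheory.Measure X} {hμ : MeasureTheory.IsFiniteMeasure μ}
    (c : (ι → ℤ) → ℂ) (F : (ι → ℤ) → C(X, ℂ)) (h : HasSum (fun n => c n • F n) 0) :
    HasSum (fun n => c n • ContinuousMap.toLp (E := ℂ) 2 μ ℂ (F n)) 0 := by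
  have h3 := h.mapL (ContinuousMap.toLp (E := ℂ) 2 μ ℂ)
  rw [map_zero] at h3
  simpa only [map_smul] using h3

theorem th_ne_zero {τ : ι → ι → ℂ} (h : NegDef τ) : ∃ z : ι → ℂ, th (τ, z) ≠ 0 := by
  by_contra hcon
  push Not at hcon
  let c : (ι → ℤ) → ℂ := fun n => cexp (ell n (τ, 0))
  have hcs : Summable (fun n : ι → ℤ => ‖c n‖) := summable_th (p := (τ, 0)) h
  have hsum : Summable (fun n : ι → ℤ => c n • UnitAddTorus.mFourier (-n)) := by
    apply Summable.of_norm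
    refine hcs.congr fun n => ?_
    rw [norm_smul, UnitAddTorus.mFourier_norm, mul_one]
  have hzero : ∑' n : ι → ℤ, c n • UnitAddTorus.mFourier (-n) = 0 := by
    ext x
    have hx : ∀ i, ∃ y : ℝ, (y : UnitAddCircle) = x i := fun i => QuotientAddGroup.mk_surjective _
    choose y hy using hx
    rw [← ContinuousMap.tsum_apply hsum]
    have h1 := hcon (fun i => (y i : ℂ))
    rw [ContinuousMap.zero_apply, ← h1]
    unfold th
    refine tsum_congr fun n => ?_
    rw [ContinuousMap.smul_apply, smul_eq_mul]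
    have h2 : (UnitAddTorus.mFourier (-n)) x = cexp (∑ k, -(2 * Real.pi * I) * (n k : ℂ) * (y k : ℂ)) := by
      show ∏ i, fourier ((-n) i) (x i) = _
      rw [Complex.exp_sum]
      refine Finset.prod_congr rfl fun i _ => ?_
      rw [← hy i, fourier_coe_apply]
      congr 1
      push_cast [Pi.neg_apply]
      ring
    rw [h2]
    show cexp (ell n (τ, 0)) * _ = _
    rw [← Complex.exp_add]
    congr 1
    rw [ell_apply, ell_apply]
    simp only [Pi.zero_apply, mul_zero, Finset.sum_const_zero, zero_add]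
    ring
  have h1 : HasSum (fun n : ι → ℤ => c n • UnitAddTorus.mFourier (-n)) 0 := by
    rw [← hzero]
    exact hsum.hasSum
  have h2 : HasSum (fun n : ι → ℤ => c n • UnitAddTorus.mFourierLp (d := ι) 2 (-n)) 0 :=
    toLp_hasSum c (fun n => UnitAddTorus.mFourier (-n)) h1
  have h7 := orth_coeff _ (UnitAddTorus.orthonormal_mFourier (d := ι)) c h2
  exact Complex.exp_ne_zero _ h7

section alg

variable {V : Type} [AddCommGroup V] [Module ℚ V]

/-- complex combinations of the values on the basis -/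
def cC (B : Module.Basis (ι ⊕ ι) ℚ V) (ζ : V →ₗ[ℚ] (ι → ℂ)) (r : ι ⊕ ι → ℂ) : ι → ℂ :=
  ∑ j, r j • ζ (B j)

theorem cC_add (B : Module.Basis (ι ⊕ ι) ℚ V) (ζ : V →ₗ[ℚ] (ι → ℂ)) (r r' : ι ⊕ ι → ℂ) :
    cC B ζ (r + r') = cC B ζ r + cC B ζ r' := by
  unfold cC
  rw [← Finset.sum_add_distrib]
  refine Finset.sum_congr rfl fun j _ => ?_
  rw [Pi.add_apply, add_smul]

theorem cC_smul (B : Module.Basis (ι ⊕ ι) ℚ V) (ζ : V →ₗ[ℚ] (ι → ℂ)) (a : ℂ) (r : ι ⊕ ι → ℂ) :
    cC B ζ (a • r) = a • cC B ζ r := by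
  unfold cC
  rw [Finset.smul_sum]
  refine Finset.sum_congr rfl fun j _ => ?_
  rw [Pi.smul_apply, smul_smul, smul_eq_mul]

theorem cC_single (B : Module.Basis (ι ⊕ ι) ℚ V) (ζ : V →ₗ[ℚ] (ι → ℂ)) (j : ι ⊕ ι) :
    cC B ζ (Pi.single j 1) = ζ (B j) := by
  unfold cC
  rw [Finset.sum_eq_single j]
  · simp
  · intro k _ hk
    rw [Pi.single_eq_of_ne hk, zero_smul]
  · intro h
    exact absurd (Finset.mem_univ j) h

theorem dotp_cC (B : Module.Basis (ι ⊕ ι) ℚ V) (ζ L : V →ₗ[ℚ] (ι → ℂ)) (r r' : ι ⊕ ι → ℂ) :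
    dotp (cC B L r) (cC B ζ r') = ∑ j, ∑ k, r j * r' k * dotp (L (B j)) (ζ (B k)) := by
  have h1 : dotp (cC B L r) (cC B ζ r') =
      ∑ i, ∑ j, ∑ k, (r j * L (B j) i) * (r' k * ζ (B k) i) := by
    unfold cC dotp
    refine Finset.sum_congr rfl fun i _ => ?_
    rw [Finset.sum_apply, Finset.sum_apply, Finset.sum_mul_sum]
    rfl
  have h2 : ∑ j, ∑ k, r j * r' k * dotp (L (B j)) (ζ (B k)) =
      ∑ j, ∑ k, ∑ i, (r j * L (B j) i) * (r' k * ζ (B k) i) := by
    unfold dotp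
    refine Finset.sum_congr rfl fun j _ => Finset.sum_congr rfl fun k _ => ?_
    rw [Finset.mul_sum]
    refine Finset.sum_congr rfl fun i _ => ?_
    ring
  rw [h1, h2, Finset.sum_comm]
  refine Finset.sum_congr rfl fun j _ => ?_
  rw [Finset.sum_comm]

variable {e : V →ₗ[ℚ] V →ₗ[ℚ] ℚ} {B : Module.Basis (ι ⊕ ι) ℚ V} {ζ L : V →ₗ[ℚ] (ι → ℂ)}

theorem symp_rl (hB : SympBasis e B) (i j : ι) :
    e (B (Sum.inr i)) (B (Sum.inl j)) = if j = i then -1 else 0 := by
  have h1 := hB.alt (B (Sum.inr i) + B (Sum.inl j))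
  simp only [map_add, LinearMap.add_apply, hB.alt, hB.lr] at h1
  split_ifs at h1 ⊢ with h
  · linarith
  · linarith

theorem rel_C (hB : SympBasis e B) (hP : IsPStr e B ζ L) (r r' : ι ⊕ ι → ℂ) :
    dotp (cC B L r) (cC B ζ r') - dotp (cC B L r') (cC B ζ r) = 2 * Real.pi * I *
      ∑ i, (r (Sum.inl i) * r' (Sum.inr i) - r (Sum.inr i) * r' (Sum.inl i)) := by
  rw [dotp_cC, dotp_cC]
  have h1 : ∑ j, ∑ k, r' j * r k * dotp (L (B j)) (ζ (B k)) =
      ∑ j, ∑ k, r j * r' k * dotp (L (B k)) (ζ (B j)) := by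
    rw [Finset.sum_comm]
    refine Finset.sum_congr rfl fun j _ => Finset.sum_congr rfl fun k _ => ?_
    ring
  rw [h1, ← Finset.sum_sub_distrib]
  have h2 : ∀ j, (∑ k, r j * r' k * dotp (L (B j)) (ζ (B k)) -
      ∑ k, r j * r' k * dotp (L (B k)) (ζ (B j))) =
      2 * Real.pi * I * ∑ k, r j * r' k * (e (B j) (B k) : ℚ) := by
    intro j
    rw [← Finset.sum_sub_distrib, Finset.mul_sum]
    refine Finset.sum_congr rfl fun k _ => ?_
    have h3 := hP.rel (B j) (B k)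
    linear_combination (r j * r' k) * h3
  rw [Finset.sum_congr rfl fun j _ => h2 j, ← Finset.mul_sum]
  congr 1
  rw [Fintype.sum_sum_type, Finset.sum_sub_distrib, sub_eq_add_neg, ← Finset.sum_neg_distrib]
  congr 1
  · refine Finset.sum_congr rfl fun i _ => ?_
    rw [Fintype.sum_sum_type]
    simp only [hB.ll, hB.lr]
    have hc : ∀ x : ι, (((if i = x then 1 else 0 : ℚ) : ℚ) : ℂ) = if i = x then 1 else 0 := by
      intro x
      split_ifs <;> simp
    simp only [hc]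
    simp
  · refine Finset.sum_congr rfl fun i _ => ?_
    rw [Fintype.sum_sum_type]
    simp only [hB.rr, symp_rl hB]
    have hc : ∀ x : ι, (((if x = i then -1 else 0 : ℚ) : ℚ) : ℂ) = if x = i then -1 else 0 := by
      intro x
      split_ifs <;> simp
    simp only [hc]
    simp

theorem pos_R (hP : IsPStr e B ζ L) (r : ι ⊕ ι → ℝ) (hr : r ≠ 0) :
    0 < (dotp (cC B L (fun j => (r j : ℂ))) (cC B ζ (fun j => (r j : ℂ)))).re := by
  rw [dotp_cC]
  exact hP.pos r hr

theorem pos_R' (hP : IsPStr e B ζ L) (r : ι ⊕ ι → ℝ) :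
    0 ≤ (dotp (cC B L (fun j => (r j : ℂ))) (cC B ζ (fun j => (r j : ℂ)))).re := by
  by_cases hr : r = 0
  · subst hr
    rw [dotp_cC]
    simp
  · exact (pos_R hP r hr).le

/-- values on the second half of the basis -/
def Zm (B : Module.Basis (ι ⊕ ι) ℚ V) (ζ : V →ₗ[ℚ] (ι → ℂ)) : Matrix ι ι ℂ :=
  Matrix.of fun k l => ζ (B (Sum.inr k)) l

/-- values on the first half of the basis -/
def Zl (B : Module.Basis (ι ⊕ ι) ℚ V) (ζ : V →ₗ[ℚ] (ι → ℂ)) : Matrix ι ι ℂ :=
  Matrix.of fun k l => ζ (B (Sum.inl k)) l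

/-- coefficient vectors supported on the second half -/
def eR (w : ι → ℂ) : ι ⊕ ι → ℂ := Sum.elim 0 w
/-- coefficient vectors supported on the first half -/
def eL (w : ι → ℂ) : ι ⊕ ι → ℂ := Sum.elim w 0

theorem cC_eR (w : ι → ℂ) : cC B ζ (eR w) = Matrix.vecMul w (Zm B ζ) := by
  funext l
  unfold cC eR Matrix.vecMul Zm
  simp [Fintype.sum_sum_type, dotProduct]

theorem cC_eL (w : ι → ℂ) : cC B ζ (eL w) = Matrix.vecMul w (Zl B ζ) := by
  funext l
  unfold cC eL Matrix.vecMul Zl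
  simp [Fintype.sum_sum_type, dotProduct]

theorem eR_add (w w' : ι → ℂ) : eR (w + w') = eR w + eR w' := by
  funext j
  rcases j with j | j <;> simp [eR]

theorem eR_smul (a : ℂ) (w : ι → ℂ) : eR (a • w) = a • eR w := by
  funext j
  rcases j with j | j <;> simp [eR]

theorem eR_single (j : ι) : eR (Pi.single j (1 : ℂ)) = Pi.single (Sum.inr j) 1 := by
  funext k
  rcases k with k | k
  · simp [eR]
  · by_cases h : k = j
    · subst h; simp [eR]
    · simp [eR, Pi.single_apply, h]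

theorem eL_single (j : ι) : eL (Pi.single j (1 : ℂ)) = Pi.single (Sum.inl j) 1 := by
  funext k
  rcases k with k | k
  · by_cases h : k = j
    · subst h; simp [eL]
    · simp [eL, Pi.single_apply, h]
  · simp [eL]

theorem det_ne (hB : SympBasis e B) (hP : IsPStr e B ζ L) : (Zm B ζ).det ≠ 0 := by
  intro hdet
  obtain ⟨v, hv, hv0⟩ := Matrix.exists_vecMul_eq_zero_iff.2 hdet
  rw [← cC_eR] at hv0
  let a : ι ⊕ ι → ℝ := Sum.elim 0 (fun k => (v k).re)
  let b : ι ⊕ ι → ℝ := Sum.elim 0 (fun k => (v k).im)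
  have hvab : eR v = (fun j => (a j : ℂ)) + I • (fun j => (b j : ℂ)) := by
    funext j
    rcases j with j | j
    · simp [eR, a, b]
    · simp only [eR, a, b, Sum.elim_inr, Pi.add_apply, Pi.smul_apply, smul_eq_mul]
      rw [mul_comm]
      exact (Complex.re_add_im _).symm
  rw [hvab, cC_add, cC_smul] at hv0
  set za := cC B ζ (fun j => (a j : ℂ))
  set zb := cC B ζ (fun j => (b j : ℂ))
  have hza : za = (-I) • zb := by
    have := eq_neg_of_add_eq_zero_left hv0
    rw [this, neg_smul]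
  have hzb : zb = I • za := by
    rw [hza, smul_smul]
    simp
  have hrel := rel_C hB hP (fun j => (a j : ℂ)) (fun j => (b j : ℂ))
  have hrel0 : dotp (cC B L fun j => (a j : ℂ)) zb = dotp (cC B L fun j => (b j : ℂ)) za := by
    rw [← sub_eq_zero, hrel]
    simp [a, b]
  have h1 : dotp (cC B L fun j => (a j : ℂ)) za + dotp (cC B L fun j => (b j : ℂ)) zb = 0 := by
    have e1 : dotp (cC B L fun j => (a j : ℂ)) za = -I * dotp (cC B L fun j => (a j : ℂ)) zb := by
      conv_lhs => rw [hza]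
      rw [dotp_smul_right]
    have e2 : dotp (cC B L fun j => (b j : ℂ)) zb = I * dotp (cC B L fun j => (b j : ℂ)) za := by
      conv_lhs => rw [hzb]
      rw [dotp_smul_right]
    rw [e1, e2, hrel0]
    ring
  have h2 := congrArg Complex.re h1
  rw [Complex.add_re, Complex.zero_re] at h2
  have h3 : (0 : ℝ) ≤ (dotp (cC B L fun j => (a j : ℂ)) za).re := pos_R' hP a
  have h4 : (0 : ℝ) ≤ (dotp (cC B L fun j => (b j : ℂ)) zb).re := pos_R' hP b
  apply hv
  have ha : a = 0 := by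
    by_contra hne
    have h5 : (0 : ℝ) < (dotp (cC B L fun j => (a j : ℂ)) za).re := pos_R hP a hne
    linarith
  have hb : b = 0 := by
    by_contra hne
    have h5 : (0 : ℝ) < (dotp (cC B L fun j => (b j : ℂ)) zb).re := pos_R hP b hne
    linarith
  funext k
  apply Complex.ext
  · exact congrFun ha (Sum.inr k)
  · exact congrFun hb (Sum.inr k)

/-- the period matrix -/
def tauM (B : Module.Basis (ι ⊕ ι) ℚ V) (ζ : V →ₗ[ℚ] (ι → ℂ)) : Matrix ι ι ℂ :=
  Zl B ζ * (Zm B ζ)⁻¹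

/-- the period matrix as a function -/
def tau (B : Module.Basis (ι ⊕ ι) ℚ V) (ζ : V →ₗ[ℚ] (ι → ℂ)) : ι → ι → ℂ :=
  fun i j => tauM B ζ i j

theorem tau_mul (hB : SympBasis e B) (hP : IsPStr e B ζ L) : tauM B ζ * Zm B ζ = Zl B ζ := by
  unfold tauM
  rw [Matrix.mul_assoc, Matrix.nonsing_inv_mul _ (isUnit_iff_ne_zero.2 (det_ne hB hP)),
    Matrix.mul_one]

theorem cC_eL_eq (hB : SympBasis e B) (hP : IsPStr e B ζ L) (w : ι → ℂ) :
    cC B ζ (eL w) = cC B ζ (eR (Matrix.vecMul w (tauM B ζ))) := by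
  rw [cC_eL, cC_eR, Matrix.vecMul_vecMul, tau_mul hB hP]

theorem rel_RR (hB : SympBasis e B) (hP : IsPStr e B ζ L) (w w' : ι → ℂ) :
    dotp (cC B L (eR w)) (cC B ζ (eR w')) = dotp (cC B L (eR w')) (cC B ζ (eR w)) := by
  rw [← sub_eq_zero, rel_C hB hP]
  simp [eR]

theorem rel_LL (hB : SympBasis e B) (hP : IsPStr e B ζ L) (w w' : ι → ℂ) :
    dotp (cC B L (eL w)) (cC B ζ (eL w')) = dotp (cC B L (eL w')) (cC B ζ (eL w)) := by
  rw [← sub_eq_zero, rel_C hB hP]
  simp [eL]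

theorem rel_LR (hB : SympBasis e B) (hP : IsPStr e B ζ L) (w w' : ι → ℂ) :
    dotp (cC B L (eL w)) (cC B ζ (eR w')) = dotp (cC B L (eR w')) (cC B ζ (eL w)) +
      2 * Real.pi * I * ∑ i, w i * w' i := by
  have h := rel_C hB hP (eL w) (eR w')
  simp only [eL, eR, Sum.elim_inl, Sum.elim_inr, Pi.zero_apply, mul_zero, sub_zero,
    zero_mul] at h
  rw [sub_eq_iff_eq_add'] at h
  exact h

theorem tau_symm (hB : SympBasis e B) (hP : IsPStr e B ζ L) (i j : ι) :
    tau B ζ i j = tau B ζ j i := by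
  have key : ∀ w w' : ι → ℂ, ∑ k, w k * (Matrix.vecMul w' (tauM B ζ)) k =
      ∑ k, w' k * (Matrix.vecMul w (tauM B ζ)) k := by
    intro w w'
    have h1 : ∀ w w' : ι → ℂ, dotp (cC B L (eL w)) (cC B ζ (eL w')) =
        dotp (cC B L (eR (Matrix.vecMul w' (tauM B ζ)))) (cC B ζ (eR (Matrix.vecMul w (tauM B ζ)))) +
        2 * Real.pi * I * ∑ k, w k * (Matrix.vecMul w' (tauM B ζ)) k := by
      intro w w'
      rw [cC_eL_eq hB hP w', rel_LR hB hP, cC_eL_eq hB hP w]
    have h2 := h1 w w'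
    have h3 := h1 w' w
    rw [rel_LL hB hP w w', rel_RR hB hP, h3] at h2
    have h4 := add_left_cancel h2
    have h5 : (2 * Real.pi * I : ℂ) ≠ 0 := Complex.two_pi_I_ne_zero
    exact (mul_left_cancel₀ h5 h4).symm
  have h := key (Pi.single j 1) (Pi.single i 1)
  have h6 : ∀ i j : ι, ∑ k, (Pi.single j (1 : ℂ) : ι → ℂ) k *
      (Matrix.vecMul (Pi.single i 1) (tauM B ζ)) k = tauM B ζ i j := by
    intro i j
    simp [Pi.single_apply, Matrix.single_one_vecMul]
  rw [h6, h6] at h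
  exact h

theorem tau_negDef (hB : SympBasis e B) (hP : IsPStr e B ζ L) : NegDef (tau B ζ) := by
  intro r hr
  let rc : ι → ℂ := fun i => (r i : ℂ)
  let a : ι → ℝ := fun k => (Matrix.vecMul rc (tauM B ζ) k).re
  let b : ι → ℝ := fun k => (Matrix.vecMul rc (tauM B ζ) k).im
  let y : ι ⊕ ι → ℝ := Sum.elim r (-a)
  have hy : y ≠ 0 := by
    intro h0
    apply hr
    funext k
    exact congrFun h0 (Sum.inl k)
  have hpos := pos_R hP y hy
  let bc : ι → ℂ := fun k => (b k : ℂ)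
  have hyc : (fun j => (y j : ℂ)) = eL rc + (-1 : ℂ) • eR (fun k => (a k : ℂ)) := by
    funext j
    rcases j with j | j
    · simp [y, eL, eR, rc]
    · simp [y, eL, eR]
  have hz : cC B ζ (fun j => (y j : ℂ)) = I • cC B ζ (eR bc) := by
    rw [hyc, cC_add, cC_smul, cC_eL_eq hB hP rc, ← cC_smul, ← cC_smul, ← cC_add]
    congr 1
    rw [← eR_smul, ← eR_smul, ← eR_add]
    congr 1
    funext k
    simp only [Pi.add_apply, Pi.smul_apply, smul_eq_mul, bc, a, b]
    have := Complex.re_add_im (Matrix.vecMul rc (tauM B ζ) k)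
    linear_combination -this
  have h1 : dotp (cC B L (fun j => (y j : ℂ))) (cC B ζ (fun j => (y j : ℂ))) =
      -dotp (cC B L (eR bc)) (cC B ζ (eR bc)) - 2 * Real.pi * ∑ i, rc i * bc i := by
    have h2 := rel_C hB hP (fun j => (y j : ℂ)) (eR bc)
    have h3 : ∑ i, ((fun j => (y j : ℂ)) (Sum.inl i) * eR bc (Sum.inr i) -
        (fun j => (y j : ℂ)) (Sum.inr i) * eR bc (Sum.inl i)) = ∑ i, rc i * bc i := by
      refine Finset.sum_congr rfl fun i _ => ?_
      simp [y, eR, rc]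
    rw [h3] at h2
    rw [hz, dotp_smul_right] at h2
    rw [hz, dotp_smul_right]
    have hI : I * I = -1 := Complex.I_mul_I
    linear_combination I * h2 + (dotp (cC B L (eR bc)) (cC B ζ (eR bc)) +
      2 * Real.pi * ∑ i, rc i * bc i) * hI
  rw [h1] at hpos
  have h4 : (0 : ℝ) ≤ (dotp (cC B L (eR bc)) (cC B ζ (eR bc))).re := by
    have h5 := pos_R' hP (Sum.elim 0 b)
    have h6 : (fun j => ((Sum.elim 0 b : ι ⊕ ι → ℝ) j : ℂ)) = eR bc := by
      funext j
      rcases j with j | j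
      · simp [eR]
      · simp [eR, bc]
    rwa [h6] at h5
  have h5 : (2 * Real.pi * ∑ i, rc i * bc i : ℂ) = ((2 * Real.pi * ∑ i, r i * b i : ℝ) : ℂ) := by
    push_cast
    rfl
  rw [h5, Complex.sub_re, Complex.neg_re, Complex.ofReal_re] at hpos
  have h6 : ∑ i, r i * b i < 0 := by
    have h7 : 2 * Real.pi * ∑ i, r i * b i < 0 := by linarith
    by_contra hcon
    push Not at hcon
    have := mul_nonneg (mul_nonneg zero_le_two Real.pi_pos.le) hcon
    linarith
  have h7 : ∑ i, ∑ j, r i * r j * (tau B ζ i j).im = ∑ i, r i * b i := by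
    rw [Finset.sum_comm]
    refine Finset.sum_congr rfl fun j _ => ?_
    show _ = r j * (Matrix.vecMul rc (tauM B ζ) j).im
    rw [Matrix.vecMul, dotProduct, Complex.im_sum, Finset.mul_sum]
    refine Finset.sum_congr rfl fun i _ => ?_
    show r i * r j * (tauM B ζ i j).im = r j * ((r i : ℂ) * tauM B ζ i j).im
    rw [Complex.im_ofReal_mul]
    ring
  rw [h7]
  exact h6

end alg

/-! ### periodicity of the theta series -/

theorem th_add_single (τ : ι → ι → ℂ) (w : ι → ℂ) (j : ι) :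
    th (τ, w + Pi.single j 1) = th (τ, w) := by
  unfold th
  refine tsum_congr fun n => ?_
  rw [ell_apply, ell_apply]
  have h1 : (∑ k, -(2 * Real.pi * I) * (n k : ℂ) * (w + Pi.single j 1 : ι → ℂ) k) =
      (∑ k, -(2 * Real.pi * I) * (n k : ℂ) * w k) + ((-n j : ℤ) : ℂ) * (2 * Real.pi * I) := by
    simp only [Pi.add_apply, mul_add, Finset.sum_add_distrib]
    congr 1
    rw [Finset.sum_eq_single j]
    · rw [Pi.single_eq_same]
      push_cast
      ring
    · intro k _ hk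
      rw [Pi.single_eq_of_ne hk, mul_zero]
    · intro h
      exact absurd (Finset.mem_univ j) h
  show cexp ((∑ k, -(2 * Real.pi * I) * (n k : ℂ) * (w + Pi.single j 1 : ι → ℂ) k) + _) = _
  rw [h1, add_right_comm, Complex.exp_add, Complex.exp_int_mul_two_pi_mul_I, mul_one]

theorem th_add_tau (τ : ι → ι → ℂ) (hs : ∀ i j, τ i j = τ j i) (w : ι → ℂ) (i : ι) :
    cexp (-(2 * Real.pi * I) * w i - Real.pi * I * τ i i) * th (τ, w + τ i) = th (τ, w) := by
  unfold th
  rw [← tsum_mul_left, ← (Equiv.addRight (Pi.single i 1 : ι → ℤ)).tsum_eq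
    (fun n => cexp (ell n (τ, w)))]
  refine tsum_congr fun n => ?_
  rw [← Complex.exp_add]
  congr 1
  rw [Equiv.coe_addRight, ell_apply, ell_apply]
  show -(2 * Real.pi * I) * w i - Real.pi * I * τ i i +
      ((∑ k, -(2 * Real.pi * I) * (n k : ℂ) * (w + τ i) k) +
        ∑ a, ∑ b, -(Real.pi * I) * (n a : ℂ) * (n b : ℂ) * τ a b) =
      (∑ k, -(2 * Real.pi * I) * ((n + Pi.single i 1 : ι → ℤ) k : ℂ) * w k) +
        ∑ a, ∑ b, -(Real.pi * I) * ((n + Pi.single i 1 : ι → ℤ) a : ℂ) *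
          ((n + Pi.single i 1 : ι → ℤ) b : ℂ) * τ a b
  have hd : ∀ k, (((n + Pi.single i 1 : ι → ℤ) k : ℤ) : ℂ) = (n k : ℂ) + if k = i then 1 else 0 := by
    intro k
    by_cases hk : k = i
    · subst hk; simp
    · simp [hk, Pi.single_apply]
  simp only [hd]
  have h1 : ∀ k, -(2 * Real.pi * I) * ((n k : ℂ) + if k = i then 1 else 0) * w k =
      -(2 * Real.pi * I) * (n k : ℂ) * w k + if k = i then -(2 * Real.pi * I) * w k else 0 := by
    intro k
    split_ifs <;> ring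
  simp only [h1, Finset.sum_add_distrib, Finset.sum_ite_eq', Finset.mem_univ, if_true]
  have h2 : ∀ a b, -(Real.pi * I) * ((n a : ℂ) + if a = i then 1 else 0) *
      ((n b : ℂ) + if b = i then 1 else 0) * τ a b =
      -(Real.pi * I) * (n a : ℂ) * (n b : ℂ) * τ a b +
      (if b = i then -(Real.pi * I) * (n a : ℂ) * τ a b else 0) +
      (if a = i then (-(Real.pi * I) * (n b : ℂ) * τ a b +
        if b = i then -(Real.pi * I) * τ a b else 0) else 0) := by
    intro a b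
    split_ifs <;> ring
  simp only [h2, Finset.sum_add_distrib, Finset.sum_ite_eq', Finset.mem_univ, if_true]
  have h3 : ∑ a, ∑ b, (if a = i then (-(Real.pi * I) * (n b : ℂ) * τ a b +
        if b = i then -(Real.pi * I) * τ a b else 0) else 0) =
      (∑ b, -(Real.pi * I) * (n b : ℂ) * τ i b) + -(Real.pi * I) * τ i i := by
    rw [Finset.sum_eq_single i]
    · simp only [if_true, Finset.sum_add_distrib, Finset.sum_ite_eq', Finset.mem_univ]
    · intro a _ ha
      simp [ha]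
    · intro h
      exact absurd (Finset.mem_univ i) h
  rw [h3]
  have h4 : ∑ k, -(2 * Real.pi * I) * (n k : ℂ) * (w + τ i) k =
      (∑ k, -(2 * Real.pi * I) * (n k : ℂ) * w k) +
        2 * ∑ k, -(Real.pi * I) * (n k : ℂ) * τ i k := by
    rw [Finset.mul_sum, ← Finset.sum_add_distrib]
    refine Finset.sum_congr rfl fun k _ => ?_
    rw [Pi.add_apply]
    ring
  have h5 : ∑ a, -(Real.pi * I) * (n a : ℂ) * τ a i = ∑ k, -(Real.pi * I) * (n k : ℂ) * τ i k :=
    Finset.sum_congr rfl fun k _ => by rw [hs k i]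
  rw [h4, h5]
  ring

/-! ### the theta function -/

section fin

variable {V : Type} [AddCommGroup V] [Module ℚ V]
variable {e : V →ₗ[ℚ] V →ₗ[ℚ] ℚ} {B : Module.Basis (ι ⊕ ι) ℚ V} {ζ L : V →ₗ[ℚ] (ι → ℂ)}

/-- the theta function -/
def Tht (B : Module.Basis (ι ⊕ ι) ℚ V) (L ζ : V →ₗ[ℚ] (ι → ℂ)) (z : ι → ℂ) : ℂ :=
  cexp (dotp (cC B L (eR (Matrix.vecMul z (Zm B ζ)⁻¹))) z / 2) *
    th (tau B ζ, Matrix.vecMul z (Zm B ζ)⁻¹)

theorem vecMul_inv (hB : SympBasis e B) (hP : IsPStr e B ζ L) (w : ι → ℂ) :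
    Matrix.vecMul (cC B ζ (eR w)) (Zm B ζ)⁻¹ = w := by
  rw [cC_eR, Matrix.vecMul_vecMul,
    Matrix.mul_nonsing_inv _ (isUnit_iff_ne_zero.2 (det_ne hB hP)), Matrix.vecMul_one]

theorem inv_vecMul (hB : SympBasis e B) (hP : IsPStr e B ζ L) (z : ι → ℂ) :
    cC B ζ (eR (Matrix.vecMul z (Zm B ζ)⁻¹)) = z := by
  rw [cC_eR, Matrix.vecMul_vecMul,
    Matrix.nonsing_inv_mul _ (isUnit_iff_ne_zero.2 (det_ne hB hP)), Matrix.vecMul_one]

theorem Tht_eq (hB : SympBasis e B) (hP : IsPStr e B ζ L) (w : ι → ℂ) :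
    Tht B L ζ (cC B ζ (eR w)) =
      cexp (dotp (cC B L (eR w)) (cC B ζ (eR w)) / 2) * th (tau B ζ, w) := by
  unfold Tht
  rw [vecMul_inv hB hP]

theorem Tht_ne (hB : SympBasis e B) (hP : IsPStr e B ζ L) : Tht B L ζ ≠ 0 := by
  obtain ⟨w, hw⟩ := th_ne_zero (tau_negDef hB hP)
  intro h0
  have h1 := Tht_eq hB hP w
  rw [h0] at h1
  rcases mul_eq_zero.1 h1.symm with h2 | h2
  · exact Complex.exp_ne_zero _ h2
  · exact hw h2

theorem Tht_per (hB : SympBasis e B) (hP : IsPStr e B ζ L) (j : ι ⊕ ι) :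
    TT ζ L (B j) (Tht B L ζ) = Tht B L ζ := by
  funext z
  obtain ⟨w, rfl⟩ : ∃ w, z = cC B ζ (eR w) := ⟨_, (inv_vecMul hB hP z).symm⟩
  rcases j with i | j
  · -- first half
    have hz : ζ (B (Sum.inl i)) = cC B ζ (eR (tau B ζ i)) := by
      rw [← cC_single, ← eL_single, cC_eL_eq hB hP]
      congr 2
      funext k
      rw [Matrix.single_one_vecMul]
      rfl
    have hLi : L (B (Sum.inl i)) = cC B L (eL (Pi.single i 1)) := by
      rw [eL_single, cC_single]
    have hkey : ∀ w : ι → ℂ, dotp (cC B L (eR (tau B ζ i))) (cC B ζ (eR w)) =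
        dotp (L (B (Sum.inl i))) (cC B ζ (eR w)) - 2 * Real.pi * I * w i := by
      intro w
      rw [rel_RR hB hP, ← hz, hLi, rel_LR hB hP]
      have : cC B ζ (eL (Pi.single i 1)) = ζ (B (Sum.inl i)) := by rw [eL_single, cC_single]
      rw [this]
      have h2 : ∑ k, (Pi.single i (1 : ℂ) : ι → ℂ) k * w k = w i := by
        simp [Pi.single_apply]
      rw [h2]
      ring
    unfold TT
    rw [hz, ← cC_add, ← eR_add, Tht_eq hB hP, Tht_eq hB hP,
      ← th_add_tau (tau B ζ) (tau_symm hB hP) w i, ← mul_assoc, ← mul_assoc, ← Complex.exp_add,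
      ← Complex.exp_add]
    congr 2
    have h3 := rel_RR hB hP (L := L) w (tau B ζ i)
    have h4 := hkey w
    have h5 := hkey (tau B ζ i)
    rw [eR_add, cC_add, cC_add, dotp_add_left, dotp_add_right, dotp_add_right]
    linear_combination (1/2 : ℂ) * h3 + h4 + (1/2 : ℂ) * h5
  · -- second half
    have hz : ζ (B (Sum.inr j)) = cC B ζ (eR (Pi.single j 1)) := by
      rw [eR_single, cC_single]
    have hL : L (B (Sum.inr j)) = cC B L (eR (Pi.single j 1)) := by
      rw [eR_single, cC_single]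
    unfold TT
    rw [hz, hL, ← cC_add, ← eR_add, Tht_eq hB hP, Tht_eq hB hP, th_add_single, ← mul_assoc,
      ← Complex.exp_add]
    congr 2
    have h3 := rel_RR hB hP (L := L) w (Pi.single j 1)
    rw [eR_add, cC_add, cC_add, dotp_add_left, dotp_add_right, dotp_add_right]
    linear_combination (1/2 : ℂ) * h3

end fin

/-! ### holomorphy -/

section holo

variable {P : Type} [NormedAddCommGroup P] [NormedSpace ℂ P]

theorem diff_prod {n : Type} (u : Finset n) (f : n → P → ℂ) (p₀ : P)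
    (h : ∀ i, DifferentiableAt ℂ (f i) p₀) :
    DifferentiableAt ℂ (fun p => ∏ i ∈ u, f i p) p₀ := by
  classical
  induction u using Finset.induction_on with
  | empty => simp
  | insert a s ha ih =>
    have h1 : (fun p => ∏ i ∈ insert a s, f i p) = fun p => f a p * ∏ i ∈ s, f i p := by
      funext p
      rw [Finset.prod_insert ha]
    rw [h1]
    exact (h a).mul ih

theorem diff_det {n : Type} [Fintype n] [DecidableEq n] (M : P → Matrix n n ℂ) (p₀ : P)
    (h : ∀ i j, DifferentiableAt ℂ (fun p => M p i j) p₀) :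
    DifferentiableAt ℂ (fun p => (M p).det) p₀ := by
  simp only [Matrix.det_apply']
  refine DifferentiableAt.fun_sum fun σ _ => ?_
  refine DifferentiableAt.const_mul ?_ _
  exact diff_prod Finset.univ (fun i p => M p (σ i) i) p₀ fun i => h _ _

theorem diff_inv {n : Type} [Fintype n] [DecidableEq n] (M : P → Matrix n n ℂ) (p₀ : P)
    (h : ∀ i j, DifferentiableAt ℂ (fun p => M p i j) p₀) (h0 : (M p₀).det ≠ 0) (i j : n) :
    DifferentiableAt ℂ (fun p => (M p)⁻¹ i j) p₀ := by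
  have h1 : (fun p => (M p)⁻¹ i j) = fun p => ((M p).det)⁻¹ * (M p).adjugate i j := by
    funext p
    rw [Matrix.inv_def, Ring.inverse_eq_inv']
    rfl
  rw [h1]
  refine ((diff_det M p₀ h).inv h0).mul ?_
  simp only [Matrix.adjugate_apply]
  refine diff_det _ p₀ fun a b => ?_
  by_cases ha : a = j
  · subst ha
    simp only [Matrix.updateRow_self]
    exact differentiableAt_const _
  · simp only [Matrix.updateRow_ne ha]
    exact h a b

end holo

section main

variable {V : Type} [AddCommGroup V] [Module ℚ V] {κ : Type} [Fintype κ]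
variable {e : V →ₗ[ℚ] V →ₗ[ℚ] ℚ} {B : Module.Basis (ι ⊕ ι) ℚ V}

theorem Tht_diff (Dom : Set (κ → ℂ)) (ζ : (κ → ℂ) → V →ₗ[ℚ] (ι → ℂ)) (L : V →ₗ[ℚ] (ι → ℂ))
    (hD : IsOpen Dom) (hζ : ∀ x i, DifferentiableOn ℂ (fun s => ζ s x i) Dom)
    (hB : SympBasis e B) (hP : ∀ s ∈ Dom, IsPStr e B (ζ s) L) (p₀ : (κ → ℂ) × (ι → ℂ))
    (hp : p₀.1 ∈ Dom) :
    DifferentiableAt ℂ (fun p : (κ → ℂ) × (ι → ℂ) => Tht B L (ζ p.1) p.2) p₀ := by
  have hent : ∀ x i, DifferentiableAt ℂ (fun p : (κ → ℂ) × (ι → ℂ) => ζ p.1 x i) p₀ := by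
    intro x i
    have h1 : DifferentiableAt ℂ (fun s => ζ s x i) p₀.1 :=
      (hζ x i).differentiableAt (hD.mem_nhds hp)
    exact h1.comp p₀ differentiableAt_fst
  have hz : ∀ i, DifferentiableAt ℂ (fun p : (κ → ℂ) × (ι → ℂ) => p.2 i) p₀ := by
    intro i
    fun_prop
  have hdet : (Zm B (ζ p₀.1)).det ≠ 0 := det_ne hB (hP _ hp)
  have hinv : ∀ i j, DifferentiableAt ℂ
      (fun p : (κ → ℂ) × (ι → ℂ) => (Zm B (ζ p.1))⁻¹ i j) p₀ := fun i j =>
    diff_inv (fun p : (κ → ℂ) × (ι → ℂ) => Zm B (ζ p.1)) p₀ (fun a b => hent _ _) hdet i j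
  have htau : ∀ i j, DifferentiableAt ℂ
      (fun p : (κ → ℂ) × (ι → ℂ) => tau B (ζ p.1) i j) p₀ := by
    intro i j
    have h1 : (fun p : (κ → ℂ) × (ι → ℂ) => tau B (ζ p.1) i j) =
        fun p => ∑ k, ζ p.1 (B (Sum.inl i)) k * (Zm B (ζ p.1))⁻¹ k j := by
      funext p
      rfl
    rw [h1]
    exact DifferentiableAt.fun_sum fun k _ => (hent _ _).mul (hinv _ _)
  have hw : ∀ j, DifferentiableAt ℂ
      (fun p : (κ → ℂ) × (ι → ℂ) => Matrix.vecMul p.2 (Zm B (ζ p.1))⁻¹ j) p₀ := by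
    intro j
    have h1 : (fun p : (κ → ℂ) × (ι → ℂ) => Matrix.vecMul p.2 (Zm B (ζ p.1))⁻¹ j) =
        fun p => ∑ k, p.2 k * (Zm B (ζ p.1))⁻¹ k j := by
      funext p
      rfl
    rw [h1]
    exact DifferentiableAt.fun_sum fun k _ => (hz _).mul (hinv _ _)
  have hq : DifferentiableAt ℂ (fun p : (κ → ℂ) × (ι → ℂ) =>
      dotp (cC B L (eR (Matrix.vecMul p.2 (Zm B (ζ p.1))⁻¹))) p.2) p₀ := by
    have h1 : (fun p : (κ → ℂ) × (ι → ℂ) =>
        dotp (cC B L (eR (Matrix.vecMul p.2 (Zm B (ζ p.1))⁻¹))) p.2) =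
        fun p => ∑ i, (∑ k, (Matrix.vecMul p.2 (Zm B (ζ p.1))⁻¹ k) * Zm B L k i) * p.2 i := by
      funext p
      rw [cC_eR]
      rfl
    rw [h1]
    refine DifferentiableAt.fun_sum fun i _ => DifferentiableAt.mul ?_ (hz i)
    exact DifferentiableAt.fun_sum fun k _ => (hw k).mul (differentiableAt_const _)
  have hmap : DifferentiableAt ℂ (fun p : (κ → ℂ) × (ι → ℂ) =>
      ((tau B (ζ p.1), Matrix.vecMul p.2 (Zm B (ζ p.1))⁻¹) : PS ι)) p₀ := by
    refine DifferentiableAt.prodMk ?_ ?_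
    · refine differentiableAt_pi.2 fun i => differentiableAt_pi.2 fun j => htau i j
    · exact differentiableAt_pi.2 fun j => hw j
  have hth : DifferentiableAt ℂ (th (ι := ι))
      ((tau B (ζ p₀.1), Matrix.vecMul p₀.2 (Zm B (ζ p₀.1))⁻¹) : PS ι) :=
    th_differentiableAt (tau_negDef hB (hP _ hp))
  have h2 := hth.comp p₀ hmap
  have h3 := hq.mul_const (2⁻¹ : ℂ)
  simp only [← div_eq_mul_inv] at h3
  exact (h3.cexp).mul h2

end main

end THE_

open THE_ in
theorem the_proof : Stmt_THE := by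
  intro V _ _ ι _ _ e B κ _ Dom ζ L hD hζ hB hP
  refine ⟨fun s => Tht B L (ζ s), ?_, ?_⟩
  · rintro ⟨s, z⟩ ⟨hs, -⟩
    exact (Tht_diff Dom ζ L hD hζ hB hP (s, z) hs).differentiableWithinAt
  · intro s hs
    refine ⟨⟨?_, fun j => Tht_per hB (hP s hs) j⟩, Tht_ne hB (hP s hs)⟩
    intro z
    have h1 := Tht_diff Dom ζ L hD hζ hB hP (s, z) hs
    have h2 : DifferentiableAt ℂ (fun z : ι → ℂ => ((s, z) : (κ → ℂ) × (ι → ℂ))) z := by
      fun_prop
    exact h1.comp z h2

end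

end Pool.Agent.SPF
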