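import Pool.Agent.SPF.Kit
import Pool.Agent.DRB.Osgood

set_option linter.unusedSectionVars false
set_option linter.style.haveILetI false

open scoped BigOperators Topology
open Complex MeasureTheory

namespace Pool.Agent.SPF

noncomputable section

namespace THU_

variable {ι : Type} [Fintype ι] [DecidableEq ι]

/-- unit cube with corner a -/
def cube (a : ι → ℝ) : Set (ι → ℝ) := {x | ∀ i, x i ∈ Set.Ioc (a i) (a i + 1)}

/-- real vectors as complex vectors -/
def rc (x : ι → ℝ) : ι → ℂ := fun i => (x i : ℂ)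

theorem rc_add (x y : ι → ℝ) : rc (x + y) = rc x + rc y := by
  funext i; simp [rc]

theorem rc_zero : rc (0 : ι → ℝ) = 0 := by
  funext i; simp [rc]

theorem rc_smul (r : ℝ) (y : ι → ℝ) : rc (r • y) = (r : ℂ) • rc y := by
  funext i; simp [rc]

theorem rc_single (j : ι) : rc (Pi.single j 1) = Pi.single j 1 := by
  funext i
  by_cases h : i = j
  · subst h; simp [rc]
  · simp [rc, h]

theorem continuous_rc : Continuous (rc : (ι → ℝ) → (ι → ℂ)) := by
  unfold rc; fun_prop

theorem per_int {h : (ι → ℝ) → ℂ} (hp : ∀ j x, h (x + Pi.single j 1) = h x) (k : ι → ℤ)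
    (x : ι → ℝ) : h (x + fun i => (k i : ℝ)) = h x := by
  let S : AddSubgroup (ι → ℝ) :=
    { carrier := {v | ∀ x, h (x + v) = h x}
      zero_mem' := fun x => by rw [add_zero]
      add_mem' := by
        intro a b ha hb x
        rw [← add_assoc, hb, ha]
      neg_mem' := by
        intro a ha x
        have := ha (x + -a)
        rw [neg_add_cancel_right] at this
        exact this.symm }
  have h1 : (∑ j, k j • (Pi.single j 1 : ι → ℝ)) ∈ S :=
    S.sum_mem fun j _ => S.zsmul_mem (fun x => hp j x) _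
  have h2 : (∑ j, k j • (Pi.single j 1 : ι → ℝ)) = fun i => (k i : ℝ) := by
    funext i
    rw [Finset.sum_apply, Finset.sum_eq_single i]
    · simp
    · intro j _ hj
      simp [hj.symm]
    · simp
  rw [← h2]
  exact h1 x

theorem exists_descent {h : (ι → ℝ) → ℂ} (hp : ∀ j x, h (x + Pi.single j 1) = h x) :
    ∃ g : UnitAddTorus ι → ℂ, ∀ x : ι → ℝ, g (fun i => (x i : UnitAddCircle)) = h x := by
  have hs : Function.Surjective (fun (x : ι → ℝ) (i : ι) => (x i : UnitAddCircle)) := by
    intro y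
    refine ⟨fun i => (QuotientAddGroup.mk_surjective (y i)).choose, ?_⟩
    funext i
    exact (QuotientAddGroup.mk_surjective (y i)).choose_spec
  refine ⟨fun y => h (Function.surjInv hs y), fun x => ?_⟩
  have h1 := Function.surjInv_eq hs (fun i => (x i : UnitAddCircle))
  set y := Function.surjInv hs (fun i => (x i : UnitAddCircle)) with hy
  have h2 : ∀ i, ∃ n : ℤ, y i = x i + n := by
    intro i
    have h3 := congrFun h1 i
    have h4 : ((y i - x i : ℝ) : UnitAddCircle) = 0 := by
      rw [AddCircle.coe_sub, sub_eq_zero]; exact h3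
    obtain ⟨n, hn⟩ := AddCircle.coe_eq_zero_iff (1 : ℝ) |>.1 h4
    refine ⟨n, ?_⟩
    rw [zsmul_eq_mul, mul_one] at hn
    linarith
  choose n hn using h2
  have h3 : y = x + fun i => (n i : ℝ) := by
    funext i; rw [hn i]; rfl
  show h y = h x
  rw [h3, per_int hp]

/-- the integral over the cube does not depend on the corner -/
theorem cube_indep {h : (ι → ℝ) → ℂ} (hp : ∀ j x, h (x + Pi.single j 1) = h x) (a : ι → ℝ) :
    ∫ x in cube a, h x = ∫ x in cube (0 : ι → ℝ), h x := by
  obtain ⟨g, hg⟩ := exists_descent hp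
  have h1 := UnitAddTorus.integral_preimage g a
  have h2 := UnitAddTorus.integral_preimage g (0 : ι → ℝ)
  simp only [hg] at h1 h2
  exact h1.symm.trans h2

theorem cube_meas (a : ι → ℝ) : MeasurableSet (cube a) := by
  have : cube a = Set.pi Set.univ fun i => Set.Ioc (a i) (a i + 1) := by
    ext x; simp [cube]
  rw [this]
  exact MeasurableSet.univ_pi fun i => measurableSet_Ioc

theorem cube_trans {h : (ι → ℝ) → ℂ} (hp : ∀ j x, h (x + Pi.single j 1) = h x) (a : ι → ℝ) :
    ∫ x in cube (0 : ι → ℝ), h (x + a) = ∫ x in cube (0 : ι → ℝ), h x := by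
  have h1 : MeasurePreserving (fun x : ι → ℝ => x + a) volume volume :=
    measurePreserving_add_right volume a
  have h2 : MeasurableEmbedding (fun x : ι → ℝ => x + a) :=
    (MeasurableEquiv.addRight a).measurableEmbedding
  have h3 := h1.setIntegral_preimage_emb h2 h (cube a)
  have h4 : (fun x : ι → ℝ => x + a) ⁻¹' cube a = cube 0 := by
    ext x
    simp only [cube, Set.mem_preimage, Set.mem_ofPred_eq, Set.mem_Ioc, Pi.add_apply, Pi.zero_apply]
    constructor
    · intro h i
      have := h i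
      constructor <;> linarith [this.1, this.2]
    · intro h i
      have := h i
      constructor <;> linarith [this.1, this.2]
  rw [h4] at h3
  rw [h3, cube_indep hp]

/-- uniqueness of Fourier coefficients -/
theorem fourier_uniq {h : (ι → ℝ) → ℂ} (hc : Continuous h)
    (hp : ∀ j x, h (x + Pi.single j 1) = h x)
    (h0 : ∀ k : ι → ℤ, ∫ x in cube (0 : ι → ℝ),
      cexp (-(2 * Real.pi * I * ∑ i, (k i : ℂ) * (x i : ℂ))) * h x = 0) : h = 0 := by
  obtain ⟨g, hg⟩ := exists_descent hp
  have hq : IsOpenQuotientMap (Pi.map fun (_ : ι) (t : ℝ) => (t : UnitAddCircle)) :=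
    IsOpenQuotientMap.piMap fun _ => QuotientAddGroup.isOpenQuotientMap_mk
  have hgc : Continuous g := by
    rw [hq.isQuotientMap.continuous_iff]
    have : g ∘ (Pi.map fun (_ : ι) (t : ℝ) => (t : UnitAddCircle)) = h := by
      funext x; exact hg x
    rw [this]; exact hc
  have hz : UnitAddTorus.mFourierCoeff (⟨g, hgc⟩ : C(UnitAddTorus ι, ℂ)) = 0 := by
    funext k
    rw [UnitAddTorus.mFourierCoeff_eq_integral _ _ (0 : ι → ℝ)]
    have e : ∀ x : ι → ℝ, UnitAddTorus.mFourier (-k) (fun i => (x i : UnitAddCircle)) •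
        (⟨g, hgc⟩ : C(UnitAddTorus ι, ℂ)) (fun i => (x i : UnitAddCircle)) =
        cexp (-(2 * Real.pi * I * ∑ i, (k i : ℂ) * (x i : ℂ))) * h x := by
      intro x
      have e1 : (⟨g, hgc⟩ : C(UnitAddTorus ι, ℂ)) (fun i => (x i : UnitAddCircle)) = h x := hg x
      rw [e1, smul_eq_mul]
      congr 1
      show ∏ i, fourier ((-k) i) (x i : UnitAddCircle) = _
      simp only [fourier_coe_apply]
      rw [← Complex.exp_sum]
      congr 1
      rw [Finset.mul_sum, ← Finset.sum_neg_distrib]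
      refine Finset.sum_congr rfl fun i _ => ?_
      simp only [Pi.neg_apply, Int.cast_neg, Complex.ofReal_one, div_one]
      ring
    simp only [e]
    exact h0 k
  have hsum : Summable (UnitAddTorus.mFourierCoeff (⟨g, hgc⟩ : C(UnitAddTorus ι, ℂ))) := by
    rw [hz]; exact summable_zero
  funext x
  have h5 := UnitAddTorus.hasSum_mFourier_series_apply_of_summable hsum
    (fun i => (x i : UnitAddCircle))
  rw [hz] at h5
  simp only [Pi.zero_apply, zero_smul] at h5
  have h6 := h5.unique hasSum_zero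
  have h7 : g (fun i => (x i : UnitAddCircle)) = 0 := h6
  rw [hg] at h7
  exact h7


/-! ### constancy of integrals over the cube -/

/-- the closed unit cube -/
def ccube : Set (ι → ℝ) := Set.pi Set.univ fun _ => Set.Icc (0 : ℝ) 1

theorem ccube_compact : IsCompact (ccube : Set (ι → ℝ)) :=
  isCompact_univ_pi fun _ => isCompact_Icc

theorem cube_sub : cube (0 : ι → ℝ) ⊆ ccube := by
  intro x hx i _
  have := hx i
  simp only [Pi.zero_apply, zero_add] at this
  exact ⟨this.1.le, this.2⟩

theorem cube_vol : volume (cube (0 : ι → ℝ)) < ⊤ :=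
  lt_of_le_of_lt (measure_mono cube_sub) ccube_compact.measure_lt_top

theorem integrableOn_cube {f : (ι → ℝ) → ℂ} (hf : Continuous f) :
    IntegrableOn f (cube (0 : ι → ℝ)) :=
  (hf.continuousOn.integrableOn_compact ccube_compact).mono_set cube_sub

theorem diff_param {H : (ι → ℂ) → ℂ} (hH : Differentiable ℂ H) (u v : ι → ℂ) :
    Differentiable ℂ (fun s : ℂ => ∫ x in cube (0 : ι → ℝ), H (rc x + u + s • v)) := by
  intro s₀
  have hc1 : ContDiff ℂ 1 H := DRB.Osgood.contDiff_nat 1 hH
  have hcf : Continuous (fderiv ℂ H) := hc1.continuous_fderiv (by norm_num)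
  have hm : Continuous (fun p : (ι → ℝ) × ℂ => rc p.1 + u + p.2 • v) :=
    ((continuous_rc.comp continuous_fst).add continuous_const).add
      (continuous_snd.smul continuous_const)
  have hF' : Continuous (fun p : (ι → ℝ) × ℂ => fderiv ℂ H (rc p.1 + u + p.2 • v) v) :=
    (hcf.comp hm).clm_apply continuous_const
  have hK : IsCompact ((ccube : Set (ι → ℝ)) ×ˢ Metric.closedBall s₀ 1) :=
    ccube_compact.prod (isCompact_closedBall s₀ 1)
  obtain ⟨C, hC⟩ := hK.exists_bound_of_continuousOn hF'.continuousOn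
  haveI : IsFiniteMeasure (volume.restrict (cube (0 : ι → ℝ))) :=
    ⟨by rw [Measure.restrict_apply_univ]; exact cube_vol⟩
  have key := hasDerivAt_integral_of_dominated_loc_of_deriv_le
    (μ := volume.restrict (cube (0 : ι → ℝ))) (F := fun (s : ℂ) (x : ι → ℝ) => H (rc x + u + s • v))
    (F' := fun (s : ℂ) (x : ι → ℝ) => fderiv ℂ H (rc x + u + s • v) v) (x₀ := s₀)
    (s := Metric.ball s₀ 1) (bound := fun _ => C) (Metric.ball_mem_nhds s₀ one_pos)
    (Filter.Eventually.of_forall fun s => by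
      have : Continuous (fun x : ι → ℝ => H (rc x + u + s • v)) :=
        hH.continuous.comp (hm.comp (continuous_id.prodMk continuous_const))
      exact this.aestronglyMeasurable)
    (by
      have : Continuous (fun x : ι → ℝ => H (rc x + u + s₀ • v)) :=
        hH.continuous.comp (hm.comp (continuous_id.prodMk continuous_const))
      exact integrableOn_cube this)
    (by
      have : Continuous (fun x : ι → ℝ => fderiv ℂ H (rc x + u + s₀ • v) v) :=
        hF'.comp (continuous_id.prodMk continuous_const)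
      exact this.aestronglyMeasurable)
    (by
      refine (ae_restrict_iff' (cube_meas _)).2 (Filter.Eventually.of_forall fun x hx s hs => ?_)
      exact hC (x, s) ⟨cube_sub hx, Metric.ball_subset_closedBall hs⟩)
    (integrable_const C)
    (Filter.Eventually.of_forall fun x s _ => DRB.Osgood.hasDerivAt_line hH (rc x + u) v s)
  exact key.2.differentiableAt

theorem cube_const {H : (ι → ℂ) → ℂ} (hH : Differentiable ℂ H)
    (hp : ∀ j z, H (z + Pi.single j 1) = H z) (u : ι → ℂ) :
    ∫ x in cube (0 : ι → ℝ), H (rc x + u) = ∫ x in cube (0 : ι → ℝ), H (rc x) := by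
  -- real translations
  have hreal : ∀ (w : ι → ℂ) (a : ι → ℝ), ∫ x in cube (0 : ι → ℝ), H (rc x + rc a + w) =
      ∫ x in cube (0 : ι → ℝ), H (rc x + w) := by
    intro w a
    have := cube_trans (h := fun x => H (rc x + w)) (fun j x => by
      simp only [rc_add, rc_single]
      rw [show rc x + Pi.single j 1 + w = rc x + w + Pi.single j 1 by
        rw [add_assoc, add_assoc, add_comm w]]
      exact hp j _) a
    simp only [rc_add] at this
    exact this
  set r : ι → ℝ := fun i => (u i).re with hr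
  set y : ι → ℝ := fun i => (u i).im with hy
  have hu : u = rc r + I • rc y := by
    funext i
    simp only [rc, hr, hy, Pi.add_apply, Pi.smul_apply, smul_eq_mul]
    rw [mul_comm]
    exact (Complex.re_add_im (u i)).symm
  have hd := diff_param hH 0 (rc y)
  have hφ : ∀ ρ : ℝ, (fun s : ℂ => ∫ x in cube (0 : ι → ℝ), H (rc x + 0 + s • rc y)) (ρ : ℂ) =
      ∫ x in cube (0 : ι → ℝ), H (rc x) := by
    intro ρ
    have := hreal 0 (ρ • y)
    simp only [add_zero, rc_smul] at this ⊢
    exact this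
  have hconst : ∀ s : ℂ, (fun s : ℂ => ∫ x in cube (0 : ι → ℝ), H (rc x + 0 + s • rc y)) s =
      ∫ x in cube (0 : ι → ℝ), H (rc x) := by
    have ha : AnalyticOnNhd ℂ (fun s : ℂ => ∫ x in cube (0 : ι → ℝ), H (rc x + 0 + s • rc y))
        Set.univ := hd.differentiableOn.analyticOnNhd isOpen_univ
    have hb : AnalyticOnNhd ℂ (fun _ : ℂ => ∫ x in cube (0 : ι → ℝ), H (rc x)) Set.univ :=
      analyticOnNhd_const
    have hf : ∃ᶠ s in 𝓝[≠] (0 : ℂ), (fun s : ℂ => ∫ x in cube (0 : ι → ℝ),
        H (rc x + 0 + s • rc y)) s = (fun _ : ℂ => ∫ x in cube (0 : ι → ℝ), H (rc x)) s := by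
      have h1 : Filter.Tendsto (fun n : ℕ => (((1 : ℝ) / ((n : ℝ) + 1) : ℝ) : ℂ)) Filter.atTop
          (𝓝[≠] (0 : ℂ)) := by
        rw [tendsto_nhdsWithin_iff]
        constructor
        · have := (Complex.continuous_ofReal.tendsto 0).comp
            (tendsto_one_div_add_atTop_nhds_zero_nat (𝕜 := ℝ))
          rw [Complex.ofReal_zero] at this
          exact this
        · refine Filter.Eventually.of_forall fun n => ?_
          simp only [Set.mem_compl_iff, Set.mem_singleton_iff]
          have : (0 : ℝ) < 1 / ((n : ℝ) + 1) := by positivity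
          exact_mod_cast this.ne'
      exact h1.frequently (Filter.Frequently.of_forall fun n => hφ _)
    intro s
    exact congrFun (ha.eq_of_frequently_eq hb hf) s
  have h2 := hconst I
  have h3 := hreal (I • rc y) r
  simp only [add_zero] at h2
  rw [← h2, ← h3, hu]
  simp only [add_assoc]

/-! ### periodic entire functions with multipliers -/

/-- the character exp(-2 pi i k.t) -/
def chi (k : ι → ℤ) (t : ι → ℂ) : ℂ := cexp (-(2 * Real.pi * I * ∑ i, (k i : ℂ) * t i))

theorem chi_add (k : ι → ℤ) (t u : ι → ℂ) : chi k (t + u) = chi k t * chi k u := by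
  unfold chi
  rw [← Complex.exp_add]
  congr 1
  simp only [Pi.add_apply, mul_add, Finset.sum_add_distrib]
  ring

theorem chi_ne (k : ι → ℤ) (t : ι → ℂ) : chi k t ≠ 0 := Complex.exp_ne_zero _

theorem chi_single (k : ι → ℤ) (j : ι) : chi k (Pi.single j 1) = 1 := by
  unfold chi
  have h1 : ∑ i, (k i : ℂ) * (Pi.single (M := fun _ => ℂ) j 1) i = k j := by
    rw [Finset.sum_eq_single j]
    · simp
    · intro i _ hi
      simp [hi]
    · simp
  rw [h1, Complex.exp_eq_one_iff]
  exact ⟨-k j, by push_cast; ring⟩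

theorem chi_diff (k : ι → ℤ) : Differentiable ℂ (chi k) := by
  unfold chi; fun_prop

theorem chi_shift (k : ι → ℤ) (j : ι) (t : ι → ℂ) :
    chi k t * cexp (2 * Real.pi * I * t j) = chi (k - Pi.single j 1) t := by
  unfold chi
  rw [← Complex.exp_add]
  congr 1
  have h1 : ∑ i, (((k - Pi.single j 1 : ι → ℤ) i : ℤ) : ℂ) * t i =
      ∑ i, (k i : ℂ) * t i - t j := by
    have h2 : ∀ i, (((k - Pi.single j 1 : ι → ℤ) i : ℤ) : ℂ) * t i =
        (k i : ℂ) * t i - (Pi.single (M := fun _ => ℂ) j 1) i * t i := by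
      intro i
      by_cases h : i = j
      · subst h; simp; ring
      · simp [h]
    rw [Finset.sum_congr rfl fun i _ => h2 i, Finset.sum_sub_distrib]
    congr 1
    rw [Finset.sum_eq_single j]
    · simp
    · intro i _ hi
      simp [hi]
    · simp
  rw [h1]; ring

/-- Fourier coefficient -/
def fc (G : (ι → ℂ) → ℂ) (k : ι → ℤ) : ℂ :=
  ∫ x in cube (0 : ι → ℝ), chi k (rc x) * G (rc x)

theorem fc_shift {G : (ι → ℂ) → ℂ} (hG : Differentiable ℂ G)
    (hp : ∀ j z, G (z + Pi.single j 1) = G z) (k : ι → ℤ) (u : ι → ℂ) :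
    ∫ x in cube (0 : ι → ℝ), chi k (rc x) * G (rc x + u) = (chi k u)⁻¹ * fc G k := by
  have h1 := cube_const (H := fun t => chi k t * G t) ((chi_diff k).mul hG) (fun j z => by
    simp only [chi_add, chi_single, mul_one, hp]) u
  simp only [chi_add] at h1
  unfold fc
  rw [← h1, ← integral_const_mul]
  congr 1
  funext x
  have := chi_ne k u
  field_simp

theorem fc_rec {G : (ι → ℂ) → ℂ} (hG : Differentiable ℂ G)
    (hp : ∀ j z, G (z + Pi.single j 1) = G z) {j : ι} {τ : ι → ℂ} {c : ℂ} (hc : c ≠ 0)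
    (hq : ∀ z, G (z + τ) = cexp (2 * Real.pi * I * z j) * c * G z) (k : ι → ℤ) :
    fc G (k - Pi.single j 1) = 0 ↔ fc G k = 0 := by
  have h1 := fc_shift hG hp k τ
  have h2 : ∫ x in cube (0 : ι → ℝ), chi k (rc x) * G (rc x + τ) =
      c * fc G (k - Pi.single j 1) := by
    unfold fc
    rw [← integral_const_mul]
    congr 1
    funext x
    rw [hq, ← chi_shift]
    ring
  rw [h2] at h1
  constructor
  · intro h
    rw [h, mul_zero] at h1
    rcases mul_eq_zero.1 h1.symm with h3 | h3
    · exact absurd h3 (inv_ne_zero (chi_ne _ _))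
    · exact h3
  · intro h
    rw [h, mul_zero] at h1
    rcases mul_eq_zero.1 h1 with h3 | h3
    · exact absurd h3 hc
    · exact h3

theorem eq_zero_of_fc {G : (ι → ℂ) → ℂ} (hG : Differentiable ℂ G)
    (hp : ∀ j z, G (z + Pi.single j 1) = G z) {τ : ι → ι → ℂ} {c : ι → ℂ} (hc : ∀ j, c j ≠ 0)
    (hq : ∀ j z, G (z + τ j) = cexp (2 * Real.pi * I * z j) * c j * G z) (h0 : fc G 0 = 0) :
    G = 0 := by
  have hall : ∀ k, fc G k = 0 := by
    let S : AddSubgroup (ι → ℤ) :=
      { carrier := {v | ∀ k, fc G (k + v) = 0 ↔ fc G k = 0}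
        zero_mem' := fun k => by rw [add_zero]
        add_mem' := by
          intro a b ha hb k
          rw [← add_assoc, hb, ha]
        neg_mem' := by
          intro a ha k
          have := ha (k + -a)
          rw [neg_add_cancel_right] at this
          exact this.symm }
    have h1 : ∀ k : ι → ℤ, (∑ j, k j • (Pi.single j 1 : ι → ℤ)) ∈ S := fun k =>
      S.sum_mem fun j _ => S.zsmul_mem (fun k' => by
        have := fc_rec hG hp (hc j) (hq j) (k' + Pi.single j 1)
        rw [add_sub_cancel_right] at this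
        exact this.symm) _
    intro k
    have h2 : (∑ j, k j • (Pi.single j 1 : ι → ℤ)) = k := by
      funext i
      rw [Finset.sum_apply, Finset.sum_eq_single i]
      · simp
      · intro j _ hj
        simp [hj.symm]
      · simp
    have h3 := h1 k
    rw [h2] at h3
    have h4 := h3 0
    rw [zero_add] at h4
    exact h4.2 h0
  funext t
  have h1 := fourier_uniq (h := fun x => G (rc x + t))
    (hG.continuous.comp (continuous_rc.add continuous_const)) (fun j x => by
      simp only [rc_add, rc_single]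
      rw [add_right_comm]
      exact hp j _) (fun k => by
      have h2 := fc_shift hG hp k t
      rw [hall k, mul_zero] at h2
      exact h2)
  have h2 := congrFun h1 0
  simpa [rc_zero] using h2

/-! ### reduction to periodic functions -/

section red

variable {V : Type} [AddCommGroup V] [Module ℚ V] {e : V →ₗ[ℚ] V →ₗ[ℚ] ℚ}
  {B : Module.Basis (ι ⊕ ι) ℚ V} {ζ L : V →ₗ[ℚ] (ι → ℂ)}

/-- the bilinear form of a matrix -/
def S (M : ι → ι → ℂ) (t u : ι → ℂ) : ℂ := ∑ j, t j * ∑ k, u k * M j k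

theorem S_add_left (M : ι → ι → ℂ) (t t' u : ι → ℂ) : S M (t + t') u = S M t u + S M t' u := by
  simp only [S, Pi.add_apply, add_mul, Finset.sum_add_distrib]

theorem S_add_right (M : ι → ι → ℂ) (t u u' : ι → ℂ) : S M t (u + u') = S M t u + S M t u' := by
  simp only [S, Pi.add_apply, add_mul, Finset.sum_add_distrib, mul_add]

theorem S_smul_left (M : ι → ι → ℂ) (a : ℂ) (t u : ι → ℂ) : S M (a • t) u = a * S M t u := by
  simp only [S, Pi.smul_apply, smul_eq_mul, Finset.mul_sum]
  exact Finset.sum_congr rfl fun i _ => Finset.sum_congr rfl fun j _ => by ring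

theorem S_smul_right (M : ι → ι → ℂ) (a : ℂ) (t u : ι → ℂ) : S M t (a • u) = a * S M t u := by
  simp only [S, Pi.smul_apply, smul_eq_mul, Finset.mul_sum]
  exact Finset.sum_congr rfl fun i _ => Finset.sum_congr rfl fun j _ => by ring

theorem S_symm {M : ι → ι → ℂ} (hM : ∀ j k, M j k = M k j) (t u : ι → ℂ) :
    S M t u = S M u t := by
  simp only [S, Finset.mul_sum]
  rw [Finset.sum_comm]
  exact Finset.sum_congr rfl fun i _ => Finset.sum_congr rfl fun j _ => by rw [hM j i]; ring

/-- matrix of L(b_j) zeta(b_k) -/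
def Mb (B : Module.Basis (ι ⊕ ι) ℚ V) (ζ L : V →ₗ[ℚ] (ι → ℂ)) (j k : ι) : ℂ :=
  dotp (L (B (Sum.inr j))) (ζ (B (Sum.inr k)))

/-- coordinates with respect to zeta(b_j) -/
def Wl (B : Module.Basis (ι ⊕ ι) ℚ V) (ζ : V →ₗ[ℚ] (ι → ℂ)) : (ι → ℂ) →ₗ[ℂ] (ι → ℂ) :=
  Fintype.linearCombination ℂ (fun j => ζ (B (Sum.inr j)))

theorem Wl_apply (t : ι → ℂ) : Wl B ζ t = ∑ j, t j • ζ (B (Sum.inr j)) := by
  simp [Wl, Fintype.linearCombination_apply]

theorem dotp_sum_right {κ : Type} (s : Finset κ) (a : ι → ℂ) (f : κ → ι → ℂ) :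
    dotp a (∑ k ∈ s, f k) = ∑ k ∈ s, dotp a (f k) := by
  classical
  induction s using Finset.induction_on with
  | empty => simp [dotp]
  | insert a s ha ih => rw [Finset.sum_insert ha, Finset.sum_insert ha, dotp_add_right, ih]

theorem dotp_Wl (a t : ι → ℂ) : dotp a (Wl B ζ t) = ∑ k, t k * dotp a (ζ (B (Sum.inr k))) := by
  rw [Wl_apply, dotp_sum_right]
  exact Finset.sum_congr rfl fun k _ => dotp_smul_right _ _ _

theorem S_Wl (t u : ι → ℂ) :
    S (Mb B ζ L) t u = ∑ j, t j * dotp (L (B (Sum.inr j))) (Wl B ζ u) := by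
  simp only [S, dotp_Wl, Mb]

theorem Mb_symm (hB : SympBasis e B) (h : IsPStr e B ζ L) (j k : ι) :
    Mb B ζ L j k = Mb B ζ L k j := by
  have := h.rel (B (Sum.inr j)) (B (Sum.inr k))
  rw [hB.rr] at this
  unfold Mb
  simp only [Rat.cast_zero, mul_zero] at this
  linear_combination this

theorem pos_b (h : IsPStr e B ζ L) (r : ι → ℝ) (hr : r ≠ 0) :
    0 < (S (Mb B ζ L) (rc r) (rc r)).re := by
  have h1 := h.pos (Sum.elim 0 r) (by
    intro h0
    apply hr
    funext i
    have := congrFun h0 (Sum.inr i)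
    simpa using this)
  have h2 : ∑ j, ∑ k, ((Sum.elim 0 r : ι ⊕ ι → ℝ) j : ℂ) * ((Sum.elim 0 r : ι ⊕ ι → ℝ) k : ℂ) *
      dotp (L (B j)) (ζ (B k)) = S (Mb B ζ L) (rc r) (rc r) := by
    rw [Fintype.sum_sum_type]
    simp only [Sum.elim_inl, Pi.zero_apply, Complex.ofReal_zero, zero_mul, Finset.sum_const_zero,
      zero_add, Sum.elim_inr]
    unfold S Mb rc
    refine Finset.sum_congr rfl fun j _ => ?_
    rw [Fintype.sum_sum_type]
    simp only [Sum.elim_inl, Pi.zero_apply, Complex.ofReal_zero, zero_mul, mul_zero,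
      Finset.sum_const_zero, zero_add, Sum.elim_inr, Finset.mul_sum]
    exact Finset.sum_congr rfl fun k _ => by ring
  rw [h2] at h1
  exact h1

theorem Wl_inj (hB : SympBasis e B) (h : IsPStr e B ζ L) : Function.Injective (Wl B ζ) := by
  rw [← LinearMap.ker_eq_bot, LinearMap.ker_eq_bot']
  intro t ht
  have hS : ∀ u, S (Mb B ζ L) u t = 0 := by
    intro u
    rw [S_Wl, ht]
    simp [dotp_zero_right]
  obtain ⟨α, hα⟩ : ∃ α : ι → ℝ, α = fun i => (t i).re := ⟨_, rfl⟩
  obtain ⟨β, hβ⟩ : ∃ β : ι → ℝ, β = fun i => (t i).im := ⟨_, rfl⟩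
  have hu : t = rc α + I • rc β := by
    funext i
    simp only [rc, hα, hβ, Pi.add_apply, Pi.smul_apply, smul_eq_mul]
    rw [mul_comm]
    exact (Complex.re_add_im (t i)).symm
  have e1 := hS (rc α)
  have e2 := hS (rc β)
  rw [hu, S_add_right, S_smul_right] at e1 e2
  rw [S_symm (Mb_symm hB h) (rc β) (rc α)] at e2
  have e3 : S (Mb B ζ L) (rc α) (rc α) + S (Mb B ζ L) (rc β) (rc β) = 0 := by
    have hI : I * I = -1 := Complex.I_mul_I
    linear_combination e1 - I * e2 + S (Mb B ζ L) (rc β) (rc β) * hI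
  have e4 := congrArg Complex.re e3
  rw [Complex.add_re, Complex.zero_re] at e4
  have hnn : ∀ r : ι → ℝ, 0 ≤ (S (Mb B ζ L) (rc r) (rc r)).re := by
    intro r
    by_cases hr : r = 0
    · subst hr
      rw [rc_zero]; simp [S]
    · exact (pos_b h r hr).le
  have hα0 : α = 0 := by
    by_contra h0
    have := pos_b h α h0
    linarith [hnn β]
  have hβ0 : β = 0 := by
    by_contra h0
    have := pos_b h β h0
    linarith [hnn α]
  rw [hu, hα0, hβ0, rc_zero]
  simp

theorem Wl_surj (hB : SympBasis e B) (h : IsPStr e B ζ L) : Function.Surjective (Wl B ζ) :=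
  LinearMap.injective_iff_surjective.1 (Wl_inj hB h)

/-- the periodic function -/
def Gf (B : Module.Basis (ι ⊕ ι) ℚ V) (ζ L : V →ₗ[ℚ] (ι → ℂ)) (F : (ι → ℂ) → ℂ) (t : ι → ℂ) : ℂ :=
  cexp (-(S (Mb B ζ L) t t / 2)) * F (Wl B ζ t)

theorem Gf_diff {F : (ι → ℂ) → ℂ} (hF : Differentiable ℂ F) :
    Differentiable ℂ (Gf B ζ L F) := by
  unfold Gf
  have h1 : Differentiable ℂ (fun t : ι → ℂ => -(S (Mb B ζ L) t t / 2)) := by
    unfold S; fun_prop
  have h2 : Differentiable ℂ (fun t : ι → ℂ => Wl B ζ t) := by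
    simp only [Wl_apply]; fun_prop
  exact h1.cexp.mul (hF.comp h2)

theorem Gf_shift (hB : SympBasis e B) (h : IsPStr e B ζ L) {F : (ι → ℂ) → ℂ} {x : V} {u : ι → ℂ}
    (hu : Wl B ζ u = ζ x) (hF : TT ζ L x F = F) (t : ι → ℂ) :
    Gf B ζ L F (t + u) = cexp (-(S (Mb B ζ L) t u) + dotp (L x) (Wl B ζ t)) *
      cexp (-(S (Mb B ζ L) u u / 2) + dotp (L x) (ζ x) / 2) * Gf B ζ L F t := by
  have h1 := congrFun hF (Wl B ζ t)
  unfold TT at h1
  have h2 : F (Wl B ζ t + ζ x) = cexp (dotp (L x) (Wl B ζ t) + dotp (L x) (ζ x) / 2) *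
      F (Wl B ζ t) := by
    rw [← h1, ← mul_assoc, ← Complex.exp_add]
    rw [show dotp (L x) (Wl B ζ t) + dotp (L x) (ζ x) / 2 + (-dotp (L x) (Wl B ζ t) -
      dotp (L x) (ζ x) / 2) = 0 by ring, Complex.exp_zero, one_mul]
  unfold Gf
  rw [map_add, hu, h2, ← mul_assoc, ← mul_assoc, ← Complex.exp_add, ← Complex.exp_add,
    ← Complex.exp_add]
  congr 2
  rw [S_add_left, S_add_right, S_add_right, S_symm (Mb_symm hB h) u t]
  ring

theorem Wl_single (j : ι) : Wl B ζ (Pi.single j 1) = ζ (B (Sum.inr j)) := by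
  rw [Wl_apply, Finset.sum_eq_single j]
  · simp
  · intro i _ hi
    simp [hi]
  · simp

theorem Gf_per (hB : SympBasis e B) (h : IsPStr e B ζ L) {F : (ι → ℂ) → ℂ} (hF : IsTh ζ L B F)
    (j : ι) (t : ι → ℂ) : Gf B ζ L F (t + Pi.single j 1) = Gf B ζ L F t := by
  rw [Gf_shift hB h (Wl_single j) (hF.per _)]
  have h1 : S (Mb B ζ L) t (Pi.single j 1) = dotp (L (B (Sum.inr j))) (Wl B ζ t) := by
    rw [S_symm (Mb_symm hB h), S_Wl, Finset.sum_eq_single j]
    · simp
    · intro i _ hi
      simp [hi]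
    · simp
  have h2 : S (Mb B ζ L) (Pi.single j 1) (Pi.single j 1) =
      dotp (L (B (Sum.inr j))) (ζ (B (Sum.inr j))) := by
    rw [S_Wl, Wl_single, Finset.sum_eq_single j]
    · simp
    · intro i _ hi
      simp [hi]
    · simp
  rw [h1, h2, neg_add_cancel, neg_add_cancel, Complex.exp_zero]
  ring

theorem Gf_mul (hB : SympBasis e B) (h : IsPStr e B ζ L) {F : (ι → ℂ) → ℂ} (hF : IsTh ζ L B F)
    (j : ι) {τ : ι → ℂ} (hτ : Wl B ζ τ = ζ (B (Sum.inl j))) (t : ι → ℂ) :
    Gf B ζ L F (t + τ) = cexp (2 * Real.pi * I * t j) *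
      cexp (-(S (Mb B ζ L) τ τ / 2) + dotp (L (B (Sum.inl j))) (ζ (B (Sum.inl j))) / 2) *
      Gf B ζ L F t := by
  rw [Gf_shift hB h hτ (hF.per _)]
  congr 3
  rw [S_Wl, hτ, dotp_Wl, neg_add_eq_sub, ← Finset.sum_sub_distrib]
  rw [Finset.sum_eq_single j]
  · have := h.rel (B (Sum.inl j)) (B (Sum.inr j))
    rw [hB.lr, if_pos rfl] at this
    simp only [Rat.cast_one, mul_one] at this
    linear_combination t j * this
  · intro k _ hk
    have := h.rel (B (Sum.inl j)) (B (Sum.inr k))
    rw [hB.lr, if_neg hk.symm] at this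
    simp only [Rat.cast_zero, mul_zero] at this
    linear_combination t k * this
  · simp

theorem eq_zero_of_coeff (hB : SympBasis e B) (h : IsPStr e B ζ L) {F : (ι → ℂ) → ℂ}
    (hF : IsTh ζ L B F) (h0 : fc (Gf B ζ L F) 0 = 0) : F = 0 := by
  choose τ hτ using fun j => Wl_surj hB h (ζ (B (Sum.inl j)))
  have h1 : Gf B ζ L F = 0 := eq_zero_of_fc (Gf_diff hF.entire) (Gf_per hB h hF)
    (fun j => Complex.exp_ne_zero _) (fun j z => Gf_mul hB h hF j (hτ j) z) h0
  funext z
  obtain ⟨t, rfl⟩ := Wl_surj hB h z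
  have h2 := congrFun h1 t
  unfold Gf at h2
  rcases mul_eq_zero.1 h2 with h3 | h3
  · exact absurd h3 (Complex.exp_ne_zero _)
  · exact h3

end red

end THU_

open THU_ in
theorem thu_proof : Stmt_THU := by
  intro V _ _ ι _ _ e B ζ L hB h F F' hF hF' hne
  have h1 : fc (Gf B ζ L F) 0 ≠ 0 := fun h0 => hne (eq_zero_of_coeff hB h hF h0)
  refine ⟨fc (Gf B ζ L F') 0 / fc (Gf B ζ L F) 0, ?_⟩
  set a := fc (Gf B ζ L F') 0 / fc (Gf B ζ L F) 0 with ha
  have hG : IsTh ζ L B (fun z => F' z + (-a) * F z) := by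
    refine ⟨hF'.entire.add (hF.entire.const_mul (-a)), fun j => ?_⟩
    funext z
    have e1 := TT_add (ζ := ζ) (L := L) (B j) F' (fun z => -a * F z) z
    rw [TT_smul, hF'.per, hF.per] at e1
    exact e1
  have h2 : fc (Gf B ζ L (fun z => F' z + (-a) * F z)) 0 = 0 := by
    have e1 : ∀ x : ι → ℝ, chi 0 (rc x) * Gf B ζ L (fun z => F' z + (-a) * F z) (rc x) =
        chi 0 (rc x) * Gf B ζ L F' (rc x) + (-a) * (chi 0 (rc x) * Gf B ζ L F (rc x)) := by
      intro x
      unfold Gf; ring
    have c1 : ∀ F'' : (ι → ℂ) → ℂ, Differentiable ℂ F'' →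
        Continuous (fun x : ι → ℝ => chi 0 (rc x) * Gf B ζ L F'' (rc x)) := fun F'' hd =>
      ((chi_diff 0).continuous.comp continuous_rc).mul
        ((Gf_diff hd).continuous.comp continuous_rc)
    have e2 : fc (Gf B ζ L (fun z => F' z + (-a) * F z)) 0 =
        fc (Gf B ζ L F') 0 + (-a) * fc (Gf B ζ L F) 0 := by
      unfold fc
      simp only [e1]
      rw [integral_add (integrableOn_cube (c1 F' hF'.entire))
        ((integrableOn_cube (c1 F hF.entire)).const_mul (-a)), integral_const_mul]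
    rw [e2, ha]
    field_simp
    ring
  have h3 := eq_zero_of_coeff hB h hG h2
  funext z
  have h4 := congrFun h3 z
  simp only [Pi.zero_apply] at h4
  linear_combination h4

end

end Pool.Agent.SPF
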