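import Pool.Agent.SPF.StmtsE

set_option linter.unusedSectionVars false

/-!
# SPR, module TWI: transport of the property `S` along isomorphisms, twist by an automorphism
-/

open scoped BigOperators
open Complex

namespace Pool.Agent.SPF

namespace TWI_

section

variable {V V' ι ι' : Type} [AddCommGroup V] [Module ℚ V] [AddCommGroup V'] [Module ℚ V']
  [Fintype ι] [DecidableEq ι] [Fintype ι'] [DecidableEq ι'] (G : V ≃ₗ[ℚ] V') (f : ι ≃ ι')

/-- The transported linear forms. -/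
noncomputable def Lt (L : V →ₗ[ℚ] (ι → ℂ)) : V' →ₗ[ℚ] (ι' → ℂ) where
  toFun := fun y i => L (G.symm y) (f.symm i)
  map_add' := by
    intro x y
    funext i
    simp
  map_smul' := by
    intro r x
    funext i
    simp

/-- The relabelling of the coordinates. -/
noncomputable def rc : (ι' → ℂ) ≃L[ℂ] (ι → ℂ) :=
  (LinearEquiv.funCongrLeft ℂ ℂ f).toContinuousLinearEquiv

omit [DecidableEq ι] [DecidableEq ι'] in
lemma rc_apply (z : ι' → ℂ) (i : ι) : rc f z i = z (f i) := rfl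

lemma rc_single (i : ι) : rc f (Pi.single (f i) (1 : ℂ)) = Pi.single i (1 : ℂ) := by
  funext j
  rw [rc_apply]
  by_cases h : j = i
  · rw [h]
    simp
  · rw [Pi.single_eq_of_ne h, Pi.single_eq_of_ne (fun h' => h (f.injective h'))]

omit [DecidableEq ι] [DecidableEq ι'] in
lemma dotp_eq (a : ι → ℂ) (a' z' : ι' → ℂ) (h : ∀ i, a' (f i) = a i) :
    dotp a' z' = dotp a (rc f z') := by
  unfold dotp
  rw [← f.sum_comp]
  refine Finset.sum_congr rfl fun i _ => ?_
  rw [h, rc_apply]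

omit [DecidableEq ι] [DecidableEq ι'] in
lemma Lt_apply (L : V →ₗ[ℚ] (ι → ℂ)) (x : V) (i : ι) : Lt G f L (G x) (f i) = L x i := by
  show L (G.symm (G x)) (f.symm (f i)) = _
  simp

omit [DecidableEq ι] [DecidableEq ι'] in
lemma TT_eq (ζ L : V →ₗ[ℚ] (ι → ℂ)) (ζ' : V' →ₗ[ℚ] (ι' → ℂ)) (hζ : ∀ x i, ζ' (G x) (f i) = ζ x i)
    (x : V) (F : (ι → ℂ) → ℂ) :
    TT ζ' (Lt G f L) (G x) (fun z => F (rc f z)) = fun z => TT ζ L x F (rc f z) := by
  funext z
  unfold TT
  rw [dotp_eq f (L x) (Lt G f L (G x)) z (Lt_apply G f L x),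
    dotp_eq f (L x) (Lt G f L (G x)) (ζ' (G x)) (Lt_apply G f L x)]
  have h1 : rc f (ζ' (G x)) = ζ x := by
    funext i
    rw [rc_apply, hζ]
  dsimp only
  rw [map_add, h1]

lemma pd_eq (H : (ι → ℂ) → ℂ) (i : ι) (z : ι' → ℂ) :
    pd (f i) (fun z => H (rc f z)) z = pd i H (rc f z) := by
  unfold pd
  have h1 : fderiv ℂ (H ∘ (rc f)) z = (fderiv ℂ H (rc f z)).comp (rc f : (ι' → ℂ) →L[ℂ] (ι → ℂ)) :=
    (rc f).comp_right_fderiv
  have h2 : (fun z => H (rc f z)) = H ∘ (rc f) := rfl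
  rw [h2, h1]
  show fderiv ℂ H (rc f z) (rc f (Pi.single (f i) 1)) = _
  rw [rc_single]

theorem transport (e : V →ₗ[ℚ] V →ₗ[ℚ] ℚ) (e' : V' →ₗ[ℚ] V' →ₗ[ℚ] ℚ)
    (ζ : V →ₗ[ℚ] (ι → ℂ)) (ζ' : V' →ₗ[ℚ] (ι' → ℂ)) (c : ι → ℂ) (c' : ι' → ℂ)
    (he : ∀ x y, e' (G x) (G y) = e x y) (hζ : ∀ x i, ζ' (G x) (f i) = ζ x i)
    (hc : ∀ i, c' (f i) = c i) (h : SS e ζ c) : SS e' ζ' c' := by
  obtain ⟨hc0, B, L, F, hB, hL, hF, hF0, κ, hκ, hS⟩ := h
  have hG : ∀ y, ∃ x, G x = y := G.surjective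
  have hfs : ∀ j, ∃ i, f i = j := f.surjective
  let B' : Module.Basis (ι' ⊕ ι') ℚ V' := (B.map G).reindex (f.sumCongr f)
  have hBl : ∀ i, B' (Sum.inl (f i)) = G (B (Sum.inl i)) := by
    intro i
    simp [B']
  have hBr : ∀ i, B' (Sum.inr (f i)) = G (B (Sum.inr i)) := by
    intro i
    simp [B']
  have hBj : ∀ j, B' (f.sumCongr f j) = G (B j) := by
    intro j
    rcases j with j | j
    · exact hBl j
    · exact hBr j
  have hζc : ∀ x, rc f (ζ' (G x)) = ζ x := by
    intro x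
    funext i
    rw [rc_apply, hζ]
  refine ⟨?_, B', Lt G f L, fun z => F (rc f z), ?_, ?_, ?_, ?_, κ, hκ, ?_⟩
  · intro j
    obtain ⟨i, rfl⟩ := hfs j
    rw [hc]
    exact hc0 i
  · refine ⟨?_, ?_, ?_, ?_⟩
    · intro y
      obtain ⟨x, rfl⟩ := hG y
      rw [he]
      exact hB.alt x
    · intro j k
      obtain ⟨j, rfl⟩ := hfs j
      obtain ⟨k, rfl⟩ := hfs k
      rw [hBl, hBl, he]
      exact hB.ll j k
    · intro j k
      obtain ⟨j, rfl⟩ := hfs j
      obtain ⟨k, rfl⟩ := hfs k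
      rw [hBr, hBr, he]
      exact hB.rr j k
    · intro j k
      obtain ⟨j, rfl⟩ := hfs j
      obtain ⟨k, rfl⟩ := hfs k
      rw [hBl, hBr, he, hB.lr j k]
      simp [f.injective.eq_iff]
  · refine ⟨?_, ?_⟩
    · intro x' y'
      obtain ⟨x, rfl⟩ := hG x'
      obtain ⟨y, rfl⟩ := hG y'
      rw [dotp_eq f (L x) _ _ (Lt_apply G f L x), dotp_eq f (L y) _ _ (Lt_apply G f L y),
        hζc, hζc, he]
      exact hL.rel x y
    · intro r hr
      have h1 := hL.pos (fun j => r (f.sumCongr f j)) (by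
        intro h2
        apply hr
        funext j
        obtain ⟨k, rfl⟩ := (f.sumCongr f).surjective j
        exact congrFun h2 k)
      have h3 : (∑ j, ∑ k, (r j : ℂ) * (r k : ℂ) * dotp (Lt G f L (B' j)) (ζ' (B' k))) =
          ∑ j, ∑ k, (r (f.sumCongr f j) : ℂ) * (r (f.sumCongr f k) : ℂ) *
            dotp (L (B j)) (ζ (B k)) := by
        rw [← (f.sumCongr f).sum_comp]
        refine Finset.sum_congr rfl fun j _ => ?_
        rw [← (f.sumCongr f).sum_comp]
        refine Finset.sum_congr rfl fun k _ => ?_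
        rw [hBj, hBj, dotp_eq f (L (B j)) _ _ (Lt_apply G f L (B j)), hζc]
      rw [h3]
      exact h1
  · refine ⟨?_, ?_⟩
    · exact hF.entire.comp (rc f).differentiable
    · intro j
      obtain ⟨k, rfl⟩ := (f.sumCongr f).surjective j
      rw [hBj, TT_eq G f ζ L ζ' hζ, hF.per k]
  · intro h0
    apply hF0
    funext z
    have h1 := congrFun h0 ((rc f).symm z)
    simp only [ContinuousLinearEquiv.apply_symm_apply] at h1
    exact h1
  · intro y
    obtain ⟨x, rfl⟩ := hG y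
    have h1 := hS x
    rw [TT_eq G f ζ L ζ' hζ]
    refine ⟨?_, ?_⟩
    · show Alg (TT ζ L x F (rc f 0) / κ)
      rw [map_zero]
      exact h1.1
    · intro j
      obtain ⟨i, rfl⟩ := hfs j
      rw [pd_eq, map_zero, hc]
      exact h1.2 i

end

end TWI_

theorem twi_proof : Stmt_TWI := by
  intro E _ _ K Φ Φ' ξ c g hg hΦ hS
  classical
  obtain ⟨hξ, hpos, hSS⟩ := hS
  have hmem : ∀ φ : E →+* ℂ, φ ∈ Φ → φ.comp (g.symm : E →+* E) ∈ Φ' := by
    intro φ hφ
    rw [hΦ]
    have : (φ.comp (g.symm : E →+* E)).comp (g : E →+* E) = φ := by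
      ext x
      simp
    rw [this]
    exact hφ
  refine ⟨?_, ?_, ?_⟩
  · rw [← hg, hξ, map_neg]
  · intro φ hφ
    exact hpos _ ((hΦ φ).mp hφ)
  · let G : E ≃ₗ[ℚ] E :=
      { g with
        map_smul' := by
          intro r x
          show g (r • x) = r • g x
          rw [Algebra.smul_def, Algebra.smul_def, map_mul]
          congr 1
          exact map_ratCast g r }
    have hG : ∀ x, G x = g x := fun x => rfl
    let f : {φ // φ ∈ Φ} ≃ {φ // φ ∈ Φ'} :=
      { toFun := fun φ => ⟨φ.1.comp (g.symm : E →+* E), hmem φ.1 φ.2⟩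
        invFun := fun φ => ⟨φ.1.comp (g : E →+* E), (hΦ φ.1).mp φ.2⟩
        left_inv := by
          intro φ
          apply Subtype.ext
          ext x
          simp
        right_inv := by
          intro φ
          apply Subtype.ext
          ext x
          simp }
    have hf : ∀ (φ : {φ // φ ∈ Φ}) (x : E), (f φ).1 (g x) = φ.1 x := by
      intro φ x
      show φ.1 (g.symm (g x)) = _
      rw [g.symm_apply_apply]
    refine TWI_.transport G f (K.e ξ) (K.e (g ξ)) _ _ _ _ ?_ ?_ ?_ hSS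
    · intro x y
      show Algebra.trace ℚ E (g ξ * g x * K.bar (g y)) = Algebra.trace ℚ E (ξ * x * K.bar y)
      rw [← hg, ← map_mul, ← map_mul]
      let ga : E ≃ₐ[ℚ] E := AlgEquiv.ofRingEquiv (f := g) (fun r => map_ratCast g r)
      exact Algebra.trace_eq_of_algEquiv ga _
    · intro x φ
      exact hf φ x
    · intro φ
      show c ((f φ).1.comp (g : E →+* E)) = c φ.1
      congr 1
      ext x
      exact hf φ x

end Pool.Agent.SPF
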