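import Pool.Agent.SPF.StmtsE

/-!
# The period table of a CM field containing `i` and `√-3`
-/

open Complex

namespace Pool.Agent.SPF

noncomputable section

open Classical in
/-- The period table. -/
def Stmt_TBL : Prop :=
  ∀ (E : Type) [Field E] [NumberField E] (K : CMF E), (∃ θ : E, θ ^ 2 = -1) →
    (∃ θ : E, θ ^ 2 = -3) →
    ∃ θ : Finset (E →+* ℂ) → (E →+* ℂ) → ℂ,
      (∀ Φ, IsType Φ → (∃ ξ, K.S ξ Φ (θ Φ)) ∧ ∀ φ, θ Φ φ ≠ 0 ∧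
        θ Φ φ * θ Φ (cj φ) = 2 * Real.pi * I) ∧
      (∀ Φ₁ Φ₂ Φ₃ Φ₄, IsType Φ₁ → IsType Φ₂ → IsType Φ₃ → IsType Φ₄ →
        (∀ φ, (if φ ∈ Φ₁ then 1 else 0) + (if φ ∈ Φ₂ then 1 else 0) =
          (if φ ∈ Φ₃ then 1 else 0) + (if φ ∈ Φ₄ then (1 : ℕ) else 0)) →
        ∀ φ, Alg (θ Φ₁ φ * θ Φ₂ φ / (θ Φ₃ φ * θ Φ₄ φ))) ∧
      ∀ (g : E ≃+* E) (Φ Φ' : Finset (E →+* ℂ)), IsType Φ → IsType Φ' →
        (∀ φ : E →+* ℂ, φ ∈ Φ' ↔ φ.comp (g : E →+* E) ∈ Φ) →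
        ∀ φ : E →+* ℂ, Alg (θ Φ' φ / θ Φ (φ.comp (g : E →+* E)))

namespace TBL_

variable {E : Type} [Field E] [NumberField E]

theorem cj_cj (φ : E →+* ℂ) : cj (cj φ) = φ := by
  ext x
  simp [cj]

theorem bar_comm (K : CMF E) (g : E ≃+* E) (x : E) : g (K.bar x) = K.bar (g x) := by
  -- choose an embedding
  obtain ⟨φ⟩ : Nonempty (E →+* ℂ) := inferInstance
  apply φ.injective
  have h1 := K.bar_spec (φ.comp (g : E →+* E)) x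
  have h2 := K.bar_spec φ (g x)
  rw [h2]
  exact h1

theorem comp_bar (K : CMF E) (φ : E →+* ℂ) : φ.comp (K.bar : E →+* E) = cj φ := by
  ext x
  exact K.bar_spec φ x

theorem cj_comp (g : E ≃+* E) (φ : E →+* ℂ) :
    cj (φ.comp (g : E →+* E)) = (cj φ).comp (g : E →+* E) := rfl

open Classical in
/-- the conjugate type -/
def bt (Φ : Finset (E →+* ℂ)) : Finset (E →+* ℂ) := Finset.univ.filter fun φ => φ ∉ Φ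

theorem mem_bt (Φ : Finset (E →+* ℂ)) (φ : E →+* ℂ) : φ ∈ bt Φ ↔ φ ∉ Φ := by
  simp [bt]

theorem isType_bt {Φ : Finset (E →+* ℂ)} (h : IsType Φ) : IsType (bt Φ) := by
  intro φ
  rw [mem_bt, mem_bt, not_not, h (cj φ), cj_cj]

end TBL_

open TBL_ in
theorem tbl_proof (h1 : Stmt_ALLT) (h2 : Stmt_R4) (h3 : Stmt_TWI) (h4 : Stmt_UNQ) : Stmt_TBL := by
  classical
  intro E _ _ K hi hw
  have hall : ∀ Φ : Finset (E →+* ℂ), ∃ c : (E →+* ℂ) → ℂ, IsType Φ → ∃ ξ, K.S ξ Φ c := by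
    intro Φ
    by_cases h : IsType Φ
    · obtain ⟨ξ, c, hS⟩ := h1 E K hi hw Φ h
      exact ⟨c, fun _ => ⟨ξ, hS⟩⟩
    · exact ⟨fun _ => 0, fun h' => absurd h' h⟩
  choose c hc using hall
  have h2pi : (2 * Real.pi * I : ℂ) ≠ 0 := Complex.two_pi_I_ne_zero
  have hne : ∀ Φ, IsType Φ → ∀ φ ∈ Φ, c Φ φ ≠ 0 := by
    intro Φ hΦ φ hφ
    obtain ⟨ξ, -, -, hS⟩ := hc Φ hΦ
    exact hS.1 ⟨φ, hφ⟩
  let θ : Finset (E →+* ℂ) → (E →+* ℂ) → ℂ := fun Φ φ =>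
    if φ ∈ Φ then c Φ φ else 2 * Real.pi * I / c Φ (cj φ)
  have θin : ∀ Φ φ, φ ∈ Φ → θ Φ φ = c Φ φ := fun Φ φ h => if_pos h
  have θout : ∀ Φ φ, φ ∉ Φ → θ Φ φ = 2 * Real.pi * I / c Φ (cj φ) := fun Φ φ h => if_neg h
  have hθS : ∀ Φ, IsType Φ → ∃ ξ, K.S ξ Φ (θ Φ) := by
    intro Φ hΦ
    obtain ⟨ξ, a, b, hS⟩ := hc Φ hΦ
    refine ⟨ξ, a, b, ?_⟩
    have e : (fun φ : {φ // φ ∈ Φ} => θ Φ φ) = fun φ : {φ // φ ∈ Φ} => c Φ φ := by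
      funext φ
      exact θin Φ φ φ.2
    rw [e]
    exact hS
  have hmul : ∀ Φ, IsType Φ → ∀ φ, θ Φ φ * θ Φ (cj φ) = 2 * Real.pi * I := by
    intro Φ hΦ φ
    by_cases h : φ ∈ Φ
    · have h' : cj φ ∉ Φ := (hΦ φ).1 h
      rw [θin _ _ h, θout _ _ h', cj_cj]
      exact mul_div_cancel₀ _ (hne Φ hΦ φ h)
    · have h' : cj φ ∈ Φ := by
        rw [hΦ (cj φ), cj_cj]
        exact h
      rw [θin _ _ h', θout _ _ h]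
      exact div_mul_cancel₀ _ (hne Φ hΦ _ h')
  have hθne : ∀ Φ, IsType Φ → ∀ φ, θ Φ φ ≠ 0 := by
    intro Φ hΦ φ h
    have := hmul Φ hΦ φ
    rw [h, zero_mul] at this
    exact h2pi this.symm
  -- twisted symbols
  have htw : ∀ (g : E ≃+* E) (Φ Φ' : Finset (E →+* ℂ)), IsType Φ →
      (∀ φ : E →+* ℂ, φ ∈ Φ' ↔ φ.comp (g : E →+* E) ∈ Φ) →
      ∃ ξ, K.S ξ Φ' (fun φ => θ Φ (φ.comp (g : E →+* E))) := by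
    intro g Φ Φ' hΦ hg
    obtain ⟨ξ, hS⟩ := hθS Φ hΦ
    exact ⟨g ξ, h3 E K Φ Φ' ξ (θ Φ) g (bar_comm K g) hg hS⟩
  refine ⟨θ, fun Φ hΦ => ⟨hθS Φ hΦ, fun φ => ⟨hθne Φ hΦ φ, hmul Φ hΦ φ⟩⟩, ?_, ?_⟩
  · -- the mixed case
    have mixed : ∀ Φ₁ Φ₂ Φ₃ Φ₄, IsType Φ₁ → IsType Φ₂ → IsType Φ₃ → IsType Φ₄ →
        (∀ φ, (if φ ∈ Φ₁ then 1 else 0) + (if φ ∈ Φ₂ then 1 else 0) =
          (if φ ∈ Φ₃ then 1 else 0) + (if φ ∈ Φ₄ then (1 : ℕ) else 0)) →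
        ∀ φ, φ ∈ Φ₁ → φ ∉ Φ₂ → φ ∈ Φ₃ → φ ∉ Φ₄ → Alg (θ Φ₁ φ * θ Φ₂ φ / (θ Φ₃ φ * θ Φ₄ φ)) := by
      intro Φ₁ Φ₂ Φ₃ Φ₄ t1 t2 t3 t4 hrel φ f1 f2 f3 f4
      have key := hrel
      obtain ⟨ξ₁, S1⟩ := hθS Φ₁ t1
      obtain ⟨ξ₃, S3⟩ := hθS Φ₃ t3
      have b2 : ∀ ψ : E →+* ℂ, ψ ∈ bt Φ₂ ↔ ψ.comp (K.bar : E →+* E) ∈ Φ₂ := by
        intro ψ
        rw [mem_bt, comp_bar, t2 (cj ψ), cj_cj]
      have b4 : ∀ ψ : E →+* ℂ, ψ ∈ bt Φ₄ ↔ ψ.comp (K.bar : E →+* E) ∈ Φ₄ := by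
        intro ψ
        rw [mem_bt, comp_bar, t4 (cj ψ), cj_cj]
      obtain ⟨ξ₂, S2⟩ := htw K.bar Φ₂ (bt Φ₂) t2 b2
      obtain ⟨ξ₄, S4⟩ := htw K.bar Φ₄ (bt Φ₄) t4 b4
      have hr : ∀ φ, (if φ ∈ Φ₁ then 1 else 0) + (if φ ∈ bt Φ₄ then 1 else 0) =
          (if φ ∈ Φ₃ then 1 else 0) + (if φ ∈ bt Φ₂ then (1 : ℕ) else 0) := by
        intro ψ
        have := hrel ψ
        simp only [mem_bt]
        by_cases a1 : ψ ∈ Φ₁ <;> by_cases a2 : ψ ∈ Φ₂ <;> by_cases a3 : ψ ∈ Φ₃ <;>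
          by_cases a4 : ψ ∈ Φ₄ <;> simp_all
      have hm : φ ∈ Φ₁ ∩ bt Φ₄ := Finset.mem_inter.2 ⟨f1, (mem_bt _ _).2 f4⟩
      have hfin := h2 E K hi hw Φ₁ (bt Φ₄) Φ₃ (bt Φ₂) ξ₁ ξ₄ ξ₃ ξ₂ _ _ _ _ t1 (isType_bt t4) t3
        (isType_bt t2) hr S1 S4 S3 S2 φ hm
      rw [comp_bar] at hfin
      have e2 : θ Φ₂ φ = 2 * Real.pi * I / θ Φ₂ (cj φ) := by
        rw [eq_div_iff (hθne Φ₂ t2 _)]
        exact hmul Φ₂ t2 φ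
      have e4 : θ Φ₄ φ = 2 * Real.pi * I / θ Φ₄ (cj φ) := by
        rw [eq_div_iff (hθne Φ₄ t4 _)]
        exact hmul Φ₄ t4 φ
      have e : θ Φ₁ φ * θ Φ₂ φ / (θ Φ₃ φ * θ Φ₄ φ) =
          θ Φ₁ φ * θ Φ₄ (cj φ) / (θ Φ₃ φ * θ Φ₂ (cj φ)) := by
        rw [e2, e4]
        have := hθne Φ₂ t2 (cj φ)
        have := hθne Φ₄ t4 (cj φ)
        have := hθne Φ₃ t3 φ
        field_simp
      rw [e]
      exact hfin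
    intro Φ₁ Φ₂ Φ₃ Φ₄ t1 t2 t3 t4 hrel φ
    have hrel' : ∀ φ, (if φ ∈ Φ₂ then 1 else 0) + (if φ ∈ Φ₁ then 1 else 0) =
          (if φ ∈ Φ₃ then 1 else 0) + (if φ ∈ Φ₄ then (1 : ℕ) else 0) := fun φ => by
      rw [add_comm]; exact hrel φ
    have hrel'' : ∀ φ, (if φ ∈ Φ₁ then 1 else 0) + (if φ ∈ Φ₂ then 1 else 0) =
          (if φ ∈ Φ₄ then 1 else 0) + (if φ ∈ Φ₃ then (1 : ℕ) else 0) := fun φ => by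
      rw [hrel φ, add_comm]
    have hrel''' : ∀ φ, (if φ ∈ Φ₂ then 1 else 0) + (if φ ∈ Φ₁ then 1 else 0) =
          (if φ ∈ Φ₄ then 1 else 0) + (if φ ∈ Φ₃ then (1 : ℕ) else 0) := fun φ => by
      rw [hrel' φ, add_comm]
    obtain ⟨ξ₁, S1⟩ := hθS Φ₁ t1
    obtain ⟨ξ₂, S2⟩ := hθS Φ₂ t2
    obtain ⟨ξ₃, S3⟩ := hθS Φ₃ t3
    obtain ⟨ξ₄, S4⟩ := hθS Φ₄ t4
    have hφ := hrel φ
    by_cases a1 : φ ∈ Φ₁ <;> by_cases a2 : φ ∈ Φ₂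
    · exact h2 E K hi hw Φ₁ Φ₂ Φ₃ Φ₄ ξ₁ ξ₂ ξ₃ ξ₄ _ _ _ _ t1 t2 t3 t4 hrel S1 S2 S3 S4 φ
        (Finset.mem_inter.2 ⟨a1, a2⟩)
    · by_cases a3 : φ ∈ Φ₃ <;> by_cases a4 : φ ∈ Φ₄
      · simp [a1, a2, a3, a4] at hφ
      · exact mixed Φ₁ Φ₂ Φ₃ Φ₄ t1 t2 t3 t4 hrel φ a1 a2 a3 a4
      · have := mixed Φ₁ Φ₂ Φ₄ Φ₃ t1 t2 t4 t3 hrel'' φ a1 a2 a4 a3
        rwa [mul_comm (θ Φ₄ φ)] at this
      · simp [a1, a2, a3, a4] at hφ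
    · by_cases a3 : φ ∈ Φ₃ <;> by_cases a4 : φ ∈ Φ₄
      · simp [a1, a2, a3, a4] at hφ
      · have := mixed Φ₂ Φ₁ Φ₃ Φ₄ t2 t1 t3 t4 hrel' φ a2 a1 a3 a4
        rwa [mul_comm (θ Φ₂ φ)] at this
      · have := mixed Φ₂ Φ₁ Φ₄ Φ₃ t2 t1 t4 t3 hrel''' φ a2 a1 a4 a3
        rwa [mul_comm (θ Φ₂ φ), mul_comm (θ Φ₄ φ)] at this
      · simp [a1, a2, a3, a4] at hφ
    · -- both out: use the conjugate embedding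
      have a3 : φ ∉ Φ₃ := by
        intro a3
        rw [if_neg a1, if_neg a2, if_pos a3] at hφ
        omega
      have a4 : φ ∉ Φ₄ := by
        intro a4
        rw [if_neg a1, if_neg a2, if_pos a4] at hφ
        omega
      have m1 : cj φ ∈ Φ₁ := by rw [t1 (cj φ), cj_cj]; exact a1
      have m2 : cj φ ∈ Φ₂ := by rw [t2 (cj φ), cj_cj]; exact a2
      have hfin := h2 E K hi hw Φ₁ Φ₂ Φ₃ Φ₄ ξ₁ ξ₂ ξ₃ ξ₄ _ _ _ _ t1 t2 t3 t4 hrel S1 S2 S3 S4 (cj φ)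
        (Finset.mem_inter.2 ⟨m1, m2⟩)
      have ee : ∀ Φ, IsType Φ → θ Φ φ = 2 * Real.pi * I / θ Φ (cj φ) := by
        intro Φ t
        rw [eq_div_iff (hθne Φ t _)]
        exact hmul Φ t φ
      have e : θ Φ₁ φ * θ Φ₂ φ / (θ Φ₃ φ * θ Φ₄ φ) =
          (θ Φ₁ (cj φ) * θ Φ₂ (cj φ) / (θ Φ₃ (cj φ) * θ Φ₄ (cj φ)))⁻¹ := by
        rw [ee Φ₁ t1, ee Φ₂ t2, ee Φ₃ t3, ee Φ₄ t4]
        have := hθne Φ₁ t1 (cj φ)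
        have := hθne Φ₂ t2 (cj φ)
        have := hθne Φ₃ t3 (cj φ)
        have := hθne Φ₄ t4 (cj φ)
        field_simp
      rw [e]
      exact hfin.inv
  · intro g Φ Φ' hΦ hΦ' hg φ
    obtain ⟨ξ, S⟩ := htw g Φ Φ' hΦ hg
    obtain ⟨ξ', S'⟩ := hθS Φ' hΦ'
    have hin : ∀ φ ∈ Φ', Alg (θ Φ' φ / θ Φ (φ.comp (g : E →+* E))) := fun φ hφ =>
      h4 E K Φ' ξ' ξ _ _ hΦ' S' S φ hφ
    by_cases a : φ ∈ Φ'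
    · exact hin φ a
    · have m : cj φ ∈ Φ' := by rw [hΦ' (cj φ), cj_cj]; exact a
      have h := hin (cj φ) m
      have e1 : θ Φ' φ = 2 * Real.pi * I / θ Φ' (cj φ) := by
        rw [eq_div_iff (hθne Φ' hΦ' _)]
        exact hmul Φ' hΦ' φ
      have e2 : θ Φ (φ.comp (g : E →+* E)) = 2 * Real.pi * I / θ Φ ((cj φ).comp (g : E →+* E)) := by
        rw [eq_div_iff (hθne Φ hΦ _), ← cj_comp]
        exact hmul Φ hΦ _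
      have e : θ Φ' φ / θ Φ (φ.comp (g : E →+* E)) =
          (θ Φ' (cj φ) / θ Φ ((cj φ).comp (g : E →+* E)))⁻¹ := by
        rw [e1, e2]
        have := hθne Φ' hΦ' (cj φ)
        have := hθne Φ hΦ ((cj φ).comp (g : E →+* E))
        field_simp
      rw [e]
      exact h.inv

end

end Pool.Agent.SPF
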