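import Pool.Agent.SPF.StmtsE

set_option linter.unusedSectionVars false

/-!
# Module ZPT: the centre of the family is an orthogonal sum
-/

open scoped BigOperators
open Complex

namespace Pool.Agent.SPF

noncomputable section

namespace ZPT_

section

variable {E : Type} [Field E] [NumberField E]

theorem bar_bar (K : CMF E) (x : E) : K.bar (K.bar x) = x := by
  obtain ⟨φ⟩ : Nonempty (E →+* ℂ) := inferInstance
  apply φ.injective
  rw [K.bar_spec, K.bar_spec, Complex.conj_conj]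

theorem trace_bar (K : CMF E) (x : E) : Algebra.trace ℚ E (K.bar x) = Algebra.trace ℚ E x := by
  have h := Algebra.trace_eq_of_algEquiv (A := ℚ)
    (AlgEquiv.ofRingEquiv (f := K.bar) (fun r => map_ratCast K.bar r)) x
  exact h

theorem e_alt (K : CMF E) {ξ : E} (hξ : K.bar ξ = -ξ) (x : E) : K.e ξ x x = 0 := by
  have h1 : K.bar (ξ * x * K.bar x) = -(ξ * x * K.bar x) := by
    rw [map_mul, map_mul, bar_bar, hξ]; ring
  have h2 := trace_bar K (ξ * x * K.bar x)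
  rw [h1, map_neg] at h2
  show Algebra.trace ℚ E (ξ * x * K.bar x) = 0
  linarith

theorem e_nondeg (K : CMF E) {ξ : E} (hξ : ξ ≠ 0) (x : E) (h : ∀ y, K.e ξ x y = 0) : x = 0 := by
  have h1 : ξ * x = 0 := by
    have hnd := traceForm_nondegenerate ℚ E
    refine hnd.1 (ξ * x) fun z => ?_
    have h2 := h (K.bar z)
    have h3 : Algebra.trace ℚ E (ξ * x * K.bar (K.bar z)) = 0 := h2
    rw [bar_bar] at h3
    rw [Algebra.traceForm_apply]
    exact h3
  rcases mul_eq_zero.mp h1 with h2 | h2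
  · exact absurd h2 hξ
  · exact h2

variable {I J : Type} [Fintype I] [Fintype J] [DecidableEq I] [DecidableEq J]

theorem finrank_eq (D : FamData E I J) : Module.finrank ℚ E = 2 * Fintype.card (I ⊕ J) := by
  have h1 : Fintype.card (E →+* ℂ) = Module.finrank ℚ E := NumberField.Embeddings.card E ℂ
  rw [← h1]
  let f : (I ⊕ J) ⊕ (I ⊕ J) → (E →+* ℂ) :=
    Sum.elim (fun v => D.t v) (fun v => (starRingEnd ℂ).comp (D.t v))
  have hconj : ∀ a b : E →+* ℂ, (starRingEnd ℂ).comp a = (starRingEnd ℂ).comp b → a = b := by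
    intro a b h
    ext x
    have := congrArg (fun g : E →+* ℂ => g x) h
    simp only [RingHom.comp_apply] at this
    exact (starRingEnd ℂ).injective this
  have hf : Function.Bijective f := by
    constructor
    · rintro (v | v) (w | w) h
      · exact congrArg Sum.inl (D.t_inj h)
      · exact absurd h (D.t_conj v w)
      · exact absurd h.symm (D.t_conj w v)
      · exact congrArg Sum.inr (D.t_inj (hconj _ _ h))
    · intro φ
      obtain ⟨v, hv | hv⟩ := D.t_surj φ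
      · exact ⟨Sum.inl v, hv.symm⟩
      · exact ⟨Sum.inr v, hv.symm⟩
  rw [← Fintype.card_of_bijective hf, Fintype.card_sum]
  ring

theorem exists_place (D : FamData E I J) : Nonempty (I ⊕ J) := by
  obtain ⟨φ⟩ : Nonempty (E →+* ℂ) := inferInstance
  obtain ⟨v, -⟩ := D.t_surj φ
  exact ⟨v⟩

theorem xi1_ne (D : FamData E I J) : D.ξ₁ ≠ 0 := by
  obtain ⟨v⟩ := exists_place D
  intro h
  have := D.pos1 v
  rw [h, map_zero] at this
  simp at this

theorem xi2_ne (D : FamData E I J) : D.ξ₂ ≠ 0 := by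
  obtain ⟨v⟩ := exists_place D
  intro h
  rcases v with v | v
  · have := D.posI v
    rw [h, map_zero] at this
    simp at this
  · have := D.posJ v
    rw [h, map_zero] at this
    simp at this

/-- the second family of embeddings -/
def t2 (D : FamData E I J) : I ⊕ J → (E →+* ℂ) :=
  Sum.elim (fun v : I => cj (D.t (Sum.inl v))) (fun v : J => D.t (Sum.inr v))

theorem e_eq (D : FamData E I J) (K : CMF E) (hK : K.bar = D.bar) :
    D.e = eSum (K.e D.ξ₁) (K.e D.ξ₂) := by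
  refine LinearMap.ext fun x => LinearMap.ext fun y => ?_
  show Algebra.trace ℚ E (D.ξ₁ * x.1 * D.bar y.1 + D.ξ₂ * x.2 * D.bar y.2) =
    Algebra.trace ℚ E (D.ξ₁ * x.1 * K.bar y.1) + Algebra.trace ℚ E (D.ξ₂ * x.2 * K.bar y.2)
  rw [map_add, hK]

theorem zeta_eq (D : FamData E I J) : D.zeta 0 = zSum (zT D.t) (zT (t2 D)) := by
  refine LinearMap.ext fun x => ?_
  funext i
  rcases i with (v | v) | (v | v)
  · show D.t (Sum.inl v) x.1 - (0 : I → ℂ) v * D.t (Sum.inl v) x.2 = D.t (Sum.inl v) x.1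
    simp
  · rfl
  · show D.tb (Sum.inl v) x.2 - D.b v * (0 : I → ℂ) v * D.tb (Sum.inl v) x.1 =
      D.tb (Sum.inl v) x.2
    simp
  · rfl

/-- the linear forms of the first summand -/
def L1 (D : FamData E I J) : E →ₗ[ℚ] (I ⊕ J → ℂ) where
  toFun := fun x v => D.L (x, 0) (Sum.inl v)
  map_add' := by
    intro x y
    funext v
    have : ((x + y, 0) : E × E) = (x, 0) + (y, 0) := by simp
    rw [this, map_add]; rfl
  map_smul' := by
    intro r x
    funext v
    have : ((r • x, 0) : E × E) = r • (x, 0) := by simp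
    rw [this, map_smul]; rfl

/-- the linear forms of the second summand -/
def L2 (D : FamData E I J) : E →ₗ[ℚ] (I ⊕ J → ℂ) where
  toFun := fun x v => D.L (0, x) (Sum.inr v)
  map_add' := by
    intro x y
    funext v
    have : ((0, x + y) : E × E) = (0, x) + (0, y) := by simp
    rw [this, map_add]; rfl
  map_smul' := by
    intro r x
    funext v
    have : ((0, r • x) : E × E) = r • (0, x) := by simp
    rw [this, map_smul]; rfl

theorem dot1 (D : FamData E I J) (x y : E) :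
    dotp (D.L (x, 0)) (D.zeta 0 (y, 0)) = dotp (L1 D x) (zT D.t y) := by
  rw [zeta_eq]
  unfold dotp
  rw [Fintype.sum_sum_type]
  have h : ∀ v : I ⊕ J, D.L (x, 0) (Sum.inr v) * zSum (zT D.t) (zT (t2 D)) (y, 0) (Sum.inr v) = 0 := by
    intro v
    show D.L (x, 0) (Sum.inr v) * zT (t2 D) 0 v = 0
    rw [map_zero]; simp
  rw [Finset.sum_eq_zero (fun v _ => h v), add_zero]
  rfl

theorem dot2 (D : FamData E I J) (x y : E) :
    dotp (D.L (0, x)) (D.zeta 0 (0, y)) = dotp (L2 D x) (zT (t2 D) y) := by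
  rw [zeta_eq]
  unfold dotp
  rw [Fintype.sum_sum_type]
  have h : ∀ v : I ⊕ J, D.L (0, x) (Sum.inl v) * zSum (zT D.t) (zT (t2 D)) (0, y) (Sum.inl v) = 0 := by
    intro v
    show D.L (0, x) (Sum.inl v) * zT D.t 0 v = 0
    rw [map_zero]; simp
  rw [Finset.sum_eq_zero (fun v _ => h v), zero_add]
  rfl

end

section bases

variable {V V' ι ι' : Type} [AddCommGroup V] [Module ℚ V] [AddCommGroup V'] [Module ℚ V']
  [Fintype ι] [DecidableEq ι] [Fintype ι'] [DecidableEq ι']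

/-- the product of two symplectic bases -/
def Bp (B : Module.Basis (ι ⊕ ι) ℚ V) (B' : Module.Basis (ι' ⊕ ι') ℚ V') :
    Module.Basis ((ι ⊕ ι') ⊕ (ι ⊕ ι')) ℚ (V × V') :=
  (B.prod B').reindex (Equiv.sumSumSumComm ι ι ι' ι')

theorem Bp_ll (B : Module.Basis (ι ⊕ ι) ℚ V) (B' : Module.Basis (ι' ⊕ ι') ℚ V') (i : ι) :
    Bp B B' (Sum.inl (Sum.inl i)) = (B (Sum.inl i), 0) := by
  simp [Bp, Module.Basis.prod_apply]

theorem Bp_lr (B : Module.Basis (ι ⊕ ι) ℚ V) (B' : Module.Basis (ι' ⊕ ι') ℚ V') (i : ι') :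
    Bp B B' (Sum.inl (Sum.inr i)) = (0, B' (Sum.inl i)) := by
  simp [Bp, Module.Basis.prod_apply]

theorem Bp_rl (B : Module.Basis (ι ⊕ ι) ℚ V) (B' : Module.Basis (ι' ⊕ ι') ℚ V') (i : ι) :
    Bp B B' (Sum.inr (Sum.inl i)) = (B (Sum.inr i), 0) := by
  simp [Bp, Module.Basis.prod_apply]

theorem Bp_rr (B : Module.Basis (ι ⊕ ι) ℚ V) (B' : Module.Basis (ι' ⊕ ι') ℚ V') (i : ι') :
    Bp B B' (Sum.inr (Sum.inr i)) = (0, B' (Sum.inr i)) := by
  simp [Bp, Module.Basis.prod_apply]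

theorem eSum_apply (e : V →ₗ[ℚ] V →ₗ[ℚ] ℚ) (e' : V' →ₗ[ℚ] V' →ₗ[ℚ] ℚ) (x y : V × V') :
    eSum e e' x y = e x.1 y.1 + e' x.2 y.2 := rfl

theorem sympBasis_Bp {e : V →ₗ[ℚ] V →ₗ[ℚ] ℚ} {e' : V' →ₗ[ℚ] V' →ₗ[ℚ] ℚ}
    {B : Module.Basis (ι ⊕ ι) ℚ V} {B' : Module.Basis (ι' ⊕ ι') ℚ V'} (h : SympBasis e B)
    (h' : SympBasis e' B') : SympBasis (eSum e e') (Bp B B') where
  alt := fun x => by rw [eSum_apply, h.alt, h'.alt, add_zero]
  ll := by
    rintro (i | i) (j | j) <;> simp [Bp_ll, Bp_lr, eSum_apply, h.ll, h'.ll]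
  rr := by
    rintro (i | i) (j | j) <;> simp [Bp_rl, Bp_rr, eSum_apply, h.rr, h'.rr]
  lr := by
    rintro (i | i) (j | j) <;> simp [Bp_ll, Bp_lr, Bp_rl, Bp_rr, eSum_apply, h.lr, h'.lr]

end bases

section pos

variable {E : Type} [Field E] [NumberField E] {I J : Type} [Fintype I] [Fintype J]
  [DecidableEq I] [DecidableEq J]

theorem pstr1 (D : FamData E I J) (K : CMF E)
    {B : Module.Basis ((I ⊕ J) ⊕ (I ⊕ J)) ℚ E} {B' : Module.Basis ((I ⊕ J) ⊕ (I ⊕ J)) ℚ E}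
    (he : D.e = eSum (K.e D.ξ₁) (K.e D.ξ₂)) (h : IsPStr D.e (Bp B B') (D.zeta 0) D.L) :
    IsPStr (K.e D.ξ₁) B (zT D.t) (L1 D) where
  rel := by
    intro x y
    have h1 := h.rel (x, 0) (y, 0)
    rw [dot1, dot1, he, eSum_apply] at h1
    simpa using h1
  pos := by
    intro r hr
    let R : Co I J ⊕ Co I J → ℝ := fun k => match k with
      | Sum.inl (Sum.inl i) => r (Sum.inl i)
      | Sum.inl (Sum.inr _) => 0
      | Sum.inr (Sum.inl i) => r (Sum.inr i)
      | Sum.inr (Sum.inr _) => 0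
    have hR : R ≠ 0 := by
      intro h0
      apply hr
      funext k
      rcases k with k | k
      · exact congrFun h0 (Sum.inl (Sum.inl k))
      · exact congrFun h0 (Sum.inr (Sum.inl k))
    have h1 := h.pos R hR
    have h2 : (∑ j, ∑ k, (R j : ℂ) * (R k : ℂ) * dotp (D.L (Bp B B' j)) (D.zeta 0 (Bp B B' k))) =
        ∑ j, ∑ k, (r j : ℂ) * (r k : ℂ) * dotp (L1 D (B j)) (zT D.t (B k)) := by
      simp only [Fintype.sum_sum_type, Bp_ll, Bp_lr, Bp_rl, Bp_rr, R, dot1, Complex.ofReal_zero,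
        zero_mul, mul_zero, Finset.sum_const_zero, add_zero]
    rw [h2] at h1
    exact h1

theorem pstr2 (D : FamData E I J) (K : CMF E)
    {B : Module.Basis ((I ⊕ J) ⊕ (I ⊕ J)) ℚ E} {B' : Module.Basis ((I ⊕ J) ⊕ (I ⊕ J)) ℚ E}
    (he : D.e = eSum (K.e D.ξ₁) (K.e D.ξ₂)) (h : IsPStr D.e (Bp B B') (D.zeta 0) D.L) :
    IsPStr (K.e D.ξ₂) B' (zT (t2 D)) (L2 D) where
  rel := by
    intro x y
    have h1 := h.rel (0, x) (0, y)
    rw [dot2, dot2, he, eSum_apply] at h1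
    simpa using h1
  pos := by
    intro r hr
    let R : Co I J ⊕ Co I J → ℝ := fun k => match k with
      | Sum.inl (Sum.inl _) => 0
      | Sum.inl (Sum.inr i) => r (Sum.inl i)
      | Sum.inr (Sum.inl _) => 0
      | Sum.inr (Sum.inr i) => r (Sum.inr i)
    have hR : R ≠ 0 := by
      intro h0
      apply hr
      funext k
      rcases k with k | k
      · exact congrFun h0 (Sum.inl (Sum.inr k))
      · exact congrFun h0 (Sum.inr (Sum.inr k))
    have h1 := h.pos R hR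
    have h2 : (∑ j, ∑ k, (R j : ℂ) * (R k : ℂ) * dotp (D.L (Bp B B' j)) (D.zeta 0 (Bp B B' k))) =
        ∑ j, ∑ k, (r j : ℂ) * (r k : ℂ) * dotp (L2 D (B' j)) (zT (t2 D) (B' k)) := by
      simp only [Fintype.sum_sum_type, Bp_ll, Bp_lr, Bp_rl, Bp_rr, R, dot2, Complex.ofReal_zero,
        zero_mul, mul_zero, Finset.sum_const_zero, zero_add]
    rw [h2] at h1
    exact h1

end pos

end ZPT_

open ZPT_ in
theorem zpt_proof (hSUM : Stmt_SUM) (hEXB : Stmt_EXB) (hPOSF : Stmt_POSF) : Stmt_ZPT := by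
  intro E _ _ I J _ _ _ _ D K B Θ c hK hB hTh hc hS
  have he := e_eq D K hK
  have h0 : (0 : I → ℂ) ∈ D.Dom := D.zero_mem_Dom
  have hSS : SS D.e (D.zeta 0) c :=
    ⟨hc, B, D.L, Θ 0, hB, hPOSF E I J D B hB 0 h0, hTh.th 0 h0, hTh.nz 0 h0, hS⟩
  have hξ1 : K.bar D.ξ₁ = -D.ξ₁ := by rw [hK]; exact D.ξ₁_bar
  have hξ2 : K.bar D.ξ₂ = -D.ξ₂ := by rw [hK]; exact D.ξ₂_bar
  obtain ⟨B1, hB1⟩ := hEXB E (I ⊕ J) (K.e D.ξ₁) (e_alt K hξ1) (e_nondeg K (xi1_ne D)) (finrank_eq D)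
  obtain ⟨B2, hB2⟩ := hEXB E (I ⊕ J) (K.e D.ξ₂) (e_alt K hξ2) (e_nondeg K (xi2_ne D)) (finrank_eq D)
  have hBp : SympBasis D.e (Bp B1 B2) := by rw [he]; exact sympBasis_Bp hB1 hB2
  have hP := hPOSF E I J D (Bp B1 B2) hBp 0 h0
  have hP1 := pstr1 D K he hP
  have hP2 := pstr2 D K he hP
  have hc' : c = Sum.elim (fun v => c (Sum.inl v)) (fun v => c (Sum.inr v)) := by
    funext i
    rcases i with i | i <;> rfl
  rw [he, zeta_eq, hc'] at hSS
  exact (hSUM E E (I ⊕ J) (I ⊕ J) (K.e D.ξ₁) (K.e D.ξ₂) B1 B2 (zT D.t) (L1 D) (zT (t2 D)) (L2 D)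
    (fun v => c (Sum.inl v)) (fun v => c (Sum.inr v)) hB1 hP1 hB2 hP2).1 hSS

end

end Pool.Agent.SPF
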