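import Pool.Agent.SPF.ALG
import Pool.Agent.SPF.ALLT
import Pool.Agent.SPF.ARI
import Pool.Agent.SPF.AVG
import Pool.Agent.SPF.CLM
import Pool.Agent.SPF.CPT
import Pool.Agent.SPF.DEN
import Pool.Agent.SPF.DER
import Pool.Agent.SPF.EXB
import Pool.Agent.SPF.EXF
import Pool.Agent.SPF.HEAT
import Pool.Agent.SPF.HOLO
import Pool.Agent.SPF.INV
import Pool.Agent.SPF.INV0
import Pool.Agent.SPF.ISO
import Pool.Agent.SPF.NOZ
import Pool.Agent.SPF.OSG1
import Pool.Agent.SPF.POSF
import Pool.Agent.SPF.PSB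
import Pool.Agent.SPF.QPT
import Pool.Agent.SPF.R4
import Pool.Agent.SPF.REL
import Pool.Agent.SPF.RLB
import Pool.Agent.SPF.SALL
import Pool.Agent.SPF.SEP1
import Pool.Agent.SPF.SEP2
import Pool.Agent.SPF.SIGN
import Pool.Agent.SPF.STEP0
import Pool.Agent.SPF.STEPE
import Pool.Agent.SPF.SUM
import Pool.Agent.SPF.THE
import Pool.Agent.SPF.THU
import Pool.Agent.SPF.TWI
import Pool.Agent.SPF.ZPT
import Pool.Agent.SPF.Tbl

/-!
# Shimura period relations: assembly of the core
-/

namespace Pool.Agent.SPF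

theorem p_REL : Stmt_REL := rel_proof thu_proof avg_proof posf_proof iso_proof psb_proof

theorem p_INV0 : Stmt_INV0 := inv0_proof thu_proof posf_proof iso_proof

theorem p_INV : Stmt_INV := inv_proof p_INV0 posf_proof iso_proof

theorem p_NOZ : Stmt_NOZ := noz_proof cpt_proof p_INV0 sep1_proof holo_proof posf_proof iso_proof

theorem p_ALG : Stmt_ALG :=
  alg_proof ari_proof p_INV cpt_proof den_proof p_REL p_NOZ holo_proof iso_proof

theorem p_SALL : Stmt_SALL := sall_proof thu_proof avg_proof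

theorem p_SUM : Stmt_SUM := sum_proof p_SALL the_proof sep1_proof

theorem p_HEAT : Stmt_HEAT := heat_proof thu_proof posf_proof

theorem p_SEP2 : Stmt_SEP2 := sep2_proof posf_proof

/-- the step theorem at the centre of the family -/
theorem p_STEP0 : Stmt_STEP0 :=
  step0_proof p_ALG clm_proof osg_proof der_proof p_HEAT sep1_proof p_SEP2 p_REL iso_proof
    holo_proof posf_proof

theorem p_QPT : Stmt_QPT := qpt_proof p_SUM p_SALL posf_proof rlb_proof

theorem p_ZPT : Stmt_ZPT := zpt_proof p_SUM exb_proof posf_proof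

/-- the step theorem for CM types -/
theorem p_STEPE : Stmt_STEPE :=
  stepe_proof p_STEP0 p_QPT p_ZPT sign_proof (exf_proof exb_proof) the_proof posf_proof rlb_proof

end Pool.Agent.SPF
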