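import Mathlib

set_option linter.unusedSectionVars false
set_option linter.unusedSimpArgs false

/-!
# Shimura period relations: theta functions of unimodular lattices, CM families

See /team-store/SPR_H43.md.
-/

open scoped BigOperators
open Complex

namespace Pool.Agent.SPF

noncomputable section

/-- algebraic complex numbers -/
abbrev Alg (x : ℂ) : Prop := IsAlgebraic ℚ x

/-- partial derivative -/
def pd {σ : Type} [Fintype σ] [DecidableEq σ] (i : σ) (f : (σ → ℂ) → ℂ) (z : σ → ℂ) : ℂ :=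
  fderiv ℂ f z (Pi.single i 1)

/-- bilinear pairing `∑ a_i z_i` -/
def dotp {ι : Type} [Fintype ι] (a z : ι → ℂ) : ℂ := ∑ i, a i * z i

/-- a polynomial with algebraic coefficients -/
def AlgPoly {σ : Type} (P : MvPolynomial σ ℂ) : Prop := ∀ m, Alg (P.coeff m)

section Theta

variable {V : Type} [AddCommGroup V] [Module ℚ V] {ι : Type} [Fintype ι] [DecidableEq ι]

/-- Heisenberg translation by the rational point `x` -/
def TT (ζ L : V → ι → ℂ) (x : V) (F : (ι → ℂ) → ℂ) : (ι → ℂ) → ℂ :=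
  fun z => cexp (-(dotp (L x) z) - dotp (L x) (ζ x) / 2) * F (z + ζ x)

/-- `B` is a symplectic basis of the rational symplectic space `(V, e)` -/
structure SympBasis (e : V →ₗ[ℚ] V →ₗ[ℚ] ℚ) (B : Module.Basis (ι ⊕ ι) ℚ V) : Prop where
  alt : ∀ x, e x x = 0
  ll : ∀ i j, e (B (Sum.inl i)) (B (Sum.inl j)) = 0
  rr : ∀ i j, e (B (Sum.inr i)) (B (Sum.inr j)) = 0
  lr : ∀ i j, e (B (Sum.inl i)) (B (Sum.inr j)) = if i = j then 1 else 0

/-- `(ζ, L)` is a positive complex structure on the symplectic space `(V, e)` (`B` is any basis of `V`) -/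
structure IsPStr (e : V →ₗ[ℚ] V →ₗ[ℚ] ℚ) (B : Module.Basis (ι ⊕ ι) ℚ V) (ζ L : V →ₗ[ℚ] (ι → ℂ)) :
    Prop where
  rel : ∀ x y, dotp (L x) (ζ y) - dotp (L y) (ζ x) = 2 * Real.pi * I * (e x y : ℚ)
  pos : ∀ r : ι ⊕ ι → ℝ, r ≠ 0 →
    0 < (∑ j, ∑ k, (r j : ℂ) * (r k : ℂ) * dotp (L (B j)) (ζ (B k))).re

/-- `F` is a theta function for the unimodular lattice spanned by the symplectic basis `B`
(semicharacter trivial on `B`) -/
structure IsTh (ζ L : V → ι → ℂ) (B : Module.Basis (ι ⊕ ι) ℚ V) (F : (ι → ℂ) → ℂ) : Prop where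
  entire : Differentiable ℂ F
  per : ∀ j, TT ζ L (B j) F = F

/-- the lattice spanned by `B` -/
def lat (B : Module.Basis (ι ⊕ ι) ℚ V) : AddSubgroup V := AddSubgroup.closure (Set.range B)

/-- The property `S(V, e, ζ; c)` for one theta function: there is `κ ≠ 0` such that all torsion
translates have values in `κ ℚbar` and partial derivatives in `κ c_i ℚbar` at the origin -/
def SDat (ζ L : V → ι → ℂ) (F : (ι → ℂ) → ℂ) (c : ι → ℂ) : Prop :=
  ∃ κ : ℂ, κ ≠ 0 ∧ ∀ x : V, Alg (TT ζ L x F 0 / κ) ∧ ∀ i, Alg (pd i (TT ζ L x F) 0 / (κ * c i))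

/-- The property `S(V, e, ζ; c)` -/
def SS (e : V →ₗ[ℚ] V →ₗ[ℚ] ℚ) (ζ : V →ₗ[ℚ] (ι → ℂ)) (c : ι → ℂ) : Prop :=
  (∀ i, c i ≠ 0) ∧ ∃ (B : Module.Basis (ι ⊕ ι) ℚ V) (L : V →ₗ[ℚ] (ι → ℂ)) (F : (ι → ℂ) → ℂ),
    SympBasis e B ∧ IsPStr e B ζ L ∧ IsTh ζ L B F ∧ F ≠ 0 ∧ SDat ζ L F c

/-- finite combination of Heisenberg translates -/
def comb (ζ L : V → ι → ℂ) (C : V →₀ ℂ) (F : (ι → ℂ) → ℂ) : (ι → ℂ) → ℂ :=
  fun z => C.sum fun y a => a * TT ζ L y F z

end Theta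

section Fam

/-- Data of a family: a CM field `E` with complex conjugation `bar`, one embedding `t v` for each place
`v ∈ I ⊕ J`, purely imaginary `ξ₁, ξ₂` with `Im t_v(ξ₁) > 0`, `Im t_v(ξ₂) < 0` on `I` and `> 0` on `J` -/
structure FamData (E : Type) [Field E] [NumberField E] (I J : Type) where
  bar : E ≃+* E
  t : I ⊕ J → (E →+* ℂ)
  ξ₁ : E
  ξ₂ : E
  bar_spec : ∀ (φ : E →+* ℂ) (x : E), φ (bar x) = (starRingEnd ℂ) (φ x)
  t_surj : ∀ φ : E →+* ℂ, ∃ v, φ = t v ∨ φ = (starRingEnd ℂ).comp (t v)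
  t_inj : Function.Injective t
  t_conj : ∀ v w, t v ≠ (starRingEnd ℂ).comp (t w)
  ξ₁_bar : bar ξ₁ = -ξ₁
  ξ₂_bar : bar ξ₂ = -ξ₂
  pos1 : ∀ v, 0 < (t v ξ₁).im
  posI : ∀ v : I, (t (Sum.inl v) ξ₂).im < 0
  posJ : ∀ v : J, 0 < (t (Sum.inr v) ξ₂).im

variable {E : Type} [Field E] [NumberField E] {I J : Type} [Fintype I] [Fintype J]
  [DecidableEq I] [DecidableEq J]

/-- index set of the coordinates `z_{v,1}` (`inl v`) and `z_{v,2}` (`inr v`) -/
abbrev Co (I J : Type) := (I ⊕ J) ⊕ (I ⊕ J)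

namespace FamData

variable (D : FamData E I J)

/-- the skew Hermitian form `ψ(x, y)` -/
def psi (x y : E × E) : E := D.ξ₁ * x.1 * D.bar y.1 + D.ξ₂ * x.2 * D.bar y.2

/-- `b_v = - t_v(ξ₁)/t_v(ξ₂) > 0` -/
def b (v : I) : ℝ := -(D.t (Sum.inl v) D.ξ₁).im / (D.t (Sum.inl v) D.ξ₂).im

/-- `A_v = - 2 π i t_v(ξ₁) > 0` -/
def A (v : I ⊕ J) : ℂ := -(2 * Real.pi * Complex.I * D.t v D.ξ₁)

/-- `B_v = ± 2 π i t_v(ξ₂) > 0` -/
def Bc : I ⊕ J → ℂ
  | Sum.inl v => 2 * Real.pi * Complex.I * D.t (Sum.inl v) D.ξ₂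
  | Sum.inr v => -(2 * Real.pi * Complex.I * D.t (Sum.inr v) D.ξ₂)

theorem bar_smul (r : ℚ) (a : E) : D.bar (r • a) = r • D.bar a := by
  rw [Algebra.smul_def, map_mul, Algebra.smul_def]
  congr 1
  exact map_ratCast D.bar r

theorem psi_add_left (x x' y : E × E) : D.psi (x + x') y = D.psi x y + D.psi x' y := by
  simp only [psi, Prod.fst_add, Prod.snd_add]; ring

theorem psi_add_right (x y y' : E × E) : D.psi x (y + y') = D.psi x y + D.psi x y' := by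
  simp only [psi, Prod.fst_add, Prod.snd_add, map_add]; ring

theorem psi_smul_left (r : ℚ) (x y : E × E) : D.psi (r • x) y = r • D.psi x y := by
  simp only [psi, Prod.smul_fst, Prod.smul_snd]; rw [Algebra.smul_def, Algebra.smul_def, Algebra.smul_def]; ring

theorem psi_smul_right (r : ℚ) (x y : E × E) : D.psi x (r • y) = r • D.psi x y := by
  simp only [psi, Prod.smul_fst, Prod.smul_snd, bar_smul]; rw [Algebra.smul_def, Algebra.smul_def, Algebra.smul_def]; ring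

/-- the symplectic form `Tr ψ` (on `V = E × E`) -/
def e : (E × E) →ₗ[ℚ] (E × E) →ₗ[ℚ] ℚ :=
  LinearMap.mk₂ ℚ (fun x y => Algebra.trace ℚ E (D.psi x y))
    (fun x x' y => by rw [psi_add_left, map_add])
    (fun r x y => by rw [psi_smul_left, map_smul])
    (fun x y y' => by rw [psi_add_right, map_add])
    (fun r x y => by rw [psi_smul_right, map_smul])

/-- conjugate embedding value -/
def tb (v : I ⊕ J) (x : E) : ℂ := (starRingEnd ℂ) (D.t v x)

/-- the coordinates `ζ_s(x)` as a function -/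
def zetaFun (s : I → ℂ) (x : E × E) : Co I J → ℂ
  | Sum.inl (Sum.inl v) => D.t (Sum.inl v) x.1 - s v * D.t (Sum.inl v) x.2
  | Sum.inl (Sum.inr v) => D.t (Sum.inr v) x.1
  | Sum.inr (Sum.inl v) => D.tb (Sum.inl v) x.2 - D.b v * s v * D.tb (Sum.inl v) x.1
  | Sum.inr (Sum.inr v) => D.t (Sum.inr v) x.2

/-- the coefficients of `L_x` -/
def LFun (x : E × E) : Co I J → ℂ
  | Sum.inl v => D.A v * D.tb v x.1
  | Sum.inr (Sum.inl v) => D.Bc (Sum.inl v) * D.t (Sum.inl v) x.2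
  | Sum.inr (Sum.inr v) => D.Bc (Sum.inr v) * D.tb (Sum.inr v) x.2

theorem t_smul (v : I ⊕ J) (r : ℚ) (a : E) : D.t v (r • a) = (r : ℂ) * D.t v a := by
  rw [Algebra.smul_def, map_mul]
  congr 1
  exact map_ratCast (D.t v) r

theorem tb_smul (v : I ⊕ J) (r : ℚ) (a : E) : D.tb v (r • a) = (r : ℂ) * D.tb v a := by
  unfold tb
  rw [t_smul, map_mul]
  congr 1
  exact map_ratCast _ r

theorem tb_add (v : I ⊕ J) (a a' : E) : D.tb v (a + a') = D.tb v a + D.tb v a' := by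
  unfold tb; simp

/-- the coordinates `ζ_s(x)` -/
def zeta (s : I → ℂ) : (E × E) →ₗ[ℚ] (Co I J → ℂ) where
  toFun := D.zetaFun s
  map_add' := by
    intro x y
    funext i
    rcases i with (v | v) | (v | v) <;> simp only [zetaFun, Prod.fst_add, Prod.snd_add, map_add, tb_add,
      Pi.add_apply] <;> ring
  map_smul' := by
    intro r x
    funext i
    rcases i with (v | v) | (v | v) <;> simp only [zetaFun, Prod.smul_fst, Prod.smul_snd, t_smul, tb_smul,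
      Pi.smul_apply, RingHom.id_apply] <;> rw [Rat.smul_def] <;> ring

/-- `L_x` (independent of `s`) -/
def L : (E × E) →ₗ[ℚ] (Co I J → ℂ) where
  toFun := D.LFun
  map_add' := by
    intro x y
    funext i
    rcases i with v | (v | v) <;> simp only [LFun, Prod.fst_add, Prod.snd_add, map_add, tb_add,
      Pi.add_apply] <;> ring
  map_smul' := by
    intro r x
    funext i
    rcases i with v | (v | v) <;> simp only [LFun, Prod.smul_fst, Prod.smul_snd, t_smul, tb_smul,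
      Pi.smul_apply, RingHom.id_apply] <;> rw [Rat.smul_def] <;> ring

/-- the parameter space -/
def Dom : Set (I → ℂ) := {s | ∀ v, D.b v * ‖s v‖ ^ 2 < 1}

/-- a holomorphic family of theta functions `Θ s : ℂ^n → ℂ`, `s ∈ Dom` -/
structure ThFam (B : Module.Basis (Co I J ⊕ Co I J) ℚ (E × E)) (Θ : (I → ℂ) → (Co I J → ℂ) → ℂ) :
    Prop where
  holo : DifferentiableOn ℂ (fun p : (I → ℂ) × (Co I J → ℂ) => Θ p.1 p.2) (D.Dom ×ˢ Set.univ)
  th : ∀ s ∈ D.Dom, IsTh (D.zeta s) D.L B (Θ s)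
  nz : ∀ s ∈ D.Dom, Θ s ≠ 0

/-- the null value `W_x(s) = Th_x(0, s)` -/
def W (Θ : (I → ℂ) → (Co I J → ℂ) → ℂ) (x : E × E) (s : I → ℂ) : ℂ :=
  TT (D.zeta s) D.L x (Θ s) 0

/-- the gradient `G_{i,x}(s) = ∂_i Th_x(0, s)` -/
def G (Θ : (I → ℂ) → (Co I J → ℂ) → ℂ) (i : Co I J) (x : E × E) (s : I → ℂ) : ℂ :=
  pd i (TT (D.zeta s) D.L x (Θ s)) 0

/-- first coordinate at an indefinite place -/
abbrev i1 (v : I) : Co I J := Sum.inl (Sum.inl v)
/-- second coordinate at an indefinite place -/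
abbrev i2 (v : I) : Co I J := Sum.inr (Sum.inl v)
/-- first coordinate at a definite place -/
abbrev j1 (v : J) : Co I J := Sum.inl (Sum.inr v)
/-- second coordinate at a definite place -/
abbrev j2 (v : J) : Co I J := Sum.inr (Sum.inr v)

/-- the determinant `M^v_{xy}(s)` of the gradients at the definite place `v` -/
def Mi (Θ : (I → ℂ) → (Co I J → ℂ) → ℂ) (v : J) (x y : E × E) (s : I → ℂ) : ℂ :=
  D.G Θ (j1 v) x s * D.G Θ (j2 v) y s - D.G Θ (j2 v) x s * D.G Θ (j1 v) y s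

/-- isometries of `ψ` -/
structure Iso where
  a : E
  b : E
  c : E
  d : E
  h1 : D.ξ₁ * a * D.bar a + D.ξ₂ * c * D.bar c = D.ξ₁
  h2 : D.ξ₁ * a * D.bar b + D.ξ₂ * c * D.bar d = 0
  h3 : D.ξ₁ * b * D.bar b + D.ξ₂ * d * D.bar d = D.ξ₂

namespace Iso

variable {D} (g : D.Iso)

/-- the action on `V = E × E` -/
def app (x : E × E) : E × E := (g.a * x.1 + g.b * x.2, g.c * x.1 + g.d * x.2)

/-- the determinant -/
def det : E := g.a * g.d - g.b * g.c

/-- the automorphy factor `t_v(c) s_v + t_v(d)` -/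
def j (s : I → ℂ) (v : I) : ℂ := D.t (Sum.inl v) g.c * s v + D.t (Sum.inl v) g.d

/-- the action on the parameter space -/
def act (s : I → ℂ) : I → ℂ := fun v =>
  (D.t (Sum.inl v) g.a * s v + D.t (Sum.inl v) g.b) / g.j s v

/-- the linear map `M_g(s)` : `ζ_{gs}(g x) = M_g(s) ζ_s(x)` -/
def M (s : I → ℂ) (z : Co I J → ℂ) : Co I J → ℂ
  | Sum.inl (Sum.inl v) => D.t (Sum.inl v) g.det / g.j s v * z (i1 v)
  | Sum.inl (Sum.inr v) => D.t (Sum.inr v) g.a * z (j1 v) + D.t (Sum.inr v) g.b * z (j2 v)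
  | Sum.inr (Sum.inl v) => 1 / g.j s v * z (i2 v)
  | Sum.inr (Sum.inr v) => D.t (Sum.inr v) g.c * z (j1 v) + D.t (Sum.inr v) g.d * z (j2 v)

/-- the quadratic form `Q_g(s)(z)` -/
def Q (s : I → ℂ) (z : Co I J → ℂ) : ℂ :=
  ∑ v : I, D.A (Sum.inl v) * D.tb (Sum.inl v) g.b * D.t (Sum.inl v) g.det / g.j s v *
    z (i1 v) * z (i2 v)

end Iso

/-- the arithmetic group of level `N` -/
def Gam (B : Module.Basis (Co I J ⊕ Co I J) ℚ (E × E)) (N : ℕ) : Set D.Iso :=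
  {g | g.det = 1 ∧ (∀ x ∈ lat B, g.app x ∈ lat B) ∧ (∀ x ∈ lat B, ∃ y ∈ lat B, g.app y = x) ∧
    ∀ x ∈ lat B, ∃ y ∈ lat B, g.app x = x + (N : ℚ) • y}

/-- the points of `(1/m) Λ` with coordinates in `[0, 1)` -/
def Rm (B : Module.Basis (Co I J ⊕ Co I J) ℚ (E × E)) (m : ℕ) : Set (E × E) :=
  {x | ∃ k : Co I J ⊕ Co I J → ℕ, (∀ i, k i < m) ∧ x = ∑ i, ((k i : ℚ) / m) • B i}

/-- Data at a point `q`: nulls in `κ ℚbar`, gradients at the indefinite places in `κ c_i ℚbar`, minors at the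
definite places in `κ² C_v ℚbar` -/
def Hq (Θ : (I → ℂ) → (Co I J → ℂ) → ℂ) (q : I → ℂ) (C : J → ℂ) : Prop :=
  ∃ (κ : ℂ) (c : Co I J → ℂ), κ ≠ 0 ∧ (∀ i, c i ≠ 0) ∧ ∀ x,
    Alg (D.W Θ x q / κ) ∧ (∀ v : I, Alg (D.G Θ (i1 v) x q / (κ * c (i1 v))) ∧
      Alg (D.G Θ (i2 v) x q / (κ * c (i2 v)))) ∧
    ∀ (v : J) (y : E × E), Alg (D.Mi Θ v x y q / (κ ^ 2 * C v))

end FamData

end Fam

end

end Pool.Agent.SPF
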