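import Pool.Agent.SPF.OutKit

set_option linter.unusedSectionVars false
set_option linter.unusedSimpArgs false
set_option linter.unusedVariables false

/-!
# Module IRR: level `k` irreducibility
-/

open scoped BigOperators
open Complex

namespace Pool.Agent.SPF

noncomputable section

namespace IRR_

variable {V : Type} [AddCommGroup V] [Module ℚ V] {ι : Type} [Fintype ι] [DecidableEq ι]
variable {e : V →ₗ[ℚ] V →ₗ[ℚ] ℚ} {B : Module.Basis (ι ⊕ ι) ℚ V} {ζ L : V →ₗ[ℚ] (ι → ℂ)}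

/-- translation as a linear map -/
def Tl (ζ L : V →ₗ[ℚ] (ι → ℂ)) (k : ℕ) (x : V) : ((ι → ℂ) → ℂ) →ₗ[ℂ] ((ι → ℂ) → ℂ) where
  toFun F := TT ζ (⇑(k • L)) x F
  map_add' F G := by
    funext z
    exact TT_add (L := k • L) x F G z
  map_smul' a F := by
    funext z
    exact TT_smul (L := k • L) x a F z

theorem Tl_apply (k : ℕ) (x : V) (F : (ι → ℂ) → ℂ) : Tl ζ L k x F = TT ζ (⇑(k • L)) x F := rfl

theorem Tl_Tl (h : IsPStr e B ζ L) (k : ℕ) (x y : V) (F : (ι → ℂ) → ℂ) :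
    Tl ζ L k x (Tl ζ L k y F) =
      cexp (Real.pi * I * (k * (e x y : ℚ))) • Tl ζ L k (x + y) F := by
  funext z
  exact TTk_TTk h k x y F z

theorem Tl_comm (h : IsPStr e B ζ L) (halt : ∀ x, e x x = 0) (k : ℕ) (x y : V)
    (F : (ι → ℂ) → ℂ) :
    Tl ζ L k x (Tl ζ L k y F) =
      cexp (2 * Real.pi * I * (k * (e x y : ℚ))) • Tl ζ L k y (Tl ζ L k x F) := by
  funext z
  exact TTk_comm h k halt x y F z

theorem Tl_Tl' (h : IsPStr e B ζ L) (k : ℕ) (x y : V) (hxy : e x y = 0) (F : (ι → ℂ) → ℂ) :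
    Tl ζ L k x (Tl ζ L k y F) = Tl ζ L k (x + y) F := by
  rw [Tl_Tl h, hxy]
  simp

theorem Tl_zero (k : ℕ) (F : (ι → ℂ) → ℂ) : Tl ζ L k 0 F = F := TTk_zero k F

theorem Tl_ne_zero (k : ℕ) (x : V) (F : (ι → ℂ) → ℂ) (hF : F ≠ 0) : Tl ζ L k x F ≠ 0 := by
  intro h0
  apply hF
  exact (TT_eq_iff_ne_zero (L := k • L) x F).1 h0

/-- `∑ r_i B (inl i)` -/
def UU (B : Module.Basis (ι ⊕ ι) ℚ V) (r : ι → ℚ) : V := ∑ i, r i • B (Sum.inl i)
/-- `∑ r_i B (inr i)` -/
def YY (B : Module.Basis (ι ⊕ ι) ℚ V) (r : ι → ℚ) : V := ∑ i, r i • B (Sum.inr i)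

theorem e_UU (hS : SympBasis e B) (r s : ι → ℚ) : e (UU B r) (UU B s) = 0 := by
  unfold UU
  simp only [map_sum, LinearMap.sum_apply, map_smul, LinearMap.smul_apply, hS.ll, smul_zero,
    Finset.sum_const_zero]

theorem e_YY (hS : SympBasis e B) (r s : ι → ℚ) : e (YY B r) (YY B s) = 0 := by
  unfold YY
  simp only [map_sum, LinearMap.sum_apply, map_smul, LinearMap.smul_apply, hS.rr, smul_zero,
    Finset.sum_const_zero]

theorem e_UY (hS : SympBasis e B) (r s : ι → ℚ) : e (UU B r) (YY B s) = ∑ i, r i * s i := by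
  unfold UU YY
  simp only [map_sum, LinearMap.sum_apply, map_smul, LinearMap.smul_apply, hS.lr, smul_eq_mul,
    mul_ite, mul_one, mul_zero, Finset.sum_ite_eq, Finset.sum_ite_eq', Finset.mem_univ, if_true]
  exact Finset.sum_congr rfl fun i _ => mul_comm _ _

theorem UU_single (j : ι) (c : ℚ) : UU B (Pi.single j c) = c • B (Sum.inl j) := by
  unfold UU
  rw [Finset.sum_eq_single j]
  · simp
  · intro i _ hi
    rw [Pi.single_eq_of_ne hi, zero_smul]
  · intro h; exact absurd (Finset.mem_univ _) h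

theorem YY_single (j : ι) (c : ℚ) : YY B (Pi.single j c) = c • B (Sum.inr j) := by
  unfold YY
  rw [Finset.sum_eq_single j]
  · simp
  · intro i _ hi
    rw [Pi.single_eq_of_ne hi, zero_smul]
  · intro h; exact absurd (Finset.mem_univ _) h

theorem UU_add (r s : ι → ℚ) : UU B (r + s) = UU B r + UU B s := by
  unfold UU
  simp only [Pi.add_apply, add_smul, Finset.sum_add_distrib]

theorem YY_neg (r : ι → ℚ) : YY B (-r) = - YY B r := by
  unfold YY
  simp only [Pi.neg_apply, neg_smul, Finset.sum_neg_distrib]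

/-- fractions `a_i / k` -/
def fr (k : ℕ) (a : ι → ZMod k) : ι → ℚ := fun i => ((a i).val : ℚ) / k

variable {k : ℕ}

/-- the (unnormalised) projection to the eigencharacter `m` -/
def EE (ζ L : V →ₗ[ℚ] (ι → ℂ)) (B : Module.Basis (ι ⊕ ι) ℚ V) (k : ℕ) [NeZero k]
    (m : ι → ZMod k) (G : (ι → ℂ) → ℂ) : (ι → ℂ) → ℂ :=
  ∑ a : ι → ZMod k, (ZMod.stdAddChar (-(∑ i, m i * a i)) : ℂ) • Tl ζ L k (UU B (fr k a)) G

theorem per0 {G : (ι → ℂ) → ℂ} (hG : IsTk e ζ L B k 0 G) (j : ι ⊕ ι) :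
    Tl ζ L k (B j) G = G := by
  funext z
  rw [Tl_apply, hG.per j z]
  simp

/-- shift of the index -/
theorem shift (h : IsPStr e B ζ L) (hS : SympBasis e B) [NeZero k] {G : (ι → ℂ) → ℂ}
    (hG : IsTk e ζ L B k 0 G) (j : ι) (a : ι → ZMod k) :
    Tl ζ L k ((1 / (k : ℚ)) • B (Sum.inl j)) (Tl ζ L k (UU B (fr k a)) G) =
      Tl ζ L k (UU B (fr k (a + Pi.single j 1))) G := by
  have hk : (k : ℚ) ≠ 0 := Nat.cast_ne_zero.2 (NeZero.ne k)
  have h1 : (1 / (k : ℚ)) • B (Sum.inl j) = UU B (Pi.single j (1 / (k : ℚ))) := (UU_single _ _).symm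
  rw [h1, Tl_Tl' h k _ _ (e_UU hS _ _)]
  by_cases hlt : (a j).val + 1 < k
  · have h2 : UU B (Pi.single j (1 / (k : ℚ))) + UU B (fr k a) = UU B (fr k (a + Pi.single j 1)) := by
      rw [← UU_add]
      congr 1
      funext i
      by_cases hi : i = j
      · subst hi
        simp only [Pi.add_apply, Pi.single_eq_same, fr]
        have h3 : (a i + 1).val = (a i).val + 1 := by
          rw [ZMod.val_add, ZMod.val_one_eq_one_mod, Nat.add_mod_mod, Nat.mod_eq_of_lt hlt]
        rw [h3]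
        push_cast
        field_simp
        ring
      · simp only [Pi.add_apply, Pi.single_eq_of_ne hi, fr, add_zero, zero_add]
    rw [h2]
  · have hlt' : (a j).val + 1 = k := by
      have := ZMod.val_lt (a j)
      omega
    have h2 : UU B (Pi.single j (1 / (k : ℚ))) + UU B (fr k a) =
        UU B (fr k (a + Pi.single j 1)) + UU B (Pi.single j 1) := by
      rw [← UU_add, ← UU_add]
      congr 1
      funext i
      by_cases hi : i = j
      · subst hi
        simp only [Pi.add_apply, Pi.single_eq_same, fr]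
        have h3 : (a i + 1).val = 0 := by
          rw [ZMod.val_add, ZMod.val_one_eq_one_mod, Nat.add_mod_mod, hlt', Nat.mod_self]
        rw [h3]
        have h4 : ((a i).val : ℚ) = k - 1 := by
          have : (((a i).val + 1 : ℕ) : ℚ) = k := by rw [hlt']
          push_cast at this
          linarith
        rw [h4]
        field_simp
        ring
      · simp only [Pi.add_apply, Pi.single_eq_of_ne hi, fr, add_zero, zero_add]
    rw [h2, ← Tl_Tl' h k _ _ (e_UU hS _ _), UU_single, one_smul, per0 hG]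

theorem EE_eig (h : IsPStr e B ζ L) (hS : SympBasis e B) [NeZero k] {G : (ι → ℂ) → ℂ}
    (hG : IsTk e ζ L B k 0 G) (m : ι → ZMod k) (j : ι) :
    Tl ζ L k ((1 / (k : ℚ)) • B (Sum.inl j)) (EE ζ L B k m G) =
      (ZMod.stdAddChar (m j) : ℂ) • EE ζ L B k m G := by
  unfold EE
  rw [map_sum, Finset.smul_sum]
  have h1 : ∀ a : ι → ZMod k, Tl ζ L k ((1 / (k : ℚ)) • B (Sum.inl j))
      ((ZMod.stdAddChar (-(∑ i, m i * a i)) : ℂ) • Tl ζ L k (UU B (fr k a)) G) =
      (ZMod.stdAddChar (-(∑ i, m i * a i)) : ℂ) • Tl ζ L k (UU B (fr k (a + Pi.single j 1))) G := by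
    intro a
    rw [map_smul, shift h hS hG]
  rw [Finset.sum_congr rfl fun a _ => h1 a]
  refine Fintype.sum_equiv (Equiv.addRight (Pi.single j (1 : ZMod k))) _ _ fun a => ?_
  rw [smul_smul]
  have h2 : (Equiv.addRight (Pi.single j (1 : ZMod k))) a = a + Pi.single j 1 := rfl
  rw [h2, ← AddChar.map_add_eq_mul]
  congr 2
  have h3 : ∑ i, m i * (a + Pi.single j (1 : ZMod k) : ι → ZMod k) i = ∑ i, m i * a i + m j := by
    simp only [Pi.add_apply, mul_add, Finset.sum_add_distrib]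
    congr 1
    rw [Finset.sum_eq_single j]
    · simp
    · intro i _ hi
      rw [Pi.single_eq_of_ne hi, mul_zero]
    · intro h; exact absurd (Finset.mem_univ _) h
  rw [h3]
  ring

theorem char_sum [NeZero k] (t : Finset ι) (f : ι → ZMod k) :
    (ZMod.stdAddChar (∑ i ∈ t, f i) : ℂ) = ∏ i ∈ t, (ZMod.stdAddChar (f i) : ℂ) := by
  refine Finset.induction_on t ?_ ?_
  · rw [Finset.sum_empty, Finset.prod_empty, AddChar.map_zero_eq_one]
  · intro i s hi ih
    rw [Finset.sum_insert hi, Finset.prod_insert hi, AddChar.map_add_eq_mul, ih]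

theorem EE_sum [NeZero k] (G : (ι → ℂ) → ℂ) :
    ∑ m : ι → ZMod k, EE ζ L B k m G = ((k : ℂ) ^ Fintype.card ι) • G := by
  unfold EE
  rw [Finset.sum_comm]
  have h1 : ∀ a : ι → ZMod k, ∑ m : ι → ZMod k,
      (ZMod.stdAddChar (-(∑ i, m i * a i)) : ℂ) • Tl ζ L k (UU B (fr k a)) G =
      (if a = 0 then ((k : ℂ) ^ Fintype.card ι) else 0) • Tl ζ L k (UU B (fr k a)) G := by
    intro a
    rw [← Finset.sum_smul]
    congr 1
    have h2 : ∀ m : ι → ZMod k, (ZMod.stdAddChar (-(∑ i, m i * a i)) : ℂ) =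
        ∏ i, (ZMod.stdAddChar (m i * (-(a i))) : ℂ) := by
      intro m
      rw [← char_sum]
      congr 1
      rw [← Finset.sum_neg_distrib]
      exact Finset.sum_congr rfl fun i _ => by ring
    rw [Finset.sum_congr rfl fun m _ => h2 m]
    have h3 := Finset.prod_univ_sum (fun _ : ι => (Finset.univ : Finset (ZMod k)))
      (fun i c => (ZMod.stdAddChar (c * (-(a i))) : ℂ))
    rw [Fintype.piFinset_univ] at h3
    rw [← h3]
    have h4 : ∀ i, ∑ c : ZMod k, (ZMod.stdAddChar (c * (-(a i))) : ℂ) =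
        if a i = 0 then (k : ℂ) else 0 := by
      intro i
      have := AddChar.sum_mulShift (-(a i)) (ZMod.isPrimitive_stdAddChar k)
      rw [this, ZMod.card]
      simp only [neg_eq_zero]
      split_ifs <;> simp
    rw [Finset.prod_congr rfl fun i _ => h4 i]
    by_cases ha : a = 0
    · subst ha
      simp
    · rw [if_neg ha]
      obtain ⟨i, hi⟩ := Function.ne_iff.1 ha
      refine Finset.prod_eq_zero (Finset.mem_univ i) ?_
      exact if_neg hi
  rw [Finset.sum_congr rfl fun a _ => h1 a]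
  rw [Finset.sum_eq_single 0]
  · rw [if_pos rfl]
    have h5 : UU B (fr k (0 : ι → ZMod k)) = 0 := by
      unfold UU fr
      refine Finset.sum_eq_zero fun i _ => ?_
      simp
    rw [h5, Tl_zero]
  · intro a _ ha
    rw [if_neg ha, zero_smul]
  · intro h; exact absurd (Finset.mem_univ _) h

/-- the new basis -/
def wt (k : ℕ) : ι ⊕ ι → ℚ
  | Sum.inl _ => 1 / (k : ℚ)
  | Sum.inr _ => 1

theorem wt_unit (hk : 0 < k) (j : ι ⊕ ι) : IsUnit (wt k j) := by
  have : (k : ℚ) ≠ 0 := Nat.cast_ne_zero.2 hk.ne'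
  rcases j with i | i
  · exact (one_div_ne_zero this).isUnit
  · exact isUnit_one

/-- the basis `B'` -/
def BB (B : Module.Basis (ι ⊕ ι) ℚ V) (hk : 0 < k) : Module.Basis (ι ⊕ ι) ℚ V :=
  B.isUnitSMul (w := wt k) (wt_unit hk)

theorem BB_apply (hk : 0 < k) (j : ι ⊕ ι) : BB B hk j = wt k j • B j :=
  Module.Basis.isUnitSMul_apply _ _

theorem sympBB (hS : SympBasis e B) (hk : 0 < k) : SympBasis (k • e) (BB B hk) := by
  have hk' : (k : ℚ) ≠ 0 := Nat.cast_ne_zero.2 hk.ne'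
  have key : ∀ x y, (k • e) x y = k * e x y := by
    intro x y
    simp [nsmul_eq_mul]
  have e2 : ∀ (a b : ℚ) (x y : V), e (a • x) (b • y) = a * b * e x y := by
    intro a b x y
    simp only [map_smul, LinearMap.smul_apply, smul_eq_mul]
    ring
  constructor
  · intro x; rw [key, hS.alt, mul_zero]
  · intro i j
    rw [key, BB_apply, BB_apply, e2, hS.ll]
    simp
  · intro i j
    rw [key, BB_apply, BB_apply, e2, hS.rr]
    simp
  · intro i j
    rw [key, BB_apply, BB_apply, e2, hS.lr]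
    simp only [wt, smul_eq_mul, mul_one]
    split_ifs
    · field_simp
    · simp

theorem pstrBB (h : IsPStr e B ζ L) (hk : 0 < k) : IsPStr (k • e) (BB B hk) ζ (k • L) := by
  have hn := h.nsmul k hk
  constructor
  · exact hn.rel
  · intro r hr
    have h1 : (fun j => (wt k j : ℝ) * r j) ≠ 0 := by
      intro h0
      apply hr
      funext j
      have h2 := congrFun h0 j
      simp only [Pi.zero_apply, mul_eq_zero] at h2
      rcases h2 with h2 | h2
      · exact absurd (by exact_mod_cast h2) (wt_unit hk j).ne_zero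
      · exact h2
    have h3 := hn.pos _ h1
    have h4 : (∑ j, ∑ l, (((wt k j : ℝ) * r j : ℝ) : ℂ) * (((wt k l : ℝ) * r l : ℝ) : ℂ) *
        dotp ((k • L) (B j)) (ζ (B l))) =
        ∑ j, ∑ l, (r j : ℂ) * (r l : ℂ) * dotp ((k • L) (BB B hk j)) (ζ (BB B hk l)) := by
      refine Finset.sum_congr rfl fun j _ => Finset.sum_congr rfl fun l _ => ?_
      rw [BB_apply, BB_apply, map_smul, map_smul]
      have h5 : ∀ (q q' : ℚ) (a z : ι → ℂ), dotp (q • a) (q' • z) = (q : ℂ) * (q' : ℂ) * dotp a z := by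
        intro q q' a z
        simp only [dotp, Pi.smul_apply, Finset.mul_sum, Rat.smul_def]
        exact Finset.sum_congr rfl fun i _ => by ring
      rw [h5]
      push_cast
      ring
    rw [← h4]
    exact h3

theorem EE_diff [NeZero k] {G : (ι → ℂ) → ℂ} (hG : Differentiable ℂ G) (m : ι → ZMod k) :
    Differentiable ℂ (EE ζ L B k m G) := by
  unfold EE
  refine Differentiable.sum fun a _ => ?_
  refine Differentiable.const_smul ?_ _
  exact TT_differentiable (L := k • L) _ hG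

theorem EE_inr (h : IsPStr e B ζ L) (hS : SympBasis e B) [NeZero k] {G : (ι → ℂ) → ℂ}
    (hG : IsTk e ζ L B k 0 G) (m : ι → ZMod k) (j : ι) :
    Tl ζ L k (B (Sum.inr j)) (EE ζ L B k m G) = EE ζ L B k m G := by
  have hk : (k : ℚ) ≠ 0 := Nat.cast_ne_zero.2 (NeZero.ne k)
  unfold EE
  rw [map_sum]
  refine Finset.sum_congr rfl fun a _ => ?_
  rw [map_smul, Tl_comm h hS.alt, per0 hG]
  have h1 : e (B (Sum.inr j)) (UU B (fr k a)) = -(((a j).val : ℚ) / k) := by
    rw [e_swap hS.alt]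
    have h2 : B (Sum.inr j) = YY B (Pi.single j 1) := by rw [YY_single, one_smul]
    rw [h2, e_UY hS]
    congr 1
    rw [Finset.sum_eq_single j]
    · simp [fr]
    · intro i _ hi
      rw [Pi.single_eq_of_ne hi, mul_zero]
    · intro h; exact absurd (Finset.mem_univ _) h
  have h3 : cexp (2 * Real.pi * I * (k * (e (B (Sum.inr j)) (UU B (fr k a)) : ℚ))) = 1 := by
    rw [h1]
    have hkc : (k : ℂ) ≠ 0 := Nat.cast_ne_zero.2 (NeZero.ne k)
    have h4 : (2 * Real.pi * I * (k * ((-(((a j).val : ℚ) / k) : ℚ) : ℂ)) : ℂ) =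
        ((-((a j).val : ℤ) : ℤ) : ℂ) * (2 * Real.pi * I) := by
      push_cast
      field_simp
    rw [h4]
    exact Complex.exp_int_mul_two_pi_mul_I _
  rw [h3, one_smul]

/-- the translated eigenfunction is a theta function for `B'` -/
theorem isTh (h : IsPStr e B ζ L) (hS : SympBasis e B) [NeZero k] (hk : 0 < k)
    {G : (ι → ℂ) → ℂ} (hG : IsTk e ζ L B k 0 G) (m : ι → ZMod k) :
    IsTh ζ (⇑(k • L)) (BB B hk) (Tl ζ L k (-(YY B (fr k m))) (EE ζ L B k m G)) := by
  have hk' : (k : ℚ) ≠ 0 := Nat.cast_ne_zero.2 hk.ne'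
  have hkc : (k : ℂ) ≠ 0 := Nat.cast_ne_zero.2 hk.ne'
  constructor
  · exact TT_differentiable (L := k • L) _ (EE_diff hG.entire m)
  · intro j
    have goal : Tl ζ L k (BB B hk j) (Tl ζ L k (-(YY B (fr k m))) (EE ζ L B k m G)) =
        Tl ζ L k (-(YY B (fr k m))) (EE ζ L B k m G) := by
      rcases j with j | j
      · have h1 : BB B hk (Sum.inl j) = (1 / (k : ℚ)) • B (Sum.inl j) := BB_apply hk _
        rw [h1, Tl_comm h hS.alt, EE_eig h hS hG,
          LinearMap.map_smul (Tl ζ L k (-(YY B (fr k m)))), smul_smul]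
        have h2 : e ((1 / (k : ℚ)) • B (Sum.inl j)) (-(YY B (fr k m))) =
            -((1 / (k : ℚ)) * (((m j).val : ℚ) / k)) := by
          rw [← YY_neg, ← UU_single, e_UY hS, Finset.sum_eq_single j]
          · simp [fr]
          · intro i _ hi
            rw [Pi.single_eq_of_ne hi, zero_mul]
          · intro h; exact absurd (Finset.mem_univ _) h
        have h3 : cexp (2 * Real.pi * I * (k * (e ((1 / (k : ℚ)) • B (Sum.inl j))
            (-(YY B (fr k m))) : ℚ))) * (ZMod.stdAddChar (m j) : ℂ) = 1 := by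
          rw [h2]
          have h5 : (ZMod.stdAddChar (m j) : ℂ) = cexp (2 * Real.pi * I * ((m j).val : ℂ) / k) := by
            have h6 := ZMod.stdAddChar_coe (N := k) ((m j).val : ℤ)
            have h7 : (((m j).val : ℤ) : ZMod k) = m j := by
              rw [Int.cast_natCast, ZMod.natCast_zmod_val]
            rw [h7] at h6
            rw [h6]
            norm_cast
          rw [h5, ← Complex.exp_add]
          have h8 : (2 * Real.pi * I * (k * ((-((1 / (k : ℚ)) * (((m j).val : ℚ) / k)) : ℚ) : ℂ)) +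
              2 * Real.pi * I * ((m j).val : ℂ) / k : ℂ) = 0 := by
            push_cast
            field_simp
            ring
          rw [h8, Complex.exp_zero]
        rw [h3, one_smul]
      · have h1 : BB B hk (Sum.inr j) = B (Sum.inr j) := by
          rw [BB_apply]
          exact one_smul _ _
        rw [h1, Tl_comm h hS.alt, EE_inr h hS hG]
        have h2 : e (B (Sum.inr j)) (-(YY B (fr k m))) = 0 := by
          have h3 : B (Sum.inr j) = YY B (Pi.single j 1) := by rw [YY_single, one_smul]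
          rw [← YY_neg, h3, e_YY hS]
        rw [h2]
        simp
    exact goal

theorem mem_lat_single (hk : 0 < k) (j : ι ⊕ ι) (n : ℕ) :
    (k : ℚ) • (((n : ℚ) / k) • B j) ∈ lat B := by
  have hk' : (k : ℚ) ≠ 0 := Nat.cast_ne_zero.2 hk.ne'
  have h1 : (k : ℚ) • (((n : ℚ) / k) • B j) = n • B j := by
    rw [smul_smul, mul_div_cancel₀ _ hk', Nat.cast_smul_eq_nsmul]
  rw [h1]
  exact AddSubgroup.nsmul_mem _ (AddSubgroup.subset_closure (Set.mem_range_self j)) n

theorem mem_lat_UU (hk : 0 < k) (a : ι → ZMod k) : (k : ℚ) • UU B (fr k a) ∈ lat B := by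
  unfold UU
  rw [Finset.smul_sum]
  exact AddSubgroup.sum_mem _ fun i _ => mem_lat_single hk _ _

theorem mem_lat_YY (hk : 0 < k) (a : ι → ZMod k) : (k : ℚ) • YY B (fr k a) ∈ lat B := by
  unfold YY
  rw [Finset.smul_sum]
  exact AddSubgroup.sum_mem _ fun i _ => mem_lat_single hk _ _

/-- the case `w = 0` -/
theorem main0 (hTHU : Stmt_THU) (hS : SympBasis e B) (h : IsPStr e B ζ L) (hk : 0 < k)
    {F G : (ι → ℂ) → ℂ} (hF : IsTk e ζ L B k 0 F) (hF0 : F ≠ 0) (hG : IsTk e ζ L B k 0 G) :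
    G ∈ Submodule.span ℂ {H | ∃ y : V, (k : ℚ) • y ∈ lat B ∧ H = TT ζ (⇑(k • L)) y F} := by
  have : NeZero k := ⟨hk.ne'⟩
  have hkc : (k : ℂ) ≠ 0 := Nat.cast_ne_zero.2 hk.ne'
  obtain ⟨m₀, hm₀⟩ : ∃ m₀ : ι → ZMod k, EE ζ L B k m₀ F ≠ 0 := by
    by_contra hne
    simp only [not_exists, not_not, ne_eq] at hne
    have h1 := EE_sum (ζ := ζ) (L := L) (B := B) (k := k) F
    rw [Finset.sum_eq_zero fun m _ => hne m] at h1
    have h2 : ((k : ℂ) ^ Fintype.card ι) ≠ 0 := pow_ne_zero _ hkc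
    exact hF0 ((smul_eq_zero_iff_right h2).1 h1.symm)
  have hPhi := isTh h hS hk hF m₀
  have hPhi0 := Tl_ne_zero (ζ := ζ) (L := L) k (-(YY B (fr k m₀))) _ hm₀
  have hEm : ∀ m : ι → ZMod k, EE ζ L B k m G ∈
      Submodule.span ℂ {H | ∃ y : V, (k : ℚ) • y ∈ lat B ∧ H = TT ζ (⇑(k • L)) y F} := by
    intro m
    obtain ⟨c, hc⟩ := hTHU V ι (k • e) (BB B hk) ζ (k • L) (sympBB hS hk) (pstrBB h hk) _ _
      hPhi (isTh h hS hk hG m) hPhi0
    have h1 : Tl ζ L k (-(YY B (fr k m))) (EE ζ L B k m G) =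
        c • Tl ζ L k (-(YY B (fr k m₀))) (EE ζ L B k m₀ F) := hc
    have h2 : EE ζ L B k m G = Tl ζ L k (YY B (fr k m))
        (Tl ζ L k (-(YY B (fr k m))) (EE ζ L B k m G)) := by
      rw [Tl_Tl' h, add_neg_cancel, Tl_zero]
      rw [← YY_neg, e_YY hS]
    rw [h2, h1, map_smul]
    refine Submodule.smul_mem _ _ ?_
    unfold EE
    rw [map_sum, map_sum]
    refine Submodule.sum_mem _ fun a _ => ?_
    rw [map_smul, map_smul]
    refine Submodule.smul_mem _ _ ?_
    rw [Tl_Tl h, Tl_Tl h, smul_smul]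
    refine Submodule.smul_mem _ _ (Submodule.subset_span ⟨_, ?_, rfl⟩)
    rw [smul_add, smul_add, smul_neg]
    exact AddSubgroup.add_mem _ (AddSubgroup.add_mem _ (mem_lat_YY hk m)
      (AddSubgroup.neg_mem _ (mem_lat_YY hk m₀))) (mem_lat_UU hk a)
  have h3 := EE_sum (ζ := ζ) (L := L) (B := B) (k := k) G
  have h4 : ((k : ℂ) ^ Fintype.card ι) ≠ 0 := pow_ne_zero _ hkc
  have h5 : G = ((k : ℂ) ^ Fintype.card ι)⁻¹ • ∑ m : ι → ZMod k, EE ζ L B k m G := by
    rw [h3, smul_smul, inv_mul_cancel₀ h4, one_smul]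
  rw [h5]
  exact Submodule.smul_mem _ _ (Submodule.sum_mem _ fun m _ => hEm m)

end IRR_

open IRR_ in
theorem irr_proof (hTHU : Stmt_THU) : Stmt_IRR := by
  intro V _ _ ι _ _ e B ζ L hS h k w F G hk hF hF0 hG
  have hk' : (k : ℚ) ≠ 0 := Nat.cast_ne_zero.2 hk.ne'
  set y₀ : V := -((1 / (k : ℚ)) • w) with hy₀
  have hw : w + (k : ℚ) • y₀ = 0 := by
    rw [hy₀, smul_neg, smul_smul, mul_one_div_cancel hk', one_smul, add_neg_cancel]
  have hF' := hF.translate hS h y₀
  have hG' := hG.translate hS h y₀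
  rw [hw] at hF' hG'
  have hF0' : TT ζ (⇑(k • L)) y₀ F ≠ 0 := Tl_ne_zero (ζ := ζ) (L := L) k y₀ F hF0
  have hmain := main0 hTHU hS h hk hF' hF0' hG'
  have h1 : G = Tl ζ L k (-y₀) (TT ζ (⇑(k • L)) y₀ G) := by
    have h2 : Tl ζ L k (-y₀) (Tl ζ L k y₀ G) = G := by
      rw [Tl_Tl' h, neg_add_cancel, Tl_zero]
      have h3 : ∀ x : V, e (-x) x = 0 := by
        intro x
        rw [map_neg, LinearMap.neg_apply, hS.alt, neg_zero]
      exact h3 y₀
    exact h2.symm
  rw [h1]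
  have h3 : Tl ζ L k (-y₀) (TT ζ (⇑(k • L)) y₀ G) ∈ Submodule.map (Tl ζ L k (-y₀))
      (Submodule.span ℂ {H | ∃ y : V, (k : ℚ) • y ∈ lat B ∧
        H = TT ζ (⇑(k • L)) y (TT ζ (⇑(k • L)) y₀ F)}) := Submodule.mem_map_of_mem hmain
  rw [Submodule.map_span] at h3
  refine Submodule.span_le.2 ?_ h3
  rintro _ ⟨_, ⟨y, hy, rfl⟩, rfl⟩
  have h4 : Tl ζ L k (-y₀) (TT ζ (⇑(k • L)) y (TT ζ (⇑(k • L)) y₀ F)) =
      cexp (Real.pi * I * (k * (e (-y₀) y : ℚ))) • cexp (Real.pi * I * (k * (e (-y₀ + y) y₀ : ℚ))) •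
        Tl ζ L k y F := by
    have h5 : TT ζ (⇑(k • L)) y (TT ζ (⇑(k • L)) y₀ F) = Tl ζ L k y (Tl ζ L k y₀ F) := rfl
    rw [h5, Tl_Tl h, Tl_Tl h]
    have h6 : -y₀ + y + y₀ = y := by abel
    rw [h6]
  rw [SetLike.mem_coe, h4]
  exact Submodule.smul_mem _ _ (Submodule.smul_mem _ _ (Submodule.subset_span ⟨y, hy, rfl⟩))

end

end Pool.Agent.SPF
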