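import Pool.Agent.SPF.Stmts

set_option linter.unusedSectionVars false
set_option linter.unusedSimpArgs false
set_option linter.deprecated false

/-!
# Kit: basic lemmas
-/

open scoped BigOperators
open Complex

namespace Pool.Agent.SPF

noncomputable section

section dot

variable {ι : Type} [Fintype ι]

theorem dotp_add_right (a z w : ι → ℂ) : dotp a (z + w) = dotp a z + dotp a w := by
  simp only [dotp, Pi.add_apply, mul_add, Finset.sum_add_distrib]

theorem dotp_add_left (a b z : ι → ℂ) : dotp (a + b) z = dotp a z + dotp b z := by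
  simp only [dotp, Pi.add_apply, add_mul, Finset.sum_add_distrib]

theorem dotp_smul_right (a z : ι → ℂ) (r : ℂ) : dotp a (r • z) = r * dotp a z := by
  simp only [dotp, Pi.smul_apply, smul_eq_mul, Finset.mul_sum]
  exact Finset.sum_congr rfl fun i _ => by ring

theorem dotp_smul_left (a z : ι → ℂ) (r : ℂ) : dotp (r • a) z = r * dotp a z := by
  simp only [dotp, Pi.smul_apply, smul_eq_mul, Finset.mul_sum]
  exact Finset.sum_congr rfl fun i _ => by ring

theorem dotp_zero_right (a : ι → ℂ) : dotp a 0 = 0 := by simp [dotp]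

theorem dotp_zero_left (a : ι → ℂ) : dotp 0 a = 0 := by simp [dotp]

theorem dotp_neg_right (a z : ι → ℂ) : dotp a (-z) = -dotp a z := by simp [dotp]

theorem dotp_neg_left (a z : ι → ℂ) : dotp (-a) z = -dotp a z := by simp [dotp]

theorem dotp_comm (a z : ι → ℂ) : dotp a z = dotp z a := by
  simp only [dotp]
  exact Finset.sum_congr rfl fun i _ => mul_comm _ _

theorem differentiable_dotp (a : ι → ℂ) : Differentiable ℂ (fun z : ι → ℂ => dotp a z) := by
  unfold dotp
  fun_prop

end dot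

section TTs

variable {V : Type} [AddCommGroup V] [Module ℚ V] {ι : Type} [Fintype ι] [DecidableEq ι]
variable {e : V →ₗ[ℚ] V →ₗ[ℚ] ℚ} {B : Module.Basis (ι ⊕ ι) ℚ V} {ζ L : V →ₗ[ℚ] (ι → ℂ)}

theorem TT_zero (ζ L : V →ₗ[ℚ] (ι → ℂ)) (F : (ι → ℂ) → ℂ) : TT ζ L 0 F = F := by
  funext z
  simp [TT, dotp_zero_left]

/-- Heisenberg relation -/
theorem TT_TT (h : IsPStr e B ζ L) (x y : V) (F : (ι → ℂ) → ℂ) (z : ι → ℂ) :
    TT ζ L x (TT ζ L y F) z = cexp (Real.pi * I * (e x y : ℚ)) * TT ζ L (x + y) F z := by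
  have hr := h.rel x y
  simp only [TT, map_add, dotp_add_right, dotp_add_left]
  have e1 : z + ζ x + ζ y = z + (ζ x + ζ y) := by rw [add_assoc]
  rw [e1, ← mul_assoc, ← mul_assoc, ← Complex.exp_add, ← Complex.exp_add]
  congr 2
  linear_combination (1/2 : ℂ) * hr

theorem TT_smul (x : V) (a : ℂ) (F : (ι → ℂ) → ℂ) (z : ι → ℂ) :
    TT ζ L x (fun z => a * F z) z = a * TT ζ L x F z := by
  simp only [TT]; ring

theorem TT_add (x : V) (F G : (ι → ℂ) → ℂ) (z : ι → ℂ) :
    TT ζ L x (fun z => F z + G z) z = TT ζ L x F z + TT ζ L x G z := by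
  simp only [TT]; ring

theorem TT_sum {κ : Type} (t : Finset κ) (x : V) (F : κ → (ι → ℂ) → ℂ) (z : ι → ℂ) :
    TT ζ L x (fun z => ∑ k ∈ t, F k z) z = ∑ k ∈ t, TT ζ L x (F k) z := by
  simp only [TT, Finset.mul_sum]

theorem TT_differentiable (x : V) {F : (ι → ℂ) → ℂ} (hF : Differentiable ℂ F) :
    Differentiable ℂ (TT ζ L x F) := by
  unfold TT
  have h1 : Differentiable ℂ fun z : ι → ℂ => -(dotp (L x) z) - dotp (L x) (ζ x) / 2 :=
    (differentiable_dotp _).neg.sub_const _
  have h2 : Differentiable ℂ fun z : ι → ℂ => F (z + ζ x) :=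
    hF.comp (differentiable_id.add_const _)
  exact (h1.cexp).mul h2

theorem TT_comb (h : IsPStr e B ζ L) (x : V) (C : V →₀ ℂ) (F : (ι → ℂ) → ℂ) (z : ι → ℂ) :
    TT ζ L x (comb ζ L C F) z =
      C.sum fun y a => a * cexp (Real.pi * I * (e x y : ℚ)) * TT ζ L (x + y) F z := by
  have h1 : comb ζ L C F = fun z => ∑ y ∈ C.support, (fun z => C y * TT ζ L y F z) z := rfl
  rw [h1, TT_sum]
  simp only [Finsupp.sum]
  refine Finset.sum_congr rfl fun y _ => ?_
  rw [TT_smul, TT_TT h]
  ring

theorem TT_eq_iff_ne_zero (x : V) (F : (ι → ℂ) → ℂ) : TT ζ L x F = 0 ↔ F = 0 := by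
  constructor
  · intro h
    funext z
    have := congrFun h (z - ζ x)
    simp only [TT, sub_add_cancel, Pi.zero_apply, mul_eq_zero, Complex.exp_ne_zero, false_or] at this
    simpa using this
  · intro h
    funext z
    simp [TT, h]

/-- value of the partial derivative of a translate -/
theorem pd_TT (x : V) {F : (ι → ℂ) → ℂ} (hF : Differentiable ℂ F) (i : ι) (z : ι → ℂ) :
    pd i (TT ζ L x F) z = cexp (-(dotp (L x) z) - dotp (L x) (ζ x) / 2) *
      (pd i F (z + ζ x) - L x i * F (z + ζ x)) := by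
  unfold pd
  have h1 : HasFDerivAt (fun z : ι → ℂ => dotp (L x) z)
      (∑ j, (L x j) • (ContinuousLinearMap.proj (R := ℂ) (φ := fun _ : ι => ℂ) j)) z := by
    unfold dotp
    refine HasFDerivAt.fun_sum fun j _ => ?_
    exact (hasFDerivAt_apply j z).const_mul (L x j)
  have h2 := ((h1.neg).sub_const (dotp (L x) (ζ x) / 2)).cexp
  have h3 : HasFDerivAt (fun z : ι → ℂ => F (z + ζ x)) (fderiv ℂ F (z + ζ x)) z := by
    have := (hF (z + ζ x)).hasFDerivAt.comp z ((hasFDerivAt_id z).add_const (ζ x))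
    rw [ContinuousLinearMap.comp_id] at this
    exact this
  have h4 := h2.mul h3
  have h5 : fderiv ℂ (TT ζ L x F) z = _ := h4.fderiv
  rw [h5]
  simp only [ContinuousLinearMap.add_apply, ContinuousLinearMap.smul_apply,
    ContinuousLinearMap.neg_apply, ContinuousLinearMap.sum_apply, ContinuousLinearMap.proj_apply,
    smul_eq_mul]
  have h6 : ∑ j, L x j * (Pi.single (M := fun _ => ℂ) i 1) j = L x i := by
    simp [Pi.single_apply]
  rw [h6]
  simp only [Pi.neg_apply]
  ring

end TTs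

section Dom

variable {E : Type} [Field E] [NumberField E] {I J : Type} [Fintype I] [Fintype J]
  [DecidableEq I] [DecidableEq J] (D : FamData E I J)

theorem FamData.b_pos (v : I) : 0 < D.b v := by
  unfold FamData.b
  have h1 := D.pos1 (Sum.inl v)
  have h2 := D.posI v
  rw [neg_div]
  rw [neg_pos]
  exact div_neg_of_pos_of_neg h1 h2

theorem FamData.isOpen_Dom : IsOpen D.Dom := by
  unfold FamData.Dom
  have : {s : I → ℂ | ∀ v, D.b v * ‖s v‖ ^ 2 < 1} = ⋂ v, {s : I → ℂ | D.b v * ‖s v‖ ^ 2 < 1} := by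
    ext s; simp
  rw [this]
  refine isOpen_iInter_of_finite fun v => ?_
  exact isOpen_lt (by fun_prop) continuous_const

theorem FamData.zero_mem_Dom : (0 : I → ℂ) ∈ D.Dom := by
  intro v; simp

theorem FamData.zeta_differentiable (x : E × E) (i : Co I J) :
    Differentiable ℂ (fun s : I → ℂ => D.zeta s x i) := by
  rcases i with (v | v) | (v | v)
  · show Differentiable ℂ (fun s : I → ℂ => D.t (Sum.inl v) x.1 - s v * D.t (Sum.inl v) x.2)
    fun_prop
  · show Differentiable ℂ (fun s : I → ℂ => D.t (Sum.inr v) x.1)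
    fun_prop
  · show Differentiable ℂ (fun s : I → ℂ => D.tb (Sum.inl v) x.2 - D.b v * s v * D.tb (Sum.inl v) x.1)
    fun_prop
  · show Differentiable ℂ (fun s : I → ℂ => D.t (Sum.inr v) x.2)
    fun_prop

end Dom

end

end Pool.Agent.SPF
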