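import Pool.Agent.SPF.OutStmts

set_option linter.unusedSectionVars false
set_option linter.unusedSimpArgs false

/-!
# Kit for the outer block
-/

open scoped BigOperators
open Complex

namespace Pool.Agent.SPF

noncomputable section

variable {V : Type} [AddCommGroup V] [Module ℚ V] {ι : Type} [Fintype ι] [DecidableEq ι]
variable {e : V →ₗ[ℚ] V →ₗ[ℚ] ℚ} {B : Module.Basis (ι ⊕ ι) ℚ V} {ζ L : V →ₗ[ℚ] (ι → ℂ)}

theorem dotp_nsmul_left (k : ℕ) (a z : ι → ℂ) : dotp (k • a) z = k * dotp a z := by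
  simp only [dotp, Pi.smul_apply, nsmul_eq_mul, Finset.mul_sum]
  exact Finset.sum_congr rfl fun i _ => by ring

theorem nsmul_L_apply (k : ℕ) (x : V) : (k • L) x = k • L x := rfl

/-- the structure of level `k` -/
theorem IsPStr.nsmul (h : IsPStr e B ζ L) (k : ℕ) (hk : 0 < k) : IsPStr (k • e) B ζ (k • L) := by
  constructor
  · intro x y
    rw [nsmul_L_apply, nsmul_L_apply, dotp_nsmul_left, dotp_nsmul_left]
    have := h.rel x y
    have h2 : ((k • e) x y : ℚ) = k * e x y := by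
      simp [nsmul_eq_mul]
    rw [h2]
    push_cast
    linear_combination (k : ℂ) * this
  · intro r hr
    have := h.pos r hr
    have h2 : (∑ j, ∑ l, (r j : ℂ) * (r l : ℂ) * dotp ((k • L) (B j)) (ζ (B l))) =
        (k : ℂ) * ∑ j, ∑ l, (r j : ℂ) * (r l : ℂ) * dotp (L (B j)) (ζ (B l)) := by
      rw [Finset.mul_sum]
      refine Finset.sum_congr rfl fun j _ => ?_
      rw [Finset.mul_sum]
      refine Finset.sum_congr rfl fun l _ => ?_
      rw [nsmul_L_apply, dotp_nsmul_left]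
      ring
    rw [h2]
    have h3 : ((k : ℂ) * ∑ j, ∑ l, (r j : ℂ) * (r l : ℂ) * dotp (L (B j)) (ζ (B l))).re =
        (k : ℝ) * (∑ j, ∑ l, (r j : ℂ) * (r l : ℂ) * dotp (L (B j)) (ζ (B l))).re := by
      rw [Complex.mul_re]
      simp
    rw [h3]
    exact mul_pos (Nat.cast_pos.2 hk) this

/-- the Heisenberg relation at level `k` -/
theorem TTk_TTk (h : IsPStr e B ζ L) (k : ℕ) (x y : V) (F : (ι → ℂ) → ℂ) (z : ι → ℂ) :
    TT ζ (⇑(k • L)) x (TT ζ (⇑(k • L)) y F) z =
      cexp (Real.pi * I * (k * (e x y : ℚ))) * TT ζ (⇑(k • L)) (x + y) F z := by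
  have hr := h.rel x y
  simp only [TT, map_add, dotp_add_right, dotp_add_left, nsmul_L_apply, dotp_nsmul_left]
  have e1 : z + ζ x + ζ y = z + (ζ x + ζ y) := by rw [add_assoc]
  rw [e1, ← mul_assoc, ← mul_assoc, ← Complex.exp_add, ← Complex.exp_add]
  congr 2
  linear_combination ((k : ℂ)/2) * hr

theorem e_swap (halt : ∀ x, e x x = 0) (x y : V) : e y x = - e x y := by
  have h2 := halt (x + y)
  simp only [map_add, LinearMap.add_apply, halt] at h2
  linarith

/-- commutation rule -/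
theorem TTk_comm (h : IsPStr e B ζ L) (k : ℕ) (halt : ∀ x, e x x = 0) (x y : V)
    (F : (ι → ℂ) → ℂ) (z : ι → ℂ) :
    TT ζ (⇑(k • L)) x (TT ζ (⇑(k • L)) y F) z =
      cexp (2 * Real.pi * I * (k * (e x y : ℚ))) * TT ζ (⇑(k • L)) y (TT ζ (⇑(k • L)) x F) z := by
  rw [TTk_TTk h, TTk_TTk h, add_comm y x, e_swap halt x y]
  have h2 : cexp (Real.pi * I * (k * (e x y : ℚ))) = cexp (2 * Real.pi * I * (k * (e x y : ℚ))) *
      cexp (Real.pi * I * (k * ((-(e x y) : ℚ) : ℂ))) := by
    rw [← Complex.exp_add]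
    congr 1
    push_cast
    ring
  rw [h2, mul_assoc]

theorem TTk_zero (k : ℕ) (F : (ι → ℂ) → ℂ) : TT ζ (⇑(k • L)) (0 : V) F = F := by
  funext z
  simp [TT, dotp_zero_left]

theorem TT_one_nsmul (x : V) (F : (ι → ℂ) → ℂ) : TT ζ (⇑((1 : ℕ) • L)) x F = TT ζ L x F := by
  rw [one_nsmul]

/-- translates of products -/
theorem TT_mul (k l : ℕ) (x : V) (F G : (ι → ℂ) → ℂ) (z : ι → ℂ) :
    TT ζ (⇑((k + l) • L)) x (fun z => F z * G z) z =
      TT ζ (⇑(k • L)) x F z * TT ζ (⇑(l • L)) x G z := by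
  simp only [TT, nsmul_L_apply, dotp_nsmul_left]
  have : cexp (-(((k + l : ℕ) : ℂ) * dotp (L x) z) - ((k + l : ℕ) : ℂ) * dotp (L x) (ζ x) / 2) =
      cexp (-((k : ℂ) * dotp (L x) z) - (k : ℂ) * dotp (L x) (ζ x) / 2) *
      cexp (-((l : ℂ) * dotp (L x) z) - (l : ℂ) * dotp (L x) (ζ x) / 2) := by
    rw [← Complex.exp_add]
    congr 1
    push_cast
    ring
  rw [this]
  ring

/-- translates of powers -/
theorem TT_pow (k : ℕ) (x : V) (F : (ι → ℂ) → ℂ) (z : ι → ℂ) :
    TT ζ (⇑(k • L)) x (fun z => F z ^ k) z = TT ζ L x F z ^ k := by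
  simp only [TT, nsmul_L_apply, dotp_nsmul_left]
  rw [mul_pow, ← Complex.exp_nat_mul]
  congr 2
  ring

theorem IsTk.mul {k l : ℕ} {w v : V} {F G : (ι → ℂ) → ℂ} (hF : IsTk e ζ L B k w F)
    (hG : IsTk e ζ L B l v G) : IsTk e ζ L B (k + l) (w + v) (fun z => F z * G z) := by
  constructor
  · exact hF.entire.mul hG.entire
  · intro j z
    rw [TT_mul, hF.per, hG.per, map_add]
    have : cexp (2 * Real.pi * I * ((e (B j) w + e (B j) v : ℚ) : ℂ)) =
        cexp (2 * Real.pi * I * (e (B j) w : ℚ)) * cexp (2 * Real.pi * I * (e (B j) v : ℚ)) := by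
      rw [← Complex.exp_add]
      congr 1
      push_cast
      ring
    rw [this]
    ring

theorem IsTk.add {k : ℕ} {w : V} {F G : (ι → ℂ) → ℂ} (hF : IsTk e ζ L B k w F)
    (hG : IsTk e ζ L B k w G) : IsTk e ζ L B k w (fun z => F z + G z) := by
  constructor
  · exact hF.entire.add hG.entire
  · intro j z
    rw [TT_add, hF.per, hG.per]
    ring

theorem IsTk.smul {k : ℕ} {w : V} {F : (ι → ℂ) → ℂ} (hF : IsTk e ζ L B k w F) (a : ℂ) :
    IsTk e ζ L B k w (fun z => a * F z) := by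
  constructor
  · exact hF.entire.const_mul a
  · intro j z
    rw [TT_smul, hF.per]
    ring

/-- translates of theta functions of level `k` -/
theorem IsTk.translate {k : ℕ} {w : V} {F : (ι → ℂ) → ℂ} (hS : SympBasis e B)
    (h : IsPStr e B ζ L) (hF : IsTk e ζ L B k w F) (y : V) :
    IsTk e ζ L B k (w + (k : ℚ) • y) (TT ζ (⇑(k • L)) y F) := by
  constructor
  · exact TT_differentiable y hF.entire
  · intro j z
    rw [TTk_comm h k hS.alt]
    have h1 : TT ζ (⇑(k • L)) (B j) F = fun z => cexp (2 * Real.pi * I * (e (B j) w : ℚ)) * F z := by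
      funext z
      exact hF.per j z
    rw [h1, TT_smul, ← mul_assoc, ← Complex.exp_add, map_add, map_smul]
    congr 2
    rw [smul_eq_mul]
    push_cast
    ring

/-- translates by lattice vectors of functions of level `1` -/
theorem TT_comm' (hS : SympBasis e B) (h : IsPStr e B ζ L) (x y : V) (F : (ι → ℂ) → ℂ)
    (z : ι → ℂ) : TT ζ L x (TT ζ L y F) z =
      cexp (2 * Real.pi * I * (e x y : ℚ)) * TT ζ L y (TT ζ L x F) z := by
  rw [TT_TT h, TT_TT h, add_comm y x, e_swap hS.alt x y]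
  have h2 : cexp (Real.pi * I * (e x y : ℚ)) = cexp (2 * Real.pi * I * (e x y : ℚ)) *
      cexp (Real.pi * I * ((-(e x y) : ℚ) : ℂ)) := by
    rw [← Complex.exp_add]
    congr 1
    push_cast
    ring
  rw [h2, mul_assoc]

/-- `(T_x Th) ^ k` is of level `k` and character `k x` -/
theorem isTk_pow (hS : SympBasis e B) (h : IsPStr e B ζ L) {T : (ι → ℂ) → ℂ}
    (hT : IsTh ζ L B T) (k : ℕ) (x : V) :
    IsTk e ζ L B k ((k : ℚ) • x) (fun z => TT ζ L x T z ^ k) := by
  constructor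
  · exact (TT_differentiable x hT.entire).pow k
  · intro j z
    rw [TT_pow, TT_comm' hS h, hT.per j, mul_pow, ← Complex.exp_nat_mul]
    congr 2
    rw [map_smul, smul_eq_mul]
    push_cast
    ring

/-- partial derivative of a product -/
theorem pd_mul {F G : (ι → ℂ) → ℂ} {z : ι → ℂ} (i : ι) (hF : DifferentiableAt ℂ F z)
    (hG : DifferentiableAt ℂ G z) :
    pd i (fun z => F z * G z) z = F z * pd i G z + G z * pd i F z := by
  unfold pd
  have h1 := (hF.hasFDerivAt.mul hG.hasFDerivAt).fderiv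
  have h2 : fderiv ℂ (fun z => F z * G z) z = F z • fderiv ℂ G z + G z • fderiv ℂ F z := h1
  rw [h2]
  simp [smul_eq_mul]

/-- partial derivative of a translate at level `k` -/
theorem pd_TTk (k : ℕ) (x : V) {F : (ι → ℂ) → ℂ} (hF : Differentiable ℂ F) (i : ι)
    (z : ι → ℂ) : pd i (TT ζ (⇑(k • L)) x F) z =
      cexp (-(dotp ((k • L) x) z) - dotp ((k • L) x) (ζ x) / 2) *
        (pd i F (z + ζ x) - (k • L) x i * F (z + ζ x)) :=
  pd_TT (L := k • L) x hF i z

/-- translates of Wronskians -/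
theorem TT_wron (k : ℕ) (x : V) (i : ι) {F G : (ι → ℂ) → ℂ} (hF : Differentiable ℂ F)
    (hG : Differentiable ℂ G) (z : ι → ℂ) :
    TT ζ (⇑((2 * k) • L)) x (wron i F G) z =
      wron i (TT ζ (⇑(k • L)) x F) (TT ζ (⇑(k • L)) x G) z := by
  unfold wron
  rw [pd_TTk k x hF, pd_TTk k x hG]
  simp only [TT, nsmul_L_apply, dotp_nsmul_left]
  have : cexp (-(((2 * k : ℕ) : ℂ) * dotp (L x) z) - ((2 * k : ℕ) : ℂ) * dotp (L x) (ζ x) / 2) =
      cexp (-((k : ℂ) * dotp (L x) z) - (k : ℂ) * dotp (L x) (ζ x) / 2) *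
      cexp (-((k : ℂ) * dotp (L x) z) - (k : ℂ) * dotp (L x) (ζ x) / 2) := by
    rw [← Complex.exp_add]
    congr 1
    push_cast
    ring
  rw [this]
  ring

/-- the vectors `ζ (B j)` are linearly independent over `ℝ` -/
theorem linInd_zeta (h : IsPStr e B ζ L) : LinearIndependent ℝ (fun j => ζ (B j)) := by
  rw [Fintype.linearIndependent_iff]
  intro r hr
  by_contra hne
  have hr0 : r ≠ 0 := by
    rintro rfl
    apply hne
    simp
  have h1 := h.pos r hr0
  have h2 : (∑ j, ∑ l, (r j : ℂ) * (r l : ℂ) * dotp (L (B j)) (ζ (B l))) = 0 := by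
    refine Finset.sum_eq_zero fun j _ => ?_
    have h3 : ∑ l, (r j : ℂ) * (r l : ℂ) * dotp (L (B j)) (ζ (B l)) =
        (r j : ℂ) * ∑ i, L (B j) i * (∑ l, (r l : ℝ) • ζ (B l)) i := by
      simp only [dotp, Finset.sum_apply, Pi.smul_apply, Finset.mul_sum]
      rw [Finset.sum_comm]
      refine Finset.sum_congr rfl fun i _ => Finset.sum_congr rfl fun l _ => ?_
      rw [Complex.real_smul]
      ring
    rw [h3, hr]
    simp
  rw [h2] at h1
  simp at h1

/-- every point is a real combination of the `ζ (B j)` -/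
theorem exists_real (h : IsPStr e B ζ L) (z : ι → ℂ) :
    ∃ r : ι ⊕ ι → ℝ, z = ∑ j, r j • ζ (B j) := by
  have hind := linInd_zeta h
  have hcard : Fintype.card (ι ⊕ ι) = Module.finrank ℝ (ι → ℂ) := by
    rw [Fintype.card_sum, Module.finrank_pi_fintype]
    simp only [Complex.finrank_real_complex, Finset.sum_const, Finset.card_univ, smul_eq_mul]
    ring
  have hspan := hind.span_eq_top_of_card_eq_finrank' hcard
  have hz : z ∈ Submodule.span ℝ (Set.range fun j => ζ (B j)) := by rw [hspan]; trivial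
  obtain ⟨r, hr⟩ := (Submodule.mem_span_range_iff_exists_fun ℝ).1 hz
  exact ⟨r, hr.symm⟩

/-- torsion points are dense -/
theorem range_dense (h : IsPStr e B ζ L) : Dense (Set.range ζ) := by
  intro z
  obtain ⟨r, rfl⟩ := exists_real h z
  have hcont : Continuous fun r : ι ⊕ ι → ℝ => ∑ j, r j • ζ (B j) := by fun_prop
  have hd : DenseRange (fun q : ι ⊕ ι → ℚ => fun j => ((q j : ℚ) : ℝ)) :=
    DenseRange.piMap fun _ => Rat.denseRange_cast
  have h1 : r ∈ closure (Set.range (fun q : ι ⊕ ι → ℚ => fun j => ((q j : ℚ) : ℝ))) := hd r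
  have h2 := image_closure_subset_closure_image hcont (Set.mem_image_of_mem _ h1)
  refine closure_mono ?_ h2
  rintro _ ⟨_, ⟨q, rfl⟩, rfl⟩
  refine ⟨∑ j, q j • B j, ?_⟩
  rw [map_sum]
  refine Finset.sum_congr rfl fun j _ => ?_
  rw [map_smul]
  funext i
  simp [Rat.smul_def]

/-- functions with zero values at all torsion points vanish -/
theorem eq_zero_of_torsion (h : IsPStr e B ζ L) (k : ℕ) {F : (ι → ℂ) → ℂ}
    (hF : Continuous F) (h0 : ∀ y, TT ζ (⇑(k • L)) y F 0 = 0) : F = 0 := by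
  have h1 : ∀ y, F (ζ y) = 0 := by
    intro y
    have := h0 y
    simp only [TT, zero_add, mul_eq_zero, Complex.exp_ne_zero, false_or] at this
    exact this
  have h2 : Set.EqOn F 0 (closure (Set.range ζ)) := by
    refine Set.EqOn.closure ?_ hF continuous_const
    rintro _ ⟨y, rfl⟩
    exact h1 y
  funext z
  exact h2 (range_dense h z)

/-- functions with the same values at all torsion points are equal -/
theorem eq_of_torsion (h : IsPStr e B ζ L) (k : ℕ) {F G : (ι → ℂ) → ℂ} (hF : Continuous F)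
    (hG : Continuous G) (h0 : ∀ y, TT ζ (⇑(k • L)) y F 0 = TT ζ (⇑(k • L)) y G 0) : F = G := by
  have h1 := eq_zero_of_torsion h k (F := fun z => F z - G z) (hF.sub hG) (by
    intro y
    have := h0 y
    simp only [TT] at this ⊢
    linear_combination this)
  funext z
  have := congrFun h1 z
  exact sub_eq_zero.1 this

end

end Pool.Agent.SPF
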