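import Pool.Agent.SPF.OutKit
import Pool.Agent.SPF.THE

set_option linter.unusedSectionVars false

/-!
# Poincaré series
-/

open scoped BigOperators Topology
open Complex

namespace Pool.Agent.SPF.POI_

noncomputable section

variable {V : Type} [AddCommGroup V] [Module ℚ V] {ι : Type} [Fintype ι] [DecidableEq ι]
variable {e : V →ₗ[ℚ] V →ₗ[ℚ] ℚ} {B : Module.Basis (ι ⊕ ι) ℚ V} {ζ L : V →ₗ[ℚ] (ι → ℂ)}

/-- the vector with given coordinates -/
def vec (B : Module.Basis (ι ⊕ ι) ℚ V) (r : ι ⊕ ι → ℚ) : V := ∑ j, r j • B j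

/-- integral coordinates -/
abbrev cst (l : ι ⊕ ι → ℤ) : ι ⊕ ι → ℚ := fun j => (l j : ℚ)

theorem vec_add (r s : ι ⊕ ι → ℚ) : vec B (r + s) = vec B r + vec B s := by
  unfold vec
  rw [← Finset.sum_add_distrib]
  exact Finset.sum_congr rfl fun j _ => by rw [Pi.add_apply, add_smul]

theorem lin_vec (M : V →ₗ[ℚ] (ι → ℂ)) (r : ι ⊕ ι → ℚ) (i : ι) :
    M (vec B r) i = ∑ j, (r j : ℂ) * M (B j) i := by
  unfold vec
  rw [map_sum, Finset.sum_apply]
  refine Finset.sum_congr rfl fun j _ => ?_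
  rw [map_smul, Pi.smul_apply, Rat.smul_def]

theorem Q_vec (r : ι ⊕ ι → ℚ) : dotp (L (vec B r)) (ζ (vec B r)) =
    ∑ j, ∑ k, (r j : ℂ) * (r k : ℂ) * dotp (L (B j)) (ζ (B k)) := by
  unfold dotp
  simp only [lin_vec]
  calc ∑ i, (∑ j, (r j : ℂ) * L (B j) i) * ∑ k, (r k : ℂ) * ζ (B k) i =
      ∑ i, ∑ j, ∑ k, ((r j : ℂ) * L (B j) i) * ((r k : ℂ) * ζ (B k) i) := by
        exact Finset.sum_congr rfl fun i _ => Finset.sum_mul_sum _ _ _ _
    _ = ∑ j, ∑ k, ∑ i, ((r j : ℂ) * L (B j) i) * ((r k : ℂ) * ζ (B k) i) := by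
        rw [Finset.sum_comm]
        exact Finset.sum_congr rfl fun j _ => Finset.sum_comm
    _ = _ := by
        refine Finset.sum_congr rfl fun j _ => Finset.sum_congr rfl fun k _ => ?_
        rw [Finset.mul_sum]
        exact Finset.sum_congr rfl fun i _ => by ring

theorem Q_bound (h : IsPStr e B ζ L) : ∃ c : ℝ, 0 < c ∧ ∀ r : ι ⊕ ι → ℚ,
    c * ∑ j, (r j : ℝ) ^ 2 ≤ (dotp (L (vec B r)) (ζ (vec B r))).re := by
  have hre : ∀ r : ι ⊕ ι → ℝ, (∑ j, ∑ k, (r j : ℂ) * (r k : ℂ) * dotp (L (B j)) (ζ (B k))).re =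
      -∑ j, ∑ k, r j * r k * (-I * dotp (L (B j)) (ζ (B k))).im := by
    intro r
    rw [Complex.re_sum, ← Finset.sum_neg_distrib]
    refine Finset.sum_congr rfl fun j _ => ?_
    rw [Complex.re_sum, ← Finset.sum_neg_distrib]
    refine Finset.sum_congr rfl fun k _ => ?_
    rw [← Complex.ofReal_mul, Complex.re_ofReal_mul]
    simp
  have hn : THE_.NegDef (fun j k : ι ⊕ ι => -I * dotp (L (B j)) (ζ (B k))) := by
    intro r hr
    have h1 := h.pos r hr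
    rw [hre] at h1
    linarith
  obtain ⟨c, hc, hb⟩ := THE_.negDef_bound hn
  refine ⟨c, hc, fun r => ?_⟩
  have h1 := hb (fun j => (r j : ℝ))
  rw [Q_vec]
  have h2 := hre (fun j => (r j : ℝ))
  have h3 : (∑ j, ∑ k, (r j : ℂ) * (r k : ℂ) * dotp (L (B j)) (ζ (B k))) =
      ∑ j, ∑ k, (((r j : ℚ) : ℝ) : ℂ) * (((r k : ℚ) : ℝ) : ℂ) * dotp (L (B j)) (ζ (B k)) := by
    refine Finset.sum_congr rfl fun j _ => Finset.sum_congr rfl fun k _ => ?_
    push_cast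
    ring
  rw [h3, h2]
  linarith

/-- the exponential function attached to a vector -/
theorem TT_one (k : ℕ) (x : V) (z : ι → ℂ) : TT ζ (⇑(k • L)) x (fun _ => 1) z =
    cexp (-((k : ℂ) * dotp (L x) z) - (k : ℂ) * dotp (L x) (ζ x) / 2) := by
  simp only [TT, nsmul_L_apply, dotp_nsmul_left, mul_one]

/-- the quadratic form of the semicharacter -/
def q (l : ι ⊕ ι → ℤ) : ℤ := ∑ i, l (Sum.inl i) * l (Sum.inr i)

/-- inverse of the semicharacter -/
def psi (e : V →ₗ[ℚ] V →ₗ[ℚ] ℚ) (B : Module.Basis (ι ⊕ ι) ℚ V) (k : ℕ) (w : V)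
    (l : ι ⊕ ι → ℤ) : ℂ :=
  cexp (-(2 * Real.pi * I * (e (vec B (cst l)) w : ℚ)) - Real.pi * I * k * (q l : ℤ))

theorem norm_psi (k : ℕ) (w : V) (l : ι ⊕ ι → ℤ) : ‖psi e B k w l‖ = 1 := by
  unfold psi
  rw [Complex.norm_exp, Real.exp_eq_one_iff]
  have h1 : -(2 * Real.pi * I * (e (vec B (cst l)) w : ℚ)) - Real.pi * I * k * (q l : ℤ) =
      (((-(2 * Real.pi * (e (vec B (cst l)) w : ℚ)) - Real.pi * k * (q l : ℤ) : ℝ)) : ℂ) * I := by
    push_cast
    ring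
  rw [h1, Complex.re_ofReal_mul]
  simp

/-- the terms of the series -/
def term (e : V →ₗ[ℚ] V →ₗ[ℚ] ℚ) (B : Module.Basis (ι ⊕ ι) ℚ V) (ζ L : V →ₗ[ℚ] (ι → ℂ))
    (k : ℕ) (w : V) (l : ι ⊕ ι → ℤ) (z : ι → ℂ) : ℂ :=
  psi e B k w l * TT ζ (⇑(k • L)) (vec B (cst l)) (fun _ => 1) z

/-- the series -/
def Gf (e : V →ₗ[ℚ] V →ₗ[ℚ] ℚ) (B : Module.Basis (ι ⊕ ι) ℚ V) (ζ L : V →ₗ[ℚ] (ι → ℂ))
    (k : ℕ) (w : V) (z : ι → ℂ) : ℂ := ∑' l, term e B ζ L k w l z

/-- the linear part -/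
def ell (B : Module.Basis (ι ⊕ ι) ℚ V) (L : V →ₗ[ℚ] (ι → ℂ)) (k : ℕ) (l : ι ⊕ ι → ℤ) :
    (ι → ℂ) →L[ℂ] ℂ :=
  ∑ i, (-(k : ℂ) * L (vec B (cst l)) i) • (ContinuousLinearMap.proj (R := ℂ) (φ := fun _ : ι => ℂ) i)

theorem ell_apply (k : ℕ) (l : ι ⊕ ι → ℤ) (z : ι → ℂ) :
    ell B L k l z = -((k : ℂ) * dotp (L (vec B (cst l))) z) := by
  simp only [ell, dotp, _root_.sum_apply, _root_.smul_apply, ContinuousLinearMap.proj_apply,
    smul_eq_mul]
  rw [Finset.mul_sum, ← Finset.sum_neg_distrib]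
  exact Finset.sum_congr rfl fun i _ => by ring

/-- a constant -/
def CL (B : Module.Basis (ι ⊕ ι) ℚ V) (L : V →ₗ[ℚ] (ι → ℂ)) : ℝ := ∑ i, ∑ j, ‖L (B j) i‖

theorem CL_nonneg : 0 ≤ CL B L :=
  Finset.sum_nonneg fun i _ => Finset.sum_nonneg fun j _ => norm_nonneg _

theorem ell_norm (k : ℕ) (l : ι ⊕ ι → ℤ) : ‖ell B L k l‖ ≤ k * CL B L * THE_.S1 l := by
  have hS := THE_.S1_nonneg l
  have hC := CL_nonneg (B := B) (L := L)
  refine ContinuousLinearMap.opNorm_le_bound _ (by positivity) fun z => ?_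
  rw [ell_apply, norm_neg, norm_mul, Complex.norm_natCast]
  have h1 : ‖dotp (L (vec B (cst l))) z‖ ≤ CL B L * THE_.S1 l * ‖z‖ := by
    unfold dotp CL
    refine (norm_sum_le _ _).trans ?_
    rw [Finset.sum_mul, Finset.sum_mul]
    refine Finset.sum_le_sum fun i _ => ?_
    rw [norm_mul]
    refine mul_le_mul ?_ (norm_le_pi_norm z i) (norm_nonneg _) (by positivity)
    rw [lin_vec, Finset.sum_mul]
    refine (norm_sum_le _ _).trans (Finset.sum_le_sum fun j _ => ?_)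
    rw [norm_mul, mul_comm]
    refine mul_le_mul_of_nonneg_left ?_ (norm_nonneg _)
    have h2 : ‖(((cst l j : ℚ)) : ℂ)‖ = |(l j : ℝ)| := by
      have : (((cst l j : ℚ)) : ℂ) = ((l j : ℤ) : ℂ) := by
        simp [cst]
      rw [this, Complex.norm_intCast]
    rw [h2]
    unfold THE_.S1
    exact Finset.single_le_sum (f := fun j => |(l j : ℝ)|) (fun j _ => abs_nonneg _)
      (Finset.mem_univ j)
  calc (k : ℝ) * ‖dotp (L (vec B (cst l))) z‖ ≤ k * (CL B L * THE_.S1 l * ‖z‖) :=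
        mul_le_mul_of_nonneg_left h1 (Nat.cast_nonneg k)
    _ = _ := by ring

/-- the constant part -/
def bb (e : V →ₗ[ℚ] V →ₗ[ℚ] ℚ) (B : Module.Basis (ι ⊕ ι) ℚ V) (ζ L : V →ₗ[ℚ] (ι → ℂ))
    (k : ℕ) (w : V) (l : ι ⊕ ι → ℤ) : ℂ :=
  psi e B k w l * cexp (-((k : ℂ) * dotp (L (vec B (cst l))) (ζ (vec B (cst l))) / 2))

theorem term_eq (k : ℕ) (w : V) (l : ι ⊕ ι → ℤ) (z : ι → ℂ) :
    term e B ζ L k w l z = bb e B ζ L k w l * cexp (ell B L k l z) := by
  unfold term bb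
  rw [TT_one, ell_apply, mul_assoc, ← Complex.exp_add]
  congr 2
  ring

theorem norm_bb (k : ℕ) (w : V) (l : ι ⊕ ι → ℤ) : ‖bb e B ζ L k w l‖ =
    Real.exp (-((k : ℝ) * (dotp (L (vec B (cst l))) (ζ (vec B (cst l)))).re / 2)) := by
  unfold bb
  rw [norm_mul, norm_psi, one_mul, Complex.norm_exp]
  congr 1
  have h1 : -((k : ℂ) * dotp (L (vec B (cst l))) (ζ (vec B (cst l))) / 2) =
      ((-((k : ℝ) / 2) : ℝ) : ℂ) * dotp (L (vec B (cst l))) (ζ (vec B (cst l))) := by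
    push_cast
    ring
  rw [h1, Complex.re_ofReal_mul]
  ring

/-- bound for the terms -/
theorem term_bound {c : ℝ} (hc : ∀ r : ι ⊕ ι → ℚ,
    c * ∑ j, (r j : ℝ) ^ 2 ≤ (dotp (L (vec B r)) (ζ (vec B r))).re) (k : ℕ) (w : V)
    (l : ι ⊕ ι → ℤ) (z : ι → ℂ) : ‖term e B ζ L k w l z‖ ≤
      Real.exp (k * CL B L * ‖z‖ * THE_.S1 l - k * c / 2 * ∑ j, (l j : ℝ) ^ 2) := by
  rw [term_eq, norm_mul, norm_bb, Complex.norm_exp, ← Real.exp_add]
  apply Real.exp_le_exp.2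
  have h1 : (ell B L k l z).re ≤ k * CL B L * THE_.S1 l * ‖z‖ :=
    (Complex.re_le_norm _).trans (((ell B L k l).le_opNorm z).trans
      (mul_le_mul_of_nonneg_right (ell_norm k l) (norm_nonneg z)))
  have h2 := hc (cst l)
  have h3 : ∑ j, ((cst l j : ℚ) : ℝ) ^ 2 = ∑ j, (l j : ℝ) ^ 2 := by
    refine Finset.sum_congr rfl fun j _ => ?_
    simp [cst]
  rw [h3] at h2
  have h4 : (k : ℝ) * (c * ∑ j, (l j : ℝ) ^ 2) ≤
      k * (dotp (L (vec B (cst l))) (ζ (vec B (cst l)))).re :=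
    mul_le_mul_of_nonneg_left h2 (Nat.cast_nonneg k)
  linarith

theorem summable_term (h : IsPStr e B ζ L) (k : ℕ) (hk : 0 < k) (w : V) (z : ι → ℂ) :
    Summable (fun l => term e B ζ L k w l z) := by
  obtain ⟨c, hc, hb⟩ := Q_bound h
  have hk' : (0 : ℝ) < k := Nat.cast_pos.2 hk
  refine Summable.of_norm_bounded (THE_.summable_gauss_multi (k * CL B L * ‖z‖) (k * c / 2)
    (by positivity)) fun l => ?_
  exact term_bound hb k w l z

theorem differentiable_Gf (h : IsPStr e B ζ L) (k : ℕ) (hk : 0 < k) (w : V) :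
    Differentiable ℂ (Gf e B ζ L k w) := by
  obtain ⟨c, hc, hb⟩ := Q_bound h
  have hk' : (0 : ℝ) < k := Nat.cast_pos.2 hk
  have hC := CL_nonneg (B := B) (L := L)
  intro z₀
  have hu : Summable (fun l : ι ⊕ ι → ℤ =>
      Real.exp ((k * CL B L * (‖z₀‖ + 1) + k * CL B L) * (∑ j, |(l j : ℝ)|) -
        k * c / 2 * ∑ j, (l j : ℝ) ^ 2)) :=
    THE_.summable_gauss_multi _ _ (by positivity)
  have h1 := hasFDerivAt_tsum_of_isPreconnected (𝕜 := ℂ)
    (f := fun (l : ι ⊕ ι → ℤ) z => term e B ζ L k w l z)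
    (f' := fun l z => bb e B ζ L k w l • (cexp (ell B L k l z) • ell B L k l)) hu
    (Metric.isOpen_ball (x := (0 : ι → ℂ)) (ε := ‖z₀‖ + 1))
    (convex_ball (0 : ι → ℂ) (‖z₀‖ + 1)).isPreconnected ?_ ?_
    (show z₀ ∈ Metric.ball (0 : ι → ℂ) (‖z₀‖ + 1) by simp)
    (summable_term h k hk w z₀) (show z₀ ∈ Metric.ball (0 : ι → ℂ) (‖z₀‖ + 1) by simp)
  · exact h1.differentiableAt
  · intro l z _
    have h2 : (fun z => term e B ζ L k w l z) =
        fun z => bb e B ζ L k w l * cexp (ell B L k l z) := by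
      funext z
      exact term_eq k w l z
    rw [h2]
    exact ((ell B L k l).hasFDerivAt.cexp).const_mul _
  · intro l z hz
    rw [norm_smul, norm_smul, ← mul_assoc, ← norm_mul, ← term_eq]
    have hz' : ‖z‖ ≤ ‖z₀‖ + 1 := by
      rw [mem_ball_zero_iff] at hz
      exact hz.le
    have h2 := term_bound (e := e) hb k w l z
    have h3 : ‖ell B L k l‖ ≤ Real.exp (k * CL B L * THE_.S1 l) := by
      refine (ell_norm k l).trans ?_
      have := Real.add_one_le_exp ((k : ℝ) * CL B L * THE_.S1 l)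
      linarith
    refine (mul_le_mul h2 h3 (norm_nonneg _) (Real.exp_pos _).le).trans ?_
    rw [← Real.exp_add]
    apply Real.exp_le_exp.2
    have h4 : (k : ℝ) * CL B L * ‖z‖ * THE_.S1 l ≤ k * CL B L * (‖z₀‖ + 1) * THE_.S1 l := by
      have := THE_.S1_nonneg l
      gcongr
    have h5 : THE_.S1 l = ∑ j, |(l j : ℝ)| := rfl
    rw [← h5]
    linarith

/-! ### the functional equation -/

/-- the unit vector -/
def dlt (j : ι ⊕ ι) : ι ⊕ ι → ℤ := Pi.single j 1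

theorem vec_dlt (j : ι ⊕ ι) : vec B (cst (dlt j)) = B j := by
  unfold vec
  rw [Finset.sum_eq_single j]
  · simp [cst, dlt]
  · intro b _ hb
    simp [cst, dlt, Pi.single_eq_of_ne hb]
  · intro hj
    exact absurd (Finset.mem_univ j) hj

theorem vec_cst_add (l m : ι ⊕ ι → ℤ) : vec B (cst (l + m)) = vec B (cst l) + vec B (cst m) := by
  rw [← vec_add]
  congr 1
  funext j
  simp [cst]

theorem e_inl (hS : SympBasis e B) (i : ι) (r : ι ⊕ ι → ℚ) :
    e (B (Sum.inl i)) (vec B r) = r (Sum.inr i) := by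
  unfold vec
  rw [map_sum, Fintype.sum_sum_type]
  have h1 : ∑ a, e (B (Sum.inl i)) (r (Sum.inl a) • B (Sum.inl a)) = 0 := by
    refine Finset.sum_eq_zero fun a _ => ?_
    rw [map_smul, hS.ll, smul_zero]
  have h2 : ∑ a, e (B (Sum.inl i)) (r (Sum.inr a) • B (Sum.inr a)) = r (Sum.inr i) := by
    rw [Finset.sum_eq_single i]
    · rw [map_smul, hS.lr, if_pos rfl, smul_eq_mul, mul_one]
    · intro b _ hb
      rw [map_smul, hS.lr, if_neg (Ne.symm hb), smul_zero]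
    · intro hi
      exact absurd (Finset.mem_univ i) hi
  rw [h1, h2, zero_add]

theorem e_inr (hS : SympBasis e B) (i : ι) (r : ι ⊕ ι → ℚ) :
    e (B (Sum.inr i)) (vec B r) = -r (Sum.inl i) := by
  unfold vec
  rw [map_sum, Fintype.sum_sum_type]
  have h1 : ∑ a, e (B (Sum.inr i)) (r (Sum.inr a) • B (Sum.inr a)) = 0 := by
    refine Finset.sum_eq_zero fun a _ => ?_
    rw [map_smul, hS.rr, smul_zero]
  have h2 : ∑ a, e (B (Sum.inr i)) (r (Sum.inl a) • B (Sum.inl a)) = -r (Sum.inl i) := by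
    rw [Finset.sum_eq_single i]
    · rw [map_smul, e_swap hS.alt (B (Sum.inl i)) (B (Sum.inr i)), hS.lr, if_pos rfl, smul_eq_mul]
      ring
    · intro b _ hb
      rw [map_smul, e_swap hS.alt (B (Sum.inl b)) (B (Sum.inr i)), hS.lr, if_neg hb, neg_zero,
        smul_zero]
    · intro hi
      exact absurd (Finset.mem_univ i) hi
  rw [h1, h2, add_zero]

theorem q_inl (l : ι ⊕ ι → ℤ) (i : ι) : q (l + dlt (Sum.inl i)) = q l + l (Sum.inr i) := by
  unfold q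
  have h1 : ∀ a : ι, (l + dlt (Sum.inl i)) (Sum.inl a) * (l + dlt (Sum.inl i)) (Sum.inr a) =
      l (Sum.inl a) * l (Sum.inr a) + if a = i then l (Sum.inr i) else 0 := by
    intro a
    simp only [dlt, Pi.add_apply]
    by_cases ha : a = i
    · subst ha
      simp
      ring
    · rw [if_neg ha, Pi.single_eq_of_ne, Pi.single_eq_of_ne]
      · ring
      · exact Sum.inr_ne_inl
      · intro h
        exact ha (Sum.inl_injective h)
  rw [Finset.sum_congr rfl fun a _ => h1 a, Finset.sum_add_distrib, Finset.sum_ite_eq' Finset.univ i,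
    if_pos (Finset.mem_univ i)]

theorem q_inr (l : ι ⊕ ι → ℤ) (i : ι) : q (l + dlt (Sum.inr i)) = q l + l (Sum.inl i) := by
  unfold q
  have h1 : ∀ a : ι, (l + dlt (Sum.inr i)) (Sum.inl a) * (l + dlt (Sum.inr i)) (Sum.inr a) =
      l (Sum.inl a) * l (Sum.inr a) + if a = i then l (Sum.inl i) else 0 := by
    intro a
    simp only [dlt, Pi.add_apply]
    by_cases ha : a = i
    · subst ha
      simp
      ring
    · rw [if_neg ha, Pi.single_eq_of_ne, Pi.single_eq_of_ne]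
      · ring
      · intro h
        exact ha (Sum.inr_injective h)
      · exact Sum.inl_ne_inr
  rw [Finset.sum_congr rfl fun a _ => h1 a, Finset.sum_add_distrib, Finset.sum_ite_eq' Finset.univ i,
    if_pos (Finset.mem_univ i)]

theorem e_q (hS : SympBasis e B) (j : ι ⊕ ι) (l : ι ⊕ ι → ℤ) : ∃ m : ℤ,
    e (B j) (vec B (cst l)) + (q (l + dlt j) - q l : ℤ) = 2 * (m : ℚ) := by
  rcases j with i | i
  · refine ⟨l (Sum.inr i), ?_⟩
    rw [e_inl hS, q_inl]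
    simp only [cst]
    push_cast
    ring
  · refine ⟨0, ?_⟩
    rw [e_inr hS, q_inr]
    simp only [cst]
    push_cast
    ring

theorem psi_step (hS : SympBasis e B) (k : ℕ) (w : V) (j : ι ⊕ ι) (l : ι ⊕ ι → ℤ) :
    psi e B k w l * cexp (Real.pi * I * (k * (e (B j) (vec B (cst l)) : ℚ))) =
      cexp (2 * Real.pi * I * (e (B j) w : ℚ)) * psi e B k w (l + dlt j) := by
  obtain ⟨m, hm⟩ := e_q hS j l
  unfold psi
  rw [← Complex.exp_add, ← Complex.exp_add, Complex.exp_eq_exp_iff_exists_int]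
  refine ⟨k * m, ?_⟩
  rw [vec_cst_add, vec_dlt, map_add, LinearMap.add_apply]
  have hm2 : ((e (B j) (vec B (cst l)) : ℚ) : ℂ) = 2 * (m : ℂ) - ((q (l + dlt j) : ℤ) : ℂ) +
      ((q l : ℤ) : ℂ) := by
    have h3 : e (B j) (vec B (cst l)) = 2 * (m : ℚ) - (q (l + dlt j) : ℤ) + (q l : ℤ) := by
      push_cast at hm
      linarith
    rw [h3]
    push_cast
    ring
  rw [hm2]
  push_cast
  ring

theorem TT_Gf (h : IsPStr e B ζ L) (k : ℕ) (w x : V) (z : ι → ℂ) :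
    TT ζ (⇑(k • L)) x (Gf e B ζ L k w) z = ∑' l : ι ⊕ ι → ℤ, psi e B k w l *
      cexp (Real.pi * I * (k * (e x (vec B (cst l)) : ℚ))) *
      TT ζ (⇑(k • L)) (x + vec B (cst l)) (fun _ => 1) z := by
  have h1 : TT ζ (⇑(k • L)) x (Gf e B ζ L k w) z =
      ∑' l, TT ζ (⇑(k • L)) x (fun z => term e B ζ L k w l z) z := by
    unfold TT Gf
    rw [← tsum_mul_left]
  rw [h1]
  refine tsum_congr fun l => ?_
  have h2 : TT ζ (⇑(k • L)) x (fun z => term e B ζ L k w l z) z =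
      psi e B k w l * TT ζ (⇑(k • L)) x
        (TT ζ (⇑(k • L)) (vec B (cst l)) (fun _ => 1)) z := by
    exact TT_smul (L := k • L) x (psi e B k w l) _ z
  rw [h2, TTk_TTk h, ← mul_assoc]

theorem per_Gf (hS : SympBasis e B) (h : IsPStr e B ζ L) (k : ℕ) (w : V) (j : ι ⊕ ι)
    (z : ι → ℂ) : TT ζ (⇑(k • L)) (B j) (Gf e B ζ L k w) z =
      cexp (2 * Real.pi * I * (e (B j) w : ℚ)) * Gf e B ζ L k w z := by
  rw [TT_Gf h]
  have h1 : Gf e B ζ L k w z = ∑' l, term e B ζ L k w (l + dlt j) z := by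
    unfold Gf
    exact ((Equiv.addRight (dlt j)).tsum_eq (fun l => term e B ζ L k w l z)).symm
  rw [h1, ← tsum_mul_left]
  refine tsum_congr fun l => ?_
  rw [psi_step hS]
  unfold term
  rw [vec_cst_add, vec_dlt, add_comm (B j)]
  ring

theorem isTk_Gf (hS : SympBasis e B) (h : IsPStr e B ζ L) (k : ℕ) (hk : 0 < k) (w : V) :
    IsTk e ζ L B k w (Gf e B ζ L k w) :=
  ⟨differentiable_Gf h k hk w, fun j z => per_Gf hS h k w j z⟩

/-! ### values -/

/-- half of the real part of the quadratic form -/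
def aa (B : Module.Basis (ι ⊕ ι) ℚ V) (ζ L : V →ₗ[ℚ] (ι → ℂ)) (r : ι ⊕ ι → ℚ) : ℝ :=
  (dotp (L (vec B r)) (ζ (vec B r))).re / 2

theorem norm_TT_one (k : ℕ) (r : ι ⊕ ι → ℚ) :
    ‖TT ζ (⇑(k • L)) (vec B r) (fun _ => 1) 0‖ = Real.exp (-(k * aa B ζ L r)) := by
  rw [TT_one, dotp_zero_right, Complex.norm_exp]
  congr 1
  have h1 : -((k : ℂ) * 0) - (k : ℂ) * dotp (L (vec B r)) (ζ (vec B r)) / 2 =
      ((-((k : ℝ) / 2) : ℝ) : ℂ) * dotp (L (vec B r)) (ζ (vec B r)) := by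
    push_cast
    ring
  rw [h1, Complex.re_ofReal_mul]
  unfold aa
  ring

/-- a general lemma -/
theorem tends {T : Type} (a : T → ℝ) (δ : ℝ) (hδ : 0 < δ) (ha : ∀ t, δ ≤ a t)
    (hs : Summable fun t => Real.exp (-a t)) :
    Filter.Tendsto (fun k : ℕ => ∑' t, Real.exp (-(k * a t))) Filter.atTop (𝓝 0) ∧
      ∀ k : ℕ, 0 < k → Summable fun t => Real.exp (-(k * a t)) := by
  have hb : ∀ k : ℕ, 0 < k → ∀ t, Real.exp (-(k * a t)) ≤
      Real.exp (-((k : ℝ) - 1) * δ) * Real.exp (-a t) := by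
    intro k hk t
    rw [← Real.exp_add]
    apply Real.exp_le_exp.2
    have h1 : (1 : ℝ) ≤ k := by exact_mod_cast hk
    nlinarith [ha t, mul_le_mul_of_nonneg_left (ha t) (sub_nonneg.2 h1)]
  have hs2 : ∀ k : ℕ, 0 < k → Summable fun t => Real.exp (-(k * a t)) := fun k hk =>
    Summable.of_nonneg_of_le (fun t => (Real.exp_pos _).le) (hb k hk) (hs.mul_left _)
  refine ⟨?_, hs2⟩
  have h2 : Filter.Tendsto (fun k : ℕ => Real.exp (-((k : ℝ) - 1) * δ) * ∑' t, Real.exp (-a t))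
      Filter.atTop (𝓝 (0 * ∑' t, Real.exp (-a t))) := by
    refine Filter.Tendsto.mul_const _ ?_
    refine Real.tendsto_exp_atBot.comp ?_
    have h3 : (fun k : ℕ => -((k : ℝ) - 1) * δ) = fun k : ℕ => -(((k : ℝ) - 1) * δ) := by
      funext k
      ring
    rw [h3]
    apply Filter.tendsto_neg_atTop_atBot.comp
    apply Filter.Tendsto.atTop_mul_const hδ
    exact Filter.tendsto_atTop_add_const_right _ _ tendsto_natCast_atTop_atTop
  rw [zero_mul] at h2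
  refine squeeze_zero' (Filter.Eventually.of_forall fun k =>
    tsum_nonneg fun t => (Real.exp_pos _).le) ?_ h2
  filter_upwards [Filter.eventually_gt_atTop 0] with k hk
  rw [← tsum_mul_left]
  exact (hs2 k hk).tsum_le_tsum (hb k hk) (hs.mul_left _)

/-- half of the indicator function -/
def hf (S : Finset (ι ⊕ ι)) : ι ⊕ ι → ℚ := fun j => if j ∈ S then 1 / 2 else 0

theorem vec_hf (S : Finset (ι ⊕ ι)) : (1 / 2 : ℚ) • ∑ j ∈ S, B j = vec B (hf S) := by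
  unfold vec hf
  rw [Finset.smul_sum]
  simp only [ite_smul, zero_smul]
  rw [Finset.sum_ite_mem, Finset.univ_inter]

theorem summable_aa {c : ℝ} (hc0 : 0 < c) (hc : ∀ r : ι ⊕ ι → ℚ,
    c * ∑ j, (r j : ℝ) ^ 2 ≤ (dotp (L (vec B r)) (ζ (vec B r))).re) (S : Finset (ι ⊕ ι)) :
    Summable fun l : ι ⊕ ι → ℤ => Real.exp (-aa B ζ L (hf S + cst l)) := by
  have h1 : Summable (fun l : ι ⊕ ι → ℤ => Real.exp (c * (Fintype.card (ι ⊕ ι) : ℝ)) *
      Real.exp (0 * (∑ j, |(l j : ℝ)|) - c / 4 * ∑ j, (l j : ℝ) ^ 2)) :=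
    (THE_.summable_gauss_multi 0 (c / 4) (by positivity)).mul_left _
  refine Summable.of_nonneg_of_le (fun l => (Real.exp_pos _).le) (fun l => ?_) h1
  rw [← Real.exp_add]
  apply Real.exp_le_exp.2
  have h2 := hc (hf S + cst l)
  unfold aa
  have h3 : ∑ j, (l j : ℝ) ^ 2 / 2 - (Fintype.card (ι ⊕ ι) : ℝ) ≤
      ∑ j, (((hf S + cst l) j : ℚ) : ℝ) ^ 2 := by
    have h4 : (Fintype.card (ι ⊕ ι) : ℝ) = ∑ _j : ι ⊕ ι, (1 : ℝ) := by simp
    rw [h4, ← Finset.sum_sub_distrib]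
    refine Finset.sum_le_sum fun j _ => ?_
    simp only [Pi.add_apply, hf, cst]
    split_ifs
    · push_cast
      nlinarith [sq_nonneg ((l j : ℝ) + 1)]
    · push_cast
      nlinarith [sq_nonneg ((l j : ℝ))]
  have h5 := mul_le_mul_of_nonneg_left h3 hc0.le
  have h6 : ∑ j, (l j : ℝ) ^ 2 / 2 = (∑ j, (l j : ℝ) ^ 2) / 2 := by rw [Finset.sum_div]
  rw [h6] at h5
  have h7 : 0 ≤ c * (Fintype.card (ι ⊕ ι) : ℝ) := by positivity
  linarith

theorem aa_pos {c : ℝ} (hc0 : 0 < c) (hc : ∀ r : ι ⊕ ι → ℚ,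
    c * ∑ j, (r j : ℝ) ^ 2 ≤ (dotp (L (vec B r)) (ζ (vec B r))).re) (r : ι ⊕ ι → ℚ)
    (j : ι ⊕ ι) (hj : 1 / 4 ≤ ((r j : ℚ) : ℝ) ^ 2) : c / 8 ≤ aa B ζ L r := by
  have h1 := hc r
  have h2 : ((r j : ℚ) : ℝ) ^ 2 ≤ ∑ j, ((r j : ℚ) : ℝ) ^ 2 :=
    Finset.single_le_sum (f := fun j => ((r j : ℚ) : ℝ) ^ 2) (fun j _ => sq_nonneg _)
      (Finset.mem_univ j)
  have h3 := mul_le_mul_of_nonneg_left (hj.trans h2) hc0.le
  unfold aa
  linarith

theorem half_sq (l : ℤ) : 1 / 4 ≤ ((1 / 2 : ℝ) + (l : ℝ)) ^ 2 := by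
  have h1 : (0 : ℝ) ≤ (l : ℝ) * ((l : ℝ) + 1) := by
    rcases le_or_gt 0 l with h | h
    · have : (0 : ℝ) ≤ (l : ℝ) := by exact_mod_cast h
      positivity
    · have h2 : l + 1 ≤ 0 := h
      have h3 : (l : ℝ) + 1 ≤ 0 := by exact_mod_cast h2
      have h4 : (l : ℝ) ≤ 0 := by linarith
      exact mul_nonneg_of_nonpos_of_nonpos h4 h3
  nlinarith

end

end Pool.Agent.SPF.POI_

namespace Pool.Agent.SPF

open POI_

/-- Poincaré series. -/
theorem poi_proof : Stmt_POI := by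
  intro V _ _ ι _ _ e B ζ L hS h ε hε
  obtain ⟨c, hc0, hc⟩ := Q_bound h
  -- the nonzero lattice points
  have hA := tends (T := {l : ι ⊕ ι → ℤ // l ≠ 0}) (fun l => aa B ζ L (cst l.1)) (c / 8)
    (by positivity) (by
      rintro ⟨l, hl⟩
      obtain ⟨j, hj⟩ := Function.ne_iff.1 hl
      refine aa_pos hc0 hc _ j ?_
      have h1 : (1 : ℝ) ≤ ((l j : ℤ) : ℝ) ^ 2 := by
        have h2 : 0 < (l j) ^ 2 := by
          have : l j ≠ 0 := hj
          positivity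
        have h3 : (1 : ℤ) ≤ (l j) ^ 2 := h2
        exact_mod_cast h3
      have h4 : (((cst l j : ℚ)) : ℝ) = ((l j : ℤ) : ℝ) := by simp [cst]
      rw [h4]
      linarith) (by
      have h1 := summable_aa hc0 hc (∅ : Finset (ι ⊕ ι))
      have h2 : ∀ l : ι ⊕ ι → ℤ, hf (∅ : Finset (ι ⊕ ι)) + cst l = cst l := by
        intro l
        funext j
        simp [hf]
      simp only [h2] at h1
      exact h1.comp_injective Subtype.val_injective)
  have hB : ∀ S : Finset (ι ⊕ ι), S.Nonempty → _ := fun S hS' =>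
    tends (T := ι ⊕ ι → ℤ) (fun l => aa B ζ L (hf S + cst l)) (c / 8) (by positivity) (by
      intro l
      obtain ⟨j, hj⟩ := hS'
      refine aa_pos hc0 hc _ j ?_
      have h4 : ((((hf S + cst l) j : ℚ)) : ℝ) = 1 / 2 + ((l j : ℤ) : ℝ) := by
        simp [cst, hf, hj]
      rw [h4]
      exact half_sq _) (summable_aa hc0 hc S)
  have hev : ∀ᶠ k : ℕ in Filter.atTop,
      (∑' l : {l : ι ⊕ ι → ℤ // l ≠ 0}, Real.exp (-(k * aa B ζ L (cst l.1)))) < 1 / 2 ∧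
      ∀ S : Finset (ι ⊕ ι), S.Nonempty →
        (∑' l : ι ⊕ ι → ℤ, Real.exp (-(k * aa B ζ L (hf S + cst l)))) < ε / 2 := by
    refine (hA.1.eventually_lt_const (by norm_num)).and ?_
    rw [Filter.eventually_all]
    intro S
    by_cases hS' : S.Nonempty
    · filter_upwards [(hB S hS').1.eventually_lt_const (half_pos hε)] with k hk _
      exact hk
    · exact Filter.Eventually.of_forall fun k hk => absurd hk hS'
  obtain ⟨k₀, hk₀⟩ := Filter.eventually_atTop.1 hev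
  refine ⟨k₀, fun k hk hkpos w => ⟨Gf e B ζ L k w, isTk_Gf hS h k hkpos w, ?_⟩⟩
  obtain ⟨h1, h2⟩ := hk₀ k hk
  -- the value at `0`
  have hG : 1 / 2 < ‖Gf e B ζ L k w 0‖ := by
    have hs := summable_term h k hkpos w 0
    have h3 : Gf e B ζ L k w 0 = term e B ζ L k w 0 0 +
        ∑' l : {l : ι ⊕ ι → ℤ // l ≠ 0}, term e B ζ L k w l.1 0 := by
      have h4 := hs.tsum_subtype_add_tsum_subtype_compl ({0} : Set (ι ⊕ ι → ℤ))
      rw [tsum_singleton (0 : ι ⊕ ι → ℤ) (fun l => term e B ζ L k w l 0)] at h4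
      exact h4.symm
    have h4 : term e B ζ L k w 0 0 = 1 := by
      have h5 : vec B (cst (0 : ι ⊕ ι → ℤ)) = 0 := by
        unfold vec
        simp [cst]
      unfold term psi
      rw [h5, TT_one, dotp_zero_right]
      simp [q, dotp]
    have h5 : ‖∑' l : {l : ι ⊕ ι → ℤ // l ≠ 0}, term e B ζ L k w l.1 0‖ ≤
        ∑' l : {l : ι ⊕ ι → ℤ // l ≠ 0}, Real.exp (-(k * aa B ζ L (cst l.1))) := by
      refine tsum_of_norm_bounded (hA.2 k hkpos).hasSum fun l => ?_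
      unfold term
      rw [norm_mul, norm_psi, one_mul, norm_TT_one]
    rw [h3, h4]
    have h6 := norm_sub_norm_le (1 : ℂ)
      (-∑' l : {l : ι ⊕ ι → ℤ // l ≠ 0}, term e B ζ L k w l.1 0)
    rw [norm_one, norm_neg, sub_neg_eq_add] at h6
    linarith
  refine ⟨fun h0 => ?_, fun S hS' => ?_⟩
  · rw [h0, norm_zero] at hG
    linarith
  · rw [vec_hf, TT_Gf h]
    have h3 : ‖∑' l : ι ⊕ ι → ℤ, psi e B k w l *
        cexp (Real.pi * I * (k * (e (vec B (hf S)) (vec B (cst l)) : ℚ))) *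
        TT ζ (⇑(k • L)) (vec B (hf S) + vec B (cst l)) (fun _ => 1) 0‖ ≤
        ∑' l : ι ⊕ ι → ℤ, Real.exp (-(k * aa B ζ L (hf S + cst l))) := by
      refine tsum_of_norm_bounded ((hB S hS').2 k hkpos).hasSum fun l => ?_
      rw [norm_mul, norm_mul, norm_psi, one_mul, ← vec_add, norm_TT_one]
      have h4 : ‖cexp (Real.pi * I * (k * (e (vec B (hf S)) (vec B (cst l)) : ℚ)))‖ = 1 := by
        rw [Complex.norm_exp, Real.exp_eq_one_iff]
        have h5 : (Real.pi : ℂ) * I * (k * (e (vec B (hf S)) (vec B (cst l)) : ℚ)) =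
            ((Real.pi * (k * (e (vec B (hf S)) (vec B (cst l)) : ℚ)) : ℝ) : ℂ) * I := by
          push_cast
          ring
        rw [h5, Complex.re_ofReal_mul]
        simp
      rw [h4, one_mul]
    have h4 := h2 S hS'
    have h5 : ε / 2 ≤ ε * ‖Gf e B ζ L k w 0‖ := by
      have := mul_le_mul_of_nonneg_left hG.le hε.le
      linarith
    linarith

end Pool.Agent.SPF
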