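import Pool.Agent.SPF.Kit

/-!
# Shimura period relations: module PSB (positivity does not depend on the basis)
-/

open scoped BigOperators
open Complex

namespace Pool.Agent.SPF

noncomputable section

theorem psb_proof : Stmt_PSB := by
  intro V _ _ ι _ _ e B B' ζ L h
  refine ⟨h.rel, ?_⟩
  intro r hr
  set r' : ι ⊕ ι → ℝ := fun k => ∑ j, r j * ((B.repr (B' j) k : ℚ) : ℝ) with hr'
  have hne : r' ≠ 0 := by
    intro h0
    apply hr
    funext l
    have key : ∀ j, ∑ k, (B.repr (B' j) k) * (B'.repr (B k) l) = if j = l then 1 else 0 := by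
      intro j
      have h1 : B'.repr (∑ k, B.repr (B' j) k • B k) l = B'.repr (B' j) l := by
        rw [B.sum_repr]
      rw [map_sum, Finsupp.finsetSum_apply] at h1
      simp only [map_smul, Finsupp.smul_apply, smul_eq_mul] at h1
      rw [h1, B'.repr_self, Finsupp.single_apply]
    have h2 : ∑ k, r' k * ((B'.repr (B k) l : ℚ) : ℝ) = r l := by
      simp only [hr', Finset.sum_mul]
      rw [Finset.sum_comm]
      have h3 : ∀ j, ∑ k, r j * ((B.repr (B' j) k : ℚ) : ℝ) * ((B'.repr (B k) l : ℚ) : ℝ) =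
          r j * (if j = l then 1 else 0) := by
        intro j
        have := key j
        have h4 : ((∑ k, (B.repr (B' j) k) * (B'.repr (B k) l) : ℚ) : ℝ) =
            ((if j = l then 1 else 0 : ℚ) : ℝ) := by rw [this]
        have h5 : (((if j = l then 1 else 0 : ℚ)) : ℝ) = if j = l then 1 else 0 := by
          split_ifs <;> simp
        rw [h5] at h4
        push_cast at h4
        rw [← h4, Finset.mul_sum]
        exact Finset.sum_congr rfl fun k _ => by ring
      rw [Finset.sum_congr rfl fun j _ => h3 j]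
      simp
    rw [← h2, h0]
    simp
  have hpos := h.pos r' hne
  have heq : (∑ j, ∑ k, (r j : ℂ) * (r k : ℂ) * dotp (L (B' j)) (ζ (B' k))) =
      ∑ j, ∑ k, (r' j : ℂ) * (r' k : ℂ) * dotp (L (B j)) (ζ (B k)) := by
    have hb : ∀ j, B' j = ∑ k, B.repr (B' j) k • B k := fun j => (B.sum_repr _).symm
    have hL : ∀ j, L (B' j) = ∑ k, ((B.repr (B' j) k : ℚ) : ℂ) • L (B k) := by
      intro j
      conv_lhs => rw [hb j]
      rw [map_sum]
      refine Finset.sum_congr rfl fun k _ => ?_
      rw [map_smul]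
      funext i
      simp [Rat.smul_def]
    have hz : ∀ j, ζ (B' j) = ∑ k, ((B.repr (B' j) k : ℚ) : ℂ) • ζ (B k) := by
      intro j
      conv_lhs => rw [hb j]
      rw [map_sum]
      refine Finset.sum_congr rfl fun k _ => ?_
      rw [map_smul]
      funext i
      simp [Rat.smul_def]
    have hdl : ∀ (c : ι ⊕ ι → ℂ) (w : ι ⊕ ι → ι → ℂ) (z : ι → ℂ),
        dotp (∑ k, c k • w k) z = ∑ k, c k * dotp (w k) z := by
      intro c w z
      simp only [dotp, Finset.sum_apply, Pi.smul_apply, smul_eq_mul, Finset.sum_mul,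
        Finset.mul_sum]
      rw [Finset.sum_comm]
      exact Finset.sum_congr rfl fun k _ => Finset.sum_congr rfl fun i _ => by ring
    have hdr : ∀ (c : ι ⊕ ι → ℂ) (w : ι ⊕ ι → ι → ℂ) (z : ι → ℂ),
        dotp z (∑ k, c k • w k) = ∑ k, c k * dotp z (w k) := by
      intro c w z
      rw [dotp_comm, hdl]
      exact Finset.sum_congr rfl fun k _ => by rw [dotp_comm]
    have h1 : ∀ j k, dotp (L (B' j)) (ζ (B' k)) =
        ∑ l, ∑ m, ((B.repr (B' j) l : ℚ) : ℂ) * (((B.repr (B' k) m : ℚ) : ℂ) *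
          dotp (L (B l)) (ζ (B m))) := by
      intro j k
      rw [hL j, hdl]
      refine Finset.sum_congr rfl fun l _ => ?_
      rw [hz k, hdr, Finset.mul_sum]
    have hrc : ∀ k, (r' k : ℂ) = ∑ j, (r j : ℂ) * ((B.repr (B' j) k : ℚ) : ℂ) := by
      intro k
      simp only [hr']
      push_cast
      rfl
    simp only [h1, hrc]
    -- both sides: sum over j k l m
    have lhs : (∑ j, ∑ k, (r j : ℂ) * (r k : ℂ) * ∑ l, ∑ m, ((B.repr (B' j) l : ℚ) : ℂ) *
        (((B.repr (B' k) m : ℚ) : ℂ) * dotp (L (B l)) (ζ (B m)))) =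
        ∑ l, ∑ m, ∑ j, ∑ k, (r j : ℂ) * ((B.repr (B' j) l : ℚ) : ℂ) *
          ((r k : ℂ) * ((B.repr (B' k) m : ℚ) : ℂ)) * dotp (L (B l)) (ζ (B m)) := by
      simp only [Finset.mul_sum]
      have s1 : ∀ j, ∑ k, ∑ l, ∑ m, (r j : ℂ) * (r k : ℂ) * (((B.repr (B' j) l : ℚ) : ℂ) *
          (((B.repr (B' k) m : ℚ) : ℂ) * dotp (L (B l)) (ζ (B m)))) =
          ∑ l, ∑ m, ∑ k, (r j : ℂ) * (r k : ℂ) * (((B.repr (B' j) l : ℚ) : ℂ) *
          (((B.repr (B' k) m : ℚ) : ℂ) * dotp (L (B l)) (ζ (B m)))) := by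
        intro j
        rw [Finset.sum_comm]
        refine Finset.sum_congr rfl fun l _ => ?_
        rw [Finset.sum_comm]
      rw [Finset.sum_congr rfl fun j _ => s1 j]
      rw [Finset.sum_comm]
      refine Finset.sum_congr rfl fun l _ => ?_
      rw [Finset.sum_comm]
      refine Finset.sum_congr rfl fun m _ => ?_
      refine Finset.sum_congr rfl fun j _ => ?_
      refine Finset.sum_congr rfl fun k _ => ?_
      ring
    rw [lhs]
    refine Finset.sum_congr rfl fun l _ => ?_
    refine Finset.sum_congr rfl fun m _ => ?_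
    rw [Finset.sum_mul_sum, Finset.sum_mul]
    refine Finset.sum_congr rfl fun j _ => ?_
    rw [Finset.sum_mul]
  rw [heq]
  exact hpos

end

end Pool.Agent.SPF
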