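import Pool.Agent.SPF.Defs

/-!
# Shimura period relations, core: exact statements of the modules

Text: /team-store/SPR_H43.md and /team-store/SPR_H43b.md
-/

open scoped BigOperators
open Complex

namespace Pool.Agent.SPF

noncomputable section

/-! ## General theta functions -/

/-- Uniqueness of the theta function (Fourier series). -/
def Stmt_THU : Prop :=
  ∀ (V : Type) [AddCommGroup V] [Module ℚ V] (ι : Type) [Fintype ι] [DecidableEq ι]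
    (e : V →ₗ[ℚ] V →ₗ[ℚ] ℚ) (B : Module.Basis (ι ⊕ ι) ℚ V) (ζ L : V →ₗ[ℚ] (ι → ℂ)),
    SympBasis e B → IsPStr e B ζ L → ∀ F F' : (ι → ℂ) → ℂ, IsTh ζ L B F → IsTh ζ L B F' → F ≠ 0 →
      ∃ a : ℂ, F' = fun z => a * F z

/-- Existence in holomorphic families (Lagrangian theta series). -/
def Stmt_THE : Prop :=
  ∀ (V : Type) [AddCommGroup V] [Module ℚ V] (ι : Type) [Fintype ι] [DecidableEq ι]
    (e : V →ₗ[ℚ] V →ₗ[ℚ] ℚ) (B : Module.Basis (ι ⊕ ι) ℚ V) (κ : Type) [Fintype κ]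
    (Dom : Set (κ → ℂ)) (ζ : (κ → ℂ) → V →ₗ[ℚ] (ι → ℂ)) (L : V →ₗ[ℚ] (ι → ℂ)),
    IsOpen Dom → (∀ x i, DifferentiableOn ℂ (fun s => ζ s x i) Dom) → SympBasis e B →
    (∀ s ∈ Dom, IsPStr e B (ζ s) L) →
    ∃ Θ : (κ → ℂ) → (ι → ℂ) → ℂ,
      DifferentiableOn ℂ (fun p : (κ → ℂ) × (ι → ℂ) => Θ p.1 p.2) (Dom ×ˢ Set.univ) ∧
      ∀ s ∈ Dom, IsTh (ζ s) L B (Θ s) ∧ Θ s ≠ 0

/-- Existence of symplectic bases. -/
def Stmt_EXB : Prop :=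
  ∀ (V : Type) [AddCommGroup V] [Module ℚ V] [FiniteDimensional ℚ V] (ι : Type) [Fintype ι]
    [DecidableEq ι] (e : V →ₗ[ℚ] V →ₗ[ℚ] ℚ), (∀ x, e x x = 0) → (∀ x, (∀ y, e x y = 0) → x = 0) →
    Module.finrank ℚ V = 2 * Fintype.card ι → ∃ B : Module.Basis (ι ⊕ ι) ℚ V, SympBasis e B

/-- Averaging formula: one combination for all structures. -/
def Stmt_AVG : Prop :=
  ∀ (V : Type) [AddCommGroup V] [Module ℚ V] (ι : Type) [Fintype ι] [DecidableEq ι]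
    (e : V →ₗ[ℚ] V →ₗ[ℚ] ℚ) (B B' : Module.Basis (ι ⊕ ι) ℚ V), SympBasis e B → SympBasis e B' →
    ∃ C : V →₀ ℂ, (∀ y, Alg (C y)) ∧ ∀ (ζ L : V →ₗ[ℚ] (ι → ℂ)), IsPStr e B ζ L →
      ∀ F : (ι → ℂ) → ℂ, IsTh ζ L B F → F ≠ 0 → IsTh ζ L B' (comb ζ L C F) ∧ comb ζ L C F ≠ 0

/-- The positivity condition does not depend on the basis. -/
def Stmt_PSB : Prop :=
  ∀ (V : Type) [AddCommGroup V] [Module ℚ V] (ι : Type) [Fintype ι] [DecidableEq ι]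
    (e : V →ₗ[ℚ] V →ₗ[ℚ] ℚ) (B B' : Module.Basis (ι ⊕ ι) ℚ V) (ζ L : V →ₗ[ℚ] (ι → ℂ)),
    IsPStr e B ζ L → IsPStr e B' ζ L

/-- `S` does not depend on the choices. -/
def Stmt_SALL : Prop :=
  ∀ (V : Type) [AddCommGroup V] [Module ℚ V] (ι : Type) [Fintype ι] [DecidableEq ι]
    (e : V →ₗ[ℚ] V →ₗ[ℚ] ℚ) (ζ : V →ₗ[ℚ] (ι → ℂ)) (c : ι → ℂ), SS e ζ c →
    ∀ (B : Module.Basis (ι ⊕ ι) ℚ V) (L : V →ₗ[ℚ] (ι → ℂ)) (F : (ι → ℂ) → ℂ),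
      SympBasis e B → IsPStr e B ζ L → IsTh ζ L B F → F ≠ 0 → SDat ζ L F c

/-- Separation of holomorphic and antiholomorphic variables, first order. -/
def Stmt_SEP1 : Prop :=
  ∀ (V : Type) [AddCommGroup V] [Module ℚ V] (ι : Type) [Fintype ι] [DecidableEq ι]
    (e : V →ₗ[ℚ] V →ₗ[ℚ] ℚ) (B : Module.Basis (ι ⊕ ι) ℚ V) (ζ L : V →ₗ[ℚ] (ι → ℂ)),
    SympBasis e B → IsPStr e B ζ L → ∀ F : (ι → ℂ) → ℂ, IsTh ζ L B F → F ≠ 0 →
      (∃ x, TT ζ L x F 0 ≠ 0) ∧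
      ∀ u : ι → ℂ, u ≠ 0 → ∀ κ : ℂ, ∃ x, ∑ i, u i * pd i (TT ζ L x F) 0 ≠ κ * TT ζ L x F 0

/-! ## The family -/

section

variable (E : Type) [Field E] [NumberField E] (I J : Type) [Fintype I] [Fintype J]
  [DecidableEq I] [DecidableEq J]

end

/-- The structures of the family are positive. -/
def Stmt_POSF : Prop :=
  ∀ (E : Type) [Field E] [NumberField E] (I J : Type) [Fintype I] [Fintype J] [DecidableEq I]
    [DecidableEq J] (D : FamData E I J) (B : Module.Basis (Co I J ⊕ Co I J) ℚ (E × E)),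
    SympBasis D.e B → ∀ s ∈ D.Dom, IsPStr D.e B (D.zeta s) D.L

/-- Existence of a symplectic basis for the family. -/
def Stmt_EXF : Prop :=
  ∀ (E : Type) [Field E] [NumberField E] (I J : Type) [Fintype I] [Fintype J] [DecidableEq I]
    [DecidableEq J] (D : FamData E I J),
    ∃ B : Module.Basis (Co I J ⊕ Co I J) ℚ (E × E), SympBasis D.e B

/-- Nulls and gradients are holomorphic. -/
def Stmt_HOLO : Prop :=
  ∀ (E : Type) [Field E] [NumberField E] (I J : Type) [Fintype I] [Fintype J] [DecidableEq I]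
    [DecidableEq J] (D : FamData E I J) (B : Module.Basis (Co I J ⊕ Co I J) ℚ (E × E))
    (Θ : (I → ℂ) → (Co I J → ℂ) → ℂ), D.ThFam B Θ → ∀ x, DifferentiableOn ℂ (D.W Θ x) D.Dom ∧
      ∀ i, DifferentiableOn ℂ (D.G Θ i x) D.Dom

/-- Heat equation. -/
def Stmt_HEAT : Prop :=
  ∀ (E : Type) [Field E] [NumberField E] (I J : Type) [Fintype I] [Fintype J] [DecidableEq I]
    [DecidableEq J] (D : FamData E I J) (B : Module.Basis (Co I J ⊕ Co I J) ℚ (E × E))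
    (Θ : (I → ℂ) → (Co I J → ℂ) → ℂ), SympBasis D.e B → D.ThFam B Θ → ∀ s ∈ D.Dom, ∀ v : I,
    ∃ f : ℂ, ∀ x, pd v (D.W Θ x) s = 1 / D.Bc (Sum.inl v) *
      pd (FamData.i1 v) (fun z => pd (FamData.i2 v) (TT (D.zeta s) D.L x (Θ s)) z) 0 +
      f * D.W Θ x s

/-- Isometries: algebraic identities. -/
def Stmt_ISO : Prop :=
  ∀ (E : Type) [Field E] [NumberField E] (I J : Type) [Fintype I] [Fintype J] [DecidableEq I]
    [DecidableEq J] (D : FamData E I J) (g : D.Iso),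
    g.det * D.bar g.det = 1 ∧ (∀ x y, D.e (g.app x) (g.app y) = D.e x y) ∧
    (∀ x, ∃ y, g.app y = x) ∧
    ∀ s ∈ D.Dom, (∀ v, g.j s v ≠ 0) ∧ g.act s ∈ D.Dom ∧
      (∀ x, D.zeta (g.act s) (g.app x) = g.M s (D.zeta s x)) ∧
      (∀ z, ∃ z', g.M s z' = z) ∧
      ∀ (F : (Co I J → ℂ) → ℂ) x z, TT (D.zeta (g.act s)) D.L (g.app x) F (g.M s z) =
        cexp (g.Q s z) * TT (D.zeta s) D.L x (fun z' => cexp (-(g.Q s z')) * F (g.M s z')) z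

/-- the Hecke sum -/
def Hsum {V : Type} [AddCommGroup V] [Module ℚ V] (e : V →ₗ[ℚ] V →ₗ[ℚ] ℚ) (C : V →₀ ℂ) (f : V → ℂ)
    (x : V) : ℂ :=
  C.sum fun y a => a * cexp (Real.pi * I * (e x y : ℚ)) * f (x + y)

/-- Hecke rule. -/
def Stmt_REL : Prop :=
  ∀ (E : Type) [Field E] [NumberField E] (I J : Type) [Fintype I] [Fintype J] [DecidableEq I]
    [DecidableEq J] (D : FamData E I J) (B : Module.Basis (Co I J ⊕ Co I J) ℚ (E × E))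
    (Θ : (I → ℂ) → (Co I J → ℂ) → ℂ), SympBasis D.e B → D.ThFam B Θ → ∀ g : D.Iso,
    ∃ C : (E × E) →₀ ℂ, (∀ y, Alg (C y)) ∧ ∀ s ∈ D.Dom, ∃ κ : ℂ, κ ≠ 0 ∧ ∀ x : E × E,
      D.W Θ (g.app x) (g.act s) = κ * Hsum D.e C (fun y => D.W Θ y s) x ∧
      (∀ v : I, D.t (Sum.inl v) g.det / g.j s v * D.G Θ (FamData.i1 v) (g.app x) (g.act s) =
          κ * Hsum D.e C (fun y => D.G Θ (FamData.i1 v) y s) x ∧
        1 / g.j s v * D.G Θ (FamData.i2 v) (g.app x) (g.act s) =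
          κ * Hsum D.e C (fun y => D.G Θ (FamData.i2 v) y s) x) ∧
      ∀ v : J, D.t (Sum.inr v) g.a * D.G Θ (FamData.j1 v) (g.app x) (g.act s) +
            D.t (Sum.inr v) g.c * D.G Θ (FamData.j2 v) (g.app x) (g.act s) =
          κ * Hsum D.e C (fun y => D.G Θ (FamData.j1 v) y s) x ∧
        D.t (Sum.inr v) g.b * D.G Θ (FamData.j1 v) (g.app x) (g.act s) +
            D.t (Sum.inr v) g.d * D.G Θ (FamData.j2 v) (g.app x) (g.act s) =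
          κ * Hsum D.e C (fun y => D.G Θ (FamData.j2 v) y s) x

/-- Invariance under the arithmetic group of level 2 (all points `x`). -/
def Stmt_INV0 : Prop :=
  ∀ (E : Type) [Field E] [NumberField E] (I J : Type) [Fintype I] [Fintype J] [DecidableEq I]
    [DecidableEq J] (D : FamData E I J) (B : Module.Basis (Co I J ⊕ Co I J) ℚ (E × E))
    (Θ : (I → ℂ) → (Co I J → ℂ) → ℂ), SympBasis D.e B → D.ThFam B Θ →
    ∀ g ∈ D.Gam B 2, ∀ s ∈ D.Dom, ∃ κ : ℂ, κ ≠ 0 ∧ ∀ x y : E × E,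
      D.W Θ (g.app x) (g.act s) = κ * D.W Θ x s ∧
      (∀ v : I, D.G Θ (FamData.i1 v) (g.app x) (g.act s) = κ * g.j s v * D.G Θ (FamData.i1 v) x s ∧
        D.G Θ (FamData.i2 v) (g.app x) (g.act s) = κ * g.j s v * D.G Θ (FamData.i2 v) x s) ∧
      ∀ v : J, D.Mi Θ v (g.app x) (g.app y) (g.act s) = κ ^ 2 * D.Mi Θ v x y s

/-- Exact invariance for points of `(1/m) Λ` under the group of level `2 m ^ 2`. -/
def Stmt_INV : Prop :=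
  ∀ (E : Type) [Field E] [NumberField E] (I J : Type) [Fintype I] [Fintype J] [DecidableEq I]
    [DecidableEq J] (D : FamData E I J) (B : Module.Basis (Co I J ⊕ Co I J) ℚ (E × E))
    (Θ : (I → ℂ) → (Co I J → ℂ) → ℂ), SympBasis D.e B → D.ThFam B Θ → ∀ m : ℕ, 0 < m →
    ∀ g ∈ D.Gam B (2 * m ^ 2), ∀ s ∈ D.Dom, ∃ κ : ℂ, κ ≠ 0 ∧ ∀ x y : E × E,
      (m : ℚ) • x ∈ lat B → (m : ℚ) • y ∈ lat B →
      D.W Θ x (g.act s) = κ * D.W Θ x s ∧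
      (∀ v : I, D.G Θ (FamData.i1 v) x (g.act s) = κ * g.j s v * D.G Θ (FamData.i1 v) x s ∧
        D.G Θ (FamData.i2 v) x (g.act s) = κ * g.j s v * D.G Θ (FamData.i2 v) x s) ∧
      ∀ v : J, D.Mi Θ v x y (g.act s) = κ ^ 2 * D.Mi Θ v x y s

/-- Compactness. -/
def Stmt_CPT : Prop :=
  ∀ (E : Type) [Field E] [NumberField E] (I J : Type) [Fintype I] [Fintype J] [DecidableEq I]
    [DecidableEq J] [Nonempty J] (D : FamData E I J)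
    (B : Module.Basis (Co I J ⊕ Co I J) ℚ (E × E)), SympBasis D.e B → ∀ N : ℕ, 0 < N →
    ∃ K : Set (I → ℂ), IsCompact K ∧ K ⊆ D.Dom ∧ ∀ s ∈ D.Dom, ∃ g ∈ D.Gam B N, g.act s ∈ K

/-- Density of the orbits of isometries. -/
def Stmt_DEN : Prop :=
  ∀ (E : Type) [Field E] [NumberField E] (I J : Type) [Fintype I] [Fintype J] [DecidableEq I]
    [DecidableEq J] (D : FamData E I J), ∀ q ∈ D.Dom, ∀ s ∈ D.Dom, ∀ ε > 0,
    ∃ g : D.Iso, dist (g.act q) s < ε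

/-- Separation, second order, at the centre of the family. -/
def Stmt_SEP2 : Prop :=
  ∀ (E : Type) [Field E] [NumberField E] (I J : Type) [Fintype I] [Fintype J] [DecidableEq I]
    [DecidableEq J] (D : FamData E I J) (B : Module.Basis (Co I J ⊕ Co I J) ℚ (E × E))
    (F : (Co I J → ℂ) → ℂ), SympBasis D.e B → IsTh (D.zeta 0) D.L B F → F ≠ 0 →
    ∀ a : I → ℂ, a ≠ 0 → ∀ κ : ℂ, ∃ x, ∑ v, a v *
      pd (FamData.i1 v) (fun z => pd (FamData.i2 v) (TT (D.zeta 0) D.L x F) z) 0 ≠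
        κ * TT (D.zeta 0) D.L x F 0

/-- No common zeros. -/
def Stmt_NOZ : Prop :=
  ∀ (E : Type) [Field E] [NumberField E] (I J : Type) [Fintype I] [Fintype J] [DecidableEq I]
    [DecidableEq J] [Nonempty J] (D : FamData E I J)
    (B : Module.Basis (Co I J ⊕ Co I J) ℚ (E × E)) (Θ : (I → ℂ) → (Co I J → ℂ) → ℂ),
    SympBasis D.e B → D.ThFam B Θ → ∃ m₀ : ℕ, 0 < m₀ ∧ ∀ m : ℕ, 0 < m → m₀ ∣ m → ∀ s ∈ D.Dom,
      (∃ x ∈ FamData.Rm B m, D.W Θ x s ≠ 0) ∧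
      (∀ v : I, (∃ x ∈ FamData.Rm B m, D.G Θ (FamData.i1 v) x s ≠ 0) ∧
        ∃ x ∈ FamData.Rm B m, D.G Θ (FamData.i2 v) x s ≠ 0) ∧
      ∀ v : J, ∃ x ∈ FamData.Rm B m, ∃ y ∈ FamData.Rm B m, D.Mi Θ v x y s ≠ 0

/-! ## Abstract lemmas -/

/-- Algebraic dependence over the algebraic numbers. -/
def Stmt_ARI : Prop :=
  ∀ (r κ₁ κ₂ : Type) [Fintype r] [DecidableEq r] [Fintype κ₁] [Fintype κ₂]
    (Dom K A : Set (r → ℂ)) (Wf : κ₁ → (r → ℂ) → ℂ) (Yf : κ₂ → (r → ℂ) → ℂ),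
    IsOpen Dom → IsCompact K → K ⊆ Dom → A ⊆ Dom → Dom ⊆ closure A →
    (∀ k, DifferentiableOn ℂ (Wf k) Dom) → (∀ l, DifferentiableOn ℂ (Yf l) Dom) →
    (∀ s ∈ Dom, ∃ k, Wf k s ≠ 0) → (∀ s ∈ Dom, ∃ l, Yf l s ≠ 0) →
    (∀ s ∈ Dom, ∃ s' ∈ K, (∃ a : ℂ, a ≠ 0 ∧ ∀ k, Wf k s' = a * Wf k s) ∧
      ∃ a : ℂ, a ≠ 0 ∧ ∀ l, Yf l s' = a * Yf l s) →
    (∀ s ∈ A, (∃ a : ℂ, a ≠ 0 ∧ ∀ k, Alg (Wf k s / a)) ∧ ∃ a : ℂ, a ≠ 0 ∧ ∀ l, Alg (Yf l s / a)) →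
    ∀ (k₀ : κ₁) (ks : r → κ₁) (l₀ l₁ : κ₂), ∃ P : MvPolynomial (Option r) ℂ, P ≠ 0 ∧ AlgPoly P ∧
      ∀ s ∈ Dom, Wf k₀ s ≠ 0 → Yf l₀ s ≠ 0 →
        MvPolynomial.eval (fun o : Option r => o.elim (Yf l₁ s / Yf l₀ s)
          (fun i => Wf (ks i) s / Wf k₀ s)) P = 0

/-- Derivations of `ℂ`. -/
def Stmt_DER : Prop :=
  ∀ x : ℂ, (∀ δ : Derivation ℚ ℂ ℂ, δ x = 0) → Alg x

/-- The derivation claim. -/
def Stmt_CLM : Prop :=
  ∀ (r : Type) [Fintype r] [DecidableEq r] (z₀ : r → ℂ) (ψ : r → (r → ℂ) → ℂ) (φ : (r → ℂ) → ℂ)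
    (P : MvPolynomial (Option r) ℂ), (∀ i, AnalyticAt ℂ (ψ i) z₀) → AnalyticAt ℂ φ z₀ →
    P ≠ 0 → AlgPoly P →
    (∀ᶠ s in nhds z₀, MvPolynomial.eval (fun o : Option r => o.elim (φ s) (fun i => ψ i s)) P = 0) →
    (Matrix.of fun i j => pd j (ψ i) z₀).det ≠ 0 →
    ∀ (δ : Derivation ℚ ℂ ℂ) (X : r → ℂ), (∀ i, ∑ j, X j * pd j (ψ i) z₀ = δ (ψ i z₀)) →
      δ (φ z₀) = ∑ j, X j * pd j φ z₀

/-! ## The step -/

/-- the quotient `A / B'` is algebraic over `ℚbar(W_x / W_y)` -/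
def FamData.Rel {E : Type} [Field E] [NumberField E] {I J : Type} [Fintype I] [Fintype J]
    [DecidableEq I] [DecidableEq J] (D : FamData E I J) (Θ : (I → ℂ) → (Co I J → ℂ) → ℂ)
    (A B' : (I → ℂ) → ℂ) : Prop :=
  ∀ (y₀ : E × E) (xs : I → E × E), ∃ P : MvPolynomial (Option I) ℂ, P ≠ 0 ∧ AlgPoly P ∧
    ∀ s ∈ D.Dom, D.W Θ y₀ s ≠ 0 → B' s ≠ 0 →
      MvPolynomial.eval (fun o : Option I => o.elim (A s / B' s)
        (fun v => D.W Θ (xs v) s / D.W Θ y₀ s)) P = 0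

/-- Arithmetic functions of the family. -/
def Stmt_ALG : Prop :=
  ∀ (E : Type) [Field E] [NumberField E] (I J : Type) [Fintype I] [Fintype J] [DecidableEq I]
    [DecidableEq J] [Nonempty J] (D : FamData E I J)
    (B : Module.Basis (Co I J ⊕ Co I J) ℚ (E × E)) (Θ : (I → ℂ) → (Co I J → ℂ) → ℂ)
    (q : I → ℂ) (C : J → ℂ),
    SympBasis D.e B → D.ThFam B Θ → q ∈ D.Dom → (∀ v, C v ≠ 0) → D.Hq Θ q C →
      (∀ x y, D.Rel Θ (D.W Θ x) (D.W Θ y)) ∧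
      (∀ (v : I) x y, D.Rel Θ (D.G Θ (FamData.i1 v) x) (D.G Θ (FamData.i1 v) y) ∧
        D.Rel Θ (D.G Θ (FamData.i2 v) x) (D.G Θ (FamData.i2 v) y)) ∧
      (∀ (v : J) x y x' y', D.Rel Θ (D.Mi Θ v x y) (D.Mi Θ v x' y')) ∧
      ∀ (v : J) x y z, D.Rel Θ (D.Mi Θ v x y) (fun s => C v * D.W Θ z s ^ 2)

/-- The step theorem (centre of the family). -/
def Stmt_STEP0 : Prop :=
  ∀ (E : Type) [Field E] [NumberField E] (I J : Type) [Fintype I] [Fintype J] [DecidableEq I]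
    [DecidableEq J] [Nonempty J] (D : FamData E I J)
    (B : Module.Basis (Co I J ⊕ Co I J) ℚ (E × E)) (Θ : (I → ℂ) → (Co I J → ℂ) → ℂ)
    (q : I → ℂ) (C : J → ℂ),
    SympBasis D.e B → D.ThFam B Θ → q ∈ D.Dom → (∀ v, C v ≠ 0) → D.Hq Θ q C →
      ∃ c : Co I J → ℂ, (∀ i, c i ≠ 0) ∧ SDat (D.zeta 0) D.L (Θ 0) c ∧
        ∀ v : J, Alg (c (FamData.j1 v) * c (FamData.j2 v) / C v)

end

end Pool.Agent.SPF
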